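import Pool.Agent.GT33.Defs

/-!
# Trees and co-trees: from plane graphs to medial maps and back

The crossings of the medial map are the edges of `G`.  A sector of the medial map is a dart `d` of `G`
together with a side: `(d, true)` is the sector at the crossing `d.edge` which belongs to the vertex
`d.fst`, `(d, false)` is the sector which belongs to the face to the right of `d`.  As darts of the
medial map these are the edges to the left and to the right of `d` at its starting vertex.
-/

namespace GT33

open SN78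

universe u

variable {V : Type u} {G : SimpleGraph V}

/-! ### generalities -/

theorem sameCycle_ind {α : Type*} [Finite α] {f : Equiv.Perm α} {P : α → Prop}
    (h : ∀ x, P x → P (f x)) {x y : α} (hxy : f.SameCycle x y) (hx : P x) : P y := by
  obtain ⟨n, hn⟩ := hxy.exists_nat_pow_eq
  rw [← hn]
  clear hn hxy
  induction n with
  | zero => simpa using hx
  | succ n ih =>
    rw [pow_succ', Equiv.Perm.mul_apply]
    exact h _ ih

theorem conn_ind {W : Type*} {H : SimpleGraph W} (hH : H.Preconnected) {P : W → Prop}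
    (h : ∀ a b, H.Adj a b → P a → P b) {a : W} (ha : P a) (b : W) : P b := by
  obtain ⟨p⟩ := hH a b
  induction p with
  | nil => exact ha
  | cons hab _ ih => exact ih (h _ _ hab ha)

instance dart_finite [Finite V] : Finite G.Dart :=
  Finite.of_injective _ SimpleGraph.Dart.toProd_injective

instance face_finite [Finite V] (R : Rotation G) : Finite R.Face := by
  unfold Rotation.Face
  infer_instance

theorem edge_eq_iff (d d' : G.Dart) : d.edge = d'.edge ↔ d = d' ∨ d = d'.symm :=
  SimpleGraph.dart_edge_eq_iff d d'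

/-! ### 3-connected graphs -/

namespace ThreeConnected

theorem exists_nbr (hG : ThreeConnected G) {S : Set V} (hS : S.ncard ≤ 2) {v : V} (hv : v ∉ S) :
    ∃ d : G.Dart, d.fst = v ∧ d.snd ∉ S := by
  classical
  have h1 : (insert v S).ncard ≤ 3 := (Set.ncard_insert_le _ _).trans (by omega)
  have h2 : ∃ z, z ∉ insert v S := by
    by_contra h
    push Not at h
    have h3 : insert v S = Set.univ := Set.eq_univ_of_forall h
    rw [h3, Set.ncard_univ] at h1
    have := hG.1
    omega
  obtain ⟨z, hz⟩ := h2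
  rw [Set.mem_insert_iff, not_or] at hz
  by_contra hno
  push Not at hno
  have h4 := conn_ind (hG.2 S hS).preconnected (P := fun x => x.1 = v) (by
    rintro ⟨a, ha⟩ ⟨b, hb⟩ hab hav
    simp only [SimpleGraph.comap_adj, Function.Embedding.subtype_apply] at hab hav
    subst hav
    exact absurd (hno ⟨(a, b), hab⟩ rfl) hb) (a := ⟨v, hv⟩) rfl ⟨z, hz.2⟩
  exact hz.1 h4

theorem exists_dart (hG : ThreeConnected G) (v : V) : ∃ d : G.Dart, d.fst = v := by
  obtain ⟨d, hd, -⟩ := hG.exists_nbr (S := ∅) (by simp) (v := v) (by simp)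
  exact ⟨d, hd⟩

theorem exists_dart2 (hG : ThreeConnected G) (v : V) :
    ∃ d d' : G.Dart, d.fst = v ∧ d'.fst = v ∧ d ≠ d' := by
  obtain ⟨d, hd⟩ := hG.exists_dart v
  obtain ⟨d', hd', hs⟩ := hG.exists_nbr (S := {d.snd}) (by simp) (v := v) (by
    rw [Set.mem_singleton_iff, ← hd]
    exact d.fst_ne_snd)
  refine ⟨d, d', hd, hd', ?_⟩
  rintro rfl
  exact hs rfl

theorem card_dart [Finite V] (hG : ThreeConnected G) : 8 ≤ Nat.card G.Dart := by
  classical
  choose a b ha hb hab using hG.exists_dart2
  have h1 : Nat.card (V × Bool) ≤ Nat.card G.Dart := by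
    apply Nat.card_le_card_of_injective fun p : V × Bool => if p.2 then a p.1 else b p.1
    rintro ⟨v, s⟩ ⟨w, t⟩ h
    have h2 : v = w := by
      have h3 := congrArg (fun d : G.Dart => d.fst) h
      cases s <;> cases t <;> simpa [ha, hb] using h3
    subst h2
    cases s <;> cases t
    · rfl
    · exact absurd h.symm (hab v)
    · exact absurd h (hab v)
    · rfl
  rw [Nat.card_prod, Nat.card_eq_fintype_card (α := Bool), Fintype.card_bool] at h1
  have := hG.1
  omega

/-- A set of darts closed under reversal such that at most two vertices have darts inside and outside: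
at most two vertices meet it or at most two vertices meet its complement. -/
theorem sep (hG : ThreeConnected G) (A : G.Dart → Prop) (hA : ∀ d, A d → A d.symm)
    (hS : {v : V | (∃ d : G.Dart, d.fst = v ∧ A d) ∧ ∃ d : G.Dart, d.fst = v ∧ ¬ A d}.ncard ≤ 2) :
    (∀ d, ¬ A d → d.fst ∈ {v : V | (∃ d : G.Dart, d.fst = v ∧ A d) ∧ ∃ d : G.Dart, d.fst = v ∧ ¬ A d}) ∨
    (∀ d, A d → d.fst ∈ {v : V | (∃ d : G.Dart, d.fst = v ∧ A d) ∧ ∃ d : G.Dart, d.fst = v ∧ ¬ A d}) := by
  set S := {v : V | (∃ d : G.Dart, d.fst = v ∧ A d) ∧ ∃ d : G.Dart, d.fst = v ∧ ¬ A d} with hSd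
  by_cases hP : ∃ v, v ∉ S ∧ ∃ d : G.Dart, d.fst = v ∧ A d
  · left
    obtain ⟨v, hv, hv2⟩ := hP
    intro d hd
    by_contra hn
    have h1 := conn_ind (hG.2 S hS).preconnected (P := fun x => ∃ d : G.Dart, d.fst = x.1 ∧ A d) (by
      rintro ⟨a, ha⟩ ⟨b, hb⟩ hab ⟨d, hd, hAd⟩
      simp only [SimpleGraph.comap_adj, Function.Embedding.subtype_apply] at hab
      by_cases h2 : A ⟨(a, b), hab⟩
      · exact ⟨_, rfl, hA _ h2⟩
      · exact absurd (show a ∈ S from ⟨⟨d, hd, hAd⟩, ⟨⟨(a, b), hab⟩, rfl, h2⟩⟩) ha)
      (a := ⟨v, hv⟩) hv2 ⟨d.fst, hn⟩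
    exact hn ⟨h1, ⟨d, rfl, hd⟩⟩
  · right
    intro d hd
    by_contra hn
    exact hP ⟨d.fst, hn, d, rfl, hd⟩

end ThreeConnected

theorem dart_eq_of_small [Finite V] {S : Set V} (hS : S.ncard ≤ 2) {d d' : G.Dart} (h1 : d.fst ∈ S)
    (h2 : d.snd ∈ S) (h3 : d'.fst ∈ S) (h4 : d'.snd ∈ S) : d.edge = d'.edge := by
  have hne := d.fst_ne_snd
  have hne' := d'.fst_ne_snd
  have hd : ({d.fst, d.snd} : Set V) = S := by
    refine Set.eq_of_subset_of_ncard_le ?_ ?_
    · intro x hx
      rcases hx with rfl | rfl
      · exact h1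
      · exact h2
    · rw [Set.ncard_pair hne]
      exact hS
  rw [← hd] at h3 h4
  rw [edge_eq_iff]
  rcases h3 with h3 | h3 <;> rcases h4 with h4 | h4
  · exact absurd (h3.trans h4.symm) hne'
  · left
    exact SimpleGraph.Dart.ext _ _ (Prod.ext h3.symm h4.symm)
  · right
    exact SimpleGraph.Dart.ext _ _ (Prod.ext h4.symm h3.symm)
  · exact absurd (h3.trans h4.symm) hne'

theorem face_fs {X : Type} (α : X × ZMod 4 → X × ZMod 4) (y : X × ZMod 4) :
    face α (fs α y) = face α y := by
  refine (Quot.sound ?_).symm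
  rfl

/-! ### the medial map on the darts with a side -/

/-- the next sector of the edge, counterclockwise -/
def nxD (p : G.Dart × Bool) : G.Dart × Bool := if p.2 then (p.1, false) else (p.1.symm, true)

/-- the previous sector of the edge -/
def pvD (p : G.Dart × Bool) : G.Dart × Bool := if p.2 then (p.1.symm, false) else (p.1, true)

/-- the involution of the medial map -/
def alD (R : Rotation G) (p : G.Dart × Bool) : G.Dart × Bool :=
  if p.2 then (R.next p.1, false) else (R.next.symm p.1, true)

theorem pvD_nxD (p : G.Dart × Bool) : pvD (nxD p) = p := by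
  rcases p with ⟨d, s⟩
  cases s <;> simp [pvD, nxD]

theorem nxD_pvD (p : G.Dart × Bool) : nxD (pvD p) = p := by
  rcases p with ⟨d, s⟩
  cases s <;> simp [pvD, nxD]

theorem nxD_nxD (p : G.Dart × Bool) : nxD (nxD p) = (p.1.symm, p.2) := by
  rcases p with ⟨d, s⟩
  cases s <;> simp [nxD]

theorem nxD_edge (p : G.Dart × Bool) : (nxD p).1.edge = p.1.edge := by
  rcases p with ⟨d, s⟩
  cases s <;> simp [nxD]

theorem alD_alD (R : Rotation G) (p : G.Dart × Bool) : alD R (alD R p) = p := by
  rcases p with ⟨d, s⟩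
  cases s <;> simp [alD]

theorem alD_snd (R : Rotation G) (p : G.Dart × Bool) : (alD R p).2 = !p.2 := by
  rcases p with ⟨d, s⟩
  cases s <;> simp [alD]

theorem nxD_snd (p : G.Dart × Bool) : (nxD p).2 = !p.2 := by
  rcases p with ⟨d, s⟩
  cases s <;> simp [nxD]

/-- A numbering of the edges of `G` by `X`: the sectors are numbered by `X × ZMod 4`. -/
structure Num (G : SimpleGraph V) (X : Type) where
  E : X × ZMod 4 ≃ G.Dart × Bool
  nx : ∀ y, E (SN78.nx y) = nxD (E y)
  edge : ∀ y z, y.1 = z.1 ↔ (E y).1.edge = (E z).1.edge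

theorem exists_edge_dart (e : G.edgeSet) : ∃ d : G.Dart, d.edge = e.1 := by
  obtain ⟨e, he⟩ := e
  induction e using Sym2.ind with
  | h a b => exact ⟨⟨(a, b), he⟩, rfl⟩

theorem exists_num [Finite V] (G : SimpleGraph V) : Nonempty (Num G (Fin (Nat.card G.edgeSet))) := by
  classical
  let e : G.edgeSet ≃ Fin (Nat.card G.edgeSet) := Finite.equivFin _
  choose c hc using exists_edge_dart (G := G)
  let F : Fin (Nat.card G.edgeSet) × ZMod 4 → G.Dart × Bool := fun y =>
    if y.2 = 0 then (c (e.symm y.1), false) else if y.2 = 1 then ((c (e.symm y.1)).symm, true)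
    else if y.2 = 2 then ((c (e.symm y.1)).symm, false) else (c (e.symm y.1), true)
  have hF0 : ∀ x, F (x, 0) = (c (e.symm x), false) := fun x => by simp [F]
  have hF1 : ∀ x, F (x, 1) = ((c (e.symm x)).symm, true) := fun x => by
    simp only [F]
    rw [if_neg (by decide), if_true]
  have hF2 : ∀ x, F (x, 2) = ((c (e.symm x)).symm, false) := fun x => by
    simp only [F]
    rw [if_neg (by decide), if_neg (by decide), if_true]
  have hF3 : ∀ x, F (x, 3) = (c (e.symm x), true) := fun x => by
    simp only [F]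
    rw [if_neg (by decide), if_neg (by decide), if_neg (by decide)]
  have hall : ∀ i : ZMod 4, i = 0 ∨ i = 1 ∨ i = 2 ∨ i = 3 := by decide
  have hedge : ∀ y, (F y).1.edge = (e.symm y.1).1 := by
    rintro ⟨x, i⟩
    rcases hall i with rfl | rfl | rfl | rfl
    · rw [hF0, hc]
    · rw [hF1, SimpleGraph.Dart.edge_symm, hc]
    · rw [hF2, SimpleGraph.Dart.edge_symm, hc]
    · rw [hF3, hc]
  have hedge2 : ∀ y z, y.1 = z.1 ↔ (F y).1.edge = (F z).1.edge := by
    intro y z
    rw [hedge, hedge]
    constructor
    · intro h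
      rw [h]
    · intro h
      exact e.symm.injective (Subtype.ext h)
  have hinj : Function.Injective F := by
    rintro ⟨x, i⟩ ⟨y, j⟩ h
    have h1 : x = y := (hedge2 (x, i) (y, j)).2 (by rw [h])
    subst h1
    have hn := (c (e.symm x)).symm_ne
    rcases hall i with rfl | rfl | rfl | rfl <;> rcases hall j with rfl | rfl | rfl | rfl <;>
      simp only [hF0, hF1, hF2, hF3, Prod.mk.injEq, hn, hn.symm, and_false, and_true,
        Bool.false_eq_true, Bool.true_eq_false] at h ⊢
  have hsurj : Function.Surjective F := by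
    rintro ⟨d, s⟩
    have h1 : (c (e.symm (e ⟨d.edge, d.edge_mem⟩))).edge = d.edge := by
      rw [Equiv.symm_apply_apply, hc]
    set x := e ⟨d.edge, d.edge_mem⟩
    rcases (edge_eq_iff _ _).1 h1 with h2 | h2
    · cases s
      · exact ⟨(x, 0), by rw [hF0, h2]⟩
      · exact ⟨(x, 3), by rw [hF3, h2]⟩
    · cases s
      · exact ⟨(x, 2), by rw [hF2, h2, SimpleGraph.Dart.symm_symm]⟩
      · exact ⟨(x, 1), by rw [hF1, h2, SimpleGraph.Dart.symm_symm]⟩
  refine ⟨⟨Equiv.ofBijective F ⟨hinj, hsurj⟩, ?_, hedge2⟩⟩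
  rintro ⟨x, i⟩
  rcases hall i with rfl | rfl | rfl | rfl
  · show F (x, 0 + 1) = nxD (F (x, 0))
    rw [show (0 + 1 : ZMod 4) = 1 by decide, hF0, hF1]
    rfl
  · show F (x, 1 + 1) = nxD (F (x, 1))
    rw [show (1 + 1 : ZMod 4) = 2 by decide, hF1, hF2]
    rfl
  · show F (x, 2 + 1) = nxD (F (x, 2))
    rw [show (2 + 1 : ZMod 4) = 3 by decide, hF2, hF3]
    simp [nxD]
  · show F (x, 3 + 1) = nxD (F (x, 3))
    rw [show (3 + 1 : ZMod 4) = 0 by decide, hF3, hF0]
    rfl

namespace Num

variable {X : Type} (N : Num G X) (R : Rotation G)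

/-- the medial map -/
def med (y : X × ZMod 4) : X × ZMod 4 := N.E.symm (alD R (N.E y))

theorem E_med (y : X × ZMod 4) : N.E (N.med R y) = alD R (N.E y) := by simp [med]

theorem E_pv (y : X × ZMod 4) : N.E (pv y) = pvD (N.E y) := by
  have h := N.nx (pv y)
  rw [nx_pv] at h
  rw [h, pvD_nxD]

theorem E_op (y : X × ZMod 4) : N.E (op y) = ((N.E y).1.symm, (N.E y).2) := by
  rw [← nx_nx, N.nx, N.nx, nxD_nxD]

theorem med_med (y : X × ZMod 4) : N.med R (N.med R y) = y := by
  simp [med, alD_alD]

theorem med_ne (y : X × ZMod 4) : N.med R y ≠ y := by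
  intro h
  have h1 := congrArg (fun z => (N.E z).2) h
  simp only [E_med, alD_snd] at h1
  cases h2 : (N.E y).2 <;> simp [h2] at h1

/-- the checkerboard colouring -/
def col (y : X × ZMod 4) : Bool := (N.E y).2

theorem check : Check (N.med R) N.col :=
  ⟨fun d => by simp only [col, N.nx, nxD_snd], fun d => by simp only [col, E_med, alD_snd]⟩

theorem E_fs_true {y : X × ZMod 4} {d : G.Dart} (h : N.E y = (d, true)) :
    N.E (fs (N.med R) y) = (R.next d, true) := by
  rw [fs, E_pv, E_med, h]
  simp [alD, pvD]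

theorem E_fs_false {y : X × ZMod 4} {d : G.Dart} (h : N.E y = (d, false)) :
    N.E (fs (N.med R) y) = (R.walk.symm d, false) := by
  rw [fs, E_pv, E_med, h]
  simp [alD, pvD, Rotation.walk, rev]

theorem E_symm_fst (d : G.Dart) (s t : Bool) : (N.E.symm (d, s)).1 = (N.E.symm (d, t)).1 := by
  rw [N.edge]
  simp

theorem E_symm_fst' (d : G.Dart) (s t : Bool) :
    (N.E.symm (d.symm, s)).1 = (N.E.symm (d, t)).1 := by
  rw [N.edge]
  simp

/-- the crossing of a dart -/
def ed (d : G.Dart) : X := (N.E.symm (d, true)).1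

theorem ed_symm (d : G.Dart) : N.ed d.symm = N.ed d := N.E_symm_fst' d _ _

theorem ed_E (y : X × ZMod 4) : N.ed (N.E y).1 = y.1 := by
  rw [ed, N.edge]
  simp

theorem E_symm_ed (d : G.Dart) (s : Bool) : (N.E.symm (d, s)).1 = N.ed d := N.E_symm_fst d _ _

theorem ed_eq {d d' : G.Dart} : N.ed d = N.ed d' ↔ d.edge = d'.edge := by
  rw [ed, ed, N.edge]
  simp

theorem ed_surj (x : X) : ∃ d : G.Dart, N.ed d = x := ⟨(N.E (x, 0)).1, N.ed_E _⟩

theorem face_true [Finite V] {d e : G.Dart} (h : d.fst = e.fst) :
    face (N.med R) (N.E.symm (d, true)) = face (N.med R) (N.E.symm (e, true)) := by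
  symm
  refine sameCycle_ind
    (P := fun e => face (N.med R) (N.E.symm (e, true)) = face (N.med R) (N.E.symm (d, true)))
    ?_ (R.cyclic d e h) rfl
  intro x hx
  rw [← hx]
  have h1 := N.E_fs_true R (y := N.E.symm (x, true)) (d := x) (by simp)
  rw [← h1, Equiv.symm_apply_apply]
  exact face_fs _ _

theorem face_false [Finite V] {d e : G.Dart} (h : R.face d = R.face e) :
    face (N.med R) (N.E.symm (d, false)) = face (N.med R) (N.E.symm (e, false)) := by
  have h0 : R.walk.SameCycle d e := Quotient.exact h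
  symm
  refine sameCycle_ind (f := R.walk⁻¹)
    (P := fun e => face (N.med R) (N.E.symm (e, false)) = face (N.med R) (N.E.symm (d, false)))
    ?_ h0.inv rfl
  intro x hx
  rw [← hx]
  have h1 := N.E_fs_false R (y := N.E.symm (x, false)) (d := x) (by simp)
  have h2 : (R.walk⁻¹ x, false) = (R.walk.symm x, false) := rfl
  rw [h2, ← h1, Equiv.symm_apply_apply]
  exact face_fs _ _

section

variable [Fintype X] [Finite V]

/-- each mixed vertex contributes at least two edges to the cut -/
theorem mixed_le (A : Finset X) :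
    2 * {v : V | (∃ d : G.Dart, d.fst = v ∧ N.ed d ∈ A) ∧
      ∃ d : G.Dart, d.fst = v ∧ ¬ N.ed d ∈ A}.ncard ≤ cut (N.med R) A := by
  classical
  set S := {v : V | (∃ d : G.Dart, d.fst = v ∧ N.ed d ∈ A) ∧
    ∃ d : G.Dart, d.fst = v ∧ ¬ N.ed d ∈ A} with hSd
  have h1 : ∀ v : S, ∃ d : G.Dart, d.fst = v.1 ∧ N.ed d ∈ A ∧ N.ed (R.next d) ∉ A := by
    rintro ⟨v, ⟨d, hd, hdA⟩, d', hd', hdA'⟩
    by_contra hno
    push Not at hno
    have h2 := sameCycle_ind (f := R.next) (P := fun e => e.fst = v ∧ N.ed e ∈ A)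
      (fun e he => ⟨by rw [R.fst_next]; exact he.1, hno e he.1 he.2⟩)
      (R.cyclic d d' (hd.trans hd'.symm)) ⟨hd, hdA⟩
    exact hdA' h2.2
  have h2 : ∀ v : S, ∃ d : G.Dart, d.fst = v.1 ∧ N.ed d ∈ A ∧ N.ed (R.next.symm d) ∉ A := by
    rintro ⟨v, ⟨d, hd, hdA⟩, d', hd', hdA'⟩
    by_contra hno
    push Not at hno
    have hf : ∀ e : G.Dart, (R.next.symm e).fst = e.fst := fun e => by
      have := R.fst_next (R.next.symm e)
      rw [Equiv.apply_symm_apply] at this
      exact this.symm
    have h2 := sameCycle_ind (f := R.next⁻¹) (P := fun e => e.fst = v ∧ N.ed e ∈ A)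
      (fun e he => ⟨by
        show (R.next.symm e).fst = v
        rw [hf]; exact he.1, hno e he.1 he.2⟩)
      (R.cyclic d d' (hd.trans hd'.symm)).inv ⟨hd, hdA⟩
    exact hdA' h2.2
  choose a ha haA haA' using h1
  choose b hb hbA hbA' using h2
  have h3 : Nat.card (S × Bool) ≤ cut (N.med R) A := by
    unfold cut
    apply Nat.card_le_card_of_injective (fun p : S × Bool =>
      (⟨N.E.symm (if p.2 then a p.1 else b p.1, p.2), by
        obtain ⟨v, s⟩ := p
        cases s
        · refine ⟨?_, ?_⟩
          · rw [N.E_symm_ed]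
            simpa using hbA v
          · simp only [med, Equiv.apply_symm_apply, Bool.false_eq_true, if_false, alD]
            rw [N.E_symm_ed]
            exact hbA' v
        · refine ⟨?_, ?_⟩
          · rw [N.E_symm_ed]
            simpa using haA v
          · simp only [med, Equiv.apply_symm_apply, if_true, alD]
            rw [N.E_symm_ed]
            exact haA' v⟩ : {d : X × ZMod 4 // d.1 ∈ A ∧ (N.med R d).1 ∉ A}))
    rintro ⟨v, s⟩ ⟨w, t⟩ h
    have h4 := N.E.symm.injective (Subtype.ext_iff.1 h)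
    simp only [Prod.mk.injEq] at h4
    obtain ⟨h5, h6⟩ := h4
    subst h6
    have h7 : v = w := by
      have h8 := congrArg (fun d : G.Dart => d.fst) h5
      apply Subtype.ext
      cases s
      · simpa [hb] using h8
      · simpa [ha] using h8
    rw [h7]
  rw [Nat.card_prod, Nat.card_eq_fintype_card (α := Bool), Fintype.card_bool,
    Nat.card_coe_set_eq] at h3
  omega

omit [Fintype X] in
/-- a small cut: one of the sides has at most one crossing -/
theorem small (hG : ThreeConnected G) (A : Finset X) {k : ℕ} (hk : k ≤ 2)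
    (h : {v : V | (∃ d : G.Dart, d.fst = v ∧ N.ed d ∈ A) ∧
      ∃ d : G.Dart, d.fst = v ∧ ¬ N.ed d ∈ A}.ncard ≤ k) :
    (∀ x ∉ A, 2 ≤ k ∧ ∀ y ∉ A, x = y) ∨ (∀ x ∈ A, 2 ≤ k ∧ ∀ y ∈ A, x = y) := by
  classical
  set S := {v : V | (∃ d : G.Dart, d.fst = v ∧ N.ed d ∈ A) ∧
    ∃ d : G.Dart, d.fst = v ∧ ¬ N.ed d ∈ A} with hSd
  have key : ∀ P : X → Prop, (∀ d : G.Dart, P (N.ed d) → d.fst ∈ S) →
      ∀ x, P x → 2 ≤ k ∧ ∀ y, P y → x = y := by
    intro P hP x hx
    obtain ⟨d, rfl⟩ := N.ed_surj x
    have h1 := hP d hx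
    have h2 := hP d.symm (by rwa [N.ed_symm])
    constructor
    · by_contra hlt
      have h3 : S.ncard ≤ 1 := h.trans (by omega)
      exact d.fst_ne_snd ((Set.ncard_le_one_iff).1 h3 h1 h2)
    · intro y hy
      obtain ⟨d', rfl⟩ := N.ed_surj y
      rw [N.ed_eq]
      exact dart_eq_of_small (h.trans hk) h1 h2 (hP d' hy) (hP d'.symm (by rwa [N.ed_symm]))
  rcases hG.sep (fun d => N.ed d ∈ A) (fun d hd => by rwa [N.ed_symm]) (h.trans hk) with h1 | h1
  · left
    exact key (fun x => x ∉ A) h1
  · right
    exact key (fun x => x ∈ A) h1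

omit [Fintype X] in
/-- the faces of the medial map are the vertices and the faces of `G` -/
theorem card_face (hG : ThreeConnected G) :
    Nat.card (Face (N.med R)) = Nat.card V + Nat.card R.Face := by
  classical
  let f : X × ZMod 4 → V ⊕ R.Face := fun y =>
    if (N.E y).2 then Sum.inl (N.E y).1.fst else Sum.inr (R.face (N.E y).1)
  have hfs : ∀ y, f (fs (N.med R) y) = f y := by
    intro y
    rcases h : N.E y with ⟨d, s⟩
    cases s
    · simp only [f, N.E_fs_false R h, h, Bool.false_eq_true, if_false]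
      congr 1
      apply Quotient.sound
      exact ⟨1, by simp⟩
    · simp only [f, N.E_fs_true R h, h, if_true, R.fst_next]
  let g : Face (N.med R) → V ⊕ R.Face := Quot.lift f (by
    rintro a b rfl
    exact (hfs a).symm)
  have hbij : Function.Bijective g := by
    constructor
    · intro p q
      induction p using Quot.ind with
      | mk y =>
      induction q using Quot.ind with
      | mk z =>
      intro h
      change f y = f z at h
      rcases hy : N.E y with ⟨d, s⟩
      rcases hz : N.E z with ⟨e, t⟩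
      simp only [f, hy, hz] at h
      cases s <;> cases t
      · simp only [Bool.false_eq_true, if_false, Sum.inr.injEq] at h
        have h1 := N.face_false R h
        rw [← hy, ← hz, Equiv.symm_apply_apply, Equiv.symm_apply_apply] at h1
        exact h1
      · simp at h
      · simp at h
      · simp only [if_true, Sum.inl.injEq] at h
        have h1 := N.face_true R h
        rw [← hy, ← hz, Equiv.symm_apply_apply, Equiv.symm_apply_apply] at h1
        exact h1
    · rintro (v | F)
      · obtain ⟨d, hd⟩ := hG.exists_dart v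
        refine ⟨Quot.mk _ (N.E.symm (d, true)), ?_⟩
        show f _ = _
        simp [f, hd]
      · induction F using Quotient.ind with
        | _ d =>
        refine ⟨Quot.mk _ (N.E.symm (d, false)), ?_⟩
        show f _ = _
        simp [f]
        rfl
  rw [Nat.card_eq_of_bijective g hbij, Nat.card_sum]

theorem rigid (hG : ThreeConnected G) (hR : R.Plane) : Rigid (N.med R) := by
  classical
  have hcard : Nat.card G.edgeSet = Fintype.card X := by
    rw [← Nat.card_eq_fintype_card]
    have hb : Function.Bijective fun e : G.edgeSet => N.ed (exists_edge_dart e).choose := by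
      constructor
      · intro e e' h
        have h1 := N.ed_eq.1 h
        rw [(exists_edge_dart e).choose_spec, (exists_edge_dart e').choose_spec] at h1
        exact Subtype.ext h1
      · intro x
        obtain ⟨d, rfl⟩ := N.ed_surj x
        refine ⟨⟨d.edge, d.edge_mem⟩, ?_⟩
        exact N.ed_eq.2 (exists_edge_dart ⟨d.edge, d.edge_mem⟩).choose_spec
    exact Nat.card_eq_of_bijective _ hb
  have hcard2 : 4 * Fintype.card X = 2 * Nat.card G.Dart := by
    have h1 := Nat.card_congr N.E
    rw [Nat.card_prod, Nat.card_prod, Nat.card_eq_fintype_card (α := Bool), Fintype.card_bool,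
      Nat.card_eq_fintype_card (α := ZMod 4), ZMod.card, Nat.card_eq_fintype_card] at h1
    omega
  refine ⟨N.med_med R, N.med_ne R, ?_, ?_, ?_, ?_⟩
  · have := hG.card_dart
    omega
  · intro A hA hA'
    by_contra hlt
    have h1 := N.mixed_le R A
    rcases N.small hG A (k := 1) (by omega) (by omega) with h2 | h2
    · apply hA'
      rw [Finset.eq_univ_iff_forall]
      intro x
      by_contra hx
      have := (h2 x hx).1
      omega
    · obtain ⟨x, hx⟩ := hA
      have := (h2 x hx).1
      omega
  · intro A hA hA'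
    by_contra hlt
    have h1 := N.mixed_le R A
    rcases N.small hG A (k := 2) (by omega) (by omega) with h2 | h2
    · have h3 : Aᶜ.card ≤ 1 := by
        rw [Finset.card_le_one]
        intro x hx y hy
        rw [Finset.mem_compl] at hx hy
        exact (h2 x hx).2 y hy
      rw [Finset.card_compl] at h3
      omega
    · have h3 : A.card ≤ 1 := by
        rw [Finset.card_le_one]
        intro x hx y hy
        exact (h2 x hx).2 y hy
      omega
  · rw [N.card_face R hG, hR, hcard]

end

/-! ### the tree of a state -/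

/-- the edges whose vertex sectors are selected -/
def tree {T : X × ZMod 4 → Bool} (hT : IsState T) : SimpleGraph V where
  Adj v w := ∃ d : G.Dart, d.fst = v ∧ d.snd = w ∧ T (N.E.symm (d, true)) = true
  symm := ⟨by
    rintro v w ⟨d, rfl, rfl, h⟩
    refine ⟨d.symm, rfl, rfl, ?_⟩
    have h1 : N.E.symm (d.symm, true) = op (N.E.symm (d, true)) := by
      rw [Equiv.symm_apply_eq, N.E_op]
      simp
    rw [h1, hT.op, h]⟩
  loopless := ⟨by
    rintro v ⟨d, h1, h2, -⟩
    exact d.fst_ne_snd (h1.trans h2.symm)⟩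

variable {T : X × ZMod 4 → Bool} (hT : IsState T)

theorem tree_le : N.tree hT ≤ G := by
  rintro v w ⟨d, rfl, rfl, -⟩
  exact d.adj

include hT in
theorem T_symm (d : G.Dart) : T (N.E.symm (d.symm, true)) = T (N.E.symm (d, true)) := by
  rw [← hT.op (N.E.symm (d, true))]
  congr 1
  rw [Equiv.symm_apply_eq, N.E_op]
  simp

include hT in
theorem T_false (d : G.Dart) : T (N.E.symm (d, false)) = !T (N.E.symm (d, true)) := by
  rw [← hT (N.E.symm (d, true))]
  congr 1
  rw [Equiv.symm_apply_eq, N.nx]
  simp [nxD]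

theorem mem_tree (d : G.Dart) : d.edge ∈ (N.tree hT).edgeSet ↔ T (N.E.symm (d, true)) = true := by
  obtain ⟨⟨v, w⟩, hd⟩ := d
  constructor
  · rintro ⟨d', h1, h2, h3⟩
    rw [← h3]
    congr 2
    congr 1
    exact SimpleGraph.Dart.ext _ _ (Prod.ext h1.symm h2.symm)
  · intro h
    exact ⟨⟨(v, w), hd⟩, rfl, rfl, h⟩

theorem joined_reach {y z : X × ZMod 4} (h : Joined (N.med R) T y z) :
    (N.E y).2 = (N.E z).2 ∧
    ((N.E y).2 = true → (N.tree hT).Reachable (N.E y).1.fst (N.E z).1.fst) ∧
    ((N.E y).2 = false → (R.coTree (N.tree hT)).Reachable (R.face (N.E y).1) (R.face (N.E z).1)) := by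
  induction h with
  | rel y z h =>
    rcases hy : N.E y with ⟨d, s⟩
    rcases h with rfl | ⟨hTy, rfl⟩
    · cases s
      · rw [N.E_fs_false R hy]
        refine ⟨rfl, fun h => absurd h (by simp), fun _ => ?_⟩
        have h1 : R.face d = R.face (R.walk.symm d) := by
          apply Quotient.sound
          exact ⟨-1, rfl⟩
        show (R.coTree (N.tree hT)).Reachable (R.face d) (R.face (R.walk.symm d))
        rw [← h1]
      · rw [N.E_fs_true R hy]
        refine ⟨rfl, fun _ => ?_, fun h => absurd h (by simp)⟩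
        show (N.tree hT).Reachable d.fst (R.next d).fst
        rw [R.fst_next]
    · rw [N.E_op, hy]
      refine ⟨rfl, fun hs => ?_, fun hs => ?_⟩
      · dsimp only at hs
        subst hs
        apply SimpleGraph.Adj.reachable
        refine ⟨d, rfl, rfl, ?_⟩
        rw [← hy, Equiv.symm_apply_apply]
        exact hTy
      · dsimp only at hs
        subst hs
        show (R.coTree (N.tree hT)).Reachable (R.face d) (R.face d.symm)
        by_cases hf : R.face d = R.face d.symm
        · rw [← hf]
        · apply SimpleGraph.Adj.reachable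
          refine ⟨hf, d, ?_, rfl, rfl⟩
          rw [N.mem_tree hT]
          have h1 := N.T_false hT d
          rw [← hy, Equiv.symm_apply_apply, hTy] at h1
          intro h2
          rw [h2] at h1
          exact absurd h1 (by simp)
  | refl y => exact ⟨rfl, fun _ => SimpleGraph.Reachable.refl _, fun _ => SimpleGraph.Reachable.refl _⟩
  | symm y z _ ih =>
    exact ⟨ih.1.symm, fun h => (ih.2.1 (ih.1.trans h)).symm, fun h => (ih.2.2 (ih.1.trans h)).symm⟩
  | trans y z w _ _ ih1 ih2 =>
    exact ⟨ih1.1.trans ih2.1, fun h => (ih1.2.1 h).trans (ih2.2.1 (ih1.1.symm.trans h)),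
      fun h => (ih1.2.2 h).trans (ih2.2.2 (ih1.1.symm.trans h))⟩

theorem coTree_edges [Finite V] :
    Nat.card (R.coTree (N.tree hT)).edgeSet + Nat.card (N.tree hT).edgeSet ≤ Nat.card G.edgeSet := by
  classical
  have hle : (N.tree hT).edgeSet ⊆ G.edgeSet := SimpleGraph.edgeSet_mono (N.tree_le hT)
  have h1 : (R.coTree (N.tree hT)).edgeSet.ncard ≤ (G.edgeSet \ (N.tree hT).edgeSet).ncard := by
    let g : Sym2 V → Option (Sym2 R.Face) := fun e =>
      if h : ∃ d : G.Dart, d.edge = e then some s(R.face h.choose, R.face h.choose.symm) else none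
    have hg : ∀ d : G.Dart, g d.edge = some s(R.face d, R.face d.symm) := by
      intro d
      have h : ∃ d' : G.Dart, d'.edge = d.edge := ⟨d, rfl⟩
      simp only [g, dif_pos h]
      rcases (edge_eq_iff _ _).1 h.choose_spec with h2 | h2
      · rw [h2]
      · rw [h2, SimpleGraph.Dart.symm_symm, Sym2.eq_swap]
    have h2 : some '' (R.coTree (N.tree hT)).edgeSet ⊆ g '' (G.edgeSet \ (N.tree hT).edgeSet) := by
      rintro _ ⟨e, he, rfl⟩
      induction e using Sym2.ind with
      | h x y =>
      obtain ⟨-, d, hd, rfl, rfl⟩ := he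
      exact ⟨d.edge, ⟨d.edge_mem, hd⟩, hg d⟩
    calc (R.coTree (N.tree hT)).edgeSet.ncard
        = (some '' (R.coTree (N.tree hT)).edgeSet).ncard :=
          (Set.ncard_image_of_injective _ (Option.some_injective _)).symm
      _ ≤ (g '' (G.edgeSet \ (N.tree hT).edgeSet)).ncard := Set.ncard_le_ncard h2 (Set.toFinite _)
      _ ≤ _ := Set.ncard_image_le (Set.toFinite _)
  have h3 := Set.ncard_sdiff_add_ncard_of_subset hle (Set.toFinite _)
  rw [Nat.card_coe_set_eq, Nat.card_coe_set_eq, Nat.card_coe_set_eq]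
  omega

include hT in
theorem hasTree [Finite V] (hG : ThreeConnected G) (hR : R.Plane) {a b : ℕ}
    (hj : ∀ y z, N.col y = N.col z → Joined (N.med R) T y z)
    (ha : ∀ y, N.col y = true → load (N.med R) T (face (N.med R) y) ≤ a)
    (hb : ∀ y, N.col y = false → load (N.med R) T (face (N.med R) y) ≤ b) : HasTree R a b := by
  classical
  have hVne : Nonempty V := by
    have := hG.1
    exact (Nat.card_pos_iff.1 (by omega : 0 < Nat.card V)).1
  have hc1 : (N.tree hT).Connected := by
    refine ⟨fun v w => ?_⟩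
    obtain ⟨d, rfl⟩ := hG.exists_dart v
    obtain ⟨e, rfl⟩ := hG.exists_dart w
    have h1 := N.joined_reach R hT (hj (N.E.symm (d, true)) (N.E.symm (e, true)) (by simp [col]))
    simpa using h1.2.1 (by simp)
  have hfin : Finite (X × ZMod 4) := Finite.of_equiv _ N.E.symm
  have hFne : Nonempty R.Face := by
    obtain ⟨v⟩ := hVne
    obtain ⟨d, -⟩ := hG.exists_dart v
    exact ⟨R.face d⟩
  have hc2 : (R.coTree (N.tree hT)).Connected := by
    refine ⟨fun x y => ?_⟩
    induction x using Quotient.ind with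
    | _ d =>
    induction y using Quotient.ind with
    | _ e =>
    have h1 := N.joined_reach R hT (hj (N.E.symm (d, false)) (N.E.symm (e, false)) (by simp [col]))
    have h2 := h1.2.2 (by simp)
    simp only [Equiv.apply_symm_apply] at h2
    exact h2
  have h1 := hc1.card_vert_le_card_edgeSet_add_one
  have h2 := hc2.card_vert_le_card_edgeSet_add_one
  have h3 := N.coTree_edges R hT
  have h4 : Nat.card V + Nat.card R.Face = Nat.card G.edgeSet + 2 := hR
  refine ⟨N.tree hT, N.tree_le hT, ?_, ?_, ?_, ?_⟩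
  · rw [SimpleGraph.isTree_iff_connected_and_card]
    exact ⟨hc1, by omega⟩
  · rw [SimpleGraph.isTree_iff_connected_and_card]
    exact ⟨hc2, by omega⟩
  · intro v
    obtain ⟨d, rfl⟩ := hG.exists_dart v
    refine le_trans ?_ (ha (N.E.symm (d, true)) (by simp [col]))
    rw [← Nat.card_coe_set_eq, load]
    apply Nat.card_le_card_of_injective (fun w : (N.tree hT).neighborSet d.fst =>
      (⟨N.E.symm (⟨(d.fst, w.1), N.tree_le hT w.2⟩, true), N.face_true R rfl, by
        rw [← N.mem_tree hT]
        exact w.2⟩ : {y : X × ZMod 4 //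
          face (N.med R) y = face (N.med R) (N.E.symm (d, true)) ∧ T y = true}))
    intro w w' h
    have h5 := N.E.symm.injective (Subtype.ext_iff.1 h)
    have h6 := congrArg (fun p : G.Dart × Bool => p.1.snd) h5
    exact Subtype.ext h6
  · intro F
    induction F using Quotient.ind with
    | _ d =>
    refine le_trans ?_ (hb (N.E.symm (d, false)) (by simp [col]))
    rw [← Nat.card_coe_set_eq, load]
    apply Nat.card_le_card_of_injective
      (fun e : {e : G.Dart | R.face e = R.face d ∧ e.edge ∉ (N.tree hT).edgeSet} =>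
      (⟨N.E.symm (e.1, false), N.face_false R e.2.1, by
        have h5 := e.2.2
        rw [N.mem_tree hT] at h5
        rw [N.T_false hT]
        simpa using h5⟩ : {y : X × ZMod 4 //
          face (N.med R) y = face (N.med R) (N.E.symm (d, false)) ∧ T y = true}))
    intro w w' h
    have h5 := N.E.symm.injective (Subtype.ext_iff.1 h)
    have h6 := congrArg (fun p : G.Dart × Bool => p.1) h5
    exact Subtype.ext h6

end Num

/-- The Bridge: it suffices to find states of medial maps which are connected and co-connected. -/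
theorem bridge_joined (a b : ℕ)
    (H : ∀ (X : Type) [Fintype X] (α : X × ZMod 4 → X × ZMod 4) (o : X × ZMod 4 → Bool),
      Rigid α → Check α o → ∃ T, IsState T ∧ (∀ y z, o y = o z → Joined α T y z) ∧
        ∀ d, load α T (face α d) ≤ if o d then a else b)
    {V : Type u} [Finite V] {G : SimpleGraph V} (R : Rotation G) (hG : ThreeConnected G)
    (hR : R.Plane) : HasTree R a b := by
  obtain ⟨N⟩ := exists_num G
  obtain ⟨T, hT, hj, hl⟩ := H _ (N.med R) N.col (N.rigid R hG hR) (N.check R)
  refine N.hasTree R hT hG hR hj (fun y hy => ?_) (fun y hy => ?_)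
  · have := hl y
    rwa [hy, if_pos rfl] at this
  · have := hl y
    rwa [hy, if_neg (by simp)] at this

/-- The Bridge: it suffices to find states of medial maps with one closed curve. -/
theorem bridge (a b : ℕ)
    (H : ∀ (X : Type) [Fintype X] (α : X × ZMod 4 → X × ZMod 4) (o : X × ZMod 4 → Bool),
      Rigid α → Check α o → ∃ T, Good α o a b T)
    {V : Type u} [Finite V] {G : SimpleGraph V} (R : Rotation G) (hG : ThreeConnected G)
    (hR : R.Plane) : HasTree R a b := by
  refine bridge_joined a b ?_ R hG hR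
  intro X _ α o hα ho
  obtain ⟨T, hT⟩ := H X α o hα ho
  refine ⟨T, hT.st, ?_, hT.load⟩
  intro y z hyz
  cases hy : o y
  · rw [hy] at hyz
    have h1 := OneLoop.joined (T := T) hT.one hT.st hα.inv ho.not (d := y) (d' := z)
      (by simp [hy]) (by simp [← hyz])
    exact h1
  · rw [hy] at hyz
    exact OneLoop.joined hT.one hT.st hα.inv ho hy hyz.symm

end GT33
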