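import Pool.Agent.GT33.DMap

/-!
# GT33 module DJOIN: joining two neighbouring darts

`M.join a h`: the darts `a` and `b = nx a` are removed and their partners `al a`, `al b` are joined.  In the
language of `R`: the face of `R` at the site of `a` loses the corner `a` (between the edges `a` and `b`), the nodes
of the sectors `nx.symm a` and `b` are identified.
-/

open Classical

namespace GT33

namespace DMap

variable {D : Type}

/-- the darts `a` and `nx a` can be joined -/
structure CanJoin (M : DMap D) (a : D) : Prop where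
  ne : M.nx a ≠ a
  al : M.al a ≠ M.nx a

/-- the remaining darts -/
abbrev JD (M : DMap D) (a : D) : Type := {d : D // d ≠ a ∧ d ≠ M.nx a}

variable {M : DMap D} {a : D}

namespace CanJoin

variable (h : CanJoin M a)
include h

theorem al_ne : M.al (M.nx a) ≠ a := fun e => h.al (M.al_eq_iff.1 e).symm

theorem al_al_ne : M.al a ≠ M.al (M.nx a) := fun e => h.ne (M.al_inj e).symm

end CanJoin

/-- the map with the darts `a` and `nx a` joined -/
noncomputable def join (M : DMap D) (a : D) (h : CanJoin M a) : DMap (JD M a) where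
  nx :=
    { toFun := fun d => if hd : M.nx d.1 = a then ⟨M.nx (M.nx a), by
          constructor
          · intro e
            exact d.2.2 (M.nx.injective (hd.trans e.symm))
          · intro e
            exact h.ne (M.nx.injective e)⟩
        else ⟨M.nx d.1, hd, fun e => d.2.1 (M.nx.injective e)⟩
      invFun := fun d => if hd : M.nx.symm d.1 = M.nx a then ⟨M.nx.symm a, by
          constructor
          · intro e
            rw [Equiv.symm_apply_eq] at e
            exact h.ne e.symm
          · intro e
            rw [Equiv.symm_apply_eq] at e hd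
            exact d.2.1 (hd.trans e.symm)⟩
        else ⟨M.nx.symm d.1, by
          refine ⟨fun e => ?_, hd⟩
          rw [Equiv.symm_apply_eq] at e
          exact d.2.2 e⟩
      left_inv := by
        intro d
        by_cases hd : M.nx d.1 = a
        · simp only [hd, dif_pos, Equiv.symm_apply_apply]
          apply Subtype.ext
          exact (congrArg M.nx.symm hd).symm.trans (M.nx.symm_apply_apply _)
        · have h2 : M.nx.symm (M.nx d.1) ≠ M.nx a := by
            rw [Equiv.symm_apply_apply]
            exact d.2.2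
          simp only [hd, dif_neg, not_false_eq_true]
          rw [dif_neg h2]
          apply Subtype.ext
          show M.nx.symm (M.nx d.1) = d.1
          rw [Equiv.symm_apply_apply]
      right_inv := by
        intro d
        by_cases hd : M.nx.symm d.1 = M.nx a
        · simp only [hd, dif_pos, Equiv.apply_symm_apply]
          apply Subtype.ext
          exact (congrArg M.nx hd).symm.trans (M.nx.apply_symm_apply _)
        · have h2 : M.nx (M.nx.symm d.1) ≠ a := by
            rw [Equiv.apply_symm_apply]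
            exact d.2.1
          simp only [hd, dif_neg, not_false_eq_true]
          rw [dif_neg h2]
          apply Subtype.ext
          show M.nx (M.nx.symm d.1) = d.1
          rw [Equiv.apply_symm_apply] }
  al := fun d => if h1 : M.al d.1 = a then ⟨M.al (M.nx a), h.al_ne, (M.ne _)⟩
    else if h2 : M.al d.1 = M.nx a then ⟨M.al a, (M.ne a), h.al⟩ else ⟨M.al d.1, h1, h2⟩
  inv := by
    intro d
    by_cases h1 : M.al d.1 = a
    · have h3 : M.al (M.al (M.nx a)) ≠ a := by rw [M.inv]; exact h.ne
      have h4 : M.al (M.al (M.nx a)) = M.nx a := M.inv _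
      simp only [h1, dif_pos]
      rw [dif_neg h3, dif_pos h4]
      apply Subtype.ext
      exact (congrArg M.al h1).symm.trans (M.inv _)
    · by_cases h2 : M.al d.1 = M.nx a
      · have h3 : M.al (M.al a) = a := M.inv _
        simp only [h2, h.ne, dif_neg, dif_pos, not_false_eq_true]
        rw [dif_pos h3]
        apply Subtype.ext
        exact (congrArg M.al h2).symm.trans (M.inv _)
      · have h3 : M.al (M.al d.1) ≠ a := by rw [M.inv]; exact d.2.1
        have h4 : M.al (M.al d.1) ≠ M.nx a := by rw [M.inv]; exact d.2.2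
        simp only [h1, h2, dif_neg, not_false_eq_true]
        rw [dif_neg h3, dif_neg h4]
        exact Subtype.ext (M.inv _)
  ne := by
    intro d e
    have e' := congrArg Subtype.val e
    by_cases h1 : M.al d.1 = a
    · simp only [h1, dif_pos] at e'
      rw [M.al_eq_iff] at h1
      exact h.al_al_ne (h1.symm.trans e'.symm)
    · by_cases h2 : M.al d.1 = M.nx a
      · simp only [h2, h.ne, dif_neg, dif_pos, not_false_eq_true] at e'
        rw [M.al_eq_iff] at h2
        exact h.al_al_ne (e'.trans h2)
      · simp only [h1, h2, dif_neg, not_false_eq_true] at e'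
        exact M.ne _ e'

section

variable (h : CanJoin M a)

theorem join_nx (d : JD M a) :
    ((M.join a h).nx d).1 = if M.nx d.1 = a then M.nx (M.nx a) else M.nx d.1 := by
  simp only [join, Equiv.coe_fn_mk]
  split_ifs <;> rfl

theorem join_nx_symm (d : JD M a) : ((M.join a h).nx.symm d).1 =
    if M.nx.symm d.1 = M.nx a then M.nx.symm a else M.nx.symm d.1 := by
  simp only [join, Equiv.coe_fn_symm_mk]
  split_ifs <;> rfl

theorem join_al (d : JD M a) : ((M.join a h).al d).1 =
    if M.al d.1 = a then M.al (M.nx a) else if M.al d.1 = M.nx a then M.al a else M.al d.1 := by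
  simp only [join]
  split_ifs <;> rfl

theorem join_fs (d : JD M a) : ((M.join a h).fs d).1 =
    if M.nx.symm ((M.join a h).al d).1 = M.nx a then M.nx.symm a
    else M.nx.symm ((M.join a h).al d).1 := by
  rw [fs_def, join_nx_symm]

theorem join_al_a : ((M.join a h).al ⟨M.al a, (M.ne a), h.al⟩).1 = M.al (M.nx a) := by
  rw [join_al]
  simp [M.inv]

theorem join_al_b : ((M.join a h).al ⟨M.al (M.nx a), h.al_ne, (M.ne _)⟩).1 = M.al a := by
  rw [join_al]
  simp [M.inv, h.ne]

theorem join_al_of_ne {d : JD M a} (h1 : M.al d.1 ≠ a) (h2 : M.al d.1 ≠ M.nx a) :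
    ((M.join a h).al d).1 = M.al d.1 := by
  rw [join_al, if_neg h1, if_neg h2]

/-- sets of sites of `M` give sets of sites of the joined map -/
theorem sites_join {A : D → Prop} (hA : M.Sites A) : (M.join a h).Sites fun d => A d.1 := by
  intro d
  show A ((M.join a h).nx d).1 ↔ A d.1
  rw [join_nx]
  split_ifs with h1
  · have h2 := hA d.1
    rw [h1] at h2
    rw [hA, hA, h2]
  · rw [hA]

/-- the converse: the value at the removed darts has to be chosen -/
theorem sites_of_join {A : D → Prop} (hA : (M.join a h).Sites fun d => A d.1)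
    (h1 : A (M.nx a) ↔ A a) (h2 : M.nx (M.nx a) ≠ a → (A (M.nx (M.nx a)) ↔ A a)) :
    M.Sites A := by
  have key : ∀ d, d ≠ a → d ≠ M.nx a → (A (M.nx d) ↔ A d) := by
    intro d hd1 hd2
    have h3 := hA ⟨d, hd1, hd2⟩
    simp only [join_nx] at h3
    split_ifs at h3 with h4
    · rw [h4]
      by_cases h5 : M.nx (M.nx a) = a
      · exact absurd (M.nx.injective (h4.trans h5.symm)) hd2
      · rw [← h3, h2 h5]
    · exact h3
  intro d
  by_cases hd1 : d = a
  · rw [hd1]
    exact h1
  · by_cases hd2 : d = M.nx a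
    · rw [hd2]
      by_cases h5 : M.nx (M.nx a) = a
      · rw [h5]
        exact h1.symm
      · rw [h2 h5, h1]
    · exact key d hd1 hd2

theorem sum_JD [Fintype D] {β : Type*} [AddCommMonoid β] (hne : M.nx a ≠ a) (f : D → β) :
    ∑ d, f d = ∑ d : JD M a, f d.1 + (f a + f (M.nx a)) := by
  have h1 : ∑ d : JD M a, f d.1 = ∑ d ∈ (Finset.univ.erase a).erase (M.nx a), f d := by
    symm
    apply Finset.sum_subtype
    intro x
    simp only [Finset.mem_erase, Finset.mem_univ, and_true]
    tauto
  have h2 : M.nx a ∈ Finset.univ.erase a := by simp [hne]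
  rw [h1, add_comm (f a), ← add_assoc, Finset.sum_erase_add _ _ h2,
    Finset.sum_erase_add _ _ (Finset.mem_univ a)]

/-- the leaving darts as a sum -/
theorem cut_eq_sum [Fintype D] (M : DMap D) (A : D → Prop) :
    M.cut A = ∑ d, if A d ∧ ¬ A (M.al d) then 1 else 0 := by
  unfold cut
  rw [Nat.card_eq_fintype_card, Fintype.card_subtype, Finset.card_filter]

/-- a sum in which the darts `al a`, `al b` are separated -/
theorem sum_JD_split [Fintype D] {β : Type*} [AddCommMonoid β] (f : JD M a → β) :
    ∑ d : JD M a, f d = ∑ d ∈ (Finset.univ.erase (⟨M.al a, M.ne a, h.al⟩ : JD M a)).erase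
      ⟨M.al (M.nx a), h.al_ne, M.ne _⟩, f d +
      (f ⟨M.al a, M.ne a, h.al⟩ + f ⟨M.al (M.nx a), h.al_ne, M.ne _⟩) := by
  have h2 : (⟨M.al (M.nx a), h.al_ne, M.ne _⟩ : JD M a) ∈
      Finset.univ.erase (⟨M.al a, M.ne a, h.al⟩ : JD M a) := by
    rw [Finset.mem_erase]
    refine ⟨fun e => h.al_al_ne ?_, Finset.mem_univ _⟩
    exact (Subtype.ext_iff.1 e).symm
  rw [add_comm (f ⟨M.al a, M.ne a, h.al⟩), ← add_assoc, Finset.sum_erase_add _ _ h2,
    Finset.sum_erase_add _ _ (Finset.mem_univ _)]

theorem cut_join [Fintype D] {A : D → Prop} (hA : M.Sites A) :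
    M.cut A = (M.join a h).cut (fun d => A d.1) +
      if (A (M.al a) ↔ A a) ∨ (A (M.al (M.nx a)) ↔ A a) then 0 else 2 := by
  rw [cut_eq_sum, cut_eq_sum, sum_JD h.ne, sum_JD_split h, sum_JD_split h (a := a)]
  have h1 : ∑ d ∈ (Finset.univ.erase (⟨M.al a, M.ne a, h.al⟩ : JD M a)).erase
      ⟨M.al (M.nx a), h.al_ne, M.ne _⟩, (if A d.1 ∧ ¬ A (M.al d.1) then 1 else 0) =
      ∑ d ∈ (Finset.univ.erase (⟨M.al a, M.ne a, h.al⟩ : JD M a)).erase
      ⟨M.al (M.nx a), h.al_ne, M.ne _⟩,
      (if A d.1 ∧ ¬ A ((M.join a h).al d).1 then 1 else 0) := by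
    refine Finset.sum_congr rfl fun d hd => ?_
    rw [Finset.mem_erase, Finset.mem_erase] at hd
    rw [join_al_of_ne h]
    · intro e
      apply hd.2.1
      apply Subtype.ext
      rw [M.al_eq_iff] at e
      exact e
    · intro e
      apply hd.1
      apply Subtype.ext
      rw [M.al_eq_iff] at e
      exact e
  rw [h1]
  simp only [join_al_a, join_al_b, M.inv, hA a]
  by_cases x : A (M.al a) <;> by_cases y : A (M.al (M.nx a)) <;> by_cases z : A a <;>
    simp [x, y, z]

/-- planarity is preserved -/
theorem join_hom (hM : M.Hom) : (M.join a h).Hom := by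
  intro c hc hs
  let c' : D → ZMod 2 := fun d => if hd : d ≠ a ∧ d ≠ M.nx a then c ⟨d, hd⟩
    else c ⟨M.al a, M.ne a, h.al⟩
  have hc' : ∀ d : JD M a, c' d.1 = c d := fun d => by
    simp only [c']
    rw [dif_pos d.2]
  have hca : c' a = c ⟨M.al a, M.ne a, h.al⟩ := by
    simp only [c']
    rw [dif_neg (by simp)]
  have hcb : c' (M.nx a) = c ⟨M.al a, M.ne a, h.al⟩ := by
    simp only [c']
    rw [dif_neg (by simp)]
  have hab : c ⟨M.al (M.nx a), h.al_ne, M.ne _⟩ = c ⟨M.al a, M.ne a, h.al⟩ := by
    rw [← hc ⟨M.al a, M.ne a, h.al⟩]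
    congr 1
    apply Subtype.ext
    exact (join_al_a h).symm
  obtain ⟨w, hw1, hw2⟩ := hM c' (by
    intro d
    by_cases h1 : d = a
    · rw [h1, hca, ← hc']
    · by_cases h2 : d = M.nx a
      · rw [h2, hcb, ← hab, ← hc']
      · by_cases h3 : M.al d = a
        · rw [h3, hca]
          rw [M.al_eq_iff] at h3
          rw [h3, ← hc']
        · by_cases h4 : M.al d = M.nx a
          · rw [h4, hcb]
            rw [M.al_eq_iff] at h4
            rw [h4, ← hab, ← hc']
          · have h5 := hc ⟨d, h1, h2⟩
            rw [← hc', ← hc', join_al_of_ne h h3 h4] at h5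
            exact h5) (by
    intro A hA
    have hA' : M.Sites fun d => d ∈ A := hA
    have h1 := hs (A.subtype fun d => d ≠ a ∧ d ≠ M.nx a) (by
      intro d
      rw [Finset.mem_subtype, Finset.mem_subtype]
      exact sites_join h hA' d)
    have h2 : ∑ d ∈ A.subtype (fun d => d ≠ a ∧ d ≠ M.nx a), c d =
        ∑ d ∈ A.filter (fun d => d ≠ a ∧ d ≠ M.nx a), c' d := by
      rw [← Finset.sum_subtype_eq_sum_filter]
      refine Finset.sum_congr rfl fun d _ => ?_
      rw [hc']
    rw [h2] at h1
    rw [← Finset.sum_filter_add_sum_filter_not A (fun d => d ≠ a ∧ d ≠ M.nx a), h1, zero_add]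
    by_cases h3 : a ∈ A
    · have h4 : A.filter (fun d => ¬ (d ≠ a ∧ d ≠ M.nx a)) = {a, M.nx a} := by
        ext d
        rw [Finset.mem_filter, Finset.mem_insert, Finset.mem_singleton]
        constructor
        · intro h5
          have := h5.2
          tauto
        · rintro (rfl | rfl)
          · exact ⟨h3, by simp⟩
          · exact ⟨(hA a).2 h3, by simp⟩
      rw [h4, Finset.sum_pair h.ne.symm, hca, hcb]
      exact CharTwo.add_self_eq_zero _
    · have h4 : A.filter (fun d => ¬ (d ≠ a ∧ d ≠ M.nx a)) = ∅ := by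
        rw [Finset.filter_eq_empty_iff]
        intro d hd h5
        apply h3
        by_cases h6 : d = a
        · rw [← h6]
          exact hd
        · have h7 : d = M.nx a := by tauto
          rw [h7, hA] at hd
          exact hd
      rw [h4, Finset.sum_empty])
  have char : ∀ x y z : ZMod 2, x + y = z → y = x + z := by decide
  have h1 : w (M.nx.symm a) = w (M.nx a) := by
    have h2 := hw2 a
    have h3 := hw2 (M.nx a)
    rw [Equiv.symm_apply_apply, hcb] at h3
    rw [hca] at h2
    rw [char _ _ _ h2, ← h3]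
    generalize w a = x
    generalize w (M.nx a) = y
    revert x y
    decide
  refine ⟨fun d => w d.1, fun d => ?_, fun d => ?_⟩
  · show w ((M.join a h).fs d).1 = w d.1
    have h2 : w ((M.join a h).fs d).1 = w (M.nx.symm ((M.join a h).al d).1) := by
      rw [join_fs]
      split_ifs with h3
      · rw [h1, h3]
      · rfl
    rw [h2, join_al]
    split_ifs with h3 h4
    · rw [M.al_eq_iff] at h3
      have h5 := hw1 (M.al a)
      rw [fs_al] at h5
      rw [h3, ← h5, h1, ← fs_def, hw1]
    · rw [M.al_eq_iff] at h4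
      have h5 := hw1 (M.al (M.nx a))
      rw [fs_al, Equiv.symm_apply_apply] at h5
      rw [h4, ← h5, ← fs_def, hw1]
    · rw [← fs_def, hw1]
  · show w d.1 + w ((M.join a h).nx.symm d).1 = c d
    have h2 : w ((M.join a h).nx.symm d).1 = w (M.nx.symm d.1) := by
      rw [join_nx_symm]
      split_ifs with h3
      · rw [h1, h3]
      · rfl
    rw [h2, hw2, hc']

/-- sets of sites of the joined map come from sets of sites of `M` -/
theorem exists_sites_of_join {A' : JD M a → Prop} (hA : (M.join a h).Sites A') :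
    ∃ A : D → Prop, M.Sites A ∧ ∀ d : JD M a, A d.1 ↔ A' d := by
  by_cases h5 : M.nx (M.nx a) = a
  · refine ⟨fun d => ∃ hd : d ≠ a ∧ d ≠ M.nx a, A' ⟨d, hd⟩, ?_, ?_⟩
    · apply sites_of_join h
      · intro d
        have := hA d
        constructor
        · rintro ⟨h1, h2⟩
          exact ⟨d.2, this.1 h2⟩
        · rintro ⟨h1, h2⟩
          exact ⟨_, this.2 h2⟩
      · constructor
        · rintro ⟨h1, h2⟩
          exact absurd rfl h1.2
        · rintro ⟨h1, h2⟩
          exact absurd rfl h1.1
      · intro h6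
        exact absurd h5 h6
    · intro d
      exact ⟨fun ⟨_, h2⟩ => h2, fun h2 => ⟨d.2, h2⟩⟩
  · have h6 : M.nx (M.nx a) ≠ a ∧ M.nx (M.nx a) ≠ M.nx a :=
      ⟨h5, fun e => h.ne (M.nx.injective e)⟩
    refine ⟨fun d => if hd : d ≠ a ∧ d ≠ M.nx a then A' ⟨d, hd⟩ else A' ⟨_, h6⟩, ?_, ?_⟩
    · apply sites_of_join h
      · intro d
        have h7 := hA d
        simp only [d.2, ne_eq, not_false_eq_true, and_self, dif_pos]
        rw [dif_pos ((M.join a h).nx d).2]
        exact h7
      · simp
      · intro _
        rw [dif_pos h6]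
        simp
    · intro d
      show (if hd : d.1 ≠ a ∧ d.1 ≠ M.nx a then A' ⟨d.1, hd⟩ else A' ⟨_, h6⟩) ↔ A' d
      rw [dif_pos d.2]

theorem join_conn [Fintype D] (hcut : ∀ A : D → Prop, M.Sites A → (∃ d, A d) → (∃ d, ¬ A d) → 3 ≤ M.cut A) :
    (M.join a h).Conn := by
  intro A' hA' hal hne
  by_contra hall
  push Not at hall
  obtain ⟨A, hA, hAA⟩ := exists_sites_of_join h hA'
  obtain ⟨d, hd⟩ := hne
  obtain ⟨e, he⟩ := hall
  have h1 := hcut A hA ⟨d.1, (hAA d).2 hd⟩ ⟨e.1, fun h => he ((hAA e).1 h)⟩
  rw [cut_join h hA] at h1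
  have h2 : (M.join a h).cut (fun d => A d.1) = 0 := by
    unfold cut
    rw [Nat.card_eq_zero]
    left
    constructor
    rintro ⟨x, hx1, hx2⟩
    exact hx2 ((hAA _).2 (hal x ((hAA x).1 hx1)))
  rw [h2] at h1
  split_ifs at h1 <;> omega

/-- each cut of the joined map comes from a cut of `M` with at most two more darts -/
theorem cut_join_le [Fintype D] {A : D → Prop} (hA : M.Sites A) :
    M.cut A ≤ (M.join a h).cut (fun d => A d.1) + 2 := by
  rw [cut_join h hA]
  split_ifs <;> omega

end

end DMap

end GT33
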