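import Pool.Agent.GT33.DRing
import Pool.Agent.GT33.DJoin

/-!
# GT33 module DWALK: closed walks, arcs between ring nodes, and sets of sites

A list `W` of darts which is even on all nodes (`EvenW`) is the boundary mod 2 of a set of sites of the patch.  Arcs
between ring nodes are completed by ring edges.  `rcut`: the number of edges inside the patch in the cut;
`scut`: the number of ring edges in the cut.
-/

open Classical

namespace GT33

namespace DMap

variable {D : Type} {M : DMap D} {A : D → Prop} {δ : ZMod 6 → D}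

/-- indicator -/
noncomputable def ind (p : Prop) : ZMod 2 := if p then 1 else 0

theorem ind_true {p : Prop} (h : p) : ind p = 1 := if_pos h

theorem ind_false {p : Prop} (h : ¬ p) : ind p = 0 := if_neg h

theorem ind_iff {p : Prop} : ind p = 1 ↔ p := by
  by_cases h : p <;> simp [ind, h]

theorem ind_add {p q : Prop} : ind p + ind q = 0 ↔ (p ↔ q) := by
  have h2 : (1 : ZMod 2) + 1 = 0 := by decide
  by_cases h : p <;> by_cases h' : q <;> simp [ind, h, h', h2]

theorem ind_add' {p q : Prop} : ind p + ind q = 1 ↔ ¬ (p ↔ q) := by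
  have h2 : (1 : ZMod 2) + 1 = 0 := by decide
  by_cases h : p <;> by_cases h' : q <;> simp [ind, h, h', h2]

/-- the number of passages of `W` through the edge of `d` mod 2 -/
noncomputable def wcnt (M : DMap D) (W : List D) (d : D) : ZMod 2 :=
  (W.count d : ZMod 2) + (W.count (M.al d) : ZMod 2)

theorem wcnt_al (W : List D) (d : D) : wcnt M W (M.al d) = wcnt M W d := by
  unfold wcnt
  rw [M.inv, add_comm]

theorem wcnt_nil (d : D) : wcnt M [] d = 0 := by
  simp [wcnt]

theorem wcnt_cons (x : D) (W : List D) (d : D) :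
    wcnt M (x :: W) d = wcnt M W d + (ind (x = d) + ind (x = M.al d)) := by
  unfold wcnt ind
  rw [List.count_cons, List.count_cons]
  push_cast
  by_cases h1 : x = d <;> by_cases h2 : x = M.al d <;> simp [h1, h2] <;> ring_nf

theorem wcnt_append (W V : List D) (d : D) : wcnt M (W ++ V) d = wcnt M W d + wcnt M V d := by
  unfold wcnt
  rw [List.count_append, List.count_append]
  push_cast
  ring

theorem wcnt_mem {W : List D} {d : D} (h : wcnt M W d ≠ 0) : d ∈ W ∨ M.al d ∈ W := by
  by_contra hn
  push Not at hn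
  apply h
  unfold wcnt
  rw [List.count_eq_zero_of_not_mem hn.1, List.count_eq_zero_of_not_mem hn.2]
  simp

/-- even on all nodes -/
def EvenW (M : DMap D) (W : List D) : Prop :=
  ∀ w : D → ZMod 2, (∀ d, w (M.fs d) = w d) → (W.map fun x => w x + w (M.al x)).sum = 0

theorem sum_wcnt [Fintype D] (W : List D) (w : D → ZMod 2) :
    ∑ d, wcnt M W d * w d = (W.map fun x => w x + w (M.al x)).sum := by
  induction W with
  | nil => simp [wcnt_nil]
  | cons x W ih =>
    rw [List.map_cons, List.sum_cons, ← ih]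
    have h1 : ∀ d, wcnt M (x :: W) d * w d =
        wcnt M W d * w d + ((if x = d then w d else 0) + if M.al x = d then w d else 0) := by
      intro d
      rw [wcnt_cons, add_mul, add_mul]
      congr 2
      · unfold ind
        split_ifs <;> simp
      · have h2 : (x = M.al d) ↔ (M.al x = d) := by
          constructor
          · rintro rfl
            exact M.inv _
          · rintro rfl
            exact (M.inv _).symm
        unfold ind
        by_cases h3 : M.al x = d
        · rw [if_pos (h2.2 h3), if_pos h3, one_mul]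
        · rw [if_neg fun h => h3 (h2.1 h), if_neg h3, zero_mul]
    rw [Finset.sum_congr rfl fun d _ => h1 d, Finset.sum_add_distrib, Finset.sum_add_distrib,
      Finset.sum_ite_eq, Finset.sum_ite_eq]
    simp only [Finset.mem_univ, if_true]
    ring

/-- a node function -/
theorem node_fun {β : Type*} {w : D → β} (hw : ∀ d, w (M.fs d) = w d) {d e : D}
    (h : M.SameNode d e) : w d = w e := by
  obtain ⟨k, rfl⟩ := h
  induction k with
  | zero => simp
  | succ k ih =>
    rw [ih, add_comm, zpow_one_add, Equiv.Perm.mul_apply, hw]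
  | pred k ih =>
    rw [ih, ← hw ((M.fs ^ (-(k : ℤ) - 1)) d)]
    congr 1
    rw [← Equiv.Perm.mul_apply, ← zpow_one_add, add_sub_cancel]

/-- a closed walk is the boundary of a set of sites -/
theorem Patch.exists_set [Fintype D] (hP : M.Patch A δ) {W : List D} (hW : M.EvenW W) :
    ∃ B : D → Prop, M.Sites B ∧ (∀ d, B d → A d) ∧
      ∀ d, ind (B d) + ind (B (M.al d)) = wcnt M W d := by
  obtain ⟨p, hp1, hp2⟩ := hP.legal.plane.toD.coh (wcnt M W) (fun d => wcnt_al W d) (fun w hw => by
    rw [sum_wcnt]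
    exact hW w hw)
  obtain ⟨r, hr⟩ := hP.root
  have hroot : ∀ d, ¬ A d → p d = p r := by
    intro d hd
    have h1 := (hr d).1 hd
    obtain ⟨k, hk⟩ := h1
    have h2 : M.Sites fun d => p d = p r := fun d => by
      show p (M.nx d) = p r ↔ p d = p r
      rw [hp1]
    exact (h2.same ⟨k, hk⟩).1 rfl
  have key : ∀ x y : ZMod 2, ind (x ≠ y) = x + y := by
    intro x y
    unfold ind
    by_cases h : x = y
    · rw [if_neg (not_not.2 h), h]
      exact (dcyc_char y).symm
    · rw [if_pos h]
      revert x y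
      decide
  refine ⟨fun d => p d ≠ p r, fun d => by
    show p (M.nx d) ≠ p r ↔ p d ≠ p r
    rw [hp1], fun d hd => ?_, fun d => ?_⟩
  · by_contra h
    exact hd (hroot d h)
  · rw [key, key, hp2]
    have := dcyc_char (p r)
    linear_combination this

/-- the darts leaving the set of a closed walk -/
theorem card_le_filter [Finite D] {B : D → Prop} {W : List D} {Q : D → Prop}
    (hQ : ∀ d, Q (M.al d) ↔ Q d) (h : ∀ d, Q d → ind (B d) + ind (B (M.al d)) = wcnt M W d) :
    Nat.card {d : D // (B d ∧ ¬ B (M.al d)) ∧ Q d} ≤ (W.filter fun x => decide (Q x)).length := by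
  have : Fintype D := Fintype.ofFinite D
  rw [Nat.card_eq_fintype_card, Fintype.card_subtype]
  refine le_trans ?_ (List.toFinset_card_le _)
  refine Finset.card_le_card_of_injOn (fun d => if d ∈ W then d else M.al d) ?_ ?_
  · intro d hd
    have hd' : (B d ∧ ¬ B (M.al d)) ∧ Q d := by simpa using hd
    have h1 : d ∈ W ∨ M.al d ∈ W := by
      apply wcnt_mem (M := M)
      rw [← h d hd'.2, ind_true hd'.1.1, ind_false hd'.1.2]
      decide
    show (if d ∈ W then d else M.al d) ∈ _
    by_cases h2 : d ∈ W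
    · rw [if_pos h2]
      simp [h2, hd'.2]
    · rw [if_neg h2]
      have h3 := h1.resolve_left h2
      have h4 := (hQ d).2 hd'.2
      simp [h3, h4]
  · intro d hd e he hde
    have hd' : (B d ∧ ¬ B (M.al d)) ∧ Q d := by simpa using hd
    have he' : (B e ∧ ¬ B (M.al e)) ∧ Q e := by simpa using he
    have h2 : (if d ∈ W then d else M.al d) = if e ∈ W then e else M.al e := hde
    split_ifs at h2
    · exact h2
    · exact absurd hd'.1.1 (by rw [h2]; exact he'.1.2)
    · exact absurd he'.1.1 (by rw [← h2]; exact hd'.1.2)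
    · exact M.al_inj h2

/-- the cut of the set of a closed walk -/
theorem cut_le_length [Finite D] {B : D → Prop} {W : List D}
    (h : ∀ d, ind (B d) + ind (B (M.al d)) = wcnt M W d) : M.cut B ≤ W.length := by
  have h1 := card_le_filter (M := M) (B := B) (W := W) (Q := fun _ => True) (fun _ => Iff.rfl)
    fun d _ => h d
  have h3 : Nat.card {d : D // (B d ∧ ¬ B (M.al d)) ∧ True} = M.cut B := by
    unfold DMap.cut
    exact Nat.card_congr (Equiv.subtypeEquivRight fun d => by simp)
  rw [← h3]
  exact h1.trans (List.length_filter_le _ _)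

/-- the number of edges of the cut inside the patch -/
noncomputable def rcut (M : DMap D) (A B : D → Prop) : ℕ :=
  Nat.card {d : D // (B d ∧ ¬ B (M.al d)) ∧ (A d ∧ A (M.al d))}

/-- the number of ring edges of the cut -/
noncomputable def scut (δ : ZMod 6 → D) (B : D → Prop) : ℕ :=
  (Finset.univ.filter fun i => B (δ i)).card

theorem scut_pos {B : D → Prop} (h : scut δ B ≠ 0) : ∃ i, B (δ i) := by
  obtain ⟨i, hi⟩ := Finset.card_pos.1 (Nat.pos_of_ne_zero h)
  exact ⟨i, (Finset.mem_filter.1 hi).2⟩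

theorem scut_six {B : D → Prop} (h : scut δ B = 6) (i : ZMod 6) : B (δ i) := by
  have h1 : (Finset.univ.filter fun i => B (δ i)) = Finset.univ :=
    Finset.eq_univ_of_card _ (by rw [← scut, h]; rfl)
  have h2 := Finset.mem_univ i
  rw [← h1] at h2
  exact (Finset.mem_filter.1 h2).2

namespace Patch

/-- the cut consists of ring edges and inner edges -/
theorem cut_eq [Finite D] (hP : M.Patch A δ) {B : D → Prop} (hB : ∀ d, B d → A d) :
    M.cut B = rcut M A B + scut δ B := by
  have : Fintype D := Fintype.ofFinite D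
  unfold DMap.cut rcut scut
  rw [Nat.card_eq_fintype_card, Nat.card_eq_fintype_card, Fintype.card_subtype,
    Fintype.card_subtype, ← Finset.card_filter_add_card_filter_not
      (s := Finset.univ.filter fun d => B d ∧ ¬ B (M.al d)) (fun d => A (M.al d))]
  congr 1
  · congr 1
    ext d
    simp only [Finset.mem_filter, Finset.mem_univ, true_and]
    constructor
    · rintro ⟨h1, h2⟩
      exact ⟨h1, hB d h1.1, h2⟩
    · rintro ⟨h1, -, h2⟩
      exact ⟨h1, h2⟩
  · rw [← Finset.card_image_of_injective _ hP.bd.inj]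
    congr 1
    ext d
    simp only [Finset.mem_filter, Finset.mem_univ, true_and, Finset.mem_image]
    constructor
    · rintro ⟨h1, h2⟩
      obtain ⟨i, hi⟩ := (hP.bd.mem d).1 ⟨hB d h1.1, h2⟩
      exact ⟨i, by rw [hi]; exact h1.1, hi⟩
    · rintro ⟨i, hi, rfl⟩
      exact ⟨⟨hi, fun h => hP.notA i (hB _ h)⟩, hP.notA i⟩

theorem scut_compl (hP : M.Patch A δ) (B : D → Prop) :
    scut δ B + scut δ (fun d => A d ∧ ¬ B d) = 6 := by
  have h1 : scut δ (fun d => A d ∧ ¬ B d) =
      (Finset.univ.filter fun i => ¬ B (δ i)).card := by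
    unfold scut
    congr 1
    ext i
    simp [hP.inA i]
  rw [h1]
  unfold scut
  rw [Finset.card_filter_add_card_filter_not]
  simp

theorem rcut_compl (B : D → Prop) :
    rcut M A (fun d => A d ∧ ¬ B d) = rcut M A B := by
  unfold rcut
  apply Nat.card_congr
  refine ⟨fun d => ⟨M.al d.1, ?_⟩, fun d => ⟨M.al d.1, ?_⟩, fun d => Subtype.ext (M.inv _),
    fun d => Subtype.ext (M.inv _)⟩
  · obtain ⟨d, ⟨h1, h2⟩, h3, h4⟩ := d
    show (B (M.al d) ∧ ¬ B (M.al (M.al d))) ∧ (A (M.al d) ∧ A (M.al (M.al d)))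
    rw [M.inv]
    exact ⟨⟨by_contra fun h => h2 ⟨h4, h⟩, h1.2⟩, h4, h3⟩
  · obtain ⟨d, ⟨h1, h2⟩, h3, h4⟩ := d
    show ((A (M.al d) ∧ ¬ B (M.al d)) ∧ ¬ (A (M.al (M.al d)) ∧ ¬ B (M.al (M.al d)))) ∧
      (A (M.al d) ∧ A (M.al (M.al d)))
    rw [M.inv]
    exact ⟨⟨⟨h4, h2⟩, fun h => h.2 h1⟩, h4, h3⟩

theorem scut_le (B : D → Prop) : scut δ B ≤ 6 := by
  unfold scut
  refine le_trans (Finset.card_filter_le _ _) ?_
  simp

theorem sites_compl (hP : M.Patch A δ) {B : D → Prop} (hB : M.Sites B) :
    M.Sites fun d => A d ∧ ¬ B d := hP.sites.and hB.not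

end Patch

/-! ### parity -/

theorem cut_even_of_col [Fintype D] {o : D → Bool} (ho : ∀ d, o (M.nx d) = !o d)
    (ho' : ∀ d, o (M.al d) = !o d) {B : D → Prop} (hB : M.Sites B) : 2 ∣ M.cut B := by
  have e1 : (Finset.univ.filter fun d => B d ∧ o d = true).card =
      (Finset.univ.filter fun d => B d ∧ o d = false).card := by
    apply le_antisymm
    · refine Finset.card_le_card_of_injOn M.nx ?_ M.nx.injective.injOn
      intro d hd
      have hd' : B d ∧ o d = true := by simpa using hd
      simp [ho, hd'.2, hB d, hd'.1]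
    · refine Finset.card_le_card_of_injOn M.nx ?_ M.nx.injective.injOn
      intro d hd
      have hd' : B d ∧ o d = false := by simpa using hd
      simp [ho, hd'.2, hB d, hd'.1]
  have e2 : (Finset.univ.filter fun d => (B d ∧ B (M.al d)) ∧ o d = true).card =
      (Finset.univ.filter fun d => (B d ∧ B (M.al d)) ∧ o d = false).card := by
    apply le_antisymm
    · refine Finset.card_le_card_of_injOn M.al ?_ M.al_inj.injOn
      intro d hd
      have hd' : (B d ∧ B (M.al d)) ∧ o d = true := by simpa using hd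
      simp [ho', hd'.2, M.inv, hd'.1.1, hd'.1.2]
    · refine Finset.card_le_card_of_injOn M.al ?_ M.al_inj.injOn
      intro d hd
      have hd' : (B d ∧ B (M.al d)) ∧ o d = false := by simpa using hd
      simp [ho', hd'.2, M.inv, hd'.1.1, hd'.1.2]
  have e3 : ∀ b : Bool, (Finset.univ.filter fun d => B d ∧ o d = b).card =
      (Finset.univ.filter fun d => (B d ∧ B (M.al d)) ∧ o d = b).card +
        (Finset.univ.filter fun d => (B d ∧ ¬ B (M.al d)) ∧ o d = b).card := by
    intro b
    rw [← Finset.card_filter_add_card_filter_not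
      (s := Finset.univ.filter fun d => B d ∧ o d = b) (fun d => B (M.al d)),
      Finset.filter_filter, Finset.filter_filter]
    congr 2
    · ext d
      simp only [Finset.mem_filter, Finset.mem_univ, true_and]
      tauto
    · ext d
      simp only [Finset.mem_filter, Finset.mem_univ, true_and]
      tauto
  have e4 : M.cut B = (Finset.univ.filter fun d => (B d ∧ ¬ B (M.al d)) ∧ o d = true).card +
      (Finset.univ.filter fun d => (B d ∧ ¬ B (M.al d)) ∧ o d = false).card := by
    unfold DMap.cut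
    rw [Nat.card_eq_fintype_card, Fintype.card_subtype, ← Finset.card_filter_add_card_filter_not
      (s := Finset.univ.filter fun d => B d ∧ ¬ B (M.al d)) (fun d => o d = true),
      Finset.filter_filter, Finset.filter_filter]
    congr 2
    ext d
    simp
  have h1 := e3 true
  have h2 := e3 false
  rw [e4]
  omega

theorem Legal.cut_even [Fintype D] (h : M.Legal) {B : D → Prop} (hB : M.Sites B) :
    2 ∣ M.cut B := by
  obtain ⟨o, ho, ho'⟩ := h.exists_col
  exact cut_even_of_col ho ho' hB

/-! ### generic patches -/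

theorem deg_nx (d : D) : M.deg (M.nx d) = M.deg d := by
  have key : ∀ n : ℕ, Function.IsPeriodicPt M.nx n (M.nx d) ↔ Function.IsPeriodicPt M.nx n d := by
    intro n
    unfold Function.IsPeriodicPt Function.IsFixedPt
    rw [← Function.iterate_succ_apply, Function.iterate_succ_apply']
    exact M.nx.injective.eq_iff
  unfold DMap.deg
  exact Nat.dvd_antisymm
    (Function.IsPeriodicPt.minimalPeriod_dvd ((key _).2 (Function.isPeriodicPt_minimalPeriod _ _)))
    (Function.IsPeriodicPt.minimalPeriod_dvd ((key _).1 (Function.isPeriodicPt_minimalPeriod _ _)))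

theorem deg_nx_symm (d : D) : M.deg (M.nx.symm d) = M.deg d := by
  rw [← deg_nx, Equiv.apply_symm_apply]

theorem deg_same {d e : D} (h : M.SameSite d e) : M.deg d = M.deg e := by
  obtain ⟨k, rfl⟩ := h
  induction k with
  | zero => simp
  | succ k ih => rw [ih, add_comm, zpow_one_add, Equiv.Perm.mul_apply, deg_nx]
  | pred k ih =>
    rw [ih, ← deg_nx ((M.nx ^ (-(k : ℤ) - 1)) d)]
    congr 1
    rw [← Equiv.Perm.mul_apply, ← zpow_one_add, add_sub_cancel]

theorem site_nx (d : D) : M.SameSite d (M.nx d) := ⟨1, by simp⟩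

theorem site_nx_symm (d : D) : M.SameSite d (M.nx.symm d) := ⟨-1, by simp⟩

theorem iter_ne {d : D} {k : ℕ} (h0 : 0 < k) (hk : k < M.deg d) : (M.nx)^[k] d ≠ d := by
  intro h
  have h1 : Function.minimalPeriod M.nx d ≤ k := Function.IsPeriodicPt.minimalPeriod_le h0 h
  unfold DMap.deg at hk
  omega

theorem nx_four {d : D} (h : M.deg d = 4) : M.nx (M.nx (M.nx (M.nx d))) = d := by
  have h1 := Function.isPeriodicPt_minimalPeriod M.nx d
  unfold DMap.deg at h
  rw [h] at h1
  exact h1

theorem nx_four' {d : D} (h : M.deg d = 4) : M.nx.symm d = M.nx (M.nx (M.nx d)) := by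
  rw [Equiv.symm_apply_eq]
  exact (nx_four h).symm

/-- the darts of a site -/
theorem mem_site [Finite D] {d e : D} (h : M.SameSite d e) : ∃ k < M.deg d, (M.nx)^[k] d = e := by
  obtain ⟨k, hk⟩ := h.exists_nat_pow_eq
  have h0 : 0 < M.deg d :=
    Function.minimalPeriod_pos_of_mem_periodicPts (M.nx.injective.mem_periodicPts d)
  refine ⟨k % M.deg d, Nat.mod_lt _ h0, ?_⟩
  rw [deg, Function.iterate_mod_minimalPeriod_eq, ← hk, Equiv.Perm.coe_pow]

/-- the darts of a quad -/
theorem mem_quad [Finite D] {d e : D} (h4 : M.deg d = 4) (h : M.SameSite d e) :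
    e = d ∨ e = M.nx d ∨ e = M.nx (M.nx d) ∨ e = M.nx (M.nx (M.nx d)) := by
  obtain ⟨k, hk, rfl⟩ := mem_site h
  rw [h4] at hk
  interval_cases k
  · exact Or.inl rfl
  · exact Or.inr (Or.inl rfl)
  · exact Or.inr (Or.inr (Or.inl rfl))
  · exact Or.inr (Or.inr (Or.inr rfl))

/-- generic patches: no corner quads, no 3-path -/
structure Gen (M : DMap D) (A : D → Prop) (δ : ZMod 6 → D) : Prop extends M.Patch A δ where
  two : ∀ d, ∃ e, A e ∧ ¬ M.SameSite d e
  nc : ∀ i, M.nx (δ i) = δ (i + 1) → M.deg (δ i) = 6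
  n3 : ∀ B : D → Prop, M.Sites B → (∀ d, B d → A d) → M.cut B = 6 → scut δ B ≠ 3

/-- one site or two quads -/
def Small (M : DMap D) (B : D → Prop) : Prop :=
  (∃ d, ∀ e, B e ↔ M.SameSite d e) ∨
    ∃ d e, M.deg d = 4 ∧ M.deg e = 4 ∧ ∀ x, B x ↔ M.SameSite d x ∨ M.SameSite e x

/-- generic patches without nontrivial hexagons at the ring -/
structure GenT (M : DMap D) (A : D → Prop) (δ : ZMod 6 → D) : Prop extends M.Gen A δ where
  triv : ∀ B : D → Prop, M.Sites B → (∀ d, B d → A d) → (∃ d, B d) → (∃ d, A d ∧ ¬ B d) →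
    M.cut B = 6 → (∃ d, B d ∧ Patch.Ring M δ d) → Small M B

namespace Gen

variable [Fintype D] (hG : M.Gen A δ)

include hG

/-- ring edges of a quad are not adjacent -/
theorem nadj {i j : ZMod 6} (h4 : M.deg (δ i) = 4) : M.nx (δ i) ≠ δ j := by
  intro h
  have h1 : δ i = M.nx.symm (δ j) := by rw [← h, Equiv.symm_apply_apply]
  have h2 := ((hG.toPatch.corner_iff i j).1 h1).2
  have := hG.nc i h2
  omega

/-- a quad has at most two ring edges -/
theorem scut_quad {q : D} (h4 : M.deg q = 4) {B : D → Prop} (hB : ∀ e, B e ↔ M.SameSite q e) :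
    scut δ B ≤ 2 := by
  have hs : (Finset.univ.filter fun e => M.SameSite q e).card = 4 := by
    rw [← h4]
    exact card_site q _ fun e => by simp
  let S := Finset.univ.filter fun e => M.SameSite q e ∧ ∃ i, e = δ i
  have h1 : scut δ B = S.card := by
    unfold scut
    rw [← Finset.card_image_of_injective _ hG.bd.inj]
    congr 1
    ext e
    simp only [Finset.mem_image, Finset.mem_filter, Finset.mem_univ, true_and, S]
    constructor
    · rintro ⟨i, hi, rfl⟩
      exact ⟨(hB _).1 hi, i, rfl⟩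
    · rintro ⟨h, i, rfl⟩
      exact ⟨i, (hB _).2 h, rfl⟩
  have h2 : Disjoint S (S.image M.nx) := by
    rw [Finset.disjoint_left]
    intro x hx hx'
    obtain ⟨y, hy, rfl⟩ := Finset.mem_image.1 hx'
    simp only [Finset.mem_filter, Finset.mem_univ, true_and, S] at hx hy
    obtain ⟨-, j, hj⟩ := hx
    obtain ⟨h3, i, rfl⟩ := hy
    exact hG.nadj (by rw [← deg_same h3, h4]) hj
  have h3 : S ∪ S.image M.nx ⊆ Finset.univ.filter fun e => M.SameSite q e := by
    intro x hx
    rcases Finset.mem_union.1 hx with hx | hx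
    · simp only [Finset.mem_filter, Finset.mem_univ, true_and, S] at hx ⊢
      exact hx.1
    · obtain ⟨y, hy, rfl⟩ := Finset.mem_image.1 hx
      simp only [Finset.mem_filter, Finset.mem_univ, true_and, S] at hy ⊢
      exact hy.1.trans ⟨1, by simp⟩
  have h4' := Finset.card_le_card h3
  rw [Finset.card_union_of_disjoint h2, Finset.card_image_of_injective _ M.nx.injective, hs] at h4'
  omega

omit [Fintype D] in
/-- small nontrivial cuts -/
theorem ge4 {B : D → Prop} (hB : M.Sites B) (hBA : ∀ d, B d → A d) (h1 : ∃ d, B d) :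
    4 ≤ M.cut B := by
  obtain ⟨r, hr⟩ := hG.toPatch.exists_root
  exact hG.legal.cut4 B hB h1 ⟨r, fun h => hr (hBA r h)⟩

/-- cuts with four darts -/
theorem four {B : D → Prop} (hB : M.Sites B) (hBA : ∀ d, B d → A d) (h2 : ∃ d, A d ∧ ¬ B d)
    (hc : M.cut B = 4) : ∃ q, M.deg q = 4 ∧ ∀ e, B e ↔ M.SameSite q e := by
  rcases hG.legal.quad B hB hc with ⟨q, hq⟩ | ⟨q, hq⟩
  · refine ⟨q, ?_, hq⟩
    rw [← hc, ← hG.legal.cut_site]
    exact cut_congr fun e => (hq e).symm
  · exfalso
    obtain ⟨r, hr⟩ := hG.toPatch.exists_root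
    obtain ⟨a, ha, hab⟩ := h2
    have h3 := ((hq r).1 fun h => hr (hBA r h)).symm.trans ((hq a).1 hab)
    exact hr ((hG.toPatch.sites.same h3).2 ha)

end Gen

/-- the empty set and the whole patch -/
def TrivS (A B : D → Prop) : Prop := (∀ d, ¬ B d) ∨ ∀ d, A d → B d

theorem TrivS.not {B : D → Prop} (h : ¬ TrivS A B) : (∃ d, B d) ∧ ∃ d, A d ∧ ¬ B d := by
  unfold TrivS at h
  push Not at h
  exact h

namespace Gen

variable [Fintype D] (hG : M.Gen A δ)

include hG

/-- at most one inner edge -/
theorem r1 {B : D → Prop} (hB : M.Sites B) (hBA : ∀ d, B d → A d) (hr : rcut M A B ≤ 1) :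
    TrivS A B := by
  by_contra hn
  obtain ⟨⟨b, hb⟩, a, ha, hab⟩ := TrivS.not hn
  have h1 := hG.ge4 hB hBA ⟨b, hb⟩
  have h2 := hG.ge4 (hG.toPatch.sites_compl hB) (fun d h => h.1) ⟨a, ha, hab⟩
  have h3 := hG.toPatch.cut_eq hBA
  have h4 := hG.toPatch.cut_eq (B := fun d => A d ∧ ¬ B d) fun d h => h.1
  rw [Patch.rcut_compl] at h4
  have h5 := hG.toPatch.scut_compl B
  obtain ⟨q, hq, hqB⟩ := hG.four hB hBA ⟨a, ha, hab⟩ (by omega)
  have := hG.scut_quad hq hqB
  omega

end Gen

/-! ### arcs between ring nodes -/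

/-- the ring path which starts in the ring node `i` and has `k` ring edges -/
def ringpath (δ : ZMod 6 → D) (i : ZMod 6) (k : ℕ) : List D :=
  (List.range k).map fun t : ℕ => δ (i + 1 + (t : ZMod 6))

theorem Patch.sum_ringpath [Finite D] (hP : M.Patch A δ) {w : D → ZMod 2}
    (hw : ∀ d, w (M.fs d) = w d) (i : ZMod 6) (k : ℕ) :
    ((ringpath δ i k).map fun x => w x + w (M.al x)).sum = w (δ i) + w (δ (i + k)) := by
  induction k with
  | zero =>
    simp only [ringpath, List.range_zero, List.map_nil, List.sum_nil, Nat.cast_zero, add_zero]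
    exact (dcyc_char _).symm
  | succ k ih =>
    have h1 : w (M.al (δ (i + 1 + (k : ZMod 6)))) = w (δ (i + k)) := by
      have := hP.root_node (i + k)
      rw [show i + (k : ZMod 6) + 1 = i + 1 + k by ring] at this
      exact (node_fun hw this).symm
    have h2 : ringpath δ i (k + 1) = ringpath δ i k ++ [δ (i + 1 + (k : ZMod 6))] := by
      unfold ringpath
      rw [List.range_succ, List.map_append, List.map_cons, List.map_nil]
    rw [h2, List.map_append, List.sum_append, ih]
    simp only [List.map_cons, List.map_nil, List.sum_cons, List.sum_nil, add_zero, h1]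
    have h3 : i + ((k + 1 : ℕ) : ZMod 6) = i + 1 + k := by push_cast; ring
    rw [h3]
    have := dcyc_char (w (δ (i + k)))
    linear_combination this

/-- `L` is a walk from the ring node `i` to the ring node `j` -/
def Arc (M : DMap D) (δ : ZMod 6 → D) (L : List D) (i j : ZMod 6) : Prop :=
  ∀ w : D → ZMod 2, (∀ d, w (M.fs d) = w d) →
    (L.map fun x => w x + w (M.al x)).sum = w (δ i) + w (δ j)

/-- the ring edge `y` is on the ring path from `i` up to `j` -/
def OnPath (i j y : ZMod 6) : Prop := (y - i - 1).val < (j - i).val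

theorem wcnt_ringpath [Finite D] (hP : M.Patch A δ) (i j y : ZMod 6) :
    wcnt M (ringpath δ i (j - i).val) (δ y) = ind (OnPath i j y) := by
  have h1 : (ringpath δ i (j - i).val).count (M.al (δ y)) = 0 := by
    apply List.count_eq_zero_of_not_mem
    intro h
    obtain ⟨t, -, ht⟩ := List.mem_map.1 h
    exact hP.notA y (by rw [← ht]; exact hP.inA _)
  have h2 : (ringpath δ i (j - i).val).count (δ y) =
      ((List.range (j - i).val).map fun t : ℕ => i + 1 + (t : ZMod 6)).count y := by
    have h3 : ringpath δ i (j - i).val =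
        ((List.range (j - i).val).map fun t : ℕ => i + 1 + (t : ZMod 6)).map δ := by
      rw [List.map_map]
      rfl
    rw [h3]
    exact List.count_map_of_injective _ _ hP.bd.inj _
  unfold wcnt
  rw [h1, h2, Nat.cast_zero, add_zero]
  have key : ∀ i j y : ZMod 6,
      ((((List.range (j - i).val).map fun t : ℕ => i + 1 + (t : ZMod 6)).count y : ℕ) : ZMod 2) =
        if (y - i - 1).val < (j - i).val then 1 else 0 := by
    decide
  have h4 := key i j y
  unfold ind OnPath
  convert h4

/-- the set of an arc -/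
theorem Patch.exists_arc [Fintype D] (hP : M.Patch A δ) {L : List D} {i j : ZMod 6}
    (hL : Arc M δ L i j) :
    ∃ B : D → Prop, M.Sites B ∧ (∀ d, B d → A d) ∧
      (∀ d, A d → A (M.al d) → ind (B d) + ind (B (M.al d)) = wcnt M L d) ∧
      ∀ y, ind (B (δ y)) = wcnt M L (δ y) + ind (OnPath i j y) := by
  obtain ⟨B, h1, h2, h3⟩ := hP.exists_set (W := L ++ ringpath δ i (j - i).val) (by
    intro w hw
    rw [List.map_append, List.sum_append, hL w hw, hP.sum_ringpath hw]
    have h4 : i + ((j - i).val : ZMod 6) = j := by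
      rw [ZMod.natCast_val, ZMod.cast_id', id, add_sub_cancel]
    rw [h4]
    exact dcyc_char _)
  refine ⟨B, h1, h2, fun d hd hd' => ?_, fun y => ?_⟩
  · rw [h3, wcnt_append]
    have h5 : wcnt M (ringpath δ i (j - i).val) d = 0 := by
      by_contra h
      rcases wcnt_mem h with h6 | h6
      · obtain ⟨t, -, ht⟩ := List.mem_map.1 h6
        exact hP.notA _ (by rw [ht]; exact hd')
      · obtain ⟨t, -, ht⟩ := List.mem_map.1 h6
        exact hP.notA _ (by rw [ht, M.inv]; exact hd)
    rw [h5, add_zero]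
  · have h5 := h3 (δ y)
    rw [wcnt_append, wcnt_ringpath hP, ind_false (p := B (M.al (δ y))) fun h =>
      hP.notA y (h2 _ h), add_zero] at h5
    exact h5

/-- inner darts -/
def Inn (M : DMap D) (A : D → Prop) (x : D) : Prop := A x ∧ A (M.al x)

theorem rcut_le' [Finite D] {B : D → Prop} {L : List D}
    (h : ∀ d, A d → A (M.al d) → ind (B d) + ind (B (M.al d)) = wcnt M L d) :
    rcut M A B ≤ (L.filter fun x => decide (Inn M A x)).length :=
  card_le_filter (M := M) (B := B) (W := L) (Q := Inn M A)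
    (fun d => by unfold Inn; rw [M.inv]; exact and_comm) fun d hd => h d hd.1 hd.2

theorem rcut_le [Finite D] {B : D → Prop} {L : List D}
    (h : ∀ d, A d → A (M.al d) → ind (B d) + ind (B (M.al d)) = wcnt M L d) :
    rcut M A B ≤ L.length := (rcut_le' h).trans (List.length_filter_le _ _)

theorem Patch.ring_iff (d : D) {w : D → ZMod 2} (hw : ∀ d, w (M.fs d) = w d)
    (h : Patch.Ring M δ d) : ∃ i, w d = w (δ i) := by
  obtain ⟨i, hi⟩ := h
  exact ⟨i, (node_fun hw hi).symm⟩

/-- one edge -/
theorem arc_one {x : D} {i j : ZMod 6} (hi : M.SameNode (δ i) (M.al x)) (hj : M.SameNode (δ j) x) :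
    Arc M δ [x] i j := by
  intro w hw
  simp only [List.map_cons, List.map_nil, List.sum_cons, List.sum_nil, add_zero]
  rw [← node_fun hw hi, ← node_fun hw hj, add_comm]

/-- two edges -/
theorem arc_two {x y : D} {i j : ZMod 6} (hi : M.SameNode (δ i) (M.al x))
    (hm : M.SameNode x (M.al y)) (hj : M.SameNode (δ j) y) : Arc M δ [x, y] i j := by
  intro w hw
  simp only [List.map_cons, List.map_nil, List.sum_cons, List.sum_nil, add_zero]
  rw [← node_fun hw hi, ← node_fun hw hj, ← node_fun hw hm]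
  have := dcyc_char (w x)
  linear_combination this

/-- three edges -/
theorem arc_three {x y z : D} {i j : ZMod 6} (hi : M.SameNode (δ i) (M.al x))
    (hm : M.SameNode x (M.al y)) (hm' : M.SameNode y (M.al z)) (hj : M.SameNode (δ j) z) :
    Arc M δ [x, y, z] i j := by
  intro w hw
  simp only [List.map_cons, List.map_nil, List.sum_cons, List.sum_nil, add_zero]
  rw [← node_fun hw hi, ← node_fun hw hj, ← node_fun hw hm, ← node_fun hw hm']
  have := dcyc_char (w x)
  have := dcyc_char (w y)
  linear_combination dcyc_char (w x) + dcyc_char (w y)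

namespace Gen

variable [Fintype D] (hG : M.Gen A δ)

include hG

omit [Fintype D] in
/-- the inner edges of an arc which bounds nothing cancel -/
theorem wcnt_zero {B : D → Prop} {L : List D} (hBA : ∀ d, B d → A d) (ht : TrivS A B)
    (h : ∀ d, A d → A (M.al d) → ind (B d) + ind (B (M.al d)) = wcnt M L d) {d : D} (hd : A d)
    (hd' : A (M.al d)) : wcnt M L d = 0 := by
  have := hG
  have := hBA
  rw [← h d hd hd', ind_add]
  rcases ht with ht | ht
  · exact iff_of_false (ht _) (ht _)
  · exact iff_of_true (ht _ hd) (ht _ hd')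

/-- an inner edge does not join two ring nodes -/
theorem no_chord {x : D} (hx : A x) (hx' : A (M.al x)) (h1 : Patch.Ring M δ x)
    (h2 : Patch.Ring M δ (M.al x)) : False := by
  obtain ⟨j, hj⟩ := h1
  obtain ⟨i, hi⟩ := h2
  obtain ⟨B, hB, hBA, hB1, -⟩ := hG.toPatch.exists_arc (arc_one hi hj)
  have h3 := rcut_le hB1
  have h4 := hG.wcnt_zero hBA (hG.r1 hB hBA h3) hB1 hx hx'
  rw [wcnt_cons, wcnt_nil, ind_true rfl, ind_false fun h => M.ne x h.symm] at h4
  revert h4
  decide

/-- the ring edges of a quad -/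
theorem quad_one {i j : ZMod 6} (h4 : M.deg (δ i) = 4) (hs : M.SameSite (δ i) (δ j)) : i = j := by
  rcases mem_quad h4 hs with h | h | h | h
  · exact (hG.bd.inj h).symm
  · exact absurd h.symm (hG.nadj h4)
  · exfalso
    have h1 : A (M.nx (δ i)) := (hG.toPatch.sites _).2 (hG.toPatch.inA i)
    have h2 : A (M.al (M.nx (δ i))) := by
      by_contra hn
      obtain ⟨k, hk⟩ := (hG.bd.mem _).1 ⟨h1, hn⟩
      exact hG.nadj h4 hk.symm
    refine hG.no_chord h1 h2 ?_ ?_
    · have h3 : M.nx (δ i) = M.nx.symm (δ j) := by rw [h, Equiv.symm_apply_apply]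
      rw [h3]
      exact hG.toPatch.ring_prev j
    · refine ⟨i, ?_⟩
      have h3 := Patch.nx_symm_node (M := M) (M.nx (δ i))
      rw [Equiv.symm_apply_apply] at h3
      exact h3.symm
  · exfalso
    have h1 : M.nx (δ j) = δ i := by rw [h, nx_four h4]
    exact hG.nadj (by rw [← deg_same hs, h4]) h1

/-- a quad has at most one ring edge -/
theorem scut_quad1 {q : D} (h4 : M.deg q = 4) {B : D → Prop} (hB : ∀ e, B e ↔ M.SameSite q e) :
    scut δ B ≤ 1 := by
  unfold scut
  rw [Finset.card_le_one]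
  intro i hi j hj
  simp only [Finset.mem_filter, Finset.mem_univ, true_and] at hi hj
  have h1 := (hB _).1 hi
  have h2 := (hB _).1 hj
  exact hG.quad_one (by rw [← deg_same h1, h4]) (h1.symm.trans h2)

/-- all numbers of a nontrivial set -/
theorem nums {B : D → Prop} (hB : M.Sites B) (hBA : ∀ d, B d → A d) (hn : ¬ TrivS A B) :
    4 ≤ rcut M A B + scut δ B ∧ 4 + scut δ B ≤ rcut M A B + 6 ∧ 2 ∣ rcut M A B + scut δ B ∧
    (rcut M A B + scut δ B = 4 → scut δ B ≤ 1 ∧ ∃ q, M.deg q = 4 ∧ ∀ e, B e ↔ M.SameSite q e) ∧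
    (rcut M A B + 6 = 4 + scut δ B → 5 ≤ scut δ B ∧
      ∃ q, M.deg q = 4 ∧ ∀ e, (A e ∧ ¬ B e) ↔ M.SameSite q e) ∧
    (rcut M A B + scut δ B = 6 → scut δ B ≠ 3) := by
  obtain ⟨⟨b, hb⟩, a, ha, hab⟩ := TrivS.not hn
  have hB' := hG.toPatch.sites_compl hB
  have h1 := hG.ge4 hB hBA ⟨b, hb⟩
  have h2 := hG.ge4 hB' (fun d h => h.1) ⟨a, ha, hab⟩
  have h3 := hG.toPatch.cut_eq hBA
  have h4 := hG.toPatch.cut_eq (B := fun d => A d ∧ ¬ B d) fun d h => h.1
  rw [Patch.rcut_compl] at h4
  have h5 := hG.toPatch.scut_compl B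
  have h6 := hG.legal.cut_even hB
  refine ⟨by omega, by omega, by omega, fun h => ?_, fun h => ?_, fun h => ?_⟩
  · obtain ⟨q, hq, hqB⟩ := hG.four hB hBA ⟨a, ha, hab⟩ (by omega)
    exact ⟨hG.scut_quad1 hq hqB, q, hq, hqB⟩
  · obtain ⟨q, hq, hqB⟩ := hG.four hB' (fun d h => h.1) ⟨b, hBA b hb, fun h => h.2 hb⟩ (by omega)
    have := hG.scut_quad1 hq hqB
    exact ⟨by omega, q, hq, hqB⟩
  · exact hG.n3 B hB hBA (by omega)

/-- at most two inner edges -/
theorem r2 {B : D → Prop} (hB : M.Sites B) (hBA : ∀ d, B d → A d) (hr : rcut M A B ≤ 2) :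
    TrivS A B := by
  by_contra hn
  obtain ⟨h1, h2, ⟨k, hk⟩, h4, h5, h6⟩ := hG.nums hB hBA hn
  have h7 := fun h => (h4 h).1
  have h8 := fun h => (h5 h).1
  omega

/-- three inner edges -/
theorem r3 {B : D → Prop} (hB : M.Sites B) (hBA : ∀ d, B d → A d) (hr : rcut M A B ≤ 3) :
    TrivS A B ∨ (∃ q, M.deg q = 4 ∧ (∃ i, M.SameSite q (δ i)) ∧ ∀ e, B e ↔ M.SameSite q e) ∨
      ∃ q, M.deg q = 4 ∧ (∃ i, M.SameSite q (δ i)) ∧ ∀ e, (A e ∧ ¬ B e) ↔ M.SameSite q e := by
  by_cases hn : TrivS A B
  · exact Or.inl hn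
  right
  obtain ⟨h1, h2, ⟨k, hk⟩, h4, h5, h6⟩ := hG.nums hB hBA hn
  have h7 := fun h => (h4 h).1
  have h8 := fun h => (h5 h).1
  have h9 : rcut M A B = 3 := by omega
  have h10 : scut δ B = 1 ∨ scut δ B = 5 := by omega
  rcases h10 with h10 | h10
  · left
    obtain ⟨-, q, hq, hqB⟩ := h4 (by omega)
    have h11 : 0 < scut δ B := by omega
    obtain ⟨i, hi⟩ := Finset.card_pos.1 h11
    simp only [Finset.mem_filter, Finset.mem_univ, true_and] at hi
    exact ⟨q, hq, ⟨i, (hqB _).1 hi⟩, hqB⟩
  · right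
    obtain ⟨-, q, hq, hqB⟩ := h5 (by omega)
    have h12 := hG.toPatch.scut_compl B
    have h11 : 0 < scut δ fun d => A d ∧ ¬ B d := by omega
    obtain ⟨i, hi⟩ := Finset.card_pos.1 h11
    simp only [Finset.mem_filter, Finset.mem_univ, true_and] at hi
    exact ⟨q, hq, ⟨i, (hqB _).1 hi⟩, hqB⟩

omit hG [Fintype D] in
theorem cut_two [Fintype D] (hL : M.Legal) {p q : D} (hne : ¬ M.SameSite p q) :
    M.cut (fun x => M.SameSite p x ∨ M.SameSite q x) +
      2 * (Finset.univ.filter fun x => M.SameSite p x ∧ M.SameSite q (M.al x)).card =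
        M.deg p + M.deg q := by
  rw [← hL.cut_site p, ← hL.cut_site q, cut_eq_sum, cut_eq_sum, cut_eq_sum]
  have h2 : (Finset.univ.filter fun x => M.SameSite p x ∧ M.SameSite q (M.al x)).card =
      ∑ x, if M.SameSite p x ∧ M.SameSite q (M.al x) then 1 else 0 := by
    rw [Finset.card_filter]
  have h3 : (Finset.univ.filter fun x => M.SameSite p x ∧ M.SameSite q (M.al x)).card =
      ∑ x, if M.SameSite q x ∧ M.SameSite p (M.al x) then 1 else 0 := by
    rw [Finset.card_filter]
    have hinv : Function.Involutive M.al := M.inv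
    refine Fintype.sum_equiv hinv.toPerm _ _ fun x => ?_
    show _ = if M.SameSite q (M.al x) ∧ M.SameSite p (M.al (M.al x)) then 1 else 0
    rw [M.inv]
    by_cases a1 : M.SameSite p x <;> by_cases a2 : M.SameSite q (M.al x) <;> simp [a1, a2]
  rw [two_mul]
  conv_lhs => rw [h2]
  conv_lhs =>
    enter [2, 2]
    rw [← h2, h3]
  rw [← Finset.sum_add_distrib, ← Finset.sum_add_distrib, ← Finset.sum_add_distrib]
  refine Finset.sum_congr rfl fun x _ => ?_
  have e1 : ¬ (M.SameSite p x ∧ M.SameSite q x) := fun h => hne (h.1.trans h.2.symm)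
  have e2 : ¬ (M.SameSite p (M.al x) ∧ M.SameSite q (M.al x)) := fun h =>
    hne (h.1.trans h.2.symm)
  have e3 : ¬ (M.SameSite p x ∧ M.SameSite p (M.al x)) := fun h =>
    hL.noloop x (h.1.symm.trans h.2)
  have e4 : ¬ (M.SameSite q x ∧ M.SameSite q (M.al x)) := fun h =>
    hL.noloop x (h.1.symm.trans h.2)
  by_cases a1 : M.SameSite p x <;> by_cases a2 : M.SameSite q x <;>
    by_cases a3 : M.SameSite p (M.al x) <;> by_cases a4 : M.SameSite q (M.al x) <;>
    simp_all

/-- two sites -/
theorem share {p q : D} (hp : A p) (hq : A q) (hne : ¬ M.SameSite p q) :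
    6 + 2 * (Finset.univ.filter fun x => M.SameSite p x ∧ M.SameSite q (M.al x)).card ≤
      M.deg p + M.deg q := by
  have hC : M.Sites fun x => M.SameSite p x ∨ M.SameSite q x := (M.sites_site p).or (M.sites_site q)
  have hCA : ∀ x, M.SameSite p x ∨ M.SameSite q x → A x := by
    rintro x (h | h)
    · exact (hG.toPatch.sites.same h).1 hp
    · exact (hG.toPatch.sites.same h).1 hq
  have h1 := cut_two hG.legal hne
  have h5 : 6 ≤ M.cut (fun x => M.SameSite p x ∨ M.SameSite q x) := by
    have h6 := hG.ge4 hC hCA ⟨p, Or.inl (Equiv.Perm.SameCycle.refl _ _)⟩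
    have h7 := hG.legal.cut_even hC
    by_contra h8
    have h9 : M.cut (fun x => M.SameSite p x ∨ M.SameSite q x) = 4 := by omega
    by_cases h10 : ∃ d, A d ∧ ¬ (M.SameSite p d ∨ M.SameSite q d)
    · obtain ⟨z, -, hz⟩ := hG.four hC hCA h10 h9
      have h11 := (hz p).1 (Or.inl (Equiv.Perm.SameCycle.refl _ _))
      have h12 := (hz q).1 (Or.inr (Equiv.Perm.SameCycle.refl _ _))
      exact hne (h11.symm.trans h12)
    · push Not at h10
      have h11 := hG.toPatch.cut
      rw [cut_congr (B := fun x => M.SameSite p x ∨ M.SameSite q x) fun d =>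
        ⟨fun h => h10 d h, fun h => hCA d h⟩] at h11
      omega
  omega

/-- two quads have at most one common edge -/
theorem share4 {p q x y : D} (h4p : M.deg p = 4) (h4q : M.deg q = 4) (hp : A p)
    (hx : M.SameSite p x) (hy : M.SameSite p y)
    (hx' : M.SameSite q (M.al x)) (hy' : M.SameSite q (M.al y)) : x = y := by
  have hne : ¬ M.SameSite p q := fun h => hG.legal.noloop x ((hx.symm.trans h).trans hx')
  by_cases hq : A q
  · have h1 := hG.share hp hq hne
    by_contra hxy
    have h2 : 1 < (Finset.univ.filter fun x => M.SameSite p x ∧ M.SameSite q (M.al x)).card := by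
      rw [Finset.one_lt_card]
      exact ⟨x, by simp [hx, hx'], y, by simp [hy, hy'], hxy⟩
    omega
  · -- a quad of the root
    exfalso
    have h1 : M.deg q = 6 := by
      obtain ⟨r, hr⟩ := hG.root
      have h2 : M.cut (M.SameSite q) = 6 := by
        rw [← hG.toPatch.cut, ← cut_not A]
        exact cut_congr fun e => by
          rw [hr e]
          have h3 := (hr q).1 hq
          exact ⟨fun h => h3.trans h, fun h => h3.symm.trans h⟩
      rw [← hG.legal.cut_site, h2]
    omega

end Gen

end DMap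

end GT33
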