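import Pool.Agent.GT33.ObjInd
import Pool.Agent.GT33.DWalk

/-!
# GT33 module GENOBJ: irreducible patches are generic

`Irr.cases`: an irreducible patch is a single site, or it has a corner quad, or a set of sites with cut six and
three ring edges (an inner 3-path), or it is generic (`Gen`).
-/

open Classical

namespace GT33

namespace DMap

variable {D : Type} {M : DMap D} {A : D → Prop} {δ : ZMod 6 → D}

/-- the number of darts of a site -/
theorem card_sameSite [Finite D] (d : D) : Nat.card {e // M.SameSite d e} = M.deg d := by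
  have : Fintype D := Fintype.ofFinite D
  rw [Nat.card_eq_fintype_card, Fintype.card_subtype]
  exact card_site (M := M) d _ fun e => by simp

/-- a set of sites with eight darts is two quads -/
theorem Legal.two_quads [Finite D] (hL : M.Legal) {B : D → Prop} (hB : M.Sites B)
    (h8 : Nat.card {d // B d} = 8) :
    ∃ d e, M.deg d = 4 ∧ M.deg e = 4 ∧ ∀ x, B x ↔ M.SameSite d x ∨ M.SameSite e x := by
  have hne : ∃ d, B d := by
    by_contra hno
    push Not at hno
    have h0 : Nat.card {d // B d} = 0 := Nat.card_eq_zero.2 (Or.inl ⟨fun x => hno x.1 x.2⟩)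
    omega
  obtain ⟨d, hd⟩ := hne
  have h1 := card_or (B := M.SameSite d) (C := B) fun e he => (hB.same he).1 hd
  rw [card_sameSite] at h1
  have hd46 := hL.deg d
  have hne : ∃ e, B e ∧ ¬ M.SameSite d e := by
    by_contra hno
    push Not at hno
    have h0 : Nat.card {e // B e ∧ ¬ M.SameSite d e} = 0 :=
      Nat.card_eq_zero.2 (Or.inl ⟨fun x => x.2.2 (hno x.1 x.2.1)⟩)
    omega
  obtain ⟨e, he, hde⟩ := hne
  have hC : M.Sites fun x => B x ∧ ¬ M.SameSite d x := hB.and (sites_site d).not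
  have h2 := card_or (B := M.SameSite e) (C := fun x => B x ∧ ¬ M.SameSite d x) fun x hx =>
    (hC.same hx).1 ⟨he, hde⟩
  rw [card_sameSite] at h2
  have he46 := hL.deg e
  refine ⟨d, e, by omega, by omega, fun x => ⟨fun hx => ?_, ?_⟩⟩
  · by_contra hno
    push Not at hno
    have h3 : 0 < Nat.card {x // (B x ∧ ¬ M.SameSite d x) ∧ ¬ M.SameSite e x} := by
      rw [Nat.card_pos_iff]
      exact ⟨⟨⟨x, ⟨hx, hno.1⟩, hno.2⟩⟩, inferInstance⟩
    omega
  · rintro (hx | hx)
    · exact (hB.same hx).1 hd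
    · exact (hB.same hx).1 he

/-- **irreducible patches are generic**, unless they have a corner quad or an inner 3-path -/
theorem Patch.gen_of_irr [Fintype D] (hP : M.Patch A δ) (hI : M.Irr A δ)
    (h1 : ¬ ∃ r, ∀ e, A e ↔ M.SameSite r e)
    (h2 : ∀ i, M.nx (δ i) = δ (i + 1) → M.deg (δ i) ≠ 4)
    (h3 : ∀ B : D → Prop, M.Sites B → (∀ d, B d → A d) → M.cut B = 6 → scut δ B ≠ 3) :
    M.GenT A δ where
  toPatch := hP
  two d := by
    by_contra hno
    push Not at hno
    apply h1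
    refine ⟨d, fun e => ⟨hno e, fun he => ?_⟩⟩
    have h4 := hno _ (hP.inA 0)
    exact (hP.sites.same (h4.symm.trans he)).1 (hP.inA 0)
  nc i hi := (hP.legal.deg (δ i)).resolve_left (h2 i hi)
  n3 B hB hBA hc := h3 B hB hBA hc
  triv B hB hBA hne hne' hc hr := by
    obtain ⟨d, hd, i, hi⟩ := hr
    rcases hI B hB hBA hne' hc ⟨i, d, hd, hi⟩ with h4 | h4
    · exact Or.inl h4
    · exact Or.inr (hP.legal.two_quads hB h4)

/-- the cases of an irreducible patch -/
theorem Patch.irr_cases [Fintype D] (hP : M.Patch A δ) (hI : M.Irr A δ) :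
    (∃ r, ∀ e, A e ↔ M.SameSite r e) ∨ (∃ i, M.nx (δ i) = δ (i + 1) ∧ M.deg (δ i) = 4) ∨
      (∃ B : D → Prop, M.Sites B ∧ (∀ d, B d → A d) ∧ M.cut B = 6 ∧ scut δ B = 3) ∨
      M.GenT A δ := by
  by_cases h1 : ∃ r, ∀ e, A e ↔ M.SameSite r e
  · exact Or.inl h1
  by_cases h2 : ∃ i, M.nx (δ i) = δ (i + 1) ∧ M.deg (δ i) = 4
  · exact Or.inr (Or.inl h2)
  by_cases h3 : ∃ B : D → Prop, M.Sites B ∧ (∀ d, B d → A d) ∧ M.cut B = 6 ∧ scut δ B = 3
  · exact Or.inr (Or.inr (Or.inl h3))
  push Not at h2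
  refine Or.inr (Or.inr (Or.inr (hP.gen_of_irr hI h1 h2 fun B hB hBA hc h4 => ?_)))
  exact h3 ⟨B, hB, hBA, hc, h4⟩

end DMap

end GT33
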