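import Pool.Agent.GT33.CObj
import Pool.Agent.GT33.GenObj

/-!
# GT33 module CFOLD: the fold of a corner hexagon

`CorHex M A δ i k`: the hexagon `k` (`k 5 = δ i`, `k 0 = δ (i + 1)`) is at the corner `i` of the generic patch `A`.
`CorHex.legalR` / `legalL`: the folds at the ring nodes `i + 1` / `i - 1` are legal.  `CorHex.rzR`, `CorHex.rzL`: states
of the folds give states of the object.
-/

open Classical

namespace GT33

namespace DMap

variable {D : Type} {M : DMap D} {Good : (ZMod 6 → Prop) → Prop → Rel → Prop}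

/-- a hexagon at the corner `i` of a generic patch -/
structure CorHex (M : DMap D) (A : D → Prop) (δ : ZMod 6 → D) (i : ZMod 6) (k : ZMod 6 → D) :
    Prop where
  gen : M.Gen A δ
  num : M.SiteNum 6 k
  h5 : k 5 = δ i
  h0 : k 0 = δ (i + 1)

/-- a hexagon at the corner `i` of a generic patch without nontrivial hexagons at the ring -/
structure CorHexT (M : DMap D) (A : D → Prop) (δ : ZMod 6 → D) (i : ZMod 6) (k : ZMod 6 → D) :
    Prop extends M.CorHex A δ i k where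
  genT : M.GenT A δ

namespace CorHex

variable [Fintype D] {A : D → Prop} {δ : ZMod 6 → D} {i : ZMod 6} {k : ZMod 6 → D}

omit [Fintype D] in
theorem same (h : M.CorHex A δ i k) (a b : ZMod 6) : M.SameSite (k a) (k b) := h_same h.num a b

omit [Fintype D] in
theorem kA (h : M.CorHex A δ i k) (a : ZMod 6) : A (k a) :=
  (Sites.same (M := M) h.gen.bd.site (h.same 5 a)).1 (by rw [h.h5]; exact bd_mem h.gen.bd i)

omit [Fintype D] in
theorem siteA (h : M.CorHex A δ i k) {d : D} (hd : M.SameSite (k 0) d) : A d :=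
  (Sites.same (M := M) h.gen.bd.site hd).1 (h.kA 0)

omit [Fintype D] in
theorem degk (h : M.CorHex A δ i k) (a : ZMod 6) : M.deg (k a) = 6 := h.num.deg a

theorem cut6 (h : M.CorHex A δ i k) : M.cut (M.SameSite (k 0)) = 6 := by
  rw [h.gen.legal.cut_site, h.degk]

/-- the hexagon has two ring edges -/
theorem scut2 (h : M.CorHex A δ i k) : scut δ (M.SameSite (k 0)) ≤ 2 := by
  have h1 := h.gen.toPatch.cut_eq (B := M.SameSite (k 0)) fun d hd => h.siteA hd
  rw [h.cut6] at h1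
  have h2 := h.gen.n3 _ (sites_site (k 0)) (fun d hd => h.siteA hd) h.cut6
  by_contra h3
  have h4 : rcut M A (M.SameSite (k 0)) ≤ 2 := by omega
  rcases h.gen.r2 (sites_site (k 0)) (fun d hd => h.siteA hd) h4 with h5 | h5
  · exact h5 _ (Equiv.Perm.SameCycle.refl _ _)
  · obtain ⟨e, he, he'⟩ := h.gen.two (k 0)
    exact he' (h5 e he)

/-- the ring darts of the hexagon -/
theorem ring (h : M.CorHex A δ i k) {j : ZMod 6} (hj : M.SameSite (k 0) (δ j)) :
    j = i ∨ j = i + 1 := by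
  by_contra hno
  push Not at hno
  have h1 : 2 < scut δ (M.SameSite (k 0)) := by
    unfold scut
    rw [Finset.two_lt_card]
    refine ⟨i, ?_, i + 1, ?_, j, ?_, (z6_succ i).symm, hno.1.symm, hno.2.symm⟩
    · simp only [Finset.mem_filter, Finset.mem_univ, true_and]
      rw [← h.h5]
      exact h.same 0 5
    · simp only [Finset.mem_filter, Finset.mem_univ, true_and]
      rw [← h.h0]
    · simp only [Finset.mem_filter, Finset.mem_univ, true_and]
      exact hj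
  have h2 := h.scut2
  omega

theorem ring' (h : M.CorHex A δ i k) {j a : ZMod 6} (hj : k a = δ j) :
    (a = 5 ∧ j = i) ∨ (a = 0 ∧ j = i + 1) := by
  rcases h.ring (j := j) (by rw [← hj]; exact h.same 0 a) with rfl | rfl
  · exact Or.inl ⟨h.num.inj (by rw [hj, h.h5]), rfl⟩
  · exact Or.inr ⟨h.num.inj (by rw [hj, h.h0]), rfl⟩

theorem nring (h : M.CorHex A δ i k) {a : ZMod 6} (h5 : a ≠ 5) (h0 : a ≠ 0) (j : ZMod 6) :
    k a ≠ δ j := fun hj => by
  rcases h.ring' hj with ⟨h1, -⟩ | ⟨h1, -⟩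
  · exact h5 h1
  · exact h0 h1

theorem alA (h : M.CorHex A δ i k) {a : ZMod 6} (h5 : a ≠ 5) (h0 : a ≠ 0) : A (M.al (k a)) := by
  by_contra hno
  obtain ⟨j, hj⟩ := (h.gen.bd.mem _).1 ⟨h.kA a, hno⟩
  exact h.nring h5 h0 j hj.symm

theorem fs0 (h : M.CorHex A δ i k) : FS M A δ (k 0) := by
  refine ⟨h.kA 0, ⟨i + 1, by rw [h.h0]⟩, fun j hj => ?_⟩
  have h1 : M.nx (k 0) = k 1 := h.num.nx 0
  rw [hj, Equiv.apply_symm_apply] at h1
  exact h.nring (a := 1) (by decide) (by decide) j h1.symm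

theorem nodes123 (h : M.CorHex A δ i k) {a : ZMod 6} (ha : a = 1 ∨ a = 2 ∨ a = 3) (j : ZMod 6) :
    ¬ M.SameNode (δ j) (k a) := by
  intro hj
  have n0 : M.nx (k 0) = k 1 := h.num.nx 0
  have n1 : M.nx (k 1) = k 2 := h.num.nx 1
  have n2 : M.nx (k 2) = k 3 := h.num.nx 2
  rcases ha with rfl | rfl | rfl
  · refine h.gen.fs1 h.fs0 ?_
    rw [n0]
    exact ⟨j, hj⟩
  · refine h.gen.fs2 h.fs0 ?_
    rw [n0, n1]
    exact ⟨j, hj⟩
  · refine h.gen.fs3 h.fs0 (h.degk 0) ?_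
    rw [n0, n1, n2]
    exact ⟨j, hj⟩

theorem node4 (h : M.CorHex A δ i k) : M.SameNode (δ (i - 1)) (k 4) := by
  have h1 := h.gen.toPatch.prev_node (i - 1)
  have h2 : M.nx (k 4) = k 5 := h.num.nx 4
  rw [sub_add_cancel, ← h.h5, ← h2, Equiv.symm_apply_apply] at h1
  exact h1

/-- the ring nodes of the hexagon -/
theorem node (h : M.CorHex A δ i k) {j a : ZMod 6} (hj : M.SameNode (δ j) (k a)) :
    (a = 4 ∧ j = i - 1) ∨ (a = 5 ∧ j = i) ∨ (a = 0 ∧ j = i + 1) := by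
  rcases z6 a with rfl | rfl | rfl | rfl | rfl | rfl
  · rw [h.h0] at hj
    exact Or.inr (Or.inr ⟨rfl, nodes_inj h.gen.bd hj⟩)
  · exact absurd hj (h.nodes123 (Or.inl rfl) j)
  · exact absurd hj (h.nodes123 (Or.inr (Or.inl rfl)) j)
  · exact absurd hj (h.nodes123 (Or.inr (Or.inr rfl)) j)
  · exact Or.inl ⟨rfl, nodes_inj h.gen.bd (hj.trans h.node4.symm)⟩
  · rw [h.h5] at hj
    exact Or.inr (Or.inl ⟨rfl, nodes_inj h.gen.bd hj⟩)

omit [Fintype D] in
theorem cor (h : M.CorHex A δ i k) : M.nx (δ i) = δ (i + 1) := by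
  have h1 : M.nx (k 5) = k 0 := h.num.nx 5
  rw [← h.h5, h1, h.h0]

theorem lone (h : M.CorHex A δ i k) {e : D} (hn : M.SameNode (δ i) e) (he : A e) : e = δ i := by
  rcases h.gen.toPatch.cor_node h.cor hn with h1 | h1
  · exact h1
  · exact absurd (h1 ▸ he) (bd_al h.gen.bd _)

/-- other small cuts around the hexagon -/
theorem _root_.GT33.DMap.CorHexT.hex (h : M.CorHexT A δ i k) {B : D → Prop} (hB : M.Sites B) (h1 : B (k 0))
    (h2 : ∃ d, ¬ A d ∧ ¬ B d) (h3 : ∃ d, A d ∧ ¬ B d) (h6 : M.cut B ≤ 6) (d : D) :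
    B d ↔ M.SameSite (k 0) d := by
  have hBA : ∀ d, B d → A d := by
    intro d hd
    by_contra hdA
    obtain ⟨e, he, he'⟩ := h2
    obtain ⟨r, hr⟩ := h.gen.root
    exact he' ((Sites.same (M := M) hB (((hr _).1 hdA).symm.trans ((hr _).1 he))).1 hd)
  have h4 := h.gen.ge4 hB hBA ⟨_, h1⟩
  have h5 := h.gen.legal.cut_even hB
  have h7 : M.cut B = 4 ∨ M.cut B = 6 := by omega
  rcases h7 with h7 | h7
  · obtain ⟨q, hq, hqB⟩ := h.gen.four hB hBA h3 h7
    have h8 := deg_same ((hqB _).1 h1)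
    rw [hq, h.degk] at h8
    omega
  · rcases h.genT.triv B hB hBA ⟨_, h1⟩ h3 h7 ⟨k 0, h1, i + 1, by rw [h.h0]⟩ with ⟨q, hq⟩ |
      ⟨p, q, hp, hq, hpq⟩
    · have h8 := (hq _).1 h1
      rw [hq]
      exact ⟨fun h9 => h8.symm.trans h9, fun h9 => h8.trans h9⟩
    · exfalso
      rcases (hpq _).1 h1 with h8 | h8
      · have := deg_same h8
        rw [hp, h.degk] at this
        omega
      · have := deg_same h8
        rw [hq, h.degk] at this
        omega

/-- the numbering of the hexagon for the left fold -/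
def kL (k : ZMod 6 → D) (a : ZMod 6) : D := k (a + 4)

omit [Fintype D] in
theorem numL (h : M.CorHex A δ i k) : M.SiteNum 6 (kL k) := by
  refine ⟨fun x y hxy => add_right_cancel (h.num.inj hxy), fun a => ?_⟩
  have e : a + 1 + 4 = a + 4 + 1 := by ring
  show M.nx (k (a + 4)) = k (a + 1 + 4)
  rw [h.num.nx, e]

theorem _root_.GT33.DMap.CorHexT.legalR (h : M.CorHexT A δ i k) {o : D → Bool} (ho : ∀ d, o (M.nx d) = !o d)
    (ho' : ∀ d, o (M.al d) = !o d) : (DMap.fold h.num ho ho').Legal := by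
  have h1 : ¬ A (M.al (k 0)) := by rw [h.h0]; exact bd_al h.gen.bd _
  have h2 : A (M.al (k 1)) := h.alA (by decide) (by decide)
  refine Legal.fold h.num ho ho' h.gen.legal (fun h3 => ?_) fun B hB h3 h4 h5 h6 d => ?_
  · exact h1 ((Sites.same (M := M) h.gen.bd.site h3).2 h2)
  · exact h.hex hB h3 ⟨_, h1, h4⟩ ⟨_, h2, h5⟩ h6 d

theorem _root_.GT33.DMap.CorHexT.legalL (h : M.CorHexT A δ i k) {o : D → Bool} (ho : ∀ d, o (M.nx d) = !o d)
    (ho' : ∀ d, o (M.al d) = !o d) : (DMap.fold h.numL ho ho').Legal := by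
  have e0 : kL k 0 = k 4 := rfl
  have e1 : kL k 1 = k 5 := rfl
  have h1 : ¬ A (M.al (kL k 1)) := by rw [e1, h.h5]; exact bd_al h.gen.bd _
  have h2 : A (M.al (kL k 0)) := by rw [e0]; exact h.alA (by decide) (by decide)
  refine Legal.fold h.numL ho ho' h.gen.legal (fun h3 => ?_) fun B hB h3 h4 h5 h6 d => ?_
  · exact h1 ((Sites.same (M := M) h.gen.bd.site h3).1 h2)
  · have h7 : M.SameSite (kL k 0) (k 0) := h.same 4 0
    rw [h.hex hB ((Sites.same (M := M) hB h7).1 h3) ⟨_, h1, h5⟩ ⟨_, h2, h4⟩ h6 d]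
    exact ⟨fun h8 => h7.trans h8, fun h8 => h7.symm.trans h8⟩

/-! ### the numbers of darts -/

/-- a generic patch with a corner hexagon is not a hexagon and a quad -/
theorem card_ne (h : M.CorHex A δ i k) : Nat.card D ≠ 16 := by
  intro h16
  have c1 := card_add' A
  have c2 := h.gen.toPatch.card_root
  have c3 := card_or (B := M.SameSite (k 0)) (C := A) fun d hd => h.siteA hd
  rw [card_site', h.degk] at c3
  obtain ⟨e, he, he'⟩ := h.gen.two (k 0)
  have hB : M.Sites fun d => A d ∧ ¬ M.SameSite (k 0) d :=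
    Sites.and (M := M) h.gen.bd.site (sites_site _).not
  have hq : ∀ d, (A d ∧ ¬ M.SameSite (k 0) d) ↔ M.SameSite e d := by
    intro d
    refine ⟨fun hd => ?_, fun hd => (Sites.same (M := M) hB hd).1 ⟨he, he'⟩⟩
    by_contra hno
    have c4 := card_or (B := M.SameSite e) (C := fun d => A d ∧ ¬ M.SameSite (k 0) d) fun d hd =>
      (Sites.same (M := M) hB hd).1 ⟨he, he'⟩
    have c5 := h.gen.legal.four_le_card (Sites.and (M := M) hB (sites_site e).not) ⟨d, hd, hno⟩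
    rw [card_site'] at c4
    have := h.gen.legal.deg e
    omega
  have c4 : Nat.card {d // A d ∧ ¬ M.SameSite (k 0) d} = M.deg e := by
    rw [Nat.card_congr (Equiv.subtypeEquivRight hq), card_site']
  have h4 : M.deg e = 4 := by omega
  have h5 := h.gen.scut_quad1 h4 hq
  have h6 := h.gen.toPatch.scut_compl (M.SameSite (k 0))
  have h7 := h.scut2
  omega

/-- a generic patch with a corner hexagon is not a hexagon and two quads -/
theorem not_two (h : M.CorHex A δ i k) (hc : Nat.card {d // A d ∧ ¬ M.SameSite (k 0) d} = 8) :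
    False := by
  have hB : M.Sites fun d => A d ∧ ¬ M.SameSite (k 0) d :=
    Sites.and (M := M) h.gen.bd.site (sites_site _).not
  obtain ⟨p, q, hp, hq, hpq⟩ := h.gen.legal.two_quads hB hc
  have h1 := h.gen.scut_quad1 hp (B := M.SameSite p) fun _ => Iff.rfl
  have h2 := h.gen.scut_quad1 hq (B := M.SameSite q) fun _ => Iff.rfl
  have h3 := h.gen.toPatch.scut_compl (M.SameSite (k 0))
  have h4 := h.scut2
  have h5 : scut δ (fun d => A d ∧ ¬ M.SameSite (k 0) d) ≤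
      scut δ (M.SameSite p) + scut δ (M.SameSite q) := by
    unfold scut
    refine le_trans (Finset.card_le_card ?_) (Finset.card_union_le _ _)
    intro j hj
    simp only [Finset.mem_filter, Finset.mem_univ, true_and, Finset.mem_union] at hj ⊢
    exact (hpq _).1 hj
  omega

/-! ### the leaving darts of the folds -/

end CorHex

section

variable [Fintype D] {h : ZMod 6 → D} {o : D → Bool} (hh : M.SiteNum 6 h)
  (ho : ∀ d, o (M.nx d) = !o d) (ho' : ∀ d, o (M.al d) = !o d) {δ : ZMod 6 → D}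
  {δ' : ZMod 6 → {d // ¬ HR h d}}

include hh ho ho'

theorem fold_δ (hδ' : ∀ i, ((fold hh ho ho').al (δ' i)).1 = M.al (δ i)) {j : ZMod 6}
    (hj : ¬ HR h (δ j)) : (δ' j).1 = δ j := by
  have h0 : ¬ HR h (M.al (δ j)) := by
    rw [← hδ' j]
    exact ((fold hh ho ho').al (δ' j)).2
  have h1 : δ' j = (fold hh ho ho').al ⟨M.al (δ j), h0⟩ := by
    rw [← (fold hh ho ho').inv (δ' j)]
    congr 1
    exact Subtype.ext (hδ' j)
  have h2 : ¬ HR h (M.al (M.al (δ j))) := by rw [M.inv]; exact hj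
  rw [h1, fold_al_of hh ho ho' (d := ⟨M.al (δ j), h0⟩) h2]
  exact M.inv _

theorem fold_δ0 (hL : M.Legal) (hδ' : ∀ i, ((fold hh ho ho').al (δ' i)).1 = M.al (δ i)) {j : ZMod 6}
    (hj : δ j = h 0) : (δ' j).1 = M.al (h 1) := by
  have h0 := h_nl hh hL 0
  have h1 := h_nl hh hL 1
  have h2 : δ' j = (fold hh ho ho').al ⟨M.al (h 0), h0⟩ := by
    rw [← (fold hh ho ho').inv (δ' j)]
    congr 1
    exact Subtype.ext (by rw [hδ' j, hj])
  rw [h2, fold_al0 hh ho ho' h0 h1]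

theorem fold_δ1 (hL : M.Legal) (hδ' : ∀ i, ((fold hh ho ho').al (δ' i)).1 = M.al (δ i)) {j : ZMod 6}
    (hj : δ j = h 1) : (δ' j).1 = M.al (h 0) := by
  have h0 := h_nl hh hL 0
  have h1 := h_nl hh hL 1
  have h2 : δ' j = (fold hh ho ho').al ⟨M.al (h 1), h1⟩ := by
    rw [← (fold hh ho ho').inv (δ' j)]
    congr 1
    exact Subtype.ext (by rw [hδ' j, hj])
  rw [h2, fold_al1 hh ho ho' h0 h1]

end

/-- flags of the right fold -/
def fflagsR (F : Flags) (i : ZMod 6) : Flags where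
  lk j T := j ≠ i ∧ F.lk j T
  le j T := j ≠ i ∧ (j = i + 1 → F.lk j T) ∧ (j ≠ i + 1 → F.le j T)
  ri j T := j ≠ i ∧ j ≠ i - 1 ∧ F.ri j T
  st j := j ≠ i ∧ j ≠ i + 1 ∧ F.st j

/-- flags of the left fold -/
def fflagsL (F : Flags) (i : ZMod 6) : Flags where
  lk j T := j ≠ i ∧ F.lk j T
  le j T := j ≠ i ∧ j ≠ i + 1 ∧ F.le j T
  ri j T := j ≠ i ∧ (j = i - 1 → F.lk j T) ∧ (j ≠ i - 1 → F.ri j T)
  st j := j ≠ i ∧ j ≠ i + 1 ∧ F.st j

/-- flags of the corner hexagon, in the numbering `k` -/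
def cflags (F : Flags) (i : ZMod 6) : Flags where
  lk a T := (a = 4 ∧ F.lk (i - 1) T) ∨ (a = 5 ∧ F.lk i T) ∨ (a = 0 ∧ F.lk (i + 1) T)
  le a T := (a = 4 ∧ F.lk (i - 1) T) ∨ (a = 5 ∧ F.le i T) ∨ (a = 0 ∧ F.le (i + 1) T)
  ri a T := (a = 4 ∧ F.ri (i - 1) T) ∨ (a = 5 ∧ F.ri i T) ∨ (a = 0 ∧ F.lk (i + 1) T)
  st a := (a = 5 ∧ F.st i) ∨ (a = 0 ∧ F.st (i + 1))

/-- the demands of the quad of the right fold -/
structure CDemR (F : Flags) (i : ZMod 6) (t : PState 4) : Prop where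
  ee : EE 4 t
  d2 : ∀ T, F.ri (i - 1) T → t.u (sideC T 2) ≤ 1
  d3 : ∀ T, F.le i T → t.u (sideC T 3) ≤ 1
  s : F.st i → t.u 0 ≤ 1 ∧ t.u 1 ≤ 1

/-- the demands of the quad of the left fold -/
structure CDemL (F : Flags) (i : ZMod 6) (t : PState 4) : Prop where
  ee : EE 4 t
  d0 : ∀ T, F.le (i + 1) T → t.u (sideC T 0) ≤ 1
  d3 : ∀ T, F.ri i T → t.u (sideC T 3) ≤ 1
  s : F.st (i + 1) → t.u 1 ≤ 1 ∧ t.u 2 ≤ 1

/-- the state `w` of the hexagon lifts the state `t` of the quad -/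
structure FoldW (t : PState 4) (w : PState 6) (x1 x5 : ℕ) : Prop where
  m0 : w.m 0 = 1
  m1 : w.m 1 = 0
  m : ∀ i : ZMod 4, w.m ((i.val : ZMod 6) + 2) = ((t.m i).val : ZMod 6) + 2
  u0 : w.u 0 = 0
  u1 : w.u 1 = x1
  u2 : w.u 2 = t.u 0
  u3 : w.u 3 = t.u 1
  u4 : w.u 4 = t.u 2
  u5 : w.u 5 = x5

theorem QS_rot {δ : ZMod 6 → D} {F : Flags} {γ : ZMod 4 → D} {t : PState 4} (h : M.QS δ F γ t)
    (c : ZMod 4) : M.QS δ F (fun a => γ (a + c)) (t.rot c) := by
  have e : ∀ a : ZMod 4, a + 1 + c = a + c + 1 := fun a => by ring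
  refine ⟨h.ee.rot c, fun a j T h1 h2 => ?_, fun a j h1 h2 => ?_⟩
  · have h3 : Dem F δ γ (a + c) j T := by
      unfold Dem at h2 ⊢
      simp only [e] at h2
      exact h2
    have h4 := h.dem (a + c) j T h1 h3
    have h5 : sideC T (a + c) = sideC T a + c := by
      unfold sideC
      split_ifs <;> ring
    rw [h5] at h4
    exact h4
  · have h3 := h.st (a + c) j h1 h2
    have e1 : a + 1 + c = a + c + 1 := by ring
    have e2 : a + 2 + c = a + c + 2 := by ring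
    show t.u (a + 1 + c) ≤ 1 ∧ t.u (a + 2 + c) ≤ 1
    rw [e1, e2]
    exact h3

theorem hasState_rot {μ : D → D} {ω : D → ℕ} {n : ℕ} {γ : ZMod n → D} {t : PState n}
    (h : HasState μ ω γ t) (c : ZMod n) : HasState μ ω (fun i => γ (i + c)) (t.rot c) := by
  intro i
  refine ⟨?_, (h (i + c)).2⟩
  show μ (γ (i + c)) = γ (t.m (i + c) - c + c)
  rw [sub_add_cancel]
  exact (h (i + c)).1

/-- the state of a quad in a realised state -/
theorem quad_state [Fintype D] {A : D → Prop} {δ : ZMod 6 → D} {β : (ZMod 6 → D) → Rel} {F : Flags}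
    {s : PState 6} {μ : D → D} {ω : D → ℕ} (hR : M.RealL (M.OL δ β F) A δ s μ ω) {q : ZMod 4 → D}
    (hq : M.SiteNum 4 q) (hA : A (q 0)) : ∃ t, HasState μ ω q t ∧ M.QS δ F q t := by
  obtain ⟨n, γ, t, hn, hγ, ⟨a, ha⟩, hL, hst⟩ := hR.loc _ hA
  have h1 := hγ.deg a
  rw [ha, hq.deg] at h1
  subst h1
  obtain ⟨c, hc⟩ := hγ.eq_rot hq (by decide) (by
    rw [← ha]
    exact hγ.same (by decide) 0 a)
  have h2 : q = fun i => γ (i + c) := funext hc
  rw [h2]
  exact ⟨t.rot c, hasState_rot hst c, QS_rot hL c⟩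

namespace CorHex

variable [Fintype D] {A : D → Prop} {δ : ZMod 6 → D} {i : ZMod 6} {k : ZMod 6 → D} {o : D → Bool}

theorem not_hr (h : M.CorHex A δ i k) {j : ZMod 6} (hj : j ≠ i + 1) : ¬ HR k (δ j) := by
  rintro (h1 | h1)
  · rcases h.ring' h1.symm with ⟨h2, -⟩ | ⟨-, h2⟩
    · exact absurd h2 (by decide)
    · exact hj h2
  · exact h.nring (a := 1) (by decide) (by decide) j h1.symm

theorem not_hrL (h : M.CorHex A δ i k) {j : ZMod 6} (hj : j ≠ i) : ¬ HR (kL k) (δ j) := by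
  rintro (h1 | h1)
  · exact h.nring (a := 4) (by decide) (by decide) j h1.symm
  · have h3 : k 5 = δ j := h1.symm
    rcases h.ring' h3 with ⟨-, h2⟩ | ⟨h2, -⟩
    · exact hj h2
    · exact absurd h2 (by decide)

/-- the nodes of the right fold -/
theorem _root_.GT33.DMap.CorHexT.nodeR (h : M.CorHexT A δ i k) (ho : ∀ d, o (M.nx d) = !o d) (ho' : ∀ d, o (M.al d) = !o d)
    {δ' : ZMod 6 → {d // ¬ HR k d}} (hδ' : ∀ i, ((fold h.num ho ho').al (δ' i)).1 = M.al (δ i))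
    (j : ZMod 6) (x : {d // ¬ HR k d}) (hn : M.SameNode (δ j) x.1) :
    (fold h.num ho ho').SameNode (δ' j) x := by
  rw [fold_sameNode h.num ho ho' h.gen.legal.plane (h.legalR ho ho').plane.conn]
  left
  by_cases hj : j = i + 1
  · rw [fold_δ0 h.num ho ho' h.gen.legal hδ' (j := j) (by rw [hj, h.h0])]
    have h1 := Patch.nx_symm_node (M := M) (k 1)
    have h2 : M.nx (k 0) = k 1 := h.num.nx 0
    rw [← h2, Equiv.symm_apply_apply, h2, h.h0, ← hj] at h1
    exact h1.trans hn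
  · rw [fold_δ h.num ho ho' hδ' (h.not_hr hj)]
    exact hn

/-- the nodes of the left fold -/
theorem _root_.GT33.DMap.CorHexT.nodeL (h : M.CorHexT A δ i k) (ho : ∀ d, o (M.nx d) = !o d) (ho' : ∀ d, o (M.al d) = !o d)
    {δ' : ZMod 6 → {d // ¬ HR (kL k) d}}
    (hδ' : ∀ i, ((fold h.numL ho ho').al (δ' i)).1 = M.al (δ i))
    (j : ZMod 6) (hj : j ≠ i) (x : {d // ¬ HR (kL k) d}) (hn : M.SameNode (δ j) x.1) :
    (fold h.numL ho ho').SameNode (δ' j) x := by
  rw [fold_sameNode h.numL ho ho' h.gen.legal.plane (h.legalL ho ho').plane.conn]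
  left
  rw [fold_δ h.numL ho ho' hδ' (h.not_hrL hj)]
  exact hn

/-- unchanged sites -/
def Ch (A : D → Prop) (k : ZMod 6 → D) (x : D) : Prop := ¬ A x ∨ M.SameSite (k 0) x

theorem ch_iff (h : M.CorHex A δ i k) {j : ZMod 6} {x : D} (hx : ¬ Ch (M := M) A k x)
    (hn : M.SameNode (δ j) x) : j ≠ i := by
  rintro rfl
  unfold Ch at hx
  push Not at hx
  have h1 := h.lone hn hx.1
  rw [h1, ← h.h5] at hx
  exact hx.2 (h.same 0 5)

theorem _root_.GT33.DMap.CorHexT.redR (h : M.CorHexT A δ i k) (ho : ∀ d, o (M.nx d) = !o d) (ho' : ∀ d, o (M.al d) = !o d)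
    {δ' : ZMod 6 → {d // ¬ HR k d}} (hδ' : ∀ i, ((fold h.num ho ho').al (δ' i)).1 = M.al (δ i))
    {F F' : Flags} (hF : F.Ok) (hF' : (fflagsR F i).Le F') :
    Red M (fold h.num ho ho') (fun d => d.1) (Ch (M := M) A k) (fun j => j = i) δ δ' F F' := by
  have hk5 : Ch (M := M) A k (δ i) := Or.inr (by rw [← h.h5]; exact h.same 0 5)
  refine ⟨Subtype.val_injective, hF, fun j x hx hn => ⟨h.ch_iff hx hn, h.nodeR ho ho' hδ' j x hn⟩,
    fun j T h1 h2 => hF'.lk _ _ ⟨h1, h2⟩, fun j T h1 h2 h3 h4 => hF'.le _ _ ⟨h1, fun _ => h3, fun h5 => ?_⟩,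
    fun j T h1 h2 h3 h4 => hF'.ri _ _ ⟨h1, fun h5 => ?_, h4 ?_⟩, fun j x hx h1 h2 => ?_⟩
  · exact h4 (fold_δ h.num ho ho' hδ' (h.not_hr h5))
  · apply h2
    have h6 : j + 1 = i := by rw [h5, sub_add_cancel]
    rw [h6]
    have h7 := fold_δ h.num ho ho' hδ' (h.not_hr (z6_succ i).symm)
    rw [h7]
    exact hk5
  · exact fold_δ h.num ho ho' hδ' (h.not_hr fun h5 => h1 (add_right_cancel h5))
  · have h3 : j ≠ i := by
      rintro rfl
      exact hx (by rw [h1]; exact hk5)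
    have h4 : j ≠ i + 1 := by
      rintro rfl
      exact hx (by rw [h1, ← h.h0]; exact Or.inr (Equiv.Perm.SameCycle.refl _ _))
    exact ⟨hF'.st _ ⟨h3, h4, h2⟩, Subtype.ext (by
      rw [fold_δ h.num ho ho' hδ' (h.not_hr h4)]
      exact h1)⟩

theorem _root_.GT33.DMap.CorHexT.redL (h : M.CorHexT A δ i k) (ho : ∀ d, o (M.nx d) = !o d) (ho' : ∀ d, o (M.al d) = !o d)
    {δ' : ZMod 6 → {d // ¬ HR (kL k) d}}
    (hδ' : ∀ i, ((fold h.numL ho ho').al (δ' i)).1 = M.al (δ i))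
    {F F' : Flags} (hF : F.Ok) (hF' : (fflagsL F i).Le F') :
    Red M (fold h.numL ho ho') (fun d => d.1) (Ch (M := M) A k) (fun j => j = i) δ δ' F F' := by
  have hk5 : Ch (M := M) A k (δ i) := Or.inr (by rw [← h.h5]; exact h.same 0 5)
  have hk0 : Ch (M := M) A k (δ (i + 1)) := Or.inr (by rw [← h.h0])
  refine ⟨Subtype.val_injective, hF, fun j x hx hn =>
    ⟨h.ch_iff hx hn, h.nodeL ho ho' hδ' j (h.ch_iff hx hn) x hn⟩,
    fun j T h1 h2 => hF'.lk _ _ ⟨h1, h2⟩, fun j T h1 h2 h3 h4 => hF'.le _ _ ⟨h1, fun h5 => ?_, h4 ?_⟩,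
    fun j T h1 h2 h3 h4 => hF'.ri _ _ ⟨h1, fun _ => h3, fun h5 => h4 ?_⟩, fun j x hx h1 h2 => ?_⟩
  · apply h2
    rw [fold_δ h.numL ho ho' hδ' (h.not_hrL h1), h5]
    exact hk0
  · exact fold_δ h.numL ho ho' hδ' (h.not_hrL h1)
  · refine fold_δ h.numL ho ho' hδ' (h.not_hrL fun h6 => h5 ?_)
    rw [← h6, add_sub_cancel_right]
  · have h3 : j ≠ i := by
      rintro rfl
      exact hx (by rw [h1]; exact hk5)
    have h4 : j ≠ i + 1 := by
      rintro rfl
      exact hx (by rw [h1]; exact hk0)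
    exact ⟨hF'.st _ ⟨h3, h4, h2⟩, Subtype.ext (by
      rw [fold_δ h.numL ho ho' hδ' (h.not_hrL h3)]
      exact h1)⟩

/-- the flags of the corner hexagon -/
theorem res_c (h : M.CorHex A δ i k) (F : Flags) : (M.res δ F k).Le (cflags F i) := by
  refine ⟨?_, ?_, ?_, ?_⟩
  · rintro a T ⟨j, h1, h2⟩
    rcases h.node h1 with ⟨rfl, rfl⟩ | ⟨rfl, rfl⟩ | ⟨rfl, rfl⟩
    · exact Or.inl ⟨rfl, h2⟩
    · exact Or.inr (Or.inl ⟨rfl, h2⟩)
    · exact Or.inr (Or.inr ⟨rfl, h2⟩)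
  · rintro a T ⟨j, h1, h2, h3⟩
    rcases h.node h1 with ⟨rfl, rfl⟩ | ⟨rfl, rfl⟩ | ⟨rfl, rfl⟩
    · exact Or.inl ⟨rfl, h3 (h.nring (by decide) (by decide) _)⟩
    · exact Or.inr (Or.inl ⟨rfl, h2 h.h5⟩)
    · exact Or.inr (Or.inr ⟨rfl, h2 h.h0⟩)
  · rintro a T ⟨j, h1, h2, h3⟩
    rcases h.node h1 with ⟨rfl, rfl⟩ | ⟨rfl, rfl⟩ | ⟨rfl, rfl⟩
    · exact Or.inl ⟨rfl, h2 (by rw [sub_add_cancel]; exact h.h5)⟩
    · exact Or.inr (Or.inl ⟨rfl, h2 h.h0⟩)
    · exact Or.inr (Or.inr ⟨rfl, h3 (h.nring (a := 1) (by decide) (by decide) _)⟩)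
  · rintro a ⟨j, h1, h2⟩
    rcases h.ring' h1 with ⟨rfl, rfl⟩ | ⟨rfl, rfl⟩
    · exact Or.inl ⟨rfl, h2⟩
    · exact Or.inr ⟨rfl, h2⟩

omit [Fintype D] in
theorem hf_val {h : ZMod 6 → D} (hh : M.SiteNum 6 h) (a : ZMod 4) :
    (hf hh a).1 = h ((a.val : ZMod 6) + 2) := rfl

/-- **states of the right fold** -/
theorem _root_.GT33.DMap.CorHexT.rzR (h : M.CorHexT A δ i k) {B : Boxes D} (hO : M.Obj Good A δ B)
    (ho : ∀ d, o (M.nx d) = !o d) (ho' : ∀ d, o (M.al d) = !o d)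
    {δ' : ZMod 6 → {d // ¬ HR k d}} (hδ' : ∀ i, ((fold h.num ho ho').al (δ' i)).1 = M.al (δ i))
    (hδA : ∀ i, A (δ' i).1) {F F' : Flags} (hF : F.Ok) (hF' : (fflagsR F i).Le F') {s : PState 6}
    (hC : ∀ t, CDemR F' i t → t.u 3 ≤ s.u i → ∃ w x, B.β k (cflags F i) w ∧ FoldW t w x (s.u i) ∧
      x + s.u i = 3 + t.u 3)
    (hR : Rz (fold h.num ho ho') (fun d => A d.1) δ' (B.pull fun d : {d // ¬ HR k d} => d.1).β F' s) :
    Rz M A δ B.β F s := by
  obtain ⟨μ', ω', hR⟩ := hR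
  have hL := h.gen.legal
  have hc := (h.legalR ho ho').plane.conn
  have hnum := hf_siteNum h.num ho ho'
  have hδi : (δ' i).1 = k 5 := by
    rw [fold_δ h.num ho ho' hδ' (h.not_hr (z6_succ i).symm), h.h5]
  have hδi1 : (δ' (i + 1)).1 = M.al (k 1) := fold_δ0 h.num ho ho' hL hδ' (by rw [h.h0])
  have hδp : (δ' (i - 1)).1 = δ (i - 1) := fold_δ h.num ho ho' hδ' (h.not_hr (z6_pm i))
  have e3 : hf h.num 3 = δ' i := Subtype.ext (by rw [hδi]; rfl)
  obtain ⟨t, ht, hqs⟩ := quad_state hR hnum (h.kA 2)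
  have hdem : CDemR F' i t := by
    refine ⟨hqs.ee, fun T hT => ?_, fun T hT => ?_, fun hT => ?_⟩
    · refine hqs.dem 2 (i - 1) T (h.nodeR ho ho' hδ' _ _ h.node4) ⟨fun _ h2 => absurd ?_ h2,
        fun h1 => ?_, fun _ => hT⟩
      · rw [sub_add_cancel]
        exact e3
      · exfalso
        have h2 : k 4 = δ (i - 1) := (congrArg Subtype.val h1).trans hδp
        exact h.nring (by decide) (by decide) _ h2
    · refine hqs.dem 3 i T (h.nodeR ho ho' hδ' _ _ (by rw [e3, hδi, h.h5])) ⟨fun h1 => absurd e3 h1,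
        fun _ => hT, fun h1 => ?_⟩
      exfalso
      have h2 : k 2 = M.al (k 1) := (congrArg Subtype.val h1).trans hδi1
      exact hL.noloop (k 1) (by rw [← h2]; exact h.same 1 2)
    · exact hqs.st 3 i e3 hT
  -- units
  have hr5 : ¬ HR k (k 5) := DMap.not_hr h.num (by decide) (by decide)
  have hf5 : fout M k A ω' (k 5) = 0 := by
    unfold fout
    refine Finset.sum_eq_zero fun e _ => if_neg ?_
    rintro ⟨h1, h2, h3⟩
    rw [h.h5] at h1
    exact h3 (by rw [h.lone h1 h2, h.h5])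
  have hu : fout M k A ω' (k 1) + t.u 3 = s.u i := by
    have h1 := hR.bdry i
    have hne : ¬ M.SameNode (k 5) (k 1) := fun h2 =>
      absurd (h.num.inj (hL.node_inj (h.same 5 1) h2)) (by decide)
    rw [fold_usum_merged h.num ho ho' hL.plane hc (A := A) (h.kA 5) ω' hne hr5
      (Or.inl (by rw [hδi])), hf5, zero_add] at h1
    rw [← h1, ← (ht 3).2]
    rfl
  obtain ⟨w, x, hβ, hw, hx⟩ := hC t hdem (by omega)
  obtain ⟨μ, ω, hR', -⟩ := RealL.of_fold h.num ho ho' hL hc (L := M.OL δ B.β F) (h.kA 0) h.gen.bd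
    hδ' hδA hR (fun n γ t' hn hγ hγA hγC hL' => by
      have hch : ∀ j, ¬ Ch (M := M) A k (γ j).1 := fun j h1 => by
        rcases h1 with h1 | h1
        · exact h1 (hγA j)
        · exact hγC j h1
      refine (h.redR ho ho' hδ' hF hF').OL (β := B.β) hch (fun γ' F₁ G₁ t₁ h1 h2 h3 h4 => ?_) hγ hL'
      have h5 : ∀ j, ¬ M.SameSite (k 0) (γ' j).1 := fun j h6 => h2 j (Or.inr h6)
      refine hO.anti _ _ _ _ (fold_siteNum h.num ho ho' h1 h5) ?_ h3 h4
      by_contra h6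
      exact h2 0 (Or.inl h6)) ht (w := w) (by
      show B.β k (M.res δ F k) w
      exact hO.anti _ _ _ _ h.num (h.kA 0) (h.res_c F) hβ) hw.m0 hw.m1 hw.m hw.u0 hw.u2 hw.u3 hw.u4
    (fun _ => by rw [hw.u1]; omega) (fun j hj => absurd hj.symm (h.nodes123 (Or.inl rfl) j))
    (fun h1 => by
      exfalso
      have h2 : M.SameNode (δ i) (M.al (δ (i + 1))) := h.gen.toPatch.root_node i
      rw [← h.h5] at h2
      exact bd_al h.gen.bd _ (h1 _ h2))
    (fun j hj => by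
      rw [h.h5] at hj
      rw [hf5, hw.u5, nodes_inj h.gen.bd hj, zero_add])
  exact ⟨μ, ω, hR'⟩

/-- **states of the left fold** -/
theorem _root_.GT33.DMap.CorHexT.rzL (h : M.CorHexT A δ i k) {B : Boxes D} (hO : M.Obj Good A δ B)
    (ho : ∀ d, o (M.nx d) = !o d) (ho' : ∀ d, o (M.al d) = !o d)
    {δ' : ZMod 6 → {d // ¬ HR (kL k) d}}
    (hδ' : ∀ i, ((fold h.numL ho ho').al (δ' i)).1 = M.al (δ i))
    (hδA : ∀ i, A (δ' i).1) {F F' : Flags} (hF : F.Ok) (hF' : (fflagsL F i).Le F') {s : PState 6}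
    (hC : ∀ t, CDemL F' i t → t.u 3 ≤ s.u i → ∃ w x, B.β k (cflags F i) w ∧
      FoldW t (w.rot 4) (s.u i) x ∧ x + s.u i = 3 + t.u 3)
    (hR : Rz (fold h.numL ho ho') (fun d => A d.1) δ'
      (B.pull fun d : {d // ¬ HR (kL k) d} => d.1).β F' s) :
    Rz M A δ B.β F s := by
  obtain ⟨μ', ω', hR⟩ := hR
  have hL := h.gen.legal
  have hc := (h.legalL ho ho').plane.conn
  have hnum := hf_siteNum h.numL ho ho'
  have hδi : (δ' i).1 = M.al (k 4) := fold_δ1 h.numL ho ho' hL hδ' (by rw [← h.h5]; rfl)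
  have hδi1 : (δ' (i + 1)).1 = k 0 := by
    rw [fold_δ h.numL ho ho' hδ' (h.not_hrL (z6_succ i)), h.h0]
  have e0 : hf h.numL 0 = δ' (i + 1) := Subtype.ext (by rw [hδi1]; rfl)
  have n4 : M.SameNode (M.al (k 4)) (k 3) := by
    have h1 := Patch.nx_symm_node (M := M) (k 4)
    have h2 : M.nx (k 3) = k 4 := h.num.nx 3
    rwa [← h2, Equiv.symm_apply_apply, h2] at h1
  obtain ⟨t, ht, hqs⟩ := quad_state hR hnum (h.kA 0)
  have hdem : CDemL F' i t := by
    refine ⟨hqs.ee, fun T hT => ?_, fun T hT => ?_, fun hT => ?_⟩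
    · refine hqs.dem 0 (i + 1) T (by rw [e0]) ⟨fun h1 => absurd e0 h1, fun _ => hT, fun h1 => ?_⟩
      exfalso
      have h3 : i + 1 + 1 ≠ i := by
        have : ∀ i : ZMod 6, i + 1 + 1 ≠ i := by decide
        exact this i
      have h2 : k 1 = δ (i + 1 + 1) := (congrArg Subtype.val h1).trans
        (fold_δ h.numL ho ho' hδ' (h.not_hrL h3))
      exact h.nring (by decide) (by decide) _ h2
    · refine hqs.dem 3 i T ?_ ⟨fun _ h2 => absurd ?_ h2, fun h1 => ?_, fun _ => hT⟩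
      · rw [fold_sameNode h.numL ho ho' hL.plane hc]
        left
        rw [hδi]
        exact n4
      · exact e0
      · exfalso
        have h2 : k 3 = M.al (k 4) := (congrArg Subtype.val h1).trans hδi
        exact hL.noloop (k 4) (by rw [← h2]; exact h.same 4 3)
    · exact hqs.st 0 (i + 1) e0 hT
  -- units
  have hr5 : ¬ HR (kL k) (kL k 5) := DMap.not_hr h.numL (by decide) (by decide)
  have hf1 : fout M (kL k) A ω' (kL k 1) = 0 := by
    unfold fout
    refine Finset.sum_eq_zero fun e _ => if_neg ?_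
    rintro ⟨h1, h2, h3⟩
    have h4 : M.SameNode (δ i) e.1 := by
      rw [← h.h5]
      exact h1
    exact e.2 (Or.inr (by rw [h.lone h4 h2, ← h.h5]; rfl))
  have hu : fout M (kL k) A ω' (kL k 5) + t.u 3 = s.u i := by
    have h1 := hR.bdry i
    have hne : ¬ M.SameNode (kL k 5) (kL k 1) := fun h2 =>
      absurd (h.numL.inj (hL.node_inj (h_same h.numL 5 1) h2)) (by decide)
    rw [fold_usum_merged h.numL ho ho' hL.plane hc (A := A) (h.kA 3) ω' hne hr5
      (Or.inl (by rw [hδi]; exact n4)), hf1, add_zero] at h1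
    rw [← h1, ← (ht 3).2]
    rfl
  obtain ⟨w, x, hβ, hw, hx⟩ := hC t hdem (by omega)
  obtain ⟨μ, ω, hR', -⟩ := RealL.of_fold h.numL ho ho' hL hc (L := M.OL δ B.β F) (h.kA 4) h.gen.bd
    hδ' hδA hR (fun n γ t' hn hγ hγA hγC hL' => by
      have hch : ∀ j, ¬ Ch (M := M) A k (γ j).1 := fun j h1 => by
        rcases h1 with h1 | h1
        · exact h1 (hγA j)
        · exact hγC j ((h.same 4 0).trans h1)
      refine (h.redL ho ho' hδ' hF hF').OL (β := B.β) hch (fun γ' F₁ G₁ t₁ h1 h2 h3 h4 => ?_) hγ hL'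
      have h5 : ∀ j, ¬ M.SameSite (kL k 0) (γ' j).1 := fun j h6 =>
        h2 j (Or.inr ((h.same 0 4).trans h6))
      refine hO.anti _ _ _ _ (fold_siteNum h.numL ho ho' h1 h5) ?_ h3 h4
      by_contra h6
      exact h2 0 (Or.inl h6)) ht (w := w.rot 4) (by
      show B.β (fun a => k (a + 4)) (M.res δ F fun a => k (a + 4)) (w.rot 4)
      rw [res_rot]
      exact hO.rot _ _ _ _ h.num (h.kA 0) (hO.anti _ _ _ _ h.num (h.kA 0) (h.res_c F) hβ))
    hw.m0 hw.m1 hw.m hw.u0 hw.u2 hw.u3 hw.u4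
    (fun h1 => by
      exfalso
      have h2 : M.SameNode (δ i) (M.al (δ (i + 1))) := h.gen.toPatch.root_node i
      rw [← h.h5] at h2
      exact bd_al h.gen.bd _ (h1 _ h2))
    (fun j hj => by
      have h1 : M.SameNode (δ i) (δ j) := by rw [← h.h5]; exact hj
      rw [hf1, hw.u1, ← nodes_inj h.gen.bd h1, zero_add])
    (fun _ => by rw [hw.u5]; omega) (fun j hj => absurd hj.symm (h.nodes123 (a := 3) (Or.inr (Or.inr rfl)) j))
  exact ⟨μ, ω, hR'⟩

end CorHex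

/-! ### corner sets of folds -/

theorem not_hr_site {h : ZMod 6 → D} (hh : M.SiteNum 6 h) {d : D} (hd : ¬ M.SameSite (h 0) d) :
    ¬ HR h d := by
  rintro (h1 | h1)
  · exact hd (by rw [h1])
  · exact hd (by rw [h1]; exact h_same hh 0 1)

section

variable [Fintype D] {h : ZMod 6 → D} {o : D → Bool} (hh : M.SiteNum 6 h)
  (ho : ∀ d, o (M.nx d) = !o d) (ho' : ∀ d, o (M.al d) = !o d)

/-- corners at unchanged sites -/
theorem KS_fold {δ : ZMod 6 → D} {δ' : ZMod 6 → {d // ¬ HR h d}} {B : Boxes D} {j : ZMod 6}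
    (h1 : (δ' j).1 = δ j) (h2 : (δ' (j + 1)).1 = δ (j + 1)) (h3 : ¬ M.SameSite (h 0) (δ j)) :
    KS (fold hh ho ho') (B.pull fun d : {d // ¬ HR h d} => d.1).κ δ' j ↔ KS M B.κ δ j := by
  have h3' : ¬ M.SameSite (h 0) (δ' j).1 := by rw [h1]; exact h3
  have h4 : ¬ HR h (M.nx (δ' j).1) := not_hr_site hh fun h5 =>
    h3' (h5.trans ⟨-1, by simp⟩)
  unfold KS
  refine and_congr ?_ (or_congr ?_ ?_)
  · rw [fold_nx_of hh ho ho' h4]
    constructor
    · intro h5
      rw [← h1, ← h2, ← h5]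
    · intro h5
      apply Subtype.ext
      rw [h2, ← h5, ← h1]
  · rw [fold_deg_of hh ho ho' h3', h1]
  · constructor
    · rintro ⟨γ, a, h5, h6, h7⟩
      refine ⟨fun i => (γ i).1, a, fold_siteNum hh ho ho' h5 (fold_six hh ho ho' h5), ?_, h7⟩
      show (γ a).1 = δ j
      rw [h6, h1]
    · rintro ⟨γ, a, h5, h6, h7⟩
      have h8 : ∀ b, ¬ M.SameSite (h 0) (γ b) := fun b h9 =>
        h3 (by rw [← h6]; exact h9.trans (h5.same (by decide) b a))
      refine ⟨fun b => ⟨γ b, not_hr_site hh (h8 b)⟩, a, ⟨fun x y hxy => ?_, fun b => ?_⟩, ?_, h7⟩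
      · exact h5.inj (congrArg Subtype.val hxy)
      · have h9 : ¬ HR h (M.nx (γ b)) := by
          rw [h5.nx]
          exact not_hr_site hh (h8 _)
        rw [fold_nx_of hh ho ho' (d := ⟨γ b, not_hr_site hh (h8 b)⟩) h9]
        exact Subtype.ext (h5.nx b)
      · apply Subtype.ext
        rw [h1]
        exact h6

end

namespace CorHex

variable [Fintype D] {A : D → Prop} {δ : ZMod 6 → D} {i : ZMod 6} {k : ZMod 6 → D}

theorem site_ne (h : M.CorHex A δ i k) {j : ZMod 6} (h1 : j ≠ i) (h2 : j ≠ i + 1) :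
    ¬ M.SameSite (k 0) (δ j) := fun h3 => by
  rcases h.ring h3 with h4 | h4
  · exact h1 h4
  · exact h2 h4

/-- the sites of the folds -/
theorem not_star {h' : ZMod 6 → D} {o : D → Bool} (h : M.CorHex A δ i k) (hh : M.SiteNum 6 h')
    (ho : ∀ d, o (M.nx d) = !o d) (ho' : ∀ d, o (M.al d) = !o d) (hs : M.SameSite (k 0) (h' 0))
    {δ' : ZMod 6 → {d // ¬ HR h' d}} {B' : Boxes {d // ¬ HR h' d}} :
    ¬ StarL (fold hh ho ho') (fun d => A d.1) δ' B' := by
  rintro (⟨h1, -⟩ | ⟨⟨r, hr⟩, -⟩)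
  · apply h.not_two
    have hhA : ∀ a, A (h' a) := fun a => h.siteA (hs.trans (h_same hh 0 a))
    have c1 : Nat.card {d // A d} = Nat.card {d : {d // ¬ HR h' d} // A d.1} + 2 := by
      have e1 := card_or (B := HR h') (C := A) (by
        rintro d (rfl | rfl)
        · exact hhA 0
        · exact hhA 1)
      have e2 : Nat.card {d // HR h' d} = 2 := by
        rw [Nat.card_eq_fintype_card, Fintype.card_subtype]
        have : (Finset.univ.filter fun d => HR h' d) = {h' 0, h' 1} := by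
          ext d
          simp only [Finset.mem_filter, Finset.mem_univ, true_and, Finset.mem_insert,
            Finset.mem_singleton]
          exact Iff.rfl
        rw [this, Finset.card_pair (h_ne hh (by decide))]
      have e3 : Nat.card {d : {d // ¬ HR h' d} // A d.1} = Nat.card {d // A d ∧ ¬ HR h' d} :=
        Nat.card_congr ⟨fun d => ⟨d.1.1, d.2, d.1.2⟩, fun d => ⟨⟨d.1, d.2.2⟩, d.2.1⟩,
          fun _ => rfl, fun _ => rfl⟩
      omega
    have c2 := card_or (B := M.SameSite (k 0)) (C := A) fun d hd => h.siteA hd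
    rw [card_site', h.degk] at c2
    have c3 : Nat.card {d : {d // ¬ HR h' d} // A d.1} = 12 := h1
    omega
  · obtain ⟨e, he, he'⟩ := h.gen.two (k 0)
    have h1 : ¬ HR h' e := not_hr_site hh fun h2 => he' (hs.trans h2)
    have h2 : (fold hh ho ho').SameSite r ⟨e, h1⟩ := (hr _).1 he
    have h3 : ¬ HR h' (h' 2) := DMap.not_hr hh (by decide) (by decide)
    have h4 : (fold hh ho ho').SameSite r ⟨h' 2, h3⟩ := (hr _).1 (h.siteA (hs.trans (h_same hh 0 2)))
    have h5 := (fold_sameSite hh ho ho' _ _).1 (h4.symm.trans h2)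
    exact he' (hs.trans ((h_same hh 0 2).trans h5))

/-- **the right fold**: the induction hypothesis and the lift -/
theorem _root_.GT33.DMap.CorHexT.foldR (h : M.CorHexT A δ i k) {B : Boxes D} (hO : M.Obj Good A δ B)
    (IH : ∀ (D' : Type) [Fintype D'] (M' : DMap D') (A' : D' → Prop) (δ' : ZMod 6 → D')
        (B' : Boxes D'), M'.Obj Good A' δ' B' → Nat.card D' ≠ 14 → Nat.card D' < Nat.card D →
        Good (KS M' B'.κ δ') (StarL M' A' δ' B') (Rz M' A' δ' B'.β)) :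
    ∃ (K : ZMod 6 → Prop) (b : Rel), Good K False b ∧ ¬ K i ∧ ¬ K (i - 1) ∧
      (∀ j, j ≠ i - 1 → j ≠ i → j ≠ i + 1 → (K j ↔ KS M B.κ δ j)) ∧
      ∀ F F' s, F.Ok → (fflagsR F i).Le F' →
        (∀ t, CDemR F' i t → t.u 3 ≤ s.u i → ∃ w x, B.β k (cflags F i) w ∧
          FoldW t w x (s.u i) ∧ x + s.u i = 3 + t.u 3) → b F' s → Rz M A δ B.β F s := by
  obtain ⟨o, ho, ho'⟩ := h.gen.legal.exists_col
  have hL' := h.legalR ho ho'
  obtain ⟨δ', hδ', hδA, hP'⟩ := h.gen.toPatch.fold h.num ho ho' (h.kA 0) hL'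
  have hO' := hO.foldO h.num ho ho' hP' fun j x _ _ hn => h.nodeR ho ho' hδ' j x hn
  have hcard := card_fold h.num
  have h1 := IH _ _ _ _ _ hO' (by have := h.card_ne; omega) (by omega)
  have h2 : StarL (fold h.num ho ho') (fun d => A d.1) δ'
      (B.pull fun d : {d // ¬ HR k d} => d.1) = False := by
    apply propext
    exact iff_of_false (h.not_star h.num ho ho' (Equiv.Perm.SameCycle.refl _ _)) id
  rw [h2] at h1
  have hδi : (δ' i).1 = k 5 := by
    rw [fold_δ h.num ho ho' hδ' (h.not_hr (z6_succ i).symm), h.h5]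
  have hδi1 : (δ' (i + 1)).1 = M.al (k 1) := fold_δ0 h.num ho ho' h.gen.legal hδ' (by rw [h.h0])
  refine ⟨_, _, h1, ?_, ?_, fun j j1 j2 j3 => ?_, fun F F' s hF hF' hC hR =>
    h.rzR hO ho ho' hδ' hδA hF hF' hC hR⟩
  · rintro ⟨h3, -⟩
    have h4 : δ' i = hf h.num 3 := Subtype.ext (by rw [hδi]; rfl)
    rw [h4, (hf_siteNum h.num ho ho').nx] at h3
    have h5 : k 2 = M.al (k 1) := (congrArg Subtype.val h3).trans hδi1
    exact h.gen.legal.noloop (k 1) (by rw [← h5]; exact h.same 1 2)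
  · rintro ⟨h3, -⟩
    rw [sub_add_cancel] at h3
    have h4 : δ' i = hf h.num (2 + 1) := Subtype.ext (by rw [hδi]; rfl)
    rw [h4, ← (hf_siteNum h.num ho ho').nx] at h3
    have h5 := (fold h.num ho ho').nx.injective h3
    have h6 : δ (i - 1) = k 4 := by
      rw [← fold_δ h.num ho ho' hδ' (h.not_hr (z6_pm i)), h5]
      rfl
    exact h.nring (a := 4) (by decide) (by decide) _ h6.symm
  · refine KS_fold h.num ho ho' (fold_δ h.num ho ho' hδ' (h.not_hr j3))
      (fold_δ h.num ho ho' hδ' (h.not_hr fun h4 => j2 (add_right_cancel h4))) (h.site_ne j2 j3)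

/-- **the left fold**: the induction hypothesis and the lift -/
theorem _root_.GT33.DMap.CorHexT.foldL (h : M.CorHexT A δ i k) {B : Boxes D} (hO : M.Obj Good A δ B)
    (IH : ∀ (D' : Type) [Fintype D'] (M' : DMap D') (A' : D' → Prop) (δ' : ZMod 6 → D')
        (B' : Boxes D'), M'.Obj Good A' δ' B' → Nat.card D' ≠ 14 → Nat.card D' < Nat.card D →
        Good (KS M' B'.κ δ') (StarL M' A' δ' B') (Rz M' A' δ' B'.β)) :
    ∃ (K : ZMod 6 → Prop) (b : Rel), Good K False b ∧ ¬ K i ∧ ¬ K (i + 1) ∧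
      (∀ j, j ≠ i - 1 → j ≠ i → j ≠ i + 1 → (K j ↔ KS M B.κ δ j)) ∧
      ∀ F F' s, F.Ok → (fflagsL F i).Le F' →
        (∀ t, CDemL F' i t → t.u 3 ≤ s.u i → ∃ w x, B.β k (cflags F i) w ∧
          FoldW t (w.rot 4) (s.u i) x ∧ x + s.u i = 3 + t.u 3) → b F' s → Rz M A δ B.β F s := by
  obtain ⟨o, ho, ho'⟩ := h.gen.legal.exists_col
  have hL' := h.legalL ho ho'
  obtain ⟨δ', hδ', hδA, hP'⟩ := h.gen.toPatch.fold h.numL ho ho' (h.kA 4) hL'
  have hO' := hO.foldO h.numL ho ho' hP' fun j x hxA hx hn => by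
    by_cases hj : j = i
    · exfalso
      rw [hj] at hn
      have h1 := h.lone hn hxA
      exact hx (by rw [h1, ← h.h5]; exact h.same 4 5)
    · exact h.nodeL ho ho' hδ' j hj x hn
  have hcard := card_fold h.numL
  have h1 := IH _ _ _ _ _ hO' (by have := h.card_ne; omega) (by omega)
  have h2 : StarL (fold h.numL ho ho') (fun d => A d.1) δ'
      (B.pull fun d : {d // ¬ HR (kL k) d} => d.1) = False := by
    apply propext
    exact iff_of_false (h.not_star h.numL ho ho' (h.same 0 4)) id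
  rw [h2] at h1
  have hδi : (δ' i).1 = M.al (k 4) := fold_δ1 h.numL ho ho' h.gen.legal hδ' (by rw [← h.h5]; rfl)
  have hδi1 : (δ' (i + 1)).1 = k 0 := by
    rw [fold_δ h.numL ho ho' hδ' (h.not_hrL (z6_succ i)), h.h0]
  have e0 : hf h.numL 0 = δ' (i + 1) := Subtype.ext (by rw [hδi1]; rfl)
  refine ⟨_, _, h1, ?_, ?_, fun j j1 j2 j3 => ?_, fun F F' s hF hF' hC hR =>
    h.rzL hO ho ho' hδ' hδA hF hF' hC hR⟩
  · rintro ⟨h3, -⟩
    have h4 : hf h.numL 0 = hf h.numL (3 + 1) := rfl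
    rw [← e0, h4, ← (hf_siteNum h.numL ho ho').nx] at h3
    have h5 := (fold h.numL ho ho').nx.injective h3
    have h6 : M.al (k 4) = k 3 := hδi.symm.trans (congrArg Subtype.val h5)
    exact h.gen.legal.noloop (k 4) (by rw [h6]; exact h.same 4 3)
  · rintro ⟨h3, -⟩
    rw [← e0, (hf_siteNum h.numL ho ho').nx] at h3
    have h5 : i + 1 + 1 ≠ i := by
      have : ∀ i : ZMod 6, i + 1 + 1 ≠ i := by decide
      exact this i
    have h6 : k 1 = δ (i + 1 + 1) := (congrArg Subtype.val h3).trans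
      (fold_δ h.numL ho ho' hδ' (h.not_hrL h5))
    exact h.nring (by decide) (by decide) _ h6
  · refine KS_fold h.numL ho ho' (fold_δ h.numL ho ho' hδ' (h.not_hrL j2))
      (fold_δ h.numL ho ho' hδ' (h.not_hrL fun h4 => j1 ?_)) fun h4 => h.site_ne j2 j3 ((h.same 0 4).trans h4)
    rw [← h4, add_sub_cancel_right]

end CorHex

end DMap

end GT33
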