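import Pool.Agent.GT33.DPeel

/-!
# GT33 module DGEN: the ring of a generic patch

`FS M A δ`: the fold sectors of the ring: all the sectors at the ring nodes, except the first sector of each ring edge.
In a generic patch every site has at most one fold sector (`Gen.foldSet`), the nodes which are identified
by the fold are different (`Gen.chain`), and the removed darts of the quads are not adjacent on the other
side (`Gen.k2`, `Gen.k3`).
-/

open Classical

namespace GT33

namespace DMap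

variable {D : Type} {M : DMap D} {A : D → Prop} {δ : ZMod 6 → D}

open Patch

/-- the fold sectors of the ring -/
def FS (M : DMap D) (A : D → Prop) (δ : ZMod 6 → D) (d : D) : Prop :=
  A d ∧ Ring M δ d ∧ ∀ i, d ≠ M.nx.symm (δ i)

theorem ring_same {d e : D} (h : M.SameNode d e) (hd : Ring M δ d) : Ring M δ e := by
  obtain ⟨i, hi⟩ := hd
  exact ⟨i, hi.trans h⟩

theorem wcnt_two (x y d : D) : wcnt M [x, y] d =
    ind (x = d) + ind (x = M.al d) + (ind (y = d) + ind (y = M.al d)) := by
  rw [wcnt_cons, wcnt_cons, wcnt_nil]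
  ring

theorem wcnt_three (x y z d : D) : wcnt M [x, y, z] d =
    ind (x = d) + ind (x = M.al d) + (ind (y = d) + ind (y = M.al d)) +
      (ind (z = d) + ind (z = M.al d)) := by
  rw [wcnt_cons, wcnt_cons, wcnt_cons, wcnt_nil]
  ring

/-- the node at the start of a dart -/
theorem al_node (d : D) : M.SameNode (M.al (M.nx d)) d := by
  have := nx_symm_node (M := M) (M.nx d)
  rwa [Equiv.symm_apply_apply] at this

theorem inn_al {x : D} : Inn M A (M.al x) ↔ Inn M A x := by
  unfold Inn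
  rw [M.inv]
  exact and_comm

namespace Gen

variable [Fintype D] (hG : M.Gen A δ)

include hG

omit [Fintype D] in
theorem nl (d : D) : ¬ M.SameSite d (M.al d) := hG.legal.noloop d

omit [Fintype D] in
theorem nl1 (d : D) : M.al (M.nx d) ≠ d := fun h => hG.nl (M.nx d) (by
  rw [h]; exact (site_nx d).symm)

omit [Fintype D] in
theorem nl2 (d : D) : M.al (M.nx (M.nx d)) ≠ d := fun h => hG.nl (M.nx (M.nx d)) (by
  rw [h]; exact ((site_nx d).trans (site_nx _)).symm)

omit [Fintype D] in
theorem deg46 (d : D) : M.deg d = 4 ∨ M.deg d = 6 := hG.legal.deg d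

omit [Fintype D] in
theorem ne1 (d : D) : M.nx d ≠ d := by
  refine iter_ne (M := M) (k := 1) (by decide) ?_
  rcases hG.deg46 d with h1 | h1 <;> omega

omit [Fintype D] in
theorem ne2 (d : D) : M.nx (M.nx d) ≠ d := by
  refine iter_ne (M := M) (k := 2) (by decide) ?_
  rcases hG.deg46 d with h1 | h1 <;> omega

omit [Fintype D] in
theorem ne3 (d : D) : M.nx (M.nx (M.nx d)) ≠ d := by
  refine iter_ne (M := M) (k := 3) (by decide) ?_
  rcases hG.deg46 d with h1 | h1 <;> omega

omit [Fintype D] in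
theorem fs_inn {d : D} (h : FS M A δ d) : Inn M A (M.nx d) := by
  have h1 : A (M.nx d) := (hG.toPatch.sites _).2 h.1
  refine ⟨h1, ?_⟩
  by_contra hn
  obtain ⟨i, hi⟩ := (hG.bd.mem _).1 ⟨h1, hn⟩
  exact h.2.2 i (by rw [hi, Equiv.symm_apply_apply])

/-- the next sector is not at the ring -/
theorem fs1 {d : D} (h : FS M A δ d) : ¬ Ring M δ (M.nx d) := fun h1 => by
  have h2 := hG.fs_inn h
  exact hG.no_chord h2.1 h2.2 h1 (ring_same (al_node d).symm h.2.1)

/-- the second next sector is not at the ring -/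
theorem fs2 {d : D} (h : FS M A δ d) : ¬ Ring M δ (M.nx (M.nx d)) := fun h1 => by
  obtain ⟨i, hi⟩ := h.2.1
  obtain ⟨j, hj⟩ := h1
  obtain ⟨B, hB, hBA, hB1, -⟩ := hG.toPatch.exists_arc
    (arc_two (x := M.nx d) (y := M.nx (M.nx d)) (hi.trans (al_node d).symm) (al_node _).symm hj)
  have h2 := hG.fs_inn h
  have h3 := hG.wcnt_zero hBA (hG.r2 hB hBA (rcut_le hB1)) hB1 h2.1 h2.2
  rw [wcnt_two, ind_true rfl, ind_false fun h => M.ne _ h.symm, ind_false (hG.ne1 _),
    ind_false fun h4 => hG.nl (M.nx d) (by rw [← h4]; exact site_nx _)] at h3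
  revert h3
  decide

/-- the opposite sector of a hexagon is not at the ring -/
theorem fs3 {d : D} (h : FS M A δ d) (h6 : M.deg d = 6) :
    ¬ Ring M δ (M.nx (M.nx (M.nx d))) := fun h1 => by
  obtain ⟨i, hi⟩ := h.2.1
  obtain ⟨j, hj⟩ := h1
  obtain ⟨B, hB, hBA, hB1, -⟩ := hG.toPatch.exists_arc
    (arc_three (x := M.nx d) (y := M.nx (M.nx d)) (z := M.nx (M.nx (M.nx d)))
      (hi.trans (al_node d).symm) (al_node _).symm (al_node _).symm hj)
  have h2 := hG.fs_inn h
  have hs1 : M.SameSite d (M.nx d) := site_nx d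
  have hs2 : M.SameSite d (M.nx (M.nx d)) := hs1.trans (site_nx _)
  have hs3 : M.SameSite d (M.nx (M.nx (M.nx d))) := hs2.trans (site_nx _)
  have hna : ∀ {x y : D}, M.SameSite d x → M.SameSite d y → x ≠ M.al y := fun {x y} hx hy h4 =>
    hG.nl y (by rw [← h4]; exact hy.symm.trans hx)
  have w1 : wcnt M [M.nx d, M.nx (M.nx d), M.nx (M.nx (M.nx d))] (M.nx d) = 1 := by
    rw [wcnt_three, ind_true rfl, ind_false (hna hs1 hs1), ind_false (hG.ne1 _),
      ind_false (hna hs2 hs1), ind_false (hG.ne2 _), ind_false (hna hs3 hs1)]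
    decide
  have w2 : wcnt M [M.nx d, M.nx (M.nx d), M.nx (M.nx (M.nx d))] (M.nx (M.nx d)) = 1 := by
    rw [wcnt_three, ind_false fun h => (hG.ne1 _) h.symm, ind_false (hna hs1 hs2), ind_true rfl,
      ind_false (hna hs2 hs2), ind_false (hG.ne1 _), ind_false (hna hs3 hs2)]
    decide
  have w3 : wcnt M [M.nx d, M.nx (M.nx d), M.nx (M.nx (M.nx d))] (M.nx (M.nx (M.nx d))) = 1 := by
    rw [wcnt_three, ind_false fun h => (hG.ne2 _) h.symm, ind_false (hna hs1 hs3),
      ind_false fun h => (hG.ne1 _) h.symm, ind_false (hna hs2 hs3), ind_true rfl,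
      ind_false (hna hs3 hs3)]
    decide
  have hnt : ¬ TrivS A B := fun ht => by
    have h3 := hG.wcnt_zero hBA ht hB1 h2.1 h2.2
    rw [w1] at h3
    revert h3
    decide
  have hdA : ∀ {x : D}, M.SameSite d x → A x := fun hx => (hG.toPatch.sites.same hx).1 h.1
  -- all three darts are inner
  have hin : ∀ x, x = M.nx (M.nx d) ∨ x = M.nx (M.nx (M.nx d)) → Inn M A x := by
    intro x hx
    by_contra hn
    apply hnt
    refine hG.r2 hB hBA ((rcut_le' hB1).trans ?_)
    rcases hx with rfl | rfl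
    · rw [List.filter_cons, List.filter_cons_of_neg (by simpa using hn), List.filter_cons]
      split_ifs <;> simp
    · rw [List.filter_cons, List.filter_cons, List.filter_cons_of_neg (by simpa using hn)]
      split_ifs <;> simp
  have hin2 := hin _ (Or.inl rfl)
  have hin3 := hin _ (Or.inr rfl)
  have key : ∃ q, M.deg q = 4 ∧ A q ∧ ∀ x, M.SameSite d x → A (M.al x) →
      ind (B x) + ind (B (M.al x)) = 1 → M.SameSite q (M.al x) := by
    rcases hG.r3 hB hBA (rcut_le hB1) with ht | ⟨q, hq, ⟨k, hk⟩, hqB⟩ | ⟨q, hq, ⟨k, hk⟩, hqB⟩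
    · exact absurd ht hnt
    · refine ⟨q, hq, (hG.toPatch.sites.same hk).2 (hG.toPatch.inA k), fun x hx hxA h4 => ?_⟩
      have h5 : ¬ M.SameSite q x := fun h6 => by
        have := deg_same (h6.trans hx.symm)
        omega
      rw [ind_add', hqB, hqB] at h4
      tauto
    · refine ⟨q, hq, (hG.toPatch.sites.same hk).2 (hG.toPatch.inA k), fun x hx hxA h4 => ?_⟩
      have h5 : ¬ M.SameSite q x := fun h6 => by
        have := deg_same (h6.trans hx.symm)
        omega
      rw [ind_add'] at h4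
      have h6 := hqB x
      have h7 := hqB (M.al x)
      have := hdA hx
      tauto
  obtain ⟨q, hq, hqA, hqs⟩ := key
  have k1 := hqs _ hs1 h2.2 (by rw [hB1 _ h2.1 h2.2, w1])
  have k2 := hqs _ hs2 hin2.2 (by rw [hB1 _ hin2.1 hin2.2, w2])
  have k3 := hqs _ hs3 hin3.2 (by rw [hB1 _ hin3.1 hin3.2, w3])
  have h4 := hG.share (p := d) (q := q) h.1 hqA fun h6 => by
    have := deg_same h6
    omega
  have h5 : 2 < (Finset.univ.filter fun x => M.SameSite d x ∧ M.SameSite q (M.al x)).card := by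
    rw [Finset.two_lt_card]
    exact ⟨M.nx d, by simp [hs1, k1], M.nx (M.nx d), by simp [hs2, k2], M.nx (M.nx (M.nx d)),
      by simp [hs3, k3], fun h => hG.ne1 _ h.symm, fun h => hG.ne2 _ h.symm,
      fun h => hG.ne1 _ h.symm⟩
  omega

/-- at most one fold sector in each site -/
theorem fs_uniq {d e : D} (h : FS M A δ d) (h' : FS M A δ e) (hs : M.SameSite d e) : e = d := by
  obtain ⟨k, hk, rfl⟩ := mem_site hs
  rcases hG.deg46 d with h4 | h4
  · rw [h4] at hk
    interval_cases k
    · rfl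
    · exact absurd h'.2.1 (hG.fs1 h)
    · exact absurd h'.2.1 (hG.fs2 h)
    · have := hG.fs1 h'
      have h5 : M.nx ((⇑M.nx)^[3] d) = d := nx_four h4
      rw [h5] at this
      exact absurd h.2.1 this
  · rw [h4] at hk
    have h6 : (⇑M.nx)^[6] d = d := by
      have h1 := Function.isPeriodicPt_minimalPeriod M.nx d
      unfold DMap.deg at h4
      rw [h4] at h1
      exact h1
    interval_cases k
    · rfl
    · exact absurd h'.2.1 (hG.fs1 h)
    · exact absurd h'.2.1 (hG.fs2 h)
    · exact absurd h'.2.1 (hG.fs3 h h4)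
    · have := hG.fs2 h'
      have h5 : M.nx (M.nx ((⇑M.nx)^[4] d)) = d := h6
      rw [h5] at this
      exact absurd h.2.1 this
    · have := hG.fs1 h'
      have h5 : M.nx ((⇑M.nx)^[5] d) = d := h6
      rw [h5] at this
      exact absurd h.2.1 this

theorem foldSet : M.FoldSet (FS M A δ) where
  deg d _ := hG.deg46 d
  uniq _ _ h h' hs := hG.fs_uniq h h' hs

/-- the nodes which are identified are different -/
theorem chain {d e : D} (h : FS M A δ d) (h' : FS M A δ e) (hn : M.SameNode (M.nx d) (M.nx e)) :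
    d = e := by
  obtain ⟨i, hi⟩ := h.2.1
  obtain ⟨j, hj⟩ := h'.2.1
  obtain ⟨B, hB, hBA, hB1, -⟩ := hG.toPatch.exists_arc
    (arc_two (x := M.nx d) (y := M.al (M.nx e)) (hi.trans (al_node d).symm)
      (by rw [M.inv]; exact hn) (hj.trans (al_node e).symm))
  have h2 := hG.fs_inn h
  have h3 := hG.wcnt_zero hBA (hG.r2 hB hBA (rcut_le hB1)) hB1 h2.1 h2.2
  by_contra hne
  rw [wcnt_two, ind_true rfl, ind_false fun h => M.ne _ h.symm,
    ind_false (p := M.al (M.nx e) = M.nx d) fun h4 => hG.fs1 h (by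
      rw [← h4]; exact ring_same (al_node e).symm h'.2.1),
    ind_false fun h4 => hne (M.nx.injective (M.al_inj h4)).symm] at h3
  revert h3
  decide

/-- the start of a ring edge is a fold sector or a corner -/
theorem fs_or (i : ZMod 6) : FS M A δ (δ i) ∨ M.nx (δ i) = δ (i + 1) := by
  by_cases h : ∃ j, δ i = M.nx.symm (δ j)
  · obtain ⟨j, hj⟩ := h
    right
    exact ((hG.toPatch.corner_iff i j).1 hj).2
  · left
    push Not at h
    exact ⟨hG.toPatch.inA i, ring_δ i, h⟩

theorem fs_quad {i : ZMod 6} (h4 : M.deg (δ i) = 4) : FS M A δ (δ i) := by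
  rcases hG.fs_or i with h | h
  · exact h
  · have := hG.nc i h
    omega

/-- a ring sector of a site with a fold sector -/
theorem ring_site {d e : D} (h : FS M A δ d) (he : Ring M δ e) (hs : M.SameSite d e) :
    e = d ∨ ∃ i, e = M.nx.symm (δ i) ∧ M.SameSite d (δ i) := by
  have heA : A e := (hG.toPatch.sites.same hs).1 h.1
  by_cases h1 : ∃ i, e = M.nx.symm (δ i)
  · obtain ⟨i, hi⟩ := h1
    exact Or.inr ⟨i, hi, hs.trans (by rw [hi]; exact (site_nx_symm _).symm)⟩
  · push Not at h1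
    exact Or.inl (hG.fs_uniq h ⟨heA, he, h1⟩ hs)

/-- the ring sectors of a quad with a fold sector -/
theorem ring_quad {d e : D} (h : FS M A δ d) (h4 : M.deg d = 4) (he : Ring M δ e)
    (hs : M.SameSite d e) : e = d ∨ ∃ i, d = δ i ∧ e = M.nx.symm (δ i) := by
  rcases hG.ring_site h he hs with h1 | ⟨i, h1, h2⟩
  · exact Or.inl h1
  · have h3 : FS M A δ (δ i) := hG.fs_quad (by rw [← deg_same h2, h4])
    exact Or.inr ⟨i, (hG.fs_uniq h h3 h2).symm, h1⟩

theorem k2 {e : D} (h : FS M A δ e) (h4 : M.deg e = 4) :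
    ¬ FR M (FS M A δ) (M.al (M.nx (M.nx e))) := by
  intro hR
  have hs1 : M.SameSite e (M.nx e) := site_nx e
  have hs2 : M.SameSite e (M.nx (M.nx e)) := hs1.trans (site_nx _)
  have n1 : M.SameNode (M.al (M.nx (M.nx e))) (M.nx e) := al_node (M.nx e)
  have n2 : ∀ {x}, M.al (M.nx (M.nx e)) = M.nx x → M.SameNode (M.nx (M.nx e)) x := by
    intro x hx
    have := nx_symm_node (M := M) (M.al (M.nx (M.nx e)))
    rw [M.inv, hx, Equiv.symm_apply_apply] at this
    exact this
  rcases FoldSet.cases hR with h1 | ⟨e', h', h1⟩ | ⟨e', h', h4', h1⟩ | ⟨e', h', h4', h1⟩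
  · exact hG.fs1 h (ring_same n1 h1.2.1)
  · exact hG.fs2 h (ring_same (n2 h1).symm h'.2.1)
  · -- two quads with the path `nx e, nx nx e, al (nx e')`
    have hs1' : M.SameSite e' (M.nx e') := site_nx e'
    have hs2' : M.SameSite e' (M.nx (M.nx e')) := hs1'.trans (site_nx _)
    have hne : ¬ M.SameSite e e' := fun hs => hG.nl (M.nx (M.nx e)) (by
      rw [h1]; exact (hs2.symm.trans hs).trans hs2')
    obtain ⟨i, hi⟩ := h.2.1
    obtain ⟨j, hj⟩ := h'.2.1
    have h5 : M.al (M.nx (M.nx e')) = M.nx (M.nx e) := by rw [← h1, M.inv]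
    obtain ⟨B, hB, hBA, hB1, -⟩ := hG.toPatch.exists_arc
      (arc_three (x := M.nx e) (y := M.nx (M.nx e)) (z := M.al (M.nx e'))
        (hi.trans (al_node e).symm) n1.symm
        (by rw [M.inv, ← h5]; exact al_node _) (hj.trans (al_node e').symm))
    have i1 := hG.fs_inn h
    have i3 := hG.fs_inn h'
    have i2 : Inn M A (M.nx (M.nx e)) :=
      ⟨(hG.toPatch.sites.same hs2).1 h.1, by
        rw [h1]; exact (hG.toPatch.sites.same hs2').1 h'.1⟩
    have q1 : M.al (M.nx e') ≠ M.nx e := fun h6 => hG.fs1 h (by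
      rw [← h6]; exact ring_same (al_node e').symm h'.2.1)
    have q2 : M.nx e ≠ M.nx e' := fun h6 => hne (by rw [M.nx.injective h6])
    have q3 : M.al (M.nx e') ≠ M.nx (M.nx e) := fun h6 => by
      have h7 : M.nx e' = M.nx (M.nx e') := by
        rw [← h1, ← h6, M.inv]
      exact hG.ne1 _ h7.symm
    have q4 : M.nx (M.nx e) ≠ M.nx e' := fun h6 => hne (hs2.trans (by rw [h6]; exact hs1'.symm))
    have q5 : M.nx e ≠ M.al (M.nx (M.nx e)) := fun h6 => hG.nl (M.nx (M.nx e)) (by
      rw [← h6]; exact (site_nx _).symm)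
    have w1 : wcnt M [M.nx e, M.nx (M.nx e), M.al (M.nx e')] (M.nx e) = 1 := by
      rw [wcnt_three, ind_true rfl, ind_false fun h => M.ne _ h.symm, ind_false (hG.ne1 _),
        ind_false fun h6 => hG.nl (M.nx e) (by rw [← h6]; exact site_nx _), ind_false q1,
        ind_false fun h6 => q2 (M.al_inj h6).symm]
      decide
    have w2 : wcnt M [M.nx e, M.nx (M.nx e), M.al (M.nx e')] (M.nx (M.nx e)) = 1 := by
      rw [wcnt_three, ind_false fun h6 => hG.ne1 _ h6.symm, ind_false q5, ind_true rfl,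
        ind_false fun h => M.ne _ h.symm, ind_false q3,
        ind_false fun h6 => q4 (M.al_inj h6).symm]
      decide
    have w3 : wcnt M [M.nx e, M.nx (M.nx e), M.al (M.nx e')] (M.al (M.nx e')) = 1 := by
      rw [wcnt_three, ind_false fun h6 => q1 h6.symm, ind_false (by rw [M.inv]; exact q2),
        ind_false fun h6 => q3 h6.symm, ind_false (by rw [M.inv]; exact q4), ind_true rfl,
        ind_false (by rw [M.inv]; exact M.ne _)]
      decide
    have hnt : ¬ TrivS A B := fun ht => by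
      have h3 := hG.wcnt_zero hBA ht hB1 i1.1 i1.2
      rw [w1] at h3
      revert h3
      decide
    -- the quad of the arc
    have key : ∃ q, M.deg q = 4 ∧ ∀ x, Inn M A x → ind (B x) + ind (B (M.al x)) = 1 →
        (M.SameSite q x ∨ M.SameSite q (M.al x)) := by
      rcases hG.r3 hB hBA (rcut_le hB1) with ht | ⟨q, hq, -, hqB⟩ | ⟨q, hq, -, hqB⟩
      · exact absurd ht hnt
      · refine ⟨q, hq, fun x hx h4 => ?_⟩
        rw [ind_add', hqB, hqB] at h4
        tauto
      · refine ⟨q, hq, fun x hx h4 => ?_⟩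
        rw [ind_add'] at h4
        have h6 := hqB x
        have h7 := hqB (M.al x)
        have h8 := hx.1
        have h9 := hx.2
        tauto
    obtain ⟨q, hq, hqs⟩ := key
    have k1 := hqs _ i1 (by rw [hB1 _ i1.1 i1.2, w1])
    have k2 := hqs _ i2 (by rw [hB1 _ i2.1 i2.2, w2])
    have k3 := hqs (M.al (M.nx e')) (inn_al.2 i3) (by
      rw [hB1 _ i3.2 (by rw [M.inv]; exact i3.1), w3])
    rw [M.inv] at k3
    have hsame : ∀ {z}, M.SameSite q z → M.SameSite z q := fun hz => hz.symm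
    rcases k2 with k2 | k2
    · -- `q` is the site of `e`
      have hq1 : M.SameSite e q := hs2.trans k2.symm
      rcases k3 with k3 | k3
      · exact q3 (hG.share4 (p := e) (q := e') h4 h4' h.1 (hq1.trans k3) hs2
          (by rw [M.inv]; exact hs1') (by rw [h1]; exact hs2'))
      · exact hne (hq1.trans (k3.trans hs1'.symm))
    · -- `q` is the site of `e'`
      rw [h1] at k2
      have hq1 : M.SameSite e' q := hs2'.trans k2.symm
      rcases k1 with k1 | k1
      · exact hne (hs1.trans (k1.symm.trans hq1.symm))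
      · exact hG.ne1 _ (hG.share4 (p := e) (q := e') h4 h4' h.1 hs1 hs2
          (hq1.trans k1) (by rw [h1]; exact hs2')).symm
  · -- the path `nx e, e'`
    have hs3' : M.SameSite e' (M.nx (M.nx (M.nx e'))) :=
      ((site_nx e').trans (site_nx _)).trans (site_nx _)
    obtain ⟨i, hi⟩ := h.2.1
    obtain ⟨j, hj⟩ := h'.2.1
    have h5 : M.SameNode (M.nx e) (M.al e') := by
      refine n1.symm.trans ?_
      rw [h1, ← nx_four' h4']
      exact (nx_symm_node e').symm
    obtain ⟨B, hB, hBA, hB1, -⟩ := hG.toPatch.exists_arc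
      (arc_two (x := M.nx e) (y := e') (hi.trans (al_node e).symm) h5 hj)
    have i1 := hG.fs_inn h
    have h3 := hG.wcnt_zero hBA (hG.r2 hB hBA (rcut_le hB1)) hB1 i1.1 i1.2
    rw [wcnt_two, ind_true rfl, ind_false fun h => M.ne _ h.symm,
      ind_false (p := e' = M.nx e) fun h6 => hG.fs1 h (by rw [← h6]; exact h'.2.1)] at h3
    by_cases h6 : e' = M.al (M.nx e)
    · refine hG.ne1 _ (hG.share4 (p := e) (q := e') h4 h4' h.1 hs1 hs2 ?_ ?_).symm
      · rw [← h6]
      · rw [h1]; exact hs3'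
    · rw [ind_false h6] at h3
      revert h3
      decide

theorem k3 {e : D} (h : FS M A δ e) (h4 : M.deg e = 4) (hl : ∀ i, e ≠ δ i) :
    ¬ FR M (FS M A δ) (M.al (M.nx.symm e)) := by
  rw [nx_four' h4]
  intro hR
  have hs1 : M.SameSite e (M.nx e) := site_nx e
  have hs2 : M.SameSite e (M.nx (M.nx e)) := hs1.trans (site_nx _)
  have hs3 : M.SameSite e (M.nx (M.nx (M.nx e))) := hs2.trans (site_nx _)
  have n1 : M.SameNode (M.al (M.nx (M.nx (M.nx e)))) (M.nx (M.nx e)) := al_node _
  have n0 : M.SameNode (M.al e) (M.nx (M.nx (M.nx e))) := by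
    rw [← nx_four' h4]
    exact nx_symm_node e
  have n2 : ∀ {x}, M.al (M.nx (M.nx (M.nx e))) = M.nx x →
      M.SameNode (M.nx (M.nx (M.nx e))) x := by
    intro x hx
    have := nx_symm_node (M := M) (M.al (M.nx (M.nx (M.nx e))))
    rw [M.inv, hx, Equiv.symm_apply_apply] at this
    exact this
  -- the edge of `e` is inner
  have ie : Inn M A e := by
    refine ⟨h.1, ?_⟩
    by_contra hn
    obtain ⟨i, hi⟩ := (hG.bd.mem _).1 ⟨h.1, hn⟩
    exact hl i hi.symm
  have hr3 : ¬ Ring M δ (M.nx (M.nx (M.nx e))) := fun h5 => by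
    rcases hG.ring_quad h h4 h5 hs3 with h6 | ⟨i, h6, -⟩
    · exact hG.ne3 _ h6
    · exact hl i h6
  rcases FoldSet.cases hR with h1 | ⟨e', h', h1⟩ | ⟨e', h', h4', h1⟩ | ⟨e', h', h4', h1⟩
  · exact hG.fs2 h (ring_same n1 h1.2.1)
  · exact hr3 (ring_same (n2 h1).symm h'.2.1)
  · -- the path `nx e', e`
    have hs1' : M.SameSite e' (M.nx e') := site_nx e'
    have hs2' : M.SameSite e' (M.nx (M.nx e')) := hs1'.trans (site_nx _)
    obtain ⟨i, hi⟩ := h'.2.1
    obtain ⟨j, hj⟩ := h.2.1
    have h5 : M.SameNode (M.nx e') (M.al e) := (n0.trans (n2 h1)).symm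
    obtain ⟨B, hB, hBA, hB1, -⟩ := hG.toPatch.exists_arc
      (arc_two (x := M.nx e') (y := e) (hi.trans (al_node e').symm) h5 hj)
    have h3 := hG.wcnt_zero hBA (hG.r2 hB hBA (rcut_le hB1)) hB1 ie.1 ie.2
    rw [wcnt_two, ind_false (p := M.nx e' = e) fun h6 => hG.fs1 h' (by rw [h6]; exact h.2.1),
      ind_true (p := e = e) rfl, ind_false (p := e = M.al e) fun h => M.ne _ h.symm] at h3
    by_cases h6 : M.nx e' = M.al e
    · refine hG.ne3 _ (hG.share4 (p := e) (q := e') h4 h4' h.1
        (Equiv.Perm.SameCycle.refl _ _) hs3 ?_ ?_).symm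
      · rw [← h6]; exact hs1'
      · rw [h1]; exact hs2'
    · rw [ind_false h6] at h3
      revert h3
      decide
  · -- the path `al e, al (nx nx nx e), e'`
    have hs3' : M.SameSite e' (M.nx (M.nx (M.nx e'))) :=
      ((site_nx e').trans (site_nx _)).trans (site_nx _)
    have hne : ¬ M.SameSite e e' := fun hs => hG.nl (M.nx (M.nx (M.nx e))) (by
      rw [h1]; exact (hs3.symm.trans hs).trans hs3')
    obtain ⟨i, hi⟩ := h.2.1
    obtain ⟨j, hj⟩ := h'.2.1
    have h5 : M.SameNode (M.al (M.nx (M.nx (M.nx e)))) (M.al e') := by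
      rw [h1, ← nx_four' h4']
      exact (nx_symm_node e').symm
    obtain ⟨B, hB, hBA, hB1, -⟩ := hG.toPatch.exists_arc
      (arc_three (x := M.al e) (y := M.al (M.nx (M.nx (M.nx e)))) (z := e')
        (by rw [M.inv]; exact hi) (by rw [M.inv]; exact n0) h5 hj)
    have i3 : Inn M A (M.nx (M.nx (M.nx e))) :=
      ⟨(hG.toPatch.sites.same hs3).1 h.1, by
        rw [h1]; exact (hG.toPatch.sites.same hs3').1 h'.1⟩
    have q1 : e' ≠ e := fun h6 => hne (by rw [h6])
    have q2 : e' ≠ M.al e := fun h6 => hG.no_chord ie.1 ie.2 h.2.1 (by rw [← h6]; exact h'.2.1)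
    have q3 : e' ≠ M.al (M.nx (M.nx (M.nx e))) := fun h6 => by
      rw [h1] at h6
      exact hG.ne3 _ h6.symm
    have w1 : wcnt M [M.al e, M.al (M.nx (M.nx (M.nx e))), e'] e = 1 := by
      rw [wcnt_three, ind_false (M.ne _), ind_true rfl,
        ind_false fun h6 => hG.nl (M.nx (M.nx (M.nx e))) (by rw [h6]; exact hs3.symm),
        ind_false fun h6 => hG.ne3 _ (M.al_inj h6), ind_false q1, ind_false q2]
      decide
    have w2 : wcnt M [M.al e, M.al (M.nx (M.nx (M.nx e))), e'] (M.nx (M.nx (M.nx e))) = 1 := by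
      rw [wcnt_three, ind_false fun h6 => hG.nl e (by rw [h6]; exact hs3),
        ind_false fun h6 => hG.ne3 _ (M.al_inj h6).symm, ind_false (M.ne _), ind_true rfl,
        ind_false fun h6 => hne (by rw [h6]; exact hs3), ind_false q3]
      decide
    have hnt : ¬ TrivS A B := fun ht => by
      have h3 := hG.wcnt_zero hBA ht hB1 ie.1 ie.2
      rw [w1] at h3
      revert h3
      decide
    have key : ∃ q, M.deg q = 4 ∧ (∃ i, M.SameSite q (δ i)) ∧
        ∀ x, Inn M A x → ind (B x) + ind (B (M.al x)) = 1 →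
        (M.SameSite q x ∨ M.SameSite q (M.al x)) := by
      rcases hG.r3 hB hBA (rcut_le hB1) with ht | ⟨q, hq, hk, hqB⟩ | ⟨q, hq, hk, hqB⟩
      · exact absurd ht hnt
      · refine ⟨q, hq, hk, fun x hx h4 => ?_⟩
        rw [ind_add', hqB, hqB] at h4
        tauto
      · refine ⟨q, hq, hk, fun x hx h4 => ?_⟩
        rw [ind_add'] at h4
        have h6 := hqB x
        have h7 := hqB (M.al x)
        have h8 := hx.1
        have h9 := hx.2
        tauto
    obtain ⟨q, hq, ⟨k, hk⟩, hqs⟩ := key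
    have hqe : ¬ M.SameSite q e := fun h6 => by
      have h7 : M.SameSite e (δ k) := h6.symm.trans hk
      exact hl k (hG.fs_uniq h (hG.fs_quad (by rw [← deg_same h7, h4])) h7).symm
    have k1 := (hqs _ ie (by rw [hB1 _ ie.1 ie.2, w1])).resolve_left hqe
    have k2 := (hqs _ i3 (by rw [hB1 _ i3.1 i3.2, w2])).resolve_left fun h6 =>
      hqe (h6.trans hs3.symm)
    rw [h1] at k2
    have hq1 : M.SameSite e' q := hs3'.trans k2.symm
    refine hG.ne3 _ (hG.share4 (p := e) (q := e') h4 h4' h.1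
        (Equiv.Perm.SameCycle.refl _ _) hs3 (hq1.trans k1) ?_).symm
    rw [h1]; exact hs3'

end Gen

end DMap

end GT33
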