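import Pool.Agent.GT33.DFoldL
import Pool.Agent.GT33.DGen

/-!
# GT33 module COBJ: folds of objects

`OL_trans`: local states of a map in which some ring nodes and ring darts changed.  `Obj.foldO`: the fold of a
hexagon is an object.
-/

open Classical

namespace GT33

namespace DMap

variable {D : Type} {M : DMap D} {Good : (ZMod 6 → Prop) → Prop → Rel → Prop}

theorem Dem.lk {F : Flags} (hF : F.Ok) {δ : ZMod 6 → D} {n : ℕ} {γ : ZMod n → D} {a : ZMod n}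
    {j : ZMod 6} {T : Bool} (h : Dem F δ γ a j T) : F.lk j T := by
  by_cases h1 : γ a = δ j
  · exact hF.le _ _ (h.2.1 h1)
  by_cases h2 : γ (a + 1) = δ (j + 1)
  · exact hF.ri _ _ (h.2.2 h2)
  exact h.1 h1 h2

/-- the data of a reduction: the darts `ι` of the reduced map `M'`, the changed sites `C`, the lost ring nodes `X` -/
structure Red {D' : Type} (M : DMap D) (M' : DMap D') (ι : D' → D) (C : D → Prop) (X : ZMod 6 → Prop)
    (δ : ZMod 6 → D) (δ' : ZMod 6 → D') (F F' : Flags) : Prop where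
  inj : Function.Injective ι
  ok : F.Ok
  node : ∀ j x, ¬ C (ι x) → M.SameNode (δ j) (ι x) → ¬ X j ∧ M'.SameNode (δ' j) x
  lk : ∀ j T, ¬ X j → F.lk j T → F'.lk j T
  le : ∀ j T, ¬ X j → ¬ C (ι (δ' j)) → F.lk j T → (ι (δ' j) = δ j → F.le j T) → F'.le j T
  ri : ∀ j T, ¬ X j → ¬ C (ι (δ' (j + 1))) → F.lk j T → (ι (δ' (j + 1)) = δ (j + 1) → F.ri j T) →
    F'.ri j T
  st : ∀ j x, ¬ C (ι x) → ι x = δ j → F.st j → F'.st j ∧ x = δ' j

section

variable {D' : Type} {M' : DMap D'} {ι : D' → D} {C : D → Prop} {X : ZMod 6 → Prop}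
  {δ : ZMod 6 → D} {δ' : ZMod 6 → D'} {F F' : Flags}

theorem Red.dem (h : Red M M' ι C X δ δ' F F') {n : ℕ} {γ : ZMod n → D'} (hγ : ∀ i, ¬ C (ι (γ i)))
    {a : ZMod n} {j : ZMod 6} {T : Bool} (hn : M.SameNode (δ j) (ι (γ a)))
    (hd : Dem F δ (fun i => ι (γ i)) a j T) : M'.SameNode (δ' j) (γ a) ∧ Dem F' δ' γ a j T := by
  obtain ⟨h1, h2⟩ := h.node j _ (hγ a) hn
  have h3 := hd.lk h.ok
  refine ⟨h2, fun _ _ => h.lk j T h1 h3, fun h4 => ?_, fun h4 => ?_⟩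
  · refine h.le j T h1 (by rw [← h4]; exact hγ a) h3 fun h5 => hd.2.1 ?_
    show ι (γ a) = δ j
    rw [h4, h5]
  · refine h.ri j T h1 (by rw [← h4]; exact hγ _) h3 fun h5 => hd.2.2 ?_
    show ι (γ (a + 1)) = δ (j + 1)
    rw [h4, h5]

theorem Red.QS (h : Red M M' ι C X δ δ' F F') {γ : ZMod 4 → D'} (hγ : ∀ i, ¬ C (ι (γ i)))
    {t : PState 4} (ht : M'.QS δ' F' γ t) : M.QS δ F (fun i => ι (γ i)) t := by
  refine ⟨ht.ee, fun a j T h1 h2 => ?_, fun a j h1 h2 => ?_⟩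
  · obtain ⟨h3, h4⟩ := h.dem hγ h1 h2
    exact ht.dem a j T h3 h4
  · obtain ⟨h3, h4⟩ := h.st j _ (hγ a) h1 h2
    exact ht.st a j h4 h3

theorem Red.res (h : Red M M' ι C X δ δ' F F') {γ : ZMod 6 → D'} (hγ : ∀ i, ¬ C (ι (γ i))) :
    (M.res δ F fun i => ι (γ i)).Le (M'.res δ' F' γ) where
  lk := by
    rintro a T ⟨j, h1, h2⟩
    obtain ⟨h3, h4⟩ := h.node j _ (hγ a) h1
    exact ⟨j, h4, h.lk j T h3 h2⟩
  le := by
    rintro a T ⟨j, h1, h2, h2'⟩
    obtain ⟨h3, h4⟩ := h.node j _ (hγ a) h1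
    have h5 : F.lk j T := by
      by_cases h6 : ι (γ a) = δ j
      · exact h.ok.le _ _ (h2 h6)
      · exact h2' h6
    refine ⟨j, h4, fun h6 => ?_, fun _ => h.lk j T h3 h5⟩
    refine h.le j T h3 (by rw [← h6]; exact hγ a) h5 fun h7 => h2 ?_
    show ι (γ a) = δ j
    rw [h6, h7]
  ri := by
    rintro a T ⟨j, h1, h2, h2'⟩
    obtain ⟨h3, h4⟩ := h.node j _ (hγ a) h1
    have h5 : F.lk j T := by
      by_cases h6 : ι (γ (a + 1)) = δ (j + 1)
      · exact h.ok.ri _ _ (h2 h6)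
      · exact h2' h6
    refine ⟨j, h4, fun h6 => ?_, fun _ => h.lk j T h3 h5⟩
    refine h.ri j T h3 (by rw [← h6]; exact hγ _) h5 fun h7 => h2 ?_
    show ι (γ (a + 1)) = δ (j + 1)
    rw [h6, h7]
  st := by
    rintro a ⟨j, h1, h2⟩
    obtain ⟨h3, h4⟩ := h.st j _ (hγ a) h1 h2
    exact ⟨j, h4, h3⟩

/-- local states of the unchanged sites -/
theorem Red.OL (h : Red M M' ι C X δ δ' F F') {β : (ZMod 6 → D) → Rel}
    {n : ℕ} {γ : ZMod n → D'} (hγ : ∀ i, ¬ C (ι (γ i)))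
    (anti : ∀ (γ : ZMod 6 → D') F G t, M'.SiteNum 6 γ → (∀ i, ¬ C (ι (γ i))) → F.Le G →
      β (fun i => ι (γ i)) G t → β (fun i => ι (γ i)) F t) (hn : M'.SiteNum n γ)
    {t : PState n} (ht : M'.OL δ' (fun γ => β fun i => ι (γ i)) F' n γ t) :
    M.OL δ β F n (fun i => ι (γ i)) t := by
  rcases OL_n ht with rfl | rfl
  · exact h.QS hγ ht
  · exact anti γ _ _ t hn hγ (h.res hγ) ht

end

/-! ### the fold of an object -/

section fold

variable [Fintype D] {h : ZMod 6 → D} {o : D → Bool} (hh : M.SiteNum 6 h)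
  (ho : ∀ d, o (M.nx d) = !o d) (ho' : ∀ d, o (M.al d) = !o d)

theorem fold_siteNum {n : ℕ} {γ : ZMod n → {d // ¬ HR h d}} (hγ : (fold hh ho ho').SiteNum n γ)
    (hγd : ∀ j, ¬ M.SameSite (h 0) (γ j).1) : M.SiteNum n fun j => (γ j).1 := by
  refine ⟨fun x y hxy => hγ.inj (Subtype.ext hxy), fun j => ?_⟩
  have h2 : ¬ HR h (M.nx (γ j).1) := by
    intro h3
    rcases hr_nx hh h3 with h4 | h4
    · exact hγd j (by rw [h4]; exact h_same hh 0 5)
    · exact hγd j (by rw [h4])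
  rw [← hγ.nx, fold_nx_of hh ho ho' h2]

theorem fold_deg_in {d : {d // ¬ HR h d}} (hd : M.SameSite (h 0) d.1) : (fold hh ho ho').deg d = 4 := by
  have h1 := hf_siteNum hh ho ho'
  have h2 : (fold hh ho ho').SameSite (hf hh 0) d := by
    rw [fold_sameSite]
    exact (h_same hh _ 0).trans hd
  obtain ⟨j, hj⟩ := h1.mem (i := 0) (d := d) h2
  rw [← hj]
  exact h1.deg j

/-- hexagons of the folded map are unchanged -/
theorem fold_six {γ : ZMod 6 → {d // ¬ HR h d}} (hγ : (fold hh ho ho').SiteNum 6 γ) (j : ZMod 6) :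
    ¬ M.SameSite (h 0) (γ j).1 := fun h1 => by
  have h2 := fold_deg_in hh ho ho' h1
  have h3 := hγ.deg j
  omega

/-- the fold of an object -/
theorem Obj.foldO {A : D → Prop} {δ : ZMod 6 → D} {B : Boxes D} (hO : M.Obj Good A δ B)
    {δ' : ZMod 6 → {d // ¬ HR h d}} (hP' : (fold hh ho ho').Patch (fun d => A d.1) δ')
    (hn : ∀ j (x : {d // ¬ HR h d}), A x.1 → ¬ M.SameSite (h 0) x.1 → M.SameNode (δ j) x.1 →
      (fold hh ho ho').SameNode (δ' j) x) :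
    (fold hh ho ho').Obj Good (fun d => A d.1) δ' (B.pull fun d : {d // ¬ HR h d} => d.1) := by
  have hnum := fun (γ : ZMod 6 → {d // ¬ HR h d}) (hγ : (fold hh ho ho').SiteNum 6 γ) =>
    fold_siteNum hh ho ho' hγ (fold_six hh ho ho' hγ)
  refine ⟨hP', fun d hd h6 => ?_, fun γ F G t hγ h0 => ?_, fun γ F t c hγ h0 => ?_,
    fun γ a c hγ h0 => ?_, fun γ hγ h0 => ?_, fun γ F t hγ h0 => ?_⟩
  · have h1 : ¬ M.SameSite (h 0) d.1 := fun h2 => by
      have := fold_deg_in hh ho ho' h2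
      omega
    rw [fold_deg_of hh ho ho' h1] at h6
    obtain ⟨j, e, h2, h3⟩ := hO.touch _ hd h6
    have h4 : ¬ M.SameSite (h 0) e := fun h5 => h1 (h5.trans h2.symm)
    have h5 : ¬ HR h e := by
      rintro (h5 | h5)
      · exact h4 (by rw [h5])
      · exact h4 (by rw [h5]; exact h_same hh 0 1)
    have h6 : A e := (Sites.same (M := M) hO.patch.sites h2).1 hd
    refine ⟨j, ⟨e, h5⟩, ?_, hn j ⟨e, h5⟩ h6 h4 h3⟩
    rw [fold_sameSite]
    exact h2
  · exact hO.anti _ F G t (hnum γ hγ) h0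
  · exact hO.rot _ F t c (hnum γ hγ) h0
  · exact hO.krot _ a c (hnum γ hγ) h0
  · exact hO.good _ (hnum γ hγ) h0
  · exact hO.nice _ F t (hnum γ hγ) h0

end fold

end DMap

end GT33
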