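import Pool.Agent.GT33.Chk

/-!
# GT33 module CHKK: the finite check for objects with a corner quad

`okK i r a a' p`: if the rest realises the alternative `a'` (rotated by `r`) and the corner quad at `i` has the state
`p`, then the object realises the alternative `a`.
-/

namespace GT33

namespace Chk

theorem stt_inv (m u : ℕ) (j : ZMod 6) : (stt m u).m ((stt m u).m j) = j ∧ (stt m u).m j ≠ j := by
  have key : ∀ x ∈ [103254, 521430, 105432, 321054, 543210], ∀ j : ZMod 6,
      nd (dg x (nd (dg x j))) = j ∧ nd (dg x j) ≠ j := by decide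
  refine key (mc m) ?_ j
  unfold mc
  split_ifs <;> simp

theorem rot_inv {s : PState 6} (h : ∀ j, s.m (s.m j) = j ∧ s.m j ≠ j) (c j : ZMod 6) :
    (s.rot c).m ((s.rot c).m j) = j ∧ (s.rot c).m j ≠ j := by
  constructor
  · show s.m (s.m (j + c) - c + c) - c = j
    rw [sub_add_cancel, (h (j + c)).1, add_sub_cancel_right]
  · intro h1
    apply (h (j + c)).2
    have h2 : s.m (j + c) - c = j := h1
    exact sub_eq_iff_eq_add.1 h2

/-- demand: `a j` implies `b j` -/
def imp (a b : Bool) : Bool := !a || b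

/-- the demands `x'` at the node `j'` imply the demands `x` at the node `j`; `eL`, `eR`: the left, right edge at the node
`j'` is not a ring edge of the object with the demands `x` -/
def dmd (eL eR : Bool) (x : ℕ) (j : ZMod 6) (x' : ℕ) (j' : ZMod 6) : Bool :=
  imp (lkd x j) (lkd x' j') && imp (bif eL then lkd x j else led x j) (led x' j') &&
    imp (bif eR then lkd x j else rid x j) (rid x' j')

/-- the demands of the rest -/
def flK (i r : ZMod 6) (a a' : Alt) : Bool :=
  all6 fun j => j == i || (dmd (j == i + 1) (j == i - 1) a.r j a'.r (j + r) &&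
    dmd (j == i + 1) (j == i - 1) a.l j a'.l (j + r) &&
    (j == i + 1 || imp (on a.s j) (on a'.s (j + r))))

/-- the demands of the corner quad -/
def demK (i : ZMod 6) (a : Alt) (p : PState 4) : Bool :=
  imp (led a.r i && rid a.r i) (decide (p.u 3 ≤ 1)) && imp (led a.l i && rid a.l i) (decide (p.u 1 ≤ 1)) &&
  imp (led a.r (i + 1)) (decide (p.u 0 ≤ 1)) && imp (led a.l (i + 1)) (decide (p.u 2 ≤ 1)) &&
  imp (rid a.r (i - 1)) (decide (p.u 2 ≤ 1)) && imp (rid a.l (i - 1)) (decide (p.u 0 ≤ 1)) &&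
  imp (on a.s i) (decide (p.u 1 ≤ 1) && decide (p.u 2 ≤ 1)) &&
  imp (on a.s (i + 1)) (decide (p.u 2 ≤ 1) && decide (p.u 3 ≤ 1))

/-- one alternative -/
def okK (i r : ZMod 6) (a a' : Alt) (p : PState 4) : Bool :=
  flK i r a a' && demK i a p && !(decide (p.m 2 = 3) && decide ((a'.S.rot r).m i = i + 1)) &&
    decide ((a'.S.rot r).u i + p.u 2 = 3) && eqS (gk i p (a'.S.rot r)) a.S

/-- a number as a corner of a quad -/
def nd4 (x : ℕ) : ZMod 4 := (⟨x % 4, Nat.mod_lt _ (by decide)⟩ : Fin 4)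

theorem imp_iff {a b : Bool} : imp a b = true ↔ (a = true → b = true) := by
  cases a <;> cases b <;> simp [imp]

theorem dmd_iff {eL eR : Bool} {x : ℕ} {j : ZMod 6} {x' : ℕ} {j' : ZMod 6} :
    dmd eL eR x j x' j' = true ↔ (lkd x j = true → lkd x' j' = true) ∧
      (((eL = true → lkd x j = true) ∧ (eL ≠ true → led x j = true)) → led x' j' = true) ∧
      (((eR = true → lkd x j = true) ∧ (eR ≠ true → rid x j = true)) → rid x' j' = true) := by
  unfold dmd
  simp only [Bool.and_eq_true, imp_iff]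
  cases eL <;> cases eR <;> simp [and_assoc]

theorem flK_le {i r : ZMod 6} {a a' : Alt} (h : flK i r a a' = true) :
    (DMap.kflags a.F i).Le (a'.F.rot r) := by
  unfold flK at h
  rw [all6_iff] at h
  have h1 : ∀ j, j ≠ i → ∀ T : Bool,
      dmd (j == i + 1) (j == i - 1) (if T = true then a.r else a.l) j
        (if T = true then a'.r else a'.l) (j + r) = true := by
    intro j hj T
    have h2 := h j
    simp only [Bool.or_eq_true, Bool.and_eq_true, beq_iff_eq] at h2
    rcases h2 with h2 | ⟨⟨h2, h3⟩, h4⟩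
    · exact absurd h2 hj
    · cases T
      · exact h3
      · exact h2
  have h1' : ∀ j, j ≠ i → j ≠ i + 1 → on a.s j = true → on a'.s (j + r) = true := by
    intro j hj hj'
    have h2 := h j
    simp only [Bool.or_eq_true, Bool.and_eq_true, beq_iff_eq, imp_iff] at h2
    rcases h2 with h2 | ⟨⟨h2, h3⟩, h4⟩
    · exact absurd h2 hj
    · exact h4.resolve_left hj'
  refine ⟨?_, ?_, ?_, ?_⟩
  · rintro j T ⟨h3, h4⟩
    exact (dmd_iff.1 (h1 j h3 T)).1 h4
  · rintro j T ⟨h3, h4, h5⟩
    exact (dmd_iff.1 (h1 j h3 T)).2.1 ⟨fun h6 => h4 (by simpa using h6), fun h6 => h5 (by simpa using h6)⟩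
  · rintro j T ⟨h3, h4, h5⟩
    exact (dmd_iff.1 (h1 j h3 T)).2.2 ⟨fun h6 => h4 (by simpa using h6), fun h6 => h5 (by simpa using h6)⟩
  · rintro j ⟨h3, h4, h5⟩
    exact h1' j h3 h4 h5

theorem demK_dem {i : ZMod 6} {a : Alt} {p : PState 4} (hp : EE 4 p) (h : demK i a p = true) :
    DMap.KDem a.F i p := by
  unfold demK at h
  simp only [Bool.and_eq_true, imp_iff, decide_eq_true_eq] at h
  obtain ⟨⟨⟨⟨⟨⟨⟨h1, h2⟩, h3⟩, h4⟩, h5⟩, h6⟩, h7⟩, h8⟩ := h
  refine ⟨hp, ?_, ?_, ?_, h7, h8⟩
  · intro T h9 h10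
    cases T
    · exact h2 ⟨h9, h10⟩
    · exact h1 ⟨h9, h10⟩
  · intro T h9
    cases T
    · exact h4 h9
    · exact h3 h9
  · intro T h9
    cases T
    · exact h6 h9
    · exact h5 h9

end Chk

end GT33
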