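import Pool.Agent.GT33.ChkT

/-!
# GT33 module TB: tables of clauses with conditions on the corner set

`SRow`: a clause with conditions on the corner set.  `GoodS T K σ b`: corners are not adjacent and all rows of the
table `T` are realised in all rotations which fit the corner set.  `clS` is the clause of a row if it is available for
the known facts about the corner set.
-/

namespace GT33

namespace Chk

/-- a row: conditions for the corner set and a clause -/
structure SRow where
  /-- digits for the ring nodes, `0`: not a corner, `1`: a corner, otherwise: no condition -/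
  k : ℕ
  /-- the alternatives -/
  c : List Alt

/-- the condition `d` for a node -/
def Fit (d : ℕ) (p : Prop) : Prop := (d = 1 → p) ∧ (d = 0 → ¬ p)

/-- the predicate of a table -/
structure GoodS (T : List SRow) (K : ZMod 6 → Prop) (σ : Prop) (b : Rel) : Prop where
  adj : ∀ j, K j → ¬ K (j + 1)
  rows : ∀ row ∈ T, ∀ r : ZMod 6, (∀ j, Fit (dg row.k (j + r)) (K j)) →
    ∃ a ∈ row.c, b (a.F.rot r) (a.S.rot r)

theorem GoodS.mono (T : List SRow) : DMap.MonoH (GoodS T) := by
  intro K σ b b' hb h
  refine ⟨h.adj, fun row hr r h3 => ?_⟩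
  obtain ⟨a, ha, h4⟩ := h.rows row hr r h3
  exact ⟨a, ha, hb _ _ (a.ok.rot r) h4⟩

theorem stt_mm (m u : ℕ) (j : ZMod 6) : (stt m u).m ((stt m u).m j) = j ∧ (stt m u).m j ≠ j := by
  have key : ∀ x ∈ [103254, 521430, 105432, 321054, 543210], ∀ j : ZMod 6,
      nd (dg x (nd (dg x j))) = j ∧ nd (dg x j) ≠ j := by decide
  refine key (mc m) ?_ j
  unfold mc
  split_ifs <;> simp

/-- the units of an alternative are ring-exact -/
def niceA (a : Alt) : Bool :=
  (List.range 64).any fun x => all6 fun j =>
    decide (dg a.u j + x / 2 ^ (j + 1).val % 2 = x / 2 ^ j.val % 2 + 1)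

/-- the units of all alternatives are ring-exact -/
def niceT (T : List SRow) : Bool := T.all fun row => row.c.all niceA

theorem niceA_nice {a : Alt} (h : niceA a = true) : Nice a.S := by
  unfold niceA at h
  rw [List.any_eq_true] at h
  obtain ⟨x, -, hx⟩ := h
  rw [all6_iff] at hx
  refine ⟨fun k => (stt_mm _ _ k).1, fun k => (stt_mm _ _ k).2, fun j => x / 2 ^ j.val % 2,
    fun j => Nat.le_of_lt_succ (Nat.mod_lt _ (by decide)), fun j => ?_⟩
  have := hx j
  rw [decide_eq_true_eq] at this
  exact this

theorem GoodS.nice {T : List SRow} (hT : niceT T = true) : DMap.NiceH (GoodS T) := by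
  unfold niceT at hT
  rw [List.all_eq_true] at hT
  have h0 : ∀ row ∈ T, ∀ a ∈ row.c, Nice a.S := fun row hr a ha => by
    have := hT row hr
    rw [List.all_eq_true] at this
    exact niceA_nice (this a ha)
  intro K σ b h
  refine ⟨h.adj, fun row hr r h3 => ?_⟩
  obtain ⟨a, ha, h4⟩ := h.rows row hr r h3
  exact ⟨a, ha, (h0 row hr a ha).rot r, h4⟩

/-- the facts imply the condition `d` for the node `j` -/
def fitB (f : Fc) (d : ℕ) (j : ZMod 6) : Bool :=
  (d != 0 || f.any fun p => p.1 == j && !p.2) && (d != 1 || f.any fun p => p.1 == j && p.2)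

/-- the clause of the row `src` for the facts `f` and the rotation `r` -/
def clS (T : List SRow) (f : Fc) (src : ℕ) (r : ZMod 6) : Option (List Alt) :=
  match T[src]? with
  | some s => bif all6 fun j => fitB f (dg s.k (j + r)) j then some s.c else none
  | none => none

theorem fitB_fit {K : ZMod 6 → Prop} {f : Fc} (hf : FcOk K f) {d : ℕ} {j : ZMod 6}
    (h : fitB f d j = true) : Fit d (K j) := by
  unfold fitB at h
  simp only [Bool.and_eq_true, Bool.or_eq_true, bne_iff_ne, List.any_eq_true, Bool.not_eq_true',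
    beq_iff_eq] at h
  obtain ⟨h1, h2⟩ := h
  refine ⟨fun h3 => ?_, fun h3 h4 => ?_⟩
  · obtain ⟨p, hp, h5, h6⟩ := h2.resolve_left (not_not.2 h3)
    exact h5 ▸ (hf p hp).1 h6
  · obtain ⟨p, hp, h5, h6⟩ := h1.resolve_left (not_not.2 h3)
    have h7 := (hf p hp).2 (h5 ▸ h4)
    rw [h6] at h7
    exact absurd h7 (by simp)

theorem GoodS.clause {T : List SRow} {K : ZMod 6 → Prop} {σ : Prop} {b : Rel} (h : GoodS T K σ b)
    {f : Fc} (hf : FcOk K f) {src : ℕ} {r : ZMod 6} {l : List Alt}
    (hl : clS T f src r = some l) :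
    ∃ a ∈ l, b (a.F.rot r) (a.S.rot r) := by
  unfold clS at hl
  split at hl
  · rename_i s hs
    cases h5 : all6 (fun j => fitB f (dg s.k (j + r)) j) with
    | false => simp [h5] at hl
    | true =>
      have h6 : s.c = l := by simpa [h5] using hl
      rw [← h6]
      rw [all6_iff] at h5
      exact h.rows s (List.mem_of_getElem? hs) r fun j => fitB_fit hf (h5 j)
  · simp at hl

end Chk

open Chk

namespace DMap

variable {D : Type} {M : DMap D} {A : D → Prop} {δ : ZMod 6 → D}

theorem Rz.unrot [Fintype D] {H : D → Prop} {β : (ZMod 6 → D) → Rel} (hH : M.Sites H) {F : Flags}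
    {t : PState 6} {i : ZMod 6} (h : Rz M H (fun j => δ (j + i)) β (F.rot i) (t.rot i)) :
    Rz M H δ β F t := by
  have h1 := Rz.rot hH (-i) h
  have e : (fun j : ZMod 6 => δ (j + -i + i)) = δ := funext fun j => by rw [neg_add_cancel_right]
  have e1 : (F.rot i).rot (-i) = F := by
    ext <;> simp [Flags.rot]
  have e2 : (t.rot i).rot (-i) = t :=
    PState.ext' (fun j => by simp [PState.rot]) fun j => by simp [PState.rot]
  rw [e1, e2] at h1
  exact e ▸ h1

/-- **it suffices to realise the rows for all rotations of the object** -/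
theorem goodS_of [Fintype D] {T : List SRow} {B : Boxes D} {σ : Prop} (hA : M.Sites A)
    (hadj : ∀ j, KS M B.κ δ j → ¬ KS M B.κ δ (j + 1))
    (h : ∀ c : ZMod 6, ∀ row ∈ T, (∀ j, Fit (dg row.k j) (KS M B.κ (fun i => δ (i + c)) j)) →
      ∃ a ∈ row.c, Rz M A (fun i => δ (i + c)) B.β a.F a.S) :
    GoodS T (KS M B.κ δ) σ (Rz M A δ B.β) := by
  have hrot : ∀ (r : ZMod 6) {F : Flags} {s : PState 6}, Rz M A (fun i => δ (i + -r)) B.β F s →
      Rz M A δ B.β (F.rot r) (s.rot r) := by
    intro r F s h3
    have h4 := Rz.rot hA r h3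
    have e : (fun i : ZMod 6 => δ (i + r + -r)) = δ := funext fun i => by rw [add_neg_cancel_right]
    exact e ▸ h4
  refine ⟨hadj, fun row hr r h3 => ?_⟩
  obtain ⟨a, ha, h4⟩ := h (-r) row hr fun j => by
    have h5 := h3 (j + -r)
    rw [neg_add_cancel_right] at h5
    rwa [KS_rot]
  exact ⟨a, ha, hrot r h4⟩

end DMap

end GT33
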