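import Pool.Agent.GT33.StarB
import Pool.Agent.GT33.ChkK
import Pool.Agent.GT33.Tb

/-!
# GT33 module CASEK: objects with a corner quad

`goK`: the certificate for the corner set `k` and the position `i` of the corner quad which is removed; `goST`: the
certificate for a row and a star.  `goodS_of_corner`: objects with a corner quad are good if there are correct
certificates for all rows.
-/

namespace GT33

namespace Chk

/-- the clauses of the rest -/
def clK (T : List SRow) : ℕ → Fc → ℕ → ZMod 6 → Option (List Alt)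
  | 0 => clS T
  | _ => fun _ _ _ => none

/-- the test of a leaf; `t = 16 a + 4 x + y`: target alternative `a`, state `(x, y)` of the quad -/
def okKT (i : ZMod 6) (tg : List Alt) (s : List (ZMod 6 × Alt)) (t : ℕ) : Bool :=
  match s with
  | [x] => match tg[t / 16]? with
    | some a => okK i x.1 a x.2 (qst (nd4 (t / 4)) (nd4 t))
    | none => false
  | _ => false

/-- the ring nodes -/
def nodes6 : List (ZMod 6) := [0, 1, 2, 3, 4, 5]

/-- what is known about the corner set of the rest if `k` is the corner set of the object -/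
def fcK (i : ZMod 6) (k : ℕ) : Fc :=
  (i, false) :: (nodes6.filter fun j => !(j == i || j == i + 1 || j == i - 1)).map fun j => (j, on k j)

/-- the certificate for one corner set -/
def goK (T : List SRow) (i : ZMod 6) (k : ℕ) (tg : List Alt) (x : List Ins) : Bool :=
  runC (clK T) (okKT i tg) [fcK i k] x

/-- the corner set `k` satisfies the conditions `r` -/
def compat (r k : ℕ) : Bool := all6 fun j => (dg r j != 0 || !on k j) && (dg r j != 1 || on k j)

/-- certificates for the corner sets in a list: the position of the corner quad and the tree -/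
def goKs (T : List SRow) (row : SRow) : List ℕ → List (ℕ × List Ins) → Bool
  | [], _ => true
  | k :: L, z => bif compat row.k k then (match z with
      | [] => false
      | x :: z => on k (nd x.1) && goK T (nd x.1) k row.c x.2 && goKs T row L z)
    else goKs T row L z

/-- the check for all rows of the table `T₀` and all corner sets, the source rows are in the table `T` -/
def ChkK (T T₀ : List SRow) : Prop := ∀ row ∈ T₀, ∃ z, goKs T row codes.tail z = true

theorem goKs_spec {T : List SRow} {row : SRow} : ∀ (L : List ℕ)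
    (z : List (ℕ × List Ins)), goKs T row L z = true →
    ∀ k ∈ L, compat row.k k = true → ∃ i, on k i = true ∧ ∃ x, goK T i k row.c x = true
  | [], _, _, _, h, _ => by simp at h
  | k :: L, z, h, k', hk', hc => by
    unfold goKs at h
    rcases List.mem_cons.1 hk' with rfl | hk'
    · rw [hc, cond_true] at h
      match z, h with
      | x :: z, h =>
        simp only [Bool.and_eq_true] at h
        exact ⟨_, h.1.1, _, h.1.2⟩
    · cases h1 : compat row.k k with
      | false =>
        rw [h1, cond_false] at h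
        exact goKs_spec L z h k' hk' hc
      | true =>
        rw [h1, cond_true] at h
        match z, h with
        | x :: z, h =>
          simp only [Bool.and_eq_true] at h
          exact goKs_spec L z h.2 k' hk' hc

theorem compat_of {K : ZMod 6 → Prop} {r k : ℕ} (hr : ∀ j, Fit (dg r j) (K j))
    (hk : ∀ j, K j ↔ on k j = true) : compat r k = true := by
  unfold compat
  rw [all6_iff]
  intro j
  rw [Bool.and_eq_true, Bool.or_eq_true, Bool.or_eq_true, bne_iff_ne, bne_iff_ne,
    Bool.not_eq_true']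
  constructor
  · by_cases h : dg r j = 0
    · right
      rw [← Bool.not_eq_true, ← hk]
      exact (hr j).2 h
    · exact Or.inl h
  · by_cases h : dg r j = 1
    · exact Or.inr ((hk j).1 ((hr j).1 h))
    · exact Or.inl h

/-- the state `(x, y)` of a quad, `n = 4 x + y` -/
def qc (n : ℕ) : PState 4 := qst (nd4 (n / 4)) (nd4 n)

/-- the state of the rest of a star -/
def stS (p₂ p₄ : ℕ) : PState 6 := (p1 (qc p₂) (qc p₄)).rot (-1)

/-- the test of a star -/
def okS (c : ZMod 6) (a : Alt) (p₀ p₂ p₄ : ℕ) : Bool :=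
  demK c a (qc p₀) && demK (2 + c) a (qc p₂) && demK (4 + c) a (qc p₄) &&
    all6 (fun j => decide ((stS p₂ p₄).m ((stS p₂ p₄).m j) = j) && decide ((stS p₂ p₄).m j ≠ j)) &&
    !(decide ((qc p₀).m 2 = 3) && decide ((stS p₂ p₄).m 0 = 1)) &&
    decide ((stS p₂ p₄).u 0 + (qc p₀).u 2 = 3) && eqS (gk 0 (qc p₀) (stS p₂ p₄)) (a.S.rot c)

/-- certificate for a star row and the rotation `c`: alternative and quad states -/
def goST (tg : List Alt) (c : ZMod 6) (x : ℕ × ℕ × ℕ × ℕ) : Bool :=
  match tg[x.1]? with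
  | some a => okS c a x.2.1 x.2.2.1 x.2.2.2
  | none => false

/-- the corner set of the star with the corner `c` -/
def kst (c : ZMod 6) : ℕ := bif on 101010 c then 101010 else 10101

/-- the check of all rows for stars -/
def ChkS (T : List SRow) : Prop :=
  ∀ row ∈ T, ∀ c : ZMod 6, compat row.k (kst c) = true → ∃ x, goST row.c c x = true

end Chk

open Chk

namespace DMap

variable {D : Type} {M : DMap D} {A : D → Prop} {δ : ZMod 6 → D}

theorem KDem.rotF {F : Flags} {c i : ZMod 6} {p : PState 4} (h : KDem F (i + c) p) :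
    KDem (F.rot c) i p := by
  have e1 : i + 1 + c = i + c + 1 := by ring
  have e2 : i - 1 + c = i + c - 1 := by ring
  refine ⟨h.ee, fun T h1 h2 => h.d0 T h1 h2, fun T h1 => h.d1 T ?_, fun T h1 => h.d3 T ?_,
    fun h1 => h.s0 h1, fun h1 => h.s1 ?_⟩
  · rw [← e1]
    exact h1
  · rw [← e2]
    exact h1
  · rw [← e1]
    exact h1

/-- two quads have at most one common edge -/
theorem CorQ.ks_self [Fintype D] {i : ZMod 6} {q : ZMod 4 → D} (h : M.CorQ A δ i q)
    (hP : M.Patch A δ) (hqd : ∀ d, A d → M.deg d = 4) (hc8 : Nat.card {d // A d} ≠ 8)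
    (κ : (ZMod 6 → D) → ZMod 6 → Prop) : ¬ KS M κ (kδ M δ i q) i := by
  rintro ⟨h1, -⟩
  rw [kδ_i, kδ_i1] at h1
  have hA : ∀ k, A (q k) := h.qA
  have h3 : A (M.al (q 3)) := by
    have := ((h.mem (kδ M δ i q i)).2 ⟨i, rfl⟩).1.1
    rwa [kδ_i] at this
  have hne : ¬ M.SameSite (q 0) (M.al (q 3)) := by
    intro h4
    exact h.nl 3 ((h.num.mem_iff (by decide) _).1 h4)
  have h4 : ∃ d, A d ∧ ¬ (M.SameSite (q 0) d ∨ M.SameSite (M.al (q 3)) d) := by
    by_contra hno
    push Not at hno
    apply hc8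
    have h5 := card_or (B := M.SameSite (q 0)) (C := A) fun d hd => (hP.sites.same hd).1 (hA 0)
    rw [card_site', h.num.deg 0] at h5
    have h6 : Nat.card {d // A d ∧ ¬ M.SameSite (q 0) d} = M.deg (M.al (q 3)) := by
      rw [← card_site' (M := M) (M.al (q 3))]
      refine Nat.card_congr (Equiv.subtypeEquivRight fun d => ⟨fun h7 =>
        (hno d h7.1).resolve_left h7.2, fun h7 => ⟨(hP.sites.same h7).1 h3, fun h8 =>
          hne (h8.trans h7.symm)⟩⟩)
    rw [hqd _ h3] at h6
    omega
  have h5 := hP.share' (hA 0) h3 hne h4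
  rw [h.num.deg 0, hqd _ h3] at h5
  classical
  have h6 : ({q 3, q 2} : Finset D) ⊆
      Finset.univ.filter fun x => M.SameSite (q 0) x ∧ M.SameSite (M.al (q 3)) (M.al x) := by
    intro x hx
    rw [Finset.mem_filter]
    rcases Finset.mem_insert.1 hx with rfl | hx
    · exact ⟨Finset.mem_univ _, h.num.same (by decide) 0 3, Equiv.Perm.SameCycle.refl _ _⟩
    · rw [Finset.mem_singleton.1 hx]
      refine ⟨Finset.mem_univ _, h.num.same (by decide) 0 2, ?_⟩
      rw [← h1]
      exact ⟨1, rfl⟩
  have h7 := Finset.card_le_card h6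
  have h8 : q 3 ≠ q 2 := fun h8 => by
    have := h.num.inj h8
    exact absurd this (by decide)
  rw [Finset.card_pair h8] at h7
  omega

/-- corners are not adjacent -/
theorem Patch.ks_adj [Fintype D] (hP : M.Patch A δ) (hqd : ∀ d, A d → M.deg d = 4)
    (hc8 : Nat.card {d // A d} ≠ 8) (hns : ¬ ∃ r, ∀ e, A e ↔ M.SameSite r e)
    (κ : (ZMod 6 → D) → ZMod 6 → Prop) (j : ZMod 6) (h : KS M κ δ j) : ¬ KS M κ δ (j + 1) := by
  have hA1 : ∃ d, A d ∧ ¬ M.SameSite (δ j) d := by
    by_contra hno
    push Not at hno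
    exact hns ⟨δ j, fun e => ⟨hno e, fun h3 => (hP.sites.same h3).1 (hP.inA _)⟩⟩
  obtain ⟨q, hq⟩ := CorQ.exists_corQ hP.legal hP.bd h.1 (hqd _ (hP.inA j)) hA1 hc8
  exact hq.ks_next κ

/-- **a row of an object with a corner quad at `i`** -/
theorem CorQ.rowS [Fintype D] {T : List SRow} {B : Boxes D} (hO : M.Obj (GoodS T) A δ B) {i : ZMod 6}
    {q : ZMod 4 → D} (h : M.CorQ A δ i q) {σ : Prop}
    (hg : GoodS T (KS M B.κ (kδ M δ i q)) σ
      (Rz M (fun d => A d ∧ ¬ QR q d) (kδ M δ i q) B.β)) {row : SRow} {k : ℕ}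
    (hk : ∀ j, KS M B.κ δ j ↔ on k j = true) (hki : ¬ KS M B.κ (kδ M δ i q) i)
    {x : List Ins} (hx : goK T i k row.c x = true) :
    ∃ a ∈ row.c, Rz M A δ B.β a.F a.S := by
  have hf : FcOk (KS M B.κ (kδ M δ i q)) (fcK i k) := by
    intro p hp
    unfold fcK at hp
    rcases List.mem_cons.1 hp with rfl | hp
    · exact ⟨fun h1 => absurd h1 (by simp), fun h1 => absurd h1 hki⟩
    · obtain ⟨j, hj, rfl⟩ := List.mem_map.1 hp
      rw [List.mem_filter] at hj
      have h1 := hj.2
      simp only [Bool.not_eq_true', Bool.or_eq_false_iff, beq_eq_false_iff_ne] at h1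
      rw [ks_ne h1.1.1 h1.1.2 h1.2]
      exact (hk j).symm
  refine runC_sound (R := fun _ r t => Rz M (fun d => A d ∧ ¬ QR q d) (kδ M δ i q) B.β
    (t.F.rot r) (t.S.rot r)) (Kc := fun _ => KS M B.κ (kδ M δ i q)) hx (fun _ => hg.adj) ?_ ?_ ?_
  · intro c g hg
    match c, hg with
    | 0, hg =>
      simp only [List.getElem?_cons_zero, Option.some.injEq] at hg
      rw [← hg]
      exact hf
    | c + 1, hg => simp at hg
  · intro c f src r s hf hs
    match c, hs with
    | 0, hs => exact hg.clause hf hs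
    | c + 1, hs => simp [clK] at hs
  · intro s t ho hR
    unfold okKT at ho
    split at ho
    · rename_i x
      split at ho
      · rename_i a ha
        have hx := hR 0 x (by simp)
        unfold okK at ho
        simp only [Bool.and_eq_true, Bool.not_eq_true', decide_eq_true_eq, Bool.and_eq_false_iff,
          decide_eq_false_iff_not] at ho
        obtain ⟨⟨⟨⟨h14, h15⟩, h16⟩, h17⟩, h18⟩ := ho
        refine ⟨a, List.mem_of_getElem? ha, ?_⟩
        have h19 := h.rz hO a.ok (flK_le h14) hx (demK_dem ⟨_, _, rfl⟩ h15)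
          (fun k => (rot_inv (stt_inv _ _) _ _).1) (fun k => (rot_inv (stt_inv _ _) _ _).2)
          (fun h20 => h16.elim (fun h21 => h21 h20.1) fun h21 => h21 h20.2) h17
        rwa [eqS_iff.1 h18] at h19
      · simp at ho
    · simp at ho

/-- a star row -/
theorem StarC.row [Fintype D] {q₀ q₂ q₄ : ZMod 4 → D} {c : ZMod 6}
    (h : M.StarC A (fun j => δ (j + c)) q₀ q₂ q₄) {β : (ZMod 6 → D) → Rel} {tg : List Alt}
    {x : ℕ × ℕ × ℕ × ℕ} (hz : goST tg c x = true) : ∃ a ∈ tg, Rz M A δ β a.F a.S := by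
  unfold goST at hz
  split at hz
  · rename_i a ha
    unfold okS at hz
    simp only [Bool.and_eq_true, Bool.not_eq_true', decide_eq_true_eq, Bool.and_eq_false_iff,
      decide_eq_false_iff_not] at hz
    obtain ⟨⟨⟨⟨⟨⟨h1, h2⟩, h3⟩, h4⟩, h5⟩, h6⟩, h7⟩ := hz
    rw [all6_iff] at h4
    simp only [Bool.and_eq_true, decide_eq_true_eq] at h4
    refine ⟨a, List.mem_of_getElem? ha, Rz.unrot h.c0.bd.site (i := c) ?_⟩
    have h8 := h.rz (β := β) (F := a.F.rot c) (p₀ := qc x.2.1) (p₂ := qc x.2.2.1) (p₄ := qc x.2.2.2)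
      (KDem.rotF (by rw [zero_add]; exact demK_dem ⟨_, _, rfl⟩ h1))
      (KDem.rotF (demK_dem ⟨_, _, rfl⟩ h2)) (KDem.rotF (demK_dem ⟨_, _, rfl⟩ h3))
      (fun k => (h4 k).1) (fun k => (h4 k).2)
      (fun h20 => h5.elim (fun h21 => h21 h20.1) fun h21 => h21 h20.2) h6
    rwa [show gk 0 (qc x.2.1) ((p1 (qc x.2.2.1) (qc x.2.2.2)).rot (-1)) = a.S.rot c from
      eqS_iff.1 h7] at h8
  · simp at hz

/-- **a row which fits is realised by stars** -/
theorem Star.rowS [Fintype D] (hP : M.Patch A δ) (hS : Star M A) {κ : (ZMod 6 → D) → ZMod 6 → Prop}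
    {β : (ZMod 6 → D) → Rel} {row : SRow} (hfit : ∀ j, Fit (dg row.k j) (KS M κ δ j))
    (h : ∀ c : ZMod 6, compat row.k (kst c) = true → ∃ x, goST row.c c x = true) :
    ∃ a ∈ row.c, Rz M A δ β a.F a.S := by
  obtain ⟨c, q₀, q₂, q₄, hc⟩ := Star.exists_StarC hP hS
  have h4 : compat row.k (kst c) = true := by
    refine compat_of hfit fun j => ?_
    have h5 := hc.ks κ (j - c)
    rw [KS_rot κ δ c (j - c), sub_add_cancel] at h5
    rw [h5]
    have : ∀ c j : ZMod 6, (j - c = 0 ∨ j - c = 2 ∨ j - c = 4) ↔ on (kst c) j = true := by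
      decide
    exact this c j
  obtain ⟨x, hx⟩ := h c h4
  exact hc.row hx

/-- **the case of a corner quad in the induction step** -/
theorem goodS_of_corner [Fintype D] {T T₀ : List SRow} {X : Boxes D} (hO : M.Obj (GoodS T) A δ X)
    (h14 : Nat.card D ≠ 14) (hns : ¬ ∃ r, ∀ e, A e ↔ M.SameSite r e)
    (IH : IHR (GoodS T) (Nat.card D)) (hqd : ∀ d, A d → M.deg d = 4)
    (hcor : ∃ i, M.nx (δ i) = δ (i + 1) ∧ M.deg (δ i) = 4) (hK : ChkK T T₀) (hS : ChkS T₀) :
    GoodS T₀ (KS M X.κ δ) (StarL M A δ X) (Rz M A δ X.β) := by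
  have hP := hO.patch
  have hc8 : Nat.card {d // A d} ≠ 8 := by
    have h1 := card_add' A
    rw [hP.card_root] at h1
    omega
  have hadj : ∀ c j, KS M X.κ (fun i => δ (i + c)) j → ¬ KS M X.κ (fun i => δ (i + c)) (j + 1) :=
    fun c j => (hP.rotδ c).ks_adj hqd hc8 hns X.κ j
  refine goodS_of hP.sites (hP.ks_adj hqd hc8 hns X.κ) fun c row hr hfit => ?_
  by_cases h1 : Star M A
  · -- a star
    exact Star.rowS (hP.rotδ c) h1 hfit (hS row hr)
  · -- not a star
    obtain ⟨k, hk, hkK⟩ := exists_code _ (hadj c)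
    have hk' : k ∈ codes.tail := by
      unfold codes at hk ⊢
      rcases List.mem_cons.1 hk with rfl | hk
      · exfalso
        obtain ⟨i, hi, hd⟩ := hcor
        have h3 : KS M X.κ (fun i => δ (i + c)) (i - c) := by
          rw [KS_rot, sub_add_cancel]
          exact ⟨hi, Or.inl hd⟩
        have h4 := (hkK _).1 h3
        revert h4
        generalize i - c = m
        revert m
        decide
      · exact hk
    obtain ⟨z, hz⟩ := hK row hr
    obtain ⟨i, hi, x, hx⟩ := goKs_spec _ _ hz k hk' (compat_of hfit hkK)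
    have hKi := (hkK i).2 hi
    have hd : M.deg (δ (i + c)) = 4 := hqd _ (hP.inA _)
    have hA1 : ∃ d, A d ∧ ¬ M.SameSite (δ (i + c)) d := by
      by_contra hno
      push Not at hno
      exact hns ⟨δ (i + c), fun e => ⟨hno e, fun h3 => (hP.sites.same h3).1 (hP.inA _)⟩⟩
    obtain ⟨q, hq⟩ := CorQ.exists_corQ (δ := fun j => δ (j + c)) (i := i) hP.legal
      (BdD.shift hP.bd c) hKi.1 hd hA1 hc8
    have h12 : Nat.card {d // A d} ≠ 12 := by
      intro h12
      apply h1
      refine ⟨h12, fun d hd => ?_⟩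
      have h4 := card_or (B := QR q) (C := A) (by rintro d ⟨k, rfl⟩; exact hq.qA k)
      rw [h12, card_q hq.num] at h4
      by_cases h5 : QR q d
      · obtain ⟨k, rfl⟩ := h5
        exact hq.num.deg k
      · exact two_quads_deg hP.legal hq.sites (by omega) ⟨hd, h5⟩
    exact hq.rowS (hO.rotδ c) (hq.good (hO.rotδ c) (GoodS.mono T) IH hqd h12) hkK
      (hq.ks_self (hP.rotδ c) hqd hc8 X.κ) hx

end DMap

end GT33
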