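import Pool.Agent.GT33.Final

/-!
# GT33 module CHK: tables of clauses in decidable form

`Alt`: an alternative, demands and a state, given by numbers with six decimal digits (digit `j` belongs to the ring
node `j` or the ring edge `j`).  `exists_code`: the sets of ring nodes without two adjacent nodes.
-/

namespace GT33

namespace Chk

/-- the digit `j` of a number with six digits -/
def dg (x : ℕ) (j : ZMod 6) : ℕ := x / 10 ^ (5 - j.val) % 10

/-- the digit `j` is one -/
def on (x : ℕ) (j : ZMod 6) : Bool := dg x j == 1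

/-- the five matchings: isolated corners `0 2 4`, `1 3 5`, `0 3`, `1 4`, `2 5` -/
def mc (m : ℕ) : ℕ :=
  if m = 0 then 103254 else if m = 1 then 521430 else if m = 2 then 105432 else
    if m = 3 then 321054 else 543210

/-- a number as a ring node -/
def nd (x : ℕ) : ZMod 6 := (⟨x % 6, Nat.mod_lt _ (by decide)⟩ : Fin 6)

/-- the state with the matching `m` and the units `u` -/
def stt (m u : ℕ) : PState 6 where
  m j := nd (dg (mc m) j)
  u j := dg u j

/-- the digit `j` is a demand at the ring node `j` -/
def lkd (x : ℕ) (j : ZMod 6) : Bool := dg x j != 0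

/-- the digit `j` is a demand for the ring edge `j` as well -/
def led (x : ℕ) (j : ZMod 6) : Bool := dg x j == 2 || dg x j == 4

/-- the digit `j` is a demand for the ring edge `j + 1` as well -/
def rid (x : ℕ) (j : ZMod 6) : Bool := dg x j == 3 || dg x j == 4

theorem led_lkd {x : ℕ} {j : ZMod 6} (h : led x j = true) : lkd x j = true := by
  unfold led at h
  unfold lkd
  simp only [Bool.or_eq_true, beq_iff_eq] at h
  rcases h with h | h <;> simp [h]

theorem rid_lkd {x : ℕ} {j : ZMod 6} (h : rid x j = true) : lkd x j = true := by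
  unfold rid at h
  unfold lkd
  simp only [Bool.or_eq_true, beq_iff_eq] at h
  rcases h with h | h <;> simp [h]

/-- an alternative: demands of type `R` at the nodes `r`, of type `L` at the nodes `l` (the digits are `0`: no demand;
`1`: for the sites without ring edges; `2`: also for the ring edge `j`; `3`: also for the ring edge `j + 1`; `4`: for all
sites at the node `j`), strict ring edges `s`; the state with the matching `m` and the units `u` -/
structure Alt where
  /-- nodes with the demand R -/
  r : ℕ
  /-- nodes with the demand L -/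
  l : ℕ
  /-- strict ring edges -/
  s : ℕ
  /-- matching -/
  m : ℕ
  /-- units -/
  u : ℕ

/-- the demands of an alternative -/
def Alt.F (a : Alt) : Flags where
  lk j T := lkd (if T = true then a.r else a.l) j = true
  le j T := led (if T = true then a.r else a.l) j = true
  ri j T := rid (if T = true then a.r else a.l) j = true
  st j := on a.s j = true

/-- the state of an alternative -/
def Alt.S (a : Alt) : PState 6 := stt a.m a.u

theorem Alt.ok (a : Alt) : a.F.Ok := ⟨fun _ _ h => led_lkd h, fun _ _ h => rid_lkd h⟩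

theorem Flags.rot_zero (F : Flags) : F.rot 0 = F := by
  ext <;> simp [Flags.rot]

theorem PState.rot_zero {n : ℕ} (s : PState n) : s.rot 0 = s :=
  PState.ext' (fun i => by simp [PState.rot]) fun i => by simp [PState.rot]

/-! ### all ring nodes -/

/-- a test for all ring nodes -/
def all6 (f : ZMod 6 → Bool) : Bool := f 0 && f 1 && f 2 && f 3 && f 4 && f 5

theorem z6 (j : ZMod 6) : j = 0 ∨ j = 1 ∨ j = 2 ∨ j = 3 ∨ j = 4 ∨ j = 5 := by
  revert j
  decide

theorem all6_iff {f : ZMod 6 → Bool} : all6 f = true ↔ ∀ j, f j = true := by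
  unfold all6
  simp only [Bool.and_eq_true]
  constructor
  · rintro ⟨⟨⟨⟨⟨h0, h1⟩, h2⟩, h3⟩, h4⟩, h5⟩ j
    rcases z6 j with rfl | rfl | rfl | rfl | rfl | rfl <;> assumption
  · intro h
    exact ⟨⟨⟨⟨⟨h 0, h 1⟩, h 2⟩, h 3⟩, h 4⟩, h 5⟩

/-- equality of states -/
def eqS (s t : PState 6) : Bool := all6 fun j => decide (s.m j = t.m j) && decide (s.u j = t.u j)

theorem eqS_iff {s t : PState 6} : eqS s t = true ↔ s = t := by
  unfold eqS
  rw [all6_iff]
  constructor
  · intro h
    refine PState.ext' (fun i => ?_) fun i => ?_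
    · have := h i
      simp only [Bool.and_eq_true, decide_eq_true_eq] at this
      exact this.1
    · have := h i
      simp only [Bool.and_eq_true, decide_eq_true_eq] at this
      exact this.2
  · rintro rfl j
    simp

/-- the codes of the sets of ring nodes without two adjacent nodes -/
def codes : List ℕ := [0, 100000, 10000, 1000, 100, 10, 1, 101000, 10100, 1010, 101, 100010, 10001,
  100100, 10010, 1001, 101010, 10101]

theorem exists_code (K : ZMod 6 → Prop) (h : ∀ j, K j → ¬ K (j + 1)) :
    ∃ k ∈ codes, ∀ j, K j ↔ on k j = true := by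
  have hdec : DecidablePred K := fun j => Classical.propDecidable (K j)
  have key : ∀ f : ZMod 6 → Bool, (∀ j, f j = true → f (j + 1) = false) →
      ∃ k ∈ codes, ∀ j, f j = on k j := by
    have : ∀ x0 x1 x2 x3 x4 x5 : Bool, (x0 && x1 || x1 && x2 || x2 && x3 || x3 && x4 || x4 && x5 ||
        x5 && x0) = false → (codes.any fun k => on k 0 == x0 && on k 1 == x1 && on k 2 == x2 &&
        on k 3 == x3 && on k 4 == x4 && on k 5 == x5) = true := by decide
    intro f hf
    have h := this (f 0) (f 1) (f 2) (f 3) (f 4) (f 5) (by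
      have g0 : f 0 = true → f 1 = false := hf 0
      have g1 : f 1 = true → f 2 = false := hf 1
      have g2 : f 2 = true → f 3 = false := hf 2
      have g3 : f 3 = true → f 4 = false := hf 3
      have g4 : f 4 = true → f 5 = false := hf 4
      have g5 : f 5 = true → f 0 = false := hf 5
      revert g0 g1 g2 g3 g4 g5
      cases f 0 <;> cases f 1 <;> cases f 2 <;> cases f 3 <;> cases f 4 <;> cases f 5 <;> simp)
    rw [List.any_eq_true] at h
    obtain ⟨k, hk, h⟩ := h
    simp only [Bool.and_eq_true, beq_iff_eq] at h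
    obtain ⟨⟨⟨⟨⟨h0, h1⟩, h2⟩, h3⟩, h4⟩, h5⟩ := h
    refine ⟨k, hk, fun j => ?_⟩
    rcases z6 j with rfl | rfl | rfl | rfl | rfl | rfl
    · exact h0.symm
    · exact h1.symm
    · exact h2.symm
    · exact h3.symm
    · exact h4.symm
    · exact h5.symm
  obtain ⟨k, hk, h1⟩ := key (fun j => decide (K j)) fun j hj => by
    rw [decide_eq_true_eq] at hj
    exact decide_eq_false (h j hj)
  exact ⟨k, hk, fun j => by rw [← h1 j, decide_eq_true_eq]⟩

end Chk

open Chk Classical

namespace DMap

variable {D : Type} {M : DMap D} {A : D → Prop} {δ : ZMod 6 → D}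

/-- rotating the numbers of the ring darts -/
theorem bd_rot {n : ℕ} {δ : ZMod n → D} (h : M.Bd A n δ) (c : ZMod n) :
    M.Bd A n fun i => δ (i + c) := by
  have e : ∀ i : ZMod n, i + 1 + c = i + c + 1 := fun i => by ring
  refine ⟨h.site, fun i j hij => add_right_cancel (h.inj hij), fun d => ?_, fun i => ?_, fun i => ?_,
    fun i j hij => add_right_cancel (h.nodes hij)⟩
  · rw [h.mem]
    exact ⟨fun ⟨i, hi⟩ => ⟨i - c, by rw [sub_add_cancel]; exact hi⟩, fun ⟨i, hi⟩ => ⟨_, hi⟩⟩
  · rw [e]
    exact h.outw _
  · rw [e]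
    exact h.inw _

theorem Patch.rotδ (h : M.Patch A δ) (c : ZMod 6) : M.Patch A fun i => δ (i + c) :=
  ⟨h.legal, bd_rot h.bd c, h.root⟩

theorem Obj.rotδ {Good : (ZMod 6 → Prop) → Prop → Rel → Prop} {B : Boxes D} (h : M.Obj Good A δ B)
    (c : ZMod 6) : M.Obj Good A (fun i => δ (i + c)) B where
  patch := h.patch.rotδ c
  touch d hd h6 := by
    obtain ⟨j, e, h1, h2⟩ := h.touch d hd h6
    exact ⟨j - c, e, h1, by rw [sub_add_cancel]; exact h2⟩
  anti := h.anti
  rot := h.rot
  krot := h.krot
  good := h.good
  nice := h.nice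

theorem Irr.rotδ (h : M.Irr A δ) (c : ZMod 6) : M.Irr A fun i => δ (i + c) := by
  intro H h1 h2 h3 h4 h5
  obtain ⟨j, d, h6, h7⟩ := h5
  exact h H h1 h2 h3 h4 ⟨_, d, h6, h7⟩

end DMap

end GT33
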