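import Pool.Agent.GT33.TopoC

/-!
# GT33 module HATK: the folded ring has no corners

If a generic patch has no corners at all and all its hexagon sites touch the ring then the folded map has only
quads (besides the root) and no corners: `Gen.hat_quad`, `Gen.hat_no_corner`.
-/

open Classical

namespace GT33

namespace DMap

variable {D : Type} {M : DMap D} {A : D → Prop} {δ : ZMod 6 → D}

open Patch

/-- the cut of a disjoint union -/
theorem cut_union [Fintype D] {B C : D → Prop} (hd : ∀ x, B x → ¬ C x) :
    M.cut (fun x => B x ∨ C x) + 2 * (Finset.univ.filter fun x => B x ∧ C (M.al x)).card =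
      M.cut B + M.cut C := by
  have h2 : (Finset.univ.filter fun x => B x ∧ C (M.al x)).card =
      ∑ x, if B x ∧ C (M.al x) then 1 else 0 := by
    rw [Finset.card_filter]
  have h3 : (Finset.univ.filter fun x => B x ∧ C (M.al x)).card =
      ∑ x, if C x ∧ B (M.al x) then 1 else 0 := by
    rw [Finset.card_filter]
    have hinv : Function.Involutive M.al := M.inv
    refine Fintype.sum_equiv hinv.toPerm _ _ fun x => ?_
    show _ = if C (M.al x) ∧ B (M.al (M.al x)) then 1 else 0
    rw [M.inv]
    by_cases a1 : B x <;> by_cases a2 : C (M.al x) <;> simp [a1, a2]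
  rw [cut_eq_sum, cut_eq_sum, cut_eq_sum, two_mul]
  conv_lhs => rw [h2]
  conv_lhs =>
    enter [2, 2]
    rw [← h2, h3]
  rw [← Finset.sum_add_distrib, ← Finset.sum_add_distrib, ← Finset.sum_add_distrib]
  refine Finset.sum_congr rfl fun x _ => ?_
  have e1 : ¬ (B x ∧ C x) := fun h => hd x h.1 h.2
  have e2 : ¬ (B (M.al x) ∧ C (M.al x)) := fun h => hd _ h.1 h.2
  by_cases a1 : B x <;> by_cases a2 : C x <;>
    by_cases a3 : B (M.al x) <;> by_cases a4 : C (M.al x) <;>
    simp_all

namespace GenT

open Gen

variable [Fintype D] (hG : M.GenT A δ)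

include hG

/-- a quad and another site, one of them at the ring, have at most one common edge -/
theorem share46 {p s x y : D} (h4 : M.deg p = 4)
    (hr : ∃ r, (M.SameSite p r ∨ M.SameSite s r) ∧ Ring M δ r) (hp : A p) (hs : A s)
    (hx : M.SameSite p x) (hy : M.SameSite p y) (hx' : M.SameSite s (M.al x))
    (hy' : M.SameSite s (M.al y)) : x = y := by
  by_contra hxy
  have hne : ¬ M.SameSite p s := fun h => hG.nl x ((hx.symm.trans h).trans hx')
  have hk : 1 < (Finset.univ.filter fun x => M.SameSite p x ∧ M.SameSite s (M.al x)).card := by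
    rw [Finset.one_lt_card]
    exact ⟨x, Finset.mem_filter.2 ⟨Finset.mem_univ _, hx, hx'⟩, y,
      Finset.mem_filter.2 ⟨Finset.mem_univ _, hy, hy'⟩, hxy⟩
  have h5 := hG.share hp hs hne
  have h6 := cut_two hG.legal hne
  have hds : M.deg s = 6 := by
    rcases hG.deg46 s with h | h <;> omega
  have hC : M.Sites fun x => M.SameSite p x ∨ M.SameSite s x :=
    (M.sites_site p).or (M.sites_site s)
  have hCA : ∀ x, M.SameSite p x ∨ M.SameSite s x → A x := by
    rintro x (h | h)
    · exact (hG.toPatch.sites.same h).1 hp
    · exact (hG.toPatch.sites.same h).1 hs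
  have hcut : M.cut (fun x => M.SameSite p x ∨ M.SameSite s x) = 6 := by
    have h7 := hG.legal.cut_even hC
    have h8 := hG.ge4 hC hCA ⟨p, Or.inl (Equiv.Perm.SameCycle.refl _ _)⟩
    omega
  by_cases hex : ∃ d, A d ∧ ¬ (M.SameSite p d ∨ M.SameSite s d)
  · rcases hG.triv _ hC hCA ⟨p, Or.inl (Equiv.Perm.SameCycle.refl _ _)⟩ hex hcut
      hr with ⟨z, hz⟩ | ⟨a, b, ha, hb, hz⟩
    · have k1 := (hz p).1 (Or.inl (Equiv.Perm.SameCycle.refl _ _))
      have k2 := (hz s).1 (Or.inr (Equiv.Perm.SameCycle.refl _ _))
      exact hne (k1.symm.trans k2)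
    · rcases (hz s).1 (Or.inr (Equiv.Perm.SameCycle.refl _ _)) with k | k
      · have := deg_same k
        omega
      · have := deg_same k
        omega
  · push Not at hex
    have hA' : ∀ x, (A x ∧ ¬ M.SameSite s x) ↔ M.SameSite p x := by
      intro x
      constructor
      · rintro ⟨h7, h8⟩
        exact (hex x h7).resolve_right h8
      · intro h7
        exact ⟨hCA x (Or.inl h7), fun h8 => hne (h7.trans h8.symm)⟩
    have hsc : scut δ (M.SameSite p) ≤ 1 := hG.scut_quad1 h4 fun e => Iff.rfl
    have c1 := hG.toPatch.cut_eq (B := M.SameSite p) fun d hd => hCA d (Or.inl hd)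
    have c2 := hG.toPatch.cut_eq (B := M.SameSite s) fun d hd => hCA d (Or.inr hd)
    rw [hG.legal.cut_site, h4] at c1
    rw [hG.legal.cut_site, hds] at c2
    have c3 := hG.toPatch.scut_compl (M.SameSite s)
    have c4 := rcut_compl (M := M) (A := A) (M.SameSite s)
    have c5 : (fun d => A d ∧ ¬ M.SameSite s d) = M.SameSite p := funext fun x =>
      propext (hA' x)
    rw [c5] at c3 c4
    omega

/-- three quads with three common edges do not touch the ring -/
theorem three_quads {p q r x y z : D} (hp4 : M.deg p = 4) (hq4 : M.deg q = 4) (hr4 : M.deg r = 4)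
    (hpA : A p) (hqA : A q) (hrA : A r) (hring : Ring M δ p)
    (hpq : ¬ M.SameSite p q) (hpr : ¬ M.SameSite p r) (hqr : ¬ M.SameSite q r)
    (hx : M.SameSite p x) (hx' : M.SameSite q (M.al x)) (hy : M.SameSite p y)
    (hy' : M.SameSite r (M.al y)) (hz : M.SameSite q z) (hz' : M.SameSite r (M.al z)) : False := by
  have e1 := cut_two hG.legal hpq
  have h1 : 0 < (Finset.univ.filter fun x => M.SameSite p x ∧ M.SameSite q (M.al x)).card :=
    Finset.card_pos.2 ⟨x, Finset.mem_filter.2 ⟨Finset.mem_univ _, hx, hx'⟩⟩
  obtain ⟨n, h2, e2⟩ : ∃ n, 1 < n ∧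
      M.cut (fun x => (M.SameSite p x ∨ M.SameSite q x) ∨ M.SameSite r x) + 2 * n =
        M.cut (fun x => M.SameSite p x ∨ M.SameSite q x) + M.cut (M.SameSite r) := by
    refine ⟨_, ?_, cut_union (M := M) (B := fun x => M.SameSite p x ∨ M.SameSite q x)
      (C := M.SameSite r) ?_⟩
    · rw [Finset.one_lt_card]
      refine ⟨y, ?_, z, ?_, ?_⟩
      · simp only [Finset.mem_filter, Finset.mem_univ, true_and]
        exact ⟨Or.inl hy, hy'⟩
      · simp only [Finset.mem_filter, Finset.mem_univ, true_and]
        exact ⟨Or.inr hz, hz'⟩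
      · rintro rfl
        exact hpq (hy.trans hz.symm)
    · rintro x (h | h) h'
      · exact hpr (h.trans h'.symm)
      · exact hqr (h.trans h'.symm)
  rw [hG.legal.cut_site r] at e2
  have hC : M.Sites fun x => (M.SameSite p x ∨ M.SameSite q x) ∨ M.SameSite r x :=
    ((M.sites_site p).or (M.sites_site q)).or (M.sites_site r)
  have hCA : ∀ x, (M.SameSite p x ∨ M.SameSite q x) ∨ M.SameSite r x → A x := by
    rintro x ((h | h) | h)
    · exact (hG.toPatch.sites.same h).1 hpA
    · exact (hG.toPatch.sites.same h).1 hqA
    · exact (hG.toPatch.sites.same h).1 hrA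
  have hne : ∃ x, (M.SameSite p x ∨ M.SameSite q x) ∨ M.SameSite r x :=
    ⟨p, Or.inl (Or.inl (Equiv.Perm.SameCycle.refl _ _))⟩
  have h4 := hG.ge4 hC hCA hne
  have h5 := hG.legal.cut_even hC
  by_cases hex : ∃ d, A d ∧ ¬ ((M.SameSite p d ∨ M.SameSite q d) ∨ M.SameSite r d)
  · have hcases : M.cut (fun x => (M.SameSite p x ∨ M.SameSite q x) ∨ M.SameSite r x) = 4 ∨
        M.cut (fun x => (M.SameSite p x ∨ M.SameSite q x) ∨ M.SameSite r x) = 6 := by omega
    have kp : (M.SameSite p p ∨ M.SameSite q p) ∨ M.SameSite r p :=
      Or.inl (Or.inl (Equiv.Perm.SameCycle.refl _ _))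
    have kq : (M.SameSite p q ∨ M.SameSite q q) ∨ M.SameSite r q :=
      Or.inl (Or.inr (Equiv.Perm.SameCycle.refl _ _))
    have kr : (M.SameSite p r ∨ M.SameSite q r) ∨ M.SameSite r r :=
      Or.inr (Equiv.Perm.SameCycle.refl _ _)
    rcases hcases with h6 | h6
    · obtain ⟨z, -, hz⟩ := hG.four hC hCA hex h6
      exact hpq (((hz p).1 kp).symm.trans ((hz q).1 kq))
    · rcases hG.triv _ hC hCA hne hex h6 ⟨p, kp, hring⟩ with ⟨z, hz⟩ | ⟨a, b, -, -, hz⟩
      · exact hpq (((hz p).1 kp).symm.trans ((hz q).1 kq))
      · rcases (hz p).1 kp with h7 | h7 <;> rcases (hz q).1 kq with h8 | h8 <;>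
          rcases (hz r).1 kr with h9 | h9
        · exact hpq (h7.symm.trans h8)
        · exact hpq (h7.symm.trans h8)
        · exact hpr (h7.symm.trans h9)
        · exact hqr (h8.symm.trans h9)
        · exact hqr (h8.symm.trans h9)
        · exact hpr (h7.symm.trans h9)
        · exact hpq (h7.symm.trans h8)
        · exact hpq (h7.symm.trans h8)
  · -- all ring edges are in three quads
    push Not at hex
    have key : ∀ k, ∃ c : Fin 3, (c = 0 → M.SameSite p (δ k)) ∧ (c = 1 → M.SameSite q (δ k)) ∧
        (c = 2 → M.SameSite r (δ k)) := by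
      intro k
      rcases hex (δ k) (hG.toPatch.inA k) with (h | h) | h
      · exact ⟨0, fun _ => h, fun h => by simp at h, fun h => by simp at h⟩
      · exact ⟨1, fun h => by simp at h, fun _ => h, fun h => by simp at h⟩
      · exact ⟨2, fun h => by simp at h, fun h => by simp at h, fun _ => h⟩
    choose c hc using key
    have hinj : Function.Injective c := by
      intro k l hkl
      have hk := hc k
      have hl := hc l
      rw [← hkl] at hl
      have h3 : c k = 0 ∨ c k = 1 ∨ c k = 2 := by
        generalize c k = t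
        fin_cases t <;> simp
      rcases h3 with h3 | h3 | h3
      · have a := hk.1 h3
        exact hG.quad_one (by rw [← deg_same a, hp4]) (a.symm.trans (hl.1 h3))
      · have a := hk.2.1 h3
        exact hG.quad_one (by rw [← deg_same a, hq4]) (a.symm.trans (hl.2.1 h3))
      · have a := hk.2.2 h3
        exact hG.quad_one (by rw [← deg_same a, hr4]) (a.symm.trans (hl.2.2 h3))
    have := Fintype.card_le_of_injective c hinj
    simp [ZMod.card] at this

end GenT

namespace Gen

variable [Fintype D] (hG : M.Gen A δ)

include hG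

/-- the last sector of a ring node which is no corner -/
theorem fs_last {i : ZMod 6} (hnc : M.nx (δ i) ≠ δ (i + 1)) :
    FS M A δ (M.fs (M.nx.symm (δ (i + 1)))) := by
  rcases hG.asec (hG.toPatch.prev_in (i + 1)) (hG.toPatch.prev_node i) with h | h
  · exact absurd (by rw [← h, Equiv.apply_symm_apply]) hnc
  · exact h


/-- the edge between the last site of a ring node and the ring edge site before it -/
theorem last_eq {i : ZMod 6} (hnc : M.nx (δ i) ≠ δ (i + 1)) {e : D} (he : FS M A δ e)
    (hn : M.SameNode (M.nx e) (M.al (M.nx.symm (δ (i + 1))))) :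
    M.nx e = M.al (M.nx.symm (δ (i + 1))) := by
  have h1 := hG.fs_last hnc
  have h2 : M.nx (M.fs (M.nx.symm (δ (i + 1)))) = M.al (M.nx.symm (δ (i + 1))) := nx_fs M _
  have h3 := hG.chain he h1 (by rw [h2]; exact hn)
  rw [h3, h2]

section

variable {o : D → Bool} (ho : ∀ d, o (M.nx d) = !o d) (ho' : ∀ d, o (M.al d) = !o d)

/-- the next dart of a site of the folded map -/
theorem hat_nx_cases (x : {d // ¬ FR M (FS M A δ) d}) :
    (¬ FR M (FS M A δ) (M.nx x.1) ∧ ((hG.hat ho ho').nx x).1 = M.nx x.1) ∨
      (FS M A δ (M.nx x.1) ∧ M.deg (M.nx x.1) = 6 ∧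
        ((hG.hat ho ho').nx x).1 = M.nx (M.nx (M.nx x.1))) := by
  by_cases h : FR M (FS M A δ) (M.nx x.1)
  · right
    obtain ⟨h1, h2⟩ := FoldSet.next x.2 h
    have h3 : ¬ FR M (FS M A δ) (M.nx (M.nx (M.nx x.1))) := by
      refine hG.foldSet.stay h1 h2 ((site_nx _).trans (site_nx _)) (hG.ne2 _) ?_
      intro h4
      exact hG.ne1 _ h4
    refine ⟨h1, (hG.deg46 _).resolve_left h2, ?_⟩
    rw [fmap_nx_fold hG.foldSet ho ho' h1 h3]
  · left
    refine ⟨h, ?_⟩
    rw [fmap_nx_of hG.foldSet ho ho' h]

/-- all sites of the folded map are quads -/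
theorem hat_quad (hnc : ∀ i, M.nx (δ i) ≠ δ (i + 1))
    (ht : ∀ d, A d → M.deg d = 6 → ∃ j e, M.SameSite d e ∧ M.SameNode (δ j) e)
    (x : {d // ¬ FR M (FS M A δ) d}) (hx : A x.1) : (hG.hat ho ho').deg x = 4 := by
  by_cases h : ∃ e, FS M A δ e ∧ M.SameSite e x.1
  · obtain ⟨e, he, hs⟩ := h
    exact (hG.hat_deg_fold ho ho' he hs).2
  · push Not at h
    rw [hG.hat_deg_of ho ho' h]
    rcases hG.deg46 x.1 with h4 | h6
    · exact h4
    · exfalso
      obtain ⟨j, e, h1, h2⟩ := ht _ hx h6
      have heA : A e := (hG.toPatch.sites.same h1).1 hx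
      by_cases h3 : ∃ k, e = M.nx.symm (δ k)
      · obtain ⟨k, rfl⟩ := h3
        exact h _ ((hG.fs_or k).resolve_right (hnc k)) ((h1.trans (site_nx_symm _).symm).symm)
      · push Not at h3
        exact h e ⟨heA, ⟨j, h2⟩, h3⟩ h1.symm

end

end Gen

section

namespace GenT

open Gen

variable [Fintype D] (hG : M.GenT A δ) {o : D → Bool} (ho : ∀ d, o (M.nx d) = !o d)
  (ho' : ∀ d, o (M.al d) = !o d)

include hG

/-- the folded map has no corner at a ring node which is no corner -/
theorem hat_no_corner_at {i : ZMod 6} (hnc : M.nx (δ i) ≠ δ (i + 1))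
    (ht : ∀ d, A d → M.deg d = 6 → ∃ j e, M.SameSite d e ∧ M.SameNode (δ j) e) :
    (hG.hat ho ho').nx (hG.hdr i) ≠ hG.hdr (i + 1) := by
  intro h
  have hfs : FS M A δ (δ i) := (hG.fs_or i).resolve_right hnc
  have hv : ((hG.hat ho ho').nx (hG.hdr i)).1 = hd M δ (i + 1) := by rw [h]; rfl
  have hx : (hG.hdr i).1 = hd M δ i := rfl
  have hAδ : ∀ k, A (δ k) := hG.toPatch.inA
  rcases hG.hat_nx_cases ho ho' (hG.hdr i) with ⟨h1, h2⟩ | ⟨h1, h2, h3⟩
  · -- no fold between
    rw [hv, hx] at h2
    rw [hx] at h1
    by_cases h4 : M.deg (δ i) = 4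
    · have hdi : hd M δ i = M.al (M.nx (M.nx (δ i))) := if_pos h4
      rw [hdi] at h1 h2
      have nA : M.SameNode (M.al (M.nx (M.nx (δ i)))) (M.nx (δ i)) := al_node _
      by_cases h4' : M.deg (δ (i + 1)) = 4
      · -- two quads
        have hdi' : hd M δ (i + 1) = M.al (M.nx (M.nx (δ (i + 1)))) := if_pos h4'
        rw [hdi'] at h2
        set u := M.al (M.nx (M.nx (δ i))) with hu
        have hau : M.al u = M.nx (M.nx (δ i)) := by rw [hu, M.inv]
        have hnu : M.al (M.nx u) = M.nx (M.nx (δ (i + 1))) := by rw [← h2, M.inv]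
        have huA : A u := by
          have := hG.hd_A i
          rwa [hdi] at this
        have n1 : M.SameNode u (M.nx (M.nx (δ (i + 1)))) := by
          have := al_node (M := M) u
          rw [hnu] at this
          exact this.symm
        -- the radial edge
        have hrad : M.nx (δ i) = M.al (M.nx.symm (δ (i + 1))) := by
          refine hG.last_eq hnc hfs ?_
          rw [nx_four' h4']
          exact (nA.symm.trans n1).trans (al_node _).symm
        have hrad' : M.al (M.nx (δ i)) = M.nx.symm (δ (i + 1)) := by rw [hrad, M.inv]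
        have hKK : ¬ M.SameSite (δ i) (δ (i + 1)) := fun hs => by
          have := hG.quad_one h4 hs
          exact absurd this (by
            intro h5
            have h6 : (1 : ZMod 6) = 0 := by
              have h7 : i + 0 = i + 1 := by rw [add_zero]; exact h5
              exact (add_left_cancel h7).symm
            exact absurd h6 (by decide))
        have s2 : M.SameSite (δ i) (M.nx (M.nx (δ i))) := (site_nx _).trans (site_nx _)
        have s2' : M.SameSite (δ (i + 1)) (M.nx (M.nx (δ (i + 1)))) :=
          (site_nx _).trans (site_nx _)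
        have hKu : ¬ M.SameSite (δ i) u := fun hs => hG.nl (M.nx (M.nx (δ i))) (s2.symm.trans hs)
        have hKu' : ¬ M.SameSite (δ (i + 1)) u := fun hs =>
          hG.nl (M.nx (M.nx (δ (i + 1)))) (by
            rw [← hnu, M.inv]
            rw [← hnu] at s2'
            exact (s2'.symm.trans hs).trans (site_nx u))
        rcases hG.deg46 u with hu4 | hu6
        · -- three quads
          refine hG.three_quads (p := δ i) (q := δ (i + 1)) (r := u) (x := M.nx (δ i))
            (y := M.nx (M.nx (δ i))) (z := M.nx (M.nx (δ (i + 1)))) h4 h4' hu4 (hAδ _) (hAδ _) huA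
            (ring_δ i) hKK hKu hKu' (site_nx _) ?_ s2 ?_ s2' ?_
          · rw [hrad']
            exact site_nx_symm _
          · exact Equiv.Perm.SameCycle.refl _ _
          · rw [← hnu, M.inv]
            exact site_nx u
        · -- a hexagon at the ring
          obtain ⟨j, f, hf, hj, hs⟩ : ∃ j f, FS M A δ f ∧ M.SameNode (δ j) f ∧
              M.SameSite u f := by
            obtain ⟨j, e, h5, h6⟩ := ht _ huA hu6
            obtain ⟨f, hf, hs⟩ := hG.exists_fs ((hG.toPatch.sites.same h5).1 huA) ⟨j, h6⟩
            obtain ⟨j', hj'⟩ := hf.2.1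
            exact ⟨j', f, hf, hj', h5.trans hs⟩
          have hf6 : M.deg f = 6 := by rw [← deg_same hs, hu6]
          have hfi : ∀ k, M.deg (δ k) = 4 → f ≠ δ k := fun k hk h5 => by
            rw [h5, hk] at hf6
            omega
          have huR : ¬ FR M (FS M A δ) u := by
            have := hG.hd_stay i
            rwa [hdi] at this
          have c0 : u ≠ f := fun h5 => huR (by rw [h5]; exact FoldSet.r0 hf)
          have c1 : u ≠ M.nx f := fun h5 => huR (by rw [h5]; exact FoldSet.r1 hf)
          have c5 : M.nx u ≠ f := fun h5 => h1 (by rw [h5]; exact FoldSet.r0 hf)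
          have hper : (⇑M.nx)^[6] f = f := by
            have h5 := Function.isPeriodicPt_minimalPeriod M.nx f
            unfold DMap.deg at hf6
            rw [hf6] at h5
            exact h5
          have hK1 : M.SameSite f (M.al (M.nx (M.nx (δ i)))) := hs.symm
          have hK2 : M.SameSite f (M.al (M.nx (M.nx (δ (i + 1))))) := by
            rw [h2]
            exact hs.symm.trans (site_nx u)
          obtain ⟨k, hk, hku⟩ := mem_site hs.symm
          rw [hf6] at hk
          have hcase : u = M.nx (M.nx f) ∨ u = M.nx (M.nx (M.nx f)) ∨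
              u = M.nx (M.nx (M.nx (M.nx f))) := by
            interval_cases k
            · exact absurd hku.symm c0
            · exact absurd hku.symm c1
            · exact Or.inl hku.symm
            · exact Or.inr (Or.inl hku.symm)
            · exact Or.inr (Or.inr hku.symm)
            · exact absurd (by rw [← hku]; exact hper) c5
          -- the radial edge of the first quad at the ring node `i - 1`
          have ei : i - 1 + 1 = i := sub_add_cancel i 1
          have g1 : M.SameNode (δ (i - 1)) (M.nx.symm (δ i)) := by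
            have := hG.toPatch.prev_node (i - 1)
            rwa [ei] at this
          have nB : M.SameNode (M.al (M.nx.symm (δ i))) (M.nx (M.nx (δ i))) := by
            rw [nx_four' h4]
            exact al_node _
          rcases hcase with hc | hc | hc
          · -- adjacent on the left
            have h5 : M.SameNode (M.nx f) (M.nx (M.nx (δ i))) := by
              have := al_node (M := M) (M.nx f)
              rw [← hc, hau] at this
              exact this.symm
            have h6 : Cls M A δ (i - 1) (M.nx (M.nx (δ i))) :=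
              ⟨M.nx.symm (δ i), hG.toPatch.prev_in i, g1, nB⟩
            have h7 : j = i - 1 := hG.cls_disj ((hG.cls_nx hf hj).same h5) h6
            have h8 : M.nx f = M.al (M.nx.symm (δ i)) := by
              have hnc' : M.nx (δ (i - 1)) ≠ δ (i - 1 + 1) := fun h9 => by
                have h10 := hG.nc _ h9
                rw [← deg_nx, h9, ei] at h10
                omega
              have := hG.last_eq (i := i - 1) hnc' hf (by
                rw [ei]
                exact h5.trans nB.symm)
              rwa [ei] at this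
            refine hG.ne1 (M.nx (M.nx (δ i))) ?_
            rw [← nx_four' h4]
            refine (hG.share46 (p := δ i) (s := f) h4 ⟨δ i, Or.inl (Equiv.Perm.SameCycle.refl _ _),
              ring_δ i⟩ (hAδ i) hf.1 s2 (site_nx_symm _) hK1 ?_).symm
            rw [← h8]
            exact site_nx f
          · -- opposite
            have t1 : M.SameNode (M.nx (M.nx f)) (M.nx (M.nx (δ i))) := by
              have := al_node (M := M) (M.nx (M.nx f))
              rw [← hc, hau] at this
              exact this.symm
            have harc : Arc M δ [M.al (M.nx.symm (δ i)), M.al (M.nx (M.nx f)), M.al (M.nx f)]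
                (i - 1) j := by
              refine arc_three ?_ ?_ ?_ (hj.trans (al_node f).symm)
              · rw [M.inv]
                exact g1
              · rw [M.inv]
                exact nB.trans t1.symm
              · rw [M.inv]
                exact al_node _
            obtain ⟨B, hB, hBA, hB1, -⟩ := hG.toPatch.exists_arc harc
            have sf2 : M.SameSite f (M.nx (M.nx f)) := (site_nx _).trans (site_nx _)
            have q1 : M.al (M.nx.symm (δ i)) ≠ M.nx f := fun h5 => by
              refine hG.ne1 (M.nx (M.nx (δ i))) ?_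
              rw [← nx_four' h4]
              refine (hG.share46 (p := δ i) (s := f) h4 ⟨δ i, Or.inl (Equiv.Perm.SameCycle.refl _ _),
                ring_δ i⟩ (hAδ i) hf.1 s2 (site_nx_symm _) hK1 ?_).symm
              rw [h5]
              exact site_nx f
            have q2 : M.al (M.nx.symm (δ i)) ≠ M.nx (M.nx f) := fun h5 => by
              refine hG.ne1 (M.nx (M.nx (δ i))) ?_
              rw [← nx_four' h4]
              refine (hG.share46 (p := δ i) (s := f) h4 ⟨δ i, Or.inl (Equiv.Perm.SameCycle.refl _ _),
                ring_δ i⟩ (hAδ i) hf.1 s2 (site_nx_symm _) hK1 ?_).symm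
              rw [h5]
              exact sf2
            have q3 : ∀ {y}, M.SameSite f y → M.nx.symm (δ i) ≠ y := fun {y} hy h5 => by
              rw [← h5] at hy
              have := deg_same (hy.trans (site_nx_symm (δ i)).symm)
              omega
            have w1 : wcnt M [M.al (M.nx.symm (δ i)), M.al (M.nx (M.nx f)), M.al (M.nx f)]
                (M.nx f) = 1 := by
              rw [wcnt_three, ind_false q1, ind_false fun h5 => q3 (site_nx f) (M.al_inj h5),
                ind_false fun h5 => hG.nl (M.nx (M.nx f)) (by rw [h5]; exact (site_nx _).symm),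
                ind_false fun h5 => hG.ne1 _ (M.al_inj h5), ind_false (M.ne _), ind_true rfl]
              decide
            have w2 : wcnt M [M.al (M.nx.symm (δ i)), M.al (M.nx (M.nx f)), M.al (M.nx f)]
                (M.nx (M.nx f)) = 1 := by
              rw [wcnt_three, ind_false q2, ind_false fun h5 => q3 sf2 (M.al_inj h5),
                ind_false (M.ne _), ind_true rfl,
                ind_false fun h5 => hG.nl (M.nx f) (by rw [h5]; exact site_nx _),
                ind_false fun h5 => hG.ne1 _ (M.al_inj h5).symm]
              decide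
            have i1 := hG.fs_inn hf
            have i2 : Inn M A (M.nx (M.nx f)) := hG.inn2 hf
            have hnt : ¬ TrivS A B := fun htr => by
              have h5 := hG.wcnt_zero hBA htr hB1 i1.1 i1.2
              rw [w1] at h5
              revert h5
              decide
            have key : ∃ q, M.deg q = 4 ∧ A q ∧ (∃ k, M.SameSite q (δ k)) ∧
                ∀ x, Inn M A x → ind (B x) + ind (B (M.al x)) = 1 →
                (M.SameSite q x ∨ M.SameSite q (M.al x)) := by
              rcases hG.r3 hB hBA (rcut_le hB1) with htr | ⟨q, hq, hk, hqB⟩ | ⟨q, hq, hk, hqB⟩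
              · exact absurd htr hnt
              · obtain ⟨k, hk⟩ := hk
                refine ⟨q, hq, (hG.toPatch.sites.same hk).2 (hAδ k), ⟨k, hk⟩, fun x hx h5 => ?_⟩
                rw [ind_add', hqB, hqB] at h5
                tauto
              · obtain ⟨k, hk⟩ := hk
                refine ⟨q, hq, (hG.toPatch.sites.same hk).2 (hAδ k), ⟨k, hk⟩, fun x hx h5 => ?_⟩
                rw [ind_add'] at h5
                have h6 := hqB x
                have h7 := hqB (M.al x)
                have h8 := hx.1
                have h9 := hx.2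
                tauto
            obtain ⟨q, hq, hqA, ⟨k, hk⟩, hqs⟩ := key
            have hqf : ¬ M.SameSite q f := fun h5 => by
              have := deg_same h5
              omega
            have k1 := (hqs _ i1 (by rw [hB1 _ i1.1 i1.2, w1])).resolve_left fun h5 =>
              hqf (h5.trans (site_nx f).symm)
            have k2 := (hqs _ i2 (by rw [hB1 _ i2.1 i2.2, w2])).resolve_left fun h5 =>
              hqf (h5.trans sf2.symm)
            have h6 := hG.share46 (p := q) (s := f) hq ⟨δ k, Or.inl hk, ring_δ k⟩ hqA hf.1 k1 k2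
              (by rw [M.inv]; exact site_nx f) (by rw [M.inv]; exact sf2)
            exact hG.ne1 _ (M.al_inj h6).symm
          · -- adjacent on the right
            have h5 : M.nx u = M.nx.symm f := by
              rw [Equiv.eq_symm_apply, hc]
              exact hper
            have n3 : M.SameNode (M.nx u) (M.nx (δ (i + 1))) := by
              rw [← h2]
              exact al_node _
            have h6 : Cls M A δ (i + 1) (M.nx (δ (i + 1))) :=
              hG.cls_nx (hG.fs_quad h4') (Equiv.Perm.SameCycle.refl _ _)
            have h7 : Cls M A δ j (M.nx.symm f) := hG.cls_nx_symm hf.1 hj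
            rw [← h5] at h7
            have h8 : j = i + 1 := hG.cls_disj (h7.same n3) h6
            subst h8
            rcases hG.asec hf.1 hj with h9 | h9
            · exact hfi _ h4' h9
            · have h10 : M.nx (M.fs f) = M.al f := nx_fs M f
              have h11 := hG.chain (hG.fs_quad h4') h9 (by
                rw [h10]
                refine n3.symm.trans ?_
                rw [h5]
                exact (nx_symm_node f).symm)
              have h12 : M.nx (δ (i + 1)) = M.al f := by rw [h11, h10]
              refine hG.ne1 (M.nx (δ (i + 1))) (hG.share46 (p := δ (i + 1)) (s := f) h4'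
                ⟨f, Or.inr (Equiv.Perm.SameCycle.refl _ _), hf.2.1⟩ (hAδ _) hf.1 s2'
                (site_nx _) hK2 ?_)
              rw [h12, M.inv]
      · -- a quad and a hexagon
        have hdi' : hd M δ (i + 1) = M.nx.symm (δ (i + 1)) := if_neg h4'
        rw [hdi'] at h2
        have h5 : M.al (M.nx.symm (δ (i + 1))) = M.nx (δ i) := by
          refine (hG.last_eq hnc hfs ?_).symm
          have h6 := al_node (M := M) (M.al (M.nx (M.nx (δ i))))
          rw [← h2] at h6
          exact nA.symm.trans h6.symm
        refine hG.ne1 (M.nx (δ i)) (hG.share46 (p := δ i) (s := δ (i + 1)) h4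
          ⟨δ i, Or.inl (Equiv.Perm.SameCycle.refl _ _), ring_δ i⟩ (hAδ _) (hAδ _)
          ((site_nx _).trans (site_nx _)) (site_nx _) ?_ ?_)
        · have h6 : M.SameSite (M.al (M.nx (M.nx (δ i)))) (M.nx.symm (δ (i + 1))) := by
            rw [h2]
            exact site_nx _
          exact (site_nx_symm _).trans h6.symm
        · rw [← h5, M.inv]
          exact site_nx_symm _
    · -- a hexagon: its first dart is a fold sector
      have hdi : hd M δ i = M.nx.symm (δ i) := if_neg h4
      rw [hdi, Equiv.apply_symm_apply] at h1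
      exact h1 (FoldSet.r0 hfs)
  · rw [hv, hx] at h3
    rw [hx] at h1 h2
    by_cases h4 : M.deg (δ i) = 4
    · have hdi : hd M δ i = M.al (M.nx (M.nx (δ i))) := if_pos h4
      rw [hdi] at h1 h2 h3
      have nA : M.SameNode (M.al (M.nx (M.nx (δ i)))) (M.nx (δ i)) := al_node _
      set u := M.al (M.nx (M.nx (δ i))) with hu
      have s2 : M.SameSite (δ i) (M.nx (M.nx (δ i))) := (site_nx _).trans (site_nx _)
      obtain ⟨j, hj⟩ := h1.2.1
      have h5 : Cls M A δ j u := by
        have := hG.cls_nx_symm h1.1 hj
        rwa [Equiv.symm_apply_apply] at this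
      have h6 : Cls M A δ i (M.nx (δ i)) := hG.cls_nx hfs (Equiv.Perm.SameCycle.refl _ _)
      have h7 : j = i := hG.cls_disj (h5.same nA) h6
      subst h7
      rcases hG.asec h1.1 hj with h8 | h8
      · rw [h8, h4] at h2
        omega
      · have h9 : M.nx (M.fs (M.nx u)) = M.al (M.nx u) := nx_fs M _
        have h10 := hG.chain hfs h8 (by
          rw [h9]
          exact nA.symm.trans (al_node u).symm)
        have h11 : M.nx (δ j) = M.al (M.nx u) := by rw [h10, h9]
        refine hG.ne1 (M.nx (δ j)) (hG.share46 (p := δ j) (s := M.nx u) h4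
          ⟨δ j, Or.inl (Equiv.Perm.SameCycle.refl _ _), ring_δ j⟩ (hAδ _) h1.1 s2 (site_nx _)
          ?_ ?_)
        · rw [← hu]
          exact (site_nx u).symm
        · rw [h11, M.inv]
    · have hdi : hd M δ i = M.nx.symm (δ i) := if_neg h4
      rw [hdi, Equiv.apply_symm_apply] at h1 h2 h3
      by_cases h4' : M.deg (δ (i + 1)) = 4
      · have hdi' : hd M δ (i + 1) = M.al (M.nx (M.nx (δ (i + 1)))) := if_pos h4'
        rw [hdi'] at h3
        have h5 : M.nx (δ i) = M.al (M.nx.symm (δ (i + 1))) := by
          refine hG.last_eq hnc hfs ?_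
          rw [nx_four' h4']
          have h6 := al_node (M := M) (M.nx (δ i))
          rw [← h3, M.inv] at h6
          exact h6.symm.trans (al_node _).symm
        refine hG.ne1 (M.nx (M.nx (δ (i + 1)))) ?_
        rw [← nx_four' h4']
        refine (hG.share46 (p := δ (i + 1)) (s := δ i) h4'
          ⟨δ i, Or.inr (Equiv.Perm.SameCycle.refl _ _), ring_δ i⟩ (hAδ _) (hAδ _)
          ((site_nx _).trans (site_nx _)) (site_nx_symm _) ?_ ?_).symm
        · rw [h3]
          exact (site_nx _).trans (site_nx _)
        · rw [← h5]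
          exact site_nx _
      · have hdi' : hd M δ (i + 1) = M.nx.symm (δ (i + 1)) := if_neg h4'
        rw [hdi'] at h3
        refine hG.fs2 hfs ?_
        rw [← h3]
        exact hG.toPatch.ring_prev _

/-- **the folded map has no corners** -/
theorem hat_no_corner (hnc : ∀ i, M.nx (δ i) ≠ δ (i + 1))
    (ht : ∀ d, A d → M.deg d = 6 → ∃ j e, M.SameSite d e ∧ M.SameNode (δ j) e) (i : ZMod 6) :
    (hG.hat ho ho').nx (hG.hdr i) ≠ hG.hdr (i + 1) :=
  hG.hat_no_corner_at ho ho' (hnc i) ht

end GenT

end

end DMap

end GT33
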