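import Pool.Agent.GT33.Obj

/-!
# GT33 module OBJIND: reduction of the cuts with six darts which touch the ring

`Obj.induction`: to prove that all objects (mixed patches with boxes) are good it suffices to do this for
irreducible objects: every proper set of sites with a cut of six darts which touches the ring is a single
site or has eight darts (two quads).
-/

open Classical

namespace GT33

namespace DMap

variable {D : Type} {M : DMap D}

/-! ### the inside of a region -/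

section inside

variable {H : D → Prop} {δ₀ : ZMod 6 → D} {D' : Type} {M' : DMap D'}
  {ι : D' → D} {δ' : ZMod 6 → D'}

/-- the boxes of a sub-map -/
def _root_.GT33.Boxes.pull (B : Boxes D) (ι : D' → D) : Boxes D' where
  β γ := B.β fun i => ι (γ i)
  κ γ := B.κ fun i => ι (γ i)
  σ γ := B.σ fun i => ι (γ i)

theorem IsCtr.siteNum (h : M.IsCtr (fun d => ¬ H d) M' ι) {n : ℕ} {γ : ZMod n → D'}
    (hγ : M'.SiteNum n γ) (hγH : ∀ i, H (ι (γ i))) : M.SiteNum n fun i => ι (γ i) :=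
  ⟨fun x y hxy => hγ.inj (h.inj hxy), fun j => by rw [← hγ.nx, h.nx _ (not_not.2 (hγH j))]⟩

theorem IsCtr.siteNum' (h : M.IsCtr (fun d => ¬ H d) M' ι) {n : ℕ} {γ : ZMod n → D'}
    (hγ : M.SiteNum n fun i => ι (γ i)) (hγH : ∀ i, H (ι (γ i))) : M'.SiteNum n γ := by
  refine ⟨fun x y hxy => hγ.inj (congrArg ι hxy), fun j => h.inj ?_⟩
  rw [h.nx _ (not_not.2 (hγH j))]
  exact hγ.nx j

theorem IsCtr.deg [Finite D] [Finite D'] (h : M.IsCtr (fun d => ¬ H d) M' ι) {x : D'} (hx : H (ι x)) :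
    M'.deg x = M.deg (ι x) := by
  obtain ⟨γ, hγ, h0, hn⟩ := M'.exists_siteNum x
  have hs : M'.Sites fun e => H (ι e) := fun e => not_iff_not.1 (h.site e)
  have hγH : ∀ i, H (ι (γ i)) := fun i => (hs.same (hγ.same hn 0 i)).1 (by rw [h0]; exact hx)
  have h1 := (h.siteNum hγ hγH).deg 0
  rw [h0] at h1
  exact h1.symm

/-- numberings of sites of the region -/
theorem IsCtr.exists_num (h : M.IsCtr (fun d => ¬ H d) M' ι) {n : ℕ} {γ : ZMod n → D}
    (hγ : M.SiteNum n γ) (hγH : ∀ i, H (γ i)) : ∃ γ' : ZMod n → D', (∀ i, ι (γ' i) = γ i) ∧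
      M'.SiteNum n γ' := by
  have h1 : ∀ i, ∃ x, ι x = γ i := fun i => (h.range _).2 (Or.inl (not_not.2 (hγH i)))
  choose γ' hγ' using h1
  refine ⟨γ', hγ', h.siteNum' ?_ fun i => by rw [hγ']; exact hγH i⟩
  have : (fun i => ι (γ' i)) = γ := funext hγ'
  rw [this]
  exact hγ

theorem KS_inside [Finite D] [Finite D'] (h : M.IsCtr (fun d => ¬ H d) M' ι) (hb : M.Bd H 6 δ₀)
    (hδ : ∀ i, ι (δ' i) = δ₀ i) (κ : (ZMod 6 → D) → ZMod 6 → Prop) (j : ZMod 6) :
    KS M' (fun γ => κ fun i => ι (γ i)) δ' j ↔ KS M κ δ₀ j := by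
  have hH : ∀ j, H (ι (δ' j)) := fun j => by rw [hδ]; exact bd_mem hb j
  unfold KS
  refine and_congr ?_ (or_congr ?_ ?_)
  · rw [← h.inj.eq_iff, h.nx _ (not_not.2 (hH j)), hδ, hδ]
  · rw [h.deg (hH j), hδ]
  · constructor
    · rintro ⟨γ, a, h1, h2, h3⟩
      have hs : M'.Sites fun e => H (ι e) := fun e => not_iff_not.1 (h.site e)
      have hγH : ∀ i, H (ι (γ i)) := fun i => (hs.same (h1.same (by decide) a i)).1 (by
        rw [h2]; exact hH j)
      exact ⟨fun i => ι (γ i), a, h.siteNum h1 hγH, by rw [← hδ, ← h2], h3⟩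
    · rintro ⟨γ, a, h1, h2, h3⟩
      have hγH : ∀ i, H (γ i) := fun i => (Sites.same (M := M) hb.site (h1.same (by decide) a i)).1
        (by rw [h2]; exact bd_mem hb j)
      obtain ⟨γ', h4, h5⟩ := h.exists_num h1 hγH
      refine ⟨γ', a, h5, h.inj (by rw [h4, hδ, h2]), ?_⟩
      have : (fun i => ι (γ' i)) = γ := funext h4
      show κ (fun i => ι (γ' i)) a
      rw [this]
      exact h3

theorem card_inside (h : M.IsCtr (fun d => ¬ H d) M' ι) :
    Nat.card {x // H (ι x)} = Nat.card {d // H d} := by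
  refine Nat.card_congr (Equiv.ofBijective (fun x => ⟨ι x.1, x.2⟩) ⟨fun x y hxy => ?_, ?_⟩)
  · exact Subtype.ext (h.inj (congrArg Subtype.val hxy))
  · rintro ⟨d, hd⟩
    obtain ⟨x, rfl⟩ := (h.range d).2 (Or.inl (not_not.2 hd))
    exact ⟨⟨x, hd⟩, rfl⟩

theorem Star_inside [Finite D] [Finite D'] (h : M.IsCtr (fun d => ¬ H d) M' ι) :
    Star M' (fun x => H (ι x)) ↔ Star M H := by
  unfold Star
  rw [card_inside h]
  refine and_congr_right fun _ => ⟨fun h1 d hd => ?_, fun h1 x hx => ?_⟩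
  · obtain ⟨x, rfl⟩ := (h.range d).2 (Or.inl (not_not.2 hd))
    rw [← h.deg hd]
    exact h1 x hd
  · rw [h.deg hx]
    exact h1 _ hx

theorem Rz_inside [Fintype D] [Fintype D'] (h : M.IsCtr (fun d => ¬ H d) M' ι) (hδ : ∀ i, ι (δ' i) = δ₀ i)
    {β : (ZMod 6 → D) → Rel} {F : Flags} {t : PState 6}
    (hR : Rz M' (fun x => H (ι x)) δ' (fun γ => β fun i => ι (γ i)) F t) : Rz M H δ₀ β F t := by
  obtain ⟨μ', ω', hR⟩ := hR
  exact RealL.of_inside h (fun n γ t _ hL => OL_map h.inj h.node hδ (fun _ _ _ _ hβ => hβ) hL) hδ hR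

theorem single_inside [Finite D] [Finite D'] (h : M.IsCtr (fun d => ¬ H d) M' ι) (hH : M.Sites H)
    (hs : ∃ r, ∀ e, (fun x => H (ι x)) e ↔ M'.SameSite r e) : ∃ r, ∀ e, H e ↔ M.SameSite r e := by
  obtain ⟨r, hr⟩ := hs
  have hrH : H (ι r) := (hr r).2 (Equiv.Perm.SameCycle.refl _ _)
  refine ⟨ι r, fun e => ⟨fun he => ?_, fun he => (hH.same he).1 hrH⟩⟩
  obtain ⟨x, rfl⟩ := (h.range e).2 (Or.inl (not_not.2 he))
  obtain ⟨γ, hγ, h0, hn⟩ := M'.exists_siteNum r
  have hs : M'.Sites fun e => H (ι e) := fun e => not_iff_not.1 (h.site e)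
  have hγH : ∀ i, H (ι (γ i)) := fun i => (hs.same (hγ.same hn 0 i)).1 (by rw [h0]; exact hrH)
  obtain ⟨j, hj⟩ := hγ.mem (i := 0) (d := x) (by rw [h0]; exact (hr x).1 he)
  have h1 := (h.siteNum hγ hγH).same hn 0 j
  rw [h0, hj] at h1
  exact h1

end inside

/-! ### the contraction of a region -/

section contr

/-- the boxes of the contracted map -/
noncomputable def _root_.GT33.Boxes.contr [Fintype D] {D' : Type} (B : Boxes D) (M : DMap D)
    (H : D → Prop) (ι : D' → D) : Boxes D' where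
  β γ := if H (ι (γ 0)) then fun F t => Nice t ∧ Rz M H (fun i => ι (γ i)) B.β F t else
    B.β fun i => ι (γ i)
  κ γ := if H (ι (γ 0)) then KS M B.κ (fun i => ι (γ i)) else B.κ fun i => ι (γ i)
  σ γ := if H (ι (γ 0)) then Star M H else B.σ fun i => ι (γ i)

end contr

/-- the star label -/
def StarL (M : DMap D) (A : D → Prop) (δ : ZMod 6 → D) (B : Boxes D) : Prop :=
  Star M A ∨ ((∃ r, ∀ e, A e ↔ M.SameSite r e) ∧ B.σ δ)

/-- the induction hypothesis for patches of quads -/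
def IHR (Good : (ZMod 6 → Prop) → Prop → Rel → Prop) (n : ℕ) : Prop :=
  ∀ (D' : Type) [Fintype D'] (M' : DMap D') (A' : D' → Prop) (δ' : ZMod 6 → D') (B' : Boxes D'),
    M'.Obj Good A' δ' B' → (∀ d, A' d → M'.deg d = 4) → Nat.card D' ≠ 14 → Nat.card D' < n →
    Good (KS M' B'.κ δ') (StarL M' A' δ' B') (Rz M' A' δ' B'.β)

/-- irreducible patches -/
def Irr (M : DMap D) (A : D → Prop) (δ : ZMod 6 → D) : Prop :=
  ∀ H : D → Prop, M.Sites H → (∀ d, H d → A d) → (∃ d, A d ∧ ¬ H d) → M.cut H = 6 →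
    (∃ j d, H d ∧ M.SameNode (δ j) d) →
    (∃ r, ∀ e, H e ↔ M.SameSite r e) ∨ Nat.card {d // H d} = 8

section

variable {Good : (ZMod 6 → Prop) → Prop → Rel → Prop}

/-- the sub-object of a region -/
theorem Obj.inside [Fintype D] {A H : D → Prop} {δ δ₀ : ZMod 6 → D} {B : Boxes D}
    (hO : M.Obj Good A δ B) (hb : M.Bd H 6 δ₀) (hHA : ∀ d, H d → A d) :
    ∃ (η : ZMod 6 → D) (hη : M.Bd (fun d => ¬ H d) 6 η)
      (δ' : ZMod 6 → Out (fun d => ¬ H d) 6), (∀ i, cemb η (δ' i) = δ₀ i) ∧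
      (M.contr hη).Obj Good (fun x => H (cemb η x)) δ' (B.pull (cemb η)) := by
  obtain ⟨η, hη, δ', hδ', hP'⟩ := hO.patch.legal.inside hb
  have h := contr_isCtr hη
  have hs : (M.contr hη).Sites fun e => H (cemb η e) := fun e => not_iff_not.1 (h.site e)
  have hall : ∀ γ : ZMod 6 → Out (fun d => ¬ H d) 6, (M.contr hη).SiteNum 6 γ → H (cemb η (γ 0)) →
      ∀ i, H (cemb η (γ i)) := fun γ hγ h0 i => (hs.same (hγ.same (by decide) 0 i)).1 h0
  refine ⟨η, hη, δ', hδ', hP', ?_, ?_, ?_, ?_, ?_, ?_⟩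
  · intro x hx hd
    have hd' : M.deg (cemb η x) = 6 := by rw [← h.deg hx]; exact hd
    obtain ⟨j, e, h1, h2⟩ := hO.touch _ (hHA _ hx) hd'
    have heH : H e := (Sites.same (M := M) hb.site h1).1 hx
    obtain ⟨k, hk⟩ := ring_of_region hO.patch hb hHA h2 heH
    obtain ⟨y, hy⟩ := (h.range e).2 (Or.inl (not_not.2 heH))
    refine ⟨k, y, ?_, by rw [h.node, hδ', hy]; exact hk⟩
    obtain ⟨γ, hγ, h0, hn⟩ := (M.contr hη).exists_siteNum x
    have hγH : ∀ i, H (cemb η (γ i)) := fun i => (hs.same (hγ.same hn 0 i)).1 (by rw [h0]; exact hx)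
    obtain ⟨j, hj⟩ := (h.siteNum hγ hγH).mem (i := 0) (d := e) (by rw [h0]; exact h1)
    have h3 := hγ.same hn 0 j
    rw [h0, h.inj (hj.trans hy.symm)] at h3
    exact h3
  · intro γ F G t hγ h0 hFG hβ
    exact hO.anti _ F G t (h.siteNum hγ (hall γ hγ h0)) (hHA _ h0) hFG hβ
  · intro γ F t c hγ h0 hβ
    exact hO.rot _ F t c (h.siteNum hγ (hall γ hγ h0)) (hHA _ h0) hβ
  · intro γ a c hγ h0
    exact hO.krot _ a c (h.siteNum hγ (hall γ hγ h0)) (hHA _ h0)
  · intro γ hγ h0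
    exact hO.good _ (h.siteNum hγ (hall γ hγ h0)) (hHA _ h0)
  · intro γ F t hγ h0 hβ
    exact hO.nice _ F t (h.siteNum hγ (hall γ hγ h0)) (hHA _ h0) hβ

/-- the contracted object -/
theorem Obj.contr [Fintype D] {A H : D → Prop} {δ δ₀ : ZMod 6 → D} {B : Boxes D}
    (hO : M.Obj Good A δ B) (hb : M.Bd H 6 δ₀) (hHA : ∀ d, H d → A d)
    (ht : ∃ j d, H d ∧ M.SameNode (δ j) d)
    (hgood : ∀ c : ZMod 6, Good (KS M B.κ fun i => δ₀ (i + c)) (Star M H)
      (fun F t => Nice t ∧ Rz M H (fun i => δ₀ (i + c)) B.β F t)) :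
    ∃ δ' : ZMod 6 → Out H 6, (∀ i, cemb δ₀ (δ' i) = δ i) ∧
      (M.contr hb).Obj Good (fun x => A (cemb δ₀ x)) δ' (B.contr M H (cemb δ₀)) := by
  obtain ⟨δ', hδ', hP'⟩ := hO.patch.contr hb hHA
  have h := contr_isCtr hb
  have hs : (M.contr hb).Sites fun e => H (cemb δ₀ e) := h.site
  -- numberings of the old sites
  have hold : ∀ γ : ZMod 6 → Out H 6, (M.contr hb).SiteNum 6 γ → ¬ H (cemb δ₀ (γ 0)) →
      M.SiteNum 6 fun i => cemb δ₀ (γ i) := by
    intro γ hγ h0
    have hall : ∀ i, ¬ H (cemb δ₀ (γ i)) := fun i h1 =>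
      h0 ((hs.same (hγ.same (by decide) 0 i)).2 h1)
    exact ⟨fun x y hxy => hγ.inj (h.inj hxy), fun j => by rw [← hγ.nx, h.nx _ (hall j)]⟩
  -- numberings of the new site
  have hnew : ∀ γ : ZMod 6 → Out H 6, (M.contr hb).SiteNum 6 γ → H (cemb δ₀ (γ 0)) →
      ∃ c, (fun i => cemb δ₀ (γ i)) = fun i => δ₀ (i + c) := by
    intro γ hγ h0
    have hall : ∀ i, H (cemb δ₀ (γ i)) := fun i => (hs.same (hγ.same (by decide) 0 i)).1 h0
    obtain ⟨c, hc⟩ := Patch.siteNum_contr hb hγ hall rfl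
    exact ⟨c, funext hc⟩
  refine ⟨δ', hδ', hP', ?_, ?_, ?_, ?_, ?_, ?_⟩
  · rintro (⟨d, hd⟩ | i) hx hdeg
    · rw [contr_deg_inl] at hdeg
      obtain ⟨j, e, h1, h2⟩ := hO.touch d hx hdeg
      have he : ¬ H e := fun h3 => hd ((Sites.same (M := M) hb.site h1).2 h3)
      refine ⟨j, .inl ⟨e, he⟩, ?_, ?_⟩
      · rw [contr_sameSite_inl]
        exact h1
      · rw [h.node, hδ']
        exact h2
    · obtain ⟨j, e, h1, h2⟩ := ht
      obtain ⟨k, hk⟩ := ring_of_region hO.patch hb hHA h2 h1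
      refine ⟨j, .inr k, contr_sameSite_inr hb i k, ?_⟩
      rw [h.node, hδ']
      exact h2.trans hk.symm
  · intro γ F G t hγ h0 hFG hβ
    by_cases h1 : H (cemb δ₀ (γ 0))
    · simp only [Boxes.contr, if_pos h1] at hβ ⊢
      exact ⟨hβ.1, Rz.le hO.anti hb.site hHA hFG hβ.2⟩
    · simp only [Boxes.contr, if_neg h1] at hβ ⊢
      exact hO.anti _ F G t (hold γ hγ h1) h0 hFG hβ
  · intro γ F t c hγ h0 hβ
    have hc : H (cemb δ₀ (γ (0 + c))) ↔ H (cemb δ₀ (γ 0)) :=
      (hs.same (hγ.same (by decide) 0 (0 + c))).symm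
    by_cases h1 : H (cemb δ₀ (γ 0))
    · simp only [Boxes.contr, if_pos h1, if_pos (hc.2 h1)] at hβ ⊢
      exact ⟨hβ.1.rot c, Rz.rot hb.site c hβ.2⟩
    · simp only [Boxes.contr, if_neg h1, if_neg fun h2 => h1 (hc.1 h2)] at hβ ⊢
      exact hO.rot _ F t c (hold γ hγ h1) h0 hβ
  · intro γ a c hγ h0
    have hc : H (cemb δ₀ (γ (0 + c))) ↔ H (cemb δ₀ (γ 0)) :=
      (hs.same (hγ.same (by decide) 0 (0 + c))).symm
    by_cases h1 : H (cemb δ₀ (γ 0))
    · simp only [Boxes.contr, if_pos h1, if_pos (hc.2 h1)]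
      exact KS_rot B.κ (fun i => cemb δ₀ (γ i)) c a
    · simp only [Boxes.contr, if_neg h1, if_neg fun h2 => h1 (hc.1 h2)]
      exact hO.krot _ a c (hold γ hγ h1) h0
  · intro γ hγ h0
    by_cases h1 : H (cemb δ₀ (γ 0))
    · simp only [Boxes.contr, if_pos h1]
      obtain ⟨c, hc⟩ := hnew γ hγ h1
      rw [hc]
      exact hgood c
    · simp only [Boxes.contr, if_neg h1]
      exact hO.good _ (hold γ hγ h1) h0
  · intro γ F t hγ h0 hβ
    by_cases h1 : H (cemb δ₀ (γ 0))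
    · simp only [Boxes.contr, if_pos h1] at hβ
      exact hβ.1
    · simp only [Boxes.contr, if_neg h1] at hβ
      exact hO.nice _ F t (hold γ hγ h1) h0 hβ

/-- states of the contracted object are states of the object -/
theorem Rz_contr [Fintype D] {A H : D → Prop} {δ δ₀ : ZMod 6 → D} {B : Boxes D}
    (hO : M.Obj Good A δ B) (hb : M.Bd H 6 δ₀) (hHA : ∀ d, H d → A d)
    {δ' : ZMod 6 → Out H 6} (hδ' : ∀ i, cemb δ₀ (δ' i) = δ i)
    (hP' : (M.contr hb).Patch (fun x => A (cemb δ₀ x)) δ') {F : Flags} (hF : F.Ok) {s : PState 6}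
    (hR : Rz (M.contr hb) (fun x => A (cemb δ₀ x)) δ' (B.contr M H (cemb δ₀)).β F s) :
    Rz M A δ B.β F s := by
  obtain ⟨μ', ω', hR⟩ := hR
  have h := contr_isCtr hb
  refine hR.glue (L := M.OL δ B.β F) hb.site hHA h (x₀ := .inr 0) (bd_mem hb 0) ?_ ?_ ?_ ?_ hP'.sites hδ'
  · rintro (⟨e, he⟩ | i) hx
    · exact absurd hx he
    · exact contr_sameSite_inr hb 0 i
  · rintro (⟨e, he⟩ | i) (⟨f, hf⟩ | j) h2 h3 h4
    · exact absurd h2 he
    · exact absurd h2 he
    · exact absurd h3 hf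
    · rw [cemb_inr, cemb_inr] at h4
      rw [nodes_inj hb h4]
  · intro n γ t hn hγ hγH hL
    have hn6 : n = 6 := by
      have h5 := hγ.deg 0
      rcases h6 : γ 0 with ⟨e, he⟩ | j
      · have h7 := hγH 0
        rw [h6] at h7
        exact absurd h7 he
      · rw [h6, contr_deg_inr] at h5
        exact h5.symm
    subst hn6
    have hL' : (B.contr M H (cemb δ₀)).β γ ((M.contr hb).res δ' F γ) t := hL
    simp only [Boxes.contr, if_pos (hγH 0)] at hL'
    rw [← res_map (M := M) h.inj h.node hδ'] at hL'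
    obtain ⟨c, hc⟩ := Patch.siteNum_contr hb hγ hγH rfl
    have hc' : (fun i => cemb δ₀ (γ i)) = fun i => δ₀ (i + c) := funext hc
    have hbc : M.Bd H 6 (fun i => cemb δ₀ (γ i)) := by
      rw [hc']
      exact BdD.shift hb c
    obtain ⟨-, μ, ω, hr⟩ := hL'
    exact ⟨μ, ω, hr.mono hb.site fun n η t _ hη hηH _ hL =>
      OL_of_region hO.patch hbc hHA hF hO.anti hη hηH hL⟩
  · intro n γ t hn hγ hγA hγH hL
    refine OL_map h.inj h.node hδ' (fun η hη G r hβ => ?_) hL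
    obtain ⟨k, hk⟩ := hη 0
    have h1 : ¬ H (cemb δ₀ (η 0)) := by rw [hk]; exact hγH k
    simp only [Boxes.contr, if_neg h1] at hβ
    exact hβ

/-- the corner set of the contracted object -/
theorem KS_contr [Fintype D] {A H : D → Prop} {δ δ₀ : ZMod 6 → D} {B : Boxes D}
    (hO : M.Obj Good A δ B) (hb : M.Bd H 6 δ₀) (hHA : ∀ d, H d → A d)
    {δ' : ZMod 6 → Out H 6} (hδ' : ∀ i, cemb δ₀ (δ' i) = δ i) (j : ZMod 6) :
    KS (M.contr hb) (B.contr M H (cemb δ₀)).κ δ' j ↔ KS M B.κ δ j := by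
  have h := contr_isCtr hb
  have hs : (M.contr hb).Sites fun e => H (cemb δ₀ e) := h.site
  by_cases hj : H (δ j)
  · -- the edge face is inside `H`
    obtain ⟨k, hk⟩ := dart_of_region hO.patch hb hHA hj
    have hδj : δ' j = .inr k := h.inj (by rw [hδ', cemb_inr, hk])
    have hnode : M.SameNode (δ j) (M.nx.symm (δ (j + 1))) := hO.patch.prev_node j
    have hnode' : M.SameNode (δ₀ k) (M.nx.symm (δ₀ (k + 1))) := bd_prev hb k
    -- if `δ (j + 1)` is in `H` then it is `δ₀ (k + 1)`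
    have hnext : H (δ (j + 1)) → δ₀ (k + 1) = δ (j + 1) := by
      intro h1
      obtain ⟨l, hl⟩ := dart_of_region hO.patch hb hHA h1
      have h2 := bd_prev hb (l - 1)
      rw [sub_add_cancel, hl] at h2
      have h3 : l - 1 = k := nodes_inj hb (h2.trans (hnode.symm.trans (by rw [hk])))
      rw [← hl, ← h3, sub_add_cancel]
    constructor
    · rintro ⟨h1, h2⟩
      rw [hδj, contr_nx_inr] at h1
      have h3 : δ₀ (k + 1) = δ (j + 1) := by rw [← hδ', ← h1, cemb_inr]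
      have h4 : ¬ (M.contr hb).deg (δ' j) = 4 := by rw [hδj, contr_deg_inr]; decide
      rcases h2 with h2 | ⟨γ, a, h5, h6, h7⟩
      · exact absurd h2 h4
      · have hγH : ∀ i, H (cemb δ₀ (γ i)) := fun i =>
          (hs.same (h5.same (by decide) a i)).1 (by rw [h6, hδ']; exact hj)
        have h8 : (B.contr M H (cemb δ₀)).κ γ = KS M B.κ fun i => cemb δ₀ (γ i) := by
          simp only [Boxes.contr, if_pos (hγH 0)]
        rw [h8] at h7
        obtain ⟨h9, h10⟩ := h7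
        have h11 : cemb δ₀ (γ a) = δ j := by rw [h6, hδ']
        have h12 : cemb δ₀ (γ (a + 1)) = δ (j + 1) := by
          rw [← h5.nx, h6, hδj, contr_nx_inr, cemb_inr, h3]
        have h9' : M.nx (cemb δ₀ (γ a)) = cemb δ₀ (γ (a + 1)) := h9
        have h10' : M.deg (cemb δ₀ (γ a)) = 4 ∨ ∃ γ' a', M.SiteNum 6 γ' ∧
            γ' a' = cemb δ₀ (γ a) ∧ B.κ γ' a' := h10
        rw [h11, h12] at h9'
        rw [h11] at h10'
        exact ⟨h9', h10'⟩
    · rintro ⟨h1, h2⟩
      have h3 : H (δ (j + 1)) := by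
        rw [← h1]
        exact (hb.site _).2 hj
      have h4 := hnext h3
      have h5 : δ' (j + 1) = .inr (k + 1) := h.inj (by rw [hδ', cemb_inr, h4])
      refine ⟨by rw [hδj, h5, contr_nx_inr], Or.inr ⟨fun i => .inr (i + k), 0, ?_, ?_, ?_⟩⟩
      · refine ⟨fun x y hxy => ?_, fun i => ?_⟩
        · have h6 := Sum.inr.inj hxy
          exact add_right_cancel h6
        · rw [contr_nx_inr]
          congr 1
          ring
      · show (.inr (0 + k) : Out H 6) = δ' j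
        rw [zero_add, hδj]
      · have h6 : (B.contr M H (cemb δ₀)).κ (fun i => (.inr (i + k) : Out H 6)) =
            KS M B.κ fun i => δ₀ (i + k) := by
          have h7 : H (cemb δ₀ (.inr (0 + k) : Out H 6)) := bd_mem hb _
          simp only [Boxes.contr, if_pos h7]
          rfl
        rw [h6]
        have e0 : (0 : ZMod 6) + k = k := zero_add k
        have e1 : (0 : ZMod 6) + 1 + k = k + 1 := by ring
        show M.nx (δ₀ (0 + k)) = δ₀ (0 + 1 + k) ∧ (M.deg (δ₀ (0 + k)) = 4 ∨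
          ∃ γ a, M.SiteNum 6 γ ∧ γ a = δ₀ (0 + k) ∧ B.κ γ a)
        rw [e0, e1, hk, h4]
        exact ⟨h1, h2⟩
  · -- the edge face is outside
    have hδj : δ' j = .inl ⟨δ j, hj⟩ := h.inj (by rw [hδ', cemb_inl])
    have hj' : ¬ H (cemb δ₀ (δ' j)) := by rw [hδ']; exact hj
    unfold KS
    refine and_congr ?_ (or_congr ?_ ?_)
    · rw [← h.inj.eq_iff, h.nx _ hj', hδ', hδ']
    · rw [hδj, contr_deg_inl]
    · constructor
      · rintro ⟨γ, a, h1, h2, h3⟩
        have hγH : ∀ i, ¬ H (cemb δ₀ (γ i)) := fun i h4 =>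
          hj' (by rw [← h2]; exact (hs.same (h1.same (by decide) i a)).1 h4)
        refine ⟨fun i => cemb δ₀ (γ i), a, ⟨fun x y hxy => h1.inj (h.inj hxy), fun i => ?_⟩, ?_, ?_⟩
        · rw [← h1.nx, h.nx _ (hγH i)]
        · show cemb δ₀ (γ a) = δ j
          rw [h2, hδ']
        · have h8 : (B.contr M H (cemb δ₀)).κ γ = B.κ fun i => cemb δ₀ (γ i) := by
            simp only [Boxes.contr, if_neg (hγH 0)]
          rwa [h8] at h3
      · rintro ⟨γ, a, h1, h2, h3⟩
        have hγH : ∀ i, ¬ H (γ i) := fun i h4 =>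
          hj (by rw [← h2]; exact (Sites.same (M := M) hb.site (h1.same (by decide) i a)).1 h4)
        have hemb : (fun i => cemb δ₀ (.inl ⟨γ i, hγH i⟩ : Out H 6)) = γ := rfl
        refine ⟨fun i => .inl ⟨γ i, hγH i⟩, a, ⟨fun x y hxy => h1.inj ?_, fun i => ?_⟩, ?_, ?_⟩
        · have h5 := congrArg (cemb δ₀) hxy
          exact h5
        · apply h.inj
          rw [h.nx (.inl ⟨γ i, hγH i⟩) (hγH i)]
          exact h1.nx i
        · apply h.inj
          rw [hδ']
          exact h2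
        · have h8 : (B.contr M H (cemb δ₀)).κ (fun i => (.inl ⟨γ i, hγH i⟩ : Out H 6)) = B.κ γ := by
            simp only [Boxes.contr]
            rw [if_neg]
            · rfl
            · exact hγH 0
          rw [h8]
          exact h3

/-! ### single boxes -/

/-- a single box realises its states -/
theorem Rz_single [Fintype D] {A : D → Prop} {δ : ZMod 6 → D} {B : Boxes D}
    (hO : M.Obj Good A δ B) (hs : ∃ r, ∀ e, A e ↔ M.SameSite r e) :
    M.SiteNum 6 δ ∧ (∀ F t, B.β δ F t → Rz M A δ B.β F t) := by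
  have hP := hO.patch
  have hnl := hP.legal.noloop
  have hAδ : ∀ d, A d → ∃ i, δ i = d := by
    intro d hd
    refine (hP.bd.mem d).1 ⟨hd, fun h1 => ?_⟩
    obtain ⟨r, hr⟩ := hs
    exact hnl d (((hr _).1 hd).symm.trans ((hr _).1 h1))
  have hc : ∀ i, M.nx (δ i) = δ (i + 1) := by
    intro i
    obtain ⟨j, hj⟩ := hAδ (M.nx (δ i)) ((hP.sites _).2 (hP.inA i))
    have h1 : δ i = M.nx.symm (δ j) := by rw [hj, Equiv.symm_apply_apply]
    exact ((hP.corner_iff i j).1 h1).2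
  have hnum : M.SiteNum 6 δ := ⟨hP.bd.inj, hc⟩
  refine ⟨hnum, fun F t ht => ?_⟩
  let μ : D → D := fun d => if h : ∃ i, δ i = d then δ (t.m h.choose) else d
  let ω : D → ℕ := fun d => if h : ∃ i, δ i = d then t.u h.choose else 0
  have hμ : ∀ i, μ (δ i) = δ (t.m i) := by
    intro i
    have h : ∃ j, δ j = δ i := ⟨i, rfl⟩
    simp only [μ, dif_pos h]
    rw [hP.bd.inj h.choose_spec]
  have hω : ∀ i, ω (δ i) = t.u i := by
    intro i
    have h : ∃ j, δ j = δ i := ⟨i, rfl⟩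
    simp only [ω, dif_pos h]
    rw [hP.bd.inj h.choose_spec]
  have hres : (M.res δ F δ).Le F := by
    refine ⟨?_, ?_, ?_, ?_⟩
    · rintro a T ⟨j, h1, h2⟩
      rw [← nodes_inj hP.bd h1]
      exact h2
    · rintro a T ⟨j, h1, h2, -⟩
      have h3 := nodes_inj hP.bd h1
      rw [h3] at h2
      exact h2 rfl
    · rintro a T ⟨j, h1, h2, -⟩
      have h3 := nodes_inj hP.bd h1
      rw [h3] at h2
      exact h2 rfl
    · rintro a ⟨j, h1, h2⟩
      rw [hP.bd.inj h1]
      exact h2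
  refine ⟨μ, ω, ?_, fun i => ?_, fun d hd => ?_, fun i => ?_, fun d hd => ?_⟩
  · intro d hd
    exact ⟨6, δ, t, by decide, hnum, hAδ d hd,
      hO.anti δ _ F t hnum (hP.inA 0) hres ht, fun i => ⟨hμ i, hω i⟩⟩
  · refine Relation.EqvGen.rel _ _ ⟨hP.inA i, Or.inl (hμ i).symm⟩
  · obtain ⟨i, rfl⟩ := hAδ d hd
    exact ⟨i, Relation.EqvGen.refl _⟩
  · rw [hP.cor_usum (hc i), hω]
  · exfalso
    obtain ⟨i, rfl⟩ := hAδ d (hd d (Equiv.Perm.SameCycle.refl _ _))
    exact hP.notA (i + 1) (hd _ (hP.root_node i))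

/-- **Induction over objects**: it suffices to treat irreducible objects. -/
theorem Obj.induction
    (hmono : ∀ K σ b b', (∀ F t, F.Ok → b F t → b' F t) → Good K σ b → Good K σ b')
    (hnice : ∀ K σ b, Good K σ b → Good K σ fun F t => Nice t ∧ b F t)
    (step : ∀ (D : Type) [Fintype D] (M : DMap D) (A : D → Prop) (δ : ZMod 6 → D) (B : Boxes D),
      M.Obj Good A δ B → Nat.card D ≠ 14 → (¬ ∃ r, ∀ e, A e ↔ M.SameSite r e) → M.Irr A δ →
      (∀ (D' : Type) [Fintype D'] (M' : DMap D') (A' : D' → Prop) (δ' : ZMod 6 → D')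
        (B' : Boxes D'), M'.Obj Good A' δ' B' → Nat.card D' ≠ 14 → Nat.card D' < Nat.card D →
        Good (KS M' B'.κ δ') (StarL M' A' δ' B') (Rz M' A' δ' B'.β)) →
      Good (KS M B.κ δ) (StarL M A δ B) (Rz M A δ B.β)) :
    ∀ (n : ℕ) (D : Type) [Fintype D] (M : DMap D) (A : D → Prop) (δ : ZMod 6 → D) (B : Boxes D),
      M.Obj Good A δ B → Nat.card D ≠ 14 → Nat.card D = n →
      Good (KS M B.κ δ) (StarL M A δ B) (Rz M A δ B.β) := by
  intro n
  induction n using Nat.strong_induction_on with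
  | _ n ih =>
  intro D _ M A δ B hO h14 hn
  have IH : ∀ (D' : Type) [Fintype D'] (M' : DMap D') (A' : D' → Prop) (δ' : ZMod 6 → D')
        (B' : Boxes D'), M'.Obj Good A' δ' B' → Nat.card D' ≠ 14 → Nat.card D' < Nat.card D →
        Good (KS M' B'.κ δ') (StarL M' A' δ' B') (Rz M' A' δ' B'.β) := by
    intro D' _ M' A' δ' B' hO' h14' hlt
    exact ih _ (by omega) D' M' A' δ' B' hO' h14' rfl
  have hP := hO.patch
  -- a single box
  by_cases hs : ∃ r, ∀ e, A e ↔ M.SameSite r e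
  · obtain ⟨hnum, hRz⟩ := Rz_single hO hs
    have h1 := hO.good δ hnum (hP.inA 0)
    have h2 : KS M B.κ δ = B.κ δ := by
      funext j
      apply propext
      have hd : M.deg (δ j) = 6 := hnum.deg j
      constructor
      · rintro ⟨-, h3 | ⟨γ, a, h3, h4, h5⟩⟩
        · omega
        · obtain ⟨c, hc⟩ := hnum.eq_rot h3 (by decide) (by
            obtain ⟨r, hr⟩ := hs
            refine ((hr _).1 (hP.inA 0)).symm.trans ((hr _).1 ?_)
            exact (Sites.same (M := M) hP.sites (h3.same (by decide) a 0)).1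
              (by rw [h4]; exact hP.inA j))
          have h6 : γ = fun i => δ (i + c) := funext hc
          rw [h6, hO.krot δ a c hnum (hP.inA 0)] at h5
          have h7 : a + c = j := hP.bd.inj (by rw [← hc, h4])
          rwa [h7] at h5
      · intro h3
        exact ⟨hnum.nx j, Or.inr ⟨δ, j, hnum, rfl, h3⟩⟩
    have h3 : StarL M A δ B = B.σ δ := by
      apply propext
      constructor
      · rintro (h4 | h4)
        · exfalso
          have h5 := h4.2 (δ 0) (hP.inA 0)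
          have h6 := hnum.deg 0
          omega
        · exact h4.2
      · exact fun h4 => Or.inr ⟨hs, h4⟩
    rw [h2, h3]
    exact hmono _ _ _ _ (fun F t _ hb => hRz F t hb) h1
  by_cases hirr : M.Irr A δ
  · exact step D M A δ B hO h14 hs hirr IH
  -- a reducible cut
  unfold Irr at hirr
  push Not at hirr
  obtain ⟨H, hH, hHA, ⟨x, hx1, hx2⟩, hc, ht, hns, h8⟩ := hirr
  have hns' : ¬ ∃ r, ∀ e, H e ↔ M.SameSite r e := by
    rintro ⟨r, hr⟩
    obtain ⟨e, he⟩ := hns r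
    rcases he with he | he
    · exact he.2 ((hr e).1 he.1)
    · exact he.1 ((hr e).2 he.2)
  obtain ⟨j₀, d₀, hd₀, hjd₀⟩ := ht
  have hex : ∃ d, H d := ⟨d₀, hd₀⟩
  have hex' : ∃ d, ¬ H d := ⟨x, hx2⟩
  obtain ⟨δ₀, hb⟩ : ∃ δ₀ : ZMod 6 → D, M.Bd H 6 δ₀ := by
    have := hP.legal.exists_bd hH hex hex' (by omega)
    rw [hc] at this
    exact this
  -- cardinalities
  have c1 : 8 < Nat.card {d // H d} := by
    have h2 : ∃ e, H e ∧ ¬ M.SameSite d₀ e := by
      by_contra hno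
      push Not at hno
      exact hns' ⟨d₀, fun e => ⟨hno e, fun h => (hH.same h).1 hd₀⟩⟩
    have h3 := hP.legal.four_le_card (sites_site (M := M) d₀) ⟨d₀, Equiv.Perm.SameCycle.refl _ _⟩
    have h4 := hP.legal.four_le_card (hH.and (sites_site (M := M) d₀).not) h2
    have h5 := card_or (B := M.SameSite d₀) (C := H) fun d hd => (hH.same hd).1 hd₀
    omega
  have c2 : 10 ≤ Nat.card {d // ¬ H d} := by
    have h3 := hP.card_root
    have h4 := hP.legal.four_le_card (hP.sites.and hH.not) ⟨x, hx1, hx2⟩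
    have h5 := card_or (B := fun d => ¬ A d) (C := fun d => ¬ H d) fun d hd h => hd (hHA d h)
    have h6 : Nat.card {d // ¬ H d ∧ ¬ ¬ A d} = Nat.card {d // A d ∧ ¬ H d} :=
      Nat.card_congr (Equiv.subtypeEquivRight fun d => by tauto)
    rw [h6] at h5
    omega
  have c3 := card_add' H
  -- the box is good
  have hgood : ∀ c : ZMod 6, Good (KS M B.κ fun i => δ₀ (i + c)) (Star M H)
      (fun F t => Nice t ∧ Rz M H (fun i => δ₀ (i + c)) B.β F t) := by
    intro c
    apply hnice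
    have hbc : M.Bd H 6 (fun i => δ₀ (i + c)) := BdD.shift hb c
    obtain ⟨η, hη, δ₁, hδ₁, hO₁⟩ := hO.inside hbc hHA
    have h := contr_isCtr hη
    have h2 : Nat.card {d // ¬ ¬ H d} = Nat.card {d // H d} :=
      Nat.card_congr (Equiv.subtypeEquivRight fun d => not_not)
    have h1 := IH _ _ _ _ _ hO₁ (by rw [card_out]; omega) (by rw [card_out]; omega)
    have e1 : KS (M.contr hη) (B.pull (cemb η)).κ δ₁ = KS M B.κ fun i => δ₀ (i + c) :=
      funext fun j => propext (KS_inside h hbc hδ₁ B.κ j)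
    have e2 : StarL (M.contr hη) (fun x => H (cemb η x)) δ₁ (B.pull (cemb η)) = Star M H := by
      apply propext
      constructor
      · rintro (h3 | h3)
        · exact (Star_inside h).1 h3
        · exact absurd (single_inside h hH h3.1) hns'
      · exact fun h3 => Or.inl ((Star_inside h).2 h3)
    rw [e1, e2] at h1
    exact hmono _ _ _ _ (fun F t _ hb => Rz_inside h hδ₁ hb) h1
  obtain ⟨δ₂, hδ₂, hO₂⟩ := hO.contr hb hHA ⟨j₀, d₀, hd₀, hjd₀⟩ hgood
  have h1 := IH _ _ _ _ _ hO₂ (by rw [card_out]; omega) (by rw [card_out]; omega)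
  have e1 : KS (M.contr hb) (B.contr M H (cemb δ₀)).κ δ₂ = KS M B.κ δ :=
    funext fun j => propext (KS_contr hO hb hHA hδ₂ j)
  have hnsc : ¬ ∃ r, ∀ e, (fun x => A (cemb δ₀ x)) e ↔ (M.contr hb).SameSite r e := by
    rintro ⟨r, hr⟩
    have h2 : (M.contr hb).SameSite r (.inr 0) := (hr _).1 (hHA _ (bd_mem hb 0))
    have h3 : (M.contr hb).SameSite r (.inl ⟨x, hx2⟩) := (hr _).1 hx1
    have h4 := ((contr_sites_inr hb).same (h2.symm.trans h3)).1 ⟨0, rfl⟩
    simp at h4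
  have e2 : StarL (M.contr hb) (fun x => A (cemb δ₀ x)) δ₂ (B.contr M H (cemb δ₀)) =
      StarL M A δ B := by
    apply propext
    constructor
    · rintro (h3 | h3)
      · exfalso
        have h4 := h3.2 (.inr 0) (hHA _ (bd_mem hb 0))
        rw [contr_deg_inr] at h4
        omega
      · exact absurd h3.1 hnsc
    · rintro (h3 | h3)
      · exfalso
        have h4 := hP.legal.four_le_card (hP.sites.and hH.not) ⟨x, hx1, hx2⟩
        have h5 := card_or (B := H) (C := A) hHA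
        have h6 := h3.1
        omega
      · exact absurd h3.1 hs
  rw [e1, e2] at h1
  exact hmono _ _ _ _ (fun F t hF hb' => Rz_contr hO hb hHA hδ₂ hO₂.patch hF hb') h1

end

end DMap

end GT33
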