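import Pool.Agent.GT33.DLift
import Pool.Agent.GT33.HatK
import Pool.Agent.GT33.ObjInd

/-!
# GT33 module DLIFTO: the full peel of an object

`Gen.peel`: if the folded map of a generic object without corners realises the state `s'` with the demands `F'`, then
the object realises all states which satisfy the finite conditions `PeelOk`.
-/

open Classical

namespace GT33

/-- the demands of a link hexagon at the ring node `j` -/
def lfl (F : Flags) (j : ZMod 6) : Flags where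
  lk a T := a = 0 ∧ F.lk j T
  le a T := a = 0 ∧ F.lk j T
  ri a T := a = 0 ∧ F.lk j T
  st _ := False

/-- the demands of a hexagon at the ring edge `k` -/
def sfl (F : Flags) (k : ZMod 6) : Flags where
  lk a T := (a = 0 ∧ F.lk k T) ∨ (a = 5 ∧ F.lk (k - 1) T)
  le a T := (a = 0 ∧ F.le k T) ∨ (a = 5 ∧ F.lk (k - 1) T)
  ri a T := (a = 0 ∧ F.lk k T) ∨ (a = 5 ∧ F.ri (k - 1) T)
  st a := a = 0 ∧ F.st k

theorem lfl_ok (F : Flags) (j : ZMod 6) : (lfl F j).Ok := ⟨fun _ _ h => h, fun _ _ h => h⟩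

theorem sfl_ok {F : Flags} (h : F.Ok) (k : ZMod 6) : (sfl F k).Ok :=
  ⟨fun _ _ h1 => h1.imp (fun h2 => ⟨h2.1, h.le _ _ h2.2⟩) id,
    fun _ _ h1 => h1.imp id fun h2 => ⟨h2.1, h.ri _ _ h2.2⟩⟩

namespace DMap

variable {D : Type} {M : DMap D} {A : D → Prop} {δ : ZMod 6 → D}

open Patch

/-- the local states of quads are invariant under rotations -/
theorem QS.rotγ {δ : ZMod 6 → D} {F : Flags} {γ : ZMod 4 → D} {t : PState 4}
    (h : M.QS δ F γ t) (c : ZMod 4) : M.QS δ F (fun i => γ (i + c)) (t.rot c) := by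
  have e : ∀ a : ZMod 4, a + 1 + c = a + c + 1 := fun a => by ring
  have e2 : ∀ a : ZMod 4, a + 2 + c = a + c + 2 := fun a => by ring
  have e3 : ∀ (T : Bool) (a : ZMod 4), sideC T a + c = sideC T (a + c) := fun T a => by
    cases T
    · exact e a
    · show a - 1 + c = a + c - 1
      ring
  refine ⟨h.ee.rot c, fun a j T h1 h2 => ?_, fun a j h1 h2 => ?_⟩
  · show t.u (sideC T a + c) ≤ 1
    rw [e3]
    refine h.dem (a + c) j T h1 ⟨fun h3 h4 => h2.1 h3 ?_, h2.2.1, fun h3 => h2.2.2 ?_⟩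
    · show γ (a + 1 + c) ≠ δ (j + 1)
      rw [e]
      exact h4
    · show γ (a + 1 + c) = δ (j + 1)
      rw [e]
      exact h3
  · show t.u (a + 1 + c) ≤ 1 ∧ t.u (a + 2 + c) ≤ 1
    rw [e, e2]
    exact h.st (a + c) j h1 h2

namespace Gen

variable [Fintype D] (hG : M.Gen A δ)

section num

variable (hnc : ∀ i, M.nx (δ i) ≠ δ (i + 1))

include hG hnc

/-- the ring sectors of a link -/
theorem link_ring {e x : D} (he : FS M A δ e) (hl : ∀ k, e ≠ δ k) (hs : M.SameSite e x)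
    (hr : Ring M δ x) : x = e := by
  rcases hG.ring_site he hr hs with h | ⟨i, -, h2⟩
  · exact h
  · exact absurd (hG.fs_uniq he (hG.fs_δ hnc i) h2).symm (hl i)

/-- the ring sectors of a site at a ring edge -/
theorem sp_ring {k : ZMod 6} {x : D} (hs : M.SameSite (δ k) x) (hr : Ring M δ x) :
    x = δ k ∨ x = M.nx.symm (δ k) := by
  rcases hG.ring_site (hG.fs_δ hnc k) hr hs with h | ⟨i, h1, h2⟩
  · exact Or.inl h
  · right
    rw [h1, hG.fs_uniq (hG.fs_δ hnc k) (hG.fs_δ hnc i) h2]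

/-- no ring darts in a link -/
theorem link_δ {e x : D} (he : FS M A δ e) (hl : ∀ k, e ≠ δ k) (hs : M.SameSite e x)
    (j : ZMod 6) : x ≠ δ j := by
  intro h
  subst h
  exact hl j (hG.fs_uniq he (hG.fs_δ hnc j) hs).symm

/-- one ring dart in a site at a ring edge -/
theorem sp_δ {k j : ZMod 6} {x : D} (hs : M.SameSite (δ k) x) (h : x = δ j) : j = k := by
  subst h
  exact hG.bd.inj (hG.fs_uniq (hG.fs_δ hnc k) (hG.fs_δ hnc j) hs)

/-- the demands of a link hexagon -/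
theorem res_lfl {F : Flags} {e : D} (he : FS M A δ e) (hl : ∀ k, e ≠ δ k) {j : ZMod 6}
    (hj : M.SameNode (δ j) e) {α : ZMod 6 → D} (hα : M.SiteNum 6 α) (h0 : α 0 = e) :
    (M.res δ F α).Le (lfl F j) := by
  have hs : ∀ i, M.SameSite e (α i) := fun i => by rw [← h0]; exact hα.same (by decide) 0 i
  have key : ∀ a i, M.SameNode (δ i) (α a) → a = 0 ∧ i = j := by
    intro a i h
    have h1 := hG.link_ring hnc he hl (hs a) ⟨i, h⟩
    refine ⟨hα.inj (h1.trans h0.symm), ?_⟩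
    rw [h1] at h
    exact hG.node_idx (h.trans hj.symm)
  refine ⟨?_, ?_, ?_, ?_⟩
  · rintro a T ⟨i, h1, h2⟩
    obtain ⟨rfl, rfl⟩ := key a i h1
    exact ⟨rfl, h2⟩
  · rintro a T ⟨i, h1, -, h3⟩
    obtain ⟨rfl, rfl⟩ := key a i h1
    exact ⟨rfl, h3 (hG.link_δ hnc he hl (hs _) _)⟩
  · rintro a T ⟨i, h1, -, h3⟩
    obtain ⟨rfl, rfl⟩ := key a i h1
    exact ⟨rfl, h3 (hG.link_δ hnc he hl (hs _) _)⟩
  · rintro a ⟨i, h1, -⟩
    exact hG.link_δ hnc he hl (hs _) _ h1

/-- the demands of a hexagon at a ring edge -/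
theorem res_sfl {F : Flags} {k : ZMod 6} {α : ZMod 6 → D} (hα : M.SiteNum 6 α)
    (h0 : α 0 = δ k) : (M.res δ F α).Le (sfl F k) := by
  obtain ⟨h1', h5, -⟩ := num6 hα h0
  have hs : ∀ i, M.SameSite (δ k) (α i) := fun i => by
    rw [← h0]; exact hα.same (by decide) 0 i
  have hpn : M.SameNode (δ (k - 1)) (M.nx.symm (δ k)) := by
    have := hG.toPatch.prev_node (k - 1)
    rwa [sub_add_cancel] at this
  have key : ∀ a i, M.SameNode (δ i) (α a) → (a = 0 ∧ i = k) ∨ (a = 5 ∧ i = k - 1) := by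
    intro a i h
    rcases hG.sp_ring hnc (hs a) ⟨i, h⟩ with h1 | h1
    · left
      refine ⟨hα.inj (h1.trans h0.symm), ?_⟩
      rw [h1] at h
      exact hG.node_idx h
    · right
      refine ⟨hα.inj (h1.trans h5.symm), ?_⟩
      rw [h1] at h
      exact hG.node_idx (h.trans hpn.symm)
  have h5n : ∀ i, α 5 ≠ δ i := fun i h => by
    have h1 := hG.sp_δ hnc (hs 5) h
    subst h1
    rw [← h0] at h
    exact absurd (hα.inj h) (by decide)
  have h1n : ∀ i, α 1 ≠ δ i := fun i h => by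
    have h1 := hG.sp_δ hnc (hs 1) h
    subst h1
    rw [← h0] at h
    exact absurd (hα.inj h) (by decide)
  refine ⟨?_, ?_, ?_, ?_⟩
  · rintro a T ⟨i, h1, h2⟩
    rcases key a i h1 with ⟨rfl, rfl⟩ | ⟨rfl, rfl⟩
    · exact Or.inl ⟨rfl, h2⟩
    · exact Or.inr ⟨rfl, h2⟩
  · rintro a T ⟨i, h1, h2, h3⟩
    rcases key a i h1 with ⟨rfl, rfl⟩ | ⟨rfl, rfl⟩
    · exact Or.inl ⟨rfl, h2 h0⟩
    · exact Or.inr ⟨rfl, h3 (h5n _)⟩
  · rintro a T ⟨i, h1, h2, h3⟩
    rcases key a i h1 with ⟨rfl, rfl⟩ | ⟨rfl, rfl⟩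
    · exact Or.inl ⟨rfl, h3 (h1n _)⟩
    · refine Or.inr ⟨rfl, h2 ?_⟩
      rw [sub_add_cancel, ← h0]
      rfl
  · rintro a ⟨i, h1, h2⟩
    have h3 := hG.sp_δ hnc (hs a) h1
    subst h3
    exact ⟨hα.inj (h1.trans h0.symm), h2⟩

end num

end Gen

namespace GenT

open Gen

variable [Fintype D] (hG : M.GenT A δ)

section exact

variable {o : D → Bool} (ho : ∀ d, o (M.nx d) = !o d) (ho' : ∀ d, o (M.al d) = !o d)
  {L' : LS {d // ¬ FR M (FS M A δ) d}} {s' : PState 6}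
  {μ' : {d // ¬ FR M (FS M A δ) d} → {d // ¬ FR M (FS M A δ) d}}
  {ω' : {d // ¬ FR M (FS M A δ) d} → ℕ}

/-- the ring of the folded map is exact -/
theorem hat_exact (hR : (hG.hat ho ho').RealL L' (fun y => A y.1) hG.hdr s' μ' ω')
    (hnh : ∀ k, (hG.hat ho ho').nx (hG.hdr k) ≠ hG.hdr (k + 1))
    (hE : ∀ (n : ℕ) (γ : ZMod n → {d // ¬ FR M (FS M A δ) d}) (t : PState n), L' n γ t → EE n t)
    (h6 : ∑ i, s'.u i = 6) :
    hG.HatExact ho ho' ω' (fun k => ω' (hG.hdr k)) ∧ (∀ k, ω' (hG.hdr k) ≤ 1) ∧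
      ∀ k, s'.u k + ω' (hG.hdr (k + 1)) = ω' (hG.hdr k) + 1 := by
  have hP := hG.hat_isPatch ho ho'
  have hadj : ∀ i, 1 ≤ ω' ((hG.hat ho ho').nx.symm (hG.hdr i)) + ω' (hG.hdr i) := by
    intro i
    obtain ⟨n, γ, t, hn, hγ, ⟨j, hj⟩, ht, hst⟩ := hR.loc (hG.hdr i) (hP.inA i)
    have h1 : (hG.hat ho ho').nx.symm (hG.hdr i) = γ (j - 1) := by
      rw [Equiv.symm_apply_eq, hγ.nx, sub_add_cancel, hj]
    rw [h1, ← hj, (hst _).2, (hst _).2]
    have h2 := EE_adj (hE n γ t ht) (j - 1)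
    rwa [sub_add_cancel] at h2
  obtain ⟨h1, h2, h3⟩ := hP.ring_exact hR.bdry h6 hadj hnh
  refine ⟨⟨fun k => rfl, fun k => h1 k, fun k y hn hA h4 h5 => h2 k y hn hA h4 h5⟩, fun k => ?_,
    fun k => ?_⟩
  · have := h1 k
    omega
  · have e1 := h3 k
    have e2 := h1 (k + 1)
    omega

end exact

end GenT

namespace Gen

/-- the conditions for a quad at the ring edge `k` in the state `t` -/
structure SqOk (F : Flags) (k : ZMod 6) (t : PState 4) : Prop where
  ee : EE 4 t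
  le : ∀ T, F.le k T → t.u (sideC T 0) ≤ 1
  ri : ∀ T, F.ri (k - 1) T → t.u (sideC T 3) ≤ 1
  st : F.st k → t.u 1 ≤ 1 ∧ t.u 2 ≤ 1

/-- the conditions for the full peel -/
structure PeelOk (_ : M.Gen A δ) (β : (ZMod 6 → D) → Rel) (F F' : Flags) (s s' : PState 6)
    (a : ZMod 6 → Bool) (r r' : ZMod 6 → ℕ) (p q : ℕ) : Prop where
  pq : p + q = 3
  p1 : 1 ≤ p
  q1 : 1 ≤ q
  r1 : ∀ k, r k ≤ 1
  su : ∀ k, s.u k + r (k + 1) = r k + 1
  port : ∀ k, Relation.EqvGen (PStep a s'.m) (0, k) (0, s.m k)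
  all : ∀ x, ∃ k, Relation.EqvGen (PStep a s'.m) x (0, k)
  lkR : ∀ j, F.lk j true → q ≤ 1
  lkL : ∀ j, F.lk j false → p ≤ 1
  sq : ∀ k, M.deg (δ k) = 4 → SqOk F k (sq (a k) (r k) (r' k) p q)
  lh : ∀ (j : ZMod 6) (α : ZMod 6 → D) (t : PState 4), M.SiteNum 6 α → A (α 0) →
    M.SameNode (δ j) (α 0) → (∀ i k, α i ≠ δ k) → EE 4 t → t.u 3 = 0 →
    (∀ T, F'.lk j T → t.u (sideC T 3) ≤ 1) → β α (lfl F j) (lh p q t)
  sh : ∀ (k : ZMod 6) (α : ZMod 6 → D) (t : PState 4), M.SiteNum 6 α → α 0 = δ k → EE 4 t →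
    t.u 3 = r' k → t.u 2 + r' k = 1 → (∀ T, F'.le k T → t.u (sideC T 3) ≤ 1) →
    (∀ T, F'.ri (k - 1) T → t.u (sideC T 2) ≤ 1) → (F'.st k → t.u 0 ≤ 1 ∧ t.u 1 ≤ 1) →
    β α (sfl F k) (sh (a k) (r k) p q t)

end Gen

namespace GenT

open Gen

variable [Fintype D] (hG : M.GenT A δ)

section peel

variable {o : D → Bool} (ho : ∀ d, o (M.nx d) = !o d) (ho' : ∀ d, o (M.al d) = !o d)
  (hnc : ∀ i, M.nx (δ i) ≠ δ (i + 1))

include hnc

/-- the local states of the lift for flags -/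
theorem liftLoc {β : (ZMod 6 → D) → Rel} (anti : ∀ γ F G t, M.SiteNum 6 γ → A (γ 0) → F.Le G →
      β γ G t → β γ F t)
    (hnh : ∀ k, (hG.hat ho ho').nx (hG.hdr k) ≠ hG.hdr (k + 1))
    {F F' : Flags} {s s' : PState 6} {a : ZMod 6 → Bool} {r r' : ZMod 6 → ℕ} {p q : ℕ}
    (h : hG.PeelOk β F F' s s' a r r' p q) :
    hG.LiftLoc ho ho' ((hG.hat ho ho').OL hG.hdr (fun _ _ _ => False) F') (M.OL δ β F) a r r' p q := by
  have hP := hG.hat_isPatch ho ho'
  refine ⟨?_, ?_, ?_, ?_, ?_⟩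
  · -- inner sites
    intro n γ t hn hγ hγA hno ht
    rcases OL_n ht with rfl | rfl
    · have ht : (hG.hat ho ho').QS hG.hdr F' γ t := ht
      have hr : ∀ i j, ¬ M.SameNode (δ j) (γ i).1 := by
        intro i j hj
        by_cases h3 : ∃ k, (γ i).1 = M.nx.symm (δ k)
        · obtain ⟨k, hk⟩ := h3
          refine hno i _ (hG.fs_δ hnc k) ?_
          rw [hk]
          exact site_nx_symm _
        · push Not at h3
          exact hno i _ ⟨hγA i, ⟨j, hj⟩, h3⟩ (Equiv.Perm.SameCycle.refl _ _)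
      refine ⟨ht.ee, fun b j T h1 _ => absurd h1 (hr b j), fun b j h1 _ => ?_⟩
      exact absurd (by rw [h1]) (hr b j)
    · exact absurd ht id
  · -- link quads
    intro e α he hl hα h0
    have hs : ∀ i, M.SameSite e (α i) := fun i => by rw [← h0]; exact hα.same (by decide) 0 i
    have hpq := h.pq
    have hp := h.p1
    have hq := h.q1
    have hee : EE 4 (lq p q) := by
      have : (p = 1 ∧ q = 2) ∨ (p = 2 ∧ q = 1) := by omega
      rcases this with ⟨rfl, rfl⟩ | ⟨rfl, rfl⟩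
      · exact ⟨0, 3, PState.ext' (by decide) (by decide)⟩
      · exact ⟨0, 1, PState.ext' (by decide) (by decide)⟩
    refine ⟨hee, fun b j T h1 h2 => ?_, fun b j h1 _ => absurd h1 (hG.link_δ hnc he hl (hs b) j)⟩
    have h3 : b = 0 := hα.inj ((hG.link_ring hnc he hl (hs b) ⟨j, h1⟩).trans h0.symm)
    subst h3
    have h4 := h2.1 (hG.link_δ hnc he hl (hs _) _) (hG.link_δ hnc he hl (hs _) _)
    cases T
    · exact h.lkL j h4
    · exact h.lkR j h4
  · -- link hexagons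
    intro e α b t he hl hα h0 hb hbn ht h3
    have ht : (hG.hat ho ho').QS hG.hdr F' b t := ht
    obtain ⟨j, hj⟩ := he.2.1
    have hs : ∀ i, M.SameSite e (α i) := fun i => by rw [← h0]; exact hα.same (by decide) 0 i
    have hb3 : (b 3).1 = M.nx.symm e := by
      rw [hb, ← (num6 hα h0).2.1]
      rfl
    have hb0 : (b 0).1 = M.nx (M.nx e) := by
      rw [hb, ← (num6 hα h0).1, hα.nx]
      rfl
    have hnode : (hG.hat ho ho').SameNode (hG.hdr j) (b 3) := by
      rw [hG.hat_sameNode ho ho']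
      refine Or.inr ⟨j, hG.cls_hd j, ?_⟩
      rw [hb3]
      exact hG.cls_nx_symm he.1 hj
    have hres := hG.res_lfl hnc (F := F) he hl hj hα h0
    refine anti α _ _ _ hα (by rw [h0]; exact he.1) hres ?_
    refine h.lh j α t hα (by rw [h0]; exact he.1) (by rw [h0]; exact hj)
      (fun i k => hG.link_δ hnc he hl (hs i) k) ht.ee h3 fun T hT => ?_
    refine ht.dem 3 j T hnode ⟨fun _ _ => hT, fun h4 => ?_, fun h4 => ?_⟩
    · exact absurd (by rw [← hb3, h4]; rfl) (hG.excl1 he hl j)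
    · exact absurd (by
        rw [← hb0, show b 0 = b (3 + 1) from rfl, h4]
        rfl) (hG.excl2 hnc he (j + 1))
  · -- quads at ring edges
    intro k α hα h0
    have hs : ∀ i, M.SameSite (δ k) (α i) := fun i => by
      rw [← h0]; exact hα.same (by decide) 0 i
    have h4 : M.deg (δ k) = 4 := by rw [← h0]; exact hα.deg 0
    obtain ⟨-, -, h3'⟩ := num4 hα h0
    have hpn : M.SameNode (δ (k - 1)) (M.nx.symm (δ k)) := by
      have := hG.toPatch.prev_node (k - 1)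
      rwa [sub_add_cancel] at this
    have hsq := h.sq k h4
    have hn : ∀ i j, i ≠ 0 → α i ≠ δ j := fun i j hi h => by
      have h1 := hG.sp_δ hnc (hs i) h
      subst h1
      rw [← h0] at h
      exact hi (hα.inj h)
    refine ⟨hsq.ee, fun b j T h1 h2 => ?_, fun b j h1 h2 => ?_⟩
    · rcases hG.sp_ring hnc (hs b) ⟨j, h1⟩ with h5 | h5
      · have hb : b = 0 := hα.inj (h5.trans h0.symm)
        subst hb
        have hj : j = k := by
          rw [h5] at h1
          exact hG.node_idx h1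
        subst hj
        exact hsq.le T (h2.2.1 h0)
      · have hb : b = 3 := hα.inj (h5.trans h3'.symm)
        subst hb
        have hj : j = k - 1 := by
          rw [h5] at h1
          exact hG.node_idx (h1.trans hpn.symm)
        subst hj
        refine hsq.ri T (h2.2.2 ?_)
        rw [sub_add_cancel, ← h0]
        rfl
    · by_cases hb : b = 0
      · subst hb
        have hj : j = k := hG.sp_δ hnc (hs 0) h1
        subst hj
        exact hsq.st h2
      · exact absurd h1 (hn b j hb)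
  · -- hexagons at ring edges
    intro k α b t hα h0 hb hbn ht h3 h2
    have ht : (hG.hat ho ho').QS hG.hdr F' b t := ht
    have h6 : M.deg (δ k) ≠ 4 := by
      rw [← h0, hα.deg 0]
      decide
    have hb3 : b 3 = hG.hdr k := by
      apply Subtype.ext
      rw [hb]
      show _ = DMap.hd M δ k
      rw [DMap.hd, if_neg h6, ← (num6 hα h0).2.1]
      rfl
    have hb2 : b 2 = (hG.hat ho ho').nx.symm (hG.hdr k) := by
      rw [← hb3, Equiv.eq_symm_apply, hbn.nx]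
      rfl
    have hres := hG.res_sfl hnc (F := F) hα h0
    refine anti α _ _ _ hα (by rw [h0]; exact hG.toPatch.inA k) hres ?_
    refine h.sh k α t hα h0 ht.ee h3 h2 (fun T hT => ?_) (fun T hT => ?_) fun hT => ?_
    · refine ht.dem 3 k T (by rw [hb3]) ⟨fun h4 => absurd hb3 h4, fun _ => hT, fun h4 => ?_⟩
      exact absurd (by rw [← h4, ← hb3, hbn.nx]) (hnh k)
    · have hn : (hG.hat ho ho').SameNode (hG.hdr (k - 1)) (b 2) := by
        have := hP.prev_node (k - 1)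
        rw [sub_add_cancel] at this
        rw [hb2]
        exact this
      refine ht.dem 2 (k - 1) T hn ⟨fun _ h4 => absurd ?_ h4, fun h4 => absurd ?_ (hnh (k - 1)),
        fun _ => hT⟩
      · rw [sub_add_cancel, ← hb3]
        rfl
      · rw [sub_add_cancel, ← h4, hbn.nx, ← hb3]
        rfl
    · exact ht.st 3 k hb3 hT

/-- **The full peel.** -/
theorem peel {β : (ZMod 6 → D) → Rel} (anti : ∀ γ F G t, M.SiteNum 6 γ → A (γ 0) → F.Le G →
      β γ G t → β γ F t)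
    (touch : ∀ d, A d → M.deg d = 6 → ∃ j e, M.SameSite d e ∧ M.SameNode (δ j) e)
    {β' : (ZMod 6 → {d // ¬ FR M (FS M A δ) d}) → Rel} {F' : Flags} {s' : PState 6}
    (hR : Rz (hG.hat ho ho') (fun y => A y.1) hG.hdr β' F' s') (h6 : ∑ i, s'.u i = 6) :
    ∃ r' : ZMod 6 → ℕ, (∀ k, r' k ≤ 1) ∧ (∀ k, s'.u k + r' (k + 1) = r' k + 1) ∧
      ∀ (F : Flags) (s : PState 6) (a : ZMod 6 → Bool) (r : ZMod 6 → ℕ) (p q : ℕ),
        hG.PeelOk β F F' s s' a r r' p q → Rz M A δ β F s := by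
  obtain ⟨μ', ω', hR⟩ := hR
  have hP := hG.hat_isPatch ho ho'
  have hnh := hG.hat_no_corner ho ho' hnc touch
  have hq4 := hG.hat_quad ho ho' hnc touch
  have hR' : (hG.hat ho ho').RealL ((hG.hat ho ho').OL hG.hdr (fun _ _ _ => False) F')
      (fun y => A y.1) hG.hdr s' μ' ω' := by
    refine hR.mono hP.sites fun n γ t hn hγ hγA _ ht => ?_
    rcases OL_n ht with rfl | rfl
    · exact ht
    · have h1 := hq4 (γ 0) (hγA 0)
      rw [hγ.deg 0] at h1
      omega
  have hE : ∀ (n : ℕ) (γ : ZMod n → {d // ¬ FR M (FS M A δ) d}) (t : PState n),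
      (hG.hat ho ho').OL hG.hdr (fun _ _ _ => False) F' n γ t → n = 4 ∧ EE n t := by
    intro n γ t ht
    rcases OL_n ht with rfl | rfl
    · exact ⟨rfl, QS.ee (show (hG.hat ho ho').QS hG.hdr F' γ t from ht)⟩
    · exact absurd ht id
  obtain ⟨hX, hr', hs'⟩ := hG.hat_exact ho ho' hR' hnh (fun n γ t ht => (hE n γ t ht).2) h6
  refine ⟨fun k => ω' (hG.hdr k), hr', hs', fun F s a r p q h => ?_⟩
  refine hG.lift (a := a) hnc hnh hR' hX ?_ ?_ (hG.liftLoc ho ho' hnc anti hnh h) h.pq h.p1 h.q1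
    h.r1 hr' h.su h.port h.all
  · intro n γ t c hγ hA ht
    obtain ⟨rfl, -⟩ := hE n γ t ht
    exact QS.rotγ (show (hG.hat ho ho').QS hG.hdr F' γ t from ht) c
  · intro n γ t ht i
    obtain ⟨rfl, h1⟩ := hE n γ t ht
    obtain ⟨c, k, rfl⟩ := h1
    clear ht
    revert c k i
    decide

end peel

end GenT

end DMap

end GT33
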