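import Pool.Agent.GT33.Tb
import Pool.Agent.GT33.DLiftO
import Pool.Agent.GT33.CFold

/-!
# GT33 module CHKB: facts about boxes in decidable form

`Fact T f a`: every object which is good for the table `T` and whose corner set has the properties `f` realises the
alternative `a`.  `factB`: the check of a fact with a decision tree.  `lflA`, `sflA`, `cflA`: the demands of a link
hexagon, of a hexagon at a ring edge, of a corner hexagon as numbers.  `lookB`: a fact is a consequence of a list of
facts.
-/

namespace GT33

namespace Chk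

/-- all good objects whose corner set has the properties `f` realise the alternative `a` -/
def Fact (T : List SRow) (f : Fc) (a : Alt) : Prop :=
  ∀ (K : ZMod 6 → Prop) (σ : Prop) (b : Rel), (∀ F G t, F.Le G → b G t → b F t) →
    GoodS T K σ b → FcOk K f → b a.F a.S

/-! ### fewer demands -/

/-- the demands `x` at the node `j` are among the demands `y` at the node `j'` -/
def leDb (x : ℕ) (j : ZMod 6) (y : ℕ) (j' : ZMod 6) : Bool :=
  (!lkd x j || lkd y j') && (!led x j || led y j') && (!rid x j || rid y j')

/-- the demands of `a` are among the demands of `b` rotated by `r` -/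
def leR (a b : Alt) (r : ZMod 6) : Bool :=
  all6 fun j => leDb a.r j b.r (j + r) && leDb a.l j b.l (j + r) && (!on a.s j || on b.s (j + r))

/-- the demands of `a` are among the demands of `b` -/
def leF (a b : Alt) : Bool :=
  all6 fun j => leDb a.r j b.r j && leDb a.l j b.l j && (!on a.s j || on b.s j)

theorem leDb_iff {x : ℕ} {j : ZMod 6} {y : ℕ} {j' : ZMod 6} : leDb x j y j' = true ↔
    (lkd x j = true → lkd y j' = true) ∧ (led x j = true → led y j' = true) ∧
      (rid x j = true → rid y j' = true) := by
  unfold leDb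
  cases lkd x j <;> cases led x j <;> cases rid x j <;> simp [and_assoc]

theorem leR_le {a b : Alt} {r : ZMod 6} (h : leR a b r = true) : a.F.Le (b.F.rot r) := by
  unfold leR at h
  rw [all6_iff] at h
  have h1 : ∀ (j : ZMod 6) (T : Bool), leDb (if T = true then a.r else a.l) j
      (if T = true then b.r else b.l) (j + r) = true := by
    intro j T
    have := h j
    simp only [Bool.and_eq_true] at this
    cases T
    · simpa using this.1.2
    · simpa using this.1.1
  refine ⟨fun j T => (leDb_iff.1 (h1 j T)).1, fun j T => (leDb_iff.1 (h1 j T)).2.1,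
    fun j T => (leDb_iff.1 (h1 j T)).2.2, fun j hj => ?_⟩
  have h2 := h j
  simp only [Bool.and_eq_true] at h2
  have h3 : on a.s j = true := hj
  have h4 := h2.2
  rw [h3] at h4
  exact h4

theorem leF_le {a b : Alt} (h : leF a b = true) : a.F.Le b.F := by
  have h1 : leR a b 0 = true := by
    unfold leF at h
    unfold leR
    simpa using h
  have h2 := leR_le h1
  rwa [Flags.rot_zero] at h2

/-! ### the check of a fact -/

/-- the last step of the check of a fact -/
def okB (a : Alt) (s : List (ZMod 6 × Alt)) : Bool :=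
  match s with
  | p :: _ => leR a p.2 p.1 && eqS a.S (p.2.S.rot p.1)
  | [] => false

/-- the check of a fact with a decision tree -/
def factB (T : List SRow) (f : Fc) (a : Alt) (x : List Ins) : Bool :=
  runC (fun _ g src r => clS T g src r) (fun s _ => okB a s) [f] x

theorem fact_of {T : List SRow} {f : Fc} {a : Alt} {x : List Ins} (h : factB T f a x = true) :
    Fact T f a := by
  intro K σ b hb hg hf
  refine runC_sound (R := fun _ r a' => b (a'.F.rot r) (a'.S.rot r)) (Kc := fun _ => K) h
    (fun _ j => hg.adj j) (fun c g hc => ?_) (fun c g src r s hg1 hs => hg.clause hg1 hs)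
    fun s t hs h1 => ?_
  · rcases c with _ | c
    · simp only [List.getElem?_cons_zero, Option.some.injEq] at hc
      rw [← hc]
      exact hf
    · simp at hc
  · unfold okB at hs
    split at hs
    · rename_i p s'
      rw [Bool.and_eq_true] at hs
      have h2 := h1 0 p (by simp)
      rw [eqS_iff.1 hs.2]
      exact hb _ _ _ (leR_le hs.1) h2
    · simp at hs

/-- the check of a list of facts -/
def factsB (T : List SRow) (L : List (Fc × Alt × List Ins)) : Bool :=
  L.all fun p => factB T p.1 p.2.1 p.2.2

/-- the facts of a list with certificates -/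
def factsL (L : List (Fc × Alt × List Ins)) : List (Fc × Alt) := L.map fun p => (p.1, p.2.1)

theorem facts_of {T : List SRow} {L : List (Fc × Alt × List Ins)} (h : factsB T L = true) :
    ∀ p ∈ factsL L, Fact T p.1 p.2 := by
  intro p hp
  unfold factsL at hp
  rw [List.mem_map] at hp
  obtain ⟨q, hq, rfl⟩ := hp
  unfold factsB at h
  rw [List.all_eq_true] at h
  exact fact_of (h q hq)

/-- the properties `g` are among the properties `f` -/
def subF (g f : Fc) : Bool := g.all fun p => f.any fun q => q.1 == p.1 && q.2 == p.2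

theorem subF_ok {K : ZMod 6 → Prop} {g f : Fc} (h : subF g f = true) (hf : FcOk K f) : FcOk K g := by
  intro p hp
  unfold subF at h
  rw [List.all_eq_true] at h
  have h1 := h p hp
  rw [List.any_eq_true] at h1
  obtain ⟨q, hq, h2⟩ := h1
  simp only [Bool.and_eq_true, beq_iff_eq] at h2
  rw [← h2.1, ← h2.2]
  exact hf q hq

/-- the fact `a` for the properties `f` is a consequence of a fact in the list -/
def lookB (L : List (Fc × Alt)) (f : Fc) (a : Alt) : Bool :=
  L.any fun p => Nat.beq p.2.m a.m && Nat.beq p.2.u a.u && leF a p.2 && subF p.1 f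

theorem lookB_fact {T : List SRow} {L : List (Fc × Alt)} (hL : ∀ p ∈ L, Fact T p.1 p.2) {f : Fc}
    {a : Alt} (h : lookB L f a = true) : Fact T f a := by
  unfold lookB at h
  rw [List.any_eq_true] at h
  obtain ⟨p, hp, h1⟩ := h
  simp only [Bool.and_eq_true] at h1
  obtain ⟨⟨⟨h2, h3⟩, h4⟩, h5⟩ := h1
  intro K σ b hb hg hf
  have h6 := hL p hp K σ b hb hg (subF_ok h5 hf)
  have h7 : a.S = p.2.S := by
    unfold Alt.S
    rw [Nat.eq_of_beq_eq_true h2, Nat.eq_of_beq_eq_true h3]
  rw [h7]
  exact hb _ _ _ (leF_le h4) h6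

/-! ### demands as numbers -/

/-- a digit for the demands of a node -/
def dgt (lk le ri : Bool) : ℕ :=
  bif lk then (bif le then (bif ri then 4 else 2) else (bif ri then 3 else 1)) else 0

theorem dgt_le (x y z : Bool) : dgt x y z ≤ 4 := by
  cases x <;> cases y <;> cases z <;> decide

/-- a number with the digits `x` at `0`, `y` at `4`, `z` at `5` -/
def n045 (x y z : ℕ) : ℕ := 100000 * x + (10 * y + z)

theorem dg_n045 {x y z : ℕ} (hx : x < 10) (hy : y < 10) (hz : z < 10) (j : ZMod 6) :
    dg (n045 x y z) j = if j = 0 then x else if j = 4 then y else if j = 5 then z else 0 := by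
  unfold dg n045
  rcases z6 j with rfl | rfl | rfl | rfl | rfl | rfl
  · show (100000 * x + (10 * y + z)) / 100000 % 10 = x
    omega
  · show (100000 * x + (10 * y + z)) / 10000 % 10 = 0
    omega
  · show (100000 * x + (10 * y + z)) / 1000 % 10 = 0
    omega
  · show (100000 * x + (10 * y + z)) / 100 % 10 = 0
    omega
  · show (100000 * x + (10 * y + z)) / 10 % 10 = y
    omega
  · show (100000 * x + (10 * y + z)) / 1 % 10 = z
    omega

theorem dgt_dg {x y z : Bool} {n : ℕ} {j : ZMod 6} (h : dg n j = dgt x y z) :
    lkd n j = x ∧ led n j = (x && y) ∧ rid n j = (x && z) := by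
  unfold lkd led rid
  rw [h]
  cases x <;> cases y <;> cases z <;> decide

section digits

variable {x y z x' y' z' x'' y'' z'' : Bool}

theorem n045_0 : lkd (n045 (dgt x y z) (dgt x' y' z') (dgt x'' y'' z'')) 0 = x ∧
    led (n045 (dgt x y z) (dgt x' y' z') (dgt x'' y'' z'')) 0 = (x && y) ∧
    rid (n045 (dgt x y z) (dgt x' y' z') (dgt x'' y'' z'')) 0 = (x && z) :=
  dgt_dg (by
    rw [dg_n045 (by have := dgt_le x y z; omega) (by have := dgt_le x' y' z'; omega)
      (by have := dgt_le x'' y'' z''; omega), if_pos rfl])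

theorem n045_4 : lkd (n045 (dgt x y z) (dgt x' y' z') (dgt x'' y'' z'')) 4 = x' ∧
    led (n045 (dgt x y z) (dgt x' y' z') (dgt x'' y'' z'')) 4 = (x' && y') ∧
    rid (n045 (dgt x y z) (dgt x' y' z') (dgt x'' y'' z'')) 4 = (x' && z') :=
  dgt_dg (by
    rw [dg_n045 (by have := dgt_le x y z; omega) (by have := dgt_le x' y' z'; omega)
      (by have := dgt_le x'' y'' z''; omega), if_neg (by decide), if_pos rfl])

theorem n045_5 : lkd (n045 (dgt x y z) (dgt x' y' z') (dgt x'' y'' z'')) 5 = x'' ∧
    led (n045 (dgt x y z) (dgt x' y' z') (dgt x'' y'' z'')) 5 = (x'' && y'') ∧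
    rid (n045 (dgt x y z) (dgt x' y' z') (dgt x'' y'' z'')) 5 = (x'' && z'') :=
  dgt_dg (by
    rw [dg_n045 (by have := dgt_le x y z; omega) (by have := dgt_le x' y' z'; omega)
      (by have := dgt_le x'' y'' z''; omega), if_neg (by decide), if_neg (by decide), if_pos rfl])

end digits

/-- a digit for a strict edge -/
def st1 (x : Bool) : ℕ := bif x then 1 else 0

theorem st1_dg {x : Bool} {n : ℕ} {j : ZMod 6} (h : dg n j = st1 x) (hx : x = true) :
    on n j = true := by
  unfold on
  rw [h, hx]
  rfl

/-- the demands of a link hexagon at the node with the demands `x` -/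
def lflD (x : ℕ) (j : ZMod 6) : ℕ :=
  n045 (dgt (lkd x j) (lkd x j) (lkd x j)) (dgt false false false) (dgt false false false)

/-- the demands of a link hexagon, with a state -/
def lflA (a : Alt) (j : ZMod 6) (m u : ℕ) : Alt := ⟨lflD a.r j, lflD a.l j, 0, m, u⟩

/-- the demands of a hexagon at the ring edge `k` with the demands `x` -/
def sflD (x : ℕ) (k : ZMod 6) : ℕ :=
  n045 (dgt (lkd x k) (led x k) (lkd x k)) (dgt false false false)
    (dgt (lkd x (k - 1)) (lkd x (k - 1)) (rid x (k - 1)))

/-- the demands of a hexagon at the ring edge `k`, with a state -/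
def sflA (a : Alt) (k : ZMod 6) (m u : ℕ) : Alt :=
  ⟨sflD a.r k, sflD a.l k, n045 (st1 (on a.s k)) 0 0, m, u⟩

/-- the demands of the corner hexagon at `c` with the demands `x` -/
def cflD (x : ℕ) (c : ZMod 6) : ℕ :=
  n045 (dgt (lkd x (c + 1)) (led x (c + 1)) (lkd x (c + 1)))
    (dgt (lkd x (c - 1)) (lkd x (c - 1)) (rid x (c - 1))) (dgt (lkd x c) (led x c) (rid x c))

/-- the demands of the corner hexagon at `c`, with a state -/
def cflA (a : Alt) (c : ZMod 6) (m u : ℕ) : Alt :=
  ⟨cflD a.r c, cflD a.l c, n045 (st1 (on a.s (c + 1))) 0 (st1 (on a.s c)), m, u⟩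

theorem ite_lflD (a : Alt) (T : Bool) (j : ZMod 6) :
    (if T = true then lflD a.r j else lflD a.l j) = lflD (if T = true then a.r else a.l) j := by
  split_ifs <;> rfl

theorem ite_sflD (a : Alt) (T : Bool) (j : ZMod 6) :
    (if T = true then sflD a.r j else sflD a.l j) = sflD (if T = true then a.r else a.l) j := by
  split_ifs <;> rfl

theorem ite_cflD (a : Alt) (T : Bool) (j : ZMod 6) :
    (if T = true then cflD a.r j else cflD a.l j) = cflD (if T = true then a.r else a.l) j := by
  split_ifs <;> rfl

theorem lflA_le (a : Alt) (j : ZMod 6) (m u : ℕ) : (lfl a.F j).Le (lflA a j m u).F := by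
  have key : ∀ T : Bool, lkd (if T = true then a.r else a.l) j = true →
      lkd (if T = true then lflD a.r j else lflD a.l j) 0 = true ∧
      led (if T = true then lflD a.r j else lflD a.l j) 0 = true ∧
      rid (if T = true then lflD a.r j else lflD a.l j) 0 = true := by
    intro T h
    rw [ite_lflD]
    have h0 := n045_0 (x := lkd (if T = true then a.r else a.l) j)
      (y := lkd (if T = true then a.r else a.l) j) (z := lkd (if T = true then a.r else a.l) j)
      (x' := false) (y' := false) (z' := false) (x'' := false) (y'' := false) (z'' := false)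
    rw [h] at h0
    unfold lflD
    rw [h]
    exact h0
  refine ⟨?_, ?_, ?_, ?_⟩
  · rintro b T ⟨rfl, h⟩
    exact (key T h).1
  · rintro b T ⟨rfl, h⟩
    exact (key T h).2.1
  · rintro b T ⟨rfl, h⟩
    exact (key T h).2.2
  · rintro b h
    exact h.elim

theorem sflA_le (a : Alt) (k : ZMod 6) (m u : ℕ) : (sfl a.F k).Le (sflA a k m u).F := by
  have h0 := fun x : ℕ => n045_0 (x := lkd x k) (y := led x k) (z := lkd x k)
    (x' := false) (y' := false) (z' := false) (x'' := lkd x (k - 1)) (y'' := lkd x (k - 1))
    (z'' := rid x (k - 1))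
  have h5 := fun x : ℕ => n045_5 (x := lkd x k) (y := led x k) (z := lkd x k)
    (x' := false) (y' := false) (z' := false) (x'' := lkd x (k - 1)) (y'' := lkd x (k - 1))
    (z'' := rid x (k - 1))
  refine ⟨?_, ?_, ?_, ?_⟩
  · rintro b T (⟨rfl, h⟩ | ⟨rfl, h⟩)
    · show lkd (if T = true then sflD a.r k else sflD a.l k) 0 = true
      rw [ite_sflD]
      exact (h0 _).1.trans h
    · show lkd (if T = true then sflD a.r k else sflD a.l k) 5 = true
      rw [ite_sflD]
      exact (h5 _).1.trans h
  · rintro b T (⟨rfl, h⟩ | ⟨rfl, h⟩)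
    · show led (if T = true then sflD a.r k else sflD a.l k) 0 = true
      rw [ite_sflD]
      refine (h0 _).2.1.trans ?_
      have h' : led (if T = true then a.r else a.l) k = true := h
      rw [h', led_lkd h']
      rfl
    · show led (if T = true then sflD a.r k else sflD a.l k) 5 = true
      rw [ite_sflD]
      refine (h5 _).2.1.trans ?_
      have h' : lkd (if T = true then a.r else a.l) (k - 1) = true := h
      rw [h']
      rfl
  · rintro b T (⟨rfl, h⟩ | ⟨rfl, h⟩)
    · show rid (if T = true then sflD a.r k else sflD a.l k) 0 = true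
      rw [ite_sflD]
      refine (h0 _).2.2.trans ?_
      have h' : lkd (if T = true then a.r else a.l) k = true := h
      rw [h']
      rfl
    · show rid (if T = true then sflD a.r k else sflD a.l k) 5 = true
      rw [ite_sflD]
      refine (h5 _).2.2.trans ?_
      have h' : rid (if T = true then a.r else a.l) (k - 1) = true := h
      rw [h', rid_lkd h']
      rfl
  · rintro b ⟨rfl, h⟩
    show on (n045 (st1 (on a.s k)) 0 0) 0 = true
    refine st1_dg (x := on a.s k) ?_ h
    rw [dg_n045 (by unfold st1; cases on a.s k <;> decide) (by decide) (by decide), if_pos rfl]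

theorem cflA_le (a : Alt) (c : ZMod 6) (m u : ℕ) : (DMap.cflags a.F c).Le (cflA a c m u).F := by
  have h0 := fun x : ℕ => n045_0 (x := lkd x (c + 1)) (y := led x (c + 1)) (z := lkd x (c + 1))
    (x' := lkd x (c - 1)) (y' := lkd x (c - 1)) (z' := rid x (c - 1)) (x'' := lkd x c)
    (y'' := led x c) (z'' := rid x c)
  have h4 := fun x : ℕ => n045_4 (x := lkd x (c + 1)) (y := led x (c + 1)) (z := lkd x (c + 1))
    (x' := lkd x (c - 1)) (y' := lkd x (c - 1)) (z' := rid x (c - 1)) (x'' := lkd x c)
    (y'' := led x c) (z'' := rid x c)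
  have h5 := fun x : ℕ => n045_5 (x := lkd x (c + 1)) (y := led x (c + 1)) (z := lkd x (c + 1))
    (x' := lkd x (c - 1)) (y' := lkd x (c - 1)) (z' := rid x (c - 1)) (x'' := lkd x c)
    (y'' := led x c) (z'' := rid x c)
  refine ⟨?_, ?_, ?_, ?_⟩
  · rintro b T (⟨rfl, h⟩ | ⟨rfl, h⟩ | ⟨rfl, h⟩)
    · show lkd (if T = true then cflD a.r c else cflD a.l c) 4 = true
      rw [ite_cflD]
      exact (h4 _).1.trans h
    · show lkd (if T = true then cflD a.r c else cflD a.l c) 5 = true
      rw [ite_cflD]
      exact (h5 _).1.trans h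
    · show lkd (if T = true then cflD a.r c else cflD a.l c) 0 = true
      rw [ite_cflD]
      exact (h0 _).1.trans h
  · rintro b T (⟨rfl, h⟩ | ⟨rfl, h⟩ | ⟨rfl, h⟩)
    · show led (if T = true then cflD a.r c else cflD a.l c) 4 = true
      rw [ite_cflD]
      refine (h4 _).2.1.trans ?_
      have h' : lkd (if T = true then a.r else a.l) (c - 1) = true := h
      rw [h']
      rfl
    · show led (if T = true then cflD a.r c else cflD a.l c) 5 = true
      rw [ite_cflD]
      refine (h5 _).2.1.trans ?_
      have h' : led (if T = true then a.r else a.l) c = true := h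
      rw [h', led_lkd h']
      rfl
    · show led (if T = true then cflD a.r c else cflD a.l c) 0 = true
      rw [ite_cflD]
      refine (h0 _).2.1.trans ?_
      have h' : led (if T = true then a.r else a.l) (c + 1) = true := h
      rw [h', led_lkd h']
      rfl
  · rintro b T (⟨rfl, h⟩ | ⟨rfl, h⟩ | ⟨rfl, h⟩)
    · show rid (if T = true then cflD a.r c else cflD a.l c) 4 = true
      rw [ite_cflD]
      refine (h4 _).2.2.trans ?_
      have h' : rid (if T = true then a.r else a.l) (c - 1) = true := h
      rw [h', rid_lkd h']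
      rfl
    · show rid (if T = true then cflD a.r c else cflD a.l c) 5 = true
      rw [ite_cflD]
      refine (h5 _).2.2.trans ?_
      have h' : rid (if T = true then a.r else a.l) c = true := h
      rw [h', rid_lkd h']
      rfl
    · show rid (if T = true then cflD a.r c else cflD a.l c) 0 = true
      rw [ite_cflD]
      refine (h0 _).2.2.trans ?_
      have h' : lkd (if T = true then a.r else a.l) (c + 1) = true := h
      rw [h']
      rfl
  · have hs : ∀ x : Bool, st1 x < 10 := fun x => by cases x <;> decide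
    rintro b (⟨rfl, h⟩ | ⟨rfl, h⟩)
    · show on (n045 (st1 (on a.s (c + 1))) 0 (st1 (on a.s c))) 5 = true
      refine st1_dg (x := on a.s c) ?_ h
      rw [dg_n045 (hs _) (by decide) (hs _), if_neg (by decide), if_neg (by decide), if_pos rfl]
    · show on (n045 (st1 (on a.s (c + 1))) 0 (st1 (on a.s c))) 0 = true
      refine st1_dg (x := on a.s (c + 1)) ?_ h
      rw [dg_n045 (hs _) (by decide) (hs _), if_pos rfl]

theorem lflA_S (a : Alt) (j : ZMod 6) (m u : ℕ) : (lflA a j m u).S = stt m u := rfl

theorem sflA_S (a : Alt) (k : ZMod 6) (m u : ℕ) : (sflA a k m u).S = stt m u := rfl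

theorem cflA_S (a : Alt) (c : ZMod 6) (m u : ℕ) : (cflA a c m u).S = stt m u := rfl

section boxes

variable {T : List SRow} {K : ZMod 6 → Prop} {σ : Prop} {b : Rel} {m u : ℕ} {a : Alt}

/-- a link hexagon -/
theorem Fact.lfl (j : ZMod 6) (h : Fact T [] (lflA a j m u))
    (hb : ∀ F G t, F.Le G → b G t → b F t) (hg : GoodS T K σ b) :
    b (GT33.lfl a.F j) (stt m u) :=
  hb _ _ _ (lflA_le a j m u) (h K σ b hb hg fun p hp => by simp at hp)

/-- a hexagon at a ring edge -/
theorem Fact.sfl (k : ZMod 6) (h : Fact T [] (sflA a k m u))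
    (hb : ∀ F G t, F.Le G → b G t → b F t) (hg : GoodS T K σ b) :
    b (GT33.sfl a.F k) (stt m u) :=
  hb _ _ _ (sflA_le a k m u) (h K σ b hb hg fun p hp => by simp at hp)

/-- a corner hexagon -/
theorem Fact.cfl (c : ZMod 6) (h : Fact T [(5, false)] (cflA a c m u))
    (hb : ∀ F G t, F.Le G → b G t → b F t) (hg : GoodS T K σ b) (hK : ¬ K 5) :
    b (DMap.cflags a.F c) (stt m u) :=
  hb _ _ _ (cflA_le a c m u) (h K σ b hb hg fun p hp => by
    rw [List.mem_singleton] at hp
    subst hp
    exact ⟨fun h => absurd h (by simp), fun h => absurd h hK⟩)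

end boxes

end Chk

end GT33
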