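import Pool.Agent.GT33.DState

/-!
# GT33 module TAB: the table of states

`EE 4`: the eight states of a quad (two pairings, one more unit anywhere).  `EE 6`: the 54 states of a hexagon
patch, ten states up to rotation.
-/

namespace GT33

/-- the quad state with the isolated corners `c`, `c + 2` and the additional unit at `k` -/
def qst (c k : ZMod 4) : PState 4 where
  m i := if i = c ∨ i = c + 2 then i + 1 else i - 1
  u i := (if i = c + 1 ∨ i = c + 3 then 1 else 0) + if i = k then 1 else 0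

/-- the matching of a hexagon with the isolated corners `0, 2, 4` -/
def hm3 (i : ZMod 6) : ZMod 6 := (![1, 0, 3, 2, 5, 4] : Fin 6 → ZMod 6) i

/-- the matching of a hexagon with the isolated corners `0, 3` -/
def hm2 (i : ZMod 6) : ZMod 6 := (![1, 0, 5, 4, 3, 2] : Fin 6 → ZMod 6) i

/-- the ten states of a hexagon with the unit `0` at the corner `0` -/
def hst (j : Fin 10) : PState 6 where
  m := if j.val < 4 then hm3 else hm2
  u i := ((![![0, 2, 1, 1, 1, 1], ![0, 1, 1, 1, 1, 2], ![0, 2, 0, 1, 1, 2], ![0, 2, 0, 2, 1, 1],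
    ![0, 2, 1, 1, 1, 1], ![0, 1, 1, 1, 1, 2], ![0, 1, 2, 1, 1, 1], ![0, 1, 1, 1, 2, 1],
    ![0, 2, 1, 0, 2, 1], ![0, 1, 2, 0, 1, 2]] : Fin 10 → Fin 6 → ℕ) j) i

/-- the states of the quads and of the hexagons -/
def EE : (n : ℕ) → PState n → Prop
  | 4, s => ∃ c k, s = qst c k
  | 6, s => ∃ j c, s = (hst j).rot c
  | _, _ => False

theorem EE_four {s : PState 4} : EE 4 s ↔ ∃ c k, s = qst c k := Iff.rfl

theorem EE_six {s : PState 6} : EE 6 s ↔ ∃ j c, s = (hst j).rot c := Iff.rfl

theorem EE_n {n : ℕ} {s : PState n} (h : EE n s) : n = 4 ∨ n = 6 := by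
  unfold EE at h
  split at h
  · exact Or.inl rfl
  · exact Or.inr rfl
  · exact h.elim

theorem PState.ext' {n : ℕ} {s t : PState n} (h1 : ∀ i, s.m i = t.m i) (h2 : ∀ i, s.u i = t.u i) :
    s = t := by
  cases s
  cases t
  congr
  · exact funext h1
  · exact funext h2

theorem rot_rot {n : ℕ} (s : PState n) (a b : ZMod n) : (s.rot a).rot b = s.rot (a + b) := by
  refine PState.ext' (fun i => ?_) fun i => ?_
  · simp only [PState.rot]
    rw [sub_sub]
    congr 2
    ring
  · simp only [PState.rot]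
    congr 1
    ring

theorem EE.rot {n : ℕ} {s : PState n} (h : EE n s) (c : ZMod n) : EE n (s.rot c) := by
  rcases EE_n h with rfl | rfl
  · obtain ⟨a, k, rfl⟩ := h
    refine ⟨a - c, k - c, PState.ext' ?_ ?_⟩
    · revert a c k
      decide
    · revert a c k
      decide
  · obtain ⟨j, a, rfl⟩ := h
    exact ⟨j, a + c, rot_rot _ _ _⟩

theorem q4_of_EE (s : PState 4) (h : EE 4 s) :
    ∃ c : ZMod 4, (∀ i, s.m i = if i = c ∨ i = c + 2 then i + 1 else i - 1) ∧
      1 ≤ s.u (c + 1) ∧ 1 ≤ s.u (c + 3) := by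
  obtain ⟨c, k, rfl⟩ := h
  refine ⟨c, fun i => rfl, ?_, ?_⟩
  · revert c k
    decide
  · revert c k
    decide

theorem EE6_sum {s : PState 6} (h : EE 6 s) :
    s.u 0 + s.u 1 + s.u 2 + s.u 3 + s.u 4 + s.u 5 = 6 := by
  obtain ⟨j, c, rfl⟩ := h
  revert j c
  decide

theorem EE4_sum {s : PState 4} (h : EE 4 s) : s.u 0 + s.u 1 + s.u 2 + s.u 3 = 3 := by
  obtain ⟨c, k, rfl⟩ := h
  revert c k
  decide

/-- adjacent corners are not both without units -/
theorem EE_adj {n : ℕ} {s : PState n} (h : EE n s) (i : ZMod n) : 1 ≤ s.u i + s.u (i + 1) := by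
  rcases EE_n h with rfl | rfl
  · obtain ⟨c, k, rfl⟩ := h
    revert c k i
    decide
  · obtain ⟨j, c, rfl⟩ := h
    revert j c i
    decide

/-- three consecutive corners of a hexagon have at least two units -/
theorem EE6_three {s : PState 6} (h : EE 6 s) (i : ZMod 6) :
    2 ≤ s.u (i - 1) + s.u i + s.u (i + 1) := by
  obtain ⟨j, c, rfl⟩ := h
  revert j c i
  decide

/-- four consecutive corners of a hexagon have at least three units -/
theorem EE6_four {s : PState 6} (h : EE 6 s) (i : ZMod 6) :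
    3 ≤ s.u (i - 1) + s.u i + s.u (i + 1) + s.u (i + 2) := by
  obtain ⟨j, c, rfl⟩ := h
  revert j c i
  decide

theorem EE_le {n : ℕ} {s : PState n} (h : EE n s) (i : ZMod n) : s.u i ≤ 2 := by
  rcases EE_n h with rfl | rfl
  · obtain ⟨c, k, rfl⟩ := h
    revert c k i
    decide
  · obtain ⟨j, c, rfl⟩ := h
    revert j c i
    decide

/-- a corner without units is isolated -/
theorem EE_zero {n : ℕ} {s : PState n} (h : EE n s) (i : ZMod n) (hi : s.u i = 0) :
    s.m i = i + 1 ∧ s.m (i + 1) = i := by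
  rcases EE_n h with rfl | rfl
  · obtain ⟨c, k, rfl⟩ := h
    revert c k i
    decide
  · obtain ⟨j, c, rfl⟩ := h
    revert j c i
    decide

theorem EE_inv {n : ℕ} {s : PState n} (h : EE n s) (i : ZMod n) : s.m (s.m i) = i ∧ s.m i ≠ i := by
  rcases EE_n h with rfl | rfl
  · obtain ⟨c, k, rfl⟩ := h
    revert c k i
    decide
  · obtain ⟨j, c, rfl⟩ := h
    revert j c i
    decide

/-- every state of a hexagon has a corner without units -/
theorem EE6_exists_zero {s : PState 6} (h : EE 6 s) : ∃ i, s.u i = 0 := by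
  obtain ⟨j, c, rfl⟩ := h
  revert j c
  decide

end GT33
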