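import Pool.Agent.GT33.DRing
import Pool.Agent.GT33.Tab

/-!
# GT33 module EXACT: ring exactness with corners

A ring node `i` is a corner if `nx (δ i) = δ (i + 1)`, that is, it has only one sector inside the patch.  If the
states of the hexagons have enough units on consecutive corners then in every state of a patch all units
of the ring are at the edge faces, and at the nodes which are no corners the units of the edge face `i` are
`o i` at the node `i` and `1 - o i` at the node `i - 1`.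
-/

open Classical

namespace GT33

/-! ### the combinatorial core -/

theorem ring_comb {c : ZMod 6 → Prop} {u n p r o : ZMod 6 → ℕ}
    (h1 : ∀ i, c i → n i = u i ∧ p (i + 1) = u i)
    (h2 : ∀ i, ¬ c i → u i = n i + p (i + 1) + r i)
    (W1 : ∀ i, 1 ≤ p i + n i)
    (W2 : ∀ i, c i → 2 ≤ p i + u i + n (i + 1))
    (W3 : ∀ i, c i → c (i + 1) → 3 ≤ p i + u i + u (i + 1) + n (i + 2))
    (W4 : ∀ i, c i → c (i + 1) → c (i + 2) → 4 ≤ p i + u i + u (i + 1) + u (i + 2) + n (i + 3))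
    (W5 : ∀ i, c i → c (i + 1) → c (i + 2) → c (i + 3) →
      5 ≤ p i + u i + u (i + 1) + u (i + 2) + u (i + 3) + n (i + 4))
    (W6 : ∀ i, c i → c (i + 1) → c (i + 2) → c (i + 3) → ¬ c (i + 4))
    (ho : ∀ i, u i + o (i + 1) = o i + 1) (ho1 : ∀ i, o i ≤ 1) (hz : ∃ i, u i = 0)
    (h0 : ¬ c 0) : r 0 = 0 ∧ n 0 = o 0 ∧ p 1 + o 1 = 1 := by
  have key : ∀ P : ZMod 6 → Prop, (∀ i, P i) → P 0 ∧ P 1 ∧ P 2 ∧ P 3 ∧ P 4 ∧ P 5 :=
    fun P h => ⟨h 0, h 1, h 2, h 3, h 4, h 5⟩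
  have hz' : u 0 = 0 ∨ u 1 = 0 ∨ u 2 = 0 ∨ u 3 = 0 ∨ u 4 = 0 ∨ u 5 = 0 := by
    obtain ⟨i, hi⟩ := hz
    have : ∀ i : ZMod 6, i = 0 ∨ i = 1 ∨ i = 2 ∨ i = 3 ∨ i = 4 ∨ i = 5 := by decide
    rcases this i with rfl | rfl | rfl | rfl | rfl | rfl <;> simp [hi]
  have e01 : (0 : ZMod 6) + 1 = 1 := rfl
  have e02 : (0 : ZMod 6) + 2 = 2 := rfl
  have e03 : (0 : ZMod 6) + 3 = 3 := rfl
  have e04 : (0 : ZMod 6) + 4 = 4 := rfl
  have e11 : (1 : ZMod 6) + 1 = 2 := rfl
  have e12 : (1 : ZMod 6) + 2 = 3 := rfl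
  have e13 : (1 : ZMod 6) + 3 = 4 := rfl
  have e14 : (1 : ZMod 6) + 4 = 5 := rfl
  have e21 : (2 : ZMod 6) + 1 = 3 := rfl
  have e22 : (2 : ZMod 6) + 2 = 4 := rfl
  have e23 : (2 : ZMod 6) + 3 = 5 := rfl
  have e24 : (2 : ZMod 6) + 4 = 0 := rfl
  have e31 : (3 : ZMod 6) + 1 = 4 := rfl
  have e32 : (3 : ZMod 6) + 2 = 5 := rfl
  have e33 : (3 : ZMod 6) + 3 = 0 := rfl
  have e34 : (3 : ZMod 6) + 4 = 1 := rfl
  have e41 : (4 : ZMod 6) + 1 = 5 := rfl
  have e42 : (4 : ZMod 6) + 2 = 0 := rfl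
  have e43 : (4 : ZMod 6) + 3 = 1 := rfl
  have e44 : (4 : ZMod 6) + 4 = 2 := rfl
  have e51 : (5 : ZMod 6) + 1 = 0 := rfl
  have e52 : (5 : ZMod 6) + 2 = 1 := rfl
  have e53 : (5 : ZMod 6) + 3 = 2 := rfl
  have e54 : (5 : ZMod 6) + 4 = 3 := rfl
  have k1 := key _ h1
  have k2 := key _ h2
  have w1 := key _ W1
  have w2 := key _ W2
  have w3 := key _ W3
  have w4 := key _ W4
  have w5 := key _ W5
  have w6 := key _ W6
  have ko := key _ ho
  have ko1 := key _ ho1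
  simp only [e01, e02, e03, e04, e11, e12, e13, e14, e21, e22, e23, e24, e31, e32, e33, e34,
    e41, e42, e43, e44, e51, e52, e53, e54, h0, false_imp_iff, not_false_eq_true, true_imp_iff,
    true_and, and_true, imp_true_iff] at k1 k2 w1 w2 w3 w4 w5 w6 ko ko1
  clear h1 h2 W1 W2 W3 W4 W5 W6 ho ho1 hz key
  by_cases c1 : c 1 <;> by_cases c2 : c 2 <;> by_cases c3 : c 3 <;> by_cases c4 : c 4 <;>
    by_cases c5 : c 5 <;>
    simp only [c1, c2, c3, c4, c5, false_imp_iff, not_false_eq_true, true_imp_iff, true_and,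
      and_true, imp_true_iff, not_true_eq_false, imp_false, and_self] at k1 k2 w2 w3 w4 w5 w6 <;>
    omega


/-- windows of consecutive corners of quads and hexagons -/
structure Windows (E : (n : ℕ) → PState n → Prop) : Prop where
  n : ∀ {n : ℕ} {s : PState n}, E n s → n = 4 ∨ n = 6
  adj : ∀ {n : ℕ} {s : PState n}, E n s → ∀ i, 1 ≤ s.u (i - 1) + s.u i
  w2 : ∀ {s : PState 6}, E 6 s → ∀ i, 2 ≤ s.u (i - 1) + s.u i + s.u (i + 1)
  w3 : ∀ {s : PState 6}, E 6 s → ∀ i, 3 ≤ s.u (i - 1) + s.u i + s.u (i + 1) + s.u (i + 2)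
  w4 : ∀ {s : PState 6}, E 6 s → ∀ i,
    4 ≤ s.u (i - 1) + s.u i + s.u (i + 1) + s.u (i + 2) + s.u (i + 3)
  w5 : ∀ {s : PState 6}, E 6 s → ∀ i,
    5 ≤ s.u (i - 1) + s.u i + s.u (i + 1) + s.u (i + 2) + s.u (i + 3) + s.u (i + 4)
  sum : ∀ {s : PState 6}, E 6 s → ∀ i,
    s.u i + s.u (i + 1) + s.u (i + 2) + s.u (i + 3) + s.u (i + 4) + s.u (i + 5) = 6

theorem windows_EE : Windows EE where
  n h := EE_n h
  adj h i := by
    have := EE_adj h (i - 1)
    rwa [sub_add_cancel] at this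
  w2 h i := EE6_three h i
  w3 h i := EE6_four h i
  w4 h i := by
    obtain ⟨j, c, rfl⟩ := h
    revert j c i
    decide
  w5 h i := by
    obtain ⟨j, c, rfl⟩ := h
    revert j c i
    decide
  sum h i := by
    obtain ⟨j, c, rfl⟩ := h
    revert j c i
    decide

/-- the first units of the edge faces -/
def ofs (u : ZMod 6 → ℕ) (i : ZMod 6) : ℕ :=
  if u i ≠ 1 then u i / 2 else if u (i + 1) ≠ 1 then u (i + 1) / 2 else
  if u (i + 2) ≠ 1 then u (i + 2) / 2 else if u (i + 3) ≠ 1 then u (i + 3) / 2 else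
  if u (i + 4) ≠ 1 then u (i + 4) / 2 else u (i + 5) / 2

theorem ofs_spec {s : PState 6} (h : EE 6 s) (i : ZMod 6) :
    s.u i + ofs s.u (i + 1) = ofs s.u i + 1 ∧ ofs s.u i ≤ 1 := by
  obtain ⟨j, c, rfl⟩ := h
  revert j c i
  decide

theorem ofs_zero {s : PState 6} (h : EE 6 s) (i : ZMod 6) (hi : s.u i = 0) :
    ofs s.u i = 0 ∧ ofs s.u (i + 1) = 1 := by
  have h1 := ofs_spec h i
  have h2 := ofs_spec h (i + 1)
  omega

theorem ofs_exists {s : PState 6} (h : EE 6 s) :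
    (∃ i, ofs s.u i = 0) ∧ ∃ i, ofs s.u i = 1 := by
  obtain ⟨i, hi⟩ := EE6_exists_zero h
  exact ⟨⟨i, (ofs_zero h i hi).1⟩, ⟨i + 1, (ofs_zero h i hi).2⟩⟩

namespace DMap

namespace Patch

variable {D : Type} {M : DMap D} {A : D → Prop} {δ : ZMod 6 → D}

/-- the ring node `i` is a corner -/
def Cor (M : DMap D) (δ : ZMod 6 → D) (i : ZMod 6) : Prop := M.nx (δ i) = δ (i + 1)

/-- the sectors of a corner -/
theorem cor_node [Finite D] (hP : M.Patch A δ) {i : ZMod 6} (hc : Cor M δ i) {e : D}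
    (he : M.SameNode (δ i) e) : e = δ i ∨ e = M.al (δ (i + 1)) := by
  obtain ⟨k, rfl⟩ := he
  have h1 : M.fs (δ i) = M.al (δ (i + 1)) := hP.fs_δ i
  have h2 : M.fs (M.al (δ (i + 1))) = δ i := by
    rw [fs_al, ← hc, Equiv.symm_apply_apply]
  have h3 : M.fs.symm (δ i) = M.al (δ (i + 1)) := by rw [← h2, Equiv.symm_apply_apply]
  have h4 : M.fs.symm (M.al (δ (i + 1))) = δ i := by rw [← h1, Equiv.symm_apply_apply]
  induction k with
  | zero => exact Or.inl rfl
  | succ k ih =>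
    rw [add_comm, zpow_one_add, Equiv.Perm.mul_apply]
    rcases ih with h | h
    · rw [h]; exact Or.inr h1
    · rw [h]; exact Or.inl h2
  | pred k ih =>
    rw [sub_eq_add_neg, add_comm, zpow_add, Equiv.Perm.mul_apply, zpow_neg_one]
    rcases ih with h | h
    · rw [h]; exact Or.inr h3
    · rw [h]; exact Or.inl h4

theorem cor_usum [Fintype D] (hP : M.Patch A δ) {i : ZMod 6} (hc : Cor M δ i) (ω : D → ℕ) :
    M.usum A ω (δ i) = ω (δ i) := by
  have h1 : M.nodeIn A (δ i) = {δ i} := by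
    ext e
    rw [mem_nodeIn, Finset.mem_singleton]
    constructor
    · rintro ⟨h2, h3⟩
      rcases hP.cor_node hc h2 with h | h
      · exact h
      · exact absurd (h ▸ h3) (hP.notA _)
    · rintro rfl
      exact ⟨Equiv.Perm.SameCycle.refl _ _, hP.inA i⟩
  unfold usum
  rw [h1, Finset.sum_singleton]

/-- five consecutive corners: the patch is a single hexagon -/
theorem single_of_cor [Finite D] (hP : M.Patch A δ) (i : ZMod 6) (h0 : Cor M δ i)
    (h1 : Cor M δ (i + 1)) (h2 : Cor M δ (i + 2)) (h3 : Cor M δ (i + 3)) (h4 : Cor M δ (i + 4)) :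
    ∀ e, A e ↔ M.SameSite (δ i) e := by
  have s1 : ∀ j, Cor M δ j → M.SameSite (δ j) (δ (j + 1)) := fun j hj => ⟨1, by
    rw [zpow_one]; exact hj⟩
  have e2 : i + 1 + 1 = i + 2 := by ring
  have e3 : i + 2 + 1 = i + 3 := by ring
  have e4 : i + 3 + 1 = i + 4 := by ring
  have e5 : i + 4 + 1 = i + 5 := by ring
  have t1 := s1 _ h0
  have t2 := t1.trans (e2 ▸ s1 _ h1)
  have t3 := t2.trans (e3 ▸ s1 _ h2)
  have t4 := t3.trans (e4 ▸ s1 _ h3)
  have t5 := t4.trans (e5 ▸ s1 _ h4)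
  have hS : ∀ j, M.SameSite (δ i) (δ j) := by
    intro j
    have h6 : ∀ k : ZMod 6, k = 0 ∨ k = 1 ∨ k = 2 ∨ k = 3 ∨ k = 4 ∨ k = 5 := by decide
    have h7 : j = i + (j - i) := by ring
    rcases h6 (j - i) with h | h | h | h | h | h <;> rw [h7, h]
    · rw [add_zero]
    · exact t1
    · exact t2
    · exact t3
    · exact t4
    · exact t5
  have hSA : ∀ e, M.SameSite (δ i) e → A e := fun e he =>
    (Sites.same (M := M) hP.sites he).1 (hP.inA i)
  have : Fintype D := Fintype.ofFinite D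
  -- all darts of the site are ring darts
  have hdeg : M.deg (δ i) = 6 ∧ ∀ e, M.SameSite (δ i) e → ∃ j, δ j = e := by
    have hc := card_site (M := M) (δ i) (Finset.univ.filter fun e => M.SameSite (δ i) e)
      (fun e => by simp)
    have hsub : (Finset.univ.image δ) ⊆ Finset.univ.filter fun e => M.SameSite (δ i) e := by
      intro e he
      obtain ⟨j, -, rfl⟩ := Finset.mem_image.1 he
      simp only [Finset.mem_filter, Finset.mem_univ, true_and]
      exact hS j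
    have hcard : (Finset.univ.image δ).card = 6 := by
      rw [Finset.card_image_of_injective _ hP.bd.inj]
      rfl
    have hle := Finset.card_le_card hsub
    have h6 : M.deg (δ i) = 6 := by
      rcases hP.legal.deg (δ i) with h | h
      · omega
      · exact h
    refine ⟨h6, fun e he => ?_⟩
    have heq := Finset.eq_of_subset_of_card_le hsub (by omega)
    have : e ∈ Finset.univ.image δ := by
      rw [heq]
      simpa using he
    obtain ⟨j, -, hj⟩ := Finset.mem_image.1 this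
    exact ⟨j, hj⟩
  intro e
  refine ⟨fun he => ?_, hSA e⟩
  by_contra hne
  have hB : M.Sites fun d => A d ∧ ¬ M.SameSite (δ i) d :=
    Sites.and (M := M) hP.sites (sites_site (δ i)).not
  obtain ⟨r, hr⟩ := hP.exists_root
  refine hr (hP.legal.plane.conn _ hB ?_ ⟨e, he, hne⟩ r).1
  rintro d ⟨hd1, hd2⟩
  have h5 : A (M.al d) := by
    by_contra h5
    obtain ⟨j, hj⟩ := (hP.bd.mem d).1 ⟨hd1, h5⟩
    exact hd2 (hj ▸ hS j)
  refine ⟨h5, fun h6 => ?_⟩
  obtain ⟨j, hj⟩ := hdeg.2 _ h6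
  refine hP.notA j ?_
  rw [hj, M.inv]
  exact hd1

/-- **Ring exactness with corners.** -/
theorem ring_exact' [Fintype D] (hP : M.Patch A δ) {E : (n : ℕ) → PState n → Prop}
    (hE : Windows E) {u : ZMod 6 → ℕ} {μ : D → D} {ω : D → ℕ}
    (hloc : ∀ d, A d → M.LocalAt E μ ω d) (hb : ∀ i, M.usum A ω (δ i) = u i)
    {o : ZMod 6 → ℕ} (ho : ∀ i, u i + o (i + 1) = o i + 1) (ho1 : ∀ i, o i ≤ 1)
    (hz : ∃ i, u i = 0)
    (hc : ∀ i, Cor M δ i → M.deg (δ i) = 6 ∨ (u i = 0 ∧ ¬ Cor M δ (i + 1) ∧ ¬ Cor M δ (i - 1)))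
    (hne : ¬ ∃ r, ∀ e, A e ↔ M.SameSite r e) :
    (∀ i e, M.SameNode (δ i) e → A e → e ≠ δ i → e ≠ M.nx.symm (δ (i + 1)) → ω e = 0) ∧
    ∀ i, ¬ Cor M δ i → ω (δ i) = o i ∧ ω (M.nx.symm (δ (i + 1))) + o (i + 1) = 1 := by
  -- the rest
  let R : ZMod 6 → Finset D := fun i =>
    ((M.nodeIn A (δ i)).erase (δ i)).erase (M.nx.symm (δ (i + 1)))
  have hsplit : ∀ i, ¬ Cor M δ i → u i = ω (δ i) + ω (M.nx.symm (δ (i + 1))) +
      ∑ e ∈ R i, ω e := by
    intro i hi
    have hne' : δ i ≠ M.nx.symm (δ (i + 1)) := fun h => hi ((hP.corner_iff i (i + 1)).1 h).2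
    have h1 : δ i ∈ M.nodeIn A (δ i) := mem_nodeIn.2 ⟨Equiv.Perm.SameCycle.refl _ _, hP.inA i⟩
    have h2 : M.nx.symm (δ (i + 1)) ∈ (M.nodeIn A (δ i)).erase (δ i) :=
      Finset.mem_erase.2 ⟨hne'.symm, mem_nodeIn.2 ⟨hP.prev_node i, hP.prev_in _⟩⟩
    rw [← hb i]
    unfold usum
    rw [← Finset.add_sum_erase _ _ h1, ← Finset.add_sum_erase _ _ h2, add_assoc]
  -- the numbering of the site of an edge face
  have hnum : ∀ i, ∃ (m : ℕ) (γ : ZMod m → D) (t : PState m) (a : ZMod m), E m t ∧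
      M.deg (δ i) = m ∧ γ a = δ i ∧ (∀ j, M.nx (γ j) = γ (j + 1)) ∧ ∀ j, ω (γ j) = t.u j := by
    intro i
    obtain ⟨m, γ, t, hm, hγ, ⟨a, ha⟩, ht, hst⟩ := hloc _ (hP.inA i)
    exact ⟨m, γ, t, a, ht, by rw [← ha]; exact hγ.deg a, ha, hγ.nx, fun j => (hst j).2⟩
  have hprev : ∀ {m : ℕ} {γ : ZMod m → D}, (∀ j, M.nx (γ j) = γ (j + 1)) →
      ∀ {a : ZMod m} {d : D}, γ a = d → M.nx.symm d = γ (a - 1) := by
    intro m γ hγ a d ha
    rw [Equiv.symm_apply_eq, hγ, sub_add_cancel, ha]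
  have hnext : ∀ {m : ℕ} {γ : ZMod m → D}, (∀ j, M.nx (γ j) = γ (j + 1)) →
      ∀ {a : ZMod m} {i : ZMod 6}, γ a = δ i → Cor M δ i → γ (a + 1) = δ (i + 1) := by
    intro m γ hγ a i ha hi
    rw [← hγ, ha]
    exact hi
  -- corners of quads
  have hcu : ∀ i, Cor M δ i → ω (δ i) = u i := fun i hi => by rw [← hb i, hP.cor_usum hi]
  have hquad : ∀ i, Cor M δ i → M.deg (δ i) = 4 → u i = 0 ∧ ¬ Cor M δ (i + 1) := by
    intro i hi h4
    rcases hc i hi with h | h
    · omega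
    · exact ⟨h.1, h.2.1⟩
  have main : ∀ i, ¬ Cor M δ i → ∑ e ∈ R i, ω e = 0 ∧ ω (δ i) = o i ∧
      ω (M.nx.symm (δ (i + 1))) + o (i + 1) = 1 := by
    intro i₀ hi₀
    have e0 : ∀ i k : ZMod 6, i + k + i₀ = (i + i₀) + k := fun i k => by ring
    have := ring_comb (c := fun i => Cor M δ (i + i₀)) (u := fun i => u (i + i₀))
      (n := fun i => ω (δ (i + i₀))) (p := fun i => ω (M.nx.symm (δ (i + i₀))))
      (r := fun i => ∑ e ∈ R (i + i₀), ω e) (o := fun i => o (i + i₀)) ?_ ?_ ?_ ?_ ?_ ?_ ?_ ?_ ?_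
      ?_ ?_ ?_
    · simpa [add_comm] using this
    · intro i hi
      have h1 := (hP.corner_iff (i + i₀) (i + i₀ + 1)).2 ⟨rfl, hi⟩
      refine ⟨hcu _ hi, ?_⟩
      rw [e0, ← h1]
      exact hcu _ hi
    · intro i hi
      rw [e0]
      exact hsplit _ hi
    · intro i
      obtain ⟨m, γ, t, a, ht, -, ha, hγ, hω⟩ := hnum (i + i₀)
      rw [← ha, hprev hγ rfl, hω, hω]
      exact hE.adj ht a
    · intro i hi
      rw [e0]
      obtain ⟨m, γ, t, a, ht, hd, ha, hγ, hω⟩ := hnum (i + i₀)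
      have h1 := hnext hγ ha hi
      rw [← hcu _ hi, ← h1, ← ha, hprev hγ rfl, hω, hω, hω]
      rcases hE.n ht with rfl | rfl
      · have h2 := hcu _ hi
        rw [(hquad _ hi hd).1, ← ha, hω] at h2
        have h3 := hE.adj ht a
        have h4 := hE.adj ht (a + 1)
        rw [add_sub_cancel_right] at h4
        omega
      · exact hE.w2 ht a
    · intro i hi hi1
      rw [e0] at hi1
      rw [e0, e0]
      obtain ⟨m, γ, t, a, ht, hd, ha, hγ, hω⟩ := hnum (i + i₀)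
      rcases hE.n ht with rfl | rfl
      · exact absurd hi1 (hquad _ hi hd).2
      have h1 := hnext hγ ha hi
      have h2 := hnext hγ h1 hi1
      have e2 : i + i₀ + 1 + 1 = i + i₀ + 2 := by ring
      have f2 : a + 1 + 1 = a + 2 := by ring
      rw [e2, f2] at h2
      rw [← hcu _ hi, ← hcu _ hi1, ← h2, ← h1, ← ha, hprev hγ rfl, hω, hω, hω, hω]
      exact hE.w3 ht a
    · intro i hi hi1 hi2
      rw [e0] at hi1 hi2
      rw [e0, e0, e0]
      obtain ⟨m, γ, t, a, ht, hd, ha, hγ, hω⟩ := hnum (i + i₀)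
      rcases hE.n ht with rfl | rfl
      · exact absurd hi1 (hquad _ hi hd).2
      have h1 := hnext hγ ha hi
      have h2 := hnext hγ h1 hi1
      have e2 : i + i₀ + 1 + 1 = i + i₀ + 2 := by ring
      have f2 : a + 1 + 1 = a + 2 := by ring
      rw [e2, f2] at h2
      have h3 := hnext hγ h2 hi2
      have e3 : i + i₀ + 2 + 1 = i + i₀ + 3 := by ring
      have f3 : a + 2 + 1 = a + 3 := by ring
      rw [e3, f3] at h3
      rw [← hcu _ hi, ← hcu _ hi1, ← hcu _ hi2, ← h3, ← h2, ← h1, ← ha, hprev hγ rfl, hω, hω, hω,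
        hω, hω]
      exact hE.w4 ht a
    · intro i hi hi1 hi2 hi3
      rw [e0] at hi1 hi2 hi3
      rw [e0, e0, e0, e0]
      obtain ⟨m, γ, t, a, ht, hd, ha, hγ, hω⟩ := hnum (i + i₀)
      rcases hE.n ht with rfl | rfl
      · exact absurd hi1 (hquad _ hi hd).2
      have h1 := hnext hγ ha hi
      have h2 := hnext hγ h1 hi1
      have e2 : i + i₀ + 1 + 1 = i + i₀ + 2 := by ring
      have f2 : a + 1 + 1 = a + 2 := by ring
      rw [e2, f2] at h2
      have h3 := hnext hγ h2 hi2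
      have e3 : i + i₀ + 2 + 1 = i + i₀ + 3 := by ring
      have f3 : a + 2 + 1 = a + 3 := by ring
      rw [e3, f3] at h3
      have h4 := hnext hγ h3 hi3
      have e4 : i + i₀ + 3 + 1 = i + i₀ + 4 := by ring
      have f4 : a + 3 + 1 = a + 4 := by ring
      rw [e4, f4] at h4
      rw [← hcu _ hi, ← hcu _ hi1, ← hcu _ hi2, ← hcu _ hi3, ← h4, ← h3, ← h2, ← h1, ← ha,
        hprev hγ rfl, hω, hω, hω, hω, hω, hω]
      exact hE.w5 ht a
    · intro i hi hi1 hi2 hi3 hi4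
      rw [e0] at hi1 hi2 hi3 hi4
      exact hne ⟨_, hP.single_of_cor _ hi hi1 hi2 hi3 hi4⟩
    · intro i
      rw [e0]
      exact ho _
    · intro i
      exact ho1 _
    · obtain ⟨j, hj⟩ := hz
      exact ⟨j - i₀, by rwa [sub_add_cancel]⟩
    · simpa using hi₀
  refine ⟨fun i e h6 h7 h8 h9 => ?_, fun i hi => (main i hi).2⟩
  by_cases hi : Cor M δ i
  · rcases hP.cor_node hi h6 with h | h
    · exact absurd h h8
    · exact absurd (h ▸ h7) (hP.notA _)
  · exact Finset.sum_eq_zero_iff.1 (main i hi).1 e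
      (Finset.mem_erase.2 ⟨h9, Finset.mem_erase.2 ⟨h8, mem_nodeIn.2 ⟨h6, h7⟩⟩⟩)

/-- the corner after the last ring corner of an edge hexagon has units -/
theorem next_pos [Fintype D] (hP : M.Patch A δ) {E : (n : ℕ) → PState n → Prop}
    (hE : Windows E) {u : ZMod 6 → ℕ} {μ : D → D} {ω : D → ℕ}
    (hloc : ∀ d, A d → M.LocalAt E μ ω d) (hb : ∀ i, M.usum A ω (δ i) = u i)
    {o : ZMod 6 → ℕ} (ho : ∀ i, u i + o (i + 1) = o i + 1)
    (X2 : ∀ i, ¬ Cor M δ i → ω (δ i) = o i ∧ ω (M.nx.symm (δ (i + 1))) + o (i + 1) = 1)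
    (hne : ¬ ∃ r, ∀ e, A e ↔ M.SameSite r e) {i : ZMod 6} (hi : ¬ Cor M δ i)
    (hd : M.deg (δ i) = 6) : 1 ≤ ω (M.nx (δ i)) := by
  obtain ⟨m, γ, t, hm, hγ, ⟨a, ha⟩, ht, hst⟩ := hloc _ (hP.inA i)
  have hm6 : m = 6 := by
    have := hγ.deg a
    rw [ha, hd] at this
    exact this.symm
  subst hm6
  have hω : ∀ j, ω (γ j) = t.u j := fun j => (hst j).2
  have hback : ∀ {b : ZMod 6} {j : ZMod 6}, γ b = δ j → M.nx.symm (δ j) = γ (b - 1) := by
    intro b j hb
    rw [Equiv.symm_apply_eq, hγ.nx, sub_add_cancel, hb]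
  have hcu : ∀ j, Cor M δ j → ω (δ j) = u j := fun j hj => by rw [← hb j, hP.cor_usum hj]
  -- one step back
  have hstep : ∀ {b j : ZMod 6}, γ b = δ j → (Cor M δ (j - 1) → γ (b - 1) = δ (j - 1) ∧
      t.u (b - 1) = u (j - 1)) ∧ (¬ Cor M δ (j - 1) → t.u (b - 1) + o j = 1) := by
    intro b j hj
    have h1 := hback hj
    constructor
    · intro hc
      have h2 : M.nx.symm (δ j) = δ (j - 1) := by
        rw [Equiv.symm_apply_eq]
        have h3 : M.nx (δ (j - 1)) = δ (j - 1 + 1) := hc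
        rw [h3, sub_add_cancel]
      rw [h1] at h2
      exact ⟨h2, by rw [← hω, h2, hcu _ hc]⟩
    · intro hc
      have h2 := (X2 _ hc).2
      rw [sub_add_cancel, h1, hω] at h2
      exact h2
  have hx : ω (M.nx (δ i)) = t.u (a + 1) := by rw [← ha, hγ.nx, hω]
  have h0 : t.u a = o i := by rw [← hω, ha]; exact (X2 i hi).1
  have q1 : i - 1 - 1 = i - 2 := by ring
  have q2 : i - 2 - 1 = i - 3 := by ring
  have q3 : i - 3 - 1 = i - 4 := by ring
  have q4 : i - 4 - 1 = i - 5 := by ring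
  have r1 : i - 1 + 1 = i := by ring
  have r2 : i - 2 + 1 = i - 1 := by ring
  have r3 : i - 3 + 1 = i - 2 := by ring
  have r4 : i - 4 + 1 = i - 3 := by ring
  have r5 : i - 5 + 1 = i - 4 := by ring
  have b1 : a - 1 - 1 = a - 2 := by ring
  have b2 : a - 2 - 1 = a - 3 := by ring
  have b3 : a - 3 - 1 = a - 4 := by ring
  have b4 : a - 4 - 1 = a - 5 := by ring
  have o1 := ho (i - 1)
  have o2 := ho (i - 2)
  have o3 := ho (i - 3)
  have o4 := ho (i - 4)
  rw [r1] at o1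
  rw [r2] at o2
  rw [r3] at o3
  rw [r4] at o4
  have w2 := hE.w2 ht a
  have w3 := hE.w3 ht (a - 1)
  have w4 := hE.w4 ht (a - 2)
  have w5 := hE.w5 ht (a - 3)
  have w6 := hE.sum ht (a - 5)
  have v1 : a - 1 + 1 = a := by ring
  have v2 : a - 1 + 2 = a + 1 := by ring
  have v3 : a - 2 + 1 = a - 1 := by ring
  have v4 : a - 2 + 2 = a := by ring
  have v5 : a - 2 + 3 = a + 1 := by ring
  have v6 : a - 3 + 1 = a - 2 := by ring
  have v7 : a - 3 + 2 = a - 1 := by ring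
  have v8 : a - 3 + 3 = a := by ring
  have v9 : a - 3 + 4 = a + 1 := by ring
  have z1 : a - 5 + 1 = a - 4 := by ring
  have z2 : a - 5 + 2 = a - 3 := by ring
  have z3 : a - 5 + 3 = a - 2 := by ring
  have z4 : a - 5 + 4 = a - 1 := by ring
  have z5 : a - 5 + 5 = a := by ring
  rw [b1, v1, v2] at w3
  rw [b2, v3, v4, v5] at w4
  rw [b3, v6, v7, v8, v9] at w5
  rw [z1, z2, z3, z4, z5] at w6
  rw [hx]
  obtain ⟨s1, s1'⟩ := hstep ha
  by_cases c1 : Cor M δ (i - 1)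
  · obtain ⟨p1, u1⟩ := s1 c1
    obtain ⟨s2, s2'⟩ := hstep p1
    rw [q1, b1] at s2 s2'
    by_cases c2 : Cor M δ (i - 2)
    · obtain ⟨p2, u2⟩ := s2 c2
      obtain ⟨s3, s3'⟩ := hstep p2
      rw [q2, b2] at s3 s3'
      by_cases c3 : Cor M δ (i - 3)
      · obtain ⟨p3, u3⟩ := s3 c3
        obtain ⟨s4, s4'⟩ := hstep p3
        rw [q3, b3] at s4 s4'
        by_cases c4 : Cor M δ (i - 4)
        · obtain ⟨p4, u4⟩ := s4 c4
          obtain ⟨s5, s5'⟩ := hstep p4
          rw [q4, b4] at s5 s5'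
          by_cases c5 : Cor M δ (i - 5)
          · exfalso
            refine hne ⟨_, hP.single_of_cor (i - 5) c5 ?_ ?_ ?_ ?_⟩
            · rw [r5]; exact c4
            · rw [show i - 5 + 2 = i - 3 by ring]; exact c3
            · rw [show i - 5 + 3 = i - 2 by ring]; exact c2
            · rw [show i - 5 + 4 = i - 1 by ring]; exact c1
          · have := s5' c5
            omega
        · have := s4' c4
          omega
      · have := s3' c3
        omega
    · have := s2' c2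
      omega
  · have := s1' c1
    omega

/-- the corner before the first ring corner of an edge hexagon has units -/
theorem prev_pos [Fintype D] (hP : M.Patch A δ) {E : (n : ℕ) → PState n → Prop}
    (hE : Windows E) {u : ZMod 6 → ℕ} {μ : D → D} {ω : D → ℕ}
    (hloc : ∀ d, A d → M.LocalAt E μ ω d) (hb : ∀ i, M.usum A ω (δ i) = u i)
    {o : ZMod 6 → ℕ} (ho : ∀ i, u i + o (i + 1) = o i + 1)
    (X2 : ∀ i, ¬ Cor M δ i → ω (δ i) = o i ∧ ω (M.nx.symm (δ (i + 1))) + o (i + 1) = 1)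
    (hne : ¬ ∃ r, ∀ e, A e ↔ M.SameSite r e) {i : ZMod 6} (hi : ¬ Cor M δ i)
    (hd : M.deg (δ (i + 1)) = 6) : 1 ≤ ω (M.nx.symm (M.nx.symm (δ (i + 1)))) := by
  obtain ⟨m, γ, t, hm, hγ, ⟨a, ha⟩, ht, hst⟩ := hloc _ (hP.inA (i + 1))
  have hm6 : m = 6 := by
    have := hγ.deg a
    rw [ha, hd] at this
    exact this.symm
  subst hm6
  have hω : ∀ j, ω (γ j) = t.u j := fun j => (hst j).2
  have hback : ∀ {b : ZMod 6} {j : D}, γ b = j → M.nx.symm j = γ (b - 1) := by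
    intro b j hb
    rw [Equiv.symm_apply_eq, hγ.nx, sub_add_cancel, hb]
  have hcu : ∀ j, Cor M δ j → ω (δ j) = u j := fun j hj => by rw [← hb j, hP.cor_usum hj]
  -- one step forward
  have hstep : ∀ {b j : ZMod 6}, γ b = δ j → (Cor M δ j → γ (b + 1) = δ (j + 1) ∧
      t.u b = u j) ∧ (¬ Cor M δ j → t.u b = o j) := by
    intro b j hj
    constructor
    · intro hc
      have h3 : M.nx (δ j) = δ (j + 1) := hc
      exact ⟨by rw [← hγ.nx, hj, h3], by rw [← hω, hj, hcu _ hc]⟩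
    · intro hc
      rw [← hω, hj]
      exact (X2 _ hc).1
  have hx1 := hback ha
  have hx2 := hback hx1.symm
  have h0 : t.u (a - 1) + o (i + 1) = 1 := by
    have h1 := (X2 i hi).2
    rw [hx1, hω] at h1
    exact h1
  have q1 : i + 1 + 1 = i + 2 := by ring
  have q2 : i + 2 + 1 = i + 3 := by ring
  have q3 : i + 3 + 1 = i + 4 := by ring
  have q4 : i + 4 + 1 = i + 5 := by ring
  have b1 : a + 1 + 1 = a + 2 := by ring
  have b2 : a + 2 + 1 = a + 3 := by ring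
  have b3 : a + 3 + 1 = a + 4 := by ring
  have o1 := ho (i + 1)
  have o2 := ho (i + 2)
  have o3 := ho (i + 3)
  have o4 := ho (i + 4)
  rw [q1] at o1
  rw [q2] at o2
  rw [q3] at o3
  rw [q4] at o4
  have w2 := hE.w2 ht (a - 1)
  have w3 := hE.w3 ht (a - 1)
  have w4 := hE.w4 ht (a - 1)
  have w5 := hE.w5 ht (a - 1)
  have w6 := hE.sum ht (a - 1)
  have v0 : a - 1 - 1 = a - 2 := by ring
  have v1 : a - 1 + 1 = a := by ring
  have v2 : a - 1 + 2 = a + 1 := by ring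
  have v3 : a - 1 + 3 = a + 2 := by ring
  have v4 : a - 1 + 4 = a + 3 := by ring
  have v5 : a - 1 + 5 = a + 4 := by ring
  rw [v0, v1] at w2
  rw [v0, v1, v2] at w3
  rw [v0, v1, v2, v3] at w4
  rw [v0, v1, v2, v3, v4] at w5
  rw [v1, v2, v3, v4, v5] at w6
  rw [hx2, hω, v0]
  obtain ⟨s1, s1'⟩ := hstep ha
  by_cases c1 : Cor M δ (i + 1)
  · obtain ⟨p1, u1⟩ := s1 c1
    rw [q1] at p1
    obtain ⟨s2, s2'⟩ := hstep p1
    rw [q2, b1] at s2
    by_cases c2 : Cor M δ (i + 2)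
    · obtain ⟨p2, u2⟩ := s2 c2
      obtain ⟨s3, s3'⟩ := hstep p2
      rw [q3, b2] at s3
      by_cases c3 : Cor M δ (i + 3)
      · obtain ⟨p3, u3⟩ := s3 c3
        obtain ⟨s4, s4'⟩ := hstep p3
        rw [q4, b3] at s4
        by_cases c4 : Cor M δ (i + 4)
        · obtain ⟨p4, u4⟩ := s4 c4
          obtain ⟨s5, s5'⟩ := hstep p4
          by_cases c5 : Cor M δ (i + 5)
          · exfalso
            refine hne ⟨_, hP.single_of_cor (i + 1) c1 ?_ ?_ ?_ ?_⟩
            · rw [q1]; exact c2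
            · rw [show i + 1 + 2 = i + 3 by ring]; exact c3
            · rw [show i + 1 + 3 = i + 4 by ring]; exact c4
            · rw [show i + 1 + 4 = i + 5 by ring]; exact c5
          · have := s5' c5
            omega
        · have := s4' c4
          omega
      · have := s3' c3
        omega
    · have := s2' c2
      omega
  · have := s1' c1
    omega

end Patch

end DMap

end GT33
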