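import Pool.Agent.GT33.CtrF
import Pool.Agent.GT33.Exact

/-!
# GT33 module CTRG: the contraction for a fold word

`CrW f`: the sets of sites which lose two boundary darts under the fold with the word `f`: the last ring node `j`
has `f j = 2`, or `f j = 1` and the set contains the site at the ring edge `j`.  `CtrF.word`: after the contraction
for the word `f₀` the word may be changed at the corner hexagons.
-/

open Classical

namespace GT33

namespace DMap

/-- the criterion for the fold word `f` -/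
def CrW (f : ZMod 6 → Fin 3) (N E : ZMod 6 → Prop) : Prop :=
  ∃ j, N j ∧ ¬ N (j + 1) ∧ (f j = 2 ∨ (f j = 1 ∧ E j))

theorem CrW.ne {f : ZMod 6 → Fin 3} (N E : ZMod 6 → Prop) (h : CrW f N E) : ∃ j, N j := by
  obtain ⟨j, h1, -⟩ := h
  exact ⟨j, h1⟩

theorem CrC.ne {c : ZMod 6} (N E : ZMod 6 → Prop) (h : CrC c N E) : ∃ j, N j := ⟨c, h.1⟩

variable {D : Type} {M : DMap D}

/-- a corner node is not the last ring node of a set of sites -/
theorem Patch.TN_cor [Finite D] {A : D → Prop} {δ : ZMod 6 → D} (hP : M.Patch A δ) {c : ZMod 6}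
    (hc : M.nx (δ c) = δ (c + 1)) {H : D → Prop} (hH : M.Sites H) (hHA : ∀ d, H d → A d)
    (h : TN M δ H c) : TN M δ H (c + 1) := by
  obtain ⟨d, hd, hn⟩ := h
  rcases hP.cor_node hc hn with h1 | h1
  · refine ⟨δ (c + 1), ?_, Equiv.Perm.SameCycle.refl _ _⟩
    rw [← hc, hH, ← h1]
    exact hd
  · exact absurd (h1 ▸ hHA d hd) (hP.notA _)

section

variable {f f₀ : ZMod 6 → Fin 3} {A : D → Prop} {δ : ZMod 6 → D}

/-- the criterion does not depend on the word at the corner nodes -/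
theorem CrW.change [Finite D] (hP : M.Patch A δ)
    (hf : ∀ j, M.nx (δ j) ≠ δ (j + 1) → f j = f₀ j) {H : D → Prop} (hH : M.Sites H)
    (hHA : ∀ d, H d → A d) :
    CrW f (TN M δ H) (TE δ H) ↔ CrW f₀ (TN M δ H) (TE δ H) := by
  unfold CrW
  refine exists_congr fun j => ?_
  by_cases hj : M.nx (δ j) = δ (j + 1)
  · exact ⟨fun h => absurd (hP.TN_cor hj hH hHA h.1) h.2.1,
      fun h => absurd (hP.TN_cor hj hH hHA h.1) h.2.1⟩
  · rw [hf j hj]

end

/-- **the contraction for a word, changed at the corner hexagons** -/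
theorem CtrF.word [Fintype D] {Good : (ZMod 6 → Prop) → Prop → Rel → Prop} {A : D → Prop}
    {δ : ZMod 6 → D} {B : Boxes D} {D₁ : Type} [Fintype D₁] {M₁ : DMap D₁} {A₁ : D₁ → Prop}
    {δ₁ : ZMod 6 → D₁} {B₁ : Boxes D₁} {f f₀ : ZMod 6 → Fin 3}
    (h : CtrF Good (CrW f₀) M A δ B M₁ A₁ δ₁ B₁)
    (hf : ∀ j, M₁.nx (δ₁ j) ≠ δ₁ (j + 1) → f j = f₀ j) :
    (∀ d, A₁ d → M₁.deg d = 6 → CrW f (TN M₁ δ₁ (M₁.SameSite d)) (TE δ₁ (M₁.SameSite d))) ∧
    ∀ H : D₁ → Prop, M₁.Sites H → (∀ d, H d → A₁ d) → (∃ d, A₁ d ∧ ¬ H d) → M₁.cut H = 6 →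
      CrW f (TN M₁ δ₁ H) (TE δ₁ H) → (∃ r, ∀ e, H e ↔ M₁.SameSite r e) ∨
        Nat.card {d // H d} = 8 := by
  have hP := h.obj.patch
  refine ⟨fun d hd h6 => ?_, fun H h1 h2 h3 h4 h5 => ?_⟩
  · rw [CrW.change hP hf (sites_site d) fun e he => (hP.sites.same he).1 hd]
    exact h.hex d hd h6
  · rw [CrW.change hP hf h1 h2] at h5
    exact h.triv H h1 h2 h3 h4 h5

end DMap

end GT33
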