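import Pool.Agent.GT33.PartW
import Pool.Agent.GT33.CtrG
import Pool.Agent.GT33.GenObj
import Pool.Agent.GT33.CFold

/-!
# GT33 module PREW: the fold words of a contracted patch

`Gen.one_arc`: if a set of sites with six boundary darts is left at the ring node `i`, then it does not touch the
ring node `i + 1`.  `Gen.fw_pre_of`: if all hexagons are critical for the word `f` and the critical sets are trivial,
then the fold sectors `Fw M A δ f` are a `Pre`.  `CtrF.pre`: this holds after the contraction for a word.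
-/

open Classical

namespace GT33

namespace DMap

variable {D : Type} {M : DMap D} {A : D → Prop} {δ : ZMod 6 → D} {F : D → Prop}

open Patch

namespace Gen

variable [Fintype D] (hG : M.Gen A δ)

include hG

/-- the region which is cut off from a connected set at a radial boundary dart -/
theorem exists_cutoff' {Z : D → Prop} (hZ : M.Sites Z) (hZA : ∀ d, Z d → A d)
    (hconn : ConnS M Z) {o : D} (ho : BD M Z o) (hor : Ring M δ (M.nx.symm o))
    (hno : ¬ Ring M δ o) :
    ∃ T, Region M A δ Z T ∧ T (M.al o) ∧ (∀ d, T d → ¬ Z d) ∧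
      (∀ d, BD M Z d → Ring M δ (M.nx.symm d) → Inn M A d → ¬ (T d ↔ T (M.al d)) → d = o) ∧
      ∃ g, ∀ d, BD M Z d → Ring M δ d → Inn M A d → ¬ (T d ↔ T (M.al d)) → d = g := by
  have hoi : Inn M A o := hG.inn_of (hZA _ ho.1) (Or.inl hno)
  obtain ⟨T₀, hT₀, hT₀o, hT₀u, g, hg⟩ := hG.exists_cutoff hZ hZA ho hor hno
  rcases hconn.region hZ hZA hT₀ with h | h
  · have h1 : ∀ x, Inn M A x → (¬ ((A x ∧ ¬ T₀ x) ↔ (A (M.al x) ∧ ¬ T₀ (M.al x))) ↔
        ¬ (T₀ x ↔ T₀ (M.al x))) := fun x hx => by
      have h2 := hx.1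
      have h3 := hx.2
      tauto
    refine ⟨fun d => A d ∧ ¬ T₀ d, hT₀.compl hG.toPatch, ?_, fun d hd hdZ => hd.2 (h d hdZ),
      fun d hd hdr hdi h2 => hT₀u d hd hdr hdi ((h1 d hdi).1 h2), g,
      fun d hd hdr hdi h2 => hg d hd hdr hdi ((h1 d hdi).1 h2)⟩
    have h2 := h o ho.1
    exact ⟨hoi.2, fun h3 => hT₀o (iff_of_true h2 h3)⟩
  · refine ⟨T₀, hT₀, ?_, h, hT₀u, g, hg⟩
    by_contra h1
    exact hT₀o (iff_of_false (fun h2 => h o h2 ho.1) h1)

/-- a set of sites with six boundary darts is connected -/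
theorem conn_six {B : D → Prop} (hB : M.Sites B) (hBA : ∀ d, B d → A d) (hc : M.cut B = 6) :
    ConnS M B := by
  by_contra h
  unfold ConnS at h
  push Not at h
  obtain ⟨T, hT, hTB, hTne, hTc, z, hz, hzT⟩ := h
  have h1 : M.cut B = M.cut T + M.cut fun x => B x ∧ ¬ T x := by
    rw [← cut_or (M := M) (A := T) (B := fun x => B x ∧ ¬ T x)
      (fun d h1 h2 => h2.2 h1) (fun d h1 h2 => h2.2 (hTc d h1 h2.1))]
    refine cut_congr fun d => ?_
    have := hTB d
    tauto
  have h2 := hG.ge4 hT (fun d hd => hBA d (hTB d hd)) hTne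
  have h3 := hG.ge4 (hB.and hT.not) (fun d hd => hBA d hd.1) ⟨z, hz, hzT⟩
  omega

/-- the sectors of a ring node from `s` to the last sector -/
theorem fwd {T : D → Prop} (hT : M.Sites T) {k : ZMod 6} : ∀ (m : ℕ) (s : D),
    (M.fs)^[m] (M.nx.symm (δ (k + 1))) = s → A s → M.SameNode (δ k) s →
    (∀ b ≤ m, FS M A δ ((M.fs)^[b] (M.nx.symm (δ (k + 1)))) →
      M.SameNode (δ k) ((M.fs)^[b] (M.nx.symm (δ (k + 1)))) →
      (T (M.nx ((M.fs)^[b] (M.nx.symm (δ (k + 1))))) ↔
        T (M.al (M.nx ((M.fs)^[b] (M.nx.symm (δ (k + 1)))))))) →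
    (T s ↔ T (δ (k + 1))) := by
  intro m
  induction m with
  | zero =>
    intro s hs _ _ _
    have h1 : M.nx.symm (δ (k + 1)) = s := hs
    rw [← h1]
    exact (hT.symm _)
  | succ m ih =>
    intro s hs hA hn hall
    by_cases h1 : FS M A δ s
    · have h2 : (M.fs)^[m] (M.nx.symm (δ (k + 1))) = M.al (M.nx s) := by
        apply M.fs.injective
        rw [fs_al, Equiv.symm_apply_apply, ← hs, Function.iterate_succ_apply']
      have h3 := hall (m + 1) le_rfl (by rw [hs]; exact h1) (by rw [hs]; exact hn)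
      rw [hs] at h3
      rw [← hT s, h3]
      exact ih _ h2 (hG.fs_inn h1).2 (hn.trans (al_node s).symm) fun b hb => hall b (by omega)
    · have h2 : ∃ i, s = M.nx.symm (δ i) := by
        by_contra h3
        push Not at h3
        exact h1 ⟨hA, ⟨k, hn⟩, h3⟩
      obtain ⟨i, hi⟩ := h2
      have h3 := hG.toPatch.prev_node (i - 1)
      rw [sub_add_cancel, ← hi] at h3
      have h4 := hG.node_idx (h3.trans hn.symm)
      rw [hi, ← h4, sub_add_cancel]
      exact hT.symm _

/-- the sectors of a ring node from the first sector to `s` -/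
theorem bwd {T : D → Prop} (hT : M.Sites T) {k : ZMod 6} : ∀ (n : ℕ) (s : D),
    (M.fs)^[n] s = δ k → A s → M.SameNode (δ k) s →
    (∀ b < n, FS M A δ ((M.fs)^[b + 1] s) → M.SameNode (δ k) ((M.fs)^[b + 1] s) →
      (T (M.nx ((M.fs)^[b + 1] s)) ↔ T (M.al (M.nx ((M.fs)^[b + 1] s))))) →
    (T s ↔ T (δ k)) := by
  intro n
  induction n with
  | zero =>
    intro s hs _ _ _
    have h1 : s = δ k := hs
    rw [h1]
  | succ n ih =>
    intro s hs hA hn hall
    rcases hG.asec hA hn with h1 | h1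
    · rw [h1]
    · have h2 := hall 0 (by omega) h1 (hn.trans (fs_node s))
      have h3 : (M.fs)^[0 + 1] s = M.fs s := rfl
      rw [h3, nx_fs, M.inv] at h2
      rw [← h2, ← nx_fs, hT (M.fs s)]
      refine ih (M.fs s) (by rw [← hs, Function.iterate_succ_apply]) h1.1 (hn.trans (fs_node s))
        fun b hb => ?_
      have h4 := hall (b + 1) (by omega)
      rw [Function.iterate_succ_apply] at h4
      exact h4

/-- **One arc**: a set of sites with six boundary darts which is left at the ring node `i` does not touch the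
ring node `i + 1`. -/
theorem one_arc {B : D → Prop} (hB : M.Sites B) (hBA : ∀ d, B d → A d) (hc : M.cut B = 6) {o : D} (ho : BD M B o)
    (hof : FS M A δ (M.nx.symm o)) {i : ZMod 6} (hi : M.SameNode (δ i) (M.nx.symm o)) {d : D}
    (hd : B d) : ¬ M.SameNode (δ (i + 1)) d := by
  intro hdn
  have hno : ¬ Ring M δ o := by
    have := hG.fs1 hof
    rwa [Equiv.apply_symm_apply] at this
  have hor := hof.2.1
  have hconn := hG.conn_six hB hBA hc
  obtain ⟨T, hT, hTo, hTB, hTu, g, hg⟩ := hG.exists_cutoff' hB hBA hconn ho hor hno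
  have hoi : Inn M A o := hG.inn_of (hBA _ ho.1) (Or.inl hno)
  have hao : M.SameNode (δ i) (M.al o) := hi.trans (nx_symm_node o).symm
  -- a change of `T` at a radial dart
  have hch : ∀ s, FS M A δ s → ¬ (T (M.nx s) ↔ T (M.al (M.nx s))) →
      s = M.nx.symm o ∨ M.al (M.nx s) = g := by
    intro s hs h
    have h1 := hG.fs_inn hs
    have h2 := hT.bd _ h1 h
    by_cases h3 : B (M.nx s)
    · left
      rw [Equiv.eq_symm_apply]
      refine hTu _ ⟨h3, fun h4 => h2 (iff_of_true h3 h4)⟩ ?_ h1 h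
      rw [Equiv.symm_apply_apply]
      exact hs.2.1
    · right
      refine hg _ ⟨?_, by rwa [M.inv]⟩ (ring_same (al_node s).symm hs.2.1) (inn_al.2 h1) ?_
      · by_contra h4
        exact h2 (iff_of_false h3 h4)
      · rw [M.inv]
        exact fun h5 => h h5.symm
  -- ring nodes without changes
  have huni : ∀ k : ZMod 6, k ≠ i → ¬ M.SameNode (δ k) g → ∀ s, A s → M.SameNode (δ k) s →
      (T s ↔ T (δ (k + 1))) := by
    intro k hk hkg s hs hn
    obtain ⟨m, hm⟩ := ((hG.toPatch.prev_node k).symm.trans hn).exists_nat_pow_eq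
    rw [Equiv.Perm.coe_pow] at hm
    refine hG.fwd hT.sites m s hm hs hn fun b _ h1 h2 => ?_
    by_contra h3
    rcases hch _ h1 h3 with h4 | h4
    · rw [h4] at h2
      exact hk (hG.node_idx (h2.trans hi.symm))
    · exact hkg (h2.trans ((al_node _).symm.trans (by rw [h4])))
  have hodd : ∀ a : ZMod 6, a ≠ 0 → i + a ≠ i := fun a ha h => ha (by
    have : i + a = i + 0 := by rw [add_zero]; exact h
    exact add_left_cancel this)
  have hstep : ∀ k : ZMod 6, k ≠ i → ¬ M.SameNode (δ k) g → (T (δ k) ↔ T (δ (k + 1))) :=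
    fun k h1 h2 => huni k h1 h2 _ (hG.toPatch.inA k) (Equiv.Perm.SameCycle.refl _ _)
  -- the number of ring edges of `T`
  have key : scut δ T ≤ 1 := by
    have hdT : ¬ T d := fun h => hTB d h hd
    by_cases hgi : M.SameNode (δ i) g
    · -- the boundary path returns to the same ring node
      have hne : ∀ k : ZMod 6, k ≠ i → ¬ M.SameNode (δ k) g := fun k hk h =>
        hk (hG.node_idx (h.trans hgi.symm))
      have t2 : ¬ T (δ (i + 1 + 1)) := by
        rw [← huni (i + 1) (hodd 1 (by decide)) (hne _ (hodd 1 (by decide))) d (hBA d hd) hdn]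
        exact hdT
      have t1 : ¬ T (δ (i + 1)) := by
        rw [hstep (i + 1) (hodd 1 (by decide)) (hne _ (hodd 1 (by decide)))]
        exact t2
      have st : ∀ a : ZMod 6, a ≠ 0 → ¬ T (δ (i + a)) → ¬ T (δ (i + (a + 1))) := by
        intro a ha h
        rw [hstep (i + a) (hodd a ha) (hne _ (hodd a ha)), add_assoc] at h
        exact h
      have t3 := st 1 (by decide) t1
      have t4 := st 2 (by decide) t3
      have t5 := st 3 (by decide) t4
      have t6 := st 4 (by decide) t5
      have t7 := st 5 (by decide) t6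
      have hall : ∀ a : ZMod 6, ¬ T (δ (i + a)) := by
        have hx : ∀ a : ZMod 6, a = 5 + 1 ∨ a = 1 ∨ a = 1 + 1 ∨ a = 2 + 1 ∨ a = 3 + 1 ∨ a = 4 + 1 := by
          decide
        intro a
        rcases hx a with rfl | rfl | rfl | rfl | rfl | rfl
        · exact t7
        · exact t1
        · exact t3
        · exact t4
        · exact t5
        · exact t6
      have h0 : scut δ T = 0 := by
        unfold scut
        rw [Finset.card_eq_zero, Finset.filter_eq_empty_iff]
        intro k _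
        have h1 := hall (k - i)
        rwa [add_sub_cancel] at h1
      omega
    · -- the ring edge `i + 1` is in `T`
      have u1 : T (δ (i + 1)) := by
        have hex : ∃ m, (M.fs)^[m] (M.nx.symm (δ (i + 1))) = M.al o := by
          obtain ⟨m, hm⟩ := ((hG.toPatch.prev_node i).symm.trans hao).exists_nat_pow_eq
          rw [Equiv.Perm.coe_pow] at hm
          exact ⟨m, hm⟩
        have hm := Nat.find_spec hex
        have hmin : ∀ k, k < Nat.find hex → (M.fs)^[k] (M.nx.symm (δ (i + 1))) ≠ M.al o :=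
          fun k hk => Nat.find_min hex hk
        rw [← hG.fwd hT.sites (Nat.find hex) (M.al o) hm hoi.2 hao fun b hb h1 h2 => ?_]
        · exact hTo
        · by_contra h3
          rcases hch _ h1 h3 with h4 | h4
          · rcases Nat.eq_zero_or_pos b with rfl | hb0
            · have h5 : M.nx.symm (δ (i + 1)) = M.nx.symm o := h4
              exact hno (by rw [← M.nx.symm.injective h5]; exact ring_δ _)
            · obtain ⟨b', rfl⟩ : ∃ b', b = b' + 1 := ⟨b - 1, by omega⟩
              refine hmin b' (by omega) ?_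
              apply M.fs.injective
              rw [fs_al, ← h4, Function.iterate_succ_apply']
          · exact hgi (h2.trans ((al_node _).symm.trans (by rw [h4])))
      have hg1 : M.SameNode (δ (i + 1)) g := by
        by_contra h
        have h1 := huni (i + 1) (hodd 1 (by decide)) h d (hBA d hd) hdn
        rw [← hstep (i + 1) (hodd 1 (by decide)) h] at h1
        exact hdT (h1.2 u1)
      have hne : ∀ a : ZMod 6, a ≠ 1 → ¬ M.SameNode (δ (i + a)) g := fun a ha h =>
        ha (add_left_cancel (hG.node_idx (h.trans hg1.symm)))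
      have u0 : ¬ T (δ i) := by
        have hex : ∃ n, (M.fs)^[n] (M.nx.symm o) = δ i := by
          obtain ⟨m, hm⟩ := hi.symm.exists_nat_pow_eq
          rw [Equiv.Perm.coe_pow] at hm
          exact ⟨m, hm⟩
        have hm := Nat.find_spec hex
        have hmin : ∀ k, k < Nat.find hex → (M.fs)^[k] (M.nx.symm o) ≠ δ i :=
          fun k hk => Nat.find_min hex hk
        rw [← hG.bwd hT.sites (Nat.find hex) (M.nx.symm o) hm hof.1 hi fun b hb h1 h2 => ?_]
        · exact fun h => hTB _ h ((hB.symm o).2 ho.1)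
        · by_contra h3
          rcases hch _ h1 h3 with h4 | h4
          · refine hmin (Nat.find hex - (b + 1)) (by omega) ?_
            have h5 := hm
            have h6 : Nat.find hex = (Nat.find hex - (b + 1)) + (b + 1) := by omega
            rw [h6, Function.iterate_add_apply, h4] at h5
            exact h5
          · exact hgi (h2.trans ((al_node _).symm.trans (by rw [h4])))
      have st : ∀ a : ZMod 6, a ≠ 0 → a ≠ 1 → ¬ T (δ (i + (a + 1))) → ¬ T (δ (i + a)) := by
        intro a ha ha' h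
        rw [hstep (i + a) (hodd a ha) (hne _ ha'), add_assoc]
        exact h
      have t5 := st 5 (by decide) (by decide) (by
        have h1 : (5 : ZMod 6) + 1 = 0 := by decide
        rw [h1, add_zero]
        exact u0)
      have t4 := st 4 (by decide) (by decide) t5
      have t3 := st 3 (by decide) (by decide) t4
      have t2 := st 2 (by decide) (by decide) t3
      have hall : ∀ a : ZMod 6, T (δ (i + a)) → a = 1 := by
        have hx : ∀ a : ZMod 6, a = 0 ∨ a = 1 ∨ a = 2 ∨ a = 3 ∨ a = 4 ∨ a = 5 := by decide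
        intro a ha
        rcases hx a with rfl | rfl | rfl | rfl | rfl | rfl
        · rw [add_zero] at ha
          exact absurd ha u0
        · rfl
        · exact absurd ha t2
        · exact absurd ha t3
        · exact absurd ha t4
        · exact absurd ha t5
      unfold scut
      rw [Finset.card_le_one]
      intro a ha b hb
      simp only [Finset.mem_filter, Finset.mem_univ, true_and] at ha hb
      have h1 := hall (a - i) (by rwa [add_sub_cancel])
      have h2 := hall (b - i) (by rwa [add_sub_cancel])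
      exact sub_left_injective (h1.trans h2.symm)
  -- the cut of the union
  have hr : 3 ≤ rcut M A T := by
    by_contra h
    exact hT.nt (hG.r2 hT.sites hT.sub (by omega))
  have e0 := card_add hG.toPatch (Q := fun _ => True) hT.sub hTB hT.bd fun _ => Iff.rfl
  have e1 : cnt (fun d => BD M (fun x => B x ∨ T x) d ∧ True) = M.cut fun x => B x ∨ T x := by
    rw [cut_card, ← cnt_eq]
    exact cnt_congr fun d => ⟨fun h => h.1, fun h => ⟨h, trivial⟩⟩
  have e2 : cnt (fun d => BD M B d ∧ True) = M.cut B := by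
    rw [cut_card, ← cnt_eq]
    exact cnt_congr fun d => ⟨fun h => h.1, fun h => ⟨h, trivial⟩⟩
  have e3 : cnt (fun y => (BD M T y ∧ Inn M A y) ∧ True) = rcut M A T := by
    rw [cnt_eq]
    unfold rcut
    rw [Nat.card_eq_fintype_card, Fintype.card_subtype]
    congr 1
    ext d
    simp only [Finset.mem_filter, Finset.mem_univ, true_and, and_true]
    exact Iff.rfl
  rw [e1, e2, e3] at e0
  have hUs : M.Sites fun x => B x ∨ T x := hB.or hT.sites
  have hUA : ∀ x, (B x ∨ T x) → A x := fun x h => h.elim (hBA x) (hT.sub x)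
  have h4 := hG.ge4 hUs hUA ⟨_, Or.inl ho.1⟩
  have h5 : M.cut (fun x => B x ∨ T x) = 4 := by omega
  by_cases hA : ∃ d, A d ∧ ¬ (B d ∨ T d)
  · obtain ⟨q, -, hq⟩ := hG.four hUs hUA hA h5
    exact hG.nl o (((hq o).1 (Or.inl ho.1)).symm.trans ((hq _).1 (Or.inr hTo)))
  · push Not at hA
    have h6 : M.cut (fun x => B x ∨ T x) = 6 := by
      rw [← hG.toPatch.cut]
      exact cut_congr fun d => ⟨hUA d, hA d⟩
    omega

/-- a sector at the ring node `j` of a set of sites which does not touch the next ring node -/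
theorem fs_last_node {H : D → Prop} (hH : M.Sites H) (hHA : ∀ d, H d → A d) {j : ZMod 6}
    (hj : ¬ TN M δ H (j + 1)) {e : D} (he : H e) (hn : M.SameNode (δ j) e) : FS M A δ e := by
  refine ⟨hHA e he, ⟨j, hn⟩, fun i hi => hj ?_⟩
  have h1 := hG.toPatch.prev_node (i - 1)
  rw [sub_add_cancel, ← hi] at h1
  have h2 := hG.node_idx (h1.trans hn.symm)
  refine ⟨δ (j + 1), ?_, Equiv.Perm.SameCycle.refl _ _⟩
  rw [← h2, sub_add_cancel]
  rw [hi] at he
  exact (hH.symm _).1 he

/-- **The fold sectors of a word**, if all hexagons are critical and the critical sets are trivial. -/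
theorem fw_pre_of {f : ZMod 6 → Fin 3}
    (hex : ∀ d, A d → M.deg d = 6 → CrW f (TN M δ (M.SameSite d)) (TE δ (M.SameSite d)))
    (triv : ∀ H : D → Prop, M.Sites H → (∀ d, H d → A d) → (∃ d, A d ∧ ¬ H d) → M.cut H = 6 →
      CrW f (TN M δ H) (TE δ H) → (∃ r, ∀ e, H e ↔ M.SameSite r e) ∨ Nat.card {d // H d} = 8) :
    Pre M A δ (Fw M A δ f) := by
  refine hG.fw_pre f (fun B hB hBA hBp hc ho => ?_) fun d hd h6 => ?_
  · obtain ⟨o, h1, h2, i, h3, h4⟩ := ho
    have h5 : CrW f (TN M δ B) (TE δ B) := by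
      have h6 : B (M.nx.symm o) := (hB.symm o).2 h1.1
      refine ⟨i, ⟨_, h6, h3⟩, ?_, h4.imp id fun h => ⟨h.1, ?_⟩⟩
      · rintro ⟨d, hd, hn⟩
        exact hG.one_arc hB hBA hc h1 h2 h3 hd hn
      · show B (δ i)
        rw [← h.2]
        exact h6
    rcases triv B hB hBA hBp hc h5 with h6 | h6
    · exact Or.inl h6
    · exact Or.inr (hG.legal.two_quads hB h6)
  · obtain ⟨j, ⟨e, he, hn⟩, h2, h3⟩ := hex d hd h6
    have hsA : ∀ x, M.SameSite d x → A x := fun x hx => (hG.toPatch.sites.same hx).1 hd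
    rcases h3 with h3 | ⟨h3, h4⟩
    · exact ⟨e, he, hG.fs_last_node (sites_site d) hsA h2 he hn, j, hn, Or.inl h3⟩
    · have h5 : M.SameSite d (δ j) := h4
      exact ⟨δ j, h5, hG.fs_last_node (sites_site d) hsA h2 h5 (Equiv.Perm.SameCycle.refl _ _), j,
        Equiv.Perm.SameCycle.refl _ _, Or.inr ⟨h3, rfl⟩⟩

end Gen

/-- **After the contraction for a word** the patch is generic. -/
theorem CtrF.gen [Fintype D] {Good : (ZMod 6 → Prop) → Prop → Rel → Prop}
    {Cr : (ZMod 6 → Prop) → (ZMod 6 → Prop) → Prop} {A : D → Prop} {δ : ZMod 6 → D}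
    {B : Boxes D} {D₁ : Type} [Fintype D₁] {M₁ : DMap D₁} {A₁ : D₁ → Prop} {δ₁ : ZMod 6 → D₁}
    {B₁ : Boxes D₁} (h : CtrF Good Cr M A δ B M₁ A₁ δ₁ B₁) (hnc : ∀ i, ¬ KS M B.κ δ i)
    (h3 : ∀ H : D → Prop, M.Sites H → (∀ d, H d → A d) → M.cut H = 6 → scut δ H ≠ 3) :
    M₁.Gen A₁ δ₁ where
  toPatch := h.obj.patch
  two d := h.two d
  nc i hi := h.nc hnc i hi
  n3 H h1 h2 h4 := h.n3 h3 H h1 h2 h4

/-- **The fold sectors of a word after the contraction.** -/
theorem CtrF.pre [Fintype D] {Good : (ZMod 6 → Prop) → Prop → Rel → Prop} {A : D → Prop}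
    {δ : ZMod 6 → D} {B : Boxes D} {D₁ : Type} [Fintype D₁] {M₁ : DMap D₁} {A₁ : D₁ → Prop}
    {δ₁ : ZMod 6 → D₁} {B₁ : Boxes D₁} {f f₀ : ZMod 6 → Fin 3}
    (h : CtrF Good (CrW f₀) M A δ B M₁ A₁ δ₁ B₁) (hG : M₁.Gen A₁ δ₁)
    (hf : ∀ j, M₁.nx (δ₁ j) ≠ δ₁ (j + 1) → f j = f₀ j) :
    Pre M₁ A₁ δ₁ (Fw M₁ A₁ δ₁ f) :=
  hG.fw_pre_of (h.word hf).1 (h.word hf).2

theorem exists_num6 [Finite D] {e : D} {n : ℕ} (h : M.deg e = n) :
    ∃ α : ZMod n → D, M.SiteNum n α ∧ α 0 = e := by
  subst h
  obtain ⟨α, h1, h2, -⟩ := M.exists_siteNum e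
  exact ⟨α, h1, h2⟩

/-- **The fold of a corner hexagon** -/
theorem Gen.fw_pre_cor [Fintype D] {A : D → Prop} {δ : ZMod 6 → D} (hG : M.Gen A δ) {c : ZMod 6}
    (hc : M.nx (δ c) = δ (c + 1))
    (hex : ∀ d, A d → M.deg d = 6 → CrC c (TN M δ (M.SameSite d)) (TE δ (M.SameSite d)))
    (triv : ∀ H : D → Prop, M.Sites H → (∀ d, H d → A d) → (∃ d, A d ∧ ¬ H d) → M.cut H = 6 →
      CrC c (TN M δ H) (TE δ H) → (∃ r, ∀ e, H e ↔ M.SameSite r e) ∨ Nat.card {d // H d} = 8) :
    Pre M A δ (Fw M A δ fun j => if j = c + 1 then 1 else 0) := by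
  have hfs : FS M A δ (δ (c + 1)) := by
    have h6 : M.deg (δ (c + 1)) = 6 := by
      rw [← hc, deg_nx]
      exact hG.nc c hc
    obtain ⟨α, hα, h0⟩ := exists_num6 h6
    have h5 : α 5 = δ c := by
      apply M.nx.injective
      rw [hα.nx, hc, ← h0]
      rfl
    have h7 := (⟨hG, hα, h5, h0⟩ : M.CorHex A δ c α).fs0
    rwa [h0] at h7
  refine hG.fw_pre _ (fun B hB hBA hBp hcut ho => ?_) fun d hd h6 => ?_
  · obtain ⟨o, h1, h2, i, h3, h4⟩ := ho
    have h6 : B (M.nx.symm o) := (hB.symm o).2 h1.1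
    simp only at h4
    have h5 : B (δ (c + 1)) := by
      rcases h4 with h4 | ⟨h4, h5⟩
      · exfalso
        by_cases h7 : i = c + 1
        · rw [if_pos h7] at h4
          exact absurd h4 (by decide)
        · rw [if_neg h7] at h4
          exact absurd h4 (by decide)
      · by_cases h7 : i = c + 1
        · rw [← h7, ← h5]
          exact h6
        · rw [if_neg h7] at h4
          exact absurd h4 (by decide)
    have h7 : B (δ c) := by
      rw [← hc] at h5
      exact (hB _).1 h5
    rcases triv B hB hBA hBp hcut ⟨⟨_, h7, Equiv.Perm.SameCycle.refl _ _⟩, h7, h5⟩ with h8 | h8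
    · exact Or.inl h8
    · exact Or.inr (hG.legal.two_quads hB h8)
  · obtain ⟨-, -, h3⟩ := hex d hd h6
    exact ⟨δ (c + 1), h3, hfs, c + 1, Equiv.Perm.SameCycle.refl _ _, Or.inr ⟨if_pos rfl, rfl⟩⟩

end DMap

end GT33
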