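import Pool.Agent.GT33.Final
import Pool.Agent.GT33.DWalk

/-!
# GT33 module MIRROR: the mirror image of a map

`M.mir`: the map with the opposite rotation.  The sector `d` of `M.mir` is the sector `nx.symm d` of `M`
(`mir_node`).  A numbering `γ` of a site of `M` becomes `negF γ`, i.e. `i ↦ γ (-i)`; states, flags and boxes are reflected
accordingly (`PState.mir`, `Flags.mir`, `Boxes.mir`).  `Obj.mir`, `Rz_mir`: objects and what they realise.
-/

open Classical

namespace GT33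

/-- the reflected numbering -/
def negF {n : ℕ} {D : Type} (γ : ZMod n → D) (i : ZMod n) : D := γ (-i)

@[simp] theorem negF_apply {n : ℕ} {D : Type} (γ : ZMod n → D) (i : ZMod n) : negF γ i = γ (-i) := rfl

@[simp] theorem negF_negF {n : ℕ} {D : Type} (γ : ZMod n → D) : negF (negF γ) = γ :=
  funext fun i => by simp [negF]

/-- the reflected state -/
def PState.mir {n : ℕ} (s : PState n) : PState n := ⟨fun i => -(s.m (-i)), fun i => s.u (-i - 1)⟩

@[simp] theorem PState.mir_mir {n : ℕ} (s : PState n) : s.mir.mir = s := by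
  refine PState.ext' (fun i => ?_) fun i => ?_
  · simp [PState.mir]
  · simp only [PState.mir]
    congr 1
    ring

theorem PState.mir_rot {n : ℕ} (s : PState n) (c : ZMod n) : (s.rot c).mir = s.mir.rot (-c) := by
  refine PState.ext' (fun i => ?_) fun i => ?_
  · simp only [PState.mir, PState.rot, neg_sub]
    rw [show -(i + -c) = -i + c by ring]
    ring
  · simp only [PState.mir, PState.rot]
    congr 1
    ring

namespace Flags

/-- the reflected demands -/
def mir (F : Flags) : Flags where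
  lk j T := F.lk (-j - 1) (!T)
  le j T := F.ri (-j - 1) (!T)
  ri j T := F.le (-j - 1) (!T)
  st j := F.st (-j)

@[simp] theorem mir_mir (F : Flags) : F.mir.mir = F := by
  have h : ∀ j : ZMod 6, -(-j - 1) - 1 = j := fun j => by ring
  ext j T
  · show F.lk (-(-j - 1) - 1) (!!T) ↔ F.lk j T
    rw [h, Bool.not_not]
  · show F.le (-(-j - 1) - 1) (!!T) ↔ F.le j T
    rw [h, Bool.not_not]
  · show F.ri (-(-j - 1) - 1) (!!T) ↔ F.ri j T
    rw [h, Bool.not_not]
  · show F.st (- -j) ↔ F.st j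
    rw [neg_neg]

theorem mir_rot (F : Flags) (c : ZMod 6) : (F.rot c).mir = F.mir.rot (-c) := by
  have h : ∀ j : ZMod 6, -j - 1 + c = -(j + -c) - 1 := fun j => by ring
  have h' : ∀ j : ZMod 6, -j + c = -(j + -c) := fun j => by ring
  ext j T
  · simp only [mir, rot, h]
  · simp only [mir, rot, h]
  · simp only [mir, rot, h]
  · simp only [mir, rot, h']

theorem Le.mir {F G : Flags} (h : F.Le G) : F.mir.Le G.mir :=
  ⟨fun _ _ x => h.lk _ _ x, fun _ _ x => h.ri _ _ x, fun _ _ x => h.le _ _ x, fun _ x => h.st _ x⟩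

theorem Ok.mir {F : Flags} (h : F.Ok) : F.mir.Ok :=
  ⟨fun _ _ x => h.ri _ _ x, fun _ _ x => h.le _ _ x⟩

end Flags

/-- the reflected relation -/
def Rel.mir (b : Rel) : Rel := fun F t => b F.mir t.mir

@[simp] theorem Rel.mir_mir (b : Rel) : Rel.mir (Rel.mir b) = b := by
  funext F t
  show b F.mir.mir t.mir.mir = b F t
  rw [Flags.mir_mir, PState.mir_mir]

/-- the reflected corner set -/
def mirK (K : ZMod 6 → Prop) (j : ZMod 6) : Prop := K (-j - 1)

@[simp] theorem mirK_mirK (K : ZMod 6 → Prop) : mirK (mirK K) = K := by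
  funext j
  show K (-(-j - 1) - 1) = K j
  congr 1
  ring

/-- the reflected predicate -/
def mirG (Good : (ZMod 6 → Prop) → Prop → Rel → Prop) (K : ZMod 6 → Prop) (σ : Prop) (b : Rel) :
    Prop := Good (mirK K) σ (Rel.mir b)

@[simp] theorem mirG_mirG (Good : (ZMod 6 → Prop) → Prop → Rel → Prop) : mirG (mirG Good) = Good := by
  funext K σ b
  show Good (mirK (mirK K)) σ (Rel.mir (Rel.mir b)) = Good K σ b
  rw [mirK_mirK, Rel.mir_mir]

/-- the reflected boxes -/
def Boxes.mir {D : Type} (B : Boxes D) : Boxes D where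
  β γ := Rel.mir (B.β (negF γ))
  κ γ := mirK (B.κ (negF γ))
  σ γ := B.σ (negF γ)

@[simp] theorem Boxes.mir_mir {D : Type} (B : Boxes D) : B.mir.mir = B := by
  cases B
  simp [Boxes.mir]

theorem Nice.mir {t : PState 6} (h : Nice t) : Nice t.mir where
  mm k := by
    show -(t.m (- -(t.m (-k)))) = k
    rw [neg_neg, h.mm, neg_neg]
  mne k hk := by
    have h1 : -(t.m (-k)) = k := hk
    exact h.mne (-k) (neg_eq_iff_eq_neg.1 h1)
  u := by
    obtain ⟨o, h1, h2⟩ := h.u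
    refine ⟨fun i => 1 - o (-i), fun i => Nat.sub_le _ _, fun i => ?_⟩
    have h3 := h2 (-i - 1)
    have h4 := h1 (-i)
    have h5 := h1 (-i - 1)
    rw [sub_add_cancel] at h3
    have e : -(i + 1) = -i - 1 := by ring
    show t.u (-i - 1) + (1 - o (-(i + 1))) = 1 - o (-i) + 1
    rw [e]
    omega

theorem EE_mir {n : ℕ} {s : PState n} (h : EE n s) : EE n s.mir := by
  rcases EE_n h with rfl | rfl
  · obtain ⟨a, k, rfl⟩ := h
    refine ⟨-a - 1, -k - 1, PState.ext' ?_ ?_⟩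
    · revert a k
      decide
    · revert a k
      decide
  · obtain ⟨j, a, rfl⟩ := h
    rw [PState.mir_rot]
    have key : ∀ j : Fin 10, ∃ (j' : Fin 10) (c : ZMod 6), (∀ i, (hst j).mir.m i = ((hst j').rot c).m i) ∧
        ∀ i, (hst j).mir.u i = ((hst j').rot c).u i := by decide
    obtain ⟨j', c, h1, h2⟩ := key j
    rw [PState.ext' h1 h2]
    exact EE.rot (EE_six.2 ⟨j', c, rfl⟩) (-a)

namespace DMap

variable {D : Type} (M : DMap D)

/-- the mirror image of a map -/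
def mir : DMap D where
  nx := M.nx.symm
  al := M.al
  inv := M.inv
  ne := M.ne

variable {M}

@[simp] theorem mir_mir : M.mir.mir = M := rfl

@[simp] theorem mir_al (d : D) : M.mir.al d = M.al d := rfl

@[simp] theorem mir_nx (d : D) : M.mir.nx d = M.nx.symm d := rfl

@[simp] theorem mir_nx_symm (d : D) : M.mir.nx.symm d = M.nx d := rfl

theorem mir_site {d e : D} : M.mir.SameSite d e ↔ M.SameSite d e := Equiv.Perm.sameCycle_inv

theorem mir_fs : M.mir.fs = M.nx * M.fs⁻¹ * M.nx⁻¹ := by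
  ext d
  show M.nx (M.al d) = M.nx (M.al (M.nx (M.nx.symm d)))
  rw [Equiv.apply_symm_apply]

theorem mir_node {d e : D} : M.mir.SameNode d e ↔ M.SameNode (M.nx.symm d) (M.nx.symm e) := by
  unfold SameNode
  rw [mir_fs, Equiv.Perm.sameCycle_conj, Equiv.Perm.sameCycle_inv]
  exact Iff.rfl

theorem mir_sites {A : D → Prop} (h : M.Sites A) : M.mir.Sites A := fun d => h.symm d

theorem mir_sites_iff {A : D → Prop} : M.mir.Sites A ↔ M.Sites A :=
  ⟨fun h => mir_sites (M := M.mir) h, mir_sites⟩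

theorem mir_cut (A : D → Prop) : M.mir.cut A = M.cut A := rfl

theorem mir_deg (d : D) : M.mir.deg d = M.deg d := by
  have h : ∀ (f : Equiv.Perm D) (k : ℕ), Function.IsPeriodicPt f k d → Function.IsPeriodicPt f.symm k d := by
    intro f k hk
    unfold Function.IsPeriodicPt Function.IsFixedPt at hk ⊢
    have h1 : ∀ x, (⇑f.symm)^[k] ((⇑f)^[k] x) = x := fun x =>
      (Function.LeftInverse.iterate f.symm_apply_apply k) x
    conv_lhs => rw [← hk]
    exact h1 d
  unfold DMap.deg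
  apply Nat.dvd_antisymm
  · exact Function.IsPeriodicPt.minimalPeriod_dvd (h M.nx _ (Function.isPeriodicPt_minimalPeriod _ _))
  · exact Function.IsPeriodicPt.minimalPeriod_dvd
      (h M.mir.nx _ (Function.isPeriodicPt_minimalPeriod M.mir.nx d))

theorem mir_num {n : ℕ} {γ : ZMod n → D} (h : M.SiteNum n γ) : M.mir.SiteNum n (negF γ) := by
  refine ⟨fun i j hij => neg_injective (h.inj hij), fun i => ?_⟩
  show M.nx.symm (γ (-i)) = γ (-(i + 1))
  rw [Equiv.symm_apply_eq, h.nx]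
  congr 1
  ring

theorem mir_num_iff {n : ℕ} {γ : ZMod n → D} : M.mir.SiteNum n γ ↔ M.SiteNum n (negF γ) := by
  refine ⟨fun h => mir_num (M := M.mir) h, fun h => ?_⟩
  have := mir_num h
  rwa [negF_negF] at this

theorem mir_hom (h : M.Hom) : M.mir.Hom := by
  intro c hc hs
  obtain ⟨w, hw1, hw2⟩ := h c hc fun A hA => hs A fun d => by
    rw [mir_nx, ← hA, Equiv.apply_symm_apply]
  refine ⟨fun d => w (M.nx.symm d), fun d => ?_, fun d => ?_⟩
  · show w (M.nx.symm (M.nx (M.al d))) = w (M.nx.symm d)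
    rw [Equiv.symm_apply_apply, ← hw1 (M.al d), fs_al]
  · show w (M.nx.symm d) + w (M.nx.symm (M.nx d)) = c d
    rw [Equiv.symm_apply_apply, add_comm]
    exact hw2 d

theorem mir_conn (h : M.Conn) : M.mir.Conn := fun A hA hal hne =>
  h A (mir_sites_iff.1 hA) hal hne

theorem mir_plane (h : M.Plane) : M.mir.Plane := ⟨mir_hom h.hom, mir_conn h.conn⟩

theorem mir_legal (h : M.Legal) : M.mir.Legal where
  plane := mir_plane h.plane
  noloop d hd := h.noloop d (mir_site.1 hd)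
  cut4 A hA h1 h2 := h.cut4 A (mir_sites_iff.1 hA) h1 h2
  quad A hA h1 := by
    rcases h.quad A (mir_sites_iff.1 hA) h1 with ⟨d, hd⟩ | ⟨d, hd⟩
    · exact Or.inl ⟨d, fun e => by rw [hd, mir_site]⟩
    · exact Or.inr ⟨d, fun e => by rw [hd, mir_site]⟩
  deg d := by
    rw [mir_deg]
    exact h.deg d

/-- a walk around a node, backwards -/
theorem mir_walk {k : ℕ} {x : D} (m : ℕ) (hm : m ≤ k) :
    (nstep M.mir.nx M.mir.al)^[m] (M.al ((nstep M.nx M.al)^[k] x)) =
      M.al ((nstep M.nx M.al)^[k - m] x) := by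
  induction m with
  | zero => rfl
  | succ m ih =>
    rw [Function.iterate_succ_apply', ih (by omega)]
    obtain ⟨l, hl⟩ : ∃ l, k - m = l + 1 := ⟨k - m - 1, by omega⟩
    rw [hl, show k - (m + 1) = l by omega, Function.iterate_succ_apply']
    show M.nx (M.al (M.al (M.nx.symm (M.al _)))) = _
    rw [M.inv, Equiv.apply_symm_apply]

theorem mir_bd [Finite D] {A : D → Prop} {n : ℕ} {δ : ZMod n → D} (h : M.Bd A n δ) :
    M.mir.Bd A n (negF δ) := by
  have e1 : ∀ i : ZMod n, -(i + 1) + 1 = -i := fun i => by ring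
  have hw : ∀ {k m : ℕ} {x : D}, 0 < m → m ≤ k →
      (A ((nstep M.mir.nx M.mir.al)^[m] (M.al ((nstep M.nx M.al)^[k] x))) ↔
        A ((nstep M.nx M.al)^[k - m + 1] x)) := by
    intro k m x h1 h2
    obtain ⟨l, rfl⟩ : ∃ l, m = l + 1 := ⟨m - 1, by omega⟩
    rw [Function.iterate_succ_apply', mir_walk l (by omega)]
    show A (M.nx (M.al (M.al _))) ↔ _
    rw [M.inv, h.site, show k - (l + 1) + 1 = k - l by omega]
  refine ⟨mir_sites h.site, fun i j hij => neg_injective (h.inj hij), fun d => ?_, fun i => ?_,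
    fun i => ?_, fun i j hij => ?_⟩
  · rw [show M.mir.al d = M.al d from rfl, h.mem]
    constructor
    · rintro ⟨i, hi⟩
      exact ⟨-i, by simpa using hi⟩
    · rintro ⟨i, hi⟩
      exact ⟨-i, hi⟩
  · obtain ⟨k, hk, hm⟩ := h.outw (-(i + 1))
    rw [e1] at hk
    have h1 : δ (-i) = M.al ((nstep M.nx M.al)^[k] (δ (-(i + 1)))) := by rw [hk, M.inv]
    refine ⟨k, ?_, fun m h2 h3 => ?_⟩
    · show (nstep M.mir.nx M.mir.al)^[k] (δ (-i)) = M.al (δ (-(i + 1)))
      rw [h1, mir_walk k le_rfl, Nat.sub_self]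
      rfl
    · show ¬ A ((nstep M.mir.nx M.mir.al)^[m] (δ (-i)))
      rw [h1, hw h2 h3]
      exact hm _ (by omega) (by omega)
  · obtain ⟨k, hk, hm⟩ := h.inw (-(i + 1))
    rw [e1] at hk hm
    have h1 : M.al (δ (-(i + 1))) = M.al ((nstep M.nx M.al)^[k] (M.al (δ (-i)))) := by rw [hk]
    refine ⟨k, ?_, fun m h2 h3 => ?_⟩
    · show (nstep M.mir.nx M.mir.al)^[k] (M.al (δ (-(i + 1)))) = δ (-i)
      rw [h1, mir_walk k le_rfl, Nat.sub_self]
      exact M.inv _
    · show A ((nstep M.mir.nx M.mir.al)^[m] (M.al (δ (-(i + 1)))))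
      rw [h1, hw h2 h3]
      exact hm _ (by omega) (by omega)
  · have h1 : dnode M.mir.nx M.mir.al (δ (-i)) = dnode M.mir.nx M.mir.al (δ (-j)) := hij
    have h2 := mir_node.1 (sameNode_iff.2 h1)
    have h3 : ∀ i : ZMod n, M.SameNode (δ (-i - 1)) (M.nx.symm (δ (-i))) := fun i => by
      have h4 := h.step (-i - 1)
      rw [sub_add_cancel] at h4
      exact (sameNode_iff.2 h4).trans (Patch.nx_symm_node _)
    have h5 := nodes_inj h (((h3 i).trans h2).trans (h3 j).symm)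
    exact neg_injective (sub_left_injective h5)

theorem mir_patch [Finite D] {A : D → Prop} {δ : ZMod 6 → D} (h : M.Patch A δ) :
    M.mir.Patch A (negF δ) where
  legal := mir_legal h.legal
  bd := mir_bd h.bd
  root := by
    obtain ⟨r, hr⟩ := h.root
    exact ⟨r, fun e => by rw [hr, mir_site]⟩

/-! ### states -/

/-- the reflected local states -/
def _root_.GT33.LS.mir (L : LS D) : LS D := fun n γ t => L n (negF γ) t.mir

theorem mir_hasState {n : ℕ} {μ : D → D} {ω : D → ℕ} {γ : ZMod n → D} (hγ : M.SiteNum n γ)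
    {t : PState n} (h : HasState μ ω γ t) :
    HasState μ (fun d => ω (M.nx.symm d)) (negF γ) t.mir := by
  intro i
  refine ⟨?_, ?_⟩
  · show μ (γ (-i)) = γ (- -(t.m (-i)))
    rw [neg_neg]
    exact (h _).1
  · show ω (M.nx.symm (γ (-i))) = t.u (-i - 1)
    rw [← (h (-i - 1)).2]
    congr 1
    rw [Equiv.symm_apply_eq, hγ.nx, sub_add_cancel]

theorem mir_usum [Fintype D] {A : D → Prop} (hA : M.Sites A) {ω : D → ℕ} {d : D} :
    M.mir.usum A (fun d => ω (M.nx.symm d)) d = M.usum A ω (M.nx.symm d) := by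
  unfold usum
  refine Finset.sum_bij (fun e _ => M.nx.symm e) ?_ ?_ ?_ ?_
  · intro e he
    rw [mem_nodeIn] at he ⊢
    exact ⟨mir_node.1 he.1, (hA.symm e).2 he.2⟩
  · intro e _ f _ hef
    exact M.nx.symm.injective hef
  · intro f hf
    rw [mem_nodeIn] at hf
    refine ⟨M.nx f, mem_nodeIn.2 ⟨mir_node.2 ?_, (hA f).2 hf.2⟩, Equiv.symm_apply_apply _ _⟩
    rw [Equiv.symm_apply_apply]
    exact hf.1
  · intro e _
    rfl

theorem RealL.mir [Fintype D] {L : LS D} {A : D → Prop} (hA : M.Sites A) {n : ℕ} {δ : ZMod n → D}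
    {s : PState n} {μ : D → D} {ω : D → ℕ} (h : M.RealL L A δ s μ ω)
    (hδ : ∀ i, M.SameNode (δ i) (M.nx.symm (δ (i + 1)))) :
    M.mir.RealL L.mir A (negF δ) s.mir μ (fun d => ω (M.nx.symm d)) := by
  refine ⟨fun d hd => ?_, fun i => ?_, fun d hd => ?_, fun i => ?_, fun d hd => ?_⟩
  · obtain ⟨k, γ, t, hk, hγ, ⟨i, hi⟩, ht, hst⟩ := h.loc d hd
    refine ⟨k, negF γ, t.mir, hk, mir_num hγ, ⟨-i, by simp [hi]⟩, ?_, mir_hasState hγ hst⟩
    show L k (negF (negF γ)) t.mir.mir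
    rw [negF_negF, PState.mir_mir]
    exact ht
  · have h1 := h.str (-i)
    show M.Str A μ (δ (-i)) (δ (- -(s.m (-i))))
    rwa [neg_neg]
  · obtain ⟨i, hi⟩ := h.all d hd
    refine ⟨-i, ?_⟩
    show M.Str A μ d (δ (- -i))
    rwa [neg_neg]
  · rw [mir_usum hA]
    show M.usum A ω (M.nx.symm (δ (-i))) = s.u (-i - 1)
    have h1 := hδ (-i - 1)
    rw [sub_add_cancel] at h1
    rw [← h.bdry, usum_same h1]
  · rw [mir_usum hA]
    refine h.inner _ fun e he => ?_
    have h1 := hd (M.nx e) (mir_node.2 (by rw [Equiv.symm_apply_apply]; exact he))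
    exact (hA e).1 h1

/-! ### objects -/

theorem mir_prev {n : ℕ} {γ : ZMod n → D} (hγ : M.mir.SiteNum n γ) (a : ZMod n) :
    M.nx.symm (γ a) = γ (a + 1) := hγ.nx a

theorem mir_ringnode {δ : ZMod 6 → D} (hδ : ∀ i, M.SameNode (δ i) (M.nx.symm (δ (i + 1))))
    {n : ℕ} {γ : ZMod n → D} (hγ : M.mir.SiteNum n γ) (j : ZMod 6) (a : ZMod n) :
    M.mir.SameNode (negF δ j) (γ a) ↔ M.SameNode (δ (-j - 1)) (γ (a + 1)) := by
  rw [mir_node, mir_prev hγ, negF_apply]
  have h1 := hδ (-j - 1)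
  rw [sub_add_cancel] at h1
  exact ⟨fun h => h1.trans h, fun h => h1.symm.trans h⟩

theorem res_mir {δ : ZMod 6 → D} (hδ : ∀ i, M.SameNode (δ i) (M.nx.symm (δ (i + 1))))
    (F : Flags) {γ : ZMod 6 → D} (hγ : M.mir.SiteNum 6 γ) :
    (M.mir.res (negF δ) F γ).mir = M.res δ F.mir (negF γ) := by
  have key : ∀ P : ZMod 6 → Prop, (∃ j, P (-j - 1)) ↔ ∃ j, P j := fun P =>
    ⟨fun ⟨j, hj⟩ => ⟨_, hj⟩, fun ⟨j, hj⟩ => ⟨-j - 1, by
      rwa [show -(-j - 1) - 1 = j by ring]⟩⟩
  have key' : ∀ P : ZMod 6 → Prop, (∃ j, P (-j)) ↔ ∃ j, P j := fun P =>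
    ⟨fun ⟨j, hj⟩ => ⟨_, hj⟩, fun ⟨j, hj⟩ => ⟨-j, by rwa [neg_neg]⟩⟩
  have e0 : ∀ j : ZMod 6, -(-j - 1) - 1 = j := fun j => by ring
  have e1 : ∀ a : ZMod 6, -a - 1 + 1 = -a := fun a => by ring
  have e2 : ∀ j : ZMod 6, -(j + 1) = -j - 1 := fun j => by ring
  ext a T
  · show (∃ j, M.mir.SameNode (negF δ j) (γ (-a - 1)) ∧ F.lk j (!T)) ↔
      ∃ j, M.SameNode (δ j) (γ (-a)) ∧ F.lk (-j - 1) (!T)
    rw [← key]
    refine exists_congr fun j => ?_
    rw [mir_ringnode hδ hγ, e1, e0]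
  · show (∃ j, M.mir.SameNode (negF δ j) (γ (-a - 1)) ∧
        (γ (-a - 1 + 1) = δ (-(j + 1)) → F.ri j (!T)) ∧ (γ (-a - 1 + 1) ≠ δ (-(j + 1)) → F.lk j (!T))) ↔
      ∃ j, M.SameNode (δ j) (γ (-a)) ∧ (γ (-a) = δ j → F.ri (-j - 1) (!T)) ∧
        (γ (-a) ≠ δ j → F.lk (-j - 1) (!T))
    rw [← key fun j => M.SameNode (δ j) (γ (-a)) ∧ (γ (-a) = δ j → F.ri (-j - 1) (!T)) ∧
        (γ (-a) ≠ δ j → F.lk (-j - 1) (!T))]
    refine exists_congr fun j => ?_
    rw [mir_ringnode hδ hγ, e1, e0, e2]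
  · show (∃ j, M.mir.SameNode (negF δ j) (γ (-a - 1)) ∧
        (γ (-a - 1) = δ (-j) → F.le j (!T)) ∧ (γ (-a - 1) ≠ δ (-j) → F.lk j (!T))) ↔
      ∃ j, M.SameNode (δ j) (γ (-a)) ∧ (γ (-(a + 1)) = δ (j + 1) → F.le (-j - 1) (!T)) ∧
        (γ (-(a + 1)) ≠ δ (j + 1) → F.lk (-j - 1) (!T))
    rw [← key fun j => M.SameNode (δ j) (γ (-a)) ∧
        (γ (-(a + 1)) = δ (j + 1) → F.le (-j - 1) (!T)) ∧
        (γ (-(a + 1)) ≠ δ (j + 1) → F.lk (-j - 1) (!T))]
    refine exists_congr fun j => ?_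
    rw [mir_ringnode hδ hγ, e1, e0, e2, e1]
  · show (∃ j, γ (-a) = δ (-j) ∧ F.st j) ↔ ∃ j, γ (-a) = δ j ∧ F.st (-j)
    rw [← key' fun j => γ (-a) = δ j ∧ F.st (-j)]
    refine exists_congr fun j => ?_
    rw [neg_neg]

theorem QS_mir {δ : ZMod 6 → D} (hδ : ∀ i, M.SameNode (δ i) (M.nx.symm (δ (i + 1))))
    {F : Flags} {γ : ZMod 4 → D} (hγ : M.SiteNum 4 γ) {t : PState 4} (h : M.QS δ F γ t) :
    M.mir.QS (negF δ) F.mir (negF γ) t.mir := by
  have hγ' := mir_num hγ
  have e0 : ∀ j : ZMod 6, -(-j - 1) - 1 = j := fun j => by ring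
  refine ⟨EE_mir h.ee, fun a j T h1 h2 => ?_, fun a j h1 h2 => ?_⟩
  · rw [mir_ringnode hδ hγ'] at h1
    have h3 := h.dem (-(a + 1)) (-j - 1) (!T) h1 ⟨fun h4 h5 => ?_, fun h4 => ?_, fun h4 => ?_⟩
    · revert h3
      show t.u (sideC (!T) (-(a + 1))) ≤ 1 → t.u (-(sideC T a) - 1) ≤ 1
      have : sideC (!T) (-(a + 1)) = -(sideC T a) - 1 := by
        cases T
        · show -(a + 1) - 1 = -(a + 1) - 1
          rfl
        · show -(a + 1) + 1 = -(a - 1) - 1
          ring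
      rw [this]
      exact id
    · refine h2.1 (fun h6 => h5 ?_) fun h6 => h4 ?_
      · show γ (-(a + 1) + 1) = δ (-j - 1 + 1)
        rw [show -(a + 1) + 1 = -a by ring, show -j - 1 + 1 = -j by ring]
        exact h6
      · show γ (-(a + 1)) = δ (-j - 1)
        rw [show -j - 1 = -(j + 1) by ring]
        exact h6
    · refine h2.2.2 ?_
      show γ (-(a + 1)) = δ (-(j + 1))
      rw [show -(j + 1) = -j - 1 by ring]
      exact h4
    · refine h2.2.1 ?_
      rw [show -(a + 1) + 1 = -a by ring, show -j - 1 + 1 = -j by ring] at h4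
      exact h4
  · have h3 := h.st (-a) (-j) h1 h2
    have e3 : ∀ a : ZMod 4, -(a + 1) - 1 = -a + 2 := by decide
    have e4 : ∀ a : ZMod 4, -(a + 2) - 1 = -a + 1 := by decide
    refine ⟨?_, ?_⟩
    · show t.u (-(a + 1) - 1) ≤ 1
      rw [e3]
      exact h3.2
    · show t.u (-(a + 2) - 1) ≤ 1
      rw [e4]
      exact h3.1

theorem OL_mir {δ : ZMod 6 → D} (hδ : ∀ i, M.SameNode (δ i) (M.nx.symm (δ (i + 1))))
    {β : (ZMod 6 → D) → Rel} {F : Flags} {n : ℕ} {γ : ZMod n → D} (hγ : M.SiteNum n γ) {t : PState n}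
    (h : M.OL δ β F n γ t) :
    M.mir.OL (negF δ) (fun η => Rel.mir (β (negF η))) F.mir n (negF γ) t.mir := by
  rcases OL_n h with rfl | rfl
  · exact QS_mir hδ hγ h
  · show β (negF (negF γ)) (M.mir.res (negF δ) F.mir (negF γ)).mir t.mir.mir
    rw [res_mir hδ F.mir (mir_num hγ), negF_negF, Flags.mir_mir, PState.mir_mir]
    exact h

theorem ring_prev [Fintype D] {A : D → Prop} {δ : ZMod 6 → D} (hb : M.Bd A 6 δ) (i : ZMod 6) :
    M.SameNode (δ i) (M.nx.symm (δ (i + 1))) := bd_prev hb i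

theorem Rz_mir [Fintype D] {A : D → Prop} {δ : ZMod 6 → D} (hb : M.Bd A 6 δ)
    {β : (ZMod 6 → D) → Rel} {F : Flags} {s : PState 6} (h : Rz M A δ β F s) :
    Rz M.mir A (negF δ) (fun η => Rel.mir (β (negF η))) F.mir s.mir := by
  obtain ⟨μ, ω, hR⟩ := h
  refine ⟨μ, fun d => ω (M.nx.symm d), (hR.mir hb.site (bd_prev hb)).mono (mir_sites hb.site) ?_⟩
  intro n γ t hn hγ _ _ hL
  have h1 := OL_mir (bd_prev hb) (mir_num_iff.1 hγ) hL
  rwa [negF_negF, PState.mir_mir] at h1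

theorem Rz_mir_iff [Fintype D] {A : D → Prop} {δ : ZMod 6 → D} (hb : M.Bd A 6 δ)
    {β : (ZMod 6 → D) → Rel} {F : Flags} {s : PState 6} :
    Rz M.mir A (negF δ) (fun η => Rel.mir (β (negF η))) F s ↔ Rz M A δ β F.mir s.mir := by
  constructor
  · intro h
    have h1 := Rz_mir (M := M.mir) (mir_bd hb) h
    rw [negF_negF] at h1
    have e : (fun η : ZMod 6 → D => Rel.mir (Rel.mir (β (negF (negF η))))) = β :=
      funext fun η => by rw [Rel.mir_mir, negF_negF]
    rw [e] at h1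
    exact h1
  · intro h
    have h1 := Rz_mir hb h
    rwa [Flags.mir_mir, PState.mir_mir] at h1

theorem KS_mir (κ : (ZMod 6 → D) → ZMod 6 → Prop) (δ : ZMod 6 → D) (j : ZMod 6) :
    KS M.mir (fun η => mirK (κ (negF η))) (negF δ) j ↔ KS M κ δ (-j - 1) := by
  have e2 : -(j + 1) = -j - 1 := by ring
  have h1 : M.mir.nx (negF δ j) = negF δ (j + 1) ↔ M.nx (δ (-j - 1)) = δ (-j - 1 + 1) := by
    show M.nx.symm (δ (-j)) = δ (-(j + 1)) ↔ _
    rw [Equiv.symm_apply_eq, e2, sub_add_cancel]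
    exact eq_comm
  constructor
  · rintro ⟨h2, h3⟩
    have h4 := h1.1 h2
    refine ⟨h4, ?_⟩
    rw [sub_add_cancel] at h4
    rcases h3 with h3 | ⟨γ, a, hγ, h5, h6⟩
    · left
      rw [mir_deg, negF_apply, ← h4, deg_nx] at h3
      exact h3
    · right
      refine ⟨negF γ, -a - 1, mir_num_iff.1 hγ, ?_, h6⟩
      show γ (-(-a - 1)) = _
      rw [show -(-a - 1) = a + 1 by ring, ← mir_prev hγ, h5, Equiv.symm_apply_eq, h4]
      rfl
  · rintro ⟨h2, h3⟩
    have h4 := h2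
    refine ⟨h1.2 h2, ?_⟩
    rw [sub_add_cancel] at h4
    rcases h3 with h3 | ⟨γ, a, hγ, h5, h6⟩
    · left
      rw [mir_deg, negF_apply, ← h4, deg_nx]
      exact h3
    · right
      refine ⟨negF γ, -a - 1, mir_num hγ, ?_, ?_⟩
      · show γ (-(-a - 1)) = δ (-j)
        rw [show -(-a - 1) = a + 1 by ring, ← hγ.nx, h5, h4]
      · show κ (negF (negF γ)) (-(-a - 1) - 1)
        rw [negF_negF, show -(-a - 1) - 1 = a by ring]
        exact h6

theorem Star_mir {A : D → Prop} : Star M.mir A ↔ Star M A := by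
  unfold Star
  simp only [mir_deg]

theorem StarL_mir {A : D → Prop} {δ : ZMod 6 → D} {B : Boxes D} :
    StarL M.mir A (negF δ) B.mir ↔ StarL M A δ B := by
  unfold StarL
  rw [Star_mir]
  simp only [mir_site]
  show _ ∨ _ ∧ B.σ (negF (negF δ)) ↔ _
  rw [negF_negF]

theorem Irr.mir [Fintype D] {A : D → Prop} {δ : ZMod 6 → D} (hb : M.Bd A 6 δ) (h : M.Irr A δ) :
    M.mir.Irr A (negF δ) := by
  intro H hH hHA hne hcut htouch
  have hH' := mir_sites_iff.1 hH
  obtain ⟨j, d, hd, hn⟩ := htouch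
  rw [mir_node, negF_apply] at hn
  have h1 := bd_prev hb (-j - 1)
  rw [sub_add_cancel] at h1
  rcases h H hH' hHA hne hcut ⟨_, _, (hH'.symm d).2 hd, h1.trans hn⟩ with ⟨r, hr⟩ | h2
  · exact Or.inl ⟨r, fun e => by rw [hr, mir_site]⟩
  · exact Or.inr h2

/-- **the mirror image of an object** -/
theorem Obj.mir [Fintype D] {Good : (ZMod 6 → Prop) → Prop → Rel → Prop} {A : D → Prop}
    {δ : ZMod 6 → D} {B : Boxes D} (h : M.Obj Good A δ B) :
    M.mir.Obj (mirG Good) A (negF δ) B.mir where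
  patch := mir_patch h.patch
  touch d hd h6 := by
    rw [mir_deg] at h6
    obtain ⟨j, e, h1, h2⟩ := h.touch d hd h6
    refine ⟨-j - 1, M.nx e, mir_site.2 (h1.trans (site_nx e)), ?_⟩
    rw [mir_node, negF_apply, Equiv.symm_apply_apply, show -(-j - 1) = j + 1 by ring]
    exact (bd_prev h.patch.bd j).symm.trans h2
  anti γ F G t hγ h0 hFG hβ :=
    h.anti (negF γ) F.mir G.mir t.mir (mir_num_iff.1 hγ) (by rw [negF_apply, neg_zero]; exact h0)
      hFG.mir hβ
  rot γ F t c hγ h0 hβ := by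
    have h1 := h.rot (negF γ) F.mir t.mir (-c) (mir_num_iff.1 hγ)
      (by rw [negF_apply, neg_zero]; exact h0) hβ
    show B.β (fun i => γ (-i + c)) (F.rot c).mir (t.rot c).mir
    rw [Flags.mir_rot, PState.mir_rot]
    have e : (fun i => negF γ (i + -c)) = fun i => γ (-i + c) := funext fun i => by
      rw [negF_apply]
      congr 1
      ring
    rw [e] at h1
    exact h1
  krot γ a c hγ h0 := by
    have h1 := h.krot (negF γ) (-a - 1) (-c) (mir_num_iff.1 hγ)
      (by rw [negF_apply, neg_zero]; exact h0)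
    have e : (fun i => negF γ (i + -c)) = fun i => γ (-i + c) := funext fun i => by
      rw [negF_apply]
      congr 1
      ring
    rw [e] at h1
    show B.κ (fun i => γ (-i + c)) (-a - 1) ↔ B.κ (negF γ) (-(a + c) - 1)
    rw [h1, show -a - 1 + -c = -(a + c) - 1 by ring]
  nice γ F t hγ h0 hβ := by
    have h1 := (h.nice (negF γ) F.mir t.mir (mir_num_iff.1 hγ)
      (by rw [negF_apply, neg_zero]; exact h0) hβ).mir
    rwa [PState.mir_mir] at h1
  good γ hγ h0 := by
    show Good (mirK (mirK (B.κ (negF γ)))) (B.σ (negF γ)) (Rel.mir (Rel.mir (B.β (negF γ))))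
    rw [mirK_mirK, Rel.mir_mir]
    exact h.good (negF γ) (mir_num_iff.1 hγ) (by rw [negF_apply, neg_zero]; exact h0)

/-- the induction step for a part of the predicate -/
def StepF (Good G : (ZMod 6 → Prop) → Prop → Rel → Prop) : Prop :=
  ∀ (D : Type) [Fintype D] (M : DMap D) (A : D → Prop) (δ : ZMod 6 → D) (B : Boxes D),
    M.Obj Good A δ B → (∀ d, A d → M.deg d = 4) → Nat.card D ≠ 14 →
    (¬ ∃ r, ∀ e, A e ↔ M.SameSite r e) → IHR Good (Nat.card D) →
    G (KS M B.κ δ) (StarL M A δ B) (Rz M A δ B.β)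

/-- **the induction step for the mirror images** -/
theorem StepF.mir {Good G : (ZMod 6 → Prop) → Prop → Rel → Prop} (hG : mirG Good = Good)
    (h : StepF Good G) : StepF Good (mirG G) := by
  intro D _ M A δ B hO hq h14 hns IH
  have h1 := h D M.mir A (negF δ) B.mir (by rw [← hG]; exact hO.mir)
    (fun d hd => by rw [mir_deg]; exact hq d hd) h14
    (fun ⟨r, hr⟩ => hns ⟨r, fun e => by rw [hr, mir_site]⟩) IH
  have e1 : KS M.mir B.mir.κ (negF δ) = mirK (KS M B.κ δ) :=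
    funext fun j => propext (KS_mir B.κ δ j)
  have e2 : StarL M.mir A (negF δ) B.mir = StarL M A δ B := propext StarL_mir
  have e3 : Rz M.mir A (negF δ) B.mir.β = Rel.mir (Rz M A δ B.β) :=
    funext fun F => funext fun s => propext (Rz_mir_iff hO.patch.bd)
  rw [e1, e2, e3] at h1
  exact h1

/-- it suffices to prove the induction step for one half of a symmetric predicate -/
theorem StepF.both {G : (ZMod 6 → Prop) → Prop → Rel → Prop}
    (h : StepF (fun K σ b => G K σ b ∧ mirG G K σ b) G) :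
    StepR fun K σ b => G K σ b ∧ mirG G K σ b := by
  have hG : mirG (fun K σ b => G K σ b ∧ mirG G K σ b) = fun K σ b => G K σ b ∧ mirG G K σ b := by
    funext K σ b
    show (mirG G K σ b ∧ mirG (mirG G) K σ b) = _
    rw [mirG_mirG, and_comm]
  intro D _ M A δ B hO hq h14 hns IH
  exact ⟨h D M A δ B hO hq h14 hns IH, h.mir hG D M A δ B hO hq h14 hns IH⟩

end DMap

end GT33
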