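import Pool.Agent.GT33.Tb
import Pool.Agent.GT33.Mirror

/-!
# GT33 module CHKM: mirror images of tables

`SRow.mir`: the mirror image of a row.  `stepR_of_mirS`: if the table is `T ++ T.map SRow.mir`, then it suffices to
prove the induction step for the rows of `T`.
-/

namespace GT33

namespace Chk

/-- the number with six digits -/
def mk6 (a b c d e f : ℕ) : ℕ := a * 100000 + b * 10000 + c * 1000 + d * 100 + e * 10 + f

theorem dg_lt (x : ℕ) (j : ZMod 6) : dg x j < 10 := Nat.mod_lt _ (by decide)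

theorem dg_mk6 {a b c d e f : ℕ} (ha : a < 10) (hb : b < 10) (hc : c < 10) (hd : d < 10) (he : e < 10)
    (hf : f < 10) : dg (mk6 a b c d e f) 0 = a ∧ dg (mk6 a b c d e f) 1 = b ∧
      dg (mk6 a b c d e f) 2 = c ∧ dg (mk6 a b c d e f) 3 = d ∧ dg (mk6 a b c d e f) 4 = e ∧
      dg (mk6 a b c d e f) 5 = f := by
  have h0 : ∀ x, dg x 0 = x / 100000 % 10 := fun x => rfl
  have h1 : ∀ x, dg x 1 = x / 10000 % 10 := fun x => rfl
  have h2 : ∀ x, dg x 2 = x / 1000 % 10 := fun x => rfl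
  have h3 : ∀ x, dg x 3 = x / 100 % 10 := fun x => rfl
  have h4 : ∀ x, dg x 4 = x / 10 % 10 := fun x => rfl
  have h5 : ∀ x, dg x 5 = x / 1 % 10 := fun x => rfl
  rw [h0, h1, h2, h3, h4, h5]
  unfold mk6
  refine ⟨?_, ?_, ?_, ?_, ?_, ?_⟩ <;> omega

/-- reflection of the ring nodes -/
def rv (x : ℕ) : ℕ := mk6 (dg x 5) (dg x 4) (dg x 3) (dg x 2) (dg x 1) (dg x 0)

/-- reflection of the ring edges -/
def rs (x : ℕ) : ℕ := mk6 (dg x 0) (dg x 5) (dg x 4) (dg x 3) (dg x 2) (dg x 1)

theorem dg_rv (x : ℕ) (j : ZMod 6) : dg (rv x) j = dg x (-j - 1) := by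
  obtain ⟨h0, h1, h2, h3, h4, h5⟩ := dg_mk6 (dg_lt x 5) (dg_lt x 4) (dg_lt x 3) (dg_lt x 2)
    (dg_lt x 1) (dg_lt x 0)
  rcases z6 j with rfl | rfl | rfl | rfl | rfl | rfl
  · exact h0
  · exact h1
  · exact h2
  · exact h3
  · exact h4
  · exact h5

theorem dg_rs (x : ℕ) (j : ZMod 6) : dg (rs x) j = dg x (-j) := by
  obtain ⟨h0, h1, h2, h3, h4, h5⟩ := dg_mk6 (dg_lt x 0) (dg_lt x 5) (dg_lt x 4) (dg_lt x 3)
    (dg_lt x 2) (dg_lt x 1)
  rcases z6 j with rfl | rfl | rfl | rfl | rfl | rfl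
  · exact h0
  · exact h1
  · exact h2
  · exact h3
  · exact h4
  · exact h5

/-- reflection of the matchings -/
def mm (m : ℕ) : ℕ := if m = 0 then 1 else if m = 1 then 0 else if m = 2 then 4 else if m = 3 then 3 else 2

theorem mm_eq (m : ℕ) (j : ZMod 6) : nd (dg (mc (mm m)) j) = -(nd (dg (mc m) (-j))) := by
  have h : ∀ n : Fin 5, ∀ j : ZMod 6, nd (dg (mc (mm n.val)) j) = -(nd (dg (mc n.val) (-j))) := by
    decide
  by_cases h1 : m < 5
  · exact h ⟨m, h1⟩ j
  · have e1 : mm m = mm 4 := by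
      unfold mm
      rw [if_neg (by omega), if_neg (by omega), if_neg (by omega), if_neg (by omega)]
      rfl
    have e2 : mc m = mc 4 := by
      unfold mc
      rw [if_neg (by omega), if_neg (by omega), if_neg (by omega), if_neg (by omega)]
      rfl
    rw [e1, e2]
    exact h 4 j

/-- the reflected digit of a demand -/
def swd (d : ℕ) : ℕ := bif d == 2 then 3 else bif d == 3 then 2 else d

theorem swd_lt {d : ℕ} (h : d < 10) : swd d < 10 := by
  unfold swd
  cases d == 2
  · cases d == 3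
    · exact h
    · show 2 < 10
      decide
  · show 3 < 10
    decide

/-- reflection of the demands -/
def rw6 (x : ℕ) : ℕ :=
  mk6 (swd (dg x 5)) (swd (dg x 4)) (swd (dg x 3)) (swd (dg x 2)) (swd (dg x 1)) (swd (dg x 0))

theorem dg_rw6 (x : ℕ) (j : ZMod 6) : dg (rw6 x) j = swd (dg x (-j - 1)) := by
  obtain ⟨h0, h1, h2, h3, h4, h5⟩ := dg_mk6 (swd_lt (dg_lt x 5)) (swd_lt (dg_lt x 4))
    (swd_lt (dg_lt x 3)) (swd_lt (dg_lt x 2)) (swd_lt (dg_lt x 1)) (swd_lt (dg_lt x 0))
  rcases z6 j with rfl | rfl | rfl | rfl | rfl | rfl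
  · exact h0
  · exact h1
  · exact h2
  · exact h3
  · exact h4
  · exact h5

/-- the mirror image of an alternative -/
def Alt.mir (a : Alt) : Alt := ⟨rw6 a.l, rw6 a.r, rs a.s, mm a.m, rv a.u⟩

theorem on_rv (x : ℕ) (j : ZMod 6) : on (rv x) j = on x (-j - 1) := by
  unfold on
  rw [dg_rv]

theorem on_rs (x : ℕ) (j : ZMod 6) : on (rs x) j = on x (-j) := by
  unfold on
  rw [dg_rs]

theorem swd_dem (d : ℕ) : (swd d != 0) = (d != 0) ∧
    (swd d == 2 || swd d == 4) = (d == 3 || d == 4) ∧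
    (swd d == 3 || swd d == 4) = (d == 2 || d == 4) := by
  match d with
  | 0 => decide
  | 1 => decide
  | 2 => decide
  | 3 => decide
  | n + 4 =>
    have e : swd (n + 4) = n + 4 := by
      unfold swd
      rw [show (n + 4 == 2) = false from beq_false_of_ne (by omega),
        show (n + 4 == 3) = false from beq_false_of_ne (by omega)]
      rfl
    rw [e, show (n + 4 == 2) = false from beq_false_of_ne (by omega),
      show (n + 4 == 3) = false from beq_false_of_ne (by omega)]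
    exact ⟨rfl, rfl, rfl⟩

theorem dem_rw6 (x : ℕ) (j : ZMod 6) : lkd (rw6 x) j = lkd x (-j - 1) ∧
    led (rw6 x) j = rid x (-j - 1) ∧ rid (rw6 x) j = led x (-j - 1) := by
  unfold lkd led rid
  rw [dg_rw6]
  exact swd_dem _

theorem Alt.mir_F (a : Alt) : a.mir.F = a.F.mir := by
  have h : ∀ (j : ZMod 6) (T : Bool),
      lkd (if T = true then rw6 a.l else rw6 a.r) j = lkd (if (!T) = true then a.r else a.l) (-j - 1) ∧
      led (if T = true then rw6 a.l else rw6 a.r) j = rid (if (!T) = true then a.r else a.l) (-j - 1) ∧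
      rid (if T = true then rw6 a.l else rw6 a.r) j = led (if (!T) = true then a.r else a.l) (-j - 1) := by
    intro j T
    cases T
    · exact dem_rw6 _ _
    · exact dem_rw6 _ _
  ext j T
  · show lkd _ j = true ↔ lkd _ _ = true
    rw [← (h j T).1]
    exact Iff.rfl
  · show led _ j = true ↔ rid _ _ = true
    rw [← (h j T).2.1]
    exact Iff.rfl
  · show rid _ j = true ↔ led _ _ = true
    rw [← (h j T).2.2]
    exact Iff.rfl
  · show on (rs a.s) j = true ↔ on a.s (-j) = true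
    rw [on_rs]

theorem Alt.mir_S (a : Alt) : a.mir.S = a.S.mir := by
  refine PState.ext' (fun i => ?_) fun i => ?_
  · exact mm_eq a.m i
  · exact dg_rv a.u i

/-! ### tables with conditions on the corner set -/

/-- the mirror image of a row -/
def SRow.mir (r : SRow) : SRow := ⟨rv r.k, r.c.map Alt.mir⟩

theorem mirG_goodS (T : List SRow) : mirG (GoodS T) = GoodS (T.map SRow.mir) := by
  have e0 : ∀ j : ZMod 6, -(-j - 1) - 1 = j := fun j => by ring
  have e1 : ∀ (K : ZMod 6 → Prop) (j : ZMod 6), mirK K (-j - 1) = K j := fun K j => congrArg K (e0 j)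
  have key1 : ∀ (b : Rel) (a : Alt) (r : ZMod 6), Rel.mir b (a.F.rot (-r)) (a.S.rot (-r)) ↔
      b (a.mir.F.rot r) (a.mir.S.rot r) := by
    intro b a r
    show b (a.F.rot (-r)).mir (a.S.rot (-r)).mir ↔ _
    rw [Flags.mir_rot, PState.mir_rot, neg_neg, Alt.mir_F, Alt.mir_S]
  have key2 : ∀ (b : Rel) (a : Alt) (r : ZMod 6), Rel.mir b (a.F.rot r) (a.S.rot r) ↔
      b (a.mir.F.rot (-r)) (a.mir.S.rot (-r)) := by
    intro b a r
    have := key1 b a (-r)
    rwa [neg_neg] at this
  funext K σ b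
  apply propext
  constructor
  · rintro ⟨h1, h3⟩
    refine ⟨fun j hj hj1 => ?_, fun row hrow r hk => ?_⟩
    · refine h1 (-j - 2) (show K (-(-j - 2) - 1) from ?_) (show K (-(-j - 2 + 1) - 1) from ?_)
      · rwa [show -(-j - 2) - 1 = j + 1 by ring]
      · rwa [show -(-j - 2 + 1) - 1 = j by ring]
    · obtain ⟨row', hrow', rfl⟩ := List.mem_map.1 hrow
      obtain ⟨a, ha, hb⟩ := h3 row' hrow' (-r) fun j => by
        have h4 := hk (-j - 1)
        change Fit (dg (rv row'.k) _) _ at h4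
        rw [dg_rv, show -(-j - 1 + r) - 1 = j + -r by ring] at h4
        exact h4
      exact ⟨a.mir, List.mem_map.2 ⟨a, ha, rfl⟩, (key1 b a r).1 hb⟩
  · rintro ⟨h1, h3⟩
    refine ⟨fun j (hj : K (-j - 1)) (hj1 : K (-(j + 1) - 1)) => ?_, fun row hrow r hk => ?_⟩
    · refine h1 _ hj1 ?_
      rwa [show -(j + 1) - 1 + 1 = -j - 1 by ring]
    · obtain ⟨a', ha', hb⟩ := h3 row.mir (List.mem_map.2 ⟨row, hrow, rfl⟩) (-r) fun j => by
        have h4 := hk (-j - 1)
        rw [e1] at h4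
        change Fit (dg (rv row.k) _) _
        rw [dg_rv, show -(j + -r) - 1 = -j - 1 + r by ring]
        exact h4
      obtain ⟨a, ha, rfl⟩ := List.mem_map.1 ha'
      exact ⟨a, ha, (key2 b a r).2 hb⟩

theorem goodS_append (T T' : List SRow) :
    GoodS (T ++ T') = fun K σ b => GoodS T K σ b ∧ GoodS T' K σ b := by
  funext K σ b
  apply propext
  constructor
  · rintro ⟨h1, h3⟩
    exact ⟨⟨h1, fun row hr => h3 row (List.mem_append_left _ hr)⟩,
      ⟨h1, fun row hr => h3 row (List.mem_append_right _ hr)⟩⟩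
  · rintro ⟨⟨h1, h3⟩, h'⟩
    refine ⟨h1, fun row hr => ?_⟩
    rcases List.mem_append.1 hr with h | h
    · exact h3 row h
    · exact h'.rows row h

open DMap in
/-- **it suffices to prove the induction step for one half of a symmetric table** -/
theorem stepR_of_mirS {T : List SRow} (h : StepF (GoodS (T ++ T.map SRow.mir)) (GoodS T)) :
    StepR (GoodS (T ++ T.map SRow.mir)) := by
  rw [goodS_append, ← mirG_goodS] at h ⊢
  exact h.both

end Chk

end GT33
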