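import Pool.Agent.GT33.Split3
import Pool.Agent.GT33.DWalk

/-!
# GT33 module PATH3: paths with three edges

`two_quads`: a region with six leaving darts and eight darts has a corner quad at one of any two successive
positions.  `Patch.exists_P3`: in a patch without corner quads, a set of sites with three ring edges and three
inner edges in the cut gives a splitting `P3`.
-/

open Classical

namespace GT33

namespace DMap

variable {D : Type} {M : DMap D}

/-- the next leaving dart -/
theorem bd_next [Finite D] {B : D → Prop} {a : ZMod 6 → D} (hb : M.Bd B 6 a) {k : ZMod 6} {e : D}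
    (he : B e) (he' : ¬ B (M.al e)) (hn : M.SameNode (a k) (M.al e)) : e = a (k + 1) := by
  obtain ⟨j, rfl⟩ := (hb.mem e).1 ⟨he, he'⟩
  have h1 : M.SameNode (a (j - 1)) (M.al (a (j - 1 + 1))) := sameNode_iff.2 (hb.step (j - 1))
  rw [sub_add_cancel] at h1
  have h2 := nodes_inj hb (hn.trans h1.symm)
  rw [h2, sub_add_cancel]

/-- a region with two quads: all sites are quads -/
theorem two_quads_deg [Fintype D] (hM : M.Legal) {B : D → Prop} (hs : M.Sites B)
    (h8 : Nat.card {d // B d} = 8) {d : D} (hd : B d) : M.deg d = 4 := by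
  have hsub : ∀ e, M.SameSite d e → B e := fun e he => (Sites.same (M := M) hs he).1 hd
  have h1 := card_or (B := M.SameSite d) (C := B) hsub
  rw [h8, card_site'] at h1
  have hs2 : M.Sites fun e => B e ∧ ¬ M.SameSite d e := Sites.and (M := M) hs (sites_site d).not
  rcases hM.deg d with h2 | h2
  · exact h2
  · exfalso
    have h3 : ∃ e, B e ∧ ¬ M.SameSite d e := by
      by_contra hne
      push Not at hne
      have h4 : Nat.card {e // B e ∧ ¬ M.SameSite d e} = 0 := by
        have : IsEmpty {e // B e ∧ ¬ M.SameSite d e} := ⟨fun e => e.2.2 (hne e.1 e.2.1)⟩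
        exact Nat.card_of_isEmpty
      omega
    have h4 := hM.four_le_card hs2 h3
    omega

/-- a region with two quads has a corner at one of any two successive positions -/
theorem two_quads [Fintype D] (hM : M.Legal) {B : D → Prop} {a : ZMod 6 → D} (hb : M.Bd B 6 a)
    (h8 : Nat.card {d // B d} = 8) (k : ZMod 6) :
    M.nx (a k) = a (k + 1) ∨ M.nx (a (k + 1)) = a (k + 1 + 1) := by
  by_contra hne
  push Not at hne
  obtain ⟨h1, h2⟩ := hne
  have hnx : ∀ j, B (M.nx (a j)) := fun j => (hb.site (a j)).2 (bd_mem hb j)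
  have hal : ∀ d, M.SameNode d (M.al (M.nx d)) := fun d => by
    have := Patch.nx_symm_node (M := M) (M.nx d)
    rw [Equiv.symm_apply_apply] at this
    exact this.symm
  -- inner darts
  have hin : ∀ j, M.nx (a j) ≠ a (j + 1) → B (M.al (M.nx (a j))) := by
    intro j hj
    by_contra h
    exact hj (bd_next hb (hnx j) h (hal _))
  have x1 := hin k h1
  have y1 := hin (k + 1) h2
  set x := M.nx (a k) with hx
  set y := M.nx (a (k + 1)) with hy
  have hxy : y ≠ x := fun h => z6_succ k (hb.inj (M.nx.injective h))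
  -- count: at most two inner darts
  have hcount : ∀ z, B z → B (M.al z) → z = x ∨ z = M.al x := by
    intro z hz hz'
    by_contra hne
    push Not at hne
    have hc : (Finset.univ.filter fun d => B d).card = 8 := by
      rw [← h8, Nat.card_eq_fintype_card, Fintype.card_subtype]
    have hsub : (Finset.univ.image a) ∪ {x, M.al x, z} ⊆ Finset.univ.filter fun d => B d := by
      intro d hd
      simp only [Finset.mem_union, Finset.mem_image, Finset.mem_univ, true_and,
        Finset.mem_insert, Finset.mem_singleton] at hd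
      simp only [Finset.mem_filter, Finset.mem_univ, true_and]
      rcases hd with ⟨j, rfl⟩ | rfl | rfl | rfl
      · exact bd_mem hb j
      · exact hnx k
      · exact x1
      · exact hz
    have hdis : Disjoint (Finset.univ.image a) {x, M.al x, z} := by
      rw [Finset.disjoint_left]
      intro d hd hd'
      obtain ⟨j, -, rfl⟩ := Finset.mem_image.1 hd
      have h3 := bd_al hb j
      simp only [Finset.mem_insert, Finset.mem_singleton] at hd'
      rcases hd' with h4 | h4 | h4
      · rw [h4] at h3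
        exact h3 x1
      · rw [h4, M.inv] at h3
        exact h3 (hnx k)
      · rw [h4] at h3
        exact h3 hz'
    have h3 : ({x, M.al x, z} : Finset D).card = 3 := by
      rw [Finset.card_insert_of_notMem, Finset.card_insert_of_notMem, Finset.card_singleton]
      · simpa using fun h => hne.2 h.symm
      · simp only [Finset.mem_insert, Finset.mem_singleton, not_or]
        exact ⟨(M.ne x).symm, fun h => hne.1 h.symm⟩
    have h4 := Finset.card_le_card hsub
    rw [Finset.card_union_of_disjoint hdis, Finset.card_image_of_injective _ hb.inj, h3, hc] at h4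
    simp at h4
  have hyx : y = M.al x := (hcount y (hnx _) y1).resolve_left hxy
  -- the next dart of `y`
  have h4 : M.deg (a (k + 1)) = 4 := two_quads_deg hM hb.site h8 (bd_mem hb _)
  have h5 : B (M.nx y) := (hb.site y).2 (hnx _)
  have h6 : ¬ B (M.al (M.nx y)) := by
    intro h6
    rcases hcount _ h5 h6 with h7 | h7
    · rw [hx] at h7
      have h8 := M.nx.injective h7
      have h9 := bd_al hb k
      rw [← h8] at h9
      exact h9 y1
    · rw [← hyx] at h7
      have h8 : M.deg y = 4 := by rw [hy, deg_nx, h4]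
      exact iter_ne (M := M) (d := y) (k := 1) (by omega) (by omega) h7
  have h7 : M.SameNode (a k) (M.al (M.nx y)) := by
    refine (hal _).trans ?_
    rw [← hx, ← hyx]
    exact hal y
  have h8 := bd_next hb h5 h6 h7
  rw [hy] at h8
  exact iter_ne (M := M) (d := a (k + 1)) (k := 2) (by omega) (by omega) h8

/-! ### patches without corner quads -/

section nocorner

variable [Fintype D] {A : D → Prop} {δ : ZMod 6 → D} (hP : M.Patch A δ)
  (hnc : ∀ i, M.nx (δ i) = δ (i + 1) → M.deg (δ i) = 6)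

include hP hnc

theorem Patch.nadj' {i j : ZMod 6} (h4 : M.deg (δ i) = 4) : M.nx (δ i) ≠ δ j := by
  intro h
  have h1 : δ i = M.nx.symm (δ j) := by rw [← h, Equiv.symm_apply_apply]
  have h2 := ((hP.corner_iff i j).1 h1).2
  have := hnc i h2
  omega

theorem Patch.scut_quad' {q : D} (h4 : M.deg q = 4) {B : D → Prop} (hB : ∀ e, B e ↔ M.SameSite q e) :
    scut δ B ≤ 2 := by
  have hs : (Finset.univ.filter fun e => M.SameSite q e).card = 4 := by
    rw [← h4]
    exact card_site q _ fun e => by simp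
  let S := Finset.univ.filter fun e => M.SameSite q e ∧ ∃ i, e = δ i
  have h1 : scut δ B = S.card := by
    unfold scut
    rw [← Finset.card_image_of_injective _ hP.bd.inj]
    congr 1
    ext e
    simp only [Finset.mem_image, Finset.mem_filter, Finset.mem_univ, true_and, S]
    constructor
    · rintro ⟨i, hi, rfl⟩
      exact ⟨(hB _).1 hi, i, rfl⟩
    · rintro ⟨h, i, rfl⟩
      exact ⟨i, (hB _).2 h, rfl⟩
  have h2 : Disjoint S (S.image M.nx) := by
    rw [Finset.disjoint_left]
    intro x hx hx'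
    obtain ⟨y, hy, rfl⟩ := Finset.mem_image.1 hx'
    simp only [Finset.mem_filter, Finset.mem_univ, true_and, S] at hx hy
    obtain ⟨-, j, hj⟩ := hx
    obtain ⟨h3, i, rfl⟩ := hy
    exact Patch.nadj' hP hnc (by rw [← deg_same h3, h4]) hj
  have h3 : S ∪ S.image M.nx ⊆ Finset.univ.filter fun e => M.SameSite q e := by
    intro x hx
    rcases Finset.mem_union.1 hx with hx | hx
    · simp only [Finset.mem_filter, Finset.mem_univ, true_and, S] at hx ⊢
      exact hx.1
    · obtain ⟨y, hy, rfl⟩ := Finset.mem_image.1 hx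
      simp only [Finset.mem_filter, Finset.mem_univ, true_and, S] at hy ⊢
      exact hy.1.trans ⟨1, by simp⟩
  have h4' := Finset.card_le_card h3
  rw [Finset.card_union_of_disjoint h2, Finset.card_image_of_injective _ M.nx.injective, hs] at h4'
  omega

/-- an inner edge does not join two ring nodes -/
theorem Patch.no_chord' {x : D} (hx : A x) (hx' : A (M.al x)) (h1 : Patch.Ring M δ x)
    (h2 : Patch.Ring M δ (M.al x)) : False := by
  obtain ⟨j, hj⟩ := h1
  obtain ⟨i, hi⟩ := h2
  obtain ⟨B, hB, hBA, hB1, -⟩ := hP.exists_arc (arc_one hi hj)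
  have h3 : rcut M A B ≤ 1 := rcut_le hB1
  -- the set is nontrivial
  have h4 : ind (B x) + ind (B (M.al x)) = 1 := by
    rw [hB1 x hx hx', wcnt_cons, wcnt_nil, ind_true rfl, ind_false fun h => M.ne x h.symm]
    decide
  rw [ind_add'] at h4
  have hin : ∃ d, B d := by
    by_contra hne
    push Not at hne
    exact h4 (iff_of_false (hne _) (hne _))
  have hout : ∃ d, A d ∧ ¬ B d := by
    by_contra hne
    push Not at hne
    exact h4 (iff_of_true (hne _ hx) (hne _ hx'))
  obtain ⟨r, hr⟩ := hP.exists_root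
  have hB' := hP.sites_compl hB
  have c1 := hP.legal.cut4 B hB hin ⟨r, fun h => hr (hBA r h)⟩
  have c2 := hP.legal.cut4 _ hB' hout ⟨r, fun h => hr h.1⟩
  have c3 := hP.cut_eq hBA
  have c4 := hP.cut_eq (B := fun d => A d ∧ ¬ B d) fun d h => h.1
  rw [Patch.rcut_compl] at c4
  have c5 := hP.scut_compl B
  have hq : ∃ q, M.deg q = 4 ∧ ∀ e, B e ↔ M.SameSite q e := by
    rcases hP.legal.quad B hB (by omega) with ⟨q, hq⟩ | ⟨q, hq⟩
    · refine ⟨q, ?_, hq⟩
      have c6 : M.cut B = 4 := by omega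
      rw [← c6, ← hP.legal.cut_site]
      exact cut_congr fun e => (hq e).symm
    · exfalso
      obtain ⟨a, ha, hab⟩ := hout
      have h5 := ((hq r).1 fun h => hr (hBA r h)).symm.trans ((hq a).1 hab)
      exact hr ((hP.sites.same h5).2 ha)
  obtain ⟨q, hq, hqB⟩ := hq
  have := Patch.scut_quad' hP hnc hq hqB
  omega

omit hP hnc [Fintype D] in
theorem z6_block (f : ZMod 6 → Bool) (h3 : (Finset.univ.filter fun k => f k = true).card = 3)
    (h : ∀ k, f k = false → f (k - 1) = true → f (k + 1) = true → False) :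
    ∃ c, f c = true ∧ f (c + 1) = true ∧ f (c + 2) = true ∧ f (c + 3) = false ∧ f (c + 4) = false ∧
      f (c + 5) = false := by
  revert f
  decide

/-- **paths with three edges**: a set with three ring edges and three inner edges in the cut splits the patch -/
theorem Patch.exists_P3 {B : D → Prop} (hB : M.Sites B) (hBA : ∀ d, B d → A d) (hc : M.cut B = 6)
    (hs : scut δ B = 3) :
    ∃ (c : ZMod 6) (a b : ZMod 6 → D), M.P3 A B (fun d => A d ∧ ¬ B d) (fun i => δ (i + c)) a b := by
  obtain ⟨r, hr⟩ := hP.exists_root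
  have hrB : ¬ B r := fun h => hr (hBA r h)
  obtain ⟨i₀, hi₀⟩ := scut_pos (δ := δ) (B := B) (by omega)
  have ha₀ := hP.legal.exists_bd hB ⟨_, hi₀⟩ ⟨r, hrB⟩ (by rw [hc]; decide)
  rw [hc] at ha₀
  obtain ⟨a₀, ha₀⟩ := ha₀
  have ring_iff : ∀ {d}, B d → (¬ A (M.al d) ↔ ∃ j, δ j = d) := fun {d} hd => by
    rw [← hP.bd.mem d]
    exact ⟨fun h => ⟨hBA d hd, h⟩, fun h => h.2⟩
  -- three successive ring darts
  obtain ⟨c, hc0, hc1, hc2, hc3, hc4, hc5⟩ := z6_block (fun k => decide (¬ A (M.al (a₀ k)))) (by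
    rw [← hs]
    unfold scut
    rw [← Finset.card_image_of_injective _ ha₀.inj, ← Finset.card_image_of_injective _ hP.bd.inj]
    congr 1
    ext d
    simp only [Finset.mem_image, Finset.mem_filter, Finset.mem_univ, true_and, decide_eq_true_eq]
    constructor
    · rintro ⟨k, hk, rfl⟩
      obtain ⟨j, hj⟩ := (ring_iff (bd_mem ha₀ k)).1 hk
      exact ⟨j, by rw [hj]; exact bd_mem ha₀ k, hj⟩
    · rintro ⟨j, hj, rfl⟩
      obtain ⟨k, hk⟩ := (ha₀.mem (δ j)).1 ⟨hj, fun h => hP.notA j (hBA _ h)⟩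
      exact ⟨k, by rw [hk]; exact hP.notA j, hk⟩) (by
    intro k h1 h2 h3
    simp only [decide_eq_true_eq, decide_eq_false_iff_not, not_not] at h1 h2 h3
    obtain ⟨j, hj⟩ := (ring_iff (bd_mem ha₀ _)).1 h2
    obtain ⟨l, hl⟩ := (ring_iff (bd_mem ha₀ _)).1 h3
    refine Patch.no_chord' hP hnc (x := a₀ k) (hBA _ (bd_mem ha₀ k)) h1 ⟨l - 1, ?_⟩ ⟨j, ?_⟩
    · have h4 := hP.root_node (l - 1)
      rw [sub_add_cancel, hl] at h4
      exact h4.trans (sameNode_iff.2 (ha₀.step k)).symm
    · have h4 : M.SameNode (a₀ (k - 1)) (M.al (a₀ (k - 1 + 1))) := sameNode_iff.2 (ha₀.step (k - 1))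
      rw [sub_add_cancel, ← hj] at h4
      exact h4)
  simp only [decide_eq_true_eq, decide_eq_false_iff_not, not_not] at hc0 hc1 hc2 hc3 hc4 hc5
  let a : ZMod 6 → D := fun i => a₀ (i + c)
  have ha : M.Bd B 6 a := BdD.shift ha₀ c
  have stepB : ∀ i, M.SameNode (a i) (M.al (a (i + 1))) := fun i => sameNode_iff.2 (ha.step i)
  have r0 : ¬ A (M.al (a 0)) := by
    show ¬ A (M.al (a₀ (0 + c)))
    rwa [zero_add]
  have r1 : ¬ A (M.al (a 1)) := by
    show ¬ A (M.al (a₀ (1 + c)))
    rwa [add_comm]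
  have r2 : ¬ A (M.al (a 2)) := by
    show ¬ A (M.al (a₀ (2 + c)))
    rwa [add_comm]
  have p3 : A (M.al (a 3)) := by
    show A (M.al (a₀ (3 + c)))
    rwa [add_comm]
  have p4 : A (M.al (a 4)) := by
    show A (M.al (a₀ (4 + c)))
    rwa [add_comm]
  have p5 : A (M.al (a 5)) := by
    show A (M.al (a₀ (5 + c)))
    rwa [add_comm]
  obtain ⟨j, hj⟩ := (ring_iff (bd_mem ha 0)).1 r0
  obtain ⟨j1, hj1⟩ := (ring_iff (bd_mem ha 1)).1 r1
  obtain ⟨j2, hj2⟩ := (ring_iff (bd_mem ha 2)).1 r2
  have e1 : j1 = 1 + j := by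
    have h1 := stepB 0
    rw [show (0 : ZMod 6) + 1 = 1 from rfl, ← hj, ← hj1] at h1
    have h2 := hP.root_node (j1 - 1)
    rw [sub_add_cancel] at h2
    have h3 := nodes_inj hP.bd (h1.trans h2.symm)
    rw [h3]
    ring
  have e2 : j2 = 2 + j := by
    have h1 := stepB 1
    rw [show (1 : ZMod 6) + 1 = 2 from rfl, ← hj1, ← hj2] at h1
    have h2 := hP.root_node (j2 - 1)
    rw [sub_add_cancel] at h2
    have h3 := nodes_inj hP.bd (h1.trans h2.symm)
    have h4 : j2 = j1 + 1 := by rw [h3]; ring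
    rw [h4, e1]
    ring
  subst e1 e2
  let δ' : ZMod 6 → D := fun i => δ (i + j)
  have hδ' : M.Bd A 6 δ' := BdD.shift hP.bd j
  have a0 : a 0 = δ' 0 := by
    show a 0 = δ (0 + j)
    rw [zero_add, hj]
  have a1 : a 1 = δ' 1 := hj1.symm
  have a2 : a 2 = δ' 2 := hj2.symm
  have stepA : ∀ i, M.SameNode (δ' i) (M.al (δ' (i + 1))) := fun i => sameNode_iff.2 (hδ'.step i)
  let b : ZMod 6 → D := fun k => if k = 0 then M.al (a 5) else if k = 1 then M.al (a 4) else
    if k = 2 then M.al (a 3) else δ' k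
  have b0 : b 0 = M.al (a 5) := rfl
  have b1 : b 1 = M.al (a 4) := rfl
  have b2 : b 2 = M.al (a 3) := rfl
  have b3 : b 3 = δ' 3 := rfl
  have b4 : b 4 = δ' 4 := rfl
  have b5 : b 5 = δ' 5 := rfl
  have hring : ∀ m, B (δ' m) → m = 0 ∨ m = 1 ∨ m = 2 := by
    intro m hm
    obtain ⟨k, hk⟩ := (ha.mem (δ' m)).1 ⟨hm, fun h => bd_al hδ' m (hBA _ h)⟩
    have h1 : ¬ A (M.al (a k)) := by rw [hk]; exact bd_al hδ' m
    rcases z6_all k with rfl | rfl | rfl | rfl | rfl | rfl
    · rw [a0] at hk
      exact Or.inl (hδ'.inj hk).symm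
    · rw [a1] at hk
      exact Or.inr (Or.inl (hδ'.inj hk).symm)
    · rw [a2] at hk
      exact Or.inr (Or.inr (hδ'.inj hk).symm)
    · exact absurd p3 h1
    · exact absurd p4 h1
    · exact absurd p5 h1
  have hCs : M.Sites fun d => A d ∧ ¬ B d := hP.sites_compl hB
  have hleave : ∀ k, A (M.al (a k)) → (A (M.al (a k)) ∧ ¬ B (M.al (a k))) ∧
      ¬ (A (M.al (M.al (a k))) ∧ ¬ B (M.al (M.al (a k)))) := by
    intro k hk
    rw [M.inv]
    exact ⟨⟨hk, bd_al ha k⟩, fun h => h.2 (bd_mem ha k)⟩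
  have hleave' : ∀ m, ¬ (m = 0 ∨ m = 1 ∨ m = 2) → (A (δ' m) ∧ ¬ B (δ' m)) ∧
      ¬ (A (M.al (δ' m)) ∧ ¬ B (M.al (δ' m))) := by
    intro m hm
    exact ⟨⟨bd_mem hδ' m, fun h => hm (hring m h)⟩, fun h => bd_al hδ' m h.1⟩
  have mem : ∀ d, ((A d ∧ ¬ B d) ∧ ¬ (A (M.al d) ∧ ¬ B (M.al d))) ↔ ∃ k, b k = d := by
    intro d
    constructor
    · rintro ⟨⟨h1, h2⟩, h3⟩
      by_cases h4 : A (M.al d)
      · have h5 : B (M.al d) := by
          by_contra h5
          exact h3 ⟨h4, h5⟩
        obtain ⟨k, hk⟩ := (ha.mem (M.al d)).1 ⟨h5, by rw [M.inv]; exact h2⟩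
        have hd : d = M.al (a k) := by rw [hk, M.inv]
        have hk' : A (M.al (a k)) := by rw [← hd]; exact h1
        rcases z6_all k with rfl | rfl | rfl | rfl | rfl | rfl
        · exact absurd hk' r0
        · exact absurd hk' r1
        · exact absurd hk' r2
        · exact ⟨2, by rw [b2, hd]⟩
        · exact ⟨1, by rw [b1, hd]⟩
        · exact ⟨0, by rw [b0, hd]⟩
      · obtain ⟨m, rfl⟩ := (hδ'.mem d).1 ⟨h1, h4⟩
        rcases z6_all m with rfl | rfl | rfl | rfl | rfl | rfl
        · exact absurd (by rw [← a0]; exact bd_mem ha 0) h2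
        · exact absurd (by rw [← a1]; exact bd_mem ha 1) h2
        · exact absurd (by rw [← a2]; exact bd_mem ha 2) h2
        · exact ⟨3, b3⟩
        · exact ⟨4, b4⟩
        · exact ⟨5, b5⟩
    · rintro ⟨k, rfl⟩
      rcases z6_all k with rfl | rfl | rfl | rfl | rfl | rfl
      · exact hleave 5 p5
      · exact hleave 4 p4
      · exact hleave 3 p3
      · exact hleave' 3 (by decide)
      · exact hleave' 4 (by decide)
      · exact hleave' 5 (by decide)
  have hcC : M.cut (fun d => A d ∧ ¬ B d) = 6 := by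
    have c3 := hP.cut_eq hBA
    have c4 := hP.cut_eq (B := fun d => A d ∧ ¬ B d) fun d h => h.1
    rw [Patch.rcut_compl] at c4
    have c5 := hP.scut_compl B
    omega
  have himg : (Finset.univ.filter fun x => (A x ∧ ¬ B x) ∧ ¬ (A (M.al x) ∧ ¬ B (M.al x))) =
      Finset.univ.image b := by
    ext d
    simp only [Finset.mem_filter, Finset.mem_univ, true_and, Finset.mem_image]
    exact mem d
  have hcard : (Finset.univ.image b).card = 6 := by
    rw [← himg]
    have := hcC
    unfold DMap.cut at this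
    rwa [Nat.card_eq_fintype_card, Fintype.card_subtype] at this
  have hinj : Function.Injective b := by
    have h2 := Finset.injOn_of_card_image_eq (s := Finset.univ) (f := b) (by
      rw [hcard]; rfl)
    exact fun x y hxy => h2 (Finset.mem_coe.2 (Finset.mem_univ _))
      (Finset.mem_coe.2 (Finset.mem_univ _)) hxy
  have hbC : M.Bd (fun d => A d ∧ ¬ B d) 6 b := by
    have hb₀ := hP.legal.exists_bd hCs ⟨_, ((mem _).2 ⟨3, rfl⟩).1⟩ ⟨r, fun h => hr h.1⟩
      (by rw [hcC]; decide)
    obtain ⟨b₀, hb₀⟩ := hb₀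
    refine hP.legal.plane.toD.bd_of_nodes (A := fun d => A d ∧ ¬ B d) hCs mem ?_ fun k =>
      sameNode_iff.1 ?_
    · intro i k hik
      obtain ⟨x, hx⟩ := (hb₀.mem _).1 ((mem _).2 ⟨i, rfl⟩)
      obtain ⟨y, hy⟩ := (hb₀.mem _).1 ((mem _).2 ⟨k, rfl⟩)
      have h1 : dnode M.nx M.al (b₀ x) = dnode M.nx M.al (b₀ y) := by rw [hx, hy]; exact hik
      have h2 := hb₀.nodes h1
      exact hinj (by rw [← hx, ← hy, h2])
    · rcases z6_all k with rfl | rfl | rfl | rfl | rfl | rfl
      · show M.SameNode (M.al (a 5)) (M.al (M.al (a 4)))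
        rw [M.inv]
        exact (stepB 4).symm
      · show M.SameNode (M.al (a 4)) (M.al (M.al (a 3)))
        rw [M.inv]
        exact (stepB 3).symm
      · show M.SameNode (M.al (a 3)) (M.al (δ' 3))
        refine (stepB 2).symm.trans ?_
        rw [a2]
        exact stepA 2
      · exact stepA 3
      · exact stepA 4
      · show M.SameNode (δ' 5) (M.al (M.al (a 5)))
        rw [M.inv]
        refine (stepA 5).trans ?_
        rw [show (5 : ZMod 6) + 1 = 0 from rfl, ← a0]
        exact (stepB 5).symm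
  refine ⟨j, a, b, hδ', ha, hbC, fun d => ?_, fun d h1 h2 => h2.2 h1, a0, a1, a2, b3, b4, b5, b2.symm,
    b1.symm, b0.symm⟩
  constructor
  · intro h1
    by_cases h2 : B d
    · exact Or.inl h2
    · exact Or.inr ⟨h1, h2⟩
  · rintro (h1 | h1)
    · exact hBA d h1
    · exact h1.1

end nocorner

namespace P3

variable [Fintype D] {A B C : D → Prop} {δ a b : ZMod 6 → D}

theorem card_B (h : M.P3 A B C δ a b) (hM : M.Legal)
    (hnc : ∀ i, M.nx (δ i) = δ (i + 1) → M.deg (δ i) = 6) : Nat.card {d // B d} ≠ 8 := by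
  intro h8
  have e1 : (0 : ZMod 6) + 1 = 1 := rfl
  have e2 : (1 : ZMod 6) + 1 = 2 := rfl
  have h2 := two_quads hM h.bdB h8 0
  rw [e1, e2, h.a0, h.a1, h.a2] at h2
  rcases h2 with h2 | h2
  · have h3 := hnc 0 h2
    rw [← h.a0, two_quads_deg hM h.bdB.site h8 (bd_mem h.bdB 0)] at h3
    omega
  · have h3 := hnc 1 h2
    rw [← h.a1, two_quads_deg hM h.bdB.site h8 (bd_mem h.bdB 1)] at h3
    omega

theorem card_C (h : M.P3 A B C δ a b) (hM : M.Legal)
    (hnc : ∀ i, M.nx (δ i) = δ (i + 1) → M.deg (δ i) = 6) : Nat.card {d // C d} ≠ 8 := by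
  intro h8
  have e1 : (3 : ZMod 6) + 1 = 4 := rfl
  have e2 : (4 : ZMod 6) + 1 = 5 := rfl
  have h2 := two_quads hM h.bdC h8 3
  rw [e1, e2, h.b3, h.b4, h.b5] at h2
  rcases h2 with h2 | h2
  · have h3 := hnc 3 h2
    rw [← h.b3, two_quads_deg hM h.bdC.site h8 (bd_mem h.bdC 3)] at h3
    omega
  · have h3 := hnc 4 h2
    rw [← h.b4, two_quads_deg hM h.bdC.site h8 (bd_mem h.bdC 4)] at h3
    omega

variable {Good : (ZMod 6 → Prop) → Prop → Rel → Prop}

/-- the induction hypothesis for the first half -/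
theorem good_B {X : Boxes D} (hO : M.Obj Good A δ X) (h : M.P3 A B C δ a b)
    (hmono : ∀ K σ b b', (∀ F t, F.Ok → b F t → b' F t) → Good K σ b → Good K σ b')
    (IH : IHR Good (Nat.card D)) (hq : ∀ d, A d → M.deg d = 4)
    (hnc : ∀ i, M.nx (δ i) = δ (i + 1) → M.deg (δ i) = 6) :
    Good (KS M X.κ a) (M.StarR B a X) (Rz M B a X.β) :=
  hO.region_good hmono IH h.bdB (fun _ hd => h.inB hd) (fun _ hd => hq _ (h.inB hd)) ⟨b 0, h.inC (bd_mem h.bdC 0), fun h1 =>
    h.dis _ h1 (bd_mem h.bdC 0)⟩ (h.card_B hO.patch.legal hnc)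

/-- the induction hypothesis for the second half -/
theorem good_C {X : Boxes D} (hO : M.Obj Good A δ X) (h : M.P3 A B C δ a b)
    (hmono : ∀ K σ b b', (∀ F t, F.Ok → b F t → b' F t) → Good K σ b → Good K σ b')
    (IH : IHR Good (Nat.card D)) (hq : ∀ d, A d → M.deg d = 4)
    (hnc : ∀ i, M.nx (δ i) = δ (i + 1) → M.deg (δ i) = 6) :
    Good (KS M X.κ b) (M.StarR C b X) (Rz M C b X.β) :=
  hO.region_good hmono IH h.bdC (fun _ hd => h.inC hd) (fun _ hd => hq _ (h.inC hd)) ⟨a 0, h.inB (bd_mem h.bdB 0),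
    h.dis _ (bd_mem h.bdB 0)⟩ (h.card_C hO.patch.legal hnc)

end P3

end DMap

end GT33
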