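import Pool.Agent.GT33.TabZ
import Pool.Agent.GT33.ChkK
import Pool.Agent.GT33.Path3

/-!
# GT33 module CHKP: the finite check for objects which are split by a path with three edges

`goP`: a correct certificate (decision tree, see `ChkT`) for a row and a position of the path.
`P3.row`: the row is realised.  `P3.goodS`: the object is good if there are correct certificates for all rows and
the three positions `0, 1, 2` of the path.
-/

namespace GT33

namespace Chk

/-- the demands of the first half -/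
def flP1 (i r : ZMod 6) (a a' : Alt) : Bool :=
  all6 fun j => j == 3 || j == 4 || (dmd (j == 5) (j == 2) a.r (j + i) a'.r (j + r) &&
    dmd (j == 5) (j == 2) a.l (j + i) a'.l (j + r) && (j == 5 || imp (on a.s (j + i)) (on a'.s (j + r))))

/-- the demands of the second half -/
def flP2 (i r : ZMod 6) (a a' : Alt) : Bool :=
  all6 fun j => j == 0 || j == 1 || (dmd (j == 2) (j == 5) a.r (j + i) a'.r (j + r) &&
    dmd (j == 2) (j == 5) a.l (j + i) a'.l (j + r) && (j == 2 || imp (on a.s (j + i)) (on a'.s (j + r))))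

/-- the test of a leaf -/
def okP (i : ZMod 6) (tg : List Alt) (s : List (ZMod 6 × Alt)) (t : ℕ) : Bool :=
  match s with
  | [x, y] => match tg[t]? with
    | some a => flP1 i x.1 a x.2 && flP2 i y.1 a y.2 && p3ok (x.2.S.rot x.1) (y.2.S.rot y.1) &&
        eqS (p3 (x.2.S.rot x.1) (y.2.S.rot y.1)) (a.S.rot i)
    | none => false
  | _ => false

/-- the clauses of the components -/
def clP (T : List SRow) : ℕ → Fc → ℕ → ZMod 6 → Option (List Alt)
  | 0 => clS T
  | 1 => clS T
  | _ => fun _ _ _ => none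

/-- the object has no corners: facts about the first half -/
def fcP1 : Fc := [(0, false), (1, false)]

/-- the object has no corners: facts about the second half -/
def fcP2 : Fc := [(3, false), (4, false)]

/-- the certificate for a row and a position of the path -/
def goP (T : List SRow) (i : ZMod 6) (tg : List Alt) (x : List Ins) : Bool :=
  runC (clP T) (okP i tg) [fcP1, fcP2] x

theorem flP_le {i r : ZMod 6} {a a' : Alt} {u v eL eR : ZMod 6} {h : ZMod 6 → Bool}
    (h0 : ∀ j, j ≠ u → j ≠ v → (dmd (j == eL) (j == eR) a.r (j + i) a'.r (j + r) = true ∧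
      dmd (j == eL) (j == eR) a.l (j + i) a'.l (j + r) = true)) (j : ZMod 6) (T : Bool)
    (hj : j ≠ u ∧ j ≠ v) :
    ((a.F.rot i).lk j T → (a'.F.rot r).lk j T) ∧
    (((j = eL → (a.F.rot i).lk j T) ∧ (j ≠ eL → (a.F.rot i).le j T)) → (a'.F.rot r).le j T) ∧
    (((j = eR → (a.F.rot i).lk j T) ∧ (j ≠ eR → (a.F.rot i).ri j T)) → (a'.F.rot r).ri j T) := by
  have h1 : dmd (j == eL) (j == eR) (if T = true then a.r else a.l) (j + i)
      (if T = true then a'.r else a'.l) (j + r) = true := by
    cases T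
    · exact (h0 j hj.1 hj.2).2
    · exact (h0 j hj.1 hj.2).1
  have h2 := dmd_iff.1 h1
  exact ⟨h2.1, fun h3 => h2.2.1 ⟨fun h4 => h3.1 (by simpa using h4), fun h4 => h3.2 (by simpa using h4)⟩,
    fun h3 => h2.2.2 ⟨fun h4 => h3.1 (by simpa using h4), fun h4 => h3.2 (by simpa using h4)⟩⟩

theorem flP1_le {i r : ZMod 6} {a a' : Alt} (h : flP1 i r a a' = true) :
    (p3B (a.F.rot i)).Le (a'.F.rot r) := by
  unfold flP1 at h
  rw [all6_iff] at h
  simp only [Bool.or_eq_true, Bool.and_eq_true, beq_iff_eq, imp_iff] at h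
  have h1 := flP_le (i := i) (r := r) (a := a) (a' := a') (u := 3) (v := 4) (eL := 5) (eR := 2)
    (h := fun _ => true) fun j h3 h4 => ((h j).resolve_left fun h5 => h5.elim h3 h4).1
  have h2 : ∀ j : ZMod 6, j ≠ 3 → j ≠ 4 → j ≠ 5 → on a.s (j + i) = true → on a'.s (j + r) = true :=
    fun j h3 h4 h5 => ((h j).resolve_left fun h5 => h5.elim h3 h4).2.resolve_left h5
  refine ⟨?_, ?_, ?_, ?_⟩
  · rintro j T ⟨h3, h4⟩
    exact (h1 j T h3).1 h4
  · rintro j T ⟨h3, h4⟩
    exact (h1 j T h3).2.1 h4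
  · rintro j T ⟨h3, h4⟩
    exact (h1 j T h3).2.2 h4
  · rintro j ⟨h3, h4⟩
    rcases h3 with rfl | rfl | rfl
    · exact h2 0 (by decide) (by decide) (by decide) h4
    · exact h2 1 (by decide) (by decide) (by decide) h4
    · exact h2 2 (by decide) (by decide) (by decide) h4

theorem flP2_le {i r : ZMod 6} {a a' : Alt} (h : flP2 i r a a' = true) :
    (p3C (a.F.rot i)).Le (a'.F.rot r) := by
  unfold flP2 at h
  rw [all6_iff] at h
  simp only [Bool.or_eq_true, Bool.and_eq_true, beq_iff_eq, imp_iff] at h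
  have h1 := flP_le (i := i) (r := r) (a := a) (a' := a') (u := 0) (v := 1) (eL := 2) (eR := 5)
    (h := fun _ => true) fun j h3 h4 => ((h j).resolve_left fun h5 => h5.elim h3 h4).1
  have h2 : ∀ j : ZMod 6, j ≠ 0 → j ≠ 1 → j ≠ 2 → on a.s (j + i) = true → on a'.s (j + r) = true :=
    fun j h3 h4 h5 => ((h j).resolve_left fun h5 => h5.elim h3 h4).2.resolve_left h5
  refine ⟨?_, ?_, ?_, ?_⟩
  · rintro j T ⟨h3, h4⟩
    exact (h1 j T h3).1 h4
  · rintro j T ⟨h3, h4⟩
    exact (h1 j T h3).2.1 h4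
  · rintro j T ⟨h3, h4⟩
    exact (h1 j T h3).2.2 h4
  · rintro j ⟨h3, h4⟩
    rcases h3 with rfl | rfl | rfl
    · exact h2 3 (by decide) (by decide) (by decide) h4
    · exact h2 4 (by decide) (by decide) (by decide) h4
    · exact h2 5 (by decide) (by decide) (by decide) h4

/-- the check for all rows of the table `T₀` and three positions of the path, the source rows are in the table `T` -/
def ChkP (T T₀ : List SRow) : Prop :=
  ∀ row ∈ T₀, nonek row.k = true → ∀ i : ZMod 6, (i = 0 ∨ i = 1 ∨ i = 2) →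
    ∃ x, goP T i row.c x = true

end Chk

open Chk

namespace DMap

variable {D : Type} {M : DMap D} {A B C : D → Prop} {δ a b : ZMod 6 → D}

/-- the other order of the halves -/
theorem P3.swap (h : M.P3 A B C δ a b) :
    M.P3 A C B (fun i => δ (i + 3)) (fun i => b (i + 3)) fun i => a (i + 3) where
  bdA := bd_rot h.bdA 3
  bdB := bd_rot h.bdC 3
  bdC := bd_rot h.bdB 3
  cov d := (h.cov d).trans or_comm
  dis d h1 h2 := h.dis d h2 h1
  a0 := h.b3
  a1 := h.b4
  a2 := h.b5
  b3 := h.a0
  b4 := h.a1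
  b5 := h.a2
  e3 := by
    show M.al (b 0) = a 5
    rw [← h.e5, M.inv]
  e4 := by
    show M.al (b 1) = a 4
    rw [← h.e4, M.inv]
  e5 := by
    show M.al (b 2) = a 3
    rw [← h.e3, M.inv]

/-- **a row of an object which is split by a path with three edges** -/
theorem P3.row [Fintype D] {T : List SRow} {X : Boxes D} {i : ZMod 6} (hO : M.Obj (GoodS T) A δ X)
    (h : M.P3 A B C (fun j => δ (j + i)) a b) {σ₁ σ₂ : Prop}
    (hg₁ : GoodS T (KS M X.κ a) σ₁ (Rz M B a X.β)) (hg₂ : GoodS T (KS M X.κ b) σ₂ (Rz M C b X.β))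
    (hnk : ∀ j, ¬ KS M X.κ δ j)
    {row : SRow} {x : List Ins} (hx : goP T i row.c x = true) :
    ∃ t ∈ row.c, Rz M A δ X.β t.F t.S := by
  have hf1 : FcOk (KS M X.κ a) fcP1 := by
    intro p hp
    unfold fcP1 at hp
    simp only [List.mem_cons, List.not_mem_nil, or_false] at hp
    rcases hp with rfl | rfl
    · refine ⟨fun h1 => absurd h1 (by simp), fun h1 => absurd ?_ (hnk (0 + i))⟩
      rw [← KS_rot X.κ δ i 0]
      have h2 : KS M X.κ a 0 := h1
      unfold KS at h2 ⊢
      rwa [h.a0, show a (0 + 1) = δ (0 + 1 + i) from h.a1] at h2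
    · refine ⟨fun h1 => absurd h1 (by simp), fun h1 => absurd ?_ (hnk (1 + i))⟩
      rw [← KS_rot X.κ δ i 1]
      have h2 : KS M X.κ a 1 := h1
      unfold KS at h2 ⊢
      rwa [h.a1, show a (1 + 1) = δ (1 + 1 + i) from h.a2] at h2
  have hf2 : FcOk (KS M X.κ b) fcP2 := by
    intro p hp
    unfold fcP2 at hp
    simp only [List.mem_cons, List.not_mem_nil, or_false] at hp
    rcases hp with rfl | rfl
    · refine ⟨fun h1 => absurd h1 (by simp), fun h1 => absurd ?_ (hnk (3 + i))⟩
      rw [← KS_rot X.κ δ i 3]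
      have h2 : KS M X.κ b 3 := h1
      unfold KS at h2 ⊢
      rwa [h.b3, show b (3 + 1) = δ (3 + 1 + i) from h.b4] at h2
    · refine ⟨fun h1 => absurd h1 (by simp), fun h1 => absurd ?_ (hnk (4 + i))⟩
      rw [← KS_rot X.κ δ i 4]
      have h2 : KS M X.κ b 4 := h1
      unfold KS at h2 ⊢
      rwa [h.b4, show b (4 + 1) = δ (4 + 1 + i) from h.b5] at h2
  refine runC_sound (R := fun c r t => (c = 0 → Rz M B a X.β (t.F.rot r) (t.S.rot r)) ∧
    (c = 1 → Rz M C b X.β (t.F.rot r) (t.S.rot r)))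
    (Kc := fun c => if c = 0 then KS M X.κ a else KS M X.κ b) hx ?_ ?_ ?_ ?_
  · intro c j
    by_cases hc : c = 0
    · simp only [hc, if_true]
      exact hg₁.adj j
    · simp only [hc, if_false]
      exact hg₂.adj j
  · intro c g hg
    match c, hg with
    | 0, hg =>
      simp only [List.getElem?_cons_zero, Option.some.injEq] at hg
      rw [← hg]
      exact hf1
    | 1, hg =>
      simp only [List.getElem?_cons_succ, List.getElem?_cons_zero, Option.some.injEq] at hg
      rw [← hg]
      exact hf2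
    | c + 2, hg => simp at hg
  · intro c f src r s hf hs
    match c, hf, hs with
    | 0, hf, hs =>
      obtain ⟨t, ht, h3⟩ := hg₁.clause hf hs
      exact ⟨t, ht, fun _ => h3, fun h4 => absurd h4 (by decide)⟩
    | 1, hf, hs =>
      obtain ⟨t, ht, h3⟩ := hg₂.clause hf hs
      exact ⟨t, ht, fun h4 => absurd h4 (by decide), fun _ => h3⟩
    | c + 2, hf, hs => simp [clP] at hs
  · intro s t ho hR
    unfold okP at ho
    split at ho
    · rename_i x y
      split at ho
      · rename_i t' ht'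
        simp only [Bool.and_eq_true] at ho
        obtain ⟨⟨⟨h3, h4⟩, h5⟩, h6⟩ := ho
        have hx := (hR 0 x (by simp)).1 rfl
        have hy := (hR 1 y (by simp)).2 rfl
        have h7 := h.rz (hO.rotδ i) (t'.ok.rot i) (flP1_le h3) (flP2_le h4) hx hy h5
        rw [eqS_iff.1 h6] at h7
        exact ⟨t', List.mem_of_getElem? ht', Rz.unrot hO.patch.sites h7⟩
      · simp at ho
    · simp at ho

section

variable [Fintype D] {T T₀ : List SRow} {X : Boxes D}

omit [Fintype D] in
theorem nc_rot (hnc : ∀ i, M.nx (δ i) = δ (i + 1) → M.deg (δ i) = 6) (c i : ZMod 6) :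
    M.nx (δ (i + c)) = δ (i + 1 + c) → M.deg (δ (i + c)) = 6 := by
  have e : i + 1 + c = i + c + 1 := by ring
  rw [e]
  exact hnc _

/-- a row, the induction hypothesis for the halves included -/
theorem P3.rowAt {i : ZMod 6} (hO : M.Obj (GoodS T) A δ X)
    (h : M.P3 A B C (fun j => δ (j + i)) a b)
    (IH : IHR (GoodS T) (Nat.card D)) (hq : ∀ d, A d → M.deg d = 4)
    (hnc : ∀ i, M.nx (δ i) = δ (i + 1) → M.deg (δ i) = 6) {row : SRow} {x : List Ins}
    (hx : goP T i row.c x = true) : ∃ t ∈ row.c, Rz M A δ X.β t.F t.S :=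
  P3.row hO h (h.good_B (hO.rotδ i) (GoodS.mono T) IH hq (nc_rot hnc i))
    (h.good_C (hO.rotδ i) (GoodS.mono T) IH hq (nc_rot hnc i))
    (fun j hj => by
      have h1 := hq _ (hO.patch.inA j)
      rw [hnc j hj.1] at h1
      exact absurd h1 (by decide)) hx

/-- **objects which are split by a path with three edges are good** -/
theorem P3.goodS {c : ZMod 6} (hO : M.Obj (GoodS T) A δ X)
    (h : M.P3 A B C (fun j => δ (j + c)) a b)
    (IH : IHR (GoodS T) (Nat.card D)) (hq : ∀ d, A d → M.deg d = 4)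
    (hnc : ∀ i, M.nx (δ i) = δ (i + 1) → M.deg (δ i) = 6) (hchk : ChkP T T₀) :
    GoodS T₀ (KS M X.κ δ) (StarL M A δ X) (Rz M A δ X.β) := by
  have hnk : ∀ j, ¬ KS M X.κ δ j := fun j hj => by
    have h1 := hq _ (hO.patch.inA j)
    rw [hnc j hj.1] at h1
    exact absurd h1 (by decide)
  refine goodS_of hO.patch.sites (fun j hj => absurd hj (hnk j)) fun c' row hr hfit => ?_
  have hnc' : ∀ i, M.nx (δ (i + c')) = δ (i + 1 + c') → M.deg (δ (i + c')) = 6 := nc_rot hnc c'
  have hno : nonek row.k = true := nonek_of (fun j h5 => by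
    rw [KS_rot] at h5
    exact hnk _ h5) hfit
  by_cases hi : c - c' = 0 ∨ c - c' = 1 ∨ c - c' = 2
  · obtain ⟨x, hx⟩ := hchk row hr hno (c - c') hi
    have h4 : M.P3 A B C (fun j => (fun l => δ (l + c')) (j + (c - c'))) a b := by
      have e : (fun j => (fun l => δ (l + c')) (j + (c - c'))) = fun j => δ (j + c) :=
        funext fun j => by
          show δ (j + (c - c') + c') = δ (j + c)
          rw [add_assoc, sub_add_cancel]
      rw [e]
      exact h
    exact P3.rowAt (hO.rotδ c') h4 IH hq hnc' hx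
  · have hi' : c - c' + 3 = 0 ∨ c - c' + 3 = 1 ∨ c - c' + 3 = 2 := by
      generalize c - c' = m at hi
      revert m
      decide
    obtain ⟨x, hx⟩ := hchk row hr hno (c - c' + 3) hi'
    have h4 : M.P3 A C B (fun j => (fun l => δ (l + c')) (j + (c - c' + 3)))
        (fun i => b (i + 3)) fun i => a (i + 3) := by
      have e : (fun j => (fun l => δ (l + c')) (j + (c - c' + 3))) = fun j => δ (j + 3 + c) :=
        funext fun j => by
          show δ (j + (c - c' + 3) + c') = δ (j + 3 + c)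
          congr 1
          ring
      rw [e]
      exact h.swap
    exact P3.rowAt (hO.rotδ c') h4 IH hq hnc' hx

/-- **the 3-path case of the induction step** -/
theorem goodS_of_scut (hO : M.Obj (GoodS T) A δ X)
    (IH : IHR (GoodS T) (Nat.card D)) (hq : ∀ d, A d → M.deg d = 4)
    (hnc : ∀ i, M.nx (δ i) = δ (i + 1) → M.deg (δ i) = 6) (hchk : ChkP T T₀)
    (hB : ∃ B : D → Prop, M.Sites B ∧ (∀ d, B d → A d) ∧ M.cut B = 6 ∧ scut δ B = 3) :
    GoodS T₀ (KS M X.κ δ) (StarL M A δ X) (Rz M A δ X.β) := by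
  obtain ⟨B, h1, h2, h3, h4⟩ := hB
  obtain ⟨c, a, b, h⟩ := hO.patch.exists_P3 hnc h1 h2 h3 h4
  exact h.goodS hO IH hq hnc hchk

end

end DMap

end GT33
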