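import Pool.Agent.GT33.Tb

/-!
# GT33 module TABZ: checks for all rows of a table, weaker clauses

`allZ`: a check for all rows of a table with one certificate for each row.  `impC g c`: every alternative of the clause
`g` implies an alternative of the clause `c`.
-/

namespace GT33

namespace Chk

/-- a check for all rows with one certificate for each row -/
def allZ {α β : Type} (P : α → β → Bool) : List α → List β → Bool
  | [], _ => true
  | _ :: _, [] => false
  | r :: T, z :: Z => P r z && allZ P T Z

theorem allZ_spec {α β : Type} {P : α → β → Bool} : ∀ {T : List α} {Z : List β}, allZ P T Z = true →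
    ∀ r ∈ T, ∃ z, P r z = true
  | [], _, _, r, hr => by simp at hr
  | _ :: _, [], h, _, _ => by simp [allZ] at h
  | s :: T, z :: Z, h, r, hr => by
    simp only [allZ, Bool.and_eq_true] at h
    rcases List.mem_cons.1 hr with rfl | hr
    · exact ⟨z, h.1⟩
    · exact allZ_spec h.2 r hr

/-- the demands `y` imply the demands `x` -/
def leD (x y : ℕ) : Bool := all6 fun j =>
  (!lkd x j || lkd y j) && (!led x j || led y j) && (!rid x j || rid y j)

/-- the alternative `b` implies the alternative `a` -/
def leA (a b : Alt) : Bool :=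
  leD a.r b.r && leD a.l b.l && all6 (fun j => !on a.s j || on b.s j) && a.m == b.m && a.u == b.u

theorem leA_F {a b : Alt} (h : leA a b = true) : a.F.Le b.F := by
  unfold leA leD at h
  simp only [Bool.and_eq_true, all6_iff, Bool.or_eq_true, Bool.not_eq_true'] at h
  obtain ⟨⟨⟨⟨h1, h2⟩, h3⟩, -⟩, -⟩ := h
  have key : ∀ {x y : Bool}, (x = false ∨ y = true) → x = true → y = true := by decide
  refine ⟨fun j T h4 => ?_, fun j T h4 => ?_, fun j T h4 => ?_, fun j h4 => key (h3 j) h4⟩
  · cases T
    · exact key (h2 j).1.1 h4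
    · exact key (h1 j).1.1 h4
  · cases T
    · exact key (h2 j).1.2 h4
    · exact key (h1 j).1.2 h4
  · cases T
    · exact key (h2 j).2 h4
    · exact key (h1 j).2 h4

theorem leA_S {a b : Alt} (h : leA a b = true) : a.S = b.S := by
  unfold leA at h
  simp only [Bool.and_eq_true, beq_iff_eq] at h
  unfold Alt.S
  rw [h.1.2, h.2]

/-- the clause `g` implies the clause `c` -/
def impC (g c : List Alt) : Bool := g.all fun b => c.any fun a => leA a b

theorem impC_spec {g c : List Alt} (h : impC g c = true) {b : Rel}
    (hb : ∀ F G t, F.Le G → b G t → b F t) (hg : ∃ a ∈ g, b a.F a.S) : ∃ a ∈ c, b a.F a.S := by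
  obtain ⟨a', ha', h1⟩ := hg
  unfold impC at h
  rw [List.all_eq_true] at h
  obtain ⟨a, ha, h2⟩ := List.any_eq_true.1 (h a' ha')
  exact ⟨a, ha, hb _ _ _ (leA_F h2) (leA_S h2 ▸ h1)⟩

/-- a row without the condition that a node is a corner -/
def nonek (k : ℕ) : Bool := all6 fun j => dg k j != 1

theorem nonek_of {K : ZMod 6 → Prop} (hK : ∀ j, ¬ K j) {k : ℕ} (h : ∀ j, Fit (dg k j) (K j)) :
    nonek k = true := by
  unfold nonek
  rw [all6_iff]
  intro j
  rw [bne_iff_ne]
  exact fun h4 => hK _ ((h j).1 h4)

end Chk

end GT33
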