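import Pool.Agent.GT33.ChkM
import Pool.Agent.GT33.TabZ

/-!
# GT33 module TABA: the table

`tb0`: the rows of the table, `tbl`: with the mirror images.  `gen0`: the clauses for the generic case; `gen0_spec`: they
imply all rows which fit an object without corners.
-/

namespace GT33

namespace Chk

/-- the rows of the table -/
def tb0 : List SRow := [
  ⟨020220, [⟨440444, 000000, 001000, 1, 102111⟩]⟩,
  ⟨220200, [⟨440444, 000000, 001000, 1, 102111⟩]⟩,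
  ⟨220220, [⟨440442, 000000, 001000, 1, 102111⟩]⟩,
  ⟨020222, [⟨440424, 000000, 001000, 1, 102111⟩]⟩,
  ⟨220202, [⟨440424, 000000, 001000, 1, 102111⟩]⟩,
  ⟨220222, [⟨440422, 000000, 001000, 1, 102111⟩]⟩,
  ⟨022220, [⟨440344, 000000, 001000, 1, 102111⟩]⟩,
  ⟨222200, [⟨440344, 000000, 001000, 1, 102111⟩]⟩,
  ⟨222220, [⟨440342, 000000, 001000, 1, 102111⟩]⟩,
  ⟨022222, [⟨440324, 000000, 001000, 1, 102111⟩]⟩,
  ⟨222202, [⟨440324, 000000, 001000, 1, 102111⟩]⟩,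
  ⟨222222, [⟨440322, 000000, 001000, 1, 102111⟩]⟩,
  ⟨020202, [⟨440444, 000000, 001000, 3, 102111⟩]⟩,
  ⟨020222, [⟨440244, 000000, 001000, 3, 102111⟩]⟩,
  ⟨220202, [⟨440442, 000000, 001000, 3, 102111⟩]⟩,
  ⟨220222, [⟨440242, 000000, 001000, 3, 102111⟩]⟩,
  ⟨022202, [⟨440344, 000000, 001000, 3, 102111⟩]⟩,
  ⟨022222, [⟨440144, 000000, 001000, 3, 102111⟩]⟩,
  ⟨222202, [⟨440342, 000000, 001000, 3, 102111⟩]⟩,
  ⟨222222, [⟨440142, 000000, 001000, 3, 102111⟩]⟩,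
  ⟨020202, [⟨440404, 000000, 001010, 1, 102021⟩]⟩,
  ⟨220202, [⟨440402, 000000, 001010, 1, 102021⟩]⟩,
  ⟨020222, [⟨440403, 000000, 001010, 1, 102021⟩]⟩,
  ⟨220222, [⟨440401, 000000, 001010, 1, 102021⟩]⟩,
  ⟨022202, [⟨440304, 000000, 001010, 1, 102021⟩]⟩,
  ⟨222202, [⟨440302, 000000, 001010, 1, 102021⟩]⟩,
  ⟨022222, [⟨440303, 000000, 001010, 1, 102021⟩]⟩,
  ⟨222222, [⟨440301, 000000, 001010, 1, 102021⟩]⟩,
  ⟨220220, [⟨440440, 000000, 001001, 3, 102102⟩]⟩,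
  ⟨220222, [⟨340440, 000000, 001001, 3, 102102⟩]⟩,
  ⟨222220, [⟨440340, 000000, 001001, 3, 102102⟩]⟩,
  ⟨222222, [⟨340340, 000000, 001001, 3, 102102⟩]⟩,
  ⟨022222, [⟨440004, 000000, 001000, 3, 101211⟩]⟩,
  ⟨222222, [⟨440002, 000000, 001000, 3, 101211⟩]⟩,
  ⟨202222, [⟨440000, 000000, 001000, 1, 101121⟩]⟩,
  ⟨220222, [⟨040000, 000000, 001000, 3, 101112⟩]⟩,
  ⟨202222, [⟨404000, 000000, 010100, 0, 020112⟩, ⟨404000, 000000, 010100, 0, 020121⟩]⟩,
  ⟨222222, [⟨400000, 000000, 010000, 2, 012012⟩, ⟨400000, 000000, 010000, 2, 012021⟩]⟩,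
  ⟨212222, [⟨400000, 000000, 010000, 2, 012021⟩]⟩,
  ⟨212222, [⟨040000, 000000, 001000, 1, 201120⟩]⟩]

/-- the table -/
def tbl : List SRow := tb0 ++ tb0.map SRow.mir

theorem niceT_tbl : niceT tbl = true := by decide +kernel

/-- the clauses for the generic case: T1, T3, T2, T5, T4, T7, T8, c1, c2 -/
def gen0 : List (List Alt) := [
  [⟨440444, 000000, 001000, 1, 102111⟩],
  [⟨440444, 000000, 001000, 3, 102111⟩],
  [⟨440404, 000000, 001010, 1, 102021⟩],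
  [⟨440440, 000000, 001001, 3, 102102⟩],
  [⟨440004, 000000, 001000, 3, 101211⟩],
  [⟨440000, 000000, 001000, 1, 101121⟩],
  [⟨040000, 000000, 001000, 3, 101112⟩],
  [⟨404000, 000000, 010100, 0, 020112⟩, ⟨404000, 000000, 010100, 0, 020121⟩],
  [⟨400000, 000000, 010000, 2, 012012⟩, ⟨400000, 000000, 010000, 2, 012021⟩]]

theorem gen0_chk : (tb0.all fun row => !nonek row.k || gen0.any fun g => impC g row.c) = true := by
  decide +kernel

/-- the clauses for the generic case imply all rows which fit an object without corners -/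
theorem gen0_spec {row : SRow} (hr : row ∈ tb0) (hk : nonek row.k = true) :
    ∃ g ∈ gen0, impC g row.c = true := by
  have h := List.all_eq_true.1 gen0_chk row hr
  rw [hk, Bool.not_true, Bool.false_or] at h
  exact List.any_eq_true.1 h

end Chk

end GT33
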