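import Pool.Agent.GT33.FinS
import Pool.Agent.GT33.TabA

/-!
# GT33 module FINT: the theorem from the induction step for the table
-/

namespace GT33

universe u

open Chk

/-- good relations of the table have a state of the form `Ok6` -/
theorem fin_tbl (K : ZMod 6 → Prop) (σ : Prop) (b : Rel) (_ : ¬ K 0) (_ : ¬ K 2) (_ : ¬ K 4)
    (h : GoodS tbl K σ b) : ∃ F s, b F s ∧ Ok6 s := by
  refine GoodS.fin (row := ⟨222222, [⟨440322, 000000, 001000, 1, 102111⟩]⟩)
    (List.mem_append_left _ ?_) rfl ?_ K σ b h
  · exact List.mem_of_getElem? (i := 11) rfl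
  · intro a ha
    rw [List.mem_singleton] at ha
    subst ha
    decide

/-- **the theorem from the induction step for the table** -/
theorem tree33_of (step : DMap.StepR (GoodS tbl)) {V : Type u} [Finite V] {G : SimpleGraph V}
    (hG : ThreeConnected G) (R : Rotation G) (hR : R.Plane) : HasTree R 3 3 :=
  final step fin_tbl R hG hR

end GT33
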