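import Pool.Agent.GT33.Close
import Pool.Agent.GT33.Tab

/-!
# GT33 module CLOSE2: closing with one state for each patch of quads

It suffices that every hexagon patch of quads with at least three quads, without corner quads at the nodes
`0, 2, 4`, realises one state (which may depend on the patch) in which the nodes `1, 3, 5` are isolated and not
all of them have two units.
-/

open Classical

namespace GT33

open SN78

universe u

/-- the states which are good enough at the end -/
structure Ok6 (s : PState 6) : Prop where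
  m1 : s.m 1 = 2
  m3 : s.m 3 = 4
  m5 : s.m 5 = 0
  u1 : s.u 1 ≤ 1 ∨ s.u 3 ≤ 1 ∨ s.u 5 ≤ 1
  u : ∀ i, s.u i ≤ 2

/-- patches of quads: all sites of the region are quads -/
structure DMap.QPatch {D : Type} (M : DMap D) (A : D → Prop) (δ : ZMod 6 → D) : Prop where
  patch : M.Patch A δ
  deg : ∀ d, A d → M.deg d = 4

/-- every patch of quads with at least three quads and no corner quads at `0, 2, 4` has a good state -/
def AllGood (E : (n : ℕ) → PState n → Prop) : Prop :=
  ∀ (D : Type) [Fintype D] (M : DMap D) (A : D → Prop) (δ : ZMod 6 → D), M.QPatch A δ →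
    (∀ i, i = 0 ∨ i = 2 ∨ i = 4 → M.nx (δ i) ≠ δ (i + 1)) → 18 ≤ Nat.card D →
      ∃ s μ ω, M.Real E A δ s μ ω ∧ Ok6 s

theorem Ok6.good {s : PState 6} (h : Ok6 s) :
    Good6 s ∨ Good6 (s.rot 2) ∨ Good6 (s.rot 4) := by
  obtain ⟨m1, m3, m5, u1, u⟩ := h
  have e1 : ((1 : ZMod 6) + 2 : ZMod 6) = 3 := by decide
  have e2 : ((3 : ZMod 6) + 2 : ZMod 6) = 5 := by decide
  have e3 : ((5 : ZMod 6) + 2 : ZMod 6) = 1 := by decide
  have f1 : ((1 : ZMod 6) + 4 : ZMod 6) = 5 := by decide
  have f2 : ((3 : ZMod 6) + 4 : ZMod 6) = 1 := by decide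
  have f3 : ((5 : ZMod 6) + 4 : ZMod 6) = 3 := by decide
  rcases u1 with h1 | h1 | h1
  · right
    right
    refine ⟨?_, ?_, ?_, ?_, fun i => u _⟩
    · simp only [PState.rot, f1, m5]
      decide
    · simp only [PState.rot, f2, m1]
      decide
    · simp only [PState.rot, f3, m3]
      decide
    · simp only [PState.rot, f2]
      exact h1
  · left
    exact ⟨m1, m3, m5, h1, u⟩
  · right
    left
    refine ⟨?_, ?_, ?_, ?_, fun i => u _⟩
    · simp only [PState.rot, e1, m3]
      decide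
    · simp only [PState.rot, e2, m5]
      decide
    · simp only [PState.rot, e3, m1]
      decide
    · simp only [PState.rot, e2]
      exact h1

variable {X : Type} [Fintype X] {α : X × ZMod 4 → X × ZMod 4}

omit [Fintype X] in
/-- the rotated star -/
theorem Tri.rot {d : ZMod 3 → X × ZMod 4} (t : Tri α d) (k : ZMod 3) :
    Tri α (fun i => d (i + k)) :=
  ⟨fun i => by rw [t.fs, add_right_comm]⟩

omit [Fintype X] in
theorem Tri.rot_R {d : ZMod 3 → X × ZMod 4} (t : Tri α d) (k : ZMod 3) (e : X × ZMod 4) :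
    (t.rot k).R e ↔ t.R e :=
  ⟨fun ⟨i, hi⟩ => ⟨i + k, hi⟩, fun ⟨i, hi⟩ => ⟨i - k, by simpa using hi⟩⟩

omit [Fintype X] in
theorem Tri.rot_del1 {d : ZMod 3 → X × ZMod 4} (t : Tri α d) (i : ZMod 6) :
    (t.rot 1).del i = t.del (i + 4) := by
  unfold Tri.del
  congr 1
  rcases Tri.zmod6 i with rfl | rfl | rfl | rfl | rfl | rfl <;> rfl

omit [Fintype X] in
theorem Tri.rot_del2 {d : ZMod 3 → X × ZMod 4} (t : Tri α d) (i : ZMod 6) :
    (t.rot 2).del i = t.del (i + 2) := by
  unfold Tri.del
  congr 1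
  rcases Tri.zmod6 i with rfl | rfl | rfl | rfl | rfl | rfl <;> rfl

/-- a good state outside of the star gives a tree -/
theorem Tri.state_of_real (h : Rigid α) {d : ZMod 3 → X × ZMod 4} (t : Tri α d)
    {E : (n : ℕ) → PState n → Prop} (hE : ∀ s, E 4 s → Q4 s) {s : PState 6} (hs : Good6 s)
    {μ : X × ZMod 4 → X × ZMod 4} {ω : X × ZMod 4 → ℕ}
    (hR : (medMap h).Real E (fun e => ¬ t.R e) t.del s μ ω) :
    ∃ T : X × ZMod 4 → Bool, IsState T ∧ OneLoop α T ∧ ∀ e, load α T (face α e) ≤ 3 := by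
  have hl : ∀ e, ¬ t.R e → (μ e = pv e ∧ 1 ≤ ω e ∧ μ (nx e) ≠ e) ∨ (μ e = nx e ∧ μ (nx e) = e) :=
    fun e he => local_quad h hE (hR.loc e he)
  have hl' : ∀ e, ¬ t.R e → (μ e = pv e ∧ μ (nx e) ≠ e) ∨ (μ e = nx e ∧ μ (nx e) = e) :=
    fun e he => (hl e he).imp (fun hx => ⟨hx.1, hx.2.2⟩) id
  refine ⟨t.T μ, t.isState h hl', t.oneLoop h hs hR hl', t.load_le h hs hR ?_⟩
  intro e he he'
  rcases hl e he with hx | hx
  · exact hx.2.1
  · exfalso
    rw [hx.1] at he'
    exact (darts_ne e).2.2.2.2.1 he'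

/-- no corner quads at the nodes which are not adjacent to the center of the star -/
theorem Tri.no_corner (h : Rigid α) {d : ZMod 3 → X × ZMod 4} (t : Tri α d) (i : ZMod 6)
    (hi : i = 0 ∨ i = 2 ∨ i = 4) : nx (t.del i) ≠ t.del (i + 1) := by
  have key : ∀ e : X × ZMod 4, nx (α (pv e)) ≠ α (op e) := by
    intro e he
    apply fs_fs_ne h (op e)
    show SN78.fs α (pv (α (op e))) = op e
    rw [← he, pv_nx, SN78.fs, h.inv, pv_pv]
  rcases hi with rfl | rfl | rfl
  · exact key (d 0)
  · exact key (d 2)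
  · exact key (d 1)

/-- **Closing theorem** for patches of quads -/
theorem exists_state2 (h : Rigid α) {E : (n : ℕ) → PState n → Prop} (hE : ∀ s, E 4 s → Q4 s)
    (hF : AllGood E) :
    ∃ T : X × ZMod 4 → Bool, IsState T ∧ OneLoop α T ∧ ∀ e, load α T (face α e) ≤ 3 := by
  obtain ⟨d, t⟩ := exists_tri h
  have hX := card_six h
  obtain ⟨η, hη, δ', hδ', hP⟩ := (medMap_legal h).inside (t.bd' h)
  have hX' : Nat.card (X × ZMod 4) = 4 * Fintype.card X := by
    rw [Nat.card_prod, Nat.card_zmod, Nat.card_eq_fintype_card, mul_comm]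
  have c1 := DMap.card_add' (D := X × ZMod 4) t.R
  have c2 := t.card_R
  have c3 : Nat.card {e // ¬ ¬ ¬ t.R e} = Nat.card {e // ¬ t.R e} :=
    Nat.card_congr (Equiv.subtypeEquivRight fun e => not_not)
  have hC := DMap.contr_isCtr hη
  obtain ⟨s, μ', ω', hR', hs⟩ := hF _ _ _ _ ⟨hP, by
    rintro (⟨e, he⟩ | i) hx
    · rw [DMap.contr_deg_inl]
      exact medMap_deg h e
    · exfalso
      rw [cemb_inr] at hx
      have := DMap.bd_mem hη i
      exact this hx⟩ (by
    intro i hi hc
    apply t.no_corner h i hi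
    have h1 := hC.nx (δ' i) (by
      rw [not_not, hδ']
      exact DMap.bd_mem (t.bd' h) i)
    rw [hc, hδ', hδ'] at h1
    exact h1.symm) (by
    rw [DMap.card_out]
    omega)
  obtain ⟨μ, ω, hR⟩ := hR'.of_inside hC hδ'
  have hRR : ∀ k : ZMod 3, (fun e => ¬ (t.rot k).R e) = fun e => ¬ t.R e := fun k =>
    funext fun e => by rw [t.rot_R k e]
  rcases hs.good with hg | hg | hg
  · exact t.state_of_real h hE hg hR
  · refine (t.rot 2).state_of_real h hE hg (μ := μ) (ω := ω) ?_
    rw [hRR]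
    have h2 := hR.rot 2
    have h3 : (t.rot 2).del = fun i => t.del (i + 2) := funext fun i => t.rot_del2 i
    rw [h3]
    exact h2
  · refine (t.rot 1).state_of_real h hE hg (μ := μ) (ω := ω) ?_
    rw [hRR]
    have h2 := hR.rot 4
    have h3 : (t.rot 1).del = fun i => t.del (i + 4) := funext fun i => t.rot_del1 i
    rw [h3]
    exact h2

/-- **The patches of quads imply the theorem**: every finite 3-connected plane graph has a spanning tree with
maximum degree at most three whose co-tree has maximum degree at most three. -/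
theorem close2 {E : (n : ℕ) → PState n → Prop} (hE : ∀ s, E 4 s → Q4 s) (hF : AllGood E)
    {V : Type u} [Finite V] {G : SimpleGraph V} (R : Rotation G)
    (hG : ThreeConnected G) (hR : R.Plane) : HasTree R 3 3 := by
  refine bridge 3 3 ?_ R hG hR
  intro X _ α o h _
  obtain ⟨T, h1, h2, h3⟩ := exists_state2 h hE hF
  exact ⟨T, h1, h2, fun e => by simpa using h3 e⟩

end GT33
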