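import Pool.Agent.GT33.KObj
import Pool.Agent.GT33.Close2

/-!
# GT33 module FINAL: the theorem from the induction step for irreducible objects

`allGood_of`: if all objects are good, then the patches of quads have good states.  `final`: the theorem follows
from the induction step for irreducible objects, for any predicate `Good` which is monotone and gives a
state of the form `Ok6` if there are no corners at `0, 2, 4`.
-/

open Classical

namespace GT33

universe u

namespace DMap

variable {D : Type} {M : DMap D} {Good : (ZMod 6 → Prop) → Prop → Rel → Prop}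

/-- the induction step for patches of quads -/
def StepR (Good : (ZMod 6 → Prop) → Prop → Rel → Prop) : Prop :=
  ∀ (D : Type) [Fintype D] (M : DMap D) (A : D → Prop) (δ : ZMod 6 → D) (B : Boxes D),
    M.Obj Good A δ B → (∀ d, A d → M.deg d = 4) → Nat.card D ≠ 14 →
    (¬ ∃ r, ∀ e, A e ↔ M.SameSite r e) → IHR Good (Nat.card D) →
    Good (KS M B.κ δ) (StarL M A δ B) (Rz M A δ B.β)

/-- monotonicity of the predicate -/
def MonoH (Good : (ZMod 6 → Prop) → Prop → Rel → Prop) : Prop :=
  ∀ K σ b b', (∀ F t, F.Ok → b F t → b' F t) → Good K σ b → Good K σ b'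

/-- the predicate only uses states of the form `Nice` -/
def NiceH (Good : (ZMod 6 → Prop) → Prop → Rel → Prop) : Prop :=
  ∀ K σ b, Good K σ b → Good K σ fun F t => Nice t ∧ b F t

theorem not_single [Fintype D] {A : D → Prop} {δ : ZMod 6 → D} (hP : M.Patch A δ)
    (hq : ∀ d, A d → M.deg d = 4) : ¬ ∃ r, ∀ e, A e ↔ M.SameSite r e := by
  rintro ⟨r, hr⟩
  have h1 : M.deg r = 4 := hq r ((hr r).2 (Equiv.Perm.SameCycle.refl _ _))
  have h2 : Fintype.card (ZMod 6) ≤ (Finset.univ.filter fun e => M.SameSite r e).card := by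
    rw [← Finset.card_univ]
    exact Finset.card_le_card_of_injOn δ (fun i _ => by simpa using (hr _).1 (hP.inA i))
      hP.bd.inj.injOn
  rw [card_site (M := M) r _ fun e => by simp, h1] at h2
  exact absurd h2 (by decide)

theorem all_good (step : StepR Good) : ∀ (n : ℕ) (D : Type) [Fintype D] (M : DMap D)
    (A : D → Prop) (δ : ZMod 6 → D) (B : Boxes D), M.Obj Good A δ B → (∀ d, A d → M.deg d = 4) →
    Nat.card D ≠ 14 → Nat.card D = n → Good (KS M B.κ δ) (StarL M A δ B) (Rz M A δ B.β) := by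
  intro n
  induction n using Nat.strong_induction_on with
  | _ n ih =>
  intro D _ M A δ B hO hq h14 hn
  refine step D M A δ B hO hq h14 (not_single hO.patch hq) fun D' _ M' A' δ' B' hO' hq' h14' hlt => ?_
  exact ih _ (by omega) D' M' A' δ' B' hO' hq' h14' rfl

/-- no boxes -/
def noBoxes (D : Type) : Boxes D := ⟨fun _ _ _ => False, fun _ _ => False, fun _ => False⟩

/-- patches of quads are objects -/
theorem QPatch.obj {A : D → Prop} {δ : ZMod 6 → D} (h : M.QPatch A δ) :
    M.Obj Good A δ (noBoxes D) := by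
  have h1 : ∀ γ : ZMod 6 → D, M.SiteNum 6 γ → A (γ 0) → False := fun γ hγ h0 => by
    have h2 := h.deg _ h0
    have h3 := hγ.deg 0
    omega
  refine ⟨h.patch, fun d hd h6 => ?_, fun γ F G t hγ h0 => (h1 γ hγ h0).elim,
    fun γ F t c hγ h0 => (h1 γ hγ h0).elim, fun γ a c hγ h0 => (h1 γ hγ h0).elim,
    fun γ hγ h0 => (h1 γ hγ h0).elim, fun γ F t hγ h0 => (h1 γ hγ h0).elim⟩
  have := h.deg d hd
  omega

/-- realised states of patches of quads -/
theorem QPatch.real [Fintype D] {A : D → Prop} {δ : ZMod 6 → D} (h : M.QPatch A δ) {F : Flags}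
    {s : PState 6} (hR : Rz M A δ (noBoxes D).β F s) : ∃ μ ω, M.Real EE A δ s μ ω := by
  obtain ⟨μ, ω, hR⟩ := hR
  refine ⟨μ, ω, hR.toReal h.patch.sites fun n γ t hγ hL => ?_⟩
  rcases OL_n hL with rfl | rfl
  · exact hL.ee
  · exact hL.elim

end DMap

open DMap in
/-- patches of quads have good states -/
theorem allGood_of {Good : (ZMod 6 → Prop) → Prop → Rel → Prop} (step : StepR Good)
    (hfin : ∀ K σ b, ¬ K 0 → ¬ K 2 → ¬ K 4 → Good K σ b → ∃ F s, b F s ∧ Ok6 s) : AllGood EE := by
  intro D _ M A δ hP hnc hcard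
  have h1 := all_good step _ D M A δ _ hP.obj hP.deg (by omega) rfl
  have hK : ∀ i, i = 0 ∨ i = 2 ∨ i = 4 → ¬ KS M (noBoxes D).κ δ i := fun i hi hk => hnc i hi hk.1
  obtain ⟨F, s, h2, h3⟩ := hfin _ _ _ (hK 0 (Or.inl rfl)) (hK 2 (Or.inr (Or.inl rfl)))
    (hK 4 (Or.inr (Or.inr rfl))) h1
  obtain ⟨μ, ω, hR⟩ := hP.real h2
  exact ⟨s, μ, ω, hR, h3⟩

/-- **the theorem from the induction step** -/
theorem final {Good : (ZMod 6 → Prop) → Prop → Rel → Prop} (step : DMap.StepR Good)
    (hfin : ∀ K σ b, ¬ K 0 → ¬ K 2 → ¬ K 4 → Good K σ b → ∃ F s, b F s ∧ Ok6 s)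
    {V : Type u} [Finite V] {G : SimpleGraph V} (R : Rotation G)
    (hG : ThreeConnected G) (hR : R.Plane) : HasTree R 3 3 :=
  close2 (fun s hs => q4_of_EE s hs) (allGood_of step hfin) R hG hR

end GT33
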