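import Pool.Agent.GT33.CtrG
import Pool.Agent.GT33.Final
import Pool.Agent.GT33.DGen

/-!
# GT33 module GENCASE: patches of quads without corner quads and without inner paths with three edges

`Mid Good Cr M A δ B n`: an object all of whose hexagons are critical (for `Cr`), all critical sets of sites are one
site or two quads, there are no corner quads and no corner of a box at a corner node; the induction hypothesis
holds for patches of quads with less than `n` darts.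

`gen_case`: a statement about the realised states of a patch of quads follows from the statements for the fold of a
corner hexagon at the nodes in `fo` and from the statements for all sets of corner hexagons outside `fo` for the
contraction with the word `f₀`.
-/

open Classical

namespace GT33

namespace DMap

variable {D : Type} {M : DMap D}

/-- objects after the contraction of the critical sets -/
structure Mid [Fintype D] (Good : (ZMod 6 → Prop) → Prop → Rel → Prop)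
    (Cr : (ZMod 6 → Prop) → (ZMod 6 → Prop) → Prop) (M : DMap D) (A : D → Prop) (δ : ZMod 6 → D)
    (B : Boxes D) (n : ℕ) : Prop where
  obj : M.Obj Good A δ B
  gen : M.Gen A δ
  card : Nat.card D ≤ n
  ih : IHR Good n
  nks : ∀ i, ¬ KS M B.κ δ i
  hex : ∀ d, A d → M.deg d = 6 → Cr (TN M δ (M.SameSite d)) (TE δ (M.SameSite d))
  triv : ∀ H : D → Prop, M.Sites H → (∀ d, H d → A d) → (∃ d, A d ∧ ¬ H d) → M.cut H = 6 →
    Cr (TN M δ H) (TE δ H) → (∃ r, ∀ e, H e ↔ M.SameSite r e) ∨ Nat.card {d // H d} = 8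

/-- the corner hexagons -/
def CorN (M : DMap D) (δ : ZMod 6 → D) (j : ZMod 6) : Prop := M.nx (δ j) = δ (j + 1)

section gen

variable [Fintype D] {A : D → Prop} {δ : ZMod 6 → D}

/-- a corner hexagon has two ring edges -/
theorem Gen.cor_ring (hG : M.Gen A δ) {c : ZMod 6} (hc : M.nx (δ c) = δ (c + 1)) {j : ZMod 6}
    (hj : M.SameSite (δ c) (δ j)) : j = c ∨ j = c + 1 := by
  have h6 := hG.nc c hc
  have hA : ∀ d, M.SameSite (δ c) d → A d := fun d hd => (hG.toPatch.sites.same hd).1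
    (hG.toPatch.inA c)
  have hcut : M.cut (M.SameSite (δ c)) = 6 := by rw [hG.toPatch.legal.cut_site, h6]
  have h1 := hG.toPatch.cut_eq hA
  have h2 := hG.n3 _ (sites_site (δ c)) hA hcut
  have h3 : scut δ (M.SameSite (δ c)) ≤ 2 := by
    by_contra h3
    have h4 : rcut M A (M.SameSite (δ c)) ≤ 2 := by omega
    rcases hG.r2 (sites_site (δ c)) hA h4 with h5 | h5
    · exact h5 _ (Equiv.Perm.SameCycle.refl _ _)
    · obtain ⟨e, he, he'⟩ := hG.two (δ c)
      exact he' (h5 e he)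
  by_contra hno
  push Not at hno
  have h4 : 2 < scut δ (M.SameSite (δ c)) := by
    unfold scut
    rw [Finset.two_lt_card]
    refine ⟨c, ?_, c + 1, ?_, j, ?_, (z6_succ c).symm, hno.1.symm, hno.2.symm⟩
    · simp only [Finset.mem_filter, Finset.mem_univ, true_and]
      exact Equiv.Perm.SameCycle.refl _ _
    · simp only [Finset.mem_filter, Finset.mem_univ, true_and]
      rw [← hc]
      exact ⟨1, by simp⟩
    · simp only [Finset.mem_filter, Finset.mem_univ, true_and]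
      exact hj
  omega

theorem Gen.cor_adj (hG : M.Gen A δ) {c : ZMod 6} (hc : M.nx (δ c) = δ (c + 1)) :
    M.nx (δ (c + 1)) ≠ δ (c + 1 + 1) := by
  intro h1
  have h2 : M.SameSite (δ c) (δ (c + 1)) := by
    rw [← hc]
    exact ⟨1, by simp⟩
  have h3 : M.SameSite (δ (c + 1)) (δ (c + 1 + 1)) := by
    rw [← h1]
    exact ⟨1, by simp⟩
  have key : ∀ c : ZMod 6, c + 1 + 1 ≠ c := by decide
  rcases hG.cor_ring hc (h2.trans h3) with h4 | h4
  · exact key c h4
  · exact z6_succ (c + 1) h4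

/-- the last ring node of a corner hexagon -/
theorem Gen.cor_right (hG : M.Gen A δ) {c : ZMod 6} (hc : M.nx (δ c) = δ (c + 1)) {j : ZMod 6}
    (h1 : TN M δ (M.SameSite (δ c)) j) (h2 : ¬ TN M δ (M.SameSite (δ c)) (j + 1)) : j = c + 1 := by
  have hP := hG.toPatch
  have hA : ∀ d, M.SameSite (δ c) d → A d := fun d hd => (hP.sites.same hd).1 (hP.inA c)
  have hs1 : M.SameSite (δ c) (δ (c + 1)) := by
    rw [← hc]
    exact ⟨1, by simp⟩
  have hfs : FS M A δ (δ (c + 1)) := (hG.fs_or (c + 1)).resolve_right (hG.cor_adj hc)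
  obtain ⟨d, hd, hn⟩ := h1
  rcases hG.ring_site hfs ⟨j, hn⟩ (hs1.symm.trans hd) with h3 | ⟨i, h3, h4⟩
  · rw [h3] at hn
    exact nodes_inj hP.bd hn
  · exfalso
    have h5 := hP.prev_node (i - 1)
    rw [sub_add_cancel, ← h3] at h5
    have h6 : j = i - 1 := nodes_inj hP.bd (hn.trans h5.symm)
    have hTc : TN M δ (M.SameSite (δ c)) c := ⟨δ c, Equiv.Perm.SameCycle.refl _ _,
      Equiv.Perm.SameCycle.refl _ _⟩
    have hTc1 : TN M δ (M.SameSite (δ c)) (c + 1) := ⟨δ (c + 1), hs1,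
      Equiv.Perm.SameCycle.refl _ _⟩
    rcases hG.cor_ring hc (hs1.trans h4) with h7 | h7
    · rw [h6, h7, sub_add_cancel] at h2
      exact h2 hTc
    · rw [h6, h7, add_sub_cancel_right] at h2
      exact h2 hTc1

end gen

/-- the corner hexagons of the contraction for a word -/
theorem Mid.gamma [Fintype D] {Good : (ZMod 6 → Prop) → Prop → Rel → Prop} {A : D → Prop}
    {δ : ZMod 6 → D} {B : Boxes D} {n : ℕ} {f : ZMod 6 → Fin 3} (h : Mid Good (CrW f) M A δ B n)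
    {c : ZMod 6} (hc : CorN M δ c) : f (c + 1) ≠ 0 ∧ ¬ CorN M δ (c + 1) := by
  refine ⟨?_, h.gen.cor_adj hc⟩
  obtain ⟨j, h1, h2, h3⟩ := h.hex _ (h.gen.toPatch.inA c) (h.gen.nc c hc)
  rw [h.gen.cor_right hc h1 h2] at h3
  intro h4
  rw [h4] at h3
  rcases h3 with h3 | ⟨h3, -⟩ <;> exact absurd h3 (by decide)

/-- the fold of a corner hexagon at `c` -/
def FoldOK (Good : (ZMod 6 → Prop) → Prop → Rel → Prop) (G : Rel → Prop) (c : ZMod 6) : Prop :=
  ∀ (D : Type) [Fintype D] (M : DMap D) (A : D → Prop) (δ : ZMod 6 → D) (B : Boxes D) (n : ℕ),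
    Mid Good (CrC c) M A δ B n → CorN M δ c → (∀ d, A d → M.deg d = 6 → M.SameSite (δ c) d) →
    G (Rz M A δ B.β)

/-- the word `f` for the set `Γ` of corner hexagons -/
def WordOK (Good : (ZMod 6 → Prop) → Prop → Rel → Prop) (G : Rel → Prop) (f : ZMod 6 → Fin 3)
    (Γ : ZMod 6 → Prop) : Prop :=
  ∀ (D : Type) [Fintype D] (M : DMap D) (A : D → Prop) (δ : ZMod 6 → D) (B : Boxes D) (n : ℕ),
    Mid Good (CrW f) M A δ B n → (∀ j, CorN M δ j ↔ Γ j) → G (Rz M A δ B.β)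

/-- there is a set of sites with six boundary darts at the ring edges `c` and `c + 1`, not two quads -/
def HasC (M : DMap D) (A : D → Prop) (δ : ZMod 6 → D) (c : ZMod 6) : Prop :=
  ∃ H : D → Prop, M.Sites H ∧ (∀ e, H e → A e) ∧ (∃ e, A e ∧ ¬ H e) ∧ M.cut H = 6 ∧
    H (δ c) ∧ H (δ (c + 1)) ∧ Nat.card {e // H e} ≠ 8

section

variable [Fintype D] {Good : (ZMod 6 → Prop) → Prop → Rel → Prop}
  {Cr : (ZMod 6 → Prop) → (ZMod 6 → Prop) → Prop} {A : D → Prop} {δ : ZMod 6 → D} {B : Boxes D}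

theorem CtrF.gen_of {D₁ : Type} [Fintype D₁] {M₁ : DMap D₁} {A₁ : D₁ → Prop} {δ₁ : ZMod 6 → D₁}
    {B₁ : Boxes D₁} (h : CtrF Good Cr M A δ B M₁ A₁ δ₁ B₁) (hks : ∀ i, ¬ KS M B.κ δ i)
    (hn3 : ∀ H : D → Prop, M.Sites H → (∀ d, H d → A d) → M.cut H = 6 → scut δ H ≠ 3) :
    M₁.Gen A₁ δ₁ where
  toPatch := h.obj.patch
  two := h.two
  nc := h.nc hks
  n3 H h1 h2 h3 := h.n3 hn3 H h1 h2 h3

theorem CtrF.mid {D₁ : Type} [Fintype D₁] {M₁ : DMap D₁} {A₁ : D₁ → Prop} {δ₁ : ZMod 6 → D₁}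
    {B₁ : Boxes D₁} (h : CtrF Good Cr M A δ B M₁ A₁ δ₁ B₁) (hks : ∀ i, ¬ KS M B.κ δ i)
    (hn3 : ∀ H : D → Prop, M.Sites H → (∀ d, H d → A d) → M.cut H = 6 → scut δ H ≠ 3)
    (IH : IHR Good (Nat.card D)) : Mid Good Cr M₁ A₁ δ₁ B₁ (Nat.card D) :=
  ⟨h.obj, h.gen_of hks hn3, h.card, IH, h.nks hks, h.hex, h.triv⟩

/-- **patches of quads without corner quads and inner paths with three edges** -/
theorem gen_case (hmono : MonoH Good) (hnice : NiceH Good) {G : Rel → Prop}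
    (hG : ∀ b b' : Rel, (∀ F t, F.Ok → b F t → b' F t) → G b → G b') (fo : ZMod 6 → Prop)
    (f₀ : ZMod 6 → Fin 3) (hfold : ∀ c, fo c → FoldOK Good G c)
    (hword : ∀ Γ : ZMod 6 → Prop, (∀ c, Γ c → ¬ fo c ∧ f₀ (c + 1) ≠ 0 ∧ ¬ Γ (c + 1)) →
      ∃ f : ZMod 6 → Fin 3, (∀ c, ¬ Γ c → f c = f₀ c) ∧ WordOK Good G f Γ)
    (hO : M.Obj Good A δ B) (hq : ∀ d, A d → M.deg d = 4)
    (hks : ∀ i, ¬ KS M B.κ δ i)
    (hn3 : ∀ H : D → Prop, M.Sites H → (∀ d, H d → A d) → M.cut H = 6 → scut δ H ≠ 3)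
    (IH : IHR Good (Nat.card D)) : G (Rz M A δ B.β) := by
  have hns := not_single hO.patch hq
  by_cases hf : ∃ c, fo c ∧ HasC M A δ c
  · obtain ⟨c, hc, hH⟩ := hf
    obtain ⟨D₁, _, M₁, A₁, δ₁, B₁, h⟩ := hO.ctrF hmono hnice (Cr := CrC c) CrC.ne hq hns IH
    obtain ⟨h1, -, h3⟩ := h.corC hO.patch hq hH
    exact hG _ _ h.rz (hfold c hc D₁ M₁ A₁ δ₁ B₁ _ (h.mid hks hn3 IH) h1 h3)
  · obtain ⟨D₁, _, M₁, A₁, δ₁, B₁, h⟩ := hO.ctrF hmono hnice (Cr := CrW f₀) CrW.ne hq hns IH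
    have hm := h.mid hks hn3 IH
    obtain ⟨f, hf1, hf2⟩ := hword (CorN M₁ δ₁) fun c hc => ⟨fun h1 => hf ⟨c, h1, h.cor hks hc⟩,
      hm.gamma hc⟩
    obtain ⟨h4, h5⟩ := h.word (f := f) fun j hj => hf1 j hj
    exact hG _ _ h.rz (hf2 D₁ M₁ A₁ δ₁ B₁ _ ⟨hm.obj, hm.gen, hm.card, hm.ih, hm.nks, h4, h5⟩
      fun j => Iff.rfl)

omit [Fintype D] in
theorem scut_rot (c : ZMod 6) (H : D → Prop) : scut (fun i => δ (i + c)) H = scut δ H := by
  unfold scut
  refine Finset.card_bij (fun i _ => i + c) (fun i hi => ?_) (fun a _ b _ h => add_right_cancel h)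
    fun j hj => ⟨j - c, ?_, sub_add_cancel _ _⟩
  · simpa using hi
  · simp only [Finset.mem_filter, Finset.mem_univ, true_and, sub_add_cancel] at hj ⊢
    exact hj

/-- **all rotations of patches of quads without corner quads and inner paths with three edges** -/
theorem gen_case_rot (hmono : MonoH Good) (hnice : NiceH Good) {G : Rel → Prop}
    (hG : ∀ b b' : Rel, (∀ F t, F.Ok → b F t → b' F t) → G b → G b') (fo : ZMod 6 → Prop)
    (f₀ : ZMod 6 → Fin 3) (hfold : ∀ c, fo c → FoldOK Good G c)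
    (hword : ∀ Γ : ZMod 6 → Prop, (∀ c, Γ c → ¬ fo c ∧ f₀ (c + 1) ≠ 0 ∧ ¬ Γ (c + 1)) →
      ∃ f : ZMod 6 → Fin 3, (∀ c, ¬ Γ c → f c = f₀ c) ∧ WordOK Good G f Γ)
    (hO : M.Obj Good A δ B) (hq : ∀ d, A d → M.deg d = 4)
    (hks : ∀ i, ¬ KS M B.κ δ i)
    (hn3 : ∀ H : D → Prop, M.Sites H → (∀ d, H d → A d) → M.cut H = 6 → scut δ H ≠ 3)
    (IH : IHR Good (Nat.card D)) (c : ZMod 6) : G (Rz M A (fun i => δ (i + c)) B.β) := by
  refine gen_case hmono hnice hG fo f₀ hfold hword (δ := fun i => δ (i + c)) ?_ hq (fun i hi => ?_)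
    (fun H h1 h2 h3 => ?_) IH
  · exact ⟨⟨hO.patch.legal, BdD.shift hO.patch.bd c, hO.patch.root⟩, fun d hd h6 => by
      obtain ⟨j, e, h1, h2⟩ := hO.touch d hd h6
      exact ⟨j - c, e, h1, by rw [sub_add_cancel]; exact h2⟩, hO.anti, hO.rot, hO.krot, hO.good,
      hO.nice⟩
  · exact hks (i + c) ((KS_rot B.κ δ c i).1 hi)
  · rw [scut_rot]
    exact hn3 H h1 h2 h3

/-- **all rotations of patches of quads without corner quads and inner paths with three edges**, one word -/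
theorem gen_word (hmono : MonoH Good) (hnice : NiceH Good) {G : Rel → Prop}
    (hG : ∀ b b' : Rel, (∀ F t, F.Ok → b F t → b' F t) → G b → G b')
    (f : ZMod 6 → Fin 3)
    (hword : ∀ Γ : ZMod 6 → Prop, (∀ c, Γ c → f (c + 1) ≠ 0 ∧ ¬ Γ (c + 1)) → WordOK Good G f Γ)
    (hO : M.Obj Good A δ B) (hq : ∀ d, A d → M.deg d = 4)
    (hks : ∀ i, ¬ KS M B.κ δ i)
    (hn3 : ∀ H : D → Prop, M.Sites H → (∀ d, H d → A d) → M.cut H = 6 → scut δ H ≠ 3)
    (IH : IHR Good (Nat.card D)) (c : ZMod 6) : G (Rz M A (fun i => δ (i + c)) B.β) :=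
  gen_case_rot hmono hnice hG (fun _ => False) f (fun _ h => h.elim)
    (fun Γ hΓ => ⟨f, fun _ _ => rfl, hword Γ fun c hc => (hΓ c hc).2⟩) hO hq hks hn3 IH c

end

end DMap

end GT33
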