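import Pool.Agent.GT33.TabA
import Pool.Agent.GT33.CaseK

/-!
# GT33 module TABK: certificates for objects with a corner quad
-/

namespace GT33

namespace Chk

/-- certificates for the row 0 -/
def zK0 : List (ℕ × List Ins) := [(1, [.node 0 12 1, .leaf 2 [0]]), (3, [.node 0 6 0, .leaf 6 [0]]), (4, [.node 0 20
  0, .leaf 7 [0]]), (1, [.node 0 13 1, .leaf 2 [0]]), (1, [.node 0 12 1, .leaf 2 [0]])]

/-- certificates for the row 1 -/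
def zK1 : List (ℕ × List Ins) := [(0, [.node 0 20 2, .leaf 7 [0]]), (1, [.node 0 12 1, .leaf 2 [0]]), (3, [.node 0 6
  0, .leaf 6 [0]]), (1, [.node 0 13 1, .leaf 2 [0]]), (0, [.node 0 20 2, .leaf 7 [0]])]

/-- certificates for the row 2 -/
def zK2 : List (ℕ × List Ins) := [(0, [.node 0 20 2, .leaf 7 [0]]), (1, [.node 0 12 1, .leaf 2 [0]]), (3, [.node 0 6
  0, .leaf 6 [0]]), (4, [.node 0 20 0, .leaf 7 [0]]), (1, [.node 0 13 1, .leaf 2 [0]]), (4, [.node 0 21 0, .leaf 7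
  [0]]), (0, [.node 0 20 2, .leaf 7 [0]]), (1, [.node 0 12 1, .leaf 2 [0]])]

/-- certificates for the row 3 -/
def zK3 : List (ℕ × List Ins) := [(1, [.node 0 12 1, .leaf 2 [0]]), (3, [.node 0 6 0, .leaf 6 [0]]), (4, [.node 0 20
  0, .leaf 7 [0]]), (5, [.node 0 2 0, .leaf 6 [0]]), (1, [.node 0 13 1, .leaf 2 [0]]), (3, [.node 0 9 0, .leaf 6
  [0]]), (1, [.node 0 14 1, .leaf 2 [0]]), (1, [.node 0 12 1, .leaf 2 [0]]), (1, [.node 0 15 1, .leaf 2 [0]])]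

/-- certificates for the row 4 -/
def zK4 : List (ℕ × List Ins) := [(0, [.node 0 20 2, .leaf 7 [0]]), (1, [.node 0 12 1, .leaf 2 [0]]), (3, [.node 0 6
  0, .leaf 6 [0]]), (5, [.node 0 2 0, .leaf 6 [0]]), (1, [.node 0 13 1, .leaf 2 [0]]), (3, [.node 0 9 0, .leaf 6
  [0]]), (1, [.node 0 14 1, .leaf 2 [0]]), (0, [.node 0 20 2, .leaf 7 [0]]), (1, [.node 0 15 1, .leaf 2 [0]])]

/-- certificates for the row 5 -/
def zK5 : List (ℕ × List Ins) := [(0, [.node 0 3 0, .leaf 6 [0]]), (1, [.node 0 12 1, .leaf 2 [0]]), (3, [.node 0 6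
  0, .leaf 6 [0]]), (4, [.node 0 20 0, .leaf 7 [0]]), (5, [.node 0 2 0, .leaf 6 [0]]), (1, [.node 0 13 1, .leaf 2
  [0]]), (3, [.node 0 9 0, .leaf 6 [0]]), (0, [.node 0 3 0, .leaf 6 [0]]), (1, [.node 0 14 1, .leaf 2 [0]]), (0,
  [.node 0 3 0, .leaf 6 [0]]), (1, [.node 0 12 1, .leaf 2 [0]]), (1, [.node 0 15 1, .leaf 2 [0]])]

/-- certificates for the row 6 -/
def zK6 : List (ℕ × List Ins) := [(1, [.node 0 12 1, .leaf 2 [0]]), (2, [.node 0 0 0, .leaf 4 [0]]), (3, [.node 0 6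
  0, .leaf 6 [0]]), (4, [.node 0 20 0, .leaf 7 [0]]), (1, [.node 0 13 1, .leaf 2 [0]]), (2, [.node 0 0 0, .leaf 4
  [0]]), (1, [.node 0 12 1, .leaf 2 [0]])]

/-- certificates for the row 7 -/
def zK7 : List (ℕ × List Ins) := [(0, [.node 0 20 2, .leaf 7 [0]]), (1, [.node 0 12 1, .leaf 2 [0]]), (2, [.node 0 0
  0, .leaf 4 [0]]), (3, [.node 0 6 0, .leaf 6 [0]]), (0, [.node 0 22 2, .leaf 7 [0]]), (1, [.node 0 13 1, .leaf 2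
  [0]]), (0, [.node 0 20 2, .leaf 7 [0]])]

/-- certificates for the row 8 -/
def zK8 : List (ℕ × List Ins) := [(0, [.node 0 20 2, .leaf 7 [0]]), (1, [.node 0 12 1, .leaf 2 [0]]), (2, [.node 0 0
  0, .leaf 4 [0]]), (3, [.node 0 6 0, .leaf 6 [0]]), (4, [.node 0 20 0, .leaf 7 [0]]), (0, [.node 0 22 2, .leaf 7
  [0]]), (1, [.node 0 13 1, .leaf 2 [0]]), (2, [.node 0 0 0, .leaf 4 [0]]), (4, [.node 0 21 0, .leaf 7 [0]]), (0,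
  [.node 0 20 2, .leaf 7 [0]]), (1, [.node 0 12 1, .leaf 2 [0]]), (2, [.node 0 2 0, .leaf 4 [0]])]

/-- certificates for the row 9 -/
def zK9 : List (ℕ × List Ins) := [(1, [.node 0 12 1, .leaf 2 [0]]), (2, [.node 0 0 0, .leaf 4 [0]]), (3, [.node 0 6
  0, .leaf 6 [0]]), (4, [.node 0 20 0, .leaf 7 [0]]), (5, [.node 0 2 0, .leaf 6 [0]]), (1, [.node 0 13 1, .leaf 2
  [0]]), (2, [.node 0 0 0, .leaf 4 [0]]), (3, [.node 0 9 0, .leaf 6 [0]]), (1, [.node 0 14 1, .leaf 2 [0]]), (1,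
  [.node 0 12 1, .leaf 2 [0]]), (2, [.node 0 3 0, .leaf 4 [0]]), (1, [.node 0 15 1, .leaf 2 [0]])]

/-- certificates for the row 10 -/
def zK10 : List (ℕ × List Ins) := [(0, [.node 0 20 2, .leaf 7 [0]]), (1, [.node 0 12 1, .leaf 2 [0]]), (2, [.node 0
  0 0, .leaf 4 [0]]), (3, [.node 0 6 0, .leaf 6 [0]]), (5, [.node 0 2 0, .leaf 6 [0]]), (0, [.node 0 22 2, .leaf 7
  [0]]), (1, [.node 0 13 1, .leaf 2 [0]]), (3, [.node 0 9 0, .leaf 6 [0]]), (1, [.node 0 14 1, .leaf 2 [0]]), (0,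
  [.node 0 20 2, .leaf 7 [0]]), (2, [.node 0 3 0, .leaf 4 [0]]), (1, [.node 0 15 1, .leaf 2 [0]])]

/-- certificates for the row 11 -/
def zK11 : List (ℕ × List Ins) := [(0, [.node 0 3 0, .leaf 6 [0]]), (1, [.node 0 12 1, .leaf 2 [0]]), (2, [.node 0 0
  0, .leaf 4 [0]]), (3, [.node 0 6 0, .leaf 6 [0]]), (4, [.node 0 20 0, .leaf 7 [0]]), (5, [.node 0 2 0, .leaf 6
  [0]]), (0, [.node 0 9 0, .leaf 6 [0]]), (1, [.node 0 13 1, .leaf 2 [0]]), (2, [.node 0 0 0, .leaf 4 [0]]), (3,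
  [.node 0 9 0, .leaf 6 [0]]), (0, [.node 0 3 0, .leaf 6 [0]]), (1, [.node 0 14 1, .leaf 2 [0]]), (0, [.node 0 3 0,
  .leaf 6 [0]]), (1, [.node 0 12 1, .leaf 2 [0]]), (2, [.node 0 3 0, .leaf 4 [0]]), (0, [.node 0 9 0, .leaf 6 [0]]),
  (1, [.node 0 15 1, .leaf 2 [0]])]

/-- certificates for the row 12 -/
def zK12 : List (ℕ × List Ins) := [(1, [.node 0 0 1, .leaf 2 [0]]), (3, [.node 0 17 0, .leaf 6 [0]]), (5, [.node 0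
  28 0, .leaf 7 [0]]), (1, [.node 0 0 1, .leaf 2 [0]]), (3, [.node 0 17 0, .leaf 6 [0]]), (1, [.node 0 1 1, .leaf 2
  [0]]), (3, [.node 0 17 0, .leaf 6 [0]])]

/-- certificates for the row 13 -/
def zK13 : List (ℕ × List Ins) := [(1, [.node 0 0 1, .leaf 2 [0]]), (3, [.node 0 17 0, .leaf 6 [0]]), (4, [.node 0
  12 0, .leaf 6 [0]]), (5, [.node 0 28 0, .leaf 7 [0]]), (1, [.node 0 0 1, .leaf 2 [0]]), (3, [.node 0 17 0, .leaf 6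
  [0]]), (1, [.node 0 1 1, .leaf 2 [0]]), (1, [.node 0 3 1, .leaf 2 [0]]), (3, [.node 0 17 0, .leaf 6 [0]])]

/-- certificates for the row 14 -/
def zK14 : List (ℕ × List Ins) := [(0, [.node 0 12 0, .leaf 6 [0]]), (1, [.node 0 0 1, .leaf 2 [0]]), (3, [.node 0
  17 0, .leaf 6 [0]]), (5, [.node 0 28 0, .leaf 7 [0]]), (1, [.node 0 0 1, .leaf 2 [0]]), (3, [.node 0 17 0, .leaf 6
  [0]]), (1, [.node 0 1 1, .leaf 2 [0]]), (0, [.node 0 12 0, .leaf 6 [0]]), (3, [.node 0 17 0, .leaf 6 [0]])]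

/-- certificates for the row 15 -/
def zK15 : List (ℕ × List Ins) := [(0, [.node 0 12 0, .leaf 6 [0]]), (1, [.node 0 0 1, .leaf 2 [0]]), (3, [.node 0
  17 0, .leaf 6 [0]]), (4, [.node 0 12 0, .leaf 6 [0]]), (5, [.node 0 28 0, .leaf 7 [0]]), (1, [.node 0 0 1, .leaf 2
  [0]]), (3, [.node 0 17 0, .leaf 6 [0]]), (0, [.node 0 13 0, .leaf 6 [0]]), (1, [.node 0 1 1, .leaf 2 [0]]), (0,
  [.node 0 12 0, .leaf 6 [0]]), (1, [.node 0 3 1, .leaf 2 [0]]), (3, [.node 0 17 0, .leaf 6 [0]])]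

/-- certificates for the row 16 -/
def zK16 : List (ℕ × List Ins) := [(1, [.node 0 0 1, .leaf 2 [0]]), (2, [.node 0 12 0, .leaf 4 [0]]), (3, [.node 0
  17 0, .leaf 6 [0]]), (5, [.node 0 28 0, .leaf 7 [0]]), (1, [.node 0 0 1, .leaf 2 [0]]), (3, [.node 0 17 0, .leaf 6
  [0]]), (1, [.node 0 1 1, .leaf 2 [0]]), (2, [.node 0 12 0, .leaf 4 [0]]), (3, [.node 0 17 0, .leaf 6 [0]])]

/-- certificates for the row 17 -/
def zK17 : List (ℕ × List Ins) := [(1, [.node 0 0 1, .leaf 2 [0]]), (2, [.node 0 12 0, .leaf 4 [0]]), (3, [.node 0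
  17 0, .leaf 6 [0]]), (4, [.node 0 12 0, .leaf 6 [0]]), (5, [.node 0 28 0, .leaf 7 [0]]), (1, [.node 0 0 1, .leaf 2
  [0]]), (2, [.node 0 13 0, .leaf 4 [0]]), (3, [.node 0 17 0, .leaf 6 [0]]), (1, [.node 0 1 1, .leaf 2 [0]]), (1,
  [.node 0 3 1, .leaf 2 [0]]), (2, [.node 0 12 0, .leaf 4 [0]]), (3, [.node 0 17 0, .leaf 6 [0]])]

/-- certificates for the row 18 -/
def zK18 : List (ℕ × List Ins) := [(0, [.node 0 12 0, .leaf 6 [0]]), (1, [.node 0 0 1, .leaf 2 [0]]), (2, [.node 0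
  12 0, .leaf 4 [0]]), (3, [.node 0 17 0, .leaf 6 [0]]), (5, [.node 0 28 0, .leaf 7 [0]]), (0, [.node 0 16 0, .leaf
  6 [0]]), (1, [.node 0 0 1, .leaf 2 [0]]), (3, [.node 0 17 0, .leaf 6 [0]]), (1, [.node 0 1 1, .leaf 2 [0]]), (0,
  [.node 0 12 0, .leaf 6 [0]]), (2, [.node 0 12 0, .leaf 4 [0]]), (3, [.node 0 17 0, .leaf 6 [0]])]

/-- certificates for the row 19 -/
def zK19 : List (ℕ × List Ins) := [(0, [.node 0 12 0, .leaf 6 [0]]), (1, [.node 0 0 1, .leaf 2 [0]]), (2, [.node 0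
  12 0, .leaf 4 [0]]), (3, [.node 0 17 0, .leaf 6 [0]]), (4, [.node 0 12 0, .leaf 6 [0]]), (5, [.node 0 28 0, .leaf
  7 [0]]), (0, [.node 0 16 0, .leaf 6 [0]]), (1, [.node 0 0 1, .leaf 2 [0]]), (2, [.node 0 13 0, .leaf 4 [0]]), (3,
  [.node 0 17 0, .leaf 6 [0]]), (0, [.node 0 13 0, .leaf 6 [0]]), (1, [.node 0 1 1, .leaf 2 [0]]), (0, [.node 0 12
  0, .leaf 6 [0]]), (1, [.node 0 3 1, .leaf 2 [0]]), (2, [.node 0 12 0, .leaf 4 [0]]), (0, [.node 0 17 0, .leaf 6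
  [0]]), (3, [.node 0 17 0, .leaf 6 [0]])]

/-- certificates for the row 20 -/
def zK20 : List (ℕ × List Ins) := [(1, [.node 0 28 1, .leaf 2 [0]]), (3, [.node 0 32 0, .leaf 2 [0]]), (5, [.node 0
  23 0, .leaf 6 [0]]), (1, [.node 0 28 1, .leaf 2 [0]]), (3, [.node 0 32 0, .leaf 2 [0]]), (1, [.node 0 28 1, .leaf
  2 [0]]), (1, [.node 0 28 1, .leaf 2 [0]])]

/-- certificates for the row 21 -/
def zK21 : List (ℕ × List Ins) := [(0, [.node 0 20 0, .leaf 6 [0]]), (1, [.node 0 28 1, .leaf 2 [0]]), (3, [.node 0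
  32 0, .leaf 2 [0]]), (5, [.node 0 23 0, .leaf 6 [0]]), (1, [.node 0 28 1, .leaf 2 [0]]), (3, [.node 0 32 0, .leaf
  2 [0]]), (1, [.node 0 28 1, .leaf 2 [0]]), (0, [.node 0 20 0, .leaf 6 [0]]), (1, [.node 0 28 1, .leaf 2 [0]])]

/-- certificates for the row 22 -/
def zK22 : List (ℕ × List Ins) := [(1, [.node 0 28 1, .leaf 2 [0]]), (3, [.node 0 32 0, .leaf 2 [0]]), (4, [.node 0
  20 0, .leaf 4 [0]]), (5, [.node 0 23 0, .leaf 6 [0]]), (1, [.node 0 28 1, .leaf 2 [0]]), (3, [.node 0 32 0, .leaf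
  2 [0]]), (1, [.node 0 28 1, .leaf 2 [0]]), (1, [.node 0 29 1, .leaf 2 [0]]), (1, [.node 0 28 1, .leaf 2 [0]])]

/-- certificates for the row 23 -/
def zK23 : List (ℕ × List Ins) := [(0, [.node 0 20 0, .leaf 6 [0]]), (1, [.node 0 28 1, .leaf 2 [0]]), (3, [.node 0
  32 0, .leaf 2 [0]]), (4, [.node 0 20 0, .leaf 4 [0]]), (5, [.node 0 23 0, .leaf 6 [0]]), (1, [.node 0 28 1, .leaf
  2 [0]]), (3, [.node 0 32 0, .leaf 2 [0]]), (0, [.node 0 22 0, .leaf 6 [0]]), (1, [.node 0 28 1, .leaf 2 [0]]), (0,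
  [.node 0 20 0, .leaf 6 [0]]), (1, [.node 0 29 1, .leaf 2 [0]]), (1, [.node 0 28 1, .leaf 2 [0]])]

/-- certificates for the row 24 -/
def zK24 : List (ℕ × List Ins) := [(1, [.node 0 28 1, .leaf 2 [0]]), (2, [.node 0 20 0, .leaf 4 [0]]), (3, [.node 0
  32 0, .leaf 2 [0]]), (5, [.node 0 23 0, .leaf 6 [0]]), (1, [.node 0 28 1, .leaf 2 [0]]), (3, [.node 0 32 0, .leaf
  2 [0]]), (1, [.node 0 28 1, .leaf 2 [0]]), (2, [.node 0 20 0, .leaf 4 [0]]), (1, [.node 0 28 1, .leaf 2 [0]])]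

/-- certificates for the row 25 -/
def zK25 : List (ℕ × List Ins) := [(0, [.node 0 20 0, .leaf 6 [0]]), (1, [.node 0 28 1, .leaf 2 [0]]), (2, [.node 0
  20 0, .leaf 4 [0]]), (3, [.node 0 32 0, .leaf 2 [0]]), (5, [.node 0 23 0, .leaf 6 [0]]), (0, [.node 0 24 0, .leaf
  6 [0]]), (1, [.node 0 28 1, .leaf 2 [0]]), (3, [.node 0 32 0, .leaf 2 [0]]), (1, [.node 0 28 1, .leaf 2 [0]]), (0,
  [.node 0 20 0, .leaf 6 [0]]), (2, [.node 0 20 0, .leaf 4 [0]]), (1, [.node 0 28 1, .leaf 2 [0]])]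

/-- certificates for the row 26 -/
def zK26 : List (ℕ × List Ins) := [(1, [.node 0 28 1, .leaf 2 [0]]), (2, [.node 0 20 0, .leaf 4 [0]]), (3, [.node 0
  32 0, .leaf 2 [0]]), (4, [.node 0 20 0, .leaf 4 [0]]), (5, [.node 0 23 0, .leaf 6 [0]]), (1, [.node 0 28 1, .leaf
  2 [0]]), (2, [.node 0 22 0, .leaf 4 [0]]), (3, [.node 0 32 0, .leaf 2 [0]]), (1, [.node 0 28 1, .leaf 2 [0]]), (1,
  [.node 0 29 1, .leaf 2 [0]]), (2, [.node 0 20 0, .leaf 4 [0]]), (1, [.node 0 28 1, .leaf 2 [0]])]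

/-- certificates for the row 27 -/
def zK27 : List (ℕ × List Ins) := [(0, [.node 0 20 0, .leaf 6 [0]]), (1, [.node 0 28 1, .leaf 2 [0]]), (2, [.node 0
  20 0, .leaf 4 [0]]), (3, [.node 0 32 0, .leaf 2 [0]]), (4, [.node 0 20 0, .leaf 4 [0]]), (5, [.node 0 23 0, .leaf
  6 [0]]), (0, [.node 0 24 0, .leaf 6 [0]]), (1, [.node 0 28 1, .leaf 2 [0]]), (2, [.node 0 22 0, .leaf 4 [0]]), (3,
  [.node 0 32 0, .leaf 2 [0]]), (0, [.node 0 22 0, .leaf 6 [0]]), (1, [.node 0 28 1, .leaf 2 [0]]), (0, [.node 0 20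
  0, .leaf 6 [0]]), (1, [.node 0 29 1, .leaf 2 [0]]), (2, [.node 0 20 0, .leaf 4 [0]]), (0, [.node 0 26 0, .leaf 6
  [0]]), (1, [.node 0 28 1, .leaf 2 [0]])]

/-- certificates for the row 28 -/
def zK28 : List (ℕ × List Ins) := [(0, [.node 0 29 0, .leaf 6 [0]]), (1, [.node 0 20 3, .leaf 2 [0]]), (3, [.node 0
  29 3, .leaf 6 [0]]), (4, [.node 0 20 0, .leaf 2 [0]]), (1, [.node 0 21 3, .leaf 2 [0]]), (0, [.node 0 29 0, .leaf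
  6 [0]]), (0, [.node 0 29 0, .leaf 6 [0]]), (1, [.node 0 20 3, .leaf 2 [0]])]

/-- certificates for the row 29 -/
def zK29 : List (ℕ × List Ins) := [(0, [.node 0 29 0, .leaf 6 [0]]), (1, [.node 0 20 3, .leaf 2 [0]]), (3, [.node 0
  29 3, .leaf 6 [0]]), (4, [.node 0 20 0, .leaf 2 [0]]), (5, [.node 0 28 0, .leaf 4 [0]]), (1, [.node 0 21 3, .leaf
  2 [0]]), (3, [.node 0 31 0, .leaf 6 [0]]), (0, [.node 0 29 0, .leaf 6 [0]]), (1, [.node 0 24 3, .leaf 2 [0]]), (0,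
  [.node 0 29 0, .leaf 6 [0]]), (1, [.node 0 20 3, .leaf 2 [0]]), (1, [.node 0 25 3, .leaf 2 [0]])]

/-- certificates for the row 30 -/
def zK30 : List (ℕ × List Ins) := [(0, [.node 0 29 0, .leaf 6 [0]]), (1, [.node 0 20 3, .leaf 2 [0]]), (2, [.node 0
  28 0, .leaf 4 [0]]), (3, [.node 0 29 3, .leaf 6 [0]]), (4, [.node 0 20 0, .leaf 2 [0]]), (0, [.node 0 31 0, .leaf
  6 [0]]), (1, [.node 0 21 3, .leaf 2 [0]]), (2, [.node 0 28 0, .leaf 4 [0]]), (0, [.node 0 29 0, .leaf 6 [0]]), (0,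
  [.node 0 29 0, .leaf 6 [0]]), (1, [.node 0 20 3, .leaf 2 [0]]), (0, [.node 0 31 0, .leaf 6 [0]])]

/-- certificates for the row 31 -/
def zK31 : List (ℕ × List Ins) := [(0, [.node 0 29 0, .leaf 6 [0]]), (1, [.node 0 20 3, .leaf 2 [0]]), (2, [.node 0
  28 0, .leaf 4 [0]]), (3, [.node 0 29 3, .leaf 6 [0]]), (4, [.node 0 20 0, .leaf 2 [0]]), (5, [.node 0 28 0, .leaf
  4 [0]]), (0, [.node 0 31 0, .leaf 6 [0]]), (1, [.node 0 21 3, .leaf 2 [0]]), (2, [.node 0 28 0, .leaf 4 [0]]), (3,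
  [.node 0 31 0, .leaf 6 [0]]), (0, [.node 0 29 0, .leaf 6 [0]]), (1, [.node 0 24 3, .leaf 2 [0]]), (0, [.node 0 29
  0, .leaf 6 [0]]), (1, [.node 0 20 3, .leaf 2 [0]]), (2, [.node 0 29 0, .leaf 4 [0]]), (0, [.node 0 31 0, .leaf 6
  [0]]), (1, [.node 0 25 3, .leaf 2 [0]])]

/-- certificates for the row 32 -/
def zK32 : List (ℕ × List Ins) := [(1, [.node 0 20 1, .leaf 2 [0]]), (2, [.node 0 12 0, .leaf 5 [0]]), (3, [.node 0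
  32 0, .leaf 4 [0]]), (4, [.node 0 32 0, .leaf 6 [0]]), (5, [.node 0 33 0, .leaf 6 [0]]), (1, [.node 0 22 1, .leaf
  2 [0]]), (2, [.node 0 13 0, .leaf 5 [0]]), (3, [.node 0 32 0, .leaf 4 [0]]), (1, [.node 0 21 1, .leaf 2 [0]]), (1,
  [.node 0 20 1, .leaf 2 [0]]), (2, [.node 0 12 0, .leaf 5 [0]]), (1, [.node 0 23 1, .leaf 2 [0]])]

/-- certificates for the row 33 -/
def zK33 : List (ℕ × List Ins) := [(0, [.node 0 32 0, .leaf 6 [0]]), (1, [.node 0 20 1, .leaf 2 [0]]), (2, [.node 0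
  12 0, .leaf 5 [0]]), (3, [.node 0 32 0, .leaf 4 [0]]), (4, [.node 0 32 0, .leaf 6 [0]]), (5, [.node 0 33 0, .leaf
  6 [0]]), (0, [.node 0 32 0, .leaf 6 [0]]), (1, [.node 0 22 1, .leaf 2 [0]]), (2, [.node 0 13 0, .leaf 5 [0]]), (3,
  [.node 0 32 0, .leaf 4 [0]]), (0, [.node 0 32 0, .leaf 6 [0]]), (1, [.node 0 21 1, .leaf 2 [0]]), (0, [.node 0 32
  0, .leaf 6 [0]]), (1, [.node 0 20 1, .leaf 2 [0]]), (2, [.node 0 12 0, .leaf 5 [0]]), (0, [.node 0 32 0, .leaf 6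
  [0]]), (1, [.node 0 23 1, .leaf 2 [0]])]

/-- certificates for the row 34 -/
def zK34 : List (ℕ × List Ins) := [(0, [.case 0 1, .node 0 39 0, .leaf 7 [0], .node 0 34 0, .leaf 6 [0]]), (2,
  [.node 0 20 0, .leaf 5 [0]]), (3, [.node 0 34 0, .leaf 6 [0]]), (4, [.node 0 34 0, .leaf 4 [0]]), (5, [.node 0 34
  0, .leaf 6 [0]]), (2, [.node 0 21 0, .leaf 5 [0]]), (2, [.node 0 22 0, .leaf 5 [0]]), (3, [.node 0 34 0, .leaf 6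
  [0]]), (4, [.node 0 34 0, .leaf 4 [0]]), (3, [.node 0 34 0, .leaf 6 [0]]), (2, [.node 0 20 0, .leaf 5 [0]]), (2,
  [.node 0 23 0, .leaf 5 [0]])]

/-- certificates for the row 35 -/
def zK35 : List (ℕ × List Ins) := [(0, [.node 0 35 0, .leaf 6 [0]]), (1, [.node 0 60 2, .leaf 2 [0]]), (3, [.case 0
  2, .node 0 38 5, .leaf 5 [0], .node 0 35 0, .leaf 6 [0]]), (4, [.node 0 35 0, .leaf 6 [0]]), (5, [.node 0 35 0,
  .leaf 4 [0]]), (1, [.node 0 61 2, .leaf 2 [0]]), (5, [.node 0 35 0, .leaf 4 [0]]), (0, [.node 0 35 0, .leaf 6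
  [0]]), (1, [.node 0 62 2, .leaf 2 [0]]), (0, [.node 0 35 0, .leaf 6 [0]]), (1, [.node 0 60 2, .leaf 2 [0]]), (1,
  [.node 0 63 2, .leaf 2 [0]])]

/-- certificates for the row 36 -/
def zK36 : List (ℕ × List Ins) := [(0, [.node 0 35 5, .leaf 2 [0]]), (2, [.node 0 37 0, .leaf 2 [0], .leaf 18 [0]]),
  (3, [.node 0 20 1, .leaf 21 [0]]), (4, [.node 0 36 0, .leaf 6 [0], .leaf 5 [0]]), (5, [.node 0 36 0, .leaf 23 [0],
  .leaf 22 [0]]), (0, [.node 0 35 5, .leaf 2 [0]]), (2, [.node 0 37 0, .leaf 2 [0], .leaf 18 [0]]), (3, [.node 0 21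
  1, .leaf 21 [0]]), (0, [.node 0 35 5, .leaf 2 [0]]), (0, [.node 0 38 4, .leaf 18 [0]]), (2, [.node 0 37 0, .leaf 2
  [0], .leaf 18 [0]]), (0, [.node 0 35 5, .leaf 2 [0]])]

/-- certificates for the row 37 -/
def zK37 : List (ℕ × List Ins) := [(0, [.node 0 60 1, .leaf 2 [0]]), (1, [.node 0 28 1, .leaf 21 [0]]), (2, [.node 0
  37 0, .leaf 4 [0], .leaf 20 [0]]), (3, [.node 0 34 1, .leaf 18 [0]]), (4, [.node 0 37 0, .leaf 6 [0], .leaf 5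
  [0]]), (5, [.node 0 37 0, .leaf 23 [0], .leaf 22 [0]]), (0, [.node 0 64 1, .leaf 2 [0]]), (1, [.node 0 28 1, .leaf
  21 [0]]), (2, [.node 0 37 0, .leaf 4 [0], .leaf 20 [0]]), (3, [.node 0 34 1, .leaf 18 [0]]), (0, [.node 0 61 1,
  .leaf 2 [0]]), (1, [.node 0 28 1, .leaf 21 [0]]), (0, [.node 0 39 4, .leaf 2 [0]]), (1, [.node 0 29 1, .leaf 21
  [0]]), (2, [.node 0 37 0, .leaf 4 [0], .leaf 20 [0]]), (0, [.node 0 65 1, .leaf 2 [0]]), (1, [.node 0 28 1, .leaf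
  21 [0]])]

/-- certificates for the row 38 -/
def zK38 : List (ℕ × List Ins) := [(1, [.node 0 28 1, .leaf 5 [0]]), (1, [.node 0 28 1, .leaf 5 [0]]), (1, [.node 0
  28 1, .leaf 5 [0]]), (1, [.node 0 29 1, .leaf 5 [0]]), (1, [.node 0 28 1, .leaf 5 [0]])]

/-- certificates for the row 39 -/
def zK39 : List (ℕ × List Ins) := [(1, [.node 0 68 2, .leaf 2 [0]]), (1, [.node 0 68 2, .leaf 2 [0]]), (1, [.node 0
  68 2, .leaf 2 [0]]), (1, [.node 0 69 2, .leaf 2 [0]]), (1, [.node 0 68 2, .leaf 2 [0]])]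

/-- certificates for all rows -/
def zK : List (List (ℕ × List Ins)) := [zK0, zK1, zK2, zK3, zK4, zK5, zK6, zK7,
  zK8, zK9, zK10, zK11, zK12, zK13, zK14, zK15, zK16, zK17, zK18, zK19, zK20, zK21, zK22, zK23, zK24, zK25, zK26,
  zK27, zK28, zK29, zK30, zK31, zK32, zK33, zK34, zK35, zK36, zK37, zK38, zK39]

theorem zK_ok : allZ (fun row z => goKs tbl row codes.tail z) tb0 zK = true := by decide +kernel

/-- **the check for objects with a corner quad** -/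
theorem chkK : ChkK tbl tb0 := allZ_spec zK_ok

/-- the check of a row for stars -/
def goSs (row : SRow) (z : List (ℕ × ℕ × ℕ × ℕ)) : Bool := all6 fun c =>
  !compat row.k (kst c) || goST row.c c (z.getD c.val (0, 0, 0, 0))

/-- certificates for stars -/
def zS : List (List (ℕ × ℕ × ℕ × ℕ)) := [[(0, 0, 0, 0), (0, 0, 0, 0), (0, 0, 0, 0),
  (0, 0, 0, 0), (0, 0, 0, 0), (0, 0, 0, 0)], [(0, 0, 0, 0), (0, 0, 0, 0), (0, 0, 0, 0), (0, 0, 0, 0), (0, 0, 0, 0),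
  (0, 0, 0, 0)], [(0, 0, 0, 0), (0, 0, 0, 0), (0, 0, 0, 0), (0, 0, 0, 0), (0, 0, 0, 0), (0, 0, 0, 0)], [(0, 0, 0,
  0), (0, 2, 0, 6), (0, 0, 0, 0), (0, 0, 6, 2), (0, 0, 0, 0), (0, 6, 2, 0)], [(0, 0, 0, 0), (0, 2, 0, 6), (0, 0, 0,
  0), (0, 0, 6, 2), (0, 0, 0, 0), (0, 6, 2, 0)], [(0, 0, 0, 0), (0, 2, 0, 6), (0, 0, 0, 0), (0, 0, 6, 2), (0, 0, 0,
  0), (0, 6, 2, 0)], [(0, 0, 0, 0), (0, 0, 0, 0), (0, 0, 0, 0), (0, 0, 0, 0), (0, 0, 0, 0), (0, 0, 0, 0)], [(0, 0,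
  0, 0), (0, 0, 0, 0), (0, 0, 0, 0), (0, 0, 0, 0), (0, 0, 0, 0), (0, 0, 0, 0)], [(0, 7, 4, 7), (0, 0, 0, 0), (0, 4,
  7, 7), (0, 0, 0, 0), (0, 7, 7, 4), (0, 0, 0, 0)], [(0, 0, 0, 0), (0, 2, 0, 6), (0, 0, 0, 0), (0, 0, 6, 2), (0, 0,
  0, 0), (0, 6, 2, 0)], [(0, 0, 0, 0), (0, 2, 0, 6), (0, 0, 0, 0), (0, 0, 6, 2), (0, 0, 0, 0), (0, 6, 2, 0)], [(0,
  7, 4, 7), (0, 2, 0, 6), (0, 4, 7, 7), (0, 0, 6, 2), (0, 7, 7, 4), (0, 6, 2, 0)], [(0, 0, 0, 0), (0, 1, 6, 7), (0,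
  0, 0, 0), (0, 6, 7, 1), (0, 0, 0, 0), (0, 7, 1, 6)], [(0, 0, 0, 0), (0, 1, 6, 7), (0, 0, 0, 0), (0, 6, 7, 1), (0,
  0, 0, 0), (0, 7, 1, 6)], [(0, 0, 0, 0), (0, 1, 6, 7), (0, 0, 0, 0), (0, 6, 7, 1), (0, 0, 0, 0), (0, 7, 1, 6)],
  [(0, 0, 0, 0), (0, 1, 6, 7), (0, 0, 0, 0), (0, 6, 7, 1), (0, 0, 0, 0), (0, 7, 1, 6)], [(0, 0, 0, 0), (0, 1, 6, 7),
  (0, 0, 0, 0), (0, 6, 7, 1), (0, 0, 0, 0), (0, 7, 1, 6)], [(0, 0, 0, 0), (0, 1, 6, 7), (0, 0, 0, 0), (0, 6, 7, 1),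
  (0, 0, 0, 0), (0, 7, 1, 6)], [(0, 0, 0, 0), (0, 1, 6, 7), (0, 0, 0, 0), (0, 6, 7, 1), (0, 0, 0, 0), (0, 7, 1, 6)],
  [(0, 6, 4, 0), (0, 1, 6, 7), (0, 4, 0, 6), (0, 6, 7, 1), (0, 0, 6, 4), (0, 7, 1, 6)], [(0, 0, 0, 0), (0, 2, 1, 6),
  (0, 0, 0, 0), (0, 1, 6, 2), (0, 0, 0, 0), (0, 6, 2, 1)], [(0, 0, 0, 0), (0, 2, 1, 6), (0, 0, 0, 0), (0, 1, 6, 2),
  (0, 0, 0, 0), (0, 6, 2, 1)], [(0, 0, 0, 0), (0, 2, 1, 6), (0, 0, 0, 0), (0, 1, 6, 2), (0, 0, 0, 0), (0, 6, 2, 1)],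
  [(0, 0, 0, 0), (0, 2, 1, 6), (0, 0, 0, 0), (0, 1, 6, 2), (0, 0, 0, 0), (0, 6, 2, 1)], [(0, 0, 0, 0), (0, 2, 1, 6),
  (0, 0, 0, 0), (0, 1, 6, 2), (0, 0, 0, 0), (0, 6, 2, 1)], [(0, 0, 0, 0), (0, 2, 1, 6), (0, 0, 0, 0), (0, 1, 6, 2),
  (0, 0, 0, 0), (0, 6, 2, 1)], [(0, 0, 0, 0), (0, 2, 1, 6), (0, 0, 0, 0), (0, 1, 6, 2), (0, 0, 0, 0), (0, 6, 2, 1)],
  [(0, 7, 4, 4), (0, 2, 1, 6), (0, 4, 4, 7), (0, 1, 6, 2), (0, 4, 7, 4), (0, 6, 2, 1)], [(0, 0, 0, 0), (0, 0, 0, 0),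
  (0, 0, 0, 0), (0, 0, 0, 0), (0, 0, 0, 0), (0, 0, 0, 0)], [(0, 0, 0, 0), (0, 1, 6, 4), (0, 0, 0, 0), (0, 6, 4, 1),
  (0, 0, 0, 0), (0, 4, 1, 6)], [(0, 6, 4, 1), (0, 0, 0, 0), (0, 4, 1, 6), (0, 0, 0, 0), (0, 1, 6, 4), (0, 0, 0, 0)],
  [(0, 6, 4, 1), (0, 1, 6, 4), (0, 4, 1, 6), (0, 6, 4, 1), (0, 1, 6, 4), (0, 4, 1, 6)], [(0, 0, 0, 0), (0, 2, 4, 7),
  (0, 0, 0, 0), (0, 4, 7, 2), (0, 0, 0, 0), (0, 7, 2, 4)], [(0, 6, 5, 0), (0, 2, 4, 7), (0, 5, 0, 6), (0, 4, 7, 2),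
  (0, 0, 6, 5), (0, 7, 2, 4)], [(0, 7, 5, 4), (0, 0, 0, 0), (0, 5, 4, 7), (0, 0, 0, 0), (0, 4, 7, 5), (0, 0, 0, 0)],
  [(0, 0, 0, 0), (0, 2, 5, 4), (0, 0, 0, 0), (0, 5, 4, 2), (0, 0, 0, 0), (0, 4, 2, 5)], [(0, 2, 2, 5), (0, 0, 0, 0),
  (0, 2, 5, 2), (0, 0, 0, 0), (0, 5, 2, 2), (0, 0, 0, 0)], [(0, 2, 4, 5), (1, 5, 1, 6), (0, 4, 5, 2), (1, 1, 6, 5),
  (0, 5, 2, 4), (1, 6, 5, 1)], [(0, 0, 0, 0), (0, 5, 1, 6), (0, 0, 0, 0), (0, 1, 6, 5), (0, 0, 0, 0), (0, 6, 5, 1)],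
  [(0, 0, 0, 0), (0, 2, 5, 2), (0, 0, 0, 0), (0, 5, 2, 2), (0, 0, 0, 0), (0, 2, 2, 5)]]

theorem zS_ok : allZ goSs tb0 zS = true := by decide +kernel

/-- **the check for stars** -/
theorem chkS : ChkS tb0 := by
  intro row hr c hc
  obtain ⟨z, hz⟩ := allZ_spec zS_ok row hr
  unfold goSs at hz
  rw [all6_iff] at hz
  have h := hz c
  rw [hc, Bool.not_true, Bool.false_or] at h
  exact ⟨_, h⟩

end Chk

end GT33
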