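import Pool.Agent.GT33.TabA
import Pool.Agent.GT33.ChkP

/-!
# GT33 module TABP: certificates for objects which are split by a path with three edges
-/

namespace GT33

namespace Chk

/-- certificates for all rows -/
def zP : List (List Ins × List Ins × List Ins) := [
  ([.node 0 32 0, .node 1 6 2, .leaf 0 [0, 0]], [.node 0 23 1, .node 1 17 2, .leaf 0 [0, 0]], [.node 0 29 2, .node
    1 6 2, .leaf 0 [0, 0]]),
  ([.node 0 32 0, .node 1 6 2, .leaf 0 [0, 0]], [.node 0 23 1, .node 1 17 2, .leaf 0 [0, 0]], [.node 0 29 2, .node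
    1 6 2, .leaf 0 [0, 0]]),
  ([.node 0 32 0, .node 1 6 2, .leaf 0 [0, 0]], [.node 0 23 1, .node 1 17 2, .leaf 0 [0, 0]], [.node 0 29 2, .node
    1 6 2, .leaf 0 [0, 0]]),
  ([.node 0 32 0, .node 1 6 2, .leaf 0 [0, 0]], [.node 0 23 1, .node 1 17 2, .leaf 0 [0, 0]], [.node 0 29 2, .node
    1 6 2, .leaf 0 [0, 0]]),
  ([.node 0 32 0, .node 1 6 2, .leaf 0 [0, 0]], [.node 0 23 1, .node 1 17 2, .leaf 0 [0, 0]], [.node 0 29 2, .node
    1 6 2, .leaf 0 [0, 0]]),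
  ([.node 0 32 0, .node 1 6 2, .leaf 0 [0, 0]], [.node 0 23 1, .node 1 17 2, .leaf 0 [0, 0]], [.node 0 29 2, .node
    1 6 2, .leaf 0 [0, 0]]),
  ([.node 0 32 0, .node 1 6 2, .leaf 0 [0, 0]], [.node 0 23 1, .node 1 17 2, .leaf 0 [0, 0]], [.node 0 29 2, .node
    1 6 2, .leaf 0 [0, 0]]),
  ([.node 0 32 0, .node 1 6 2, .leaf 0 [0, 0]], [.node 0 23 1, .node 1 17 2, .leaf 0 [0, 0]], [.node 0 29 2, .node
    1 6 2, .leaf 0 [0, 0]]),
  ([.node 0 32 0, .node 1 6 2, .leaf 0 [0, 0]], [.node 0 23 1, .node 1 17 2, .leaf 0 [0, 0]], [.node 0 29 2, .node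
    1 6 2, .leaf 0 [0, 0]]),
  ([.node 0 32 0, .node 1 6 2, .leaf 0 [0, 0]], [.node 0 23 1, .node 1 17 2, .leaf 0 [0, 0]], [.node 0 29 2, .node
    1 6 2, .leaf 0 [0, 0]]),
  ([.node 0 32 0, .node 1 6 2, .leaf 0 [0, 0]], [.node 0 23 1, .node 1 17 2, .leaf 0 [0, 0]], [.node 0 29 2, .node
    1 6 2, .leaf 0 [0, 0]]),
  ([.node 0 32 0, .node 1 6 2, .leaf 0 [0, 0]], [.node 0 23 1, .node 1 17 2, .leaf 0 [0, 0]], [.node 0 29 2, .node
    1 6 2, .leaf 0 [0, 0]]),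
  ([.node 0 32 0, .node 1 17 2, .leaf 0 [0, 0]], [.node 0 23 1, .node 1 6 2, .leaf 0 [0, 0]], [.node 0 29 2, .node
    1 17 2, .leaf 0 [0, 0]]),
  ([.node 0 32 0, .node 1 17 2, .leaf 0 [0, 0]], [.node 0 23 1, .node 1 6 2, .leaf 0 [0, 0]], [.node 0 29 2, .node
    1 17 2, .leaf 0 [0, 0]]),
  ([.node 0 32 0, .node 1 17 2, .leaf 0 [0, 0]], [.node 0 23 1, .node 1 6 2, .leaf 0 [0, 0]], [.node 0 29 2, .node
    1 17 2, .leaf 0 [0, 0]]),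
  ([.node 0 32 0, .node 1 17 2, .leaf 0 [0, 0]], [.node 0 23 1, .node 1 6 2, .leaf 0 [0, 0]], [.node 0 29 2, .node
    1 17 2, .leaf 0 [0, 0]]),
  ([.node 0 32 0, .node 1 17 2, .leaf 0 [0, 0]], [.node 0 23 1, .node 1 6 2, .leaf 0 [0, 0]], [.node 0 29 2, .node
    1 17 2, .leaf 0 [0, 0]]),
  ([.node 0 32 0, .node 1 17 2, .leaf 0 [0, 0]], [.node 0 23 1, .node 1 6 2, .leaf 0 [0, 0]], [.node 0 29 2, .node
    1 17 2, .leaf 0 [0, 0]]),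
  ([.node 0 32 0, .node 1 17 2, .leaf 0 [0, 0]], [.node 0 23 1, .node 1 6 2, .leaf 0 [0, 0]], [.node 0 29 2, .node
    1 17 2, .leaf 0 [0, 0]]),
  ([.node 0 32 0, .node 1 17 2, .leaf 0 [0, 0]], [.node 0 23 1, .node 1 6 2, .leaf 0 [0, 0]], [.node 0 29 2, .node
    1 17 2, .leaf 0 [0, 0]]),
  ([.node 0 32 0, .node 1 23 4, .leaf 0 [0, 0]], [.node 0 23 1, .node 1 29 5, .leaf 0 [0, 0]], [.node 0 36 1,
    .node 1 32 2, .leaf 0 [0, 0], .node 1 17 2, .leaf 0 [0, 0]]),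
  ([.node 0 32 0, .node 1 23 4, .leaf 0 [0, 0]], [.node 0 23 1, .node 1 29 5, .leaf 0 [0, 0]], [.node 0 36 1,
    .node 1 32 2, .leaf 0 [0, 0], .node 1 17 2, .leaf 0 [0, 0]]),
  ([.node 0 32 0, .node 1 23 4, .leaf 0 [0, 0]], [.node 0 23 1, .node 1 29 5, .leaf 0 [0, 0]], [.node 0 36 1,
    .node 1 32 2, .leaf 0 [0, 0], .node 1 17 2, .leaf 0 [0, 0]]),
  ([.node 0 32 0, .node 1 23 4, .leaf 0 [0, 0]], [.node 0 23 1, .node 1 29 5, .leaf 0 [0, 0]], [.node 0 36 1,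
    .node 1 32 2, .leaf 0 [0, 0], .node 1 17 2, .leaf 0 [0, 0]]),
  ([.node 0 32 0, .node 1 23 4, .leaf 0 [0, 0]], [.node 0 23 1, .node 1 29 5, .leaf 0 [0, 0]], [.node 0 36 1,
    .node 1 32 2, .leaf 0 [0, 0], .node 1 17 2, .leaf 0 [0, 0]]),
  ([.node 0 32 0, .node 1 23 4, .leaf 0 [0, 0]], [.node 0 23 1, .node 1 29 5, .leaf 0 [0, 0]], [.node 0 36 1,
    .node 1 32 2, .leaf 0 [0, 0], .node 1 17 2, .leaf 0 [0, 0]]),
  ([.node 0 32 0, .node 1 23 4, .leaf 0 [0, 0]], [.node 0 23 1, .node 1 29 5, .leaf 0 [0, 0]], [.node 0 36 1,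
    .node 1 32 2, .leaf 0 [0, 0], .node 1 17 2, .leaf 0 [0, 0]]),
  ([.node 0 32 0, .node 1 23 4, .leaf 0 [0, 0]], [.node 0 23 1, .node 1 29 5, .leaf 0 [0, 0]], [.node 0 36 1,
    .node 1 32 2, .leaf 0 [0, 0], .node 1 17 2, .leaf 0 [0, 0]]),
  ([.node 0 32 0, .node 1 32 3, .leaf 0 [0, 0]], [.node 0 23 1, .node 1 23 4, .leaf 0 [0, 0]], [.node 0 29 2,
    .node 1 29 5, .leaf 0 [0, 0]]),
  ([.node 0 32 0, .node 1 32 3, .leaf 0 [0, 0]], [.node 0 23 1, .node 1 23 4, .leaf 0 [0, 0]], [.node 0 29 2,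
    .node 1 29 5, .leaf 0 [0, 0]]),
  ([.node 0 32 0, .node 1 32 3, .leaf 0 [0, 0]], [.node 0 23 1, .node 1 23 4, .leaf 0 [0, 0]], [.node 0 29 2,
    .node 1 29 5, .leaf 0 [0, 0]]),
  ([.node 0 32 0, .node 1 32 3, .leaf 0 [0, 0]], [.node 0 23 1, .node 1 23 4, .leaf 0 [0, 0]], [.node 0 29 2,
    .node 1 29 5, .leaf 0 [0, 0]]),
  ([.node 0 32 0, .node 1 29 5, .leaf 0 [0, 0]], [.node 0 34 1, .node 1 6 2, .leaf 0 [0, 0]], [.node 0 37 1, .node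
    1 32 2, .leaf 0 [0, 0], .node 1 17 2, .leaf 0 [0, 0]]),
  ([.node 0 32 0, .node 1 29 5, .leaf 0 [0, 0]], [.node 0 34 1, .node 1 6 2, .leaf 0 [0, 0]], [.node 0 37 1, .node
    1 32 2, .leaf 0 [0, 0], .node 1 17 2, .leaf 0 [0, 0]]),
  ([.node 0 34 0, .node 1 69 5, .leaf 0 [0, 0]], [.node 0 34 1, .node 1 29 5, .leaf 0 [0, 0]], [.node 0 35 2,
    .node 1 6 2, .leaf 0 [0, 0]]),
  ([.node 0 32 0, .node 1 35 5, .leaf 0 [0, 0]], [.node 0 35 1, .node 1 69 5, .leaf 0 [0, 0]], [.node 0 35 2,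
    .node 1 29 5, .leaf 0 [0, 0]]),
  ([.node 0 23 1, .node 1 35 5, .leaf 0 [0, 0]], [.node 0 36 1, .node 1 37 1, .leaf 0 [0, 0], .leaf 1 [0, 0],
    .node 1 29 5, .leaf 1 [0, 0]], [.node 0 34 1, .node 1 32 3, .leaf 1 [0, 0]]),
  ([.node 0 34 1, .node 1 23 4, .leaf 1 [0, 0]], [.node 0 37 1, .node 1 37 1, .leaf 0 [0, 0], .leaf 1 [0, 0],
    .node 1 29 5, .leaf 1 [0, 0]], [.node 0 63 3, .node 1 34 3, .leaf 1 [0, 0]]),
  ([], [], []),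
  ([], [], [])]

/-- the check of a row for the three positions of the path -/
def goPs (row : SRow) (z : List Ins × List Ins × List Ins) : Bool := !nonek row.k ||
  (goP tbl 0 row.c z.1 && goP tbl 1 row.c z.2.1 && goP tbl 2 row.c z.2.2)

theorem zP_ok : allZ goPs tb0 zP = true := by decide +kernel

/-- **the check for objects which are split by a path with three edges** -/
theorem chkP : ChkP tbl tb0 := by
  intro row hr hk i hi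
  obtain ⟨z, hz⟩ := allZ_spec zP_ok row hr
  unfold goPs at hz
  rw [hk, Bool.not_true, Bool.false_or, Bool.and_eq_true, Bool.and_eq_true] at hz
  rcases hi with rfl | rfl | rfl
  · exact ⟨_, hz.1.1⟩
  · exact ⟨_, hz.1.2⟩
  · exact ⟨_, hz.2⟩

end Chk

end GT33
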