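import Pool.Agent.GT33.CaseK
import Pool.Agent.GT33.ChkP
import Pool.Agent.GT33.ChkM
import Pool.Agent.GT33.GenCase
import Pool.Agent.GT33.TabK
import Pool.Agent.GT33.TabP
import Pool.Agent.GT33.FinT

/-!
# GT33 module STEP: the induction step for a table

`RowG T row`: the generic case of a row: there is a word for which all sets of corner hexagons are treated.
`stepR_of`: the induction step for the table `T ++ T.map SRow.mir` from the checks of the corner quads, the stars,
the inner paths with three edges and the generic cases.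
-/

open Classical

namespace GT33

open Chk

namespace DMap

variable {D : Type} {M : DMap D}

/-- the statement of a clause -/
def ClS (g : List Alt) (b : Rel) : Prop := ∃ a ∈ g, b a.F a.S

/-- the generic case of a clause: one word treats all sets of corner hexagons -/
def ClG (T : List SRow) (g : List Alt) : Prop :=
  ∃ f : ZMod 6 → Fin 3, ∀ Γ : ZMod 6 → Prop, (∀ c, Γ c → f (c + 1) ≠ 0 ∧ ¬ Γ (c + 1)) →
    WordOK (GoodS T) (ClS g) f Γ

/-- the statement of a row -/
def RowS (row : SRow) (b : Rel) : Prop := ∃ a ∈ row.c, b a.F a.S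

theorem RowS.mono {row : SRow} (b b' : Rel) (h : ∀ F t, F.Ok → b F t → b' F t) (hr : RowS row b) :
    RowS row b' := by
  obtain ⟨a, ha, h1⟩ := hr
  exact ⟨a, ha, h _ _ a.ok h1⟩

/-- the generic case of a row -/
def RowG (T : List SRow) (row : SRow) : Prop :=
  ∃ f : ZMod 6 → Fin 3, ∀ Γ : ZMod 6 → Prop, (∀ c, Γ c → f (c + 1) ≠ 0 ∧ ¬ Γ (c + 1)) →
    WordOK (GoodS T) (RowS row) f Γ

theorem RowG.of_imp {T : List SRow} {row : SRow} {g : List Alt} (hi : impC g row.c = true)
    (hg : ClG T g) : RowG T row := by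
  obtain ⟨f, hf⟩ := hg
  refine ⟨f, fun Γ hΓ D _ M A δ B n hM hc => ?_⟩
  have h1 : ClS g (Rz M A δ B.β) := hf Γ hΓ D M A δ B n hM hc
  exact impC_spec hi (fun F G t hFG ht => Rz.le hM.obj.anti hM.obj.patch.sites (fun _ h => h)
    hFG ht) h1

/-- the induction step for the rows of `T₀` -/
theorem stepF_of {T T₀ : List SRow} (hnice : niceT T = true) (hK : ChkK T T₀) (hS : ChkS T₀)
    (hP : ChkP T T₀) (hG : ∀ row ∈ T₀, nonek row.k = true → RowG T row) :
    StepF (GoodS T) (GoodS T₀) := by
  intro D _ M A δ B hO hq h14 hns IH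
  by_cases hcor : ∃ i, M.nx (δ i) = δ (i + 1)
  · obtain ⟨i, hi⟩ := hcor
    exact goodS_of_corner hO h14 hns IH hq ⟨i, hi, hq _ (hO.patch.inA i)⟩ hK hS
  push Not at hcor
  by_cases hB : ∃ B : D → Prop, M.Sites B ∧ (∀ d, B d → A d) ∧ M.cut B = 6 ∧ scut δ B = 3
  · exact goodS_of_scut hO IH hq (fun i hi => absurd hi (hcor i)) hP hB
  have hks : ∀ i, ¬ KS M B.κ δ i := fun i hi => hcor i hi.1
  refine goodS_of hO.patch.sites (fun j hj => absurd hj (hks j)) fun c row hr hfit => ?_
  have hk : nonek row.k = true := nonek_of (K := KS M B.κ fun i => δ (i + c))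
    (fun j hj => hks (j + c) ((KS_rot B.κ δ c j).1 hj)) hfit
  obtain ⟨f, hf⟩ := hG row hr hk
  exact gen_word (GoodS.mono T) (GoodS.nice hnice) RowS.mono f hf hO hq hks
    (fun H h1 h2 h3 h4 => hB ⟨H, h1, h2, h3, h4⟩) IH c

/-- **the induction step for a symmetric table** -/
theorem stepR_of {T : List SRow} (hnice : niceT (T ++ T.map SRow.mir) = true)
    (hK : ChkK (T ++ T.map SRow.mir) T) (hS : ChkS T) (hP : ChkP (T ++ T.map SRow.mir) T)
    (hG : ∀ row ∈ T, nonek row.k = true → RowG (T ++ T.map SRow.mir) row) :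
    StepR (GoodS (T ++ T.map SRow.mir)) :=
  stepR_of_mirS (stepF_of hnice hK hS hP hG)

/-- **the induction step for the table** from the generic cases of the clauses `gen0` -/
theorem stepR_tbl (hG : ∀ g ∈ gen0, ClG tbl g) : StepR (GoodS tbl) := by
  refine stepR_of (T := tb0) niceT_tbl chkK chkS chkP fun row hr hk => ?_
  obtain ⟨g, hg, hi⟩ := gen0_spec hr hk
  exact RowG.of_imp hi (hG g hg)

end DMap

universe u

/-- **the theorem** from the generic cases of the clauses `gen0` -/
theorem tree33_of_gen (hG : ∀ g ∈ Chk.gen0, DMap.ClG Chk.tbl g) {V : Type u} [Finite V]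
    {G : SimpleGraph V} (h3 : ThreeConnected G) (R : Rotation G) (hR : R.Plane) : HasTree R 3 3 :=
  tree33_of (DMap.stepR_tbl hG) h3 R hR

end GT33
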