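import Pool.Agent.GT33.RwD
import Pool.Agent.GT33.PreW
import Pool.Agent.GT33.Step

/-!
# GT33 module RWE: words from entries

`nOf f C`: the folded ring nodes of a word with the digits `0` and `2` which are no corners.  `Mid.pack`: a contracted
patch for a word.  `wordOK_of`: the statement for a word from the entries for all source alternatives.
-/

open Classical

namespace GT33

namespace DMap

open Patch Gen

/-- the folded ring nodes which are no corners -/
def nOf (f : ZMod 6 → Fin 3) (C : ZMod 6 → Bool) (k : ZMod 6) : Bool := f k == 2 && !C k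

theorem nOf_iff {f : ZMod 6 → Fin 3} {C : ZMod 6 → Bool} (k : ZMod 6) :
    nOf f C k = true ↔ f k = 2 ∧ C k = false := by
  unfold nOf
  rw [Bool.and_eq_true, beq_iff_eq, Bool.not_eq_true']

/-- a contracted patch for a word, with the corners `C` -/
structure Pack {D : Type} [Fintype D] (Good : (ZMod 6 → Prop) → Prop → Rel → Prop) (f : ZMod 6 → Fin 3)
    (C : ZMod 6 → Bool) (M : DMap D) (A : D → Prop) (δ : ZMod 6 → D) (B : Boxes D) (n : ℕ)
    (o : D → Bool) : Prop where
  obj : M.Obj Good A δ B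
  gen : M.Gen A δ
  card : Nat.card D ≤ n
  ih : IHR Good n
  nks : ∀ i, ¬ KS M B.κ δ i
  pre : Pre M A δ (Fw M A δ f)
  ho : ∀ d, o (M.nx d) = !o d
  ho' : ∀ d, o (M.al d) = !o d
  nc : NC M δ (Fw M A δ f) (nOf f C) C

theorem Mid.pack {D : Type} [Fintype D] {Good : (ZMod 6 → Prop) → Prop → Rel → Prop}
    {f : ZMod 6 → Fin 3} {C : ZMod 6 → Bool} {M : DMap D} {A : D → Prop} {δ : ZMod 6 → D}
    {B : Boxes D} {n : ℕ} (h : Mid Good (CrW f) M A δ B n) (hf : ∀ k, f k ≠ 1)
    (hC : ∀ j, CorN M δ j ↔ C j = true) : ∃ o, Pack Good f C M A δ B n o := by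
  obtain ⟨o, ho, ho'⟩ := h.gen.legal.exists_col
  exact ⟨o, h.obj, h.gen, h.card, h.ih, h.nks, h.gen.fw_pre_of h.hex h.triv, ho, ho',
    h.gen.nc_fw hf hC fun k => nOf_iff k⟩

namespace Pack

variable {D : Type} [Fintype D] {Good : (ZMod 6 → Prop) → Prop → Rel → Prop}
  {f : ZMod 6 → Fin 3} {C : ZMod 6 → Bool} {M : DMap D} {A : D → Prop} {δ : ZMod 6 → D}
  {B : Boxes D} {n : ℕ} {o : D → Bool}

/-- the states of the folded map -/
def rz (h : Pack Good f C M A δ B n o) : Rel :=
  Rz (mapF h.pre h.ho h.ho' h.gen) (fun x => A x.1) (hdrF h.pre h.ho h.ho' h.gen)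
    (B.pull fun x : {d // ¬ FR M (Fw M A δ f) d} => x.1).β

/-- the folded map is a star -/
def star (h : Pack Good f C M A δ B n o) : Prop :=
  Star (mapF h.pre h.ho h.ho' h.gen) fun x => A x.1

/-- **the source** -/
theorem src (h : Pack Good f C M A δ B n o) (hne : ∃ k, nOf f C k = true) :
    Good (KN (nOf f C)) h.star h.rz := by
  obtain ⟨k, hk⟩ := hne
  have h1 := h.gen.src h.pre h.ho h.ho' h.obj ⟨δ k, (h.nc.n k).2 hk⟩ h.card h.ih
  rwa [h.nc.kf] at h1

/-- **an entry gives the target** -/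
theorem entry (h : Pack Good f C M A δ B n o) {G : Rel → Prop} {Fl' : Flags} {s' : PState 6}
    (hs : h.rz Fl' s') (hE : EntryOK Good G (nOf f C) C Fl' s') : G (Rz M A δ B.β) :=
  h.gen.entry h.pre h.ho h.ho' h.obj h.nks h.nc hs hE

/-- an entry for a star -/
theorem entry_star (h : Pack Good f C M A δ B n o) (hS : h.star) (h0 : KN (nOf f C) 0)
    {G : Rel → Prop} {Fl' : Flags} (hFl : StarFl Fl')
    (hE : EntryOK Good G (nOf f C) C Fl' (st2.rot 1)) : G (Rz M A δ B.β) :=
  h.gen.entry_star h.pre h.ho h.ho' h.obj h.nks h.nc h0 hFl hE hS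

end Pack

/-- **the statement for a word** from entries for all sources -/
theorem wordOK_of {Good : (ZMod 6 → Prop) → Prop → Rel → Prop} {G : Rel → Prop}
    {f : ZMod 6 → Fin 3} (hf : ∀ k, f k ≠ 1) {Γ : ZMod 6 → Prop} {C : ZMod 6 → Bool}
    (hC : ∀ j, Γ j ↔ C j = true) (hne : ∃ k, nOf f C k = true)
    (hsrc : ∀ σ b, Good (KN (nOf f C)) σ b → ∃ Fl' s', b Fl' s' ∧
      EntryOK Good G (nOf f C) C Fl' s') : WordOK Good G f Γ := by
  intro D _ M A δ B n hM hΓ
  obtain ⟨o, h⟩ := hM.pack hf fun j => (hΓ j).trans (hC j)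
  obtain ⟨Fl', s', h1, h2⟩ := hsrc _ _ (h.src hne)
  exact h.entry h1 h2

/-- the condition `d` for a node with the known fact `x` -/
def fitX (d : ℕ) (x : Bool) : Bool := (d != 1 || x) && (d != 0 || !x)

theorem fitX_fit {d : ℕ} {x : Bool} {p : Prop} (h : fitX d x = true) (hp : p ↔ x = true) :
    Chk.Fit d p := by
  unfold fitX at h
  simp only [Bool.and_eq_true, Bool.or_eq_true, bne_iff_ne, Bool.not_eq_true'] at h
  refine ⟨fun h1 => hp.2 (h.1.resolve_left (not_not.2 h1)), fun h1 h2 => ?_⟩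
  have h3 := h.2.resolve_left (not_not.2 h1)
  rw [hp.1 h2] at h3
  exact absurd h3 (by decide)

/-- the row `row` in the rotation `r` fits the corner set of the folded map -/
def fitN (row : Chk.SRow) (r : ZMod 6) (N : ZMod 6 → Bool) : Bool :=
  Chk.all6 fun j => fitX (Chk.dg row.k (j + r)) (N (j - 1) && !N j)

/-- **the statement for a word** from the entries for the alternatives of a row -/
theorem wordOK_row {T : List Chk.SRow} {G : Rel → Prop} {f : ZMod 6 → Fin 3}
    (hf : ∀ k, f k ≠ 1) {Γ : ZMod 6 → Prop} {C : ZMod 6 → Bool} (hC : ∀ j, Γ j ↔ C j = true)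
    (hne : ∃ k, nOf f C k = true) {i : ℕ} {row : Chk.SRow} (hi : T[i]? = some row) {r : ZMod 6}
    (hfit : fitN row r (nOf f C) = true)
    (hE : ∀ a ∈ row.c, EntryOK (Chk.GoodS T) G (nOf f C) C (a.F.rot r) (a.S.rot r)) :
    WordOK (Chk.GoodS T) G f Γ := by
  refine wordOK_of hf hC hne fun σ b hb => ?_
  unfold fitN at hfit
  rw [Chk.all6_iff] at hfit
  obtain ⟨a, ha, h1⟩ := hb.rows row (List.mem_of_getElem? hi) r fun j => fitX_fit (hfit j) (by
    unfold KN
    rw [Bool.and_eq_true, Bool.not_eq_true'])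
  exact ⟨_, _, h1, hE a ha⟩

end DMap

end GT33
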