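import Pool.Agent.GT33.ChkR
import Pool.Agent.GT33.ChkB
import Pool.Agent.GT33.RwE

/-!
# GT33 module CHKF: the finite check for objects without corner quads

`Ent`: an entry: folded ring nodes `N`, folded corner hexagons `C`, a state of the folded map, and choices for the state of
the patch.  `entOK`: the check of an entry.  `ent_sound`: its soundness.
-/

namespace GT33

open DMap

namespace Chk

/-! ### the states of a quad -/

/-- the states of a quad: the matching `01|23` (`false`) or `12|30` (`true`), the units -/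
structure Q4 where
  /-- the matching -/
  b : Bool
  /-- units -/
  u0 : ℕ
  /-- units -/
  u1 : ℕ
  /-- units -/
  u2 : ℕ
  /-- units -/
  u3 : ℕ

/-- the state -/
def Q4.st (q : Q4) : PState 4 where
  m i := if q.b = true then (![3, 2, 1, 0] : Fin 4 → ZMod 4) i else (![1, 0, 3, 2] : Fin 4 → ZMod 4) i
  u i := (![q.u0, q.u1, q.u2, q.u3] : Fin 4 → ℕ) i

/-- the eight states of a quad -/
def q8 : List Q4 := [⟨false, 1, 1, 0, 1⟩, ⟨false, 0, 2, 0, 1⟩, ⟨false, 0, 1, 1, 1⟩,
  ⟨false, 0, 1, 0, 2⟩, ⟨true, 2, 0, 1, 0⟩, ⟨true, 1, 1, 1, 0⟩, ⟨true, 1, 0, 2, 0⟩, ⟨true, 1, 0, 1, 1⟩]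

theorem ee_q8 {x : PState 4} (h : EE 4 x) : ∃ q ∈ q8, x = q.st := by
  obtain ⟨c, k, rfl⟩ := h
  have key : ∀ c k : ZMod 4, ∃ q ∈ q8, (∀ i, (qst c k).m i = q.st.m i) ∧
      ∀ i, (qst c k).u i = q.st.u i := by decide
  obtain ⟨q, hq, h1, h2⟩ := key c k
  exact ⟨q, hq, PState.ext' h1 h2⟩

theorem Q4.e0 (q : Q4) : q.st.u 0 = q.u0 := rfl
theorem Q4.e1 (q : Q4) : q.st.u 1 = q.u1 := rfl
theorem Q4.e2 (q : Q4) : q.st.u 2 = q.u2 := rfl
theorem Q4.e3 (q : Q4) : q.st.u 3 = q.u3 := rfl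

theorem sd (T : Bool) (i : ZMod 4) : sideC T i = bif T then i - 1 else i + 1 := by
  cases T <;> rfl

/-- the units of a link hexagon -/
def lhU (q : Q4) : ℕ := 20001 + q.u0 * 1000 + q.u1 * 100 + q.u2 * 10

/-- the units of a hexagon at an interior ring edge -/
def shU (r : ℕ) (q : Q4) : ℕ := r * 100000 + 20010 + q.u0 * 1000 + q.u1 * 100 + (1 - r)

/-- the matching of a hexagon at an interior ring edge -/
def shM (a b : Bool) : ℕ := bif a then (bif b then 2 else 0) else (bif b then 1 else 4)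

theorem lh_code : ∀ q ∈ q8, lh 2 1 q.st = stt (shM true q.b) (lhU q) := by
  have key : ∀ q ∈ q8, eqS (lh 2 1 q.st) (stt (shM true q.b) (lhU q)) = true := by decide
  exact fun q hq => eqS_iff.1 (key q hq)

theorem sh_code : ∀ q ∈ q8, ∀ (a : Bool) (r : ℕ), r ≤ 1 →
    sh a r 2 1 q.st = stt (shM a q.b) (shU r q) := by
  have key : ∀ q ∈ q8, ∀ a : Bool, ∀ r < 2,
      eqS (sh a r 2 1 q.st) (stt (shM a q.b) (shU r q)) = true := by decide
  exact fun q hq a r hr => eqS_iff.1 (key q hq a r (by omega))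

/-- at most one -/
def le1 (x : ℕ) : Bool := Nat.ble x 1

theorem le1_iff {x : ℕ} : le1 x = true ↔ x ≤ 1 := by
  unfold le1
  rw [Nat.ble_eq]

/-- both types of demands -/
def dm2 (x y : Bool) (u v : ℕ) : Bool := (!x || le1 u) && (!y || le1 v)

theorem dm2_of {P : Bool → Prop} {x y : Bool} (hx : x = true → P true) (hy : y = true → P false)
    {u v : ℕ} {w : Bool → ℕ} (h : ∀ T, P T → w T ≤ 1) (hu : w true = u) (hv : w false = v) :
    dm2 x y u v = true := by
  unfold dm2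
  rw [Bool.and_eq_true, Bool.or_eq_true, Bool.or_eq_true]
  refine ⟨?_, ?_⟩
  · cases hx' : x
    · exact Or.inl rfl
    · right
      rw [le1_iff, ← hu]
      exact h _ (hx hx')
  · cases hy' : y
    · exact Or.inl rfl
    · right
      rw [le1_iff, ← hv]
      exact h _ (hy hy')

/-! ### the states of the quads of the folded corner hexagons -/

/-- the states which are possible for the quad of the folded corner hexagon `c` -/
def condT (s : Alt) (r' : ZMod 6 → ℕ) (thr : Bool) (c : ZMod 6) (q : Q4) : Bool :=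
  (q.u3 == r' (c + 1)) && dm2 (led s.r (c + 1)) (led s.l (c + 1)) q.u2 q.u0 &&
  (!on s.s (c + 1) || (le1 q.u0 && le1 q.u1)) &&
  bif thr then (q.u2 + r' (c + 1) == r' c + 1) && (q.u1 + r' c == 1) &&
    dm2 (led s.r c && rid s.r c) (led s.l c && rid s.l c) q.u1 q.u3 &&
    dm2 (rid s.r (c - 1)) (rid s.l (c - 1)) q.u0 q.u2 && (!on s.s c || (le1 q.u3 && le1 q.u0))
  else (q.u2 + r' (c + 1) == 1) && dm2 (rid s.r c) (rid s.l c) q.u1 q.u3

/-- a test for all states of the quads of the corner hexagons in the list -/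
def allT (cond : ZMod 6 → Q4 → Bool) (k : List (ZMod 6 × Q4) → Bool) :
    List (ZMod 6) → List (ZMod 6 × Q4) → Bool
  | [], τ => k τ
  | c :: cs, τ => q8.all fun q => !cond c q || allT cond k cs ((c, q) :: τ)

theorem allT_sound {cond : ZMod 6 → Q4 → Bool} {k : List (ZMod 6 × Q4) → Bool}
    {t : ZMod 6 → PState 4} : ∀ (cs : List (ZMod 6)) (τ : List (ZMod 6 × Q4)),
    (∀ c ∈ cs, ∃ q ∈ q8, cond c q = true ∧ t c = q.st) → (∀ p ∈ τ, t p.1 = p.2.st) →
    allT cond k cs τ = true →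
    ∃ τ', k τ' = true ∧ (∀ p ∈ τ', t p.1 = p.2.st) ∧ (∀ c ∈ cs, ∃ q, (c, q) ∈ τ') ∧ ∀ p ∈ τ, p ∈ τ'
  | [], τ, _, hτ, h => ⟨τ, h, hτ, by simp, fun p hp => hp⟩
  | c :: cs, τ, hc, hτ, h => by
    obtain ⟨q, hq, h1, h2⟩ := hc c List.mem_cons_self
    unfold allT at h
    rw [List.all_eq_true] at h
    have h3 := h q hq
    rw [h1, Bool.not_true, Bool.false_or] at h3
    obtain ⟨τ', h4, h5, h6, h7⟩ := allT_sound cs _ (fun c' hc' => hc c' (List.mem_cons_of_mem _ hc'))
      (fun p hp => by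
        rcases List.mem_cons.1 hp with rfl | hp
        · exact h2
        · exact hτ p hp) h3
    refine ⟨τ', h4, h5, fun c' hc' => ?_, fun p hp => h7 p (List.mem_cons_of_mem _ hp)⟩
    rcases List.mem_cons.1 hc' with rfl | hc'
    · exact ⟨q, h7 _ List.mem_cons_self⟩
    · exact h6 c' hc'

/-- the edges of the quads -/
def tmE (L : ZMod 6 → Bool) (τ : List (ZMod 6 × Q4)) : List (ℕ × ℕ) :=
  τ.flatMap fun p => bif L p.1 then
    (bif p.2.b then [(cd (kp p.1 1), cd (kp p.1 2)), (cd (kp p.1 3), cd (kp p.1 0))]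
      else [(cd (kp p.1 0), cd (kp p.1 1)), (cd (kp p.1 2), cd (kp p.1 3))]) else []

theorem tmE_mem {L : ZMod 6 → Bool} {τ : List (ZMod 6 × Q4)} {c : ZMod 6} {q : Q4}
    (h : (c, q) ∈ τ) (hc : L c = true) (n : ZMod 4) :
    (cd (kp c n), cd (kp c (q.st.m n))) ∈ tmE L τ ∨ (cd (kp c (q.st.m n)), cd (kp c n)) ∈ tmE L τ := by
  have hm : ∀ e, e ∈ (bif q.b then [(cd (kp c 1), cd (kp c 2)), (cd (kp c 3), cd (kp c 0))]
      else [(cd (kp c 0), cd (kp c 1)), (cd (kp c 2), cd (kp c 3))]) → e ∈ tmE L τ := by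
    intro e he
    unfold tmE
    rw [List.mem_flatMap]
    refine ⟨_, h, ?_⟩
    simp only [hc, cond_true]
    exact he
  have z4 : ∀ n : ZMod 4, n = 0 ∨ n = 1 ∨ n = 2 ∨ n = 3 := by decide
  obtain ⟨b, u0, u1, u2, u3⟩ := q
  cases b
  · simp only [cond_false] at hm
    rcases z4 n with rfl | rfl | rfl | rfl
    · exact Or.inl (hm _ (by simp [Q4.st]))
    · exact Or.inr (hm _ (by simp [Q4.st]))
    · exact Or.inl (hm _ (by simp [Q4.st]))
    · exact Or.inr (hm _ (by simp [Q4.st]))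
  · simp only [cond_true] at hm
    rcases z4 n with rfl | rfl | rfl | rfl
    · exact Or.inr (hm _ (by simp [Q4.st]))
    · exact Or.inl (hm _ (by simp [Q4.st]))
    · exact Or.inr (hm _ (by simp [Q4.st]))
    · exact Or.inl (hm _ (by simp [Q4.st]))

/-! ### entries -/

/-- a choice for the lifted state: the target alternative, the types of the interior ring edges (digit `1`: `true`), the
units of the ring darts, the states `(c, m, u)` of the corner hexagons `c`, the edges of the strands -/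
structure Cho where
  /-- the alternative of the clause -/
  t : ℕ
  /-- types -/
  a : ℕ
  /-- units of the ring darts -/
  r : ℕ
  /-- corner hexagons -/
  w : List (ℕ × ℕ × ℕ)
  /-- edges -/
  E : List (ℕ × ℕ)

/-- an entry: the clause `g`, the folded ring nodes, the folded corner hexagons, the demands `s` of the state `m`, `u` of
the folded map, the units of its ring darts, the ports, the choices -/
structure Ent where
  /-- the number of the clause -/
  g : ℕ
  /-- folded ring nodes -/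
  N : ℕ
  /-- corner hexagons -/
  C : ℕ
  /-- the demands of the source -/
  s : Alt
  /-- matching -/
  m : ℕ
  /-- units -/
  u : ℕ
  /-- units of the ring darts -/
  r' : ℕ
  /-- ports of the rest -/
  vps : List ℕ
  /-- ports -/
  ups : List ℕ
  /-- choices -/
  chs : List Cho

/-- the states of the corner hexagons -/
def wOf (l : List (ℕ × ℕ × ℕ)) (c : ZMod 6) : ℕ × ℕ :=
  match l.find? fun e => e.1 == c.val with
  | some e => e.2
  | none => (0, 0)

/-- the states of the corner hexagons -/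
def wS (l : List (ℕ × ℕ × ℕ)) (c : ZMod 6) : PState 6 := stt (wOf l c).1 (wOf l c).2

/-- the units of the corner hexagons belong to the states of the quads -/
def wOK (L : ZMod 6 → Bool) (l : List (ℕ × ℕ × ℕ)) (τ : List (ZMod 6 × Q4)) : Bool :=
  τ.all fun p => dg (wOf l p.1).2 2 == p.2.u0 && (!L p.1 || dg (wOf l p.1).2 3 == p.2.u1)

/-! ### the static part of the check -/

section checks

variable (BL : List (Fc × Alt)) (N C : ZMod 6 → Bool) (x s : Alt) (a : ZMod 6 → Bool)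
  (r r' : ZMod 6 → ℕ) (l : List (ℕ × ℕ × ℕ))

/-- the demands at the untouched sites -/
def flB : Bool := all6 fun j => N j || (C j && N (j + 1)) ||
  ((!lkd x.r j || lkd s.r (j + 1)) && (!lkd x.l j || lkd s.l (j + 1)) &&
   (N (j - 1) || ((!led x.r j || led s.r (j + 1)) && (!led x.l j || led s.l (j + 1)) &&
      (!on x.s j || on s.s (j + 1)))) &&
   (N (j + 1) || (C (j + 1) && N (j + 1 + 1)) ||
      ((!rid x.r j || rid s.r (j + 1)) && (!rid x.l j || rid s.l (j + 1)))))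

/-- the numbers of an interior quad -/
def siB (a : Bool) (r r' : ℕ) : Bool :=
  (a && r == 0 && (r' == 0 || r' == 1)) || (!a && r == 1 && r' == 1)

/-- the numbers -/
def numB : Bool := all6 fun k =>
  le1 (r k) && (a k || (N (k - 1) && N k)) &&
  (!(N k && !N (k + 1) && !(C (k + 1) && N (k + 1 + 1))) || r' (k + 1) == 0) &&
  (!(N k && !N (k - 1) && !C (k - 1)) || (r k == 0 && !led x.l k && !on x.s k)) &&
  (N k || (C k && N (k + 1)) || r k == r' (k + 1)) &&
  (dg x.u k + r (k + 1) == r k + 1) &&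
  (!N k || !lkd x.l k) &&
  (!(N k && N (k - 1)) || (siB (a k) (r k) (r' k) && (!led x.l k || r' k == 1) &&
    (!on x.s k || r' k == 1)))

/-- the corner hexagons -/
def corB : Bool := all6 fun c => !(C c && N (c + 1)) ||
  (dg (wOf l c).2 0 == r (c + 1) && dg (wOf l c).2 1 == 2 && dg (wOf l c).2 4 + r c == 1 &&
    dg (wOf l c).2 5 + r (c + 1) == r c + 1 && (!N (c - 1) || dg (wOf l c).2 3 == 1) &&
    lookB BL [(5, false)] (cflA x c (wOf l c).1 (wOf l c).2))

/-- the boxes -/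
def boxB : Bool := all6 fun k =>
  (!N k || q8.all fun q => !(q.u3 == 0 && dm2 (lkd s.r k) (lkd s.l k) q.u2 q.u0) ||
    lookB BL [] (lflA x k (shM true q.b) (lhU q))) &&
  (!(N k && !N (k - 1) && !C (k - 1)) ||
    q8.all fun q => !(q.u3 == 0 && dm2 (lkd s.r k) (lkd s.l k) q.u2 q.u0) ||
    lookB BL [] (sflA x k (shM true q.b) (lhU q))) &&
  (!(N k && N (k - 1)) || q8.all fun q => !(q.u3 == r' k && q.u2 + r' k == 1 &&
      dm2 (led s.r k) (led s.l k) q.u2 q.u0 && dm2 (rid s.r (k - 1)) (rid s.l (k - 1)) q.u1 q.u3 &&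
      (!on s.s k || (le1 q.u0 && le1 q.u1))) ||
    lookB BL [] (sflA x k (shM (a k) q.b) (shU (r k) q)))

end checks

theorem siB_ee {a : Bool} {r r' : ℕ} (h : siB a r r' = true) :
    r ≤ 1 ∧ r' ≤ 1 ∧ EE 4 (sq a r r' 2 1) := by
  have h1 : (a = true ∧ r = 0 ∧ r' = 0) ∨ (a = true ∧ r = 0 ∧ r' = 1) ∨
      (a = false ∧ r = 1 ∧ r' = 1) := by
    unfold siB at h
    simp only [Bool.or_eq_true, Bool.and_eq_true, beq_iff_eq, Bool.not_eq_true'] at h
    rcases h with ⟨⟨h1, h2⟩, h3 | h3⟩ | ⟨⟨h1, h2⟩, h3⟩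
    · exact Or.inl ⟨h1, h2, h3⟩
    · exact Or.inr (Or.inl ⟨h1, h2, h3⟩)
    · exact Or.inr (Or.inr ⟨h1, h2, h3⟩)
  rcases h1 with ⟨rfl, rfl, rfl⟩ | ⟨rfl, rfl, rfl⟩ | ⟨rfl, rfl, rfl⟩
  · exact ⟨by omega, by omega, 0, 1, PState.ext' (by decide) (by decide)⟩
  · exact ⟨by omega, by omega, 0, 2, PState.ext' (by decide) (by decide)⟩
  · exact ⟨by omega, by omega, 1, 1, PState.ext' (by decide) (by decide)⟩

section sound

variable {T : List SRow} {BL : List (Fc × Alt)} (hBL : ∀ p ∈ BL, Fact T p.1 p.2)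
  {N C : ZMod 6 → Bool} {x s : Alt} {a : ZMod 6 → Bool} {r r' : ZMod 6 → ℕ}
  {l : List (ℕ × ℕ × ℕ)}

theorem imp_or {x y : Bool} (h : (!x || y) = true) (hx : x = true) : y = true := by
  rw [hx] at h
  simpa using h

include hBL

theorem look_lfl {j : ZMod 6} {f : Fc} {m u : ℕ} (h : lookB BL f (lflA x j m u) = true)
    {K : ZMod 6 → Prop} {σ : Prop} {b : Rel} (hb : ∀ F G t, F.Le G → b G t → b F t)
    (hg : GoodS T K σ b) (hf : FcOk K f) : b (lfl x.F j) (stt m u) :=
  hb _ _ _ (lflA_le x j m u) (lookB_fact hBL h K σ b hb hg hf)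

theorem look_sfl {j : ZMod 6} {f : Fc} {m u : ℕ} (h : lookB BL f (sflA x j m u) = true)
    {K : ZMod 6 → Prop} {σ : Prop} {b : Rel} (hb : ∀ F G t, F.Le G → b G t → b F t)
    (hg : GoodS T K σ b) (hf : FcOk K f) : b (sfl x.F j) (stt m u) :=
  hb _ _ _ (sflA_le x j m u) (lookB_fact hBL h K σ b hb hg hf)

theorem look_cfl {j : ZMod 6} {f : Fc} {m u : ℕ} (h : lookB BL f (cflA x j m u) = true)
    {K : ZMod 6 → Prop} {σ : Prop} {b : Rel} (hb : ∀ F G t, F.Le G → b G t → b F t)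
    (hg : GoodS T K σ b) (hf : FcOk K f) : b (cflags x.F j) (stt m u) :=
  hb _ _ _ (cflA_le x j m u) (lookB_fact hBL h K σ b hb hg hf)

end sound

/-! ### the part of the conditions which does not depend on the rest -/

/-- the conditions of the peel which do not depend on the rest -/
structure Stat (N C : ZMod 6 → Bool) (Fl Fl' : Flags) (s : PState 6) (a : ZMod 6 → Bool)
    (r r' : ZMod 6 → ℕ) (w : ZMod 6 → PState 6) : Prop where
  flk : ∀ j T, N j = false → ¬ (C j = true ∧ N (j + 1) = true) → Fl.lk j T → Fl'.lk (j + 1) T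
  fle : ∀ j T, N j = false → N (j - 1) = false → ¬ (C j = true ∧ N (j + 1) = true) →
    Fl.le j T → Fl'.le (j + 1) T
  fri : ∀ j T, N (j + 1) = false → N j = false → ¬ (C (j + 1) = true ∧ N (j + 1 + 1) = true) →
    Fl.ri j T → Fl'.ri (j + 1) T
  fst : ∀ j, N j = false → N (j - 1) = false → ¬ (C j = true ∧ N (j + 1) = true) → Fl.st j →
    Fl'.st (j + 1)
  r1 : ∀ k, r k ≤ 1
  aI : ∀ k, a k = false → N (k - 1) = true ∧ N k = true
  c1 : ∀ k, N k = true → N (k + 1) = false → ¬ (C (k + 1) = true ∧ N (k + 1 + 1) = true) →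
    r' (k + 1) = 0
  c2 : ∀ k, N k = true → N (k - 1) = false → C (k - 1) = false → r k = 0
  c3 : ∀ k, N k = false → ¬ (C k = true ∧ N (k + 1) = true) → r k = r' (k + 1)
  wu : ∀ c, C c = true → N (c + 1) = true → (w c).u 0 = r (c + 1) ∧ (w c).u 1 = 2 ∧
    (w c).u 4 + r c = 1 ∧ (w c).u 5 + r (c + 1) = r c + 1
  wt : ∀ c, thrN N C c = true → (w c).u 3 = 1
  su : ∀ k, s.u k + r (k + 1) = r k + 1
  lk : ∀ j, N j = true → ¬ Fl.lk j false
  sl : ∀ k, N k = true → N (k - 1) = false → C (k - 1) = false → Gen.SqOk Fl k (lq 2 1)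
  si : ∀ k, N k = true → N (k - 1) = true → Gen.SqOk Fl k (sq (a k) (r k) (r' k) 2 1)

section stat

variable {BL : List (Fc × Alt)} {N C : ZMod 6 → Bool} {x s : Alt} {a : ZMod 6 → Bool}
  {r r' : ZMod 6 → ℕ} {l : List (ℕ × ℕ × ℕ)}

theorem alt_lk (x : Alt) (j : ZMod 6) (T : Bool) :
    x.F.lk j T ↔ lkd (bif T then x.r else x.l) j = true := by
  cases T <;> exact Iff.rfl

theorem alt_le (x : Alt) (j : ZMod 6) (T : Bool) :
    x.F.le j T ↔ led (bif T then x.r else x.l) j = true := by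
  cases T <;> exact Iff.rfl

theorem alt_ri (x : Alt) (j : ZMod 6) (T : Bool) :
    x.F.ri j T ↔ rid (bif T then x.r else x.l) j = true := by
  cases T <;> exact Iff.rfl

theorem imp_both {T : Bool} {f g : ℕ → Bool} {u v u' v' : ℕ} (h1 : (!f u || g u') = true)
    (h2 : (!f v || g v') = true) (h : f (bif T then u else v) = true) :
    g (bif T then u' else v') = true := by
  cases T
  · exact imp_or h2 h
  · exact imp_or h1 h

theorem not_both {u v : Bool} (h : ¬ (u = true ∧ v = true)) : (u && v) = false := by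
  cases u <;> cases v <;> simp_all

theorem flB_sound (h : flB N C x s = true) {j : ZMod 6} (hN : N j = false)
    (hC : ¬ (C j = true ∧ N (j + 1) = true)) :
    (∀ T, x.F.lk j T → s.F.lk (j + 1) T) ∧
    (N (j - 1) = false → (∀ T, x.F.le j T → s.F.le (j + 1) T) ∧ (x.F.st j → s.F.st (j + 1))) ∧
    (N (j + 1) = false → ¬ (C (j + 1) = true ∧ N (j + 1 + 1) = true) →
      ∀ T, x.F.ri j T → s.F.ri (j + 1) T) := by
  unfold flB at h
  rw [all6_iff] at h
  have h1 := h j
  rw [hN, not_both hC, Bool.or_self, Bool.false_or] at h1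
  simp only [Bool.and_eq_true] at h1
  obtain ⟨⟨⟨h1, h2⟩, h3⟩, h4⟩ := h1
  refine ⟨fun T hT => ?_, fun h5 => ?_, fun h5 h6 T hT => ?_⟩
  · rw [alt_lk] at hT ⊢
    exact imp_both (f := fun u => lkd u j) (g := fun u => lkd u (j + 1)) h1 h2 hT
  · rw [h5, Bool.false_or] at h3
    simp only [Bool.and_eq_true] at h3
    obtain ⟨⟨h7, h8⟩, h9⟩ := h3
    refine ⟨fun T hT => ?_, fun hT => imp_or h9 hT⟩
    rw [alt_le] at hT ⊢
    exact imp_both (f := fun u => led u j) (g := fun u => led u (j + 1)) h7 h8 hT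
  · rw [h5, not_both h6, Bool.or_self, Bool.false_or] at h4
    simp only [Bool.and_eq_true] at h4
    rw [alt_ri] at hT ⊢
    exact imp_both (f := fun u => rid u j) (g := fun u => rid u (j + 1)) h4.1 h4.2 hT

theorem lq_ok {F : Flags} {k : ZMod 6} (h1 : ¬ F.le k false) (h2 : ¬ F.st k) :
    Gen.SqOk F k (lq 2 1) := by
  refine ⟨⟨0, 1, PState.ext' (by decide) (by decide)⟩, fun T hT => ?_, fun T hT => ?_,
    fun h => absurd h h2⟩
  · cases T
    · exact absurd hT h1
    · exact (by decide : (lq 2 1).u (sideC true 0) ≤ 1)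
  · cases T <;> decide

theorem sq_ok {F : Flags} {k : ZMod 6} {a : Bool} {r r' : ℕ} (h : siB a r r' = true)
    (h1 : F.le k false → r' = 1) (h2 : F.st k → r' = 1) : Gen.SqOk F k (sq a r r' 2 1) := by
  obtain ⟨h3, h4, h5⟩ := siB_ee h
  refine ⟨h5, fun T hT => ?_, fun T hT => ?_, fun hT => ?_⟩
  · cases T
    · rw [h1 hT]
      exact (le_refl 1 : (2 - 1 : ℕ) ≤ 1)
    · exact (Nat.sub_le 1 r : (1 - r : ℕ) ≤ 1)
  · cases T
    · exact (h3 : r ≤ 1)
    · exact (Nat.sub_le 1 (1 - r') : (1 - (1 - r') : ℕ) ≤ 1)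
  · rw [h2 hT]
    exact ⟨(le_refl 1 : (2 - 1 : ℕ) ≤ 1), (Nat.sub_le 1 0 : (1 - (1 - 1) : ℕ) ≤ 1)⟩

theorem stat_sound (h1 : flB N C x s = true) (h2 : numB N C x a r r' = true)
    (h3 : corB BL N C x r l = true) : Stat N C x.F s.F x.S a r r' (wS l) := by
  unfold numB at h2
  unfold corB at h3
  rw [all6_iff] at h2 h3
  simp only [Bool.and_eq_true] at h2
  have hco : ∀ c, C c = true → N (c + 1) = true → _ := fun c hc hn =>
    imp_or (h3 c) (by rw [hc, hn]; rfl)
  simp only [Bool.and_eq_true, beq_iff_eq] at hco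
  refine ⟨fun j T hN hC => (flB_sound h1 hN hC).1 T, fun j T hN hn hC =>
      ((flB_sound h1 hN hC).2.1 hn).1 T, fun j T hn hN hc => (flB_sound h1 hN fun hC => ?_).2.2 hn
        hc T, fun j hN hn hC => ((flB_sound h1 hN hC).2.1 hn).2,
    fun k => le1_iff.1 (h2 k).1.1.1.1.1.1.1,
    fun k hk => ?_, fun k hk hn hc => ?_, fun k hk hn hc => ?_, fun k hk hc => ?_,
    fun c hc hn => ?_, fun c hc => ?_, fun k => ?_, fun k hk hl => ?_, fun k hk hn hc => ?_,
    fun k hk hn => ?_⟩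
  · rw [hn] at hC
    exact absurd hC.2 (by decide)
  · have h4 := (h2 k).1.1.1.1.1.1.2
    rw [hk, Bool.false_or, Bool.and_eq_true] at h4
    exact h4
  · have h4 := imp_or (h2 k).1.1.1.1.1.2 (by rw [hk, hn, not_both hc]; rfl)
    exact beq_iff_eq.1 h4
  · have h4 := imp_or (h2 k).1.1.1.1.2 (by rw [hk, hn, hc]; rfl)
    rw [Bool.and_eq_true, Bool.and_eq_true] at h4
    exact beq_iff_eq.1 h4.1.1
  · have h4 := (h2 k).1.1.1.2
    rw [hk, not_both hc, Bool.or_self, Bool.false_or] at h4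
    exact beq_iff_eq.1 h4
  · obtain ⟨⟨⟨⟨⟨h4, h5⟩, h6⟩, h7⟩, -⟩, -⟩ := hco c hc hn
    exact ⟨h4, h5, h6, h7⟩
  · unfold thrN at hc
    rw [Bool.and_eq_true, Bool.and_eq_true] at hc
    obtain ⟨⟨-, h4⟩, -⟩ := hco c hc.1.1 hc.1.2
    exact beq_iff_eq.1 (imp_or h4 hc.2)
  · exact beq_iff_eq.1 (h2 k).1.1.2
  · have h4 := imp_or (h2 k).1.2 hk
    rw [alt_lk] at hl
    rw [show (lkd x.l k) = true from hl] at h4
    exact absurd h4 (by decide)
  · have h4 := imp_or (h2 k).1.1.1.1.2 (by rw [hk, hn, hc]; rfl)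
    rw [Bool.and_eq_true, Bool.and_eq_true] at h4
    refine lq_ok (fun h5 => ?_) fun h5 => ?_
    · rw [show (led x.l k) = true from h5] at h4
      exact absurd h4.1.2 (by decide)
    · rw [show (on x.s k) = true from h5] at h4
      exact absurd h4.2 (by decide)
  · have h4 := imp_or (h2 k).2 (by rw [hk, hn]; rfl)
    rw [Bool.and_eq_true, Bool.and_eq_true] at h4
    exact sq_ok h4.1.1 (fun h5 => beq_iff_eq.1 (imp_or h4.1.2 h5))
      fun h5 => beq_iff_eq.1 (imp_or h4.2 h5)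

theorem Stat.peel {Fl' : Flags} {w : ZMod 6 → PState 6} (h : Stat N C x.F Fl' x.S a r r' w)
    {t : ZMod 6 → PState 4} {ρ : Pt → Pt}
    (h1 : ∀ c, C c = true → N (c + 1) = true → (w c).u 2 = (t c).u 0)
    (h2 : ∀ c, lecN N C c = true → (w c).u 3 = (t c).u 1)
    (h3 : ∀ k, Relation.EqvGen (PStepG (lecN N C) (thrN N C) a ρ fun c => (w c).m)
      (0, k) (0, x.S.m k))
    (h4 : ∀ y, up (lecN N C) y = true →
      ∃ k, Relation.EqvGen (PStepG (lecN N C) (thrN N C) a ρ fun c => (w c).m) y (0, k)) :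
    PeelR N C x.F Fl' x.S a r r' 2 1 w t ρ where
  ok := x.ok
  flk := h.flk
  fle := h.fle
  fri := h.fri
  fst := h.fst
  pq := rfl
  p1 := by decide
  q1 := by decide
  r1 := h.r1
  aI := h.aI
  c1 k h5 h6 h7 := ⟨h.c1 k h5 h6 h7, rfl⟩
  c2 k h5 h6 h7 := ⟨h.c2 k h5 h6 h7, rfl⟩
  c3 := h.c3
  wu c h5 h6 := ⟨(h.wu c h5 h6).1, (h.wu c h5 h6).2.1, h1 c h5 h6, (h.wu c h5 h6).2.2⟩
  wt := h.wt
  wl := h2
  su := h.su
  port := h3
  all := h4
  lk j hj := ⟨fun _ => by decide, fun h5 => absurd h5 (h.lk j hj)⟩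
  sl := h.sl
  si := h.si

end stat

/-! ### the boxes -/

section box

variable {T : List SRow} {BL : List (Fc × Alt)} (hBL : ∀ p ∈ BL, Fact T p.1 p.2)
  {N C : ZMod 6 → Bool} {x s : Alt} {a : ZMod 6 → Bool} {r r' : ZMod 6 → ℕ}
  {l : List (ℕ × ℕ × ℕ)}

include hBL in
theorem box_sound (h1 : boxB BL N C x s a r r' = true) (h2 : corB BL N C x r l = true)
    (hr : ∀ k, r k ≤ 1) : BoxG (GoodS T) N C x.F s.F a r r' 2 1 (wS l) := by
  unfold boxB at h1
  unfold corB at h2
  rw [all6_iff] at h1 h2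
  simp only [Bool.and_eq_true] at h1
  have hsf : ∀ (k : ZMod 6) (q : Q4), (∀ T, s.F.lk k T → q.st.u (sideC T 3) ≤ 1) →
      dm2 (lkd s.r k) (lkd s.l k) q.u2 q.u0 = true := fun k q h =>
    dm2_of (P := fun T => s.F.lk k T) (w := fun T => q.st.u (sideC T 3)) (fun h => h) (fun h => h)
      h rfl rfl
  refine ⟨fun j y hj he h3 hd K σ b hb hg => ?_, fun j y hj hn hc he h3 hd K σ b hb hg => ?_,
    fun k y hk hn he h3 h4 hd hd' hs K σ b hb hg => ?_, fun c hc hn K σ b hb hg hK => ?_⟩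
  · obtain ⟨q, hq, rfl⟩ := ee_q8 he
    have h5 := imp_or (h1 j).1.1 hj
    rw [List.all_eq_true] at h5
    have h6 := imp_or (h5 q hq) (by
      rw [Bool.and_eq_true, beq_iff_eq]
      exact ⟨h3, hsf j q hd⟩)
    rw [lh_code q hq]
    exact look_lfl hBL h6 hb hg fun p hp => by simp at hp
  · obtain ⟨q, hq, rfl⟩ := ee_q8 he
    have h5 := imp_or (h1 j).1.2 (by rw [hj, hn, hc]; rfl)
    rw [List.all_eq_true] at h5
    have h6 := imp_or (h5 q hq) (by
      rw [Bool.and_eq_true, beq_iff_eq]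
      exact ⟨h3, hsf j q hd⟩)
    rw [lh_code q hq]
    exact look_sfl hBL h6 hb hg fun p hp => by simp at hp
  · obtain ⟨q, hq, rfl⟩ := ee_q8 he
    have h5 := imp_or (h1 k).2 (by rw [hk, hn]; rfl)
    rw [List.all_eq_true] at h5
    have h6 := imp_or (h5 q hq) (by
      simp only [Bool.and_eq_true, beq_iff_eq]
      refine ⟨⟨⟨⟨h3, h4⟩, dm2_of (P := fun T => s.F.le k T) (w := fun T => q.st.u (sideC T 3))
        (fun h => h) (fun h => h) hd rfl rfl⟩, dm2_of (P := fun T => s.F.ri (k - 1) T)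
        (w := fun T => q.st.u (sideC T 2)) (fun h => h) (fun h => h) hd' rfl rfl⟩, ?_⟩
      cases h7 : on s.s k
      · rfl
      · obtain ⟨h8, h9⟩ := hs h7
        rw [Bool.not_true, Bool.false_or, Bool.and_eq_true, le1_iff, le1_iff]
        exact ⟨h8, h9⟩)
    rw [sh_code q hq _ _ (hr k)]
    exact look_sfl hBL h6 hb hg fun p hp => by simp at hp
  · have h5 := imp_or (h2 c) (by rw [hc, hn]; rfl)
    simp only [Bool.and_eq_true] at h5
    refine look_cfl hBL h5.2 hb hg fun p hp => ?_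
    rw [List.mem_singleton] at hp
    subst hp
    exact ⟨fun h => absurd h (by simp), fun h => absurd h hK⟩

end box

/-! ### the states of the quads of the folded corner hexagons -/

section src

variable {N C : ZMod 6 → Bool} {s : Alt} {s' : PState 6} {r' : ZMod 6 → ℕ}
  {t : ZMod 6 → PState 4} {ρ : Pt → Pt}

theorem condT_of (h : SrcN N C s.F s' r' t ρ) {c : ZMod 6} (hc : C c = true) (hn : N (c + 1) = true) :
    ∃ q ∈ q8, condT s r' (thrN N C c) c q = true ∧ t c = q.st := by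
  obtain ⟨q, hq, h1⟩ := ee_q8 (h.ee c hc hn)
  refine ⟨q, hq, ?_, h1⟩
  unfold condT
  have hs : ∀ {P : Prop} {x y : ℕ} {b : Bool}, (b = true → P) → (P → x ≤ 1 ∧ y ≤ 1) →
      (!b || (le1 x && le1 y)) = true := by
    intro P x y b h2 h3
    cases b
    · rfl
    · obtain ⟨h4, h5⟩ := h3 (h2 rfl)
      rw [Bool.not_true, Bool.false_or, Bool.and_eq_true, le1_iff, le1_iff]
      exact ⟨h4, h5⟩
  have e3 : q.u3 = r' (c + 1) := by
    have := h.u3 c hc hn
    rw [h1] at this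
    exact this
  have d3 := h.d3 c hc hn
  have t3 := h.st3 c hc hn
  rw [h1] at d3 t3
  simp only [Bool.and_eq_true, beq_iff_eq]
  refine ⟨⟨⟨e3, dm2_of (P := fun T => s.F.le (c + 1) T) (w := fun T => q.st.u (sideC T 3))
    (fun h => h) (fun h => h) d3 rfl rfl⟩, hs (P := s.F.st (c + 1)) (fun h => h) t3⟩, ?_⟩
  cases h2 : thrN N C c
  · have h3 : lecN N C c = true := by
      unfold lecN
      unfold thrN at h2
      rw [hc, hn, Bool.and_self, Bool.true_and] at h2 ⊢
      rw [h2]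
      rfl
    rw [cond_false]
    have e2 := h.u2' c h3
    have d2 := h.d2' c h3
    rw [h1] at e2 d2
    rw [Bool.and_eq_true, beq_iff_eq]
    exact ⟨e2, dm2_of (P := fun T => s.F.ri c T) (w := fun T => q.st.u (sideC T 2))
      (fun h => h) (fun h => h) d2 rfl rfl⟩
  · rw [cond_true]
    have e2 := h.u2 c h2
    have e1 := h.u1 c h2
    have d2 := h.d2 c h2
    have d1 := h.d1 c h2
    have t2 := h.st2 c h2
    rw [h1] at e2 e1 d2 d1 t2
    simp only [Bool.and_eq_true, beq_iff_eq]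
    refine ⟨⟨⟨⟨e2, e1⟩, dm2_of (P := fun T => s.F.le c T ∧ s.F.ri c T)
      (w := fun T => q.st.u (sideC T 2)) (fun h => ?_) (fun h => ?_) (fun T hT => d2 T hT.1 hT.2)
      rfl rfl⟩, dm2_of (P := fun T => s.F.ri (c - 1) T) (w := fun T => q.st.u (sideC T 1))
      (fun h => h) (fun h => h) d1 rfl rfl⟩, hs (P := s.F.st c) (fun h => h) t2⟩
    · rw [Bool.and_eq_true] at h
      exact h
    · rw [Bool.and_eq_true] at h
      exact h

end src

/-! ### the check of an entry -/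

/-- the static part of the check of a choice -/
def choB (BL : List (Fc × Alt)) (gl : List Alt) (e : Ent) (ch : Cho) : Bool :=
  match gl[ch.t]? with
  | some x => flB (on e.N) (on e.C) x e.s &&
      numB (on e.N) (on e.C) x (on ch.a) (dg ch.r) (dg e.r') &&
      corB BL (on e.N) (on e.C) x (dg ch.r) ch.w &&
      boxB BL (on e.N) (on e.C) x e.s (on ch.a) (dg ch.r) (dg e.r') &&
      decide (ch.E = fixE (lecN (on e.N) (on e.C)) (thrN (on e.N) (on e.C)) (on ch.a)
        fun c => (wS ch.w c).m)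
  | none => false

/-- a choice is right for the states `τ` and the matching `acc` -/
def dynB (gl : List Alt) (e : Ent) (τ : List (ZMod 6 × Q4)) (acc : List (ℕ × ℕ)) : Bool :=
  e.chs.any fun ch => wOK (lecN (on e.N) (on e.C)) ch.w τ && match gl[ch.t]? with
    | some x => portOK (lecN (on e.N) (on e.C)) e.ups x.S.m (acc ++ ch.E)
    | none => false

/-- the folded corner hexagons, as a list -/
def cs (N C : ZMod 6 → Bool) : List (ZMod 6) := zs.filter fun c => C c && N (c + 1)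

/-- **the check of an entry** -/
def entOK (BL : List (Fc × Alt)) (gl : List Alt) (e : Ent) : Bool :=
  vpOK (lecN (on e.N) (on e.C)) e.vps && upOK (lecN (on e.N) (on e.C)) e.ups &&
  (e.chs.all (choB BL gl e)) &&
  allT (fun c => condT e.s (dg e.r') (thrN (on e.N) (on e.C) c) c)
    (fun τ => enum (badP (stt e.m e.u).m) (fun acc => dynB gl e τ acc ||
      contra e.vps (stt e.m e.u).m (acc ++ tmE (lecN (on e.N) (on e.C)) τ)) 12 e.vps [])
    (cs (on e.N) (on e.C)) []

theorem ent_sound {T : List SRow} {BL : List (Fc × Alt)} (hBL : ∀ p ∈ BL, Fact T p.1 p.2)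
    {gl : List Alt} {e : Ent} (h : entOK BL gl e = true) {t : ZMod 6 → PState 4} {ρ : Pt → Pt}
    (hs : SrcN (on e.N) (on e.C) e.s.F (stt e.m e.u) (dg e.r') t ρ) :
    ∃ ch ∈ e.chs, ∃ x, gl[ch.t]? = some x ∧
      PeelR (on e.N) (on e.C) x.F e.s.F x.S (on ch.a) (dg ch.r) (dg e.r') 2 1 (wS ch.w) t ρ ∧
      BoxG (GoodS T) (on e.N) (on e.C) x.F e.s.F (on ch.a) (dg ch.r) (dg e.r') 2 1 (wS ch.w) := by
  unfold entOK at h
  simp only [Bool.and_eq_true] at h
  obtain ⟨⟨⟨hv, hu⟩, hch⟩, hT⟩ := h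
  obtain ⟨τ, h1, h2, h3, -⟩ := allT_sound (t := t) (cs (on e.N) (on e.C)) []
    (fun c hc => by
      unfold cs at hc
      rw [List.mem_filter, Bool.and_eq_true] at hc
      exact condT_of hs hc.2.1 hc.2.2) (by simp) hT
  have hcs : ∀ c, on e.C c = true → on e.N (c + 1) = true → ∃ q, (c, q) ∈ τ ∧ t c = q.st := by
    intro c hc hn
    obtain ⟨q, hq⟩ := h3 c (by
      unfold cs
      rw [List.mem_filter, Bool.and_eq_true]
      exact ⟨mem_zs c, hc, hn⟩)
    exact ⟨q, hq, h2 _ hq⟩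
  have hlec : ∀ c, lecN (on e.N) (on e.C) c = true → on e.C c = true ∧ on e.N (c + 1) = true := by
    intro c hc
    unfold lecN at hc
    simp only [Bool.and_eq_true] at hc
    exact hc.1
  obtain ⟨acc, h4, h5⟩ := rho_check (tm := fun c => (t c).m) hs.rv hs.rs hs.ra
    (fun k => (stt_mm e.m e.u k).2) hv (fun c n hc => by
      obtain ⟨q, hq, hq2⟩ := hcs c (hlec c hc).1 (hlec c hc).2
      show _ ∨ (cd (kp c ((t c).m n)), _) ∈ _
      rw [hq2]
      exact tmE_mem hq hc n) h1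
  unfold dynB at h4
  rw [List.any_eq_true] at h4
  obtain ⟨ch, hch1, h4⟩ := h4
  rw [Bool.and_eq_true] at h4
  obtain ⟨h6, h7⟩ := h4
  rw [List.all_eq_true] at hch
  have h8 := hch ch hch1
  unfold choB at h8
  cases hx : gl[ch.t]? with
  | none =>
    rw [hx] at h8
    simp at h8
  | some x =>
    rw [hx] at h7 h8
    simp only [Bool.and_eq_true, decide_eq_true_eq] at h8
    obtain ⟨⟨⟨⟨h9, h10⟩, h11⟩, h12⟩, h13⟩ := h8
    have hst := stat_sound h9 h10 h11
    have hp := portOK_sound (L := lecN (on e.N) (on e.C)) (T := thrN (on e.N) (on e.C))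
      (ρ := ρ) (fun k => (stt_mm x.m x.u k).1) hu h13 h5 h7
    unfold wOK at h6
    rw [List.all_eq_true] at h6
    refine ⟨ch, hch1, x, hx, hst.peel (fun c hc hn => ?_) (fun c hc => ?_) hp.1 hp.2,
      box_sound hBL h12 h11 hst.r1⟩
    · obtain ⟨q, hq, hq2⟩ := hcs c hc hn
      have h14 := h6 _ hq
      rw [Bool.and_eq_true, beq_iff_eq] at h14
      rw [hq2]
      exact h14.1
    · obtain ⟨q, hq, hq2⟩ := hcs c (hlec c hc).1 (hlec c hc).2
      have h14 := h6 _ hq
      rw [Bool.and_eq_true] at h14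
      have h15 := h14.2
      rw [hc, Bool.not_true, Bool.false_or, beq_iff_eq] at h15
      rw [hq2]
      exact h15

/-! ### the source -/

/-- the units of the ring darts of a state with the units `u` -/
def rOf (u : ℕ) : ℕ → ZMod 6 → ℕ
  | 0, _ => 0
  | n + 1, k => bif dg u (k - 1) == 0 then 1 else bif dg u (k - 1) == 2 then 0 else rOf u n (k - 1)

/-- the flips are possible -/
def flipB : List (ZMod 6) → PState 6 → (ZMod 6 → ℕ) → Bool
  | [], _, _ => true
  | c :: l, s, r => (r c == 1) && (r (c + 1) == 0) && !decide (s.m c = c + 1) &&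
    flipB l (flipS c s) (flipr c r)

theorem flipB_iff : ∀ {l : List (ZMod 6)} {s : PState 6} {r : ZMod 6 → ℕ},
    flipB l s r = true → FlipOK l s r
  | [], _, _, _ => trivial
  | c :: l, s, r, h => by
    unfold flipB at h
    simp only [Bool.and_eq_true, beq_iff_eq, Bool.not_eq_true', decide_eq_false_iff_not] at h
    exact ⟨h.1.1.1, h.1.1.2, h.1.2, flipB_iff h.2⟩

/-- the flipped right ends -/
def flL (e : Ent) : List (ZMod 6) :=
  zs.filter fun c => reN (on e.N) (on e.C) c && rOf e.s.u 6 c == 1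

/-- the check of the source of an entry; the corners `z` are excluded -/
def srcB (z : ZMod 6 → Bool) (e : Ent) : Bool :=
  all6 (fun i => (dg e.s.u i + rOf e.s.u 6 (i + 1) == rOf e.s.u 6 i + 1) && le1 (rOf e.s.u 6 i) &&
    (!(!z i && on e.N (i - 1) && !on e.N i) || !(dg e.s.u i == 1)) &&
    (fliprs (flL e) (rOf e.s.u 6) i == dg e.r' i) &&
    (!thrN (on e.N) (on e.C) i || !(dg e.u i == 0))) &&
  (zs.any fun i => dg e.s.u i == 0) && flipB (flL e) e.s.S (rOf e.s.u 6) &&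
  eqS (flipRs (flL e) e.s.S) (stt e.m e.u)

/-- the properties of the source; the corners `z` are excluded -/
structure SrcZ (z : ZMod 6 → Bool) (e : Ent) (r' : ZMod 6 → ℕ) (l : List (ZMod 6)) : Prop where
  ex : ExS (fun i => z i = false ∧ KN (on e.N) i) e.s.S r'
  inv : ∀ k, e.s.S.m (e.s.S.m k) = k ∧ e.s.S.m k ≠ k
  nd : l.Nodup
  mem : ∀ c, c ∈ l ↔ reN (on e.N) (on e.C) c = true ∧ r' c = 1
  flip : FlipOK l e.s.S r'
  thr : ∀ c, thrN (on e.N) (on e.C) c = true → (flipRs l e.s.S).u c ≠ 0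
  fs : flipRs l e.s.S = stt e.m e.u
  fr : fliprs l r' = dg e.r'

theorem srcB_sound {z : ZMod 6 → Bool} {e : Ent} (h : srcB z e = true) :
    SrcZ z e (rOf e.s.u 6) (flL e) := by
  unfold srcB at h
  simp only [Bool.and_eq_true] at h
  obtain ⟨⟨⟨h1, h2⟩, h3⟩, h4⟩ := h
  rw [all6_iff] at h1
  simp only [Bool.and_eq_true, beq_iff_eq] at h1
  rw [eqS_iff] at h4
  refine ⟨⟨fun i => (h1 i).1.1.1.1, fun i => le1_iff.1 (h1 i).1.1.1.2, ?_, fun i hi => ?_⟩,
    fun k => stt_mm e.s.m e.s.u k, ?_, fun c => ?_, flipB_iff h3, fun c hc => ?_, h4,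
    funext fun k => (h1 k).1.2⟩
  · rw [List.any_eq_true] at h2
    obtain ⟨i, -, hi⟩ := h2
    exact ⟨i, beq_iff_eq.1 hi⟩
  · have h5 := imp_or (h1 i).1.1.2 (by rw [hi.1, hi.2.1, hi.2.2]; rfl)
    rw [Bool.not_eq_true', beq_eq_false_iff_ne] at h5
    exact h5
  · unfold flL
    exact List.Nodup.filter _ (by decide)
  · unfold flL
    rw [List.mem_filter, Bool.and_eq_true, beq_iff_eq]
    exact ⟨fun h => h.2, fun h => ⟨mem_zs c, h⟩⟩
  · have h5 := imp_or (h1 c).2 hc
    rw [Bool.not_eq_true', beq_eq_false_iff_ne] at h5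
    rw [h4]
    exact h5

/-- **the check of an entry and its source** -/
theorem entryOK_of {T : List SRow} {BL : List (Fc × Alt)} (hBL : ∀ p ∈ BL, Fact T p.1 p.2)
    {gl : List Alt} {e : Ent} (h1 : srcB (fun _ => false) e = true) (h2 : entOK BL gl e = true) :
    EntryOK (GoodS T) (ClS gl) (on e.N) (on e.C) e.s.F e.s.S := by
  have h3 := srcB_sound h1
  have h4 : (fun i => (fun _ => false) i = false ∧ KN (on e.N) i) = KN (on e.N) :=
    funext fun i => propext ⟨fun h => h.2, fun h => ⟨rfl, h⟩⟩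
  refine ⟨_, _, ⟨?_, h3.inv, h3.nd, h3.mem, h3.flip, h3.thr⟩, ?_⟩
  · have h5 := h3.ex
    rw [h4] at h5
    exact h5
  · rw [h3.fs, h3.fr]
    intro t ρ hs
    obtain ⟨ch, -, x, hx, h5, h6⟩ := ent_sound hBL h2 hs
    exact ⟨x.F, x.S, fun b hb => ⟨x, List.mem_of_getElem? hx, hb⟩, _, _, 2, 1, _, h5, h6⟩

end Chk

end GT33
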