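import Pool.Agent.GT33.PeelF
import Pool.Agent.GT33.Chk

/-!
# GT33 module CHKR: the matchings of the rest and the strands, in decidable form

Ports are numbers below 36, sets of ports are numbers in binary.  `clo`: closure under a list of edges.  `enum`: all
matchings of a list of ports.
-/

namespace GT33

namespace Chk

/-- the port with the number `n` -/
def pt (n : ℕ) : Pt := (⟨n / 6 % 6, Nat.mod_lt _ (by decide)⟩, nd n)

/-- the number of a port -/
def cd (x : Pt) : ℕ := 6 * x.1.val + x.2.val

theorem pt_cd (x : Pt) : pt (cd x) = x := by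
  revert x
  decide

theorem cd_lt (x : Pt) : cd x < 36 := by
  revert x
  decide

theorem cd_inj {x y : Pt} (h : cd x = cd y) : x = y := by rw [← pt_cd x, h, pt_cd]

/-- add the ends of an edge -/
def stepM (m : ℕ) (e : ℕ × ℕ) : ℕ :=
  bif m.testBit e.1 || m.testBit e.2 then m ||| 2 ^ e.1 ||| 2 ^ e.2 else m

/-- the closure under a list of edges -/
def clo (E : List (ℕ × ℕ)) : ℕ → ℕ → ℕ
  | 0, m => m
  | n + 1, m => bif E.foldl stepM m == m then m else clo E n (E.foldl stepM m)

section closure

variable {R : Pt → Pt → Prop} {x : Pt}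

theorem stepM_sound {m : ℕ} {e : ℕ × ℕ} (he : Relation.EqvGen R (pt e.1) (pt e.2))
    (hm : ∀ b, m.testBit b = true → Relation.EqvGen R x (pt b)) (b : ℕ)
    (hb : (stepM m e).testBit b = true) : Relation.EqvGen R x (pt b) := by
  unfold stepM at hb
  cases h : (m.testBit e.1 || m.testBit e.2) with
  | false =>
    rw [h, cond_false] at hb
    exact hm b hb
  | true =>
    rw [h, cond_true, Nat.testBit_or, Nat.testBit_or, Nat.testBit_two_pow, Nat.testBit_two_pow,
      Bool.or_eq_true, Bool.or_eq_true, decide_eq_true_eq, decide_eq_true_eq] at hb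
    have h1 : Relation.EqvGen R x (pt e.1) ∧ Relation.EqvGen R x (pt e.2) := by
      rw [Bool.or_eq_true] at h
      rcases h with h | h
      · exact ⟨hm _ h, (hm _ h).trans _ _ _ he⟩
      · exact ⟨(hm _ h).trans _ _ _ he.symm, hm _ h⟩
    rcases hb with (hb | hb) | hb
    · exact hm b hb
    · rw [← hb]
      exact h1.1
    · rw [← hb]
      exact h1.2

theorem pass_sound : ∀ (E : List (ℕ × ℕ)) (m : ℕ),
    (∀ e ∈ E, Relation.EqvGen R (pt e.1) (pt e.2)) →
    (∀ b, m.testBit b = true → Relation.EqvGen R x (pt b)) →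
    ∀ b, (E.foldl stepM m).testBit b = true → Relation.EqvGen R x (pt b)
  | [], _, _, hm => hm
  | e :: E, m, hE, hm => pass_sound E (stepM m e) (fun e' h => hE e' (List.mem_cons_of_mem _ h))
      (stepM_sound (hE e List.mem_cons_self) hm)

theorem clo_sound {E : List (ℕ × ℕ)} (hE : ∀ e ∈ E, Relation.EqvGen R (pt e.1) (pt e.2)) :
    ∀ (n m : ℕ), (∀ b, m.testBit b = true → Relation.EqvGen R x (pt b)) →
    ∀ b, (clo E n m).testBit b = true → Relation.EqvGen R x (pt b)
  | 0, _, hm => hm
  | n + 1, m, hm => by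
    intro b hb
    unfold clo at hb
    cases h : (E.foldl stepM m == m) with
    | true =>
      rw [h, cond_true] at hb
      exact hm b hb
    | false =>
      rw [h, cond_false] at hb
      exact clo_sound hE n _ (pass_sound E m hE hm) b hb

/-- the closure of a port -/
theorem clo_one {E : List (ℕ × ℕ)} (hE : ∀ e ∈ E, Relation.EqvGen R (pt e.1) (pt e.2)) {n a b : ℕ}
    (hb : (clo E n (2 ^ a)).testBit b = true) : Relation.EqvGen R (pt a) (pt b) := by
  refine clo_sound hE n _ (fun b h => ?_) b hb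
  rw [Nat.testBit_two_pow, decide_eq_true_eq] at h
  rw [h]
  exact Relation.EqvGen.refl _

/-- a set of ports without leaving edges -/
theorem inv_of {R : Pt → Pt → Prop} {m : ℕ} (h : ∀ x y, R x y → m.testBit (cd x) = m.testBit (cd y))
    {x y : Pt} (hxy : Relation.EqvGen R x y) : m.testBit (cd x) = m.testBit (cd y) := by
  induction hxy with
  | rel x y hxy => exact h x y hxy
  | refl x => rfl
  | symm x y _ ih => exact ih.symm
  | trans x y z _ _ ih1 ih2 => exact ih1.trans ih2

end closure

/-! ### all matchings -/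

/-- a test for all matchings of the list of ports -/
def enum (bad : ℕ → ℕ → Bool) (k : List (ℕ × ℕ) → Bool) : ℕ → List ℕ → List (ℕ × ℕ) → Bool
  | 0, _, _ => false
  | _ + 1, [], acc => k acc
  | n + 1, x :: ps, acc => ps.all fun y => bad x y || enum bad k n (ps.erase y) ((x, y) :: acc)

/-- the state of the enumeration -/
structure EInv (V : ℕ → Prop) (ρ : ℕ → ℕ) (P : List ℕ) (acc : List (ℕ × ℕ)) : Prop where
  nd : P.Nodup
  ps : ∀ n ∈ P, V n ∧ ∀ e ∈ acc, n ≠ e.1 ∧ n ≠ e.2
  all : ∀ n, V n → n ∈ P ∨ ∃ e ∈ acc, n = e.1 ∨ n = e.2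
  acc : ∀ e ∈ acc, V e.1 ∧ V e.2 ∧ ρ e.1 = e.2 ∧ ρ e.2 = e.1

theorem enum_sound {V : ℕ → Prop} {ρ : ℕ → ℕ} (hV : ∀ n, V n → V (ρ n) ∧ ρ (ρ n) = n ∧ ρ n ≠ n)
    {bad : ℕ → ℕ → Bool} {k : List (ℕ × ℕ) → Bool}
    (hbad : ∀ x, V x → bad x (ρ x) = false) :
    ∀ (n : ℕ) (ps : List ℕ) (acc : List (ℕ × ℕ)), EInv V ρ ps acc → enum bad k n ps acc = true →
    ∃ acc, EInv V ρ [] acc ∧ k acc = true
  | 0, _, _, _, h => by simp [enum] at h
  | _ + 1, [], acc, hI, h => ⟨acc, hI, h⟩
  | n + 1, x :: ps, acc, hI, h => by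
    have hx := hI.ps x List.mem_cons_self
    obtain ⟨h1, h2, h3⟩ := hV x hx.1
    have hnd := List.nodup_cons.1 hI.nd
    have hy : ρ x ∈ ps := by
      rcases hI.all _ h1 with h4 | ⟨e, he, h4⟩
      · rcases List.mem_cons.1 h4 with h5 | h5
        · exact absurd h5 h3
        · exact h5
      · exfalso
        obtain ⟨-, -, h5, h6⟩ := hI.acc e he
        rcases h4 with h4 | h4
        · rw [← h4, h2] at h5
          exact (hx.2 e he).2 h5
        · rw [← h4, h2] at h6
          exact (hx.2 e he).1 h6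
    unfold enum at h
    rw [List.all_eq_true] at h
    have h4 := h _ hy
    rw [hbad x hx.1, Bool.false_or] at h4
    refine enum_sound hV hbad n _ _ ⟨hnd.2.erase _, fun m hm => ?_, fun m hm => ?_, fun e he => ?_⟩ h4
    · obtain ⟨h5, h6⟩ := (hnd.2.mem_erase_iff).1 hm
      obtain ⟨h7, h8⟩ := hI.ps m (List.mem_cons_of_mem _ h6)
      refine ⟨h7, fun e he => ?_⟩
      rcases List.mem_cons.1 he with rfl | he
      · exact ⟨fun h9 => hnd.1 (by rw [← show m = x from h9]; exact h6), h5⟩
      · exact h8 e he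
    · rcases hI.all m hm with h5 | ⟨e, he, h5⟩
      · rcases List.mem_cons.1 h5 with h6 | h6
        · exact Or.inr ⟨_, List.mem_cons_self, Or.inl h6⟩
        · by_cases h7 : m = ρ x
          · exact Or.inr ⟨_, List.mem_cons_self, Or.inr h7⟩
          · exact Or.inl ((hnd.2.mem_erase_iff).2 ⟨h7, h6⟩)
      · exact Or.inr ⟨e, List.mem_cons_of_mem _ he, h5⟩
    · rcases List.mem_cons.1 he with rfl | he
      · exact ⟨hx.1, h1, rfl, h2⟩
      · exact hI.acc e he

/-- the partner in a complete matching -/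
theorem EInv.mem {V : ℕ → Prop} {ρ : ℕ → ℕ} {acc : List (ℕ × ℕ)} (h : EInv V ρ [] acc) {n : ℕ}
    (hn : V n) : (n, ρ n) ∈ acc ∨ (ρ n, n) ∈ acc := by
  rcases h.all n hn with h1 | ⟨e, he, h1⟩
  · simp at h1
  · obtain ⟨-, -, h2, h3⟩ := h.acc e he
    rcases h1 with rfl | rfl
    · left
      rw [h2]
      exact he
    · right
      rw [h3]
      exact he

/-! ### the matchings of the rest -/

/-- all ring nodes -/
def zs : List (ZMod 6) := [0, 1, 2, 3, 4, 5]

theorem mem_zs (k : ZMod 6) : k ∈ zs := by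
  revert k
  decide

/-- two ring edges of the folded map which are not matched by `sm` -/
def badP (sm : ZMod 6 → ZMod 6) (x y : ℕ) : Bool :=
  (x / 6 == 2) && (y / 6 == 2) && !(y == 12 + (sm (nd x)).val)

/-- no edge leaves the set -/
def closedM (m : ℕ) (E : List (ℕ × ℕ)) : Bool := E.all fun e => m.testBit e.1 == m.testBit e.2

/-- the matching does not belong to the state of the folded map -/
def contra (vps : List ℕ) (sm : ZMod 6 → ZMod 6) (E : List (ℕ × ℕ)) : Bool :=
  (zs.any fun k => closedM (clo E 12 (2 ^ (12 + k.val))) E &&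
    !(clo E 12 (2 ^ (12 + k.val))).testBit (12 + (sm k).val)) ||
  (vps.any fun x => closedM (clo E 12 (2 ^ x)) E &&
    zs.all fun k => !(clo E 12 (2 ^ x)).testBit (12 + k.val))

theorem cd_two (k : ZMod 6) : cd (2, k) = 12 + k.val := rfl

/-- the ports of the rest, as a list -/
def vpOK (L : ZMod 6 → Bool) (vps : List ℕ) : Bool :=
  decide vps.Nodup && (vps.all fun n => decide (n < 36)) &&
    (List.range 36).all fun n => vp L (pt n) == vps.contains n

section rho

variable {L : ZMod 6 → Bool} {ρ : Pt → Pt} {sm : ZMod 6 → ZMod 6} {tm : ZMod 6 → ZMod 4 → ZMod 4}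
  (rv : ∀ x, vp L x = true → vp L (ρ x) = true ∧ ρ (ρ x) = x ∧ ρ x ≠ x)
  (rs : ∀ k, Relation.EqvGen (SStep L ρ tm) (2, k) (2, sm k))
  (ra : ∀ x, vp L x = true → ∃ k, Relation.EqvGen (SStep L ρ tm) x (2, k))

theorem two_bits (a b n : ℕ) : (2 ^ a ||| 2 ^ b).testBit n = (decide (a = n) || decide (b = n)) := by
  rw [Nat.testBit_or, Nat.testBit_two_pow, Nat.testBit_two_pow]

include rv rs in
/-- two ring edges which are matched in the rest are matched by the state -/
theorem rho_two (hsm : ∀ k, sm k ≠ k) {i j : ZMod 6} (hi : vp L (2, i) = true)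
    (h : ρ (2, i) = (2, j)) : sm i = j := by
  obtain ⟨h1, h2, h3⟩ := rv _ hi
  rw [h] at h1 h2 h3
  have hb := inv_of (m := 2 ^ cd (2, i) ||| 2 ^ cd (2, j)) (fun x y hxy => ?_) (rs i)
  · rw [two_bits, two_bits] at hb
    simp only [decide_true, Bool.true_or] at hb
    have hb := hb.symm
    rw [Bool.or_eq_true, decide_eq_true_eq, decide_eq_true_eq] at hb
    rcases hb with hb | hb
    · exact absurd (congrArg Prod.snd (cd_inj hb)).symm (hsm i)
    · exact (congrArg Prod.snd (cd_inj hb)).symm
  · rw [two_bits, two_bits]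
    have key : ∀ u v : Pt, decide (cd u = cd v) = decide (u = v) := fun u v => by
      by_cases huv : u = v
      · simp [huv]
      · rw [decide_eq_false huv, decide_eq_false fun h => huv (cd_inj h)]
    rw [key, key, key, key]
    rcases hxy with ⟨hx, rfl⟩ | ⟨c, n, hc, rfl, rfl⟩
    · obtain ⟨-, h4, -⟩ := rv x hx
      by_cases hxi : x = (2, i)
      · subst hxi
        rw [h]
        simp
      · by_cases hxj : x = (2, j)
        · subst hxj
          rw [h2]
          simp
        · have e1 : (2, i) ≠ ρ x := fun h5 => hxj (by rw [← h4, ← h5, h])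
          have e2 : (2, j) ≠ ρ x := fun h5 => hxi (by rw [← h4, ← h5, h2])
          rw [decide_eq_false fun h => hxi h.symm, decide_eq_false fun h => hxj h.symm,
            decide_eq_false e1, decide_eq_false e2]
    · have hno : ∀ (m : ZMod 4) (k : ZMod 6), vp L (2, k) = true → (2, k) ≠ kp c m := by
        intro m k hk h5
        obtain ⟨rfl, rfl⟩ := DMap.Gen.kp_two h5.symm
        rw [vp_two, add_sub_cancel_right, hc] at hk
        exact absurd hk (by decide)
      rw [decide_eq_false (hno n i hi), decide_eq_false (hno n j h1),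
        decide_eq_false (hno _ i hi), decide_eq_false (hno _ j h1)]

/-- a complete list of edges of the folded map -/
def CovE (L : ZMod 6 → Bool) (ρ : Pt → Pt) (tm : ZMod 6 → ZMod 4 → ZMod 4) (E : List (ℕ × ℕ)) : Prop :=
  ∀ x y, SStep L ρ tm x y → (cd x, cd y) ∈ E ∨ (cd y, cd x) ∈ E ∨ x = y

theorem closed_inv {E : List (ℕ × ℕ)} (hE : CovE L ρ tm E) {m : ℕ} (hm : closedM m E = true)
    {x y : Pt} (h : Relation.EqvGen (SStep L ρ tm) x y) : m.testBit (cd x) = m.testBit (cd y) := by
  unfold closedM at hm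
  rw [List.all_eq_true] at hm
  refine inv_of (fun x y hxy => ?_) h
  rcases hE x y hxy with h1 | h1 | h1
  · simpa using hm _ h1
  · have := hm _ h1
    simp only [beq_iff_eq] at this
    exact this.symm
  · rw [h1]

include rs ra in
theorem contra_false {E : List (ℕ × ℕ)} (hE : CovE L ρ tm E)
    {vps : List ℕ} (hv : ∀ n ∈ vps, vp L (pt n) = true ∧ n < 36) : contra vps sm E = false := by
  by_contra hno
  rw [Bool.not_eq_false] at hno
  unfold contra at hno
  rw [Bool.or_eq_true, List.any_eq_true, List.any_eq_true] at hno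
  have hself : ∀ (n a : ℕ), (clo E n (2 ^ a)).testBit a = true := by
    intro n a
    have h0 : ∀ (m : ℕ) (e : ℕ × ℕ) (b : ℕ), m.testBit b = true → (stepM m e).testBit b = true := by
      intro m e b hb
      unfold stepM
      cases (m.testBit e.1 || m.testBit e.2)
      · rwa [cond_false]
      · rw [cond_true, Nat.testBit_or, Nat.testBit_or, hb]
        simp
    have h1 : ∀ (E' : List (ℕ × ℕ)) (m b : ℕ), m.testBit b = true →
        (E'.foldl stepM m).testBit b = true := by
      intro E'
      induction E' with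
      | nil => exact fun m b hb => hb
      | cons e E' ih => exact fun m b hb => ih _ _ (h0 m e b hb)
    have h2 : ∀ (n m b : ℕ), m.testBit b = true → (clo E n m).testBit b = true := by
      intro n
      induction n with
      | zero => exact fun m b hb => hb
      | succ n ih =>
        intro m b hb
        unfold clo
        cases (E.foldl stepM m == m)
        · rw [cond_false]
          exact ih _ _ (h1 _ _ _ hb)
        · rwa [cond_true]
    refine h2 n _ a ?_
    rw [Nat.testBit_two_pow]
    exact decide_eq_true rfl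
  rcases hno with ⟨k, -, h⟩ | ⟨n, hn, h⟩
  · rw [Bool.and_eq_true] at h
    have h1 := closed_inv hE h.1 (rs k)
    rw [cd_two, cd_two, hself] at h1
    have h2 := h.2
    rw [← h1] at h2
    exact absurd h2 (by decide)
  · rw [Bool.and_eq_true, List.all_eq_true] at h
    obtain ⟨h1, h2⟩ := hv n hn
    obtain ⟨k, hk⟩ := ra _ h1
    have h3 := closed_inv hE h.1 hk
    have hcd : cd (pt n) = n := by
      have : ∀ n < 36, cd (pt n) = n := by decide
      exact this n h2
    rw [hcd, hself, cd_two] at h3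
    have h4 := h.2 k (mem_zs k)
    rw [← h3] at h4
    exact absurd h4 (by decide)

include rv rs ra in
/-- **the check for all matchings of the rest** -/
theorem rho_check (hsm : ∀ k, sm k ≠ k) {vps : List ℕ} (hv : vpOK L vps = true)
    {tE : List (ℕ × ℕ)} (hE : ∀ c n, L c = true → (cd (kp c n), cd (kp c (tm c n))) ∈ tE ∨
      (cd (kp c (tm c n)), cd (kp c n)) ∈ tE)
    {k : List (ℕ × ℕ) → Bool} {m : ℕ}
    (h : enum (badP sm) (fun acc => k acc || contra vps sm (acc ++ tE)) m vps [] = true) :
    ∃ acc, k acc = true ∧ ∀ e ∈ acc, vp L (pt e.1) = true ∧ pt e.2 = ρ (pt e.1) := by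
  unfold vpOK at hv
  rw [Bool.and_eq_true, Bool.and_eq_true, decide_eq_true_eq, List.all_eq_true,
    List.all_eq_true] at hv
  obtain ⟨⟨hnd, hlt⟩, hmem⟩ := hv
  have hlt' : ∀ n ∈ vps, n < 36 := fun n hn => by simpa using hlt n hn
  have hcp : ∀ n < 36, cd (pt n) = n := by decide
  have hmem' : ∀ n < 36, (vp L (pt n) = true ↔ n ∈ vps) := by
    intro n hn
    have h1 := hmem n (List.mem_range.2 hn)
    rw [beq_iff_eq] at h1
    rw [h1]
    simp
  obtain ⟨acc, hI, hk⟩ := enum_sound (V := fun n => n < 36 ∧ vp L (pt n) = true)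
    (ρ := fun n => cd (ρ (pt n))) (bad := badP sm)
    (k := fun acc => k acc || contra vps sm (acc ++ tE)) (fun n hn => by
      obtain ⟨h1, h2, h3⟩ := rv _ hn.2
      refine ⟨⟨cd_lt _, by rw [pt_cd]; exact h1⟩, ?_, fun h4 => h3 ?_⟩
      · show cd (ρ (pt (cd (ρ (pt n))))) = n
        rw [pt_cd, h2, hcp n hn.1]
      · rw [← pt_cd (ρ (pt n)), h4]) (fun n hn => by
      by_contra hno
      rw [Bool.not_eq_false] at hno
      unfold badP at hno
      rw [Bool.and_eq_true, Bool.and_eq_true, beq_iff_eq, beq_iff_eq] at hno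
      obtain ⟨⟨h1, h2⟩, h3⟩ := hno
      have key : ∀ n < 36, n / 6 = 2 → pt n = (2, nd n) := by decide
      have e1 := key n hn.1 h1
      have e2 := key _ (cd_lt _) h2
      rw [pt_cd] at e2
      have e3 := rho_two rv rs hsm (i := nd n) (j := nd (cd (ρ (pt n)))) (by rw [← e1]; exact hn.2)
        (by rw [← e1]; exact e2)
      rw [e3, ← cd_two, ← e2] at h3
      simp at h3) m vps [] ⟨hnd, fun n hn => ⟨⟨hlt' n hn, (hmem' n (hlt' n hn)).2 hn⟩, by simp⟩,
        fun n hn => Or.inl ((hmem' n hn.1).1 hn.2), by simp⟩ h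
  have hacc : ∀ e ∈ acc, vp L (pt e.1) = true ∧ pt e.2 = ρ (pt e.1) := by
    intro e he
    obtain ⟨h1, -, h3, -⟩ := hI.acc e he
    exact ⟨h1.2, by rw [← h3, pt_cd]⟩
  refine ⟨acc, ?_, hacc⟩
  rw [Bool.or_eq_true] at hk
  rcases hk with hk | hk
  · exact hk
  · exfalso
    rw [contra_false rs ra (fun x y hxy => ?_) (vps := vps) fun n hn =>
      ⟨(hmem' n (hlt' n hn)).2 hn, hlt' n hn⟩] at hk
    · exact absurd hk (by decide)
    · rcases hxy with ⟨h1, rfl⟩ | ⟨c, n, hc, rfl, rfl⟩
      · have h2 := hI.mem (n := cd x) ⟨cd_lt x, by rw [pt_cd]; exact h1⟩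
        rw [pt_cd] at h2
        rcases h2 with h2 | h2
        · exact Or.inl (List.mem_append_left _ h2)
        · exact Or.inr (Or.inl (List.mem_append_left _ h2))
      · rcases hE c n hc with h2 | h2
        · exact Or.inl (List.mem_append_right _ h2)
        · exact Or.inr (Or.inl (List.mem_append_right _ h2))

end rho

/-! ### the strands of the lifted state -/

/-- the edges of the lifted state besides the rest -/
def fixE (L T a : ZMod 6 → Bool) (w : ZMod 6 → ZMod 6 → ZMod 6) : List (ℕ × ℕ) :=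
  zs.flatMap fun k =>
    (bif a k && !L (k - 1) && !T (k - 1) then [(cd (0, k), cd (1, k))] else []) ++
    ((bif a k && !T k && !T (k - 1) then [(cd (2, k), cd (1, k - 1))] else []) ++
    ((bif a k then [] else [(cd (0, k), cd (1, k - 1)), (cd (2, k), cd (1, k))]) ++
    (bif L k || T k then (zs.filter fun i => decide (i.val < (w k i).val)).map
      (fun i => (cd (cp (T k) k i), cd (cp (T k) k (w k i)))) else [])))

theorem mem_cond {α : Type} {b : Bool} {x : α} {l : List α} (h : x ∈ (bif b then l else [])) :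
    b = true ∧ x ∈ l := by
  cases b
  · simp at h
  · exact ⟨rfl, h⟩

theorem fixE_sound {L T a : ZMod 6 → Bool} {w : ZMod 6 → ZMod 6 → ZMod 6} {ρ : Pt → Pt} {e : ℕ × ℕ}
    (h : e ∈ fixE L T a w) : PStepG L T a ρ w (pt e.1) (pt e.2) := by
  unfold fixE at h
  rw [List.mem_flatMap] at h
  obtain ⟨k, -, h⟩ := h
  rw [List.mem_append, List.mem_append, List.mem_append] at h
  rcases h with h | h | h | h
  · obtain ⟨h1, h2⟩ := mem_cond h
    simp only [Bool.and_eq_true, Bool.not_eq_true'] at h1
    rw [List.mem_singleton] at h2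
    subst h2
    exact Or.inl ⟨k, h1.1.1, h1.1.2, h1.2, pt_cd _, pt_cd _⟩
  · obtain ⟨h1, h2⟩ := mem_cond h
    simp only [Bool.and_eq_true, Bool.not_eq_true'] at h1
    rw [List.mem_singleton] at h2
    subst h2
    exact Or.inr (Or.inl ⟨k, h1.1.1, h1.1.2, h1.2, pt_cd _, pt_cd _⟩)
  · cases ha : a k with
    | true =>
      rw [ha, cond_true] at h
      simp at h
    | false =>
      rw [ha, cond_false, List.mem_cons, List.mem_singleton] at h
      rcases h with rfl | rfl
      · exact Or.inr (Or.inr (Or.inl ⟨k, ha, pt_cd _, pt_cd _⟩))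
      · exact Or.inr (Or.inr (Or.inr (Or.inl ⟨k, ha, pt_cd _, pt_cd _⟩)))
  · obtain ⟨h1, h2⟩ := mem_cond h
    rw [Bool.or_eq_true] at h1
    rw [List.mem_map] at h2
    obtain ⟨i, -, rfl⟩ := h2
    exact Or.inr (Or.inr (Or.inr (Or.inr (Or.inr ⟨k, i, h1, pt_cd _, pt_cd _⟩))))

/-- the strands of the ring edges in the list, and the union of their ports -/
def scan (E : List (ℕ × ℕ)) (sm : ZMod 6 → ZMod 6) : List (ZMod 6) → ℕ → Option ℕ
  | [], U => some U
  | k :: ks, U => bif decide ((sm k).val < k.val) then scan E sm ks U else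
      bif (clo E 20 (2 ^ k.val)).testBit (sm k).val then scan E sm ks (U ||| clo E 20 (2 ^ k.val))
      else none

theorem scan_sound {R : Pt → Pt → Prop} {E : List (ℕ × ℕ)} {sm : ZMod 6 → ZMod 6}
    (hE : ∀ e ∈ E, Relation.EqvGen R (pt e.1) (pt e.2)) :
    ∀ (ks : List (ZMod 6)) (U U' : ℕ), scan E sm ks U = some U' →
    (∀ k ∈ ks, (sm k).val < k.val ∨ Relation.EqvGen R (0, k) (0, sm k)) ∧
      ∀ b, U'.testBit b = true → U.testBit b = true ∨ ∃ k, Relation.EqvGen R (pt b) (0, k)
  | [], U, U', h => by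
    simp only [scan, Option.some.injEq] at h
    subst h
    exact ⟨by simp, fun b hb => Or.inl hb⟩
  | k :: ks, U, U', h => by
    have h0 : ∀ k : ZMod 6, pt k.val = (0, k) := by decide
    unfold scan at h
    by_cases h1 : (sm k).val < k.val
    · rw [decide_eq_true h1, cond_true] at h
      obtain ⟨h2, h3⟩ := scan_sound hE ks U U' h
      refine ⟨fun j hj => ?_, h3⟩
      rcases List.mem_cons.1 hj with rfl | hj
      · exact Or.inl h1
      · exact h2 j hj
    · rw [decide_eq_false h1, cond_false] at h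
      cases h4 : (clo E 20 (2 ^ k.val)).testBit (sm k).val with
      | false =>
        rw [h4, cond_false] at h
        exact absurd h (by simp)
      | true =>
        rw [h4, cond_true] at h
        obtain ⟨h2, h3⟩ := scan_sound hE ks _ U' h
        refine ⟨fun j hj => ?_, fun b hb => ?_⟩
        · rcases List.mem_cons.1 hj with rfl | hj
          · right
            have := clo_one hE h4
            rwa [h0, h0] at this
          · exact h2 j hj
        · rcases h3 b hb with h5 | h5
          · rw [Nat.testBit_or, Bool.or_eq_true] at h5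
            rcases h5 with h5 | h5
            · exact Or.inl h5
            · right
              refine ⟨k, ?_⟩
              have := clo_one hE h5
              rw [h0] at this
              exact this.symm
          · exact Or.inr h5

/-- the strands of the lifted state are right -/
def portOK (L : ZMod 6 → Bool) (ups : List ℕ) (sm : ZMod 6 → ZMod 6) (E : List (ℕ × ℕ)) : Bool :=
  match scan E sm zs 0 with
  | some U => ups.all fun n => U.testBit n
  | none => false

/-- the ports of the lifted state, as a list -/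
def upOK (L : ZMod 6 → Bool) (ups : List ℕ) : Bool :=
  (List.range 36).all fun n => !up L (pt n) || ups.contains n

theorem portOK_sound {L T a : ZMod 6 → Bool} {w : ZMod 6 → ZMod 6 → ZMod 6} {ρ : Pt → Pt}
    {ups : List ℕ} {sm : ZMod 6 → ZMod 6} {E acc : List (ℕ × ℕ)} (hsm : ∀ k, sm (sm k) = k)
    (hu : upOK L ups = true) (hE : E = fixE L T a w)
    (hacc : ∀ e ∈ acc, vp L (pt e.1) = true ∧ pt e.2 = ρ (pt e.1))
    (h : portOK L ups sm (acc ++ E) = true) :
    (∀ k, Relation.EqvGen (PStepG L T a ρ w) (0, k) (0, sm k)) ∧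
      ∀ x, up L x = true → ∃ k, Relation.EqvGen (PStepG L T a ρ w) x (0, k) := by
  have hEE : ∀ e ∈ acc ++ E, Relation.EqvGen (PStepG L T a ρ w) (pt e.1) (pt e.2) := by
    intro e he
    rcases List.mem_append.1 he with he | he
    · obtain ⟨h1, h2⟩ := hacc e he
      exact Relation.EqvGen.rel _ _ (Or.inr (Or.inr (Or.inr (Or.inr (Or.inl ⟨h1, h2⟩)))))
    · rw [hE] at he
      exact Relation.EqvGen.rel _ _ (fixE_sound he)
  unfold portOK at h
  cases hs : scan (acc ++ E) sm zs 0 with
  | none =>
    rw [hs] at h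
    simp at h
  | some U =>
    rw [hs] at h
    simp only [List.all_eq_true] at h
    obtain ⟨h1, h2⟩ := scan_sound hEE zs 0 U hs
    refine ⟨fun k => ?_, fun x hx => ?_⟩
    · rcases h1 k (mem_zs k) with h3 | h3
      · rcases h1 (sm k) (mem_zs _) with h4 | h4
        · rw [hsm] at h4
          omega
        · rw [hsm] at h4
          exact h4.symm
      · exact h3
    · unfold upOK at hu
      rw [List.all_eq_true] at hu
      have h3 := hu (cd x) (List.mem_range.2 (cd_lt x))
      rw [pt_cd, hx] at h3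
      simp only [Bool.not_true, Bool.false_or, List.contains_iff_mem] at h3
      rcases h2 (cd x) (h _ h3) with h4 | ⟨k, h4⟩
      · simp at h4
      · rw [pt_cd] at h4
        exact ⟨k, h4⟩

end Chk

end GT33
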