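import Pool.Agent.GT33.Chk

/-!
# GT33 module CHKT: decision trees over the rows of several components

A rule of the induction has finitely many components (sub-objects, boxes); each component realises at least one
alternative of every clause which is available for it.  Whether a clause is available depends on the corner set of the
component; the known facts about the corner set are carried along.  A certificate is a decision tree in prefix order:
`Ins.node c src rot`: use the row `src`, rotated by `rot`, of the component `c`, one subtree for each alternative;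
`Ins.case c j`: the node `j` of the component `c` is a corner (first subtree) or not (second subtree);
`Ins.leaf t x`: finish with the target alternative `t`, using for the component `c` the known alternative `x[c]`
(the last one first).  `run` checks the tree, `run_sound` is its soundness.
-/

namespace GT33

namespace Chk

/-- facts about a corner set: the node is a corner or not -/
abbrev Fc := List (ZMod 6 × Bool)

/-- the facts hold for the corner set `K` -/
def FcOk (K : ZMod 6 → Prop) (f : Fc) : Prop := ∀ p ∈ f, p.2 = true ↔ K p.1

/-- a component: known facts and known alternatives -/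
abbrev Cmp := Fc × List (ZMod 6 × Alt)

/-- nodes of decision trees -/
inductive Ins where
  /-- the target alternative and the used alternatives of the components -/
  | leaf (t : ℕ) (x : List ℕ)
  /-- a row of a component -/
  | node (c src rot : ℕ)
  /-- a node of a component is a corner or not -/
  | case (c j : ℕ)

/-- the used alternatives -/
def pick : List Cmp → List ℕ → Option (List (ZMod 6 × Alt))
  | [], _ => some []
  | _ :: _, [] => none
  | e :: E, x :: X => match e.2[x]? with
    | some a => match pick E X with
      | some l => some (a :: l)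
      | none => none
    | none => none

/-- a change of the component `c` -/
def updE (g : Cmp → Cmp) : List Cmp → ℕ → List Cmp
  | [], _ => []
  | e :: E, 0 => g e :: E
  | e :: E, c + 1 => e :: updE g E c

/-- the facts of the component `c` -/
def fcE : List Cmp → ℕ → Fc
  | [], _ => []
  | e :: _, 0 => e.1
  | _ :: E, c + 1 => fcE E c

/-- a new known alternative -/
def addA (a : ZMod 6 × Alt) (e : Cmp) : Cmp := (e.1, a :: e.2)

/-- a new fact -/
def addF (j : ZMod 6) (x : Bool) (e : Cmp) : Cmp :=
  (bif x then (j, true) :: (j + 1, false) :: (j - 1, false) :: e.1 else (j, false) :: e.1, e.2)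

/-- all alternatives of a row -/
def foldAlt (f : ZMod 6 × Alt → List Ins → Option (List Ins)) (r : ZMod 6) :
    List Alt → List Ins → Option (List Ins)
  | [], l => some l
  | a :: c, l => match f (r, a) l with
    | some l' => foldAlt f r c l'
    | none => none

/-- the check of a decision tree; `cl c f src r` is the clause of the row `src` for the component `c` with the facts `f`
and the rotation `r`, if it is available; the result is the rest of the list -/
def run (cl : ℕ → Fc → ℕ → ZMod 6 → Option (List Alt)) (ok : List (ZMod 6 × Alt) → ℕ → Bool) :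
    ℕ → List Cmp → List Ins → Option (List Ins)
  | 0, _, _ => none
  | _ + 1, _, [] => none
  | _ + 1, E, .leaf t x :: l => match pick E x with
    | some s => bif ok s t then some l else none
    | none => none
  | n + 1, E, .node c src rot :: l => match cl c (fcE E c) src (nd rot) with
    | some s => foldAlt (fun a l => run cl ok n (updE (addA a) E c) l) (nd rot) s l
    | none => none
  | n + 1, E, .case c j :: l => match run cl ok n (updE (addF (nd j) true) E c) l with
    | some l' => run cl ok n (updE (addF (nd j) false) E c) l'
    | none => none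

theorem mem_pick {R : ℕ → ZMod 6 → Alt → Prop} : ∀ (E : List Cmp) (x : List ℕ)
    (s : List (ZMod 6 × Alt)) (k : ℕ), pick E x = some s →
    (∀ c e p, E[c]? = some e → p ∈ e.2 → R (c + k) p.1 p.2) →
    ∀ c p, s[c]? = some p → R (c + k) p.1 p.2
  | [], _, s, _, h, _, c, p, hp => by
    simp only [pick, Option.some.injEq] at h
    subst h
    simp at hp
  | _ :: _, [], _, _, h, _, _, _, _ => by simp [pick] at h
  | e :: E, x :: X, s, k, h, hE, c, p, hp => by
    simp only [pick] at h
    split at h
    · rename_i a ha
      split at h
      · rename_i l hl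
        simp only [Option.some.injEq] at h
        subst h
        cases c with
        | zero =>
          simp only [List.getElem?_cons_zero, Option.some.injEq] at hp
          subst hp
          exact hE 0 e _ (by simp) (List.mem_of_getElem? ha)
        | succ c =>
          simp only [List.getElem?_cons_succ] at hp
          have h1 := mem_pick (R := R) E X l (k + 1) hl (fun c e p h1 h2 => by
            have := hE (c + 1) e p (by simpa using h1) h2
            rwa [show c + (k + 1) = c + 1 + k by omega]) c p hp
          rwa [show c + 1 + k = c + (k + 1) by omega]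
      · simp at h
    · simp at h

theorem get_updE (g : Cmp → Cmp) : ∀ (E : List Cmp) (c c' : ℕ) (e' : Cmp),
    (updE g E c)[c']? = some e' → ∃ e, E[c']? = some e ∧ (e' = e ∨ (c' = c ∧ e' = g e))
  | [], _, _, _, h => by simp [updE] at h
  | e :: E, 0, 0, e', h => by
    simp only [updE, List.getElem?_cons_zero, Option.some.injEq] at h
    exact ⟨e, by simp, Or.inr ⟨rfl, h.symm⟩⟩
  | e :: E, 0, c' + 1, e', h => by
    simp only [updE, List.getElem?_cons_succ] at h
    exact ⟨e', by simpa using h, Or.inl rfl⟩
  | e :: E, c + 1, 0, e', h => by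
    simp only [updE, List.getElem?_cons_zero, Option.some.injEq] at h
    exact ⟨e, by simp, Or.inl h.symm⟩
  | e :: E, c + 1, c' + 1, e', h => by
    simp only [updE, List.getElem?_cons_succ] at h
    obtain ⟨e'', h1, h2⟩ := get_updE g E c c' e' h
    refine ⟨e'', by simpa using h1, ?_⟩
    rcases h2 with h3 | ⟨h3, h4⟩
    · exact Or.inl h3
    · exact Or.inr ⟨by rw [h3], h4⟩

theorem fcE_ok {Kc : ℕ → ZMod 6 → Prop} : ∀ (E : List Cmp) (c k : ℕ),
    (∀ c e, E[c]? = some e → FcOk (Kc (c + k)) e.1) → FcOk (Kc (c + k)) (fcE E c)
  | [], _, _, _ => fun p hp => by simp [fcE] at hp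
  | e :: E, 0, k, h => h 0 e (by simp)
  | e :: E, c + 1, k, h => by
    have h1 := fcE_ok (Kc := Kc) E c (k + 1) fun c e h1 => by
      have := h (c + 1) e (by simpa using h1)
      rwa [show c + (k + 1) = c + 1 + k by omega]
    rwa [show c + 1 + k = c + (k + 1) by omega]

theorem addF_ok {K : ZMod 6 → Prop} (hK : ∀ j, K j → ¬ K (j + 1)) {e : Cmp} (he : FcOk K e.1)
    {j : ZMod 6} {x : Bool} (hx : x = true ↔ K j) : FcOk K (addF j x e).1 := by
  intro p hp
  unfold addF at hp
  cases x
  · simp only [cond_false, List.mem_cons] at hp
    rcases hp with rfl | hp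
    · exact hx
    · exact he p hp
  · simp only [cond_true, List.mem_cons] at hp
    have hj : K j := hx.1 rfl
    rcases hp with rfl | rfl | rfl | hp
    · exact hx
    · exact ⟨fun h => absurd h (by simp), fun h => absurd h (hK j hj)⟩
    · refine ⟨fun h => absurd h (by simp), fun h => ?_⟩
      have h1 := hK _ h
      rw [sub_add_cancel] at h1
      exact absurd hj h1
    · exact he p hp

theorem foldAlt_spec {f : ZMod 6 × Alt → List Ins → Option (List Ins)} {r : ZMod 6} :
    ∀ (c : List Alt) (l l' : List Ins), foldAlt f r c l = some l' →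
    ∀ a ∈ c, ∃ l₁ l₂, f (r, a) l₁ = some l₂
  | [], _, _, _, _, h => by simp at h
  | b :: c, l, l', h, a, ha => by
    simp only [foldAlt] at h
    split at h
    · rename_i l'' hl
      rcases List.mem_cons.1 ha with rfl | ha
      · exact ⟨_, _, hl⟩
      · exact foldAlt_spec c _ _ h a ha
    · simp at h

/-- **soundness of decision trees** -/
theorem run_sound {cl : ℕ → Fc → ℕ → ZMod 6 → Option (List Alt)}
    {ok : List (ZMod 6 × Alt) → ℕ → Bool} {R : ℕ → ZMod 6 → Alt → Prop} {Kc : ℕ → ZMod 6 → Prop}
    {G : Prop} (hadj : ∀ c j, Kc c j → ¬ Kc c (j + 1))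
    (hrow : ∀ c f src r s, FcOk (Kc c) f → cl c f src r = some s → ∃ a ∈ s, R c r a)
    (hok : ∀ s t, ok s t = true → (∀ c p, s[c]? = some p → R c p.1 p.2) → G) :
    ∀ (n : ℕ) (E : List Cmp) (l l' : List Ins), run cl ok n E l = some l' →
    (∀ c e, E[c]? = some e → FcOk (Kc c) e.1) →
    (∀ c e p, E[c]? = some e → p ∈ e.2 → R c p.1 p.2) → G
  | 0, _, _, _, h, _, _ => by simp [run] at h
  | n + 1, _, [], _, h, _, _ => by simp [run] at h
  | n + 1, E, .leaf t x :: l, l', h, _, hE => by
    simp only [run] at h
    split at h
    · rename_i s hs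
      cases ho : ok s t with
      | false => simp [ho] at h
      | true => exact hok s t ho fun c p hp => mem_pick (R := R) E x s 0 hs (fun c e p h1 h2 =>
          hE c e p h1 h2) c p hp
    · simp at h
  | n + 1, E, .node c src rot :: l, l', h, hf, hE => by
    simp only [run] at h
    split at h
    · rename_i s hs
      obtain ⟨a, ha, hR⟩ := hrow c _ src _ s
        (fcE_ok (Kc := Kc) E c 0 fun c e h1 => hf c e h1) hs
      obtain ⟨l₁, l₂, hl⟩ := foldAlt_spec _ _ _ h a ha
      refine run_sound hadj hrow hok n _ _ _ hl (fun c' e' h1 => ?_) fun c' e' p h1 h2 => ?_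
      · obtain ⟨e, h3, h4⟩ := get_updE _ E c c' e' h1
        rcases h4 with rfl | ⟨rfl, rfl⟩
        · exact hf _ _ h3
        · exact hf _ e h3
      · obtain ⟨e, h3, h4⟩ := get_updE _ E c c' e' h1
        rcases h4 with rfl | ⟨rfl, rfl⟩
        · exact hE _ _ p h3 h2
        · rcases List.mem_cons.1 h2 with rfl | h5
          · exact hR
          · exact hE _ _ p h3 h5
    · simp at h
  | n + 1, E, .case c j :: l, l', h, hf, hE => by
    simp only [run] at h
    have key : ∀ (x : Bool), (x = true ↔ Kc c (nd j)) → ∀ l₁ l₂,
        run cl ok n (updE (addF (nd j) x) E c) l₁ = some l₂ → G := by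
      intro x hx l₁ l₂ hl
      refine run_sound hadj hrow hok n _ _ _ hl (fun c' e' h1 => ?_) fun c' e' p h1 h2 => ?_
      · obtain ⟨e, h3, h4⟩ := get_updE _ E c c' e' h1
        rcases h4 with rfl | ⟨rfl, rfl⟩
        · exact hf _ _ h3
        · exact addF_ok (hadj _) (hf _ _ h3) hx
      · obtain ⟨e, h3, h4⟩ := get_updE _ E c c' e' h1
        rcases h4 with rfl | ⟨rfl, rfl⟩
        · exact hE _ _ p h3 h2
        · exact hE _ _ p h3 h2
    split at h
    · rename_i l'' hl
      by_cases hK : Kc c (nd j)
      · exact key true ⟨fun _ => hK, fun _ => rfl⟩ _ _ hl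
      · exact key false ⟨fun h => absurd h (by simp), fun h => absurd h hK⟩ _ _ h
    · simp at h

/-- the check of a complete certificate for the components with the facts `f` -/
def runC (cl : ℕ → Fc → ℕ → ZMod 6 → Option (List Alt)) (ok : List (ZMod 6 × Alt) → ℕ → Bool)
    (f : List Fc) (x : List Ins) : Bool :=
  (run cl ok (x.length + 1) (f.map fun f => (f, [])) x).isSome

theorem runC_sound {cl : ℕ → Fc → ℕ → ZMod 6 → Option (List Alt)}
    {ok : List (ZMod 6 × Alt) → ℕ → Bool} {R : ℕ → ZMod 6 → Alt → Prop} {Kc : ℕ → ZMod 6 → Prop}
    {G : Prop} {f : List Fc} {x : List Ins} (h : runC cl ok f x = true)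
    (hadj : ∀ c j, Kc c j → ¬ Kc c (j + 1)) (hf : ∀ c g, f[c]? = some g → FcOk (Kc c) g)
    (hrow : ∀ c f src r s, FcOk (Kc c) f → cl c f src r = some s → ∃ a ∈ s, R c r a)
    (hok : ∀ s t, ok s t = true → (∀ c p, s[c]? = some p → R c p.1 p.2) → G) : G := by
  obtain ⟨l', hl'⟩ := Option.isSome_iff_exists.1 h
  refine run_sound (R := R) hadj hrow hok _ _ _ _ hl' (fun c e hc => ?_) fun c e p hc hp => ?_
  · rw [List.getElem?_map, Option.map_eq_some_iff] at hc
    obtain ⟨g, hg, rfl⟩ := hc
    exact hf c g hg
  · rw [List.getElem?_map, Option.map_eq_some_iff] at hc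
    obtain ⟨g, hg, rfl⟩ := hc
    simp at hp

end Chk

end GT33
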