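import Pool.Agent.GT33.ExT
import Pool.Agent.GT33.RwE

/-!
# GT33 module EXU: the induction hypothesis for the rest without a through corner hexagon

`Gen.srcQ`: the induction hypothesis for the rest.  `Pack.srcZ`: the realised state of the folded map with `ExZ` from
the alternatives of the rest.
-/

open Classical

namespace GT33

namespace DMap

variable {D : Type} {M : DMap D} {A : D → Prop} {δ : ZMod 6 → D} {F : D → Prop}

open Patch

namespace Gen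

variable [Fintype D] (hG : M.Gen A δ) (hF : Pre M A δ F) {c : ZMod 6} (h : Thr M δ F c)
  {o : D → Bool} (ho : ∀ d, o (M.nx d) = !o d) (ho' : ∀ d, o (M.al d) = !o d)
  {q : ZMod 4 → {d // ¬ FR M F d}}
  (hQ : (mapF hF ho ho' hG).CorQ (fun x => A x.1) (hdrF hF ho ho' hG) c q)

include hG hF h hQ

/-- **The induction hypothesis for the rest**. -/
theorem srcQ {Good : (ZMod 6 → Prop) → Prop → Rel → Prop} {B : Boxes D}
    (hO : M.Obj Good A δ B) (hmono : MonoH Good) {n : ℕ} (hn : Nat.card D ≤ n) (IH : IHR Good n)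
    (hns : ¬ Star (mapF hF ho ho' hG) fun x => A x.1)
    (hL : (¬ F (δ (c - 2)) ∧ M.nx (δ (c - 2)) ≠ δ (c - 1)) ∨ KF M δ F (c - 2)) :
    ∃ σ, Good (fun j => j ≠ c ∧ KF M δ F j) σ
      (Rz (mapF hF ho ho' hG) (fun x => A x.1 ∧ ¬ QR q x)
        (kδ (mapF hF ho ho' hG) (hdrF hF ho ho' hG) c q)
        (B.pull fun x : {d // ¬ FR M F d} => x.1).β) := by
  have hq := hG.mapF_real hF ho ho'
  have hlt : Nat.card {d // ¬ FR M F d} < n := lt_of_lt_of_le (card_foldF ⟨_, h.f1⟩) hn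
  have h1 := hQ.good (hO.mapF ho ho' hG hF) hmono
    (fun D' _ M' A' δ' B' g1 g2 g3 g4 => IH D' M' A' δ' B' g1 g2 g3 (g4.trans hlt)) hq
    fun h12 => hns ⟨h12, hq⟩
  have h2 : KS (mapF hF ho ho' hG) (B.pull fun x : {d // ¬ FR M F d} => x.1).κ
      (kδ (mapF hF ho ho' hG) (hdrF hF ho ho' hG) c q) = fun j => j ≠ c ∧ KF M δ F j :=
    funext fun j => propext (hG.thr_ks hF h ho ho' hQ hns hL _ j)
  rw [h2] at h1
  exact ⟨_, h1⟩

end Gen

/-- the through corner `c` for the source without `c` -/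
structure ZCor (N C : ZMod 6 → Bool) (c : ZMod 6) : Prop where
  cc : C c = true
  n1 : N (c + 1) = true
  nm : N (c - 1) = true
  n2 : N (c + 2) = false
  hL : (N (c - 2) = false ∧ C (c - 2) = false) ∨ KN N (c - 2)

/-- the states of the rest without the corner `c` -/
structure ZAlt (N : ZMod 6 → Bool) (c : ZMod 6) (Fl' : Flags) (s' : PState 6) (r' : ZMod 6 → ℕ) :
    Prop where
  ok : Fl'.Ok
  le : ∀ T, Fl'.lk (c - 1) T → Fl'.ri (c - 1) T
  dem : KDem Fl' c pZ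
  ex : ExS (fun j => j ≠ c ∧ KN N j) s' r'
  rc : r' c = 1
  rd : r' (c + 1) = 1
  mm : ∀ k, s'.m (s'.m k) = k
  mne : ∀ k, s'.m k ≠ k

theorem ZCor.thr {N C : ZMod 6 → Bool} {c : ZMod 6} (h : ZCor N C c) (hN : NC M δ F N C) :
    Thr M δ F c :=
  ⟨(hN.c c).2 h.cc, (hN.n _).2 h.n1, (hN.f _).2 h.nm, (hN.f _).2 h.n1, fun h1 => by
    rw [hN.n, h.n2] at h1
    exact absurd h1 (by decide)⟩

theorem ZCor.left {N C : ZMod 6 → Bool} {c : ZMod 6} (h : ZCor N C c) (hN : NC M δ F N C) :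
    (¬ F (δ (c - 2)) ∧ M.nx (δ (c - 2)) ≠ δ (c - 1)) ∨ KF M δ F (c - 2) := by
  rw [hN.kf]
  refine h.hL.imp (fun h1 => ⟨fun h2 => ?_, fun h2 => ?_⟩) id
  · rw [hN.n, h1.1] at h2
    exact absurd h2 (by decide)
  · have ec : c - 2 + 1 = c - 1 := by ring
    rw [← ec, hN.c, h1.2] at h2
    exact absurd h2 (by decide)

/-- a through corner next to a right end: the folded map is not a star -/
theorem Pack.not_star [Fintype D] {Good : (ZMod 6 → Prop) → Prop → Rel → Prop} {f : ZMod 6 → Fin 3}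
    {C : ZMod 6 → Bool} {B : Boxes D} {n : ℕ} {o : D → Bool} (h : Pack Good f C M A δ B n o)
    {c : ZMod 6} (cc : C c = true) (n1 : nOf f C (c + 1) = true) (nm : nOf f C (c - 1) = true)
    (n2 : nOf f C (c + 2) = false) (c2 : C (c + 2) = false) : ¬ h.star := by
  have hT : Thr M δ (Fw M A δ f) c := ⟨(h.nc.c c).2 cc, (h.nc.n _).2 n1, (h.nc.f _).2 nm,
    (h.nc.f _).2 n1, fun h1 => by
      rw [h.nc.n, n2] at h1
      exact absurd h1 (by decide)⟩
  obtain ⟨q, hQ⟩ := h.gen.thr_corQ h.pre hT h.ho h.ho'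
  refine h.gen.thr_not_star h.pre hT h.ho h.ho' hQ ?_
  rcases h.gen.thr_two h.pre hT with ⟨-, h2⟩ | ⟨h2, -⟩
  · exact h2
  · have ec : c + 2 + 1 = c + 3 := by ring
    rw [← ec, h.nc.c, c2] at h2
    exact absurd h2 (by decide)

/-- **the source for a through corner** -/
theorem Pack.srcZ [Fintype D] {Good : (ZMod 6 → Prop) → Prop → Rel → Prop} {f : ZMod 6 → Fin 3}
    {C : ZMod 6 → Bool} {B : Boxes D} {n : ℕ} {o : D → Bool} (h : Pack Good f C M A δ B n o)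
    (hmono : MonoH Good) (hns : ¬ h.star) {c : ZMod 6} (hc : ZCor (nOf f C) C c)
    {P : Flags → PState 6 → (ZMod 6 → ℕ) → Prop}
    (hsrc : ∀ σ (b : Rel), (∀ F G t, F.Le G → b G t → b F t) →
      Good (fun j => j ≠ c ∧ KN (nOf f C) j) σ b → ∃ Fl' s' r', b Fl' s' ∧
      ZAlt (nOf f C) c Fl' s' r' ∧ P Fl' s' r') :
    ∃ Fl' s' r' μ' ω', P Fl' s' r' ∧ ZAlt (nOf f C) c Fl' s' r' ∧
      (Gen.mapF h.pre h.ho h.ho' h.gen).RealL ((Gen.mapF h.pre h.ho h.ho' h.gen).OL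
        (Gen.hdrF h.pre h.ho h.ho' h.gen)
        (B.pull fun x : {d // ¬ FR M (Fw M A δ f) d} => x.1).β Fl') (fun x => A x.1)
        (Gen.hdrF h.pre h.ho h.ho' h.gen) s' μ' ω' ∧
      Gen.ExZ h.gen h.pre h.ho h.ho' μ' ω' r' c := by
  have hT := hc.thr h.nc
  obtain ⟨q, hQ⟩ := h.gen.thr_corQ h.pre hT h.ho h.ho'
  obtain ⟨σ, h1⟩ := h.gen.srcQ h.pre hT h.ho h.ho' hQ h.obj hmono h.card h.ih hns (hc.left h.nc)
  rw [h.nc.kf] at h1
  have hanti := (h.obj.mapF h.ho h.ho' h.gen h.pre).anti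
  obtain ⟨Fl', s', r', h2, h3, h4⟩ := hsrc σ (Rz (Gen.mapF h.pre h.ho h.ho' h.gen)
    (fun x => A x.1 ∧ ¬ QR q x) (kδ (Gen.mapF h.pre h.ho h.ho' h.gen)
      (Gen.hdrF h.pre h.ho h.ho' h.gen) c q)
      (B.pull fun x : {d // ¬ FR M (Fw M A δ f) d} => x.1).β) (fun F₁ G₁ t hFG hb =>
    Rz.le (A := fun x => A x.1) hanti hQ.sites (fun d hd => hd.1) hFG hb) h1
  obtain ⟨μ', ω', h5, h6⟩ := h.gen.rz_exZ h.pre hT h.ho h.ho' hQ hns (hc.left h.nc) h3.ok h3.le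
    h3.dem h2 (by rw [h.nc.kf]; exact h3.ex) h3.rc h3.rd h3.mm h3.mne
  exact ⟨Fl', s', r', μ', ω', h4, h3, h5, h6⟩

end DMap

end GT33
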