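import Pool.Agent.GT33.StarB

/-!
# GT33 module STARF: the state of a star with two units at each corner

`Star.rz2`: a star (three quads) with corner quads at the nodes `1, 3, 5` realises the state `st2` with two units
at these nodes, with all demands of the type L at the links, all demands at the inner corners of the quads at
the ring edges, and the demands at the ring edges which fit.
-/

open Classical

namespace GT33

/-- the state of a star with two units at the corners `1, 3, 5` -/
def st2 : PState 6 := ⟨hm3, fun i => if i = 1 ∨ i = 3 ∨ i = 5 then 2 else 0⟩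

theorem st2_m (k : ZMod 6) : st2.m k = hm3 k := rfl

theorem st2_u (k : ZMod 6) : st2.u k = if k = 1 ∨ k = 3 ∨ k = 5 then 2 else 0 := rfl

/-- the rotated state, as it is composed of the states of the three quads -/
theorem st2_gk {c : ZMod 6} (hc : c = 1 ∨ c = 3 ∨ c = 5) :
    gk 0 (qst 1 0) ((p1 (qst 1 0) (qst 1 0)).rot (-1)) = st2.rot c := by
  have key : ∀ c : ZMod 6, (c = 1 ∨ c = 3 ∨ c = 5) → ∀ k : ZMod 6,
      (gk 0 (qst 1 0) ((p1 (qst 1 0) (qst 1 0)).rot (-1))).m k = (st2.rot c).m k ∧
        (gk 0 (qst 1 0) ((p1 (qst 1 0) (qst 1 0)).rot (-1))).u k = (st2.rot c).u k := by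
    decide
  exact PState.ext' (fun k => (key c hc k).1) fun k => (key c hc k).2

/-- the demands which the corner quads of the star satisfy -/
structure StarFl (F : Flags) : Prop where
  le : ∀ j, ¬ F.le j true
  ri : ∀ j, ¬ F.ri j false

namespace DMap

variable {D : Type} {M : DMap D}

theorem StarFl.kdem {F : Flags} (hF : StarFl F) (i : ZMod 6) : KDem F i (qst 1 0) := by
  refine ⟨⟨1, 0, rfl⟩, fun T h1 _ => ?_, fun T h1 => ?_, fun T h1 => ?_, fun _ => by decide,
    fun _ => by decide⟩
  · cases T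
    · decide
    · exact (hF.le _ h1).elim
  · cases T
    · decide
    · exact (hF.le _ h1).elim
  · cases T
    · exact (hF.ri _ h1).elim
    · decide

/-- **the state of a star with two units at the corners** -/
theorem Star.rz2 [Fintype D] {A : D → Prop} {δ : ZMod 6 → D} {β : (ZMod 6 → D) → Rel} {F : Flags}
    (hP : M.Patch A δ) (hS : Star M A) (h1 : M.nx (δ 1) = δ 2) (hF : StarFl F) :
    Rz M A δ β F st2 := by
  obtain ⟨c, q₀, q₂, q₄, h⟩ := Star.exists_StarC hP hS
  have hd : M.deg (δ 1) = 4 := hS.2 _ (hP.inA 1)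
  have hks : KS M (fun _ _ => False) (fun i => δ (i + c)) (1 - c) := by
    refine ⟨?_, Or.inl ?_⟩
    · show M.nx (δ (1 - c + c)) = δ (1 - c + 1 + c)
      rw [sub_add_cancel, show 1 - c + 1 + c = (2 : ZMod 6) by
        rw [add_right_comm, sub_add_cancel]; decide]
      exact h1
    · show M.deg (δ (1 - c + c)) = 4
      rw [sub_add_cancel]
      exact hd
  have hc : c = 1 ∨ c = 3 ∨ c = 5 := by
    have h2 := (h.ks _ _).1 hks
    have key : ∀ c : ZMod 6, (1 - c = 0 ∨ 1 - c = 2 ∨ 1 - c = 4) → (c = 1 ∨ c = 3 ∨ c = 5) := by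
      decide
    exact key c h2
  have hFc : StarFl (F.rot c) := ⟨fun j h3 => hF.le _ h3, fun j h3 => hF.ri _ h3⟩
  have key : ∀ k : ZMod 6, ((p1 (qst 1 0) (qst 1 0)).rot (-1)).m
      (((p1 (qst 1 0) (qst 1 0)).rot (-1)).m k) = k ∧
      ((p1 (qst 1 0) (qst 1 0)).rot (-1)).m k ≠ k := by decide
  have h3 := h.rz (β := β) (F := F.rot c) (StarFl.kdem hFc 0) (StarFl.kdem hFc 2)
    (StarFl.kdem hFc 4) (fun k => (key k).1) (fun k => (key k).2) (by decide) (by decide)
  rw [st2_gk hc] at h3
  have h4 := Rz.rot (δ := fun j => δ (j + c)) h.c0.bd.site (-c) h3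
  have e : (fun j : ZMod 6 => δ (j + -c + c)) = δ := funext fun j => by rw [neg_add_cancel_right]
  have e1 : (F.rot c).rot (-c) = F := by
    ext <;> simp [Flags.rot]
  have e2 : (st2.rot c).rot (-c) = st2 :=
    PState.ext' (fun j => by simp [PState.rot]) fun j => by simp [PState.rot]
  rw [e1, e2] at h4
  exact e ▸ h4

/-- **the state of a star with two units at the corners `0, 2, 4`** -/
theorem Star.rz2e [Fintype D] {A : D → Prop} {δ : ZMod 6 → D} {β : (ZMod 6 → D) → Rel} {F : Flags}
    (hP : M.Patch A δ) (hS : Star M A) (h0 : M.nx (δ 0) = δ 1) (hF : StarFl F) :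
    Rz M A δ β F (st2.rot 1) := by
  have h1 : Rz M A (fun i => δ (i + -1)) β (F.rot (-1)) st2 := by
    refine Star.rz2 ⟨hP.legal, BdD.shift hP.bd (-1), hP.root⟩ hS ?_ ⟨fun j h3 => hF.le _ h3, fun j h3 => hF.ri _ h3⟩
    show M.nx (δ (1 + -1)) = δ (2 + -1)
    rw [show (1 : ZMod 6) + -1 = 0 by decide, show (2 : ZMod 6) + -1 = 1 by decide]
    exact h0
  have h4 := Rz.rot (δ := fun j => δ (j + -1)) hP.sites 1 h1
  have e : (fun j : ZMod 6 => δ (j + 1 + -1)) = δ := funext fun j => by rw [add_neg_cancel_right]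
  have e1 : (F.rot (-1)).rot 1 = F := by
    ext <;> simp [Flags.rot]
  rw [e1] at h4
  exact e ▸ h4

end DMap

end GT33
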