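import Pool.Agent.GT33.RwC
import Pool.Agent.GT33.StarF
import Pool.Agent.GT33.CaseK

/-!
# GT33 module RWD: entries

`EntryOK`: a state of the folded map gives the target.  `Gen.entry`, `Gen.word_of`: patches with the folded ring
nodes `N` and the corners `C` reach the target.
-/

open Classical

namespace GT33

namespace DMap

variable {D : Type} {M : DMap D} {A : D → Prop} {δ : ZMod 6 → D}

open Patch

/-- the finite part of an entry: the state `s'` of the folded map with the flags `Fl'`, the units `r'` of the ring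
darts and the flips `l` gives the target `G` -/
def EntryF (Good : (ZMod 6 → Prop) → Prop → Rel → Prop) (G : Rel → Prop) (N C : ZMod 6 → Bool)
    (Fl' : Flags) (s₂ : PState 6) (r₂ : ZMod 6 → ℕ) : Prop :=
  ∀ (t : ZMod 6 → PState 4) (ρ : Pt → Pt), SrcN N C Fl' s₂ r₂ t ρ →
    ∃ (Fl : Flags) (s : PState 6), (∀ b : Rel, b Fl s → G b) ∧
      ∃ (a : ZMod 6 → Bool) (r : ZMod 6 → ℕ) (p q : ℕ) (w : ZMod 6 → PState 6),
        PeelR N C Fl Fl' s a r r₂ p q w t ρ ∧ BoxG Good N C Fl Fl' a r r₂ p q w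

/-- an entry: the state `s'` of the folded map with the flags `Fl'` gives the target `G` -/
def EntryOK (Good : (ZMod 6 → Prop) → Prop → Rel → Prop) (G : Rel → Prop) (N C : ZMod 6 → Bool)
    (Fl' : Flags) (s' : PState 6) : Prop :=
  ∃ (r' : ZMod 6 → ℕ) (l : List (ZMod 6)), SrcOK N C s' r' l ∧
    EntryF Good G N C Fl' (flipRs l s') (fliprs l r')

namespace Gen

variable [Fintype D] (hG : M.Gen A δ) {F : D → Prop} (hF : Pre M A δ F) {o : D → Bool}
  (ho : ∀ d, o (M.nx d) = !o d) (ho' : ∀ d, o (M.al d) = !o d)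

include hG hF

/-- **an entry gives the target** -/
theorem entry {Good : (ZMod 6 → Prop) → Prop → Rel → Prop} {B : Boxes D}
    (hO : M.Obj Good A δ B) (hk : ∀ j, ¬ KS M B.κ δ j) {N C : ZMod 6 → Bool}
    (hN : NC M δ F N C) {G : Rel → Prop} {Fl' : Flags} {s' : PState 6}
    (h : Rz (mapF hF ho ho' hG) (fun x => A x.1) (hdrF hF ho ho' hG)
        (B.pull fun x : {d // ¬ FR M F d} => x.1).β Fl' s')
    (hE : EntryOK Good G N C Fl' s') : G (Rz M A δ B.β) := by
  obtain ⟨r', l, hs, h1⟩ := hE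
  obtain ⟨t, ρ, h2, h3⟩ := hG.peelS hF ho ho' hO hk hN h hs
  obtain ⟨Fl, s, h4, a, r, p, q, w, h5, h6⟩ := h1 t ρ h2
  exact h4 _ (h3 Fl s a r p q w h5 h6)

omit hG hF in
/-- **entries for all sources give the target** -/
theorem word_of (hG : M.Gen A δ) {Good : (ZMod 6 → Prop) → Prop → Rel → Prop} {B : Boxes D}
    (hO : M.Obj Good A δ B) (hk : ∀ j, ¬ KS M B.κ δ j) {f : ZMod 6 → Fin 3}
    (hF : Pre M A δ (Fw M A δ f)) (hf : ∀ k, f k ≠ 1) {N C : ZMod 6 → Bool}
    (hC : ∀ k, M.nx (δ k) = δ (k + 1) ↔ C k = true)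
    (hN : ∀ k, N k = true ↔ f k = 2 ∧ C k = false) (hne : ∃ k, N k = true) {n : ℕ}
    (hn : Nat.card D ≤ n) (IH : IHR Good n) {G : Rel → Prop}
    (hsrc : ∀ σ b, Good (KN N) σ b → ∃ Fl' s', b Fl' s' ∧ EntryOK Good G N C Fl' s') :
    G (Rz M A δ B.β) := by
  obtain ⟨o, ho, ho'⟩ := hG.legal.exists_col
  have hNC := hG.nc_fw hf hC hN
  obtain ⟨k, hk0⟩ := hne
  have h1 := hG.src hF ho ho' hO ⟨δ k, (hNC.n k).2 hk0⟩ hn IH
  rw [hNC.kf] at h1
  obtain ⟨Fl', s', h2, h3⟩ := hsrc _ _ h1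
  exact hG.entry hF ho ho' hO hk hNC h2 h3

/-- an entry for a star -/
theorem entry_star {Good : (ZMod 6 → Prop) → Prop → Rel → Prop} {B : Boxes D}
    (hO : M.Obj Good A δ B) (hk : ∀ j, ¬ KS M B.κ δ j) {N C : ZMod 6 → Bool}
    (hN : NC M δ F N C) (h0 : KN N 0) {G : Rel → Prop} {Fl' : Flags} (hFl : StarFl Fl')
    (hE : EntryOK Good G N C Fl' (st2.rot 1)) (hS : Star (mapF hF ho ho' hG) fun x => A x.1) :
    G (Rz M A δ B.β) := by
  have hP := hG.mapF_patch hF ho ho'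
  have h2 : KS (mapF hF ho ho' hG) (fun _ _ => False) (hdrF hF ho ho' hG) 0 :=
    (hG.mapF_KS hF ho ho' _ 0).2 (by rw [hN.kf]; exact h0)
  refine hG.entry hF ho ho' hO hk hN ?_ hE
  have h3 := Star.rz2 (β := (B.pull fun x : {d // ¬ FR M F d} => x.1).β) (F := Fl'.rot (-1))
    (hP.rotδ (-1)) hS h2.1 ⟨fun j h => hFl.le _ h, fun j h => hFl.ri _ h⟩
  exact Rz.unrot (i := -1) hP.sites (by
    have e : (st2.rot 1).rot (-1) = st2 :=
      PState.ext' (fun j => by simp [PState.rot]) fun j => by simp [PState.rot]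
    rw [e]
    exact h3)

end Gen

end DMap

end GT33
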