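import Pool.Agent.GT33.LocZ
import Pool.Agent.GT33.RwD

/-!
# GT33 module RWY: entries for a through corner hexagon in the state `(2, 0, 1, 0)`, definitions

`BoxZ`: the additional conditions for the boxes.  `EntryZF`: the finite part of an entry for a state of the rest
without the corner quad of the through corner hexagon `c`.
-/

open Classical

namespace GT33

namespace DMap

/-- the additional conditions for the boxes, for all good boxes -/
structure BoxZ (Good : (ZMod 6 → Prop) → Prop → Rel → Prop) (Fl : Flags) (p q : ℕ) (c : ZMod 6)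
    (w : PState 6) : Prop where
  co : ∀ K σ b, (∀ F G t, F.Le G → b G t → b F t) → Good K σ b → ¬ K 5 → b (cflags Fl c) (wZ w)
  lh : ∀ x : PState 4, EE 4 x → x.u 3 = 1 → x.u 2 = 0 → ∀ K σ b,
    (∀ F G t, F.Le G → b G t → b F t) → Good K σ b → b (lfl Fl (c + 1)) (GT33.lh p q (tZ x))

/-- the finite part of an entry for a state of the rest without the corner quad of the corner hexagon `c`; the state
`s₂` and the units `r₂` of the ring darts after the flips -/
def EntryZF (Good : (ZMod 6 → Prop) → Prop → Rel → Prop) (G : Rel → Prop) (N C : ZMod 6 → Bool)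
    (c : ZMod 6) (Fl' : Flags) (s₂ : PState 6) (r₂ : ZMod 6 → ℕ) : Prop :=
  ∀ (t : ZMod 6 → PState 4) (ρ : Pt → Pt), SrcN N C Fl' s₂ r₂ t ρ →
    ∃ (Fl : Flags) (s : PState 6), (∀ b : Rel, b Fl s → G b) ∧
      ∃ (a : ZMod 6 → Bool) (r : ZMod 6 → ℕ) (p q : ℕ) (w : ZMod 6 → PState 6),
        PeelR N C Fl Fl' s a r r₂ p q w t ρ ∧ BoxG Good N C Fl Fl' a r r₂ p q w ∧
        BoxZ Good Fl p q c (w c)

end DMap

end GT33
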