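import Pool.Agent.GT33.ChkF
import Pool.Agent.GT33.RwY
import Pool.Agent.GT33.ExU

/-!
# GT33 module CHKZ: the finite check for a through corner with one unit at both ring edges

`entZB`: the check of an entry with the through corner `c` (`EntryZF`).  `entZ_sound`, `zalt_of`, `zcor_of`: soundness.
-/

namespace GT33

open DMap

namespace Chk

/-- the additional box facts for a choice -/
def zB (BL : List (Fc × Alt)) (gl : List Alt) (c : ZMod 6) (ch : Cho) : Bool :=
  match gl[ch.t]? with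
  | some x => lookB BL [(5, false)] (cflA x c (wOf ch.w c).1 ((wOf ch.w c).2 - 9000)) &&
      eqS (wZ (wS ch.w c)) (stt (wOf ch.w c).1 ((wOf ch.w c).2 - 9000)) &&
      q8.all fun q => !(q.u3 == 1 && q.u2 == 0) ||
        lookB BL [] (lflA x (c + 1) (shM true q.b) (20011 + q.u0 * 1000 + q.u1 * 100))
  | none => false

/-- **the check of an entry with the through corner `c`** -/
def entZB (BL : List (Fc × Alt)) (gl : List Alt) (c : ZMod 6) (e : Ent) : Bool :=
  entOK BL gl e && e.chs.all (zB BL gl c)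

theorem lhz_code : ∀ q ∈ q8, q.u3 = 1 → q.u2 = 0 →
    lh 2 1 (tZ q.st) = stt (shM true q.b) (20011 + q.u0 * 1000 + q.u1 * 100) := by
  have key : ∀ q ∈ q8, eqS (lh 2 1 (tZ q.st))
      (stt (shM true q.b) (20011 + q.u0 * 1000 + q.u1 * 100)) = true := by decide
  exact fun q hq _ _ => eqS_iff.1 (key q hq)

theorem boxZ_of {T : List SRow} {BL : List (Fc × Alt)} (hBL : ∀ p ∈ BL, Fact T p.1 p.2)
    {gl : List Alt} {c : ZMod 6} {ch : Cho} {x : Alt} (hx : gl[ch.t]? = some x)
    (h : zB BL gl c ch = true) : BoxZ (GoodS T) x.F 2 1 c (wS ch.w c) := by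
  unfold zB at h
  rw [hx] at h
  simp only [Bool.and_eq_true] at h
  obtain ⟨⟨h1, h2⟩, h3⟩ := h
  rw [eqS_iff] at h2
  rw [List.all_eq_true] at h3
  refine ⟨fun K σ b hb hg hK => ?_, fun y he h4 h5 K σ b hb hg => ?_⟩
  · rw [h2]
    refine look_cfl hBL h1 hb hg fun p hp => ?_
    rw [List.mem_singleton] at hp
    subst hp
    exact ⟨fun h => absurd h (by simp), fun h => absurd h hK⟩
  · obtain ⟨q, hq, rfl⟩ := ee_q8 he
    have h6 := imp_or (h3 q hq) (by
      rw [Bool.and_eq_true, beq_iff_eq, beq_iff_eq]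
      exact ⟨h4, h5⟩)
    rw [lhz_code q hq h4 h5]
    exact look_lfl hBL h6 hb hg fun p hp => by simp at hp

theorem entZ_sound {T : List SRow} {BL : List (Fc × Alt)} (hBL : ∀ p ∈ BL, Fact T p.1 p.2)
    {gl : List Alt} {c : ZMod 6} {e : Ent} (h : entZB BL gl c e = true) :
    EntryZF (GoodS T) (ClS gl) (on e.N) (on e.C) c e.s.F (stt e.m e.u) (dg e.r') := by
  unfold entZB at h
  rw [Bool.and_eq_true, List.all_eq_true] at h
  intro t ρ hs
  obtain ⟨ch, hch, x, hx, h1, h2⟩ := ent_sound hBL h.1 hs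
  exact ⟨x.F, x.S, fun b hb => ⟨x, List.mem_of_getElem? hx, hb⟩, _, _, 2, 1, _, h1, h2,
    boxZ_of hBL hx (h.2 ch hch)⟩

/-- the demands of a source for the through corner `c` -/
def zaltB (c : ZMod 6) (e : Ent) : Bool :=
  !led e.s.l (c + 1) && !rid e.s.r (c - 1) && !on e.s.s c && !on e.s.s (c + 1) &&
  (!lkd e.s.r (c - 1) || rid e.s.r (c - 1)) && (!lkd e.s.l (c - 1) || rid e.s.l (c - 1)) &&
  (rOf e.s.u 6 c == 1) && (rOf e.s.u 6 (c + 1) == 1)

/-- the through corner `c` as a Boolean condition -/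
def zcorB (c : ZMod 6) (N C : ZMod 6 → Bool) : Bool :=
  C c && N (c + 1) && N (c - 1) && !N (c + 2) &&
    ((!N (c - 2) && !C (c - 2)) || (N (c - 2 - 1) && !N (c - 2)))

theorem zcor_of {c : ZMod 6} {N C : ZMod 6 → Bool} (h : zcorB c N C = true) : ZCor N C c := by
  unfold zcorB at h
  simp only [Bool.and_eq_true, Bool.or_eq_true, Bool.not_eq_true'] at h
  exact ⟨h.1.1.1.1, h.1.1.1.2, h.1.1.2, h.1.2, h.2⟩

theorem zalt_of {c : ZMod 6} {e : Ent} (h : srcB (fun i => decide (i = c)) e = true)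
    (h' : zaltB c e = true) : ZAlt (on e.N) c e.s.F e.s.S (rOf e.s.u 6) := by
  have h1 := srcB_sound h
  unfold zaltB at h'
  simp only [Bool.and_eq_true, Bool.or_eq_true, Bool.not_eq_true', beq_iff_eq] at h'
  obtain ⟨⟨⟨⟨⟨⟨⟨h2, h3⟩, h4⟩, h5⟩, h6⟩, h7⟩, h8⟩, h9⟩ := h'
  have hz : (fun i => (fun i => decide (i = c)) i = false ∧ KN (on e.N) i) =
      fun j => j ≠ c ∧ KN (on e.N) j := funext fun i => propext (by
    simp only [decide_eq_false_iff_not, ne_eq])
  have h10 := h1.ex
  rw [hz] at h10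
  refine ⟨e.s.ok, fun T hT => ?_, ⟨pZ_ee, fun T _ _ => ?_, fun T hT => ?_, fun T hT => ?_,
    fun hs => ?_, fun hs => ?_⟩, h10, h8, h9, fun k => (h1.inv k).1, fun k => (h1.inv k).2⟩
  · rw [alt_lk] at hT
    rw [alt_ri]
    cases T
    · exact h7.resolve_left (by rw [show lkd e.s.l (c - 1) = true from hT]; decide)
    · exact h6.resolve_left (by rw [show lkd e.s.r (c - 1) = true from hT]; decide)
  · cases T <;> decide
  · cases T
    · rw [alt_le, cond_false, h2] at hT
      exact absurd hT (by decide)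
    · decide
  · cases T
    · decide
    · rw [alt_ri, cond_true, h3] at hT
      exact absurd hT (by decide)
  · rw [show e.s.F.st c = (on e.s.s c = true) from rfl, h4] at hs
    exact absurd hs (by decide)
  · rw [show e.s.F.st (c + 1) = (on e.s.s (c + 1) = true) from rfl, h5] at hs
    exact absurd hs (by decide)

end Chk

end GT33
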