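import Pool.Agent.GT33.Exact
import Pool.Agent.GT33.ObjInd

/-!
# GT33 module EXACTO: ring exactness of objects

The boxes of an object have `Nice` states, so the windows of consecutive corners are as for quads and hexagons.
`Patch.ring_exactN`: ring exactness for nice vectors (the all-ones vector included), with corner hexagons and with
corner quads at nodes which do not have one unit.  `Obj.exact`: the same for objects.
-/

open Classical

namespace GT33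

/-! ### the combinatorial core, all ones -/

theorem ring_comb1 {c : ZMod 6 → Prop} {u n p r : ZMod 6 → ℕ}
    (h1 : ∀ i, c i → n i = u i ∧ p (i + 1) = u i)
    (h2 : ∀ i, ¬ c i → u i = n i + p (i + 1) + r i)
    (W1 : ∀ i, 1 ≤ p i + n i)
    (W2 : ∀ i, c i → 2 ≤ p i + u i + n (i + 1))
    (W3 : ∀ i, c i → c (i + 1) → 3 ≤ p i + u i + u (i + 1) + n (i + 2))
    (W4 : ∀ i, c i → c (i + 1) → c (i + 2) → 4 ≤ p i + u i + u (i + 1) + u (i + 2) + n (i + 3))
    (W5 : ∀ i, c i → c (i + 1) → c (i + 2) → c (i + 3) →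
      5 ≤ p i + u i + u (i + 1) + u (i + 2) + u (i + 3) + n (i + 4))
    (W6 : ∀ i, c i → c (i + 1) → c (i + 2) → c (i + 3) → ¬ c (i + 4))
    (hu : ∀ i, u i = 1) (h0 : ¬ c 0) :
    ∀ i, ¬ c i → r i = 0 ∧ n i = n 0 ∧ p (i + 1) + n 0 = 1 := by
  have key : ∀ P : ZMod 6 → Prop, (∀ i, P i) → P 0 ∧ P 1 ∧ P 2 ∧ P 3 ∧ P 4 ∧ P 5 :=
    fun P h => ⟨h 0, h 1, h 2, h 3, h 4, h 5⟩
  have yek : ∀ P : ZMod 6 → Prop, P 0 ∧ P 1 ∧ P 2 ∧ P 3 ∧ P 4 ∧ P 5 → ∀ i, P i := by
    intro P h i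
    have : ∀ i : ZMod 6, i = 0 ∨ i = 1 ∨ i = 2 ∨ i = 3 ∨ i = 4 ∨ i = 5 := by decide
    rcases this i with rfl | rfl | rfl | rfl | rfl | rfl
    · exact h.1
    · exact h.2.1
    · exact h.2.2.1
    · exact h.2.2.2.1
    · exact h.2.2.2.2.1
    · exact h.2.2.2.2.2
  have e01 : (0 : ZMod 6) + 1 = 1 := rfl
  have e02 : (0 : ZMod 6) + 2 = 2 := rfl
  have e03 : (0 : ZMod 6) + 3 = 3 := rfl
  have e04 : (0 : ZMod 6) + 4 = 4 := rfl
  have e11 : (1 : ZMod 6) + 1 = 2 := rfl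
  have e12 : (1 : ZMod 6) + 2 = 3 := rfl
  have e13 : (1 : ZMod 6) + 3 = 4 := rfl
  have e14 : (1 : ZMod 6) + 4 = 5 := rfl
  have e21 : (2 : ZMod 6) + 1 = 3 := rfl
  have e22 : (2 : ZMod 6) + 2 = 4 := rfl
  have e23 : (2 : ZMod 6) + 3 = 5 := rfl
  have e24 : (2 : ZMod 6) + 4 = 0 := rfl
  have e31 : (3 : ZMod 6) + 1 = 4 := rfl
  have e32 : (3 : ZMod 6) + 2 = 5 := rfl
  have e33 : (3 : ZMod 6) + 3 = 0 := rfl
  have e34 : (3 : ZMod 6) + 4 = 1 := rfl
  have e41 : (4 : ZMod 6) + 1 = 5 := rfl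
  have e42 : (4 : ZMod 6) + 2 = 0 := rfl
  have e43 : (4 : ZMod 6) + 3 = 1 := rfl
  have e44 : (4 : ZMod 6) + 4 = 2 := rfl
  have e51 : (5 : ZMod 6) + 1 = 0 := rfl
  have e52 : (5 : ZMod 6) + 2 = 1 := rfl
  have e53 : (5 : ZMod 6) + 3 = 2 := rfl
  have e54 : (5 : ZMod 6) + 4 = 3 := rfl
  have k1 := key _ h1
  have k2 := key _ h2
  have w1 := key _ W1
  have w2 := key _ W2
  have w3 := key _ W3
  have w4 := key _ W4
  have w5 := key _ W5
  have w6 := key _ W6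
  have ku := key _ hu
  apply yek
  simp only [e01, e02, e03, e04, e11, e12, e13, e14, e21, e22, e23, e24, e31, e32, e33, e34,
    e41, e42, e43, e44, e51, e52, e53, e54, h0, false_imp_iff, not_false_eq_true, true_imp_iff,
    true_and, and_true, imp_true_iff] at k1 k2 w1 w2 w3 w4 w5 w6 ku ⊢
  clear h1 h2 W1 W2 W3 W4 W5 W6 key yek hu
  by_cases c1 : c 1 <;> by_cases c2 : c 2 <;> by_cases c3 : c 3 <;> by_cases c4 : c 4 <;>
    by_cases c5 : c 5 <;>
    simp only [c1, c2, c3, c4, c5, false_imp_iff, not_false_eq_true, true_imp_iff, true_and,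
      and_true, imp_true_iff, not_true_eq_false, imp_false, and_self] at k1 k2 w2 w3 w4 w5 w6 ⊢ <;>
    omega

/-- the hypotheses of the combinatorial core -/
structure RingW (c : ZMod 6 → Prop) (u n p r : ZMod 6 → ℕ) : Prop where
  h1 : ∀ i, c i → n i = u i ∧ p (i + 1) = u i
  h2 : ∀ i, ¬ c i → u i = n i + p (i + 1) + r i
  W1 : ∀ i, 1 ≤ p i + n i
  W2 : ∀ i, c i → 2 ≤ p i + u i + n (i + 1)
  W3 : ∀ i, c i → c (i + 1) → 3 ≤ p i + u i + u (i + 1) + n (i + 2)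
  W4 : ∀ i, c i → c (i + 1) → c (i + 2) → 4 ≤ p i + u i + u (i + 1) + u (i + 2) + n (i + 3)
  W5 : ∀ i, c i → c (i + 1) → c (i + 2) → c (i + 3) →
      5 ≤ p i + u i + u (i + 1) + u (i + 2) + u (i + 3) + n (i + 4)
  W6 : ∀ i, c i → c (i + 1) → c (i + 2) → c (i + 3) → ¬ c (i + 4)

namespace RingW

variable {c : ZMod 6 → Prop} {u n p r : ZMod 6 → ℕ}

theorem rot (h : RingW c u n p r) (b : ZMod 6) : RingW (fun i => c (i + b)) (fun i => u (i + b))
    (fun i => n (i + b)) (fun i => p (i + b)) (fun i => r (i + b)) := by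
  have e : ∀ i k : ZMod 6, i + k + b = (i + b) + k := fun i k => by ring
  refine ⟨fun i => ?_, fun i => ?_, fun i => ?_, fun i => ?_, fun i => ?_, fun i => ?_, fun i => ?_,
    fun i => ?_⟩ <;> try simp only [e]
  · exact h.h1 _
  · exact h.h2 _
  · exact h.W1 _
  · exact h.W2 _
  · exact h.W3 _
  · exact h.W4 _
  · exact h.W5 _
  · exact h.W6 _

/-- the units of the ring are at the edge faces -/
theorem exact (h : RingW c u n p r) {o : ZMod 6 → ℕ} (ho : ∀ i, u i + o (i + 1) = o i + 1)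
    (ho1 : ∀ i, o i ≤ 1) (hc : ∃ i, ¬ c i) :
    ∃ o' : ZMod 6 → ℕ, (∀ i, o' i ≤ 1) ∧ (∀ i, u i + o' (i + 1) = o' i + 1) ∧
      ((∃ i, u i = 0) → o' = o) ∧
      ∀ i, ¬ c i → r i = 0 ∧ n i = o' i ∧ p (i + 1) + o' (i + 1) = 1 := by
  by_cases hz : ∃ i, u i = 0
  · refine ⟨o, ho1, ho, fun _ => rfl, fun i hi => ?_⟩
    have h' := h.rot i
    obtain ⟨j, hj⟩ := hz
    have e0 : ∀ k a : ZMod 6, k + a + i = (k + i) + a := fun k a => by ring
    have := ring_comb h'.h1 h'.h2 h'.W1 h'.W2 h'.W3 h'.W4 h'.W5 h'.W6 (o := fun k => o (k + i))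
      (fun k => by rw [e0]; exact ho _) (fun k => ho1 _) ⟨j - i, by rwa [sub_add_cancel]⟩
      (by simpa using hi)
    simpa [add_comm] using this
  · push Not at hz
    have hu : ∀ i, u i = 1 := by
      have h0 := ho 0
      have h1 := ho 1
      have h2 := ho 2
      have h3 := ho 3
      have h4 := ho 4
      have h5 := ho 5
      have e1 : (0 : ZMod 6) + 1 = 1 := rfl
      have e2 : (1 : ZMod 6) + 1 = 2 := rfl
      have e3 : (2 : ZMod 6) + 1 = 3 := rfl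
      have e4 : (3 : ZMod 6) + 1 = 4 := rfl
      have e5 : (4 : ZMod 6) + 1 = 5 := rfl
      have e6 : (5 : ZMod 6) + 1 = 0 := rfl
      rw [e1] at h0
      rw [e2] at h1
      rw [e3] at h2
      rw [e4] at h3
      rw [e5] at h4
      rw [e6] at h5
      have z0 := hz 0
      have z1 := hz 1
      have z2 := hz 2
      have z3 := hz 3
      have z4 := hz 4
      have z5 := hz 5
      intro i
      have : ∀ i : ZMod 6, i = 0 ∨ i = 1 ∨ i = 2 ∨ i = 3 ∨ i = 4 ∨ i = 5 := by decide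
      rcases this i with rfl | rfl | rfl | rfl | rfl | rfl <;> omega
    obtain ⟨b, hb⟩ := hc
    have h' := h.rot b
    have h3 := ring_comb1 h'.h1 h'.h2 h'.W1 h'.W2 h'.W3 h'.W4 h'.W5 h'.W6 (fun i => hu _)
      (by simpa using hb)
    have h4 : ∀ i, ¬ c i → r i = 0 ∧ n i = n b ∧ p (i + 1) + n b = 1 := by
      intro i hi
      have h5 := h3 (i - b) (by rwa [sub_add_cancel])
      have e0 : i - b + 1 + b = i + 1 := by ring
      simp only [sub_add_cancel, zero_add, e0] at h5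
      exact h5
    refine ⟨fun _ => n b, fun i => ?_, fun i => ?_, fun ⟨i, hi⟩ => ?_, h4⟩
    · have := (h4 b hb).2.2
      show n b ≤ 1
      omega
    · rw [hu i]
      exact add_comm _ _
    · exact absurd hi (hz i)

end RingW

/-- the states of the sites of objects -/
def EN : (n : ℕ) → PState n → Prop
  | 4, t => EE 4 t
  | 6, t => Nice t
  | _, _ => False

theorem EN_n {n : ℕ} {t : PState n} (h : EN n t) : n = 4 ∨ n = 6 := by
  unfold EN at h
  split at h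
  · exact Or.inl rfl
  · exact Or.inr rfl
  · exact h.elim

theorem windows_EN : Windows EN where
  n h := EN_n h
  adj {n s} h i := by
    rcases EN_n h with rfl | rfl
    · exact windows_EE.adj (show EE 4 s from h) i
    · obtain ⟨-, -, o, h1, h2⟩ := (show Nice s from h)
      have a1 := h2 (i - 1)
      have a2 := h2 i
      have a3 := h1 (i + 1)
      rw [sub_add_cancel] at a1
      omega
  w2 {s} h i := by
    obtain ⟨-, -, o, h1, h2⟩ := (show Nice s from h)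
    have a1 := h2 (i - 1)
    have a2 := h2 i
    have a3 := h2 (i + 1)
    have e3 : i + 1 + 1 = i + 2 := by ring
    have b := h1 (i + 2)
    rw [sub_add_cancel] at a1
    rw [e3] at a3
    omega
  w3 {s} h i := by
    obtain ⟨-, -, o, h1, h2⟩ := (show Nice s from h)
    have a1 := h2 (i - 1)
    have a2 := h2 i
    have a3 := h2 (i + 1)
    have a4 := h2 (i + 2)
    have e3 : i + 1 + 1 = i + 2 := by ring
    have e4 : i + 2 + 1 = i + 3 := by ring
    have b := h1 (i + 3)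
    rw [sub_add_cancel] at a1
    rw [e3] at a3
    rw [e4] at a4
    omega
  w4 {s} h i := by
    obtain ⟨-, -, o, h1, h2⟩ := (show Nice s from h)
    have a1 := h2 (i - 1)
    have a2 := h2 i
    have a3 := h2 (i + 1)
    have a4 := h2 (i + 2)
    have a5 := h2 (i + 3)
    have e3 : i + 1 + 1 = i + 2 := by ring
    have e4 : i + 2 + 1 = i + 3 := by ring
    have e5 : i + 3 + 1 = i + 4 := by ring
    have b := h1 (i + 4)
    rw [sub_add_cancel] at a1
    rw [e3] at a3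
    rw [e4] at a4
    rw [e5] at a5
    omega
  w5 {s} h i := by
    obtain ⟨-, -, o, h1, h2⟩ := (show Nice s from h)
    have a1 := h2 (i - 1)
    have a2 := h2 i
    have a3 := h2 (i + 1)
    have a4 := h2 (i + 2)
    have a5 := h2 (i + 3)
    have a6 := h2 (i + 4)
    have e3 : i + 1 + 1 = i + 2 := by ring
    have e4 : i + 2 + 1 = i + 3 := by ring
    have e5 : i + 3 + 1 = i + 4 := by ring
    have e6 : i + 4 + 1 = i + 5 := by ring
    have b := h1 (i + 5)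
    rw [sub_add_cancel] at a1
    rw [e3] at a3
    rw [e4] at a4
    rw [e5] at a5
    rw [e6] at a6
    omega
  sum {s} h i := by
    obtain ⟨-, -, o, h1, h2⟩ := (show Nice s from h)
    have a2 := h2 i
    have a3 := h2 (i + 1)
    have a4 := h2 (i + 2)
    have a5 := h2 (i + 3)
    have a6 := h2 (i + 4)
    have a7 := h2 (i + 5)
    have e3 : i + 1 + 1 = i + 2 := by ring
    have e4 : i + 2 + 1 = i + 3 := by ring
    have e5 : i + 3 + 1 = i + 4 := by ring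
    have e6 : i + 4 + 1 = i + 5 := by ring
    have e7 : i + 5 + 1 = i := by
      have : (5 : ZMod 6) + 1 = 0 := rfl
      rw [add_assoc, this, add_zero]
    rw [e3] at a3
    rw [e4] at a4
    rw [e5] at a5
    rw [e6] at a6
    rw [e7] at a7
    omega

namespace DMap

namespace Patch

variable {D : Type} {M : DMap D} {A : D → Prop} {δ : ZMod 6 → D}

/-- the windows at the ring of a patch; corner quads are allowed at nodes which do not have one unit -/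
theorem ringW [Fintype D] (hP : M.Patch A δ) {E : (n : ℕ) → PState n → Prop}
    (hE : Windows E) {u : ZMod 6 → ℕ} {μ : D → D} {ω : D → ℕ}
    (hloc : ∀ d, A d → M.LocalAt E μ ω d) (hb : ∀ i, M.usum A ω (δ i) = u i)
    (h02 : ∀ i, u i ≤ 2)
    (hc : ∀ i, Cor M δ i → M.deg (δ i) = 6 ∨ (u i ≠ 1 ∧ ¬ Cor M δ (i + 1)))
    (hne : ¬ ∃ r, ∀ e, A e ↔ M.SameSite r e) :
    RingW (Cor M δ) u (fun i => ω (δ i)) (fun i => ω (M.nx.symm (δ i)))
      fun i => ∑ e ∈ ((M.nodeIn A (δ i)).erase (δ i)).erase (M.nx.symm (δ (i + 1))), ω e := by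
  have hsplit : ∀ i, ¬ Cor M δ i → u i = ω (δ i) + ω (M.nx.symm (δ (i + 1))) +
      ∑ e ∈ ((M.nodeIn A (δ i)).erase (δ i)).erase (M.nx.symm (δ (i + 1))), ω e := by
    intro i hi
    have hne' : δ i ≠ M.nx.symm (δ (i + 1)) := fun h => hi ((hP.corner_iff i (i + 1)).1 h).2
    have h1 : δ i ∈ M.nodeIn A (δ i) := mem_nodeIn.2 ⟨Equiv.Perm.SameCycle.refl _ _, hP.inA i⟩
    have h2 : M.nx.symm (δ (i + 1)) ∈ (M.nodeIn A (δ i)).erase (δ i) :=
      Finset.mem_erase.2 ⟨hne'.symm, mem_nodeIn.2 ⟨hP.prev_node i, hP.prev_in _⟩⟩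
    rw [← hb i]
    unfold usum
    rw [← Finset.add_sum_erase _ _ h1, ← Finset.add_sum_erase _ _ h2, add_assoc]
  -- the numbering of the site of an edge face
  have hnum : ∀ i, ∃ (m : ℕ) (γ : ZMod m → D) (t : PState m) (a : ZMod m), E m t ∧
      M.deg (δ i) = m ∧ γ a = δ i ∧ (∀ j, M.nx (γ j) = γ (j + 1)) ∧ ∀ j, ω (γ j) = t.u j := by
    intro i
    obtain ⟨m, γ, t, hm, hγ, ⟨a, ha⟩, ht, hst⟩ := hloc _ (hP.inA i)
    exact ⟨m, γ, t, a, ht, by rw [← ha]; exact hγ.deg a, ha, hγ.nx, fun j => (hst j).2⟩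
  have hprev : ∀ {m : ℕ} {γ : ZMod m → D}, (∀ j, M.nx (γ j) = γ (j + 1)) →
      ∀ {a : ZMod m} {d : D}, γ a = d → M.nx.symm d = γ (a - 1) := by
    intro m γ hγ a d ha
    rw [Equiv.symm_apply_eq, hγ, sub_add_cancel, ha]
  have hnext : ∀ {m : ℕ} {γ : ZMod m → D}, (∀ j, M.nx (γ j) = γ (j + 1)) →
      ∀ {a : ZMod m} {i : ZMod 6}, γ a = δ i → Cor M δ i → γ (a + 1) = δ (i + 1) := by
    intro m γ hγ a i ha hi
    rw [← hγ, ha]
    exact hi
  -- corners of quads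
  have hcu : ∀ i, Cor M δ i → ω (δ i) = u i := fun i hi => by rw [← hb i, hP.cor_usum hi]
  have hquad : ∀ i, Cor M δ i → M.deg (δ i) = 4 → u i ≠ 1 ∧ ¬ Cor M δ (i + 1) := by
    intro i hi h4
    rcases hc i hi with h | h
    · omega
    · exact h
  refine ⟨?_, hsplit, ?_, ?_, ?_, ?_, ?_, ?_⟩
  · intro i hi
    have h1 := (hP.corner_iff i (i + 1)).2 ⟨rfl, hi⟩
    refine ⟨hcu _ hi, ?_⟩
    show ω (M.nx.symm (δ (i + 1))) = u i
    rw [← h1]
    exact hcu _ hi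
  · intro i
    obtain ⟨m, γ, t, a, ht, -, ha, hγ, hω⟩ := hnum i
    show 1 ≤ ω (M.nx.symm (δ i)) + ω (δ i)
    rw [← ha, hprev hγ rfl, hω, hω]
    exact hE.adj ht a
  · intro i hi
    obtain ⟨m, γ, t, a, ht, hd, ha, hγ, hω⟩ := hnum i
    have h1 := hnext hγ ha hi
    show 2 ≤ ω (M.nx.symm (δ i)) + u i + ω (δ (i + 1))
    rw [← hcu _ hi, ← h1, ← ha, hprev hγ rfl, hω, hω, hω]
    rcases hE.n ht with rfl | rfl
    · have h2 := hcu _ hi
      have h5 := (hquad _ hi hd).1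
      have h6 := h02 i
      have h3 := hE.adj ht a
      have h4 := hE.adj ht (a + 1)
      rw [add_sub_cancel_right] at h4
      rw [← ha, hω] at h2
      omega
    · exact hE.w2 ht a
  · intro i hi hi1
    obtain ⟨m, γ, t, a, ht, hd, ha, hγ, hω⟩ := hnum i
    rcases hE.n ht with rfl | rfl
    · exact absurd hi1 (hquad _ hi hd).2
    have h1 := hnext hγ ha hi
    have h2 := hnext hγ h1 hi1
    have e2 : i + 1 + 1 = i + 2 := by ring
    have f2 : a + 1 + 1 = a + 2 := by ring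
    rw [e2, f2] at h2
    show 3 ≤ ω (M.nx.symm (δ i)) + u i + u (i + 1) + ω (δ (i + 2))
    rw [← hcu _ hi, ← hcu _ hi1, ← h2, ← h1, ← ha, hprev hγ rfl, hω, hω, hω, hω]
    exact hE.w3 ht a
  · intro i hi hi1 hi2
    obtain ⟨m, γ, t, a, ht, hd, ha, hγ, hω⟩ := hnum i
    rcases hE.n ht with rfl | rfl
    · exact absurd hi1 (hquad _ hi hd).2
    have h1 := hnext hγ ha hi
    have h2 := hnext hγ h1 hi1
    have e2 : i + 1 + 1 = i + 2 := by ring
    have f2 : a + 1 + 1 = a + 2 := by ring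
    rw [e2, f2] at h2
    have h3 := hnext hγ h2 hi2
    have e3 : i + 2 + 1 = i + 3 := by ring
    have f3 : a + 2 + 1 = a + 3 := by ring
    rw [e3, f3] at h3
    show 4 ≤ ω (M.nx.symm (δ i)) + u i + u (i + 1) + u (i + 2) + ω (δ (i + 3))
    rw [← hcu _ hi, ← hcu _ hi1, ← hcu _ hi2, ← h3, ← h2, ← h1, ← ha, hprev hγ rfl, hω, hω, hω,
      hω, hω]
    exact hE.w4 ht a
  · intro i hi hi1 hi2 hi3
    obtain ⟨m, γ, t, a, ht, hd, ha, hγ, hω⟩ := hnum i
    rcases hE.n ht with rfl | rfl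
    · exact absurd hi1 (hquad _ hi hd).2
    have h1 := hnext hγ ha hi
    have h2 := hnext hγ h1 hi1
    have e2 : i + 1 + 1 = i + 2 := by ring
    have f2 : a + 1 + 1 = a + 2 := by ring
    rw [e2, f2] at h2
    have h3 := hnext hγ h2 hi2
    have e3 : i + 2 + 1 = i + 3 := by ring
    have f3 : a + 2 + 1 = a + 3 := by ring
    rw [e3, f3] at h3
    have h4 := hnext hγ h3 hi3
    have e4 : i + 3 + 1 = i + 4 := by ring
    have f4 : a + 3 + 1 = a + 4 := by ring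
    rw [e4, f4] at h4
    show 5 ≤ ω (M.nx.symm (δ i)) + u i + u (i + 1) + u (i + 2) + u (i + 3) + ω (δ (i + 4))
    rw [← hcu _ hi, ← hcu _ hi1, ← hcu _ hi2, ← hcu _ hi3, ← h4, ← h3, ← h2, ← h1, ← ha,
      hprev hγ rfl, hω, hω, hω, hω, hω, hω]
    exact hE.w5 ht a
  · intro i hi hi1 hi2 hi3 hi4
    exact hne ⟨_, hP.single_of_cor _ hi hi1 hi2 hi3 hi4⟩

/-- **Ring exactness for nice vectors.** -/
theorem ring_exactN [Fintype D] (hP : M.Patch A δ) {E : (n : ℕ) → PState n → Prop}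
    (hE : Windows E) {u : ZMod 6 → ℕ} {μ : D → D} {ω : D → ℕ}
    (hloc : ∀ d, A d → M.LocalAt E μ ω d) (hb : ∀ i, M.usum A ω (δ i) = u i)
    {o : ZMod 6 → ℕ} (ho : ∀ i, u i + o (i + 1) = o i + 1) (ho1 : ∀ i, o i ≤ 1)
    (hc : ∀ i, Cor M δ i → M.deg (δ i) = 6 ∨ (u i ≠ 1 ∧ ¬ Cor M δ (i + 1)))
    (hne : ¬ ∃ r, ∀ e, A e ↔ M.SameSite r e) :
    ∃ o' : ZMod 6 → ℕ, (∀ i, o' i ≤ 1) ∧ (∀ i, u i + o' (i + 1) = o' i + 1) ∧
      ((∃ i, u i = 0) → o' = o) ∧
      (∀ i e, M.SameNode (δ i) e → A e → e ≠ δ i → e ≠ M.nx.symm (δ (i + 1)) → ω e = 0) ∧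
      ∀ i, ¬ Cor M δ i → ω (δ i) = o' i ∧ ω (M.nx.symm (δ (i + 1))) + o' (i + 1) = 1 := by
  have h02 : ∀ i, u i ≤ 2 := fun i => by
    have := ho i
    have := ho1 i
    omega
  have hW := hP.ringW hE hloc hb h02 hc hne
  have hex : ∃ i, ¬ Cor M δ i := by
    by_contra hno
    push Not at hno
    exact hne ⟨_, hP.single_of_cor 0 (hno _) (hno _) (hno _) (hno _) (hno _)⟩
  obtain ⟨o', h1, h2, h3, h4⟩ := hW.exact ho ho1 hex
  refine ⟨o', h1, h2, h3, fun i e h6 h7 h8 h9 => ?_, fun i hi => (h4 i hi).2⟩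
  by_cases hi : Cor M δ i
  · rcases hP.cor_node hi h6 with h | h
    · exact absurd h h8
    · exact absurd (h ▸ h7) (hP.notA _)
  · exact Finset.sum_eq_zero_iff.1 (h4 i hi).1 e
      (Finset.mem_erase.2 ⟨h9, Finset.mem_erase.2 ⟨h8, mem_nodeIn.2 ⟨h6, h7⟩⟩⟩)

end Patch

variable {D : Type} {M : DMap D}

/-- the local states of an object satisfy `EN` -/
theorem localEN [Fintype D] {A : D → Prop} {δ : ZMod 6 → D} {β : (ZMod 6 → D) → Rel} {F : Flags}
    {n : ℕ} {ε : ZMod n → D} {s : PState n} {μ : D → D} {ω : D → ℕ}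
    (hn : ∀ γ G t, M.SiteNum 6 γ → A (γ 0) → β γ G t → Nice t)
    (hA : M.Sites A) (h : M.RealL (M.OL δ β F) A ε s μ ω) (d : D) (hd : A d) :
    M.LocalAt EN μ ω d := by
  obtain ⟨m, γ, t, hm, hγ, ⟨a, ha⟩, ht, hst⟩ := h.loc d hd
  refine ⟨m, γ, t, hm, hγ, ⟨a, ha⟩, ?_, hst⟩
  rcases OL_n ht with rfl | rfl
  · exact QS.ee ht
  · exact hn γ _ t hγ ((Sites.same hA (hγ.same (by decide) a 0)).1 (by rw [ha]; exact hd)) ht

/-- **Ring exactness of objects.**  Corner boxes are allowed, corner quads at nodes which do not have one unit. -/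
theorem Obj.exact [Fintype D] {A : D → Prop} {δ : ZMod 6 → D} {B : Boxes D} {F : Flags}
    (hP : M.Patch A δ) (hn : ∀ γ G t, M.SiteNum 6 γ → A (γ 0) → B.β γ G t → Nice t)
    {s : PState 6} {μ : D → D} {ω : D → ℕ} (h : M.RealL (M.OL δ B.β F) A δ s μ ω)
    {o : ZMod 6 → ℕ} (ho : ∀ i, s.u i + o (i + 1) = o i + 1) (ho1 : ∀ i, o i ≤ 1)
    (hc : ∀ i, Patch.Cor M δ i → M.deg (δ i) = 6 ∨ (s.u i ≠ 1 ∧ ¬ Patch.Cor M δ (i + 1)))
    (hne : ¬ ∃ r, ∀ e, A e ↔ M.SameSite r e) :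
    ∃ o' : ZMod 6 → ℕ, (∀ i, o' i ≤ 1) ∧ (∀ i, s.u i + o' (i + 1) = o' i + 1) ∧
      ((∃ i, s.u i = 0) → o' = o) ∧
      (∀ i e, M.SameNode (δ i) e → A e → e ≠ δ i → e ≠ M.nx.symm (δ (i + 1)) → ω e = 0) ∧
      ∀ i, ¬ Patch.Cor M δ i → ω (δ i) = o' i ∧ ω (M.nx.symm (δ (i + 1))) + o' (i + 1) = 1 :=
  hP.ring_exactN windows_EN (localEN hn hP.bd.site h) h.bdry ho ho1 hc hne

end DMap

end GT33
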