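import Pool.Agent.GT33.CObj
import Pool.Agent.GT33.GenObj
import Pool.Agent.GT33.ExactO
import Pool.Agent.GT33.DJoin

/-!
# GT33 module CHORD: a hexagon replaced by two quads

`chord M k hk`: the hexagon `k` gets a chord between the nodes of `k 5` and `k 2`; the new sites are
`cq1 = (k 0, k 1, k 2, x)` and `cq2 = (k 3, k 4, k 5, y)`, where `x = inr true`, `y = inr false` are the darts of the
chord.  `chord_legal`: the result is legal for a hexagon at the ring of a generic patch.
-/

open Classical

namespace GT33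

namespace DMap

variable {D : Type} {M : DMap D} {k : ZMod 6 → D}

/-- the permutation of the map with a chord -/
noncomputable def chNx (M : DMap D) (k : ZMod 6 → D) (hk : M.SiteNum 6 k) :
    Equiv.Perm (D ⊕ Bool) where
  toFun x := match x with
    | .inl d => if d = k 2 then .inr true else if d = k 5 then .inr false else .inl (M.nx d)
    | .inr true => .inl (k 0)
    | .inr false => .inl (k 3)
  invFun x := match x with
    | .inl d => if d = k 0 then .inr true else if d = k 3 then .inr false else .inl (M.nx.symm d)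
    | .inr true => .inl (k 2)
    | .inr false => .inl (k 5)
  left_inv := by
    intro x
    have e3 : M.nx (k 2) = k 3 := hk.nx 2
    have e0 : M.nx (k 5) = k 0 := hk.nx 5
    have e35 : k 5 ≠ k 2 := fun h => absurd (hk.inj h) (by decide)
    rcases x with d | (_ | _)
    · by_cases h2 : d = k 2
      · simp [h2]
      · by_cases h5 : d = k 5
        · simp [h5, e35]
        · have h0 : M.nx d ≠ k 0 := fun h => h5 (M.nx.injective (by rw [h, e0]))
          have h3 : M.nx d ≠ k 3 := fun h => h2 (M.nx.injective (by rw [h, e3]))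
          simp [h2, h5, h0, h3]
    · have h30 : k 3 ≠ k 0 := fun h => absurd (hk.inj h) (by decide)
      simp [h30]
    · simp
  right_inv := by
    intro x
    have e3 : M.nx (k 2) = k 3 := hk.nx 2
    have e0 : M.nx (k 5) = k 0 := hk.nx 5
    have e30 : k 3 ≠ k 0 := fun h => absurd (hk.inj h) (by decide)
    have e52 : k 5 ≠ k 2 := fun h => absurd (hk.inj h) (by decide)
    rcases x with d | (_ | _)
    · by_cases h0 : d = k 0
      · simp [h0]
      · by_cases h3 : d = k 3
        · simp [h3, e30]
        · have h2 : M.nx.symm d ≠ k 2 := fun h => h3 (by rw [← e3, ← h, Equiv.apply_symm_apply])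
          have h5 : M.nx.symm d ≠ k 5 := fun h => h0 (by rw [← e0, ← h, Equiv.apply_symm_apply])
          simp [h0, h3, h2, h5]
    · simp [e52]
    · simp

/-- the map with a chord in the hexagon `k` -/
noncomputable def chord (M : DMap D) (k : ZMod 6 → D) (hk : M.SiteNum 6 k) : DMap (D ⊕ Bool) where
  nx := chNx M k hk
  al x := match x with
    | .inl d => .inl (M.al d)
    | .inr b => .inr (!b)
  inv x := by
    rcases x with d | b
    · simp [M.inv]
    · simp
  ne x := by
    rcases x with d | b
    · simp [M.ne]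
    · simp

/-- the first quad -/
def cq1 (k : ZMod 6 → D) (i : ZMod 4) : D ⊕ Bool :=
  (![.inl (k 0), .inl (k 1), .inl (k 2), .inr true] : Fin 4 → D ⊕ Bool) i

/-- the second quad -/
def cq2 (k : ZMod 6 → D) (i : ZMod 4) : D ⊕ Bool :=
  (![.inl (k 3), .inl (k 4), .inl (k 5), .inr false] : Fin 4 → D ⊕ Bool) i

section

variable (hk : M.SiteNum 6 k)

theorem ch_al (d : D) : (chord M k hk).al (.inl d) = .inl (M.al d) := rfl

theorem ch_alr (b : Bool) : (chord M k hk).al (.inr b) = .inr (!b) := rfl

theorem ch_nx2 : (chord M k hk).nx (.inl (k 2)) = .inr true := by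
  show (if k 2 = k 2 then _ else _) = _
  simp

theorem ch_nx5 : (chord M k hk).nx (.inl (k 5)) = .inr false := by
  have h : k 5 ≠ k 2 := fun h => absurd (hk.inj h) (by decide)
  show (if k 5 = k 2 then _ else _) = _
  simp [h]

theorem ch_nxt : (chord M k hk).nx (.inr true) = .inl (k 0) := rfl

theorem ch_nxf : (chord M k hk).nx (.inr false) = .inl (k 3) := rfl

theorem ch_nx {d : D} (h2 : d ≠ k 2) (h5 : d ≠ k 5) : (chord M k hk).nx (.inl d) = .inl (M.nx d) := by
  show (if d = k 2 then _ else _) = _
  simp [h2, h5]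

theorem ch_num1 : (chord M k hk).SiteNum 4 (cq1 k) := by
  have hi : ∀ {i j : ZMod 6}, k i = k j → i = j := fun h => hk.inj h
  have n0 : M.nx (k 0) = k 1 := hk.nx 0
  have n1 : M.nx (k 1) = k 2 := hk.nx 1
  refine ⟨fun i j hij => ?_, fun i => ?_⟩
  · have : ∀ i : ZMod 4, i = 0 ∨ i = 1 ∨ i = 2 ∨ i = 3 := by decide
    have c0 : cq1 k 0 = .inl (k 0) := rfl
    have c1 : cq1 k 1 = .inl (k 1) := rfl
    have c2 : cq1 k 2 = .inl (k 2) := rfl
    have c3 : cq1 k 3 = .inr true := rfl
    rcases this i with rfl | rfl | rfl | rfl <;> rcases this j with rfl | rfl | rfl | rfl <;>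
      simp only [c0, c1, c2, c3, Sum.inl.injEq, reduceCtorEq] at hij ⊢ <;>
      exact absurd (hi hij) (by decide)
  · have : ∀ i : ZMod 4, i = 0 ∨ i = 1 ∨ i = 2 ∨ i = 3 := by decide
    rcases this i with rfl | rfl | rfl | rfl
    · show (chord M k hk).nx (.inl (k 0)) = .inl (k 1)
      rw [ch_nx hk (fun h => absurd (hi h) (by decide)) (fun h => absurd (hi h) (by decide)), n0]
    · show (chord M k hk).nx (.inl (k 1)) = .inl (k 2)
      rw [ch_nx hk (fun h => absurd (hi h) (by decide)) (fun h => absurd (hi h) (by decide)), n1]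
    · exact ch_nx2 hk
    · exact ch_nxt hk

theorem ch_num2 : (chord M k hk).SiteNum 4 (cq2 k) := by
  have hi : ∀ {i j : ZMod 6}, k i = k j → i = j := fun h => hk.inj h
  have n3 : M.nx (k 3) = k 4 := hk.nx 3
  have n4 : M.nx (k 4) = k 5 := hk.nx 4
  refine ⟨fun i j hij => ?_, fun i => ?_⟩
  · have : ∀ i : ZMod 4, i = 0 ∨ i = 1 ∨ i = 2 ∨ i = 3 := by decide
    have c0 : cq2 k 0 = .inl (k 3) := rfl
    have c1 : cq2 k 1 = .inl (k 4) := rfl
    have c2 : cq2 k 2 = .inl (k 5) := rfl
    have c3 : cq2 k 3 = .inr false := rfl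
    rcases this i with rfl | rfl | rfl | rfl <;> rcases this j with rfl | rfl | rfl | rfl <;>
      simp only [c0, c1, c2, c3, Sum.inl.injEq, reduceCtorEq] at hij ⊢ <;>
      exact absurd (hi hij) (by decide)
  · have : ∀ i : ZMod 4, i = 0 ∨ i = 1 ∨ i = 2 ∨ i = 3 := by decide
    rcases this i with rfl | rfl | rfl | rfl
    · show (chord M k hk).nx (.inl (k 3)) = .inl (k 4)
      rw [ch_nx hk (fun h => absurd (hi h) (by decide)) (fun h => absurd (hi h) (by decide)), n3]
    · show (chord M k hk).nx (.inl (k 4)) = .inl (k 5)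
      rw [ch_nx hk (fun h => absurd (hi h) (by decide)) (fun h => absurd (hi h) (by decide)), n4]
    · exact ch_nx5 hk
    · exact ch_nxf hk

/-- sites of the new map -/
theorem ch_sites_iff {A : D ⊕ Bool → Prop} : (chord M k hk).Sites A ↔
    (∀ d, d ≠ k 2 → d ≠ k 5 → (A (.inl (M.nx d)) ↔ A (.inl d))) ∧ (A (.inr true) ↔ A (.inl (k 2))) ∧
      (A (.inr true) ↔ A (.inl (k 0))) ∧ (A (.inr false) ↔ A (.inl (k 5))) ∧
      (A (.inr false) ↔ A (.inl (k 3))) := by
  constructor
  · intro h
    refine ⟨fun d h2 h5 => ?_, ?_, ?_, ?_, ?_⟩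
    · have := h (.inl d)
      rwa [ch_nx hk h2 h5] at this
    · have := h (.inl (k 2))
      rwa [ch_nx2] at this
    · exact (h (.inr true)).symm
    · have := h (.inl (k 5))
      rwa [ch_nx5] at this
    · exact (h (.inr false)).symm
  · rintro ⟨h1, h2, h3, h4, h5⟩ x
    rcases x with d | (_ | _)
    · by_cases e2 : d = k 2
      · subst e2
        rw [ch_nx2]
        exact h2
      · by_cases e5 : d = k 5
        · subst e5
          rw [ch_nx5]
          exact h4
        · rw [ch_nx hk e2 e5]
          exact h1 d e2 e5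
    · rw [ch_nxf]
      exact h5.symm
    · rw [ch_nxt]
      exact h3.symm

/-- a set of sites of the new map on the quads -/
theorem ch_sites_k {A : D ⊕ Bool → Prop} (hA : (chord M k hk).Sites A) :
    (A (.inl (k 0)) ↔ A (.inr true)) ∧ (A (.inl (k 1)) ↔ A (.inr true)) ∧
      (A (.inl (k 2)) ↔ A (.inr true)) ∧ (A (.inl (k 3)) ↔ A (.inr false)) ∧
      (A (.inl (k 4)) ↔ A (.inr false)) ∧ (A (.inl (k 5)) ↔ A (.inr false)) := by
  have h1 := ch_num1 hk
  have h2 := ch_num2 hk
  have key1 : ∀ i, A (cq1 k i) ↔ A (cq1 k 3) := fun i =>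
    (Sites.same (M := chord M k hk) hA (h1.same (by decide) i 3))
  have key2 : ∀ i, A (cq2 k i) ↔ A (cq2 k 3) := fun i =>
    (Sites.same (M := chord M k hk) hA (h2.same (by decide) i 3))
  exact ⟨key1 0, key1 1, key1 2, key2 0, key2 1, key2 2⟩

/-- sites which do not separate the quads are sites of the old map -/
theorem ch_sites_down {A : D ⊕ Bool → Prop} (hA : (chord M k hk).Sites A)
    (h : A (.inr true) ↔ A (.inr false)) : M.Sites fun d => A (.inl d) := by
  obtain ⟨h0, h1, h2, h3, h4, h5⟩ := ch_sites_k hk hA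
  obtain ⟨g, -⟩ := (ch_sites_iff hk).1 hA
  intro d
  show A (.inl (M.nx d)) ↔ A (.inl d)
  by_cases e2 : d = k 2
  · subst e2
    have : M.nx (k 2) = k 3 := hk.nx 2
    rw [this, h3, h2, h]
  · by_cases e5 : d = k 5
    · subst e5
      have : M.nx (k 5) = k 0 := hk.nx 5
      rw [this, h0, h5, h]
    · exact g d e2 e5

/-- sites which separate the quads, with the hexagon added -/
theorem ch_sites_add {A : D ⊕ Bool → Prop} (hA : (chord M k hk).Sites A) :
    M.Sites fun d => A (.inl d) ∨ M.SameSite (k 0) d := by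
  obtain ⟨g, -⟩ := (ch_sites_iff hk).1 hA
  intro d
  show (A (.inl (M.nx d)) ∨ M.SameSite (k 0) (M.nx d)) ↔ (A (.inl d) ∨ M.SameSite (k 0) d)
  have h1 : M.SameSite (k 0) (M.nx d) ↔ M.SameSite (k 0) d := Equiv.Perm.sameCycle_apply_right
  rw [h1]
  by_cases h2 : M.SameSite (k 0) d
  · simp [h2]
  · simp only [h2, or_false]
    refine g d (fun e => h2 ?_) fun e => h2 ?_
    · rw [e]; exact h_same hk 0 2
    · rw [e]; exact h_same hk 0 5

theorem ch_hom (h : M.Hom) : (chord M k hk).Hom := by
  intro c hc hs
  have hcx : c (.inr true) = c (.inr false) := by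
    have := hc (.inr false)
    simpa [ch_alr] using this
  obtain ⟨w, hw1, hw2⟩ := h (fun d => c (.inl d)) (fun d => hc (.inl d)) (by
    intro A hA
    by_cases h0 : k 0 ∈ A
    · have hall : ∀ i, k i ∈ A := by
        have key : ∀ n : ℕ, k n ∈ A := by
          intro n
          induction n with
          | zero => simpa using h0
          | succ n ih =>
            push_cast
            rw [← hk.nx]
            exact (hA _).2 ih
        intro i
        have := key i.val
        rwa [ZMod.natCast_zmod_val] at this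
      have h1 := hs (A.map ⟨Sum.inl, Sum.inl_injective⟩ ∪ {.inr true, .inr false}) (by
        intro d
        have hmem : ∀ x : D ⊕ Bool, x ∈ A.map ⟨Sum.inl, Sum.inl_injective⟩ ∪ {.inr true, .inr false} ↔
            (∃ b, x = .inr b) ∨ ∃ e ∈ A, x = .inl e := by
          intro x
          rcases x with e | (_ | _) <;> simp
        rw [hmem, hmem]
        rcases d with d | (_ | _)
        · by_cases e2 : d = k 2
          · subst e2
            rw [ch_nx2]
            simp [hall 2]
          · by_cases e5 : d = k 5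
            · subst e5
              rw [ch_nx5]
              simp [hall 5]
            · rw [ch_nx hk e2 e5]
              simp [hA d]
        · rw [ch_nxf]
          simp [hall 3]
        · rw [ch_nxt]
          simp [hall 0])
      rw [Finset.sum_union (by
        rw [Finset.disjoint_left]
        intro x hx
        rw [Finset.mem_map] at hx
        obtain ⟨e, -, rfl⟩ := hx
        simp), Finset.sum_map, Finset.sum_pair (by simp), hcx, CharTwo.add_self_eq_zero,
        add_zero] at h1
      exact h1
    · have hno : ∀ i, k i ∉ A := by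
        have key : ∀ n : ℕ, k n ∉ A := by
          intro n
          induction n with
          | zero => simpa using h0
          | succ n ih =>
            push_cast
            rw [← hk.nx]
            exact fun h => ih ((hA _).1 h)
        intro i
        have := key i.val
        rwa [ZMod.natCast_zmod_val] at this
      have h1 := hs (A.map ⟨Sum.inl, Sum.inl_injective⟩) (by
        intro d
        have hmem : ∀ x : D ⊕ Bool, x ∈ A.map ⟨Sum.inl, Sum.inl_injective⟩ ↔ ∃ e ∈ A, x = .inl e := by
          intro x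
          rcases x with e | (_ | _) <;> simp
        rw [hmem, hmem]
        rcases d with d | (_ | _)
        · by_cases e2 : d = k 2
          · subst e2
            rw [ch_nx2]
            simp [hno 2]
          · by_cases e5 : d = k 5
            · subst e5
              rw [ch_nx5]
              simp [hno 5]
            · rw [ch_nx hk e2 e5]
              simp [hA d]
        · rw [ch_nxf]
          simp [hno 3]
        · rw [ch_nxt]
          simp [hno 0])
      rw [Finset.sum_map] at h1
      exact h1)
  -- the sum of the first quad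
  have hx : c (.inl (k 0)) + c (.inl (k 1)) + c (.inl (k 2)) + c (.inr true) = 0 := by
    have hi : ∀ {i j : ZMod 6}, k i = k j → i = j := fun h => hk.inj h
    have h1 := hs ({.inl (k 0), .inl (k 1), .inl (k 2), .inr true} : Finset (D ⊕ Bool)) (by
      have h2 := ch_sites_iff (A := fun x => x ∈
        ({.inl (k 0), .inl (k 1), .inl (k 2), .inr true} : Finset (D ⊕ Bool))) hk
      refine h2.2 ⟨fun d e2 e5 => ?_, by simp, by simp, ?_, ?_⟩
      · have n0 : M.nx (k 0) = k 1 := hk.nx 0
        have n1 : M.nx (k 1) = k 2 := hk.nx 1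
        have n5 : M.nx (k 5) = k 0 := hk.nx 5
        have f0 : M.nx d ≠ k 0 := fun h => e5 (M.nx.injective (by rw [h, n5]))
        have f1 : M.nx d = k 1 ↔ d = k 0 := ⟨fun h => M.nx.injective (by rw [h, n0]), fun h => by rw [h, n0]⟩
        have f2 : M.nx d = k 2 ↔ d = k 1 := ⟨fun h => M.nx.injective (by rw [h, n1]), fun h => by rw [h, n1]⟩
        simp [e2, f0, f1, f2]
      · have a0 : k 5 ≠ k 0 := fun h => absurd (hi h) (by decide)
        have a1 : k 5 ≠ k 1 := fun h => absurd (hi h) (by decide)
        have a2 : k 5 ≠ k 2 := fun h => absurd (hi h) (by decide)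
        simp [a0, a1, a2]
      · have a0 : k 3 ≠ k 0 := fun h => absurd (hi h) (by decide)
        have a1 : k 3 ≠ k 1 := fun h => absurd (hi h) (by decide)
        have a2 : k 3 ≠ k 2 := fun h => absurd (hi h) (by decide)
        simp [a0, a1, a2])
    have a01 : k 0 ≠ k 1 := fun h => absurd (hi h) (by decide)
    have a02 : k 0 ≠ k 2 := fun h => absurd (hi h) (by decide)
    have a12 : k 1 ≠ k 2 := fun h => absurd (hi h) (by decide)
    rw [Finset.sum_insert (by simp [a01, a02]), Finset.sum_insert (by simp [a12]),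
      Finset.sum_insert (by simp), Finset.sum_singleton] at h1
    rw [← h1]
    ring
  have p0 : M.nx.symm (k 0) = k 5 := by
    rw [Equiv.symm_apply_eq]
    exact (hk.nx 5).symm
  have p1 : M.nx.symm (k 1) = k 0 := by
    rw [Equiv.symm_apply_eq]
    exact (hk.nx 0).symm
  have p2 : M.nx.symm (k 2) = k 1 := by
    rw [Equiv.symm_apply_eq]
    exact (hk.nx 1).symm
  have p3 : M.nx.symm (k 3) = k 2 := by
    rw [Equiv.symm_apply_eq]
    exact (hk.nx 2).symm
  have hwx : w (k 5) + w (k 2) = c (.inr true) := by
    have g0 := hw2 (k 0)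
    have g1 := hw2 (k 1)
    have g2 := hw2 (k 2)
    rw [p0] at g0
    rw [p1] at g1
    rw [p2] at g2
    rw [← g0, ← g1, ← g2] at hx
    have : ∀ a b c d e : ZMod 2, a + b + (c + a) + (d + c) + e = 0 → b + d = e := by decide
    exact this _ _ _ _ _ hx
  have snx : ∀ d, d ≠ k 0 → d ≠ k 3 → (chord M k hk).nx.symm (.inl d) = .inl (M.nx.symm d) := by
    intro d e0 e3
    rw [Equiv.symm_apply_eq, ch_nx hk, Equiv.apply_symm_apply]
    · exact fun h => e3 (by rw [← (show M.nx (k 2) = k 3 from hk.nx 2), ← h, Equiv.apply_symm_apply])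
    · exact fun h => e0 (by rw [← (show M.nx (k 5) = k 0 from hk.nx 5), ← h, Equiv.apply_symm_apply])
  have sx0 : (chord M k hk).nx.symm (.inl (k 0)) = .inr true := by
    rw [Equiv.symm_apply_eq, ch_nxt]
  have sx3 : (chord M k hk).nx.symm (.inl (k 3)) = .inr false := by
    rw [Equiv.symm_apply_eq, ch_nxf]
  have sxt : (chord M k hk).nx.symm (.inr true) = .inl (k 2) := by
    rw [Equiv.symm_apply_eq, ch_nx2]
  have sxf : (chord M k hk).nx.symm (.inr false) = .inl (k 5) := by
    rw [Equiv.symm_apply_eq, ch_nx5]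
  refine ⟨fun x => match x with
    | .inl d => w d
    | .inr true => w (k 5)
    | .inr false => w (k 2), fun x => ?_, fun x => ?_⟩
  · rw [fs_def]
    rcases x with d | (_ | _)
    · rw [ch_al]
      have h1 := hw1 d
      rw [fs_def] at h1
      by_cases e0 : M.al d = k 0
      · rw [e0, sx0]
        rw [e0, p0] at h1
        exact h1
      · by_cases e3 : M.al d = k 3
        · rw [e3, sx3]
          rw [e3, p3] at h1
          exact h1
        · rw [snx _ e0 e3]
          exact h1
    · rw [ch_alr]
      show (match (chord M k hk).nx.symm (.inr true) with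
        | .inl d => w d
        | .inr true => w (k 5)
        | .inr false => w (k 2)) = w (k 2)
      rw [sxt]
    · rw [ch_alr]
      show (match (chord M k hk).nx.symm (.inr false) with
        | .inl d => w d
        | .inr true => w (k 5)
        | .inr false => w (k 2)) = w (k 5)
      rw [sxf]
  · rcases x with d | (_ | _)
    · by_cases e0 : d = k 0
      · subst e0
        rw [sx0]
        have h1 := hw2 (k 0)
        rw [p0] at h1
        exact h1
      · by_cases e3 : d = k 3
        · subst e3
          rw [sx3]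
          have h1 := hw2 (k 3)
          rw [p3] at h1
          exact h1
        · rw [snx _ e0 e3]
          exact hw2 d
    · rw [sxf]
      show w (k 2) + w (k 5) = _
      rw [add_comm, hwx, hcx]
    · rw [sxt]
      exact hwx

theorem ch_conn (h : M.Conn) : (chord M k hk).Conn := by
  intro A hA hal hex
  have htf : A (.inr true) ↔ A (.inr false) :=
    ⟨fun h1 => hal (.inr true) h1, fun h1 => hal (.inr false) h1⟩
  have h1 := ch_sites_down hk hA htf
  obtain ⟨g0, -, -, g3, -⟩ := ch_sites_k hk hA
  have h2 := h _ h1 (fun d hd => hal (.inl d) hd) (by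
    obtain ⟨x, hx⟩ := hex
    rcases x with d | (_ | _)
    · exact ⟨d, hx⟩
    · exact ⟨k 3, g3.2 hx⟩
    · exact ⟨k 0, g0.2 hx⟩)
  intro x
  rcases x with d | (_ | _)
  · exact h2 d
  · exact g3.1 (h2 _)
  · exact g0.1 (h2 _)


/-! ### degrees -/

theorem ch_site_inl {d e : D} (h : (chord M k hk).SameSite (.inl d) (.inl e)) : M.SameSite d e := by
  have h1 : (chord M k hk).Sites fun x => match x with
      | .inl y => M.SameSite d y
      | .inr _ => M.SameSite d (k 0) := by
    refine (ch_sites_iff hk).2 ⟨fun y _ _ => ?_, ?_, Iff.rfl, ?_, ?_⟩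
    · exact Equiv.Perm.sameCycle_apply_right
    · exact ⟨fun h2 => h2.trans (h_same hk 0 2), fun h2 => h2.trans (h_same hk 2 0)⟩
    · exact ⟨fun h2 => h2.trans (h_same hk 0 5), fun h2 => h2.trans (h_same hk 5 0)⟩
    · exact ⟨fun h2 => h2.trans (h_same hk 0 3), fun h2 => h2.trans (h_same hk 3 0)⟩
  exact (Sites.same h1 h).1 (Equiv.Perm.SameCycle.refl _ _)

/-- numberings of unchanged sites -/
theorem ch_siteNum {n : ℕ} {γ : ZMod n → D} (hγ : M.SiteNum n γ) (h : ∀ i, ¬ M.SameSite (k 0) (γ i)) :
    (chord M k hk).SiteNum n fun i => .inl (γ i) := by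
  refine ⟨fun i j hij => hγ.inj (Sum.inl_injective hij), fun i => ?_⟩
  show (chord M k hk).nx (.inl (γ i)) = .inl (γ (i + 1))
  rw [ch_nx hk (fun e => h i (by rw [e]; exact h_same hk 0 2)) (fun e => h i (by rw [e]; exact h_same hk 0 5)),
    hγ.nx]

theorem exists_num [Finite D] (hL : M.Legal) (d : D) : ∃ γ : ZMod (M.deg d) → D, M.SiteNum (M.deg d) γ ∧
    γ 0 = d := by
  have hpos : M.deg d ≠ 0 := by
    rcases hL.deg d with h | h <;> omega
  have : NeZero (M.deg d) := ⟨hpos⟩
  have hper : (M.nx)^[M.deg d] d = d := Function.iterate_minimalPeriod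
  have hinj : ∀ a b : ℕ, a < M.deg d → b < M.deg d → (M.nx)^[a] d = (M.nx)^[b] d → a = b := by
    intro a b ha hb hab
    exact Function.iterate_injOn_Iio_minimalPeriod ha hb hab
  refine ⟨fun i => (M.nx)^[i.val] d, ⟨fun i j hij => ?_, fun i => ?_⟩, ?_⟩
  · exact ZMod.val_injective _ (hinj _ _ (ZMod.val_lt i) (ZMod.val_lt j) hij)
  · show M.nx ((M.nx)^[i.val] d) = (M.nx)^[(i + 1).val] d
    rw [← Function.iterate_succ_apply' (⇑M.nx)]
    rw [ZMod.val_add, ZMod.val_one_eq_one_mod]
    have h1 : ∀ a : ℕ, (M.nx)^[a % M.deg d] d = (M.nx)^[a] d := by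
      intro a
      conv_rhs => rw [← Nat.mod_add_div a (M.deg d)]
      rw [Function.iterate_add_apply]
      have h2 : ∀ q : ℕ, (M.nx)^[M.deg d * q] d = d := by
        intro q
        induction q with
        | zero => rfl
        | succ q ih => rw [Nat.mul_succ, Function.iterate_add_apply, hper, ih]
      rw [h2]
    rw [h1, Nat.succ_eq_add_one]
    by_cases h3 : M.deg d = 1
    · rcases hL.deg d with h | h <;> omega
    · rw [Nat.mod_eq_of_lt (by omega)]
  · show (M.nx)^[(0 : ZMod (M.deg d)).val] d = d
    rw [ZMod.val_zero]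
    rfl

theorem ch_deg_inl [Finite D] (hL : M.Legal) {d : D} (h : ¬ M.SameSite (k 0) d) :
    (chord M k hk).deg (.inl d) = M.deg d := by
  obtain ⟨γ, hγ, h0⟩ := exists_num hL d
  have hpos : M.deg d ≠ 0 := by
    rcases hL.deg d with h | h <;> omega
  have h1 := ch_siteNum hk hγ (fun i h2 => h (h2.trans (by rw [← h0]; exact hγ.same hpos i 0)))
  have h3 : (chord M k hk).deg (.inl d) = (chord M k hk).deg (.inl (γ 0)) := by rw [h0]
  rw [h3]
  exact h1.deg 0

theorem ch_deg_q {d : D ⊕ Bool} (h : (∃ i, cq1 k i = d) ∨ ∃ i, cq2 k i = d) :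
    (chord M k hk).deg d = 4 := by
  rcases h with ⟨i, rfl⟩ | ⟨i, rfl⟩
  · exact (ch_num1 hk).deg i
  · exact (ch_num2 hk).deg i

include hk in
theorem ch_q_or [Finite D] (x : D ⊕ Bool) : (∃ i, cq1 k i = x) ∨ (∃ i, cq2 k i = x) ∨
    ∃ d, x = .inl d ∧ ¬ M.SameSite (k 0) d := by
  rcases x with d | (_ | _)
  · by_cases h : M.SameSite (k 0) d
    · obtain ⟨j, rfl⟩ := hk.mem h
      rcases z6 j with rfl | rfl | rfl | rfl | rfl | rfl
      · exact Or.inl ⟨0, rfl⟩
      · exact Or.inl ⟨1, rfl⟩
      · exact Or.inl ⟨2, rfl⟩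
      · exact Or.inr (Or.inl ⟨0, rfl⟩)
      · exact Or.inr (Or.inl ⟨1, rfl⟩)
      · exact Or.inr (Or.inl ⟨2, rfl⟩)
    · exact Or.inr (Or.inr ⟨d, rfl, h⟩)
  · exact Or.inr (Or.inl ⟨3, rfl⟩)
  · exact Or.inl ⟨3, rfl⟩

theorem ch_q12 [Finite D] : ¬ (chord M k hk).SameSite (.inr true) (.inr false) := by
  intro h
  obtain ⟨j, hj⟩ := (ch_num1 hk).mem (i := 3) (d := .inr false) h
  have : ∀ i : ZMod 4, i = 0 ∨ i = 1 ∨ i = 2 ∨ i = 3 := by decide
  rcases this j with rfl | rfl | rfl | rfl <;> exact absurd hj (by simp [cq1])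

theorem ch_noloop [Finite D] (hL : M.Legal) (x : D ⊕ Bool) :
    ¬ (chord M k hk).SameSite x ((chord M k hk).al x) := by
  rcases x with d | (_ | _)
  · exact fun h => hL.noloop d (ch_site_inl hk h)
  · exact fun h => ch_q12 hk h.symm
  · exact ch_q12 hk

/-! ### cuts -/

theorem ch_cut [Fintype D] (A : D ⊕ Bool → Prop) : (chord M k hk).cut A =
    (∑ d, if A (.inl d) ∧ ¬ A (.inl (M.al d)) then 1 else 0) +
      ((if A (.inr true) ∧ ¬ A (.inr false) then 1 else 0) +
        if A (.inr false) ∧ ¬ A (.inr true) then 1 else 0) := by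
  rw [cut_eq_sum, Fintype.sum_sum_type, Fintype.sum_bool]
  rfl

theorem ch_cut_down [Fintype D] {A : D ⊕ Bool → Prop} (h : A (.inr true) ↔ A (.inr false)) :
    (chord M k hk).cut A = M.cut fun d => A (.inl d) := by
  rw [ch_cut, cut_eq_sum]
  by_cases h1 : A (.inr true)
  · simp [h1, h.1 h1]
  · have h2 : ¬ A (.inr false) := fun h3 => h1 (h.2 h3)
    simp [h1, h2]

/-- three darts -/
theorem sum3 [Fintype D] {f g : D → ℕ} {a b c : D} (h : ∀ d, d ≠ a → d ≠ b → d ≠ c → f d ≤ g d)
    (h1 : ∀ d, f d ≤ 1) : ∑ d, f d ≤ ∑ d, g d + 3 := by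
  have h2 : ∀ d, f d ≤ g d + ((if d = a then 1 else 0) + (if d = b then 1 else 0) +
      if d = c then 1 else 0) := by
    intro d
    by_cases ha : d = a
    · have := h1 d
      simp only [ha, if_true]
      rw [ha] at this
      omega
    · by_cases hb : d = b
      · have := h1 d
        simp only [hb, if_true]
        rw [hb] at this
        omega
      · by_cases hc : d = c
        · have := h1 d
          simp only [hc, if_true]
          rw [hc] at this
          omega
        · have := h d ha hb hc
          omega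
  refine (Finset.sum_le_sum fun d _ => h2 d).trans ?_
  rw [Finset.sum_add_distrib, Finset.sum_add_distrib, Finset.sum_add_distrib]
  simp

/-- the cut of a set which separates the quads -/
theorem ch_cut_add [Fintype D] {A : D ⊕ Bool → Prop} (hA : (chord M k hk).Sites A)
    (h : ¬ (A (.inr true) ↔ A (.inr false))) :
    (M.cut fun d => A (.inl d) ∨ M.SameSite (k 0) d) ≤ (chord M k hk).cut A + 2 := by
  obtain ⟨g0, g1, g2, g3, g4, g5⟩ := ch_sites_k hk hA
  have h2 : ∀ d, M.SameSite (k 0) d → ¬ A (.inl d) →
      (A (.inr true) ∧ (d = k 3 ∨ d = k 4 ∨ d = k 5)) ∨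
        (A (.inr false) ∧ (d = k 0 ∨ d = k 1 ∨ d = k 2)) := by
    intro d hd hdA
    obtain ⟨j, rfl⟩ := hk.mem hd
    by_cases ht : A (.inr true)
    · have hf : ¬ A (.inr false) := fun hf => h ⟨fun _ => hf, fun _ => ht⟩
      rcases z6 j with rfl | rfl | rfl | rfl | rfl | rfl
      · exact absurd (g0.2 ht) hdA
      · exact absurd (g1.2 ht) hdA
      · exact absurd (g2.2 ht) hdA
      · exact Or.inl ⟨ht, Or.inl rfl⟩
      · exact Or.inl ⟨ht, Or.inr (Or.inl rfl)⟩
      · exact Or.inl ⟨ht, Or.inr (Or.inr rfl)⟩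
    · have hf : A (.inr false) := by
        by_contra hf
        exact h ⟨fun x => absurd x ht, fun x => absurd x hf⟩
      rcases z6 j with rfl | rfl | rfl | rfl | rfl | rfl
      · exact Or.inr ⟨hf, Or.inl rfl⟩
      · exact Or.inr ⟨hf, Or.inr (Or.inl rfl)⟩
      · exact Or.inr ⟨hf, Or.inr (Or.inr rfl)⟩
      · exact absurd (g3.2 hf) hdA
      · exact absurd (g4.2 hf) hdA
      · exact absurd (g5.2 hf) hdA
  rw [ch_cut]
  have h5 : ((if A (.inr true) ∧ ¬ A (.inr false) then 1 else 0) +
        if A (.inr false) ∧ ¬ A (.inr true) then 1 else 0) = 1 := by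
    by_cases ht : A (.inr true) <;> by_cases hf : A (.inr false)
    · exact absurd ⟨fun _ => hf, fun _ => ht⟩ h
    · simp [ht, hf]
    · simp [ht, hf]
    · exact absurd ⟨fun x => absurd x ht, fun x => absurd x hf⟩ h
  rw [h5]
  have key : ∀ a b c : D, (∀ d, M.SameSite (k 0) d → ¬ A (.inl d) → d = a ∨ d = b ∨ d = c) →
      (M.cut fun d => A (.inl d) ∨ M.SameSite (k 0) d) ≤
        (∑ d, if A (.inl d) ∧ ¬ A (.inl (M.al d)) then 1 else 0) + 3 := by
    intro a b c habc
    rw [cut_eq_sum]
    refine sum3 (a := a) (b := b) (c := c) (fun d ha hb hc => ?_) fun d => ?_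
    · by_cases h6 : (A (.inl d) ∨ M.SameSite (k 0) d) ∧
          ¬ (A (.inl (M.al d)) ∨ M.SameSite (k 0) (M.al d))
      · have h7 : A (.inl d) := by
          by_contra h8
          rcases h6.1 with h9 | h9
          · exact h8 h9
          · rcases habc d h9 h8 with h10 | h10 | h10
            · exact ha h10
            · exact hb h10
            · exact hc h10
        rw [if_pos h6, if_pos ⟨h7, fun h8 => h6.2 (Or.inl h8)⟩]
      · rw [if_neg h6]
        exact Nat.zero_le _
    · split
      · exact le_refl _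
      · exact Nat.zero_le _
  by_cases ht : A (.inr true)
  · have hf : ¬ A (.inr false) := fun hf => h ⟨fun _ => hf, fun _ => ht⟩
    have := key (k 3) (k 4) (k 5) (fun d hd hdA => by
      rcases h2 d hd hdA with h3 | h3
      · exact h3.2
      · exact absurd h3.1 hf)
    omega
  · have := key (k 0) (k 1) (k 2) (fun d hd hdA => by
      rcases h2 d hd hdA with h3 | h3
      · exact absurd h3.1 ht
      · exact h3.2)
    omega

end

/-! ### legality -/

/-- a hexagon of a generic patch has at most two ring edges -/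
theorem Gen.scut_hex [Fintype D] {A : D → Prop} {δ : ZMod 6 → D} (hG : M.Gen A δ) {d : D} (hd : A d)
    (h6 : M.deg d = 6) : scut δ (M.SameSite d) ≤ 2 := by
  have hA : ∀ e, M.SameSite d e → A e := fun e he => (Sites.same (M := M) hG.bd.site he).1 hd
  have h1 := hG.toPatch.cut_eq (B := M.SameSite d) hA
  have hc : M.cut (M.SameSite d) = 6 := by rw [hG.legal.cut_site, h6]
  rw [hc] at h1
  have h2 := hG.n3 _ (sites_site d) hA hc
  by_contra h3
  have h4 : rcut M A (M.SameSite d) ≤ 2 := by omega
  rcases hG.r2 (sites_site d) hA h4 with h5 | h5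
  · exact h5 _ (Equiv.Perm.SameCycle.refl _ _)
  · obtain ⟨e, he, he'⟩ := hG.two d
    exact he' (h5 e he)

section legal

variable [Fintype D] (hk : M.SiteNum 6 k) {A : D → Prop} {δ : ZMod 6 → D} (hG : M.GenT A δ)
  (hkA : A (k 0)) (hring : ∃ a, Patch.Ring M δ (k a))

include hG hkA

omit [Fintype D] in
theorem ch_root_k {d : D} (hd : ¬ A d) : ¬ M.SameSite (k 0) d := fun h =>
  hd ((Sites.same (M := M) hG.bd.site h).1 hkA)

omit [Fintype D] in
/-- the root is on one side -/
theorem ch_root {S : D ⊕ Bool → Prop} (hS : (chord M k hk).Sites S) {r d : D} (hr : ¬ A r)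
    (hd : ¬ A d) : S (.inl r) ↔ S (.inl d) := by
  obtain ⟨r₀, h₀⟩ := hG.root
  have h1 : M.SameSite r d := ((h₀ r).1 hr).symm.trans ((h₀ d).1 hd)
  have h2 := Sites.same (ch_sites_add hk hS) h1
  have h3 := ch_root_k hG hkA hr
  have h4 := ch_root_k hG hkA hd
  simpa [h3, h4] using h2

include hring

/-- a small cut which separates the quads -/
theorem ch_sep {S : D ⊕ Bool → Prop} (hS : (chord M k hk).Sites S) {b : Bool} (hb : S (.inr b))
    (hnb : ¬ S (.inr (!b))) (hroot : ∀ d, ¬ A d → ¬ S (.inl d)) (hc : (chord M k hk).cut S ≤ 4)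
    (x : D ⊕ Bool) : S x ↔ (chord M k hk).SameSite (.inr b) x := by
  have hsep : ¬ (S (.inr true) ↔ S (.inr false)) := by
    cases b
    · exact fun h => hnb (h.2 hb)
    · exact fun h => hnb (h.1 hb)
  have hU := ch_sites_add hk hS
  have hcut := ch_cut_add hk hS hsep
  have hUA : ∀ d, (S (.inl d) ∨ M.SameSite (k 0) d) → A d := by
    rintro d (hd | hd)
    · by_contra hno
      exact hroot d hno hd
    · exact (Sites.same (M := M) hG.bd.site hd).1 hkA
  have h6 : M.deg (k 0) = 6 := hk.deg 0
  have hge := hG.ge4 hU hUA ⟨k 0, Or.inr (Equiv.Perm.SameCycle.refl _ _)⟩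
  by_cases hall : ∃ d, A d ∧ ¬ (S (.inl d) ∨ M.SameSite (k 0) d)
  · -- only the hexagon
    have hev := hG.legal.cut_even hU
    have hUk : ∀ d, S (.inl d) → M.SameSite (k 0) d := by
      intro d hd
      have h7 : (M.cut fun d => S (.inl d) ∨ M.SameSite (k 0) d) = 4 ∨
          (M.cut fun d => S (.inl d) ∨ M.SameSite (k 0) d) = 6 := by omega
      rcases h7 with h7 | h7
      · obtain ⟨q, hq, hqU⟩ := hG.four hU hUA hall h7
        have := deg_same ((hqU (k 0)).1 (Or.inr (Equiv.Perm.SameCycle.refl _ _)))
        omega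
      · obtain ⟨a, ha⟩ := hring
        rcases hG.triv _ hU hUA ⟨k 0, Or.inr (Equiv.Perm.SameCycle.refl _ _)⟩ hall h7
            ⟨k a, Or.inr (h_same hk 0 a), ha⟩ with ⟨q, hq⟩ | ⟨p, q, hp, hq, hpq⟩
        · exact ((hq (k 0)).1 (Or.inr (Equiv.Perm.SameCycle.refl _ _))).symm.trans
            ((hq d).1 (Or.inl hd))
        · exfalso
          rcases (hpq (k 0)).1 (Or.inr (Equiv.Perm.SameCycle.refl _ _)) with h8 | h8
          · have := deg_same h8
            omega
          · have := deg_same h8
            omega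
    obtain ⟨g0, g1, g2, g3, g4, g5⟩ := ch_sites_k hk hS
    constructor
    · intro hx
      cases b
      · have hq : ∀ i, (chord M k hk).SameSite (.inr false) (cq2 k i) := fun i =>
          (ch_num2 hk).same (by decide) 3 i
        rcases x with d | (_ | _)
        · obtain ⟨j, rfl⟩ := hk.mem (hUk d hx)
          rcases z6 j with rfl | rfl | rfl | rfl | rfl | rfl
          · exact absurd (g0.1 hx) hnb
          · exact absurd (g1.1 hx) hnb
          · exact absurd (g2.1 hx) hnb
          · exact hq 0
          · exact hq 1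
          · exact hq 2
        · exact Equiv.Perm.SameCycle.refl _ _
        · exact absurd hx hnb
      · have hq : ∀ i, (chord M k hk).SameSite (.inr true) (cq1 k i) := fun i =>
          (ch_num1 hk).same (by decide) 3 i
        rcases x with d | (_ | _)
        · obtain ⟨j, rfl⟩ := hk.mem (hUk d hx)
          rcases z6 j with rfl | rfl | rfl | rfl | rfl | rfl
          · exact hq 0
          · exact hq 1
          · exact hq 2
          · exact absurd (g3.1 hx) hnb
          · exact absurd (g4.1 hx) hnb
          · exact absurd (g5.1 hx) hnb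
        · exact absurd hx hnb
        · exact Equiv.Perm.SameCycle.refl _ _
    · exact fun hx => (Sites.same hS hx).1 hb
  · -- everything
    exfalso
    push Not at hall
    have h2 := hG.scut_hex hkA h6
    have h3 : 4 ≤ (Finset.univ.filter fun i => S (.inl (δ i))).card := by
      have h4 : (Finset.univ.filter fun i => M.SameSite (k 0) (δ i)).card ≤ 2 := by
        unfold scut at h2
        convert h2
      have h5 : (Finset.univ : Finset (ZMod 6)) ⊆ (Finset.univ.filter fun i => S (.inl (δ i))) ∪
          Finset.univ.filter fun i => M.SameSite (k 0) (δ i) := by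
        intro i _
        rcases hall (δ i) (hG.toPatch.inA i) with h6 | h6
        · exact Finset.mem_union_left _ (by simpa using h6)
        · exact Finset.mem_union_right _ (by simpa using h6)
      have h6 := (Finset.card_le_card h5).trans (Finset.card_union_le _ _)
      have h7 : (Finset.univ : Finset (ZMod 6)).card = 6 := rfl
      omega
    have h4 : (Finset.univ.filter fun i => S (.inl (δ i))).card ≤
        ∑ d, if S (.inl d) ∧ ¬ S (.inl (M.al d)) then 1 else 0 := by
      rw [← Finset.card_filter, ← Finset.card_image_of_injective _ hG.bd.inj]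
      apply Finset.card_le_card
      intro d hd
      obtain ⟨i, hi, rfl⟩ := Finset.mem_image.1 hd
      simp only [Finset.mem_filter, Finset.mem_univ, true_and] at hi ⊢
      exact ⟨hi, hroot _ (hG.toPatch.notA i)⟩
    have h5 : ((if S (.inr true) ∧ ¬ S (.inr false) then 1 else 0) +
        if S (.inr false) ∧ ¬ S (.inr true) then 1 else 0) = 1 := by
      by_cases ht : S (.inr true) <;> by_cases hf : S (.inr false)
      · exact absurd ⟨fun _ => hf, fun _ => ht⟩ hsep
      · simp [ht, hf]
      · simp [ht, hf]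
      · exact absurd ⟨fun x => absurd x ht, fun x => absurd x hf⟩ hsep
    rw [ch_cut, h5] at hc
    omega

/-- **the map with a chord is legal** -/
theorem chord_legal : (chord M k hk).Legal := by
  have hL := hG.legal
  obtain ⟨r, hr⟩ := hG.toPatch.exists_root
  have hcq : ∀ b, (chord M k hk).cut ((chord M k hk).SameSite (.inr b)) = 4 := by
    intro b
    have h1 : (chord M k hk).deg (.inr b) = 4 := by
      cases b
      · exact ch_deg_q hk (Or.inr ⟨3, rfl⟩)
      · exact ch_deg_q hk (Or.inl ⟨3, rfl⟩)
    have h2 : (chord M k hk).cut ((chord M k hk).SameSite (.inr b)) =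
        (Finset.univ.filter fun e => (chord M k hk).SameSite (.inr b) e).card := by
      unfold cut
      rw [Nat.card_eq_fintype_card, Fintype.card_subtype]
      congr 1
      ext e
      simp only [Finset.mem_filter, Finset.mem_univ, true_and, and_iff_left_iff_imp]
      exact fun he he' => ch_noloop hk hL e (he.symm.trans he')
    rw [h2, card_site (M := chord M k hk) (.inr b) _ (fun e => by simp), h1]
  -- separating sets
  have sep : ∀ S : D ⊕ Bool → Prop, (chord M k hk).Sites S → ¬ (S (.inr true) ↔ S (.inr false)) →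
      (chord M k hk).cut S ≤ 4 → (chord M k hk).cut S = 4 ∧
      ((∃ d, ∀ e, S e ↔ (chord M k hk).SameSite d e) ∨ ∃ d, ∀ e, ¬ S e ↔ (chord M k hk).SameSite d e) := by
    have main : ∀ S : D ⊕ Bool → Prop, (chord M k hk).Sites S → ¬ (S (.inr true) ↔ S (.inr false)) →
        (chord M k hk).cut S ≤ 4 → ¬ S (.inl r) → (chord M k hk).cut S = 4 ∧
        ∃ d, ∀ e, S e ↔ (chord M k hk).SameSite d e := by
      intro S hS hsep hc hrS
      have hroot : ∀ d, ¬ A d → ¬ S (.inl d) := fun d hd h =>
        hrS ((ch_root hk hG hkA hS hr hd).2 h)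
      obtain ⟨b, hb, hnb⟩ : ∃ b, S (.inr b) ∧ ¬ S (.inr (!b)) := by
        by_cases ht : S (.inr true)
        · exact ⟨true, ht, fun hf => hsep ⟨fun _ => hf, fun _ => ht⟩⟩
        · refine ⟨false, ?_, ht⟩
          by_contra hf
          exact hsep ⟨fun x => absurd x ht, fun x => absurd x hf⟩
      have h1 := ch_sep hk hG hkA hring hS hb hnb hroot hc
      exact ⟨by rw [cut_congr h1, hcq], _, h1⟩
    intro S hS hsep hc
    by_cases hrS : S (.inl r)
    · obtain ⟨h1, h2⟩ := main (fun x => ¬ S x) hS.not (fun h => hsep (not_iff_not.1 h))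
        (by rw [cut_not]; exact hc) (fun h => h hrS)
      rw [cut_not] at h1
      exact ⟨h1, Or.inr h2⟩
    · obtain ⟨h1, h2⟩ := main S hS hsep hc hrS
      exact ⟨h1, Or.inl h2⟩
  refine ⟨⟨ch_hom hk hL.plane.hom, ch_conn hk hL.plane.conn⟩, ch_noloop hk hL, ?_, ?_, ?_⟩
  · intro S hS h1 h2
    by_cases hsep : S (.inr true) ↔ S (.inr false)
    · rw [ch_cut_down hk hsep]
      obtain ⟨g0, -, -, g3, -⟩ := ch_sites_k hk hS
      refine hL.cut4 _ (ch_sites_down hk hS hsep) ?_ ?_
      · obtain ⟨x, hx⟩ := h1
        rcases x with d | (_ | _)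
        · exact ⟨d, hx⟩
        · exact ⟨k 3, g3.2 hx⟩
        · exact ⟨k 0, g0.2 hx⟩
      · obtain ⟨x, hx⟩ := h2
        rcases x with d | (_ | _)
        · exact ⟨d, hx⟩
        · exact ⟨k 3, fun h => hx (g3.1 h)⟩
        · exact ⟨k 0, fun h => hx (g0.1 h)⟩
    · by_contra hlt
      have h3 := (sep S hS hsep (by omega)).1
      omega
  · intro S hS hc
    by_cases hsep : S (.inr true) ↔ S (.inr false)
    · rw [ch_cut_down hk hsep] at hc
      have h6 : M.deg (k 0) = 6 := hk.deg 0
      -- a single quad of the old map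
      have key : ∀ T : D ⊕ Bool → Prop, (chord M k hk).Sites T → (T (.inr true) ↔ T (.inr false)) →
          (M.cut fun d => T (.inl d)) = 4 → (∃ q, ∀ e, T (.inl e) ↔ M.SameSite q e) →
          ∃ d, ∀ e, T e ↔ (chord M k hk).SameSite d e := by
        rintro T hT hsepT hcT ⟨q, hq⟩
        obtain ⟨g0, -, -, g3, -⟩ := ch_sites_k hk hT
        have hq4 : M.deg q = 4 := by
          rw [← hL.cut_site, ← hcT]
          exact cut_congr fun e => (hq e).symm
        have hkq : ¬ M.SameSite (k 0) q := fun h => by
          have := deg_same h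
          omega
        have hk0 : ¬ T (.inl (k 0)) := fun h => hkq ((hq _).1 h).symm
        have ht : ¬ T (.inr true) := fun h => hk0 (g0.2 h)
        have hf : ¬ T (.inr false) := fun h => ht (hsepT.2 h)
        refine ⟨.inl q, fun e => ⟨fun he => ?_, fun he => ?_⟩⟩
        · rcases e with d | (_ | _)
          · obtain ⟨γ, hγ, h0⟩ := exists_num hL q
            have hpos : M.deg q ≠ 0 := by omega
            have h1 := ch_siteNum hk hγ (fun i h2 => hkq (h2.trans (by
              rw [← h0]; exact hγ.same hpos i 0)))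
            have : NeZero (M.deg q) := ⟨hpos⟩
            obtain ⟨j, rfl⟩ := hγ.mem (i := 0) (d := d) (by rw [h0]; exact (hq _).1 he)
            have h2 := h1.same hpos 0 j
            rwa [h0] at h2
          · exact absurd he hf
          · exact absurd he ht
        · exact (Sites.same hT he).1 ((hq q).2 (Equiv.Perm.SameCycle.refl _ _))
      rcases hL.quad _ (ch_sites_down hk hS hsep) hc with h1 | h1
      · exact Or.inl (key S hS hsep hc h1)
      · refine Or.inr (key (fun x => ¬ S x) hS.not (not_congr hsep) ?_ h1)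
        rw [← hc]
        exact cut_not fun d => S (.inl d)
    · exact (sep S hS hsep (by omega)).2
  · intro x
    rcases ch_q_or hk x with h | h | ⟨d, rfl, hd⟩
    · exact Or.inl (ch_deg_q hk (Or.inl h))
    · exact Or.inl (ch_deg_q hk (Or.inr h))
    · rw [ch_deg_inl hk hL hd]
      exact hL.deg d

/-- **the patch with a chord** -/
theorem chord_patch : (chord M k hk).Patch (Sum.elim A fun _ => True) fun i => .inl (δ i) := by
  have hL := chord_legal hk hG hkA hring
  have hP := hG.toPatch
  have hrk : ∀ i, ¬ M.SameSite (k 0) (M.al (δ i)) := fun i => ch_root_k hG hkA (hP.notA i)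
  have h1 := Legal.patch hL (A := Sum.elim A fun _ => True) (r := fun i => .inl (M.al (δ i)))
    (fun i => by
      show (chord M k hk).nx (.inl (M.al (δ (i + 1)))) = .inl (M.al (δ i))
      rw [ch_nx hk (fun e => hrk (i + 1) (by rw [e]; exact h_same hk 0 2))
        (fun e => hrk (i + 1) (by rw [e]; exact h_same hk 0 5)), hP.root_nx i])
    (fun i j hij => hP.bd.inj (M.al_inj (Sum.inl_injective hij)))
    (fun e => by
      obtain ⟨r, hr⟩ := hP.root
      constructor
      · intro he
        rcases e with d | b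
        · have h2 : M.SameSite (M.al (δ 0)) d := ((hr _).1 (hP.notA 0)).symm.trans ((hr d).1 he)
          obtain ⟨γ, hγ, h0⟩ := exists_num hG.legal (M.al (δ 0))
          have hpos : M.deg (M.al (δ 0)) ≠ 0 := by
            rcases hG.legal.deg (M.al (δ 0)) with h | h <;> omega
          have h3 := ch_siteNum hk hγ (fun i h4 => hrk 0 (h4.trans (by
            rw [← h0]; exact hγ.same hpos i 0)))
          have : NeZero (M.deg (M.al (δ 0))) := ⟨hpos⟩
          obtain ⟨j, rfl⟩ := hγ.mem (i := 0) (d := d) (by rw [h0]; exact h2)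
          have h4 := h3.same hpos 0 j
          rwa [h0] at h4
        · exact absurd trivial he
      · intro he
        rcases e with d | b
        · have h2 := ch_site_inl hk he
          intro hd
          exact hP.notA 0 ((Sites.same (M := M) hP.bd.site h2).2 hd)
        · exfalso
          have h2 := deg_same he
          have h3 : (chord M k hk).deg (.inr b) = 4 := by
            cases b
            · exact ch_deg_q hk (Or.inr ⟨3, rfl⟩)
            · exact ch_deg_q hk (Or.inl ⟨3, rfl⟩)
          have h4 := ch_deg_inl hk hG.legal (hrk 0)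
          have h5 : M.deg (M.al (δ 0)) = 6 := by
            have h6 : M.cut (M.SameSite (M.al (δ 0))) = M.cut fun d => ¬ A d := by
              refine cut_congr fun e => ⟨fun h6 h7 => ?_, fun h6 => ?_⟩
              · exact hP.notA 0 ((Sites.same (M := M) hP.bd.site h6).2 h7)
              · exact ((hr _).1 (hP.notA 0)).symm.trans ((hr e).1 h6)
            rw [hG.legal.cut_site, cut_not, hP.cut] at h6
            exact h6
          omega)
  have h2 : (fun i => (chord M k hk).al (.inl (M.al (δ i)))) = fun i => .inl (δ i) := by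
    funext i
    rw [ch_al, M.inv]
  rw [h2] at h1
  exact h1

end legal

end DMap

end GT33
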