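import Pool.Agent.GT33.Chord
import Pool.Agent.GT33.CFold

/-!
# GT33 module CHORDS: states of the map with a chord

`comp t₁ t₂`: the state of the hexagon from the states of the two quads.  `RealL.of_chord`: a state of the map with
the chord gives a state of the map with the hexagon.
-/

open Classical

namespace GT33

/-- the position in the hexagon of the corner `a` of the first quad -/
def l1 (a : ZMod 4) : ZMod 6 := (![0, 1, 2, 2] : Fin 4 → ZMod 6) a

/-- the position in the hexagon of the corner `a` of the second quad -/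
def l2 (a : ZMod 4) : ZMod 6 := (![3, 4, 5, 5] : Fin 4 → ZMod 6) a

/-- the state of the hexagon from the states of the quads `(0, 1, 2, x)`, `(3, 4, 5, y)` -/
def comp (t₁ t₂ : PState 4) : PState 6 where
  m i := if i = 0 then (if t₁.m 0 = 3 then l2 (t₂.m 3) else l1 (t₁.m 0)) else
    if i = 1 then (if t₁.m 1 = 3 then l2 (t₂.m 3) else l1 (t₁.m 1)) else
    if i = 2 then (if t₁.m 2 = 3 then l2 (t₂.m 3) else l1 (t₁.m 2)) else
    if i = 3 then (if t₂.m 0 = 3 then l1 (t₁.m 3) else l2 (t₂.m 0)) else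
    if i = 4 then (if t₂.m 1 = 3 then l1 (t₁.m 3) else l2 (t₂.m 1)) else
    (if t₂.m 2 = 3 then l1 (t₁.m 3) else l2 (t₂.m 2))
  u i := (![t₁.u 0, t₁.u 1, t₁.u 2 + t₂.u 3, t₂.u 0, t₂.u 1, t₂.u 2 + t₁.u 3] : Fin 6 → ℕ) i

theorem comp_m0 (t₁ t₂ : PState 4) :
    (comp t₁ t₂).m 0 = if t₁.m 0 = 3 then l2 (t₂.m 3) else l1 (t₁.m 0) := rfl

theorem comp_m1 (t₁ t₂ : PState 4) :
    (comp t₁ t₂).m 1 = if t₁.m 1 = 3 then l2 (t₂.m 3) else l1 (t₁.m 1) := rfl

theorem comp_m2 (t₁ t₂ : PState 4) :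
    (comp t₁ t₂).m 2 = if t₁.m 2 = 3 then l2 (t₂.m 3) else l1 (t₁.m 2) := rfl

theorem comp_m3 (t₁ t₂ : PState 4) :
    (comp t₁ t₂).m 3 = if t₂.m 0 = 3 then l1 (t₁.m 3) else l2 (t₂.m 0) := rfl

theorem comp_m4 (t₁ t₂ : PState 4) :
    (comp t₁ t₂).m 4 = if t₂.m 1 = 3 then l1 (t₁.m 3) else l2 (t₂.m 1) := rfl

theorem comp_m5 (t₁ t₂ : PState 4) :
    (comp t₁ t₂).m 5 = if t₂.m 2 = 3 then l1 (t₁.m 3) else l2 (t₂.m 2) := rfl

theorem z4 (i : ZMod 4) : i = 0 ∨ i = 1 ∨ i = 2 ∨ i = 3 := by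
  revert i
  decide

namespace DMap

variable {D : Type} {M : DMap D} {k : ZMod 6 → D}

section node

variable (hk : M.SiteNum 6 k)

theorem ch_sx0 : (chord M k hk).nx.symm (.inl (k 0)) = .inr true := by
  rw [Equiv.symm_apply_eq, ch_nxt]

theorem ch_sx3 : (chord M k hk).nx.symm (.inl (k 3)) = .inr false := by
  rw [Equiv.symm_apply_eq, ch_nxf]

theorem ch_sxt : (chord M k hk).nx.symm (.inr true) = .inl (k 2) := by
  rw [Equiv.symm_apply_eq, ch_nx2]

theorem ch_sxf : (chord M k hk).nx.symm (.inr false) = .inl (k 5) := by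
  rw [Equiv.symm_apply_eq, ch_nx5]

theorem ch_snx {d : D} (e0 : d ≠ k 0) (e3 : d ≠ k 3) :
    (chord M k hk).nx.symm (.inl d) = .inl (M.nx.symm d) := by
  rw [Equiv.symm_apply_eq, ch_nx hk, Equiv.apply_symm_apply]
  · exact fun h => e3 (by rw [← (show M.nx (k 2) = k 3 from hk.nx 2), ← h, Equiv.apply_symm_apply])
  · exact fun h => e0 (by rw [← (show M.nx (k 5) = k 0 from hk.nx 5), ← h, Equiv.apply_symm_apply])

include hk in
theorem k_prev : M.nx.symm (k 0) = k 5 ∧ M.nx.symm (k 3) = k 2 := by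
  constructor
  · rw [Equiv.symm_apply_eq]
    exact (hk.nx 5).symm
  · rw [Equiv.symm_apply_eq]
    exact (hk.nx 2).symm

/-- the node in the old map -/
def cnode (k : ZMod 6 → D) : D ⊕ Bool → D
  | .inl d => d
  | .inr true => k 5
  | .inr false => k 2

theorem ch_fs (x : D ⊕ Bool) : M.SameNode (cnode k x) (cnode k ((chord M k hk).fs x)) := by
  obtain ⟨p0, p3⟩ := k_prev hk
  rw [fs_def]
  rcases x with d | (_ | _)
  · rw [ch_al]
    have h1 : M.SameNode d (M.fs d) := ⟨1, by simp⟩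
    rw [fs_def] at h1
    by_cases e0 : M.al d = k 0
    · rw [e0, ch_sx0]
      rw [e0, p0] at h1
      exact h1
    · by_cases e3 : M.al d = k 3
      · rw [e3, ch_sx3]
        rw [e3, p3] at h1
        exact h1
      · rw [ch_snx hk e0 e3]
        exact h1
  · rw [ch_alr, Bool.not_false, ch_sxt]
    exact Equiv.Perm.SameCycle.refl _ _
  · rw [ch_alr, Bool.not_true, ch_sxf]
    exact Equiv.Perm.SameCycle.refl _ _

theorem ch_node_down {x y : D ⊕ Bool} (h : (chord M k hk).SameNode x y) :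
    M.SameNode (cnode k x) (cnode k y) := by
  have h1 := node_fun (M := chord M k hk) (w := fun z => M.SameNode (cnode k x) (cnode k z))
    (fun z => propext ⟨fun h2 => h2.trans (ch_fs hk z).symm, fun h2 => h2.trans (ch_fs hk z)⟩) h
  exact h1.mp (Equiv.Perm.SameCycle.refl _ _)

theorem ch_node_up {d e : D} (h : M.SameNode d e) : (chord M k hk).SameNode (.inl d) (.inl e) := by
  have key : ∀ z, (chord M k hk).SameNode (.inl z) (.inl (M.fs z)) := by
    intro z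
    obtain ⟨p0, p3⟩ := k_prev hk
    have h1 : (chord M k hk).SameNode (.inl z) ((chord M k hk).fs (.inl z)) := ⟨1, by simp⟩
    rw [fs_def, ch_al] at h1
    rw [fs_def]
    by_cases e0 : M.al z = k 0
    · rw [e0, ch_sx0] at h1
      have h2 : (chord M k hk).SameNode (.inr true) ((chord M k hk).fs (.inr true)) := ⟨1, by simp⟩
      rw [fs_def, ch_alr, Bool.not_true, ch_sxf] at h2
      rw [e0, p0]
      exact h1.trans h2
    · by_cases e3 : M.al z = k 3
      · rw [e3, ch_sx3] at h1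
        have h2 : (chord M k hk).SameNode (.inr false) ((chord M k hk).fs (.inr false)) := ⟨1, by simp⟩
        rw [fs_def, ch_alr, Bool.not_false, ch_sxt] at h2
        rw [e3, p3]
        exact h1.trans h2
      · rw [ch_snx hk e0 e3] at h1
        exact h1
  have h1 := node_fun (M := M) (w := fun z => (chord M k hk).SameNode (.inl d) (.inl z))
    (fun z => propext ⟨fun h2 => h2.trans (key z).symm, fun h2 => h2.trans (key z)⟩) h
  exact h1.mp (Equiv.Perm.SameCycle.refl _ _)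

theorem ch_node_x (x : D ⊕ Bool) : (chord M k hk).SameNode x (.inl (cnode k x)) := by
  rcases x with d | (_ | _)
  · exact Equiv.Perm.SameCycle.refl _ _
  · have h2 : (chord M k hk).SameNode (.inr false) ((chord M k hk).fs (.inr false)) := ⟨1, by simp⟩
    rw [fs_def, ch_alr, Bool.not_false, ch_sxt] at h2
    exact h2
  · have h2 : (chord M k hk).SameNode (.inr true) ((chord M k hk).fs (.inr true)) := ⟨1, by simp⟩
    rw [fs_def, ch_alr, Bool.not_true, ch_sxf] at h2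
    exact h2

theorem ch_sameNode {x y : D ⊕ Bool} :
    (chord M k hk).SameNode x y ↔ M.SameNode (cnode k x) (cnode k y) :=
  ⟨ch_node_down hk, fun h => (ch_node_x hk x).trans ((ch_node_up hk h).trans (ch_node_x hk y).symm)⟩

end node

/-- the units of the old map -/
noncomputable def cω (k : ZMod 6 → D) (ω : D ⊕ Bool → ℕ) (d : D) : ℕ :=
  ω (.inl d) + ((if d = k 5 then ω (.inr true) else 0) + if d = k 2 then ω (.inr false) else 0)

/-- `n` if `p` holds -/
noncomputable def gi (p : Prop) (n : ℕ) : ℕ := if p then n else 0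

theorem gi_pos {p : Prop} (h : p) (n : ℕ) : gi p n = n := if_pos h

theorem gi_neg {p : Prop} (h : ¬ p) (n : ℕ) : gi p n = 0 := if_neg h

theorem gi_congr {p q : Prop} (h : p ↔ q) (n : ℕ) : gi p n = gi q n := by rw [propext h]

theorem usum_gi [Fintype D] (M : DMap D) (A : D → Prop) (ω : D → ℕ) (d : D) :
    M.usum A ω d = ∑ e, gi (M.SameNode d e ∧ A e) (ω e) := by
  unfold usum nodeIn
  rw [Finset.sum_filter]
  refine Finset.sum_congr rfl fun e _ => ?_
  unfold gi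
  congr

theorem sum_gi_eq [Fintype D] (a : D) (n : ℕ) : ∑ e, gi (e = a) n = n := by
  rw [Finset.sum_eq_single a (fun e _ he => gi_neg he n) fun h => absurd (Finset.mem_univ a) h]
  exact gi_pos rfl n

theorem ch_usum [Fintype D] (hk : M.SiteNum 6 k) {A : D → Prop} (hA : M.Sites A) (hkA : A (k 0))
    (ω : D ⊕ Bool → ℕ) (d : D) :
    M.usum A (cω k ω) d = (chord M k hk).usum (Sum.elim A fun _ => True) ω (.inl d) := by
  have hA5 : A (k 5) := (Sites.same hA (h_same hk 0 5)).1 hkA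
  have hA2 : A (k 2) := (Sites.same hA (h_same hk 0 2)).1 hkA
  rw [usum_gi, usum_gi, Fintype.sum_sum_type, Fintype.sum_bool]
  have e3 : ∀ e, gi ((chord M k hk).SameNode (.inl d) (.inl e) ∧
      (Sum.elim A (fun _ => True) (Sum.inl e : D ⊕ Bool) : Prop)) (ω (.inl e)) =
      gi (M.SameNode d e ∧ A e) (ω (.inl e)) := fun e =>
    gi_congr (and_congr (ch_sameNode hk) Iff.rfl) _
  have e4 : gi ((chord M k hk).SameNode (.inl d) (.inr true) ∧
      (Sum.elim A (fun _ => True) (Sum.inr true : D ⊕ Bool) : Prop)) (ω (.inr true)) =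
      gi (M.SameNode d (k 5)) (ω (.inr true)) := by
    have h1 := ch_sameNode hk (x := .inl d) (y := .inr true)
    exact gi_congr ⟨fun h => h1.1 h.1, fun h => ⟨h1.2 h, trivial⟩⟩ _
  have e5 : gi ((chord M k hk).SameNode (.inl d) (.inr false) ∧
      (Sum.elim A (fun _ => True) (Sum.inr false : D ⊕ Bool) : Prop)) (ω (.inr false)) =
      gi (M.SameNode d (k 2)) (ω (.inr false)) := by
    have h1 := ch_sameNode hk (x := .inl d) (y := .inr false)
    exact gi_congr ⟨fun h => h1.1 h.1, fun h => ⟨h1.2 h, trivial⟩⟩ _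
  rw [Finset.sum_congr rfl fun e _ => e3 e, e4, e5]
  have e6 : ∀ e, gi (M.SameNode d e ∧ A e) (cω k ω e) = gi (M.SameNode d e ∧ A e) (ω (.inl e)) +
      (gi (e = k 5) (gi (M.SameNode d (k 5)) (ω (.inr true))) +
        gi (e = k 2) (gi (M.SameNode d (k 2)) (ω (.inr false)))) := by
    intro e
    have hc : cω k ω e = ω (.inl e) + (gi (e = k 5) (ω (.inr true)) + gi (e = k 2) (ω (.inr false))) := rfl
    rw [hc]
    by_cases h : M.SameNode d e ∧ A e
    · rw [gi_pos h, gi_pos h]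
      congr 1
      congr 1
      · by_cases h5 : e = k 5
        · rw [gi_pos h5, gi_pos h5, gi_pos (h5 ▸ h.1)]
        · rw [gi_neg h5, gi_neg h5]
      · by_cases h2 : e = k 2
        · rw [gi_pos h2, gi_pos h2, gi_pos (h2 ▸ h.1)]
        · rw [gi_neg h2, gi_neg h2]
    · rw [gi_neg h, gi_neg h]
      have g5 : gi (e = k 5) (gi (M.SameNode d (k 5)) (ω (.inr true))) = 0 := by
        by_cases h5 : e = k 5
        · rw [gi_pos h5, gi_neg (fun h6 => h ⟨h5 ▸ h6, h5 ▸ hA5⟩)]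
        · rw [gi_neg h5]
      have g2 : gi (e = k 2) (gi (M.SameNode d (k 2)) (ω (.inr false))) = 0 := by
        by_cases h2 : e = k 2
        · rw [gi_pos h2, gi_neg (fun h6 => h ⟨h2 ▸ h6, h2 ▸ hA2⟩)]
        · rw [gi_neg h2]
      rw [g5, g2]
  rw [Finset.sum_congr rfl fun e _ => e6 e, Finset.sum_add_distrib, Finset.sum_add_distrib,
    sum_gi_eq, sum_gi_eq]

/-! ### strands -/

/-- the matching of the old map -/
noncomputable def cμ (k : ZMod 6 → D) (t₁ t₂ : PState 4) (μ : D ⊕ Bool → D ⊕ Bool) (d : D) : D :=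
  if h : ∃ i, k i = d then k ((comp t₁ t₂).m h.choose) else
    match μ (.inl d) with
    | .inl e => e
    | .inr _ => d

/-- the dart of the old map -/
def cdart (k : ZMod 6 → D) (t₁ t₂ : PState 4) : D ⊕ Bool → D
  | .inl d => d
  | .inr true => k (l1 (t₁.m 3))
  | .inr false => k (l2 (t₂.m 3))

theorem cμ_k (hk : M.SiteNum 6 k) (t₁ t₂ : PState 4) (μ : D ⊕ Bool → D ⊕ Bool) (i : ZMod 6) :
    cμ k t₁ t₂ μ (k i) = k ((comp t₁ t₂).m i) := by
  unfold cμ
  have h : ∃ j, k j = k i := ⟨i, rfl⟩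
  rw [dif_pos h, hk.inj h.choose_spec]

theorem cμ_of {t₁ t₂ : PState 4} {μ : D ⊕ Bool → D ⊕ Bool} {d e : D} (h : ¬ ∃ i, k i = d)
    (he : μ (.inl d) = .inl e) : cμ k t₁ t₂ μ d = e := by
  unfold cμ
  rw [dif_neg h, he]

/-- quads: the matching is an involution without fixed points -/
structure Inv4 (t : PState 4) : Prop where
  mm : ∀ i, t.m (t.m i) = i
  mne : ∀ i, t.m i ≠ i

theorem inv4_of_EE {t : PState 4} (h : EE 4 t) : Inv4 t := by
  obtain ⟨c, k, rfl⟩ := h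
  constructor
  · revert c k
    decide
  · revert c k
    decide

section str

variable (hk : M.SiteNum 6 k) {A : D → Prop} {t₁ t₂ : PState 4} {μ : D ⊕ Bool → D ⊕ Bool}

/-- the strand step in the quads -/
theorem cdart_k (i1 : Inv4 t₁) (i2 : Inv4 t₂) (h1 : ∀ i, μ (cq1 k i) = cq1 k (t₁.m i))
    (h2 : ∀ i, μ (cq2 k i) = cq2 k (t₂.m i)) (hkA : ∀ i, A (k i)) (x : D ⊕ Bool)
    (hx : (∃ i, cq1 k i = x) ∨ ∃ i, cq2 k i = x) (hk : M.SiteNum 6 k) :
    M.Str A (cμ k t₁ t₂ μ) (cdart k t₁ t₂ x) (cdart k t₁ t₂ (μ x)) := by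
  have hstep : ∀ i, M.Str A (cμ k t₁ t₂ μ) (k i) (k ((comp t₁ t₂).m i)) := fun i =>
    Relation.EqvGen.rel _ _ ⟨hkA i, Or.inl (cμ_k hk t₁ t₂ μ i).symm⟩
  have c0 : cdart k t₁ t₂ (cq1 k 0) = k 0 := rfl
  have c1 : cdart k t₁ t₂ (cq1 k 1) = k 1 := rfl
  have c2 : cdart k t₁ t₂ (cq1 k 2) = k 2 := rfl
  have c3 : cdart k t₁ t₂ (cq1 k 3) = k (l1 (t₁.m 3)) := rfl
  have d0 : cdart k t₁ t₂ (cq2 k 0) = k 3 := rfl
  have d1 : cdart k t₁ t₂ (cq2 k 1) = k 4 := rfl
  have d2 : cdart k t₁ t₂ (cq2 k 2) = k 5 := rfl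
  have d3 : cdart k t₁ t₂ (cq2 k 3) = k (l2 (t₂.m 3)) := rfl
  have hl1 : ∀ a : ZMod 4, a ≠ 3 → cdart k t₁ t₂ (cq1 k a) = k (l1 a) := by
    intro a ha
    rcases z4 a with rfl | rfl | rfl | rfl
    · exact c0
    · exact c1
    · exact c2
    · exact absurd rfl ha
  have hl2 : ∀ a : ZMod 4, a ≠ 3 → cdart k t₁ t₂ (cq2 k a) = k (l2 a) := by
    intro a ha
    rcases z4 a with rfl | rfl | rfl | rfl
    · exact d0
    · exact d1
    · exact d2
    · exact absurd rfl ha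
  -- the composed matching
  have m1 : ∀ a : ZMod 4, a ≠ 3 → t₁.m a ≠ 3 → (comp t₁ t₂).m (l1 a) = l1 (t₁.m a) := by
    intro a ha hm
    rcases z4 a with rfl | rfl | rfl | rfl
    · exact (comp_m0 t₁ t₂).trans (if_neg hm)
    · exact (comp_m1 t₁ t₂).trans (if_neg hm)
    · exact (comp_m2 t₁ t₂).trans (if_neg hm)
    · exact absurd rfl ha
  have m2 : ∀ a : ZMod 4, a ≠ 3 → t₂.m a ≠ 3 → (comp t₁ t₂).m (l2 a) = l2 (t₂.m a) := by
    intro a ha hm
    rcases z4 a with rfl | rfl | rfl | rfl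
    · exact (comp_m3 t₁ t₂).trans (if_neg hm)
    · exact (comp_m4 t₁ t₂).trans (if_neg hm)
    · exact (comp_m5 t₁ t₂).trans (if_neg hm)
    · exact absurd rfl ha
  rcases hx with ⟨a, rfl⟩ | ⟨a, rfl⟩
  · rw [h1]
    by_cases ha : a = 3
    · subst ha
      rw [c3, hl1 _ (i1.mne 3)]
      exact Relation.EqvGen.refl _
    · by_cases hm : t₁.m a = 3
      · rw [hm, c3, hl1 a ha]
        have : t₁.m 3 = a := by rw [← hm, i1.mm]
        rw [this]
        exact Relation.EqvGen.refl _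
      · rw [hl1 a ha, hl1 _ hm, ← m1 a ha hm]
        exact hstep _
  · rw [h2]
    by_cases ha : a = 3
    · subst ha
      rw [d3, hl2 _ (i2.mne 3)]
      exact Relation.EqvGen.refl _
    · by_cases hm : t₂.m a = 3
      · rw [hm, d3, hl2 a ha]
        have : t₂.m 3 = a := by rw [← hm, i2.mm]
        rw [this]
        exact Relation.EqvGen.refl _
      · rw [hl2 a ha, hl2 _ hm, ← m2 a ha hm]
        exact hstep _

/-- the strand through the chord -/
theorem cdart_x (i1 : Inv4 t₁) (hkA : ∀ i, A (k i)) (hk : M.SiteNum 6 k) :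
    M.Str A (cμ k t₁ t₂ μ) (cdart k t₁ t₂ (.inr true)) (cdart k t₁ t₂ (.inr false)) := by
  have hstep : ∀ i, M.Str A (cμ k t₁ t₂ μ) (k i) (k ((comp t₁ t₂).m i)) := fun i =>
    Relation.EqvGen.rel _ _ ⟨hkA i, Or.inl (cμ_k hk t₁ t₂ μ i).symm⟩
  show M.Str A (cμ k t₁ t₂ μ) (k (l1 (t₁.m 3))) (k (l2 (t₂.m 3)))
  have key : (comp t₁ t₂).m (l1 (t₁.m 3)) = l2 (t₂.m 3) := by
    have h1 := i1.mm 3
    have h2 := i1.mne 3
    rcases z4 (t₁.m 3) with h | h | h | h
    · rw [h] at h1 ⊢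
      exact (comp_m0 t₁ t₂).trans (if_pos h1)
    · rw [h] at h1 ⊢
      exact (comp_m1 t₁ t₂).trans (if_pos h1)
    · rw [h] at h1 ⊢
      exact (comp_m2 t₁ t₂).trans (if_pos h1)
    · exact absurd h h2
  have h3 := hstep (l1 (t₁.m 3))
  rw [key] at h3
  exact h3

/-- strands of the map with the chord -/
theorem ch_str [Finite D] (i1 : Inv4 t₁) (i2 : Inv4 t₂) (h1 : ∀ i, μ (cq1 k i) = cq1 k (t₁.m i))
    (h2 : ∀ i, μ (cq2 k i) = cq2 k (t₂.m i)) (hkA : ∀ i, A (k i))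
    (hμ : ∀ d, ¬ M.SameSite (k 0) d → A d → ∃ e, μ (.inl d) = .inl e) {x y : D ⊕ Bool}
    (h : (chord M k hk).Str (Sum.elim A fun _ => True) μ x y) :
    M.Str A (cμ k t₁ t₂ μ) (cdart k t₁ t₂ x) (cdart k t₁ t₂ y) := by
  induction h with
  | refl x => exact Relation.EqvGen.refl _
  | symm x y _ ih => exact Relation.EqvGen.symm _ _ ih
  | trans x y z _ _ ih1 ih2 => exact Relation.EqvGen.trans _ _ _ ih1 ih2
  | rel x y hxy =>
    obtain ⟨hx, hy | ⟨hy, hyA⟩⟩ := hxy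
    · subst hy
      rcases ch_q_or hk x with hq | hq | ⟨d, rfl, hd⟩
      · exact cdart_k i1 i2 h1 h2 hkA x (Or.inl hq) hk
      · exact cdart_k i1 i2 h1 h2 hkA x (Or.inr hq) hk
      · obtain ⟨e, he⟩ := hμ d hd hx
        rw [he]
        refine Relation.EqvGen.rel _ _ ⟨hx, Or.inl ?_⟩
        show e = cμ k t₁ t₂ μ d
        rw [cμ_of (fun ⟨i, hi⟩ => hd (by rw [← hi]; exact h_same hk 0 i)) he]
    · subst hy
      rcases x with d | (_ | _)
      · exact Relation.EqvGen.rel _ _ ⟨hx, Or.inr ⟨rfl, hyA⟩⟩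
      · exact Relation.EqvGen.symm _ _ (cdart_x i1 hkA hk)
      · exact cdart_x i1 hkA hk

end str

/-! ### numberings -/

section num

variable (hk : M.SiteNum 6 k)

/-- numberings of the new map outside the quads -/
theorem ch_num_down [Finite D] {n : ℕ} (hn : n ≠ 0) {γ : ZMod n → D ⊕ Bool}
    (hγ : (chord M k hk).SiteNum n γ) {j : ZMod n} {d : D} (hj : γ j = .inl d)
    (hd : ¬ M.SameSite (k 0) d) : ∃ γ₀ : ZMod n → D, (∀ i, γ i = .inl (γ₀ i)) ∧
      (∀ i, γ₀ i = cnode k (γ i)) ∧ M.SiteNum n γ₀ ∧ ∀ i, ¬ M.SameSite (k 0) (γ₀ i) := by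
  have key : ∀ i, ∃ e, γ i = .inl e ∧ ¬ M.SameSite (k 0) e := by
    intro i
    have h1 := hγ.same hn j i
    rw [hj] at h1
    rcases ch_q_or hk (γ i) with ⟨a, ha⟩ | ⟨a, ha⟩ | ⟨e, he, he'⟩
    · exfalso
      rw [← ha] at h1
      have h2 := h1.trans ((ch_num1 hk).same (by decide) a 0)
      exact hd (ch_site_inl hk h2).symm
    · exfalso
      rw [← ha] at h1
      have h2 := h1.trans ((ch_num2 hk).same (by decide) a 0)
      exact hd ((h_same hk 0 3).trans (ch_site_inl hk h2).symm)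
    · exact ⟨e, he, he'⟩
  refine ⟨fun i => cnode k (γ i), fun i => ?_, fun i => rfl, ⟨fun a b hab => ?_, fun i => ?_⟩, fun i => ?_⟩
  · obtain ⟨e, he, -⟩ := key i
    show γ i = .inl (cnode k (γ i))
    rw [he]
    rfl
  · obtain ⟨e, he, -⟩ := key a
    obtain ⟨f, hf, -⟩ := key b
    apply hγ.inj
    have h1 : cnode k (γ a) = cnode k (γ b) := hab
    rw [he, hf] at h1 ⊢
    exact congrArg Sum.inl h1
  · obtain ⟨e, he, he'⟩ := key i
    show M.nx (cnode k (γ i)) = cnode k (γ (i + 1))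
    rw [← hγ.nx, he, ch_nx hk (fun h => he' (by rw [h]; exact h_same hk 0 2))
      (fun h => he' (by rw [h]; exact h_same hk 0 5))]
    rfl
  · obtain ⟨e, he, he'⟩ := key i
    show ¬ M.SameSite (k 0) (cnode k (γ i))
    rw [he]
    exact he'

theorem ch_six [Finite D] {γ : ZMod 6 → D ⊕ Bool} (hγ : (chord M k hk).SiteNum 6 γ) :
    ∃ γ₀ : ZMod 6 → D, (∀ i, γ i = .inl (γ₀ i)) ∧
      (∀ i, γ₀ i = cnode k (γ i)) ∧ M.SiteNum 6 γ₀ ∧ ∀ i, ¬ M.SameSite (k 0) (γ₀ i) := by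
  have hd := hγ.deg 0
  rcases ch_q_or hk (γ 0) with h | h | ⟨d, h1, h2⟩
  · have := ch_deg_q hk (Or.inl h)
    omega
  · have := ch_deg_q hk (Or.inr h)
    omega
  · exact ch_num_down hk (by decide) hγ h1 h2

/-- **states of the map with the hexagon** -/
theorem of_chord [Fintype D] {A : D → Prop} {δ : ZMod 6 → D} {B : Boxes D} (hA : M.Sites A)
    (hkA : A (k 0))
    (anti : ∀ γ F G t, M.SiteNum 6 γ → A (γ 0) → F.Le G → B.β γ G t → B.β γ F t)
    {F F' : Flags} {s : PState 6} {μ : D ⊕ Bool → D ⊕ Bool} {ω : D ⊕ Bool → ℕ}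
    (h : (chord M k hk).RealL ((chord M k hk).OL (fun i => .inl (δ i)) (B.pull (cnode k)).β F')
      (Sum.elim A fun _ => True) (fun i => .inl (δ i)) s μ ω)
    {t₁ t₂ : PState 4} (e1 : EE 4 t₁) (e2 : EE 4 t₂) (h1 : HasState μ ω (cq1 k) t₁)
    (h2 : HasState μ ω (cq2 k) t₂) (hbox : B.β k (M.res δ F k) (comp t₁ t₂))
    (hQ : ∀ (γ : ZMod 4 → D) (t : PState 4), M.SiteNum 4 γ → A (γ 0) →
      (chord M k hk).QS (fun i => .inl (δ i)) F' (fun i => .inl (γ i)) t → M.QS δ F γ t)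
    (hB : ∀ γ : ZMod 6 → D, M.SiteNum 6 γ → A (γ 0) → ¬ M.SameSite (k 0) (γ 0) →
      (M.res δ F γ).Le ((chord M k hk).res (fun i => .inl (δ i)) F' fun i => .inl (γ i))) :
    M.RealL (M.OL δ B.β F) A δ s (cμ k t₁ t₂ μ) (cω k ω) := by
  have i1 := inv4_of_EE e1
  have i2 := inv4_of_EE e2
  have hkA' : ∀ i, A (k i) := fun i => (Sites.same hA (h_same hk 0 i)).1 hkA
  have hki : ∀ {i j : ZMod 6}, k i = k j → i = j := fun h => hk.inj h
  -- unchanged sites
  have hdn : ∀ d, A d → ¬ M.SameSite (k 0) d → ∃ (n : ℕ) (γ : ZMod n → D) (t : PState n), n ≠ 0 ∧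
      M.SiteNum n γ ∧ (∃ i, γ i = d) ∧ (∀ i, ¬ M.SameSite (k 0) (γ i)) ∧
      (chord M k hk).OL (fun i => .inl (δ i)) (B.pull (cnode k)).β F' n (fun i => .inl (γ i)) t ∧
      HasState μ ω (fun i => .inl (γ i)) t := by
    intro d hd hdk
    obtain ⟨n, γ, t, hn, hγ, ⟨j, hj⟩, ht, hst⟩ := h.loc (.inl d) hd
    obtain ⟨γ₀, g1, g2, g3, g4⟩ := ch_num_down hk hn hγ hj hdk
    have hγ' : γ = fun i => .inl (γ₀ i) := funext g1
    refine ⟨n, γ₀, t, hn, g3, ⟨j, ?_⟩, g4, by rw [← hγ']; exact ht, by rw [← hγ']; exact hst⟩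
    rw [g2, hj]
    rfl
  have hμ : ∀ d, ¬ M.SameSite (k 0) d → A d → ∃ e, μ (.inl d) = .inl e := by
    intro d hdk hd
    obtain ⟨n, γ, t, -, -, ⟨j, rfl⟩, -, -, hst⟩ := hdn d hd hdk
    exact ⟨γ (t.m j), (hst j).1⟩
  have hstr := fun {x y} => ch_str (A := A) (x := x) (y := y) hk i1 i2 (fun i => (h1 i).1)
    (fun i => (h2 i).1) hkA' hμ
  refine ⟨fun d hd => ?_, fun i => hstr (h.str i), fun d hd => ?_, fun i => ?_, fun d hd => ?_⟩
  · by_cases hdk : M.SameSite (k 0) d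
    · obtain ⟨j, hj⟩ := hk.mem hdk
      refine ⟨6, k, comp t₁ t₂, by decide, hk, ⟨j, hj⟩, hbox, fun i => ⟨cμ_k hk t₁ t₂ μ i, ?_⟩⟩
      have u1 : ∀ a, ω (cq1 k a) = t₁.u a := fun a => (h1 a).2
      have u2 : ∀ a, ω (cq2 k a) = t₂.u a := fun a => (h2 a).2
      have w0 : ω (.inl (k 0)) = t₁.u 0 := u1 0
      have w1 : ω (.inl (k 1)) = t₁.u 1 := u1 1
      have w2 : ω (.inl (k 2)) = t₁.u 2 := u1 2
      have wx : ω (.inr true) = t₁.u 3 := u1 3
      have w3 : ω (.inl (k 3)) = t₂.u 0 := u2 0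
      have w4 : ω (.inl (k 4)) = t₂.u 1 := u2 1
      have w5 : ω (.inl (k 5)) = t₂.u 2 := u2 2
      have wy : ω (.inr false) = t₂.u 3 := u2 3
      have nk : ∀ {a b : ZMod 6}, a ≠ b → k a ≠ k b := fun h h' => h (hki h')
      unfold cω
      rcases z6 i with rfl | rfl | rfl | rfl | rfl | rfl
      · rw [if_neg (nk (by decide)), if_neg (nk (by decide)), w0]
        rfl
      · rw [if_neg (nk (by decide)), if_neg (nk (by decide)), w1]
        rfl
      · rw [if_neg (nk (by decide)), if_pos rfl, w2, wy, zero_add]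
        rfl
      · rw [if_neg (nk (by decide)), if_neg (nk (by decide)), w3]
        rfl
      · rw [if_neg (nk (by decide)), if_neg (nk (by decide)), w4]
        rfl
      · rw [if_pos rfl, if_neg (nk (by decide)), w5, wx, add_zero]
        rfl
    · obtain ⟨n, γ, t, hn, hγ, ⟨j, hj⟩, hγk, ht, hst⟩ := hdn d hd hdk
      refine ⟨n, γ, t, hn, hγ, ⟨j, hj⟩, ?_, fun i => ⟨?_, ?_⟩⟩
      · have hγA : ∀ i, A (γ i) := fun i => (Sites.same hA (hγ.same hn j i)).1 (by rw [hj]; exact hd)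
        rcases OL_n ht with rfl | rfl
        · exact hQ γ t hγ (hγA 0) ht
        · exact anti γ _ _ t hγ (hγA 0) (hB γ hγ (hγA 0) (hγk 0)) ht
      · exact cμ_of (fun ⟨a, ha⟩ => hγk i (by rw [← ha]; exact h_same hk 0 a)) (hst i).1
      · unfold cω
        rw [if_neg (fun e => hγk i (by rw [e]; exact h_same hk 0 5)),
          if_neg (fun e => hγk i (by rw [e]; exact h_same hk 0 2))]
        exact (hst i).2
  · obtain ⟨i, hi⟩ := h.all (.inl d) hd
    exact ⟨i, hstr hi⟩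
  · rw [ch_usum hk hA hkA]
    exact h.bdry i
  · rw [ch_usum hk hA hkA]
    refine h.inner (.inl d) fun x hx => ?_
    rcases x with e | b
    · exact hd e ((ch_sameNode hk).1 hx)
    · trivial

/-- the quads have states -/
theorem ch_states [Fintype D] {A : D → Prop} {δ : ZMod 6 → D ⊕ Bool} {β : (ZMod 6 → D ⊕ Bool) → Rel}
    {F' : Flags} {s : PState 6} {μ : D ⊕ Bool → D ⊕ Bool} {ω : D ⊕ Bool → ℕ}
    (hkA : ∀ i, A (k i))
    (h : (chord M k hk).RealL ((chord M k hk).OL δ β F') (Sum.elim A fun _ => True) δ s μ ω) :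
    ∃ t₁ t₂, (chord M k hk).QS δ F' (cq1 k) t₁ ∧ (chord M k hk).QS δ F' (cq2 k) t₂ ∧
      HasState μ ω (cq1 k) t₁ ∧ HasState μ ω (cq2 k) t₂ := by
  obtain ⟨t₁, a1, a2⟩ := quad_state h (ch_num1 hk) (hkA 0)
  obtain ⟨t₂, b1, b2⟩ := quad_state h (ch_num2 hk) (hkA 3)
  exact ⟨t₁, t₂, a2, b2, a1, b1⟩

end num

end DMap

end GT33
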