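import Pool.Agent.GT33.Step

/-!
# GT33 module CLGC: the generic case of a clause, one statement for each set of corner hexagons

`wd n`: the word with the value `2` at the ring nodes with the digit `1`, otherwise `0`.  `ClG.of_codes`: it suffices to
treat the sets of corner hexagons given by the codes which fit the word.
-/

open Classical

namespace GT33

namespace Chk

/-- the word with the value `2` at the nodes with the digit `1` -/
def wd (n : ℕ) (j : ZMod 6) : Fin 3 := bif on n j then 2 else 0

theorem wd_ne {n : ℕ} {j : ZMod 6} : wd n j ≠ 0 ↔ on n j = true := by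
  unfold wd
  cases on n j <;> simp

theorem wd_two {n : ℕ} {j : ZMod 6} : wd n j = 2 ↔ on n j = true := by
  unfold wd
  cases on n j
  · simp only [cond_false, Bool.false_eq_true, iff_false]
    decide
  · simp

theorem wd_val (n : ℕ) (j : ZMod 6) : wd n j = 0 ∨ wd n j = 2 := by
  unfold wd
  cases on n j <;> simp

/-- the set of corner hexagons with the code `k` fits the word `wd n` -/
def fitW (n k : ℕ) : Bool := all6 fun c => !on k c || on n (c + 1)

/-- the codes which fit the word -/
def codesW (n : ℕ) : List ℕ := codes.filter (fitW n)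

end Chk

open Chk

namespace DMap

/-- **it suffices to treat the sets of corner hexagons given by codes** -/
theorem ClG.of_codes {T : List SRow} {g : List Alt} (n : ℕ)
    (h : ∀ k ∈ codesW n, WordOK (GoodS T) (ClS g) (wd n) fun j => on k j = true) : ClG T g := by
  refine ⟨wd n, fun Γ hΓ => ?_⟩
  obtain ⟨k, hk, h1⟩ := exists_code Γ fun c hc => (hΓ c hc).2
  have h2 : Γ = fun j => on k j = true := funext fun j => propext (h1 j)
  rw [h2]
  refine h k (List.mem_filter.2 ⟨hk, ?_⟩)
  unfold fitW
  rw [all6_iff]
  intro c
  cases h3 : on k c with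
  | false => rfl
  | true =>
    rw [Bool.not_true, Bool.false_or]
    exact wd_ne.1 (hΓ c ((h1 c).2 h3)).1

end DMap

/-- the words of the clauses `gen0` -/
def gen0W : List ℕ := [110111, 110111, 110101, 110110, 110001, 110000, 10000, 101000, 100000]

/-- **it suffices to treat the 61 pairs of a clause and a set of corner hexagons** -/
theorem clG_gen0_of (h : ∀ i < 9, ∀ g, gen0[i]? = some g → ∀ n, gen0W[i]? = some n →
    ∀ k ∈ codesW n, DMap.WordOK (GoodS tbl) (DMap.ClS g) (wd n) fun j => on k j = true) :
    ∀ g ∈ gen0, DMap.ClG tbl g := by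
  intro g hg
  obtain ⟨i, hi⟩ := List.mem_iff_getElem?.1 hg
  have h9 : gen0.length = 9 := rfl
  have h9' : gen0W.length = 9 := rfl
  have hlt : i < 9 := by
    rw [← h9]
    exact (List.getElem?_eq_some_iff.1 hi).1
  have hn : gen0W[i]? = some (gen0W[i]'(by rw [h9']; exact hlt)) :=
    List.getElem?_eq_getElem _
  exact DMap.ClG.of_codes _ (h i hlt g hi _ hn)

end GT33
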