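import Pool.Agent.GT33.DMin
import Pool.Agent.GT33.Bridge
import Pool.Agent.GT33.Cyc

/-!
# GT33 module CLOSE: from hexagon patches to plane graphs

If all hexagon patches (except the two-quad patch) realise a state with the matching `(1 2)(3 4)(5 0)`, `u 3 ≤ 1`
and `u i ≤ 2`, then every rigid medial map has a state with one closed curve and loads at most three: there
is a node `x` of degree three; the complement of its three quads is a hexagon patch; at `x` the first quad
joins `x` with node `0`, the others join the nodes `1, 3` and `3, 5`.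
-/

open Classical

namespace GT33

open SN78

universe u

variable {X : Type} [Fintype X] {α : X × ZMod 4 → X × ZMod 4}

/-- a rigid medial map as a map of darts -/
def medMap (h : Rigid α) : DMap (X × ZMod 4) := ofMed α h.inv h.ne

section

variable (h : Rigid α)

theorem medMap_nx (d : X × ZMod 4) : (medMap h).nx d = nx d := rfl

theorem medMap_nx_symm (d : X × ZMod 4) : (medMap h).nx.symm d = pv d := rfl

theorem medMap_al (d : X × ZMod 4) : (medMap h).al d = α d := rfl

theorem medMap_fs (d : X × ZMod 4) : (medMap h).fs d = fs α d := rfl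

theorem medMap_pow (k : ℕ) (d : X × ZMod 4) : ((medMap h).nx)^[k] d = (d.1, d.2 + k) := by
  induction k with
  | zero => simp
  | succ k ih =>
    rw [Function.iterate_succ_apply', ih, medMap_nx]
    simp [nx, add_assoc]

theorem medMap_same {d e : X × ZMod 4} : (medMap h).SameSite d e ↔ d.1 = e.1 := by
  constructor
  · intro hs
    obtain ⟨k, hk⟩ := hs.exists_nat_pow_eq
    rw [← hk, Equiv.Perm.coe_pow, medMap_pow]
  · intro hs
    refine ⟨((e.2 - d.2).val : ℤ), ?_⟩
    rw [zpow_natCast, Equiv.Perm.coe_pow, medMap_pow, ZMod.natCast_zmod_val, hs]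
    simp

theorem medMap_deg (d : X × ZMod 4) : (medMap h).deg d = 4 := by
  unfold DMap.deg
  apply Nat.dvd_antisymm
  · apply Function.IsPeriodicPt.minimalPeriod_dvd
    show ((medMap h).nx)^[4] d = d
    rw [medMap_pow]
    have : ((4 : ℕ) : ZMod 4) = 0 := by decide
    rw [this, add_zero]
  · have h2 := Function.isPeriodicPt_minimalPeriod (medMap h).nx d
    unfold Function.IsPeriodicPt Function.IsFixedPt at h2
    rw [medMap_pow] at h2
    rw [← ZMod.natCast_eq_zero_iff]
    have h3 := congrArg Prod.snd h2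
    exact add_eq_left.1 h3

theorem medMap_sites {A : X × ZMod 4 → Prop} (hA : (medMap h).Sites A) (d : X × ZMod 4) :
    A d ↔ d.1 ∈ Finset.univ.filter fun x => A (x, 0) := by
  rw [Finset.mem_filter]
  simp only [Finset.mem_univ, true_and]
  exact hA.same ((medMap_same h).2 rfl)

theorem medMap_sites' (A : Finset X) : (medMap h).Sites fun d => d.1 ∈ A := fun _ => Iff.rfl

theorem medMap_cut (A : Finset X) : (medMap h).cut (fun d => d.1 ∈ A) = SN78.cut α A := rfl

theorem medMap_plane : (medMap h).Plane := by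
  have hp := planeMap_of_rigid h
  constructor
  · intro c hc hs
    refine hp.hom c hc fun v => ?_
    have h1 := hs (Finset.univ.image fun i : ZMod 4 => (v, i)) (by
      intro d
      simp only [Finset.mem_image, Finset.mem_univ, true_and]
      constructor
      · rintro ⟨i, hi⟩
        exact ⟨d.2, by
          have := congrArg Prod.fst hi
          simp only [medMap_nx, nx] at this
          rw [this]⟩
      · rintro ⟨i, rfl⟩
        exact ⟨i + 1, rfl⟩)
    rw [Finset.sum_image] at h1
    · exact h1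
    · intro i _ j _ hij
      exact congrArg Prod.snd hij
  · intro A hA hal hne d
    rw [medMap_sites h hA]
    have h1 : (medMap h).cut (fun d => d.1 ∈ Finset.univ.filter fun x => A (x, 0)) = 0 := by
      unfold DMap.cut
      rw [Nat.card_eq_zero]
      left
      constructor
      rintro ⟨e, he1, he2⟩
      exact he2 ((medMap_sites h hA _).1 (hal e ((medMap_sites h hA _).2 he1)))
    rw [medMap_cut] at h1
    by_contra hn
    have h2 := h.cut4 (Finset.univ.filter fun x => A (x, 0)) (by
      obtain ⟨e, he⟩ := hne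
      exact ⟨e.1, (medMap_sites h hA e).1 he⟩) (by
      intro h3
      rw [h3] at hn
      exact hn (Finset.mem_univ _))
    omega

theorem medMap_legal : (medMap h).Legal := by
  have hcut : ∀ A : X × ZMod 4 → Prop, ∀ hA : (medMap h).Sites A,
      (medMap h).cut A = SN78.cut α (Finset.univ.filter fun x => A (x, 0)) := by
    intro A hA
    rw [← medMap_cut h]
    exact DMap.cut_congr fun d => medMap_sites h hA d
  have hcut4 : ∀ A : X × ZMod 4 → Prop, (medMap h).Sites A → (∃ d, A d) → (∃ d, ¬ A d) →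
      4 ≤ (medMap h).cut A := by
    intro A hA h1 h2
    rw [hcut A hA]
    refine h.cut4 _ ?_ ?_
    · obtain ⟨e, he⟩ := h1
      exact ⟨e.1, (medMap_sites h hA e).1 he⟩
    · intro h3
      obtain ⟨e, he⟩ := h2
      apply he
      rw [medMap_sites h hA, h3]
      exact Finset.mem_univ _
  refine ⟨medMap_plane h, ?_, hcut4, ?_, fun d => Or.inl (medMap_deg h d)⟩
  · intro d hs
    rw [medMap_same, medMap_al] at hs
    exact h.noloop d hs.symm
  · intro A hA hc
    rw [hcut A hA] at hc
    set B := Finset.univ.filter fun x => A (x, 0) with hB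
    by_cases h1 : 2 ≤ B.card
    · by_cases h2 : B.card + 2 ≤ Fintype.card X
      · have := h.cut6 B h1 h2
        omega
      · right
        have h3 : Bᶜ.card ≤ 1 := by
          rw [Finset.card_compl]
          omega
        have h4 : Bᶜ.Nonempty := by
          rw [Finset.nonempty_iff_ne_empty]
          intro h5
          rw [Finset.compl_eq_empty_iff] at h5
          rw [h5] at hc
          unfold SN78.cut at hc
          have : IsEmpty {d : X × ZMod 4 // d.1 ∈ (Finset.univ : Finset X) ∧ (α d).1 ∉ (Finset.univ : Finset X)} :=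
            ⟨fun x => x.2.2 (Finset.mem_univ _)⟩
          rw [Nat.card_of_isEmpty] at hc
          omega
        obtain ⟨x, hx⟩ := h4
        refine ⟨(x, 0), fun e => ?_⟩
        rw [medMap_same, medMap_sites h hA, ← hB, ← Finset.mem_compl]
        constructor
        · intro he
          exact Finset.card_le_one.1 h3 _ hx _ he
        · intro he
          rw [← he]
          exact hx
    · left
      have h4 : B.Nonempty := by
        rw [Finset.nonempty_iff_ne_empty]
        intro h5
        rw [h5] at hc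
        unfold SN78.cut at hc
        have : IsEmpty {d : X × ZMod 4 // d.1 ∈ (∅ : Finset X) ∧ (α d).1 ∉ (∅ : Finset X)} :=
          ⟨fun x => absurd x.2.1 (Finset.notMem_empty _)⟩
        rw [Nat.card_of_isEmpty] at hc
        omega
      obtain ⟨x, hx⟩ := h4
      refine ⟨(x, 0), fun e => ?_⟩
      rw [medMap_same, medMap_sites h hA, ← hB]
      constructor
      · intro he
        exact Finset.card_le_one.1 (by omega) _ hx _ he
      · intro he
        rw [← he]
        exact hx

omit [Fintype X] in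
theorem al_of_fs {d e : X × ZMod 4} (hde : fs α d = e) : α d = nx e := by
  rw [← hde, fs, nx_pv]

include h in
theorem fs_ne (d : X × ZMod 4) : fs α d ≠ d := by
  intro e
  have h1 := al_of_fs e
  exact h.noloop d (by rw [h1]; rfl)

omit [Fintype X] in
theorem nx_ne (d : X × ZMod 4) : nx d ≠ d := by
  intro e
  have := congrArg Prod.snd e
  simp only [nx, add_eq_left] at this
  exact absurd this (by decide)

include h in
theorem fs_fs_ne (d : X × ZMod 4) : fs α (fs α d) ≠ d := by
  intro e
  have h1 := al_of_fs (α := α) (d := d) rfl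
  have h2 := al_of_fs e
  refine nx_ne d (h.simple (d := nx d) (d' := d) rfl ?_)
  rw [← h2, h.inv, h1]
  rfl

include h in
/-- counting the sectors node by node -/
theorem card_le_of_nodes (k : ℕ) (hk : ∀ f : Face α, k ≤
    (Finset.univ.filter fun d : X × ZMod 4 => face α d = f).card) :
    k * (Fintype.card X + 2) ≤ 4 * Fintype.card X := by
  have hfin : Finite (Face α) := Quot.finite _
  have : Fintype (Face α) := Fintype.ofFinite _
  have h1 : (Finset.univ : Finset (X × ZMod 4)).card = ∑ f : Face α,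
      (Finset.univ.filter fun d : X × ZMod 4 => face α d = f).card :=
    Finset.card_eq_sum_card_fiberwise (f := face α) (fun _ _ => Finset.mem_coe.2 (Finset.mem_univ _))
  have h2 : ∑ f : Face α, k ≤ ∑ f : Face α,
      (Finset.univ.filter fun d : X × ZMod 4 => face α d = f).card :=
    Finset.sum_le_sum fun f _ => hk f
  rw [← h1, Finset.sum_const, smul_eq_mul, Finset.card_univ, Finset.card_univ, Fintype.card_prod,
    ZMod.card, ← Nat.card_eq_fintype_card, h.euler] at h2
  linarith

omit [Fintype X] in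
theorem face_iter (d : X × ZMod 4) : face α (fs α d) = face α d := GT33.face_fs α d

include h in
theorem card_six : 6 ≤ Fintype.card X := by
  have h1 := card_le_of_nodes h 3 (by
    intro f
    induction f using Quot.ind with
    | mk d =>
    have h2 : ({d, fs α d, fs α (fs α d)} : Finset (X × ZMod 4)).card = 3 := by
      rw [Finset.card_insert_of_notMem, Finset.card_pair]
      · exact (fs_ne h _).symm
      · rw [Finset.mem_insert, Finset.mem_singleton, not_or]
        exact ⟨(fs_ne h d).symm, (fs_fs_ne h d).symm⟩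
    refine h2.ge.trans (Finset.card_le_card ?_)
    intro e he
    rw [Finset.mem_insert, Finset.mem_insert, Finset.mem_singleton] at he
    rw [Finset.mem_filter]
    refine ⟨Finset.mem_univ _, ?_⟩
    rcases he with rfl | rfl | rfl
    · rfl
    · exact face_iter d
    · rw [face_iter, face_iter]
      rfl)
  omega

include h in
/-- there is a node of degree three -/
theorem exists_three : ∃ d, fs α (fs α (fs α d)) = d := by
  by_contra hno
  push Not at hno
  have h1 := card_le_of_nodes h 4 (by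
    intro f
    induction f using Quot.ind with
    | mk d =>
    have hinj := h.fs_inj
    have h2 : ({d, fs α d, fs α (fs α d), fs α (fs α (fs α d))} : Finset (X × ZMod 4)).card = 4 := by
      rw [Finset.card_insert_of_notMem, Finset.card_insert_of_notMem, Finset.card_pair]
      · exact (fs_ne h _).symm
      · rw [Finset.mem_insert, Finset.mem_singleton, not_or]
        exact ⟨(fs_ne h _).symm, (fs_fs_ne h _).symm⟩
      · rw [Finset.mem_insert, Finset.mem_insert, Finset.mem_singleton, not_or, not_or]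
        exact ⟨(fs_ne h d).symm, (fs_fs_ne h d).symm, (hno d).symm⟩
    refine h2.ge.trans (Finset.card_le_card ?_)
    intro e he
    rw [Finset.mem_insert, Finset.mem_insert, Finset.mem_insert, Finset.mem_singleton] at he
    rw [Finset.mem_filter]
    refine ⟨Finset.mem_univ _, ?_⟩
    rcases he with rfl | rfl | rfl | rfl
    · rfl
    · exact face_iter d
    · rw [face_iter, face_iter]
      rfl
    · rw [face_iter, face_iter, face_iter]
      rfl)
  omega

/-! ### the star of a node of degree three -/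

omit [Fintype X] in
theorem four_darts {d e : X × ZMod 4} (he : e.1 = d.1) : e = d ∨ e = nx d ∨ e = op d ∨ e = pv d := by
  obtain ⟨x, i⟩ := d
  obtain ⟨y, j⟩ := e
  simp only at he
  subst he
  simp only [nx, op, pv, Prod.mk.injEq, true_and]
  revert i j
  decide

omit [Fintype X] in
theorem darts_ne (d : X × ZMod 4) : d ≠ nx d ∧ d ≠ op d ∧ d ≠ pv d ∧ nx d ≠ op d ∧ nx d ≠ pv d ∧
    op d ≠ pv d := by
  obtain ⟨x, i⟩ := d
  simp only [nx, op, pv, ne_eq, Prod.mk.injEq, true_and]
  revert i
  decide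

/-- the three sectors of a node of degree three -/
structure Tri (α : X × ZMod 4 → X × ZMod 4) (d : ZMod 3 → X × ZMod 4) : Prop where
  fs : ∀ i, fs α (d i) = d (i + 1)

include h in
theorem exists_tri : ∃ d, Tri α d := by
  obtain ⟨d, hd⟩ := exists_three h
  refine ⟨fun i => (fs α)^[i.val] d, ⟨fun i => ?_⟩⟩
  have hall : ∀ i : ZMod 3, i = 0 ∨ i = 1 ∨ i = 2 := by decide
  rcases hall i with rfl | rfl | rfl
  · rfl
  · rfl
  · exact hd

namespace Tri

variable {d : ZMod 3 → X × ZMod 4} (t : Tri α d)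

include t

omit [Fintype X] in
theorem al (i : ZMod 3) : α (d i) = nx (d (i + 1)) := al_of_fs (t.fs i)

include h in
theorem al_nx (i : ZMod 3) : α (nx (d (i + 1))) = d i := by rw [← t.al, h.inv]

include h in
theorem site_ne (i : ZMod 3) : (d i).1 ≠ (d (i + 1)).1 := by
  intro e
  apply h.noloop (d i)
  rw [t.al, e]
  rfl

include h in
theorem site_inj {i j : ZMod 3} (e : (d i).1 = (d j).1) : i = j := by
  have hall : ∀ i j : ZMod 3, j = i ∨ j = i + 1 ∨ i = j + 1 := by decide
  rcases hall i j with rfl | rfl | rfl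
  · rfl
  · exact absurd e (t.site_ne h i)
  · exact absurd e.symm (t.site_ne h j)

/-- the star -/
def R (_ : Tri α d) (e : X × ZMod 4) : Prop := ∃ i, e.1 = (d i).1

/-- the darts which leave the star -/
def eps (_ : Tri α d) (i : ZMod 6) : X × ZMod 4 :=
  (![op (d 0), pv (d 0), op (d 1), pv (d 1), op (d 2), pv (d 2)] : Fin 6 → X × ZMod 4) i

omit t in
theorem zmod3 : ∀ i : ZMod 3, i = 0 ∨ i = 1 ∨ i = 2 := by decide

omit t in
theorem zmod6 : ∀ i : ZMod 6, i = 0 ∨ i = 1 ∨ i = 2 ∨ i = 3 ∨ i = 4 ∨ i = 5 := by decide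

omit [Fintype X] in
theorem cases_R {e : X × ZMod 4} (he : t.R e) :
    ∃ i, e = d i ∨ e = nx (d i) ∨ e = op (d i) ∨ e = pv (d i) := by
  obtain ⟨i, hi⟩ := he
  exact ⟨i, four_darts hi⟩

omit [Fintype X] in
theorem R_d (i : ZMod 3) : t.R (d i) := ⟨i, rfl⟩

include h in
theorem leaving_sub {e : X × ZMod 4} (he : t.R e) (he' : ¬ t.R (α e)) : ∃ k, t.eps k = e := by
  obtain ⟨i, h1 | h1 | h1 | h1⟩ := t.cases_R he
  · exfalso
    apply he'
    rw [h1, t.al]
    exact ⟨i + 1, rfl⟩
  · exfalso
    apply he'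
    have h2 := t.al_nx h (i - 1)
    rw [sub_add_cancel] at h2
    rw [h1, h2]
    exact ⟨_, rfl⟩
  · rcases zmod3 i with rfl | rfl | rfl
    · exact ⟨0, h1.symm⟩
    · exact ⟨2, h1.symm⟩
    · exact ⟨4, h1.symm⟩
  · rcases zmod3 i with rfl | rfl | rfl
    · exact ⟨1, h1.symm⟩
    · exact ⟨3, h1.symm⟩
    · exact ⟨5, h1.symm⟩

include h in
theorem cut_ge : 6 ≤ (medMap h).cut t.R := by
  have h1 : ∀ e, t.R e ↔ e.1 ∈ (Finset.univ.image fun i => (d i).1) := by
    intro e
    simp only [R, Finset.mem_image, Finset.mem_univ, true_and]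
    exact ⟨fun ⟨i, hi⟩ => ⟨i, hi.symm⟩, fun ⟨i, hi⟩ => ⟨i, hi.symm⟩⟩
  rw [DMap.cut_congr h1, medMap_cut]
  have h2 : (Finset.univ.image fun i => (d i).1).card = 3 := by
    rw [Finset.card_image_of_injective _ fun i j e => t.site_inj h e, Finset.card_univ, ZMod.card]
  have h3 := card_six h
  exact h.cut6 _ (by omega) (by omega)

include h in
theorem leaving (e : X × ZMod 4) : (t.R e ∧ ¬ t.R (α e)) ↔ ∃ k, t.eps k = e := by
  have h1 := t.cut_ge h
  unfold DMap.cut at h1
  have hL : (Finset.univ.filter fun e => t.R e ∧ ¬ t.R (α e)) ⊆ Finset.univ.image t.eps := by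
    intro e he
    rw [Finset.mem_filter] at he
    rw [Finset.mem_image]
    obtain ⟨k, hk⟩ := t.leaving_sub h he.2.1 he.2.2
    exact ⟨k, Finset.mem_univ _, hk⟩
  have h2 : (Finset.univ.image t.eps).card ≤ 6 := by
    refine Finset.card_image_le.trans ?_
    rw [Finset.card_univ, ZMod.card]
  have h3 : (Finset.univ.filter fun e => t.R e ∧ ¬ t.R (α e)) = Finset.univ.image t.eps := by
    apply Finset.eq_of_subset_of_card_le hL
    refine h2.trans ?_
    rw [Nat.card_eq_fintype_card, Fintype.card_subtype] at h1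
    exact h1
  have h4 := Finset.ext_iff.1 h3 e
  simp only [Finset.mem_filter, Finset.mem_univ, true_and, Finset.mem_image] at h4
  exact h4

include h in
theorem eps_inj : Function.Injective t.eps := by
  have h01 : (d 0).1 ≠ (d 1).1 := fun e => absurd (t.site_inj h e) (by decide)
  have h02 : (d 0).1 ≠ (d 2).1 := fun e => absurd (t.site_inj h e) (by decide)
  have h12 : (d 1).1 ≠ (d 2).1 := fun e => absurd (t.site_inj h e) (by decide)
  have n0 := (darts_ne (d 0)).2.2.2.2.2
  have n1 := (darts_ne (d 1)).2.2.2.2.2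
  have n2 := (darts_ne (d 2)).2.2.2.2.2
  have f : ∀ {a b : X × ZMod 4}, a.1 ≠ b.1 → a ≠ b := fun hab e => hab (congrArg Prod.fst e)
  intro i j hij
  rcases zmod6 i with rfl | rfl | rfl | rfl | rfl | rfl <;>
    rcases zmod6 j with rfl | rfl | rfl | rfl | rfl | rfl <;> first
    | rfl
    | exact absurd hij n0
    | exact absurd hij n1
    | exact absurd hij n2
    | exact absurd hij.symm n0
    | exact absurd hij.symm n1
    | exact absurd hij.symm n2
    | exact absurd (congrArg Prod.fst hij) h01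
    | exact absurd (congrArg Prod.fst hij) h02
    | exact absurd (congrArg Prod.fst hij) h12
    | exact absurd (congrArg Prod.fst hij) h01.symm
    | exact absurd (congrArg Prod.fst hij) h02.symm
    | exact absurd (congrArg Prod.fst hij) h12.symm

omit t in
theorem sitesR (h : Rigid α) (t : Tri α d) : (medMap h).Sites t.R := fun _ => Iff.rfl

include h in
theorem exists_out : ∃ e, ¬ t.R e := by
  have h1 := (t.leaving h (t.eps 0)).2 ⟨0, rfl⟩
  exact ⟨_, h1.2⟩

theorem cut_R : (medMap h).cut t.R = 6 := by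
  apply le_antisymm _ (t.cut_ge h)
  unfold DMap.cut
  rw [Nat.card_eq_fintype_card, Fintype.card_subtype]
  have : (Finset.univ.filter fun e => t.R e ∧ ¬ t.R ((medMap h).al e)) ⊆
      Finset.univ.image t.eps := by
    intro e he
    rw [Finset.mem_filter] at he
    rw [Finset.mem_image]
    obtain ⟨k, hk⟩ := t.leaving_sub h he.2.1 he.2.2
    exact ⟨k, Finset.mem_univ _, hk⟩
  refine (Finset.card_le_card this).trans (Finset.card_image_le.trans ?_)
  rw [Finset.card_univ, ZMod.card]

/-- the boundary numbering of the star -/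
theorem bd : (medMap h).Bd t.R 6 t.eps := by
  have hl := medMap_legal h
  obtain ⟨γ, hγ⟩ := hl.exists_bd (t.sitesR h) ⟨_, t.R_d 0⟩ (t.exists_out h) (by rw [t.cut_R h]; omega)
  have hP : PlaneD (medMap h).nx (medMap h).al := (medMap_plane h).toD
  refine hP.bd_of_nodes (A := t.R) (t.sitesR h) (t.leaving h) ?_ ?_
  · intro i j hij
    apply t.eps_inj h
    rw [← DMap.sameNode_iff] at hij
    obtain ⟨k, hk⟩ := (hγ.mem _).1 ((t.leaving h _).2 ⟨i, rfl⟩)
    obtain ⟨l, hl⟩ := (hγ.mem _).1 ((t.leaving h _).2 ⟨j, rfl⟩)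
    rw [← hk, ← hl] at hij
    rw [← hk, ← hl, DMap.nodes_inj hγ hij]
  · intro i
    rw [← DMap.sameNode_iff]
    -- consecutive darts
    have key1 : ∀ e : X × ZMod 4, (medMap h).SameNode (op e) (α (pv e)) := by
      intro e
      refine Equiv.Perm.SameCycle.symm ⟨1, ?_⟩
      rw [zpow_one, medMap_fs, SN78.fs, h.inv, pv_pv]
    have key2 : ∀ i : ZMod 3, (medMap h).SameNode (pv (d i)) (α (op (d (i + 1)))) := by
      intro i
      refine Equiv.Perm.SameCycle.symm ⟨2, ?_⟩
      show (medMap h).fs ((medMap h).fs (α (op (d (i + 1))))) = _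
      have e1 : (medMap h).fs (α (op (d (i + 1)))) = nx (d (i + 1)) := by
        rw [medMap_fs, SN78.fs, h.inv, ← nx_nx, pv_nx]
      rw [e1, medMap_fs, SN78.fs, t.al_nx h]
    rcases zmod6 i with rfl | rfl | rfl | rfl | rfl | rfl
    · exact key1 (d 0)
    · exact key2 0
    · exact key1 (d 1)
    · exact key2 1
    · exact key1 (d 2)
    · exact key2 2

/-- the darts which leave the complement of the star -/
def del (i : ZMod 6) : X × ZMod 4 := α (t.eps (1 - i))

theorem bd' : (medMap h).Bd (fun e => ¬ t.R e) 6 t.del := DMap.bd_compl (t.bd h) 1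

include h in
theorem node_nx (i : ZMod 3) : (medMap h).SameNode (nx (d (i + 1))) (pv (d i)) := by
  refine ⟨1, ?_⟩
  rw [zpow_one, medMap_fs, SN78.fs, t.al_nx h]

theorem node_eps (k : ZMod 6) : (medMap h).SameNode (t.eps k) (t.del (-k)) := by
  rw [DMap.sameNode_iff]
  have h1 := (t.bd h).step k
  rw [h1]
  have h2 : 1 - -k = k + 1 := by ring
  unfold del
  rw [h2]
  rfl

include h in
theorem node_x (e : X × ZMod 4) (he : (medMap h).SameNode (d 0) e) : t.R e := by
  have := sameCycle_ind (f := (medMap h).fs) (P := fun e => ∃ i, e = d i) (by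
    rintro _ ⟨i, rfl⟩
    exact ⟨i + 1, t.fs i⟩) he ⟨0, rfl⟩
  obtain ⟨i, rfl⟩ := this
  exact t.R_d i

omit [Fintype X] in
theorem card_R : Nat.card {e // t.R e} ≤ 12 := by
  have h1 : Function.Surjective fun p : ZMod 3 × ZMod 4 =>
      (⟨((d p.1).1, p.2), ⟨p.1, rfl⟩⟩ : {e // t.R e}) := by
    rintro ⟨e, i, hi⟩
    exact ⟨(i, e.2), Subtype.ext (Prod.ext hi.symm rfl)⟩
  have h2 := Nat.card_le_card_of_surjective _ h1
  rwa [Nat.card_prod, Nat.card_zmod, Nat.card_zmod] at h2

/-- the state on the star, and `μ` elsewhere -/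
noncomputable def T (_ : Tri α d) (μ : X × ZMod 4 → X × ZMod 4) (e : X × ZMod 4) : Bool :=
  if e.1 = (d 0).1 then decide (e.2 - (d 0).2 = 0 ∨ e.2 - (d 0).2 = 2)
  else if e.1 = (d 1).1 then decide (e.2 - (d 1).2 = 1 ∨ e.2 - (d 1).2 = 3)
  else if e.1 = (d 2).1 then decide (e.2 - (d 2).2 = 1 ∨ e.2 - (d 2).2 = 3)
  else decide (μ e = pv e)

omit [Fintype X] in
theorem T_out (μ : X × ZMod 4 → X × ZMod 4) {e : X × ZMod 4} (he : ¬ t.R e) :
    t.T μ e = decide (μ e = pv e) := by
  unfold T
  rw [if_neg fun h => he ⟨0, h⟩, if_neg fun h => he ⟨1, h⟩, if_neg fun h => he ⟨2, h⟩]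

omit t [Fintype X] in
theorem sub_facts (i : ZMod 4) : i + 1 - i = 1 ∧ i + 2 - i = 2 ∧ i - 1 - i = 3 := by
  revert i
  decide

omit [Fintype X] in
theorem T_0 (μ : X × ZMod 4 → X × ZMod 4) : t.T μ (d 0) = true ∧ t.T μ (nx (d 0)) = false ∧
    t.T μ (op (d 0)) = true ∧ t.T μ (pv (d 0)) = false := by
  obtain ⟨s1, s2, s3⟩ := sub_facts (d 0).2
  unfold T
  simp only [nx, op, pv, if_true, sub_self, s1, s2, s3, decide_eq_true_eq,
    decide_eq_false_iff_not]
  decide

include h in
theorem T_1 (μ : X × ZMod 4 → X × ZMod 4) : t.T μ (d 1) = false ∧ t.T μ (nx (d 1)) = true ∧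
    t.T μ (op (d 1)) = false ∧ t.T μ (pv (d 1)) = true := by
  obtain ⟨s1, s2, s3⟩ := sub_facts (d 1).2
  have h1 : (d 1).1 ≠ (d 0).1 := fun e => absurd (t.site_inj h e) (by decide)
  unfold T
  simp only [nx, op, pv, if_true, if_neg h1, sub_self, s1, s2, s3, decide_eq_true_eq,
    decide_eq_false_iff_not]
  decide

include h in
theorem T_2 (μ : X × ZMod 4 → X × ZMod 4) : t.T μ (d 2) = false ∧ t.T μ (nx (d 2)) = true ∧
    t.T μ (op (d 2)) = false ∧ t.T μ (pv (d 2)) = true := by
  obtain ⟨s1, s2, s3⟩ := sub_facts (d 2).2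
  have h1 : (d 2).1 ≠ (d 0).1 := fun e => absurd (t.site_inj h e) (by decide)
  have h2 : (d 2).1 ≠ (d 1).1 := fun e => absurd (t.site_inj h e) (by decide)
  unfold T
  simp only [nx, op, pv, if_true, if_neg h1, if_neg h2, sub_self, s1, s2, s3, decide_eq_true_eq,
    decide_eq_false_iff_not]
  decide

include h in
/-- the selected sectors of the star -/
theorem T_star (μ : X × ZMod 4 → X × ZMod 4) {e : X × ZMod 4} (he : t.R e)
    (hT : t.T μ e = true) :
    e = d 0 ∨ e = op (d 0) ∨ e = nx (d 1) ∨ e = pv (d 1) ∨ e = nx (d 2) ∨ e = pv (d 2) := by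
  obtain ⟨i, hi⟩ := t.cases_R he
  obtain ⟨a1, a2, a3, a4⟩ := t.T_0 μ
  obtain ⟨b1, b2, b3, b4⟩ := t.T_1 h μ
  obtain ⟨c1, c2, c3, c4⟩ := t.T_2 h μ
  rcases zmod3 i with rfl | rfl | rfl <;> rcases hi with rfl | rfl | rfl | rfl <;>
    simp_all

end Tri

/-- the two states of a quad: `c, c + 1` and `c + 2, c + 3` are paired, the corners `c + 1`, `c + 3` get units -/
def Q4 (s : PState 4) : Prop :=
  ∃ c : ZMod 4, (∀ i, s.m i = if i = c ∨ i = c + 2 then i + 1 else i - 1) ∧
    1 ≤ s.u (c + 1) ∧ 1 ≤ s.u (c + 3)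

/-- the state needed at the end -/
structure Good6 (s : PState 6) : Prop where
  m1 : s.m 1 = 2
  m3 : s.m 3 = 4
  m5 : s.m 5 = 0
  u3 : s.u 3 ≤ 1
  u : ∀ i, s.u i ≤ 2

/-- all hexagon patches except the two-quad patch are full -/
def AllFull (E : (n : ℕ) → PState n → Prop) : Prop :=
  ∀ (D : Type) [Fintype D] (M : DMap D) (A : D → Prop) (δ : ZMod 6 → D), M.Patch A δ →
    Nat.card D ≠ 14 → M.Full E A δ

/-- the local states at the quads -/
theorem local_quad {E : (n : ℕ) → PState n → Prop} (hE : ∀ s, E 4 s → Q4 s)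
    {μ : X × ZMod 4 → X × ZMod 4} {ω : X × ZMod 4 → ℕ} {e : X × ZMod 4}
    (hl : (medMap h).LocalAt E μ ω e) :
    (μ e = pv e ∧ 1 ≤ ω e ∧ μ (nx e) ≠ e) ∨ (μ e = nx e ∧ μ (nx e) = e) := by
  obtain ⟨n, γ, s, hn, hγ, ⟨i, rfl⟩, hs, hst⟩ := hl
  have h4 : n = 4 := by
    rw [← hγ.deg i, medMap_deg]
  subst h4
  obtain ⟨c, hm, hu1, hu3⟩ := hE s hs
  have hnx : ∀ j, nx (γ j) = γ (j + 1) := hγ.nx
  have hpv : ∀ j, pv (γ j) = γ (j - 1) := by
    intro j
    have := hnx (j - 1)
    rw [sub_add_cancel] at this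
    rw [← this, pv_nx]
  have hne : ∀ j, γ (j + 2) ≠ γ j := by
    intro j e
    have := hγ.inj e
    rw [add_eq_left] at this
    exact absurd this (by decide)
  have hcase : ∀ i c : ZMod 4, (i = c ∨ i = c + 2) ∨ (i = c + 1 ∨ i = c + 3) := by decide
  have hnot : ∀ i c : ZMod 4, (i = c + 1 ∨ i = c + 3) → ¬ (i = c ∨ i = c + 2) := by decide
  have hshift : ∀ i c : ZMod 4, (i = c ∨ i = c + 2) → ¬ (i + 1 = c ∨ i + 1 = c + 2) := by decide
  have hshift' : ∀ i c : ZMod 4, (i = c + 1 ∨ i = c + 3) → (i + 1 = c ∨ i + 1 = c + 2) := by decide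
  rcases hcase i c with hi | hi
  · right
    rw [(hst i).1, hm, if_pos hi, hnx, (hst (i + 1)).1, hm, if_neg (hshift i c hi),
      add_sub_cancel_right]
    exact ⟨rfl, rfl⟩
  · left
    rw [(hst i).1, hm, if_neg (hnot i c hi), hnx, (hst (i + 1)).1, hm, if_pos (hshift' i c hi), hpv]
    refine ⟨rfl, ?_, ?_⟩
    · rw [(hst i).2]
      rcases hi with rfl | rfl
      · exact hu1
      · exact hu3
    · rw [add_assoc]
      exact hne i

section close

variable {d : ZMod 3 → X × ZMod 4} (t : Tri α d) {μ : X × ZMod 4 → X × ZMod 4}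

include h in
/-- `T` selects two opposite sectors at each crossing -/
theorem Tri.isState
    (hl : ∀ e, ¬ t.R e → (μ e = pv e ∧ μ (nx e) ≠ e) ∨ (μ e = nx e ∧ μ (nx e) = e)) :
    IsState (t.T μ) := by
  intro e
  by_cases he : t.R e
  · obtain ⟨a1, a2, a3, a4⟩ := t.T_0 μ
    obtain ⟨b1, b2, b3, b4⟩ := t.T_1 h μ
    obtain ⟨c1, c2, c3, c4⟩ := t.T_2 h μ
    have e1 : ∀ x : X × ZMod 4, nx (op x) = pv x := fun x => by rw [← pv_pv, nx_pv]
    obtain ⟨i, hi⟩ := t.cases_R he
    rcases Tri.zmod3 i with rfl | rfl | rfl <;> rcases hi with rfl | rfl | rfl | rfl <;>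
      simp only [nx_nx, e1, nx_pv, a1, a2, a3, a4, b1, b2, b3, b4, c1, c2, c3, c4] <;> rfl
  · have he' : ¬ t.R (nx e) := he
    rw [t.T_out μ he, t.T_out μ he', pv_nx]
    rcases hl e he with ⟨h1, h2⟩ | ⟨h1, h2⟩
    · simp [h1, h2]
    · have h3 : μ e ≠ pv e := by
        rw [h1]
        exact (darts_ne e).2.2.2.2.1
      simp [h2, h3]

omit [Fintype X] in
theorem Tri.turn_out
    (hl : ∀ e, ¬ t.R e → (μ e = pv e ∧ μ (nx e) ≠ e) ∨ (μ e = nx e ∧ μ (nx e) = e))
    {e : X × ZMod 4} (he : ¬ t.R e) : turn (t.T μ) e = μ e := by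
  unfold turn
  rw [t.T_out μ he]
  rcases hl e he with ⟨h1, h2⟩ | ⟨h1, h2⟩
  · simp [h1]
  · have h3 : μ e ≠ pv e := by
      rw [h1]
      exact (darts_ne e).2.2.2.2.1
    simp [h1, (darts_ne e).2.2.2.2.1]

/-- there is one closed curve -/
theorem Tri.oneLoop {E : (n : ℕ) → PState n → Prop} {s : PState 6} (hs : Good6 s)
    {ω : X × ZMod 4 → ℕ}
    (hR : (medMap h).Real E (fun e => ¬ t.R e) t.del s μ ω)
    (hl : ∀ e, ¬ t.R e → (μ e = pv e ∧ μ (nx e) ≠ e) ∨ (μ e = nx e ∧ μ (nx e) = e)) :
    OneLoop α (t.T μ) := by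
  have hal : ∀ e, SameLoop α (t.T μ) e (α e) := fun e => Relation.EqvGen.rel _ _ (Or.inl rfl)
  have htu : ∀ e, SameLoop α (t.T μ) e (turn (t.T μ) e) := fun e =>
    Relation.EqvGen.rel _ _ (Or.inr rfl)
  have hstr : ∀ x y, (medMap h).Str (fun e => ¬ t.R e) μ x y → SameLoop α (t.T μ) x y := by
    intro x y hxy
    induction hxy with
    | rel x y hxy =>
      rcases hxy.2 with h2 | h2
      · rw [h2, ← t.turn_out hl hxy.1]
        exact htu x
      · rw [h2.1]
        exact hal x
    | refl x => exact Relation.EqvGen.refl _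
    | symm x y _ ih => exact Relation.EqvGen.symm _ _ ih
    | trans x y z _ _ ih1 ih2 => exact Relation.EqvGen.trans _ _ _ ih1 ih2
  have sy : ∀ {a b}, SameLoop α (t.T μ) a b → SameLoop α (t.T μ) b a := fun hab =>
    Relation.EqvGen.symm _ _ hab
  have tr : ∀ {a b c}, SameLoop α (t.T μ) a b → SameLoop α (t.T μ) b c →
      SameLoop α (t.T μ) a c := fun hab hbc => Relation.EqvGen.trans _ _ _ hab hbc
  obtain ⟨a1, a2, a3, a4⟩ := t.T_0 μ
  obtain ⟨b1, b2, b3, b4⟩ := t.T_1 h μ
  obtain ⟨c1, c2, c3, c4⟩ := t.T_2 h μ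
  have e1 : ∀ x : X × ZMod 4, nx (op x) = pv x := fun x => by rw [← pv_pv, nx_pv]
  -- the strands in the star
  have l0 : SameLoop α (t.T μ) (d 0) (t.eps 1) := by
    have := htu (d 0)
    unfold turn at this
    rwa [a1, if_pos rfl] at this
  have l0' : SameLoop α (t.T μ) (nx (d 0)) (t.eps 0) := by
    have := htu (nx (d 0))
    unfold turn at this
    rwa [a2, if_neg (by simp), nx_nx] at this
  have l1 : SameLoop α (t.T μ) (d 1) (nx (d 1)) := by
    have := htu (d 1)
    unfold turn at this
    rwa [b1, if_neg (by simp)] at this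
  have l2 : SameLoop α (t.T μ) (d 2) (nx (d 2)) := by
    have := htu (d 2)
    unfold turn at this
    rwa [c1, if_neg (by simp)] at this
  have l23 : SameLoop α (t.T μ) (t.eps 2) (t.eps 3) := by
    have := htu (op (d 1))
    unfold turn at this
    rwa [b3, if_neg (by simp), e1] at this
  have l45 : SameLoop α (t.T μ) (t.eps 4) (t.eps 5) := by
    have := htu (op (d 2))
    unfold turn at this
    rwa [c3, if_neg (by simp), e1] at this
  have m0 : SameLoop α (t.T μ) (d 0) (nx (d 1)) := by
    have := hal (d 0)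
    rwa [t.al] at this
  have m1 : SameLoop α (t.T μ) (d 1) (nx (d 2)) := by
    have := hal (d 1)
    rwa [t.al] at this
  have m2 : SameLoop α (t.T μ) (d 2) (nx (d 0)) := by
    have := hal (d 2)
    rwa [t.al] at this
  -- the strands outside
  have k : ∀ i, SameLoop α (t.T μ) (t.eps (1 - i)) (t.del i) := fun i => hal _
  have n1 := hstr _ _ (hR.str 1)
  have n3 := hstr _ _ (hR.str 3)
  have n5 := hstr _ _ (hR.str 5)
  rw [hs.m1] at n1
  rw [hs.m3] at n3
  rw [hs.m5] at n5
  have k0 : SameLoop α (t.T μ) (t.eps 1) (t.del 0) := k 0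
  have k1 : SameLoop α (t.T μ) (t.eps 0) (t.del 1) := k 1
  have k2 : SameLoop α (t.T μ) (t.eps 5) (t.del 2) := k 2
  have k3 : SameLoop α (t.T μ) (t.eps 4) (t.del 3) := k 3
  have k4 : SameLoop α (t.T μ) (t.eps 3) (t.del 4) := k 4
  have k5 : SameLoop α (t.T μ) (t.eps 2) (t.del 5) := k 5
  -- everything is connected with `eps 0`
  have x1 : SameLoop α (t.T μ) (t.eps 1) (t.eps 0) :=
    tr (sy l0) (tr m0 (tr (sy l1) (tr m1 (tr (sy l2) (tr m2 l0')))))
  have x5 : SameLoop α (t.T μ) (t.eps 5) (t.eps 0) := tr k2 (tr (sy n1) (sy k1))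
  have x4 : SameLoop α (t.T μ) (t.eps 4) (t.eps 0) := tr l45 x5
  have x3 : SameLoop α (t.T μ) (t.eps 3) (t.eps 0) := tr k4 (tr (sy n3) (tr (sy k3) x4))
  have x2 : SameLoop α (t.T μ) (t.eps 2) (t.eps 0) := tr l23 x3
  have xd : ∀ i, SameLoop α (t.T μ) (t.del i) (t.eps 0) := by
    intro i
    rcases Tri.zmod6 i with rfl | rfl | rfl | rfl | rfl | rfl
    · exact tr (sy k0) x1
    · exact sy k1
    · exact tr (sy k2) x5
    · exact tr (sy k3) x4
    · exact tr (sy k4) x3
    · exact tr (sy k5) x2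
  have xall : ∀ e, SameLoop α (t.T μ) e (t.eps 0) := by
    intro e
    by_cases he : t.R e
    · have y0 : SameLoop α (t.T μ) (d 0) (t.eps 0) := tr l0 x1
      have y1 : SameLoop α (t.T μ) (d 1) (t.eps 0) := tr l1 (tr (sy m0) y0)
      have y2 : SameLoop α (t.T μ) (d 2) (t.eps 0) := tr l2 (tr (sy m1) y1)
      obtain ⟨i, hi⟩ := t.cases_R he
      rcases Tri.zmod3 i with rfl | rfl | rfl <;> rcases hi with rfl | rfl | rfl | rfl
      · exact y0
      · exact l0'
      · exact Relation.EqvGen.refl _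
      · exact x1
      · exact y1
      · exact tr (sy l1) y1
      · exact x2
      · exact x3
      · exact y2
      · exact tr (sy l2) y2
      · exact x4
      · exact x5
    · obtain ⟨i, hi⟩ := hR.all e he
      exact tr (hstr _ _ hi) (xd i)
  exact fun a b => tr (xall a) (sy (xall b))

/-- the selected sectors of the star in the nodes of the boundary -/
theorem Tri.star_node {e : X × ZMod 4} (he : t.R e) (hT : t.T μ e = true) {i : ZMod 6}
    (hn : (medMap h).SameNode (t.del i) e) :
    (i = 0 ∧ e = op (d 0)) ∨ (i = 5 ∧ e = nx (d 1)) ∨ (i = 3 ∧ (e = pv (d 1) ∨ e = nx (d 2))) ∨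
      (i = 1 ∧ e = pv (d 2)) := by
  have hb := t.bd' h
  have hout : ∀ j, ¬ t.R (t.del j) := fun j => DMap.bd_mem hb j
  have inj : ∀ {j}, (medMap h).SameNode (t.del i) (t.del j) → i = j := fun hs =>
    DMap.nodes_inj hb hs
  have n0 : (medMap h).SameNode (op (d 0)) (t.del 0) := t.node_eps h 0
  have n1 : (medMap h).SameNode (pv (d 0)) (t.del 5) := t.node_eps h 1
  have n3 : (medMap h).SameNode (pv (d 1)) (t.del 3) := t.node_eps h 3
  have n5 : (medMap h).SameNode (pv (d 2)) (t.del 1) := t.node_eps h 5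
  have m0 : (medMap h).SameNode (nx (d 1)) (pv (d 0)) := t.node_nx h 0
  have m1 : (medMap h).SameNode (nx (d 2)) (pv (d 1)) := t.node_nx h 1
  rcases t.T_star h μ he hT with rfl | rfl | rfl | rfl | rfl | rfl
  · exact absurd (t.node_x h _ hn.symm) (hout i)
  · exact Or.inl ⟨inj (hn.trans n0), rfl⟩
  · exact Or.inr (Or.inl ⟨inj (hn.trans (m0.trans n1)), rfl⟩)
  · exact Or.inr (Or.inr (Or.inl ⟨inj (hn.trans n3), Or.inl rfl⟩))
  · exact Or.inr (Or.inr (Or.inl ⟨inj (hn.trans (m1.trans n3)), Or.inr rfl⟩))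
  · exact Or.inr (Or.inr (Or.inr ⟨inj (hn.trans n5), rfl⟩))

theorem face_eq_node {a b : X × ZMod 4} :
    face α a = face α b ↔ (medMap h).SameNode a b :=
  (DMap.sameNode_iff (M := medMap h) (d := a) (e := b)).symm

/-- the loads -/
theorem Tri.load_le {E : (n : ℕ) → PState n → Prop} {s : PState 6} (hs : Good6 s)
    {ω : X × ZMod 4 → ℕ}
    (hR : (medMap h).Real E (fun e => ¬ t.R e) t.del s μ ω)
    (hl : ∀ e, ¬ t.R e → μ e = pv e → 1 ≤ ω e) (e : X × ZMod 4) :
    load α (t.T μ) (face α e) ≤ 3 := by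
  have hb := t.bd' h
  set L := Finset.univ.filter fun a => (medMap h).SameNode e a ∧ t.T μ a = true with hL
  have h1 : load α (t.T μ) (face α e) = L.card := by
    unfold load
    rw [Nat.card_eq_fintype_card, Fintype.card_subtype, hL]
    congr 1
    ext a
    simp only [Finset.mem_filter, Finset.mem_univ, true_and]
    rw [face_eq_node h]
    exact and_congr_left fun _ => ⟨fun h2 => h2.symm, fun h2 => h2.symm⟩
  have h2 : (L.filter fun a => ¬ t.R a).card ≤ (medMap h).usum (fun a => ¬ t.R a) ω e := by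
    unfold DMap.usum
    have h3 : (L.filter fun a => ¬ t.R a) ⊆ (medMap h).nodeIn (fun a => ¬ t.R a) e := by
      intro a ha
      rw [Finset.mem_filter, hL, Finset.mem_filter] at ha
      rw [DMap.mem_nodeIn]
      exact ⟨ha.1.2.1, ha.2⟩
    refine le_trans ?_ (Finset.sum_le_sum_of_subset h3)
    rw [Finset.card_eq_sum_ones]
    refine Finset.sum_le_sum fun a ha => ?_
    rw [Finset.mem_filter, hL, Finset.mem_filter] at ha
    refine hl a ha.2 ?_
    have h4 := ha.1.2.2
    rw [t.T_out μ ha.2] at h4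
    exact of_decide_eq_true h4
  have h3 : L.card = (L.filter fun a => t.R a).card + (L.filter fun a => ¬ t.R a).card :=
    (Finset.card_filter_add_card_filter_not _).symm
  have hmem : ∀ {a}, a ∈ L.filter (fun a => t.R a) ↔
      ((medMap h).SameNode e a ∧ t.T μ a = true) ∧ t.R a := by
    intro a
    rw [Finset.mem_filter, hL, Finset.mem_filter]
    simp only [Finset.mem_univ, true_and]
  rw [h1, h3]
  by_cases hin : ∀ a, (medMap h).SameNode e a → ¬ t.R a
  · have h4 := hR.inner e hin
    have h5 : L.filter (fun a => t.R a) = ∅ := by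
      rw [Finset.eq_empty_iff_forall_notMem]
      intro a ha
      rw [hmem] at ha
      exact hin a ha.1.1 ha.2
    rw [h5, Finset.card_empty]
    omega
  · push Not at hin
    obtain ⟨y, hy, hyR⟩ := hin
    by_cases hin' : ∀ a, (medMap h).SameNode e a → t.R a
    · have h5 : (L.filter fun a => ¬ t.R a) = ∅ := by
        rw [Finset.eq_empty_iff_forall_notMem]
        intro a ha
        rw [Finset.mem_filter, hL, Finset.mem_filter] at ha
        exact ha.2 (hin' a ha.1.2.1)
      have h6 : L.filter (fun a => t.R a) ⊆ {d 0} := by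
        intro a ha
        rw [hmem] at ha
        rw [Finset.mem_singleton]
        have hnode : ∀ {k b}, t.eps k = b → (medMap h).SameNode e b → False := by
          intro k b hk hb'
          rw [← hk] at hb'
          exact DMap.bd_mem hb (-k) (hin' _ (hb'.trans (t.node_eps h k)))
        rcases t.T_star h μ ha.2 ha.1.2 with rfl | rfl | rfl | rfl | rfl | rfl
        · rfl
        · exact absurd ha.1.1 fun hx => hnode (k := 0) rfl hx
        · exact absurd ha.1.1 fun hx => hnode (k := 1) rfl (hx.trans (t.node_nx h 0))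
        · exact absurd ha.1.1 fun hx => hnode (k := 3) rfl hx
        · exact absurd ha.1.1 fun hx => hnode (k := 3) rfl (hx.trans (t.node_nx h 1))
        · exact absurd ha.1.1 fun hx => hnode (k := 5) rfl hx
      have h7 := Finset.card_le_card h6
      rw [Finset.card_singleton] at h7
      rw [h5, Finset.card_empty]
      omega
    · push Not at hin'
      obtain ⟨x, hx, hxR⟩ := hin'
      obtain ⟨z, hz1, hz2, hz3⟩ := DMap.exists_leaving (M := medMap h) (A := fun e => ¬ t.R e) hb.site (hx.symm.trans hy) hxR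
        (not_not.2 hyR)
      obtain ⟨i, rfl⟩ := (hb.mem z).1 ⟨hz2, hz3⟩
      have hei : (medMap h).SameNode e (t.del i) := hx.trans hz1
      have h4 : (medMap h).usum (fun a => ¬ t.R a) ω e = s.u i := by
        rw [DMap.usum_same hei]
        exact hR.bdry i
      have hu := hs.u i
      have hst : ∀ {a}, a ∈ L.filter (fun a => t.R a) →
          (i = 0 ∧ a = op (d 0)) ∨ (i = 5 ∧ a = nx (d 1)) ∨
          (i = 3 ∧ (a = pv (d 1) ∨ a = nx (d 2))) ∨ (i = 1 ∧ a = pv (d 2)) := by
        intro a ha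
        rw [hmem] at ha
        exact t.star_node h ha.2 ha.1.2 (hei.symm.trans ha.1.1)
      by_cases hi3 : i = 3
      · have h5 : (L.filter fun a => t.R a) ⊆ {pv (d 1), nx (d 2)} := by
          intro a ha
          rw [Finset.mem_insert, Finset.mem_singleton]
          rcases hst ha with ⟨hi, -⟩ | ⟨hi, -⟩ | ⟨-, h6⟩ | ⟨hi, -⟩
          · rw [hi3] at hi
            exact absurd hi (by decide)
          · rw [hi3] at hi
            exact absurd hi (by decide)
          · exact h6
          · rw [hi3] at hi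
            exact absurd hi (by decide)
        have h6 := (Finset.card_le_card h5).trans Finset.card_le_two
        have h7 := hs.u3
        rw [hi3] at h4
        omega
      · have h5 : (L.filter fun a => t.R a).card ≤ 1 := by
          rw [Finset.card_le_one]
          intro a ha b hb
          have f1 := hst ha
          have f2 := hst hb
          have n1 : (0 : ZMod 6) ≠ 5 := by decide
          have n2 : (0 : ZMod 6) ≠ 1 := by decide
          have n3 : (5 : ZMod 6) ≠ 1 := by decide
          rcases f1 with ⟨i1, f1⟩ | ⟨i1, f1⟩ | ⟨i1, -⟩ | ⟨i1, f1⟩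
          · rcases f2 with ⟨i2, f2⟩ | ⟨i2, f2⟩ | ⟨i2, -⟩ | ⟨i2, f2⟩
            · rw [f1, f2]
            · exact absurd (i1.symm.trans i2) n1
            · exact absurd i2 hi3
            · exact absurd (i1.symm.trans i2) n2
          · rcases f2 with ⟨i2, f2⟩ | ⟨i2, f2⟩ | ⟨i2, -⟩ | ⟨i2, f2⟩
            · exact absurd (i2.symm.trans i1) n1
            · rw [f1, f2]
            · exact absurd i2 hi3
            · exact absurd (i1.symm.trans i2) n3
          · exact absurd i1 hi3
          · rcases f2 with ⟨i2, f2⟩ | ⟨i2, f2⟩ | ⟨i2, -⟩ | ⟨i2, f2⟩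
            · exact absurd (i2.symm.trans i1) n2
            · exact absurd (i2.symm.trans i1) n3
            · exact absurd i2 hi3
            · rw [f1, f2]
        omega

end close

include h in
/-- **Closing theorem**: the patches imply the states of the rigid medial maps -/
theorem exists_state {E : (n : ℕ) → PState n → Prop} (hE : ∀ s, E 4 s → Q4 s) (hF : AllFull E)
    (hg : ∃ s, E 6 s ∧ Good6 s) :
    ∃ T : X × ZMod 4 → Bool, IsState T ∧ OneLoop α T ∧ ∀ e, load α T (face α e) ≤ 3 := by
  obtain ⟨d, t⟩ := exists_tri h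
  obtain ⟨s, hs, hs6⟩ := hg
  have hX := card_six h
  obtain ⟨η, hη, δ', hδ', hP⟩ := (medMap_legal h).inside (t.bd' h)
  have hX' : Nat.card (X × ZMod 4) = 4 * Fintype.card X := by
    rw [Nat.card_prod, Nat.card_zmod, Nat.card_eq_fintype_card, mul_comm]
  have c1 := DMap.card_add' (D := X × ZMod 4) t.R
  have c2 := t.card_R
  have c3 : Nat.card {e // ¬ ¬ ¬ t.R e} = Nat.card {e // ¬ t.R e} :=
    Nat.card_congr (Equiv.subtypeEquivRight fun e => not_not)
  have hfull := hF _ _ _ _ hP (by
    rw [DMap.card_out]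
    omega)
  obtain ⟨μ', ω', hR'⟩ := hfull s hs
  obtain ⟨μ, ω, hR⟩ := hR'.of_inside (DMap.contr_isCtr hη) hδ'
  have hl : ∀ e, ¬ t.R e → (μ e = pv e ∧ 1 ≤ ω e ∧ μ (nx e) ≠ e) ∨ (μ e = nx e ∧ μ (nx e) = e) :=
    fun e he => local_quad h hE (hR.loc e he)
  have hl' : ∀ e, ¬ t.R e → (μ e = pv e ∧ μ (nx e) ≠ e) ∨ (μ e = nx e ∧ μ (nx e) = e) :=
    fun e he => (hl e he).imp (fun hx => ⟨hx.1, hx.2.2⟩) id
  refine ⟨t.T μ, t.isState h hl', t.oneLoop h hs6 hR hl', t.load_le h hs6 hR ?_⟩
  intro e he he'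
  rcases hl e he with hx | hx
  · exact hx.2.1
  · exfalso
    rw [hx.1] at he'
    exact (darts_ne e).2.2.2.2.1 he'

end

/-- **The patches imply the theorem**: every finite 3-connected plane graph has a spanning tree with
maximum degree at most three whose co-tree has maximum degree at most three. -/
theorem close {E : (n : ℕ) → PState n → Prop} (hE : ∀ s, E 4 s → Q4 s) (hF : AllFull E)
    (hg : ∃ s, E 6 s ∧ Good6 s) {V : Type u} [Finite V] {G : SimpleGraph V} (R : Rotation G)
    (hG : ThreeConnected G) (hR : R.Plane) : HasTree R 3 3 := by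
  refine bridge 3 3 ?_ R hG hR
  intro X _ α o h _
  obtain ⟨T, h1, h2, h3⟩ := exists_state h hE hF hg
  exact ⟨T, h1, h2, fun e => by simpa using h3 e⟩

end GT33
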