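import Pool.Agent.GT33.Tab
import Pool.Agent.GT33.Close

/-!
# GT33 module CLOSEE: it suffices that all patches realise the table
-/

namespace GT33

universe u

/-- If all patches (except the two-quad patch) realise the table of states, then every finite 3-connected
plane graph has a spanning tree with maximum degree at most three whose co-tree has maximum degree at
most three. -/
theorem close_EE (hF : AllFull EE) {V : Type u} [Finite V] {G : SimpleGraph V} (R : Rotation G)
    (hG : ThreeConnected G) (hR : R.Plane) : HasTree R 3 3 :=
  close (fun s hs => q4_of_EE s hs) hF
    ⟨(hst 0).rot 5, ⟨0, 5, rfl⟩, by decide, by decide, by decide, by decide, by decide⟩ R hG hR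

end GT33
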