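import Pool.Agent.GT33.KObj

/-!
# GT33 module CTRF: contraction of the critical sets of sites

`TN M δ H`: the ring nodes of a set of sites.  A criterion `Cr` on the ring nodes and the ring edges of a set of sites
says which sets of sites with six boundary darts are critical.  `Obj.ctrF`: after contracting maximal critical sets,
one after the other, all critical sets are one site or two quads, and all hexagons are critical.
-/

open Classical

namespace GT33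

namespace DMap

variable {D : Type} {M : DMap D}

/-- the ring nodes of a set of sites -/
def TN (M : DMap D) (δ : ZMod 6 → D) (H : D → Prop) (k : ZMod 6) : Prop :=
  ∃ d, H d ∧ M.SameNode (δ k) d

/-- the ring edges of a set of sites -/
def TE (δ : ZMod 6 → D) (H : D → Prop) (k : ZMod 6) : Prop := H (δ k)

/-- the sets of sites of the second map come from sets of sites of the first map -/
def Lifts (M : DMap D) (A : D → Prop) (δ : ZMod 6 → D) {D₁ : Type} (M₁ : DMap D₁) (A₁ : D₁ → Prop)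
    (δ₁ : ZMod 6 → D₁) : Prop :=
  ∀ H₁ : D₁ → Prop, M₁.Sites H₁ → (∀ d, H₁ d → A₁ d) → ∃ H : D → Prop, M.Sites H ∧
    (∀ d, H d → A d) ∧ M.cut H = M₁.cut H₁ ∧ TE δ H = TE δ₁ H₁ ∧ TN M δ H = TN M₁ δ₁ H₁ ∧
    ((∃ d, A₁ d ∧ ¬ H₁ d) → ∃ d, A d ∧ ¬ H d)

theorem Lifts.refl (M : DMap D) (A : D → Prop) (δ : ZMod 6 → D) : Lifts M A δ M A δ :=
  fun H h1 h2 => ⟨H, h1, h2, rfl, rfl, rfl, id⟩

theorem Lifts.trans {A : D → Prop} {δ : ZMod 6 → D} {D₁ D₂ : Type} {M₁ : DMap D₁} {A₁ : D₁ → Prop}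
    {δ₁ : ZMod 6 → D₁} {M₂ : DMap D₂} {A₂ : D₂ → Prop} {δ₂ : ZMod 6 → D₂}
    (h : Lifts M A δ M₁ A₁ δ₁) (h' : Lifts M₁ A₁ δ₁ M₂ A₂ δ₂) : Lifts M A δ M₂ A₂ δ₂ := by
  intro H₂ h1 h2
  obtain ⟨H₁, a1, a2, a3, a4, a5, a6⟩ := h' H₂ h1 h2
  obtain ⟨H, b1, b2, b3, b4, b5, b6⟩ := h H₁ a1 a2
  exact ⟨H, b1, b2, b3.trans a3, b4.trans a4, b5.trans a5, fun h => b6 (a6 h)⟩

/-- the number of ring edges -/
theorem scut_TE {δ : ZMod 6 → D} {H : D → Prop} {D₁ : Type} {δ₁ : ZMod 6 → D₁} {H₁ : D₁ → Prop}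
    (h : TE δ H = TE δ₁ H₁) : (Finset.univ.filter fun i => H (δ i)).card =
      (Finset.univ.filter fun i => H₁ (δ₁ i)).card := by
  have h1 : ∀ i, H (δ i) ↔ H₁ (δ₁ i) := fun i => iff_of_eq (congrFun h i)
  congr 1
  exact Finset.filter_congr fun i _ => h1 i

theorem card_siteD [Finite D] (d : D) : Nat.card {e // M.SameSite d e} = M.deg d := by
  have : Fintype D := Fintype.ofFinite D
  rw [Nat.card_eq_fintype_card, Fintype.card_subtype]
  exact card_site (M := M) d _ fun e => by simp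

/-- all critical sets of the second map are one site or two quads, and all hexagons are critical -/
structure CtrF [Fintype D] (Good : (ZMod 6 → Prop) → Prop → Rel → Prop)
    (Cr : (ZMod 6 → Prop) → (ZMod 6 → Prop) → Prop) (M : DMap D) (A : D → Prop) (δ : ZMod 6 → D)
    (B : Boxes D) {D₁ : Type} [Fintype D₁] (M₁ : DMap D₁) (A₁ : D₁ → Prop) (δ₁ : ZMod 6 → D₁)
    (B₁ : Boxes D₁) : Prop where
  obj : M₁.Obj Good A₁ δ₁ B₁
  card : Nat.card D₁ ≤ Nat.card D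
  ns : ¬ ∃ r, ∀ e, A₁ e ↔ M₁.SameSite r e
  rz : ∀ F s, F.Ok → Rz M₁ A₁ δ₁ B₁.β F s → Rz M A δ B.β F s
  ks : ∀ j, KS M₁ B₁.κ δ₁ j ↔ KS M B.κ δ j
  lifts : Lifts M A δ M₁ A₁ δ₁
  hex : ∀ d, A₁ d → M₁.deg d = 6 → Cr (TN M₁ δ₁ (M₁.SameSite d)) (TE δ₁ (M₁.SameSite d))
  triv : ∀ H : D₁ → Prop, M₁.Sites H → (∀ d, H d → A₁ d) → (∃ d, A₁ d ∧ ¬ H d) → M₁.cut H = 6 →
    Cr (TN M₁ δ₁ H) (TE δ₁ H) → (∃ r, ∀ e, H e ↔ M₁.SameSite r e) ∨ Nat.card {d // H d} = 8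
  hexl : ∀ d, A₁ d → M₁.deg d = 6 → ∃ H : D → Prop, M.Sites H ∧ (∀ e, H e → A e) ∧
    (∃ e, A e ∧ ¬ H e) ∧ M.cut H = 6 ∧ TE δ H = TE δ₁ (M₁.SameSite d) ∧
    TN M δ H = TN M₁ δ₁ (M₁.SameSite d) ∧ Nat.card {e // H e} ≠ 8
  ex : (∃ d, A d ∧ M.deg d = 6) ∨ (∃ H : D → Prop, M.Sites H ∧ (∀ d, H d → A d) ∧
    (∃ d, A d ∧ ¬ H d) ∧ M.cut H = 6 ∧ Cr (TN M δ H) (TE δ H) ∧
    (¬ ∃ r, ∀ e, H e ↔ M.SameSite r e) ∧ Nat.card {d // H d} ≠ 8) → ∃ d, A₁ d ∧ M₁.deg d = 6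

section contr

variable [Fintype D] {A H : D → Prop} {δ δ₀ : ZMod 6 → D}

/-- ring nodes and ring edges after the contraction -/
theorem TN_contr (hP : M.Patch A δ) (hb : M.Bd H 6 δ₀) (hHA : ∀ d, H d → A d)
    {δ' : ZMod 6 → Out H 6} (hδ' : ∀ i, cemb δ₀ (δ' i) = δ i) {H₁ : Out H 6 → Prop}
    (h1 : (M.contr hb).Sites H₁) :
    TN M δ (pull H₁) = TN (M.contr hb) δ' H₁ ∧ TE δ (pull H₁) = TE δ' H₁ := by
  have h := contr_isCtr hb
  constructor
  · funext k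
    apply propext
    constructor
    · rintro ⟨d, hd, hn⟩
      by_cases hH : H d
      · obtain ⟨l, hl⟩ := ring_of_region hP hb hHA hn hH
        refine ⟨.inr l, (sites_inr hb h1 0 l).1 ((pull_of hH).1 hd), ?_⟩
        rw [h.node, hδ', cemb_inr]
        exact hn.trans hl.symm
      · exact ⟨.inl ⟨d, hH⟩, (pull_of_not hH).1 hd, by rw [h.node, hδ']; exact hn⟩
    · rintro ⟨x, hx, hn⟩
      refine ⟨cemb δ₀ x, (pull_cemb hb h1 x).2 hx, ?_⟩
      rw [h.node, hδ'] at hn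
      exact hn
  · funext k
    apply propext
    show pull H₁ (δ k) ↔ H₁ (δ' k)
    rw [← hδ']
    exact pull_cemb hb h1 _

theorem Lifts.contr (hP : M.Patch A δ) (hb : M.Bd H 6 δ₀) (hHA : ∀ d, H d → A d)
    {δ' : ZMod 6 → Out H 6} (hδ' : ∀ i, cemb δ₀ (δ' i) = δ i) :
    Lifts M A δ (M.contr hb) (fun x => A (cemb δ₀ x)) δ' := by
  intro H₁ h1 h2
  obtain ⟨h3, h4⟩ := TN_contr hP hb hHA hδ' h1
  refine ⟨pull H₁, pull_sites hb h1, fun d hd => ?_, cut_pull hb h1, h4, h3, ?_⟩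
  · by_cases hH : H d
    · exact hHA d hH
    · exact h2 _ ((pull_of_not hH).1 hd)
  · rintro ⟨x, hx1, hx2⟩
    exact ⟨cemb δ₀ x, hx1, fun h5 => hx2 ((pull_cemb hb h1 x).1 h5)⟩

end contr

/-- **contraction of maximal critical sets** -/
theorem Obj.ctrF_aux {Good : (ZMod 6 → Prop) → Prop → Rel → Prop}
    (hmono : ∀ K σ b b', (∀ F t, F.Ok → b F t → b' F t) → Good K σ b → Good K σ b')
    (hnice : ∀ K σ b, Good K σ b → Good K σ fun F t => Nice t ∧ b F t)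
    {Cr : (ZMod 6 → Prop) → (ZMod 6 → Prop) → Prop} (hCr : ∀ N E, Cr N E → ∃ j, N j) {N : ℕ}
    (IH : IHR Good N) : ∀ (n : ℕ) (D : Type) [Fintype D] (M : DMap D) (A : D → Prop)
      (δ : ZMod 6 → D) (B : Boxes D), M.Obj Good A δ B → (¬ ∃ r, ∀ e, A e ↔ M.SameSite r e) →
      (∀ d, A d → M.deg d = 6 → Cr (TN M δ (M.SameSite d)) (TE δ (M.SameSite d))) →
      (∀ H : D → Prop, M.Sites H → (∀ d, H d → A d) → (∃ d, A d ∧ ¬ H d) → M.cut H = 6 →
        Cr (TN M δ H) (TE δ H) → ∀ x, H x → M.deg x = 6 → ∀ e, H e ↔ M.SameSite x e) →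
      Nat.card D = n → n ≤ N →
      ∃ (D₁ : Type) (_ : Fintype D₁) (M₁ : DMap D₁) (A₁ : D₁ → Prop) (δ₁ : ZMod 6 → D₁)
        (B₁ : Boxes D₁), CtrF Good Cr M A δ B M₁ A₁ δ₁ B₁ := by
  intro n
  induction n using Nat.strong_induction_on with
  | _ n ih =>
  intro D _ M A δ B hO hns hhex hmax hn hN
  have hP := hO.patch
  by_cases htriv : ∀ H : D → Prop, M.Sites H → (∀ d, H d → A d) → (∃ d, A d ∧ ¬ H d) → M.cut H = 6 →
      Cr (TN M δ H) (TE δ H) → (∃ r, ∀ e, H e ↔ M.SameSite r e) ∨ Nat.card {d // H d} = 8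
  · refine ⟨D, inferInstance, M, A, δ, B, hO, le_rfl, hns, fun _ _ _ h => h, fun _ => Iff.rfl,
      Lifts.refl M A δ, hhex, htriv, fun d hd h6 => ⟨M.SameSite d, sites_site d, fun e he =>
      (hP.sites.same he).1 hd, ?_, ?_, rfl, rfl, ?_⟩, ?_⟩
    · by_contra hno
      push Not at hno
      exact hns ⟨d, fun e => ⟨hno e, fun he => (hP.sites.same he).1 hd⟩⟩
    · rw [hP.legal.cut_site, h6]
    · rw [card_siteD, h6]
      decide
    · rintro (h1 | ⟨H, a1, a2, a3, a4, a5, a6, a7⟩)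
      · exact h1
      · exact ((htriv H a1 a2 a3 a4 a5).elim a6 a7).elim
  -- a maximal critical set
  push Not at htriv
  obtain ⟨H₀, hH₀⟩ := htriv
  let P : (D → Prop) → Prop := fun H => M.Sites H ∧ (∀ d, H d → A d) ∧ (∃ d, A d ∧ ¬ H d) ∧
    M.cut H = 6 ∧ Cr (TN M δ H) (TE δ H) ∧ (¬ ∃ r, ∀ e, H e ↔ M.SameSite r e) ∧
    Nat.card {d // H d} ≠ 8
  have hP₀ : P H₀ := by
    obtain ⟨a1, a2, a3, a4, a5, a6, a7⟩ := hH₀
    refine ⟨a1, a2, a3, a4, a5, ?_, a7⟩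
    rintro ⟨r, hr⟩
    obtain ⟨e, he⟩ := a6 r
    rcases he with he | he
    · exact he.2 ((hr e).1 he.1)
    · exact he.1 ((hr e).2 he.2)
  obtain ⟨H, ⟨hHs, hHA, ⟨x, hx1, hx2⟩, hc, hcr, hns', h8⟩, hbig⟩ :
      ∃ H, P H ∧ ∀ H', P H' → Nat.card {d // H' d} ≤ Nat.card {d // H d} := by
    obtain ⟨H, h1, h2⟩ := Set.exists_max_image {H | P H} (fun H => Nat.card {d // H d})
      (Set.toFinite _) ⟨H₀, hP₀⟩
    exact ⟨H, h1, h2⟩
  have hHq : ∀ d, H d → M.deg d = 4 := by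
    intro d hd
    rcases hP.legal.deg d with h1 | h1
    · exact h1
    · exact absurd ⟨d, hmax H hHs hHA ⟨x, hx1, hx2⟩ hc hcr d hd h1⟩ hns'
  obtain ⟨j₀, d₀, hd₀, hjd₀⟩ := hCr _ _ hcr
  have hex : ∃ d, H d := ⟨d₀, hd₀⟩
  have hex' : ∃ d, ¬ H d := ⟨x, hx2⟩
  obtain ⟨δ₀, hb⟩ : ∃ δ₀ : ZMod 6 → D, M.Bd H 6 δ₀ := by
    have := hP.legal.exists_bd hHs hex hex' (by omega)
    rw [hc] at this
    exact this
  -- cardinalities
  have c1 : 8 < Nat.card {d // H d} := by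
    have h2 : ∃ e, H e ∧ ¬ M.SameSite d₀ e := by
      by_contra hno
      push Not at hno
      exact hns' ⟨d₀, fun e => ⟨hno e, fun h => (hHs.same h).1 hd₀⟩⟩
    have h3 := hP.legal.four_le_card (sites_site (M := M) d₀) ⟨d₀, Equiv.Perm.SameCycle.refl _ _⟩
    have h4 := hP.legal.four_le_card (hHs.and (sites_site (M := M) d₀).not) h2
    have h5 := card_or (B := M.SameSite d₀) (C := H) fun d hd => (hHs.same hd).1 hd₀
    omega
  have c3 := card_add' H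
  -- the box is good
  have hgood : ∀ c : ZMod 6, Good (KS M B.κ fun i => δ₀ (i + c)) (Star M H)
      (fun F t => Nice t ∧ Rz M H (fun i => δ₀ (i + c)) B.β F t) := by
    intro c
    apply hnice
    have hbc : M.Bd H 6 (fun i => δ₀ (i + c)) := BdD.shift hb c
    have h1 := hO.region_good hmono (fun D' _ M' A' δ' B' h1 h2 h3 h4 =>
      IH D' M' A' δ' B' h1 h2 h3 (by omega)) hbc hHA hHq ⟨x, hx1, hx2⟩ h8
    have e2 : M.StarR H (fun i => δ₀ (i + c)) B = Star M H := by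
      apply propext
      exact ⟨fun h => h.resolve_right fun h3 => hns' h3.1, Or.inl⟩
    rw [e2] at h1
    exact h1
  obtain ⟨δ₂, hδ₂, hO₂⟩ := hO.contr hb hHA ⟨j₀, d₀, hd₀, hjd₀⟩ hgood
  have h := contr_isCtr hb
  have hsH : (M.contr hb).Sites fun e => H (cemb δ₀ e) := h.site
  have hinr : ∀ i e, (M.contr hb).SameSite (.inr i) e ↔ H (cemb δ₀ e) := by
    intro i e
    rcases e with ⟨e, he⟩ | l
    · constructor
      · intro h1
        have h4 := ((contr_sites_inr hb).same h1).1 ⟨i, rfl⟩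
        simp at h4
      · exact fun h1 => absurd h1 he
    · exact ⟨fun _ => bd_mem hb l, fun _ => contr_sameSite_inr hb i l⟩
  have hpinr : ∀ i, pull ((M.contr hb).SameSite (.inr i)) = H := by
    intro i
    funext d
    apply propext
    by_cases hd : H d
    · rw [pull_of hd]
      exact ⟨fun _ => hd, fun _ => contr_sameSite_inr hb i 0⟩
    · rw [pull_of_not hd, hinr]
      rfl
  have hpinl : ∀ d : {d // ¬ H d}, pull ((M.contr hb).SameSite (.inl d)) = M.SameSite d.1 := by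
    intro d
    funext e
    apply propext
    by_cases he : H e
    · rw [pull_of he]
      constructor
      · intro h1
        exact absurd ((hinr 0 (.inl d)).1 h1.symm) d.2
      · intro h1
        exact absurd ((hHs.same h1).2 he) d.2
    · rw [pull_of_not he, contr_sameSite_inl]
  have hns₂ : ¬ ∃ r, ∀ e, (fun x => A (cemb δ₀ x)) e ↔ (M.contr hb).SameSite r e := by
    rintro ⟨r, hr⟩
    have h2 : (M.contr hb).SameSite r (.inr 0) := (hr _).1 (hHA _ (bd_mem hb 0))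
    have h3 : (M.contr hb).SameSite r (.inl ⟨x, hx2⟩) := (hr _).1 hx1
    have h4 := ((contr_sites_inr hb).same (h2.symm.trans h3)).1 ⟨0, rfl⟩
    simp at h4
  have hhex₂ : ∀ d, A (cemb δ₀ d) → (M.contr hb).deg d = 6 →
      Cr (TN (M.contr hb) δ₂ ((M.contr hb).SameSite d)) (TE δ₂ ((M.contr hb).SameSite d)) := by
    intro d hd hdeg
    obtain ⟨e1, e2⟩ := TN_contr hP hb hHA hδ₂ (sites_site (M := M.contr hb) d)
    rw [← e1, ← e2]
    rcases d with d | i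
    · rw [hpinl]
      rw [contr_deg_inl] at hdeg
      exact hhex _ hd hdeg
    · rw [hpinr]
      exact hcr
  have hmax₂ : ∀ H₁ : Out H 6 → Prop, (M.contr hb).Sites H₁ → (∀ d, H₁ d → A (cemb δ₀ d)) →
      (∃ d, A (cemb δ₀ d) ∧ ¬ H₁ d) → (M.contr hb).cut H₁ = 6 →
      Cr (TN (M.contr hb) δ₂ H₁) (TE δ₂ H₁) → ∀ y, H₁ y → (M.contr hb).deg y = 6 →
      ∀ e, H₁ e ↔ (M.contr hb).SameSite y e := by
    intro H₁ g1 g2 ⟨z, hz1, hz2⟩ g4 g5 y hy hydeg
    obtain ⟨e1, e2⟩ := TN_contr hP hb hHA hδ₂ g1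
    rw [← e1, ← e2] at g5
    have p1 := pull_sites hb g1
    have p2 : ∀ d, pull H₁ d → A d := by
      intro d hd
      by_cases hH : H d
      · exact hHA d hH
      · exact g2 _ ((pull_of_not hH).1 hd)
    have p3 : ∃ d, A d ∧ ¬ pull H₁ d := ⟨cemb δ₀ z, hz1, fun h5 => hz2 ((pull_cemb hb g1 z).1 h5)⟩
    have p4 : M.cut (pull H₁) = 6 := by rw [cut_pull hb g1]; exact g4
    -- the set is a single site of `M`
    have single : ∀ d : {d // ¬ H d}, H₁ (.inl d) → M.deg d.1 = 6 →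
        ∀ e, H₁ e ↔ (M.contr hb).SameSite (.inl d) e := by
      intro d hd hdd e
      have h5 := hmax (pull H₁) p1 p2 p3 p4 g5 d.1 ((pull_of_not d.2).2 hd) hdd (cemb δ₀ e)
      rw [pull_cemb hb g1] at h5
      have h6 := pull_cemb hb (sites_site (M := M.contr hb) (.inl d)) e
      rw [hpinl] at h6
      exact h5.trans h6
    rcases y with y | i
    · rw [contr_deg_inl] at hydeg
      exact single y hy hydeg
    · have hH0 : ∀ d, H d → pull H₁ d := fun d hd => (pull_of hd).2 ((sites_inr hb g1 i 0).1 hy)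
      have p5 : P (pull H₁) := by
        refine ⟨p1, p2, p3, p4, g5, ?_, ?_⟩
        · rintro ⟨r, hr⟩
          apply hns'
          refine ⟨d₀, fun e => ⟨fun he => ?_, fun he => (hHs.same he).1 hd₀⟩⟩
          exact ((hr _).1 (hH0 _ hd₀)).symm.trans ((hr _).1 (hH0 _ he))
        · have h6 : Nat.card {d // H d} ≤ Nat.card {d // pull H₁ d} :=
            Nat.card_le_card_of_injective (fun d => ⟨d.1, hH0 _ d.2⟩) fun a b hab =>
              Subtype.ext (congrArg (fun z => z.1) hab)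
          omega
      have h6 := hbig _ p5
      have h7 : ∀ d, pull H₁ d → H d := by
        by_contra hno
        push Not at hno
        obtain ⟨d, hd1, hd2⟩ := hno
        have h8 := card_or (B := H) (C := pull H₁) hH0
        have h9 : 0 < Nat.card {d // pull H₁ d ∧ ¬ H d} := by
          rw [Nat.card_pos_iff]
          exact ⟨⟨⟨d, hd1, hd2⟩⟩, inferInstance⟩
        omega
      intro e
      rw [hinr]
      constructor
      · intro he
        exact h7 _ ((pull_cemb hb g1 e).2 he)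
      · intro he
        exact (pull_cemb hb g1 e).1 (hH0 _ he)
  have hlt : Nat.card (Out H 6) < Nat.card D := by rw [card_out]; omega
  obtain ⟨D₁, i₁, M₁, A₁, δ₁, B₁, hR⟩ := ih _ (by omega) _ (M.contr hb) _ δ₂ _ hO₂ hns₂ hhex₂ hmax₂
    rfl (by omega)
  refine ⟨D₁, i₁, M₁, A₁, δ₁, B₁, hR.obj, hR.card.trans hlt.le, hR.ns, fun F s hF hb' =>
    Rz_contr hO hb hHA hδ₂ hO₂.patch hF (hR.rz F s hF hb'), fun j =>
    (hR.ks j).trans (KS_contr hO hb hHA hδ₂ j), (Lifts.contr hP hb hHA hδ₂).trans hR.lifts, hR.hex,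
    hR.triv, fun d hd h6 => ?_, fun _ => hR.ex (Or.inl ⟨.inr 0, hHA _ (bd_mem hb 0),
      contr_deg_inr hb 0⟩)⟩
  obtain ⟨H₁, g1, g2, ⟨z, hz1, hz2⟩, g4, g5, g6, g7⟩ := hR.hexl d hd h6
  obtain ⟨e1, e2⟩ := TN_contr hP hb hHA hδ₂ g1
  refine ⟨pull H₁, pull_sites hb g1, fun e he => ?_, ⟨cemb δ₀ z, hz1, fun h5 =>
    hz2 ((pull_cemb hb g1 z).1 h5)⟩, (cut_pull hb g1).trans g4, e2.trans g5, e1.trans g6, ?_⟩
  · by_cases hH : H e
    · exact hHA e hH
    · exact g2 _ ((pull_of_not hH).1 he)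
  · by_cases h1 : H₁ (.inr 0)
    · have h5 : Nat.card {d // H d} ≤ Nat.card {d // pull H₁ d} :=
        Nat.card_le_card_of_injective (fun d => ⟨d.1, (pull_of d.2).2 h1⟩) fun a b hab =>
          Subtype.ext (congrArg (fun z => z.1) hab)
      omega
    · have hno : ∀ d, pull H₁ d → ¬ H d := fun d hd hH => h1 ((pull_of hH).1 hd)
      have hno' : ∀ i, ¬ H₁ (.inr i) := fun i hi => h1 ((sites_inr hb g1 i 0).1 hi)
      have h5 : Nat.card {d // pull H₁ d} = Nat.card {x // H₁ x} := by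
        refine Nat.card_congr (Equiv.ofBijective (fun d =>
          ⟨.inl ⟨d.1, hno _ d.2⟩, (pull_of_not (hno _ d.2)).1 d.2⟩) ⟨fun a b hab => ?_, ?_⟩)
        · have h6 := congrArg (fun z => cemb δ₀ z.1) hab
          exact Subtype.ext h6
        · rintro ⟨⟨e, he⟩ | i, hx⟩
          · exact ⟨⟨e, (pull_of_not he).2 hx⟩, rfl⟩
          · exact absurd hx (hno' i)
      rw [h5]
      exact g7

/-- **contraction of maximal critical sets of a patch of quads** -/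
theorem Obj.ctrF [Fintype D] {Good : (ZMod 6 → Prop) → Prop → Rel → Prop}
    (hmono : ∀ K σ b b', (∀ F t, F.Ok → b F t → b' F t) → Good K σ b → Good K σ b')
    (hnice : ∀ K σ b, Good K σ b → Good K σ fun F t => Nice t ∧ b F t)
    {Cr : (ZMod 6 → Prop) → (ZMod 6 → Prop) → Prop} (hCr : ∀ N E, Cr N E → ∃ j, N j)
    {A : D → Prop} {δ : ZMod 6 → D} {B : Boxes D} (hO : M.Obj Good A δ B)
    (hq : ∀ d, A d → M.deg d = 4) (hns : ¬ ∃ r, ∀ e, A e ↔ M.SameSite r e)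
    (IH : IHR Good (Nat.card D)) :
    ∃ (D₁ : Type) (_ : Fintype D₁) (M₁ : DMap D₁) (A₁ : D₁ → Prop) (δ₁ : ZMod 6 → D₁)
      (B₁ : Boxes D₁), CtrF Good Cr M A δ B M₁ A₁ δ₁ B₁ := by
  refine Obj.ctrF_aux hmono hnice hCr IH _ D M A δ B hO hns (fun d hd h6 => ?_)
    (fun H _ h2 _ _ _ x hx h6 => ?_) rfl le_rfl
  · have := hq d hd
    omega
  · have := hq x (h2 x hx)
    omega

namespace CtrF

variable [Fintype D] {Good : (ZMod 6 → Prop) → Prop → Rel → Prop}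
  {Cr : (ZMod 6 → Prop) → (ZMod 6 → Prop) → Prop} {A : D → Prop} {δ : ZMod 6 → D} {B : Boxes D}
  {D₁ : Type} [Fintype D₁] {M₁ : DMap D₁} {A₁ : D₁ → Prop} {δ₁ : ZMod 6 → D₁} {B₁ : Boxes D₁}

theorem two (h : CtrF Good Cr M A δ B M₁ A₁ δ₁ B₁) (d : D₁) : ∃ e, A₁ e ∧ ¬ M₁.SameSite d e := by
  by_contra hno
  push Not at hno
  have hP := h.obj.patch
  apply h.ns
  refine ⟨d, fun e => ⟨hno e, fun he => ?_⟩⟩
  have h4 := hno _ (hP.inA 0)
  exact (hP.sites.same (h4.symm.trans he)).1 (hP.inA 0)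

/-- there are no corner quads -/
theorem nc (h : CtrF Good Cr M A δ B M₁ A₁ δ₁ B₁) (hnc : ∀ i, ¬ KS M B.κ δ i) (i : ZMod 6)
    (hi : M₁.nx (δ₁ i) = δ₁ (i + 1)) : M₁.deg (δ₁ i) = 6 :=
  (h.obj.patch.legal.deg (δ₁ i)).resolve_left fun h4 => hnc i ((h.ks i).1 ⟨hi, Or.inl h4⟩)

/-- the middle corners of the boxes at two ring edges are not corners of the boxes -/
theorem nks (h : CtrF Good Cr M A δ B M₁ A₁ δ₁ B₁) (hnc : ∀ i, ¬ KS M B.κ δ i) (i : ZMod 6) :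
    ¬ KS M₁ B₁.κ δ₁ i := fun h1 => hnc i ((h.ks i).1 h1)

/-- there are no inner paths with three edges -/
theorem n3 (h : CtrF Good Cr M A δ B M₁ A₁ δ₁ B₁)
    (hn3 : ∀ H : D → Prop, M.Sites H → (∀ d, H d → A d) → M.cut H = 6 →
      (Finset.univ.filter fun i => H (δ i)).card ≠ 3) (H₁ : D₁ → Prop) (h1 : M₁.Sites H₁)
    (h2 : ∀ d, H₁ d → A₁ d) (h3 : M₁.cut H₁ = 6) :
    (Finset.univ.filter fun i => H₁ (δ₁ i)).card ≠ 3 := by
  obtain ⟨H, a1, a2, a3, a4, -, -⟩ := h.lifts H₁ h1 h2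
  rw [← scut_TE a4]
  exact hn3 H a1 a2 (a3.trans h3)

/-- a box at two ring edges comes from a set of sites of the patch -/
theorem cor (h : CtrF Good Cr M A δ B M₁ A₁ δ₁ B₁) (hnc : ∀ i, ¬ KS M B.κ δ i) {c : ZMod 6}
    (hc : M₁.nx (δ₁ c) = δ₁ (c + 1)) : ∃ H : D → Prop, M.Sites H ∧ (∀ e, H e → A e) ∧
      (∃ e, A e ∧ ¬ H e) ∧ M.cut H = 6 ∧ H (δ c) ∧ H (δ (c + 1)) ∧ Nat.card {e // H e} ≠ 8 := by
  obtain ⟨H, a1, a2, a3, a4, a5, -, a7⟩ := h.hexl _ (h.obj.patch.inA c) (h.nc hnc c hc)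
  refine ⟨H, a1, a2, a3, a4, ?_, ?_, a7⟩
  · have h1 := congrFun a5 c
    show TE δ H c
    rw [h1]
    exact Equiv.Perm.SameCycle.refl _ _
  · have h1 := congrFun a5 (c + 1)
    show TE δ H (c + 1)
    rw [h1]
    show M₁.SameSite (δ₁ c) (δ₁ (c + 1))
    rw [← hc]
    exact ⟨1, by simp⟩

end CtrF

/-- the criterion for the fold of a box at two ring edges -/
def CrC (c : ZMod 6) (N E : ZMod 6 → Prop) : Prop := N c ∧ E c ∧ E (c + 1)

/-- **contraction of a maximal set of sites at the ring edges `c` and `c + 1`** -/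
theorem CtrF.corC [Fintype D] {Good : (ZMod 6 → Prop) → Prop → Rel → Prop}
    {A : D → Prop} {δ : ZMod 6 → D} {B : Boxes D}
    {D₁ : Type} [Fintype D₁] {M₁ : DMap D₁} {A₁ : D₁ → Prop} {δ₁ : ZMod 6 → D₁} {B₁ : Boxes D₁}
    {c : ZMod 6} (h : CtrF Good (CrC c) M A δ B M₁ A₁ δ₁ B₁)
    (hP : M.Patch A δ) (hq : ∀ d, A d → M.deg d = 4)
    (hH : ∃ H : D → Prop, M.Sites H ∧ (∀ e, H e → A e) ∧ (∃ e, A e ∧ ¬ H e) ∧ M.cut H = 6 ∧
      H (δ c) ∧ H (δ (c + 1)) ∧ Nat.card {e // H e} ≠ 8) :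
    M₁.nx (δ₁ c) = δ₁ (c + 1) ∧ M₁.deg (δ₁ c) = 6 ∧
      ∀ d, A₁ d → M₁.deg d = 6 → M₁.SameSite (δ₁ c) d := by
  obtain ⟨H, a1, a2, a3, a4, a5, a6, a7⟩ := hH
  obtain ⟨d, hd, h6⟩ := h.ex (Or.inr ⟨H, a1, a2, a3, a4, ⟨⟨_, a5, Equiv.Perm.SameCycle.refl _ _⟩,
    a5, a6⟩, by
      rintro ⟨r, hr⟩
      have h1 : M.cut H = M.deg r := by
        rw [← hP.legal.cut_site]
        exact cut_congr hr
      have h2 := hq r (a2 r ((hr r).2 (Equiv.Perm.SameCycle.refl _ _)))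
      omega, a7⟩)
  have key : ∀ e, A₁ e → M₁.deg e = 6 → M₁.SameSite e (δ₁ c) ∧ M₁.SameSite e (δ₁ (c + 1)) :=
    fun e he h6 => (h.hex e he h6).2
  obtain ⟨h1, h2⟩ := key d hd h6
  have hP₁ := h.obj.patch
  have h3 : M₁.SameSite (δ₁ (c + 1)) (M₁.nx.symm (δ₁ (c + 1))) :=
    ⟨-1, by rw [zpow_neg_one]; rfl⟩
  have h4 := hP₁.legal.node_inj (h1.symm.trans (h2.trans h3)) (hP₁.prev_node c)
  have hdeg : M₁.deg (δ₁ c) = 6 := by
    have h5 := hP₁.legal.cut_site (δ₁ c)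
    rw [← h5, ← h6, ← hP₁.legal.cut_site d]
    exact cut_congr fun e => ⟨fun he => h1.trans he, fun he => h1.symm.trans he⟩
  refine ⟨by rw [h4, Equiv.apply_symm_apply], hdeg, fun e he h6' => (key e he h6').1.symm⟩

end DMap

end GT33
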