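import Pool.Agent.GT33.DHat

/-!
# GT33 module DCLS: the folded ring of a generic patch

`Cls M A δ i d`: the sector `d` is in a node adjacent to the ring node `i`, by an edge other than the ring
edge `i + 1`.  These nodes are identified by the fold of the ring (`Gen.joined_iff`); the identifications
form a forest (`Gen.forest`).  `hd M δ i`: the dart of the folded map which is opposite to the root dart
`al (δ (i - 1))` (`Gen.root_strand`).
-/

open Classical

namespace GT33

namespace DMap

variable {D : Type} {M : DMap D} {A : D → Prop} {δ : ZMod 6 → D}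

open Patch

/-- the class of nodes which is the ring node `i` of the folded map -/
def Cls (M : DMap D) (A : D → Prop) (δ : ZMod 6 → D) (i : ZMod 6) (d : D) : Prop :=
  ∃ g, A g ∧ M.SameNode (δ i) g ∧ M.SameNode (M.al g) d

theorem Cls.same {i : ZMod 6} {d e : D} (h : Cls M A δ i d) (hn : M.SameNode d e) :
    Cls M A δ i e := by
  obtain ⟨g, h1, h2, h3⟩ := h
  exact ⟨g, h1, h2, h3.trans hn⟩

namespace Gen

variable [Fintype D] (hG : M.Gen A δ)

include hG

theorem node_idx {i j : ZMod 6} (h : M.SameNode (δ i) (δ j)) : i = j := nodes_inj hG.bd h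

/-- the sectors at a ring node -/
theorem asec {i : ZMod 6} {g : D} (hg : A g) (hn : M.SameNode (δ i) g) :
    g = δ i ∨ FS M A δ (M.fs g) := by
  by_cases h : A (M.al g)
  · right
    refine ⟨(sites_fs hG.toPatch.sites g).2 h, ring_same (hn.trans (fs_node g)) (ring_δ i),
      fun k hk => ?_⟩
    have h1 : M.nx (M.fs g) = δ k := by rw [hk, Equiv.apply_symm_apply]
    rw [nx_fs] at h1
    exact hG.toPatch.notA k (by rw [← h1, M.inv]; exact hg)
  · left
    obtain ⟨k, hk⟩ := (hG.bd.mem g).1 ⟨hg, h⟩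
    rw [← hk] at hn ⊢
    rw [hG.node_idx hn]

omit [Fintype D] in
theorem cls_nx {i : ZMod 6} {e : D} (h : FS M A δ e) (hn : M.SameNode (δ i) e) :
    Cls M A δ i (M.nx e) :=
  ⟨M.al (M.nx e), (hG.fs_inn h).2, hn.trans (al_node e).symm, by
    rw [M.inv]⟩

omit [Fintype D] in
theorem cls_nx_symm {i : ZMod 6} {e : D} (h : A e) (hn : M.SameNode (δ i) e) :
    Cls M A δ i (M.nx.symm e) := by
  have := hG
  exact ⟨e, h, hn, nx_symm_node e⟩

theorem cls_iff (i : ZMod 6) (d : D) : Cls M A δ i d ↔ M.SameNode (M.al (δ i)) d ∨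
    ∃ e, FS M A δ e ∧ M.SameNode (δ i) e ∧ M.SameNode (M.nx e) d := by
  constructor
  · rintro ⟨g, h1, h2, h3⟩
    rcases hG.asec h1 h2 with rfl | h4
    · exact Or.inl h3
    · right
      refine ⟨M.fs g, h4, h2.trans (fs_node g), ?_⟩
      rw [nx_fs]
      exact h3
  · rintro (h | ⟨e, h1, h2, h3⟩)
    · exact ⟨δ i, hG.toPatch.inA i, Equiv.Perm.SameCycle.refl _ _, h⟩
    · exact (hG.cls_nx h1 h2).same h3

/-- the node before a ring edge -/
theorem al_ring (i : ZMod 6) : M.SameNode (δ (i - 1)) (M.al (δ i)) := by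
  have := hG.toPatch.root_node (i - 1)
  rwa [sub_add_cancel] at this

theorem cls_disj {i j : ZMod 6} {d : D} (h : Cls M A δ i d) (h' : Cls M A δ j d) : i = j := by
  rcases (hG.cls_iff i d).1 h with h1 | ⟨e, h1, h2, h3⟩
  · rcases (hG.cls_iff j d).1 h' with h1' | ⟨e', h1', h2', h3'⟩
    · exact hG.bd.inj (M.al_inj (hG.toPatch.root_inj (hG.toPatch.notA i) (hG.toPatch.notA j)
        (h1.trans h1'.symm)))
    · exact absurd (ring_same (((hG.al_ring i).trans h1).trans h3'.symm) (ring_δ _)) (hG.fs1 h1')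
  · rcases (hG.cls_iff j d).1 h' with h1' | ⟨e', h1', h2', h3'⟩
    · exact absurd (ring_same (((hG.al_ring j).trans h1').trans h3.symm) (ring_δ _)) (hG.fs1 h1)
    · have h4 := hG.chain h1 h1' (h3.trans h3'.symm)
      rw [← h4] at h2'
      exact hG.node_idx (h2.trans h2'.symm)

omit hG [Fintype D] in
theorem joined_same {F : D → Prop} {d e : D} (h : M.SameNode d e) :
    JoinedR M.nx M.al (fmu M F) (FR M F) d e := by
  obtain ⟨k, rfl⟩ := h
  induction k with
  | zero => exact Relation.EqvGen.refl _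
  | succ k ih =>
    refine ih.trans ?_
    rw [add_comm, zpow_one_add, Equiv.Perm.mul_apply]
    exact JoinedR.nstep _
  | pred k ih =>
    refine ih.trans ?_
    apply JoinedR.symm
    have h1 : M.fs ((M.fs ^ (-(k : ℤ) - 1)) d) = (M.fs ^ (-(k : ℤ))) d := by
      rw [← Equiv.Perm.mul_apply, ← zpow_one_add, add_sub_cancel]
    rw [← h1]
    exact JoinedR.nstep _

omit hG [Fintype D] in
theorem joined_fold {F : D → Prop} {e : D} (h : F e) :
    JoinedR M.nx M.al (fmu M F) (FR M F) (M.nx.symm e) (M.nx e) := by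
  refine Relation.EqvGen.rel _ _ (Or.inr ?_)
  rw [Equiv.apply_symm_apply]
  exact ⟨FoldSet.r0 h, (FoldSet.mu0 h).symm⟩

/-- all sectors of a class are joined -/
theorem joined_cls {i : ZMod 6} {g : D} (hg : A g) (hn : M.SameNode (δ i) g) :
    JoinedR M.nx M.al (fmu M (FS M A δ)) (FR M (FS M A δ)) (M.al g) (M.al (δ i)) := by
  obtain ⟨k, hk⟩ := hn.symm.exists_nat_pow_eq
  induction k generalizing g with
  | zero =>
    have : g = δ i := by simpa using hk
    rw [this]
    exact Relation.EqvGen.refl _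
  | succ k ih =>
    rcases hG.asec hg hn with rfl | h1
    · exact Relation.EqvGen.refl _
    · have h2 := ih (g := M.fs g) h1.1 (hn.trans (fs_node g)) (by
        rw [← hk, pow_succ, Equiv.Perm.mul_apply])
      refine JoinedR.trans ?_ h2
      have h3 := joined_fold (M := M) h1
      rw [nx_fs] at h3
      exact JoinedR.trans h3.symm (joined_same (nx_symm_node _).symm)

/-- the nodes of the folded map -/
theorem joined_iff (d e : D) :
    JoinedR M.nx M.al (fmu M (FS M A δ)) (FR M (FS M A δ)) d e ↔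
      M.SameNode d e ∨ ∃ i, Cls M A δ i d ∧ Cls M A δ i e := by
  constructor
  · intro h
    induction h with
    | rel a b hab =>
      rcases hab with rfl | ⟨ha, rfl⟩
      · left
        exact ⟨1, by rw [zpow_one]; rfl⟩
      · rcases FoldSet.cases ha with h | ⟨e', h, h1⟩ | ⟨e', h, h4, h1⟩ | ⟨e', h, h4, h1⟩
        · right
          obtain ⟨i, hi⟩ := h.2.1
          refine ⟨i, ?_, ?_⟩
          · have := hG.cls_nx_symm h.1 hi
            rwa [Equiv.symm_apply_apply] at this
          · rw [FoldSet.mu0 h]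
            exact hG.cls_nx h hi
        · left
          rw [h1, hG.foldSet.mu1 h, M.nx.injective h1]
        · right
          obtain ⟨i, hi⟩ := h.2.1
          refine ⟨i, ?_, ?_⟩
          · rw [M.nx.injective h1]
            exact hG.cls_nx h hi
          · rw [h1, hG.foldSet.mu2 h h4, ← nx_four' h4]
            exact hG.cls_nx_symm h.1 hi
        · left
          rw [h1, hG.foldSet.mu3 h h4, M.nx.injective h1]
    | refl a => exact Or.inl (Equiv.Perm.SameCycle.refl _ _)
    | symm a b _ ih =>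
      rcases ih with h | ⟨i, h1, h2⟩
      · exact Or.inl h.symm
      · exact Or.inr ⟨i, h2, h1⟩
    | trans a b c _ _ ih1 ih2 =>
      rcases ih1 with h | ⟨i, h1, h2⟩
      · rcases ih2 with h' | ⟨j, h3, h4⟩
        · exact Or.inl (h.trans h')
        · exact Or.inr ⟨j, h3.same h.symm, h4⟩
      · rcases ih2 with h' | ⟨j, h3, h4⟩
        · exact Or.inr ⟨i, h1, h2.same h'⟩
        · have := hG.cls_disj h2 h3
          subst this
          exact Or.inr ⟨i, h1, h4⟩
  · rintro (h | ⟨i, ⟨g, h1, h2, h3⟩, ⟨g', h1', h2', h3'⟩⟩)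
    · exact joined_same h
    · exact ((joined_same h3).symm.trans (hG.joined_cls h1 h2)).trans
        ((hG.joined_cls h1' h2').symm.trans (joined_same h3'))

/-- the order of the fold sectors of a node -/
def Le (M : DMap D) (A : D → Prop) (δ : ZMod 6 → D) (g e₀ : D) : Prop :=
  ∃ n : ℕ, (M.fs)^[n] g = e₀ ∧ ∀ j ≤ n, FS M A δ ((M.fs)^[j] g)

omit hG [Fintype D] in
theorem le_iff {g e₀ : D} (hg : FS M A δ g) :
    Le M A δ g e₀ ↔ g = e₀ ∨ Le M A δ (M.fs g) e₀ := by
  constructor
  · rintro ⟨n, hn, hj⟩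
    cases n with
    | zero => exact Or.inl hn
    | succ n => exact Or.inr ⟨n, hn, fun j hjn => hj (j + 1) (by omega)⟩
  · rintro (rfl | ⟨n, hn, hj⟩)
    · exact ⟨0, rfl, fun j hj => by
        have : j = 0 := by omega
        subst this
        exact hg⟩
    · refine ⟨n + 1, hn, fun j hjn => ?_⟩
      cases j with
      | zero => exact hg
      | succ j => exact hj j (by omega)

theorem not_le {e : D} (h : FS M A δ e) : ¬ Le M A δ (M.fs e) e := by
  rintro ⟨n, hn, hj⟩
  obtain ⟨i, hi⟩ := h.2.1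
  have h1 : ∀ m : ℕ, FS M A δ ((M.fs)^[m] e) := by
    intro m
    have h2 : (M.fs)^[n + 1] e = e := hn
    have h3 : (M.fs)^[m] e = (M.fs)^[m % (n + 1)] e := by
      have h4 : Function.IsPeriodicPt M.fs (n + 1) e := h2
      exact (h4.iterate_mod_apply m).symm
    rw [h3]
    rcases Nat.eq_zero_or_pos (m % (n + 1)) with h5 | h5
    · rw [h5]
      exact h
    · have h8 : m % (n + 1) < n + 1 := Nat.mod_lt m (Nat.succ_pos n)
      have h6 := hj (m % (n + 1) - 1) (by omega)
      rw [← Function.iterate_succ_apply] at h6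
      have h7 : m % (n + 1) - 1 + 1 = m % (n + 1) := by omega
      rwa [Nat.succ_eq_add_one, h7] at h6
  have h2 : M.SameNode e (M.al (δ (i + 1))) := hi.symm.trans (hG.toPatch.root_node i)
  obtain ⟨k, hk⟩ := h2.exists_nat_pow_eq
  have h3 := h1 k
  rw [← Equiv.Perm.coe_pow, hk] at h3
  exact hG.toPatch.notA _ h3.1

/-- the identifications form a forest -/
theorem forest : Forest M (FS M A δ) := by
  intro e₀ he₀
  refine ⟨fun d => ind (∃ g, Le M A δ g e₀ ∧ M.SameNode (M.nx g) d), fun d => ?_, fun e he => ?_⟩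
  · have h1 : (∃ g, Le M A δ g e₀ ∧ M.SameNode (M.nx g) (M.fs d)) ↔
        ∃ g, Le M A δ g e₀ ∧ M.SameNode (M.nx g) d :=
      ⟨fun ⟨g, h1, h2⟩ => ⟨g, h1, h2.trans (fs_node d).symm⟩,
        fun ⟨g, h1, h2⟩ => ⟨g, h1, h2.trans (fs_node d)⟩⟩
    show ind _ = ind _
    rw [propext h1]
  · have hle : ∀ {g}, Le M A δ g e₀ → FS M A δ g := fun {g} ⟨n, _, h⟩ => h 0 (Nat.zero_le _)
    have h1 : (∃ g, Le M A δ g e₀ ∧ M.SameNode (M.nx g) (M.nx e)) ↔ Le M A δ e e₀ := by
      constructor
      · rintro ⟨g, h2, h3⟩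
        rw [← hG.chain (hle h2) he h3]
        exact h2
      · intro h
        exact ⟨e, h, Equiv.Perm.SameCycle.refl _ _⟩
    have h2 : (∃ g, Le M A δ g e₀ ∧ M.SameNode (M.nx g) (M.nx.symm e)) ↔
        Le M A δ (M.fs e) e₀ := by
      constructor
      · rintro ⟨g, h2, h3⟩
        obtain ⟨i, hi⟩ := he.2.1
        have h4 : M.SameNode (M.nx g) (M.al e) := h3.trans (nx_symm_node e).symm
        rcases hG.asec he.1 hi with h5 | h5
        · rw [h5] at h4
          exact absurd (ring_same ((hG.al_ring i).trans h4.symm) (ring_δ _)) (hG.fs1 (hle h2))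
        · rw [← nx_fs] at h4
          rw [← hG.chain (hle h2) h5 h4]
          exact h2
      · intro h
        refine ⟨M.fs e, h, ?_⟩
        rw [nx_fs]
        exact nx_symm_node e
    show ind _ + ind _ = ind _
    rw [propext h1, propext h2]
    have h3 := le_iff (e₀ := e₀) he
    by_cases h4 : e = e₀
    · have h5 : ¬ Le M A δ (M.fs e) e₀ := by
        rw [← h4]
        exact hG.not_le he
      rw [ind_false h5, ind_true (h3.2 (Or.inl h4)), ind_true h4, zero_add]
    · rw [ind_false h4]
      by_cases h5 : Le M A δ (M.fs e) e₀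
      · rw [ind_true h5, ind_true (h3.2 (Or.inr h5))]
        decide
      · rw [ind_false h5, ind_false fun h => (h3.1 h).elim h4 h5]
        decide

end Gen

/-! ### the folded map of a generic patch -/

/-- the dart of the folded map opposite to the root dart `al (δ (i - 1))` -/
noncomputable def hd (M : DMap D) (δ : ZMod 6 → D) (i : ZMod 6) : D :=
  if M.deg (δ i) = 4 then M.al (M.nx (M.nx (δ i))) else M.nx.symm (δ i)

namespace Gen

variable [Fintype D] (hG : M.Gen A δ)

include hG

/-- a ring sector in a hexagon which is not a fold sector stays -/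
theorem prev_stay {i : ZMod 6} (h4 : M.deg (δ i) ≠ 4) : ¬ FR M (FS M A δ) (M.nx.symm (δ i)) := by
  intro h
  rcases FoldSet.cases h with h1 | ⟨e, h1, h2⟩ | ⟨e, h1, h5, h2⟩ | ⟨e, h1, h5, h2⟩
  · exact h1.2.2 i rfl
  · exact hG.fs1 h1 (by rw [← h2]; exact hG.toPatch.ring_prev i)
  · apply h4
    rw [← deg_nx_symm, h2, deg_nx, deg_nx, h5]
  · apply h4
    rw [← deg_nx_symm, h2, deg_nx, deg_nx, deg_nx, h5]

theorem hd_stay (i : ZMod 6) : ¬ FR M (FS M A δ) (hd M δ i) := by
  unfold hd
  split_ifs with h4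
  · exact hG.k2 (hG.fs_quad h4) h4
  · exact hG.prev_stay h4

omit [Fintype D] in
theorem fr_in {d : D} (h : FR M (FS M A δ) d) : A d := by
  have hA : ∀ {e x}, FS M A δ e → M.SameSite e x → A x := fun h hs =>
    (hG.toPatch.sites.same hs).1 h.1
  rcases FoldSet.cases h with h1 | ⟨e, h1, rfl⟩ | ⟨e, h1, h5, rfl⟩ | ⟨e, h1, h5, rfl⟩
  · exact h1.1
  · exact hA h1 (site_nx e)
  · exact hA h1 ((site_nx e).trans (site_nx _))
  · exact hA h1 (((site_nx e).trans (site_nx _)).trans (site_nx _))

/-- the strand around a ring node -/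
theorem chain_strand {i : ZMod 6} {g : D} (hg : FS M A δ g) (hn : M.SameNode (δ i) g) :
    DStrand M.al (fmu M (FS M A δ)) (FR M (FS M A δ)) (M.nx g) (hd M δ (i + 1)) := by
  have h0 : M.SameNode g (M.nx.symm (δ (i + 1))) := hn.symm.trans (hG.toPatch.prev_node i)
  obtain ⟨k, hk⟩ := h0.symm.exists_nat_pow_eq
  induction k generalizing g with
  | zero =>
    exfalso
    exact hg.2.2 (i + 1) (by simpa using hk.symm)
  | succ k ih =>
    set g' := M.al (M.nx g) with hg'
    have hfs : M.fs g' = g := by rw [hg', fs_al, Equiv.symm_apply_apply]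
    have hk' : (M.fs ^ k) (M.nx.symm (δ (i + 1))) = g' := by
      apply M.fs.injective
      rw [hfs, ← hk, add_comm k 1, pow_add, pow_one, Equiv.Perm.mul_apply]
    have hA' : A g' := (hG.fs_inn hg).2
    have hn' : M.SameNode (δ i) g' := hn.trans (al_node g).symm
    by_cases h1 : FS M A δ g'
    · refine DStrand.step (FoldSet.r0 h1) ?_
      rw [FoldSet.mu0 h1]
      exact ih h1 hn' (hn'.symm.trans (hG.toPatch.prev_node i)) hk'
    · have h2 : ∃ j, g' = M.nx.symm (δ j) := by
        by_contra h3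
        push Not at h3
        exact h1 ⟨hA', ring_same hn' (ring_δ i), h3⟩
      obtain ⟨j, hj⟩ := h2
      have hji : j = i + 1 := by
        have h3 := hG.toPatch.prev_node (j - 1)
        rw [sub_add_cancel, ← hj] at h3
        rw [hG.node_idx (hn'.trans h3.symm)]
        ring
      subst hji
      unfold hd
      by_cases h4 : M.deg (δ (i + 1)) = 4
      · rw [if_pos h4]
        have h5 := hG.fs_quad h4
        have h6 : g' = M.nx (M.nx (M.nx (δ (i + 1)))) := by rw [hj, nx_four' h4]
        refine DStrand.step (by rw [← hg', h6]; exact FoldSet.r3 h5 h4) ?_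
        rw [← hg', h6, hG.foldSet.mu3 h5 h4]
        exact DStrand.last (hG.k2 h5 h4)
      · rw [if_neg h4, ← hj]
        exact DStrand.last (by rw [← hg', hj]; exact hG.prev_stay h4)

/-- the strand of a root dart -/
theorem root_strand (i : ZMod 6) :
    DStrand M.al (fmu M (FS M A δ)) (FR M (FS M A δ)) (M.al (δ i)) (hd M δ (i + 1)) := by
  rcases hG.fs_or i with h | h
  · refine DStrand.step (by rw [M.inv]; exact FoldSet.r0 h) ?_
    rw [M.inv, FoldSet.mu0 h]
    exact hG.chain_strand h (Equiv.Perm.SameCycle.refl _ _)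
  · have h6 := hG.nc i h
    have h4 : M.deg (δ (i + 1)) ≠ 4 := by
      rw [← h, deg_nx]
      omega
    have h5 : δ i = M.nx.symm (δ (i + 1)) := by rw [← h, Equiv.symm_apply_apply]
    have h7 := hG.prev_stay h4
    unfold hd
    rw [if_neg h4, ← h5]
    rw [← h5] at h7
    have := DStrand.last (al := M.al) (mu := fmu M (FS M A δ)) (R := FR M (FS M A δ))
      (d := M.al (δ i)) (by rw [M.inv]; exact h7)
    rwa [M.inv] at this

end Gen

end DMap

end GT33
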