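import Pool.Agent.GT33.Defs

/-!
# GT33 module DMAP: maps given by darts

`DMap D`: the darts `D`, the next dart `nx` of the same site (counterclockwise), the involution `al`.  The
sites are the orbits of `nx`; the dart `d` also stands for the sector between `d` and `nx d`;
`fs d = nx.symm (al d)` is the next sector of the same node (the face of the map to the left of `d`).  In the
language of the radial quadrangulation `R` (the dual of this map): the sites are the faces of `R` (quads and
hexagons), the nodes are the nodes of `R`, `{d, al d}` are the edges of `R`.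

`Sites A`: `A` is a set of sites.  `cut A`: the number of darts leaving `A`.  `Hom`: every cycle mod 2
bounds (genus zero).  `Conn`: connected.
-/

namespace GT33

/-- a map on the darts `D` -/
structure DMap (D : Type) where
  /-- the next dart of the same site, counterclockwise -/
  nx : Equiv.Perm D
  /-- the other dart of the same edge -/
  al : D → D
  inv : ∀ d, al (al d) = d
  ne : ∀ d, al d ≠ d

namespace DMap

variable {D : Type} (M : DMap D)

/-- the next sector of the same node -/
def fs : Equiv.Perm D := (Function.Involutive.toPerm M.al M.inv).trans M.nx.symm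

theorem fs_def (d : D) : M.fs d = M.nx.symm (M.al d) := rfl

theorem fs_symm (d : D) : M.fs.symm d = M.al (M.nx d) := rfl

@[simp] theorem nx_fs (d : D) : M.nx (M.fs d) = M.al d := by simp [fs_def]

theorem fs_al (d : D) : M.fs (M.al d) = M.nx.symm d := by rw [fs_def, M.inv]

theorem al_inj : Function.Injective M.al := fun a b h => by rw [← M.inv a, h, M.inv]

theorem al_eq_iff {a b : D} : M.al a = b ↔ a = M.al b := by
  constructor
  · rintro rfl
    rw [M.inv]
  · rintro rfl
    rw [M.inv]

/-- `A` is a set of sites -/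
def Sites (A : D → Prop) : Prop := ∀ d, A (M.nx d) ↔ A d

/-- the number of darts leaving `A` -/
noncomputable def cut (A : D → Prop) : ℕ := Nat.card {d : D // A d ∧ ¬ A (M.al d)}

/-- every cycle mod 2 is a sum of boundaries of nodes -/
def Hom : Prop :=
  ∀ c : D → ZMod 2, (∀ d, c (M.al d) = c d) →
    (∀ A : Finset D, (∀ d, M.nx d ∈ A ↔ d ∈ A) → ∑ d ∈ A, c d = 0) →
    ∃ w : D → ZMod 2, (∀ d, w (M.fs d) = w d) ∧ ∀ d, w d + w (M.nx.symm d) = c d

/-- connected -/
def Conn : Prop :=
  ∀ A : D → Prop, M.Sites A → (∀ d, A d → A (M.al d)) → (∃ d, A d) → ∀ d, A d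

/-- `A` is a connected set of sites -/
def ConnOn (A : D → Prop) : Prop :=
  ∀ B : D → Prop, M.Sites B → (∀ d, A d → A (M.al d) → B d → B (M.al d)) →
    (∃ d, A d ∧ B d) → ∀ d, A d → B d

/-- plane maps: connected and of genus zero -/
structure Plane : Prop where
  hom : M.Hom
  conn : M.Conn

/-- the number of darts of the site of `d` -/
noncomputable def deg (d : D) : ℕ := Function.minimalPeriod M.nx d

/-- two sectors of the same node -/
abbrev SameNode (d e : D) : Prop := M.fs.SameCycle d e

/-- two darts of the same site -/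
abbrev SameSite (d e : D) : Prop := M.nx.SameCycle d e

variable {M}

theorem Sites.symm {A : D → Prop} (hA : M.Sites A) (d : D) : A (M.nx.symm d) ↔ A d := by
  rw [← hA, Equiv.apply_symm_apply]

theorem Sites.not {A : D → Prop} (hA : M.Sites A) : M.Sites fun d => ¬ A d :=
  fun d => not_congr (hA d)

theorem Sites.and {A B : D → Prop} (hA : M.Sites A) (hB : M.Sites B) :
    M.Sites fun d => A d ∧ B d := fun d => and_congr (hA d) (hB d)

theorem Sites.or {A B : D → Prop} (hA : M.Sites A) (hB : M.Sites B) :
    M.Sites fun d => A d ∨ B d := fun d => or_congr (hA d) (hB d)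

theorem Sites.same {A : D → Prop} (hA : M.Sites A) {d e : D} (h : M.SameSite d e) :
    A d ↔ A e := by
  obtain ⟨n, rfl⟩ := h
  induction n with
  | zero => simp
  | succ n ih =>
    rw [ih, ← hA, ← Equiv.Perm.mul_apply, ← zpow_one_add, add_comm]
  | pred n ih =>
    rw [ih, ← hA ((M.nx ^ (-(n : ℤ) - 1)) d), ← Equiv.Perm.mul_apply, ← zpow_one_add]
    simp

theorem sites_site (d : D) : M.Sites (M.SameSite d) := fun _ =>
  Equiv.Perm.sameCycle_apply_right

theorem cut_not (A : D → Prop) : M.cut (fun d => ¬ A d) = M.cut A := by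
  unfold cut
  refine Nat.card_congr ⟨fun d => ⟨M.al d.1, ?_⟩, fun d => ⟨M.al d.1, ?_⟩, fun d => ?_, fun d => ?_⟩
  · obtain ⟨d, hd1, hd2⟩ := d
    exact ⟨not_not.1 hd2, by rw [M.inv]; exact hd1⟩
  · obtain ⟨d, hd1, hd2⟩ := d
    exact ⟨hd2, by rw [M.inv]; exact not_not.2 hd1⟩
  · exact Subtype.ext (M.inv d.1)
  · exact Subtype.ext (M.inv d.1)

/-- it suffices to know the sums over the sites -/
theorem sum_closed_of_sites [Fintype D] {β : Type*} [AddCommMonoid β] {c : D → β} {P : β → Prop}
    (h0 : P 0) (hadd : ∀ x y, P x → P y → P (x + y))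
    (h : ∀ d, ∀ s : Finset D, (∀ e, e ∈ s ↔ M.SameSite d e) → P (∑ e ∈ s, c e))
    (A : Finset D) (hA : ∀ d, M.nx d ∈ A ↔ d ∈ A) : P (∑ d ∈ A, c d) := by
  classical
  induction A using Finset.strongInduction with
  | H A ih =>
    by_cases hne : A = ∅
    · rw [hne, Finset.sum_empty]
      exact h0
    · obtain ⟨d, hd⟩ := Finset.nonempty_iff_ne_empty.2 hne
      have hA' : M.Sites fun e => e ∈ A := hA
      have h1 : ∀ e, e ∈ A.filter (M.SameSite d) ↔ M.SameSite d e := by
        intro e
        rw [Finset.mem_filter]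
        exact ⟨fun h => h.2, fun h => ⟨(hA'.same h).1 hd, h⟩⟩
      rw [← Finset.sum_filter_add_sum_filter_not A (M.SameSite d)]
      refine hadd _ _ (h d _ h1) (ih _ ?_ ?_)
      · refine Finset.ssubset_iff_subset_ne.2 ⟨Finset.filter_subset _ _, ?_⟩
        intro he
        have : d ∈ A.filter fun e => ¬ M.SameSite d e := by rw [he]; exact hd
        exact (Finset.mem_filter.1 this).2 (Equiv.Perm.SameCycle.refl _ _)
      · intro e
        rw [Finset.mem_filter, Finset.mem_filter, hA]
        exact and_congr_right fun _ => not_congr (sites_site d e)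

theorem cut_pos (hc : M.Conn) {A : D → Prop} [Finite D] (hA : M.Sites A) (h1 : ∃ d, A d)
    (h2 : ∃ d, ¬ A d) : 0 < M.cut A := by
  unfold cut
  rw [Nat.card_pos_iff]
  refine ⟨?_, inferInstance⟩
  by_contra h
  obtain ⟨d, hd⟩ := h2
  refine hd (hc A hA (fun e he => ?_) h1 d)
  by_contra hn
  exact h ⟨⟨e, he, hn⟩⟩

end DMap

open SN78

/-- the rotation of a medial map -/
def nxPerm (X : Type) : Equiv.Perm (X × ZMod 4) where
  toFun := nx
  invFun := pv
  left_inv := pv_nx
  right_inv := nx_pv

/-- a 4-valent map as a map of darts -/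
def ofMed {X : Type} (α : X × ZMod 4 → X × ZMod 4) (hi : ∀ d, α (α d) = d) (hn : ∀ d, α d ≠ d) :
    DMap (X × ZMod 4) where
  nx := nxPerm X
  al := α
  inv := hi
  ne := hn

end GT33
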