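import Mathlib

/-!
# GT33 module RET: first return maps and strands

`Ret f P d e`: `e` is the first element with `P` among `f d, f (f d), ...`.
-/

namespace GT33

variable {D : Type}

/-- `e` is the first element with `P` among `f d, f (f d), ...` -/
inductive Ret (f : D → D) (P : D → Prop) : D → D → Prop
  | last {d : D} (h : P (f d)) : Ret f P d (f d)
  | step {d e : D} (h : ¬ P (f d)) (h' : Ret f P (f d) e) : Ret f P d e

section

variable {f g : D → D} {P : D → Prop}

theorem Ret.out {d e : D} (h : Ret f P d e) : P e := by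
  induction h with
  | last h => exact h
  | step _ _ ih => exact ih

theorem Ret.unique {d e e' : D} (h : Ret f P d e) (h' : Ret f P d e') : e = e' := by
  induction h with
  | last h =>
    cases h' with
    | last h1 => rfl
    | step h1 h2 => exact absurd h h1
  | step h1 h2 ih =>
    cases h' with
    | last h3 => exact absurd h3 h1
    | step h3 h4 => exact ih h4

theorem Ret.of_last {d e : D} (h : P e) (he : f d = e) : Ret f P d e := by
  subst he
  exact .last h

theorem Ret.of_step {d c e : D} (h : ¬ P c) (hc : f d = c) (h' : Ret f P c e) : Ret f P d e := by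
  subst hc
  exact .step h h'

theorem Ret.congr (hfg : ∀ d, f d = g d) {d e : D} (h : Ret f P d e) : Ret g P d e := by
  have : f = g := funext hfg
  rwa [← this]

/-- the part of the orbit up to the first return -/
theorem Ret.induct {Q : D → D → Prop} (hrefl : ∀ d, P (f d) → Q d (f d))
    (hstep : ∀ d e, ¬ P (f d) → Ret f P (f d) e → Q (f d) e → Q d e) {d e : D}
    (h : Ret f P d e) : Q d e := by
  induction h with
  | last h => exact hrefl _ h
  | step h1 h2 ih => exact hstep _ _ h1 h2 ih

theorem exists_ret [Finite D] (hf : Function.Injective f) {d : D} (hd : P d) :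
    ∃ e, Ret f P d e := by
  by_contra hcon
  have hb : Function.Bijective f := Finite.injective_iff_bijective.1 hf
  set p : Equiv.Perm D := Equiv.ofBijective f hb with hp
  obtain ⟨n, hn, hpn⟩ := (isOfFinOrder_iff_pow_eq_one (x := p)).1 (isOfFinOrder_of_finite p)
  have hs : ∀ a : D, (¬ ∃ e, Ret f P a e) → ¬ P (f a) ∧ ¬ ∃ e, Ret f P (f a) e := by
    intro a ha
    have h1 : ¬ P (f a) := fun h1 => ha ⟨_, .last h1⟩
    exact ⟨h1, fun ⟨e, he⟩ => ha ⟨e, .step h1 he⟩⟩
  have key : ∀ k : ℕ, (¬ ∃ e, Ret f P ((p ^ k) d) e) ∧ (0 < k → ¬ P ((p ^ k) d)) := by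
    intro k
    induction k with
    | zero => exact ⟨hcon, fun h => absurd h (lt_irrefl _)⟩
    | succ k ih =>
      have h1 := hs _ ih.1
      have h2 : (p ^ (k + 1)) d = f ((p ^ k) d) := by
        rw [pow_succ', Equiv.Perm.mul_apply]
        rfl
      rw [h2]
      exact ⟨h1.2, fun _ => h1.1⟩
  have := (key n).2 hn
  rw [hpn] at this
  exact this hd

/-- the number of steps of the first return -/
theorem Ret.exists_iterate {d e : D} (h : Ret f P d e) :
    ∃ n, f^[n + 1] d = e ∧ ∀ m, 0 < m → m < n + 1 → ¬ P (f^[m] d) := by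
  induction h with
  | @last d h => exact ⟨0, rfl, fun m h1 h2 => by omega⟩
  | @step d e h1 h2 ih =>
    obtain ⟨n, hn, hm⟩ := ih
    refine ⟨n + 1, ?_, ?_⟩
    · rw [Function.iterate_succ_apply]
      exact hn
    · intro m h3 h4
      obtain ⟨k, rfl⟩ : ∃ k, m = k + 1 := ⟨m - 1, by omega⟩
      rw [Function.iterate_succ_apply]
      rcases Nat.eq_zero_or_pos k with rfl | hk
      · exact h1
      · exact hm k hk (by omega)

theorem Ret.of_iterate {d : D} {n : ℕ} (h : P (f^[n + 1] d))
    (hm : ∀ m, 0 < m → m < n + 1 → ¬ P (f^[m] d)) : Ret f P d (f^[n + 1] d) := by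
  induction n generalizing d with
  | zero => exact .last h
  | succ n ih =>
    refine .step (hm 1 Nat.one_pos (by omega)) ?_
    rw [Function.iterate_succ_apply]
    refine ih ?_ ?_
    · rw [← Function.iterate_succ_apply]; exact h
    · intro m h1 h2
      rw [← Function.iterate_succ_apply]
      exact hm (m + 1) (by omega) (by omega)

theorem Ret.inj (hf : Function.Injective f) {a b c : D} (ha : P a) (hb : P b) (h1 : Ret f P a c)
    (h2 : Ret f P b c) : a = b := by
  obtain ⟨n, hn, hn'⟩ := h1.exists_iterate
  obtain ⟨m, hm, hm'⟩ := h2.exists_iterate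
  have key : ∀ {a b : D} {n m : ℕ}, P a → f^[n + 1] a = c → f^[m + 1] b = c →
      (∀ k, 0 < k → k < m + 1 → ¬ P (f^[k] b)) → n ≤ m → a = b := by
    intro a b n m ha hn hm hm' hnm
    have h3 : f^[n + 1] a = f^[n + 1] (f^[m - n] b) := by
      rw [← Function.iterate_add_apply, hn, ← hm]
      congr 1
      omega
    have h4 := (hf.iterate (n + 1)) h3
    rcases Nat.eq_zero_or_pos (m - n) with h5 | h5
    · rw [h5] at h4
      exact h4
    · exact absurd (h4 ▸ ha) (hm' (m - n) h5 (by omega))
  rcases le_total n m with h | h
  · exact key ha hn hm hm' h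
  · exact (key hb hm hn hn' h).symm

end

/-! ### the first return map -/

open Classical in
/-- the first return map of `f` to `P` -/
noncomputable def ret (f : D → D) (P : D → Prop) (d : {d // P d}) : {d // P d} :=
  if h : ∃ e : {d // P d}, Ret f P d.1 e.1 then h.choose else d

section

variable {f : D → D} {P : D → Prop}

theorem ret_spec [Finite D] (hf : Function.Injective f) (d : {d // P d}) :
    Ret f P d.1 (ret f P d).1 := by
  classical
  obtain ⟨e, he⟩ := exists_ret hf d.2
  have hex : ∃ e : {d // P d}, Ret f P d.1 e.1 := ⟨⟨e, he.out⟩, he⟩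
  have : ret f P d = hex.choose := by
    unfold ret
    rw [dif_pos hex]
  rw [this]
  exact hex.choose_spec

theorem ret_eq [Finite D] (hf : Function.Injective f) {d e : {d // P d}} (h : Ret f P d.1 e.1) :
    ret f P d = e :=
  Subtype.ext ((ret_spec hf d).unique h)

theorem ret_inj [Finite D] (hf : Function.Injective f) : Function.Injective (ret f P) := by
  intro a b hab
  have h1 := ret_spec hf a
  have h2 := ret_spec hf b
  rw [hab] at h1
  exact Subtype.ext (Ret.inj hf a.2 b.2 h1 h2)

/-- the first return map of a permutation is a permutation -/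
noncomputable def retPerm [Finite D] (f : Equiv.Perm D) (P : D → Prop) : Equiv.Perm {d // P d} :=
  Equiv.ofBijective (ret f P) (Finite.injective_iff_bijective.1 (ret_inj f.injective))

theorem retPerm_apply [Finite D] (f : Equiv.Perm D) (P : D → Prop) (d : {d // P d}) :
    retPerm f P d = ret f P d := rfl

theorem Ret.sameCycle {f : Equiv.Perm D} {d e : D} (h : Ret f P d e) : f.SameCycle d e := by
  induction h with
  | last h => exact ⟨1, by simp⟩
  | @step d e h1 h2 ih =>
    exact Equiv.Perm.SameCycle.trans ⟨1, by simp⟩ ih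

/-- the orbits of the first return map -/
theorem retPerm_sameCycle [Finite D] (f : Equiv.Perm D) (P : D → Prop) (d e : {d // P d}) :
    (retPerm f P).SameCycle d e ↔ f.SameCycle d.1 e.1 := by
  constructor
  · intro h
    obtain ⟨n, hn⟩ := h.exists_nat_pow_eq
    clear h
    induction n generalizing d with
    | zero =>
      rw [pow_zero, Equiv.Perm.one_apply] at hn
      rw [hn]
    | succ n ih =>
      rw [pow_succ, Equiv.Perm.mul_apply] at hn
      exact (ret_spec f.injective d).sameCycle.trans (ih _ hn)
  · intro h
    obtain ⟨n, hn⟩ := h.exists_nat_pow_eq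
    clear h
    induction n using Nat.strong_induction_on generalizing d with
    | _ n ih =>
      rcases Nat.eq_zero_or_pos n with rfl | hpos
      · rw [pow_zero, Equiv.Perm.one_apply] at hn
        rw [Subtype.ext hn]
      · obtain ⟨k, hk, hk'⟩ := (ret_spec (P := P) f.injective d).exists_iterate
        have hle : k + 1 ≤ n := by
          by_contra hlt
          have h1 : ¬ P (f^[n] d.1) := hk' n hpos (by omega)
          rw [← Equiv.Perm.coe_pow, hn] at h1
          exact h1 e.2
        have h2 : (f ^ (n - (k + 1))) (ret f P d).1 = e.1 := by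
          rw [← hk, ← hn, ← Equiv.Perm.coe_pow, ← Equiv.Perm.mul_apply, ← pow_add]
          congr 2
          omega
        have h3 := ih (n - (k + 1)) (by omega) (ret f P d) h2
        exact Equiv.Perm.SameCycle.trans ⟨1, by rw [zpow_one]; rfl⟩ h3

end

end GT33
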