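import Pool.Agent.GT33.DCyc
import Pool.Agent.GT33.DMap
import Pool.Agent.GT33.Ret

/-!
# GT33 module DCONTR: contraction of a set of sites

Bridge between `DMap` and the module DCYC: `Plane.toD`, `Plane.ofD`, `connOn_iff`, `M.Bd A n δ`.

`M.contr h` (`h : M.Bd A n δ`): the set `A` of sites is contracted to one site with the `n` darts `inr i`, in
place of the darts `δ i`; the other darts are `inl d`, `d ∉ A`.  `cemb δ : Out A n → D` is the injection of the
darts.  The node rotation (and every other permutation which respects the contraction) of the new map is the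
first return of the old one.
-/

namespace GT33

namespace DMap

variable {D : Type} {M : DMap D}

theorem fs_eq (M : DMap D) : ⇑M.fs = nstep M.nx M.al := rfl

theorem sameNode_iff [Finite D] {d e : D} :
    M.SameNode d e ↔ dnode M.nx M.al d = dnode M.nx M.al e := by
  constructor
  · intro h
    obtain ⟨n, rfl⟩ := h.exists_nat_pow_eq
    rw [Equiv.Perm.coe_pow]
    exact (iter_dnode n d).symm
  · intro h
    have h1 : Relation.EqvGen (fun a b => nstep M.nx M.al a = b) d e := Quot.eqvGen_exact h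
    clear h
    induction h1 with
    | rel a b hab => exact ⟨1, by rw [zpow_one]; exact hab⟩
    | refl a => exact Equiv.Perm.SameCycle.refl _ _
    | symm a b _ ih => exact ih.symm
    | trans a b c _ _ h1 h2 => exact h1.trans h2

theorem Plane.toD [Fintype D] (h : M.Plane) : PlaneD M.nx M.al := by
  classical
  refine ⟨M.inv, M.ne, fun c hc hs => ?_, fun P hP hP' hne => ?_⟩
  · refine h.hom c hc fun A hA => ?_
    refine sum_closed_of_sites (M := M) (P := fun x : ZMod 2 => x = 0) rfl ?_ ?_ A hA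
    · rintro x y rfl rfl
      exact add_zero 0
    · intro d s hs'
      have : s = orb M.nx d := by
        ext e
        rw [hs', mem_orb]
      rw [this]
      exact hs d
  · refine h.conn P (fun d => ⟨fun h1 => ?_, hP d⟩) hP' hne
    exact site_back (phi := M.nx) (A := fun _ => True) (M := P) (fun _ => Iff.rfl)
      (fun d _ => hP d) d trivial h1

theorem Plane.ofD [Fintype D] (h : PlaneD M.nx M.al) : M.Plane := by
  classical
  refine ⟨fun c hc hs => h.hom c hc fun d => ?_, fun P hP hP' hne => ?_⟩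
  · refine hs (orb M.nx d) fun e => ?_
    rw [mem_orb, mem_orb, Equiv.Perm.sameCycle_apply_right]
  · exact h.conn P (fun d => (hP d).2) hP' hne

theorem connOn_iff [Finite D] {A : D → Prop} (hA : M.Sites A) :
    M.ConnOn A ↔ ConnOnD M.nx M.al A := by
  constructor
  · rintro h B hB1 hB2 ⟨x, hx, hxB⟩ y hy
    have h1 := h (fun d => A d ∧ B d) (fun d => ⟨fun h1 => ?_, fun h1 => ?_⟩)
      (fun d h1 h2 h3 => ⟨h2, hB2 d h1 h2 h3.2⟩) ⟨x, hx, hx, hxB⟩ y hy
    · exact h1.2
    · have h2 := (hA d).1 h1.1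
      exact ⟨h2, site_back (A := A) hA hB1 d h2 h1.2⟩
    · exact ⟨(hA d).2 h1.1, hB1 d h1.1 h1.2⟩
  · rintro h B hB1 hB2 ⟨x, hx, hxB⟩ y hy
    exact h B (fun d _ => (hB1 d).2) hB2 ⟨x, hx, hxB⟩ y hy

/-- `δ` numbers the darts leaving `A` counterclockwise -/
abbrev Bd (M : DMap D) (A : D → Prop) (n : ℕ) (δ : ZMod n → D) : Prop := BdD M.nx M.al A n δ

theorem Plane.exists_bd [Finite D] (h : M.Plane) {A : D → Prop} (hs : M.Sites A)
    (hA : M.ConnOn A) (hA' : M.ConnOn fun d => ¬ A d) (hn : M.cut A ≠ 0) :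
    ∃ δ : ZMod (M.cut A) → D, M.Bd A (M.cut A) δ := by
  have : Fintype D := Fintype.ofFinite D
  exact h.toD.exists_bd hs ((connOn_iff hs).1 hA) ((connOn_iff hs.not).1 hA') rfl hn

theorem bd_cut {A : D → Prop} {n : ℕ} [NeZero n] {δ : ZMod n → D} (h : M.Bd A n δ) :
    M.cut A = n := h.card

theorem bd_connOn [Finite D] (hP : M.Plane) {A : D → Prop} {n : ℕ} [NeZero n] {δ : ZMod n → D}
    (h : M.Bd A n δ) : M.ConnOn A := by
  have : Fintype D := Fintype.ofFinite D
  exact (connOn_iff h.site).2 (h.connOn hP.toD)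

theorem bd_compl {A : D → Prop} {n : ℕ} {δ : ZMod n → D} (h : M.Bd A n δ) (c : ZMod n) :
    M.Bd (fun d => ¬ A d) n fun i => M.al (δ (c - i)) := BdD.compl M.inv h c

end DMap

/-! ### the contracted map -/

/-- the darts of the map in which `A` is contracted -/
abbrev Out {D : Type} (A : D → Prop) (n : ℕ) := {d : D // ¬ A d} ⊕ ZMod n

section

variable {D : Type} {M : DMap D} {A : D → Prop} {n : ℕ} {δ : ZMod n → D}

/-- the injection of the darts -/
def cemb (δ : ZMod n → D) : Out A n → D
  | .inl d => d.1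
  | .inr i => δ i

@[simp] theorem cemb_inl (d : {d : D // ¬ A d}) : cemb (A := A) δ (.inl d) = d.1 := rfl

@[simp] theorem cemb_inr (i : ZMod n) : cemb (A := A) δ (.inr i) = δ i := rfl

namespace DMap

theorem bd_mem (h : M.Bd A n δ) (i : ZMod n) : A (δ i) := ((h.mem _).2 ⟨i, rfl⟩).1

theorem bd_al (h : M.Bd A n δ) (i : ZMod n) : ¬ A (M.al (δ i)) := ((h.mem _).2 ⟨i, rfl⟩).2

theorem cemb_inj (h : M.Bd A n δ) : Function.Injective (cemb (A := A) δ) := by
  rintro (⟨d, hd⟩ | i) (⟨e, he⟩ | j) hxy
  · simp only [cemb_inl] at hxy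
    subst hxy
    rfl
  · simp only [cemb_inl, cemb_inr] at hxy
    exact absurd (hxy ▸ bd_mem h j) hd
  · simp only [cemb_inl, cemb_inr] at hxy
    exact absurd (hxy ▸ bd_mem h i) he
  · exact congrArg Sum.inr (h.inj hxy)

/-- the darts of the contracted map, as darts of `M` -/
def Kept (M : DMap D) (A : D → Prop) (d : D) : Prop := ¬ (A d ∧ A (M.al d))

theorem kept_al (d : D) : M.Kept A (M.al d) ↔ M.Kept A d := by
  unfold Kept
  rw [M.inv, and_comm]

theorem kept_of_not {d : D} (h : ¬ A d) : M.Kept A d := fun h' => h h'.1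

theorem kept_cemb (h : M.Bd A n δ) (x : Out A n) : M.Kept A (cemb δ x) := by
  rcases x with ⟨d, hd⟩ | i
  · exact kept_of_not hd
  · exact fun h' => bd_al h i h'.2

theorem exists_cemb (h : M.Bd A n δ) {d : D} (hd : M.Kept A d) :
    ∃ x : Out A n, cemb δ x = d := by
  by_cases h1 : A d
  · obtain ⟨i, hi⟩ := (h.mem d).1 ⟨h1, fun h2 => hd ⟨h1, h2⟩⟩
    exact ⟨.inr i, hi⟩
  · exact ⟨.inl ⟨d, h1⟩, rfl⟩

open Classical in
/-- the equivalence of the darts -/
noncomputable def cembEquiv (h : M.Bd A n δ) : Out A n ≃ {d : D // M.Kept A d} :=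
  Equiv.ofBijective (fun x => ⟨cemb δ x, kept_cemb h x⟩) ⟨fun _ _ hxy =>
    cemb_inj h (congrArg Subtype.val hxy), fun ⟨_, hd⟩ =>
    ⟨(exists_cemb h hd).choose, Subtype.ext (exists_cemb h hd).choose_spec⟩⟩

theorem cembEquiv_val (h : M.Bd A n δ) (x : Out A n) : (cembEquiv h x).1 = cemb δ x := rfl

theorem cemb_cembEquiv_symm (h : M.Bd A n δ) (d : {d : D // M.Kept A d}) :
    cemb δ ((cembEquiv h).symm d) = d.1 := by
  rw [← cembEquiv_val h, Equiv.apply_symm_apply]

/-- the map in which `A` is contracted -/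
noncomputable def contr (M : DMap D) (h : M.Bd A n δ) : DMap (Out A n) where
  nx := Equiv.sumCongr (M.nx.subtypePerm fun d => (not_congr (h.site d))) (Equiv.addRight 1)
  al x := (cembEquiv h).symm ⟨M.al (cemb δ x), (kept_al _).2 (kept_cemb h x)⟩
  inv x := by
    rw [Equiv.symm_apply_eq]
    apply Subtype.ext
    show M.al (cemb δ ((cembEquiv h).symm _)) = _
    rw [cemb_cembEquiv_symm, M.inv]
    rfl
  ne x hx := by
    rw [Equiv.symm_apply_eq] at hx
    exact M.ne _ (congrArg Subtype.val hx)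

variable (h : M.Bd A n δ)

@[simp] theorem contr_nx_inr (i : ZMod n) : (M.contr h).nx (.inr i) = .inr (i + 1) := rfl

@[simp] theorem contr_nx_inl (d : {d : D // ¬ A d}) :
    (M.contr h).nx (.inl d) = .inl ⟨M.nx d.1, fun h1 => d.2 ((h.site _).1 h1)⟩ := rfl

@[simp] theorem contr_nx_symm_inr (i : ZMod n) : (M.contr h).nx.symm (.inr i) = .inr (i - 1) := by
  rw [Equiv.symm_apply_eq, contr_nx_inr, sub_add_cancel]

theorem cemb_nx_symm_inl (d : {d : D // ¬ A d}) :
    cemb δ ((M.contr h).nx.symm (.inl d)) = M.nx.symm d.1 := by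
  have h1 : ¬ A (M.nx.symm d.1) := fun h2 => d.2 (by
    rwa [← h.site, Equiv.apply_symm_apply] at h2)
  have h2 : (M.contr h).nx.symm (.inl d) = .inl ⟨M.nx.symm d.1, h1⟩ := by
    rw [Equiv.symm_apply_eq, contr_nx_inl]
    simp
  rw [h2]
  rfl

@[simp] theorem cemb_al (x : Out A n) : cemb δ ((M.contr h).al x) = M.al (cemb δ x) := by
  show cemb δ ((cembEquiv h).symm _) = _
  rw [cemb_cembEquiv_symm]

theorem contr_al_inr (i : ZMod n) : (M.contr h).al (.inr i) = .inl ⟨M.al (δ i), bd_al h i⟩ := by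
  apply cemb_inj h
  rw [cemb_al]
  rfl

theorem contr_al_inl {d : {d : D // ¬ A d}} (hd : ¬ A (M.al d.1)) :
    (M.contr h).al (.inl d) = .inl ⟨M.al d.1, hd⟩ := by
  apply cemb_inj h
  rw [cemb_al]
  rfl

theorem contr_al_inl' {d : {d : D // ¬ A d}} {i : ZMod n} (hd : M.al d.1 = δ i) :
    (M.contr h).al (.inl d) = .inr i := by
  apply cemb_inj h
  rw [cemb_al]
  exact hd

/-- a node step of the contracted map is the first return of the node steps of `M` -/
theorem ret_fs (x : Out A n) : Ret M.fs (M.Kept A) (cemb δ x) (cemb δ ((M.contr h).fs x)) := by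
  rcases x with d | i
  · by_cases hd : A (M.al d.1)
    · obtain ⟨i, hi⟩ := (h.mem (M.al d.1)).1 ⟨hd, by rw [M.inv]; exact d.2⟩
      have h1 : (M.contr h).fs (.inl d) = .inr (i - 1) := by
        rw [fs_def, contr_al_inl' h hi.symm, contr_nx_symm_inr]
      rw [h1]
      obtain ⟨k, hk, hm⟩ := h.inw (i - 1)
      rw [sub_add_cancel, hi, M.inv] at hk hm
      have hk0 : k ≠ 0 := by
        rintro rfl
        have h2 : d.1 = δ (i - 1) := hk
        exact d.2 (h2 ▸ bd_mem h (i - 1))
      obtain ⟨k, rfl⟩ := Nat.exists_eq_succ_of_ne_zero hk0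
      show Ret M.fs (M.Kept A) d.1 (δ (i - 1))
      rw [← hk]
      refine Ret.of_iterate ?_ ?_
      · show M.Kept A ((nstep M.nx M.al)^[k.succ] d.1)
        rw [hk]
        exact kept_cemb h (.inr (i - 1))
      · intro m hm0 hmk hK
        have h3 : A ((nstep M.nx M.al)^[m] d.1) := hm m hm0 (by omega)
        have h4 := hm (m + 1) (by omega) (by omega)
        rw [Function.iterate_succ_apply', site_nstep h.site] at h4
        exact hK ⟨h3, h4⟩
    · have h1 : (M.contr h).fs (.inl d) = (M.contr h).nx.symm (.inl ⟨M.al d.1, hd⟩) := by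
        rw [fs_def, contr_al_inl h hd]
      rw [h1, cemb_nx_symm_inl]
      refine Ret.of_last (kept_of_not fun h2 => hd ?_) rfl
      rwa [← h.site, Equiv.apply_symm_apply] at h2
  · have h1 : (M.contr h).fs (.inr i) = (M.contr h).nx.symm (.inl ⟨M.al (δ i), bd_al h i⟩) := by
      rw [fs_def, contr_al_inr]
    rw [h1, cemb_nx_symm_inl]
    refine Ret.of_last (kept_of_not fun h2 => bd_al h i ?_) rfl
    rwa [← h.site, Equiv.apply_symm_apply] at h2

theorem sameCycle_equiv {X Y : Type*} (e : X ≃ Y) {g : Equiv.Perm X} {f : Equiv.Perm Y}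
    (hfg : ∀ x, e (g x) = f (e x)) (x y : X) : g.SameCycle x y ↔ f.SameCycle (e x) (e y) := by
  have h1 : e.permCongr g = f := by
    ext z
    rw [Equiv.permCongr_apply, hfg, Equiv.apply_symm_apply]
  have h2 : ∀ k : ℤ, (f ^ k) (e x) = e ((g ^ k) x) := by
    intro k
    have h3 : f ^ k = e.permCongr (g ^ k) := by
      rw [← h1]
      exact (map_zpow e.permCongrHom g k).symm
    rw [h3, Equiv.permCongr_apply, Equiv.symm_apply_apply]
  constructor
  · rintro ⟨k, hk⟩
    exact ⟨k, by rw [h2, hk]⟩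
  · rintro ⟨k, hk⟩
    exact ⟨k, e.injective (by rw [← h2, hk])⟩

include h in
/-- the cycles of a permutation of the darts of the contracted map which is a first return -/
theorem sameCycle_of_ret [Finite D] {f : Equiv.Perm D} {g : Equiv.Perm (Out A n)}
    (hfg : ∀ x, Ret f (M.Kept A) (cemb δ x) (cemb δ (g x))) (x y : Out A n) :
    g.SameCycle x y ↔ f.SameCycle (cemb δ x) (cemb δ y) := by
  rw [sameCycle_equiv (cembEquiv h) (f := retPerm f (M.Kept A)) (fun z => ?_),
    retPerm_sameCycle]
  · rfl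
  · exact (ret_eq f.injective (hfg z)).symm

/-- the nodes of the contracted map -/
theorem contr_sameNode [Finite D] (x y : Out A n) :
    (M.contr h).SameNode x y ↔ M.SameNode (cemb δ x) (cemb δ y) :=
  sameCycle_of_ret h (ret_fs h) x y

/-- the set of sites of `M` given by a set of sites of the contracted map -/
def pull (B : Out A n → Prop) (d : D) : Prop :=
  (∃ hd : ¬ A d, B (.inl ⟨d, hd⟩)) ∨ (A d ∧ B (.inr 0))

theorem pull_of_not {B : Out A n → Prop} {d : D} (hd : ¬ A d) : pull B d ↔ B (.inl ⟨d, hd⟩) := by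
  constructor
  · rintro (⟨_, h1⟩ | ⟨h1, _⟩)
    · exact h1
    · exact absurd h1 hd
  · exact fun h1 => Or.inl ⟨hd, h1⟩

theorem pull_of {B : Out A n → Prop} {d : D} (hd : A d) : pull B d ↔ B (.inr 0) := by
  constructor
  · rintro (⟨h0, _⟩ | ⟨_, h1⟩)
    · exact absurd hd h0
    · exact h1
  · exact fun h1 => Or.inr ⟨hd, h1⟩

theorem sites_inr [NeZero n] {B : Out A n → Prop} (hB : (M.contr h).Sites B) (i j : ZMod n) :
    B (.inr i) ↔ B (.inr j) :=
  zmod_all (P := fun i => B (.inr i)) (fun i => hB (.inr i)) i j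

theorem pull_cemb [NeZero n] {B : Out A n → Prop} (hB : (M.contr h).Sites B) (x : Out A n) :
    pull B (cemb δ x) ↔ B x := by
  rcases x with ⟨d, hd⟩ | i
  · exact pull_of_not hd
  · rw [cemb_inr, pull_of (bd_mem h i)]
    exact sites_inr h hB 0 i

theorem pull_sites {B : Out A n → Prop} (hB : (M.contr h).Sites B) : M.Sites (pull B) := by
  intro d
  by_cases hd : A d
  · rw [pull_of hd, pull_of ((h.site d).2 hd)]
  · have hd' : ¬ A (M.nx d) := fun h1 => hd ((h.site d).1 h1)
    rw [pull_of_not hd, pull_of_not hd']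
    exact hB (.inl ⟨d, hd⟩)

theorem cut_pull [NeZero n] {B : Out A n → Prop} (hB : (M.contr h).Sites B) :
    M.cut (pull B) = (M.contr h).cut B := by
  unfold cut
  symm
  refine Nat.card_eq_of_bijective (fun x => (⟨cemb δ x.1, (pull_cemb h hB _).2 x.2.1, fun h1 => x.2.2
    ((pull_cemb h hB _).1 (by rw [cemb_al]; exact h1))⟩ :
      {d : D // pull B d ∧ ¬ pull B (M.al d)})) ⟨fun x y hxy => ?_, ?_⟩
  · exact Subtype.ext (cemb_inj h (congrArg Subtype.val hxy))
  · rintro ⟨d, hd1, hd2⟩
    have hK : M.Kept A d := by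
      rintro ⟨h1, h2⟩
      rw [pull_of h1] at hd1
      rw [pull_of h2] at hd2
      exact hd2 hd1
    obtain ⟨x, rfl⟩ := exists_cemb h hK
    refine ⟨⟨x, (pull_cemb h hB x).1 hd1, fun h1 => hd2 ?_⟩, rfl⟩
    rw [← cemb_al h]
    exact (pull_cemb h hB _).2 h1

theorem contr_conn [NeZero n] (hc : M.Conn) : (M.contr h).Conn := by
  intro B hB hB' ⟨x, hx⟩ y
  rw [← pull_cemb h hB]
  refine hc (pull B) (pull_sites h hB) (fun d hd => ?_) ⟨cemb δ x, (pull_cemb h hB x).2 hx⟩ _
  by_cases hK : M.Kept A d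
  · obtain ⟨z, rfl⟩ := exists_cemb h hK
    rw [← cemb_al h]
    exact (pull_cemb h hB _).2 (hB' z ((pull_cemb h hB z).1 hd))
  · have h1 := not_not.1 hK
    rw [pull_of h1.2]
    exact (pull_of h1.1).1 hd

open Classical in
/-- chains in a connected set of sites -/
theorem exists_chain [Fintype D] (hP : PlaneD M.nx M.al) {A : D → Prop}
    (hA : ConnOnD M.nx M.al A) {x₀ : D} (hx₀ : A x₀) : ∀ x, A x → ∃ m : D → ZMod 2,
      (∀ d, M.Kept A d → m d = 0) ∧ ∀ v, dcyc M.nx M.al m v =
        (if M.nx.SameCycle v x₀ then 1 else 0) + if M.nx.SameCycle v x then 1 else 0 := by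
  refine hA (fun x => ∃ m : D → ZMod 2, (∀ d, M.Kept A d → m d = 0) ∧ ∀ v,
    dcyc M.nx M.al m v = (if M.nx.SameCycle v x₀ then 1 else 0) +
      if M.nx.SameCycle v x then 1 else 0) ?_ ?_ ⟨x₀, hx₀, ?_⟩
  · rintro d hd ⟨m, hm', hm⟩
    refine ⟨m, hm', fun v => ?_⟩
    rw [hm]
    simp only [Equiv.Perm.sameCycle_apply_right]
  · rintro d hd hd' ⟨m, hm', hm⟩
    refine ⟨fun e => m e + if e = d then 1 else 0, fun e he => ?_, fun v => ?_⟩
    · show m e + (if e = d then 1 else 0) = 0
      rw [hm' e he, if_neg (fun h1 => he (by rw [h1]; exact ⟨hd, hd'⟩)), add_zero]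
    · rw [dcyc_add, hm, dcyc_single hP]
      have := dcyc_char (if M.nx.SameCycle v d then (1 : ZMod 2) else 0)
      linear_combination this
  · refine ⟨fun _ => 0, fun _ _ => rfl, fun v => ?_⟩
    rw [dcyc_char]
    exact Finset.sum_eq_zero fun i _ => add_zero 0

theorem contr_hom [Finite D] [NeZero n] (hP : M.Plane) : (M.contr h).Hom := by
  classical
  have : Fintype D := Fintype.ofFinite D
  intro c hc hs
  have hPD := hP.toD
  have hA := (connOn_iff h.site).1 (bd_connOn hP h)
  choose! ch hch0 hch using exists_chain hPD hA (bd_mem h 0)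
  -- the boundary values have sum zero
  have hsum : ∑ i : ZMod n, c (.inr i) = 0 := by
    have h1 := hs (Finset.univ.map ⟨Sum.inr, Sum.inr_injective⟩) (by
      rintro (d | i)
      · simp
      · simp)
    rwa [Finset.sum_map] at h1
  let c0 : D → ZMod 2 := fun d => if hd : M.Kept A d then c ((cembEquiv h).symm ⟨d, hd⟩) else 0
  have hc0 : ∀ x, c0 (cemb δ x) = c x := by
    intro x
    show (if hd : M.Kept A (cemb δ x) then c ((cembEquiv h).symm ⟨cemb δ x, hd⟩) else 0) = c x
    rw [dif_pos (kept_cemb h x)]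
    congr 1
    exact (cembEquiv h).symm_apply_apply x
  have hc0' : ∀ d, ¬ M.Kept A d → c0 d = 0 := fun d hd => dif_neg hd
  let m : D → ZMod 2 := fun d => ∑ i : ZMod n, c (.inr i) * ch (δ i) d
  have hm0 : ∀ d, M.Kept A d → m d = 0 := fun d hd => Finset.sum_eq_zero fun i _ => by
    rw [hch0 _ (bd_mem h i) d hd, mul_zero]
  have hm : ∀ v, dcyc M.nx M.al m v = ∑ i : ZMod n, if M.nx.SameCycle v (δ i) then c (.inr i)
      else 0 := by
    intro v
    have h1 : dcyc M.nx M.al m v = ∑ i : ZMod n, c (.inr i) * dcyc M.nx M.al (ch (δ i)) v := by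
      unfold dcyc
      simp only [Finset.mul_sum]
      rw [Finset.sum_comm]
      refine Finset.sum_congr rfl fun e _ => ?_
      show ∑ i, c (.inr i) * ch (δ i) e + ∑ i, c (.inr i) * ch (δ i) (M.al e) = _
      rw [← Finset.sum_add_distrib]
      exact Finset.sum_congr rfl fun i _ => (mul_add _ _ _).symm
    rw [h1]
    have h2 : ∀ i : ZMod n, c (.inr i) * dcyc M.nx M.al (ch (δ i)) v =
        c (.inr i) * (if M.nx.SameCycle v (δ 0) then 1 else 0) +
          if M.nx.SameCycle v (δ i) then c (.inr i) else 0 := by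
      intro i
      rw [hch _ (bd_mem h i), mul_add]
      congr 1
      split_ifs <;> simp
    rw [Finset.sum_congr rfl fun i _ => h2 i, Finset.sum_add_distrib, ← Finset.sum_mul, hsum,
      zero_mul, zero_add]
  obtain ⟨w, hw1, hw2⟩ := hPD.hom (fun d => c0 d + (m d + m (M.al d))) (fun d => by
    have h1 : c0 (M.al d) = c0 d := by
      by_cases hK : M.Kept A d
      · obtain ⟨x, rfl⟩ := exists_cemb h hK
        rw [← cemb_al h, hc0, hc0, hc]
      · rw [hc0' _ hK, hc0' _ (fun h2 => hK ((kept_al d).1 h2))]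
    show c0 (M.al d) + (m (M.al d) + m (M.al (M.al d))) = c0 d + (m d + m (M.al d))
    rw [h1, M.inv]
    ring) (fun v => by
    rw [Finset.sum_add_distrib]
    have h1 : ∑ e ∈ orb M.nx v, (m e + m (M.al e)) = dcyc M.nx M.al m v := rfl
    rw [h1, hm]
    by_cases hv : A v
    · have h2 : ∑ e ∈ orb M.nx v, c0 e = ∑ i : ZMod n, if M.nx.SameCycle v (δ i) then c (.inr i)
          else 0 := by
        rw [← Finset.sum_filter]
        have h3 : ∑ i ∈ Finset.univ.filter (fun i => M.nx.SameCycle v (δ i)), c (.inr i) =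
            ∑ e ∈ (Finset.univ.filter (fun i => M.nx.SameCycle v (δ i))).image δ, c0 e := by
          rw [Finset.sum_image fun i _ j _ hij => h.inj hij]
          exact Finset.sum_congr rfl fun i _ => (hc0 (.inr i)).symm
        rw [h3]
        symm
        refine Finset.sum_subset (fun e he => ?_) (fun e he he' => ?_)
        · obtain ⟨i, hi, rfl⟩ := Finset.mem_image.1 he
          rw [mem_orb]
          exact (Finset.mem_filter.1 hi).2
        · refine hc0' e fun hK => he' ?_
          have hAe : A e := (Sites.same (M := M) h.site (mem_orb.1 he)).1 hv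
          obtain ⟨i, rfl⟩ := (h.mem e).1 ⟨hAe, fun h4 => hK ⟨hAe, h4⟩⟩
          exact Finset.mem_image.2 ⟨i, Finset.mem_filter.2 ⟨Finset.mem_univ _, mem_orb.1 he⟩, rfl⟩
      rw [h2]
      exact dcyc_char _
    · have h2 : ∑ i : ZMod n, (if M.nx.SameCycle v (δ i) then c (.inr i) else 0) = 0 := by
        refine Finset.sum_eq_zero fun i _ => if_neg fun h3 => hv ?_
        exact (Sites.same (M := M) h.site h3).2 (bd_mem h i)
      rw [h2, add_zero]
      have hn : ∀ e ∈ orb M.nx v, ¬ A e := fun e he h3 =>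
        hv ((Sites.same (M := M) h.site (mem_orb.1 he)).2 h3)
      have hmem : ∀ z : {d // ¬ A d}, (.inl z : Out A n) ∈
          ((orb M.nx v).attach.image fun e => (.inl ⟨e.1, hn e.1 e.2⟩ : Out A n)) ↔
            z.1 ∈ orb M.nx v := by
        intro z
        constructor
        · intro hz
          obtain ⟨e, -, he⟩ := Finset.mem_image.1 hz
          have h5 := Sum.inl_injective he
          rw [← h5]
          exact e.2
        · intro hz
          exact Finset.mem_image.2 ⟨⟨z.1, hz⟩, Finset.mem_attach _ _, rfl⟩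
      have h4 := hs ((orb M.nx v).attach.image fun e => (.inl ⟨e.1, hn e.1 e.2⟩ : Out A n)) (by
        rintro (d | i)
        · rw [contr_nx_inl, hmem, hmem, mem_orb, mem_orb, Equiv.Perm.sameCycle_apply_right]
        · simp)
      rw [Finset.sum_image (fun a _ b _ hab => by
        simp only [Sum.inl.injEq, Subtype.mk.injEq] at hab
        exact Subtype.ext hab)] at h4
      rw [← Finset.sum_attach, ← h4]
      exact Finset.sum_congr rfl fun e _ => hc0 (.inl ⟨e.1, hn e.1 e.2⟩))
  have hw3 : ∀ d e, M.SameNode d e → w d = w e := fun d e hde =>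
    dnode_fun hw1 (sameNode_iff.1 hde)
  refine ⟨fun x => w (cemb δ x), fun x => ?_, fun x => ?_⟩
  · exact (hw3 _ _ (ret_fs h x).sameCycle).symm
  · have hcx : c x = c0 (cemb δ x) + (m (cemb δ x) + m (M.al (cemb δ x))) := by
      rw [hc0, hm0 _ (kept_cemb h x), hm0 _ ((kept_al _).2 (kept_cemb h x)), add_zero, add_zero]
    rw [hcx, ← hw2]
    show w (cemb δ x) + w (cemb δ ((M.contr h).nx.symm x)) = _
    congr 1
    rcases x with d | i
    · rw [cemb_nx_symm_inl]
      rfl
    · rw [contr_nx_symm_inr]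
      show w (δ (i - 1)) = w (M.nx.symm (δ i))
      obtain ⟨k, hk, -⟩ := h.inw (i - 1)
      rw [sub_add_cancel] at hk
      have h1 : w (δ (i - 1)) = w (M.al (δ i)) := by
        rw [← hk]
        exact dnode_fun hw1 (iter_dnode k _)
      have h2 : nstep M.nx M.al (M.al (δ i)) = M.nx.symm (δ i) := nstep_al M.inv _
      rw [h1, ← hw1, h2]

theorem contr_plane [Finite D] [NeZero n] (hP : M.Plane) : (M.contr h).Plane :=
  ⟨contr_hom h hP, contr_conn h hP.conn⟩

/-! ### more about the contracted map -/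

theorem contr_sameSite_inl (d e : {d : D // ¬ A d}) :
    (M.contr h).SameSite (.inl d) (.inl e) ↔ M.SameSite d.1 e.1 := by
  have h1 : ∀ k : ℤ, ((M.contr h).nx ^ k) (.inl d) =
      .inl ⟨(M.nx ^ k) d.1, fun h2 => d.2 ((Sites.same (M := M) h.site ⟨k, rfl⟩).2 h2)⟩ := by
    intro k
    induction k with
    | zero => simp
    | succ k ih =>
      rw [add_comm, zpow_one_add, Equiv.Perm.mul_apply, ih, contr_nx_inl]
      congr 2
      rw [zpow_one_add, Equiv.Perm.mul_apply]
    | pred k ih =>
      apply (M.contr h).nx.injective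
      rw [contr_nx_inl, ← Equiv.Perm.mul_apply, ← zpow_one_add, add_sub_cancel, ih]
      congr 2
      rw [← Equiv.Perm.mul_apply, ← zpow_one_add, add_sub_cancel]
  constructor
  · rintro ⟨k, hk⟩
    rw [h1] at hk
    exact ⟨k, congrArg Subtype.val (Sum.inl_injective hk)⟩
  · rintro ⟨k, hk⟩
    exact ⟨k, by rw [h1]; congr 1; exact Subtype.ext hk⟩

theorem contr_sameSite_inr [NeZero n] (i j : ZMod n) :
    (M.contr h).SameSite (.inr i) (.inr j) := by
  have h1 : ∀ k : ℕ, ((M.contr h).nx ^ k) (.inr i) = .inr (i + k) := by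
    intro k
    induction k with
    | zero => simp
    | succ k ih =>
      rw [add_comm, pow_add, Equiv.Perm.mul_apply, ih, pow_one, contr_nx_inr]
      congr 1
      push_cast
      ring
  refine ⟨((j - i).val : ℕ), ?_⟩
  rw [zpow_natCast, h1, ZMod.natCast_zmod_val]
  congr 1
  ring

theorem contr_sites_inr [NeZero n] : (M.contr h).Sites fun x => ∃ i, x = .inr i := by
  rintro (d | i)
  · rw [contr_nx_inl]
    simp
  · rw [contr_nx_inr]
    simp

/-- the number of darts of a site -/
theorem contr_deg_inl (d : {d : D // ¬ A d}) : (M.contr h).deg (.inl d) = M.deg d.1 := by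
  unfold deg
  have h1 : ∀ k : ℕ, ((M.contr h).nx)^[k] (.inl d) =
      .inl ⟨(M.nx)^[k] d.1, fun h2 => d.2 ((Sites.same (M := M) h.site
        ⟨k, by rw [zpow_natCast, Equiv.Perm.coe_pow]⟩).2 h2)⟩ := by
    intro k
    induction k with
    | zero => rfl
    | succ k ih =>
      rw [Function.iterate_succ_apply', ih, contr_nx_inl]
      congr 2
      rw [Function.iterate_succ_apply']
  apply Nat.dvd_antisymm
  · apply Function.IsPeriodicPt.minimalPeriod_dvd
    show ((M.contr h).nx)^[_] (.inl d) = .inl d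
    rw [h1]
    congr 1
    exact Subtype.ext (Function.isPeriodicPt_minimalPeriod M.nx d.1)
  · apply Function.IsPeriodicPt.minimalPeriod_dvd
    show M.nx^[_] d.1 = d.1
    have h2 := Function.isPeriodicPt_minimalPeriod (M.contr h).nx (.inl d)
    unfold Function.IsPeriodicPt Function.IsFixedPt at h2
    rw [h1] at h2
    exact congrArg Subtype.val (Sum.inl_injective h2)

theorem contr_deg_inr [NeZero n] (i : ZMod n) : (M.contr h).deg (.inr i) = n := by
  unfold deg
  have h1 : ∀ k : ℕ, ((M.contr h).nx)^[k] (.inr i) = .inr (i + k) := by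
    intro k
    induction k with
    | zero => simp
    | succ k ih =>
      rw [Function.iterate_succ_apply', ih, contr_nx_inr]
      congr 1
      push_cast
      ring
  apply Nat.dvd_antisymm
  · apply Function.IsPeriodicPt.minimalPeriod_dvd
    show ((M.contr h).nx)^[_] (.inr i) = .inr i
    rw [h1]
    simp
  · have h2 := Function.isPeriodicPt_minimalPeriod (M.contr h).nx (.inr i)
    unfold Function.IsPeriodicPt Function.IsFixedPt at h2
    rw [h1] at h2
    have h3 := Sum.inr_injective h2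
    rw [← ZMod.natCast_eq_zero_iff]
    exact add_eq_left.1 h3

/-- a set of sites of `M` which contains `A` or is disjoint from `A` comes from the contracted map -/
theorem exists_pull [NeZero n] {B : D → Prop} (hB : M.Sites B)
    (hAB : (∀ d, A d → B d) ∨ ∀ d, A d → ¬ B d) :
    (M.contr h).Sites (fun x => B (cemb δ x)) ∧ ∀ d, pull (fun x => B (cemb (A := A) δ x)) d ↔ B d := by
  have hA : ∀ d e, A d → A e → (B d ↔ B e) := by
    intro d e hd he
    rcases hAB with h1 | h1
    · exact iff_of_true (h1 d hd) (h1 e he)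
    · exact iff_of_false (h1 d hd) (h1 e he)
  constructor
  · rintro (d | i)
    · exact hB d.1
    · exact hA _ _ (bd_mem h _) (bd_mem h _)
  · intro d
    by_cases hd : A d
    · rw [pull_of hd]
      exact hA _ _ (bd_mem h 0) hd
    · rw [pull_of_not hd]
      rfl

/-! ### the interface -/

/-- `M'` is `M` with the set `A` contracted to one site -/
structure IsContr {D' : Type} (M : DMap D) (A : D → Prop) (M' : DMap D') (ι : D' → D) : Prop where
  inj : Function.Injective ι
  range : ∀ d, (∃ e, ι e = d) ↔ M.Kept A d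
  al : ∀ e, ι (M'.al e) = M.al (ι e)
  nx : ∀ e, ¬ A (ι e) → ι (M'.nx e) = M.nx (ι e)
  site : ∀ e, A (ι e) → A (ι (M'.nx e))
  fs : ∀ e, Ret M.fs (M.Kept A) (ι e) (ι (M'.fs e))

theorem contr_isContr : IsContr M A (M.contr h) (cemb δ) where
  inj := cemb_inj h
  range d := ⟨by rintro ⟨x, rfl⟩; exact kept_cemb h x, exists_cemb h⟩
  al := cemb_al h
  nx := by
    rintro (d | i) hx
    · rfl
    · exact absurd (bd_mem h i) hx
  site := by
    rintro (d | i) hx
    · exact absurd hx d.2
    · exact bd_mem h (i + 1)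
  fs := ret_fs h

section

variable {D' : Type} {M' : DMap D'} {ι : D' → D}

theorem IsContr.kept (hI : IsContr M A M' ι) (x : D') : M.Kept A (ι x) := (hI.range _).1 ⟨x, rfl⟩

open Classical in
/-- the equivalence of the darts -/
noncomputable def IsContr.equiv (hI : IsContr M A M' ι) : D' ≃ {d : D // M.Kept A d} :=
  Equiv.ofBijective (fun x => ⟨ι x, hI.kept x⟩) ⟨fun _ _ hxy =>
    hI.inj (congrArg Subtype.val hxy), fun ⟨_, hd⟩ =>
    ⟨((hI.range _).2 hd).choose, Subtype.ext ((hI.range _).2 hd).choose_spec⟩⟩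

theorem IsContr.sameCycle [Finite D] (hI : IsContr M A M' ι) {f : Equiv.Perm D}
    {g : Equiv.Perm D'} (hfg : ∀ x, Ret f (M.Kept A) (ι x) (ι (g x))) (x y : D') :
    g.SameCycle x y ↔ f.SameCycle (ι x) (ι y) := by
  rw [sameCycle_equiv hI.equiv (f := retPerm f (M.Kept A)) (fun z => ?_), retPerm_sameCycle]
  · rfl
  · exact (ret_eq f.injective (hfg z)).symm

theorem IsContr.sameNode [Finite D] (hI : IsContr M A M' ι) (x y : D') :
    M'.SameNode x y ↔ M.SameNode (ι x) (ι y) := hI.sameCycle hI.fs x y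

end

/-- a node which meets `A` and its complement has a boundary dart -/
theorem node_meets [Finite D] (h : M.Bd A n δ) {d e : D} (hde : M.SameNode d e) (hd : A d)
    (he : ¬ A e) : ∃ i, M.SameNode d (δ i) := by
  by_contra hcon
  push Not at hcon
  obtain ⟨k, hk⟩ := hde.exists_nat_pow_eq
  have key : ∀ k : ℕ, A ((M.fs ^ k) d) := by
    intro k
    induction k with
    | zero => exact hd
    | succ k ih =>
      rw [pow_succ', Equiv.Perm.mul_apply]
      by_contra h1
      have h2 : ¬ A (M.al ((M.fs ^ k) d)) := fun h3 => h1 ((site_nstep h.site _).2 h3)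
      obtain ⟨i, hi⟩ := (h.mem _).1 ⟨ih, h2⟩
      refine hcon i ?_
      rw [hi]
      exact ⟨k, by rw [zpow_natCast]⟩
  exact he (hk ▸ key k)

theorem nodes_inj [Finite D] (h : M.Bd A n δ) {i j : ZMod n} (hij : M.SameNode (δ i) (δ j)) :
    i = j := h.nodes (sameNode_iff.1 hij)

open Classical in
/-- node sums in the contracted map -/
theorem contr_sum [Fintype D] [NeZero n] (h : M.Bd A n δ) {β : Type*} [AddCommMonoid β]
    {om : D → β} {om' : Out A n → β} (h1 : ∀ d, om' (.inl d) = om d.1)
    (h2 : ∀ i, om' (.inr i) = ∑ d ∈ Finset.univ.filter (fun d => A d ∧ M.SameNode d (δ i)), om d)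
    (y : Out A n) :
    ∑ x ∈ Finset.univ.filter (fun x => (M.contr h).SameNode x y), om' x =
      ∑ d ∈ Finset.univ.filter (fun d => M.SameNode d (cemb δ y)), om d := by
  rw [Finset.sum_filter, Fintype.sum_sum_type]
  simp only [contr_sameNode, cemb_inl, cemb_inr, h1, h2]
  rw [← Finset.sum_filter_add_sum_filter_not (Finset.univ.filter fun d => M.SameNode d (cemb δ y))
    (fun d => ¬ A d)]
  congr 1
  · rw [Finset.filter_filter, Finset.sum_filter]
    have e1 : ∑ d : D, (if M.SameNode d (cemb δ y) ∧ ¬ A d then om d else 0) =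
        ∑ d ∈ Finset.univ.filter (fun d => ¬ A d), if M.SameNode d (cemb δ y) then om d else 0 := by
      rw [Finset.sum_filter]
      refine Finset.sum_congr rfl fun d _ => ?_
      by_cases hd : A d <;> simp [hd]
    rw [e1]
    exact (Finset.sum_subtype (p := fun d => ¬ A d) (Finset.univ.filter fun d => ¬ A d)
      (fun d => by simp) fun d => if M.SameNode d (cemb δ y) then om d else 0).symm
  · by_cases hex : ∃ i, M.SameNode (δ i) (cemb δ y)
    · obtain ⟨i, hi⟩ := hex
      rw [Finset.sum_eq_single i]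
      · rw [if_pos hi, Finset.filter_filter]
        refine Finset.sum_congr (Finset.filter_congr fun d _ => ?_) fun _ _ => rfl
        rw [not_not, and_comm]
        exact and_congr_left fun _ => ⟨fun h3 => h3.trans hi, fun h3 => h3.trans hi.symm⟩
      · intro j _ hj
        rw [if_neg]
        intro h3
        exact hj (nodes_inj h (h3.trans hi.symm))
      · intro h3
        exact absurd (Finset.mem_univ i) h3
    · rw [Finset.sum_eq_zero fun i _ => if_neg fun h3 => hex ⟨i, h3⟩]
      symm
      refine Finset.sum_eq_zero fun d hd => ?_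
      exfalso
      rw [Finset.filter_filter, Finset.mem_filter, not_not] at hd
      obtain ⟨-, hd1, hd2⟩ := hd
      rcases y with ⟨e, he⟩ | i
      · obtain ⟨i, hi⟩ := node_meets h hd1 hd2 he
        exact hex ⟨i, hi.symm.trans hd1⟩
      · exact hex ⟨i, Equiv.Perm.SameCycle.refl _ _⟩

end DMap

end

end GT33
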