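import Pool.Agent.GT33.Cyc

/-!
# GT33 module DCYC: boundary cycles and the Jordan theorem for dart maps

Dart maps: `phi : Equiv.Perm D` is the next dart of the site (counterclockwise), `al` the involution of the
edges.  The dart `d` also stands for the sector between `d` and `phi d`; `nstep phi al d = phi.symm (al d)` is the
next sector of the same node.  Sets of sites are `phi`-invariant predicates on the darts.

`PlaneD`: connected plane dart maps (planarity = `DHom`: every cycle mod 2 bounds).  `ConnOnD A`: the set `A` of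
sites is connected.  `BdD A n δ`: `δ : ZMod n → D` numbers the darts leaving `A` counterclockwise; walking
around the node to the left of `δ i` one stays outside `A` until one comes back along `δ (i + 1)`, and then
inside `A` until one comes to `δ i`; the `n` nodes are different.

`PlaneD.exists_bd`: if `A` and its complement are connected, there is such a numbering.
`PlaneD.jordan`: a closed walk which crosses the darts `d i`, from the node to the left of `d i` to the node to
the left of `d (i + 1)`, all these nodes different, is the boundary cycle of a set of sites.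
-/

namespace GT33

section

variable {D : Type*} {phi : Equiv.Perm D} {al : D → D}

/-- the next sector of the same node -/
def nstep (phi : Equiv.Perm D) (al : D → D) (d : D) : D := phi.symm (al d)

/-- the node of a sector -/
def dnode (phi : Equiv.Perm D) (al : D → D) (d : D) : Quot fun a b => nstep phi al a = b := Quot.mk _ d

open Classical in
/-- the darts of a site -/
noncomputable def orb [Fintype D] (phi : Equiv.Perm D) (d : D) : Finset D :=
  Finset.univ.filter fun e => phi.SameCycle d e

/-- every cycle mod 2 is a sum of boundaries of nodes -/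
def DHom [Fintype D] (phi : Equiv.Perm D) (al : D → D) : Prop :=
  ∀ c : D → ZMod 2, (∀ d, c (al d) = c d) → (∀ d, ∑ e ∈ orb phi d, c e = 0) →
    ∃ w : D → ZMod 2, (∀ d, w (nstep phi al d) = w d) ∧ ∀ d, w d + w (phi.symm d) = c d

/-- connected plane dart maps -/
structure PlaneD [Fintype D] (phi : Equiv.Perm D) (al : D → D) : Prop where
  inv : ∀ d, al (al d) = d
  ne : ∀ d, al d ≠ d
  hom : DHom phi al
  conn : ∀ M : D → Prop, (∀ d, M d → M (phi d)) → (∀ d, M d → M (al d)) → (∃ d, M d) → ∀ d, M d

/-- the set `A` of sites is connected -/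
def ConnOnD (phi : Equiv.Perm D) (al : D → D) (A : D → Prop) : Prop :=
  ∀ M : D → Prop, (∀ d, A d → M d → M (phi d)) → (∀ d, A d → A (al d) → M d → M (al d)) →
    (∃ x, A x ∧ M x) → ∀ y, A y → M y

/-- `δ` numbers the darts leaving `A` counterclockwise -/
structure BdD (phi : Equiv.Perm D) (al : D → D) (A : D → Prop) (n : ℕ) (δ : ZMod n → D) :
    Prop where
  site : ∀ d, A (phi d) ↔ A d
  inj : Function.Injective δ
  mem : ∀ d, (A d ∧ ¬ A (al d)) ↔ ∃ i, δ i = d
  outw : ∀ i, ∃ k, (nstep phi al)^[k] (δ i) = al (δ (i + 1)) ∧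
    ∀ m, 0 < m → m ≤ k → ¬ A ((nstep phi al)^[m] (δ i))
  inw : ∀ i, ∃ k, (nstep phi al)^[k] (al (δ (i + 1))) = δ i ∧
    ∀ m, 0 < m → m ≤ k → A ((nstep phi al)^[m] (al (δ (i + 1))))
  nodes : Function.Injective fun i => dnode phi al (δ i)

theorem mem_orb [Fintype D] {d e : D} : e ∈ orb phi d ↔ phi.SameCycle d e := by
  simp [orb]

theorem orb_phi [Fintype D] (d : D) : orb phi (phi d) = orb phi d := by
  ext e
  rw [mem_orb, mem_orb, Equiv.Perm.sameCycle_apply_left]

theorem iter_dnode (n : ℕ) (d : D) :
    dnode phi al ((nstep phi al)^[n] d) = dnode phi al d := by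
  induction n with
  | zero => rfl
  | succ n ih =>
    rw [Function.iterate_succ_apply', ← ih]
    exact (Quot.sound (r := fun a b => nstep phi al a = b) rfl).symm

theorem dnode_fun {β : Type*} {w : D → β} (hw : ∀ d, w (nstep phi al d) = w d)
    {d e : D} (h : dnode phi al d = dnode phi al e) : w d = w e := by
  have := congrArg (Quot.lift w (fun a b (hab : nstep phi al a = b) => by rw [← hab, hw])) h
  exact this

theorem dcyc_char (x : ZMod 2) : x + x = 0 := by
  revert x; decide

theorem dcyc_move (x y z : ZMod 2) (h : x + y + z = 0) : y = x + z := by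
  revert x y z; decide

theorem nstep_al (hi : ∀ d, al (al d) = d) (d : D) : nstep phi al (al d) = phi.symm d := by
  rw [nstep, hi]

theorem nstep_inj (hi : ∀ d, al (al d) = d) : Function.Injective (nstep phi al) := by
  intro d e hde
  have h1 : al d = al e := phi.symm.injective hde
  rw [← hi d, h1, hi]

theorem PlaneD.nstep_inj [Fintype D] (h : PlaneD phi al) : Function.Injective (nstep phi al) :=
  GT33.nstep_inj h.inv

/-- the boundary of a chain of darts -/
noncomputable def dcyc [Fintype D] (phi : Equiv.Perm D) (al : D → D) (m : D → ZMod 2)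
    (v : D) : ZMod 2 :=
  ∑ e ∈ orb phi v, (m e + m (al e))

theorem dcyc_add [Fintype D] (m m' : D → ZMod 2) (v : D) :
    dcyc phi al (fun d => m d + m' d) v = dcyc phi al m v + dcyc phi al m' v := by
  unfold dcyc
  rw [← Finset.sum_add_distrib]
  refine Finset.sum_congr rfl fun i _ => ?_
  ring

theorem dcyc_kill [Fintype D] (h : PlaneD phi al) (b : D → ZMod 2)
    (hb : ∀ d, b (al d) = b d)
    (hf : ∀ w : D → ZMod 2, (∀ d, w (nstep phi al d) = w d) → ∑ d, b d * w d = 0)
    (m : D → ZMod 2) (hm : ∀ v, dcyc phi al m v = 0) : ∑ d, m d * b d = 0 := by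
  obtain ⟨w, hw1, hw2⟩ := h.hom (fun d => m d + m (al d)) (fun d => by
    show m (al d) + m (al (al d)) = m d + m (al d)
    rw [h.inv]; ring) hm
  have hw3 : ∀ d, w (phi.symm d) = w (al d) := by
    intro d
    have h1 := hw1 (al d)
    rwa [nstep_al h.inv] at h1
  have hs : ∑ d, (m d + w d) * b d = 0 := by
    refine Finset.sum_involution (fun d _ => al d) ?_ ?_ ?_ ?_
    · intro d _
      have h1 := hw2 d
      rw [hw3] at h1
      have h2 : m (al d) + w (al d) = m d + w d := by
        have h3 : w (al d) = m d + m (al d) + w d := by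
          rw [← h1]
          have := dcyc_char (w d)
          linear_combination - this
        rw [h3]
        have := dcyc_char (m (al d))
        linear_combination this
      rw [hb, h2]
      exact dcyc_char _
    · intro d _ _
      exact h.ne d
    · intro d _
      exact Finset.mem_univ _
    · intro d _
      exact h.inv d
  have h1 := hf w hw1
  have h2 : ∑ d, (m d + w d) * b d = ∑ d, m d * b d + ∑ d, b d * w d := by
    rw [← Finset.sum_add_distrib]
    refine Finset.sum_congr rfl fun d _ => ?_
    ring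
  rw [h2, h1, add_zero] at hs
  exact hs

open Classical in
theorem dcyc_sum [Fintype D] (d : D) (v : D) :
    ∑ e ∈ orb phi v, (if e = d then (1 : ZMod 2) else 0) =
      if phi.SameCycle v d then 1 else 0 := by
  rw [Finset.sum_ite_eq' (orb phi v) d]
  simp only [mem_orb]

open Classical in
theorem dcyc_single [Fintype D] (h : PlaneD phi al) (d : D) (v : D) :
    dcyc phi al (fun e => if e = d then 1 else 0) v =
      (if phi.SameCycle v d then 1 else 0) + if phi.SameCycle v (al d) then 1 else 0 := by
  unfold dcyc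
  rw [Finset.sum_add_distrib, dcyc_sum]
  congr 1
  rw [← dcyc_sum (al d) v]
  refine Finset.sum_congr rfl fun e _ => ?_
  have h1 : al e = d ↔ e = al d := by
    constructor
    · intro h2
      rw [← h2, h.inv]
    · intro h2
      rw [h2, h.inv]
  simp only [h1]

/-- functions on the edges which are even on all nodes are coboundaries -/
theorem PlaneD.coh [Fintype D] (h : PlaneD phi al) (b : D → ZMod 2)
    (hb : ∀ d, b (al d) = b d)
    (hf : ∀ w : D → ZMod 2, (∀ d, w (nstep phi al d) = w d) → ∑ d, b d * w d = 0) :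
    ∃ p : D → ZMod 2, (∀ d, p (phi d) = p d) ∧ ∀ d, b d = p d + p (al d) := by
  classical
  rcases isEmpty_or_nonempty D with he | ⟨⟨x₀⟩⟩
  · exact ⟨fun _ => 0, fun d => (he.false d).elim, fun d => (he.false d).elim⟩
  have hex : ∀ x, ∃ m : D → ZMod 2, ∀ v,
      dcyc phi al m v = (if phi.SameCycle v x₀ then 1 else 0) +
        if phi.SameCycle v x then 1 else 0 := by
    refine h.conn (fun x => ∃ m : D → ZMod 2, ∀ v,
      dcyc phi al m v = (if phi.SameCycle v x₀ then 1 else 0) +
        if phi.SameCycle v x then 1 else 0) ?_ ?_ ⟨x₀, ?_⟩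
    · rintro d ⟨m, hm⟩
      refine ⟨m, fun v => ?_⟩
      rw [hm]
      simp only [Equiv.Perm.sameCycle_apply_right]
    · rintro d ⟨m, hm⟩
      refine ⟨fun e => m e + if e = d then 1 else 0, fun v => ?_⟩
      rw [dcyc_add, hm, dcyc_single h]
      have := dcyc_char (if phi.SameCycle v d then (1 : ZMod 2) else 0)
      linear_combination this
    · refine ⟨fun _ => 0, fun v => ?_⟩
      rw [dcyc_char]
      exact Finset.sum_eq_zero fun i _ => add_zero 0
  choose m hm using hex
  refine ⟨fun x => ∑ d, m x d * b d, fun x => ?_, fun d => ?_⟩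
  · have hz := dcyc_kill h b hb hf (fun e => m (phi x) e + m x e) (fun v => by
      rw [dcyc_add, hm, hm]
      simp only [Equiv.Perm.sameCycle_apply_right]
      exact dcyc_char _)
    have hs : ∑ e, (m (phi x) e + m x e) * b e = ∑ e, m (phi x) e * b e + ∑ e, m x e * b e := by
      rw [← Finset.sum_add_distrib]
      exact Finset.sum_congr rfl fun e _ => add_mul _ _ _
    rw [hs] at hz
    have key : ∀ a b : ZMod 2, a + b = 0 → a = b := by decide
    exact key _ _ hz
  have hz := dcyc_kill h b hb hf
    (fun e => m d e + (if e = d then 1 else 0) + m (al d) e) (fun v => by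
      rw [dcyc_add (fun e => m d e + (if e = d then 1 else 0)) (m (al d)), dcyc_add, hm, hm,
        dcyc_single h]
      have h1 := dcyc_char (if phi.SameCycle v x₀ then (1 : ZMod 2) else 0)
      have h2 := dcyc_char (if phi.SameCycle v d then (1 : ZMod 2) else 0)
      have h3 := dcyc_char (if phi.SameCycle v (al d) then (1 : ZMod 2) else 0)
      linear_combination h1 + h2 + h3)
  have hs : ∑ e, (m d e + (if e = d then 1 else 0) + m (al d) e) * b e =
      ∑ e, m d e * b e + b d + ∑ e, m (al d) e * b e := by
    have h1 : ∀ e, (m d e + (if e = d then 1 else 0) + m (al d) e) * b e =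
        m d e * b e + (if e = d then b e else 0) + m (al d) e * b e := by
      intro e
      by_cases he : e = d
      · rw [if_pos he, if_pos he]; ring
      · rw [if_neg he, if_neg he]; ring
    rw [Finset.sum_congr rfl fun e _ => h1 e, Finset.sum_add_distrib, Finset.sum_add_distrib,
      Finset.sum_ite_eq' Finset.univ d b, if_pos (Finset.mem_univ d)]
  rw [hs] at hz
  exact dcyc_move _ _ _ hz

/-- a set of darts which is even on all nodes is a cut -/
theorem PlaneD.cut_of_even [Fintype D] [DecidableEq D] (h : PlaneD phi al)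
    {J : Finset D}
    (hs : ∀ w : D → ZMod 2, (∀ d, w (nstep phi al d) = w d) →
      ∑ d ∈ J, w d + ∑ d ∈ J, w (al d) = 0) :
    ∃ p : D → ZMod 2, (∀ d, p (phi d) = p d) ∧ ∀ d : D,
      (if d ∈ J then (1 : ZMod 2) else 0) + (if al d ∈ J then 1 else 0) = p d + p (al d) := by
  refine h.coh (fun d => (if d ∈ J then (1 : ZMod 2) else 0) + (if al d ∈ J then 1 else 0))
    (fun d => by simp only [h.inv]; rw [add_comm])
    (fun w hw => ?_)
  have e1 : ∑ d, ((if d ∈ J then (1 : ZMod 2) else 0) + (if al d ∈ J then 1 else 0)) * w d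
      = ∑ d, (if d ∈ J then w d else 0) + ∑ d, (if al d ∈ J then w d else 0) := by
    rw [← Finset.sum_add_distrib]
    refine Finset.sum_congr rfl fun d _ => ?_
    rw [add_mul]
    split_ifs <;> simp
  have e2 : ∑ d, (if al d ∈ J then w d else 0) = ∑ d, (if d ∈ J then w (al d) else 0) := by
    have hinv : Function.Involutive al := h.inv
    refine Fintype.sum_equiv hinv.toPerm _ _ fun d => ?_
    show (if al d ∈ J then w d else 0) = if al d ∈ J then w (al (al d)) else 0
    rw [h.inv]
  rw [e1, e2, Finset.sum_ite_mem, Finset.sum_ite_mem, Finset.univ_inter]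
  exact hs w hw

/-- An even nonempty set of darts leaving `A` contains all of them if `A` and its complement are
connected. -/
theorem PlaneD.all_of_even [Fintype D] (h : PlaneD phi al) {A : D → Prop}
    (hA : ConnOnD phi al A) (hA' : ConnOnD phi al fun x => ¬ A x) {J : Finset D}
    (hJ : ∀ d ∈ J, A d ∧ ¬ A (al d)) (hne : J.Nonempty)
    (hs : ∀ w : D → ZMod 2, (∀ d, w (nstep phi al d) = w d) →
      ∑ d ∈ J, w d + ∑ d ∈ J, w (al d) = 0) (d : D) (hd : A d) (hd' : ¬ A (al d)) :
    d ∈ J := by
  classical
  obtain ⟨p, hpp, hp⟩ := h.cut_of_even hs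
  obtain ⟨d0, hd0⟩ := hne
  have h0 := hJ d0 hd0
  have hin : ∀ e : D, e ∉ J → al e ∉ J → p (al e) = p e := by
    intro e h1 h2
    have := hp e
    rw [if_neg h1, if_neg h2] at this
    have key : ∀ a b : ZMod 2, 0 + 0 = a + b → b = a := by decide
    exact key _ _ this
  have h1 : ∀ x, A x → p x = p d0 := by
    refine hA (fun x => p x = p d0) (fun e _ he => (hpp e).trans he)
      (fun e he1 he2 he3 => ?_) ⟨d0, h0.1, rfl⟩
    show p (al e) = p d0
    rw [← he3]
    refine hin e (fun hc => (hJ e hc).2 he2) (fun hc => ?_)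
    have := (hJ _ hc).2
    rw [h.inv] at this
    exact this he1
  have h2 : ∀ x, ¬ A x → p x = p (al d0) := by
    refine hA' (fun x => p x = p (al d0)) (fun e _ he => (hpp e).trans he)
      (fun e he1 he2 he3 => ?_) ⟨(al d0), h0.2, rfl⟩
    show p (al e) = p (al d0)
    rw [← he3]
    exact hin e (fun hc => he1 (hJ e hc).1) (fun hc => he2 (hJ _ hc).1)
  by_contra hdJ
  have h3 := hp d
  rw [if_neg hdJ, if_neg (fun hc => hd' (hJ _ hc).1), h1 _ hd, h2 _ hd'] at h3
  have h4 := hp d0
  rw [if_pos hd0, if_neg (fun hc => h0.2 (hJ _ hc).1), ← h3] at h4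
  revert h4; decide

theorem site_back [Finite D] {A M : D → Prop} (hs : ∀ d, A (phi d) ↔ A d)
    (hM : ∀ d, A d → M d → M (phi d)) (d : D) (h1 : A d) (h2 : M (phi d)) : M d := by
  obtain ⟨N, hN, hN'⟩ := phi.injective.mem_periodicPts d
  have key : ∀ k, A (phi^[k] (phi d)) ∧ M (phi^[k] (phi d)) := by
    intro k
    induction k with
    | zero => exact ⟨(hs d).2 h1, h2⟩
    | succ k ih =>
      rw [Function.iterate_succ_apply']
      exact ⟨(hs _).2 ih.1, hM _ ih.1 ih.2⟩
  have h3 := (key (N - 1)).2
  rw [← Function.iterate_succ_apply, Nat.succ_eq_add_one, Nat.sub_add_cancel hN] at h3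
  rwa [hN'.eq] at h3

theorem site_nstep {A : D → Prop} (hs : ∀ d, A (phi d) ↔ A d) (d : D) :
    A (nstep phi al d) ↔ A (al d) := by
  rw [← hs (nstep phi al d), nstep, Equiv.apply_symm_apply]

/-- the walk outside `A` -/
theorem PlaneD.walk_out [Fintype D] (h : PlaneD phi al) {A : D → Prop}
    (hs : ∀ d, A (phi d) ↔ A d) (d : D) (h1 : A d)
    (h2 : ¬ A (al d)) : ∃ g : D, (A g ∧ ¬ A (al g)) ∧
      ∃ n, (nstep phi al)^[n] d = al g ∧ ∀ m, 0 < m → m ≤ n → ¬ A ((nstep phi al)^[m] d) := by
  classical
  obtain ⟨N, hN, hN'⟩ := h.nstep_inj.mem_periodicPts d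
  have hex : ∃ n, A ((nstep phi al)^[n + 1] d) :=
    ⟨N - 1, by rw [Nat.sub_add_cancel hN]; rw [hN'.eq]; exact h1⟩
  have hn := Nat.find_spec hex
  have hm : ∀ m, 0 < m → m ≤ Nat.find hex → ¬ A ((nstep phi al)^[m] d) := by
    intro m hm0 hm
    have := Nat.find_min hex (m := m - 1) (by omega)
    rwa [Nat.sub_add_cancel hm0] at this
  set n := Nat.find hex with hndef
  have hn0 : 0 < n := by
    rcases Nat.eq_zero_or_pos n with h0 | h0
    · exfalso
      rw [h0] at hn
      exact h2 ((site_nstep hs d).1 hn)
    · exact h0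
  refine ⟨al ((nstep phi al)^[n] d), ⟨?_, ?_⟩, n, (h.inv _).symm, hm⟩
  · rw [Function.iterate_succ_apply'] at hn
    exact (site_nstep hs _).1 hn
  · rw [h.inv]
    exact hm n hn0 le_rfl

/-- the walk inside `A` -/
theorem PlaneD.walk_in [Fintype D] (h : PlaneD phi al) {A : D → Prop}
    (hs : ∀ d, A (phi d) ↔ A d) (u : D)
    (h1 : ¬ A u) (h2 : A (al u)) : ∃ g : D, (A g ∧ ¬ A (al g)) ∧
      ∃ n, (nstep phi al)^[n] u = g ∧ ∀ m, 0 < m → m ≤ n → A ((nstep phi al)^[m] u) := by
  classical
  obtain ⟨N, hN, hN'⟩ := h.nstep_inj.mem_periodicPts u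
  have hex : ∃ n, ¬ A ((nstep phi al)^[n + 1] u) :=
    ⟨N - 1, by rw [Nat.sub_add_cancel hN]; rw [hN'.eq]; exact h1⟩
  have hn := Nat.find_spec hex
  have hm : ∀ m, 0 < m → m ≤ Nat.find hex → A ((nstep phi al)^[m] u) := by
    intro m hm0 hm
    have := Nat.find_min hex (m := m - 1) (by omega)
    rwa [Nat.sub_add_cancel hm0, not_not] at this
  set n := Nat.find hex with hndef
  have hn0 : 0 < n := by
    rcases Nat.eq_zero_or_pos n with h0 | h0
    · exfalso
      rw [h0] at hn
      exact hn ((site_nstep hs u).2 h2)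
    · exact h0
  refine ⟨(nstep phi al)^[n] u, ⟨hm n hn0 le_rfl, ?_⟩, n, rfl, hm⟩
  rw [Function.iterate_succ_apply'] at hn
  exact fun hc => hn ((site_nstep hs _).2 hc)

/-- A numbering of the darts leaving `A` which is cyclic with respect to the nodes, which are all
different, is a boundary cycle. -/
theorem PlaneD.bd_of_nodes [Fintype D] (h : PlaneD phi al) {A : D → Prop}
    (hs : ∀ d, A (phi d) ↔ A d) {n : ℕ}
    {δ : ZMod n → D} (hmem : ∀ d, (A d ∧ ¬ A (al d)) ↔ ∃ i, δ i = d)
    (hf : Function.Injective fun i => dnode phi al (δ i))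
    (hstep : ∀ i, dnode phi al (δ i) = dnode phi al (al (δ (i + 1)))) : BdD phi al A n δ := by
  refine ⟨hs, fun i j hij => hf (congrArg (dnode phi al) hij), hmem, fun i => ?_, fun i => ?_,
    hf⟩
  · have hi := (hmem (δ i)).2 ⟨i, rfl⟩
    obtain ⟨g, hg, k, hk, hm⟩ := h.walk_out hs (δ i) hi.1 hi.2
    obtain ⟨j, rfl⟩ := (hmem g).1 hg
    have h1 : dnode phi al (δ i) = dnode phi al (δ (j - 1)) := by
      rw [hstep (j - 1), sub_add_cancel, ← hk, iter_dnode]
    have h2 := hf h1
    have h3 : i + 1 = j := by rw [h2]; ring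
    rw [h3]
    exact ⟨k, hk, hm⟩
  · have hi := (hmem (δ (i + 1))).2 ⟨i + 1, rfl⟩
    obtain ⟨g, hg, k, hk, hm⟩ := h.walk_in (A := A) hs (al (δ (i + 1))) hi.2
      (by rw [h.inv]; exact hi.1)
    obtain ⟨j, rfl⟩ := (hmem g).1 hg
    have h1 : dnode phi al (δ j) = dnode phi al (δ i) := by
      rw [hstep i, ← hk, iter_dnode]
    have h2 := hf h1
    subst h2
    exact ⟨k, hk, hm⟩

/-- the boundary cycle of a connected set with connected complement -/
theorem PlaneD.exists_bd [Fintype D] (h : PlaneD phi al) {A : D → Prop}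
    (hs : ∀ d, A (phi d) ↔ A d)
    (hA : ConnOnD phi al A) (hA' : ConnOnD phi al fun x => ¬ A x) {n : ℕ}
    (hE : Nat.card {d : D // A d ∧ ¬ A (al d)} = n) (hn0 : n ≠ 0) :
    ∃ δ : ZMod n → D, BdD phi al A n δ := by
  classical
  have : NeZero n := ⟨hn0⟩
  let E := {d : D // A d ∧ ¬ A (al d)}
  have hex : ∀ d : E, ∃ g : E, ∃ n, (nstep phi al)^[n] d.1 = al g.1 ∧
      ∀ m, 0 < m → m ≤ n → ¬ A ((nstep phi al)^[m] d.1) := by
    rintro ⟨d, h1, h2⟩
    obtain ⟨g, hg, n, hn⟩ := h.walk_out hs d h1 h2
    exact ⟨⟨g, hg⟩, n, hn⟩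
  choose nxt hnxt using hex
  have hinj : Function.Injective nxt := by
    intro d d' hdd
    obtain ⟨n, hn, hm⟩ := hnxt d
    obtain ⟨n', hn', hm'⟩ := hnxt d'
    rw [hdd] at hn
    rcases le_total n n' with hle | hle
    · have h1 : (nstep phi al)^[n] d.1 = (nstep phi al)^[n] ((nstep phi al)^[n' - n] d'.1) := by
        rw [← Function.iterate_add_apply, Nat.add_sub_cancel' hle, hn, hn']
      have h2 := h.nstep_inj.iterate n h1
      rcases Nat.eq_zero_or_pos (n' - n) with h0 | h0
      · rw [h0] at h2
        exact Subtype.ext h2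
      · exact absurd (h2 ▸ d.2.1) (hm' _ h0 (Nat.sub_le _ _))
    · have h1 : (nstep phi al)^[n'] d'.1 = (nstep phi al)^[n'] ((nstep phi al)^[n - n'] d.1) := by
        rw [← Function.iterate_add_apply, Nat.add_sub_cancel' hle, hn, hn']
      have h2 := h.nstep_inj.iterate n' h1
      rcases Nat.eq_zero_or_pos (n - n') with h0 | h0
      · rw [h0] at h2
        exact (Subtype.ext h2).symm
      · exact absurd (h2 ▸ d'.2.1) (hm _ h0 (Nat.sub_le _ _))
  have hnf : ∀ d : E, dnode phi al (al (nxt d).1) = dnode phi al d.1 := by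
    intro d
    obtain ⟨n, hn, -⟩ := hnxt d
    rw [← hn, iter_dnode]
  have hnw : ∀ (w : D → ZMod 2), (∀ d, w (nstep phi al d) = w d) → ∀ d : E,
      w (al (nxt d).1) = w d.1 := fun w hw d => dnode_fun hw (hnf d)
  have hfin : Finite E := inferInstance
  obtain ⟨d0⟩ : Nonempty E := by
    by_contra hcon
    rw [not_nonempty_iff] at hcon
    have : Nat.card E = 0 := Nat.card_of_isEmpty
    exact hn0 (hE.symm.trans this)
  let e : ℕ → E := fun k => nxt^[k] d0
  have hes : ∀ k, nxt (e k) = e (k + 1) := fun k => by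
    show nxt (nxt^[k] d0) = nxt^[k + 1] d0
    rw [Function.iterate_succ_apply']
  -- the key lemma for intervals
  have hint : ∀ a m, 0 < m → Set.InjOn (fun k => e (a + 1 + k)) (Finset.range m : Finset ℕ) →
      (∀ w : D → ZMod 2, (∀ d, w (nstep phi al d) = w d) → w (e a).1 = w (e (a + m)).1) →
      n ≤ m := by
    intro a m hm hio hw
    have hio' : Set.InjOn (fun k => (e (a + 1 + k)).1) (Finset.range m : Finset ℕ) :=
      fun x hx y hy hxy => hio hx hy (Subtype.ext hxy)
    set J := (Finset.range m).image (fun k => (e (a + 1 + k)).1) with hJ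
    have hJc : J.card = m := by
      rw [hJ, Finset.card_image_of_injOn hio', Finset.card_range]
    have hJm : ∀ d ∈ J, A d ∧ ¬ A (al d) := by
      intro d hd
      obtain ⟨k, -, rfl⟩ := Finset.mem_image.1 hd
      exact (e (a + 1 + k)).2
    have hall := h.all_of_even hA hA' (J := J) hJm
      ⟨_, Finset.mem_image_of_mem _ (Finset.mem_range.2 hm)⟩ (by
        intro w hw'
        rw [hJ, Finset.sum_image hio', Finset.sum_image hio']
        have e1 : ∀ k, w (al (e (a + 1 + k)).1) = w (e (a + k)).1 := by
          intro k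
          rw [← hnw w hw' (e (a + k)), hes, show a + k + 1 = a + 1 + k by ring]
        simp only [e1]
        have e2 : ∀ n, ∑ k ∈ Finset.range n, w (e (a + 1 + k)).1 +
            ∑ k ∈ Finset.range n, w (e (a + k)).1 = w (e a).1 + w (e (a + n)).1 := by
          intro n
          induction n with
          | zero =>
            rw [Finset.sum_range_zero, Finset.sum_range_zero, add_zero, add_zero]
            exact (dcyc_char _).symm
          | succ n ih =>
            rw [Finset.sum_range_succ, Finset.sum_range_succ, add_add_add_comm, ih,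
              show a + 1 + n = a + (n + 1) by ring]
            have : w (e (a + n)).1 + w (e (a + n)).1 = 0 := dcyc_char _
            linear_combination this
        rw [e2, hw w hw']
        exact dcyc_char _)
    have hle : Nat.card E ≤ J.card := by
      have h1 : J.card = Nat.card {x // x ∈ J} := by simp
      rw [h1]
      exact Nat.card_le_card_of_injective
        (fun d : E => (⟨d.1, hall d.1 d.2.1 d.2.2⟩ : {x // x ∈ J}))
        (fun d d' hdd => Subtype.ext (congrArg (fun x : {x // x ∈ J} => x.1) hdd))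
    have hEn : Nat.card E = n := hE
    rw [hEn, hJc] at hle
    exact hle
  -- the period of `d0` is `n`
  obtain ⟨P, hP0, hP⟩ : ∃ P, 0 < P ∧ nxt^[P] d0 = d0 := by
    obtain ⟨P, hP0, hP⟩ := hinj.mem_periodicPts d0
    exact ⟨P, hP0, hP⟩
  have hper : ∀ m n, m < n → e m = e n → nxt^[n - m] d0 = d0 := by
    intro m n hmn hee
    have h1 : nxt^[m] d0 = nxt^[m] (nxt^[n - m] d0) := by
      rw [← Function.iterate_add_apply, Nat.add_sub_cancel' hmn.le]
      exact hee
    exact (hinj.iterate m h1).symm
  have hex : ∃ P, 0 < P ∧ nxt^[P] d0 = d0 := ⟨P, hP0, hP⟩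
  obtain ⟨hp0, hp⟩ := Nat.find_spec hex
  have hpmin : ∀ m, 0 < m → m < Nat.find hex → nxt^[m] d0 ≠ d0 := by
    intro m hm0 hm hmd
    exact Nat.find_min hex hm ⟨hm0, hmd⟩
  set p := Nat.find hex with hpdef
  have heinj : ∀ m n, m < n → n - m < p → e m ≠ e n := by
    intro m n hmn hlt hee
    exact hpmin (n - m) (by omega) hlt (hper m n hmn hee)
  have hio : ∀ a m, m ≤ p → Set.InjOn (fun k => e (a + 1 + k)) (Finset.range m : Finset ℕ) := by
    intro a m hm x hx y hy hxy
    simp only [Finset.coe_range, Set.mem_Iio] at hx hy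
    rcases lt_trichotomy x y with hlt | heq | hlt
    · exact absurd hxy (heinj _ _ (by omega) (by omega))
    · exact heq
    · exact absurd hxy.symm (heinj _ _ (by omega) (by omega))
  have hp4 : n ≤ p := hint 0 p hp0 (hio 0 p le_rfl) (fun w hw => by
    show w (nxt^[0] d0).1 = w (nxt^[0 + p] d0).1
    rw [zero_add, hp]; rfl)
  have hp4' : p ≤ n := by
    have hinj' : Function.Injective (fun k : Fin p => e k) := by
      intro x y hxy
      apply Fin.ext
      rcases lt_trichotomy (x : ℕ) y with hlt | heq | hlt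
      · exact absurd hxy (heinj _ _ hlt (by omega))
      · exact heq
      · exact absurd hxy.symm (heinj _ _ hlt (by omega))
    have h1 := Nat.card_le_card_of_injective _ hinj'
    have h2 : Nat.card E = n := hE
    rwa [h2, Nat.card_fin] at h1
  have hp' : p = n := le_antisymm hp4' hp4
  rw [hp'] at hp heinj hio
  have he4 : ∀ k, e (k + n) = e k := by
    intro k
    show nxt^[k + n] d0 = nxt^[k] d0
    rw [Function.iterate_add_apply, hp]
  have hez : ∀ k, e k = e ((k : ZMod n).val) := by
    intro k
    rw [ZMod.val_natCast]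
    induction k using Nat.strong_induction_on with
    | _ k ih =>
      rcases lt_or_ge k n with hk | hk
      · rw [Nat.mod_eq_of_lt hk]
      · have hnpos : 0 < n := Nat.pos_of_ne_zero hn0
        have h1 := ih (k - n) (by omega)
        rw [Nat.mod_eq_sub_mod hk, ← h1, ← he4 (k - n), Nat.sub_add_cancel hk]
  let δ : ZMod n → D := fun i => (e i.val).1
  have hδs : ∀ i : ZMod n, δ (i + 1) = (e (i.val + 1)).1 := by
    intro i
    show (e (i + 1).val).1 = _
    rw [hez (i.val + 1)]
    have : ((i.val + 1 : ℕ) : ZMod n) = i + 1 := by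
      rw [Nat.cast_add, ZMod.natCast_zmod_val, Nat.cast_one]
    rw [this]
  have hδinj : Function.Injective δ := by
    intro i j hij
    have hij' : e i.val = e j.val := Subtype.ext hij
    have hi := ZMod.val_lt i
    have hj := ZMod.val_lt j
    apply ZMod.val_injective
    rcases lt_trichotomy i.val j.val with hlt | heq | hlt
    · exact absurd hij' (heinj _ _ hlt (by omega))
    · exact heq
    · exact absurd hij'.symm (heinj _ _ hlt (by omega))
  have hδmem : ∀ d : D, (A d ∧ ¬ A (al d)) ↔ ∃ i, δ i = d := by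
    intro d
    constructor
    · intro hd
      have hbij : Function.Bijective (fun i : ZMod n => (e i.val : E)) := by
        have := Fintype.ofFinite E
        rw [Fintype.bijective_iff_injective_and_card]
        refine ⟨fun i j hij => hδinj (congrArg Subtype.val hij), ?_⟩
        rw [ZMod.card, ← Nat.card_eq_fintype_card]
        exact hE.symm
      obtain ⟨i, hi⟩ := hbij.2 ⟨d, hd⟩
      exact ⟨i, congrArg Subtype.val hi⟩
    · rintro ⟨i, rfl⟩
      exact (e i.val).2
  refine ⟨δ, h.bd_of_nodes hs hδmem ?_ ?_⟩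
  · intro i j hij
    by_contra hne
    have hlt : 0 < (j - i).val := by
      rcases Nat.eq_zero_or_pos (j - i).val with h0 | h0
      · exact absurd (sub_eq_zero.1 ((ZMod.val_eq_zero _).1 h0)).symm hne
      · exact h0
    have hlt4 := ZMod.val_lt (j - i)
    have := hint i.val (j - i).val hlt (hio _ _ hlt4.le) (fun w hw' => by
      have h1 : e (i.val + (j - i).val) = e j.val := by
        rw [hez (i.val + (j - i).val)]
        congr 1
        push_cast
        rw [ZMod.natCast_zmod_val, ZMod.natCast_zmod_val]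
        ring_nf
      rw [h1]
      exact dnode_fun hw' hij)
    omega
  · intro i
    rw [hδs, ← hes, hnf]

/-! ### consequences -/

variable {A : D → Prop} {n : ℕ} {δ : ZMod n → D}

theorem BdD.step (h : BdD phi al A n δ) (i : ZMod n) : dnode phi al (δ i) = dnode phi al (al (δ (i + 1))) := by
  obtain ⟨k, hk, -⟩ := h.outw i
  rw [← hk, iter_dnode]

theorem BdD.shift (h : BdD phi al A n δ) (c : ZMod n) : BdD phi al A n (fun i => δ (i + c)) := by
  refine ⟨h.site, fun i j hij => add_right_cancel (h.inj hij), fun d => ?_, fun i => ?_,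
    fun i => ?_, fun i j hij => add_right_cancel (h.nodes hij)⟩
  · rw [h.mem d]
    constructor
    · rintro ⟨i, rfl⟩
      exact ⟨i - c, by simp only [sub_add_cancel]⟩
    · rintro ⟨i, rfl⟩
      exact ⟨i + c, rfl⟩
  · have := h.outw (i + c)
    rwa [add_right_comm] at this
  · have := h.inw (i + c)
    rwa [add_right_comm] at this

theorem BdD.compl (hi : ∀ d, al (al d) = d) (h : BdD phi al A n δ) (c : ZMod n) :
    BdD phi al (fun x => ¬ A x) n (fun i => al (δ (c - i))) := by
  have hali : Function.Injective al := fun x y hxy => by rw [← hi x, hxy, hi]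
  refine ⟨fun d => not_congr (h.site d), fun i j hij => ?_, fun d => ?_, fun i => ?_,
    fun i => ?_, fun i j hij => ?_⟩
  · have := h.inj (hali hij)
    exact sub_right_injective this
  · rw [not_not]
    have h1 := h.mem (al d)
    rw [hi] at h1
    rw [and_comm, h1]
    constructor
    · rintro ⟨i, hid⟩
      exact ⟨c - i, by simp only [sub_sub_cancel]; rw [hid, hi]⟩
    · rintro ⟨i, hid⟩
      exact ⟨c - i, by rw [← hid, hi]⟩
  · obtain ⟨n, hn, hm⟩ := h.inw (c - (i + 1))
    have e1 : c - (i + 1) + 1 = c - i := by ring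
    rw [e1] at hn hm
    refine ⟨n, ?_, fun m hm0 hmn => ?_⟩
    · show (nstep phi al)^[n] (al (δ (c - i))) = al (al (δ (c - (i + 1))))
      rw [hn, hi]
    · rw [not_not]
      exact hm m hm0 hmn
  · obtain ⟨n, hn, hm⟩ := h.outw (c - (i + 1))
    have e1 : c - (i + 1) + 1 = c - i := by ring
    rw [e1] at hn
    refine ⟨n, ?_, fun m hm0 hmn => ?_⟩
    · show (nstep phi al)^[n] (al (al (δ (c - (i + 1))))) = al (δ (c - i))
      rw [hi, hn]
    · show ¬ A ((nstep phi al)^[m] (al (al (δ (c - (i + 1))))))
      rw [hi]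
      exact hm m hm0 hmn
  · have h1 := h.step (c - i - 1)
    have h2 := h.step (c - j - 1)
    rw [sub_add_cancel] at h1 h2
    have h3 := h.nodes (h1.trans (hij.trans h2.symm))
    have h4 : c - i = c - j := by linear_combination h3
    exact sub_right_injective h4

theorem BdD.card [NeZero n] (h : BdD phi al A n δ) :
    Nat.card {d : D // A d ∧ ¬ A (al d)} = n := by
  have hb : Function.Bijective (fun i : ZMod n =>
      (⟨δ i, (h.mem _).2 ⟨i, rfl⟩⟩ : {d : D // A d ∧ ¬ A (al d)})) := by
    refine ⟨fun i j hij => h.inj (congrArg Subtype.val hij), ?_⟩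
    rintro ⟨d, hd⟩
    obtain ⟨i, hi⟩ := (h.mem d).1 hd
    exact ⟨i, Subtype.ext hi⟩
  have := Nat.card_congr (Equiv.ofBijective _ hb)
  rw [Nat.card_eq_fintype_card, ZMod.card] at this
  exact this.symm

/-- a set with a boundary cycle is connected -/
theorem BdD.connOn [Fintype D] [NeZero n] (hP : PlaneD phi al) (h : BdD phi al A n δ) :
    ConnOnD phi al A := by
  rintro M hMp hM ⟨x, hx, hxM⟩ y hy
  have hi := hP.inv
  have hM' : ∀ d : D, A d → A (al d) → (M (al d) ↔ M d) := by
    intro d h1 h2
    refine ⟨fun h3 => ?_, hM d h1 h2⟩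
    have := hM (al d) h2 (by rw [hi]; exact h1) h3
    rwa [hi] at this
  have hMs : ∀ d : D, A d → (M (phi d) ↔ M d) := by
    intro d h1
    refine ⟨fun h3 => ?_, hMp d h1⟩
    exact site_back (M := M) h.site (fun e he => hMp e he) d h1 h3
  -- the ends of the boundary darts are joined inside `A`
  have hstep : ∀ i, M (δ (i + 1)) ↔ M (δ i) := by
    intro i
    obtain ⟨k, hk, hm⟩ := h.inw i
    have h0 := (h.mem (δ (i + 1))).2 ⟨_, rfl⟩
    have h1 := (h.mem (δ i)).2 ⟨_, rfl⟩
    have hk0 : 0 < k := by
      rcases Nat.eq_zero_or_pos k with h2 | h2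
      · rw [h2] at hk
        have h3 : al (δ (i + 1)) = δ i := hk
        exact absurd (h3 ▸ h1.1) h0.2
      · exact h2
    have hMn : ∀ d, A (al d) → (M (nstep phi al d) ↔ M (al d)) := by
      intro d hd
      have h3 : A (nstep phi al d) := (site_nstep h.site d).2 hd
      rw [← hMs _ h3, nstep, Equiv.apply_symm_apply]
    have key : ∀ m, 0 < m → m ≤ k →
        (M ((nstep phi al)^[m] (al (δ (i + 1)))) ↔ M (δ (i + 1))) := by
      intro m
      induction m with
      | zero => intro h2; exact absurd h2 (lt_irrefl _)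
      | succ m ih =>
        intro _ h3
        rcases Nat.eq_zero_or_pos m with h4 | h4
        · subst h4
          show M (nstep phi al (al (δ (i + 1)))) ↔ _
          rw [hMn _ (by rw [hi]; exact h0.1), hi]
        · have h5 := hm (m + 1) (by omega) h3
          rw [Function.iterate_succ_apply', site_nstep h.site] at h5
          rw [← ih h4 (by omega), Function.iterate_succ_apply', hMn _ h5]
          exact hM' _ (hm m h4 (by omega)) h5
    have := key k hk0 le_rfl
    rw [hk] at this
    exact this.symm
  have hall := zmod_all (P := fun i => M (δ i)) hstep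
  by_contra hyM
  by_cases h0 : M (δ 0)
  · -- the rest of `A` has no leaving darts
    have hno := hP.conn (fun z => A z ∧ ¬ M z) (by
      rintro d ⟨hd, hdM⟩
      exact ⟨(h.site d).2 hd, fun h2 => hdM ((hMs d hd).1 h2)⟩) (by
      rintro d ⟨hd, hdM⟩
      have h1 : A (al d) := by
        by_contra h2
        obtain ⟨i, rfl⟩ := (h.mem d).1 ⟨hd, h2⟩
        exact hdM ((hall i 0).2 h0)
      exact ⟨h1, fun h2 => hdM ((hM' d hd h1).1 h2)⟩) ⟨y, hy, hyM⟩ (δ 0)
    exact hno.2 h0
  · have hno := hP.conn (fun z => A z ∧ M z) (by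
      rintro d ⟨hd, hdM⟩
      exact ⟨(h.site d).2 hd, (hMs d hd).2 hdM⟩) (by
      rintro d ⟨hd, hdM⟩
      have h1 : A (al d) := by
        by_contra h2
        obtain ⟨i, rfl⟩ := (h.mem d).1 ⟨hd, h2⟩
        exact h0 ((hall i 0).1 hdM)
      exact ⟨h1, (hM' d hd h1).2 hdM⟩) ⟨x, hx, hxM⟩ (δ 0)
    exact h0 hno.2

/-- **Jordan theorem.** A closed walk around nodes which crosses the darts `d i`, from the node to the
left of `d i` to the node to the left of `d (i + 1)`, all these nodes different, is the boundary cycle of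
a set of crossings. -/
theorem PlaneD.jordan [Fintype D] (h : PlaneD phi al) {n : ℕ} [NeZero n]
    {d : ZMod n → D} (hstep : ∀ i, dnode phi al (d i) = dnode phi al (al (d (i + 1))))
    (hf : Function.Injective fun i => dnode phi al (d i)) (hne : ∀ i j, d i ≠ al (d j)) :
    ∃ A : D → Prop, BdD phi al A n d := by
  classical
  have hinj : Function.Injective d := fun i j hij => hf (congrArg (dnode phi al) hij)
  set J := Finset.univ.image d with hJ
  have hJm : ∀ e, e ∈ J ↔ ∃ i, d i = e := by
    intro e
    simp [hJ]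
  have hJa : ∀ e, e ∈ J → al e ∉ J := by
    intro e he he'
    obtain ⟨i, rfl⟩ := (hJm _).1 he
    obtain ⟨j, hj⟩ := (hJm _).1 he'
    exact hne j i hj
  obtain ⟨p, hpp, hp⟩ := h.cut_of_even (J := J) (by
    intro w hw
    rw [hJ, Finset.sum_image (fun i _ j _ hij => hinj hij), Finset.sum_image
      (fun i _ j _ hij => hinj hij)]
    have e1 : ∑ i, w (al (d i)) = ∑ i, w (al (d (i + 1))) :=
      (Fintype.sum_equiv (Equiv.addRight (1 : ZMod n)) _ _ fun i => rfl).symm
    rw [e1, ← Finset.sum_add_distrib]
    refine Finset.sum_eq_zero fun i _ => ?_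
    rw [← dnode_fun hw (hstep i)]
    exact dcyc_char _)
  have hdiff : ∀ i, p (d i) = p (al (d i)) + 1 := by
    intro i
    have h1 := hp (d i)
    rw [if_pos ((hJm _).2 ⟨i, rfl⟩), if_neg (hJa _ ((hJm _).2 ⟨i, rfl⟩))] at h1
    have key : ∀ a b : ZMod 2, 1 + 0 = a + b → a = b + 1 := by decide
    exact key _ _ h1
  have hsame : ∀ e, e ∉ J → al e ∉ J → p (al e) = p e := by
    intro e h1 h2
    have := hp e
    rw [if_neg h1, if_neg h2] at this
    have key : ∀ a b : ZMod 2, 0 + 0 = a + b → b = a := by decide
    exact key _ _ this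
  -- all `d i` start on the same side
  have hside : ∀ i, p (d (i + 1)) = p (d i) := by
    intro i
    have hex : ∃ k, (nstep phi al)^[k] (d i) = al (d (i + 1)) := by
      have h1 : Relation.EqvGen (fun a b => nstep phi al a = b) (d i) (al (d (i + 1))) :=
        Quot.eqvGen_exact (hstep i)
      have h2 : ∀ a b, Relation.EqvGen (fun a b => nstep phi al a = b) a b →
          (⟨nstep phi al, Finite.injective_iff_bijective.1 h.nstep_inj⟩ :
            {f : D → D // Function.Bijective f}).1 = nstep phi al →
          ∃ k, (nstep phi al)^[k] a = b := by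
        intro a b hab _
        have hsurj : ∀ a, ∃ k, 0 < k ∧ (nstep phi al)^[k] a = a := by
          intro a
          obtain ⟨N, hN, hN'⟩ := h.nstep_inj.mem_periodicPts a
          exact ⟨N, hN, hN'⟩
        have hback : ∀ a b, (∃ k, (nstep phi al)^[k] a = b) → ∃ k, (nstep phi al)^[k] b = a := by
          rintro a _ ⟨k, rfl⟩
          obtain ⟨N, hN, hN'⟩ := hsurj a
          refine ⟨N * k - k, ?_⟩
          rw [← Function.iterate_add_apply]
          have hNk : N * k - k + k = k * N := by
            rw [Nat.sub_add_cancel (Nat.le_mul_of_pos_left k hN), Nat.mul_comm]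
          rw [hNk]
          clear hNk
          induction k with
          | zero => rw [Nat.zero_mul]; rfl
          | succ k ih => rw [Nat.succ_mul, Function.iterate_add_apply, hN', ih]
        induction hab with
        | rel a b hab => exact ⟨1, hab⟩
        | refl a => exact ⟨0, rfl⟩
        | symm a b _ ih => exact hback _ _ ih
        | trans a b c _ _ ih1 ih2 =>
          obtain ⟨k, rfl⟩ := ih1
          obtain ⟨l, rfl⟩ := ih2
          exact ⟨l + k, by rw [Function.iterate_add_apply]⟩
      exact h2 _ _ h1 rfl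
    have hk := Nat.find_spec hex
    have hmin : ∀ m, m < Nat.find hex → (nstep phi al)^[m] (d i) ≠ al (d (i + 1)) :=
      fun m hm => Nat.find_min hex hm
    set k := Nat.find hex with hkdef
    have hk0 : 0 < k := by
      rcases Nat.eq_zero_or_pos k with h2 | h2
      · rw [h2] at hk
        exact absurd hk (hne _ _)
      · exact h2
    have hpn : ∀ e, p (nstep phi al e) = p (al e) := by
      intro e
      rw [← hpp (nstep phi al e), nstep, Equiv.apply_symm_apply]
    have key : ∀ m, 0 < m → m ≤ k → p ((nstep phi al)^[m] (d i)) = p (al (d i)) := by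
      intro m
      induction m with
      | zero => intro h2; exact absurd h2 (lt_irrefl _)
      | succ m ih =>
        intro _ h3
        rcases Nat.eq_zero_or_pos m with h4 | h4
        · subst h4
          exact hpn _
        · rw [← ih h4 (by omega), Function.iterate_succ_apply', hpn]
          refine hsame _ (fun hc => ?_) (fun hc => ?_)
          · obtain ⟨j, hj⟩ := (hJm _).1 hc
            have h5 : dnode phi al (d j) = dnode phi al (d i) := by rw [hj, iter_dnode]
            have h6 := hf h5
            subst h6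
            refine hmin (k - m) (by omega) ?_
            have h7 : (nstep phi al)^[k - m] ((nstep phi al)^[m] (d j)) = al (d (j + 1)) := by
              rw [← Function.iterate_add_apply, Nat.sub_add_cancel (by omega)]
              exact hk
            rwa [← hj] at h7
          · obtain ⟨j, hj⟩ := (hJm _).1 hc
            have h5 : (nstep phi al)^[m] (d i) = al (d j) := by rw [hj, h.inv]
            have h6 : dnode phi al (d (j - 1)) = dnode phi al (d i) := by
              rw [hstep (j - 1), sub_add_cancel, ← h5, iter_dnode]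
            have h7 := hf h6
            have h8 : j = i + 1 := by rw [← h7]; ring
            rw [h8] at h5
            exact hmin m (by omega) h5
    have h9 := key k hk0 le_rfl
    rw [hk] at h9
    rw [hdiff (i + 1), h9, ← hdiff i]
  have hall : ∀ i, p (d i) = p (d 0) := by
    intro i
    have := zmod_all (P := fun i => p (d i) = p (d 0)) (fun i => by rw [hside i]) i 0
    exact this.2 rfl
  refine ⟨fun x => p x = p (d 0), h.bd_of_nodes (fun e => by rw [hpp]) (fun e => ?_) hf hstep⟩
  constructor
  · rintro ⟨h1, h2⟩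
    by_contra h3
    have h4 : e ∉ J := fun hc => h3 ((hJm _).1 hc)
    by_cases h5 : al e ∈ J
    · obtain ⟨j, hj⟩ := (hJm _).1 h5
      apply h2
      show p (al e) = p (d 0)
      rw [← hj]
      exact hall j
    · apply h2
      show p (al e) = p (d 0)
      rw [hsame e h4 h5]
      exact h1
  · rintro ⟨i, rfl⟩
    refine ⟨hall i, fun h1 => ?_⟩
    have h2 := hdiff i
    change p (al (d i)) = p (d 0) at h1
    rw [hall i, h1] at h2
    have key : ∀ a : ZMod 2, a ≠ a + 1 := by decide
    exact key _ h2


end

end GT33
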