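import Pool.Agent.GT33.DSmooth

/-!
# GT33 module DEDGE: deleting edges of a dart map

`E` is an `al`-invariant set of darts.  Deleting `E` merges the two nodes of each edge of `E` (in the
quadrangulation with the dual map: the edges of `E` are contracted).
-/

namespace GT33

variable {D : Type}

/-- `E` is a set of edges -/
def EdgeSet (al : D → D) (E : D → Prop) : Prop := ∀ d, E d → E (al d)

/-- the edges of the map without `E` -/
def alE {al : D → D} {E : D → Prop} (hi : ∀ d, al (al d) = d) (hE : EdgeSet al E)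
    (d : {d // ¬ E d}) : {d // ¬ E d} :=
  ⟨al d.1, fun h => d.2 (by have := hE _ h; rwa [hi] at this)⟩

/-- sectors which are in the same node after deleting `E` -/
def JoinedE (phi : Equiv.Perm D) (al : D → D) (E : D → Prop) : D → D → Prop :=
  Relation.EqvGen fun a b => b = nstep phi al a ∨ (E (phi a) ∧ b = phi a)

section

variable {phi : Equiv.Perm D} {al : D → D} {E : D → Prop}

theorem JoinedE.nstep (d : D) : JoinedE phi al E d (nstep phi al d) :=
  Relation.EqvGen.rel _ _ (Or.inl rfl)

theorem JoinedE.trans {a b c : D} (h : JoinedE phi al E a b) (h' : JoinedE phi al E b c) :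
    JoinedE phi al E a c := Relation.EqvGen.trans _ _ _ h h'

theorem JoinedE.symm {a b : D} (h : JoinedE phi al E a b) : JoinedE phi al E b a :=
  Relation.EqvGen.symm _ _ h

theorem JoinedE.del {d : D} (h : E d) : JoinedE phi al E (phi.symm d) d :=
  Relation.EqvGen.rel _ _ (Or.inr ⟨by rw [Equiv.apply_symm_apply]; exact h, by
    rw [Equiv.apply_symm_apply]⟩)

theorem Ret.joinedE {d e : D} (h : Ret phi (fun d => ¬ E d) d e) :
    JoinedE phi al E d (phi.symm e) := by
  induction h with
  | last h => rw [Equiv.symm_apply_apply]; exact Relation.EqvGen.refl _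
  | @step d e h1 h2 ih =>
    have h3 : JoinedE phi al E (phi.symm (phi d)) (phi d) := JoinedE.del (not_not.1 h1)
    rw [Equiv.symm_apply_apply] at h3
    exact h3.trans ih

theorem Ret.constE {d e : D} (h : Ret phi (fun d => ¬ E d) d e) {W : D → ZMod 2}
    (hW : ∀ d, E d → W d = W (phi.symm d)) : W d = W (phi.symm e) := by
  induction h with
  | last h => rw [Equiv.symm_apply_apply]
  | @step d e h1 h2 ih =>
    have h3 := hW _ (not_not.1 h1)
    rw [Equiv.symm_apply_apply] at h3
    rw [← h3, ih]

variable (hi : ∀ d, al (al d) = d) (hE : EdgeSet al E)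

theorem alE_alE (d : {d // ¬ E d}) : alE hi hE (alE hi hE d) = d :=
  Subtype.ext (hi d.1)

theorem nstepE_joined [Finite D] (d : {d // ¬ E d}) :
    JoinedE phi al E d.1 (nstep (phiR phi E) (alE hi hE) d).1 := by
  have h2 := (phiR_symm_spec phi E (alE hi hE d)).joinedE (al := al)
  exact (JoinedE.nstep d.1).trans h2.symm

theorem joinedE_of_dnodeE [Finite D] {d e : {d // ¬ E d}}
    (h : dnode (phiR phi E) (alE hi hE) d = dnode (phiR phi E) (alE hi hE) e) :
    JoinedE phi al E d.1 e.1 := by
  rw [dnode_eq_iff] at h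
  induction h with
  | rel a b hab => subst hab; exact nstepE_joined hi hE a
  | refl a => exact Relation.EqvGen.refl _
  | symm a b _ ih => exact ih.symm
  | trans a b c _ _ ih1 ih2 => exact ih1.trans ih2

theorem joinedE_const {W : D → ZMod 2} (hW : ∀ d, W (nstep phi al d) = W d)
    (hW' : ∀ d, E d → W d = W (phi.symm d)) {d e : D} (h : JoinedE phi al E d e) : W d = W e := by
  induction h with
  | rel a b hab =>
    rcases hab with rfl | ⟨h1, rfl⟩
    · exact (hW a).symm
    · have := hW' _ h1
      rw [Equiv.symm_apply_apply] at this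
      exact this.symm
  | refl a => rfl
  | symm a b _ ih => exact ih.symm
  | trans a b c _ _ ih1 ih2 => exact ih1.trans ih2

open Classical in
theorem sum_orbE [Fintype D] [Fintype {d // ¬ E d}] {c : D → ZMod 2} (hc : ∀ d, E d → c d = 0)
    (d : {d // ¬ E d}) : ∑ e ∈ orb phi d.1, c e = ∑ e ∈ orb (phiR phi E) d, c e.1 := by
  rw [← Finset.sum_filter_add_sum_filter_not (orb phi d.1) (fun e => E e)]
  have h1 : ∑ e ∈ (orb phi d.1).filter (fun e => E e), c e = 0 :=
    Finset.sum_eq_zero fun e he => hc e (Finset.mem_filter.1 he).2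
  rw [h1, zero_add]
  refine (Finset.sum_bij (fun (e : {d // ¬ E d}) _ => e.1) ?_ ?_ ?_ ?_).symm
  · intro e he
    rw [mem_orb] at he
    rw [Finset.mem_filter, mem_orb]
    exact ⟨(retPerm_sameCycle phi _ d e).1 he, e.2⟩
  · intro e _ e' _ h
    exact Subtype.ext h
  · intro e he
    rw [Finset.mem_filter, mem_orb] at he
    exact ⟨⟨e, he.2⟩, by rw [mem_orb]; exact (retPerm_sameCycle phi _ d ⟨e, he.2⟩).2 he.1, rfl⟩
  · intro e _
    rfl

open Classical in
/-- a function on the remaining darts, extended by `0` -/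
noncomputable def extE (E : D → Prop) (c : {d // ¬ E d} → ZMod 2) (d : D) : ZMod 2 :=
  if h : ¬ E d then c ⟨d, h⟩ else 0

theorem extE_coe (c : {d // ¬ E d} → ZMod 2) (d : {d // ¬ E d}) : extE E c d.1 = c d := by
  unfold extE
  rw [dif_pos d.2]

theorem extE_zero (c : {d // ¬ E d} → ZMod 2) {d : D} (h : E d) : extE E c d = 0 := by
  unfold extE
  rw [dif_neg (not_not.2 h)]

theorem extE_al {c : {d // ¬ E d} → ZMod 2} (hc : ∀ d, c (alE hi hE d) = c d) (d : D) :
    extE E c (al d) = extE E c d := by
  by_cases h : E d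
  · rw [extE_zero c h, extE_zero c (hE d h)]
  · have h' : ¬ E (al d) := fun h' => h (by have := hE _ h'; rwa [hi] at this)
    have e1 : extE E c d = c ⟨d, h⟩ := extE_coe c ⟨d, h⟩
    have e2 : extE E c (al d) = c ⟨al d, h'⟩ := extE_coe c ⟨al d, h'⟩
    rw [e1, e2, ← hc ⟨d, h⟩]
    rfl

theorem sum_orb_extE [Fintype D] [Fintype {d // ¬ E d}] {c : {d // ¬ E d} → ZMod 2}
    (hv : ∀ d, ∑ e ∈ orb (phiR phi E) d, c e = 0) (d : D) :
    ∑ e ∈ orb phi d, extE E c e = 0 := by
  by_cases h : ∃ e, phi.SameCycle d e ∧ ¬ E e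
  · obtain ⟨e, he, heR⟩ := h
    have e1 : orb phi d = orb phi e := by
      ext x
      rw [mem_orb, mem_orb]
      exact ⟨fun h => he.symm.trans h, fun h => he.trans h⟩
    rw [e1, sum_orbE (fun r hr => extE_zero c hr) (⟨e, heR⟩ : {d // ¬ E d}), ← hv ⟨e, heR⟩]
    exact Finset.sum_congr rfl fun x _ => extE_coe c x
  · refine Finset.sum_eq_zero fun e he => extE_zero c ?_
    by_contra hR
    exact h ⟨e, mem_orb.1 he, hR⟩

theorem DHom.del [Fintype D] [Fintype {d // ¬ E d}] (h : DHom phi al) :
    DHom (phiR phi E) (alE hi hE) := by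
  intro c hc hv
  obtain ⟨W, h1, h2⟩ := h (extE E c) (extE_al hi hE hc) (sum_orb_extE hv)
  have hz : ∀ x y : ZMod 2, x + y = 0 → x = y := by decide
  have h3 : ∀ d, E d → W d = W (phi.symm d) := fun d hd => hz _ _ (by rw [h2, extE_zero c hd])
  refine ⟨fun d => W d.1, fun d => ?_, fun d => ?_⟩
  · exact (joinedE_const h1 h3 (nstepE_joined hi hE d)).symm
  · show W d.1 + W ((phiR phi E).symm d).1 = c d
    have h4 := (phiR_symm_spec phi E d).constE h3
    rw [h4, h2, extE_coe]

/-- Joined sectors are in the same node of the new map: here planarity is used. -/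
theorem dnodeE_of_joinedE [Fintype D] [Fintype {d // ¬ E d}] (h : DHom phi al)
    (hc : DConn (phiR phi E) (alE hi hE)) {d e : {d // ¬ E d}}
    (hde : JoinedE phi al E d.1 e.1) :
    dnode (phiR phi E) (alE hi hE) d = dnode (phiR phi E) (alE hi hE) e := by
  classical
  set psi := phiR phi E with hpsi
  set be := alE hi hE with hbe
  set w : {d // ¬ E d} → ZMod 2 := fun a => if dnode psi be a = dnode psi be d then 1 else 0 with hw
  have hwf : ∀ a, w (nstep psi be a) = w a := by
    intro a
    have : dnode psi be (nstep psi be a) = dnode psi be a := iter_dnode 1 a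
    simp only [hw, this]
  have hss : ∀ a, be (be a) = a := alE_alE hi hE
  have hcc : ∀ a, (fun a => w a + w (psi.symm a)) (be a) = (fun a => w a + w (psi.symm a)) a := by
    intro a
    show w (be a) + w (psi.symm (be a)) = w a + w (psi.symm a)
    rw [w_symm hss hwf, w_symm hss hwf, hss, add_comm]
  have hsum : ∀ v, ∑ a ∈ orb psi v, (w a + w (psi.symm a)) = 0 := by
    intro v
    rw [Finset.sum_add_distrib]
    have e1 : ∑ a ∈ orb psi v, w (psi.symm a) = ∑ a ∈ orb psi v, w a := by
      refine Finset.sum_bij (fun a _ => psi.symm a) ?_ ?_ ?_ ?_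
      · intro a ha
        rw [mem_orb] at ha ⊢
        exact ha.trans ⟨-1, by simp⟩
      · intro a _ b _ hab
        exact psi.symm.injective hab
      · intro a ha
        rw [mem_orb] at ha
        exact ⟨psi a, by rw [mem_orb]; exact ha.trans ⟨1, by simp⟩, by
          rw [Equiv.symm_apply_apply]⟩
      · intro a _
        rfl
    rw [e1]
    have : ∀ x : ZMod 2, x + x = 0 := by decide
    exact this _
  obtain ⟨W, h1, h2⟩ := h (extE E fun a => w a + w (psi.symm a))
    (extE_al hi hE hcc) (sum_orb_extE hsum)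
  have hz : ∀ x y : ZMod 2, x + y = 0 → x = y := by decide
  have h3 : ∀ d, E d → W d = W (phi.symm d) := fun d hd => hz _ _ (by rw [h2, extE_zero _ hd])
  have hWc : ∀ {a b : D}, JoinedE phi al E a b → W a = W b := fun hab => joinedE_const h1 h3 hab
  have hstep : ∀ a : {d // ¬ E d}, w (psi.symm a) + W (psi.symm a).1 = w a + W a.1 := by
    intro a
    have h4 := (phiR_symm_spec phi E a).constE h3
    have h5 := h2 a.1
    rw [extE_coe] at h5
    show w (psi.symm a) + W ((phiR phi E).symm a).1 = w a + W a.1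
    rw [h4]
    have key : ∀ p q r s : ZMod 2, p + q = r + s → s + q = r + p := by decide
    exact key _ _ _ _ h5
  have hstep' : ∀ a : {d // ¬ E d}, w (psi a) + W (psi a).1 = w a + W a.1 := by
    intro a
    have := hstep (psi a)
    rw [Equiv.symm_apply_apply] at this
    exact this.symm
  have hnode : ∀ a : {d // ¬ E d}, w (nstep psi be a) + W (nstep psi be a).1 = w a + W a.1 := by
    intro a
    rw [hwf, ← hWc (nstepE_joined hi hE a)]
  have hall : ∀ a : {d // ¬ E d}, w a + W a.1 = w d + W d.1 := by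
    refine hc (fun a => w a + W a.1 = w d + W d.1) (fun a ha => ?_) (fun a ha => ?_) ⟨d, rfl⟩
    · rw [hstep', ha]
    · have := hnode a
      rw [nstep, hstep] at this
      rw [this, ha]
  have h4 := hall e
  rw [← hWc hde] at h4
  have h5 : w e = w d := by
    have key : ∀ p q r : ZMod 2, p + q = r + q → p = r := by decide
    exact key _ _ _ h4
  have h6 : w d = 1 := by simp [hw]
  rw [h6] at h5
  by_contra hne
  have : w e = 0 := by
    simp only [hw]
    rw [if_neg (fun h => hne h.symm)]
  rw [this] at h5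
  exact absurd h5 (by decide)

theorem dnodeE_iff [Fintype D] [Fintype {d // ¬ E d}] (h : DHom phi al)
    (hc : DConn (phiR phi E) (alE hi hE)) {d e : {d // ¬ E d}} :
    dnode (phiR phi E) (alE hi hE) d = dnode (phiR phi E) (alE hi hE) e ↔
      JoinedE phi al E d.1 e.1 :=
  ⟨joinedE_of_dnodeE hi hE, dnodeE_of_joinedE hi hE h hc⟩

theorem PlaneD.del [Fintype D] [Fintype {d // ¬ E d}] (h : PlaneD phi al)
    (hE : EdgeSet al E) (hc : DConn (phiR phi E) (alE h.inv hE)) :
    PlaneD (phiR phi E) (alE h.inv hE) where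
  inv := alE_alE h.inv hE
  ne := fun d hd => h.ne d.1 (congrArg Subtype.val hd)
  hom := DHom.del h.inv hE h.hom
  conn := hc

/-- cuts after deleting edges -/
theorem dcut_del [Finite D] (A : D → Prop) :
    dcut al A = dcut (alE hi hE) (fun d => A d.1) + Nat.card {d // E d ∧ A d ∧ ¬ A (al d)} := by
  classical
  have : Fintype D := Fintype.ofFinite D
  have e1 : dcut (alE hi hE) (fun d => A d.1) = Nat.card {d : D // ¬ E d ∧ A d ∧ ¬ A (al d)} := by
    refine Nat.card_congr ⟨fun d => ⟨d.1.1, d.1.2, d.2⟩, fun d => ⟨⟨d.1, d.2.1⟩, d.2.2⟩, ?_, ?_⟩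
    · intro d; rfl
    · intro d; rfl
  rw [e1, dcut]
  simp only [Nat.card_eq_fintype_card, Fintype.card_subtype]
  rw [← Finset.card_filter_add_card_filter_not (s := Finset.univ.filter fun d =>
    A d ∧ ¬ A (al d)) (fun d => ¬ E d)]
  congr 1
  · congr 1
    ext d
    simp only [Finset.mem_filter, Finset.mem_univ, true_and]
    tauto
  · congr 1
    ext d
    simp only [Finset.mem_filter, Finset.mem_univ, true_and, not_not]
    tauto

end

end GT33
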