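import Pool.Agent.GT33.DMin

/-!
# GT33 module DRING: the ring of a patch

The ring nodes `N i` = node of `δ i`, `i : ZMod 6`.  The ring edge `i` (dart `δ i`) joins `N (i - 1)` and `N i`; its
face is the site of `δ i`, with the sectors `δ i` in `N i` and `nx.symm (δ i)` in `N (i - 1)`.

`ring_exact`: if the units of the ring add up to six and every edge of every face has at least one unit at
its ends, and if there are no corners (faces with two consecutive ring edges), then the face of the ring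
edge `i` gives exactly one unit to its ring edge, and all other sectors at the ring have no units.
-/

open Classical

namespace GT33

namespace DMap

namespace Patch

variable {D : Type} {M : DMap D} {A : D → Prop} {δ : ZMod 6 → D}

/-- `d` is a sector of a ring node -/
def Ring (M : DMap D) (δ : ZMod 6 → D) (d : D) : Prop := ∃ i, M.SameNode (δ i) d

theorem inA (hP : M.Patch A δ) (i : ZMod 6) : A (δ i) := bd_mem hP.bd i

theorem notA (hP : M.Patch A δ) (i : ZMod 6) : ¬ A (M.al (δ i)) := bd_al hP.bd i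

theorem fs_node (d : D) : M.SameNode d (M.fs d) := ⟨1, by simp⟩

theorem nx_symm_node (d : D) : M.SameNode (M.al d) (M.nx.symm d) := ⟨1, by
  rw [zpow_one, fs_def, M.inv]⟩

/-- the root sector of the ring node `i` -/
theorem root_node [Finite D] (hP : M.Patch A δ) (i : ZMod 6) :
    M.SameNode (δ i) (M.al (δ (i + 1))) := sameNode_iff.2 (hP.bd.step i)

/-- two sectors of the root in one node are equal -/
theorem root_inj [Finite D] (hP : M.Patch A δ) {d e : D} (hd : ¬ A d) (he : ¬ A e)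
    (h : M.SameNode d e) : d = e := by
  obtain ⟨r, hr⟩ := hP.root
  exact hP.legal.node_inj (((hr d).1 hd).symm.trans ((hr e).1 he)) h

/-- the order of the darts of the root -/
theorem fs_δ [Finite D] (hP : M.Patch A δ) (i : ZMod 6) : M.fs (δ i) = M.al (δ (i + 1)) := by
  refine hP.root_inj ?_ (hP.notA _) ((fs_node _).symm.trans (hP.root_node i))
  rw [sites_fs (M := M) hP.sites]
  exact hP.notA i

theorem root_nx [Finite D] (hP : M.Patch A δ) (i : ZMod 6) :
    M.nx (M.al (δ (i + 1))) = M.al (δ i) := by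
  rw [← hP.fs_δ, nx_fs]

/-- the other end of the ring edge -/
theorem prev_node [Finite D] (hP : M.Patch A δ) (i : ZMod 6) :
    M.SameNode (δ i) (M.nx.symm (δ (i + 1))) := (hP.root_node i).trans (nx_symm_node _)

theorem ring_δ (i : ZMod 6) : Ring M δ (δ i) := ⟨i, Equiv.Perm.SameCycle.refl _ _⟩

theorem ring_prev [Finite D] (hP : M.Patch A δ) (i : ZMod 6) : Ring M δ (M.nx.symm (δ i)) := by
  refine ⟨i - 1, ?_⟩
  have := hP.prev_node (i - 1)
  rwa [sub_add_cancel] at this

theorem prev_in [Finite D] (hP : M.Patch A δ) (i : ZMod 6) : A (M.nx.symm (δ i)) := by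
  rw [Sites.symm (M := M) hP.sites]
  exact hP.inA i

/-- a ring sector which is a ring edge of the same face: corners -/
theorem corner_iff [Finite D] (hP : M.Patch A δ) (i j : ZMod 6) :
    δ i = M.nx.symm (δ j) ↔ j = i + 1 ∧ M.nx (δ i) = δ (i + 1) := by
  constructor
  · intro h
    have h1 := hP.prev_node (j - 1)
    rw [sub_add_cancel, ← h] at h1
    have h2 := nodes_inj hP.bd h1
    have h3 : j = i + 1 := by rw [← h2]; ring
    subst h3
    exact ⟨rfl, by rw [h, Equiv.apply_symm_apply]⟩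
  · rintro ⟨rfl, h⟩
    rw [← h, Equiv.symm_apply_apply]

/-- **Ring exactness** (no corners). -/
theorem ring_exact [Fintype D] (hP : M.Patch A δ) {s : PState 6} {ω : D → ℕ}
    (hb : ∀ i, M.usum A ω (δ i) = s.u i) (h6 : ∑ i, s.u i = 6)
    (hadj : ∀ i, 1 ≤ ω (M.nx.symm (δ i)) + ω (δ i)) (hnc : ∀ i, M.nx (δ i) ≠ δ (i + 1)) :
    (∀ i, ω (M.nx.symm (δ i)) + ω (δ i) = 1) ∧
    (∀ i e, M.SameNode (δ i) e → A e → e ≠ δ i → e ≠ M.nx.symm (δ (i + 1)) → ω e = 0) ∧
    ∀ i, s.u i = ω (δ i) + ω (M.nx.symm (δ (i + 1))) := by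
  have hne : ∀ i, δ i ≠ M.nx.symm (δ (i + 1)) := fun i h =>
    hnc i ((hP.corner_iff i (i + 1)).1 h).2
  -- the two sectors of the ring faces at the node `i` and the rest
  have hsplit : ∀ i, M.usum A ω (δ i) = ω (δ i) + ω (M.nx.symm (δ (i + 1))) +
      ∑ e ∈ ((M.nodeIn A (δ i)).erase (δ i)).erase (M.nx.symm (δ (i + 1))), ω e := by
    intro i
    have h1 : δ i ∈ M.nodeIn A (δ i) := mem_nodeIn.2 ⟨Equiv.Perm.SameCycle.refl _ _, hP.inA i⟩
    have h2 : M.nx.symm (δ (i + 1)) ∈ (M.nodeIn A (δ i)).erase (δ i) :=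
      Finset.mem_erase.2 ⟨(hne i).symm, mem_nodeIn.2 ⟨hP.prev_node i, hP.prev_in _⟩⟩
    unfold usum
    rw [← Finset.add_sum_erase _ _ h1, ← Finset.add_sum_erase _ _ h2, add_assoc]
  have hshift : ∑ i : ZMod 6, ω (M.nx.symm (δ (i + 1))) = ∑ i : ZMod 6, ω (M.nx.symm (δ i)) :=
    Fintype.sum_equiv (Equiv.addRight (1 : ZMod 6)) _ _ fun i => rfl
  have htot : ∑ i : ZMod 6, (ω (M.nx.symm (δ i)) + ω (δ i)) +
      ∑ i : ZMod 6, ∑ e ∈ ((M.nodeIn A (δ i)).erase (δ i)).erase (M.nx.symm (δ (i + 1))), ω e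
        = 6 := by
    refine Eq.trans ?_ h6
    rw [← Finset.sum_congr rfl fun i _ => hb i, Finset.sum_congr rfl fun i _ => hsplit i,
      Finset.sum_add_distrib, Finset.sum_add_distrib, Finset.sum_add_distrib, hshift]
    ring
  have h1 : ∑ i : ZMod 6, 1 ≤ ∑ i : ZMod 6, (ω (M.nx.symm (δ i)) + ω (δ i)) :=
    Finset.sum_le_sum fun i _ => hadj i
  have hcard : ∑ _i : ZMod 6, 1 = 6 := by simp
  have h2 : ∑ i : ZMod 6, ∑ e ∈ ((M.nodeIn A (δ i)).erase (δ i)).erase
      (M.nx.symm (δ (i + 1))), ω e = 0 := by omega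
  have h3 : ∑ i : ZMod 6, (ω (M.nx.symm (δ i)) + ω (δ i)) = ∑ i : ZMod 6, 1 := by omega
  have h4 : ∀ i, ω (M.nx.symm (δ i)) + ω (δ i) = 1 := by
    intro i
    exact ((Finset.sum_eq_sum_iff_of_le fun i _ => hadj i).1 h3.symm i (Finset.mem_univ i)).symm
  have h5 : ∀ i, ∑ e ∈ ((M.nodeIn A (δ i)).erase (δ i)).erase
      (M.nx.symm (δ (i + 1))), ω e = 0 := fun i => Finset.sum_eq_zero_iff.1 h2 i (Finset.mem_univ i)
  refine ⟨h4, fun i e h6 h7 h8 h9 => ?_, fun i => ?_⟩
  · exact Finset.sum_eq_zero_iff.1 (h5 i) e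
      (Finset.mem_erase.2 ⟨h9, Finset.mem_erase.2 ⟨h8, mem_nodeIn.2 ⟨h6, h7⟩⟩⟩)
  · rw [← hb, hsplit, h5, add_zero]

end Patch

end DMap

end GT33
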