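import Pool.Agent.GT33.DQuad
import Pool.Agent.GT33.DRing

/-!
# GT33 module DFOLD: folding a hexagon at a sector

`h : ZMod 6 → D` numbers a site with six darts (`hh : M.SiteNum 6 h`).  `fold hh ho ho'`: the hexagon is folded at
the sector `h 0`: the darts `h 0` and `h 1` (the two edges at this sector) are removed, the strands which
arrive at `h 0` and `h 1` are joined.  The nodes of the sectors `h 5` and `h 1` are identified; the
hexagon becomes the quad `hf h` with the darts `h 2, h 3, h 4, h 5`.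
-/

open Classical

namespace GT33

namespace DMap

variable {D : Type} {M : DMap D}

/-- the two darts at the sector `h 0` -/
def HR (h : ZMod 6 → D) (d : D) : Prop := d = h 0 ∨ d = h 1

/-- the pairing of the two darts -/
noncomputable def hmu (h : ZMod 6 → D) (d : D) : D :=
  if d = h 0 then h 1 else if d = h 1 then h 0 else d

section

variable {h : ZMod 6 → D}

theorem z6 (i : ZMod 6) : i = 0 ∨ i = 1 ∨ i = 2 ∨ i = 3 ∨ i = 4 ∨ i = 5 := by
  revert i; decide

theorem hr0 : HR h (h 0) := Or.inl rfl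

theorem hr1 : HR h (h 1) := Or.inr rfl

theorem hmu0 : hmu h (h 0) = h 1 := by simp [hmu]

variable (hh : M.SiteNum 6 h)

include hh

theorem h_ne {i j : ZMod 6} (hij : i ≠ j) : h i ≠ h j := fun e => hij (hh.inj e)

theorem hmu1 : hmu h (h 1) = h 0 := by
  have h1 : h 1 ≠ h 0 := h_ne hh (by decide)
  simp [hmu, h1]

theorem h_nx0 : M.nx (h 0) = h 1 := hh.nx 0

theorem h_nx1 : M.nx (h 1) = h 2 := hh.nx 1

theorem h_nx2 : M.nx (h 2) = h 3 := hh.nx 2

theorem h_nx3 : M.nx (h 3) = h 4 := hh.nx 3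

theorem h_nx4 : M.nx (h 4) = h 5 := hh.nx 4

theorem h_nx5 : M.nx (h 5) = h 0 := hh.nx 5

theorem h_same (i j : ZMod 6) : M.SameSite (h i) (h j) := hh.same (by decide) i j

theorem not_hr {i : ZMod 6} (h0 : i ≠ 0) (h1 : i ≠ 1) : ¬ HR h (h i) := by
  rintro (h2 | h2)
  · exact h0 (hh.inj h2)
  · exact h1 (hh.inj h2)

theorem h_pairing : Pairing M.nx (hmu h) (HR h) where
  inv := by
    rintro _ (rfl | rfl)
    · rw [hmu0, hmu1 hh]
    · rw [hmu1 hh, hmu0]
  mem := by
    rintro _ (rfl | rfl)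
    · rw [hmu0]; exact hr1
    · rw [hmu1 hh]; exact hr0
  ne := by
    rintro _ (rfl | rfl)
    · rw [hmu0]; exact h_ne hh (by decide)
    · rw [hmu1 hh]; exact h_ne hh (by decide)
  site := by
    rintro _ (rfl | rfl)
    · rw [hmu0]; exact h_same hh _ _
    · rw [hmu1 hh]; exact h_same hh _ _

theorem h_planar : PlanarP M.nx (hmu h) (HR h) := by
  refine PlanarP.of_adj (h_pairing hh) ?_
  rintro _ (rfl | rfl)
  · left; rw [hmu0, h_nx0 hh]
  · right; rw [hmu1 hh, ← h_nx0 hh, Equiv.symm_apply_apply]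

theorem h_col {o : D → Bool} (ho : ∀ d, o (M.nx d) = !o d) (r : D) (hr : HR h r) :
    o (hmu h r) = !o r := by
  rcases hr with rfl | rfl
  · rw [hmu0, ← h_nx0 hh, ho]
  · rw [hmu1 hh, ← h_nx0 hh, ho, Bool.not_not]

/-- the sites of the two darts -/
theorem hr_nx {d : D} (hd : HR h (M.nx d)) : d = h 5 ∨ d = h 0 := by
  rcases hd with h1 | h1
  · left
    exact M.nx.injective (by rw [h1, h_nx5 hh])
  · right
    exact M.nx.injective (by rw [h1, h_nx0 hh])

/-- sectors which are joined by the fold -/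
theorem h_joined (d e : D) : JoinedR M.nx M.al (hmu h) (HR h) d e ↔
    M.SameNode d e ∨ (M.SameNode d (h 5) ∧ M.SameNode e (h 1)) ∨
      (M.SameNode d (h 1) ∧ M.SameNode e (h 5)) := by
  constructor
  · intro hde
    induction hde with
    | rel a b hab =>
      rcases hab with rfl | ⟨ha, rfl⟩
      · left
        exact ⟨1, by rw [zpow_one]; rfl⟩
      · rcases hr_nx hh ha with rfl | rfl
        · right; left
          rw [h_nx5 hh, hmu0]
          exact ⟨Equiv.Perm.SameCycle.refl _ _, Equiv.Perm.SameCycle.refl _ _⟩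
        · left
          rw [h_nx0 hh, hmu1 hh]
    | refl a => exact Or.inl (Equiv.Perm.SameCycle.refl _ _)
    | symm a b _ ih =>
      rcases ih with h | ⟨h1, h2⟩ | ⟨h1, h2⟩
      · exact Or.inl h.symm
      · exact Or.inr (Or.inr ⟨h2, h1⟩)
      · exact Or.inr (Or.inl ⟨h2, h1⟩)
    | trans a b c _ _ ih1 ih2 =>
      rcases ih1 with h | ⟨h1, h2⟩ | ⟨h1, h2⟩
      · rcases ih2 with h' | ⟨h3, h4⟩ | ⟨h3, h4⟩
        · exact Or.inl (h.trans h')
        · exact Or.inr (Or.inl ⟨h.trans h3, h4⟩)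
        · exact Or.inr (Or.inr ⟨h.trans h3, h4⟩)
      · rcases ih2 with h' | ⟨h3, h4⟩ | ⟨h3, h4⟩
        · exact Or.inr (Or.inl ⟨h1, h'.symm.trans h2⟩)
        · exact Or.inl (h1.trans (h3.symm.trans (h2.trans h4.symm)))
        · exact Or.inl (h1.trans h4.symm)
      · rcases ih2 with h' | ⟨h3, h4⟩ | ⟨h3, h4⟩
        · exact Or.inr (Or.inr ⟨h1, h'.symm.trans h2⟩)
        · exact Or.inl (h1.trans h4.symm)
        · exact Or.inl (h1.trans (h3.symm.trans (h2.trans h4.symm)))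
  · have hsn : ∀ a b, M.SameNode a b → JoinedR M.nx M.al (hmu h) (HR h) a b := by
      rintro a b ⟨k, rfl⟩
      induction k with
      | zero => exact Relation.EqvGen.refl _
      | succ k ih =>
        refine ih.trans ?_
        rw [add_comm, zpow_one_add, Equiv.Perm.mul_apply]
        exact JoinedR.nstep _
      | pred k ih =>
        refine ih.trans ?_
        apply JoinedR.symm
        have h1 : M.fs ((M.fs ^ (-(k : ℤ) - 1)) a) = (M.fs ^ (-(k : ℤ))) a := by
          rw [← Equiv.Perm.mul_apply, ← zpow_one_add, add_sub_cancel]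
        rw [← h1]
        exact JoinedR.nstep _
    have h51 : JoinedR M.nx M.al (hmu h) (HR h) (h 5) (h 1) := by
      refine Relation.EqvGen.rel _ _ (Or.inr ?_)
      rw [h_nx5 hh]
      exact ⟨hr0, hmu0.symm⟩
    rintro (h | ⟨h1, h2⟩ | ⟨h1, h2⟩)
    · exact hsn _ _ h
    · exact (hsn _ _ h1).trans (h51.trans (hsn _ _ h2).symm)
    · exact (hsn _ _ h1).trans (h51.symm.trans (hsn _ _ h2).symm)

end

/-! ### the folded map -/

section

variable [Finite D] {h : ZMod 6 → D} {o : D → Bool} (hh : M.SiteNum 6 h)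
  (ho : ∀ d, o (M.nx d) = !o d) (ho' : ∀ d, o (M.al d) = !o d)

/-- the fold of the hexagon `h` at the sector `h 0` -/
noncomputable abbrev fold : DMap {d // ¬ HR h d} :=
  M.smooth (h_pairing hh) ho' (fun r hr => h_col hh ho r hr)

theorem fold_nx_of {d : {d // ¬ HR h d}} (hd : ¬ HR h (M.nx d.1)) :
    (fold hh ho ho').nx d = ⟨M.nx d.1, hd⟩ :=
  ret_eq M.nx.injective (Ret.of_last hd rfl)

theorem fold_nx5 : (fold hh ho ho').nx ⟨h 5, not_hr hh (by decide) (by decide)⟩ =
    ⟨h 2, not_hr hh (by decide) (by decide)⟩ := by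
  refine ret_eq M.nx.injective (Ret.of_step (c := h 0) (not_not.2 hr0) (h_nx5 hh) ?_)
  exact Ret.of_step (c := h 1) (not_not.2 hr1) (h_nx0 hh)
    (Ret.of_last (not_hr hh (by decide) (by decide)) (h_nx1 hh))

theorem fold_al_of {d : {d // ¬ HR h d}} (hd : ¬ HR h (M.al d.1)) :
    (fold hh ho ho').al d = ⟨M.al d.1, hd⟩ :=
  smooth_al (h_pairing hh) ho' (fun r hr => h_col hh ho r hr) (DStrand.last hd)

theorem fold_al0 (h0 : ¬ HR h (M.al (h 0))) (h1 : ¬ HR h (M.al (h 1))) :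
    (fold hh ho ho').al ⟨M.al (h 0), h0⟩ = ⟨M.al (h 1), h1⟩ := by
  refine smooth_al (h_pairing hh) ho' (fun r hr => h_col hh ho r hr) ?_
  refine DStrand.step (by rw [M.inv]; exact hr0) ?_
  rw [M.inv, hmu0]
  exact DStrand.last h1

theorem fold_al1 (h0 : ¬ HR h (M.al (h 0))) (h1 : ¬ HR h (M.al (h 1))) :
    (fold hh ho ho').al ⟨M.al (h 1), h1⟩ = ⟨M.al (h 0), h0⟩ := by
  rw [← fold_al0 hh ho ho' h0 h1]
  exact (fold hh ho ho').inv _

theorem fold_sameSite (d e : {d // ¬ HR h d}) :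
    (fold hh ho ho').SameSite d e ↔ M.SameSite d.1 e.1 :=
  retPerm_sameCycle M.nx _ d e

theorem sites_fold {B : D → Prop} (hB : M.Sites B) : (fold hh ho ho').Sites fun d => B d.1 := by
  intro d
  have h1 : (fold hh ho ho').SameSite d ((fold hh ho ho').nx d) := ⟨1, by simp⟩
  rw [fold_sameSite] at h1
  exact (hB.same h1).symm

/-- sets of sites of the folded map -/
theorem exists_sites_of_fold {B' : {d // ¬ HR h d} → Prop} (hB' : (fold hh ho ho').Sites B') :
    ∃ B : D → Prop, M.Sites B ∧ ∀ d : {d // ¬ HR h d}, B d.1 ↔ B' d := by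
  have h2 : ¬ HR h (h 2) := not_hr hh (by decide) (by decide)
  have h5 : ¬ HR h (h 5) := not_hr hh (by decide) (by decide)
  let B : D → Prop := fun d => (∃ hd : ¬ HR h d, B' ⟨d, hd⟩) ∨ (HR h d ∧ B' ⟨h 2, h2⟩)
  have k1 : ∀ d, ∀ hd : ¬ HR h d, B d ↔ B' ⟨d, hd⟩ := fun d hd =>
    ⟨fun h3 => h3.elim (fun h4 => h4.2) fun h4 => absurd h4.1 hd, fun h3 => Or.inl ⟨hd, h3⟩⟩
  have k2 : ∀ d, HR h d → (B d ↔ B' ⟨h 2, h2⟩) := fun d hd =>
    ⟨fun h3 => h3.elim (fun h4 => absurd hd h4.1) fun h4 => h4.2, fun h3 => Or.inr ⟨hd, h3⟩⟩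
  refine ⟨B, fun d => ?_, fun d => k1 d.1 d.2⟩
  by_cases hn : HR h (M.nx d)
  · rw [k2 _ hn]
    rcases hr_nx hh hn with rfl | rfl
    · rw [k1 _ h5]
      have h6 := hB' ⟨h 5, h5⟩
      rwa [fold_nx5] at h6
    · rw [k2 _ hr0]
  · rw [k1 _ hn]
    by_cases hd : HR h d
    · rw [k2 _ hd]
      rcases hd with rfl | rfl
      · exact absurd (by rw [h_nx0 hh]; exact hr1) hn
      · have : (⟨M.nx (h 1), hn⟩ : {d // ¬ HR h d}) = ⟨h 2, h2⟩ := Subtype.ext (h_nx1 hh)
        rw [this]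
    · rw [k1 _ hd]
      have h6 := hB' ⟨d, hd⟩
      rwa [fold_nx_of hh ho ho' hn] at h6

theorem fold_deg_of {d : {d // ¬ HR h d}} (hd : ¬ M.SameSite (h 0) d.1) :
    (fold hh ho ho').deg d = M.deg d.1 := by
  unfold DMap.deg
  have h1 : ∀ k : ℕ, (((fold hh ho ho').nx)^[k] d).1 = (M.nx)^[k] d.1 := by
    intro k
    induction k with
    | zero => rfl
    | succ k ih =>
      have h2 : ¬ HR h (M.nx (((fold hh ho ho').nx)^[k] d).1) := by
        rw [ih]
        intro h3
        have h4 : M.SameSite d.1 (M.nx ((M.nx)^[k] d.1)) :=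
          ⟨k + 1, by rw [add_comm, zpow_one_add, Equiv.Perm.mul_apply, zpow_natCast,
            Equiv.Perm.coe_pow]⟩
        rcases h3 with h3 | h3
        · rw [h3] at h4
          exact hd h4.symm
        · rw [h3] at h4
          exact hd ((h_same hh 0 1).trans h4.symm)
      rw [Function.iterate_succ_apply', Function.iterate_succ_apply', fold_nx_of hh ho ho' h2, ← ih]
  apply Nat.dvd_antisymm
  · apply Function.IsPeriodicPt.minimalPeriod_dvd
    apply Subtype.ext
    rw [h1]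
    exact Function.isPeriodicPt_minimalPeriod M.nx d.1
  · apply Function.IsPeriodicPt.minimalPeriod_dvd
    show M.nx^[_] d.1 = d.1
    rw [← h1]
    exact congrArg Subtype.val (Function.isPeriodicPt_minimalPeriod (fold hh ho ho').nx d)

end

theorem hf_aux (i : ZMod 4) : ((i.val : ZMod 6) + 2) ≠ 0 ∧ ((i.val : ZMod 6) + 2) ≠ 1 := by
  revert i; decide

/-- the quad which is left of the hexagon -/
def hf {h : ZMod 6 → D} (hh : M.SiteNum 6 h) (i : ZMod 4) : {d // ¬ HR h d} :=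
  ⟨h ((i.val : ZMod 6) + 2), not_hr hh (hf_aux i).1 (hf_aux i).2⟩

theorem hf_siteNum [Finite D] {h : ZMod 6 → D} {o : D → Bool} (hh : M.SiteNum 6 h)
    (ho : ∀ d, o (M.nx d) = !o d) (ho' : ∀ d, o (M.al d) = !o d) :
    (fold hh ho ho').SiteNum 4 (hf hh) where
  inj i j hij := by
    have h1 := hh.inj (congrArg Subtype.val hij)
    have key : ∀ i j : ZMod 4, ((i.val : ZMod 6) + 2) = (j.val : ZMod 6) + 2 → i = j := by decide
    exact key i j h1
  nx i := by
    rcases z4 i with rfl | rfl | rfl | rfl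
    · refine (fold_nx_of hh ho ho' (d := hf hh 0) ?_).trans (Subtype.ext ?_)
      · show ¬ HR h (M.nx (h 2))
        rw [h_nx2 hh]
        exact not_hr hh (by decide) (by decide)
      · exact h_nx2 hh
    · refine (fold_nx_of hh ho ho' (d := hf hh 1) ?_).trans (Subtype.ext ?_)
      · show ¬ HR h (M.nx (h 3))
        rw [h_nx3 hh]
        exact not_hr hh (by decide) (by decide)
      · exact h_nx3 hh
    · refine (fold_nx_of hh ho ho' (d := hf hh 2) ?_).trans (Subtype.ext ?_)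
      · show ¬ HR h (M.nx (h 4))
        rw [h_nx4 hh]
        exact not_hr hh (by decide) (by decide)
      · exact h_nx4 hh
    · exact fold_nx5 hh ho ho'

/-! ### cuts -/

section

variable [Fintype D] {h : ZMod 6 → D} {o : D → Bool} (hh : M.SiteNum 6 h)
  (ho : ∀ d, o (M.nx d) = !o d) (ho' : ∀ d, o (M.al d) = !o d)

theorem sum_h {β : Type*} [AddCommMonoid β] (hh : M.SiteNum 6 h) (f : D → β) :
    ∑ d, f d = ∑ d : {d // ¬ HR h d}, f d.1 + (f (h 0) + f (h 1)) := by
  rw [← Fintype.sum_subtype_add_sum_subtype (HR h) f, add_comm]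
  congr 1
  have h1 : ∑ d : {d // HR h d}, f d.1 = ∑ d ∈ ({h 0, h 1} : Finset D), f d :=
    (Finset.sum_subtype _ (by intro x; simp [HR]) f).symm
  rw [h1, Finset.sum_pair (h_ne hh (by decide))]

theorem sum_al_h {β : Type*} [AddCommMonoid β] (hh : M.SiteNum 6 h)
    (h0 : ¬ HR h (M.al (h 0))) (h1 : ¬ HR h (M.al (h 1))) (f : {d // ¬ HR h d} → β) :
    ∑ d, f d = ∑ d ∈ ({⟨M.al (h 0), h0⟩, ⟨M.al (h 1), h1⟩} : Finset {d // ¬ HR h d})ᶜ, f d +
      (f ⟨M.al (h 0), h0⟩ + f ⟨M.al (h 1), h1⟩) := by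
  rw [← Finset.sum_compl_add_sum ({⟨M.al (h 0), h0⟩, ⟨M.al (h 1), h1⟩} : Finset {d // ¬ HR h d})]
  congr 1
  rw [Finset.sum_pair]
  intro h2
  exact h_ne hh (i := 0) (j := 1) (by decide) (M.al_inj (congrArg Subtype.val h2))

/-- cuts of the folded map -/
theorem cut_fold (h0 : ¬ HR h (M.al (h 0))) (h1 : ¬ HR h (M.al (h 1))) {B : D → Prop}
    (hB : M.Sites B) :
    M.cut B = (fold hh ho ho').cut (fun d => B d.1) +
      if (B (M.al (h 0)) ↔ B (h 0)) ∨ (B (M.al (h 1)) ↔ B (h 0)) then 0 else 2 := by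
  rw [cut_eq_sum, cut_eq_sum, sum_h hh, sum_al_h hh h0 h1, sum_al_h hh h0 h1]
  have e1 : ∑ d ∈ ({⟨M.al (h 0), h0⟩, ⟨M.al (h 1), h1⟩} : Finset {d // ¬ HR h d})ᶜ,
        (if B d.1 ∧ ¬ B (M.al d.1) then 1 else 0) =
      ∑ d ∈ ({⟨M.al (h 0), h0⟩, ⟨M.al (h 1), h1⟩} : Finset {d // ¬ HR h d})ᶜ,
        (if B d.1 ∧ ¬ B ((fold hh ho ho').al d).1 then 1 else 0) := by
    refine Finset.sum_congr rfl fun d hd => ?_
    rw [fold_al_of]
    intro hi
    rw [Finset.mem_compl] at hd
    apply hd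
    rw [Finset.mem_insert, Finset.mem_singleton]
    rcases hi with hi | hi
    · left
      apply Subtype.ext
      show d.1 = M.al (h 0)
      rw [← hi, M.inv]
    · right
      apply Subtype.ext
      show d.1 = M.al (h 1)
      rw [← hi, M.inv]
  rw [e1]
  have hq1 : B (h 1) ↔ B (h 0) := by rw [← h_nx0 hh, hB]
  simp only [fold_al0 hh ho ho' h0 h1, fold_al1 hh ho ho' h0 h1, M.inv, hq1]
  by_cases x0 : B (M.al (h 0)) <;> by_cases x1 : B (M.al (h 1)) <;> by_cases z : B (h 0) <;>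
    simp [x0, x1, z]

omit [Fintype D] in
include hh in
/-- there are no loops -/
theorem h_nl (hL : M.Legal) (i : ZMod 6) : ¬ HR h (M.al (h i)) := by
  rintro (h1 | h1)
  · exact hL.noloop (h i) (by rw [h1]; exact h_same hh i 0)
  · exact hL.noloop (h i) (by rw [h1]; exact h_same hh i 1)

theorem fold_conn (h0 : ¬ HR h (M.al (h 0))) (h1 : ¬ HR h (M.al (h 1)))
    (hcut : ∀ B : D → Prop, M.Sites B → (∃ d, B d) → (∃ d, ¬ B d) → 3 ≤ M.cut B) :
    (fold hh ho ho').Conn := by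
  intro B' hB' hal ⟨d, hd⟩ e
  by_contra he
  obtain ⟨B, hB, h2⟩ := exists_sites_of_fold hh ho ho' hB'
  have h3 := hcut B hB ⟨d.1, (h2 d).2 hd⟩ ⟨e.1, fun h => he ((h2 e).1 h)⟩
  have h4 : (fold hh ho ho').cut (fun d => B d.1) = 0 := by
    unfold cut
    rw [Nat.card_eq_zero]
    left
    constructor
    rintro ⟨x, hx1, hx2⟩
    exact hx2 ((h2 _).2 (hal x ((h2 x).1 hx1)))
  rw [cut_fold hh ho ho' h0 h1 hB, h4] at h3
  split_ifs at h3 <;> omega

/-- sets of sites of the folded map: either the cut is the same, or the two removed darts leave a set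
with a cut which is bigger by two -/
theorem fold_cut_cases (h0 : ¬ HR h (M.al (h 0))) (h1 : ¬ HR h (M.al (h 1)))
    {B' : {d // ¬ HR h d} → Prop} (hB' : (fold hh ho ho').Sites B') :
    (∃ B : D → Prop, M.Sites B ∧ (∀ d : {d // ¬ HR h d}, B d.1 ↔ B' d) ∧
      M.cut B = (fold hh ho ho').cut B') ∨
    ∃ B : D → Prop, M.Sites B ∧ B (h 0) ∧ ¬ B (M.al (h 0)) ∧ ¬ B (M.al (h 1)) ∧
      M.cut B = (fold hh ho ho').cut B' + 2 ∧
      ((∀ d : {d // ¬ HR h d}, B d.1 ↔ B' d) ∨ ∀ d : {d // ¬ HR h d}, B d.1 ↔ ¬ B' d) := by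
  obtain ⟨B, hB, h2⟩ := exists_sites_of_fold hh ho ho' hB'
  have h3 := cut_fold hh ho ho' h0 h1 hB
  rw [cut_congr h2] at h3
  by_cases h4 : (B (M.al (h 0)) ↔ B (h 0)) ∨ (B (M.al (h 1)) ↔ B (h 0))
  · rw [if_pos h4, add_zero] at h3
    exact Or.inl ⟨B, hB, h2, h3⟩
  · rw [if_neg h4] at h3
    push Not at h4
    right
    by_cases h5 : B (h 0)
    · exact ⟨B, hB, h5, fun h6 => by have := h4.1; tauto, fun h6 => by have := h4.2; tauto, h3,
        Or.inl h2⟩
    · refine ⟨fun d => ¬ B d, hB.not, h5, fun h6 => by have := h4.1; tauto,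
        fun h6 => by have := h4.2; tauto, by rw [cut_not]; exact h3,
        Or.inr fun d => not_congr (h2 d)⟩

omit [Fintype D] in
include hh in
/-- a site as a set of darts of the folded map -/
theorem exists_rep (d : D) : ∃ e : {d // ¬ HR h d}, M.SameSite d e.1 := by
  by_cases hd : HR h d
  · refine ⟨⟨h 2, not_hr hh (by decide) (by decide)⟩, ?_⟩
    rcases hd with rfl | rfl
    · exact h_same hh 0 2
    · exact h_same hh 1 2
  · exact ⟨⟨d, hd⟩, Equiv.Perm.SameCycle.refl _ _⟩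

/-- The fold of a hexagon of a legal map is legal if there are no other small cuts through the two
removed darts. -/
theorem Legal.fold (hL : M.Legal) (hn : ¬ M.SameSite (M.al (h 0)) (M.al (h 1)))
    (hex : ∀ B : D → Prop, M.Sites B → B (h 0) → ¬ B (M.al (h 0)) → ¬ B (M.al (h 1)) →
      M.cut B ≤ 6 → ∀ d, B d ↔ M.SameSite (h 0) d) :
    (fold hh ho ho').Legal := by
  have h0 := h_nl hh hL 0
  have h1 := h_nl hh hL 1
  have h6 : M.cut (M.SameSite (h 0)) = 6 := by
    rw [hL.cut_site, hh.deg]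
  have hcut4 : ∀ B' : {d // ¬ HR h d} → Prop, (DMap.fold hh ho ho').Sites B' → (∃ d, B' d) →
      (∃ d, ¬ B' d) → 4 ≤ (DMap.fold hh ho ho').cut B' := by
    intro B' hB' h2 h3
    rcases fold_cut_cases hh ho ho' h0 h1 hB' with ⟨B, hB, h4, h5⟩ | ⟨B, hB, h4, h5, h7, h8, -⟩
    · rw [← h5]
      obtain ⟨d, hd⟩ := h2
      obtain ⟨e, he⟩ := h3
      exact hL.cut4 B hB ⟨d.1, (h4 d).2 hd⟩ ⟨e.1, fun h9 => he ((h4 e).1 h9)⟩
    · by_contra hlt
      have h9 := hex B hB h4 h5 h7 (by omega)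
      rw [cut_congr h9] at h8
      omega
  have hsingle : ∀ B' : {d // ¬ HR h d} → Prop,
      ∀ B : D → Prop, (∀ d : {d // ¬ HR h d}, B d.1 ↔ B' d) → (∃ d, ∀ e, B e ↔ M.SameSite d e) →
      ∃ d, ∀ e, B' e ↔ (DMap.fold hh ho ho').SameSite d e := by
    intro B' B hB ⟨d, hd⟩
    obtain ⟨e, he⟩ := exists_rep hh d
    refine ⟨e, fun f => ?_⟩
    rw [← hB, hd, fold_sameSite]
    exact ⟨fun h2 => he.symm.trans h2, fun h2 => he.trans h2⟩
  refine ⟨⟨smooth_hom _ _ _ (h_planar hh) hL.plane,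
    fold_conn hh ho ho' h0 h1 fun B hB h2 h3 => ?_⟩, ?_, hcut4, ?_, ?_⟩
  · have := hL.cut4 B hB h2 h3
    omega
  · -- no loops
    intro d hd
    by_cases hdq : HR h (M.al d.1)
    · rcases hdq with hi | hi
      · have hd' : d = ⟨M.al (h 0), h0⟩ := by
          apply Subtype.ext
          show d.1 = M.al (h 0)
          rw [← hi, M.inv]
        subst hd'
        rw [fold_al0 hh ho ho' h0 h1, fold_sameSite] at hd
        exact hn hd
      · have hd' : d = ⟨M.al (h 1), h1⟩ := by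
          apply Subtype.ext
          show d.1 = M.al (h 1)
          rw [← hi, M.inv]
        subst hd'
        rw [fold_al1 hh ho ho' h0 h1, fold_sameSite] at hd
        exact hn hd.symm
    · rw [fold_al_of hh ho ho' hdq, fold_sameSite] at hd
      exact hL.noloop _ hd
  · intro B' hB' hc
    rcases fold_cut_cases hh ho ho' h0 h1 hB' with ⟨B, hB, h4, h5⟩ | ⟨B, hB, h4, h5, h7, h8, h9⟩
    · rcases hL.quad B hB (h5.trans hc) with h10 | h10
      · exact Or.inl (hsingle B' B h4 h10)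
      · exact Or.inr (hsingle (fun d => ¬ B' d) (fun d => ¬ B d) (fun d => not_congr (h4 d)) h10)
    · have h10 := hex B hB h4 h5 h7 (by omega)
      rcases h9 with h9 | h9
      · exact Or.inl (hsingle B' B h9 ⟨_, h10⟩)
      · exact Or.inr (hsingle (fun d => ¬ B' d) B h9 ⟨_, h10⟩)
  · intro d
    by_cases hd : M.SameSite (h 0) d.1
    · left
      have h2 : (DMap.fold hh ho ho').SameSite (hf hh 0) d := by
        rw [fold_sameSite]
        exact (h_same hh _ 0).trans hd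
      obtain ⟨j, rfl⟩ := (hf_siteNum hh ho ho').mem h2
      exact (hf_siteNum hh ho ho').deg j
    · rw [fold_deg_of hh ho ho' hd]
      exact hL.deg d.1

/-- the number of darts -/
theorem card_fold (hh : M.SiteNum 6 h) : Nat.card {d // ¬ HR h d} + 2 = Nat.card D := by
  rw [card_add' (HR h), add_comm]
  congr 1
  rw [Nat.card_eq_fintype_card, Fintype.card_subtype]
  have h1 : (Finset.univ.filter fun d => HR h d) = {h 0, h 1} := by
    ext d
    simp [HR]
  rw [h1, Finset.card_pair (h_ne hh (by decide))]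

end

/-! ### patches -/

/-- a legal map with a numbered hexagonal root is a patch -/
theorem Legal.patch [Finite D] (hL : M.Legal) {A : D → Prop} {r : ZMod 6 → D}
    (hr : ∀ i, M.nx (r (i + 1)) = r i) (hinj : Function.Injective r)
    (hA : ∀ e, ¬ A e ↔ M.SameSite (r 0) e) : M.Patch A fun i => M.al (r i) := by
  have : Fintype D := Fintype.ofFinite D
  have hnum : M.SiteNum 6 fun i => r (-i) := by
    refine ⟨fun i j hij => neg_injective (hinj hij), fun i => ?_⟩
    have h1 := hr (-i - 1)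
    rw [sub_add_cancel] at h1
    rw [h1]
    congr 1
    ring
  have hrA : ∀ i, ¬ A (r i) := by
    intro i
    rw [hA]
    have h1 := hnum.same (by decide) 0 (-i)
    simpa using h1
  have hdeg : M.deg (r 0) = 6 := by
    have h1 := hnum.deg 0
    simpa using h1
  have hcut : M.cut A = 6 := by
    rw [← cut_not A, cut_congr hA, hL.cut_site, hdeg]
  have hs : M.Sites A := by
    have h1 : M.Sites fun d => ¬ A d := by
      intro d
      show ¬ A (M.nx d) ↔ ¬ A d
      rw [hA, hA]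
      exact Equiv.Perm.sameCycle_apply_right
    intro d
    exact not_iff_not.1 (h1 d)
  obtain ⟨δ₀, hb⟩ : ∃ δ₀ : ZMod 6 → D, M.Bd A 6 δ₀ := by
    have h1 := hL.exists_bd hs ⟨M.al (r 0), ?_⟩ ⟨r 0, hrA 0⟩ (by omega)
    · rw [hcut] at h1
      exact h1
    · by_contra h2
      exact hL.noloop _ ((hA _).1 h2)
  have hP : M.Patch A δ₀ := ⟨hL, hb, ⟨r 0, hA⟩⟩
  have h1 : ∃ c, M.al (δ₀ 0) = r c := by
    have h2 : M.SameSite (r (-0)) (M.al (δ₀ 0)) := by
      rw [neg_zero, ← hA]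
      exact hP.notA 0
    obtain ⟨j, hj⟩ := hnum.mem (i := 0) h2
    exact ⟨-j, hj.symm⟩
  obtain ⟨c, hc⟩ := h1
  have h2 : ∀ k : ℕ, M.al (δ₀ k) = r (k + c) := by
    intro k
    induction k with
    | zero => simpa using hc
    | succ k ih =>
      have h3 := hP.root_nx k
      rw [ih, ← hr (k + c)] at h3
      have h4 := M.nx.injective h3
      push_cast
      rw [h4]
      congr 1
      ring
  have h3 : ∀ i : ZMod 6, δ₀ i = M.al (r (i + c)) := by
    intro i
    have h4 := h2 i.val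
    rw [ZMod.natCast_zmod_val] at h4
    rw [← h4, M.inv]
  have h4 : (fun i => M.al (r i)) = fun i => δ₀ (i - c) := by
    funext i
    rw [h3, sub_add_cancel]
  rw [h4]
  have h5 : (fun i => δ₀ (i - c)) = fun i => δ₀ (i + -c) := by
    funext i
    rw [sub_eq_add_neg]
  rw [h5]
  exact ⟨hL, BdD.shift hb (-c), ⟨r 0, hA⟩⟩

/-- the folded patch -/
theorem Patch.fold [Fintype D] {h : ZMod 6 → D} {o : D → Bool} (hh : M.SiteNum 6 h)
    (ho : ∀ d, o (M.nx d) = !o d) (ho' : ∀ d, o (M.al d) = !o d) {A : D → Prop} {δ : ZMod 6 → D}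
    (hP : M.Patch A δ) (hAh : A (h 0)) (hL : (DMap.fold hh ho ho').Legal) :
    ∃ δ' : ZMod 6 → {d // ¬ HR h d}, (∀ i, ((DMap.fold hh ho ho').al (δ' i)).1 = M.al (δ i)) ∧
      (∀ i, A (δ' i).1) ∧ (DMap.fold hh ho ho').Patch (fun d => A d.1) δ' := by
  have hsA := hP.sites
  have hhA : ∀ i, A (h i) := fun i => (hsA.same (h_same hh 0 i)).1 hAh
  have hr : ∀ i, ¬ HR h (M.al (δ i)) := by
    rintro i (h1 | h1)
    · exact hP.notA i (by rw [h1]; exact hhA 0)
    · exact hP.notA i (by rw [h1]; exact hhA 1)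
  let r : ZMod 6 → {d // ¬ HR h d} := fun i => ⟨M.al (δ i), hr i⟩
  have hr1 : ∀ i, (DMap.fold hh ho ho').nx (r (i + 1)) = r i := by
    intro i
    have h1 : ¬ HR h (M.nx (r (i + 1)).1) := by
      show ¬ HR h (M.nx (M.al (δ (i + 1))))
      rw [hP.root_nx]
      exact hr i
    rw [fold_nx_of hh ho ho' h1]
    exact Subtype.ext (hP.root_nx i)
  have hrinj : Function.Injective r := fun i j hij => by
    have h1 := M.al_inj (congrArg Subtype.val hij)
    exact hP.bd.inj h1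
  have hA' : ∀ e : {d // ¬ HR h d}, ¬ A e.1 ↔ (DMap.fold hh ho ho').SameSite (r 0) e := by
    intro e
    rw [fold_sameSite]
    obtain ⟨x, hx⟩ := hP.root
    have h2 : M.SameSite x (M.al (δ 0)) := (hx _).1 (hP.notA 0)
    rw [hx]
    exact ⟨fun h3 => h2.symm.trans h3, fun h3 => h2.trans h3⟩
  refine ⟨fun i => (DMap.fold hh ho ho').al (r i), fun i => ?_, fun i => ?_,
    hL.patch hr1 hrinj hA'⟩
  · rw [(DMap.fold hh ho ho').inv]
  · by_contra h1
    rw [hA'] at h1
    have h2 := hA' (r i)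
    have h3 : (DMap.fold hh ho ho').SameSite (r 0) (r i) := h2.1 (hP.notA i)
    exact hL.noloop (r i) (h3.symm.trans h1)

/-! ### nodes and states -/

section

variable [Fintype D] {h : ZMod 6 → D} {o : D → Bool} (hh : M.SiteNum 6 h)
  (ho : ∀ d, o (M.nx d) = !o d) (ho' : ∀ d, o (M.al d) = !o d)

/-- the nodes of the folded map -/
theorem fold_sameNode (hP : M.Plane) (hc : (fold hh ho ho').Conn) (d e : {d // ¬ HR h d}) :
    (fold hh ho ho').SameNode d e ↔ M.SameNode d.1 e.1 ∨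
      (M.SameNode d.1 (h 5) ∧ M.SameNode e.1 (h 1)) ∨
      (M.SameNode d.1 (h 1) ∧ M.SameNode e.1 (h 5)) := by
  rw [← h_joined hh]
  exact smooth_sameNode (h_pairing hh) ho' (fun r hr => h_col hh ho r hr) (h_planar hh) hP hc d e

/-- the units of the node of `d` in `A` outside the hexagon corner `h 5` -/
noncomputable def fout (M : DMap D) (h : ZMod 6 → D) (A : D → Prop) (ω' : {d // ¬ HR h d} → ℕ)
    (d : D) : ℕ :=
  ∑ e : {d // ¬ HR h d}, if M.SameNode d e.1 ∧ A e.1 ∧ e.1 ≠ h 5 then ω' e else 0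

theorem fout_same {A : D → Prop} {ω' : {d // ¬ HR h d} → ℕ} {d e : D} (hde : M.SameNode d e) :
    fout M h A ω' d = fout M h A ω' e := by
  unfold fout
  refine Finset.sum_congr rfl fun x _ => ?_
  have : M.SameNode d x.1 ↔ M.SameNode e x.1 :=
    ⟨fun h1 => hde.symm.trans h1, fun h1 => hde.trans h1⟩
  exact ite_iff (and_congr_left fun _ => this) _ _

theorem sum_ite_h5 {A : D → Prop} (hA : A (h 5)) (p : D → Prop) (h5 : ¬ HR h (h 5))
    (f : {d // ¬ HR h d} → ℕ) {inst : ∀ e : {d // ¬ HR h d}, Decidable (p e.1 ∧ A e.1)} :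
    (∑ e : {d // ¬ HR h d}, @ite ℕ (p e.1 ∧ A e.1) (inst e) (f e) 0) =
      (∑ e : {d // ¬ HR h d}, if p e.1 ∧ A e.1 ∧ e.1 ≠ h 5 then f e else 0) +
        if p (h 5) then f ⟨h 5, h5⟩ else 0 := by
  rw [← Finset.sum_erase_add _ _ (Finset.mem_univ (⟨h 5, h5⟩ : {d // ¬ HR h d})),
    ← Finset.sum_erase_add _ (fun e : {d // ¬ HR h d} =>
      if p e.1 ∧ A e.1 ∧ e.1 ≠ h 5 then f e else 0)
      (Finset.mem_univ (⟨h 5, h5⟩ : {d // ¬ HR h d}))]
  have e1 : ∑ x ∈ Finset.univ.erase (⟨h 5, h5⟩ : {d // ¬ HR h d}),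
      (@ite ℕ (p x.1 ∧ A x.1) (inst x) (f x) 0) =
      ∑ x ∈ Finset.univ.erase (⟨h 5, h5⟩ : {d // ¬ HR h d}),
        (if p x.1 ∧ A x.1 ∧ x.1 ≠ h 5 then f x else 0) := by
    refine Finset.sum_congr rfl fun x hx => ?_
    have hx5 : x.1 ≠ h 5 := fun h6 => (Finset.mem_erase.1 hx).1 (Subtype.ext h6)
    exact ite_iff (by tauto) _ _
  rw [e1]
  simp [hA]

theorem fout_eq {A : D → Prop} {ω : D → ℕ} {ω' : {d // ¬ HR h d} → ℕ}
    (hω : ∀ e : {d // ¬ HR h d}, e.1 ≠ h 5 → ω e.1 = ω' e) (d : D)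
    {inst : ∀ e : {d // ¬ HR h d}, Decidable (M.SameNode d e.1 ∧ A e.1 ∧ e.1 ≠ h 5)} :
    (∑ e : {d // ¬ HR h d}, @ite ℕ (M.SameNode d e.1 ∧ A e.1 ∧ e.1 ≠ h 5) (inst e) (ω e.1) 0) =
      fout M h A ω' d := by
  unfold fout
  refine Finset.sum_congr rfl fun e _ => ?_
  by_cases h6 : M.SameNode d e.1 ∧ A e.1 ∧ e.1 ≠ h 5
  · rw [if_pos h6, if_pos h6, hω e h6.2.2]
  · rw [if_neg h6, if_neg h6]

include hh in
/-- the units of a node of `M` -/
theorem usum_h {A : D → Prop} (hA : ∀ i, A (h i)) {ω : D → ℕ} {ω' : {d // ¬ HR h d} → ℕ}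
    (hω : ∀ e : {d // ¬ HR h d}, e.1 ≠ h 5 → ω e.1 = ω' e) (d : D) :
    M.usum A ω d = fout M h A ω' d + ((if M.SameNode d (h 5) then ω (h 5) else 0) +
      (if M.SameNode d (h 0) then ω (h 0) else 0) +
      if M.SameNode d (h 1) then ω (h 1) else 0) := by
  have h5 : ¬ HR h (h 5) := not_hr hh (by decide) (by decide)
  rw [usum_eq, sum_h hh, sum_ite_h5 (A := A) (hA 5) (M.SameNode d) h5 fun e => ω e.1]
  refine Eq.trans (congrArg₂ (· + ·) (congrArg₂ (· + ·) (fout_eq (M := M) (A := A) hω d) rfl)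
    rfl) ?_
  simp only [hA, and_true]
  ring

/-- the units of a node of the folded map which is not merged -/
theorem fold_usum_of (hP : M.Plane) (hc : (fold hh ho ho').Conn) {A : D → Prop}
    (ω' : {d // ¬ HR h d} → ℕ) {e : {d // ¬ HR h d}} (h5 : ¬ M.SameNode e.1 (h 5))
    (h1 : ¬ M.SameNode e.1 (h 1)) :
    (fold hh ho ho').usum (fun e => A e.1) ω' e = fout M h A ω' e.1 := by
  rw [usum_eq]
  unfold fout
  refine Finset.sum_congr rfl fun x _ => ?_
  refine ite_iff ?_ _ _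
  rw [fold_sameNode hh ho ho' hP hc]
  simp only [h1, h5, false_and, or_false]
  constructor
  · rintro ⟨h2, h3⟩
    exact ⟨h2, h3, fun h4 => h5 (by rw [← h4]; exact h2)⟩
  · rintro ⟨h2, h3, -⟩
    exact ⟨h2, h3⟩

/-- the units of the merged node -/
theorem fold_usum_merged (hP : M.Plane) (hc : (fold hh ho ho').Conn) {A : D → Prop} (hA : A (h 5))
    (ω' : {d // ¬ HR h d} → ℕ) (hne : ¬ M.SameNode (h 5) (h 1)) (h5 : ¬ HR h (h 5))
    {e : {d // ¬ HR h d}} (he : M.SameNode e.1 (h 5) ∨ M.SameNode e.1 (h 1)) :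
    (fold hh ho ho').usum (fun e => A e.1) ω' e =
      fout M h A ω' (h 5) + fout M h A ω' (h 1) + ω' ⟨h 5, h5⟩ := by
  rw [usum_eq]
  have key : ∀ x : {d // ¬ HR h d}, (fold hh ho ho').SameNode e x ↔
      (M.SameNode (h 5) x.1 ∨ M.SameNode (h 1) x.1) := by
    intro x
    rw [fold_sameNode hh ho ho' hP hc]
    constructor
    · rintro (h1 | ⟨-, h1⟩ | ⟨-, h1⟩)
      · rcases he with h2 | h2
        · exact Or.inl (h2.symm.trans h1)
        · exact Or.inr (h2.symm.trans h1)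
      · exact Or.inr h1.symm
      · exact Or.inl h1.symm
    · rcases he with h2 | h2
      · rintro (h1 | h1)
        · exact Or.inl (h2.trans h1)
        · exact Or.inr (Or.inl ⟨h2, h1.symm⟩)
      · rintro (h1 | h1)
        · exact Or.inr (Or.inr ⟨h2, h1.symm⟩)
        · exact Or.inl (h2.trans h1)
  refine Eq.trans (b := ∑ x : {d // ¬ HR h d},
      if (M.SameNode (h 5) x.1 ∨ M.SameNode (h 1) x.1) ∧ A x.1 then ω' x else 0)
    (Finset.sum_congr rfl fun x _ => ite_iff (and_congr_left fun _ => key x) _ _) ?_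
  rw [sum_ite_h5 (A := A) hA (fun x => M.SameNode (h 5) x ∨ M.SameNode (h 1) x) h5 ω',
    if_pos (Or.inl (Equiv.Perm.SameCycle.refl _ _))]
  congr 1
  unfold fout
  rw [← Finset.sum_add_distrib]
  refine Finset.sum_congr rfl fun x _ => ?_
  by_cases h2 : M.SameNode (h 5) x.1
  · have h3 : ¬ M.SameNode (h 1) x.1 := fun h3 => hne (h2.trans h3.symm)
    simp [h2, h3]
  · simp [h2]

/-- **Lift of a state through the fold of a hexagon.**  `t` is the state of the quad `hf hh`, `w` the state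
of the hexagon. -/
theorem Real.of_fold (hL : M.Legal) (hc : (fold hh ho ho').Conn)
    {E : (n : ℕ) → PState n → Prop} {A : D → Prop} (hAh : A (h 0)) {n : ℕ} {δ : ZMod n → D}
    (hb : M.Bd A n δ) {δ' : ZMod n → {d // ¬ HR h d}}
    (hδ' : ∀ i, ((fold hh ho ho').al (δ' i)).1 = M.al (δ i)) (hδA : ∀ i, A (δ' i).1)
    {s : PState n} {μ' : {d // ¬ HR h d} → {d // ¬ HR h d}} {ω' : {d // ¬ HR h d} → ℕ}
    (hR : (fold hh ho ho').Real E (fun e => A e.1) δ' s μ' ω')
    {t : PState 4} (ht : HasState μ' ω' (hf hh) t)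
    {w : PState 6} (hE : E 6 w) (hm0 : w.m 0 = 1) (hm1 : w.m 1 = 0)
    (hm : ∀ i : ZMod 4, w.m ((i.val : ZMod 6) + 2) = ((t.m i).val : ZMod 6) + 2)
    (hu0 : w.u 0 = 0) (hu2 : w.u 2 = t.u 0) (hu3 : w.u 3 = t.u 1) (hu4 : w.u 4 = t.u 2)
    (h1 : (∀ e, M.SameNode (h 1) e → A e) → fout M h A ω' (h 1) + w.u 1 = 3)
    (h1' : ∀ i, M.SameNode (h 1) (δ i) → fout M h A ω' (h 1) + w.u 1 = s.u i)
    (h5 : (∀ e, M.SameNode (h 5) e → A e) → fout M h A ω' (h 5) + w.u 5 = 3)
    (h5' : ∀ i, M.SameNode (h 5) (δ i) → fout M h A ω' (h 5) + w.u 5 = s.u i) :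
    ∃ μ ω, M.Real E A δ s μ ω ∧ HasState μ ω h w ∧
      (∀ e : {d // ¬ HR h d}, μ e.1 = (μ' e).1) ∧
      ∀ e : {d // ¬ HR h d}, e.1 ≠ h 5 → ω e.1 = ω' e := by
  have hnl := h_nl hh hL
  have hhA : ∀ i, A (h i) := fun i => (Sites.same (M := M) hb.site (h_same hh 0 i)).1 hAh
  have hAq' : ∀ d, HR h d → A d := by
    rintro d (rfl | rfl)
    · exact hhA 0
    · exact hhA 1
  have hr5 : ¬ HR h (h 5) := not_hr hh (by decide) (by decide)
  have hne : ∀ i j : ZMod 6, i ≠ j → ¬ M.SameNode (h i) (h j) := fun i j hij h4 =>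
    hij (hh.inj (hL.node_inj (h_same hh i j) h4))
  let μ : D → D := fun d => if hd : HR h d then hmu h d else (μ' ⟨d, hd⟩).1
  let ω : D → ℕ := fun d => if d = h 0 then 0 else if d = h 1 then w.u 1 else
    if d = h 5 then w.u 5 else if hd : HR h d then 0 else ω' ⟨d, hd⟩
  have hμ1 : ∀ d, HR h d → μ d = hmu h d := fun d hd => dif_pos hd
  have hμ2 : ∀ e : {d // ¬ HR h d}, μ e.1 = (μ' e).1 := fun e => dif_neg e.2
  have hω0 : ω (h 0) = 0 := if_pos rfl
  have hω1 : ω (h 1) = w.u 1 := by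
    show (if h 1 = h 0 then 0 else if h 1 = h 1 then w.u 1 else _) = w.u 1
    rw [if_neg (h_ne hh (by decide)), if_pos rfl]
  have hω5 : ω (h 5) = w.u 5 := by
    show (if h 5 = h 0 then 0 else if h 5 = h 1 then w.u 1 else if h 5 = h 5 then w.u 5 else _) =
      w.u 5
    rw [if_neg (h_ne hh (by decide)), if_neg (h_ne hh (by decide)), if_pos rfl]
  have hω2 : ∀ e : {d // ¬ HR h d}, e.1 ≠ h 5 → ω e.1 = ω' e := by
    intro e he
    show (if e.1 = h 0 then 0 else if e.1 = h 1 then w.u 1 else if e.1 = h 5 then w.u 5 else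
      if hd : HR h e.1 then 0 else ω' ⟨e.1, hd⟩) = ω' e
    rw [if_neg fun h2 => e.2 (Or.inl h2), if_neg fun h2 => e.2 (Or.inr h2), if_neg he,
      dif_neg e.2]
  have hst : HasState μ ω h w := by
    intro i
    have e1 : ∀ i : ZMod 4, μ (h ((i.val : ZMod 6) + 2)) = h (w.m ((i.val : ZMod 6) + 2)) := by
      intro i
      have h2 := hμ2 (hf hh i)
      rw [(ht i).1] at h2
      rw [hm i]
      exact h2
    rcases z6 i with rfl | rfl | rfl | rfl | rfl | rfl
    · exact ⟨by rw [hμ1 _ hr0, hmu0, hm0], by rw [hω0, hu0]⟩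
    · exact ⟨by rw [hμ1 _ hr1, hmu1 hh, hm1], hω1⟩
    · refine ⟨e1 0, ?_⟩
      rw [hu2, ← (ht 0).2]
      exact hω2 (hf hh 0) (h_ne hh (by decide))
    · refine ⟨e1 1, ?_⟩
      rw [hu3, ← (ht 1).2]
      exact hω2 (hf hh 1) (h_ne hh (by decide))
    · refine ⟨e1 2, ?_⟩
      rw [hu4, ← (ht 2).2]
      exact hω2 (hf hh 2) (h_ne hh (by decide))
    · exact ⟨e1 3, hω5⟩
  -- strands
  have hds : ∀ {d e : D}, DStrand M.al (hmu h) (HR h) d e → A d → A e → M.Str A μ d e :=
    fun hde hd he => str_of_dstrand hAq' (h_pairing hh).mem hμ1 hde hd he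
  have hstr : ∀ x y, (fold hh ho ho').Str (fun e => A e.1) μ' x y → M.Str A μ x.1 y.1 := by
    intro x y hxy
    induction hxy with
    | rel x y hxy =>
      rcases hxy.2 with h4 | h4
      · refine Relation.EqvGen.rel _ _ ⟨hxy.1, Or.inl ?_⟩
        rw [hμ2, h4]
      · have h6 := h4.2
        rw [h4.1] at h6
        rw [h4.1]
        exact hds (alR_spec M.inv (h_pairing hh) x) hxy.1 h6
    | refl x => exact Relation.EqvGen.refl _
    | symm x y _ ih => exact Relation.EqvGen.symm _ _ ih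
    | trans x y z _ _ ih1 ih2 => exact Relation.EqvGen.trans _ _ _ ih1 ih2
  have hδs : ∀ i, M.Str A μ (δ i) (δ' i).1 := by
    intro i
    have h4 : DStrand M.al (hmu h) (HR h) (M.al (δ i)) (δ' i).1 := by
      have h6 := alR_spec M.inv (h_pairing hh) ((fold hh ho ho').al (δ' i))
      rw [hδ'] at h6
      have h7 : alR M.al (hmu h) (HR h) ((fold hh ho ho').al (δ' i)) = δ' i :=
        (fold hh ho ho').inv (δ' i)
      rwa [h7] at h6
    generalize hx : M.al (δ i) = x at h4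
    generalize hy : (δ' i).1 = y at h4
    have hyA : A y := by rw [← hy]; exact hδA i
    cases h4 with
    | last h6 =>
      rw [← hx, M.inv]
      exact Relation.EqvGen.refl _
    | step h6 h7 =>
      rw [← hx, M.inv] at h6 h7
      have h8 := hAq' _ h6
      refine Relation.EqvGen.trans _ _ _ (Relation.EqvGen.rel _ _ ⟨h8, Or.inl rfl⟩) ?_
      rw [hμ1 _ h6]
      exact hds h7 (hAq' _ ((h_pairing hh).mem _ h6)) hyA
  -- sums
  have hsum1 : M.usum A ω (h 1) = fout M h A ω' (h 1) + w.u 1 := by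
    rw [usum_h hh hhA hω2, hω0, hω1, if_neg (hne 1 5 (by decide)),
      if_pos (Equiv.Perm.SameCycle.refl M.fs (h 1))]
    simp
  have hsum5 : M.usum A ω (h 5) = fout M h A ω' (h 5) + w.u 5 := by
    rw [usum_h hh hhA hω2, hω0, hω5, if_neg (hne 5 1 (by decide)),
      if_pos (Equiv.Perm.SameCycle.refl M.fs (h 5))]
    simp
  have hsum : ∀ e : {d // ¬ HR h d}, ¬ M.SameNode e.1 (h 5) → ¬ M.SameNode e.1 (h 1) →
      M.usum A ω e.1 = (fold hh ho ho').usum (fun e => A e.1) ω' e := by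
    intro e h4 h6
    rw [usum_h hh hhA hω2, hω0, if_neg h4, if_neg h6, fold_usum_of hh ho ho' hL.plane hc ω' h4 h6]
    simp
  refine ⟨μ, ω, ⟨?_, fun i => ?_, fun d hd => ?_, fun i => ?_, fun d hd => ?_⟩, hst, hμ2, hω2⟩
  · intro d hd
    by_cases hds : M.SameSite (h 0) d
    · obtain ⟨j, hj⟩ := hh.mem hds
      exact ⟨6, h, w, by decide, hh, ⟨j, hj⟩, hE, hst⟩
    · have hdq : ¬ HR h d := by
        rintro (h2 | h2)
        · exact hds (by rw [h2])
        · exact hds (by rw [h2]; exact h_same hh 0 1)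
      obtain ⟨k, γ, t', hk, hγ, ⟨i, hi⟩, ht', hst'⟩ := hR.loc ⟨d, hdq⟩ hd
      have hγd : ∀ j, ¬ M.SameSite (h 0) (γ j).1 := by
        intro j h2
        have h3 := hγ.same hk i j
        rw [hi, fold_sameSite] at h3
        exact hds (h2.trans h3.symm)
      refine ⟨k, fun j => (γ j).1, t', hk, ⟨fun x y hxy => hγ.inj (Subtype.ext hxy), fun j => ?_⟩,
        ⟨i, congrArg Subtype.val hi⟩, ht', fun j => ?_⟩
      · have h2 : ¬ HR h (M.nx (γ j).1) := by
          intro h3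
          rcases hr_nx hh h3 with h4 | h4
          · exact hγd j (by rw [h4]; exact h_same hh 0 5)
          · exact hγd j (by rw [h4])
        rw [← hγ.nx, fold_nx_of hh ho ho' h2]
      · have h2 : (γ j).1 ≠ h 5 := fun h3 => hγd j (by rw [h3]; exact h_same hh 0 5)
        rw [hμ2, hω2 _ h2, (hst' j).1, (hst' j).2]
        exact ⟨rfl, rfl⟩
  · exact Relation.EqvGen.trans _ _ _ (hδs i) (Relation.EqvGen.trans _ _ _ (hstr _ _ (hR.str i))
      (Relation.EqvGen.symm _ _ (hδs _)))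
  · have key : ∀ e : {d // ¬ HR h d}, A e.1 → ∃ i, M.Str A μ e.1 (δ i) := by
      intro e he
      obtain ⟨i, hi⟩ := hR.all e he
      exact ⟨i, Relation.EqvGen.trans _ _ _ (hstr _ _ hi) (Relation.EqvGen.symm _ _ (hδs i))⟩
    by_cases hdq : HR h d
    · have hal : ¬ HR h (M.al d) := by
        rcases hdq with rfl | rfl
        · exact hnl 0
        · exact hnl 1
      by_cases hAal : A (M.al d)
      · obtain ⟨i, hi⟩ := key ⟨M.al d, hal⟩ hAal
        exact ⟨i, Relation.EqvGen.trans _ _ _ (Relation.EqvGen.rel _ _ ⟨hd, Or.inr ⟨rfl, hAal⟩⟩) hi⟩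
      · obtain ⟨i, hi⟩ := (hb.mem _).1 ⟨hd, hAal⟩
        exact ⟨i, by rw [hi]; exact Relation.EqvGen.refl _⟩
    · exact key ⟨d, hdq⟩ hd
  · have hi := (hb.mem (δ i)).2 ⟨i, rfl⟩
    have hrq : ¬ HR h (M.fs (δ i)) := by
      intro h4
      have h6 := hAq' _ h4
      rw [sites_fs (M := M) hb.site] at h6
      exact hi.2 h6
    have hn1 : M.SameNode (δ i) (M.fs (δ i)) := ⟨1, by simp⟩
    have hn2 : (fold hh ho ho').SameNode (δ' i) ⟨M.fs (δ i), hrq⟩ := by
      refine ⟨1, ?_⟩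
      rw [zpow_one]
      show (fold hh ho ho').nx.symm ((fold hh ho ho').al (δ' i)) = _
      have h6 : ¬ HR h (M.nx (M.fs (δ i))) := by
        rw [nx_fs]
        intro h7
        exact hi.2 (hAq' _ h7)
      rw [Equiv.symm_apply_eq, fold_nx_of hh ho ho' (d := ⟨M.fs (δ i), hrq⟩) h6]
      apply Subtype.ext
      rw [hδ']
      exact (nx_fs M (δ i)).symm
    by_cases h4 : M.SameNode (h 1) (δ i)
    · rw [usum_same h4.symm, hsum1]
      exact h1' i h4
    · by_cases h6 : M.SameNode (h 5) (δ i)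
      · rw [usum_same h6.symm, hsum5]
        exact h5' i h6
      · rw [usum_same hn1, hsum ⟨M.fs (δ i), hrq⟩ (fun h7 => h6 (hn1.trans h7).symm)
          (fun h7 => h4 (hn1.trans h7).symm), ← usum_same hn2]
        exact hR.bdry i
  · by_cases h4 : M.SameNode (h 1) d
    · rw [usum_same h4.symm, hsum1]
      exact h1 fun e he => hd e (h4.symm.trans he)
    · by_cases h6 : M.SameNode (h 5) d
      · rw [usum_same h6.symm, hsum5]
        exact h5 fun e he => hd e (h6.symm.trans he)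
      · have key : ∀ e : {d // ¬ HR h d}, M.SameNode d e.1 → M.usum A ω d = 3 := by
          intro e he
          have h7 : ¬ M.SameNode e.1 (h 5) := fun h7 => h6 (he.trans h7).symm
          have h8 : ¬ M.SameNode e.1 (h 1) := fun h8 => h4 (he.trans h8).symm
          rw [usum_same he, hsum e h7 h8]
          refine hR.inner e fun f hf => ?_
          rw [fold_sameNode hh ho ho' hL.plane hc] at hf
          simp only [h7, h8, false_and, or_false] at hf
          exact hd _ (he.trans hf)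
        by_cases hdq : HR h d
        · -- another sector of the node of the fold point
          rcases hdq with rfl | rfl
          · refine key ⟨M.fs (h 0), fun h7 => ?_⟩ ⟨1, by simp⟩
            rcases h7 with h7 | h7
            · have h8 : M.nx (M.fs (h 0)) = h 1 := by rw [h7, h_nx0 hh]
              rw [nx_fs] at h8
              exact hnl 0 (Or.inr h8)
            · have h8 : M.nx (M.fs (h 0)) = h 2 := by rw [h7, h_nx1 hh]
              rw [nx_fs] at h8
              exact hL.noloop (h 0) (by rw [h8]; exact h_same hh 0 2)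
          · exact absurd (Equiv.Perm.SameCycle.refl _ _) h4
        · exact key ⟨d, hdq⟩ (Equiv.Perm.SameCycle.refl _ _)

end

end DMap

end GT33
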