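import Pool.Agent.GT33.DFold
import Pool.Agent.GT33.Final

/-!
# GT33 module DFOLDL: the fold of a hexagon for site-dependent local states
-/

open Classical

namespace GT33

namespace DMap

variable {D : Type} {M : DMap D}

section

variable [Fintype D] {h : ZMod 6 → D} {o : D → Bool} (hh : M.SiteNum 6 h)
  (ho : ∀ d, o (M.nx d) = !o d) (ho' : ∀ d, o (M.al d) = !o d)

/-- **Lift of a state through the fold of a hexagon**, with site-dependent local states.  `t` is the state of the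
quad `hf hh`, `w` the state of the hexagon. -/
theorem RealL.of_fold (hL : M.Legal) (hc : (fold hh ho ho').Conn)
    {L : LS D} {L' : LS {d // ¬ HR h d}} {A : D → Prop} (hAh : A (h 0)) {n : ℕ} {δ : ZMod n → D}
    (hb : M.Bd A n δ) {δ' : ZMod n → {d // ¬ HR h d}}
    (hδ' : ∀ i, ((fold hh ho ho').al (δ' i)).1 = M.al (δ i)) (hδA : ∀ i, A (δ' i).1)
    {s : PState n} {μ' : {d // ¬ HR h d} → {d // ¬ HR h d}} {ω' : {d // ¬ HR h d} → ℕ}
    (hR : (fold hh ho ho').RealL L' (fun e => A e.1) δ' s μ' ω')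
    (hLL : ∀ (n : ℕ) (γ : ZMod n → {d // ¬ HR h d}) (t : PState n), n ≠ 0 →
      (fold hh ho ho').SiteNum n γ → (∀ j, A (γ j).1) → (∀ j, ¬ M.SameSite (h 0) (γ j).1) →
      L' n γ t → L n (fun j => (γ j).1) t)
    {t : PState 4} (ht : HasState μ' ω' (hf hh) t)
    {w : PState 6} (hE : L 6 h w) (hm0 : w.m 0 = 1) (hm1 : w.m 1 = 0)
    (hm : ∀ i : ZMod 4, w.m ((i.val : ZMod 6) + 2) = ((t.m i).val : ZMod 6) + 2)
    (hu0 : w.u 0 = 0) (hu2 : w.u 2 = t.u 0) (hu3 : w.u 3 = t.u 1) (hu4 : w.u 4 = t.u 2)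
    (h1 : (∀ e, M.SameNode (h 1) e → A e) → fout M h A ω' (h 1) + w.u 1 = 3)
    (h1' : ∀ i, M.SameNode (h 1) (δ i) → fout M h A ω' (h 1) + w.u 1 = s.u i)
    (h5 : (∀ e, M.SameNode (h 5) e → A e) → fout M h A ω' (h 5) + w.u 5 = 3)
    (h5' : ∀ i, M.SameNode (h 5) (δ i) → fout M h A ω' (h 5) + w.u 5 = s.u i) :
    ∃ μ ω, M.RealL L A δ s μ ω ∧ HasState μ ω h w ∧
      (∀ e : {d // ¬ HR h d}, μ e.1 = (μ' e).1) ∧
      ∀ e : {d // ¬ HR h d}, e.1 ≠ h 5 → ω e.1 = ω' e := by
  have hnl := h_nl hh hL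
  have hhA : ∀ i, A (h i) := fun i => (Sites.same (M := M) hb.site (h_same hh 0 i)).1 hAh
  have hAq' : ∀ d, HR h d → A d := by
    rintro d (rfl | rfl)
    · exact hhA 0
    · exact hhA 1
  have hr5 : ¬ HR h (h 5) := not_hr hh (by decide) (by decide)
  have hne : ∀ i j : ZMod 6, i ≠ j → ¬ M.SameNode (h i) (h j) := fun i j hij h4 =>
    hij (hh.inj (hL.node_inj (h_same hh i j) h4))
  let μ : D → D := fun d => if hd : HR h d then hmu h d else (μ' ⟨d, hd⟩).1
  let ω : D → ℕ := fun d => if d = h 0 then 0 else if d = h 1 then w.u 1 else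
    if d = h 5 then w.u 5 else if hd : HR h d then 0 else ω' ⟨d, hd⟩
  have hμ1 : ∀ d, HR h d → μ d = hmu h d := fun d hd => dif_pos hd
  have hμ2 : ∀ e : {d // ¬ HR h d}, μ e.1 = (μ' e).1 := fun e => dif_neg e.2
  have hω0 : ω (h 0) = 0 := if_pos rfl
  have hω1 : ω (h 1) = w.u 1 := by
    show (if h 1 = h 0 then 0 else if h 1 = h 1 then w.u 1 else _) = w.u 1
    rw [if_neg (h_ne hh (by decide)), if_pos rfl]
  have hω5 : ω (h 5) = w.u 5 := by
    show (if h 5 = h 0 then 0 else if h 5 = h 1 then w.u 1 else if h 5 = h 5 then w.u 5 else _) =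
      w.u 5
    rw [if_neg (h_ne hh (by decide)), if_neg (h_ne hh (by decide)), if_pos rfl]
  have hω2 : ∀ e : {d // ¬ HR h d}, e.1 ≠ h 5 → ω e.1 = ω' e := by
    intro e he
    show (if e.1 = h 0 then 0 else if e.1 = h 1 then w.u 1 else if e.1 = h 5 then w.u 5 else
      if hd : HR h e.1 then 0 else ω' ⟨e.1, hd⟩) = ω' e
    rw [if_neg fun h2 => e.2 (Or.inl h2), if_neg fun h2 => e.2 (Or.inr h2), if_neg he,
      dif_neg e.2]
  have hst : HasState μ ω h w := by
    intro i
    have e1 : ∀ i : ZMod 4, μ (h ((i.val : ZMod 6) + 2)) = h (w.m ((i.val : ZMod 6) + 2)) := by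
      intro i
      have h2 := hμ2 (hf hh i)
      rw [(ht i).1] at h2
      rw [hm i]
      exact h2
    rcases z6 i with rfl | rfl | rfl | rfl | rfl | rfl
    · exact ⟨by rw [hμ1 _ hr0, hmu0, hm0], by rw [hω0, hu0]⟩
    · exact ⟨by rw [hμ1 _ hr1, hmu1 hh, hm1], hω1⟩
    · refine ⟨e1 0, ?_⟩
      rw [hu2, ← (ht 0).2]
      exact hω2 (hf hh 0) (h_ne hh (by decide))
    · refine ⟨e1 1, ?_⟩
      rw [hu3, ← (ht 1).2]
      exact hω2 (hf hh 1) (h_ne hh (by decide))
    · refine ⟨e1 2, ?_⟩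
      rw [hu4, ← (ht 2).2]
      exact hω2 (hf hh 2) (h_ne hh (by decide))
    · exact ⟨e1 3, hω5⟩
  -- strands
  have hds : ∀ {d e : D}, DStrand M.al (hmu h) (HR h) d e → A d → A e → M.Str A μ d e :=
    fun hde hd he => str_of_dstrand hAq' (h_pairing hh).mem hμ1 hde hd he
  have hstr : ∀ x y, (fold hh ho ho').Str (fun e => A e.1) μ' x y → M.Str A μ x.1 y.1 := by
    intro x y hxy
    induction hxy with
    | rel x y hxy =>
      rcases hxy.2 with h4 | h4
      · refine Relation.EqvGen.rel _ _ ⟨hxy.1, Or.inl ?_⟩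
        rw [hμ2, h4]
      · have h6 := h4.2
        rw [h4.1] at h6
        rw [h4.1]
        exact hds (alR_spec M.inv (h_pairing hh) x) hxy.1 h6
    | refl x => exact Relation.EqvGen.refl _
    | symm x y _ ih => exact Relation.EqvGen.symm _ _ ih
    | trans x y z _ _ ih1 ih2 => exact Relation.EqvGen.trans _ _ _ ih1 ih2
  have hδs : ∀ i, M.Str A μ (δ i) (δ' i).1 := by
    intro i
    have h4 : DStrand M.al (hmu h) (HR h) (M.al (δ i)) (δ' i).1 := by
      have h6 := alR_spec M.inv (h_pairing hh) ((fold hh ho ho').al (δ' i))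
      rw [hδ'] at h6
      have h7 : alR M.al (hmu h) (HR h) ((fold hh ho ho').al (δ' i)) = δ' i :=
        (fold hh ho ho').inv (δ' i)
      rwa [h7] at h6
    generalize hx : M.al (δ i) = x at h4
    generalize hy : (δ' i).1 = y at h4
    have hyA : A y := by rw [← hy]; exact hδA i
    cases h4 with
    | last h6 =>
      rw [← hx, M.inv]
      exact Relation.EqvGen.refl _
    | step h6 h7 =>
      rw [← hx, M.inv] at h6 h7
      have h8 := hAq' _ h6
      refine Relation.EqvGen.trans _ _ _ (Relation.EqvGen.rel _ _ ⟨h8, Or.inl rfl⟩) ?_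
      rw [hμ1 _ h6]
      exact hds h7 (hAq' _ ((h_pairing hh).mem _ h6)) hyA
  -- sums
  have hsum1 : M.usum A ω (h 1) = fout M h A ω' (h 1) + w.u 1 := by
    rw [usum_h hh hhA hω2, hω0, hω1, if_neg (hne 1 5 (by decide)),
      if_pos (Equiv.Perm.SameCycle.refl M.fs (h 1))]
    simp
  have hsum5 : M.usum A ω (h 5) = fout M h A ω' (h 5) + w.u 5 := by
    rw [usum_h hh hhA hω2, hω0, hω5, if_neg (hne 5 1 (by decide)),
      if_pos (Equiv.Perm.SameCycle.refl M.fs (h 5))]
    simp
  have hsum : ∀ e : {d // ¬ HR h d}, ¬ M.SameNode e.1 (h 5) → ¬ M.SameNode e.1 (h 1) →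
      M.usum A ω e.1 = (fold hh ho ho').usum (fun e => A e.1) ω' e := by
    intro e h4 h6
    rw [usum_h hh hhA hω2, hω0, if_neg h4, if_neg h6, fold_usum_of hh ho ho' hL.plane hc ω' h4 h6]
    simp
  refine ⟨μ, ω, ⟨?_, fun i => ?_, fun d hd => ?_, fun i => ?_, fun d hd => ?_⟩, hst, hμ2, hω2⟩
  · intro d hd
    by_cases hds : M.SameSite (h 0) d
    · obtain ⟨j, hj⟩ := hh.mem hds
      exact ⟨6, h, w, by decide, hh, ⟨j, hj⟩, hE, hst⟩
    · have hdq : ¬ HR h d := by
        rintro (h2 | h2)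
        · exact hds (by rw [h2])
        · exact hds (by rw [h2]; exact h_same hh 0 1)
      obtain ⟨k, γ, t', hk, hγ, ⟨i, hi⟩, ht', hst'⟩ := hR.loc ⟨d, hdq⟩ hd
      have hγd : ∀ j, ¬ M.SameSite (h 0) (γ j).1 := by
        intro j h2
        have h3 := hγ.same hk i j
        rw [hi, fold_sameSite] at h3
        exact hds (h2.trans h3.symm)
      have hγA : ∀ j, A (γ j).1 := fun j => by
        have h3 := hγ.same hk i j
        rw [hi, fold_sameSite] at h3
        exact (Sites.same (M := M) hb.site h3).1 hd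
      refine ⟨k, fun j => (γ j).1, t', hk, ⟨fun x y hxy => hγ.inj (Subtype.ext hxy), fun j => ?_⟩,
        ⟨i, congrArg Subtype.val hi⟩, hLL k γ t' hk hγ hγA hγd ht', fun j => ?_⟩
      · have h2 : ¬ HR h (M.nx (γ j).1) := by
          intro h3
          rcases hr_nx hh h3 with h4 | h4
          · exact hγd j (by rw [h4]; exact h_same hh 0 5)
          · exact hγd j (by rw [h4])
        rw [← hγ.nx, fold_nx_of hh ho ho' h2]
      · have h2 : (γ j).1 ≠ h 5 := fun h3 => hγd j (by rw [h3]; exact h_same hh 0 5)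
        rw [hμ2, hω2 _ h2, (hst' j).1, (hst' j).2]
        exact ⟨rfl, rfl⟩
  · exact Relation.EqvGen.trans _ _ _ (hδs i) (Relation.EqvGen.trans _ _ _ (hstr _ _ (hR.str i))
      (Relation.EqvGen.symm _ _ (hδs _)))
  · have key : ∀ e : {d // ¬ HR h d}, A e.1 → ∃ i, M.Str A μ e.1 (δ i) := by
      intro e he
      obtain ⟨i, hi⟩ := hR.all e he
      exact ⟨i, Relation.EqvGen.trans _ _ _ (hstr _ _ hi) (Relation.EqvGen.symm _ _ (hδs i))⟩
    by_cases hdq : HR h d
    · have hal : ¬ HR h (M.al d) := by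
        rcases hdq with rfl | rfl
        · exact hnl 0
        · exact hnl 1
      by_cases hAal : A (M.al d)
      · obtain ⟨i, hi⟩ := key ⟨M.al d, hal⟩ hAal
        exact ⟨i, Relation.EqvGen.trans _ _ _ (Relation.EqvGen.rel _ _ ⟨hd, Or.inr ⟨rfl, hAal⟩⟩) hi⟩
      · obtain ⟨i, hi⟩ := (hb.mem _).1 ⟨hd, hAal⟩
        exact ⟨i, by rw [hi]; exact Relation.EqvGen.refl _⟩
    · exact key ⟨d, hdq⟩ hd
  · have hi := (hb.mem (δ i)).2 ⟨i, rfl⟩
    have hrq : ¬ HR h (M.fs (δ i)) := by
      intro h4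
      have h6 := hAq' _ h4
      rw [sites_fs (M := M) hb.site] at h6
      exact hi.2 h6
    have hn1 : M.SameNode (δ i) (M.fs (δ i)) := ⟨1, by simp⟩
    have hn2 : (fold hh ho ho').SameNode (δ' i) ⟨M.fs (δ i), hrq⟩ := by
      refine ⟨1, ?_⟩
      rw [zpow_one]
      show (fold hh ho ho').nx.symm ((fold hh ho ho').al (δ' i)) = _
      have h6 : ¬ HR h (M.nx (M.fs (δ i))) := by
        rw [nx_fs]
        intro h7
        exact hi.2 (hAq' _ h7)
      rw [Equiv.symm_apply_eq, fold_nx_of hh ho ho' (d := ⟨M.fs (δ i), hrq⟩) h6]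
      apply Subtype.ext
      rw [hδ']
      exact (nx_fs M (δ i)).symm
    by_cases h4 : M.SameNode (h 1) (δ i)
    · rw [usum_same h4.symm, hsum1]
      exact h1' i h4
    · by_cases h6 : M.SameNode (h 5) (δ i)
      · rw [usum_same h6.symm, hsum5]
        exact h5' i h6
      · rw [usum_same hn1, hsum ⟨M.fs (δ i), hrq⟩ (fun h7 => h6 (hn1.trans h7).symm)
          (fun h7 => h4 (hn1.trans h7).symm), ← usum_same hn2]
        exact hR.bdry i
  · by_cases h4 : M.SameNode (h 1) d
    · rw [usum_same h4.symm, hsum1]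
      exact h1 fun e he => hd e (h4.symm.trans he)
    · by_cases h6 : M.SameNode (h 5) d
      · rw [usum_same h6.symm, hsum5]
        exact h5 fun e he => hd e (h6.symm.trans he)
      · have key : ∀ e : {d // ¬ HR h d}, M.SameNode d e.1 → M.usum A ω d = 3 := by
          intro e he
          have h7 : ¬ M.SameNode e.1 (h 5) := fun h7 => h6 (he.trans h7).symm
          have h8 : ¬ M.SameNode e.1 (h 1) := fun h8 => h4 (he.trans h8).symm
          rw [usum_same he, hsum e h7 h8]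
          refine hR.inner e fun f hf => ?_
          rw [fold_sameNode hh ho ho' hL.plane hc] at hf
          simp only [h7, h8, false_and, or_false] at hf
          exact hd _ (he.trans hf)
        by_cases hdq : HR h d
        · -- another sector of the node of the fold point
          rcases hdq with rfl | rfl
          · refine key ⟨M.fs (h 0), fun h7 => ?_⟩ ⟨1, by simp⟩
            rcases h7 with h7 | h7
            · have h8 : M.nx (M.fs (h 0)) = h 1 := by rw [h7, h_nx0 hh]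
              rw [nx_fs] at h8
              exact hnl 0 (Or.inr h8)
            · have h8 : M.nx (M.fs (h 0)) = h 2 := by rw [h7, h_nx1 hh]
              rw [nx_fs] at h8
              exact hL.noloop (h 0) (by rw [h8]; exact h_same hh 0 2)
          · exact absurd (Equiv.Perm.SameCycle.refl _ _) h4
        · exact key ⟨d, hdq⟩ (Equiv.Perm.SameCycle.refl _ _)

end

end DMap

end GT33
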