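import Pool.Agent.GT33.DGen

/-!
# GT33 module DHAT: the folded map

`fmap hF ho ho'`: the map in which all the sites with a sector in `F` are folded.  `fmap_conn`: it is connected if the
identifications form a forest.
-/

open Classical

namespace GT33

namespace DMap

variable {D : Type} {M : DMap D} {F : D → Prop}

section

variable [Finite D] {o : D → Bool} (hF : M.FoldSet F)
  (ho : ∀ d, o (M.nx d) = !o d) (ho' : ∀ d, o (M.al d) = !o d)

/-- the folded map -/
noncomputable abbrev fmap : DMap {d // ¬ FR M F d} :=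
  M.smooth hF.pairing ho' (fun r hr => hF.col ho r hr)

theorem fmap_nx_of {d : {d // ¬ FR M F d}} (hd : ¬ FR M F (M.nx d.1)) :
    (fmap hF ho ho').nx d = ⟨M.nx d.1, hd⟩ :=
  ret_eq M.nx.injective (Ret.of_last hd rfl)

omit [Finite D] in
/-- the removed dart after a dart -/
theorem FoldSet.next {d : D} (hd : ¬ FR M F d) (hn : FR M F (M.nx d)) :
    F (M.nx d) ∧ M.deg (M.nx d) ≠ 4 := by
  rcases FoldSet.cases hn with h | ⟨e, h, h1⟩ | ⟨e, h, h4, h1⟩ | ⟨e, h, h4, h1⟩
  · refine ⟨h, fun h4 => hd ?_⟩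
    have h2 := FoldSet.r3 h h4
    rwa [← nx_four' h4, Equiv.symm_apply_apply] at h2
  · exact absurd (FoldSet.r0 h) (by rw [← M.nx.injective h1]; exact hd)
  · exact absurd (FoldSet.r1 h) (by rw [← M.nx.injective h1]; exact hd)
  · exact absurd (FoldSet.r2 h h4) (by rw [← M.nx.injective h1]; exact hd)

omit [Finite D] in
/-- the darts of a folded hexagon which stay -/
theorem FoldSet.stay {e : D} (hF : M.FoldSet F) (h : F e) (h6 : M.deg e ≠ 4) {x : D}
    (hs : M.SameSite e x) (h1 : x ≠ e) (h2 : x ≠ M.nx e) : ¬ FR M F x := by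
  intro hx
  rcases FoldSet.cases hx with h | ⟨e', h', rfl⟩ | ⟨e', h', h4, rfl⟩ | ⟨e', h', h4, rfl⟩
  · exact h1 (hF.uniq _ _ ‹F e› h hs)
  · exact h2 (by rw [hF.uniq _ _ h h' (hs.trans (site_nx e').symm)])
  · exact h6 (by rw [deg_same hs, deg_nx, deg_nx, h4])
  · exact h6 (by rw [deg_same hs, deg_nx, deg_nx, deg_nx, h4])

theorem fmap_nx_fold {d : {d // ¬ FR M F d}} (h : F (M.nx d.1))
    (h3 : ¬ FR M F (M.nx (M.nx (M.nx d.1)))) :
    (fmap hF ho ho').nx d = ⟨M.nx (M.nx (M.nx d.1)), h3⟩ := by
  refine ret_eq M.nx.injective (Ret.of_step (c := M.nx d.1) (not_not.2 (FoldSet.r0 h)) rfl ?_)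
  exact Ret.of_step (c := M.nx (M.nx d.1)) (not_not.2 (FoldSet.r1 h)) rfl
    (Ret.of_last h3 rfl)

theorem fmap_al_of {d : {d // ¬ FR M F d}} (hd : ¬ FR M F (M.al d.1)) :
    (fmap hF ho ho').al d = ⟨M.al d.1, hd⟩ :=
  smooth_al hF.pairing ho' (fun r hr => hF.col ho r hr) (DStrand.last hd)

theorem fmap_sameSite (d e : {d // ¬ FR M F d}) :
    (fmap hF ho ho').SameSite d e ↔ M.SameSite d.1 e.1 :=
  retPerm_sameCycle M.nx _ d e

theorem sites_fmap {B : D → Prop} (hB : M.Sites B) : (fmap hF ho ho').Sites fun d => B d.1 := by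
  intro d
  have h1 : (fmap hF ho ho').SameSite d ((fmap hF ho ho').nx d) := ⟨1, by simp⟩
  rw [fmap_sameSite] at h1
  exact (hB.same h1).symm

theorem exists_sites_of_fmap {B' : {d // ¬ FR M F d} → Prop}
    (hB' : (fmap hF ho ho').Sites B') :
    ∃ B : D → Prop, M.Sites B ∧ (∀ d : {d // ¬ FR M F d}, B d.1 ↔ B' d) := by
  refine ⟨fun d => ∃ x : {d // ¬ FR M F d}, M.SameSite d x.1 ∧ B' x, fun d => ?_, fun d => ?_⟩
  · constructor
    · rintro ⟨x, h1, h2⟩
      exact ⟨x, (site_nx d).trans h1, h2⟩
    · rintro ⟨x, h1, h2⟩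
      exact ⟨x, (site_nx d).symm.trans h1, h2⟩
  · constructor
    · rintro ⟨x, h1, h2⟩
      exact (hB'.same ((fmap_sameSite hF ho ho' d x).2 h1)).2 h2
    · intro h
      exact ⟨d, Equiv.Perm.SameCycle.refl _ _, h⟩

end

/-! ### connectedness -/

section

variable [Fintype D] {o : D → Bool} (hF : M.FoldSet F)
  (ho : ∀ d, o (M.nx d) = !o d) (ho' : ∀ d, o (M.al d) = !o d)

/-- the identifications form a forest -/
def Forest (M : DMap D) (F : D → Prop) : Prop :=
  ∀ e₀, F e₀ → ∃ w : D → ZMod 2, (∀ d, w (M.fs d) = w d) ∧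
    ∀ e, F e → w (M.nx.symm e) + w (M.nx e) = ind (e = e₀)

theorem fmap_conn (hM : M.Conn) (hf : Forest M F) : (fmap hF ho ho').Conn := by
  intro B' hB' hal hne
  let q : {d // ¬ FR M F d} → ZMod 2 := fun x => ind (B' x)
  have hq : ∀ x, q ((fmap hF ho ho').al x) = q x := by
    intro x
    have h1 : B' ((fmap hF ho ho').al x) ↔ B' x := by
      refine ⟨fun h => ?_, hal x⟩
      have := hal _ h
      rwa [(fmap hF ho ho').inv] at this
    show ind _ = ind _
    by_cases h2 : B' x
    · rw [ind_true h2, ind_true (h1.2 h2)]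
    · rw [ind_false h2, ind_false fun h => h2 (h1.1 h)]
  have hqn : ∀ {x y : {d // ¬ FR M F d}}, M.SameSite x.1 y.1 → q x = q y := by
    intro x y hxy
    have h1 := hB'.same ((fmap_sameSite hF ho ho' x y).2 hxy)
    show ind _ = ind _
    by_cases h2 : B' x
    · rw [ind_true h2, ind_true (h1.1 h2)]
    · rw [ind_false h2, ind_false fun h => h2 (h1.2 h)]
  let c : D → ZMod 2 := extR M.al (fmu M F) (FR M F) q
  have c1 : ∀ x : {d // ¬ FR M F d}, c x.1 = q x := fun x => extR_coe M.inv hF.pairing hq x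
  have c2 : ∀ d, FR M F d → c (fmu M F d) = c d := fun d hd => extR_mu M.inv hF.pairing hq hd
  have c3 : ∀ d, c (M.al d) = c d := fun d => extR_al M.inv hF.pairing hq d
  -- the values of the sites
  let c' : D → ZMod 2 := fun d =>
    if h : ∃ e, F e ∧ M.SameSite e d then c (M.nx (M.nx h.choose)) else c d
  have hc' : ∀ {e d}, F e → M.SameSite e d → c' d = c (M.nx (M.nx e)) := by
    intro e d he hs
    have hex : ∃ e, F e ∧ M.SameSite e d := ⟨e, he, hs⟩
    show (if h : ∃ e, F e ∧ M.SameSite e d then c (M.nx (M.nx h.choose)) else c d) = _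
    rw [dif_pos hex, hF.uniq _ _ he hex.choose_spec.1 (hs.trans hex.choose_spec.2.symm)]
  have hc'' : ∀ {d}, (¬ ∃ e, F e ∧ M.SameSite e d) → c' d = c d := fun {d} h => dif_neg h
  have hnR : ∀ {d}, (¬ ∃ e, F e ∧ M.SameSite e d) → ¬ FR M F d := by
    intro d h hd
    apply h
    rcases FoldSet.cases hd with h1 | ⟨e, h1, rfl⟩ | ⟨e, h1, -, rfl⟩ | ⟨e, h1, -, rfl⟩
    · exact ⟨d, h1, Equiv.Perm.SameCycle.refl _ _⟩
    · exact ⟨e, h1, site_nx e⟩
    · exact ⟨e, h1, (site_nx e).trans (site_nx _)⟩
    · exact ⟨e, h1, ((site_nx e).trans (site_nx _)).trans (site_nx _)⟩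
  have hc'n : ∀ d, c' (M.nx d) = c' d := by
    intro d
    by_cases h : ∃ e, F e ∧ M.SameSite e d
    · obtain ⟨e, he, hs⟩ := h
      rw [hc' he hs, hc' he (hs.trans (site_nx d))]
    · have h' : ¬ ∃ e, F e ∧ M.SameSite e (M.nx d) := by
        rintro ⟨e, he, hs⟩
        exact h ⟨e, he, hs.trans (site_nx d).symm⟩
      rw [hc'' h, hc'' h']
      have e1 := c1 ⟨d, hnR h⟩
      have e2 := c1 ⟨M.nx d, hnR h'⟩
      have e3 : q ⟨M.nx d, hnR h'⟩ = q ⟨d, hnR h⟩ := hqn (site_nx d).symm
      rw [e3, ← e1] at e2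
      exact e2
  let α : D → ZMod 2 := fun d => if F d then c d + c (M.nx (M.nx d)) else 0
  have hdiff : ∀ d, c d + c' d = α d + α (M.nx.symm d) := by
    intro d
    by_cases h : ∃ e, F e ∧ M.SameSite e d
    · obtain ⟨e, he, hs⟩ := h
      rw [hc' he hs]
      by_cases h1 : d = e
      · subst h1
        have h2 : α (M.nx.symm d) = 0 := if_neg (hF.m1 he)
        have h3 : α d = c d + c (M.nx (M.nx d)) := if_pos he
        rw [h2, h3, add_zero]
      · by_cases h2 : d = M.nx e
        · subst h2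
          have h3 : α (M.nx e) = 0 := if_neg (hF.n1 he)
          have h4 : α e = c e + c (M.nx (M.nx e)) := if_pos he
          have h5 : c (M.nx e) = c e := by
            rw [← FoldSet.mu0 he]
            exact c2 e (FoldSet.r0 he)
          rw [Equiv.symm_apply_apply, h3, h4, h5, zero_add]
        · have h3 : α d = 0 := if_neg fun h => h1 (hF.uniq _ _ he h hs)
          have h4 : α (M.nx.symm d) = 0 := if_neg fun h => h2 (by
            rw [← hF.uniq _ _ he h (hs.trans (site_nx_symm d)), Equiv.apply_symm_apply])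
          rw [h3, h4, add_zero]
          have h5 : c d = c (M.nx (M.nx e)) := by
            rcases hF.deg e he with h4 | h6
            · have : d = M.nx (M.nx e) ∨ d = M.nx (M.nx (M.nx e)) := by
                rcases mem_quad h4 hs with h | h | h | h
                · exact absurd h h1
                · exact absurd h h2
                · exact Or.inl h
                · exact Or.inr h
              rcases this with h | h
              · rw [h]
              · rw [h, ← hF.mu2 he h4]
                exact c2 _ (FoldSet.r2 he h4)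
            · have h7 := hF.stay he (by omega) hs h1 h2
              have hs2 : M.SameSite e (M.nx (M.nx e)) := (site_nx e).trans (site_nx _)
              have h8 := hF.stay he (by omega) hs2 (hF.ne2 he) fun h =>
                hF.ne1 he (M.nx.injective h)
              have e1 := c1 ⟨d, h7⟩
              have e2 := c1 ⟨M.nx (M.nx e), h8⟩
              have e3 : q ⟨d, h7⟩ = q ⟨M.nx (M.nx e), h8⟩ := hqn (hs.symm.trans hs2)
              rw [e3, ← e2] at e1
              exact e1
          rw [h5]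
          exact dcyc_char _
    · rw [hc'' h]
      have h3 : α d = 0 := if_neg fun h1 => h ⟨d, h1, Equiv.Perm.SameCycle.refl _ _⟩
      have h4 : α (M.nx.symm d) = 0 := if_neg fun h1 => h ⟨_, h1, (site_nx_symm d).symm⟩
      rw [h3, h4, add_zero]
      exact dcyc_char _
  -- all `α` are zero
  have hα : ∀ e, F e → c e = c (M.nx (M.nx e)) := by
    intro e₀ he₀
    obtain ⟨w, hw, hw'⟩ := hf e₀ he₀
    have hwal : ∀ d, w (M.nx.symm d) = w (M.al d) := fun d => (node_fun hw (Patch.nx_symm_node d)).symm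
    have s1 : ∑ d, c d * (w d + w (M.nx.symm d)) = 0 := by
      have e1 : ∑ d, c d * w (M.nx.symm d) = ∑ d, c d * w d := by
        have hinv : Function.Involutive M.al := M.inv
        refine Fintype.sum_equiv hinv.toPerm _ _ fun d => ?_
        show c d * w (M.nx.symm d) = c (M.al d) * w (M.al d)
        rw [c3, hwal]
      rw [Finset.sum_congr rfl fun d _ => mul_add (c d) (w d) (w (M.nx.symm d)),
        Finset.sum_add_distrib, e1]
      exact dcyc_char _
    have s2 : ∑ d, c' d * (w d + w (M.nx.symm d)) = 0 := by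
      have e1 : ∑ d, c' d * w (M.nx.symm d) = ∑ d, c' d * w d := by
        refine Fintype.sum_equiv M.nx.symm _ _ fun d => ?_
        rw [← hc'n (M.nx.symm d), Equiv.apply_symm_apply]
      rw [Finset.sum_congr rfl fun d _ => mul_add (c' d) (w d) (w (M.nx.symm d)),
        Finset.sum_add_distrib, e1]
      exact dcyc_char _
    have s3 : ∑ d, α d * (w (M.nx.symm d) + w (M.nx d)) = 0 := by
      have e1 : ∑ d, (α d + α (M.nx.symm d)) * (w d + w (M.nx.symm d)) = 0 := by
        rw [← Finset.sum_congr rfl fun d _ => congrArg (· * (w d + w (M.nx.symm d))) (hdiff d)]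
        rw [Finset.sum_congr rfl fun d _ => add_mul (c d) (c' d) (w d + w (M.nx.symm d)),
          Finset.sum_add_distrib, s1, s2, add_zero]
      rw [Finset.sum_congr rfl fun d _ => add_mul (α d) (α (M.nx.symm d)) (w d + w (M.nx.symm d)),
        Finset.sum_add_distrib] at e1
      have e2 : ∑ d, α (M.nx.symm d) * (w d + w (M.nx.symm d)) =
          ∑ d, α d * (w (M.nx d) + w d) := by
        refine Fintype.sum_equiv M.nx.symm _ _ fun d => ?_
        rw [Equiv.apply_symm_apply]
      rw [e2, ← Finset.sum_add_distrib] at e1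
      rw [← e1]
      refine Finset.sum_congr rfl fun d _ => ?_
      have := dcyc_char (w d)
      linear_combination (-α d) * this
    have s4 : ∀ d, α d * (w (M.nx.symm d) + w (M.nx d)) = if d = e₀ then α e₀ else 0 := by
      intro d
      by_cases hd : F d
      · rw [hw' d hd]
        by_cases h : d = e₀
        · rw [ind_true h, if_pos h, h, mul_one]
        · rw [ind_false h, if_neg h, mul_zero]
      · have h1 : α d = 0 := if_neg hd
        have h2 : d ≠ e₀ := fun h => hd (h ▸ he₀)
        rw [h1, zero_mul, if_neg h2]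
    rw [Finset.sum_congr rfl fun d _ => s4 d, Finset.sum_ite_eq' Finset.univ e₀,
      if_pos (Finset.mem_univ _)] at s3
    have h5 : α e₀ = c e₀ + c (M.nx (M.nx e₀)) := if_pos he₀
    rw [h5] at s3
    have key : ∀ a b : ZMod 2, a + b = 0 → a = b := by decide
    exact key _ _ s3
  have hα0 : ∀ d, α d = 0 := by
    intro d
    show (if F d then c d + c (M.nx (M.nx d)) else 0) = 0
    by_cases hd : F d
    · rw [if_pos hd, hα d hd]
      exact dcyc_char _
    · exact if_neg hd
  have hcc : ∀ d, c d = c' d := by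
    intro d
    have h1 := hdiff d
    rw [hα0, hα0, add_zero] at h1
    have key : ∀ a b : ZMod 2, a + b = 0 → a = b := by decide
    exact key _ _ h1
  obtain ⟨x, hx⟩ := hne
  have hall := hM (fun d => c d = 1) (fun d => by
    show c (M.nx d) = 1 ↔ c d = 1
    rw [hcc, hc'n, ← hcc]) (fun d hd => by rw [c3]; exact hd) ⟨x.1, by
      rw [c1]
      exact ind_true hx⟩
  intro y
  have h1 : c y.1 = 1 := hall y.1
  rw [c1] at h1
  exact ind_iff.1 h1

end

end DMap

end GT33
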