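import Pool.Agent.GT33.DPar

/-!
# GT33 module DHATL: the folded ring of a generic patch is legal

`hG.hat ho ho'`: the map in which the ring of the generic patch is folded.
-/

open Classical

namespace GT33

namespace DMap

variable {D : Type} {M : DMap D} {A : D → Prop} {δ : ZMod 6 → D}

open Patch

namespace Gen

variable [Fintype D] (hG : M.Gen A δ)

section

include hG

omit [Fintype D] in
/-- the darts of the root -/
theorem root_dart {d : D} (h : ¬ A d) : ∃ k, d = M.al (δ k) := by
  have h1 : A (M.al d) := by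
    by_contra h2
    obtain ⟨r, hr⟩ := hG.root
    exact hG.nl d (((hr d).1 h).symm.trans ((hr _).1 h2))
  obtain ⟨k, hk⟩ := (hG.bd.mem (M.al d)).1 ⟨h1, by rw [M.inv]; exact h⟩
  exact ⟨k, by rw [hk, M.inv]⟩

/-- the quads at the ring disappear -/
theorem ring_all {r : D} (h : A r) (hr : Ring M δ r) (h4 : M.deg r = 4) {x : D}
    (hs : M.SameSite r x) : FR M (FS M A δ) x := by
  have key : ∀ e, FS M A δ e → M.SameSite e x → M.deg e = 4 → FR M (FS M A δ) x := by
    intro e he hex h4e
    rcases mem_quad h4e hex with h | h | h | h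
    · rw [h]; exact FoldSet.r0 he
    · rw [h]; exact FoldSet.r1 he
    · rw [h]; exact FoldSet.r2 he h4e
    · rw [h]; exact FoldSet.r3 he h4e
  by_cases h1 : ∃ i, r = M.nx.symm (δ i)
  · obtain ⟨i, rfl⟩ := h1
    rw [deg_nx_symm] at h4
    exact key _ (hG.fs_quad h4) ((site_nx_symm _).trans hs) h4
  · push Not at h1
    exact key r ⟨h, hr, h1⟩ hs h4

theorem hd_A (i : ZMod 6) : A (hd M δ i) := by
  unfold hd
  split_ifs with h4
  · by_contra h
    have h1 : A (M.nx (M.nx (δ i))) :=
      (hG.toPatch.sites.same ((site_nx _).trans (site_nx _))).1 (hG.toPatch.inA i)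
    obtain ⟨k, hk⟩ := (hG.bd.mem _).1 ⟨h1, h⟩
    have h2 : M.SameSite (δ i) (δ k) := by
      rw [hk]
      exact (site_nx _).trans (site_nx _)
    have h3 := hG.quad_one h4 h2
    rw [← h3] at hk
    exact hG.ne2 _ hk.symm
  · exact (hG.toPatch.sites.same (site_nx_symm _)).1 (hG.toPatch.inA i)

theorem cls_hd (i : ZMod 6) : Cls M A δ i (hd M δ i) := by
  unfold hd
  split_ifs with h4
  · exact (hG.cls_nx (hG.fs_quad h4) (Equiv.Perm.SameCycle.refl _ _)).same (al_node _).symm
  · exact hG.cls_nx_symm (hG.toPatch.inA i) (Equiv.Perm.SameCycle.refl _ _)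

end

section

variable {o : D → Bool} (ho : ∀ d, o (M.nx d) = !o d) (ho' : ∀ d, o (M.al d) = !o d)

/-- the folded ring -/
noncomputable abbrev hat : DMap {d // ¬ FR M (FS M A δ) d} := fmap hG.foldSet ho ho'

theorem hat_conn : (hG.hat ho ho').Conn :=
  fmap_conn hG.foldSet ho ho' hG.legal.plane.conn hG.forest

theorem hat_plane : (hG.hat ho ho').Plane :=
  ⟨smooth_hom _ _ _ hG.foldSet.planar hG.legal.plane, hG.hat_conn ho ho'⟩

theorem hat_sameNode (d e : {d // ¬ FR M (FS M A δ) d}) :
    (hG.hat ho ho').SameNode d e ↔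
      M.SameNode d.1 e.1 ∨ ∃ i, Cls M A δ i d.1 ∧ Cls M A δ i e.1 := by
  rw [← hG.joined_iff]
  exact smooth_sameNode _ _ _ hG.foldSet.planar hG.legal.plane (hG.hat_conn ho ho') d e

/-- the root darts of the folded map -/
theorem hat_root (i : ZMod 6) :
    (hG.hat ho ho').al ⟨M.al (δ i), hG.root_stay i⟩ = ⟨hd M δ (i + 1), hG.hd_stay _⟩ :=
  smooth_al _ _ _ (hG.root_strand i)

theorem hat_hd (i : ZMod 6) :
    (hG.hat ho ho').al ⟨hd M δ (i + 1), hG.hd_stay _⟩ = ⟨M.al (δ i), hG.root_stay i⟩ := by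
  rw [← hG.hat_root ho ho' i]
  exact (hG.hat ho ho').inv _

/-- the edges of the folded map -/
theorem hat_cases (x : {d // ¬ FR M (FS M A δ) d}) :
    (¬ FR M (FS M A δ) (M.al x.1)) ∨ (∃ i, x.1 = M.al (δ i)) ∨ (∃ i, x.1 = hd M δ i) ∨
    ∃ e, FS M A δ e ∧ M.deg e = 4 ∧ (∀ i, e ≠ δ i) ∧
      ((x.1 = M.al (M.nx (M.nx e)) ∧ ((hG.hat ho ho').al x).1 = M.al (M.nx.symm e)) ∨
        (x.1 = M.al (M.nx.symm e) ∧ ((hG.hat ho ho').al x).1 = M.al (M.nx (M.nx e)))) := by
  by_cases hR : FR M (FS M A δ) (M.al x.1)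
  · right
    rcases FoldSet.cases hR with h | ⟨e, h, h1⟩ | ⟨e, h, h4, h1⟩ | ⟨e, h, h4, h1⟩
    · left
      obtain ⟨i, hi⟩ := h.2.1
      rcases hG.asec h.1 hi with h2 | h2
      · exact ⟨i, by rw [← h2, M.inv]⟩
      · exfalso
        have h3 := FoldSet.r1 (M := M) h2
        rw [nx_fs, M.inv] at h3
        exact x.2 h3
    · right; left
      have hx : x.1 = M.al (M.nx e) := by rw [← h1, M.inv]
      have hA : A x.1 := by rw [hx]; exact (hG.fs_inn h).2
      have hr : Ring M δ x.1 := by rw [hx]; exact ring_same (al_node e).symm h.2.1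
      have h2 : ¬ FS M A δ x.1 := fun h => x.2 (FoldSet.r0 h)
      have h3 : ∃ j, x.1 = M.nx.symm (δ j) := by
        by_contra h4
        push Not at h4
        exact h2 ⟨hA, hr, h4⟩
      obtain ⟨j, hj⟩ := h3
      refine ⟨j, ?_⟩
      unfold hd
      by_cases h4 : M.deg (δ j) = 4
      · exfalso
        have h5 := FoldSet.r3 (hG.fs_quad h4) h4
        rw [← nx_four' h4, ← hj] at h5
        exact x.2 h5
      · rw [if_neg h4]
        exact hj
    · right
      have hx : x.1 = M.al (M.nx (M.nx e)) := by rw [← h1, M.inv]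
      by_cases hs : ∃ i, e = δ i
      · left
        obtain ⟨i, rfl⟩ := hs
        refine ⟨i, ?_⟩
        unfold hd
        rw [if_pos h4, hx]
      · right
        push Not at hs
        have h5 := hG.k3 h h4 hs
        refine ⟨e, h, h4, hs, Or.inl ⟨hx, ?_⟩⟩
        have : (hG.hat ho ho').al x = ⟨M.al (M.nx.symm e), h5⟩ := by
          refine smooth_al _ _ _ (DStrand.step hR ?_)
          rw [h1, hG.foldSet.mu2 h h4, ← nx_four' h4]
          exact DStrand.last h5
        rw [this]
    · right; right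
      have hx : x.1 = M.al (M.nx.symm e) := by rw [nx_four' h4, ← h1, M.inv]
      have hs : ∀ i, e ≠ δ i := by
        rintro i rfl
        have h6 : M.SameNode (δ (i - 1)) (M.nx.symm (δ i)) := by
          have := hG.toPatch.prev_node (i - 1)
          rwa [sub_add_cancel] at this
        rcases hG.asec (hG.toPatch.prev_in i) h6 with h5 | h5
        · have h7 : M.nx (δ (i - 1)) = δ (i - 1 + 1) := by
            rw [← h5, Equiv.apply_symm_apply, sub_add_cancel]
          have h8 := hG.nc _ h7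
          rw [← deg_nx, h7, sub_add_cancel] at h8
          omega
        · have h7 := FoldSet.r1 (M := M) h5
          rw [nx_fs, ← hx] at h7
          exact x.2 h7
      have h5 := hG.k2 h h4
      refine ⟨e, h, h4, hs, Or.inr ⟨hx, ?_⟩⟩
      have : (hG.hat ho ho').al x = ⟨M.al (M.nx (M.nx e)), h5⟩ := by
        refine smooth_al _ _ _ (DStrand.step hR ?_)
        rw [h1, hG.foldSet.mu3 h h4]
        exact DStrand.last h5
      rw [this]
  · exact Or.inl hR

end

end Gen

/-- no loops -/
theorem GenT.hat_noloop [Fintype D] (hG : M.GenT A δ) {o : D → Bool}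
    (ho : ∀ d, o (M.nx d) = !o d) (ho' : ∀ d, o (M.al d) = !o d)
    (x : {d // ¬ FR M (FS M A δ) d}) :
    ¬ (hG.hat ho ho').SameSite x ((hG.hat ho ho').al x) := by
  rw [fmap_sameSite]
  intro hs
  have hroot : ∀ k, ¬ M.SameSite (M.al (δ k)) (hd M δ (k + 1)) := fun k h =>
    hG.toPatch.notA k ((hG.toPatch.sites.same h).2 (hG.hd_A _))
  rcases hG.hat_cases ho ho' x with h | ⟨i, h⟩ | ⟨i, h⟩ | ⟨e, h1, h4, hl, h⟩
  · rw [fmap_al_of hG.foldSet ho ho' h] at hs
    exact hG.nl _ hs
  · have hx : x = ⟨M.al (δ i), hG.root_stay i⟩ := Subtype.ext h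
    rw [hx, hG.hat_root ho ho' i] at hs
    exact hroot i hs
  · have hx : x = ⟨hd M δ (i - 1 + 1), hG.hd_stay _⟩ := Subtype.ext (by rw [h, sub_add_cancel])
    rw [hx, hG.hat_hd ho ho' (i - 1)] at hs
    exact hroot _ hs.symm
  · -- the two neighbours of a link quad
    have hs' : M.SameSite (M.al (M.nx (M.nx e))) (M.al (M.nx.symm e)) := by
      rcases h with ⟨h2, h3⟩ | ⟨h2, h3⟩ <;> rw [h2, h3] at hs
      · exact hs
      · exact hs.symm
    clear h hs
    rw [nx_four' h4] at hs'
    set s := M.al (M.nx (M.nx e)) with hsdef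
    have hs2 : M.SameSite e (M.nx (M.nx e)) := (site_nx e).trans (site_nx _)
    have hs3 : M.SameSite e (M.nx (M.nx (M.nx e))) := hs2.trans (site_nx _)
    have hsA : A s := by
      by_contra h
      have h1' : A (M.nx (M.nx e)) := (hG.toPatch.sites.same hs2).1 h1.1
      obtain ⟨k, hk⟩ := (hG.bd.mem _).1 ⟨h1', h⟩
      have h5 : M.SameSite e (δ k) := by rw [hk]; exact hs2
      exact hl k (hG.fs_uniq h1 (hG.fs_quad (by rw [← deg_same h5, h4])) h5).symm
    have hne : ¬ M.SameSite e s := fun h => hG.nl (M.nx (M.nx e)) (hs2.symm.trans h)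
    have hk : 1 < (Finset.univ.filter fun x => M.SameSite e x ∧ M.SameSite s (M.al x)).card := by
      rw [Finset.one_lt_card]
      exact ⟨M.nx (M.nx e), Finset.mem_filter.2 ⟨Finset.mem_univ _, hs2,
        Equiv.Perm.SameCycle.refl _ _⟩, M.nx (M.nx (M.nx e)),
        Finset.mem_filter.2 ⟨Finset.mem_univ _, hs3, hs'⟩, fun h => hG.ne1 _ h.symm⟩
    have h5 := hG.share h1.1 hsA hne
    have h6 := Gen.cut_two hG.legal hne
    have hds : M.deg s = 6 := by
      rcases hG.deg46 s with h | h <;> omega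
    have hC : M.Sites fun x => M.SameSite e x ∨ M.SameSite s x :=
      (M.sites_site e).or (M.sites_site s)
    have hCA : ∀ x, M.SameSite e x ∨ M.SameSite s x → A x := by
      rintro x (h | h)
      · exact (hG.toPatch.sites.same h).1 h1.1
      · exact (hG.toPatch.sites.same h).1 hsA
    have hcut : M.cut (fun x => M.SameSite e x ∨ M.SameSite s x) = 6 := by
      have h7 := hG.legal.cut_even hC
      have h8 := hG.ge4 hC hCA ⟨e, Or.inl (Equiv.Perm.SameCycle.refl _ _)⟩
      omega
    by_cases hex : ∃ d, A d ∧ ¬ (M.SameSite e d ∨ M.SameSite s d)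
    · rcases hG.triv _ hC hCA ⟨e, Or.inl (Equiv.Perm.SameCycle.refl _ _)⟩ hex hcut
        ⟨e, Or.inl (Equiv.Perm.SameCycle.refl _ _), h1.2.1⟩ with ⟨z, hz⟩ | ⟨a, b, ha, hb, hz⟩
      · have k1 := (hz e).1 (Or.inl (Equiv.Perm.SameCycle.refl _ _))
        have k2 := (hz s).1 (Or.inr (Equiv.Perm.SameCycle.refl _ _))
        exact hne (k1.symm.trans k2)
      · rcases (hz s).1 (Or.inr (Equiv.Perm.SameCycle.refl _ _)) with k | k
        · have := deg_same k
          omega
        · have := deg_same k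
          omega
    · push Not at hex
      have hA' : ∀ x, (A x ∧ ¬ M.SameSite s x) ↔ M.SameSite e x := by
        intro x
        constructor
        · rintro ⟨h7, h8⟩
          exact (hex x h7).resolve_right h8
        · intro h7
          exact ⟨hCA x (Or.inl h7), fun h8 => hne (h7.trans h8.symm)⟩
      have hsc : scut δ (M.SameSite e) = 0 := by
        by_contra h7
        obtain ⟨k, h5⟩ := scut_pos h7
        exact hl k (hG.fs_uniq h1 (hG.fs_quad (by rw [← deg_same h5, h4])) h5).symm
      have c1 := hG.toPatch.cut_eq (B := M.SameSite e) fun d hd => hCA d (Or.inl hd)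
      have c2 := hG.toPatch.cut_eq (B := M.SameSite s) fun d hd => hCA d (Or.inr hd)
      rw [hG.legal.cut_site, h4, hsc] at c1
      rw [hG.legal.cut_site, hds] at c2
      have c3 := hG.toPatch.scut_compl (M.SameSite s)
      have c4 := rcut_compl (M := M) (A := A) (M.SameSite s)
      have c5 : (fun d => A d ∧ ¬ M.SameSite s d) = M.SameSite e := funext fun x =>
        propext (hA' x)
      rw [c5] at c3 c4
      omega

namespace Gen

variable [Fintype D] (hG : M.Gen A δ)

section

variable {o : D → Bool} (ho : ∀ d, o (M.nx d) = !o d) (ho' : ∀ d, o (M.al d) = !o d)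

/-! ### degrees -/

theorem hat_deg_eq (x : {d // ¬ FR M (FS M A δ) d}) : (hG.hat ho ho').deg x =
    (Finset.univ.filter fun d => M.SameSite x.1 d ∧ ¬ FR M (FS M A δ) d).card := by
  have h1 := card_site (M := hG.hat ho ho') x
    (Finset.univ.filter fun y => (hG.hat ho ho').SameSite x y) (fun y => by simp)
  rw [← h1, ← Finset.card_map (Function.Embedding.subtype _)]
  congr 1
  ext d
  simp only [Finset.mem_map, Finset.mem_filter, Finset.mem_univ, true_and,
    Function.Embedding.coe_subtype]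
  constructor
  · rintro ⟨y, hy, rfl⟩
    exact ⟨(fmap_sameSite hG.foldSet ho ho' x y).1 hy, y.2⟩
  · rintro ⟨h2, h3⟩
    exact ⟨⟨d, h3⟩, (fmap_sameSite hG.foldSet ho ho' x ⟨d, h3⟩).2 h2, rfl⟩

theorem hat_deg_fold {x : {d // ¬ FR M (FS M A δ) d}} {e : D} (he : FS M A δ e)
    (hs : M.SameSite e x.1) : M.deg e = 6 ∧ (hG.hat ho ho').deg x = 4 := by
  have h6 : M.deg e = 6 := by
    rcases hG.deg46 e with h | h
    · exact absurd (hG.ring_all he.1 he.2.1 h hs) x.2
    · exact h
  refine ⟨h6, ?_⟩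
  rw [hG.hat_deg_eq]
  have h1 := card_site (M := M) e (Finset.univ.filter fun d => M.SameSite e d) fun d => by simp
  have h2 : (Finset.univ.filter fun d => M.SameSite x.1 d ∧ ¬ FR M (FS M A δ) d) =
      ((Finset.univ.filter fun d => M.SameSite e d).erase e).erase (M.nx e) := by
    ext d
    simp only [Finset.mem_erase, Finset.mem_filter, Finset.mem_univ, true_and]
    constructor
    · rintro ⟨h3, h4⟩
      exact ⟨fun h => h4 (h ▸ FoldSet.r1 he), fun h => h4 (h ▸ FoldSet.r0 he), hs.trans h3⟩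
    · rintro ⟨h3, h4, h5⟩
      exact ⟨hs.symm.trans h5, hG.foldSet.stay he (by omega) h5 h4 h3⟩
  rw [h2, Finset.card_erase_of_mem, Finset.card_erase_of_mem, h1, h6]
  · exact Finset.mem_filter.2 ⟨Finset.mem_univ _, Equiv.Perm.SameCycle.refl _ _⟩
  · simp only [Finset.mem_erase, Finset.mem_filter, Finset.mem_univ, true_and]
    exact ⟨hG.ne1 e, site_nx e⟩

theorem hat_deg_of {x : {d // ¬ FR M (FS M A δ) d}} (h : ∀ e, FS M A δ e → ¬ M.SameSite e x.1) :
    (hG.hat ho ho').deg x = M.deg x.1 := by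
  rw [hG.hat_deg_eq, ← card_site (M := M) x.1 (Finset.univ.filter fun d => M.SameSite x.1 d)
    fun d => by simp]
  congr 1
  ext d
  simp only [Finset.mem_filter, Finset.mem_univ, true_and]
  refine ⟨fun h1 => h1.1, fun h1 => ⟨h1, fun h2 => ?_⟩⟩
  rcases FoldSet.cases h2 with h3 | ⟨e, h3, rfl⟩ | ⟨e, h3, -, rfl⟩ | ⟨e, h3, -, rfl⟩
  · exact h _ h3 h1.symm
  · exact h _ h3 ((site_nx _).trans h1.symm)
  · exact h _ h3 (((site_nx _).trans (site_nx _)).trans h1.symm)
  · exact h _ h3 ((((site_nx _).trans (site_nx _)).trans (site_nx _)).trans h1.symm)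

theorem hat_deg (x : {d // ¬ FR M (FS M A δ) d}) :
    (hG.hat ho ho').deg x = 4 ∨ (hG.hat ho ho').deg x = 6 := by
  by_cases h : ∃ e, FS M A δ e ∧ M.SameSite e x.1
  · obtain ⟨e, he, hs⟩ := h
    exact Or.inl (hG.hat_deg_fold ho ho' he hs).2
  · push Not at h
    rw [hG.hat_deg_of ho ho' h]
    exact hG.deg46 _

/-! ### edges between ring nodes of the folded map -/

/-- the passages through a strand of the folded map -/
theorem hat_kappa (y : {d // ¬ FR M (FS M A δ) d}) : ∃ κ : D → ZMod 2,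
    (∀ w, κ (M.al w) = κ w) ∧
    (∀ w, ¬ FR M (FS M A δ) w → κ w = ind (y.1 = w) + ind (((hG.hat ho ho').al y).1 = w)) ∧
    (∀ (k : ZMod 6) (a : D), A a → M.SameNode (δ k) a → κ a = κ (δ k)) ∧
    ∀ (B : D → Prop) (W : List D), M.Sites B →
      (∀ d, ind (B d) + ind (B (M.al d)) = wcnt M W d) →
      ind (B y.1) + ind (B ((hG.hat ho ho').al y).1) = (W.map κ).sum := by
  obtain ⟨κ, k1, k2, k3, k4⟩ := exists_kappa hG.foldSet.pairing y
  refine ⟨κ, k1, k3, fun k a ha hn => ?_, k4⟩
  rw [hG.kappa_node k1 k2 ha hn, k1]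

theorem path_key : ∀ i j m : ZMod 6,
    ((List.range (j - i).val).map fun t : ℕ => if m = i + 1 + (t : ZMod 6) then (1 : ZMod 2) else 0).sum =
      if (m - i - 1).val < (j - i).val then 1 else 0 := by
  decide

theorem edge_key : ∀ i j k : ZMod 6, ∀ c : ZMod 2,
    (∀ m : ZMod 6, c = (if i = m then 1 else 0) + (if k = m then 1 else 0) +
      (if j = m then 1 else 0) + if (m - i - 1).val < (j - i).val then 1 else 0) →
    (j = i + 1 ∧ k = i) ∨ (i = j + 1 ∧ k = j) := by
  decide

include hG ho ho' in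
/-- an edge of the folded map between two ring nodes is a ring edge -/
theorem edge {x : {d // ¬ FR M (FS M A δ) d}} (hA : A x.1) {i j : ZMod 6}
    (hi : Cls M A δ i (M.al x.1)) (hj : Cls M A δ j x.1) :
    j = i + 1 ∧ x.1 = hd M δ (i + 1) := by
  obtain ⟨g, g1, g2, g3⟩ := hi
  obtain ⟨g', g1', g2', g3'⟩ := hj
  have harc : Arc M δ [M.al g, x.1, g'] i j :=
    arc_three (by rw [M.inv]; exact g2) g3 g3'.symm g2'
  obtain ⟨B, hB, hBA, hBW⟩ := hG.toPatch.exists_set (W := [M.al g, x.1, g'] ++
    ringpath δ i (j - i).val) (by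
      intro w hw
      rw [List.map_append, List.sum_append, harc w hw, hG.toPatch.sum_ringpath hw]
      have h4 : i + ((j - i).val : ZMod 6) = j := by
        rw [ZMod.natCast_val, ZMod.cast_id', id, add_sub_cancel]
      rw [h4]
      exact dcyc_char _)
  have hB1 : ∀ d, A d → A (M.al d) → ind (B d) + ind (B (M.al d)) =
      wcnt M [M.al g, x.1, g'] d := by
    intro d hd hd'
    rw [hBW, wcnt_append]
    have h5 : wcnt M (ringpath δ i (j - i).val) d = 0 := by
      by_contra h
      rcases wcnt_mem h with h6 | h6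
      · obtain ⟨t, -, ht⟩ := List.mem_map.1 h6
        exact hG.toPatch.notA _ (by rw [ht]; exact hd')
      · obtain ⟨t, -, ht⟩ := List.mem_map.1 h6
        exact hG.toPatch.notA _ (by rw [ht, M.inv]; exact hd)
    rw [h5, add_zero]
  -- the set is constant on the folded map
  have hc : ∃ c : ZMod 2, ∀ y, ¬ FR M (FS M A δ) y → A y → ind (B y) = c := by
    rcases hG.r3 hB hBA (rcut_le hB1) with (ht | ht) | ⟨q, hq, ⟨k, hk⟩, hqB⟩ | ⟨q, hq, ⟨k, hk⟩, hqB⟩
    · exact ⟨0, fun y _ _ => ind_false (ht y)⟩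
    · exact ⟨1, fun y _ hy => ind_true (ht y hy)⟩
    · refine ⟨0, fun y hy _ => ind_false fun h => hy ?_⟩
      refine hG.ring_all (hG.toPatch.inA k) (ring_δ k) (by rw [← deg_same hk, hq]) ?_
      exact hk.symm.trans ((hqB y).1 h)
    · refine ⟨1, fun y hy hyA => ind_true ?_⟩
      by_contra h
      refine hy (hG.ring_all (hG.toPatch.inA k) (ring_δ k) (by rw [← deg_same hk, hq]) ?_)
      exact hk.symm.trans ((hqB y).1 ⟨hyA, h⟩)
  obtain ⟨c, hc⟩ := hc
  -- the parity of a strand
  have hpar : ∀ y : {d // ¬ FR M (FS M A δ) d},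
      ind (B y.1) + ind (B ((hG.hat ho ho').al y).1) =
        (ind (y.1 = M.al (δ i)) + ind (((hG.hat ho ho').al y).1 = M.al (δ i))) +
        (ind (y.1 = x.1) + ind (((hG.hat ho ho').al y).1 = x.1)) +
        (ind (y.1 = M.al (δ j)) + ind (((hG.hat ho ho').al y).1 = M.al (δ j))) +
        ((List.range (j - i).val).map fun t : ℕ =>
          ind (y.1 = M.al (δ (i + 1 + (t : ZMod 6)))) +
            ind (((hG.hat ho ho').al y).1 = M.al (δ (i + 1 + (t : ZMod 6))))).sum := by
    intro y
    obtain ⟨κ, k1, k3, k2, k4⟩ := hG.hat_kappa ho ho' y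
    have h1 := k4 B _ hB hBW
    have h2 : ∀ {k : ZMod 6} {a : D}, A a → M.SameNode (δ k) a → κ a =
        ind (y.1 = M.al (δ k)) + ind (((hG.hat ho ho').al y).1 = M.al (δ k)) := by
      intro k a ha hn
      rw [k2 _ _ ha hn, ← k1, k3 _ (hG.root_stay k)]
    rw [List.map_append, List.sum_append] at h1
    simp only [List.map_cons, List.map_nil, List.sum_cons, List.sum_nil, add_zero, k1] at h1
    rw [h2 g1 g2, h2 g1' g2', k3 _ x.2] at h1
    have h3 : (ringpath δ i (j - i).val).map κ = (List.range (j - i).val).map fun t : ℕ =>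
        ind (y.1 = M.al (δ (i + 1 + (t : ZMod 6)))) +
          ind (((hG.hat ho ho').al y).1 = M.al (δ (i + 1 + (t : ZMod 6)))) := by
      unfold ringpath
      rw [List.map_map]
      refine List.map_congr_left fun t _ => ?_
      exact h2 (hG.toPatch.inA _) (Equiv.Perm.SameCycle.refl _ _)
    rw [h3] at h1
    refine Eq.trans h1 ?_
    ring
  -- the edge leaves the folded patch
  have hnA : ∀ {y : D}, A y → ∀ k, y ≠ M.al (δ k) := fun hy k h =>
    hG.toPatch.notA k (by rw [← h]; exact hy)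
  have hout : ¬ A ((hG.hat ho ho').al x).1 := by
    intro h
    have h1 := hpar x
    rw [hc _ x.2 hA, hc _ ((hG.hat ho ho').al x).2 h, ind_false (hnA hA i), ind_false (hnA h i),
      ind_false (hnA hA j), ind_false (hnA h j), ind_true rfl,
      ind_false fun h2 => (hG.hat ho ho').ne x (Subtype.ext h2)] at h1
    have h3 : (List.range (j - i).val).map (fun t : ℕ =>
        ind (x.1 = M.al (δ (i + 1 + (t : ZMod 6)))) +
          ind (((hG.hat ho ho').al x).1 = M.al (δ (i + 1 + (t : ZMod 6))))) =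
        (List.range (j - i).val).map fun _ => (0 : ZMod 2) :=
      List.map_congr_left fun t _ => by rw [ind_false (hnA hA _), ind_false (hnA h _), add_zero]
    rw [h3] at h1
    have h4 := dcyc_char c
    rw [h4] at h1
    simp at h1
  obtain ⟨k, hk⟩ := hG.root_dart hout
  have hxk : x.1 = hd M δ (k + 1) := by
    have h1 : (hG.hat ho ho').al x = ⟨M.al (δ k), hG.root_stay k⟩ := Subtype.ext hk
    have h2 : x = (hG.hat ho ho').al ⟨M.al (δ k), hG.root_stay k⟩ := by
      rw [← h1, (hG.hat ho ho').inv]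
    rw [h2, hG.hat_root ho ho' k]
  have hev : ∀ m : ZMod 6, c = (if i = m then 1 else 0) + (if k = m then 1 else 0) +
      (if j = m then 1 else 0) + if (m - i - 1).val < (j - i).val then 1 else 0 := by
    intro m
    have h1 := hpar ⟨hd M δ (m + 1), hG.hd_stay _⟩
    rw [hG.hat_hd ho ho' m] at h1
    have e1 : ∀ l : ZMod 6, ind (hd M δ (m + 1) = M.al (δ l)) + ind (M.al (δ m) = M.al (δ l)) =
        if l = m then 1 else 0 := by
      intro l
      rw [ind_false (hnA (hG.hd_A _) l), zero_add]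
      have h3 : M.al (δ m) = M.al (δ l) ↔ l = m :=
        ⟨fun h => (hG.bd.inj (M.al_inj h)).symm, fun h => by rw [h]⟩
      rw [propext h3]
      unfold ind
      by_cases h4 : l = m
      · rw [if_pos h4, if_pos h4]
      · rw [if_neg h4, if_neg h4]
    have e2 : ind (hd M δ (m + 1) = x.1) + ind (M.al (δ m) = x.1) = if k = m then 1 else 0 := by
      rw [ind_false (p := M.al (δ m) = x.1) fun h => hnA hA m h.symm, add_zero, hxk]
      have h3 : hd M δ (m + 1) = hd M δ (k + 1) ↔ k = m := by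
        constructor
        · intro h
          have h4 := hG.hat_hd ho ho' m
          have h5 := hG.hat_hd ho ho' k
          have h6 : (⟨hd M δ (m + 1), hG.hd_stay _⟩ : {d // ¬ FR M (FS M A δ) d}) =
              ⟨hd M δ (k + 1), hG.hd_stay _⟩ := Subtype.ext h
          rw [h6, h5] at h4
          exact hG.bd.inj (M.al_inj (congrArg Subtype.val h4))
        · intro h
          rw [h]
      rw [propext h3]
      unfold ind
      by_cases h4 : k = m
      · rw [if_pos h4, if_pos h4]
      · rw [if_neg h4, if_neg h4]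
    have e3 : ((List.range (j - i).val).map fun t : ℕ =>
        ind (hd M δ (m + 1) = M.al (δ (i + 1 + (t : ZMod 6)))) +
          ind (M.al (δ m) = M.al (δ (i + 1 + (t : ZMod 6))))).sum =
        if (m - i - 1).val < (j - i).val then 1 else 0 := by
      rw [← path_key]
      congr 1
      refine List.map_congr_left fun t _ => ?_
      rw [e1]
      by_cases h4 : i + 1 + (t : ZMod 6) = m
      · rw [if_pos h4, if_pos h4.symm]
      · rw [if_neg h4, if_neg fun h => h4 h.symm]
    rw [hc _ (hG.hd_stay _) (hG.hd_A _), ind_false fun h => hG.toPatch.notA m (hBA _ h), add_zero,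
      e1, e1, e2, e3] at h1
    exact h1
  rcases edge_key i j k c hev with ⟨h1, h2⟩ | ⟨h1, h2⟩
  · exact ⟨h1, by rw [hxk, h2]⟩
  · exfalso
    have h3 : Cls M A δ i x.1 := by
      rw [hxk, h2, ← h1]
      exact hG.cls_hd i
    have h4 : i = j := hG.cls_disj h3 ⟨g', g1', g2', g3'⟩
    rw [h4] at h1
    exact absurd h1 (by
      intro h
      have : ∀ j : ZMod 6, j ≠ j + 1 := by decide
      exact this j h)

end

end Gen

end DMap

end GT33
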