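import Pool.Agent.GT33.DHatL

/-!
# GT33 module DHATP: the folded ring is a patch

`Gen.HatCut`: small cuts of the folded map `hG.hat ho ho'`; with it the folded map is legal (`Gen.hat_legal`) and a
patch with the ring darts `hdr i` (`Gen.hat_patch`).
-/

open Classical

namespace GT33

namespace DMap

variable {D : Type} {M : DMap D} {A : D → Prop} {δ : ZMod 6 → D}

open Patch

namespace Gen

variable [Fintype D] (hG : M.Gen A δ)

section

variable {o : D → Bool} (ho : ∀ d, o (M.nx d) = !o d) (ho' : ∀ d, o (M.al d) = !o d)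

/-- small cuts of the folded map -/
def HatCut : Prop := ∀ B' : {d // ¬ FR M (FS M A δ) d} → Prop, (hG.hat ho ho').Sites B' →
  (∀ x, B' x → A x.1) → (∃ x, B' x) → 4 ≤ (hG.hat ho ho').cut B' ∧
    ((hG.hat ho ho').cut B' = 4 → ∃ x, ∀ y, B' y ↔ (hG.hat ho ho').SameSite x y)

/-- the root darts of the folded map -/
def hroot (i : ZMod 6) : {d // ¬ FR M (FS M A δ) d} := ⟨M.al (δ i), hG.root_stay i⟩

/-- the ring darts of the folded map -/
noncomputable def hdr (i : ZMod 6) : {d // ¬ FR M (FS M A δ) d} := ⟨hd M δ i, hG.hd_stay i⟩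

omit [Fintype D] in
include hG in
theorem root_not_fr {d : D} (h : ¬ A d) : ¬ FR M (FS M A δ) d := fun h1 => h (hG.fr_in h1)

theorem hat_nx_root (i : ZMod 6) :
    (hG.hat ho ho').nx (hG.hroot (i + 1)) = hG.hroot i := by
  have h1 := hG.toPatch.root_nx i
  have h2 : ¬ FR M (FS M A δ) (M.nx (hG.hroot (i + 1)).1) := by
    show ¬ FR M (FS M A δ) (M.nx (M.al (δ (i + 1))))
    rw [h1]
    exact hG.root_stay i
  rw [fmap_nx_of hG.foldSet ho ho' h2]
  exact Subtype.ext h1

theorem hat_root_iff (e : {d // ¬ FR M (FS M A δ) d}) :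
    ¬ A e.1 ↔ (hG.hat ho ho').SameSite (hG.hroot 0) e := by
  rw [fmap_sameSite]
  obtain ⟨r, hr⟩ := hG.root
  have h0 := (hr _).1 (hG.toPatch.notA 0)
  rw [hr]
  exact ⟨fun h => h0.symm.trans h, fun h => h0.trans h⟩

end

end Gen

namespace GenT

variable [Fintype D] (hG : M.GenT A δ) {o : D → Bool} {ho : ∀ d, o (M.nx d) = !o d}
  {ho' : ∀ d, o (M.al d) = !o d}

theorem hat_legal (hc : hG.HatCut ho ho') : (hG.hat ho ho').Legal := by
  have key : ∀ B' : {d // ¬ FR M (FS M A δ) d} → Prop, (hG.hat ho ho').Sites B' →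
      (∃ x, B' x) → (∃ x, ¬ B' x) → 4 ≤ (hG.hat ho ho').cut B' ∧
        ((hG.hat ho ho').cut B' = 4 → (∃ x, ∀ y, B' y ↔ (hG.hat ho ho').SameSite x y) ∨
          ∃ x, ∀ y, ¬ B' y ↔ (hG.hat ho ho').SameSite x y) := by
    intro B' hB h1 h2
    by_cases h3 : B' (hG.hroot 0)
    · have h4 : ∀ x, ¬ B' x → A x.1 := by
        intro x hx
        by_contra h5
        exact hx ((hB.same ((hG.hat_root_iff ho ho' x).1 h5)).1 h3)
      have h5 := hc (fun x => ¬ B' x) (fun x => not_congr (hB x)) h4 h2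
      rw [cut_not] at h5
      exact ⟨h5.1, fun h6 => Or.inr (h5.2 h6)⟩
    · have h4 : ∀ x, B' x → A x.1 := by
        intro x hx
        by_contra h5
        exact h3 ((hB.same ((hG.hat_root_iff ho ho' x).1 h5)).2 hx)
      have h5 := hc B' hB h4 h1
      exact ⟨h5.1, fun h6 => Or.inl (h5.2 h6)⟩
  refine ⟨hG.hat_plane ho ho', hG.hat_noloop ho ho', fun B' hB h1 h2 => (key B' hB h1 h2).1,
    fun B' hB h => ?_, hG.hat_deg ho ho'⟩
  by_cases h1 : ∃ x, B' x
  · by_cases h2 : ∃ x, ¬ B' x
    · exact (key B' hB h1 h2).2 h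
    · exfalso
      push Not at h2
      have h3 : (hG.hat ho ho').cut B' = 0 := by
        unfold DMap.cut
        rw [Nat.card_eq_zero]
        exact Or.inl ⟨fun x => x.2.2 (h2 _)⟩
      omega
  · exfalso
    push Not at h1
    have h3 : (hG.hat ho ho').cut B' = 0 := by
      unfold DMap.cut
      rw [Nat.card_eq_zero]
      exact Or.inl ⟨fun x => h1 _ x.2.1⟩
    omega

/-- **The folded ring is a patch.** -/
theorem hat_patch (hc : hG.HatCut ho ho') : (hG.hat ho ho').Patch (fun x => A x.1) hG.hdr := by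
  have h1 := (hG.hat_legal hc).patch (A := fun x => A x.1) (r := fun i => hG.hroot (i - 1))
    (fun i => by
      have := hG.hat_nx_root ho ho' (i - 1)
      rw [sub_add_cancel] at this
      rw [add_sub_cancel_right]
      exact this)
    (fun i j hij => by
      have h2 : M.al (δ (i - 1)) = M.al (δ (j - 1)) := congrArg Subtype.val hij
      have h3 := hG.bd.inj (M.al_inj h2)
      exact sub_left_injective h3)
    (fun e => by
      rw [hG.hat_root_iff ho ho']
      have h2 : (hG.hat ho ho').SameSite (hG.hroot 0) (hG.hroot (0 - 1)) := by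
        rw [← hG.hat_root_iff ho ho']
        exact hG.toPatch.notA _
      exact ⟨fun h => h2.symm.trans h, fun h => h2.trans h⟩)
  have h2 : (fun i => (hG.hat ho ho').al (hG.hroot (i - 1))) = hG.hdr := by
    funext i
    have := hG.hat_root ho ho' (i - 1)
    rw [show hG.hroot (i - 1) = ⟨M.al (δ (i - 1)), hG.root_stay (i - 1)⟩ from rfl, this]
    apply Subtype.ext
    show hd M δ (i - 1 + 1) = hd M δ i
    rw [sub_add_cancel]
  rw [h2] at h1
  exact h1

end GenT

end DMap

end GT33
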