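import Pool.Agent.GT33.DMap

/-!
# GT33 module DSTATE: states of regions

`PState n`: a state of an `n`-gon: a matching `m` of its `n` edges and units `u` at its `n` corners.  `Real M E A
δ s μ ω`: the pairing `μ` of the darts and the units `ω` of the sectors are a state of the region `A` (a set of
sites) with the leaving darts `δ : ZMod n → D` (counterclockwise) which has the boundary state `s`; each site
of `A` is in a state of the family `E`.
-/

open Classical

namespace GT33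

/-- a state of an `n`-gon -/
structure PState (n : ℕ) where
  /-- the matching of the edges -/
  m : ZMod n → ZMod n
  /-- the units of the corners -/
  u : ZMod n → ℕ

/-- the rotated state -/
def PState.rot {n : ℕ} (s : PState n) (c : ZMod n) : PState n :=
  ⟨fun i => s.m (i + c) - c, fun i => s.u (i + c)⟩

namespace DMap

variable {D : Type} {M : DMap D}

/-- `δ` numbers the darts of a site counterclockwise -/
structure SiteNum (M : DMap D) (n : ℕ) (δ : ZMod n → D) : Prop where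
  inj : Function.Injective δ
  nx : ∀ i, M.nx (δ i) = δ (i + 1)

/-- the site numbered by `δ` is in the state `s` -/
def HasState {n : ℕ} (μ : D → D) (ω : D → ℕ) (δ : ZMod n → D) (s : PState n) : Prop :=
  ∀ i, μ (δ i) = δ (s.m i) ∧ ω (δ i) = s.u i

/-- the site of `d` is in a state of the family `E` -/
def LocalAt (M : DMap D) (E : (n : ℕ) → PState n → Prop) (μ : D → D) (ω : D → ℕ) (d : D) : Prop :=
  ∃ (n : ℕ) (δ : ZMod n → D) (s : PState n), n ≠ 0 ∧ M.SiteNum n δ ∧ (∃ i, δ i = d) ∧ E n s ∧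
    HasState μ ω δ s

/-- connected by a strand inside `A` -/
def Str (M : DMap D) (A : D → Prop) (μ : D → D) : D → D → Prop :=
  Relation.EqvGen fun x y => A x ∧ (y = μ x ∨ (y = M.al x ∧ A y))

/-- the sectors of the node of `d` in `A` -/
noncomputable def nodeIn [Fintype D] (M : DMap D) (A : D → Prop) (d : D) : Finset D :=
  Finset.univ.filter fun e => M.SameNode d e ∧ A e

theorem mem_nodeIn [Fintype D] {A : D → Prop} {d e : D} :
    e ∈ M.nodeIn A d ↔ M.SameNode d e ∧ A e := by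
  simp [nodeIn]

/-- the units of the node of `d` which come from `A` -/
noncomputable def usum [Fintype D] (M : DMap D) (A : D → Prop) (ω : D → ℕ) (d : D) : ℕ :=
  ∑ e ∈ M.nodeIn A d, ω e

/-- a state of the region `A` -/
structure Real [Fintype D] (M : DMap D) (E : (n : ℕ) → PState n → Prop) (A : D → Prop) {n : ℕ}
    (δ : ZMod n → D) (s : PState n) (μ : D → D) (ω : D → ℕ) : Prop where
  loc : ∀ d, A d → M.LocalAt E μ ω d
  str : ∀ i, M.Str A μ (δ i) (δ (s.m i))
  all : ∀ d, A d → ∃ i, M.Str A μ d (δ i)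
  bdry : ∀ i, M.usum A ω (δ i) = s.u i
  inner : ∀ d, (∀ e, M.SameNode d e → A e) → M.usum A ω d = 3

/-! ### elementary facts -/

theorem SiteNum.pow {n : ℕ} {δ : ZMod n → D} (h : M.SiteNum n δ) (i : ZMod n) (k : ℕ) :
    (M.nx ^ (k : ℤ)) (δ i) = δ (i + k) := by
  induction k with
  | zero => simp
  | succ m ih =>
    rw [Nat.cast_succ, add_comm (m : ℤ) 1, zpow_one_add, Equiv.Perm.mul_apply, ih, h.nx]
    push_cast
    rw [add_assoc]

theorem SiteNum.same {n : ℕ} {δ : ZMod n → D} (h : M.SiteNum n δ) (hn : n ≠ 0) (i j : ZMod n) :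
    M.SameSite (δ i) (δ j) := by
  have : NeZero n := ⟨hn⟩
  refine ⟨((j - i).val : ℤ), ?_⟩
  rw [h.pow, ZMod.natCast_val, ZMod.cast_id', id, add_sub_cancel]

theorem SiteNum.mem [Finite D] {n : ℕ} {δ : ZMod n → D} (h : M.SiteNum n δ) {i : ZMod n} {d : D}
    (hd : M.SameSite (δ i) d) : ∃ j, δ j = d := by
  obtain ⟨k, hk⟩ := hd.exists_nat_pow_eq
  refine ⟨i + k, ?_⟩
  rw [← h.pow, ← hk]
  simp

theorem Str.mono {A B : D → Prop} {μ ν : D → D} (hAB : ∀ d, A d → B d)
    (hμ : ∀ d, A d → μ d = ν d) {x y : D} (h : M.Str A μ x y) : M.Str B ν x y := by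
  induction h with
  | rel x y h =>
    refine Relation.EqvGen.rel _ _ ⟨hAB _ h.1, ?_⟩
    rcases h.2 with h2 | h2
    · left
      rw [h2, hμ _ h.1]
    · exact Or.inr ⟨h2.1, hAB _ h2.2⟩
  | refl x => exact Relation.EqvGen.refl _
  | symm x y _ ih => exact Relation.EqvGen.symm _ _ ih
  | trans x y z _ _ ih1 ih2 => exact Relation.EqvGen.trans _ _ _ ih1 ih2

theorem usum_congr [Fintype D] {A : D → Prop} {ω ω' : D → ℕ} {d : D}
    (h : ∀ e, M.SameNode d e → A e → ω e = ω' e) : M.usum A ω d = M.usum A ω' d := by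
  unfold usum
  refine Finset.sum_congr rfl fun e he => ?_
  rw [mem_nodeIn] at he
  exact h e he.1 he.2

theorem usum_same [Fintype D] {A : D → Prop} {ω : D → ℕ} {d e : D} (h : M.SameNode d e) :
    M.usum A ω d = M.usum A ω e := by
  unfold usum
  refine Finset.sum_congr ?_ fun _ _ => rfl
  ext x
  simp only [mem_nodeIn]
  exact and_congr_left fun _ => ⟨fun h2 => h.symm.trans h2, fun h2 => h.trans h2⟩

/-- the units of two disjoint regions add up -/
theorem usum_split [Fintype D] {A B : D → Prop} (ω : D → ℕ) (d : D) :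
    M.usum A ω d = M.usum (fun e => A e ∧ B e) ω d + M.usum (fun e => A e ∧ ¬ B e) ω d := by
  unfold usum
  rw [← Finset.sum_filter_add_sum_filter_not _ B]
  congr 1 <;>
  · refine Finset.sum_congr ?_ fun _ _ => rfl
    ext x
    simp only [Finset.mem_filter, mem_nodeIn, and_assoc]

theorem LocalAt.congr {E : (n : ℕ) → PState n → Prop} {μ ν : D → D} {ω χ : D → ℕ} {A : D → Prop}
    (hA : M.Sites A) (hμ : ∀ d, A d → μ d = ν d) (hω : ∀ d, A d → ω d = χ d) {d : D} (hd : A d)
    (h : M.LocalAt E μ ω d) : M.LocalAt E ν χ d := by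
  obtain ⟨n, δ, s, hn, hδ, ⟨i, hi⟩, hs, hst⟩ := h
  have h1 : ∀ j, A (δ j) := fun j => (hA.same (hδ.same hn i j)).1 (by rw [hi]; exact hd)
  exact ⟨n, δ, s, hn, hδ, ⟨i, hi⟩, hs, fun j => by
    rw [← hμ _ (h1 j), ← hω _ (h1 j)]
    exact hst j⟩

theorem Real.rot [Fintype D] {E : (n : ℕ) → PState n → Prop} {A : D → Prop} {n : ℕ}
    {δ : ZMod n → D} {s : PState n} {μ : D → D} {ω : D → ℕ} (h : M.Real E A δ s μ ω) (c : ZMod n) :
    M.Real E A (fun i => δ (i + c)) (s.rot c) μ ω := by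
  refine ⟨h.loc, fun i => ?_, fun d hd => ?_, fun i => h.bdry _, h.inner⟩
  · have := h.str (i + c)
    simpa [PState.rot] using this
  · obtain ⟨i, hi⟩ := h.all d hd
    exact ⟨i - c, by simpa using hi⟩

/-- `M'` is the map `M` with the region `A` contracted to one site; `ι` embeds the remaining darts -/
structure IsCtr {D' : Type} (M : DMap D) (A : D → Prop) (M' : DMap D') (ι : D' → D) : Prop where
  inj : Function.Injective ι
  range : ∀ d, (∃ e, ι e = d) ↔ (¬ A d ∨ ¬ A (M.al d))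
  al : ∀ e, ι (M'.al e) = M.al (ι e)
  nx : ∀ e, ¬ A (ι e) → ι (M'.nx e) = M.nx (ι e)
  site : ∀ e, A (ι (M'.nx e)) ↔ A (ι e)
  node : ∀ e f, M'.SameNode e f ↔ M.SameNode (ι e) (ι f)

theorem sites_fs {A : D → Prop} (hA : M.Sites A) (d : D) : A (M.fs d) ↔ A (M.al d) := by
  rw [fs_def, hA.symm]

/-- a node which has a sector in `A` and a sector outside `A` contains a leaving dart of `A` -/
theorem exists_leaving [Finite D] {A : D → Prop} (hA : M.Sites A) {x y : D}
    (h : M.SameNode x y) (hx : A x) (hy : ¬ A y) :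
    ∃ z, M.SameNode x z ∧ A z ∧ ¬ A (M.al z) := by
  by_contra hno
  push Not at hno
  obtain ⟨n, hn⟩ := h.exists_nat_pow_eq
  have key : ∀ k : ℕ, A ((M.fs ^ k) x) := by
    intro k
    induction k with
    | zero => simpa using hx
    | succ k ih =>
      rw [pow_succ', Equiv.Perm.mul_apply, sites_fs hA]
      exact hno _ ⟨k, by simp⟩ ih
  exact hy (hn ▸ key n)

section contr

variable {D' : Type} [Fintype D] [Fintype D'] {M' : DMap D'} {ι : D' → D}

/-- the units of a region which is not touched by the contraction -/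
theorem IsCtr.usum_out {A : D → Prop} (h : M.IsCtr A M' ι) {B : D → Prop}
    (hB : ∀ d, B d → ¬ A d ∨ ¬ A (M.al d)) {ω : D → ℕ} {ω' : D' → ℕ}
    (hω : ∀ e, B (ι e) → ω (ι e) = ω' e) (e : D') :
    M.usum B ω (ι e) = M'.usum (fun e => B (ι e)) ω' e := by
  unfold usum
  symm
  refine Finset.sum_bij (fun f _ => ι f) ?_ ?_ ?_ ?_
  · intro f hf
    rw [mem_nodeIn] at hf ⊢
    exact ⟨(h.node e f).1 hf.1, hf.2⟩
  · intro f _ g _ hfg
    exact h.inj hfg
  · intro d hd
    rw [mem_nodeIn] at hd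
    obtain ⟨f, rfl⟩ := (h.range d).2 (hB d hd.2)
    exact ⟨f, mem_nodeIn.2 ⟨(h.node e f).2 hd.1, hd.2⟩, rfl⟩
  · intro f hf
    rw [mem_nodeIn] at hf
    exact (hω f hf.2).symm

/-- **Lemma 2**: a state of the inside `A` of the map in which the outside is contracted -/
theorem Real.of_inside {E : (n : ℕ) → PState n → Prop} {A : D → Prop}
    (h : M.IsCtr (fun d => ¬ A d) M' ι) {n : ℕ} {δ : ZMod n → D} {δ' : ZMod n → D'}
    (hδ : ∀ i, ι (δ' i) = δ i) {s : PState n} {μ' : D' → D'} {ω' : D' → ℕ}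
    (hR : M'.Real E (fun e => A (ι e)) δ' s μ' ω') : ∃ μ ω, M.Real E A δ s μ ω := by
  have hex : ∀ d, A d → ∃ e, ι e = d := fun d hd => (h.range d).2 (Or.inl (not_not.2 hd))
  let μ : D → D := fun d => if hd : ∃ e, ι e = d then ι (μ' hd.choose) else d
  let ω : D → ℕ := fun d => if hd : ∃ e, ι e = d then ω' hd.choose else 0
  have hμ : ∀ e, μ (ι e) = ι (μ' e) := by
    intro e
    have hd : ∃ e', ι e' = ι e := ⟨e, rfl⟩
    simp only [μ, dif_pos hd]
    rw [h.inj hd.choose_spec]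
  have hω : ∀ e, ω (ι e) = ω' e := by
    intro e
    have hd : ∃ e', ι e' = ι e := ⟨e, rfl⟩
    simp only [ω, dif_pos hd]
    rw [h.inj hd.choose_spec]
  have hstr : ∀ x y, M'.Str (fun e => A (ι e)) μ' x y → M.Str A μ (ι x) (ι y) := by
    intro x y hxy
    induction hxy with
    | rel x y hxy =>
      refine Relation.EqvGen.rel _ _ ⟨hxy.1, ?_⟩
      rcases hxy.2 with h2 | h2
      · left
        rw [hμ, h2]
      · right
        rw [← h.al, ← h2.1]
        exact ⟨rfl, h2.2⟩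
    | refl x => exact Relation.EqvGen.refl _
    | symm x y _ ih => exact Relation.EqvGen.symm _ _ ih
    | trans x y z _ _ ih1 ih2 => exact Relation.EqvGen.trans _ _ _ ih1 ih2
  refine ⟨μ, ω, ?_, fun i => ?_, fun d hd => ?_, fun i => ?_, fun d hd => ?_⟩
  · intro d hd
    obtain ⟨e, rfl⟩ := hex d hd
    obtain ⟨k, γ, t, hk, hγ, ⟨i, hi⟩, ht, hst⟩ := hR.loc e hd
    have hsites : M'.Sites fun e => A (ι e) := fun e => not_iff_not.1 (h.site e)
    have hA : ∀ j, A (ι (γ j)) := fun j => (hsites.same (hγ.same hk i j)).1 (by rw [hi]; exact hd)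
    refine ⟨k, fun j => ι (γ j), t, hk, ⟨fun x y hxy => hγ.inj (h.inj hxy), fun j => ?_⟩,
      ⟨i, congrArg ι hi⟩, ht, fun j => ?_⟩
    · rw [← hγ.nx, h.nx _ (not_not.2 (hA j))]
    · rw [hμ, hω, (hst j).1, (hst j).2]
      exact ⟨rfl, rfl⟩
  · rw [← hδ, ← hδ]
    exact hstr _ _ (hR.str i)
  · obtain ⟨e, rfl⟩ := hex d hd
    obtain ⟨i, hi⟩ := hR.all e hd
    refine ⟨i, ?_⟩
    rw [← hδ]
    exact hstr _ _ hi
  · rw [← hδ, h.usum_out (fun d hd => Or.inl (not_not.2 hd)) (fun e _ => hω e)]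
    exact hR.bdry i
  · obtain ⟨e, rfl⟩ := hex d (hd d (Equiv.Perm.SameCycle.refl _ _))
    rw [h.usum_out (fun d hd => Or.inl (not_not.2 hd)) (fun e _ => hω e)]
    exact hR.inner e fun f hf => hd _ ((h.node e f).1 hf)

/-- **Lemma 1**: the contracted region `A₀` is replaced by its inside -/
theorem Real.glue {E : (n : ℕ) → PState n → Prop} {A A₀ : D → Prop}
    (hA₀ : M.Sites A₀) (h0 : ∀ d, A₀ d → A d) (h : M.IsCtr A₀ M' ι)
    {x₀ : D'} (hx₀ : A₀ (ι x₀))
    (hone : ∀ e, A₀ (ι e) → M'.SameSite x₀ e)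
    (hnode : ∀ e f, A₀ (ι e) → A₀ (ι f) → M.SameNode (ι e) (ι f) → e = f)
    (hin : ∀ (n : ℕ) (γ : ZMod n → D') (t : PState n), M'.SiteNum n γ → (∀ i, A₀ (ι (γ i))) →
      E n t → ∃ μ ω, M.Real E A₀ (fun i => ι (γ i)) t μ ω)
    {n : ℕ} {δ : ZMod n → D} {δ' : ZMod n → D'}
    (hδ : ∀ i, ι (δ' i) = δ i) {s : PState n} {μ' : D' → D'} {ω' : D' → ℕ}
    (hR : M'.Real E (fun e => A (ι e)) δ' s μ' ω') : ∃ μ ω, M.Real E A δ s μ ω := by
  obtain ⟨m, γ, t, hm, hγ, ⟨i₀, hi₀⟩, ht, hst⟩ := hR.loc x₀ (h0 _ hx₀)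
  have hsites : M'.Sites fun e => A₀ (ι e) := h.site
  have hγA : ∀ i, A₀ (ι (γ i)) := fun i =>
    (hsites.same (hγ.same hm i₀ i)).1 (by rw [hi₀]; exact hx₀)
  obtain ⟨μ₀, ω₀, hR₀⟩ := hin m γ t hγ hγA ht
  have hγs : ∀ e, A₀ (ι e) → ∃ i, γ i = e := by
    intro e he
    have h1 := hone e he
    rw [← hi₀] at h1
    exact hγ.mem h1
  have hex : ∀ d, ¬ A₀ d → ∃ e, ι e = d := fun d hd => (h.range d).2 (Or.inl hd)
  let μ : D → D := fun d => if A₀ d then μ₀ d else
    if hd : ∃ e, ι e = d then ι (μ' hd.choose) else d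
  let ω : D → ℕ := fun d => if A₀ d then ω₀ d else
    if hd : ∃ e, ι e = d then ω' hd.choose else 0
  have hμ₀ : ∀ d, A₀ d → μ₀ d = μ d := fun d hd => by simp only [μ, if_pos hd]
  have hω₀ : ∀ d, A₀ d → ω₀ d = ω d := fun d hd => by simp only [ω, if_pos hd]
  have hμ : ∀ e, ¬ A₀ (ι e) → μ (ι e) = ι (μ' e) := by
    intro e he
    have hd : ∃ e', ι e' = ι e := ⟨e, rfl⟩
    simp only [μ, if_neg he, dif_pos hd]
    rw [h.inj hd.choose_spec]
  have hω : ∀ e, ¬ A₀ (ι e) → ω (ι e) = ω' e := by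
    intro e he
    have hd : ∃ e', ι e' = ι e := ⟨e, rfl⟩
    simp only [ω, if_neg he, dif_pos hd]
    rw [h.inj hd.choose_spec]
  have hstr₀ : ∀ x y, M.Str A₀ μ₀ x y → M.Str A μ x y := fun x y hxy => hxy.mono h0 hμ₀
  have hstr : ∀ x y, M'.Str (fun e => A (ι e)) μ' x y → M.Str A μ (ι x) (ι y) := by
    intro x y hxy
    induction hxy with
    | rel x y hxy =>
      rcases hxy.2 with h2 | h2
      · by_cases hx : A₀ (ι x)
        · obtain ⟨i, rfl⟩ := hγs x hx
          rw [h2, (hst i).1]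
          exact hstr₀ _ _ (hR₀.str i)
        · refine Relation.EqvGen.rel _ _ ⟨hxy.1, Or.inl ?_⟩
          rw [hμ _ hx, h2]
      · refine Relation.EqvGen.rel _ _ ⟨hxy.1, Or.inr ?_⟩
        rw [← h.al, ← h2.1]
        exact ⟨rfl, h2.2⟩
    | refl x => exact Relation.EqvGen.refl _
    | symm x y _ ih => exact Relation.EqvGen.symm _ _ ih
    | trans x y z _ _ ih1 ih2 => exact Relation.EqvGen.trans _ _ _ ih1 ih2
  -- the sums
  have hsum : ∀ e, M.usum A ω (ι e) = M'.usum (fun e => A (ι e)) ω' e := by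
    intro e
    rw [usum_split (M := M) (B := A₀) ω (ι e), usum_split (M := M') (B := fun e => A₀ (ι e)) ω' e]
    congr 1
    · have h1 : M.usum (fun d => A d ∧ A₀ d) ω (ι e) = M.usum A₀ ω₀ (ι e) := by
        unfold usum
        refine Finset.sum_congr ?_ fun x hx => ?_
        · ext x
          simp only [mem_nodeIn]
          exact ⟨fun hx => ⟨hx.1, hx.2.2⟩, fun hx => ⟨hx.1, h0 _ hx.2, hx.2⟩⟩
        · rw [mem_nodeIn] at hx
          exact (hω₀ x hx.2).symm
      rw [h1]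
      by_cases hl : ∃ j, M.SameNode (ι e) (ι (γ j))
      · obtain ⟨j, hj⟩ := hl
        rw [usum_same hj, hR₀.bdry j, ← (hst j).2]
        unfold usum
        symm
        refine Finset.sum_eq_single_of_mem (γ j) ?_ ?_
        · exact mem_nodeIn.2 ⟨(h.node _ _).2 hj, h0 _ (hγA j), hγA j⟩
        · intro f hf hne
          have hf := mem_nodeIn.1 hf
          exact absurd (hnode f (γ j) hf.2.2 (hγA j)
            (((h.node _ _).1 hf.1).symm.trans hj)) hne
      · have hemp : ∀ f, M'.SameNode e f → ¬ A₀ (ι f) := by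
          intro f hf hf2
          obtain ⟨j, rfl⟩ := hγs f hf2
          exact hl ⟨j, (h.node _ _).1 hf⟩
        have hemp2 : ∀ x, M.SameNode (ι e) x → ¬ A₀ x := by
          intro x hx hx2
          have he : ¬ A₀ (ι e) := hemp e (Equiv.Perm.SameCycle.refl _ _)
          obtain ⟨z, hz1, hz2, hz3⟩ := exists_leaving hA₀ hx.symm hx2 he
          obtain ⟨f, rfl⟩ := (h.range z).2 (Or.inr hz3)
          exact hemp f ((h.node _ _).2 (hx.trans hz1)) hz2
        have e1 : M.usum A₀ ω₀ (ι e) = 0 := by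
          unfold usum
          apply Finset.sum_eq_zero
          intro x hx
          rw [mem_nodeIn] at hx
          exact absurd hx.2 (hemp2 x hx.1)
        have e2 : M'.usum (fun e => A (ι e) ∧ A₀ (ι e)) ω' e = 0 := by
          unfold usum
          apply Finset.sum_eq_zero
          intro x hx
          have hx := mem_nodeIn.1 hx
          exact absurd hx.2.2 (hemp x hx.1)
        rw [e1, e2]
    · exact h.usum_out (B := fun d => A d ∧ ¬ A₀ d) (fun d hd => Or.inl hd.2)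
        (fun e he => hω e he.2) e
  refine ⟨μ, ω, ?_, fun i => ?_, fun d hd => ?_, fun i => ?_, fun d hd => ?_⟩
  · intro d hd
    by_cases hd0 : A₀ d
    · exact (hR₀.loc d hd0).congr hA₀ hμ₀ hω₀ hd0
    · obtain ⟨e, rfl⟩ := hex d hd0
      obtain ⟨k, η, r, hk, hη, ⟨i, hi⟩, hr, hsr⟩ := hR.loc e hd
      have hA : ∀ j, ¬ A₀ (ι (η j)) := fun j hj =>
        hd0 (by rw [← hi]; exact (hsites.same (hη.same hk i j)).2 hj)
      refine ⟨k, fun j => ι (η j), r, hk, ⟨fun x y hxy => hη.inj (h.inj hxy), fun j => ?_⟩,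
        ⟨i, congrArg ι hi⟩, hr, fun j => ?_⟩
      · rw [← hη.nx, h.nx _ (hA j)]
      · rw [hμ _ (hA j), hω _ (hA j), (hsr j).1, (hsr j).2]
        exact ⟨rfl, rfl⟩
  · rw [← hδ, ← hδ]
    exact hstr _ _ (hR.str i)
  · by_cases hd0 : A₀ d
    · obtain ⟨j, hj⟩ := hR₀.all d hd0
      obtain ⟨i, hi⟩ := hR.all (γ j) (h0 _ (hγA j))
      refine ⟨i, ?_⟩
      rw [← hδ]
      exact Relation.EqvGen.trans _ _ _ (hstr₀ _ _ hj) (hstr _ _ hi)
    · obtain ⟨e, rfl⟩ := hex d hd0
      obtain ⟨i, hi⟩ := hR.all e hd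
      refine ⟨i, ?_⟩
      rw [← hδ]
      exact hstr _ _ hi
  · rw [← hδ, hsum]
    exact hR.bdry i
  · have key : ∀ e, (∀ f, M.SameNode (ι e) f → A f) → M.usum A ω (ι e) = 3 := by
      intro e he
      rw [hsum]
      exact hR.inner e fun f hf => he _ ((h.node e f).1 hf)
    by_cases hall : ∀ x, M.SameNode d x → A₀ x
    · have h1 : M.usum A ω d = M.usum A₀ ω₀ d := by
        unfold usum
        refine Finset.sum_congr ?_ fun x hx => ?_
        · ext x
          simp only [mem_nodeIn]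
          exact ⟨fun hx => ⟨hx.1, hall x hx.1⟩, fun hx => ⟨hx.1, h0 _ hx.2⟩⟩
        · rw [mem_nodeIn] at hx
          exact (hω₀ x (hall x hx.1)).symm
      rw [h1]
      exact hR₀.inner d hall
    · push Not at hall
      obtain ⟨x, hx, hx2⟩ := hall
      obtain ⟨e, rfl⟩ := hex x hx2
      rw [usum_same hx]
      exact key e fun f hf => hd f (hx.trans hf)

end contr

end DMap

end GT33
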