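import Pool.Agent.GT33.DContr
import Pool.Agent.GT33.DState

/-!
# GT33 module DLEGAL: legal maps

A legal map is connected and plane, its sites have four or six darts (quads and hexagons), there are no
loops, every nontrivial cut has at least four darts, and exactly four only if one side is a single site.  In
the language of `R`: simple, every 4-cycle is a face.
-/

open Classical

namespace GT33

namespace DMap

variable {D : Type} {M : DMap D}

/-- legal maps -/
structure Legal (M : DMap D) : Prop where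
  plane : M.Plane
  noloop : ∀ d, ¬ M.SameSite d (M.al d)
  cut4 : ∀ A : D → Prop, M.Sites A → (∃ d, A d) → (∃ d, ¬ A d) → 4 ≤ M.cut A
  quad : ∀ A : D → Prop, M.Sites A → M.cut A = 4 →
    (∃ d, ∀ e, A e ↔ M.SameSite d e) ∨ ∃ d, ∀ e, ¬ A e ↔ M.SameSite d e
  deg : ∀ d, M.deg d = 4 ∨ M.deg d = 6

/-! ### colours -/

theorem card_site [Fintype D] (d : D) (s : Finset D) (hs : ∀ e, e ∈ s ↔ M.SameSite d e) :
    s.card = M.deg d := by
  have h1 : s = (Finset.range (M.deg d)).image fun k => (M.nx)^[k] d := by
    ext e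
    rw [hs, Finset.mem_image]
    constructor
    · intro h
      obtain ⟨k, hk⟩ := h.exists_nat_pow_eq
      refine ⟨k % M.deg d, ?_, ?_⟩
      · rw [Finset.mem_range]
        apply Nat.mod_lt
        exact Function.minimalPeriod_pos_of_mem_periodicPts (M.nx.injective.mem_periodicPts d)
      · rw [deg, Function.iterate_mod_minimalPeriod_eq, ← hk, Equiv.Perm.coe_pow]
    · rintro ⟨k, -, rfl⟩
      exact ⟨k, by rw [zpow_natCast, Equiv.Perm.coe_pow]⟩
  rw [h1, Finset.card_image_of_injOn, Finset.card_range]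
  intro i hi j hj hij
  rw [Finset.coe_range, Set.mem_Iio] at hi hj
  exact (Function.iterate_eq_iterate_iff_of_lt_minimalPeriod hi hj).1 hij

/-- the checkerboard colouring -/
theorem Legal.exists_col [Fintype D] (h : M.Legal) :
    ∃ o : D → Bool, (∀ d, o (M.nx d) = !o d) ∧ ∀ d, o (M.al d) = !o d := by
  obtain ⟨w, hw1, hw2⟩ := h.plane.hom (fun _ => 1) (fun _ => rfl) (by
    refine sum_closed_of_sites (M := M) (P := fun x : ZMod 2 => x = 0) rfl ?_ ?_
    · rintro x y rfl rfl
      exact add_zero 0
    · intro d s hs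
      rw [Finset.sum_const, card_site d s hs]
      rcases h.deg d with h1 | h1 <;> rw [h1] <;> decide)
  have key : ∀ x y : ZMod 2, x + y = 1 → decide (x = 1) = !decide (y = 1) := by decide
  refine ⟨fun d => decide (w d = 1), fun d => ?_, fun d => ?_⟩
  · have h1 := hw2 (M.nx d)
    rw [Equiv.symm_apply_apply] at h1
    exact key _ _ h1
  · have h1 := hw2 d
    have h2 := hw1 (M.al d)
    rw [fs_al] at h2
    rw [h2, add_comm] at h1
    exact key _ _ h1

theorem Legal.nx_ne (h : M.Legal) (d : D) : M.nx d ≠ d := by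
  intro e
  have h1 : M.deg d = 1 := by
    unfold DMap.deg
    exact Function.minimalPeriod_eq_one_iff_isFixedPt.2 e
  rcases h.deg d with h2 | h2 <;> omega

/-! ### cuts -/

theorem cut_eq_zero [Finite D] {A : D → Prop} (h : M.cut A = 0) (d : D) (hd : A d) :
    A (M.al d) := by
  by_contra hn
  unfold cut at h
  rw [Nat.card_eq_zero] at h
  rcases h with h | h
  · exact h.false ⟨d, hd, hn⟩
  · exact not_finite {d : D // A d ∧ ¬ A (M.al d)}

theorem cut_congr {A B : D → Prop} (h : ∀ d, A d ↔ B d) : M.cut A = M.cut B := by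
  have : A = B := funext fun d => propext (h d)
  rw [this]

/-- if there are no edges between `A` and `B` then the cuts add up -/
theorem cut_or [Finite D] {A B : D → Prop} (hd : ∀ d, A d → ¬ B d) (h1 : ∀ d, A d → ¬ B (M.al d)) :
    M.cut (fun d => A d ∨ B d) = M.cut A + M.cut B := by
  have : Fintype D := Fintype.ofFinite D
  have h2 : ∀ d, B d → ¬ A (M.al d) := fun d hB hA => by
    have := h1 _ hA
    rw [M.inv] at this
    exact this hB
  rw [cut_eq_sum', cut_eq_sum', cut_eq_sum', ← Finset.sum_add_distrib]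
  refine Finset.sum_congr rfl fun d _ => ?_
  have e1 := hd d
  have e2 := h1 d
  have e3 := h2 d
  have e4 := hd (M.al d)
  by_cases a1 : A d <;> by_cases a2 : B d <;> by_cases a3 : A (M.al d) <;>
    by_cases a4 : B (M.al d) <;> simp_all
where
  cut_eq_sum' [Fintype D] {A : D → Prop} :
      M.cut A = ∑ d, if A d ∧ ¬ A (M.al d) then 1 else 0 := by
    unfold cut
    rw [Nat.card_eq_fintype_card, Fintype.card_subtype, Finset.card_filter]

/-- sets with small cuts are connected -/
theorem Legal.connOn [Finite D] (h : M.Legal) {A : D → Prop} (hA : M.Sites A)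
    (hA' : ∃ d, ¬ A d) (h6 : M.cut A < 8) : M.ConnOn A := by
  intro B hB hal ⟨x, hx, hxB⟩ y hy
  by_contra hyB
  have h1 : M.cut A = M.cut (fun d => A d ∧ B d) + M.cut (fun d => A d ∧ ¬ B d) := by
    rw [← cut_or]
    · apply cut_congr
      intro d
      tauto
    · intro d h1 h2
      exact h2.2 h1.2
    · intro d h1 h2
      exact h2.2 (hal d h1.1 h2.1 h1.2)
  obtain ⟨z, hz⟩ := hA'
  have h2 := h.cut4 _ (hA.and hB) ⟨x, hx, hxB⟩ ⟨z, fun h => hz h.1⟩
  have h3 := h.cut4 _ (hA.and hB.not) ⟨y, hy, hyB⟩ ⟨z, fun h => hz h.1⟩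
  omega

theorem Legal.cut_site [Finite D] (h : M.Legal) (d : D) : M.cut (M.SameSite d) = M.deg d := by
  have : Fintype D := Fintype.ofFinite D
  rw [← card_site d (Finset.univ.filter fun e => M.SameSite d e) (fun e => by simp)]
  unfold cut
  rw [Nat.card_eq_fintype_card, Fintype.card_subtype]
  congr 1
  ext e
  simp only [Finset.mem_filter, Finset.mem_univ, true_and]
  constructor
  · exact fun h => h.1
  · intro h1
    exact ⟨h1, fun h2 => h.noloop e (h1.symm.trans h2)⟩

theorem Legal.deg_pos (h : M.Legal) (d : D) : M.deg d ≠ 0 := by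
  rcases h.deg d with h1 | h1 <;> rw [h1] <;> decide

/-- sets with small nonzero cuts have boundary cycles -/
theorem Legal.exists_bd [Finite D] (h : M.Legal) {A : D → Prop} (hA : M.Sites A)
    (h1 : ∃ d, A d) (h2 : ∃ d, ¬ A d) (h6 : M.cut A < 8) :
    ∃ δ : ZMod (M.cut A) → D, M.Bd A (M.cut A) δ := by
  have h4 := h.cut4 A hA h1 h2
  refine h.plane.exists_bd hA (h.connOn hA h2 h6) (h.connOn hA.not ?_ ?_) (by omega)
  · obtain ⟨d, hd⟩ := h1
    exact ⟨d, not_not.2 hd⟩
  · rw [cut_not]
    exact h6

/-- there is another site -/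
theorem Legal.exists_other (h : M.Legal) (d : D) : ∃ e, ¬ M.SameSite d e := ⟨M.al d, h.noloop d⟩

/-- different sectors of a site belong to different nodes -/
theorem Legal.node_inj [Finite D] (h : M.Legal) {d e : D} (hs : M.SameSite d e)
    (hn : M.SameNode d e) : d = e := by
  have h1 := h.cut_site d
  obtain ⟨δ, hδ⟩ := h.exists_bd (sites_site d) ⟨d, Equiv.Perm.SameCycle.refl _ _⟩
    (h.exists_other d) (by rw [h1]; rcases h.deg d with h2 | h2 <;> omega)
  obtain ⟨i, hi⟩ := (hδ.mem d).1 ⟨Equiv.Perm.SameCycle.refl _ _, h.noloop d⟩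
  obtain ⟨j, hj⟩ := (hδ.mem e).1 ⟨hs, fun h2 => h.noloop e (hs.symm.trans h2)⟩
  rw [← hi, ← hj] at hn
  rw [← hi, ← hj, nodes_inj hδ hn]

/-! ### contractions of legal maps -/

section

variable {A : D → Prop} {δ : ZMod 6 → D}

/-- contracting a set with six leaving darts -/
theorem Legal.contr [Finite D] (h : M.Legal) (hb : M.Bd A 6 δ) : (M.contr hb).Legal := by
  have hc6 : M.cut A = 6 := bd_cut hb
  refine ⟨contr_plane hb h.plane, ?_, ?_, ?_, ?_⟩
  · rintro (d | i) hs
    · by_cases hd : A (M.al d.1)
      · obtain ⟨i, hi⟩ := (hb.mem (M.al d.1)).1 ⟨hd, by rw [M.inv]; exact d.2⟩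
        rw [contr_al_inl' hb hi.symm] at hs
        have := ((contr_sites_inr hb).same hs).2 ⟨i, rfl⟩
        simp at this
      · rw [contr_al_inl hb hd, contr_sameSite_inl] at hs
        exact h.noloop _ hs
    · rw [contr_al_inr] at hs
      have := ((contr_sites_inr hb).same hs).1 ⟨i, rfl⟩
      simp at this
  · intro B hB h1 h2
    rw [← cut_pull hb hB]
    refine h.cut4 _ (pull_sites hb hB) ?_ ?_
    · obtain ⟨x, hx⟩ := h1
      exact ⟨_, (pull_cemb hb hB x).2 hx⟩
    · obtain ⟨x, hx⟩ := h2
      exact ⟨_, fun h3 => hx ((pull_cemb hb hB x).1 h3)⟩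
  · intro B hB hc
    rw [← cut_pull hb hB] at hc
    -- the general statement for `B` or its complement
    have key : ∀ B : Out A 6 → Prop, (M.contr hb).Sites B → M.cut (pull B) = 4 →
        (∃ d, ∀ e, pull B e ↔ M.SameSite d e) → ∃ x, ∀ y, B y ↔ (M.contr hb).SameSite x y := by
      intro B hB hc ⟨d, hd⟩
      have hdB : pull B d := (hd d).2 (Equiv.Perm.SameCycle.refl _ _)
      by_cases hdA : A d
      · exfalso
        have h3 : ∀ e, A e ↔ M.SameSite d e := by
          intro e
          constructor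
          · intro he
            rw [← hd]
            rw [pull_of he]
            exact (pull_of hdA).1 hdB
          · intro he
            exact (Sites.same (M := M) hb.site he).1 hdA
        have h4 : M.cut A = M.cut (pull B) := cut_congr fun e => (h3 e).trans (hd e).symm
        omega
      · refine ⟨.inl ⟨d, hdA⟩, ?_⟩
        rintro (⟨e, he⟩ | i)
        · rw [contr_sameSite_inl, ← hd]
          exact (pull_of_not (B := B) he).symm
        · constructor
          · intro hB0
            have h5 := (pull_cemb hb hB (.inr i)).2 hB0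
            rw [cemb_inr, hd] at h5
            exact absurd ((Sites.same (M := M) hb.site h5).2 (bd_mem hb i)) hdA
          · intro hs
            have := ((contr_sites_inr hb).same hs).2 ⟨i, rfl⟩
            simp at this
    have hneg : ∀ e, pull (A := A) (n := 6) (fun y => ¬ B y) e ↔ ¬ pull B e := by
      intro e
      by_cases he : A e
      · rw [pull_of he, pull_of he]
      · rw [pull_of_not he, pull_of_not he]
    rcases h.quad _ (pull_sites hb hB) hc with h1 | ⟨d, h1⟩
    · exact Or.inl (key B hB hc h1)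
    · right
      refine key (fun y => ¬ B y) hB.not ?_ ⟨d, fun e => by rw [hneg, h1]⟩
      rw [cut_congr hneg, cut_not, hc]
  · rintro (d | i)
    · rw [contr_deg_inl]
      exact h.deg _
    · rw [contr_deg_inr]
      exact Or.inr rfl

theorem contr_isCtr [Finite D] (hb : M.Bd A 6 δ) : M.IsCtr A (M.contr hb) (cemb δ) where
  inj := cemb_inj hb
  range d := by
    rw [← not_and_or]
    exact ⟨by rintro ⟨x, rfl⟩; exact kept_cemb hb x, exists_cemb hb⟩
  al := cemb_al hb
  nx := by
    rintro (d | i) hx
    · rfl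
    · exact absurd (bd_mem hb i) hx
  site := by
    rintro (d | i)
    · exact hb.site d.1
    · exact iff_of_true (bd_mem hb (i + 1)) (bd_mem hb i)
  node := contr_sameNode hb

/-- boundary numberings in the contracted map -/
theorem contr_bd [Finite D] (hP : M.Plane) (hb : M.Bd A 6 δ) {B : D → Prop} {n : ℕ} {η : ZMod n → D}
    (hη : M.Bd B n η) (hAB : (∀ d, A d → B d) ∨ ∀ d, A d → ¬ B d) {η' : ZMod n → Out A 6}
    (h1 : ∀ i, cemb δ (η' i) = η i) : (M.contr hb).Bd (fun x => B (cemb δ x)) n η' := by
  have : Fintype D := Fintype.ofFinite D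
  have hP' : PlaneD (M.contr hb).nx (M.contr hb).al := (contr_plane hb hP).toD
  refine hP'.bd_of_nodes (A := fun x => B (cemb δ x)) (exists_pull hb hη.site hAB).1 ?_ ?_ ?_
  · intro x
    rw [cemb_al, hη.mem]
    constructor
    · rintro ⟨i, hi⟩
      exact ⟨i, cemb_inj hb ((h1 i).trans hi)⟩
    · rintro ⟨i, rfl⟩
      exact ⟨i, (h1 i).symm⟩
  · intro i j hij
    rw [← sameNode_iff, contr_sameNode, h1, h1] at hij
    exact nodes_inj hη hij
  · intro i
    rw [← sameNode_iff, contr_sameNode, h1, cemb_al, h1, sameNode_iff]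
    exact hη.step i

end

end DMap

end GT33
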