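import Pool.Agent.GT33.TopoC

/-!
# GT33 module DLIFTU: the peel, units

The units of a state of the folded ring (`hat`) and the units of the sites at the ring, without corners.  All the
unit sums in the patch are as they should be (`Gen.lift_units`).
-/

open Classical

namespace GT33

namespace DMap

variable {D : Type} {M : DMap D} {A : D → Prop} {δ : ZMod 6 → D}

open Patch

namespace Gen

section

variable [Fintype D] (hG : M.Gen A δ)

include hG

theorem fs_ring (hnc : ∀ i, M.nx (δ i) ≠ δ (i + 1)) (i : ZMod 6) : FS M A δ (δ i) :=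
  (hG.fs_or i).resolve_right (hnc i)

/-- the edge between a ring node and a node of its class is unique -/
theorem rad_uniq {e g : D} (he : FS M A δ e) (hg : A g) (hr : Ring M δ g)
    (hr' : ¬ Ring M δ (M.nx.symm g)) (hn : M.SameNode (M.nx.symm g) (M.nx e)) :
    g = M.al (M.nx e) := by
  obtain ⟨j, hj⟩ := hr
  rcases hG.asec hg hj with rfl | h
  · exact absurd (hG.toPatch.ring_prev j) hr'
  · have h1 : M.SameNode (M.nx (M.fs g)) (M.nx e) := by
      rw [nx_fs]
      exact (nx_symm_node g).trans hn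
    have h2 := hG.chain h he h1
    rw [← h2, nx_fs, M.inv]

omit [Fintype D] in
/-- an inner node is not at the ring -/
theorem inner_not_ring [Finite D] {d : D} (hd : ∀ e, M.SameNode d e → A e) : ¬ Ring M δ d := by
  rintro ⟨i, hi⟩
  exact hG.toPatch.notA _ (hd _ (hi.symm.trans (hG.toPatch.root_node i)))

end

variable [Fintype D] (hG : M.Gen A δ)
  {o : D → Bool} (ho : ∀ d, o (M.nx d) = !o d) (ho' : ∀ d, o (M.al d) = !o d)

include hG in
/-- the units of a ring node -/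
theorem lift_ring (hnc : ∀ i, M.nx (δ i) ≠ δ (i + 1)) {ω : D → ℕ} {r : ZMod 6 → ℕ}
    (u1 : ∀ k, ω (δ k) = r k) (u1' : ∀ k, ω (M.nx.symm (δ k)) + r k = 1)
    (u2 : ∀ e, FS M A δ e → (∀ k, e ≠ δ k) → ω e = 0) (k : ZMod 6) :
    M.usum A ω (δ k) + r (k + 1) = r k + 1 := by
  have hne : δ k ≠ M.nx.symm (δ (k + 1)) := fun h =>
    hnc k ((hG.toPatch.corner_iff k (k + 1)).1 h).2
  have h1 : δ k ∈ M.nodeIn A (δ k) :=
    mem_nodeIn.2 ⟨Equiv.Perm.SameCycle.refl _ _, hG.toPatch.inA k⟩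
  have h2 : M.nx.symm (δ (k + 1)) ∈ (M.nodeIn A (δ k)).erase (δ k) :=
    Finset.mem_erase.2 ⟨hne.symm, mem_nodeIn.2 ⟨hG.toPatch.prev_node k, hG.toPatch.prev_in _⟩⟩
  have h3 : ∑ e ∈ ((M.nodeIn A (δ k)).erase (δ k)).erase (M.nx.symm (δ (k + 1))), ω e = 0 := by
    refine Finset.sum_eq_zero fun e he => ?_
    rw [Finset.mem_erase, Finset.mem_erase, mem_nodeIn] at he
    obtain ⟨e1, e2, e3, e4⟩ := he
    by_cases h : ∃ j, e = M.nx.symm (δ j)
    · exfalso
      obtain ⟨j, rfl⟩ := h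
      have h5 := hG.toPatch.prev_node (j - 1)
      rw [sub_add_cancel] at h5
      have h6 := hG.node_idx (e3.trans h5.symm)
      apply e1
      rw [h6, sub_add_cancel]
    · push Not at h
      refine u2 e ⟨e4, ⟨k, e3⟩, h⟩ fun j hj => e2 ?_
      rw [hj] at e3 ⊢
      rw [hG.node_idx e3]
  have h4 := u1' (k + 1)
  unfold usum
  rw [← Finset.add_sum_erase _ _ h1, ← Finset.add_sum_erase _ _ h2, h3, u1]
  omega

include hG ho ho' in
/-- the units of an inner node which is not adjacent to the ring -/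
theorem lift_inner
    {ω' : {d // ¬ FR M (FS M A δ) d} → ℕ}
    (x4 : ∀ y, (∀ z, (hG.hat ho ho').SameNode y z → A z.1) →
      (hG.hat ho ho').usum (fun x => A x.1) ω' y = 3)
    {ω : D → ℕ}
    (u5 : ∀ e, FS M A δ e → (∀ k, e ≠ δ k) → M.deg e = 4 → ω (M.nx (M.nx e)) = 0)
    (u6 : ∀ y : {d // ¬ FR M (FS M A δ) d}, A y.1 → ¬ Ring M δ y.1 → ¬ Ring M δ (M.nx y.1) →
      ω y.1 = ω' y)
    {d : D} (hd : ∀ e, M.SameNode d e → A e) (hcl : ∀ k, ¬ Cls M A δ k d) :
    M.usum A ω d = 3 := by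
  have hnr := hG.inner_not_ring hd
  have hnr' : ∀ {e}, M.SameNode d e → ¬ Ring M δ e := fun h h' => hnr (ring_same h.symm h')
  have hcl' : ∀ {e k}, M.SameNode d e → ¬ Cls M A δ k e := fun h h' =>
    hcl _ (h'.same h.symm)
  -- the removed sectors of the node
  have hrem : ∀ e, M.SameNode d e → FR M (FS M A δ) e →
      ∃ f, FS M A δ f ∧ M.deg f = 4 ∧ (∀ k, f ≠ δ k) ∧ e = M.nx (M.nx f) := by
    intro e hn hR
    rcases FoldSet.cases hR with h | ⟨f, h, rfl⟩ | ⟨f, h, h4, rfl⟩ | ⟨f, h, h4, rfl⟩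
    · exact absurd h.2.1 (hnr' hn)
    · obtain ⟨i, hi⟩ := h.2.1
      exact absurd (hG.cls_nx h hi) (hcl' hn)
    · refine ⟨f, h, h4, ?_, rfl⟩
      rintro k rfl
      have h1 := hG.cls_nx_symm (i := k - 1) (hG.toPatch.prev_in k) (by
        have := hG.toPatch.prev_node (k - 1)
        rwa [sub_add_cancel] at this)
      have h2 : M.nx.symm (M.nx.symm (δ k)) = M.nx (M.nx (δ k)) := by
        rw [nx_four' h4, Equiv.symm_apply_apply]
      rw [h2] at h1
      exact hcl' hn h1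
    · exfalso
      obtain ⟨i, hi⟩ := h.2.1
      have h1 := hG.cls_nx_symm h.1 hi
      rw [nx_four' h4] at h1
      exact hcl' hn h1
  -- a kept sector
  obtain ⟨y, hy⟩ : ∃ y : {d // ¬ FR M (FS M A δ) d}, M.SameNode d y.1 := by
    by_cases h : FR M (FS M A δ) d
    · obtain ⟨f, hf, h4, hl, h1⟩ := hrem d (Equiv.Perm.SameCycle.refl _ _) h
      refine ⟨⟨M.al (M.nx.symm f), hG.k3 hf h4 hl⟩, ?_⟩
      show M.SameNode d (M.al (M.nx.symm f))
      have h2 := (al_node (M := M) (M.nx (M.nx f))).symm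
      rw [nx_four' h4, h1]
      exact h2
    · exact ⟨⟨d, h⟩, Equiv.Perm.SameCycle.refl _ _⟩
  have hnode : ∀ z : {d // ¬ FR M (FS M A δ) d},
      (hG.hat ho ho').SameNode y z ↔ M.SameNode d z.1 := by
    intro z
    rw [hG.hat_sameNode]
    constructor
    · rintro (h | ⟨i, h, -⟩)
      · exact hy.trans h
      · exact absurd h (hcl' hy)
    · exact fun h => Or.inl (hy.symm.trans h)
  have h3 := x4 y fun z hz => hd _ ((hnode z).1 hz)
  rw [← h3]
  have e1 : M.usum A ω d = ∑ e ∈ (M.nodeIn A d).filter (fun e => ¬ FR M (FS M A δ) e), ω e := by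
    unfold usum
    rw [← Finset.sum_filter_add_sum_filter_not (M.nodeIn A d) (fun e => FR M (FS M A δ) e)]
    have h4 : ∑ e ∈ (M.nodeIn A d).filter (fun e => FR M (FS M A δ) e), ω e = 0 := by
      refine Finset.sum_eq_zero fun e he => ?_
      rw [Finset.mem_filter, mem_nodeIn] at he
      obtain ⟨f, hf, hf4, hl, rfl⟩ := hrem e he.1.1 he.2
      exact u5 f hf hl hf4
    rw [h4, zero_add]
  have e2 : (M.nodeIn A d).filter (fun e => ¬ FR M (FS M A δ) e) =
      ((hG.hat ho ho').nodeIn (fun x => A x.1) y).map (Function.Embedding.subtype _) := by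
    ext e
    rw [Finset.mem_filter, mem_nodeIn, Finset.mem_map]
    constructor
    · rintro ⟨⟨h4, h5⟩, h6⟩
      exact ⟨⟨e, h6⟩, mem_nodeIn.2 ⟨(hnode ⟨e, h6⟩).2 h4, h5⟩, rfl⟩
    · rintro ⟨z, hz, rfl⟩
      rw [mem_nodeIn, hnode] at hz
      exact ⟨hz, z.2⟩
  rw [e1, e2, Finset.sum_map]
  unfold usum
  refine Finset.sum_congr rfl fun z hz => ?_
  rw [mem_nodeIn, hnode] at hz
  refine u6 z hz.2 (hnr' hz.1) fun h4 => ?_
  obtain ⟨i, hi⟩ := h4
  have h5 := hG.cls_nx_symm ((hG.toPatch.sites _).2 hz.2) hi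
  rw [Equiv.symm_apply_apply] at h5
  exact hcl' hz.1 h5

end Gen

namespace GenT

open Gen

variable [Fintype D] (hG : M.GenT A δ)

include hG in
/-- a removed quad has at most one edge with another site -/
theorem share_ring (hnc : ∀ i, M.nx (δ i) ≠ δ (i + 1)) {e x y : D} (he : FS M A δ e)
    (h4 : M.deg e = 4) (hx : M.SameSite e x) (hy : M.SameSite e y) (hxy : x ≠ y)
    (hA : A (M.al x)) (hs : M.SameSite (M.al x) (M.al y)) : False := by
  have hne : ¬ M.SameSite e (M.al x) := fun h => hG.nl x (hx.symm.trans h)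
  have h1 := hG.share he.1 hA hne
  have h2 := cut_two hG.legal hne
  have h3 : 1 < (Finset.univ.filter fun z => M.SameSite e z ∧
      M.SameSite (M.al x) (M.al z)).card := by
    rw [Finset.one_lt_card]
    exact ⟨x, by simp [hx, Equiv.Perm.SameCycle.refl], y, by simp [hy, hs], hxy⟩
  have h5 := hG.deg46 (M.al x)
  have h6 : M.deg (M.al x) = 6 := by omega
  have hc : M.cut (fun z => M.SameSite e z ∨ M.SameSite (M.al x) z) = 6 := by omega
  have hTA : ∀ z, M.SameSite e z ∨ M.SameSite (M.al x) z → A z := by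
    rintro z (h | h)
    · exact (hG.toPatch.sites.same h).1 he.1
    · exact (hG.toPatch.sites.same h).1 hA
  have hT := (M.sites_site e).or (M.sites_site (M.al x))
  by_cases hall : ∃ d, A d ∧ ¬ (M.SameSite e d ∨ M.SameSite (M.al x) d)
  · rcases hG.triv _ hT hTA ⟨e, Or.inl (Equiv.Perm.SameCycle.refl _ _)⟩ hall hc
      ⟨e, Or.inl (Equiv.Perm.SameCycle.refl _ _), he.2.1⟩ with ⟨q, hq⟩ | ⟨p, q, hp4, hq4, hpq⟩
    · have e1 := (hq e).1 (Or.inl (Equiv.Perm.SameCycle.refl _ _))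
      have e2 := (hq (M.al x)).1 (Or.inr (Equiv.Perm.SameCycle.refl _ _))
      exact hne (e1.symm.trans e2)
    · rcases (hpq (M.al x)).1 (Or.inr (Equiv.Perm.SameCycle.refl _ _)) with h | h
      · have := deg_same h
        omega
      · have := deg_same h
        omega
  · push Not at hall
    have key : ∀ i j, i ≠ j → ¬ M.SameSite (δ i) (δ j) := fun i j hij h =>
      hij (hG.bd.inj (hG.fs_uniq (hG.fs_ring hnc i) (hG.fs_ring hnc j) h).symm)
    have a0 := hall _ (hG.toPatch.inA 0)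
    have a1 := hall _ (hG.toPatch.inA 1)
    have a2 := hall _ (hG.toPatch.inA 2)
    have k01 := key 0 1 (by decide)
    have k02 := key 0 2 (by decide)
    have k12 := key 1 2 (by decide)
    rcases a0 with a0 | a0 <;> rcases a1 with a1 | a1 <;> rcases a2 with a2 | a2
    · exact k01 (a0.symm.trans a1)
    · exact k01 (a0.symm.trans a1)
    · exact k02 (a0.symm.trans a2)
    · exact k12 (a1.symm.trans a2)
    · exact k12 (a1.symm.trans a2)
    · exact k02 (a0.symm.trans a2)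
    · exact k01 (a0.symm.trans a1)
    · exact k01 (a0.symm.trans a1)

variable {o : D → Bool} (ho : ∀ d, o (M.nx d) = !o d) (ho' : ∀ d, o (M.al d) = !o d)

include hG ho ho' in
/-- the units of an inner node which is adjacent to the ring -/
theorem lift_class
    (hnc : ∀ i, M.nx (δ i) ≠ δ (i + 1))
    (hnh : ∀ k, (hG.hat ho ho').nx (hG.hdr k) ≠ hG.hdr (k + 1))
    {ω' : {d // ¬ FR M (FS M A δ) d} → ℕ} {r' : ZMod 6 → ℕ} {p q : ℕ} (hpq : p + q = 3)
    (x1 : ∀ k, ω' (hG.hdr k) = r' k)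
    (x2 : ∀ k, ω' ((hG.hat ho ho').nx.symm (hG.hdr k)) + r' k = 1)
    (x3 : ∀ k y, (hG.hat ho ho').SameNode (hG.hdr k) y → A y.1 → y ≠ hG.hdr k →
      y ≠ (hG.hat ho ho').nx.symm (hG.hdr (k + 1)) → ω' y = 0)
    {ω : D → ℕ}
    (u3 : ∀ e, FS M A δ e → (∀ k, e ≠ δ k) → ω (M.nx e) = p)
    (u3a : ∀ k, M.deg (δ k) = 4 → ω (M.nx (δ k)) + r' k = p)
    (u3b : ∀ k, M.deg (δ k) ≠ 4 → ω (M.nx (δ k)) = p)
    (u4 : ∀ e, FS M A δ e → (∀ k, e ≠ δ k) → ω (M.nx.symm e) = q)
    (u4a : ∀ k, M.deg (δ k) = 4 → ω (M.nx.symm (M.nx.symm (δ k))) + 1 = q + r' k)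
    (u4b : ∀ k, M.deg (δ k) ≠ 4 → ω (M.nx.symm (M.nx.symm (δ k))) = q)
    (u5 : ∀ e, FS M A δ e → (∀ k, e ≠ δ k) → M.deg e = 4 → ω (M.nx (M.nx e)) = 0)
    (u6 : ∀ y : {d // ¬ FR M (FS M A δ) d}, A y.1 → ¬ Ring M δ y.1 → ¬ Ring M δ (M.nx y.1) →
      ω y.1 = ω' y)
    {d : D} (hd : ∀ e, M.SameNode d e → A e) {k : ZMod 6} (hk : Cls M A δ k d) :
    M.usum A ω d = 3 := by
  have hnr := hG.inner_not_ring hd
  have hnr' : ∀ {e}, M.SameNode d e → ¬ Ring M δ e := fun h h' => hnr (ring_same h.symm h')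
  obtain ⟨e, he, hke, hed⟩ : ∃ e, FS M A δ e ∧ M.SameNode (δ k) e ∧ M.SameNode (M.nx e) d := by
    rcases (hG.cls_iff k d).1 hk with h | h
    · exact absurd (ring_same ((hG.al_ring k).trans h) (ring_δ _)) hnr
    · exact h
  obtain ⟨g, hg⟩ : ∃ g, g = M.al (M.nx e) := ⟨_, rfl⟩
  have hgA : A g := by rw [hg]; exact (hG.fs_inn he).2
  have hgn : M.SameNode (δ k) g := by rw [hg]; exact hke.trans (al_node e).symm
  have hgr : Ring M δ g := ring_same hgn (ring_δ k)
  have hfs : M.fs (M.nx e) = M.nx.symm g := by rw [fs_def, hg]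
  have n1 : M.SameNode d (M.nx e) := hed.symm
  have n2 : M.SameNode d (M.nx.symm g) := by rw [← hfs]; exact n1.trans (fs_node _)
  -- the radial edge
  have hrad : ∀ {g'}, A g' → Ring M δ g' → M.SameNode d (M.nx.symm g') → g' = g := by
    intro g' h1 h2 h3
    rw [hg]
    exact hG.rad_uniq he h1 h2 (hnr' h3) (h3.symm.trans n1)
  have hprev : ∀ j, M.SameNode (δ (j - 1)) (M.nx.symm (δ j)) := fun j => by
    have := hG.toPatch.prev_node (j - 1)
    rwa [sub_add_cancel] at this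
  have hfsr := hG.fs_ring hnc
  have hne12 : M.nx.symm g ≠ M.nx e := fun h => hG.nl (M.nx e) (by
    rw [← hg, ← h]
    exact (site_nx_symm g).symm)
  have m1 : M.nx e ∈ M.nodeIn A d := mem_nodeIn.2 ⟨n1, hd _ n1⟩
  have m2 : M.nx.symm g ∈ (M.nodeIn A d).erase (M.nx e) :=
    Finset.mem_erase.2 ⟨hne12, mem_nodeIn.2 ⟨n2, hd _ n2⟩⟩
  set R := ((M.nodeIn A d).erase (M.nx e)).erase (M.nx.symm g) with hR
  have hmem : ∀ z, z ∈ R ↔ z ≠ M.nx.symm g ∧ z ≠ M.nx e ∧ M.SameNode d z := by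
    intro z
    rw [hR, Finset.mem_erase, Finset.mem_erase, mem_nodeIn]
    exact ⟨fun h => ⟨h.1, h.2.1, h.2.2.1⟩, fun h => ⟨h.1, h.2.1, h.2.2, hd _ h.2.2⟩⟩
  -- kept sectors
  have hkept : ∀ z : {d // ¬ FR M (FS M A δ) d}, z.1 ∈ R → ω z.1 = ω' z := by
    intro z hz
    obtain ⟨h1, h2, h3⟩ := (hmem _).1 hz
    refine u6 z (hd _ h3) (hnr' h3) fun h4 => h1 ?_
    have h5 := hrad (g' := M.nx z.1) ((hG.toPatch.sites _).2 (hd _ h3)) h4 (by
      rw [Equiv.symm_apply_apply]; exact h3)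
    rw [← h5, Equiv.symm_apply_apply]
  have hzero : ∀ z : {d // ¬ FR M (FS M A δ) d}, z.1 ∈ R → z ≠ hG.hdr k →
      z ≠ (hG.hat ho ho').nx.symm (hG.hdr (k + 1)) → ω z.1 = 0 := by
    intro z hz h1 h2
    obtain ⟨-, -, h3⟩ := (hmem _).1 hz
    rw [hkept z hz]
    refine x3 k z ?_ (hd _ h3) h1 h2
    rw [hG.hat_sameNode]
    exact Or.inr ⟨k, hG.cls_hd k, hk.same h3⟩
  -- removed sectors
  have hrem : ∀ z ∈ R, FR M (FS M A δ) z → ω z = 0 := by
    intro z hz hzR
    obtain ⟨h1, h2, h3⟩ := (hmem _).1 hz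
    rcases FoldSet.cases hzR with h | ⟨f, h, rfl⟩ | ⟨f, h, h4, rfl⟩ | ⟨f, h, h4, rfl⟩
    · exact absurd h.2.1 (hnr' h3)
    · exact absurd (by rw [hG.chain h he (h3.symm.trans n1)]) h2
    · refine u5 f h ?_ h4
      rintro j rfl
      apply h1
      have h5 : M.nx.symm (M.nx.symm (δ j)) = M.nx (M.nx (δ j)) := by
        rw [nx_four' h4, Equiv.symm_apply_apply]
      have h6 := hrad (hG.toPatch.prev_in j) (hG.toPatch.ring_prev j) (by rw [h5]; exact h3)
      rw [← h6, h5]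
    · exfalso
      apply h1
      rw [← nx_four' h4]
      have h6 := hrad h.1 h.2.1 (by rw [nx_four' h4]; exact h3)
      rw [h6]
  -- the special sector `hd k`
  have a1 : (hG.hdr k).1 ∈ R ↔ e = δ k ∧ M.deg (δ k) = 4 := by
    rw [hmem]
    constructor
    · rintro ⟨-, -, h3⟩
      by_cases h4 : M.deg (δ k) = 4
      · have h5 : (hG.hdr k).1 = M.al (M.nx (M.nx (δ k))) := if_pos h4
        rw [h5] at h3
        refine ⟨?_, h4⟩
        exact (hG.chain he (hfsr k) (n1.symm.trans (h3.trans (al_node (M.nx (δ k))))))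
      · exfalso
        have h5 : (hG.hdr k).1 = M.nx.symm (δ k) := if_neg h4
        rw [h5] at h3
        exact hnr' h3 (hG.toPatch.ring_prev k)
    · rintro ⟨h1, h4⟩
      have h5 : (hG.hdr k).1 = M.al (M.nx (M.nx (δ k))) := if_pos h4
      refine ⟨fun h6 => ?_, fun h6 => ?_, ?_⟩
      · refine hG.share_ring hnc (hfsr k) h4 (x := M.nx (δ k)) (y := M.nx (M.nx (δ k)))
          (site_nx _) ((site_nx _).trans (site_nx _)) (fun h => hG.ne1 _ h.symm) ?_ ?_
        · rw [← h1, ← hg]; exact hgA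
        · rw [← h5, h6, ← h1, ← hg]
          exact site_nx_symm g
      · exact (hG.hdr k).2 (by rw [h6]; exact FoldSet.r1 he)
      · rw [h5]
        refine n1.trans ?_
        rw [h1]
        exact (al_node (M.nx (δ k))).symm
  -- the dart before the ring dart `k + 1`
  have hb4 : M.deg (δ (k + 1)) = 4 → ((hG.hat ho ho').nx.symm (hG.hdr (k + 1))).1 =
      M.nx.symm (hG.hdr (k + 1)).1 := by
    intro h4
    have h5 : (hG.hdr (k + 1)).1 = M.al (M.nx (M.nx (δ (k + 1)))) := if_pos h4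
    have h6 : ¬ FR M (FS M A δ) (M.nx.symm (hG.hdr (k + 1)).1) := by
      intro h
      have hno := (hG.hdr (k + 1)).2
      obtain ⟨f, hf, hf1⟩ : ∃ f, FS M A δ f ∧ (hG.hdr (k + 1)).1 = M.nx (M.nx f) := by
        rcases FoldSet.cases h with h1 | ⟨f, h1, h2⟩ | ⟨f, h1, h4', h2⟩ | ⟨f, h1, h4', h2⟩
        · exact absurd (FoldSet.r1 h1) (by rw [Equiv.apply_symm_apply]; exact hno)
        · exact ⟨f, h1, by rw [← h2, Equiv.apply_symm_apply]⟩
        · exact absurd (FoldSet.r3 h1 h4') (by rw [← h2, Equiv.apply_symm_apply]; exact hno)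
        · have h7 := nx_four h4'
          rw [← h2, Equiv.apply_symm_apply] at h7
          exact absurd (FoldSet.r0 h1) (by rw [← h7]; exact hno)
      have h7 : M.nx.symm (M.nx.symm (δ (k + 1))) = M.nx (M.nx (δ (k + 1))) := by
        rw [nx_four' h4, Equiv.symm_apply_apply]
      have h8 : M.SameNode (M.nx (M.nx (δ (k + 1)))) (M.nx f) := by
        have h9 := nx_symm_node (M := M) (hG.hdr (k + 1)).1
        rw [h5, M.inv, ← h5, hf1, Equiv.symm_apply_apply] at h9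
        exact h9
      have h9 := hG.rad_uniq hf (hG.toPatch.prev_in (k + 1)) (hG.toPatch.ring_prev (k + 1))
        (by rw [h7]; exact hG.fs2 (hfsr (k + 1))) (by rw [h7]; exact h8)
      refine hG.share_ring hnc (hfsr (k + 1)) h4 (x := M.nx.symm (δ (k + 1)))
        (y := M.nx (M.nx (δ (k + 1)))) (site_nx_symm _) ((site_nx _).trans (site_nx _)) ?_ ?_ ?_
      · rw [nx_four' h4]
        exact hG.ne1 _
      · rw [h9, M.inv]
        exact (hG.toPatch.sites _).2 hf.1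
      · rw [h9, M.inv, ← h5, hf1]
        exact site_nx _
    have h7 : (hG.hat ho ho').nx ⟨M.nx.symm (hG.hdr (k + 1)).1, h6⟩ = hG.hdr (k + 1) := by
      rw [fmap_nx_of hG.foldSet ho ho' (d := ⟨M.nx.symm (hG.hdr (k + 1)).1, h6⟩)
        (by rw [Equiv.apply_symm_apply]; exact (hG.hdr (k + 1)).2)]
      exact Subtype.ext (Equiv.apply_symm_apply _ _)
    rw [← h7, Equiv.symm_apply_apply, h7]
  have hb6 : M.deg (δ (k + 1)) ≠ 4 → ((hG.hat ho ho').nx.symm (hG.hdr (k + 1))).1 =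
      M.nx.symm (M.nx.symm (δ (k + 1))) := by
    intro h4
    have h5 : (hG.hdr (k + 1)).1 = M.nx.symm (δ (k + 1)) := if_neg h4
    have h6 : M.deg (δ (k + 1)) = 6 := (hG.deg46 _).resolve_left h4
    have h66 : M.nx (M.nx (M.nx (M.nx (M.nx (M.nx (δ (k + 1))))))) = δ (k + 1) := by
      have h1 := Function.isPeriodicPt_minimalPeriod M.nx (δ (k + 1))
      unfold DMap.deg at h6
      rw [h6] at h1
      exact h1
    have e1 : M.nx.symm (δ (k + 1)) = M.nx (M.nx (M.nx (M.nx (M.nx (δ (k + 1)))))) := by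
      rw [Equiv.symm_apply_eq]
      exact h66.symm
    have e2 : M.nx.symm (M.nx.symm (δ (k + 1))) = M.nx (M.nx (M.nx (M.nx (δ (k + 1))))) := by
      rw [e1, Equiv.symm_apply_apply]
    have hne : ∀ m : ℕ, 0 < m → m < 6 → (M.nx)^[m] (δ (k + 1)) ≠ δ (k + 1) := fun m h0 hm =>
      iter_ne h0 (by rw [h6]; exact hm)
    have h7 : ¬ FR M (FS M A δ) (M.nx.symm (M.nx.symm (δ (k + 1)))) := by
      refine hG.foldSet.stay (hfsr (k + 1)) h4 ((site_nx_symm _).trans (site_nx_symm _)) ?_ ?_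
      · rw [e2]
        exact hne 4 (by decide) (by decide)
      · rw [e2]
        intro h
        exact hne 3 (by decide) (by decide) (M.nx.injective h)
    have h8 : (hG.hat ho ho').nx ⟨M.nx.symm (M.nx.symm (δ (k + 1))), h7⟩ = hG.hdr (k + 1) := by
      rw [fmap_nx_of hG.foldSet ho ho' (d := ⟨M.nx.symm (M.nx.symm (δ (k + 1))), h7⟩)
        (by rw [Equiv.apply_symm_apply, ← h5]; exact (hG.hdr (k + 1)).2)]
      exact Subtype.ext ((Equiv.apply_symm_apply M.nx _).trans h5.symm)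
    rw [← h8, Equiv.symm_apply_apply]
  have a2 : ((hG.hat ho ho').nx.symm (hG.hdr (k + 1))).1 ∈ R ↔
      g = M.nx.symm (δ (k + 1)) ∧ M.deg (δ (k + 1)) = 4 := by
    rw [hmem]
    have h7 : M.deg (δ (k + 1)) = 4 →
        M.nx.symm (M.nx.symm (δ (k + 1))) = M.nx (M.nx (δ (k + 1))) := fun h4 => by
      rw [nx_four' h4, Equiv.symm_apply_apply]
    have hnd : M.deg (δ (k + 1)) = 4 → M.SameNode (M.nx.symm (M.nx.symm (δ (k + 1))))
        (M.nx.symm (hG.hdr (k + 1)).1) := fun h4 => by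
      have h5 : (hG.hdr (k + 1)).1 = M.al (M.nx (M.nx (δ (k + 1)))) := if_pos h4
      have h9 := nx_symm_node (M := M) (hG.hdr (k + 1)).1
      rw [h5, M.inv, ← h5] at h9
      rw [h7 h4]
      exact h9
    constructor
    · rintro ⟨h1, h2, h3⟩
      by_cases h4 : M.deg (δ (k + 1)) = 4
      · rw [hb4 h4] at h3
        exact ⟨(hrad (hG.toPatch.prev_in _) (hG.toPatch.ring_prev _)
          (h3.trans (hnd h4).symm)).symm, h4⟩
      · exfalso
        rw [hb6 h4] at h1 h3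
        exact h1 (by rw [hrad (hG.toPatch.prev_in _) (hG.toPatch.ring_prev _) h3])
    · rintro ⟨h1, h4⟩
      refine ⟨fun h => ?_, fun h => ?_, ?_⟩
      · apply ((hG.hat ho ho').nx.symm (hG.hdr (k + 1))).2
        rw [h, h1, h7 h4]
        exact FoldSet.r2 (hfsr (k + 1)) h4
      · apply ((hG.hat ho ho').nx.symm (hG.hdr (k + 1))).2
        rw [h]
        exact FoldSet.r1 he
      · rw [hb4 h4]
        refine n2.trans ?_
        rw [h1]
        exact hnd h4
  have hne : (hG.hdr k).1 ∈ R → (hG.hdr k).1 ≠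
      ((hG.hat ho ho').nx.symm (hG.hdr (k + 1))).1 := by
    intro _ h
    apply hnh k
    rw [Subtype.ext h, Equiv.apply_symm_apply]
  set t := ω' ((hG.hat ho ho').nx.symm (hG.hdr (k + 1))) with ht
  have hval : ∀ z ∈ R, ω z = (if z = (hG.hdr k).1 then r' k else 0) +
      if z = ((hG.hat ho ho').nx.symm (hG.hdr (k + 1))).1 then t else 0 := by
    intro z hz
    by_cases hzR : FR M (FS M A δ) z
    · rw [hrem z hz hzR, if_neg fun h => (hG.hdr k).2 (by rw [← h]; exact hzR),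
        if_neg fun h => ((hG.hat ho ho').nx.symm (hG.hdr (k + 1))).2 (by rw [← h]; exact hzR)]
    · by_cases h1 : z = (hG.hdr k).1
      · have h2 := hkept (hG.hdr k) (h1 ▸ hz)
        rw [if_pos h1, if_neg fun h => hne (h1 ▸ hz) (h1 ▸ h), h1, h2, x1, add_zero]
      · by_cases h2 : z = ((hG.hat ho ho').nx.symm (hG.hdr (k + 1))).1
        · have h3 := hkept ((hG.hat ho ho').nx.symm (hG.hdr (k + 1))) (h2 ▸ hz)
          rw [if_neg h1, if_pos h2, h2, h3, zero_add]
        · have h3 := hzero ⟨z, hzR⟩ hz (fun h => h1 (congrArg Subtype.val h))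
            fun h => h2 (congrArg Subtype.val h)
          rw [if_neg h1, if_neg h2]
          exact h3
  have hsum : M.usum A ω d = ω (M.nx e) + (ω (M.nx.symm g) + ∑ z ∈ R, ω z) := by
    unfold usum
    rw [← Finset.add_sum_erase _ _ m1, ← Finset.add_sum_erase _ _ m2]
  rw [hsum, Finset.sum_congr rfl hval, Finset.sum_add_distrib, Finset.sum_ite_eq',
    Finset.sum_ite_eq']
  have b1 : ω (M.nx e) + (if (hG.hdr k).1 ∈ R then r' k else 0) = p := by
    by_cases h1 : e = δ k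
    · by_cases h4 : M.deg (δ k) = 4
      · rw [if_pos (a1.2 ⟨h1, h4⟩), h1]
        exact u3a k h4
      · rw [if_neg fun h => h4 (a1.1 h).2, h1, add_zero]
        exact u3b k h4
    · rw [if_neg fun h => h1 (a1.1 h).1, add_zero]
      refine u3 e he fun j hj => h1 ?_
      rw [hj] at hke ⊢
      rw [hG.node_idx hke]
  have b2 : ω (M.nx.symm g) + (if ((hG.hat ho ho').nx.symm (hG.hdr (k + 1))).1 ∈ R then t else 0)
      = q := by
    by_cases h1 : g = M.nx.symm (δ (k + 1))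
    · by_cases h4 : M.deg (δ (k + 1)) = 4
      · rw [if_pos (a2.2 ⟨h1, h4⟩), h1]
        have h5 := u4a (k + 1) h4
        have h6 := x2 (k + 1)
        omega
      · rw [if_neg fun h => h4 (a2.1 h).2, h1, add_zero]
        exact u4b (k + 1) h4
    · rw [if_neg fun h => h1 (a2.1 h).1, add_zero]
      have h2 : ∀ j, g ≠ M.nx.symm (δ j) := by
        intro j hj
        apply h1
        rw [hj] at hgn ⊢
        have h3 := hG.node_idx (hgn.trans (hprev j).symm)
        rw [h3, sub_add_cancel]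
      have h3 : ∀ j, g ≠ δ j := by
        intro j hj
        have h5 : M.al g = M.nx e := by rw [hg, M.inv]
        apply hG.toPatch.notA j
        rw [← hj, h5]
        exact hd _ n1
      exact u4 g ⟨hgA, hgr, h2⟩ h3
  omega

include hG ho ho' in
/-- **The units of the peel**: if the units of the folded ring are those of a state, then the units of the patch are
those of a state. -/
theorem lift_units
    (hnc : ∀ i, M.nx (δ i) ≠ δ (i + 1))
    (hnh : ∀ k, (hG.hat ho ho').nx (hG.hdr k) ≠ hG.hdr (k + 1))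
    {ω' : {d // ¬ FR M (FS M A δ) d} → ℕ} {r r' : ZMod 6 → ℕ} {p q : ℕ} (hpq : p + q = 3)
    (x1 : ∀ k, ω' (hG.hdr k) = r' k)
    (x2 : ∀ k, ω' ((hG.hat ho ho').nx.symm (hG.hdr k)) + r' k = 1)
    (x3 : ∀ k y, (hG.hat ho ho').SameNode (hG.hdr k) y → A y.1 → y ≠ hG.hdr k →
      y ≠ (hG.hat ho ho').nx.symm (hG.hdr (k + 1)) → ω' y = 0)
    (x4 : ∀ y, (∀ z, (hG.hat ho ho').SameNode y z → A z.1) →
      (hG.hat ho ho').usum (fun x => A x.1) ω' y = 3)
    {ω : D → ℕ}
    (u1 : ∀ k, ω (δ k) = r k) (u1' : ∀ k, ω (M.nx.symm (δ k)) + r k = 1)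
    (u2 : ∀ e, FS M A δ e → (∀ k, e ≠ δ k) → ω e = 0)
    (u3 : ∀ e, FS M A δ e → (∀ k, e ≠ δ k) → ω (M.nx e) = p)
    (u3a : ∀ k, M.deg (δ k) = 4 → ω (M.nx (δ k)) + r' k = p)
    (u3b : ∀ k, M.deg (δ k) ≠ 4 → ω (M.nx (δ k)) = p)
    (u4 : ∀ e, FS M A δ e → (∀ k, e ≠ δ k) → ω (M.nx.symm e) = q)
    (u4a : ∀ k, M.deg (δ k) = 4 → ω (M.nx.symm (M.nx.symm (δ k))) + 1 = q + r' k)
    (u4b : ∀ k, M.deg (δ k) ≠ 4 → ω (M.nx.symm (M.nx.symm (δ k))) = q)
    (u5 : ∀ e, FS M A δ e → (∀ k, e ≠ δ k) → M.deg e = 4 → ω (M.nx (M.nx e)) = 0)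
    (u6 : ∀ y : {d // ¬ FR M (FS M A δ) d}, A y.1 → ¬ Ring M δ y.1 → ¬ Ring M δ (M.nx y.1) →
      ω y.1 = ω' y) :
    (∀ k, M.usum A ω (δ k) + r (k + 1) = r k + 1) ∧
      ∀ d, (∀ e, M.SameNode d e → A e) → M.usum A ω d = 3 := by
  refine ⟨fun k => hG.lift_ring hnc u1 u1' u2 k, fun d hd => ?_⟩
  by_cases hcl : ∃ k, Cls M A δ k d
  · obtain ⟨k, hk⟩ := hcl
    exact hG.lift_class ho ho' hnc hnh hpq x1 x2 x3 u3 u3a u3b u4 u4a u4b u5 u6 hd hk
  · push Not at hcl
    exact hG.lift_inner ho ho' x4 u5 u6 hd hcl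

end GenT

end DMap

end GT33
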