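import Pool.Agent.GT33.DMin

/-!
# GT33 module TYPED: site-dependent local states and multi-contractions

`LS D`: local states `L n γ s` which may depend on the numbering `γ` of the site.  `RealL M L A δ s μ ω`: a state
of the region `A` with the local states `L`.  `MCtr M M' ι c`: the map `M'` arises from `M` by contracting
disjoint regions, `ι` embeds the remaining darts, `c x` is the region (content) of the site of `x`.
`RealL.subst`: states of `M'` whose local states are states of the contents give states of `M`.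
-/

open Classical

namespace GT33

/-- local states which depend on the site -/
abbrev LS (D : Type) := (n : ℕ) → (ZMod n → D) → PState n → Prop

namespace DMap

variable {D : Type} {M : DMap D}

/-- the site of `d` is in a local state of `L` -/
def LocalL (M : DMap D) (L : LS D) (μ : D → D) (ω : D → ℕ) (d : D) : Prop :=
  ∃ (n : ℕ) (γ : ZMod n → D) (s : PState n), n ≠ 0 ∧ M.SiteNum n γ ∧ (∃ i, γ i = d) ∧ L n γ s ∧
    HasState μ ω γ s

/-- a state of the region `A` with the local states `L` -/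
structure RealL [Fintype D] (M : DMap D) (L : LS D) (A : D → Prop) {n : ℕ} (δ : ZMod n → D)
    (s : PState n) (μ : D → D) (ω : D → ℕ) : Prop where
  loc : ∀ d, A d → M.LocalL L μ ω d
  str : ∀ i, M.Str A μ (δ i) (δ (s.m i))
  all : ∀ d, A d → ∃ i, M.Str A μ d (δ i)
  bdry : ∀ i, M.usum A ω (δ i) = s.u i
  inner : ∀ d, (∀ e, M.SameNode d e → A e) → M.usum A ω d = 3

theorem Real.toL [Fintype D] {E : (n : ℕ) → PState n → Prop} {A : D → Prop} {n : ℕ}
    {δ : ZMod n → D} {s : PState n} {μ : D → D} {ω : D → ℕ} (h : M.Real E A δ s μ ω) :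
    M.RealL (fun n _ s => E n s) A δ s μ ω := ⟨h.loc, h.str, h.all, h.bdry, h.inner⟩

namespace RealL

variable [Fintype D] {L : LS D} {A : D → Prop} {n : ℕ} {δ : ZMod n → D} {s : PState n}
  {μ : D → D} {ω : D → ℕ}

theorem mono (h : M.RealL L A δ s μ ω) {L' : LS D} (hA : M.Sites A)
    (hL : ∀ (n : ℕ) (γ : ZMod n → D) (t : PState n), n ≠ 0 → M.SiteNum n γ → (∀ i, A (γ i)) →
      HasState μ ω γ t → L n γ t → L' n γ t) : M.RealL L' A δ s μ ω := by
  refine ⟨fun d hd => ?_, h.str, h.all, h.bdry, h.inner⟩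
  obtain ⟨m, γ, t, hm, hγ, ⟨i, hi⟩, ht, hst⟩ := h.loc d hd
  exact ⟨m, γ, t, hm, hγ, ⟨i, hi⟩, hL m γ t hm hγ
    (fun j => (hA.same (hγ.same hm i j)).1 (by rw [hi]; exact hd)) hst ht, hst⟩

theorem toReal (h : M.RealL L A δ s μ ω) {E : (n : ℕ) → PState n → Prop} (hA : M.Sites A)
    (hL : ∀ (n : ℕ) (γ : ZMod n → D) (t : PState n), (∀ i, A (γ i)) → L n γ t → E n t) :
    M.Real E A δ s μ ω := by
  refine ⟨fun d hd => ?_, h.str, h.all, h.bdry, h.inner⟩
  obtain ⟨m, γ, t, hm, hγ, ⟨i, hi⟩, ht, hst⟩ := h.loc d hd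
  exact ⟨m, γ, t, hm, hγ, ⟨i, hi⟩, hL m γ t
    (fun j => (hA.same (hγ.same hm i j)).1 (by rw [hi]; exact hd)) ht, hst⟩

theorem rot (h : M.RealL L A δ s μ ω) (c : ZMod n) :
    M.RealL L A (fun i => δ (i + c)) (s.rot c) μ ω := by
  refine ⟨h.loc, fun i => ?_, fun d hd => ?_, fun i => h.bdry _, h.inner⟩
  · have := h.str (i + c)
    simpa [PState.rot] using this
  · obtain ⟨i, hi⟩ := h.all d hd
    exact ⟨i - c, by simpa using hi⟩

theorem congrA (h : M.RealL L A δ s μ ω) {B : D → Prop} (hB : ∀ d, B d ↔ A d) :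
    M.RealL L B δ s μ ω := by
  have : B = A := funext fun d => propext (hB d)
  rw [this]
  exact h

end RealL

theorem LocalL.congr {L : LS D} {μ ν : D → D} {ω χ : D → ℕ} {A : D → Prop}
    (hA : M.Sites A) (hμ : ∀ d, A d → μ d = ν d) (hω : ∀ d, A d → ω d = χ d) {d : D} (hd : A d)
    (h : M.LocalL L μ ω d) : M.LocalL L ν χ d := by
  obtain ⟨n, δ, s, hn, hδ, ⟨i, hi⟩, hs, hst⟩ := h
  have h1 : ∀ j, A (δ j) := fun j => (hA.same (hδ.same hn i j)).1 (by rw [hi]; exact hd)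
  exact ⟨n, δ, s, hn, hδ, ⟨i, hi⟩, hs, fun j => by
    rw [← hμ _ (h1 j), ← hω _ (h1 j)]
    exact hst j⟩

theorem RealL.congr [Fintype D] {L : LS D} {A : D → Prop} {n : ℕ} {δ : ZMod n → D} {s : PState n}
    {μ ν : D → D} {ω χ : D → ℕ} (h : M.RealL L A δ s μ ω) (hA : M.Sites A)
    (hμ : ∀ d, A d → μ d = ν d) (hω : ∀ d, A d → ω d = χ d) : M.RealL L A δ s ν χ := by
  refine ⟨fun d hd => (h.loc d hd).congr hA hμ hω hd, fun i => (h.str i).mono (fun _ h => h) hμ,
    fun d hd => ?_, fun i => ?_, fun d hd => ?_⟩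
  · obtain ⟨i, hi⟩ := h.all d hd
    exact ⟨i, hi.mono (fun _ h => h) hμ⟩
  · rw [← h.bdry i]
    exact (usum_congr fun e _ he => hω e he).symm
  · rw [← h.inner d hd]
    exact (usum_congr fun e _ he => hω e he).symm

/-! ### states of the inside -/

section

variable {D' : Type} [Fintype D] [Fintype D'] {M' : DMap D'} {ι : D' → D}

/-- a state of the inside `A` of the map in which the outside is contracted -/
theorem RealL.of_inside {L : LS D} {L' : LS D'} {A : D → Prop}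
    (h : M.IsCtr (fun d => ¬ A d) M' ι)
    (hL : ∀ (n : ℕ) (γ : ZMod n → D') (t : PState n), (∀ i, A (ι (γ i))) → L' n γ t →
      L n (fun i => ι (γ i)) t)
    {n : ℕ} {δ : ZMod n → D} {δ' : ZMod n → D'}
    (hδ : ∀ i, ι (δ' i) = δ i) {s : PState n} {μ' : D' → D'} {ω' : D' → ℕ}
    (hR : M'.RealL L' (fun e => A (ι e)) δ' s μ' ω') : ∃ μ ω, M.RealL L A δ s μ ω := by
  have hex : ∀ d, A d → ∃ e, ι e = d := fun d hd => (h.range d).2 (Or.inl (not_not.2 hd))
  let μ : D → D := fun d => if hd : ∃ e, ι e = d then ι (μ' hd.choose) else d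
  let ω : D → ℕ := fun d => if hd : ∃ e, ι e = d then ω' hd.choose else 0
  have hμ : ∀ e, μ (ι e) = ι (μ' e) := by
    intro e
    have hd : ∃ e', ι e' = ι e := ⟨e, rfl⟩
    simp only [μ, dif_pos hd]
    rw [h.inj hd.choose_spec]
  have hω : ∀ e, ω (ι e) = ω' e := by
    intro e
    have hd : ∃ e', ι e' = ι e := ⟨e, rfl⟩
    simp only [ω, dif_pos hd]
    rw [h.inj hd.choose_spec]
  have hstr : ∀ x y, M'.Str (fun e => A (ι e)) μ' x y → M.Str A μ (ι x) (ι y) := by
    intro x y hxy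
    induction hxy with
    | rel x y hxy =>
      refine Relation.EqvGen.rel _ _ ⟨hxy.1, ?_⟩
      rcases hxy.2 with h2 | h2
      · left
        rw [hμ, h2]
      · right
        rw [← h.al, ← h2.1]
        exact ⟨rfl, h2.2⟩
    | refl x => exact Relation.EqvGen.refl _
    | symm x y _ ih => exact Relation.EqvGen.symm _ _ ih
    | trans x y z _ _ ih1 ih2 => exact Relation.EqvGen.trans _ _ _ ih1 ih2
  refine ⟨μ, ω, ?_, fun i => ?_, fun d hd => ?_, fun i => ?_, fun d hd => ?_⟩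
  · intro d hd
    obtain ⟨e, rfl⟩ := hex d hd
    obtain ⟨k, γ, t, hk, hγ, ⟨i, hi⟩, ht, hst⟩ := hR.loc e hd
    have hsites : M'.Sites fun e => A (ι e) := fun e => not_iff_not.1 (h.site e)
    have hA : ∀ j, A (ι (γ j)) := fun j => (hsites.same (hγ.same hk i j)).1 (by rw [hi]; exact hd)
    refine ⟨k, fun j => ι (γ j), t, hk, ⟨fun x y hxy => hγ.inj (h.inj hxy), fun j => ?_⟩,
      ⟨i, congrArg ι hi⟩, hL k γ t hA ht, fun j => ?_⟩
    · rw [← hγ.nx, h.nx _ (not_not.2 (hA j))]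
    · rw [hμ, hω, (hst j).1, (hst j).2]
      exact ⟨rfl, rfl⟩
  · rw [← hδ, ← hδ]
    exact hstr _ _ (hR.str i)
  · obtain ⟨e, rfl⟩ := hex d hd
    obtain ⟨i, hi⟩ := hR.all e hd
    refine ⟨i, ?_⟩
    rw [← hδ]
    exact hstr _ _ hi
  · rw [← hδ, h.usum_out (fun d hd => Or.inl (not_not.2 hd)) (fun e _ => hω e)]
    exact hR.bdry i
  · obtain ⟨e, rfl⟩ := hex d (hd d (Equiv.Perm.SameCycle.refl _ _))
    rw [h.usum_out (fun d hd => Or.inl (not_not.2 hd)) (fun e _ => hω e)]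
    exact hR.inner e fun f hf => hd _ ((h.node e f).1 hf)

/-- **Lemma 1**: the contracted region `A₀` is replaced by its inside -/
theorem RealL.glue {L : LS D} {L' : LS D'} {A A₀ : D → Prop}
    (hA₀ : M.Sites A₀) (h0 : ∀ d, A₀ d → A d) (h : M.IsCtr A₀ M' ι)
    {x₀ : D'} (hx₀ : A₀ (ι x₀))
    (hone : ∀ e, A₀ (ι e) → M'.SameSite x₀ e)
    (hnode : ∀ e f, A₀ (ι e) → A₀ (ι f) → M.SameNode (ι e) (ι f) → e = f)
    (hin : ∀ (n : ℕ) (γ : ZMod n → D') (t : PState n), n ≠ 0 → M'.SiteNum n γ →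
      (∀ i, A₀ (ι (γ i))) → L' n γ t → ∃ μ ω, M.RealL L A₀ (fun i => ι (γ i)) t μ ω)
    (hout : ∀ (n : ℕ) (γ : ZMod n → D') (t : PState n), n ≠ 0 → M'.SiteNum n γ →
      (∀ i, A (ι (γ i))) → (∀ i, ¬ A₀ (ι (γ i))) → L' n γ t → L n (fun i => ι (γ i)) t)
    (hAs : M'.Sites fun e => A (ι e))
    {n : ℕ} {δ : ZMod n → D} {δ' : ZMod n → D'}
    (hδ : ∀ i, ι (δ' i) = δ i) {s : PState n} {μ' : D' → D'} {ω' : D' → ℕ}
    (hR : M'.RealL L' (fun e => A (ι e)) δ' s μ' ω') : ∃ μ ω, M.RealL L A δ s μ ω := by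
  obtain ⟨m, γ, t, hm, hγ, ⟨i₀, hi₀⟩, ht, hst⟩ := hR.loc x₀ (h0 _ hx₀)
  have hsites : M'.Sites fun e => A₀ (ι e) := h.site
  have hγA : ∀ i, A₀ (ι (γ i)) := fun i =>
    (hsites.same (hγ.same hm i₀ i)).1 (by rw [hi₀]; exact hx₀)
  obtain ⟨μ₀, ω₀, hR₀⟩ := hin m γ t hm hγ hγA ht
  have hγs : ∀ e, A₀ (ι e) → ∃ i, γ i = e := by
    intro e he
    have h1 := hone e he
    rw [← hi₀] at h1
    exact hγ.mem h1
  have hex : ∀ d, ¬ A₀ d → ∃ e, ι e = d := fun d hd => (h.range d).2 (Or.inl hd)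
  let μ : D → D := fun d => if A₀ d then μ₀ d else
    if hd : ∃ e, ι e = d then ι (μ' hd.choose) else d
  let ω : D → ℕ := fun d => if A₀ d then ω₀ d else
    if hd : ∃ e, ι e = d then ω' hd.choose else 0
  have hμ₀ : ∀ d, A₀ d → μ₀ d = μ d := fun d hd => by simp only [μ, if_pos hd]
  have hω₀ : ∀ d, A₀ d → ω₀ d = ω d := fun d hd => by simp only [ω, if_pos hd]
  have hμ : ∀ e, ¬ A₀ (ι e) → μ (ι e) = ι (μ' e) := by
    intro e he
    have hd : ∃ e', ι e' = ι e := ⟨e, rfl⟩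
    simp only [μ, if_neg he, dif_pos hd]
    rw [h.inj hd.choose_spec]
  have hω : ∀ e, ¬ A₀ (ι e) → ω (ι e) = ω' e := by
    intro e he
    have hd : ∃ e', ι e' = ι e := ⟨e, rfl⟩
    simp only [ω, if_neg he, dif_pos hd]
    rw [h.inj hd.choose_spec]
  have hstr₀ : ∀ x y, M.Str A₀ μ₀ x y → M.Str A μ x y := fun x y hxy => hxy.mono h0 hμ₀
  have hstr : ∀ x y, M'.Str (fun e => A (ι e)) μ' x y → M.Str A μ (ι x) (ι y) := by
    intro x y hxy
    induction hxy with
    | rel x y hxy =>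
      rcases hxy.2 with h2 | h2
      · by_cases hx : A₀ (ι x)
        · obtain ⟨i, rfl⟩ := hγs x hx
          rw [h2, (hst i).1]
          exact hstr₀ _ _ (hR₀.str i)
        · refine Relation.EqvGen.rel _ _ ⟨hxy.1, Or.inl ?_⟩
          rw [hμ _ hx, h2]
      · refine Relation.EqvGen.rel _ _ ⟨hxy.1, Or.inr ?_⟩
        rw [← h.al, ← h2.1]
        exact ⟨rfl, h2.2⟩
    | refl x => exact Relation.EqvGen.refl _
    | symm x y _ ih => exact Relation.EqvGen.symm _ _ ih
    | trans x y z _ _ ih1 ih2 => exact Relation.EqvGen.trans _ _ _ ih1 ih2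
  -- the sums
  have hsum : ∀ e, M.usum A ω (ι e) = M'.usum (fun e => A (ι e)) ω' e := by
    intro e
    rw [usum_split (M := M) (B := A₀) ω (ι e), usum_split (M := M') (B := fun e => A₀ (ι e)) ω' e]
    congr 1
    · have h1 : M.usum (fun d => A d ∧ A₀ d) ω (ι e) = M.usum A₀ ω₀ (ι e) := by
        unfold usum
        refine Finset.sum_congr ?_ fun x hx => ?_
        · ext x
          simp only [mem_nodeIn]
          exact ⟨fun hx => ⟨hx.1, hx.2.2⟩, fun hx => ⟨hx.1, h0 _ hx.2, hx.2⟩⟩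
        · rw [mem_nodeIn] at hx
          exact (hω₀ x hx.2).symm
      rw [h1]
      by_cases hl : ∃ j, M.SameNode (ι e) (ι (γ j))
      · obtain ⟨j, hj⟩ := hl
        rw [usum_same hj, hR₀.bdry j, ← (hst j).2]
        unfold usum
        symm
        refine Finset.sum_eq_single_of_mem (γ j) ?_ ?_
        · exact mem_nodeIn.2 ⟨(h.node _ _).2 hj, h0 _ (hγA j), hγA j⟩
        · intro f hf hne
          have hf := mem_nodeIn.1 hf
          exact absurd (hnode f (γ j) hf.2.2 (hγA j)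
            (((h.node _ _).1 hf.1).symm.trans hj)) hne
      · have hemp : ∀ f, M'.SameNode e f → ¬ A₀ (ι f) := by
          intro f hf hf2
          obtain ⟨j, rfl⟩ := hγs f hf2
          exact hl ⟨j, (h.node _ _).1 hf⟩
        have hemp2 : ∀ x, M.SameNode (ι e) x → ¬ A₀ x := by
          intro x hx hx2
          have he : ¬ A₀ (ι e) := hemp e (Equiv.Perm.SameCycle.refl _ _)
          obtain ⟨z, hz1, hz2, hz3⟩ := exists_leaving hA₀ hx.symm hx2 he
          obtain ⟨f, rfl⟩ := (h.range z).2 (Or.inr hz3)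
          exact hemp f ((h.node _ _).2 (hx.trans hz1)) hz2
        have e1 : M.usum A₀ ω₀ (ι e) = 0 := by
          unfold usum
          apply Finset.sum_eq_zero
          intro x hx
          rw [mem_nodeIn] at hx
          exact absurd hx.2 (hemp2 x hx.1)
        have e2 : M'.usum (fun e => A (ι e) ∧ A₀ (ι e)) ω' e = 0 := by
          unfold usum
          apply Finset.sum_eq_zero
          intro x hx
          have hx := mem_nodeIn.1 hx
          exact absurd hx.2.2 (hemp x hx.1)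
        rw [e1, e2]
    · exact h.usum_out (B := fun d => A d ∧ ¬ A₀ d) (fun d hd => Or.inl hd.2)
        (fun e he => hω e he.2) e
  refine ⟨μ, ω, ?_, fun i => ?_, fun d hd => ?_, fun i => ?_, fun d hd => ?_⟩
  · intro d hd
    by_cases hd0 : A₀ d
    · exact (hR₀.loc d hd0).congr hA₀ hμ₀ hω₀ hd0
    · obtain ⟨e, rfl⟩ := hex d hd0
      obtain ⟨k, η, r, hk, hη, ⟨i, hi⟩, hr, hsr⟩ := hR.loc e hd
      have hA : ∀ j, ¬ A₀ (ι (η j)) := fun j hj =>
        hd0 (by rw [← hi]; exact (hsites.same (hη.same hk i j)).2 hj)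
      have hAη : ∀ j, A (ι (η j)) := fun j =>
        (hAs.same (hη.same hk i j)).1 (by rw [hi]; exact hd)
      refine ⟨k, fun j => ι (η j), r, hk, ⟨fun x y hxy => hη.inj (h.inj hxy), fun j => ?_⟩,
        ⟨i, congrArg ι hi⟩, hout k η r hk hη hAη hA hr, fun j => ?_⟩
      · rw [← hη.nx, h.nx _ (hA j)]
      · rw [hμ _ (hA j), hω _ (hA j), (hsr j).1, (hsr j).2]
        exact ⟨rfl, rfl⟩
  · rw [← hδ, ← hδ]
    exact hstr _ _ (hR.str i)
  · by_cases hd0 : A₀ d
    · obtain ⟨j, hj⟩ := hR₀.all d hd0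
      obtain ⟨i, hi⟩ := hR.all (γ j) (h0 _ (hγA j))
      refine ⟨i, ?_⟩
      rw [← hδ]
      exact Relation.EqvGen.trans _ _ _ (hstr₀ _ _ hj) (hstr _ _ hi)
    · obtain ⟨e, rfl⟩ := hex d hd0
      obtain ⟨i, hi⟩ := hR.all e hd
      refine ⟨i, ?_⟩
      rw [← hδ]
      exact hstr _ _ hi
  · rw [← hδ, hsum]
    exact hR.bdry i
  · have key : ∀ e, (∀ f, M.SameNode (ι e) f → A f) → M.usum A ω (ι e) = 3 := by
      intro e he
      rw [hsum]
      exact hR.inner e fun f hf => he _ ((h.node e f).1 hf)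
    by_cases hall : ∀ x, M.SameNode d x → A₀ x
    · have h1 : M.usum A ω d = M.usum A₀ ω₀ d := by
        unfold usum
        refine Finset.sum_congr ?_ fun x hx => ?_
        · ext x
          simp only [mem_nodeIn]
          exact ⟨fun hx => ⟨hx.1, hall x hx.1⟩, fun hx => ⟨hx.1, h0 _ hx.2⟩⟩
        · rw [mem_nodeIn] at hx
          exact (hω₀ x (hall x hx.1)).symm
      rw [h1]
      exact hR₀.inner d hall
    · push Not at hall
      obtain ⟨x, hx, hx2⟩ := hall
      obtain ⟨e, rfl⟩ := hex x hx2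
      rw [usum_same hx]
      exact key e fun f hf => hd f (hx.trans hf)

end

/-! ### numberings -/

/-- every site has a numbering which starts at a given dart -/
theorem exists_siteNum [Finite D] (M : DMap D) (d : D) :
    ∃ γ : ZMod (M.deg d) → D, M.SiteNum (M.deg d) γ ∧ γ 0 = d ∧ M.deg d ≠ 0 := by
  have hpos : 0 < M.deg d :=
    Function.minimalPeriod_pos_of_mem_periodicPts (M.nx.injective.mem_periodicPts d)
  have : NeZero (M.deg d) := ⟨hpos.ne'⟩
  have hp : M.nx^[M.deg d] d = d := Function.isPeriodicPt_minimalPeriod M.nx d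
  refine ⟨fun i => M.nx^[i.val] d, ⟨fun i j hij => ?_, fun i => ?_⟩, ?_, hpos.ne'⟩
  · exact ZMod.val_injective _ ((Function.iterate_eq_iterate_iff_of_lt_minimalPeriod
      (ZMod.val_lt i) (ZMod.val_lt j)).1 hij)
  · show M.nx (M.nx^[i.val] d) = M.nx^[(i + 1).val] d
    rw [← Function.iterate_succ_apply' M.nx]
    have h1 : (i + 1).val = (i.val + 1) % M.deg d := by
      rw [← ZMod.val_natCast, Nat.cast_add, Nat.cast_one, ZMod.natCast_zmod_val]
    rw [h1]
    exact (Function.iterate_mod_minimalPeriod_eq (f := M.nx) (x := d) (n := i.val + 1)).symm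
  · show M.nx^[(0 : ZMod (M.deg d)).val] d = d
    rw [ZMod.val_zero]
    rfl

/-- two numberings of the same site differ by a rotation -/
theorem SiteNum.eq_rot [Finite D] {n : ℕ} {γ γ' : ZMod n → D} (h : M.SiteNum n γ)
    (h' : M.SiteNum n γ') (hn : n ≠ 0) (hs : M.SameSite (γ 0) (γ' 0)) :
    ∃ c, ∀ i, γ' i = γ (i + c) := by
  obtain ⟨c, hc⟩ := h.mem hs
  have : NeZero n := ⟨hn⟩
  refine ⟨c, fun i => ?_⟩
  have key : ∀ k : ℕ, γ' k = γ (k + c) := by
    intro k
    induction k with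
    | zero => rw [Nat.cast_zero, zero_add, hc]
    | succ k ih =>
      push_cast
      rw [← h'.nx, ih, h.nx]
      congr 1
      ring
  have := key i.val
  rwa [ZMod.natCast_zmod_val] at this

/-! ### multi-contractions -/

/-- `M'` arises from `M` by contracting disjoint regions; `ι` embeds the remaining darts, `c x` is the
content of the site of `x` -/
structure MCtr {D' : Type} (M : DMap D) (M' : DMap D') (ι : D' → D) (c : D' → D → Prop) :
    Prop where
  inj : Function.Injective ι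
  al : ∀ x, ι (M'.al x) = M.al (ι x)
  node : ∀ x y, M'.SameNode x y ↔ M.SameNode (ι x) (ι y)
  mem : ∀ x, c x (ι x)
  nx : ∀ x d, c (M'.nx x) d ↔ c x d
  disj : ∀ x y d, c x d → c y d → M'.SameSite x y
  cover : ∀ d, ∃ x, c x d
  bd : ∀ (n : ℕ) (γ : ZMod n → D'), n ≠ 0 → M'.SiteNum n γ → M.Bd (c (γ 0)) n fun i => ι (γ i)

namespace MCtr

variable {D' : Type} {M' : DMap D'} {ι : D' → D} {c : D' → D → Prop}

theorem same (h : M.MCtr M' ι c) {x y : D'} (hxy : M'.SameSite x y) (d : D) : c x d ↔ c y d := by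
  have h1 : M'.Sites fun x => c x d := fun x => h.nx x d
  exact h1.same hxy

theorem sites [Finite D'] (h : M.MCtr M' ι c) (x : D') : M.Sites (c x) := by
  obtain ⟨γ, hγ, h0, hn⟩ := M'.exists_siteNum x
  have h1 := (h.bd _ γ hn hγ).site
  rw [h0] at h1
  exact h1

theorem leave [Finite D'] (h : M.MCtr M' ι c) (x : D') : ¬ c x (M.al (ι x)) := by
  obtain ⟨γ, hγ, h0, hn⟩ := M'.exists_siteNum x
  have h1 := bd_al (h.bd _ γ hn hγ) 0
  rw [h0] at h1
  exact h1

theorem exists_of_leave [Finite D'] (h : M.MCtr M' ι c) {x : D'} {d : D} (hd : c x d)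
    (hd' : ¬ c x (M.al d)) : ∃ y, M'.SameSite x y ∧ ι y = d := by
  obtain ⟨γ, hγ, h0, hn⟩ := M'.exists_siteNum x
  have h1 := ((h.bd _ γ hn hγ).mem d).1 ⟨by rw [h0]; exact hd, by rw [h0]; exact hd'⟩
  obtain ⟨i, hi⟩ := h1
  refine ⟨γ i, ?_, hi⟩
  have := hγ.same hn 0 i
  rwa [h0] at this

/-- the content of a set of sites -/
def cont (c : D' → D → Prop) (B' : D' → Prop) (d : D) : Prop := ∃ x, B' x ∧ c x d

theorem cont_ι [Finite D'] (h : M.MCtr M' ι c) {B' : D' → Prop} (hB : M'.Sites B') (x : D') :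
    cont c B' (ι x) ↔ B' x := by
  constructor
  · rintro ⟨y, hy, hyx⟩
    exact (hB.same (h.disj y x _ hyx (h.mem x))).1 hy
  · exact fun hx => ⟨x, hx, h.mem x⟩

theorem cont_of [Finite D'] (h : M.MCtr M' ι c) {B' : D' → Prop} (hB : M'.Sites B') {x : D'} {d : D}
    (hx : c x d) : cont c B' d ↔ B' x := by
  constructor
  · rintro ⟨y, hy, hyx⟩
    exact (hB.same (h.disj y x _ hyx hx)).1 hy
  · exact fun hx' => ⟨x, hx', hx⟩

theorem cont_sites [Finite D'] (h : M.MCtr M' ι c) (B' : D' → Prop) : M.Sites (cont c B') := by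
  intro d
  constructor
  · rintro ⟨x, hx, hd⟩
    exact ⟨x, hx, (h.sites x d).1 hd⟩
  · rintro ⟨x, hx, hd⟩
    exact ⟨x, hx, (h.sites x d).2 hd⟩

/-- sectors of one content in one node are leaving darts of the content, or the node is inside -/
theorem node_cases [Finite D] [Finite D'] (h : M.MCtr M' ι c) {x : D'} {d : D} (hd : c x d) :
    (∀ e, M.SameNode d e → c x e) ∨ ∃ y, M'.SameSite x y ∧ M.SameNode d (ι y) := by
  by_cases hall : ∀ e, M.SameNode d e → c x e
  · exact Or.inl hall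
  · right
    push Not at hall
    obtain ⟨e, he1, he2⟩ := hall
    obtain ⟨z, hz1, hz2, hz3⟩ := exists_leaving (h.sites x) he1 hd he2
    obtain ⟨y, hy, rfl⟩ := h.exists_of_leave hz2 hz3
    exact ⟨y, hy, hz1⟩

/-- a site meets every node at most once -/
theorem node_inj [Finite D] [Finite D'] (h : M.MCtr M' ι c) {x y : D'} (hs : M'.SameSite x y)
    (hn : M'.SameNode x y) : x = y := by
  obtain ⟨γ, hγ, h0, hn0⟩ := M'.exists_siteNum x
  obtain ⟨j, hj⟩ := hγ.mem (i := 0) (d := y) (by rw [h0]; exact hs)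
  have hb := h.bd _ γ hn0 hγ
  have h1 : (0 : ZMod (M'.deg x)) = j := by
    refine nodes_inj hb ?_
    show M.SameNode (ι (γ 0)) (ι (γ j))
    rw [← h.node, h0, hj]
    exact hn
  rw [← hj, ← h1, h0]

end MCtr

/-- representatives of the sites -/
theorem exists_rep_site (M : DMap D) :
    ∃ rep : D → D, (∀ x, M.SameSite x (rep x)) ∧ ∀ x y, M.SameSite x y → rep x = rep y := by
  let S := Equiv.Perm.SameCycle.setoid M.nx
  refine ⟨fun x => (Quotient.mk S x).out, fun x => ?_, fun x y hxy => ?_⟩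
  · exact (Quotient.exact (s := S) (Quotient.out_eq (Quotient.mk S x))).symm
  · have h1 : Quotient.mk S x = Quotient.mk S y := Quotient.sound (s := S) hxy
    show (Quotient.mk S x).out = (Quotient.mk S y).out
    rw [h1]

section

variable {D' : Type} [Fintype D] [Fintype D'] {M' : DMap D'} {ι : D' → D} {c : D' → D → Prop}

/-- **Substitution**: the local states of `M'` are states of the contents. -/
theorem RealL.subst (h : M.MCtr M' ι c) {L : LS D} {L' : LS D'} {A' : D' → Prop}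
    (hA' : M'.Sites A')
    (hL : ∀ (n : ℕ) (γ : ZMod n → D') (t : PState n), n ≠ 0 → M'.SiteNum n γ → (∀ i, A' (γ i)) →
      L' n γ t → ∃ μ ω, M.RealL L (c (γ 0)) (fun i => ι (γ i)) t μ ω)
    {n : ℕ} {δ' : ZMod n → D'} {s : PState n} {μ' : D' → D'} {ω' : D' → ℕ}
    (hR : M'.RealL L' A' δ' s μ' ω') :
    ∃ μ ω, M.RealL L (MCtr.cont c A') (fun i => ι (δ' i)) s μ ω := by
  obtain ⟨rep, hrep1, hrep2⟩ := M'.exists_rep_site
  -- the state of the content of `x`
  have hex : ∀ x, ∃ p : (D → D) × (D → ℕ), A' x → ∃ (n : ℕ) (γ : ZMod n → D') (t : PState n),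
      n ≠ 0 ∧ M'.SiteNum n γ ∧ (∃ i, γ i = x) ∧ HasState μ' ω' γ t ∧
      M.RealL L (c x) (fun i => ι (γ i)) t p.1 p.2 := by
    intro x
    by_cases hx : A' x
    · obtain ⟨m, γ, t, hm, hγ, ⟨i, hi⟩, ht, hst⟩ := hR.loc x hx
      have hA : ∀ j, A' (γ j) := fun j => (hA'.same (hγ.same hm i j)).1 (by rw [hi]; exact hx)
      obtain ⟨μ, ω, hr⟩ := hL m γ t hm hγ hA ht
      refine ⟨(μ, ω), fun _ => ⟨m, γ, t, hm, hγ, ⟨i, hi⟩, hst, hr.congrA fun d => ?_⟩⟩
      have h1 := hγ.same hm 0 i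
      rw [hi] at h1
      exact (h.same h1 d).symm
    · exact ⟨(id, fun _ => 0), fun hx' => absurd hx' hx⟩
  choose p hp using hex
  choose k hk using h.cover
  let μ : D → D := fun d => (p (rep (k d))).1 d
  let ω : D → ℕ := fun d => (p (rep (k d))).2 d
  have hkr : ∀ x d, c x d → rep (k d) = rep x := fun x d hd => hrep2 _ _ (h.disj _ _ d (hk d) hd)
  have hμ : ∀ x d, c x d → (p (rep x)).1 d = μ d := fun x d hd => by
    show _ = (p (rep (k d))).1 d
    rw [hkr x d hd]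
  have hω : ∀ x d, c x d → (p (rep x)).2 d = ω d := fun x d hd => by
    show _ = (p (rep (k d))).2 d
    rw [hkr x d hd]
  have hS : ∀ x, A' x → ∃ (n : ℕ) (γ : ZMod n → D') (t : PState n),
      n ≠ 0 ∧ M'.SiteNum n γ ∧ (∃ i, γ i = x) ∧ HasState μ' ω' γ t ∧
      M.RealL L (c x) (fun i => ι (γ i)) t μ ω := by
    intro x hx
    obtain ⟨m, γ, t, hm, hγ, ⟨i, hi⟩, hst, hr⟩ := hp (rep x) ((hA'.same (hrep1 x)).1 hx)
    have h1 : ∀ d, c x d ↔ c (rep x) d := fun d => h.same (hrep1 x) d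
    have h2 : M'.SameSite (γ i) x := by rw [hi]; exact (hrep1 x).symm
    obtain ⟨j, hj⟩ := hγ.mem h2
    refine ⟨m, γ, t, hm, hγ, ⟨j, hj⟩, hst, ?_⟩
    exact (hr.congrA h1).congr (h.sites x) (hμ x) (hω x)
  have hcA : ∀ x, A' x → ∀ d, c x d → MCtr.cont c A' d := fun x hx d hd => ⟨x, hx, hd⟩
  have hAι : ∀ x, MCtr.cont c A' (ι x) ↔ A' x := fun x => h.cont_ι hA' x
  -- strands
  have hstr₀ : ∀ x, A' x → ∀ a b, M.Str (c x) μ a b → M.Str (MCtr.cont c A') μ a b :=
    fun x hx a b hab => hab.mono (hcA x hx) fun _ _ => rfl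
  have hstr : ∀ x y, M'.Str A' μ' x y → M.Str (MCtr.cont c A') μ (ι x) (ι y) := by
    intro x y hxy
    induction hxy with
    | rel x y hxy =>
      rcases hxy.2 with h2 | h2
      · obtain ⟨m, γ, t, hm, hγ, ⟨i, hi⟩, hst, hr⟩ := hS x hxy.1
        have h3 := hr.str i
        rw [h2, ← hi, (hst i).1]
        exact hstr₀ x hxy.1 _ _ h3
      · refine Relation.EqvGen.rel _ _ ⟨(hAι x).2 hxy.1, Or.inr ?_⟩
        rw [← h.al, ← h2.1]
        exact ⟨rfl, (hAι y).2 h2.2⟩
    | refl x => exact Relation.EqvGen.refl _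
    | symm x y _ ih => exact Relation.EqvGen.symm _ _ ih
    | trans x y z _ _ ih1 ih2 => exact Relation.EqvGen.trans _ _ _ ih1 ih2
  -- the units of a content
  have hcu : ∀ x, A' x → M.usum (c x) ω (ι x) = ω' x := by
    intro x hx
    obtain ⟨m, γ, t, hm, hγ, ⟨i, hi⟩, hst, hr⟩ := hS x hx
    rw [← hi, (hst i).2, ← hr.bdry i, hi]
  -- the sums
  have hsum : ∀ e, M.usum (MCtr.cont c A') ω (ι e) = M'.usum A' ω' e := by
    intro e
    -- the dart of the site of `k d` at the node of `e`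
    have hF : ∀ d, ∃ y, d ∈ M.nodeIn (MCtr.cont c A') (ι e) →
        A' y ∧ M'.SameNode e y ∧ c y d := by
      intro d
      by_cases hd : d ∈ M.nodeIn (MCtr.cont c A') (ι e)
      · obtain ⟨h1, x, hx, hxd⟩ := mem_nodeIn.1 hd
        rcases h.node_cases hxd with h2 | ⟨y, hy1, hy2⟩
        · have h3 := h2 _ h1.symm
          have h4 := h.disj x e _ h3 (h.mem e)
          exact ⟨e, fun _ => ⟨(hA'.same h4).1 hx, Equiv.Perm.SameCycle.refl _ _,
            (h.same h4 d).1 hxd⟩⟩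
        · exact ⟨y, fun _ => ⟨(hA'.same hy1).1 hx, (h.node _ _).2 (h1.trans hy2),
            (h.same hy1 d).1 hxd⟩⟩
      · exact ⟨e, fun h => absurd h hd⟩
    choose F hF using hF
    unfold usum
    rw [← Finset.sum_fiberwise_of_maps_to (s := M.nodeIn (MCtr.cont c A') (ι e))
      (t := M'.nodeIn A' e) (g := F) fun d hd => mem_nodeIn.2 ⟨(hF d hd).2.1, (hF d hd).1⟩]
    refine Finset.sum_congr rfl fun y hy => ?_
    obtain ⟨hy1, hy2⟩ := mem_nodeIn.1 hy
    rw [← hcu y hy2]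
    unfold usum
    refine Finset.sum_congr ?_ fun _ _ => rfl
    ext d
    rw [Finset.mem_filter]
    constructor
    · rintro ⟨hd, rfl⟩
      refine mem_nodeIn.2 ⟨?_, (hF d hd).2.2⟩
      exact ((h.node _ _).1 hy1).symm.trans (mem_nodeIn.1 hd).1
    · intro hd
      obtain ⟨hd1, hd2⟩ := mem_nodeIn.1 hd
      have hd3 : d ∈ M.nodeIn (MCtr.cont c A') (ι e) :=
        mem_nodeIn.2 ⟨((h.node _ _).1 hy1).trans hd1, y, hy2, hd2⟩
      refine ⟨hd3, ?_⟩
      obtain ⟨h1, h2, h3⟩ := hF d hd3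
      exact h.node_inj (h.disj _ _ d h3 hd2) (h2.symm.trans hy1)
  refine ⟨μ, ω, ?_, fun i => ?_, ?_, fun i => ?_, fun d hd => ?_⟩
  · rintro d ⟨x, hx, hd⟩
    obtain ⟨m, γ, t, hm, hγ, -, hst, hr⟩ := hS x hx
    exact hr.loc d hd
  · exact hstr _ _ (hR.str i)
  · rintro d ⟨x, hx, hd⟩
    obtain ⟨m, γ, t, hm, hγ, ⟨i₀, hi₀⟩, hst, hr⟩ := hS x hx
    obtain ⟨i, hi⟩ := hr.all d hd
    have h1 : A' (γ i) := (hA'.same (hγ.same hm i₀ i)).1 (by rw [hi₀]; exact hx)
    obtain ⟨j, hj⟩ := hR.all (γ i) h1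
    exact ⟨j, Relation.EqvGen.trans _ _ _ (hstr₀ x hx _ _ hi) (hstr _ _ hj)⟩
  · rw [hsum]
    exact hR.bdry i
  · obtain ⟨x, hx, hxd⟩ := hd d (Equiv.Perm.SameCycle.refl _ _)
    rcases h.node_cases hxd with h2 | ⟨y, hy1, hy2⟩
    · obtain ⟨m, γ, t, hm, hγ, -, hst, hr⟩ := hS x hx
      rw [← hr.inner d h2]
      unfold usum
      refine Finset.sum_congr ?_ fun _ _ => rfl
      ext e
      rw [mem_nodeIn, mem_nodeIn]
      exact ⟨fun he => ⟨he.1, h2 e he.1⟩, fun he => ⟨he.1, hcA x hx e he.2⟩⟩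
    · rw [usum_same hy2, hsum]
      refine hR.inner y fun f hf => ?_
      rw [← hAι]
      exact hd _ (hy2.trans ((h.node _ _).1 hf))

end

end DMap

end GT33
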