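import Pool.Agent.GT33.DLiftS
import Pool.Agent.GT33.DLiftU
import Pool.Agent.GT33.Typed

/-!
# GT33 module DLIFT: the state lift of the full peel

`Gen.lift`: a state of the folded map of a generic patch without corners gives a state of the patch.  The local
states: `lq` (link quads), `lh` (link hexagons), `sq` (quads at the ring edges), `sh` (hexagons at the
ring edges).
-/

open Classical

namespace GT33

/-- the position of a kept dart of a folded hexagon -/
def l6 (j : ZMod 4) : ZMod 6 := (j.val : ZMod 6) + 2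

/-- the inverse of `l6` -/
def c4 (i : ZMod 6) : ZMod 4 := ((i.val - 2 : ℕ) : ZMod 4)

/-- the state of a link quad -/
def lq (p q : ℕ) : PState 4 where
  m i := (![1, 0, 3, 2] : Fin 4 → ZMod 4) i
  u i := (![0, p, 0, q] : Fin 4 → ℕ) i

/-- the state of a link hexagon -/
def lh (p q : ℕ) (t : PState 4) : PState 6 where
  m i := if i = 0 then 1 else if i = 1 then 0 else l6 (t.m (c4 i))
  u i := (![0, p, t.u 0, t.u 1, t.u 2, q] : Fin 6 → ℕ) i

/-- the state of a quad at a ring edge -/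
def sq (a : Bool) (r r' p q : ℕ) : PState 4 where
  m i := if a = true then (![1, 0, 3, 2] : Fin 4 → ZMod 4) i else (![3, 2, 1, 0] : Fin 4 → ZMod 4) i
  u i := (![r, p - r', q - (1 - r'), 1 - r] : Fin 4 → ℕ) i

/-- the state of a hexagon at a ring edge -/
def sh (a : Bool) (r p q : ℕ) (t : PState 4) : PState 6 where
  m i := if a = true then (if i = 0 then 1 else if i = 1 then 0 else l6 (t.m (c4 i))) else
    (if i = 0 then 5 else if i = 5 then 0 else if i = 1 then l6 (t.m 3) else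
      if t.m (c4 i) = 3 then 1 else l6 (t.m (c4 i)))
  u i := (![r, p, t.u 0, t.u 1, q, 1 - r] : Fin 6 → ℕ) i

theorem l6_ne (j : ZMod 4) : l6 j ≠ 0 ∧ l6 j ≠ 1 := by
  revert j
  decide

theorem c4_l6 (j : ZMod 4) : c4 (l6 j) = j := by
  revert j
  decide

theorem l6_c4 {i : ZMod 6} (h0 : i ≠ 0) (h1 : i ≠ 1) : l6 (c4 i) = i := by
  revert i
  decide

theorem l6_inj {i j : ZMod 4} (h : l6 i = l6 j) : i = j := by
  rw [← c4_l6 i, h, c4_l6]

theorem l6_five {j : ZMod 4} : l6 j = 5 ↔ j = 3 := by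
  revert j
  decide

namespace DMap

variable {D : Type} {M : DMap D} {A : D → Prop} {δ : ZMod 6 → D}

open Patch

namespace Gen

variable [Fintype D] (hG : M.Gen A δ)

section defs

variable (μ' : {d // ¬ FR M (FS M A δ) d} → {d // ¬ FR M (FS M A δ) d})
  (ω' : {d // ¬ FR M (FS M A δ) d} → ℕ) (a : ZMod 6 → Bool) (r r' : ZMod 6 → ℕ) (p q : ℕ)

/-- the pairing of kept darts and links -/
noncomputable def kmu (d : D) : D :=
  if h : ¬ FR M (FS M A δ) d then (μ' ⟨d, h⟩).1 else fmu M (FS M A δ) d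

/-- the units of kept darts -/
noncomputable def kom (d : D) : ℕ := if h : ¬ FR M (FS M A δ) d then ω' ⟨d, h⟩ else 0

/-- the partner of the ring dart -/
noncomputable def pX (hG : M.Gen A δ)
    (μ' : {d // ¬ FR M (FS M A δ) d} → {d // ¬ FR M (FS M A δ) d}) (k : ZMod 6) : D :=
  if M.deg (δ k) = 4 then M.nx (M.nx (δ k)) else (μ' (hG.hdr k)).1

/-- the pairing at a ring edge -/
noncomputable def spm (k : ZMod 6) (d : D) : D :=
  if d = δ k then (if a k = true then M.nx (δ k) else M.nx.symm (δ k)) else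
  if d = M.nx (δ k) then (if a k = true then δ k else pX hG μ' k) else
  if d = M.nx.symm (δ k) then (if a k = true then pX hG μ' k else δ k) else
  if d = pX hG μ' k then (if a k = true then M.nx.symm (δ k) else M.nx (δ k)) else
  kmu μ' d

/-- the lifted pairing -/
noncomputable def lmu (d : D) : D :=
  if h : ∃ k, M.SameSite (δ k) d then hG.spm μ' a h.choose d else kmu μ' d

/-- the units at a ring edge -/
noncomputable def spo (k : ZMod 6) (d : D) : ℕ :=
  if d = δ k then r k else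
  if d = M.nx (δ k) then (if M.deg (δ k) = 4 then p - r' k else p) else
  if d = M.nx.symm (δ k) then 1 - r k else
  if d = M.nx.symm (M.nx.symm (δ k)) then (if M.deg (δ k) = 4 then q - (1 - r' k) else q) else
  kom ω' d

/-- the units of a link -/
noncomputable def lko (e d : D) : ℕ :=
  if d = e then 0 else if d = M.nx e then p else if d = M.nx.symm e then q else kom ω' d

/-- the lifted units -/
noncomputable def lom (d : D) : ℕ :=
  if h : ∃ k, M.SameSite (δ k) d then spo ω' r r' p q h.choose d else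
  if h : ∃ e, FS M A δ e ∧ M.SameSite e d then lko ω' p q h.choose d else kom ω' d

end defs

section lemmas

variable (hnc : ∀ i, M.nx (δ i) ≠ δ (i + 1))
  {μ' : {d // ¬ FR M (FS M A δ) d} → {d // ¬ FR M (FS M A δ) d}}
  {ω' : {d // ¬ FR M (FS M A δ) d} → ℕ} {a : ZMod 6 → Bool} {r r' : ZMod 6 → ℕ} {p q : ℕ}

include hG hnc

theorem sp_uniq {j k : ZMod 6} {d : D} (hj : M.SameSite (δ j) d) (hk : M.SameSite (δ k) d) :
    j = k :=
  hG.bd.inj (hG.fs_uniq (hG.fs_δ hnc k) (hG.fs_δ hnc j) (hk.trans hj.symm))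

theorem link_not {e : D} (he : FS M A δ e) (hl : ∀ k, e ≠ δ k) {d : D} (hs : M.SameSite e d) :
    ¬ ∃ k, M.SameSite (δ k) d :=
  fun ⟨k, hk⟩ => hl k (hG.fs_uniq (hG.fs_δ hnc k) he (hk.trans hs.symm))

theorem lmu_sp {k : ZMod 6} {d : D} (hs : M.SameSite (δ k) d) :
    hG.lmu μ' a d = hG.spm μ' a k d := by
  have h : ∃ k, M.SameSite (δ k) d := ⟨k, hs⟩
  rw [lmu, dif_pos h, hG.sp_uniq hnc h.choose_spec hs]

omit hnc in
theorem lmu_of {d : D} (h : ¬ ∃ k, M.SameSite (δ k) d) : hG.lmu μ' a d = kmu μ' d := dif_neg h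

theorem lom_sp {k : ZMod 6} {d : D} (hs : M.SameSite (δ k) d) :
    lom ω' r r' p q d = spo ω' r r' p q k d := by
  have h : ∃ k, M.SameSite (δ k) d := ⟨k, hs⟩
  rw [lom, dif_pos h, hG.sp_uniq hnc h.choose_spec hs]

theorem lom_lk {e d : D} (he : FS M A δ e) (hl : ∀ k, e ≠ δ k) (hs : M.SameSite e d) :
    lom ω' r r' p q d = lko ω' p q e d := by
  have h : ∃ e, FS M A δ e ∧ M.SameSite e d := ⟨e, he, hs⟩
  rw [lom, dif_neg (hG.link_not hnc he hl hs), dif_pos h,
    hG.fs_uniq he h.choose_spec.1 (hs.trans h.choose_spec.2.symm)]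

theorem lom_of {d : D} (h : ∀ e, FS M A δ e → ¬ M.SameSite e d) :
    lom ω' r r' p q d = kom ω' d := by
  rw [lom, dif_neg fun ⟨k, hk⟩ => h _ (hG.fs_δ hnc k) hk, dif_neg fun ⟨e, h1, h2⟩ => h e h1 h2]

omit hnc [Fintype D] in
theorem ns1 (d : D) : M.nx.symm d ≠ d := fun h => hG.ne1 d (by
  conv_lhs => rw [← h]
  rw [Equiv.apply_symm_apply])

omit hnc [Fintype D] in
theorem ns2 (d : D) : M.nx.symm d ≠ M.nx d := fun h => hG.ne2 d (by
  rw [← h, Equiv.apply_symm_apply])

omit hnc [Fintype D] in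
theorem ns3 (d : D) : M.nx.symm (M.nx.symm d) ≠ d := fun h => hG.ns2 d (by
  have h1 : M.nx.symm d = M.nx d := by
    conv_rhs => rw [← h]
    rw [Equiv.apply_symm_apply]
  exact h1)

omit hnc [Fintype D] in
theorem ns4 (d : D) : M.nx.symm (M.nx.symm d) ≠ M.nx d := fun h => hG.ne3 d (by
  rw [← h, Equiv.apply_symm_apply, Equiv.apply_symm_apply])

/-- a quad at the ring disappears -/
theorem sp_quad {k : ZMod 6} (h4 : M.deg (δ k) = 4) {d : D} (hs : M.SameSite (δ k) d) :
    FR M (FS M A δ) d := by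
  have := hnc
  exact hG.ring_all (hG.toPatch.inA k) (ring_δ k) h4 hs

/-- the properties of the pairing of the folded map -/
theorem liftMu (hinv : ∀ y, A y.1 → μ' (μ' y) = y) (hfix : ∀ y, A y.1 → μ' y ≠ y)
    (hsite : ∀ y, A y.1 → M.SameSite y.1 (μ' y).1) :
    hG.LiftMu μ' (hG.lmu μ' a) (pX hG μ') a := by
  have hh : ∀ k, M.deg (δ k) ≠ 4 → (hG.hdr k).1 = M.nx.symm (δ k) := fun k hk => if_neg hk
  have hX6 : ∀ k, M.deg (δ k) ≠ 4 → pX hG μ' k = (μ' (hG.hdr k)).1 := fun k hk => if_neg hk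
  have hX4 : ∀ k, M.deg (δ k) = 4 → pX hG μ' k = M.nx (M.nx (δ k)) := fun k hk => if_pos hk
  have hXs : ∀ k, M.deg (δ k) ≠ 4 → M.SameSite (δ k) (μ' (hG.hdr k)).1 := by
    intro k hk
    have h1 := hsite (hG.hdr k) (hG.hd_A k)
    refine Equiv.Perm.SameCycle.trans ?_ h1
    rw [hh k hk]
    exact site_nx_symm _
  have hXsite : ∀ k, M.SameSite (δ k) (pX hG μ' k) := by
    intro k
    by_cases hk : M.deg (δ k) = 4
    · rw [hX4 k hk]
      exact (site_nx _).trans (site_nx _)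
    · rw [hX6 k hk]
      exact hXs k hk
  have hX0 : ∀ k, pX hG μ' k ≠ δ k := by
    intro k h
    by_cases hk : M.deg (δ k) = 4
    · rw [hX4 k hk] at h
      exact hG.ne2 _ h
    · rw [hX6 k hk] at h
      exact (μ' (hG.hdr k)).2 (by rw [h]; exact FoldSet.r0 (hG.fs_δ hnc k))
  have hX1 : ∀ k, pX hG μ' k ≠ M.nx (δ k) := by
    intro k h
    by_cases hk : M.deg (δ k) = 4
    · rw [hX4 k hk] at h
      exact hG.ne1 _ h
    · rw [hX6 k hk] at h
      exact (μ' (hG.hdr k)).2 (by rw [h]; exact FoldSet.r1 (hG.fs_δ hnc k))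
  have hX5 : ∀ k, pX hG μ' k ≠ M.nx.symm (δ k) := by
    intro k h
    by_cases hk : M.deg (δ k) = 4
    · rw [hX4 k hk] at h
      exact hG.ne3 (δ k) (by rw [h, Equiv.apply_symm_apply])
    · rw [hX6 k hk, ← hh k hk] at h
      exact hfix (hG.hdr k) (hG.hd_A k) (Subtype.ext h)
  refine ⟨hinv, fun e he hl => ?_, fun e he hl h4 => ?_, hX4, fun k hk => ⟨hX6 k hk, hXs k hk⟩,
    fun k hk => ⟨?_, ?_⟩, fun k hk => ⟨?_, ?_⟩, fun y hy hne => ?_⟩
  · rw [hG.lmu_of (hG.link_not hnc he hl (Equiv.Perm.SameCycle.refl _ _)), kmu,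
      dif_neg (not_not.2 (FoldSet.r0 he)), FoldSet.mu0 he]
  · rw [hG.lmu_of (hG.link_not hnc he hl ((site_nx _).trans (site_nx _))), kmu,
      dif_neg (not_not.2 (FoldSet.r2 he h4)), hG.foldSet.mu2 he h4, nx_four' h4]
  · rw [hG.lmu_sp hnc (Equiv.Perm.SameCycle.refl _ _), spm, if_pos rfl, if_pos hk]
  · rw [hG.lmu_sp hnc (hXsite k), spm, if_neg (hX0 k), if_neg (hX1 k), if_neg (hX5 k), if_pos rfl,
      if_pos hk]
  · rw [hG.lmu_sp hnc (Equiv.Perm.SameCycle.refl _ _), spm, if_pos rfl,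
      if_neg (by rw [hk]; decide)]
  · rw [hG.lmu_sp hnc (hXsite k), spm, if_neg (hX0 k), if_neg (hX1 k), if_neg (hX5 k), if_pos rfl,
      if_neg (by rw [hk]; decide)]
  · have hkm : kmu μ' y.1 = (μ' y).1 := dif_pos y.2
    by_cases h : ∃ k, M.SameSite (δ k) y.1
    · obtain ⟨k, hk⟩ := h
      have h4 : M.deg (δ k) ≠ 4 := fun h4 => y.2 (hG.sp_quad hnc h4 hk)
      have h5 := hne k h4
      rw [hG.lmu_sp hnc hk, spm, if_neg fun h => y.2 (by rw [h]; exact FoldSet.r0 (hG.fs_δ hnc k)),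
        if_neg fun h => y.2 (by rw [h]; exact FoldSet.r1 (hG.fs_δ hnc k)),
        if_neg fun h => h5.1 (Subtype.ext (by rw [h, hh k h4])),
        if_neg fun h => h5.2 (Subtype.ext (by rw [h, hX6 k h4])), hkm]
    · rw [hG.lmu_of h, hkm]

omit hG hnc [Fintype D] in
theorem num4 {α : ZMod 4 → D} (h : M.SiteNum 4 α) {e : D} (h0 : α 0 = e) :
    α 1 = M.nx e ∧ α 2 = M.nx (M.nx e) ∧ α 3 = M.nx.symm e := by
  have h1 : α 1 = M.nx e := by rw [← h0, h.nx]; rfl
  have h2 : α 2 = M.nx (M.nx e) := by rw [← h1, h.nx]; rfl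
  refine ⟨h1, h2, ?_⟩
  rw [← h0, Equiv.eq_symm_apply, h.nx]
  rfl

omit hG hnc [Fintype D] in
theorem num6 {α : ZMod 6 → D} (h : M.SiteNum 6 α) {e : D} (h0 : α 0 = e) :
    α 1 = M.nx e ∧ α 5 = M.nx.symm e ∧ α 4 = M.nx.symm (M.nx.symm e) := by
  have h5 : α 5 = M.nx.symm e := by
    rw [← h0, Equiv.eq_symm_apply, h.nx]
    rfl
  refine ⟨by rw [← h0, h.nx]; rfl, h5, ?_⟩
  rw [← h5, Equiv.eq_symm_apply, h.nx]
  rfl

omit hG hnc [Fintype D] in
theorem z4 (i : ZMod 4) : i = 0 ∨ i = 1 ∨ i = 2 ∨ i = 3 := by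
  revert i
  decide

/-- the state of a link quad -/
theorem st_lq {e : D} (he : FS M A δ e) (hl : ∀ k, e ≠ δ k) {α : ZMod 4 → D}
    (hα : M.SiteNum 4 α) (h0 : α 0 = e) :
    HasState (hG.lmu μ' a) (lom ω' r r' p q) α (lq p q) := by
  obtain ⟨h1, h2, h3⟩ := num4 hα h0
  have h4 : M.deg e = 4 := by rw [← h0]; exact hα.deg 0
  have hs : ∀ i, M.SameSite e (α i) := fun i => by rw [← h0]; exact hα.same (by decide) 0 i
  have hm : ∀ i, hG.lmu μ' a (α i) = fmu M (FS M A δ) (α i) := by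
    intro i
    rw [hG.lmu_of (hG.link_not hnc he hl (hs i)), kmu,
      dif_neg (not_not.2 (hG.ring_all he.1 he.2.1 h4 (hs i)))]
  have ho : ∀ i, lom ω' r r' p q (α i) = lko ω' p q e (α i) := fun i => hG.lom_lk hnc he hl (hs i)
  intro i
  rw [hm, ho, lko]
  rcases z4 i with rfl | rfl | rfl | rfl
  · rw [h0, if_pos rfl, FoldSet.mu0 he, ← h1]
    exact ⟨rfl, rfl⟩
  · rw [h1, if_neg (hG.ne1 _), if_pos rfl, hG.foldSet.mu1 he, ← h0]
    exact ⟨rfl, rfl⟩
  · rw [h2, if_neg (hG.ne2 _), if_neg (hG.ne1 _), hG.foldSet.mu2 he h4, ← nx_four' h4, ← h3,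
      if_neg (by rw [← h2]; exact fun h => absurd (hα.inj h) (by decide)), kom,
      dif_neg (not_not.2 (FoldSet.r2 he h4))]
    exact ⟨rfl, rfl⟩
  · rw [h3, if_neg (hG.ns1 _), if_neg (hG.ns2 _), if_pos rfl, nx_four' h4, hG.foldSet.mu3 he h4,
      ← h2]
    exact ⟨rfl, rfl⟩

/-- the kept darts of a hexagon -/
theorem st_kept {e : D} (he : FS M A δ e) {α : ZMod 6 → D} (hα : M.SiteNum 6 α)
    (h0 : α 0 = e) {i : ZMod 6} (hi0 : i ≠ 0) (hi1 : i ≠ 1) : ¬ FR M (FS M A δ) (α i) := by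
  have := hnc
  obtain ⟨h1, -, -⟩ := num6 hα h0
  have h4 : M.deg e = 6 := by rw [← h0]; exact hα.deg 0
  refine hG.foldSet.stay he (by omega) (by rw [← h0]; exact hα.same (by decide) 0 i) ?_ ?_
  · rw [← h0]
    exact fun h => hi0 (hα.inj h)
  · rw [← h1]
    exact fun h => hi1 (hα.inj h)

/-- the state of a link hexagon -/
theorem st_lh {e : D} (he : FS M A δ e) (hl : ∀ k, e ≠ δ k) {α : ZMod 6 → D}
    (hα : M.SiteNum 6 α) (h0 : α 0 = e) {b : ZMod 4 → {d // ¬ FR M (FS M A δ) d}}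
    (hb : ∀ j, (b j).1 = α (l6 j)) {t : PState 4} (ht : HasState μ' ω' b t) :
    HasState (hG.lmu μ' a) (lom ω' r r' p q) α (lh p q t) := by
  obtain ⟨h1, h5, -⟩ := num6 hα h0
  have hs : ∀ i, M.SameSite e (α i) := fun i => by rw [← h0]; exact hα.same (by decide) 0 i
  have hm : ∀ i, hG.lmu μ' a (α i) = kmu μ' (α i) := fun i =>
    hG.lmu_of (hG.link_not hnc he hl (hs i))
  have ho : ∀ i, lom ω' r r' p q (α i) = lko ω' p q e (α i) := fun i => hG.lom_lk hnc he hl (hs i)
  have hk : ∀ j, kmu μ' (α (l6 j)) = α (l6 (t.m j)) ∧ kom ω' (α (l6 j)) = t.u j := by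
    intro j
    have h2 := hG.st_kept hnc he hα h0 (l6_ne j).1 (l6_ne j).2
    have h3 : (⟨α (l6 j), h2⟩ : {d // ¬ FR M (FS M A δ) d}) = b j := Subtype.ext (hb j).symm
    rw [kmu, kom, dif_pos h2, dif_pos h2, h3, (ht j).1, (ht j).2, hb]
    exact ⟨rfl, rfl⟩
  have hne : ∀ {i j : ZMod 6}, i ≠ j → α i ≠ α j := fun hij h => hij (hα.inj h)
  intro i
  rw [hm, ho]
  by_cases hi0 : i = 0
  · subst hi0
    rw [kmu, lko, if_pos h0, dif_neg (not_not.2 (by rw [h0]; exact FoldSet.r0 he)), h0,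
      FoldSet.mu0 he, ← h1]
    exact ⟨rfl, rfl⟩
  · by_cases hi1 : i = 1
    · subst hi1
      rw [kmu, lko, if_neg (by rw [← h0]; exact hne (by decide)), if_pos h1,
        dif_neg (not_not.2 (by rw [h1]; exact FoldSet.r1 he)), h1, hG.foldSet.mu1 he, ← h0]
      exact ⟨rfl, rfl⟩
    · have h2 : l6 (c4 i) = i := l6_c4 hi0 hi1
      have h3 := hk (c4 i)
      rw [h2] at h3
      have h6 : (lh p q t).m i = l6 (t.m (c4 i)) := by
        show (if i = 0 then 1 else if i = 1 then 0 else l6 (t.m (c4 i))) = _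
        rw [if_neg hi0, if_neg hi1]
      rw [h3.1, h6, lko, if_neg (by rw [← h0]; exact hne hi0), if_neg (by rw [← h1]; exact hne hi1)]
      refine ⟨rfl, ?_⟩
      by_cases hi5 : i = 5
      · subst hi5
        rw [if_pos h5]
        rfl
      · rw [if_neg (by rw [← h5]; exact hne hi5), h3.2]
        have h7 : i = 2 ∨ i = 3 ∨ i = 4 := by
          clear h2 h3 h6
          revert i
          decide
        rcases h7 with rfl | rfl | rfl <;> rfl

/-- the state of a quad at a ring edge -/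
theorem st_sq {k : ZMod 6} {α : ZMod 4 → D} (hα : M.SiteNum 4 α) (h0 : α 0 = δ k) :
    HasState (hG.lmu μ' a) (lom ω' r r' p q) α (sq (a k) (r k) (r' k) p q) := by
  obtain ⟨h1, h2, h3⟩ := num4 hα h0
  have h4 : M.deg (δ k) = 4 := by rw [← h0]; exact hα.deg 0
  have hs : ∀ i, M.SameSite (δ k) (α i) := fun i => by rw [← h0]; exact hα.same (by decide) 0 i
  have hX : pX hG μ' k = α 2 := by rw [h2]; exact if_pos h4
  have hn : M.nx.symm (M.nx.symm (δ k)) = α 2 := by
    rw [← h3, Equiv.symm_apply_eq, hα.nx]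
    rfl
  have hne : ∀ {i j : ZMod 4}, i ≠ j → α i ≠ α j := fun hij h => hij (hα.inj h)
  intro i
  rw [hG.lmu_sp hnc (hs i), hG.lom_sp hnc (hs i), spm, spo, hX, hn, ← h1, ← h3, ← h0]
  have h4' : M.deg (α 0) = 4 := by rw [h0]; exact h4
  have fin : ∀ {x y : D} {i u v : ZMod 4}, x = α u → y = α v →
      (sq (a k) (r k) (r' k) p q).m i = (if a k = true then u else v) →
      (if a k = true then x else y) = α ((sq (a k) (r k) (r' k) p q).m i) := by
    intro x y i u v hx hy hm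
    rw [hm, hx, hy]
    by_cases ha : a k = true
    · rw [if_pos ha, if_pos ha]
    · rw [if_neg ha, if_neg ha]
  rcases z4 i with rfl | rfl | rfl | rfl
  · refine ⟨?_, ?_⟩
    · rw [if_pos rfl]
      exact fin rfl rfl rfl
    · rw [if_pos rfl]
      rfl
  · refine ⟨?_, ?_⟩
    · rw [if_neg (hne (by decide)), if_pos rfl]
      exact fin rfl rfl rfl
    · rw [if_neg (hne (by decide)), if_pos rfl, if_pos h4']
      rfl
  · refine ⟨?_, ?_⟩
    · rw [if_neg (hne (by decide)), if_neg (hne (by decide)), if_neg (hne (by decide)), if_pos rfl]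
      exact fin rfl rfl rfl
    · rw [if_neg (hne (by decide)), if_neg (hne (by decide)), if_neg (hne (by decide)), if_pos rfl,
        if_pos h4']
      rfl
  · refine ⟨?_, ?_⟩
    · rw [if_neg (hne (by decide)), if_neg (hne (by decide)), if_pos rfl]
      exact fin rfl rfl rfl
    · rw [if_neg (hne (by decide)), if_neg (hne (by decide)), if_pos rfl]
      rfl

/-- the state of a hexagon at a ring edge -/
theorem st_sh {k : ZMod 6} {α : ZMod 6 → D} (hα : M.SiteNum 6 α) (h0 : α 0 = δ k)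
    {b : ZMod 4 → {d // ¬ FR M (FS M A δ) d}} (hb : ∀ j, (b j).1 = α (l6 j)) {t : PState 4}
    (ht : HasState μ' ω' b t) (hinv : ∀ j, t.m (t.m j) = j) (hfix : t.m 3 ≠ 3) :
    HasState (hG.lmu μ' a) (lom ω' r r' p q) α (sh (a k) (r k) p q t) := by
  obtain ⟨h1, h5, h4⟩ := num6 hα h0
  have hdg : M.deg (δ k) ≠ 4 := by
    rw [← h0, hα.deg 0]
    decide
  have hs : ∀ i, M.SameSite (δ k) (α i) := fun i => by rw [← h0]; exact hα.same (by decide) 0 i
  have hne : ∀ {i j : ZMod 6}, i ≠ j → α i ≠ α j := fun hij h => hij (hα.inj h)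
  have hk : ∀ j, kmu μ' (α (l6 j)) = α (l6 (t.m j)) ∧ kom ω' (α (l6 j)) = t.u j := by
    intro j
    have h2 := hG.st_kept hnc (hG.fs_δ hnc k) hα h0 (l6_ne j).1 (l6_ne j).2
    have h3 : (⟨α (l6 j), h2⟩ : {d // ¬ FR M (FS M A δ) d}) = b j := Subtype.ext (hb j).symm
    rw [kmu, kom, dif_pos h2, dif_pos h2, h3, (ht j).1, (ht j).2, hb]
    exact ⟨rfl, rfl⟩
  have hX : pX hG μ' k = α (l6 (t.m 3)) := by
    have h2 : hG.hdr k = b 3 := by
      apply Subtype.ext
      rw [hb]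
      show hd M δ k = _
      rw [DMap.hd, if_neg hdg, ← h5]
      rfl
    rw [pX, if_neg hdg, h2, (ht 3).1, hb]
  intro i
  rw [hG.lmu_sp hnc (hs i), hG.lom_sp hnc (hs i), spm, spo, hX, ← h4, ← h5, ← h1, ← h0]
  have hd' : M.deg (α 0) ≠ 4 := by rw [h0]; exact hdg
  have hxl := l6_ne (t.m 3)
  have hx5 : l6 (t.m 3) ≠ 5 := fun h => hfix (l6_five.1 h)
  by_cases hi0 : i = 0
  · subst hi0
    rw [if_pos rfl, if_pos rfl]
    refine ⟨?_, rfl⟩
    by_cases ha : a k = true
    · rw [if_pos ha]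
      show _ = α (if a k = true then _ else _)
      rw [if_pos ha]
      rfl
    · rw [if_neg ha]
      show _ = α (if a k = true then _ else _)
      rw [if_neg ha]
      rfl
  rw [if_neg (hne hi0), if_neg (hne hi0)]
  by_cases hi1 : i = 1
  · subst hi1
    rw [if_pos rfl, if_pos rfl, if_neg hd']
    refine ⟨?_, rfl⟩
    by_cases ha : a k = true
    · rw [if_pos ha]
      show _ = α (if a k = true then _ else _)
      rw [if_pos ha]
      rfl
    · rw [if_neg ha]
      show _ = α (if a k = true then _ else _)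
      rw [if_neg ha]
      rfl
  rw [if_neg (hne hi1), if_neg (hne hi1)]
  by_cases hi5 : i = 5
  · subst hi5
    rw [if_pos rfl, if_pos rfl]
    refine ⟨?_, rfl⟩
    by_cases ha : a k = true
    · rw [if_pos ha]
      show _ = α (if a k = true then _ else _)
      rw [if_pos ha]
      rfl
    · rw [if_neg ha]
      show _ = α (if a k = true then _ else _)
      rw [if_neg ha]
      rfl
  rw [if_neg (hne hi5), if_neg (hne hi5)]
  have h2 : l6 (c4 i) = i := l6_c4 hi0 hi1
  have h3 := hk (c4 i)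
  rw [h2] at h3
  have hu : (if α i = α 4 then if M.deg (α 0) = 4 then q - (1 - r' k) else q else kom ω' (α i)) =
      (sh (a k) (r k) p q t).u i := by
    by_cases hi4 : i = 4
    · subst hi4
      rw [if_pos rfl, if_neg hd']
      rfl
    · rw [if_neg (hne hi4), h3.2]
      have h7 : i = 2 ∨ i = 3 := by
        clear h2 h3
        revert i
        decide
      rcases h7 with rfl | rfl <;> rfl
  refine ⟨?_, hu⟩
  have hx : α i = α (l6 (t.m 3)) ↔ t.m (c4 i) = 3 := by
    constructor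
    · intro h
      have h6 := hα.inj h
      rw [h6, c4_l6, hinv]
    · intro h
      rw [← h, hinv, h2]
  by_cases ha : a k = true
  · have hm : (sh (a k) (r k) p q t).m i = l6 (t.m (c4 i)) := by
      show (if a k = true then (if i = 0 then 1 else if i = 1 then 0 else l6 (t.m (c4 i))) else _) = _
      rw [if_pos ha, if_neg hi0, if_neg hi1]
    rw [hm]
    by_cases h6 : t.m (c4 i) = 3
    · rw [if_pos (hx.2 h6), if_pos ha, h6]
      rfl
    · rw [if_neg fun h => h6 (hx.1 h), h3.1]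
  · have hm : (sh (a k) (r k) p q t).m i = if t.m (c4 i) = 3 then 1 else l6 (t.m (c4 i)) := by
      show (if a k = true then _ else (if i = 0 then 5 else if i = 5 then 0 else
        if i = 1 then l6 (t.m 3) else if t.m (c4 i) = 3 then 1 else l6 (t.m (c4 i)))) = _
      rw [if_neg ha, if_neg hi0, if_neg hi5, if_neg hi1]
    rw [hm]
    by_cases h6 : t.m (c4 i) = 3
    · rw [if_pos (hx.2 h6), if_neg ha, if_pos h6]
    · rw [if_neg fun h => h6 (hx.1 h), if_neg h6, h3.1]

end lemmas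

end Gen

namespace GenT

open Gen

variable [Fintype D] (hG : M.GenT A δ)

section excl

include hG

/-- a quad at the ring has at most one common edge with another site -/
theorem one_edge {e s x y : D} (he : FS M A δ e) (h4 : M.deg e = 4) (hsA : A s)
    (hx : M.SameSite e x) (hy : M.SameSite e y) (hx' : M.SameSite s (M.al x))
    (hy' : M.SameSite s (M.al y)) : x = y := by
  by_contra hxy
  have hne : ¬ M.SameSite e s := fun h => hG.nl x ((hx.symm.trans h).trans hx')
  have hk : 1 < (Finset.univ.filter fun x => M.SameSite e x ∧ M.SameSite s (M.al x)).card := by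
    rw [Finset.one_lt_card]
    exact ⟨x, Finset.mem_filter.2 ⟨Finset.mem_univ _, hx, hx'⟩, y,
      Finset.mem_filter.2 ⟨Finset.mem_univ _, hy, hy'⟩, hxy⟩
  have h5 := hG.share he.1 hsA hne
  have h6 := cut_two hG.legal hne
  have hds : M.deg s = 6 := by
    rcases hG.deg46 s with h | h <;> omega
  have hC : M.Sites fun x => M.SameSite e x ∨ M.SameSite s x :=
    (M.sites_site e).or (M.sites_site s)
  have hCA : ∀ x, M.SameSite e x ∨ M.SameSite s x → A x := by
    rintro x (h | h)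
    · exact (hG.toPatch.sites.same h).1 he.1
    · exact (hG.toPatch.sites.same h).1 hsA
  have hcut : M.cut (fun x => M.SameSite e x ∨ M.SameSite s x) = 6 := by
    have h7 := hG.legal.cut_even hC
    have h8 := hG.ge4 hC hCA ⟨e, Or.inl (Equiv.Perm.SameCycle.refl _ _)⟩
    omega
  by_cases hex : ∃ d, A d ∧ ¬ (M.SameSite e d ∨ M.SameSite s d)
  · rcases hG.triv _ hC hCA ⟨e, Or.inl (Equiv.Perm.SameCycle.refl _ _)⟩ hex hcut
      ⟨e, Or.inl (Equiv.Perm.SameCycle.refl _ _), he.2.1⟩ with ⟨z, hz⟩ | ⟨a, b, ha, hb, hz⟩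
    · have k1 := (hz e).1 (Or.inl (Equiv.Perm.SameCycle.refl _ _))
      have k2 := (hz s).1 (Or.inr (Equiv.Perm.SameCycle.refl _ _))
      exact hne (k1.symm.trans k2)
    · rcases (hz s).1 (Or.inr (Equiv.Perm.SameCycle.refl _ _)) with k | k
      · have := deg_same k
        omega
      · have := deg_same k
        omega
  · push Not at hex
    have hA' : ∀ x, (A x ∧ ¬ M.SameSite s x) ↔ M.SameSite e x := by
      intro x
      constructor
      · rintro ⟨h7, h8⟩
        exact (hex x h7).resolve_right h8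
      · intro h7
        exact ⟨hCA x (Or.inl h7), fun h8 => hne (h7.trans h8.symm)⟩
    have hsc : scut δ (M.SameSite e) ≤ 1 := hG.scut_quad1 h4 fun _ => Iff.rfl
    have c1 := hG.toPatch.cut_eq (B := M.SameSite e) fun d hd => hCA d (Or.inl hd)
    have c2 := hG.toPatch.cut_eq (B := M.SameSite s) fun d hd => hCA d (Or.inr hd)
    rw [hG.legal.cut_site, h4] at c1
    rw [hG.legal.cut_site, hds] at c2
    have c3 := hG.toPatch.scut_compl (M.SameSite s)
    have c4 := rcut_compl (M := M) (A := A) (M.SameSite s)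
    have c5 : (fun d => A d ∧ ¬ M.SameSite s d) = M.SameSite e := funext fun x =>
      propext (hA' x)
    rw [c5] at c3 c4
    omega

theorem excl1 {e : D} (he : FS M A δ e) (hl : ∀ k, e ≠ δ k) (k : ZMod 6) :
    M.nx.symm e ≠ hd M δ k := by
  intro h
  by_cases h4 : M.deg (δ k) = 4
  · have hh : hd M δ k = M.al (M.nx (M.nx (δ k))) := if_pos h4
    have hk := hG.fs_quad h4
    obtain ⟨i, hi⟩ := he.2.1
    have h1 : Cls M A δ i (hd M δ k) := by
      rw [← h]
      exact hG.cls_nx_symm he.1 hi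
    have hik := hG.cls_disj h1 (hG.cls_hd k)
    subst hik
    rcases hG.asec he.1 hi with h2 | h2
    · exact hl i h2
    · have h3 : M.SameNode (M.nx (M.fs e)) (M.nx (δ i)) := by
        rw [nx_fs]
        refine (nx_symm_node e).trans ?_
        rw [h, hh]
        exact al_node _
      have h5 := hG.chain h2 hk h3
      have h6 : M.al e = M.nx (δ i) := by rw [← nx_fs, h5]
      have h7 := hG.one_edge (s := e) (x := M.nx (δ i)) (y := M.nx (M.nx (δ i))) hk h4 he.1
        (site_nx _) ((site_nx _).trans (site_nx _))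
        (by rw [← h6, M.inv])
        (by rw [← hh, ← h]; exact site_nx_symm e)
      exact hG.ne1 _ h7.symm
  · have hh : hd M δ k = M.nx.symm (δ k) := if_neg h4
    rw [hh] at h
    exact hl k (M.nx.symm.injective h)

theorem excl2 (hnc : ∀ i, M.nx (δ i) ≠ δ (i + 1)) {e : D} (he : FS M A δ e) (k : ZMod 6) :
    M.nx (M.nx e) ≠ hd M δ k := by
  intro h
  by_cases h4 : M.deg (δ k) = 4
  · have hh : hd M δ k = M.al (M.nx (M.nx (δ k))) := if_pos h4
    have hk := hG.fs_quad h4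
    obtain ⟨i, hi⟩ := he.2.1
    obtain ⟨j, rfl⟩ : ∃ j, k = j + 1 := ⟨k - 1, (sub_add_cancel _ _).symm⟩
    set g := M.nx.symm (δ (j + 1)) with hg
    have hgA : A g := hG.toPatch.prev_in _
    have hgn : M.SameNode (δ j) g := hG.toPatch.prev_node j
    have e1 : M.nx.symm g = M.nx (M.nx (δ (j + 1))) := by
      rw [hg, Equiv.symm_apply_eq, nx_four' h4]
    have n1 : M.SameNode (M.nx e) (M.nx.symm g) := by
      have := al_node (M := M) (M.nx e)
      rw [h, hh, M.inv, ← e1] at this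
      exact this.symm
    have hij := hG.cls_disj ((hG.cls_nx he hi).same n1) (hG.cls_nx_symm hgA hgn)
    subst hij
    rcases hG.asec hgA hgn with h2 | h2
    · exact hnc i (by rw [← h2, hg, Equiv.apply_symm_apply])
    · have h3 : M.SameNode (M.nx (M.fs g)) (M.nx e) := by
        rw [nx_fs]
        exact (nx_symm_node g).trans n1.symm
      have h5 := hG.chain h2 he h3
      have h6 : M.al g = M.nx e := by rw [← nx_fs, h5]
      have h7 := hG.one_edge (s := e) (x := M.nx (M.nx (δ (i + 1)))) (y := g) hk h4 he.1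
        ((site_nx _).trans (site_nx _)) (site_nx_symm _)
        (by rw [← hh, ← h]; exact (site_nx _).trans (site_nx _))
        (by rw [h6]; exact site_nx _)
      exact hG.ns1 g (e1.trans h7)
  · have hh : hd M δ k = M.nx.symm (δ k) := if_neg h4
    exact hG.fs2 he (by rw [h, hh]; exact hG.toPatch.ring_prev k)

end excl

end GenT

namespace Gen

variable [Fintype D] (hG : M.Gen A δ)

section main

variable {o : D → Bool} (ho : ∀ d, o (M.nx d) = !o d) (ho' : ∀ d, o (M.al d) = !o d)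

/-- the local states of the lift -/
structure LiftLoc (L' : LS {d // ¬ FR M (FS M A δ) d}) (L : LS D) (a : ZMod 6 → Bool)
    (r r' : ZMod 6 → ℕ) (p q : ℕ) : Prop where
  inner : ∀ (n : ℕ) (γ : ZMod n → {d // ¬ FR M (FS M A δ) d}) (t : PState n), n ≠ 0 →
    (hG.hat ho ho').SiteNum n γ → (∀ i, A (γ i).1) →
    (∀ i e, FS M A δ e → ¬ M.SameSite e (γ i).1) → L' n γ t → L n (fun i => (γ i).1) t
  lq : ∀ (e : D) (α : ZMod 4 → D), FS M A δ e → (∀ k, e ≠ δ k) → M.SiteNum 4 α → α 0 = e →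
    L 4 α (lq p q)
  lh : ∀ (e : D) (α : ZMod 6 → D) (b : ZMod 4 → {d // ¬ FR M (FS M A δ) d}) (t : PState 4),
    FS M A δ e → (∀ k, e ≠ δ k) → M.SiteNum 6 α → α 0 = e → (∀ j, (b j).1 = α (l6 j)) →
    (hG.hat ho ho').SiteNum 4 b → L' 4 b t → t.u 3 = 0 → L 6 α (lh p q t)
  sq : ∀ (k : ZMod 6) (α : ZMod 4 → D), M.SiteNum 4 α → α 0 = δ k →
    L 4 α (sq (a k) (r k) (r' k) p q)
  sh : ∀ (k : ZMod 6) (α : ZMod 6 → D) (b : ZMod 4 → {d // ¬ FR M (FS M A δ) d}) (t : PState 4),
    M.SiteNum 6 α → α 0 = δ k → (∀ j, (b j).1 = α (l6 j)) →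
    (hG.hat ho ho').SiteNum 4 b → L' 4 b t → t.u 3 = r' k → t.u 2 + r' k = 1 →
    L 6 α (sh (a k) (r k) p q t)

/-- the ring of the folded map is exact -/
structure HatExact (ω' : {d // ¬ FR M (FS M A δ) d} → ℕ) (r' : ZMod 6 → ℕ) : Prop where
  x1 : ∀ k, ω' (hG.hdr k) = r' k
  x2 : ∀ k, ω' ((hG.hat ho ho').nx.symm (hG.hdr k)) + r' k = 1
  x3 : ∀ k y, (hG.hat ho ho').SameNode (hG.hdr k) y → A y.1 → y ≠ hG.hdr k →
    y ≠ (hG.hat ho ho').nx.symm (hG.hdr (k + 1)) → ω' y = 0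

variable {ho ho'} {L' : LS {d // ¬ FR M (FS M A δ) d}} {L : LS D} {s s' : PState 6}
  {μ' : {d // ¬ FR M (FS M A δ) d} → {d // ¬ FR M (FS M A δ) d}}
  {ω' : {d // ¬ FR M (FS M A δ) d} → ℕ} {a : ZMod 6 → Bool} {r r' : ZMod 6 → ℕ} {p q : ℕ}

omit hG [Fintype D] in
theorem exists_num' [Finite D] {e : D} {n : ℕ} (h : M.deg e = n) :
    ∃ α : ZMod n → D, M.SiteNum n α ∧ α 0 = e ∧ n ≠ 0 := by
  subst h
  exact M.exists_siteNum e

/-- the numbering of a folded hexagon -/
theorem hat_num (hnc : ∀ i, M.nx (δ i) ≠ δ (i + 1)) {e : D} (he : FS M A δ e)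
    (h6 : M.deg e = 6) :
    ∃ (α : ZMod 6 → D) (b : ZMod 4 → {d // ¬ FR M (FS M A δ) d}), M.SiteNum 6 α ∧ α 0 = e ∧
      (∀ j, (b j).1 = α (l6 j)) ∧ (hG.hat ho ho').SiteNum 4 b := by
  obtain ⟨α, hα, h0, -⟩ := exists_num' h6
  refine ⟨α, fun j => ⟨α (l6 j), hG.st_kept hnc he hα h0 (l6_ne j).1 (l6_ne j).2⟩, hα, h0,
    fun j => rfl, fun i j hij => l6_inj (hα.inj (congrArg Subtype.val hij)), fun j => ?_⟩
  by_cases h3 : j = 3
  · subst h3
    have e1 : M.nx (α (l6 3)) = e := by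
      rw [hα.nx, ← h0]
      rfl
    have e2 : M.nx (M.nx (M.nx (α (l6 3)))) = α (l6 (3 + 1)) := by
      rw [hα.nx, hα.nx, hα.nx]
      rfl
    rw [fmap_nx_fold hG.foldSet ho ho' (d := ⟨α (l6 3), _⟩) (by rw [e1]; exact he)
      (by rw [e2]; exact hG.st_kept hnc he hα h0 (l6_ne _).1 (l6_ne _).2)]
    exact Subtype.ext e2
  · have e1 : M.nx (α (l6 j)) = α (l6 (j + 1)) := by
      rw [hα.nx]
      congr 1
      revert j
      decide
    rw [fmap_nx_of hG.foldSet ho ho' (d := ⟨α (l6 j), _⟩)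
      (by rw [e1]; exact hG.st_kept hnc he hα h0 (l6_ne _).1 (l6_ne _).2)]
    exact Subtype.ext e1

/-- the state of the folded map at a numbering -/
theorem hat_state (hR : (hG.hat ho ho').RealL L' (fun y => A y.1) hG.hdr s' μ' ω')
    (hrot : ∀ (n : ℕ) (γ : ZMod n → {d // ¬ FR M (FS M A δ) d}) (t : PState n) (c : ZMod n),
      (hG.hat ho ho').SiteNum n γ → A (γ 0).1 → L' n γ t → L' n (fun i => γ (i + c)) (t.rot c))
    {b : ZMod 4 → {d // ¬ FR M (FS M A δ) d}} (hb : (hG.hat ho ho').SiteNum 4 b)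
    (hbA : A (b 0).1) : ∃ t, L' 4 b t ∧ HasState μ' ω' b t := by
  obtain ⟨n, γ, t, hn, hγ, ⟨i, hi⟩, ht, hst⟩ := hR.loc (b 0) hbA
  have h1 : n = 4 := by
    have e1 := hγ.deg i
    have e2 := hb.deg 0
    rw [hi] at e1
    omega
  subst h1
  have hs : (hG.hat ho ho').SameSite (γ 0) (b 0) := by
    rw [← hi]
    exact hγ.same hn 0 i
  have hA0 : A (γ 0).1 :=
    (hG.toPatch.sites.same ((fmap_sameSite hG.foldSet ho ho' _ _).1 hs)).2 hbA
  obtain ⟨c, hc⟩ := hγ.eq_rot hb hn hs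
  have hbc : b = fun i => γ (i + c) := funext hc
  refine ⟨t.rot c, ?_, fun i => ?_⟩
  · rw [hbc]
    exact hrot 4 γ t c hγ hA0 ht
  · rw [hbc]
    show μ' (γ (i + c)) = γ (t.m (i + c) - c + c) ∧ ω' (γ (i + c)) = t.u (i + c)
    rw [sub_add_cancel]
    exact hst (i + c)

end main

end Gen

namespace GenT

open Gen

variable [Fintype D] (hG : M.GenT A δ) {o : D → Bool} {ho : ∀ d, o (M.nx d) = !o d}
  {ho' : ∀ d, o (M.al d) = !o d}
  {L' : LS {d // ¬ FR M (FS M A δ) d}} {L : LS D} {s s' : PState 6}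
  {μ' : {d // ¬ FR M (FS M A δ) d} → {d // ¬ FR M (FS M A δ) d}}
  {ω' : {d // ¬ FR M (FS M A δ) d} → ℕ} {a : ZMod 6 → Bool} {r r' : ZMod 6 → ℕ} {p q : ℕ}

/-- **The state lift of the full peel.** -/
theorem lift (hnc : ∀ i, M.nx (δ i) ≠ δ (i + 1))
    (hnh : ∀ k, (hG.hat ho ho').nx (hG.hdr k) ≠ hG.hdr (k + 1))
    (hR : (hG.hat ho ho').RealL L' (fun y => A y.1) hG.hdr s' μ' ω')
    (hX : hG.HatExact ho ho' ω' r')
    (hrot : ∀ (n : ℕ) (γ : ZMod n → {d // ¬ FR M (FS M A δ) d}) (t : PState n) (c : ZMod n),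
      (hG.hat ho ho').SiteNum n γ → A (γ 0).1 → L' n γ t → L' n (fun i => γ (i + c)) (t.rot c))
    (hm : ∀ (n : ℕ) (γ : ZMod n → {d // ¬ FR M (FS M A δ) d}) (t : PState n),
      L' n γ t → ∀ i, t.m (t.m i) = i ∧ t.m i ≠ i)
    (hL : hG.LiftLoc ho ho' L' L a r r' p q) (hpq : p + q = 3) (hp : 1 ≤ p) (hq : 1 ≤ q)
    (hr : ∀ k, r k ≤ 1) (hr' : ∀ k, r' k ≤ 1) (hs : ∀ k, s.u k + r (k + 1) = r k + 1)
    (hport : ∀ k, Relation.EqvGen (PStep a s'.m) (0, k) (0, s.m k))
    (hall : ∀ x, ∃ k, Relation.EqvGen (PStep a s'.m) x (0, k)) :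
    ∃ μ ω, M.RealL L A δ s μ ω := by
  -- the pairing of the folded map
  have hloc : ∀ y : {d // ¬ FR M (FS M A δ) d}, A y.1 → μ' (μ' y) = y ∧ μ' y ≠ y ∧
      M.SameSite y.1 (μ' y).1 := by
    intro y hy
    obtain ⟨n, γ, t, hn, hγ, ⟨i, hi⟩, ht, hst⟩ := hR.loc y hy
    have h1 : μ' y = γ (t.m i) := by rw [← hi]; exact (hst i).1
    have h2 := hm n γ t ht i
    refine ⟨?_, ?_, ?_⟩
    · rw [h1, (hst _).1, h2.1, hi]
    · rw [h1, ← hi]
      exact fun h => h2.2 (hγ.inj h)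
    · rw [h1, ← hi]
      exact (fmap_sameSite hG.foldSet ho ho' _ _).1 (hγ.same hn _ _)
  have hμ := hG.liftMu (a := a) hnc (fun y hy => (hloc y hy).1) (fun y hy => (hloc y hy).2.1)
    (fun y hy => (hloc y hy).2.2)
  have hhex : ∀ {e : D}, FS M A δ e → M.deg e = 6 →
      ∃ (α : ZMod 6 → D) (b : ZMod 4 → {d // ¬ FR M (FS M A δ) d}) (t : PState 4),
      M.SiteNum 6 α ∧ α 0 = e ∧ (∀ j, (b j).1 = α (l6 j)) ∧ (hG.hat ho ho').SiteNum 4 b ∧
      L' 4 b t ∧ HasState μ' ω' b t := by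
    intro e he h6
    obtain ⟨α, b, h1, h2, h3, h4⟩ := hG.hat_num (ho := ho) (ho' := ho') hnc he h6
    have h5 : A (b 0).1 := by
      rw [h3]
      exact (hG.toPatch.sites.same (h1.same (by decide) 0 _)).1 (by rw [h2]; exact he.1)
    obtain ⟨t, h6, h7⟩ := hG.hat_state hR hrot h4 h5
    exact ⟨α, b, t, h1, h2, h3, h4, h6, h7⟩
  -- the units
  have hU := hG.lift_units ho ho' hnc hnh (ω := lom ω' r r' p q) hpq hX.x1 hX.x2 hX.x3 hR.inner
    (fun k => by
      rw [hG.lom_sp hnc (Equiv.Perm.SameCycle.refl _ _), spo, if_pos rfl])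
    (fun k => by
      rw [hG.lom_sp hnc (site_nx_symm _), spo, if_neg (hG.ns1 _), if_neg (hG.ns2 _), if_pos rfl]
      have := hr k
      omega)
    (fun e he hl => by
      rw [hG.lom_lk hnc he hl (Equiv.Perm.SameCycle.refl _ _), lko, if_pos rfl])
    (fun e he hl => by
      rw [hG.lom_lk hnc he hl (site_nx _), lko, if_neg (hG.ne1 _), if_pos rfl])
    (fun k h4 => by
      rw [hG.lom_sp hnc (site_nx _), spo, if_neg (hG.ne1 _), if_pos rfl, if_pos h4]
      have := hr' k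
      omega)
    (fun k h4 => by
      rw [hG.lom_sp hnc (site_nx _), spo, if_neg (hG.ne1 _), if_pos rfl, if_neg h4])
    (fun e he hl => by
      rw [hG.lom_lk hnc he hl (site_nx_symm _), lko, if_neg (hG.ns1 _), if_neg (hG.ns2 _),
        if_pos rfl])
    (fun k h4 => by
      rw [hG.lom_sp hnc ((site_nx_symm _).trans (site_nx_symm _)), spo, if_neg (hG.ns3 _),
        if_neg (hG.ns4 _), if_neg (hG.ns1 _), if_pos rfl, if_pos h4]
      have := hr' k
      omega)
    (fun k h4 => by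
      rw [hG.lom_sp hnc ((site_nx_symm _).trans (site_nx_symm _)), spo, if_neg (hG.ns3 _),
        if_neg (hG.ns4 _), if_neg (hG.ns1 _), if_pos rfl, if_neg h4])
    (fun e he hl h4 => by
      rw [hG.lom_lk hnc he hl ((site_nx _).trans (site_nx _)), lko, if_neg (hG.ne2 _),
        if_neg (hG.ne1 _), if_neg (fun h => hG.ne3 e (by
          have h1 := congrArg M.nx h
          rwa [Equiv.apply_symm_apply] at h1)), kom, dif_neg (not_not.2 (FoldSet.r2 he h4))])
    (fun y hy h1 h2 => by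
      have hkm : kom ω' y.1 = ω' y := dif_pos y.2
      by_cases hsp : ∃ k, M.SameSite (δ k) y.1
      · obtain ⟨k, hk⟩ := hsp
        rw [hG.lom_sp hnc hk, spo, if_neg fun h => h1 (by rw [h]; exact ring_δ k),
          if_neg fun h => y.2 (by rw [h]; exact FoldSet.r1 (hG.fs_δ hnc k)),
          if_neg fun h => h1 (by rw [h]; exact hG.toPatch.ring_prev k),
          if_neg fun h => h2 (by
            rw [h, Equiv.apply_symm_apply]; exact hG.toPatch.ring_prev k), hkm]
      · by_cases hln : ∃ e, FS M A δ e ∧ M.SameSite e y.1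
        · obtain ⟨e, he, hed⟩ := hln
          have hl : ∀ k, e ≠ δ k := fun k hk => hsp ⟨k, by rw [← hk]; exact hed⟩
          rw [hG.lom_lk hnc he hl hed, lko, if_neg fun h => h1 (by rw [h]; exact he.2.1),
            if_neg fun h => y.2 (by rw [h]; exact FoldSet.r1 he),
            if_neg fun h => h2 (by rw [h, Equiv.apply_symm_apply]; exact he.2.1), hkm]
        · push Not at hln
          rw [hG.lom_of hnc hln, hkm])
  refine ⟨hG.lmu μ' a, lom ω' r r' p q, fun d hd => ?_, fun k => ?_, fun d hd => ?_,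
    fun k => ?_, fun d hd => ?_⟩
  · by_cases hsp : ∃ k, M.SameSite (δ k) d
    · obtain ⟨k, hk⟩ := hsp
      rcases hG.deg46 (δ k) with h4 | h6
      · obtain ⟨α, hα, h0, -⟩ := exists_num' h4
        obtain ⟨i, hi⟩ := hα.mem (i := 0) (d := d) (by rw [h0]; exact hk)
        exact ⟨4, α, _, by decide, hα, ⟨i, hi⟩, hL.sq k α hα h0, hG.st_sq hnc hα h0⟩
      · obtain ⟨α, b, t, hα, h0, hb, hbn, ht, hst⟩ := hhex (hG.fs_δ hnc k) h6
        obtain ⟨i, hi⟩ := hα.mem (i := 0) (d := d) (by rw [h0]; exact hk)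
        have hb3 : b 3 = hG.hdr k := by
          apply Subtype.ext
          rw [hb]
          show _ = DMap.hd M δ k
          rw [DMap.hd, if_neg (by omega), ← (num6 hα h0).2.1]
          rfl
        have h3 : t.u 3 = r' k := by rw [← (hst 3).2, hb3, hX.x1]
        have h2 : t.u 2 + r' k = 1 := by
          have e1 : b 2 = (hG.hat ho ho').nx.symm (hG.hdr k) := by
            rw [← hb3, Equiv.eq_symm_apply, hbn.nx]
            rfl
          rw [← (hst 2).2, e1, hX.x2]
        exact ⟨6, α, _, by decide, hα, ⟨i, hi⟩, hL.sh k α b t hα h0 hb hbn ht h3 h2,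
          hG.st_sh hnc hα h0 hb hst (fun j => (hm 4 b t ht j).1) (hm 4 b t ht 3).2⟩
    · by_cases hln : ∃ e, FS M A δ e ∧ M.SameSite e d
      · obtain ⟨e, he, hed⟩ := hln
        have hl : ∀ k, e ≠ δ k := fun k hk => hsp ⟨k, by rw [← hk]; exact hed⟩
        rcases hG.deg46 e with h4 | h6
        · obtain ⟨α, hα, h0, -⟩ := exists_num' h4
          obtain ⟨i, hi⟩ := hα.mem (i := 0) (d := d) (by rw [h0]; exact hed)
          exact ⟨4, α, _, by decide, hα, ⟨i, hi⟩, hL.lq e α he hl hα h0, hG.st_lq hnc he hl hα h0⟩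
        · obtain ⟨α, b, t, hα, h0, hb, hbn, ht, hst⟩ := hhex he h6
          obtain ⟨i, hi⟩ := hα.mem (i := 0) (d := d) (by rw [h0]; exact hed)
          have hb3 : (b 3).1 = M.nx.symm e := by
            rw [hb, ← (num6 hα h0).2.1]
            rfl
          have h3 : t.u 3 = 0 := by
            obtain ⟨j, hj⟩ := he.2.1
            rw [← (hst 3).2]
            refine hX.x3 j (b 3) ?_ ?_ ?_ ?_
            · rw [hG.hat_sameNode ho ho']
              refine Or.inr ⟨j, hG.cls_hd j, ?_⟩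
              rw [hb3]
              exact hG.cls_nx_symm he.1 hj
            · rw [hb3]
              exact (hG.toPatch.sites.same (site_nx_symm e)).1 he.1
            · intro h
              exact hG.excl1 he hl j (by rw [← hb3, h]; rfl)
            · intro h
              rw [Equiv.eq_symm_apply, hbn.nx] at h
              have h7 : (b (3 + 1)).1 = M.nx (M.nx e) := by
                rw [hb, ← (num6 hα h0).1, hα.nx]
                rfl
              exact hG.excl2 hnc he (j + 1) (by rw [← h7, h]; rfl)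
          exact ⟨6, α, _, by decide, hα, ⟨i, hi⟩, hL.lh e α b t he hl hα h0 hb hbn ht h3,
            hG.st_lh hnc he hl hα h0 hb hst⟩
      · -- a site which is not folded
        have hk : ∀ {x}, M.SameSite d x → ¬ FR M (FS M A δ) x := by
          intro x hx h
          rcases FoldSet.cases h with h1 | ⟨e, h1, rfl⟩ | ⟨e, h1, -, rfl⟩ | ⟨e, h1, -, rfl⟩
          · exact hln ⟨_, h1, hx.symm⟩
          · exact hln ⟨e, h1, (site_nx _).trans hx.symm⟩
          · exact hln ⟨e, h1, ((site_nx _).trans (site_nx _)).trans hx.symm⟩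
          · exact hln ⟨e, h1, (((site_nx _).trans (site_nx _)).trans (site_nx _)).trans hx.symm⟩
        have hdR := hk (Equiv.Perm.SameCycle.refl _ _)
        obtain ⟨n, γ, t, hn, hγ, ⟨i, hi⟩, ht, hst⟩ := hR.loc ⟨d, hdR⟩ hd
        have hγs : ∀ j, M.SameSite d (γ j).1 := by
          intro j
          have h1 := (fmap_sameSite hG.foldSet ho ho' _ _).1 (hγ.same hn i j)
          rw [hi] at h1
          exact h1
        have hγA : ∀ j, A (γ j).1 := fun j => (hG.toPatch.sites.same (hγs j)).1 hd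
        have hno : ∀ j e, FS M A δ e → ¬ M.SameSite e (γ j).1 := fun j e he h =>
          hln ⟨e, he, h.trans (hγs j).symm⟩
        refine ⟨n, fun j => (γ j).1, t, hn, ⟨fun x y hxy => hγ.inj (Subtype.ext hxy), fun j => ?_⟩,
          ⟨i, congrArg Subtype.val hi⟩, hL.inner n γ t hn hγ hγA hno ht, fun j => ?_⟩
        · have h1 := hγ.nx j
          rw [fmap_nx_of hG.foldSet ho ho' (hk ((hγs j).trans (site_nx _)))] at h1
          exact congrArg Subtype.val h1
        · have h1 : ¬ ∃ k, M.SameSite (δ k) (γ j).1 := fun ⟨k, h2⟩ =>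
            hno j _ (hG.fs_δ hnc k) h2
          rw [hG.lmu_of h1, hG.lom_of hnc (hno j), kmu, kom, dif_pos (γ j).2, dif_pos (γ j).2]
          have h2 := hst j
          exact ⟨congrArg Subtype.val h2.1, h2.2⟩
  · have h1 := hμ.ports ho ho' hnc hR.str (hport k)
    simpa [port] using h1
  · obtain ⟨x, hx⟩ := hμ.all ho ho' hnc hR.all d hd
    obtain ⟨k, hk⟩ := hall x
    have h1 := hμ.ports ho ho' hnc hR.str hk
    refine ⟨k, hx.trans ?_⟩
    simpa [port] using h1
  · have h1 := hU.1 k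
    have h2 := hs k
    omega
  · exact hU.2 d hd

end GenT

end DMap

end GT33
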