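import Pool.Agent.GT33.DHatP

/-!
# GT33 module DLIFTS: strands of the lifted state

`Gen.LiftMu`: the pairing `μ` of a generic patch is a lift of the pairing `μ'` of the folded map.  `Gen.lift_str`: the
strands of `μ` in terms of the ports `(0, k)` (ring edge `k`), `(1, k)` (the strand around the ring node
`k`), `(2, k)` (the strand of `μ'` which ends at the ring edge `k` of the folded map).
-/

open Classical

namespace GT33

/-- the connections of the ports; `a k`: the site of the ring edge `k` joins the ring edge and the strand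
around the ring node `k` -/
def PStep (a : ZMod 6 → Bool) (m' : ZMod 6 → ZMod 6) (x y : Fin 3 × ZMod 6) : Prop :=
  ∃ k, (a k = true ∧ ((x = (0, k) ∧ y = (1, k)) ∨ (x = (2, k) ∧ y = (1, k - 1)))) ∨
    (a k = false ∧ ((x = (0, k) ∧ y = (1, k - 1)) ∨ (x = (2, k) ∧ y = (1, k)))) ∨
    (x = (2, k) ∧ y = (2, m' k))

namespace DMap

variable {D : Type} {M : DMap D} {A : D → Prop} {δ : ZMod 6 → D}

open Patch

namespace Str

theorem mu {μ : D → D} {x : D} (hx : A x) : M.Str A μ x (μ x) :=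
  Relation.EqvGen.rel _ _ ⟨hx, Or.inl rfl⟩

theorem al {μ : D → D} {x : D} (hx : A x) (hy : A (M.al x)) : M.Str A μ x (M.al x) :=
  Relation.EqvGen.rel _ _ ⟨hx, Or.inr ⟨rfl, hy⟩⟩

theorem refl {μ : D → D} (x : D) : M.Str A μ x x := Relation.EqvGen.refl _

theorem symm {μ : D → D} {x y : D} (h : M.Str A μ x y) : M.Str A μ y x :=
  Relation.EqvGen.symm _ _ h

theorem trans {μ : D → D} {x y z : D} (h : M.Str A μ x y) (h' : M.Str A μ y z) :
    M.Str A μ x z := Relation.EqvGen.trans _ _ _ h h'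

end Str

namespace Gen

variable [Fintype D] (hG : M.Gen A δ)

/-- the pairing `μ` is a lift of `μ'` -/
structure LiftMu (μ' : {d // ¬ FR M (FS M A δ) d} → {d // ¬ FR M (FS M A δ) d}) (μ : D → D)
    (X : ZMod 6 → D) (a : ZMod 6 → Bool) : Prop where
  inv' : ∀ y, A y.1 → μ' (μ' y) = y
  link : ∀ e, FS M A δ e → (∀ k, e ≠ δ k) → μ e = M.nx e
  quad : ∀ e, FS M A δ e → (∀ k, e ≠ δ k) → M.deg e = 4 → μ (M.nx (M.nx e)) = M.nx.symm e
  X4 : ∀ k, M.deg (δ k) = 4 → X k = M.nx (M.nx (δ k))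
  X6 : ∀ k, M.deg (δ k) ≠ 4 → X k = (μ' (hG.hdr k)).1 ∧ M.SameSite (δ k) (μ' (hG.hdr k)).1
  typ : ∀ k, a k = true → μ (δ k) = M.nx (δ k) ∧ μ (X k) = M.nx.symm (δ k)
  typ' : ∀ k, a k = false → μ (δ k) = M.nx.symm (δ k) ∧ μ (X k) = M.nx (δ k)
  keep : ∀ y, A y.1 → (∀ k, M.deg (δ k) ≠ 4 → y ≠ hG.hdr k ∧ y ≠ μ' (hG.hdr k)) →
    μ y.1 = (μ' y).1

/-- the darts of the ports -/
def port (M : DMap D) (δ : ZMod 6 → D) (X : ZMod 6 → D) (x : Fin 3 × ZMod 6) : D :=
  if x.1 = 0 then δ x.2 else if x.1 = 1 then M.nx (δ x.2) else X x.2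

section

variable (hnc : ∀ i, M.nx (δ i) ≠ δ (i + 1))

include hG hnc

/-- ring darts are fold sectors -/
theorem fs_δ (k : ZMod 6) : FS M A δ (δ k) := (hG.fs_or k).resolve_right (hnc k)

/-- the strand around a ring node -/
theorem chain_str {μ : D → D} (hl : ∀ e, FS M A δ e → (∀ k, e ≠ δ k) → μ e = M.nx e)
    {i : ZMod 6} {g : D} (hg : FS M A δ g) (hn : M.SameNode (δ i) g) :
    M.Str A μ (M.nx g) (M.nx.symm (δ (i + 1))) := by
  have := hnc
  have h0 : M.SameNode g (M.nx.symm (δ (i + 1))) := hn.symm.trans (hG.toPatch.prev_node i)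
  obtain ⟨k, hk⟩ := h0.symm.exists_nat_pow_eq
  induction k generalizing g with
  | zero =>
    exfalso
    exact hg.2.2 (i + 1) (by simpa using hk.symm)
  | succ k ih =>
    have hin := hG.fs_inn hg
    have hfs : M.fs (M.al (M.nx g)) = g := by rw [fs_al, Equiv.symm_apply_apply]
    have hk' : (M.fs ^ k) (M.nx.symm (δ (i + 1))) = M.al (M.nx g) := by
      apply M.fs.injective
      rw [hfs, ← hk, add_comm k 1, pow_add, pow_one, Equiv.Perm.mul_apply]
    have hn' : M.SameNode (δ i) (M.al (M.nx g)) := hn.trans (al_node g).symm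
    refine (Str.al hin.1 hin.2).trans ?_
    by_cases h1 : FS M A δ (M.al (M.nx g))
    · have h2 : ∀ j, M.al (M.nx g) ≠ δ j := fun j hj => hG.toPatch.notA j (by
        rw [← hj, M.inv]; exact hin.1)
      have h3 := Str.mu (M := M) (A := A) (μ := μ) hin.2
      rw [hl _ h1 h2] at h3
      exact h3.trans (ih h1 hn' (hn'.symm.trans (hG.toPatch.prev_node i)) hk')
    · have h2 : ∃ j, M.al (M.nx g) = M.nx.symm (δ j) := by
        by_contra h3
        push Not at h3
        exact h1 ⟨hin.2, ring_same hn' (ring_δ i), h3⟩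
      obtain ⟨j, hj⟩ := h2
      have hji : j = i + 1 := by
        have h3 := hG.toPatch.prev_node (j - 1)
        rw [sub_add_cancel, ← hj] at h3
        rw [hG.node_idx (hn'.trans h3.symm)]
        ring
      rw [hj, hji]
      exact Str.refl _

end

section

variable {hG}
variable {o : D → Bool} (ho : ∀ d, o (M.nx d) = !o d) (ho' : ∀ d, o (M.al d) = !o d)
  (hnc : ∀ i, M.nx (δ i) ≠ δ (i + 1))
  {μ' : {d // ¬ FR M (FS M A δ) d} → {d // ¬ FR M (FS M A δ) d}} {μ : D → D} {X : ZMod 6 → D}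
  {a : ZMod 6 → Bool} (hμ : hG.LiftMu μ' μ X a)

/-- the dart of `M` which belongs to a dart of the folded map -/
noncomputable def phi (hG : M.Gen A δ)
    (μ' : {d // ¬ FR M (FS M A δ) d} → {d // ¬ FR M (FS M A δ) d})
    (y : {d // ¬ FR M (FS M A δ) d}) : D :=
  if ∃ k, M.deg (δ k) ≠ 4 ∧ y = hG.hdr k then (μ' y).1 else y.1

include hμ in
theorem LiftMu.phi_hdr {k : ZMod 6} (h : M.deg (δ k) ≠ 4) : phi hG μ' (hG.hdr k) = X k := by
  rw [phi, if_pos ⟨k, h, rfl⟩, (hμ.X6 k h).1]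

omit hμ in
theorem phi_of {y : {d // ¬ FR M (FS M A δ) d}} (h : ∀ k, M.deg (δ k) ≠ 4 → y ≠ hG.hdr k) :
    phi hG μ' y = y.1 := if_neg fun ⟨k, h1, h2⟩ => h k h1 h2

include hμ hnc in
theorem LiftMu.site_hdr {k j : ZMod 6} (h : M.deg (δ k) ≠ 4) (hj : M.deg (δ j) ≠ 4)
    (hs : μ' (hG.hdr k) = hG.hdr j) : j = k := by
  have h1 := (hμ.X6 k h).2
  rw [hs] at h1
  have h2 : M.SameSite (δ k) (M.nx.symm (δ j)) := by
    have : (hG.hdr j).1 = M.nx.symm (δ j) := if_neg hj
    rw [← this]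
    exact h1
  exact hG.bd.inj (hG.fs_uniq (hG.fs_δ hnc k) (hG.fs_δ hnc j)
    (h2.trans (site_nx_symm _).symm))

include ho ho' in
omit hμ in
theorem hat_al_hdr (k : ZMod 6) : ¬ A ((hG.hat ho ho').al (hG.hdr k)).1 := by
  have h1 := hG.hat_hd ho ho' (k - 1)
  have h2 : hG.hdr k = ⟨hd M δ (k - 1 + 1), hG.hd_stay _⟩ := by
    apply Subtype.ext
    show hd M δ k = hd M δ (k - 1 + 1)
    rw [sub_add_cancel]
  rw [h2, h1]
  exact hG.toPatch.notA _

include ho ho' hμ hnc in
theorem LiftMu.str {x y : {d // ¬ FR M (FS M A δ) d}}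
    (h : (hG.hat ho ho').Str (fun z => A z.1) μ' x y) : M.Str A μ (phi hG μ' x) (phi hG μ' y) := by
  induction h with
  | rel x y hxy =>
    obtain ⟨hx, h | ⟨h, hy⟩⟩ := hxy
    · subst h
      by_cases h1 : ∃ k, M.deg (δ k) ≠ 4 ∧ x = hG.hdr k
      · obtain ⟨k, hk, rfl⟩ := h1
        have h2 : phi hG μ' (μ' (hG.hdr k)) = (μ' (hG.hdr k)).1 := by
          by_cases h3 : ∃ j, M.deg (δ j) ≠ 4 ∧ μ' (hG.hdr k) = hG.hdr j
          · obtain ⟨j, hj, h4⟩ := h3
            have h5 := hμ.site_hdr hnc hk hj h4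
            subst h5
            rw [h4, phi, if_pos ⟨j, hj, rfl⟩, h4]
          · push Not at h3
            exact phi_of h3
        rw [h2, hμ.phi_hdr hk, (hμ.X6 k hk).1]
        exact Str.refl _
      · push Not at h1
        rw [phi_of h1]
        by_cases h2 : ∃ k, M.deg (δ k) ≠ 4 ∧ x = μ' (hG.hdr k)
        · obtain ⟨k, hk, rfl⟩ := h2
          rw [hμ.inv' _ (hG.hd_A k), hμ.phi_hdr hk, (hμ.X6 k hk).1]
          exact Str.refl _
        · push Not at h2
          have h3 := hμ.keep x hx fun k hk => ⟨h1 k hk, h2 k hk⟩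
          have h4 : ∀ k, M.deg (δ k) ≠ 4 → μ' x ≠ hG.hdr k := fun k hk h5 => h2 k hk (by
            rw [← h5, hμ.inv' x hx])
          rw [phi_of h4, ← h3]
          exact Str.mu hx
    · subst h
      have h1 : ∀ k, x ≠ hG.hdr k := fun k hk => hG.hat_al_hdr ho ho' k (by rw [← hk]; exact hy)
      have h2 : ∀ k, (hG.hat ho ho').al x ≠ hG.hdr k := fun k hk =>
        hG.hat_al_hdr ho ho' k (by rw [← hk, (hG.hat ho ho').inv]; exact hx)
      rw [phi_of fun k _ => h1 k, phi_of fun k _ => h2 k]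
      rcases hG.hat_cases ho ho' x with h | ⟨i, h⟩ | ⟨i, h⟩ | ⟨e, h3, h4, hl, h⟩
      · rw [fmap_al_of hG.foldSet ho ho' h] at hy ⊢
        exact Str.al hx hy
      · exact absurd (show A (M.al (δ i)) by rw [← h]; exact hx) (hG.toPatch.notA i)
      · exact absurd (Subtype.ext h) (h1 i)
      · have hA2 : A (M.nx (M.nx e)) :=
          (hG.toPatch.sites.same ((site_nx _).trans (site_nx _))).1 h3.1
        have hA3 : A (M.nx.symm e) := (hG.toPatch.sites.same (site_nx_symm _)).1 h3.1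
        have hm := Str.mu (M := M) (A := A) (μ := μ) hA2
        rw [hμ.quad e h3 hl h4] at hm
        rcases h with ⟨h5, h6⟩ | ⟨h5, h6⟩
        · rw [h6]
          rw [h6] at hy
          rw [h5] at hx
          rw [h5]
          have s1 := Str.al (M := M) (μ := μ) hA2 hx
          have s2 := Str.al (M := M) (μ := μ) hA3 hy
          exact (s1.symm.trans hm).trans s2
        · rw [h6]
          rw [h6] at hy
          rw [h5] at hx
          rw [h5]
          have s1 := Str.al (M := M) (μ := μ) hA3 hx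
          have s2 := Str.al (M := M) (μ := μ) hA2 hy
          exact (s1.symm.trans hm.symm).trans s2
  | refl x => exact Str.refl _
  | symm x y _ ih => exact ih.symm
  | trans x y z _ _ ih1 ih2 => exact ih1.trans ih2

include ho ho' in
omit hμ in
theorem hdr_inj {j k : ZMod 6} (h : hG.hdr j = hG.hdr k) : j = k := by
  have e : ∀ i, (hG.hat ho ho').al (hG.hdr i) = hG.hroot (i - 1) := by
    intro i
    have h1 := hG.hat_hd ho ho' (i - 1)
    have h2 : hG.hdr i = ⟨hd M δ (i - 1 + 1), hG.hd_stay _⟩ := by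
      apply Subtype.ext
      show hd M δ i = hd M δ (i - 1 + 1)
      rw [sub_add_cancel]
    rw [h2, h1]
    rfl
  have h1 : M.al (δ (j - 1)) = M.al (δ (k - 1)) := by
    have := e j
    rw [h, e k] at this
    exact (congrArg Subtype.val this).symm
  exact sub_left_injective (hG.bd.inj (M.al_inj h1))

include ho ho' hμ hnc in
/-- the strand which ends at the ring edge `k` of the folded map -/
theorem LiftMu.hdr_X (k : ZMod 6) : M.Str A μ (phi hG μ' (hG.hdr k)) (X k) := by
  have := hnc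
  by_cases hk : M.deg (δ k) = 4
  · have h1 : phi hG μ' (hG.hdr k) = (hG.hdr k).1 := phi_of fun j hj h2 => hj (by
      rw [← hdr_inj ho ho' h2]; exact hk)
    have h2 : (hG.hdr k).1 = M.al (M.nx (M.nx (δ k))) := if_pos hk
    have h3 : A (M.nx (M.nx (δ k))) :=
      (hG.toPatch.sites.same ((site_nx _).trans (site_nx _))).1 (hG.toPatch.inA k)
    have h4 : A (M.al (M.nx (M.nx (δ k)))) := by
      rw [← h2]; exact hG.hd_A k
    rw [h1, h2, hμ.X4 k hk]
    exact (Str.al h3 h4).symm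
  · rw [hμ.phi_hdr hk]
    exact Str.refl _

include ho ho' hμ hnc in
/-- the strands between the ports -/
theorem LiftMu.ports {m' : ZMod 6 → ZMod 6}
    (hS : ∀ k, (hG.hat ho ho').Str (fun z => A z.1) μ' (hG.hdr k) (hG.hdr (m' k)))
    {x y : Fin 3 × ZMod 6} (h : Relation.EqvGen (PStep a m') x y) :
    M.Str A μ (port M δ X x) (port M δ X y) := by
  have c : ∀ k, M.Str A μ (M.nx (δ k)) (M.nx.symm (δ (k + 1))) := fun k =>
    hG.chain_str hnc hμ.link (hG.fs_δ hnc k) (Equiv.Perm.SameCycle.refl _ _)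
  have c' : ∀ k, M.Str A μ (M.nx (δ (k - 1))) (M.nx.symm (δ k)) := fun k => by
    have := c (k - 1)
    rwa [sub_add_cancel] at this
  have p0 : ∀ k, port M δ X (0, k) = δ k := fun k => by simp [port]
  have p1 : ∀ k, port M δ X (1, k) = M.nx (δ k) := fun k => by simp [port]
  have p2 : ∀ k, port M δ X (2, k) = X k := fun k => by
    have h1 : (2 : Fin 3) ≠ 0 := by decide
    have h2 : (2 : Fin 3) ≠ 1 := by decide
    simp [port, h1, h2]
  have hXA : ∀ k, A (X k) := by
    intro k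
    by_cases hk : M.deg (δ k) = 4
    · rw [hμ.X4 k hk]
      exact (hG.toPatch.sites.same ((site_nx _).trans (site_nx _))).1 (hG.toPatch.inA k)
    · rw [(hμ.X6 k hk).1]
      exact (hG.toPatch.sites.same (hμ.X6 k hk).2).1 (hG.toPatch.inA k)
  induction h with
  | rel x y hxy =>
    obtain ⟨k, ⟨hk, h | h⟩ | ⟨hk, h | h⟩ | h⟩ := hxy
    · rw [h.1, h.2, p0, p1, ← (hμ.typ k hk).1]
      exact Str.mu (hG.toPatch.inA k)
    · rw [h.1, h.2, p2, p1]
      have h1 := Str.mu (M := M) (A := A) (μ := μ) (hXA k)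
      rw [(hμ.typ k hk).2] at h1
      exact h1.trans (c' k).symm
    · rw [h.1, h.2, p0, p1]
      have h1 := Str.mu (M := M) (A := A) (μ := μ) (hG.toPatch.inA k)
      rw [(hμ.typ' k hk).1] at h1
      exact h1.trans (c' k).symm
    · rw [h.1, h.2, p2, p1, ← (hμ.typ' k hk).2]
      exact Str.mu (hXA k)
    · rw [h.1, h.2, p2, p2]
      exact (hμ.hdr_X ho ho' hnc k).symm.trans
        ((hμ.str ho ho' hnc (hS k)).trans (hμ.hdr_X ho ho' hnc _))
  | refl x => exact Str.refl _
  | symm x y _ ih => exact ih.symm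
  | trans x y z _ _ ih1 ih2 => exact ih1.trans ih2

include ho ho' hμ hnc in
/-- every dart is connected with a port -/
theorem LiftMu.all (hA : ∀ y : {d // ¬ FR M (FS M A δ) d}, A y.1 →
      ∃ k, (hG.hat ho ho').Str (fun z => A z.1) μ' y (hG.hdr k))
    (d : D) (hd : A d) : ∃ x, M.Str A μ d (port M δ X x) := by
  have c : ∀ {i : ZMod 6} {g : D}, FS M A δ g → M.SameNode (δ i) g →
      M.Str A μ (M.nx g) (M.nx.symm (δ (i + 1))) := fun hg hn => hG.chain_str hnc hμ.link hg hn
  have p0 : ∀ k, port M δ X (0, k) = δ k := fun k => by simp [port]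
  have p1 : ∀ k, port M δ X (1, k) = M.nx (δ k) := fun k => by simp [port]
  have p2 : ∀ k, port M δ X (2, k) = X k := fun k => by
    have h1 : (2 : Fin 3) ≠ 0 := by decide
    have h2 : (2 : Fin 3) ≠ 1 := by decide
    simp [port, h1, h2]
  have hleft : ∀ k, M.Str A μ (M.nx.symm (δ k)) (port M δ X (1, k - 1)) := by
    intro k
    have := c (hG.fs_δ hnc (k - 1)) (Equiv.Perm.SameCycle.refl _ _)
    rw [sub_add_cancel] at this
    rw [p1]
    exact this.symm
  -- kept darts
  have hkept : ∀ y : {d // ¬ FR M (FS M A δ) d}, A y.1 → ∃ x, M.Str A μ y.1 (port M δ X x) := by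
    intro y hy
    by_cases h1 : ∃ k, M.deg (δ k) ≠ 4 ∧ y = hG.hdr k
    · obtain ⟨k, hk, rfl⟩ := h1
      have h2 : (hG.hdr k).1 = M.nx.symm (δ k) := if_neg hk
      rw [h2]
      exact ⟨_, hleft k⟩
    · push Not at h1
      obtain ⟨k, hk⟩ := hA y hy
      have h2 := hμ.str ho ho' hnc hk
      rw [phi_of h1] at h2
      refine ⟨(2, k), ?_⟩
      rw [p2]
      exact h2.trans (hμ.hdr_X ho ho' hnc k)
  by_cases hR : FR M (FS M A δ) d
  · -- the removed darts
    have hlink : ∀ e, FS M A δ e → (∀ k, e ≠ δ k) → ∃ x, M.Str A μ (M.nx e) (port M δ X x) := by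
      intro e he hl
      obtain ⟨i, hi⟩ := he.2.1
      refine ⟨(1, i), (c he hi).trans ?_⟩
      have := hleft (i + 1)
      rwa [add_sub_cancel_right] at this
    have hopp : ∀ e, FS M A δ e → (∀ k, e ≠ δ k) → M.deg e = 4 →
        ∃ x, M.Str A μ (M.nx (M.nx e)) (port M δ X x) := by
      intro e he hl h4
      have hA2 : A (M.nx (M.nx e)) :=
        (hG.toPatch.sites.same ((site_nx _).trans (site_nx _))).1 he.1
      have hA3 : A (M.al (M.nx (M.nx e))) := by
        by_contra h1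
        obtain ⟨k, hk⟩ := (hG.bd.mem _).1 ⟨hA2, h1⟩
        have h2 : M.SameSite e (δ k) := by
          rw [hk]
          exact (site_nx _).trans (site_nx _)
        exact hl k (hG.fs_uniq he (hG.fs_δ hnc k) h2).symm
      obtain ⟨x, hx⟩ := hkept ⟨_, hG.k2 he h4⟩ hA3
      exact ⟨x, (Str.al hA2 hA3).trans hx⟩
    rcases FoldSet.cases hR with h1 | ⟨e, h1, rfl⟩ | ⟨e, h1, h4, rfl⟩ | ⟨e, h1, h4, rfl⟩
    · by_cases hs : ∃ k, d = δ k
      · obtain ⟨k, rfl⟩ := hs
        refine ⟨(0, k), ?_⟩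
        rw [p0]
        exact Str.refl _
      · push Not at hs
        obtain ⟨x, hx⟩ := hlink d h1 hs
        refine ⟨x, Str.trans ?_ hx⟩
        rw [← hμ.link d h1 hs]
        exact Str.mu hd
    · by_cases hs : ∃ k, e = δ k
      · obtain ⟨k, rfl⟩ := hs
        refine ⟨(1, k), ?_⟩
        rw [p1]
        exact Str.refl _
      · push Not at hs
        exact hlink e h1 hs
    · by_cases hs : ∃ k, e = δ k
      · obtain ⟨k, rfl⟩ := hs
        refine ⟨(2, k), ?_⟩
        rw [p2, hμ.X4 k h4]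
        exact Str.refl _
      · push Not at hs
        exact hopp e h1 hs h4
    · rw [← nx_four' h4] at hd ⊢
      by_cases hs : ∃ k, e = δ k
      · obtain ⟨k, rfl⟩ := hs
        exact ⟨_, hleft k⟩
      · push Not at hs
        obtain ⟨x, hx⟩ := hopp e h1 hs h4
        refine ⟨x, Str.trans (Str.symm ?_) hx⟩
        rw [← hμ.quad e h1 hs h4]
        exact Str.mu ((hG.toPatch.sites.same ((site_nx _).trans (site_nx _))).1 h1.1)
  · exact hkept ⟨d, hR⟩ hd

end

end Gen

end DMap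

end GT33
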