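import Pool.Agent.GT33.DLegal

/-!
# GT33 module DMIN: patches and the minimal counterexample

`Patch M A δ`: a legal map `M` in which the region `A` is everything except one site (the root, it has six
darts), `δ` numbers the six darts which leave `A`, counterclockwise around `A`.  `Full E`: all states of the
family `E` are realised.  `Patch.split`: in a minimal counterexample every proper set of sites inside the
patch with a cut of six darts is one hexagon or has eight darts (two quads).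
-/

open Classical

namespace GT33

namespace DMap

variable {D : Type} {M : DMap D}

theorem SiteNum.deg {n : ℕ} {δ : ZMod n → D} (h : M.SiteNum n δ) (i : ZMod n) :
    M.deg (δ i) = n := by
  have h1 : ∀ k : ℕ, (M.nx)^[k] (δ i) = δ (i + k) := by
    intro k
    have := h.pow i k
    rwa [zpow_natCast, Equiv.Perm.coe_pow] at this
  unfold DMap.deg
  apply Nat.dvd_antisymm
  · apply Function.IsPeriodicPt.minimalPeriod_dvd
    show (M.nx)^[n] (δ i) = δ i
    rw [h1, ZMod.natCast_self, add_zero]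
  · have h2 := Function.isPeriodicPt_minimalPeriod M.nx (δ i)
    unfold Function.IsPeriodicPt Function.IsFixedPt at h2
    rw [h1] at h2
    have h3 := h.inj h2
    rw [← ZMod.natCast_eq_zero_iff]
    exact add_eq_left.1 h3

/-- hexagon patches -/
structure Patch (M : DMap D) (A : D → Prop) (δ : ZMod 6 → D) : Prop where
  legal : M.Legal
  bd : M.Bd A 6 δ
  root : ∃ r, ∀ e, ¬ A e ↔ M.SameSite r e

/-- all states of `E` are realised -/
def Full [Fintype D] (E : (n : ℕ) → PState n → Prop) (M : DMap D) (A : D → Prop) (δ : ZMod 6 → D) :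
    Prop := ∀ s, E 6 s → ∃ μ ω, M.Real E A δ s μ ω

/-- the number of darts of a set of sites -/
theorem Legal.four_le_card [Finite D] (h : M.Legal) {B : D → Prop} (hB : M.Sites B)
    (hne : ∃ d, B d) : 4 ≤ Nat.card {d // B d} := by
  have : Fintype D := Fintype.ofFinite D
  obtain ⟨d, hd⟩ := hne
  have h1 := card_site (M := M) d (Finset.univ.filter fun e => M.SameSite d e) (fun e => by simp)
  have h2 : (Finset.univ.filter fun e => M.SameSite d e).card ≤
      (Finset.univ.filter fun e => B e).card := by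
    apply Finset.card_le_card
    intro e he
    simp only [Finset.mem_filter, Finset.mem_univ, true_and] at he ⊢
    exact (hB.same he).1 hd
  rw [Nat.card_eq_fintype_card, Fintype.card_subtype]
  rcases h.deg d with h3 | h3 <;> omega

theorem card_add [Finite D] (B C : D → Prop) :
    Nat.card {d // B d} = Nat.card {d // B d ∧ C d} + Nat.card {d // B d ∧ ¬ C d} := by
  have : Fintype D := Fintype.ofFinite D
  rw [Nat.card_eq_fintype_card, Nat.card_eq_fintype_card, Nat.card_eq_fintype_card,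
    Fintype.card_subtype, Fintype.card_subtype, Fintype.card_subtype,
    ← Finset.card_filter_add_card_filter_not (s := Finset.univ.filter B) C,
    Finset.filter_filter, Finset.filter_filter]

theorem card_add' [Finite D] (B : D → Prop) :
    Nat.card D = Nat.card {d // B d} + Nat.card {d // ¬ B d} := by
  have h := card_add (fun _ : D => True) B
  simpa using h

theorem card_or [Finite D] {B C : D → Prop} (h : ∀ d, B d → C d) :
    Nat.card {d // C d} = Nat.card {d // B d} + Nat.card {d // C d ∧ ¬ B d} := by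
  rw [card_add C B]
  congr 1
  apply Nat.card_congr
  exact Equiv.subtypeEquivRight fun d => ⟨fun h1 => h1.2, fun h1 => ⟨h d h1, h1⟩⟩

theorem card_out [Finite D] (B : D → Prop) : Nat.card (Out B 6) = Nat.card {d // ¬ B d} + 6 := by
  rw [Nat.card_sum]
  congr 1
  simp

/-- the region `A₀` as a patch -/
theorem Legal.inside [Finite D] (hP : M.Legal) {A₀ : D → Prop} {δ₀ : ZMod 6 → D}
    (hb : M.Bd A₀ 6 δ₀) :
    ∃ (η : ZMod 6 → D) (hη : M.Bd (fun d => ¬ A₀ d) 6 η) (δ' : ZMod 6 → Out (fun d => ¬ A₀ d) 6),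
      (∀ i, cemb η (δ' i) = δ₀ i) ∧ (M.contr hη).Patch (fun x => A₀ (cemb η x)) δ' := by
  have hη := bd_compl hb 0
  have h1 : ∀ i, ∃ x : Out (fun d => ¬ A₀ d) 6, cemb (fun i => M.al (δ₀ (0 - i))) x = δ₀ i :=
    fun i => exists_cemb hη fun h2 => h2.1 (bd_mem hb i)
  choose δ' hδ' using h1
  refine ⟨_, hη, δ', hδ', hP.contr hη,
    contr_bd hP.plane hη hb (Or.inr fun d hd => hd) hδ', ?_⟩
  refine ⟨.inr 0, ?_⟩
  rintro (⟨e, he⟩ | i)
  · rw [cemb_inl]
    refine iff_of_false he fun hs => ?_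
    have := ((contr_sites_inr hη).same hs).1 ⟨0, rfl⟩
    simp at this
  · rw [cemb_inr]
    exact iff_of_true (bd_al hb _) (contr_sameSite_inr hη 0 i)

namespace Patch

variable {A : D → Prop} {δ : ZMod 6 → D}

theorem sites (hP : M.Patch A δ) : M.Sites A := hP.bd.site

theorem cut (hP : M.Patch A δ) : M.cut A = 6 := bd_cut hP.bd

theorem card_root [Finite D] (hP : M.Patch A δ) : Nat.card {d // ¬ A d} = 6 := by
  have : Fintype D := Fintype.ofFinite D
  obtain ⟨r, hr⟩ := hP.root
  have h1 : M.cut (M.SameSite r) = 6 := by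
    rw [← hP.cut, ← cut_not A]
    exact cut_congr fun e => (hr e).symm
  rw [hP.legal.cut_site, ← card_site r (Finset.univ.filter fun e => M.SameSite r e)
    (fun e => by simp)] at h1
  rw [Nat.card_eq_fintype_card, Fintype.card_subtype, ← h1]
  congr 1
  ext e
  simp only [Finset.mem_filter, Finset.mem_univ, true_and]
  exact hr e

theorem exists_root (hP : M.Patch A δ) : ∃ d, ¬ A d := by
  obtain ⟨r, hr⟩ := hP.root
  exact ⟨r, (hr r).2 (Equiv.Perm.SameCycle.refl _ _)⟩

theorem exists_in (hP : M.Patch A δ) : ∃ d, A d := ⟨δ 0, bd_mem hP.bd 0⟩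

section split

variable {A₀ : D → Prop} {δ₀ : ZMod 6 → D}

/-- the patch with the region `A₀` contracted to a hexagon -/
theorem contr [Finite D] (hP : M.Patch A δ) (hb : M.Bd A₀ 6 δ₀) (h0 : ∀ d, A₀ d → A d) :
    ∃ δ' : ZMod 6 → Out A₀ 6, (∀ i, cemb δ₀ (δ' i) = δ i) ∧
      (M.contr hb).Patch (fun x => A (cemb δ₀ x)) δ' := by
  have h1 : ∀ i, ∃ x : Out A₀ 6, cemb δ₀ x = δ i := fun i =>
    exists_cemb hb fun h2 => bd_al hP.bd i (h0 _ h2.2)
  choose δ' hδ' using h1
  refine ⟨δ', hδ', hP.legal.contr hb, contr_bd hP.legal.plane hb hP.bd (Or.inl h0) hδ', ?_⟩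
  obtain ⟨r, hr⟩ := hP.root
  have hrA : ¬ A₀ r := fun h2 => (hr r).2 (Equiv.Perm.SameCycle.refl _ _) (h0 r h2)
  refine ⟨.inl ⟨r, hrA⟩, ?_⟩
  rintro (⟨e, he⟩ | i)
  · rw [contr_sameSite_inl, cemb_inl]
    exact hr e
  · rw [cemb_inr]
    refine iff_of_false (not_not.2 (h0 _ (bd_mem hb i))) fun hs => ?_
    have := ((contr_sites_inr hb).same hs).2 ⟨i, rfl⟩
    simp at this

/-- numberings of the new site -/
theorem siteNum_contr [Finite D] (hb : M.Bd A₀ 6 δ₀) {n : ℕ} {γ : ZMod n → Out A₀ 6}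
    (hγ : (M.contr hb).SiteNum n γ) (hγA : ∀ i, A₀ (cemb δ₀ (γ i))) (h6 : n = 6) :
    ∃ c : ZMod 6, ∀ i : ZMod 6, cemb δ₀ (γ (h6 ▸ i)) = δ₀ (i + c) := by
  subst h6
  have h1 : ∀ i : ZMod 6, ∃ j : ZMod 6, γ i = .inr j := by
    intro i
    rcases h : γ i with ⟨e, he⟩ | j
    · have := hγA i
      rw [h] at this
      exact absurd this he
    · exact ⟨j, rfl⟩
  obtain ⟨c, hc⟩ := h1 0
  refine ⟨c, fun i => ?_⟩
  have h2 : ∀ k : ℕ, γ k = .inr (k + c) := by
    intro k
    induction k with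
    | zero => simpa using hc
    | succ k ih =>
      have h3 := hγ.nx k
      rw [ih, contr_nx_inr] at h3
      push_cast
      rw [← h3]
      congr 1
      ring
  have h4 := h2 i.val
  rw [ZMod.natCast_zmod_val] at h4
  show cemb δ₀ (γ i) = _
  rw [h4, cemb_inr]

/-- In a minimal counterexample every proper set of sites inside the patch with a cut of six darts is
one hexagon or has eight darts. -/
theorem split [Fintype D] {E : (n : ℕ) → PState n → Prop} (hP : M.Patch A δ)
    (IH : ∀ (D' : Type) [Fintype D'] (M' : DMap D') (A' : D' → Prop) (δ' : ZMod 6 → D'),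
      M'.Patch A' δ' → Nat.card D' ≠ 14 → Nat.card D' < Nat.card D → M'.Full E A' δ')
    (hs : M.Sites A₀) (h0 : ∀ d, A₀ d → A d) (h1 : ∃ d, A d ∧ ¬ A₀ d) (hc : M.cut A₀ = 6)
    (hne : ¬ ∃ r, ∀ e, A₀ e ↔ M.SameSite r e) (h8 : Nat.card {d // A₀ d} ≠ 8) :
    M.Full E A δ := by
  have hA0 : ∃ d, A₀ d := by
    by_contra hno
    push Not at hno
    have : M.cut A₀ = 0 := by
      unfold DMap.cut
      rw [Nat.card_eq_zero]
      left
      exact ⟨fun x => hno _ x.2.1⟩
    omega
  have hA0' : ∃ d, ¬ A₀ d := by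
    obtain ⟨d, hd⟩ := hP.exists_root
    exact ⟨d, fun h => hd (h0 d h)⟩
  obtain ⟨δ₀, hb⟩ : ∃ δ₀ : ZMod 6 → D, M.Bd A₀ 6 δ₀ := by
    have := hP.legal.exists_bd hs hA0 hA0' (by omega)
    rw [hc] at this
    exact this
  -- cardinalities
  have c1 : 8 ≤ Nat.card {d // A₀ d} := by
    obtain ⟨r, hr⟩ := hA0
    have h2 : ∃ e, A₀ e ∧ ¬ M.SameSite r e := by
      by_contra hno
      push Not at hno
      exact hne ⟨r, fun e => ⟨hno e, fun h => (hs.same h).1 hr⟩⟩
    have h3 := hP.legal.four_le_card (sites_site (M := M) r) ⟨r, Equiv.Perm.SameCycle.refl _ _⟩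
    have h4 := hP.legal.four_le_card (hs.and (sites_site (M := M) r).not) h2
    have h5 := card_or (B := M.SameSite r) (C := A₀) fun d hd => (hs.same hd).1 hr
    omega
  have c2 : 10 ≤ Nat.card {d // ¬ A₀ d} := by
    have h3 := hP.card_root
    have h4 := hP.legal.four_le_card (hP.sites.and hs.not) h1
    have h5 := card_or (B := fun d => ¬ A d) (C := fun d => ¬ A₀ d) fun d hd h => hd (h0 d h)
    have h6 : Nat.card {d // ¬ A₀ d ∧ ¬ ¬ A d} = Nat.card {d // A d ∧ ¬ A₀ d} :=
      Nat.card_congr (Equiv.subtypeEquivRight fun d => by tauto)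
    rw [h6] at h5
    omega
  have c3 := card_add' A₀
  -- the two smaller patches
  obtain ⟨δ₁, hδ₁, hP₁⟩ := hP.contr hb h0
  have hF₁ : (M.contr hb).Full E (fun x => A (cemb δ₀ x)) δ₁ := by
    refine IH _ _ _ _ hP₁ ?_ ?_
    · rw [card_out]
      omega
    · rw [card_out]
      omega
  have hF₂ : ∀ c : ZMod 6, ∀ t, E 6 t → ∃ μ ω, M.Real E A₀ (fun i => δ₀ (i + c)) t μ ω := by
    intro c t ht
    have hbc : M.Bd A₀ 6 (fun i => δ₀ (i + c)) := BdD.shift hb c
    obtain ⟨η, hη, δ₂, hδ₂, hP₂⟩ := hP.legal.inside hbc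
    have h2 : Nat.card {d // ¬ ¬ A₀ d} = Nat.card {d // A₀ d} :=
      Nat.card_congr (Equiv.subtypeEquivRight fun d => not_not)
    obtain ⟨μ', ω', hR⟩ := IH _ _ _ _ hP₂ (by rw [card_out]; omega) (by rw [card_out]; omega) t ht
    exact hR.of_inside (contr_isCtr hη) hδ₂
  intro s hst
  obtain ⟨μ', ω', hR⟩ := hF₁ s hst
  refine hR.glue hs h0 (contr_isCtr hb) (x₀ := .inr 0) (bd_mem hb 0) ?_ ?_ ?_ hδ₁
  · rintro (⟨e, he⟩ | i) hx
    · exact absurd hx he
    · exact contr_sameSite_inr hb 0 i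
  · rintro (⟨e, he⟩ | i) (⟨f, hf⟩ | j) h2 h3 h4
    · exact absurd h2 he
    · exact absurd h2 he
    · exact absurd h3 hf
    · rw [cemb_inr, cemb_inr] at h4
      rw [nodes_inj hb h4]
  · intro n γ t hγ hγA ht
    -- the number of darts of the new site is 6
    have hn : n = 6 := by
      have h5 := hγ.deg 0
      rcases h6 : γ 0 with ⟨e, he⟩ | j
      · have h7 := hγA 0
        rw [h6] at h7
        exact absurd h7 he
      · rw [h6, contr_deg_inr] at h5
        exact h5.symm
    subst hn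
    obtain ⟨c, hc⟩ := siteNum_contr hb hγ hγA rfl
    have h5 : (fun i => cemb δ₀ (γ i)) = fun i => δ₀ (i + c) := funext fun i => hc i
    rw [h5]
    exact hF₂ c t ht

end split

end Patch

end DMap

end GT33
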