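import Pool.Agent.GT33.DCls

/-!
# GT33 module DPAR: walks and strands

`exists_kappa`: a set of sites with the boundary `W` changes along a strand of the folded map by the number of passages
of `W` through the edges of the strand.
-/

open Classical

namespace GT33

namespace DMap

variable {D : Type} {M : DMap D} {mu : D → D} {R : D → Prop}

/-- a strand with the list of its edges -/
inductive DStrandL (al mu : D → D) (R : D → Prop) : D → D → List D → Prop
  | last {d : D} (h : ¬ R (al d)) : DStrandL al mu R d (al d) [d]
  | step {d e : D} {l : List D} (h : R (al d)) (h' : DStrandL al mu R (mu (al d)) e l) :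
      DStrandL al mu R d e (d :: l)

theorem DStrandL.of {al : D → D} {d e : D} (h : DStrand al mu R d e) :
    ∃ l, DStrandL al mu R d e l := by
  induction h with
  | last h => exact ⟨_, .last h⟩
  | step h _ ih =>
    obtain ⟨l, hl⟩ := ih
    exact ⟨_, .step h hl⟩

theorem count_cons' (a b : D) (l : List D) : (((b :: l).count a : ℕ) : ZMod 2) =
    ((l.count a : ℕ) : ZMod 2) + ind (b = a) := by
  rw [List.count_cons]
  push_cast
  congr 1
  unfold ind
  by_cases h : b = a <;> simp [h]

section

variable (hp : Pairing M.nx mu R)

include hp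

/-- the passages through paired darts -/
theorem DStrandL.cnt_mu {d e : D} {l : List D} (h : DStrandL M.al mu R d e l) {w : D} (hw : R w) :
    ((l.count (mu w) : ℕ) : ZMod 2) = (l.count (M.al w) : ℕ) + ind (d = mu w) := by
  induction h with
  | @last d h =>
    rw [count_cons', count_cons', List.count_nil, List.count_nil]
    have h1 : d ≠ M.al w := fun h1 => h (by rw [h1, M.inv]; exact hw)
    rw [ind_false h1]
    simp
  | @step d e l h h' ih =>
    rw [count_cons', count_cons', ih]
    have h1 : mu (M.al d) = mu w ↔ d = M.al w := by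
      constructor
      · intro h2
        rw [← M.al_eq_iff, ← hp.inv _ h, h2, hp.inv _ hw]
      · intro h2
        rw [h2, M.inv]
    rw [propext h1]

/-- the passages through a dart which stays -/
theorem DStrandL.cnt_out {d e : D} {l : List D} (h : DStrandL M.al mu R d e l) {w : D}
    (hw : ¬ R w) : ((l.count w : ℕ) : ZMod 2) = ind (d = w) := by
  induction h with
  | @last d h =>
    rw [count_cons', List.count_nil]
    simp
  | @step d e l h h' ih =>
    rw [count_cons', ih]
    have h1 : mu (M.al d) ≠ w := fun h2 => hw (h2 ▸ hp.mem _ h)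
    rw [ind_false h1, zero_add]

omit hp in
theorem DStrandL.cnt_al {d e : D} {l : List D} (h : DStrandL M.al mu R d e l) {w : D}
    (hw : ¬ R w) : ((l.count (M.al w) : ℕ) : ZMod 2) = ind (e = w) := by
  induction h with
  | @last d h =>
    rw [count_cons', List.count_nil]
    have h1 : d = M.al w ↔ M.al d = w := M.al_eq_iff.symm
    rw [propext h1]
    simp
  | @step d e l h h' ih =>
    rw [count_cons', ih]
    have h1 : d ≠ M.al w := fun h1 => hw (by rw [h1, M.inv] at h; exact h)
    rw [ind_false h1, add_zero]

omit hp in
/-- the values of a site function at the ends of a strand -/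
theorem DStrandL.sum {d e : D} {l : List D} (h : DStrandL M.al mu R d e l) {p : D → ZMod 2}
    (hpm : ∀ r, R r → p (mu r) = p r) :
    p d + p e = (l.map fun x => p x + p (M.al x)).sum := by
  induction h with
  | @last d h => simp
  | @step d e l h h' ih =>
    rw [List.map_cons, List.sum_cons, ← ih, hpm _ h]
    have := dcyc_char (p (M.al d))
    linear_combination -this

omit hp in
theorem sum_swap (l W : List D) :
    (l.map (wcnt M W)).sum = (W.map (wcnt M l)).sum := by
  induction l with
  | nil =>
    simp only [List.map_nil, List.sum_nil]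
    have : W.map (wcnt M []) = W.map fun _ => (0 : ZMod 2) :=
      List.map_congr_left fun x _ => wcnt_nil x
    rw [this]
    simp
  | cons x l ih =>
    rw [List.map_cons, List.sum_cons, ih]
    have h1 : W.map (wcnt M (x :: l)) =
        W.map fun d => wcnt M l d + (ind (x = d) + ind (x = M.al d)) :=
      List.map_congr_left fun d _ => wcnt_cons x l d
    rw [h1, List.sum_map_add, add_comm]
    congr 1
    -- the passages through `x`
    clear ih h1
    induction W with
    | nil => simp [wcnt_nil]
    | cons y W ih =>
      rw [wcnt_cons, ih, List.map_cons, List.sum_cons, add_comm]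
      congr 1
      have e1 : y = x ↔ x = y := eq_comm
      have e2 : y = M.al x ↔ x = M.al y := by
        rw [eq_comm, M.al_eq_iff]
      rw [propext e1, propext e2]

end

/-- the passages through a strand -/
theorem exists_kappa [Finite D] (hp : Pairing M.nx mu R) (x : {d // ¬ R d}) :
    ∃ κ : D → ZMod 2, (∀ w, κ (M.al w) = κ w) ∧ (∀ w, R w → κ (mu w) = κ w) ∧
      (∀ w, ¬ R w → κ w = ind (x.1 = w) + ind ((alR M.al mu R x).1 = w)) ∧
      ∀ (B : D → Prop) (W : List D), M.Sites B →
        (∀ d, ind (B d) + ind (B (M.al d)) = wcnt M W d) →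
        ind (B x.1) + ind (B (alR M.al mu R x).1) = (W.map κ).sum := by
  obtain ⟨l, hl⟩ := DStrandL.of (alR_spec M.inv hp x)
  refine ⟨wcnt M l, wcnt_al l, fun w hw => ?_, fun w hw => ?_, fun B W hB hBW => ?_⟩
  · have h1 := hl.cnt_mu hp hw
    have h2 := hl.cnt_mu hp (hp.mem _ hw)
    rw [hp.inv _ hw] at h2
    rw [ind_false fun h => x.2 (by rw [h]; exact hp.mem _ hw), add_zero] at h1
    rw [ind_false fun h => x.2 (by rw [h]; exact hw), add_zero] at h2
    unfold wcnt
    rw [h1, h2, add_comm]
  · unfold wcnt
    rw [hl.cnt_out hp hw, hl.cnt_al hw]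
  · rw [← sum_swap, ← List.map_congr_left fun d _ => hBW d]
    refine hl.sum (p := fun d => ind (B d)) fun r hr => ?_
    have := hB.same (hp.site r hr)
    show ind _ = ind _
    rw [propext this]

namespace Gen

variable {A : D → Prop} {δ : ZMod 6 → D} [Fintype D] (hG : M.Gen A δ)

include hG

open Patch

theorem root_stay (i : ZMod 6) : ¬ FR M (FS M A δ) (M.al (δ i)) := fun h =>
  hG.toPatch.notA i (hG.fr_in h)

/-- the strand around a ring node: all its edges have the same number of passages -/
theorem kappa_node {κ : D → ZMod 2} (h1 : ∀ w, κ (M.al w) = κ w)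
    (h2 : ∀ w, FR M (FS M A δ) w → κ (fmu M (FS M A δ) w) = κ w) {i : ZMod 6} {g : D}
    (hg : A g) (hn : M.SameNode (δ i) g) : κ g = κ (M.al (δ i)) := by
  rw [h1]
  obtain ⟨k, hk⟩ := hn.symm.exists_nat_pow_eq
  induction k generalizing g with
  | zero =>
    have : g = δ i := by simpa using hk
    rw [this]
  | succ k ih =>
    rcases hG.asec hg hn with rfl | h3
    · rfl
    · rw [← ih (g := M.fs g) h3.1 (hn.trans (fs_node g)) (by
        rw [← hk, pow_succ, Equiv.Perm.mul_apply])]
      have h4 := h2 _ (FoldSet.r1 h3)
      rw [hG.foldSet.mu1 h3, nx_fs, h1] at h4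
      exact h4.symm

end Gen

end DMap

end GT33
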