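import Pool.Agent.GT33.DFold
import Pool.Agent.GT33.DWalk

/-!
# GT33 module DPEEL: folding many sites at once

`F`: a set of sectors, at most one in each site (`FoldSet M F`).  All the sites with a sector `e` in `F` are folded at
`e`: a site with six darts loses the darts `e` and `nx e`, a site with four darts loses all its darts (pairs
`e, nx e` and `nx nx e, nx nx nx e`).  `FR M F`: the removed darts, `fmu M F`: the pairing.
-/

open Classical

namespace GT33

namespace DMap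

variable {D : Type} {M : DMap D} {F : D → Prop}

/-- a set of fold sectors -/
structure FoldSet (M : DMap D) (F : D → Prop) : Prop where
  deg : ∀ d, F d → M.deg d = 4 ∨ M.deg d = 6
  uniq : ∀ d e, F d → F e → M.SameSite d e → e = d

/-- the removed darts -/
def FR (M : DMap D) (F : D → Prop) (d : D) : Prop :=
  F d ∨ F (M.nx.symm d) ∨ (M.deg d = 4 ∧ (F (M.nx (M.nx d)) ∨ F (M.nx d)))

/-- the pairing of the removed darts -/
noncomputable def fmu (M : DMap D) (F : D → Prop) (d : D) : D :=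
  if F d then M.nx d else if F (M.nx.symm d) then M.nx.symm d else
    if F (M.nx (M.nx d)) then M.nx d else M.nx.symm d

namespace FoldSet

variable (hF : M.FoldSet F)

include hF

theorem ne1 {d : D} (h : F d) : M.nx d ≠ d := by
  refine iter_ne (M := M) (k := 1) (by decide) ?_
  rcases hF.deg d h with h1 | h1 <;> omega

theorem ne2 {d : D} (h : F d) : M.nx (M.nx d) ≠ d := by
  refine iter_ne (M := M) (k := 2) (by decide) ?_
  rcases hF.deg d h with h1 | h1 <;> omega

theorem ne3 {d : D} (h : F d) : M.nx (M.nx (M.nx d)) ≠ d := by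
  refine iter_ne (M := M) (k := 3) (by decide) ?_
  rcases hF.deg d h with h1 | h1 <;> omega

theorem n1 {d : D} (h : F d) : ¬ F (M.nx d) := fun h1 =>
  hF.ne1 h (hF.uniq d _ h h1 (site_nx d))

theorem n2 {d : D} (h : F d) : ¬ F (M.nx (M.nx d)) := fun h1 =>
  hF.ne2 h (hF.uniq d _ h h1 ((site_nx d).trans (site_nx _)))

theorem n3 {d : D} (h : F d) : ¬ F (M.nx (M.nx (M.nx d))) := fun h1 =>
  hF.ne3 h (hF.uniq d _ h h1 (((site_nx d).trans (site_nx _)).trans (site_nx _)))

theorem m1 {d : D} (h : F d) : ¬ F (M.nx.symm d) := fun h1 => by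
  have := hF.n1 h1
  rw [Equiv.apply_symm_apply] at this
  exact this h

omit hF in
/-- the four kinds of removed darts -/
theorem cases {d : D} (h : FR M F d) : F d ∨ (∃ e, F e ∧ d = M.nx e) ∨
    (∃ e, F e ∧ M.deg e = 4 ∧ d = M.nx (M.nx e)) ∨
    ∃ e, F e ∧ M.deg e = 4 ∧ d = M.nx (M.nx (M.nx e)) := by
  rcases h with h | h | ⟨h4, h | h⟩
  · exact Or.inl h
  · exact Or.inr (Or.inl ⟨_, h, (Equiv.apply_symm_apply _ _).symm⟩)
  · refine Or.inr (Or.inr (Or.inl ⟨_, h, ?_, (nx_four h4).symm⟩))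
    rw [deg_nx, deg_nx, h4]
  · refine Or.inr (Or.inr (Or.inr ⟨_, h, ?_, (nx_four h4).symm⟩))
    rw [deg_nx, h4]

omit hF in
theorem r0 {d : D} (h : F d) : FR M F d := Or.inl h

omit hF in
theorem r1 {d : D} (h : F d) : FR M F (M.nx d) := Or.inr (Or.inl (by rwa [Equiv.symm_apply_apply]))

omit hF in
theorem r2 {d : D} (h : F d) (h4 : M.deg d = 4) : FR M F (M.nx (M.nx d)) :=
  Or.inr (Or.inr ⟨by rw [deg_nx, deg_nx, h4], Or.inl (by rwa [nx_four h4])⟩)

omit hF in
theorem r3 {d : D} (h : F d) (h4 : M.deg d = 4) : FR M F (M.nx (M.nx (M.nx d))) :=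
  Or.inr (Or.inr ⟨by rw [deg_nx, deg_nx, deg_nx, h4], Or.inr (by rwa [nx_four h4])⟩)

omit hF in
theorem mu0 {d : D} (h : F d) : fmu M F d = M.nx d := if_pos h

theorem mu1 {d : D} (h : F d) : fmu M F (M.nx d) = d := by
  rw [fmu, if_neg (hF.n1 h), if_pos (by rwa [Equiv.symm_apply_apply]), Equiv.symm_apply_apply]

theorem mu2 {d : D} (h : F d) (h4 : M.deg d = 4) :
    fmu M F (M.nx (M.nx d)) = M.nx (M.nx (M.nx d)) := by
  rw [fmu, if_neg (hF.n2 h), if_neg (by rw [Equiv.symm_apply_apply]; exact hF.n1 h),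
    if_pos (by rwa [nx_four h4])]

theorem mu3 {d : D} (h : F d) (h4 : M.deg d = 4) :
    fmu M F (M.nx (M.nx (M.nx d))) = M.nx (M.nx d) := by
  rw [fmu, if_neg (hF.n3 h), if_neg (by rw [Equiv.symm_apply_apply]; exact hF.n2 h),
    if_neg (by rw [nx_four h4]; exact hF.n1 h), Equiv.symm_apply_apply]

theorem adj {d : D} (hr : FR M F d) : fmu M F d = M.nx d ∨ fmu M F d = M.nx.symm d := by
  rcases cases hr with h | ⟨e, h, rfl⟩ | ⟨e, h, h4, rfl⟩ | ⟨e, h, h4, rfl⟩
  · exact Or.inl (mu0 h)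
  · right
    rw [hF.mu1 h, Equiv.symm_apply_apply]
  · exact Or.inl (hF.mu2 h h4)
  · right
    rw [hF.mu3 h h4, Equiv.symm_apply_apply]

theorem pairing : Pairing M.nx (fmu M F) (FR M F) where
  inv r hr := by
    rcases cases hr with h | ⟨e, h, rfl⟩ | ⟨e, h, h4, rfl⟩ | ⟨e, h, h4, rfl⟩
    · rw [mu0 h, hF.mu1 h]
    · rw [hF.mu1 h, mu0 h]
    · rw [hF.mu2 h h4, hF.mu3 h h4]
    · rw [hF.mu3 h h4, hF.mu2 h h4]
  mem r hr := by
    rcases cases hr with h | ⟨e, h, rfl⟩ | ⟨e, h, h4, rfl⟩ | ⟨e, h, h4, rfl⟩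
    · rw [mu0 h]; exact r1 h
    · rw [hF.mu1 h]; exact r0 h
    · rw [hF.mu2 h h4]; exact r3 h h4
    · rw [hF.mu3 h h4]; exact r2 h h4
  ne r hr := by
    have key : ∀ d : D, M.nx d = d → M.deg d = 1 := fun d h1 =>
      Function.minimalPeriod_eq_one_iff_isFixedPt.2 h1
    have hd : M.deg r = 4 ∨ M.deg r = 6 := by
      rcases cases hr with h | ⟨e, h, rfl⟩ | ⟨e, h, h4, rfl⟩ | ⟨e, h, h4, rfl⟩
      · exact hF.deg _ h
      · rw [deg_nx]; exact hF.deg _ h
      · left; rw [deg_nx, deg_nx, h4]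
      · left; rw [deg_nx, deg_nx, deg_nx, h4]
    intro h1
    rcases hF.adj hr with h2 | h2
    · rw [h1] at h2
      have := key r h2.symm
      omega
    · rw [h1] at h2
      have h3 : M.nx r = r := by
        conv_lhs => rw [h2]
        rw [Equiv.apply_symm_apply]
      have := key r h3
      omega
  site r hr := by
    rcases hF.adj hr with h2 | h2
    · rw [h2]; exact site_nx r
    · rw [h2]; exact site_nx_symm r

theorem planar : PlanarP M.nx (fmu M F) (FR M F) :=
  PlanarP.of_adj hF.pairing fun _ hr => hF.adj hr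

theorem col {o : D → Bool} (ho : ∀ d, o (M.nx d) = !o d) (r : D) (hr : FR M F r) :
    o (fmu M F r) = !o r := by
  rcases hF.adj hr with h2 | h2
  · rw [h2, ho]
  · rw [h2]
    have := ho (M.nx.symm r)
    rw [Equiv.apply_symm_apply] at this
    rw [this, Bool.not_not]

end FoldSet

end DMap

end GT33
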