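import Pool.Agent.GT33.DSmooth
import Pool.Agent.GT33.DLegal
import Pool.Agent.GT33.DJoin

/-!
# GT33 module DQUAD: contraction of a quad

`q : ZMod 4 → D` numbers a site with four darts (`hq : M.SiteNum 4 q`).  `M.coll hq ..`: the quad is contracted
along the diagonal between the corners `q 1` and `q 3`: the four darts are removed, the strands which arrive at
`q 0`, `q 1` (resp. `q 2`, `q 3`) are joined.  The nodes of the sectors `q 1` and `q 3` are identified.
-/

open Classical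

namespace GT33

namespace DMap

variable {D : Type} {M : DMap D}

/-! ### smoothing in the language of `DMap` -/

/-- the map without the darts `R` -/
noncomputable def smooth [Finite D] (M : DMap D) {mu : D → D} {R : D → Prop} {o : D → Bool}
    (hp : Pairing M.nx mu R) (ho : ∀ d, o (M.al d) = !o d) (hm : ∀ r, R r → o (mu r) = !o r) :
    DMap {d // ¬ R d} where
  nx := phiR M.nx R
  al := alR M.al mu R
  inv := alR_alR M.inv hp
  ne d hd := by
    have := (alR_spec M.inv hp d).o ho hm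
    rw [hd] at this
    cases hd : o d.1 <;> rw [hd] at this <;> exact absurd this (by decide)

section

variable [Finite D] {mu : D → D} {R : D → Prop} {o : D → Bool}
    (hp : Pairing M.nx mu R) (ho : ∀ d, o (M.al d) = !o d) (hm : ∀ r, R r → o (mu r) = !o r)

theorem smooth_hom (hpl : PlanarP M.nx mu R) (h : M.Plane) : (M.smooth hp ho hm).Hom := by
  have : Fintype D := Fintype.ofFinite D
  intro c hc hs
  refine DHom.smooth M.inv hpl h.toD.hom c hc fun d => ?_
  refine hs (orb (phiR M.nx R) d) fun e => ?_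
  show phiR M.nx R e ∈ _ ↔ _
  rw [mem_orb, mem_orb, Equiv.Perm.sameCycle_apply_right]

theorem smooth_dconn (h : (M.smooth hp ho hm).Conn) :
    DConn (phiR M.nx R) (alR M.al mu R) := by
  intro P hP hP' hne
  refine h P (fun d => ⟨fun h1 => ?_, hP d⟩) hP' hne
  exact site_back (phi := phiR M.nx R) (A := fun _ => True) (M := P) (fun _ => Iff.rfl)
    (fun d _ => hP d) d trivial h1

/-- the nodes of the new map -/
theorem smooth_sameNode (hpl : PlanarP M.nx mu R) (h : M.Plane)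
    (hc : (M.smooth hp ho hm).Conn) (d e : {d // ¬ R d}) :
    (M.smooth hp ho hm).SameNode d e ↔ JoinedR M.nx M.al mu R d.1 e.1 := by
  have : Fintype D := Fintype.ofFinite D
  rw [sameNode_iff, ← dnodeR_iff M.inv hpl h.toD.hom (smooth_dconn hp ho hm hc)]
  rfl

/-- the rotation if whole sites are removed -/
theorem smooth_nx (hR : M.Sites R) (d : {d // ¬ R d}) :
    (M.smooth hp ho hm).nx d = ⟨M.nx d.1, fun h => d.2 ((hR d.1).1 h)⟩ := by
  show phiR M.nx R d = _
  rw [phiR, retPerm_apply]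
  exact ret_eq M.nx.injective (Ret.of_last (fun h => d.2 ((hR d.1).1 h)) rfl)

theorem smooth_al {d e : {d // ¬ R d}} (h : DStrand M.al mu R d.1 e.1) :
    (M.smooth hp ho hm).al d = e := alR_eq M.inv hp h

end

/-! ### quads -/

/-- the darts of the quad -/
def QR (q : ZMod 4 → D) (d : D) : Prop := ∃ i, q i = d

/-- the pairing of the diagonal between the corners `q 1` and `q 3` -/
noncomputable def qmu (q : ZMod 4 → D) (d : D) : D :=
  if d = q 0 then q 1 else if d = q 1 then q 0 else if d = q 2 then q 3 else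
    if d = q 3 then q 2 else d

section

variable {q : ZMod 4 → D}

theorem z4 (i : ZMod 4) : i = 0 ∨ i = 1 ∨ i = 2 ∨ i = 3 := by
  revert i; decide

theorem qr_q (i : ZMod 4) : QR q (q i) := ⟨i, rfl⟩

variable (hq : M.SiteNum 4 q)

theorem qmu0' : qmu q (q 0) = q 1 := by simp [qmu]

include hq

theorem qmu0 : qmu q (q 0) = q 1 := by
  have := hq
  exact qmu0'

theorem qmu1 : qmu q (q 1) = q 0 := by
  have h1 : q 1 ≠ q 0 := fun h => absurd (hq.inj h) (by decide)
  simp [qmu, h1]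

theorem qmu2 : qmu q (q 2) = q 3 := by
  have h1 : q 2 ≠ q 0 := fun h => absurd (hq.inj h) (by decide)
  have h2 : q 2 ≠ q 1 := fun h => absurd (hq.inj h) (by decide)
  simp [qmu, h1, h2]

theorem qmu3 : qmu q (q 3) = q 2 := by
  have h1 : q 3 ≠ q 0 := fun h => absurd (hq.inj h) (by decide)
  have h2 : q 3 ≠ q 1 := fun h => absurd (hq.inj h) (by decide)
  have h3 : q 3 ≠ q 2 := fun h => absurd (hq.inj h) (by decide)
  simp [qmu, h1, h2, h3]

theorem q_nx0 : M.nx (q 0) = q 1 := hq.nx 0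

theorem q_nx1 : M.nx (q 1) = q 2 := hq.nx 1

theorem q_nx2 : M.nx (q 2) = q 3 := hq.nx 2

theorem q_nx3 : M.nx (q 3) = q 0 := hq.nx 3

theorem q_pairing : Pairing M.nx (qmu q) (QR q) where
  inv := by
    rintro _ ⟨i, rfl⟩
    rcases z4 i with rfl | rfl | rfl | rfl
    · rw [qmu0 hq, qmu1 hq]
    · rw [qmu1 hq, qmu0 hq]
    · rw [qmu2 hq, qmu3 hq]
    · rw [qmu3 hq, qmu2 hq]
  mem := by
    rintro _ ⟨i, rfl⟩
    rcases z4 i with rfl | rfl | rfl | rfl
    · rw [qmu0 hq]; exact qr_q _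
    · rw [qmu1 hq]; exact qr_q _
    · rw [qmu2 hq]; exact qr_q _
    · rw [qmu3 hq]; exact qr_q _
  ne := by
    rintro _ ⟨i, rfl⟩
    rcases z4 i with rfl | rfl | rfl | rfl
    · rw [qmu0 hq]; exact fun h => absurd (hq.inj h) (by decide)
    · rw [qmu1 hq]; exact fun h => absurd (hq.inj h) (by decide)
    · rw [qmu2 hq]; exact fun h => absurd (hq.inj h) (by decide)
    · rw [qmu3 hq]; exact fun h => absurd (hq.inj h) (by decide)
  site := by
    rintro _ ⟨i, rfl⟩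
    rcases z4 i with rfl | rfl | rfl | rfl
    · rw [qmu0 hq]; exact hq.same (by decide) _ _
    · rw [qmu1 hq]; exact hq.same (by decide) _ _
    · rw [qmu2 hq]; exact hq.same (by decide) _ _
    · rw [qmu3 hq]; exact hq.same (by decide) _ _

theorem q_planar : PlanarP M.nx (qmu q) (QR q) := by
  refine PlanarP.of_adj (q_pairing hq) ?_
  rintro _ ⟨i, rfl⟩
  rcases z4 i with rfl | rfl | rfl | rfl
  · left; rw [qmu0 hq, q_nx0 hq]
  · right; rw [qmu1 hq, ← q_nx0 hq, Equiv.symm_apply_apply]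
  · left; rw [qmu2 hq, q_nx2 hq]
  · right; rw [qmu3 hq, ← q_nx2 hq, Equiv.symm_apply_apply]

theorem q_sites : M.Sites (QR q) := by
  intro d
  constructor
  · rintro ⟨i, hi⟩
    refine ⟨i - 1, M.nx.injective ?_⟩
    rw [hq.nx, sub_add_cancel, hi]
  · rintro ⟨i, rfl⟩
    exact ⟨i + 1, (hq.nx i).symm⟩

theorem q_col {o : D → Bool} (ho : ∀ d, o (M.nx d) = !o d) (r : D) (hr : QR q r) :
    o (qmu q r) = !o r := by
  obtain ⟨i, rfl⟩ := hr
  rcases z4 i with rfl | rfl | rfl | rfl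
  · rw [qmu0 hq, ← q_nx0 hq, ho]
  · rw [qmu1 hq, ← q_nx0 hq, ho, Bool.not_not]
  · rw [qmu2 hq, ← q_nx2 hq, ho]
  · rw [qmu3 hq, ← q_nx2 hq, ho, Bool.not_not]

/-- sectors which are joined by the contraction of the quad -/
theorem q_joined (d e : D) : JoinedR M.nx M.al (qmu q) (QR q) d e ↔
    M.SameNode d e ∨ (M.SameNode d (q 1) ∧ M.SameNode e (q 3)) ∨
      (M.SameNode d (q 3) ∧ M.SameNode e (q 1)) := by
  constructor
  · intro h
    induction h with
    | rel a b hab =>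
      rcases hab with rfl | ⟨⟨i, hi⟩, rfl⟩
      · left
        exact ⟨1, by rw [zpow_one]; rfl⟩
      · have ha : a = q (i - 1) := M.nx.injective (by rw [hq.nx, sub_add_cancel, hi])
        subst ha
        rw [← hi]
        rcases z4 i with rfl | rfl | rfl | rfl
        · right; right
          rw [qmu0 hq]
          exact ⟨Equiv.Perm.SameCycle.refl _ _, Equiv.Perm.SameCycle.refl _ _⟩
        · left
          rw [qmu1 hq, sub_self]
        · right; left
          rw [qmu2 hq]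
          exact ⟨Equiv.Perm.SameCycle.refl _ _, Equiv.Perm.SameCycle.refl _ _⟩
        · left
          rw [qmu3 hq]
          exact Equiv.Perm.SameCycle.refl _ _
    | refl a => exact Or.inl (Equiv.Perm.SameCycle.refl _ _)
    | symm a b _ ih =>
      rcases ih with h | ⟨h1, h2⟩ | ⟨h1, h2⟩
      · exact Or.inl h.symm
      · exact Or.inr (Or.inr ⟨h2, h1⟩)
      · exact Or.inr (Or.inl ⟨h2, h1⟩)
    | trans a b c _ _ ih1 ih2 =>
      rcases ih1 with h | ⟨h1, h2⟩ | ⟨h1, h2⟩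
      · rcases ih2 with h' | ⟨h3, h4⟩ | ⟨h3, h4⟩
        · exact Or.inl (h.trans h')
        · exact Or.inr (Or.inl ⟨h.trans h3, h4⟩)
        · exact Or.inr (Or.inr ⟨h.trans h3, h4⟩)
      · rcases ih2 with h' | ⟨h3, h4⟩ | ⟨h3, h4⟩
        · exact Or.inr (Or.inl ⟨h1, h'.symm.trans h2⟩)
        · exact Or.inl (h1.trans (h3.symm.trans (h2.trans h4.symm)))
        · exact Or.inl (h1.trans h4.symm)
      · rcases ih2 with h' | ⟨h3, h4⟩ | ⟨h3, h4⟩
        · exact Or.inr (Or.inr ⟨h1, h'.symm.trans h2⟩)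
        · exact Or.inl (h1.trans h4.symm)
        · exact Or.inl (h1.trans (h3.symm.trans (h2.trans h4.symm)))
  · have hsn : ∀ a b, M.SameNode a b → JoinedR M.nx M.al (qmu q) (QR q) a b := by
      rintro a b ⟨k, rfl⟩
      induction k with
      | zero => exact Relation.EqvGen.refl _
      | succ k ih =>
        refine ih.trans ?_
        rw [add_comm, zpow_one_add, Equiv.Perm.mul_apply]
        exact JoinedR.nstep _
      | pred k ih =>
        refine ih.trans ?_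
        apply JoinedR.symm
        have h1 : M.fs ((M.fs ^ (-(k : ℤ) - 1)) a) = (M.fs ^ (-(k : ℤ))) a := by
          rw [← Equiv.Perm.mul_apply, ← zpow_one_add, add_sub_cancel]
        rw [← h1]
        exact JoinedR.nstep _
    have h13 : JoinedR M.nx M.al (qmu q) (QR q) (q 1) (q 3) := by
      refine Relation.EqvGen.rel _ _ (Or.inr ?_)
      rw [q_nx1 hq]
      exact ⟨qr_q _, (qmu2 hq).symm⟩
    rintro (h | ⟨h1, h2⟩ | ⟨h1, h2⟩)
    · exact hsn _ _ h
    · exact (hsn _ _ h1).trans (h13.trans (hsn _ _ h2).symm)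
    · exact (hsn _ _ h1).trans (h13.symm.trans (hsn _ _ h2).symm)

/-- the pairing of the indices -/
def qs (i : ZMod 4) : ZMod 4 := if i = 0 then 1 else if i = 1 then 0 else if i = 2 then 3 else 2

theorem qmu_q (i : ZMod 4) : qmu q (q i) = q (qs i) := by
  rcases z4 i with rfl | rfl | rfl | rfl
  · rw [qmu0 hq]; rfl
  · rw [qmu1 hq]; rfl
  · rw [qmu2 hq]; rfl
  · rw [qmu3 hq]; rfl

omit hq in
theorem qs_qs (i : ZMod 4) : qs (qs i) = i := by
  revert i; decide

end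

/-! ### the contracted map -/

section

variable [Finite D] {q : ZMod 4 → D} {o : D → Bool} (hq : M.SiteNum 4 q)
  (ho : ∀ d, o (M.nx d) = !o d) (ho' : ∀ d, o (M.al d) = !o d)

/-- the contraction of the quad `q` along the diagonal between the corners `q 1` and `q 3` -/
noncomputable abbrev coll : DMap {d // ¬ QR q d} :=
  M.smooth (q_pairing hq) ho' (fun r hr => q_col hq ho r hr)

theorem coll_nx (d : {d // ¬ QR q d}) :
    (coll hq ho ho').nx d = ⟨M.nx d.1, fun h => d.2 ((q_sites hq d.1).1 h)⟩ :=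
  smooth_nx (q_pairing hq) ho' (fun r hr => q_col hq ho r hr) (q_sites hq) d

theorem coll_al_of {d : {d // ¬ QR q d}} (hd : ¬ QR q (M.al d.1)) :
    (coll hq ho ho').al d = ⟨M.al d.1, hd⟩ :=
  smooth_al (q_pairing hq) ho' (fun r hr => q_col hq ho r hr) (DStrand.last hd)

theorem coll_al_q (hnl : ∀ i, ¬ QR q (M.al (q i))) (i : ZMod 4) :
    (coll hq ho ho').al ⟨M.al (q i), hnl i⟩ = ⟨M.al (q (qs i)), hnl (qs i)⟩ := by
  refine smooth_al (q_pairing hq) ho' (fun r hr => q_col hq ho r hr) ?_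
  refine DStrand.step (by rw [M.inv]; exact qr_q i) ?_
  rw [M.inv, qmu_q hq]
  exact DStrand.last (hnl _)

theorem sites_coll {B : D → Prop} (hB : M.Sites B) : (coll hq ho ho').Sites fun d => B d.1 := by
  intro d
  rw [coll_nx]
  exact hB d.1

/-- sets of sites of the contracted map; the value at the quad can be chosen -/
theorem exists_sites_of_coll {B' : {d // ¬ QR q d} → Prop} (hB' : (coll hq ho ho').Sites B')
    (b : Prop) : ∃ B : D → Prop, M.Sites B ∧ (∀ d : {d // ¬ QR q d}, B d.1 ↔ B' d) ∧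
      ∀ i, B (q i) ↔ b := by
  refine ⟨fun d => (∃ hd : ¬ QR q d, B' ⟨d, hd⟩) ∨ (QR q d ∧ b), fun d => ?_, fun d => ?_, fun i => ?_⟩
  · by_cases hd : QR q d
    · have h1 : QR q (M.nx d) := (q_sites hq d).2 hd
      constructor
      · rintro (⟨h2, _⟩ | ⟨_, h2⟩)
        · exact absurd h1 h2
        · exact Or.inr ⟨hd, h2⟩
      · rintro (⟨h2, _⟩ | ⟨_, h2⟩)
        · exact absurd hd h2
        · exact Or.inr ⟨h1, h2⟩
    · have h1 : ¬ QR q (M.nx d) := fun h => hd ((q_sites hq d).1 h)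
      have h2 := hB' ⟨d, hd⟩
      rw [coll_nx] at h2
      constructor
      · rintro (⟨_, h3⟩ | ⟨h3, _⟩)
        · exact Or.inl ⟨hd, h2.1 h3⟩
        · exact absurd h3 h1
      · rintro (⟨_, h3⟩ | ⟨h3, _⟩)
        · exact Or.inl ⟨h1, h2.2 h3⟩
        · exact absurd h3 hd
  · constructor
    · rintro (⟨_, h3⟩ | ⟨h3, _⟩)
      · exact h3
      · exact absurd h3 d.2
    · exact fun h3 => Or.inl ⟨d.2, h3⟩
  · constructor
    · rintro (⟨h3, _⟩ | ⟨_, h3⟩)
      · exact absurd (qr_q i) h3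
      · exact h3
    · exact fun h3 => Or.inr ⟨qr_q i, h3⟩

end

section

variable [Fintype D] {q : ZMod 4 → D} {o : D → Bool} (hq : M.SiteNum 4 q)
  (ho : ∀ d, o (M.nx d) = !o d) (ho' : ∀ d, o (M.al d) = !o d)

theorem sum_q {β : Type*} [AddCommMonoid β] (hq : M.SiteNum 4 q) (f : D → β) :
    ∑ d, f d = ∑ d : {d // ¬ QR q d}, f d.1 + (f (q 0) + f (q 1) + f (q 2) + f (q 3)) := by
  rw [← Fintype.sum_subtype_add_sum_subtype (QR q) f, add_comm]
  congr 1
  let e : ZMod 4 ≃ {d // QR q d} := Equiv.ofBijective (fun i => ⟨q i, qr_q i⟩)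
    ⟨fun i j hij => hq.inj (congrArg Subtype.val hij), fun ⟨d, i, hi⟩ => ⟨i, Subtype.ext hi⟩⟩
  rw [← Equiv.sum_comp e fun d => f d.1]
  exact Fin.sum_univ_four (fun i : Fin 4 => f (q i))

theorem sum_al_q {β : Type*} [AddCommMonoid β] (hq : M.SiteNum 4 q)
    (hnl : ∀ i, ¬ QR q (M.al (q i))) (f : {d // ¬ QR q d} → β) :
    ∑ d, f d = ∑ d ∈ (Finset.univ.image fun i : ZMod 4 =>
        (⟨M.al (q i), hnl i⟩ : {d // ¬ QR q d}))ᶜ, f d +
      (f ⟨M.al (q 0), hnl 0⟩ + f ⟨M.al (q 1), hnl 1⟩ + f ⟨M.al (q 2), hnl 2⟩ +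
        f ⟨M.al (q 3), hnl 3⟩) := by
  rw [← Finset.sum_compl_add_sum (Finset.univ.image fun i : ZMod 4 =>
        (⟨M.al (q i), hnl i⟩ : {d // ¬ QR q d}))]
  congr 1
  rw [Finset.sum_image]
  · exact Fin.sum_univ_four (fun i : Fin 4 => f ⟨M.al (q i), hnl i⟩)
  · intro i _ j _ hij
    exact hq.inj (M.al_inj (congrArg Subtype.val hij))

/-- cuts of the contracted map -/
theorem cut_coll (hnl : ∀ i, ¬ QR q (M.al (q i))) {B : D → Prop} (hB : M.Sites B) :
    M.cut B = (coll hq ho ho').cut (fun d => B d.1) +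
      ((if (B (M.al (q 0)) ↔ B (q 0)) ∨ (B (M.al (q 1)) ↔ B (q 0)) then 0 else 2) +
      if (B (M.al (q 2)) ↔ B (q 0)) ∨ (B (M.al (q 3)) ↔ B (q 0)) then 0 else 2) := by
  rw [cut_eq_sum, cut_eq_sum, sum_q hq, sum_al_q hq hnl, sum_al_q hq hnl]
  have h1 : ∑ d ∈ (Finset.univ.image fun i : ZMod 4 =>
        (⟨M.al (q i), hnl i⟩ : {d // ¬ QR q d}))ᶜ, (if B d.1 ∧ ¬ B (M.al d.1) then 1 else 0) =
      ∑ d ∈ (Finset.univ.image fun i : ZMod 4 =>
        (⟨M.al (q i), hnl i⟩ : {d // ¬ QR q d}))ᶜ,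
        (if B d.1 ∧ ¬ B ((coll hq ho ho').al d).1 then 1 else 0) := by
    refine Finset.sum_congr rfl fun d hd => ?_
    rw [coll_al_of]
    rintro ⟨i, hi⟩
    rw [Finset.mem_compl] at hd
    apply hd
    refine Finset.mem_image.2 ⟨i, Finset.mem_univ _, Subtype.ext ?_⟩
    show M.al (q i) = d.1
    rw [hi, M.inv]
  rw [h1]
  have hq1 : B (q 1) ↔ B (q 0) := by rw [← q_nx0 hq, hB]
  have hq2 : B (q 2) ↔ B (q 0) := by rw [← q_nx1 hq, hB, hq1]
  have hq3 : B (q 3) ↔ B (q 0) := by rw [← q_nx2 hq, hB, hq2]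
  simp only [coll_al_q hq ho ho' hnl, M.inv, hq1, hq2, hq3]
  have e0 : qs 0 = 1 := rfl
  have e1 : qs 1 = 0 := rfl
  have e2 : qs 2 = 3 := rfl
  have e3 : qs 3 = 2 := rfl
  rw [e0, e1, e2, e3]
  by_cases x0 : B (M.al (q 0)) <;> by_cases x1 : B (M.al (q 1)) <;>
    by_cases x2 : B (M.al (q 2)) <;> by_cases x3 : B (M.al (q 3)) <;> by_cases z : B (q 0) <;>
    simp [x0, x1, x2, x3, z]

omit [Fintype D] in
include hq in
/-- the quad has no loops -/
theorem q_nl (h : M.Legal) (i : ZMod 4) : ¬ QR q (M.al (q i)) := by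
  rintro ⟨j, hj⟩
  exact h.noloop (q i) (by rw [← hj]; exact hq.same (by decide) i j)

include hq in
theorem qr_iff (d : D) (i : ZMod 4) : QR q d ↔ M.SameSite (q i) d := by
  constructor
  · rintro ⟨j, rfl⟩
    exact hq.same (by decide) i j
  · intro h
    exact hq.mem h

theorem coll_sameSite (d e : {d // ¬ QR q d}) :
    (coll hq ho ho').SameSite d e ↔ M.SameSite d.1 e.1 :=
  retPerm_sameCycle M.nx _ d e

theorem coll_conn (hnl : ∀ i, ¬ QR q (M.al (q i)))
    (hcut : ∀ B : D → Prop, M.Sites B → (∃ d, B d) → (∃ d, ¬ B d) → 3 ≤ M.cut B) :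
    (coll hq ho ho').Conn := by
  intro B' hB' hal ⟨d, hd⟩ e
  by_contra he
  obtain ⟨B, hB, h1, h2⟩ := exists_sites_of_coll hq ho ho' hB' (B' ⟨M.al (q 0), hnl 0⟩)
  have h3 := hcut B hB ⟨d.1, (h1 d).2 hd⟩ ⟨e.1, fun h => he ((h1 e).1 h)⟩
  have h4 : (coll hq ho ho').cut (fun d => B d.1) = 0 := by
    unfold cut
    rw [Nat.card_eq_zero]
    left
    constructor
    rintro ⟨x, hx1, hx2⟩
    exact hx2 ((h1 _).2 (hal x ((h1 x).1 hx1)))
  have h5 : B (M.al (q 0)) ↔ B (q 0) := by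
    rw [h2 0]
    exact h1 ⟨M.al (q 0), hnl 0⟩
  rw [cut_coll hq ho ho' hnl hB, h4, if_pos (Or.inl h5)] at h3
  split_ifs at h3 <;> omega

/-- cuts of the contracted map are cuts of `M`, or separate the two ends of the diagonal -/
theorem coll_cut_cases (hnl : ∀ i, ¬ QR q (M.al (q i))) {B' : {d // ¬ QR q d} → Prop}
    (hB' : (coll hq ho ho').Sites B') :
    (∃ B : D → Prop, M.Sites B ∧ (∀ d : {d // ¬ QR q d}, B d.1 ↔ B' d) ∧
      M.cut B = (coll hq ho ho').cut B') ∨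
    ∃ B : D → Prop, M.Sites B ∧ ¬ B (q 0) ∧ B (M.al (q 0)) ∧ B (M.al (q 1)) ∧
      ¬ B (M.al (q 2)) ∧ ¬ B (M.al (q 3)) ∧ M.cut B = (coll hq ho ho').cut B' + 2 ∧
      ((∀ d : {d // ¬ QR q d}, B d.1 ↔ B' d) ∨ ∀ d : {d // ¬ QR q d}, B d.1 ↔ ¬ B' d) := by
  have key : ∀ b : Prop, ((B' ⟨M.al (q 0), hnl 0⟩ ↔ b) ∨ (B' ⟨M.al (q 1), hnl 1⟩ ↔ b)) →
      ((B' ⟨M.al (q 2), hnl 2⟩ ↔ b) ∨ (B' ⟨M.al (q 3), hnl 3⟩ ↔ b)) →
      ∃ B : D → Prop, M.Sites B ∧ (∀ d : {d // ¬ QR q d}, B d.1 ↔ B' d) ∧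
        M.cut B = (coll hq ho ho').cut B' := by
    intro b h01 h23
    obtain ⟨B, hB, h1, h2⟩ := exists_sites_of_coll hq ho ho' hB' b
    refine ⟨B, hB, h1, ?_⟩
    have e1 : ∀ i, B (M.al (q i)) ↔ B' ⟨M.al (q i), hnl i⟩ := fun i => h1 ⟨_, hnl i⟩
    rw [cut_coll hq ho ho' hnl hB, e1, e1, e1, e1, h2, if_pos h01, if_pos h23]
    exact cut_congr h1
  by_cases t2 : ¬ B' ⟨M.al (q 0), hnl 0⟩ ∧ ¬ B' ⟨M.al (q 1), hnl 1⟩ ∧
      B' ⟨M.al (q 2), hnl 2⟩ ∧ B' ⟨M.al (q 3), hnl 3⟩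
  · obtain ⟨x0, x1, x2, x3⟩ := t2
    right
    obtain ⟨B, hB, h1, h2⟩ := exists_sites_of_coll hq ho ho' hB'.not False
    have e1 : ∀ i, B (M.al (q i)) ↔ ¬ B' ⟨M.al (q i), hnl i⟩ := fun i => h1 ⟨_, hnl i⟩
    refine ⟨B, hB, (h2 0).1, (e1 0).2 x0, (e1 1).2 x1, fun h => (e1 2).1 h x2,
      fun h => (e1 3).1 h x3, ?_, Or.inr h1⟩
    rw [cut_coll hq ho ho' hnl hB, e1, e1, e1, e1, h2, if_neg, if_pos]
    · rw [add_zero, cut_congr h1, cut_not]
    · simp [x2]
    · simp [x0, x1]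
  by_cases t1 : B' ⟨M.al (q 0), hnl 0⟩ ∧ B' ⟨M.al (q 1), hnl 1⟩ ∧
      ¬ B' ⟨M.al (q 2), hnl 2⟩ ∧ ¬ B' ⟨M.al (q 3), hnl 3⟩
  · obtain ⟨x0, x1, x2, x3⟩ := t1
    right
    obtain ⟨B, hB, h1, h2⟩ := exists_sites_of_coll hq ho ho' hB' False
    have e1 : ∀ i, B (M.al (q i)) ↔ B' ⟨M.al (q i), hnl i⟩ := fun i => h1 ⟨_, hnl i⟩
    refine ⟨B, hB, (h2 0).1, (e1 0).2 x0, (e1 1).2 x1, fun h => x2 ((e1 2).1 h),
      fun h => x3 ((e1 3).1 h), ?_, Or.inl h1⟩
    rw [cut_coll hq ho ho' hnl hB, e1, e1, e1, e1, h2, if_neg, if_pos]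
    · rw [add_zero, cut_congr h1]
    · simp [x2]
    · simp [x0, x1]
  left
  by_cases h1 : ((B' ⟨M.al (q 0), hnl 0⟩ ↔ True) ∨ (B' ⟨M.al (q 1), hnl 1⟩ ↔ True)) ∧
      ((B' ⟨M.al (q 2), hnl 2⟩ ↔ True) ∨ (B' ⟨M.al (q 3), hnl 3⟩ ↔ True))
  · exact key True h1.1 h1.2
  · refine key False ?_ ?_ <;> tauto

theorem coll_deg (d : {d // ¬ QR q d}) : (coll hq ho ho').deg d = M.deg d.1 := by
  unfold DMap.deg
  have h1 : ∀ k : ℕ, (((coll hq ho ho').nx)^[k] d).1 = (M.nx)^[k] d.1 := by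
    intro k
    induction k with
    | zero => rfl
    | succ k ih =>
      rw [Function.iterate_succ_apply', Function.iterate_succ_apply', coll_nx, ← ih]
  apply Nat.dvd_antisymm
  · apply Function.IsPeriodicPt.minimalPeriod_dvd
    apply Subtype.ext
    rw [h1]
    exact Function.isPeriodicPt_minimalPeriod M.nx d.1
  · apply Function.IsPeriodicPt.minimalPeriod_dvd
    show M.nx^[_] d.1 = d.1
    rw [← h1]
    exact congrArg Subtype.val (Function.isPeriodicPt_minimalPeriod (coll hq ho ho').nx d)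

include hq ho ho' in
theorem q_no_double (h : M.Legal)
    (hex : ∀ B : D → Prop, M.Sites B → ¬ B (q 0) → B (M.al (q 0)) → B (M.al (q 1)) →
      ¬ B (M.al (q 2)) → ¬ B (M.al (q 3)) → 6 < M.cut B)
    (hbig : ∀ e f, ∃ d, ¬ QR q d ∧ ¬ M.SameSite e d ∧ ¬ M.SameSite f d) (i : ZMod 4) :
    ¬ M.SameSite (M.al (q i)) (M.al (q (qs i))) := by
  intro hs
  have hnl := q_nl hq h
  set S : D → Prop := M.SameSite (M.al (q i)) with hS
  have hSs : M.Sites S := sites_site _
  have hSq : ∀ d, S d → ¬ QR q d := fun d hd hdq =>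
    hnl i (((q_sites hq).same hd).2 hdq)
  have hSc : M.cut S ≤ 6 := by
    rw [hS, h.cut_site]
    rcases h.deg (M.al (q i)) with h1 | h1 <;> omega
  have hSi : S (M.al (q i)) := Equiv.Perm.SameCycle.refl _ _
  have hSi' : S (M.al (q (qs i))) := hs
  have hTs : M.Sites fun d => S d ∨ QR q d := hSs.or (q_sites hq)
  have hTe : ∀ d, (¬ QR q d) → ((S d ∨ QR q d) ↔ S d) := fun d hd =>
    ⟨fun h1 => h1.resolve_right hd, Or.inl⟩
  have hcT : (DMap.coll hq ho ho').cut (fun d => S d.1 ∨ QR q d.1) =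
      (DMap.coll hq ho ho').cut fun d => S d.1 := cut_congr fun d => hTe d.1 d.2
  have h1 := cut_coll hq ho ho' hnl hSs
  have h2 := cut_coll hq ho ho' hnl hTs
  have hS0 : S (q 0) ↔ False := iff_false_intro fun h3 => hSq _ h3 (qr_q 0)
  have hQ0 : QR q (q 0) := qr_q 0
  have hTa : ∀ j, (S (M.al (q j)) ∨ QR q (M.al (q j))) ↔ S (M.al (q j)) := fun j => hTe _ (hnl j)
  rw [hcT] at h2
  simp only [hTa, hS0] at h1 h2
  have hT4 : 4 ≤ M.cut fun d => S d ∨ QR q d := by
    obtain ⟨d, hd1, hd2, -⟩ := hbig (M.al (q i)) (M.al (q i))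
    exact h.cut4 _ hTs ⟨q 0, Or.inr (qr_q 0)⟩ ⟨d, fun h3 => h3.elim hd2 hd1⟩
  have hT5 : M.cut (fun d => S d ∨ QR q d) ≠ 4 := by
    intro h3
    rcases h.quad _ hTs h3 with ⟨d, hd⟩ | ⟨d, hd⟩
    · have h4 := (hd _).1 (Or.inl hSi)
      have h5 := (hd _).1 (Or.inr (qr_q 0))
      exact hnl i ((qr_iff hq _ 0).2 (h5.symm.trans h4))
    · obtain ⟨e, he1, he2, he3⟩ := hbig (M.al (q i)) d
      exact he3 ((hd e).1 fun h4 => h4.elim he2 he1)
  have h01 : (S (M.al (q 0)) ∧ S (M.al (q 1))) ∨ (S (M.al (q 2)) ∧ S (M.al (q 3))) := by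
    rcases z4 i with rfl | rfl | rfl | rfl
    · exact Or.inl ⟨hSi, hSi'⟩
    · exact Or.inl ⟨hSi', hSi⟩
    · exact Or.inr ⟨hSi, hSi'⟩
    · exact Or.inr ⟨hSi', hSi⟩
  by_cases x0 : S (M.al (q 0)) <;> by_cases x1 : S (M.al (q 1)) <;>
    by_cases x2 : S (M.al (q 2)) <;> by_cases x3 : S (M.al (q 3)) <;>
    simp [x0, x1, x2, x3, hQ0] at h1 h2 h01
  · omega
  · omega
  · omega
  · have := hex S hSs (fun h3 => hSq _ h3 (qr_q 0)) x0 x1 x2 x3
    omega
  · omega
  · omega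
  · have := hex (fun d => ¬ (S d ∨ QR q d)) hTs.not (fun h3 => h3 (Or.inr (qr_q 0)))
      (fun h3 => x0 ((hTa 0).1 h3)) (fun h3 => x1 ((hTa 1).1 h3))
      (fun h3 => h3 (Or.inl x2)) (fun h3 => h3 (Or.inl x3))
    rw [cut_not] at this
    omega

/-- the contraction of a quad of a legal map is legal if there are no small cuts through the ends of the
diagonal -/
theorem Legal.coll (h : M.Legal)
    (hex : ∀ B : D → Prop, M.Sites B → ¬ B (q 0) → B (M.al (q 0)) → B (M.al (q 1)) →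
      ¬ B (M.al (q 2)) → ¬ B (M.al (q 3)) → 6 < M.cut B)
    (hbig : ∀ e f, ∃ d, ¬ QR q d ∧ ¬ M.SameSite e d ∧ ¬ M.SameSite f d) :
    (coll hq ho ho').Legal := by
  have hnl := q_nl hq h
  have hcut4 : ∀ B' : {d // ¬ QR q d} → Prop, (DMap.coll hq ho ho').Sites B' → (∃ d, B' d) →
      (∃ d, ¬ B' d) → 4 ≤ (DMap.coll hq ho ho').cut B' := by
    intro B' hB' h1 h2
    rcases coll_cut_cases hq ho ho' hnl hB' with ⟨B, hB, h3, h4⟩ | ⟨B, hB, h3, h4, h5, h6, h7, h8, -⟩
    · rw [← h4]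
      obtain ⟨d, hd⟩ := h1
      obtain ⟨e, he⟩ := h2
      exact h.cut4 B hB ⟨d.1, (h3 d).2 hd⟩ ⟨e.1, fun h9 => he ((h3 e).1 h9)⟩
    · have := hex B hB h3 h4 h5 h6 h7
      omega
  have hsingle : ∀ B' : {d // ¬ QR q d} → Prop, (DMap.coll hq ho ho').cut B' = 4 →
      ∀ B : D → Prop, (∀ d : {d // ¬ QR q d}, B d.1 ↔ B' d) → (∃ d, ∀ e, B e ↔ M.SameSite d e) →
      ∃ d, ∀ e, B' e ↔ (DMap.coll hq ho ho').SameSite d e := by
    intro B' hc B hB ⟨d, hd⟩
    by_cases hdq : QR q d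
    · exfalso
      have h0 : ∀ e, ¬ B' e := by
        intro e he
        rw [← hB, hd] at he
        exact e.2 (((q_sites hq).same he).1 hdq)
      have h1 : (DMap.coll hq ho ho').cut B' = 0 := by
        unfold cut
        rw [Nat.card_eq_zero]
        left
        exact ⟨fun x => h0 _ x.2.1⟩
      omega
    · refine ⟨⟨d, hdq⟩, fun e => ?_⟩
      rw [← hB, hd, coll_sameSite]
  refine ⟨⟨smooth_hom _ _ _ (q_planar hq) h.plane,
    coll_conn hq ho ho' hnl fun B hB h1 h2 => ?_⟩, ?_, hcut4, ?_, ?_⟩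
  · have := h.cut4 B hB h1 h2
    omega
  · -- no loops
    intro d hd
    by_cases hdq : QR q (M.al d.1)
    · obtain ⟨i, hi⟩ := hdq
      have hd' : d = ⟨M.al (q i), hnl i⟩ := by
        apply Subtype.ext
        show d.1 = M.al (q i)
        rw [hi, M.inv]
      subst hd'
      rw [coll_al_q hq ho ho' hnl, coll_sameSite] at hd
      exact q_no_double hq ho ho' h hex hbig i hd
    · rw [coll_al_of hq ho ho' hdq, coll_sameSite] at hd
      exact h.noloop _ hd
  · intro B' hB' hc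
    rcases coll_cut_cases hq ho ho' hnl hB' with ⟨B, hB, h3, h4⟩ | ⟨B, hB, h3, h4, h5, h6, h7, h8, -⟩
    · rcases h.quad B hB (h4.trans hc) with h5 | h5
      · exact Or.inl (hsingle B' hc B h3 h5)
      · exact Or.inr (hsingle (fun d => ¬ B' d) (by rw [cut_not, hc]) (fun d => ¬ B d)
          (fun d => not_congr (h3 d)) h5)
    · have := hex B hB h3 h4 h5 h6 h7
      omega
  · intro d
    rw [coll_deg]
    exact h.deg d.1

/-! ### nodes and states -/

/-- the nodes of the contracted map -/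
theorem coll_sameNode (h : M.Plane) (hc : (coll hq ho ho').Conn) (d e : {d // ¬ QR q d}) :
    (coll hq ho ho').SameNode d e ↔ M.SameNode d.1 e.1 ∨
      (M.SameNode d.1 (q 1) ∧ M.SameNode e.1 (q 3)) ∨
      (M.SameNode d.1 (q 3) ∧ M.SameNode e.1 (q 1)) := by
  rw [← q_joined hq]
  exact smooth_sameNode (q_pairing hq) ho' (fun r hr => q_col hq ho r hr) (q_planar hq) h hc d e

omit [Fintype D] in
/-- a strand through `R ⊆ A` between darts of `A` -/
theorem str_of_dstrand {A : D → Prop} {mu μ : D → D} {R : D → Prop} (hRA : ∀ d, R d → A d)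
    (hmR : ∀ d, R d → R (mu d)) (hμ : ∀ d, R d → μ d = mu d) {d e : D}
    (h : DStrand M.al mu R d e) (hd : A d) (he : A e) : M.Str A μ d e := by
  induction h with
  | last h => exact Relation.EqvGen.rel _ _ ⟨hd, Or.inr ⟨rfl, he⟩⟩
  | @step d e h1 h2 ih =>
    have h3 := hRA _ h1
    refine Relation.EqvGen.trans _ _ _ (Relation.EqvGen.rel _ _ ⟨hd, Or.inr ⟨rfl, h3⟩⟩) ?_
    refine Relation.EqvGen.trans _ _ _ (Relation.EqvGen.rel _ _ ⟨h3, Or.inl rfl⟩) ?_
    rw [hμ _ h1]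
    exact ih (hRA _ (hmR _ h1)) he

/-- the units of the node of `d` in `A` outside the quad -/
noncomputable def cout (M : DMap D) (q : ZMod 4 → D) (A : D → Prop) (ω' : {d // ¬ QR q d} → ℕ)
    (d : D) : ℕ :=
  ∑ e : {d // ¬ QR q d}, if M.SameNode d e.1 ∧ A e.1 then ω' e else 0

omit [Fintype D] in
theorem ite_iff {α : Type*} {p r : Prop} {i : Decidable p} {j : Decidable r} (h : p ↔ r)
    (x y : α) : @ite α p i x y = @ite α r j x y := by
  by_cases hp : p
  · rw [if_pos hp, if_pos (h.1 hp)]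
  · rw [if_neg hp, if_neg fun hr => hp (h.2 hr)]

theorem cout_same {A : D → Prop} {ω' : {d // ¬ QR q d} → ℕ} {d e : D} (h : M.SameNode d e) :
    cout M q A ω' d = cout M q A ω' e := by
  unfold cout
  refine Finset.sum_congr rfl fun x _ => ?_
  have : M.SameNode d x.1 ↔ M.SameNode e x.1 := ⟨fun h1 => h.symm.trans h1, fun h1 => h.trans h1⟩
  exact ite_iff (and_congr_left fun _ => this) _ _

omit [Fintype D] in
theorem usum_eq [Fintype D] (A : D → Prop) (ω : D → ℕ) (d : D) :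
    M.usum A ω d = ∑ e, if M.SameNode d e ∧ A e then ω e else 0 := by
  unfold usum nodeIn
  rw [Finset.sum_filter]

include hq in
/-- the units of a node of `M` -/
theorem usum_q {A : D → Prop} (hA : ∀ i, A (q i)) {ω : D → ℕ} {ω' : {d // ¬ QR q d} → ℕ}
    (hω : ∀ e, ω e.1 = ω' e) (d : D) :
    M.usum A ω d = cout M q A ω' d + ((if M.SameNode d (q 0) then ω (q 0) else 0) +
      (if M.SameNode d (q 1) then ω (q 1) else 0) + (if M.SameNode d (q 2) then ω (q 2) else 0) +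
      if M.SameNode d (q 3) then ω (q 3) else 0) := by
  rw [usum_eq, sum_q hq]
  simp only [hA, and_true, hω]
  rfl

/-- the units of a node of the contracted map which is not an end of the diagonal -/
theorem coll_usum_of (h : M.Plane) (hc : (coll hq ho ho').Conn) {A : D → Prop}
    (ω' : {d // ¬ QR q d} → ℕ) {e : {d // ¬ QR q d}} (h1 : ¬ M.SameNode e.1 (q 1))
    (h3 : ¬ M.SameNode e.1 (q 3)) :
    (coll hq ho ho').usum (fun e => A e.1) ω' e = cout M q A ω' e.1 := by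
  rw [usum_eq]
  unfold cout
  refine Finset.sum_congr rfl fun x _ => ?_
  refine ite_iff (and_congr_left fun _ => ?_) _ _
  rw [coll_sameNode hq ho ho' h hc]
  simp only [h1, h3, false_and, or_false]

/-- the units of the merged node -/
theorem coll_usum_merged (h : M.Plane) (hc : (coll hq ho ho').Conn) {A : D → Prop}
    (ω' : {d // ¬ QR q d} → ℕ) (hne : ¬ M.SameNode (q 1) (q 3)) {e : {d // ¬ QR q d}}
    (he : M.SameNode e.1 (q 1) ∨ M.SameNode e.1 (q 3)) :
    (coll hq ho ho').usum (fun e => A e.1) ω' e = cout M q A ω' (q 1) + cout M q A ω' (q 3) := by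
  rw [usum_eq]
  unfold cout
  rw [← Finset.sum_add_distrib]
  refine Finset.sum_congr rfl fun x _ => ?_
  have key : (M.SameNode e.1 x.1 ∨ (M.SameNode e.1 (q 1) ∧ M.SameNode x.1 (q 3)) ∨
      (M.SameNode e.1 (q 3) ∧ M.SameNode x.1 (q 1))) ↔
      (M.SameNode (q 1) x.1 ∨ M.SameNode (q 3) x.1) := by
    constructor
    · rintro (h1 | ⟨-, h1⟩ | ⟨-, h1⟩)
      · rcases he with h2 | h2
        · exact Or.inl (h2.symm.trans h1)
        · exact Or.inr (h2.symm.trans h1)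
      · exact Or.inr h1.symm
      · exact Or.inl h1.symm
    · rcases he with h2 | h2
      · rintro (h1 | h1)
        · exact Or.inl (h2.trans h1)
        · exact Or.inr (Or.inl ⟨h2, h1.symm⟩)
      · rintro (h1 | h1)
        · exact Or.inr (Or.inr ⟨h2, h1.symm⟩)
        · exact Or.inl (h2.trans h1)
  rw [← coll_sameNode hq ho ho' h hc] at key
  refine (ite_iff (j := propDecidable _) (and_congr_left fun _ => key) _ _).trans ?_
  by_cases h1 : M.SameNode (q 1) x.1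
  · have h2 : ¬ M.SameNode (q 3) x.1 := fun h3 => hne (h1.trans h3.symm)
    simp [h1, h2]
  · by_cases h2 : M.SameNode (q 3) x.1
    · simp [h1, h2]
    · simp [h1, h2]

/-- **Lift of a state through the contraction of a quad.** -/
theorem Real.of_coll (h : M.Legal) (hc : (coll hq ho ho').Conn)
    {E : (n : ℕ) → PState n → Prop} {A : D → Prop} (hAq : A (q 0)) {n : ℕ} {δ : ZMod n → D}
    (hb : M.Bd A n δ) {δ' : ZMod n → {d // ¬ QR q d}}
    (hδ' : ∀ i, ((coll hq ho ho').al (δ' i)).1 = M.al (δ i)) (hδA : ∀ i, A (δ' i).1)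
    {s : PState n} {μ' : {d // ¬ QR q d} → {d // ¬ QR q d}} {ω' : {d // ¬ QR q d} → ℕ}
    (hR : (coll hq ho ho').Real E (fun e => A e.1) δ' s μ' ω')
    {w : PState 4} (hE : E 4 w) (hm : ∀ i, w.m i = qs i) (hu0 : w.u 0 = 0) (hu2 : w.u 2 = 0)
    (h1 : (∀ e, M.SameNode (q 1) e → A e) → cout M q A ω' (q 1) + w.u 1 = 3)
    (h1' : ∀ i, M.SameNode (q 1) (δ i) → cout M q A ω' (q 1) + w.u 1 = s.u i)
    (h3 : (∀ e, M.SameNode (q 3) e → A e) → cout M q A ω' (q 3) + w.u 3 = 3)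
    (h3' : ∀ i, M.SameNode (q 3) (δ i) → cout M q A ω' (q 3) + w.u 3 = s.u i) :
    ∃ μ ω, M.Real E A δ s μ ω := by
  have hnl := q_nl hq h
  have hAq' : ∀ d, QR q d → A d := fun d hd =>
    (Sites.same (M := M) hb.site ((qr_iff hq d 0).1 hd)).1 hAq
  have hne : ¬ M.SameNode (q 1) (q 3) := fun h4 =>
    absurd (hq.inj (h.node_inj (hq.same (by decide) 1 3) h4)) (by decide)
  let μ : D → D := fun d => if hd : QR q d then qmu q d else (μ' ⟨d, hd⟩).1
  let ω : D → ℕ := fun d => if hd : QR q d then w.u hd.choose else ω' ⟨d, hd⟩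
  have hμ1 : ∀ d, QR q d → μ d = qmu q d := fun d hd => dif_pos hd
  have hμ2 : ∀ e : {d // ¬ QR q d}, μ e.1 = (μ' e).1 := fun e => dif_neg e.2
  have hω1 : ∀ i, ω (q i) = w.u i := by
    intro i
    have hd : QR q (q i) := qr_q i
    show (if hd : QR q (q i) then w.u hd.choose else ω' ⟨q i, hd⟩) = w.u i
    rw [dif_pos hd]
    congr 1
    exact hq.inj hd.choose_spec
  have hω2 : ∀ e : {d // ¬ QR q d}, ω e.1 = ω' e := fun e => dif_neg e.2
  -- strands
  have hds : ∀ {d e : D}, DStrand M.al (qmu q) (QR q) d e → A d → A e → M.Str A μ d e :=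
    fun hde hd he => str_of_dstrand hAq' (q_pairing hq).mem hμ1 hde hd he
  have hstr : ∀ x y, (coll hq ho ho').Str (fun e => A e.1) μ' x y → M.Str A μ x.1 y.1 := by
    intro x y hxy
    induction hxy with
    | rel x y hxy =>
      rcases hxy.2 with h4 | h4
      · refine Relation.EqvGen.rel _ _ ⟨hxy.1, Or.inl ?_⟩
        rw [hμ2, h4]
      · have h5 := h4.2
        rw [h4.1] at h5
        rw [h4.1]
        exact hds (alR_spec M.inv (q_pairing hq) x) hxy.1 h5
    | refl x => exact Relation.EqvGen.refl _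
    | symm x y _ ih => exact Relation.EqvGen.symm _ _ ih
    | trans x y z _ _ ih1 ih2 => exact Relation.EqvGen.trans _ _ _ ih1 ih2
  have hδs : ∀ i, M.Str A μ (δ i) (δ' i).1 := by
    intro i
    have h4 : DStrand M.al (qmu q) (QR q) (M.al (δ i)) (δ' i).1 := by
      have h5 := alR_spec M.inv (q_pairing hq) ((coll hq ho ho').al (δ' i))
      rw [hδ'] at h5
      have h6 : alR M.al (qmu q) (QR q) ((coll hq ho ho').al (δ' i)) = δ' i :=
        (coll hq ho ho').inv (δ' i)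
      rwa [h6] at h5
    generalize hx : M.al (δ i) = x at h4
    generalize hy : (δ' i).1 = y at h4
    have hyA : A y := by rw [← hy]; exact hδA i
    cases h4 with
    | last h5 =>
      rw [← hx, M.inv]
      exact Relation.EqvGen.refl _
    | step h5 h6 =>
      rw [← hx, M.inv] at h5 h6
      have h7 := hAq' _ h5
      refine Relation.EqvGen.trans _ _ _ (Relation.EqvGen.rel _ _ ⟨h7, Or.inl rfl⟩) ?_
      rw [hμ1 _ h5]
      exact hds h6 (hAq' _ ((q_pairing hq).mem _ h5)) hyA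
  -- sums
  have hsum1 : M.usum A ω (q 1) = cout M q A ω' (q 1) + w.u 1 := by
    rw [usum_q hq (fun i => hAq' _ (qr_q i)) hω2, hω1, hω1, hω1, hω1, hu0, hu2, if_neg hne,
      if_pos (Equiv.Perm.SameCycle.refl _ _)]
    simp
  have hsum3 : M.usum A ω (q 3) = cout M q A ω' (q 3) + w.u 3 := by
    have hne' : ¬ M.SameNode (q 3) (q 1) := fun h4 => hne h4.symm
    rw [usum_q hq (fun i => hAq' _ (qr_q i)) hω2, hω1, hω1, hω1, hω1, hu0, hu2,
      if_neg hne', if_pos (Equiv.Perm.SameCycle.refl M.fs (q 3))]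
    simp
  have hsum : ∀ e : {d // ¬ QR q d}, ¬ M.SameNode e.1 (q 1) → ¬ M.SameNode e.1 (q 3) →
      M.usum A ω e.1 = (coll hq ho ho').usum (fun e => A e.1) ω' e := by
    intro e h4 h5
    rw [usum_q hq (fun i => hAq' _ (qr_q i)) hω2, hω1, hω1, hω1, hω1, hu0, hu2, if_neg h4,
      if_neg h5, coll_usum_of hq ho ho' h.plane hc ω' h4 h5]
    simp
  refine ⟨μ, ω, ?_, fun i => ?_, fun d hd => ?_, fun i => ?_, fun d hd => ?_⟩
  · intro d hd
    by_cases hdq : QR q d
    · refine ⟨4, q, w, by decide, hq, hdq, hE, fun i => ?_⟩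
      rw [hμ1 _ (qr_q i), qmu_q hq, hm, hω1]
      exact ⟨rfl, rfl⟩
    · obtain ⟨k, γ, t, hk, hγ, ⟨i, hi⟩, ht, hst⟩ := hR.loc ⟨d, hdq⟩ hd
      refine ⟨k, fun j => (γ j).1, t, hk, ⟨fun x y hxy => hγ.inj (Subtype.ext hxy), fun j => ?_⟩,
        ⟨i, congrArg Subtype.val hi⟩, ht, fun j => ?_⟩
      · rw [← hγ.nx, coll_nx]
      · rw [hμ2, hω2, (hst j).1, (hst j).2]
        exact ⟨rfl, rfl⟩
  · exact Relation.EqvGen.trans _ _ _ (hδs i) (Relation.EqvGen.trans _ _ _ (hstr _ _ (hR.str i))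
      (Relation.EqvGen.symm _ _ (hδs _)))
  · have key : ∀ e : {d // ¬ QR q d}, A e.1 → ∃ i, M.Str A μ e.1 (δ i) := by
      intro e he
      obtain ⟨i, hi⟩ := hR.all e he
      exact ⟨i, Relation.EqvGen.trans _ _ _ (hstr _ _ hi) (Relation.EqvGen.symm _ _ (hδs i))⟩
    by_cases hdq : QR q d
    · obtain ⟨j, rfl⟩ := hdq
      by_cases hal : A (M.al (q j))
      · obtain ⟨i, hi⟩ := key ⟨M.al (q j), hnl j⟩ hal
        exact ⟨i, Relation.EqvGen.trans _ _ _ (Relation.EqvGen.rel _ _ ⟨hd, Or.inr ⟨rfl, hal⟩⟩) hi⟩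
      · obtain ⟨i, hi⟩ := (hb.mem _).1 ⟨hd, hal⟩
        exact ⟨i, by rw [hi]; exact Relation.EqvGen.refl _⟩
    · exact key ⟨d, hdq⟩ hd
  · have hi := (hb.mem (δ i)).2 ⟨i, rfl⟩
    have hrq : ¬ QR q (M.fs (δ i)) := by
      intro h4
      have h5 := hAq' _ h4
      rw [sites_fs (M := M) hb.site] at h5
      exact hi.2 h5
    have hn1 : M.SameNode (δ i) (M.fs (δ i)) := ⟨1, by simp⟩
    have hn2 : (coll hq ho ho').SameNode (δ' i) ⟨M.fs (δ i), hrq⟩ := by
      refine ⟨1, ?_⟩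
      rw [zpow_one]
      show (coll hq ho ho').nx.symm ((coll hq ho ho').al (δ' i)) = _
      rw [Equiv.symm_apply_eq, coll_nx]
      apply Subtype.ext
      rw [hδ']
      exact (nx_fs M (δ i)).symm
    by_cases h4 : M.SameNode (q 1) (δ i)
    · rw [usum_same h4.symm, hsum1]
      exact h1' i h4
    · by_cases h5 : M.SameNode (q 3) (δ i)
      · rw [usum_same h5.symm, hsum3]
        exact h3' i h5
      · rw [usum_same hn1, hsum ⟨M.fs (δ i), hrq⟩ (fun h6 => h4 (hn1.trans h6).symm)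
          (fun h6 => h5 (hn1.trans h6).symm), ← usum_same hn2]
        exact hR.bdry i
  · by_cases h4 : M.SameNode (q 1) d
    · rw [usum_same h4.symm, hsum1]
      exact h1 fun e he => hd e (h4.symm.trans he)
    · by_cases h5 : M.SameNode (q 3) d
      · rw [usum_same h5.symm, hsum3]
        exact h3 fun e he => hd e (h5.symm.trans he)
      · have key : ∀ e : {d // ¬ QR q d}, M.SameNode d e.1 → M.usum A ω d = 3 := by
          intro e he
          have h6 : ¬ M.SameNode e.1 (q 1) := fun h6 => h4 (he.trans h6).symm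
          have h7 : ¬ M.SameNode e.1 (q 3) := fun h7 => h5 (he.trans h7).symm
          rw [usum_same he, hsum e h6 h7]
          refine hR.inner e fun f hf => ?_
          rw [coll_sameNode hq ho ho' h.plane hc] at hf
          simp only [h6, h7, false_and, or_false] at hf
          exact hd _ (he.trans hf)
        by_cases hdq : QR q d
        · obtain ⟨j, rfl⟩ := hdq
          refine key ⟨M.fs (q j), fun h6 => hnl j ?_⟩ ⟨1, by simp⟩
          rwa [sites_fs (q_sites hq)] at h6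
        · exact key ⟨d, hdq⟩ (Equiv.Perm.SameCycle.refl _ _)


end

end DMap

end GT33
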