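import Pool.Agent.GT33.DCyc
import Pool.Agent.GT33.Ret

/-!
# GT33 module DSMOOTH: minors of dart maps

`D`: darts, `phi`: next dart of the site, `al`: edges.  A set `R` of darts is removed, the darts of `R` are
paired by `mu` (within their sites): the strands which arrive at `r` continue from `mu r`.  The new map has
the darts outside `R`, `phi'` = first return of `phi`, `al'` = end of the strand.
-/

namespace GT33

variable {D : Type}

/-- The strand which leaves along the dart `d` and continues from `mu r` when it arrives at `r ∈ R`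
ends with the dart `e ∉ R`. -/
inductive DStrand (al mu : D → D) (R : D → Prop) : D → D → Prop
  | last {d : D} (h : ¬ R (al d)) : DStrand al mu R d (al d)
  | step {d e : D} (h : R (al d)) (h' : DStrand al mu R (mu (al d)) e) : DStrand al mu R d e

/-- `mu` pairs the darts of `R` within their sites -/
structure Pairing (phi : Equiv.Perm D) (mu : D → D) (R : D → Prop) : Prop where
  inv : ∀ r, R r → mu (mu r) = r
  mem : ∀ r, R r → R (mu r)
  ne : ∀ r, R r → mu r ≠ r
  site : ∀ r, R r → phi.SameCycle r (mu r)

/-- the coboundary of `W` is constant on the pairs -/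
def Bal (phi : Equiv.Perm D) (mu : D → D) (R : D → Prop) (W : D → ZMod 2) : Prop :=
  ∀ r, R r → W (mu r) + W (phi.symm (mu r)) = W r + W (phi.symm r)

/-- sectors of a site which are on the same side of the strands `r, mu r` -/
def SiteJ (phi : Equiv.Perm D) (mu : D → D) (R : D → Prop) : D → D → Prop :=
  Relation.EqvGen fun a b => R (phi a) ∧ b = mu (phi a)

/-- the pairing is non-crossing, and also with respect to the remaining darts -/
structure PlanarP (phi : Equiv.Perm D) (mu : D → D) (R : D → Prop) : Prop
    extends Pairing phi mu R where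
  out : ∀ W : D → ZMod 2, Bal phi mu R W → ∀ r, R r → W (phi.symm r) = W (mu r)
  run : ∀ d e, ¬ R d → Ret phi (fun d => ¬ R d) d e → SiteJ phi mu R d (phi.symm e)

/-- checkerboard colouring of the sectors -/
structure DCheck (phi : Equiv.Perm D) (al : D → D) (o : D → Bool) : Prop where
  phi : ∀ d, o (phi d) = !o d
  al : ∀ d, o (al d) = !o d

open Classical in
/-- the edges of the new map -/
noncomputable def alR (al mu : D → D) (R : D → Prop) (d : {d // ¬ R d}) : {d // ¬ R d} :=
  if h : ∃ e : {d // ¬ R d}, DStrand al mu R d.1 e.1 then h.choose else d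

/-- the rotation of the new map -/
noncomputable def phiR [Finite D] (phi : Equiv.Perm D) (R : D → Prop) :
    Equiv.Perm {d // ¬ R d} :=
  retPerm phi fun d => ¬ R d

/-- sectors which are in the same node of the new map -/
def JoinedR (phi : Equiv.Perm D) (al mu : D → D) (R : D → Prop) : D → D → Prop :=
  Relation.EqvGen fun a b => b = nstep phi al a ∨ (R (phi a) ∧ b = mu (phi a))

section

variable {phi : Equiv.Perm D} {al mu : D → D} {R : D → Prop}

theorem DStrand.out {d e : D} (h : DStrand al mu R d e) : ¬ R e := by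
  induction h with
  | last h => exact h
  | step _ _ ih => exact ih

theorem DStrand.unique {d e e' : D} (h : DStrand al mu R d e) (h' : DStrand al mu R d e') :
    e = e' := by
  induction h with
  | last h =>
    cases h' with
    | last h1 => rfl
    | step h1 h2 => exact absurd h1 h
  | step h1 h2 ih =>
    cases h' with
    | last h3 => exact absurd h1 h3
    | step h3 h4 => exact ih h4

theorem DStrand.congr {mu' : D → D} (hT : ∀ d, R d → mu d = mu' d) {d e : D}
    (h : DStrand al mu R d e) : DStrand al mu' R d e := by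
  induction h with
  | last h => exact .last h
  | @step d e h1 h2 ih => exact .step h1 (by rw [← hT _ h1]; exact ih)

/-- the reversed strand -/
theorem DStrand.rev_aux (hi : ∀ d, al (al d) = d) (hp : Pairing phi mu R) {d e : D}
    (h : DStrand al mu R d e) :
    (¬ R d → DStrand al mu R e d) ∧
      (R d → ∀ g, DStrand al mu R (mu d) g → DStrand al mu R e g) := by
  induction h with
  | @last d h =>
    refine ⟨fun h1 => ?_, fun h1 g hg => ?_⟩
    · have : DStrand al mu R (al d) (al (al d)) := .last (by rw [hi]; exact h1)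
      rwa [hi] at this
    · refine .step (by rw [hi]; exact h1) ?_
      rw [hi]
      exact hg
  | @step d e h1 h2 ih =>
    have h4 := ih.2 (hp.mem _ h1)
    rw [hp.inv _ h1] at h4
    refine ⟨fun h5 => ?_, fun h5 g hg => ?_⟩
    · apply h4
      have : DStrand al mu R (al d) (al (al d)) := .last (by rw [hi]; exact h5)
      rwa [hi] at this
    · apply h4
      refine .step (by rw [hi]; exact h5) ?_
      rw [hi]
      exact hg

theorem DStrand.rev (hi : ∀ d, al (al d) = d) (hp : Pairing phi mu R) {d e : D}
    (h : DStrand al mu R d e) (hd : ¬ R d) : DStrand al mu R e d :=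
  (h.rev_aux hi hp).1 hd

theorem DStrand.rev' (hi : ∀ d, al (al d) = d) (hp : Pairing phi mu R) {d e g : D}
    (h : DStrand al mu R d e) (hd : R d) (hg : DStrand al mu R (mu d) g) : DStrand al mu R e g :=
  (h.rev_aux hi hp).2 hd g hg

theorem exists_dstrand [Finite D] (hi : ∀ d, al (al d) = d) (hp : Pairing phi mu R) {d : D}
    (hd : ¬ R d) : ∃ e, DStrand al mu R d e := by
  classical
  set on : D → D := fun d => if R d then mu d else d with hon
  have hon' : ∀ d, on (on d) = d := by
    intro d
    by_cases h : R d
    · simp only [hon, if_pos h, if_pos (hp.mem _ h), hp.inv _ h]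
    · simp only [hon, if_neg h]
  set f : D → D := fun d => al (on d) with hf
  have hfi : Function.Injective f := by
    intro a b hab
    have h1 : on a = on b := by
      have := congrArg al hab
      simpa only [hf, hi] using this
    rw [← hon' a, h1, hon']
  have key : ∀ a b, Ret f (fun d => ¬ R d) a b → DStrand al mu R (on a) b := by
    intro a b h
    induction h with
    | @last a h => exact .last h
    | @step a b h1 h2 ih =>
      have h1' : R (f a) := not_not.1 h1
      have e : on (f a) = mu (al (on a)) := by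
        show (if R (f a) then mu (f a) else f a) = mu (f a)
        rw [if_pos h1']
      rw [e] at ih
      exact .step h1' ih
  obtain ⟨e, he⟩ := exists_ret (P := fun d => ¬ R d) hfi hd
  have := key d e he
  rw [show on d = d by simp only [hon, if_neg hd]] at this
  exact ⟨e, this⟩

theorem alR_spec [Finite D] (hi : ∀ d, al (al d) = d) (hp : Pairing phi mu R)
    (d : {d // ¬ R d}) : DStrand al mu R d.1 (alR al mu R d).1 := by
  classical
  obtain ⟨e, he⟩ := exists_dstrand hi hp d.2
  have hex : ∃ e : {d // ¬ R d}, DStrand al mu R d.1 e.1 := ⟨⟨e, he.out⟩, he⟩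
  have : alR al mu R d = hex.choose := by
    unfold alR
    rw [dif_pos hex]
  rw [this]
  exact hex.choose_spec

theorem alR_eq [Finite D] (hi : ∀ d, al (al d) = d) (hp : Pairing phi mu R)
    {d e : {d // ¬ R d}} (h : DStrand al mu R d.1 e.1) : alR al mu R d = e :=
  Subtype.ext ((alR_spec hi hp d).unique h)

theorem alR_alR [Finite D] (hi : ∀ d, al (al d) = d) (hp : Pairing phi mu R)
    (d : {d // ¬ R d}) : alR al mu R (alR al mu R d) = d :=
  alR_eq hi hp ((alR_spec hi hp d).rev hi hp d.2)

theorem DStrand.o {o : D → Bool} (ho : ∀ d, o (al d) = !o d) (hm : ∀ r, R r → o (mu r) = !o r)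
    {d e : D} (h : DStrand al mu R d e) : o e = !o d := by
  induction h with
  | last h => exact ho _
  | @step d e h1 h2 ih => rw [ih, hm _ h1, ho, Bool.not_not]

theorem DCheck.ne {o : D → Bool} (ho : DCheck phi al o) (d : D) : al d ≠ d := by
  intro h
  have := ho.al d
  rw [h] at this
  cases hd : o d <;> rw [hd] at this <;> exact absurd this (by decide)

/-! ### nodes -/

theorem JoinedR.nstep (d : D) : JoinedR phi al mu R d (nstep phi al d) :=
  Relation.EqvGen.rel _ _ (Or.inl rfl)

theorem JoinedR.pair {d : D} (h : R d) : JoinedR phi al mu R (phi.symm d) (mu d) :=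
  Relation.EqvGen.rel _ _ (Or.inr ⟨by rw [Equiv.apply_symm_apply]; exact h, by
    rw [Equiv.apply_symm_apply]⟩)

theorem JoinedR.trans {a b c : D} (h : JoinedR phi al mu R a b) (h' : JoinedR phi al mu R b c) :
    JoinedR phi al mu R a c := Relation.EqvGen.trans _ _ _ h h'

theorem JoinedR.symm {a b : D} (h : JoinedR phi al mu R a b) : JoinedR phi al mu R b a :=
  Relation.EqvGen.symm _ _ h

theorem SiteJ.joined {a b : D} (h : SiteJ phi mu R a b) : JoinedR phi al mu R a b := by
  induction h with
  | rel a b hab => exact Relation.EqvGen.rel _ _ (Or.inr hab)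
  | refl a => exact Relation.EqvGen.refl _
  | symm a b _ ih => exact ih.symm
  | trans a b c _ _ ih1 ih2 => exact ih1.trans ih2

theorem SiteJ.const {W : D → ZMod 2} (h : PlanarP phi mu R) (hW : Bal phi mu R W) {a b : D}
    (hab : SiteJ phi mu R a b) : W a = W b := by
  induction hab with
  | rel a b hab =>
    obtain ⟨h1, rfl⟩ := hab
    have := h.out W hW _ h1
    rwa [Equiv.symm_apply_apply] at this
  | refl a => rfl
  | symm a b _ ih => exact ih.symm
  | trans a b c _ _ ih1 ih2 => exact ih1.trans ih2

theorem DStrand.joined {d e : D} (h : DStrand al mu R d e) :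
    JoinedR phi al mu R d (phi.symm e) := by
  induction h with
  | last h => exact JoinedR.nstep _
  | @step d e h1 h2 ih => exact (JoinedR.nstep d).trans ((JoinedR.pair h1).trans ih)

theorem phiR_spec [Finite D] (phi : Equiv.Perm D) (R : D → Prop) (d : {d // ¬ R d}) :
    Ret phi (fun d => ¬ R d) d.1 (phiR phi R d).1 := ret_spec phi.injective d

theorem phiR_symm_spec [Finite D] (phi : Equiv.Perm D) (R : D → Prop) (d : {d // ¬ R d}) :
    Ret phi (fun d => ¬ R d) ((phiR phi R).symm d).1 d.1 := by
  have := phiR_spec phi R ((phiR phi R).symm d)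
  rwa [Equiv.apply_symm_apply] at this

/-- the next sector of a node of the new map -/
theorem nstepR_joined [Finite D] (hi : ∀ d, al (al d) = d) (hp : PlanarP phi mu R)
    (d : {d // ¬ R d}) :
    JoinedR phi al mu R d.1 (nstep (phiR phi R) (alR al mu R) d).1 := by
  have h1 := (alR_spec hi hp.toPairing d).joined (phi := phi)
  have h2 := phiR_symm_spec phi R (alR al mu R d)
  have h3 := (hp.run _ _ ((phiR phi R).symm (alR al mu R d)).2 h2).joined (al := al)
  exact h1.trans h3.symm

theorem dnode_eq_iff {d e : D} :
    dnode phi al d = dnode phi al e ↔ Relation.EqvGen (fun a b => nstep phi al a = b) d e := Quot.eq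

theorem joinedR_of_dnode {d e : D} (h : dnode phi al d = dnode phi al e) :
    JoinedR phi al mu R d e := by
  rw [dnode_eq_iff] at h
  induction h with
  | rel a b hab => subst hab; exact JoinedR.nstep a
  | refl a => exact Relation.EqvGen.refl _
  | symm a b _ ih => exact ih.symm
  | trans a b c _ _ ih1 ih2 => exact ih1.trans ih2

theorem joinedR_of_dnodeR [Finite D] (hi : ∀ d, al (al d) = d) (hp : PlanarP phi mu R)
    {d e : {d // ¬ R d}}
    (h : dnode (phiR phi R) (alR al mu R) d = dnode (phiR phi R) (alR al mu R) e) :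
    JoinedR phi al mu R d.1 e.1 := by
  rw [dnode_eq_iff] at h
  induction h with
  | rel a b hab => subst hab; exact nstepR_joined hi hp a
  | refl a => exact Relation.EqvGen.refl _
  | symm a b _ ih => exact ih.symm
  | trans a b c _ _ ih1 ih2 => exact ih1.trans ih2

/-! ### functions on the darts -/

open Classical in
/-- a function on the darts of the new map, extended along the strands (and by `0`) -/
noncomputable def extR (al mu : D → D) (R : D → Prop) (c : {d // ¬ R d} → ZMod 2) (d : D) :
    ZMod 2 :=
  if h : ∃ e : {d // ¬ R d}, DStrand al mu R d e.1 then c h.choose else 0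

theorem extR_eq (c : {d // ¬ R d} → ZMod 2) {d : D} {e : {d // ¬ R d}}
    (h : DStrand al mu R d e.1) : extR al mu R c d = c e := by
  classical
  have hex : ∃ e : {d // ¬ R d}, DStrand al mu R d e.1 := ⟨e, h⟩
  unfold extR
  rw [dif_pos hex]
  congr 1
  exact Subtype.ext (hex.choose_spec.unique h)

theorem extR_zero (c : {d // ¬ R d} → ZMod 2) {d : D} (h : ¬ ∃ e, DStrand al mu R d e) :
    extR al mu R c d = 0 := by
  classical
  unfold extR
  rw [dif_neg]
  rintro ⟨e, he⟩
  exact h ⟨_, he⟩

theorem extR_coe [Finite D] (hi : ∀ d, al (al d) = d) (hp : Pairing phi mu R)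
    {c : {d // ¬ R d} → ZMod 2} (hc : ∀ d, c (alR al mu R d) = c d) (d : {d // ¬ R d}) :
    extR al mu R c d.1 = c d := by
  rw [extR_eq c (alR_spec hi hp d), hc]

/-- the two ends of the strand through `d ∈ R` -/
theorem dends [Finite D] (hi : ∀ d, al (al d) = d) (hp : Pairing phi mu R) {d e : D} (hd : R d)
    (h : DStrand al mu R d e) : ∃ g, DStrand al mu R (mu d) g ∧ DStrand al mu R e g := by
  obtain ⟨g, hg⟩ := exists_dstrand hi hp h.out
  have key : ∀ a b : D, DStrand al mu R a b → R a → DStrand al mu R b g →
      DStrand al mu R (mu a) g := by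
    intro a b hab
    induction hab with
    | @last a h1 =>
      intro h2 h3
      cases h3 with
      | last h4 => rw [hi] at h4; exact absurd h2 h4
      | step h4 h5 => rw [hi] at h5; exact h5
    | @step a b h1 h2 ih =>
      intro h3 h4
      have h6 := ih (hp.mem _ h1) h4
      rw [hp.inv _ h1] at h6
      cases h6 with
      | last h7 => rw [hi] at h7; exact absurd h3 h7
      | step h7 h8 => rw [hi] at h8; exact h8
  exact ⟨g, key d e h hd hg, hg⟩

theorem extR_mu [Finite D] (hi : ∀ d, al (al d) = d) (hp : Pairing phi mu R)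
    {c : {d // ¬ R d} → ZMod 2} (hc : ∀ d, c (alR al mu R d) = c d) {d : D} (hd : R d) :
    extR al mu R c (mu d) = extR al mu R c d := by
  by_cases h : ∃ e, DStrand al mu R d e
  · obtain ⟨e, he⟩ := h
    obtain ⟨g, hg, hg'⟩ := dends hi hp hd he
    have e1 : extR al mu R c d = c ⟨e, he.out⟩ := extR_eq c (e := ⟨e, he.out⟩) he
    have e2 : extR al mu R c (mu d) = c ⟨g, hg.out⟩ := extR_eq c (e := ⟨g, hg.out⟩) hg
    have e3 : alR al mu R ⟨e, he.out⟩ = ⟨g, hg.out⟩ := alR_eq hi hp hg'
    rw [e1, e2, ← e3, hc]
  · have h' : ¬ ∃ e, DStrand al mu R (mu d) e := by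
      rintro ⟨e, he⟩
      obtain ⟨g, hg, _⟩ := dends hi hp (hp.mem _ hd) he
      rw [hp.inv _ hd] at hg
      exact h ⟨g, hg⟩
    rw [extR_zero c h, extR_zero c h']

theorem extR_al [Finite D] (hi : ∀ d, al (al d) = d) (hp : Pairing phi mu R)
    {c : {d // ¬ R d} → ZMod 2} (hc : ∀ d, c (alR al mu R d) = c d) (d : D) :
    extR al mu R c (al d) = extR al mu R c d := by
  have key : ∀ a, R (al a) → extR al mu R c (al a) = extR al mu R c a := by
    intro a ha
    rw [← extR_mu hi hp hc ha]
    by_cases h : ∃ e, DStrand al mu R (mu (al a)) e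
    · obtain ⟨e, he⟩ := h
      have e1 : extR al mu R c (mu (al a)) = c ⟨e, he.out⟩ := extR_eq c (e := ⟨e, he.out⟩) he
      have e2 : extR al mu R c a = c ⟨e, he.out⟩ := extR_eq c (e := ⟨e, he.out⟩) (.step ha he)
      rw [e1, e2]
    · have h' : ¬ ∃ e, DStrand al mu R a e := by
        rintro ⟨e, he⟩
        cases he with
        | last h1 => exact h1 ha
        | step h1 h2 => exact h ⟨_, h2⟩
      rw [extR_zero c h, extR_zero c h']
  by_cases h1 : R (al d)
  · exact key d h1
  · by_cases h2 : R d
    · have := key (al d) (by rw [hi]; exact h2)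
      rw [hi] at this
      exact this.symm
    · have e1 : extR al mu R c d = c ⟨d, h2⟩ := extR_coe hi hp hc ⟨d, h2⟩
      have e2 : extR al mu R c (al d) = c ⟨al d, h1⟩ := extR_coe hi hp hc ⟨al d, h1⟩
      have e3 : alR al mu R ⟨d, h2⟩ = ⟨al d, h1⟩ := alR_eq hi hp (.last h1)
      rw [e1, e2, ← e3, hc]

/-! ### planarity is preserved -/

theorem joinedR_const (hp : PlanarP phi mu R) {c W : D → ZMod 2}
    (hc : ∀ d, R d → c (mu d) = c d) (hW : ∀ d, W (nstep phi al d) = W d)
    (hW' : ∀ d, W d + W (phi.symm d) = c d) {d e : D} (h : JoinedR phi al mu R d e) : W d = W e := by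
  have hB : Bal phi mu R W := fun r hr => by rw [hW', hW', hc r hr]
  induction h with
  | rel a b hab =>
    rcases hab with rfl | ⟨h1, rfl⟩
    · exact (hW a).symm
    · have := hp.out W hB _ h1
      rwa [Equiv.symm_apply_apply] at this
  | refl a => rfl
  | symm a b _ ih => exact ih.symm
  | trans a b c _ _ ih1 ih2 => exact ih1.trans ih2

theorem sum_orbR [Fintype D] [Fintype {d // ¬ R d}] (hp : Pairing phi mu R) {c : D → ZMod 2}
    (hc : ∀ r, R r → c (mu r) = c r) (d : {d // ¬ R d}) :
    ∑ e ∈ orb phi d.1, c e = ∑ e ∈ orb (phiR phi R) d, c e.1 := by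
  classical
  rw [← Finset.sum_filter_add_sum_filter_not (orb phi d.1) (fun e => R e)]
  have h1 : ∑ e ∈ (orb phi d.1).filter (fun e => R e), c e = 0 := by
    refine Finset.sum_involution (fun e _ => mu e) ?_ ?_ ?_ ?_
    · intro e he
      rw [hc e (Finset.mem_filter.1 he).2]
      have : ∀ x : ZMod 2, x + x = 0 := by decide
      exact this _
    · intro e he _
      exact hp.ne e (Finset.mem_filter.1 he).2
    · intro e he
      rw [Finset.mem_filter, mem_orb] at he ⊢
      exact ⟨he.1.trans (hp.site e he.2), hp.mem e he.2⟩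
    · intro e he
      exact hp.inv e (Finset.mem_filter.1 he).2
  rw [h1, zero_add]
  refine (Finset.sum_bij (fun (e : {d // ¬ R d}) _ => e.1) ?_ ?_ ?_ ?_).symm
  · intro e he
    rw [mem_orb] at he
    rw [Finset.mem_filter, mem_orb]
    exact ⟨(retPerm_sameCycle phi _ d e).1 he, e.2⟩
  · intro e _ e' _ h
    exact Subtype.ext h
  · intro e he
    rw [Finset.mem_filter, mem_orb] at he
    exact ⟨⟨e, he.2⟩, by rw [mem_orb]; exact (retPerm_sameCycle phi _ d ⟨e, he.2⟩).2 he.1, rfl⟩
  · intro e _
    rfl

theorem sum_orb_all [Fintype D] (hp : Pairing phi mu R) {c : D → ZMod 2}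
    (hc : ∀ r, R r → c (mu r) = c r) (d : D) (hd : ∀ e, phi.SameCycle d e → R e) :
    ∑ e ∈ orb phi d, c e = 0 := by
  classical
  refine Finset.sum_involution (fun e _ => mu e) ?_ ?_ ?_ ?_
  · intro e he
    rw [hc e (hd e (mem_orb.1 he))]
    have : ∀ x : ZMod 2, x + x = 0 := by decide
    exact this _
  · intro e he _
    exact hp.ne e (hd e (mem_orb.1 he))
  · intro e he
    rw [mem_orb] at he ⊢
    exact he.trans (hp.site e (hd e he))
  · intro e he
    exact hp.inv e (hd e (mem_orb.1 he))

theorem sum_orb_ext [Fintype D] [Fintype {d // ¬ R d}] (hi : ∀ d, al (al d) = d)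
    (hp : Pairing phi mu R) {c : {d // ¬ R d} → ZMod 2} (hc : ∀ d, c (alR al mu R d) = c d)
    (hv : ∀ d, ∑ e ∈ orb (phiR phi R) d, c e = 0) (d : D) :
    ∑ e ∈ orb phi d, extR al mu R c e = 0 := by
  by_cases h : ∃ e, phi.SameCycle d e ∧ ¬ R e
  · obtain ⟨e, he, heR⟩ := h
    have e1 : orb phi d = orb phi e := by
      ext x
      rw [mem_orb, mem_orb]
      exact ⟨fun h => he.symm.trans h, fun h => he.trans h⟩
    rw [e1, sum_orbR hp (fun r hr => extR_mu hi hp hc hr) ⟨e, heR⟩, ← hv ⟨e, heR⟩]
    exact Finset.sum_congr rfl fun x _ => extR_coe hi hp hc x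
  · refine sum_orb_all hp (fun r hr => extR_mu hi hp hc hr) d fun e he => ?_
    by_contra hR
    exact h ⟨e, he, hR⟩

theorem DHom.smooth [Fintype D] [Fintype {d // ¬ R d}] (hi : ∀ d, al (al d) = d)
    (hp : PlanarP phi mu R) (h : DHom phi al) : DHom (phiR phi R) (alR al mu R) := by
  intro c hc hv
  obtain ⟨W, h1, h2⟩ := h (extR al mu R c) (extR_al hi hp.toPairing hc)
    (sum_orb_ext hi hp.toPairing hc hv)
  have hB : Bal phi mu R W := fun r hr => by rw [h2, h2, extR_mu hi hp.toPairing hc hr]
  refine ⟨fun d => W d.1, fun d => ?_, fun d => ?_⟩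
  · exact (joinedR_const hp (fun d hd => extR_mu hi hp.toPairing hc hd) h1 h2
      (nstepR_joined hi hp d)).symm
  · show W d.1 + W ((phiR phi R).symm d).1 = c d
    have h3 := (hp.run _ _ ((phiR phi R).symm d).2 (phiR_symm_spec phi R d)).const hp hB
    rw [h3, h2, extR_coe hi hp.toPairing hc]

/-! ### the nodes of the new map -/

/-- the map is connected -/
def DConn (phi : Equiv.Perm D) (al : D → D) : Prop :=
  ∀ M : D → Prop, (∀ d, M d → M (phi d)) → (∀ d, M d → M (al d)) → (∃ d, M d) → ∀ d, M d

theorem w_symm {phi : Equiv.Perm D} {al : D → D} (hi : ∀ d, al (al d) = d) {w : D → ZMod 2}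
    (hw : ∀ d, w (nstep phi al d) = w d) (d : D) : w (phi.symm d) = w (al d) := by
  have := hw (al d)
  rwa [nstep_al hi] at this

/-- Sectors outside `R` which are joined by `R` are in the same node of the new map: here planarity
is used. -/
theorem dnodeR_of_joinedR [Fintype D] [Fintype {d // ¬ R d}] (hi : ∀ d, al (al d) = d)
    (hp : PlanarP phi mu R) (h : DHom phi al) (hc : DConn (phiR phi R) (alR al mu R))
    {d e : {d // ¬ R d}} (hde : JoinedR phi al mu R d.1 e.1) :
    dnode (phiR phi R) (alR al mu R) d = dnode (phiR phi R) (alR al mu R) e := by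
  classical
  set psi := phiR phi R with hpsi
  set be := alR al mu R with hbe
  set w : {d // ¬ R d} → ZMod 2 := fun a => if dnode psi be a = dnode psi be d then 1 else 0 with hw
  have hwf : ∀ a, w (nstep psi be a) = w a := by
    intro a
    have : dnode psi be (nstep psi be a) = dnode psi be a := iter_dnode 1 a
    simp only [hw, this]
  have hss : ∀ a, be (be a) = a := alR_alR hi hp.toPairing
  have hcc : ∀ a, (fun a => w a + w (psi.symm a)) (be a) = (fun a => w a + w (psi.symm a)) a := by
    intro a
    show w (be a) + w (psi.symm (be a)) = w a + w (psi.symm a)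
    rw [w_symm hss hwf, w_symm hss hwf, hss, add_comm]
  have hsum : ∀ v, ∑ a ∈ orb psi v, (w a + w (psi.symm a)) = 0 := by
    intro v
    rw [Finset.sum_add_distrib]
    have e1 : ∑ a ∈ orb psi v, w (psi.symm a) = ∑ a ∈ orb psi v, w a := by
      refine Finset.sum_bij (fun a _ => psi.symm a) ?_ ?_ ?_ ?_
      · intro a ha
        rw [mem_orb] at ha ⊢
        exact ha.trans ⟨-1, by simp⟩
      · intro a _ b _ hab
        exact psi.symm.injective hab
      · intro a ha
        rw [mem_orb] at ha
        exact ⟨psi a, by rw [mem_orb]; exact ha.trans ⟨1, by simp⟩, by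
          rw [Equiv.symm_apply_apply]⟩
      · intro a _
        rfl
    rw [e1]
    have : ∀ x : ZMod 2, x + x = 0 := by decide
    exact this _
  obtain ⟨W, h1, h2⟩ := h (extR al mu R fun a => w a + w (psi.symm a))
    (extR_al hi hp.toPairing hcc) (sum_orb_ext hi hp.toPairing hcc hsum)
  have hB : Bal phi mu R W := fun r hr => by rw [h2, h2, extR_mu hi hp.toPairing hcc hr]
  have hWc : ∀ {a b : D}, JoinedR phi al mu R a b → W a = W b := fun hab =>
    joinedR_const hp (fun d hd => extR_mu hi hp.toPairing hcc hd) h1 h2 hab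
  have hstep : ∀ a : {d // ¬ R d}, w (psi.symm a) + W (psi.symm a).1 = w a + W a.1 := by
    intro a
    have h3 := (hp.run _ _ (psi.symm a).2 (phiR_symm_spec phi R a)).const hp hB
    have h4 := h2 a.1
    rw [extR_coe hi hp.toPairing hcc] at h4
    rw [h3]
    have key : ∀ p q r s : ZMod 2, p + q = r + s → s + q = r + p := by decide
    exact key _ _ _ _ h4
  have hstep' : ∀ a : {d // ¬ R d}, w (psi a) + W (psi a).1 = w a + W a.1 := by
    intro a
    have := hstep (psi a)
    rw [Equiv.symm_apply_apply] at this
    exact this.symm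
  have hnode : ∀ a : {d // ¬ R d}, w (nstep psi be a) + W (nstep psi be a).1 = w a + W a.1 := by
    intro a
    rw [hwf, ← hWc (nstepR_joined hi hp a)]
  have hall : ∀ a : {d // ¬ R d}, w a + W a.1 = w d + W d.1 := by
    refine hc (fun a => w a + W a.1 = w d + W d.1) (fun a ha => ?_) (fun a ha => ?_) ⟨d, rfl⟩
    · rw [hstep', ha]
    · have := hnode a
      rw [nstep, hstep] at this
      rw [this, ha]
  have h3 := hall e
  rw [← hWc hde] at h3
  have h4 : w e = w d := by
    have key : ∀ p q r : ZMod 2, p + q = r + q → p = r := by decide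
    exact key _ _ _ h3
  have h5 : w d = 1 := by simp [hw]
  rw [h5] at h4
  by_contra hne
  have : w e = 0 := by
    simp only [hw]
    rw [if_neg (fun h => hne h.symm)]
  rw [this] at h4
  exact absurd h4 (by decide)

/-- the nodes of the new map -/
theorem dnodeR_iff [Fintype D] [Fintype {d // ¬ R d}] (hi : ∀ d, al (al d) = d)
    (hp : PlanarP phi mu R) (h : DHom phi al) (hc : DConn (phiR phi R) (alR al mu R))
    {d e : {d // ¬ R d}} :
    dnode (phiR phi R) (alR al mu R) d = dnode (phiR phi R) (alR al mu R) e ↔
      JoinedR phi al mu R d.1 e.1 :=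
  ⟨joinedR_of_dnodeR hi hp, dnodeR_of_joinedR hi hp h hc⟩

/-- the new map is a connected plane map if it is connected -/
theorem PlaneD.smooth [Fintype D] [Fintype {d // ¬ R d}] {o : D → Bool} (h : PlaneD phi al)
    (ho : DCheck phi al o) (hm : ∀ r, R r → o (mu r) = !o r) (hp : PlanarP phi mu R)
    (hc : DConn (phiR phi R) (alR al mu R)) : PlaneD (phiR phi R) (alR al mu R) where
  inv := alR_alR h.inv hp.toPairing
  ne := fun d hd => by
    have := (alR_spec h.inv hp.toPairing d).o ho.al hm
    rw [hd] at this
    cases hd : o d.1 <;> rw [hd] at this <;> exact absurd this (by decide)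
  hom := DHom.smooth h.inv hp h.hom
  conn := hc

/-! ### closed curves -/

/-- two darts are on the same closed curve of the state `mu` -/
def DLoop (al mu : D → D) : D → D → Prop := Relation.EqvGen fun a b => b = al a ∨ b = mu a

/-- there is only one closed curve -/
def DOne (al mu : D → D) : Prop := ∀ a b, DLoop al mu a b

theorem DStrand.loop {d e : D} (h : DStrand al mu R d e) : DLoop al mu d e := by
  induction h with
  | last h => exact Relation.EqvGen.rel _ _ (Or.inl rfl)
  | @step d e h1 h2 ih =>
    exact Relation.EqvGen.trans _ _ _ (Relation.EqvGen.rel _ _ (Or.inl rfl))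
      (Relation.EqvGen.trans _ _ _ (Relation.EqvGen.rel _ _ (Or.inr rfl)) ih)

/-- every strand through `R` has ends: no closed curves are lost -/
def NoFreeR (al mu : D → D) (R : D → Prop) : Prop := ∀ d, R d → ∃ e, DStrand al mu R d e

theorem dloop_coe [Finite D] (hi : ∀ d, al (al d) = d) (hp : Pairing phi mu R)
    {mu' : {d // ¬ R d} → {d // ¬ R d}} (hmu : ∀ d, (mu' d).1 = mu d.1) {d e : {d // ¬ R d}}
    (h : DLoop (alR al mu R) mu' d e) : DLoop al mu d.1 e.1 := by
  induction h with
  | rel a b hab =>
    rcases hab with rfl | rfl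
    · exact (alR_spec hi hp a).loop
    · rw [hmu]
      exact Relation.EqvGen.rel _ _ (Or.inr rfl)
  | refl a => exact Relation.EqvGen.refl _
  | symm a b _ ih => exact Relation.EqvGen.symm _ _ ih
  | trans a b c _ _ ih1 ih2 => exact Relation.EqvGen.trans _ _ _ ih1 ih2

/-- a state of the new map with one closed curve lifts to a state of the old map with one closed
curve -/
theorem DOne.lift [Finite D] (hi : ∀ d, al (al d) = d) (hp : Pairing phi mu R)
    (hf : NoFreeR al mu R) {mu' : {d // ¬ R d} → {d // ¬ R d}} (hmu : ∀ d, (mu' d).1 = mu d.1)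
    (h : DOne (alR al mu R) mu') : DOne al mu := by
  have key : ∀ d, ∃ e, DStrand al mu R d e := by
    intro d
    by_cases hd : R d
    · exact hf d hd
    · exact exists_dstrand hi hp hd
  intro a b
  obtain ⟨e, he⟩ := key a
  obtain ⟨g, hg⟩ := key b
  exact Relation.EqvGen.trans _ _ _ he.loop (Relation.EqvGen.trans _ _ _
    (dloop_coe hi hp hmu (h ⟨e, he.out⟩ ⟨g, hg.out⟩)) (Relation.EqvGen.symm _ _ hg.loop))

/-- strands of the new map are strands of the old map -/
theorem DStrand.coe [Finite D] (hi : ∀ d, al (al d) = d) (hp : Pairing phi mu R)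
    {mu' : {d // ¬ R d} → {d // ¬ R d}} (hmu : ∀ d, (mu' d).1 = mu d.1)
    {R' : {d // ¬ R d} → Prop} {d e : {d // ¬ R d}} (h : DStrand (alR al mu R) mu' R' d e) :
    DStrand al mu (fun x => R x ∨ ∃ hx : ¬ R x, R' ⟨x, hx⟩) d.1 e.1 := by
  have key : ∀ a b : D, DStrand al mu R a b → ∀ c : D, (∀ hb : ¬ R b,
      (¬ R' ⟨b, hb⟩ ∧ c = b) ∨ (R' ⟨b, hb⟩ ∧
        DStrand al mu (fun x => R x ∨ ∃ hx : ¬ R x, R' ⟨x, hx⟩) (mu b) c)) →
      DStrand al mu (fun x => R x ∨ ∃ hx : ¬ R x, R' ⟨x, hx⟩) a c := by
    intro a b hab
    induction hab with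
    | @last a h =>
      intro c hc
      rcases hc h with ⟨h1, rfl⟩ | ⟨h1, h2⟩
      · exact .last (by
          rintro (h3 | ⟨h3, h4⟩)
          · exact h h3
          · exact h1 h4)
      · exact .step (Or.inr ⟨h, h1⟩) h2
    | @step a b h1 h2 ih =>
      intro c hc
      exact .step (Or.inl h1) (ih c hc)
  induction h with
  | @last a h =>
    exact key _ _ (alR_spec hi hp a) _ fun hb => Or.inl ⟨h, rfl⟩
  | @step a e h1 h2 ih =>
    refine key _ _ (alR_spec hi hp a) _ fun hb => Or.inr ⟨h1, ?_⟩
    rw [hmu] at ih
    exact ih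

/-! ### cuts -/

/-- the number of edges leaving `A` -/
noncomputable def dcut {E : Type} (al : E → E) (A : E → Prop) : ℕ :=
  Nat.card {d // A d ∧ ¬ A (al d)}

/-- the first edge of a strand which leaves `A` -/
theorem DStrand.exit {A : D → Prop} (hA : ∀ r, R r → (A (mu r) ↔ A r)) {d e : D}
    (h : DStrand al mu R d e) (hd : A d) (he : ¬ A e) :
    ∃ a, A a ∧ ¬ A (al a) ∧ DStrand al mu R a e := by
  induction h with
  | @last d h => exact ⟨d, hd, he, .last h⟩
  | @step d e h1 h2 ih =>
    by_cases h3 : A (al d)
    · exact ih ((hA _ h1).2 h3) he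
    · exact ⟨d, hd, h3, .step h1 h2⟩

/-- cuts do not increase -/
theorem dcut_alR_le [Finite D] (hi : ∀ d, al (al d) = d) (hp : Pairing phi mu R)
    {A : D → Prop} (hA : ∀ r, R r → (A (mu r) ↔ A r)) :
    dcut (alR al mu R) (fun d => A d.1) ≤ dcut al A := by
  have hex : ∀ d : {d : {d // ¬ R d} // A d.1 ∧ ¬ A (alR al mu R d).1},
      ∃ a : D, (A a ∧ ¬ A (al a)) ∧ DStrand al mu R a (alR al mu R d.1).1 := by
    rintro ⟨d, hd1, hd2⟩
    obtain ⟨a, h1, h2, h3⟩ := (alR_spec hi hp d).exit hA hd1 hd2
    exact ⟨a, ⟨h1, h2⟩, h3⟩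
  choose φ h1 h2 using hex
  refine Nat.card_le_card_of_injective (fun d => (⟨φ d, h1 d⟩ : {a : D // A a ∧ ¬ A (al a)})) ?_
  intro d d' hdd
  have e : φ d = φ d' := congrArg Subtype.val hdd
  have h3 := h2 d
  rw [e] at h3
  have h4 : alR al mu R d.1 = alR al mu R d'.1 := Subtype.ext (h3.unique (h2 d'))
  apply Subtype.ext
  rw [← alR_alR hi hp d.1, h4, alR_alR hi hp]

/-! ### pairs of neighbouring darts -/

/-- a pairing of neighbouring darts is planar -/
theorem PlanarP.of_adj (hp : Pairing phi mu R) (h : ∀ r, R r → mu r = phi r ∨ mu r = phi.symm r) :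
    PlanarP phi mu R where
  toPairing := hp
  out := by
    intro W hB r hr
    rcases h r hr with h1 | h1
    · have := hB r hr
      rw [h1, Equiv.symm_apply_apply] at this
      rw [h1]
      have key : ∀ p q r : ZMod 2, p + q = q + r → r = p := by decide
      exact key _ _ _ this
    · rw [h1]
  run := by
    intro d e hd hde
    have key : ∀ n : ℕ, ∀ a, (∀ k, 0 < k → k < n + 1 → R (phi^[k] a)) → ¬ R (phi^[n + 1] a) →
        (¬ R a ∨ (R a ∧ mu a = phi.symm a)) → SiteJ phi mu R a (phi^[n] a) := by
      intro n
      induction n using Nat.strong_induction_on with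
      | _ n ih =>
        intro a h1 h2 h3
        rcases Nat.eq_zero_or_pos n with rfl | hn
        · exact Relation.EqvGen.refl _
        · have hr1 : R (phi a) := h1 1 Nat.one_pos (by omega)
          rcases h _ hr1 with h4 | h4
          · have hr2 : R (phi (phi a)) := by
              rw [← h4]
              exact hp.mem _ hr1
            have hn2 : 2 ≤ n := by
              by_contra hlt
              have : n = 1 := by omega
              subst this
              exact h2 hr2
            have e1 : mu (phi (phi a)) = phi.symm (phi (phi a)) := by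
              rw [← h4, hp.inv _ hr1, h4, Equiv.symm_apply_apply]
            have e2 := ih (n - 2) (by omega) (phi (phi a)) (fun k hk1 hk2 => by
              have := h1 (k + 2) (by omega) (by omega)
              rwa [Function.iterate_add_apply] at this) (by
              rw [show n + 1 = (n - 2 + 1) + 2 by omega, Function.iterate_add_apply] at h2
              exact h2) (Or.inr ⟨hr2, e1⟩)
            have e3 : phi^[n - 2] (phi (phi a)) = phi^[n] a := by
              rw [show n = n - 2 + 2 by omega, Function.iterate_add_apply]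
              rfl
            rw [e3] at e2
            exact Relation.EqvGen.trans _ _ _ (Relation.EqvGen.rel _ _ ⟨hr1, h4.symm⟩) e2
          · rw [Equiv.symm_apply_apply] at h4
            have ha : R a := by
              rw [← h4]
              exact hp.mem _ hr1
            rcases h3 with h3 | ⟨_, h3⟩
            · exact absurd ha h3
            · have e1 : mu a = phi a := by
                rw [← hp.inv _ hr1, h4]
              have e2 : phi (phi a) = a := by
                rw [← e1, h3, Equiv.apply_symm_apply]
              exfalso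
              have e3 : ∀ k, R (phi^[k] a) := by
                intro k
                induction k using Nat.strong_induction_on with
                | _ k ihk =>
                  rcases Nat.lt_or_ge k 2 with hk | hk
                  · interval_cases k
                    · exact ha
                    · exact hr1
                  · rw [show k = k - 2 + 2 by omega, Function.iterate_add_apply]
                    show R (phi^[k - 2] (phi (phi a)))
                    rw [e2]
                    exact ihk (k - 2) (by omega)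
              exact h2 (e3 _)
    obtain ⟨n, hn, hm⟩ := hde.exists_iterate
    have e1 : phi.symm e = phi^[n] d := by
      rw [← hn, Function.iterate_succ_apply', Equiv.symm_apply_apply]
    rw [e1]
    exact key n d (fun k hk1 hk2 => not_not.1 (hm k hk1 hk2)) (by rw [hn]; exact hde.out)
      (Or.inl hd)

end

end GT33
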