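import Mathlib

/-!
# Trees and co-trees in 3-connected plane graphs: definitions

A connected plane graph is given by its rotation system: the darts (oriented edges) which start at a
vertex are cyclically ordered (counterclockwise).  `Rotation.walk` is the next dart on the boundary
walk of the face to the right of a dart; the faces are the orbits of `walk`.  The embedding is plane
if Euler's formula `V + F = E + 2` holds.
-/

namespace GT33

variable {V : Type*} {G : SimpleGraph V}

/-- A rotation system of `G`: for every vertex a cyclic order of the darts which start there. -/
structure Rotation (G : SimpleGraph V) where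
  /-- the next dart with the same starting vertex, counterclockwise -/
  next : Equiv.Perm G.Dart
  fst_next : ∀ d, (next d).fst = d.fst
  cyclic : ∀ d e : G.Dart, d.fst = e.fst → next.SameCycle d e

/-- reversing the darts, as a permutation -/
def rev (G : SimpleGraph V) : Equiv.Perm G.Dart where
  toFun d := d.symm
  invFun d := d.symm
  left_inv d := d.symm_symm
  right_inv d := d.symm_symm

/-- the next dart on the boundary walk of the face to the right of a dart -/
def Rotation.walk (R : Rotation G) : Equiv.Perm G.Dart := (rev G).trans R.next

/-- the faces of a rotation system -/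
def Rotation.Face (R : Rotation G) : Type _ := Quotient (Equiv.Perm.SameCycle.setoid R.walk)

/-- the face to the right of a dart -/
def Rotation.face (R : Rotation G) (d : G.Dart) : R.Face := Quotient.mk _ d

/-- the embedding is plane: Euler's formula -/
def Rotation.Plane (R : Rotation G) : Prop :=
  Nat.card V + Nat.card R.Face = Nat.card G.edgeSet + 2

/-- `G` is 3-connected: at least four vertices, and connected after removing at most two vertices -/
def ThreeConnected (G : SimpleGraph V) : Prop :=
  4 ≤ Nat.card V ∧ ∀ S : Set V, S.ncard ≤ 2 → (G.induce Sᶜ).Connected

/-- The co-tree of `T`: the graph on the faces in which two different faces are adjacent if they have a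
common edge which is not an edge of `T`. -/
def Rotation.coTree (R : Rotation G) (T : SimpleGraph V) : SimpleGraph R.Face where
  Adj f g := f ≠ g ∧ ∃ d : G.Dart, d.edge ∉ T.edgeSet ∧ R.face d = f ∧ R.face d.symm = g
  symm := ⟨by
    rintro f g ⟨h, d, h1, h2, h3⟩
    exact ⟨h.symm, d.symm, by rwa [SimpleGraph.Dart.edge_symm], h3, by
      rwa [SimpleGraph.Dart.symm_symm]⟩⟩
  loopless := ⟨fun f h => h.1 rfl⟩

/-- `G` has a spanning tree `T` of maximum degree at most `a` whose co-tree has maximum degree at most
`b`: each face has at most `b` edges outside `T`. -/
def HasTree (R : Rotation G) (a b : ℕ) : Prop :=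
  ∃ T : SimpleGraph V, T ≤ G ∧ T.IsTree ∧ (R.coTree T).IsTree ∧
    (∀ v, (T.neighborSet v).ncard ≤ a) ∧
    ∀ f : R.Face, {d : G.Dart | R.face d = f ∧ d.edge ∉ T.edgeSet}.ncard ≤ b

end GT33
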