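import Pool.Agent.SN78.MPlane
import Pool.Agent.GT33.Graph

/-!
# Trees and co-trees: the medial map

The medial map of a plane graph `G` (see `SN78`): crossings `X` = edges of `G`, an involution `α` of the
darts `X × ZMod 4`; the darts of a crossing are numbered counterclockwise.  The dart `d` also stands
for the sector between the darts `d` and `nx d`, which lies in the face to the left of `d`; `fs α d = pv (α d)`
is the next sector of the same face.  The faces of the medial map are the vertices and the faces of
`G` (checkerboard: `o d = true` if the sector `d` belongs to a vertex of `G`).  `Rigid α` (SN78.RDefs)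
says that `G` is 3-connected and plane with at least four edges.

A state `T` selects at each crossing two opposite sectors (`T d = true`), which are joined: at the edge
`e` of `G` the two sectors of vertices are selected iff `e` belongs to the spanning tree.  The strands of the
state run along the edges of the medial map and turn at the crossings: they do not cut off a selected
sector, `turn T d = pv d` if the sector `d` is selected and `turn T d = nx d` otherwise.
-/

namespace GT33

open SN78

variable {X : Type}

/-- `T` selects two opposite sectors at each crossing -/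
def IsState (T : X × ZMod 4 → Bool) : Prop := ∀ d, T (nx d) = !T d

/-- the strands turn at the crossings -/
def turn (T : X × ZMod 4 → Bool) (d : X × ZMod 4) : X × ZMod 4 := if T d then pv d else nx d

/-- two darts are on the same closed curve -/
def SameLoop (α : X × ZMod 4 → X × ZMod 4) (T : X × ZMod 4 → Bool) :
    X × ZMod 4 → X × ZMod 4 → Prop :=
  Relation.EqvGen fun a b => b = α a ∨ b = turn T a

/-- there is only one closed curve -/
def OneLoop (α : X × ZMod 4 → X × ZMod 4) (T : X × ZMod 4 → Bool) : Prop :=
  ∀ d d', SameLoop α T d d'

/-- the face of the medial map to the left of the dart -/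
def face (α : X × ZMod 4 → X × ZMod 4) (d : X × ZMod 4) : Face α := Quot.mk _ d

/-- the load of a face: the number of its selected sectors -/
noncomputable def load (α : X × ZMod 4 → X × ZMod 4) (T : X × ZMod 4 → Bool) (f : Face α) : ℕ :=
  Nat.card {d : X × ZMod 4 // face α d = f ∧ T d = true}

/-- checkerboard colouring of the sectors -/
structure Check (α : X × ZMod 4 → X × ZMod 4) (o : X × ZMod 4 → Bool) : Prop where
  nx : ∀ d, o (nx d) = !o d
  al : ∀ d, o (α d) = !o d

/-- a state with one closed curve and loads at most `a` at the faces of colour `true`, at most `b` at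
the faces of colour `false` -/
structure Good (α : X × ZMod 4 → X × ZMod 4) (o : X × ZMod 4 → Bool) (a b : ℕ)
    (T : X × ZMod 4 → Bool) : Prop where
  st : IsState T
  one : OneLoop α T
  load : ∀ d, load α T (face α d) ≤ if o d then a else b

/-- sectors which belong to the same node of the state: the same face, or joined at a crossing -/
def Joined (α : X × ZMod 4 → X × ZMod 4) (T : X × ZMod 4 → Bool) :
    X × ZMod 4 → X × ZMod 4 → Prop :=
  Relation.EqvGen fun a b => b = fs α a ∨ (T a = true ∧ b = op a)

section

variable {α : X × ZMod 4 → X × ZMod 4} {o T : X × ZMod 4 → Bool}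

theorem pv_nx (d : X × ZMod 4) : pv (nx d) = d := by simp [pv, nx]

theorem nx_pv (d : X × ZMod 4) : nx (pv d) = d := by simp [pv, nx]

theorem nx_nx (d : X × ZMod 4) : nx (nx d) = op d := by
  simp only [nx, op, add_assoc]
  rfl

theorem pv_pv (d : X × ZMod 4) : pv (pv d) = op d := by
  rcases d with ⟨x, i⟩
  simp only [pv, op, Prod.mk.injEq, true_and]
  revert i
  decide

theorem op_op (d : X × ZMod 4) : op (op d) = d := by
  rcases d with ⟨x, i⟩
  simp only [op, add_assoc]
  rw [show (2 + 2 : ZMod 4) = 0 by decide, add_zero]

theorem IsState.pv (h : IsState T) (d : X × ZMod 4) : T (pv d) = !T d := by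
  have := h (SN78.pv d)
  rw [nx_pv] at this
  rw [this, Bool.not_not]

theorem IsState.op (h : IsState T) (d : X × ZMod 4) : T (op d) = T d := by
  rw [← nx_nx, h, h, Bool.not_not]

theorem Check.pv (h : Check α o) (d : X × ZMod 4) : o (pv d) = !o d := by
  have := h.nx (SN78.pv d)
  rw [nx_pv] at this
  rw [this, Bool.not_not]

theorem Check.op (h : Check α o) (d : X × ZMod 4) : o (op d) = o d := by
  rw [← nx_nx, h.nx, h.nx, Bool.not_not]

theorem Check.fs (h : Check α o) (d : X × ZMod 4) : o (fs α d) = o d := by
  rw [SN78.fs, h.pv, h.al, Bool.not_not]

theorem Check.not (h : Check α o) : Check α fun d => !o d :=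
  ⟨fun d => by rw [h.nx], fun d => by rw [h.al]⟩

theorem turn_turn (h : IsState T) (d : X × ZMod 4) : turn T (turn T d) = d := by
  have h1 := h d
  have h2 := h.pv d
  unfold turn
  cases hd : T d
  · rw [hd] at h1
    simp [h1, pv_nx]
  · rw [hd] at h2
    simp [h2, nx_pv]

theorem T_turn (h : IsState T) (d : X × ZMod 4) : T (turn T d) = !T d := by
  have h1 := h d
  have h2 := h.pv d
  unfold turn
  cases hd : T d
  · rw [hd] at h1
    simp [h1]
  · rw [hd] at h2
    simp [h2]

/-- The single closed curve has all black nodes on one side, so they are connected by the selected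
crossings. -/
theorem OneLoop.joined (h : OneLoop α T) (hT : IsState T) (hi : ∀ d, α (α d) = d) (ho : Check α o)
    {d d' : X × ZMod 4} (hd : o d = true) (hd' : o d' = true) : Joined α T d d' := by
  have key : ∀ a b, SameLoop α T a b →
      Joined α T (if o a then a else pv a) (if o b then b else pv b) := by
    intro a b hab
    induction hab with
    | rel a b hab =>
      rcases hab with rfl | rfl
      · rw [ho.al]
        cases ha : o a
        · simp only [Bool.not_false, if_true, Bool.false_eq_true, if_false]
          refine Relation.EqvGen.symm _ _ (Relation.EqvGen.rel _ _ (Or.inl ?_))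
          rw [SN78.fs, hi]
        · simp only [Bool.not_true, if_true, Bool.false_eq_true, if_false]
          exact Relation.EqvGen.rel _ _ (Or.inl rfl)
      · cases hTa : T a
        · have e : turn T a = nx a := by simp [turn, hTa]
          rw [e, ho.nx]
          cases ha : o a
          · simp only [Bool.not_false, if_true, Bool.false_eq_true, if_false]
            refine Relation.EqvGen.rel _ _ (Or.inr ⟨by rw [hT.pv, hTa]; rfl, ?_⟩)
            rw [← nx_nx, nx_pv]
          · simp only [Bool.not_true, if_true, Bool.false_eq_true, if_false, pv_nx]
            exact Relation.EqvGen.refl _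
        · have e : turn T a = pv a := by simp [turn, hTa]
          rw [e, ho.pv]
          cases ha : o a
          · simp only [Bool.not_false, if_true, Bool.false_eq_true, if_false]
            exact Relation.EqvGen.refl _
          · simp only [Bool.not_true, if_true, Bool.false_eq_true, if_false, pv_pv]
            exact Relation.EqvGen.rel _ _ (Or.inr ⟨hTa, rfl⟩)
    | refl a => exact Relation.EqvGen.refl _
    | symm a b _ ih => exact Relation.EqvGen.symm _ _ ih
    | trans a b c _ _ ih1 ih2 => exact Relation.EqvGen.trans _ _ _ ih1 ih2
  have := key d d' (h d d')
  simpa [hd, hd'] using this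

end

end GT33
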