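import Pool.Agent.GT33.ChkB
import Pool.Agent.GT33.TabA

/-!
# Facts about boxes

`bxs`: the facts about boxes which the entries of the generic case use, with certificates from the
table `tbl`.  The first component is a list of conditions on the corner set, the second the flags
and the state.
-/

namespace GT33.Chk

set_option maxRecDepth 100000

/-- The facts about boxes. -/
def bxs : List (Fc × Alt × List Ins) := [
  ([], ⟨400004, 000000, 000000, 0, 020211⟩, [.node 0 27 1, .leaf 0 [0]]),
  ([], ⟨400004, 000000, 000000, 0, 021111⟩, [.node 0 11 1, .leaf 0 [0]]),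
  ([], ⟨400000, 000000, 000000, 2, 021021⟩, [.node 0 31 1, .leaf 0 [0]]),
  ([], ⟨400000, 000000, 000000, 2, 021111⟩, [.node 0 19 1, .leaf 0 [0]]),
  ([(5, false)], ⟨400040, 000000, 000001, 0, 021102⟩, [.node 0 23 3, .leaf 0 [0]]),
  ([(5, false)], ⟨400044, 000000, 000000, 0, 021111⟩, [.node 0 9 1, .leaf 0 [0]]),
  ([(5, false)], ⟨400044, 000000, 000000, 2, 012111⟩, [.node 0 32 1, .leaf 0 [0]]),
  ([(5, false)], ⟨400044, 000000, 000000, 2, 021111⟩, [.node 0 17 1, .leaf 0 [0]])]

theorem bxs_ok : factsB tbl bxs = true := by decide +kernel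

theorem bx_fact : ∀ p ∈ factsL bxs, Fact tbl p.1 p.2 := facts_of bxs_ok

end GT33.Chk
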