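import Pool.Agent.GT33.GlueE

/-!
# GT33 module ENTD2: the entries for the clause 2
-/

namespace GT33

open Chk

set_option maxRecDepth 100000

/-- the entries for the clause 2 -/
def ents2 : List Ent := [
  ⟨2, 110101, 000000, ⟨000000, 420204, 000101, 1, 112020⟩, 0, 120201, 110101, [12, 13, 14, 15, 16,
    17], [0, 1, 2, 3, 4, 5, 6, 7, 8, 9, 10, 11, 12, 13, 14, 15, 16, 17], [⟨0, 111111, 001010, [],
    [(0, 6), (12, 11), (1, 7), (13, 6), (2, 8), (14, 7), (3, 9), (15, 8), (4, 10), (16, 9), (5,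
    11), (17, 10)]⟩]⟩,
  ⟨2, 110101, 001000, ⟨000000, 420204, 000101, 1, 112020⟩, 3, 112101, 111001, [12, 13, 14, 15, 16,
    17], [0, 1, 2, 3, 4, 5, 6, 7, 8, 9, 10, 11, 12, 13, 14, 15, 16, 17], [⟨0, 111111, 001010, [(2,
    0, 021102)], [(0, 6), (12, 11), (1, 7), (13, 6), (2, 8), (3, 9), (15, 14), (7, 2), (4, 10),
    (16, 9), (5, 11), (17, 10)]⟩]⟩,
  ⟨2, 110101, 000010, ⟨000000, 420204, 000101, 1, 112020⟩, 4, 120120, 110110, [12, 13, 14, 15, 16,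
    17], [0, 1, 2, 3, 4, 5, 6, 7, 8, 9, 10, 11, 12, 13, 14, 15, 16, 17], [⟨0, 111111, 001010, [(4,
    0, 021102)], [(0, 6), (12, 11), (1, 7), (13, 6), (2, 8), (14, 7), (3, 9), (15, 8), (4, 10),
    (5, 11), (17, 16), (9, 4)]⟩]⟩,
  ⟨2, 110100, 000001, ⟨000000, 420204, 000101, 1, 112020⟩, 0, 120201, 110101, [13, 14, 15, 16, 17,
    23, 29, 35], [0, 1, 2, 3, 4, 5, 6, 7, 8, 9, 10, 11, 12, 13, 14, 15, 16, 17, 23, 29, 35], [⟨0,
    111111, 001010, [(5, 0, 020211)], [(12, 11), (1, 7), (13, 6), (2, 8), (14, 7), (3, 9), (15,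
    8), (4, 10), (16, 9), (5, 11), (17, 10), (0, 6), (23, 29), (35, 5)]⟩, ⟨0, 111111, 001010, [(5,
    0, 021111)], [(12, 11), (1, 7), (13, 6), (2, 8), (14, 7), (3, 9), (15, 8), (4, 10), (16, 9),
    (5, 11), (17, 10), (0, 6), (23, 29), (35, 5)]⟩]⟩,
  ⟨2, 110101, 001010, ⟨000000, 420204, 000101, 1, 112020⟩, 1, 112020, 111010, [12, 13, 14, 15, 16,
    17], [0, 1, 2, 3, 4, 5, 6, 7, 8, 9, 10, 11, 12, 13, 14, 15, 16, 17], [⟨0, 111111, 001010, [(2,
    0, 021102), (4, 0, 021102)], [(0, 6), (12, 11), (1, 7), (13, 6), (2, 8), (3, 9), (15, 14), (7,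
    2), (4, 10), (5, 11), (17, 16), (9, 4)]⟩]⟩,
  ⟨2, 110100, 001001, ⟨000000, 420204, 000101, 1, 112020⟩, 3, 112101, 111001, [13, 14, 15, 16, 17,
    23, 29, 35], [0, 1, 2, 3, 4, 5, 6, 7, 8, 9, 10, 11, 12, 13, 14, 15, 16, 17, 23, 29, 35], [⟨0,
    111111, 001010, [(2, 0, 021102), (5, 0, 020211)], [(12, 11), (1, 7), (13, 6), (2, 8), (3, 9),
    (15, 14), (7, 2), (4, 10), (16, 9), (5, 11), (17, 10), (0, 6), (23, 29), (35, 5)]⟩, ⟨0,
    111111, 001010, [(2, 0, 021102), (5, 0, 021111)], [(12, 11), (1, 7), (13, 6), (2, 8), (3, 9),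
    (15, 14), (7, 2), (4, 10), (16, 9), (5, 11), (17, 10), (0, 6), (23, 29), (35, 5)]⟩]⟩]

theorem ents2_ok : (ents2.all fun e =>
    entOK (factsL bxs) (gOf 2) e && srcB (fun _ => false) e) = true := by decide +kernel

theorem ents2_link : (ents2.all fun e => Nat.beq e.g 2 && linkB (factsL srcs) e) = true := by
  decide +kernel

/-- the pairs of the entries `ents2` -/
theorem ents2_pairs : ∀ k ∈ [000000, 001000, 000010, 000001, 001010, 001001], PairOK 2 k := by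
  have h1 := pairOK_ents ents2_ok ents2_link
  have h2 : ents2.map Ent.C = [000000, 001000, 000010, 000001, 001010, 001001] := rfl
  intro k hk
  rw [← h2, List.mem_map] at hk
  obtain ⟨e, he, rfl⟩ := hk
  exact h1 e he

end GT33
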