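import Pool.Agent.GT33.GlueE

/-!
# GT33 module ENTD3: the entries for the clause 3, all but one
-/

namespace GT33

open Chk

set_option maxRecDepth 100000

/-- the entries for the clause 3, all but one -/
def ents3 : List Ent := [
  ⟨3, 110110, 000000, ⟨000000, 420420, 100100, 2, 012012⟩, 4, 120120, 110110, [12, 13, 14, 15, 16,
    17], [0, 1, 2, 3, 4, 5, 6, 7, 8, 9, 10, 11, 12, 13, 14, 15, 16, 17], [⟨0, 111111, 001001, [],
    [(0, 6), (12, 11), (1, 7), (13, 6), (2, 8), (14, 7), (3, 9), (15, 8), (4, 10), (16, 9), (5,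
    11), (17, 10)]⟩]⟩,
  ⟨3, 010110, 100000, ⟨000000, 420420, 100100, 2, 012012⟩, 4, 120120, 110110, [12, 14, 15, 16, 17,
    18, 24, 30], [0, 1, 2, 3, 4, 5, 6, 7, 8, 9, 10, 11, 12, 13, 14, 15, 16, 17, 18, 24, 30], [⟨0,
    111111, 001001, [(0, 0, 020211)], [(0, 6), (12, 11), (1, 7), (18, 24), (30, 0), (13, 6), (2,
    8), (14, 7), (3, 9), (15, 8), (4, 10), (16, 9), (5, 11), (17, 10)]⟩, ⟨0, 111111, 001001, [(0,
    0, 021111)], [(0, 6), (12, 11), (1, 7), (18, 24), (30, 0), (13, 6), (2, 8), (14, 7), (3, 9),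
    (15, 8), (4, 10), (16, 9), (5, 11), (17, 10)]⟩]⟩,
  ⟨3, 110110, 001000, ⟨000000, 420420, 100100, 2, 012012⟩, 1, 112020, 111010, [12, 13, 14, 15, 16,
    17], [0, 1, 2, 3, 4, 5, 6, 7, 8, 9, 10, 11, 12, 13, 14, 15, 16, 17], [⟨0, 111111, 001001, [(2,
    0, 021102)], [(0, 6), (12, 11), (1, 7), (13, 6), (2, 8), (3, 9), (15, 14), (7, 2), (4, 10),
    (16, 9), (5, 11), (17, 10)]⟩]⟩,
  ⟨3, 110010, 000100, ⟨000000, 420420, 100100, 2, 012012⟩, 4, 120120, 110110, [12, 13, 14, 15, 17,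
    21, 27, 33], [0, 1, 2, 3, 4, 5, 6, 7, 8, 9, 10, 11, 12, 13, 14, 15, 16, 17, 21, 27, 33], [⟨0,
    111111, 001001, [(3, 0, 020211)], [(0, 6), (12, 11), (1, 7), (13, 6), (2, 8), (14, 7), (3, 9),
    (15, 8), (4, 10), (21, 27), (33, 3), (16, 9), (5, 11), (17, 10)]⟩, ⟨0, 111111, 001001, [(3, 0,
    021111)], [(0, 6), (12, 11), (1, 7), (13, 6), (2, 8), (14, 7), (3, 9), (15, 8), (4, 10), (21,
    27), (33, 3), (16, 9), (5, 11), (17, 10)]⟩]⟩,
  ⟨3, 110110, 000001, ⟨000000, 420420, 100100, 2, 012012⟩, 0, 020112, 010111, [12, 13, 14, 15, 16,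
    17], [0, 1, 2, 3, 4, 5, 6, 7, 8, 9, 10, 11, 12, 13, 14, 15, 16, 17], [⟨0, 111111, 001001, [(5,
    0, 021102)], [(1, 7), (13, 6), (2, 8), (14, 7), (3, 9), (15, 8), (4, 10), (16, 9), (5, 11),
    (0, 6), (12, 17), (10, 5)]⟩]⟩,
  ⟨3, 010110, 101000, ⟨000000, 420420, 100100, 2, 012012⟩, 1, 112020, 111010, [12, 14, 15, 16, 17,
    18, 24, 30], [0, 1, 2, 3, 4, 5, 6, 7, 8, 9, 10, 11, 12, 13, 14, 15, 16, 17, 18, 24, 30], [⟨0,
    111111, 001001, [(0, 0, 020211), (2, 0, 021102)], [(0, 6), (12, 11), (1, 7), (18, 24), (30,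
    0), (13, 6), (2, 8), (3, 9), (15, 14), (7, 2), (4, 10), (16, 9), (5, 11), (17, 10)]⟩, ⟨0,
    111111, 001001, [(0, 0, 021111), (2, 0, 021102)], [(0, 6), (12, 11), (1, 7), (18, 24), (30,
    0), (13, 6), (2, 8), (3, 9), (15, 14), (7, 2), (4, 10), (16, 9), (5, 11), (17, 10)]⟩]⟩,
  ⟨3, 110110, 001001, ⟨000000, 420420, 100100, 2, 012012⟩, 2, 012012, 011011, [12, 13, 14, 15, 16,
    17], [0, 1, 2, 3, 4, 5, 6, 7, 8, 9, 10, 11, 12, 13, 14, 15, 16, 17], [⟨0, 111111, 001001, [(2,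
    0, 021102), (5, 0, 021102)], [(1, 7), (13, 6), (2, 8), (3, 9), (15, 14), (7, 2), (4, 10), (16,
    9), (5, 11), (0, 6), (12, 17), (10, 5)]⟩]⟩,
  ⟨3, 110010, 000101, ⟨000000, 420420, 100100, 2, 012012⟩, 0, 020112, 010111, [12, 13, 14, 15, 17,
    21, 27, 33], [0, 1, 2, 3, 4, 5, 6, 7, 8, 9, 10, 11, 12, 13, 14, 15, 16, 17, 21, 27, 33], [⟨0,
    111111, 001001, [(3, 0, 020211), (5, 0, 021102)], [(1, 7), (13, 6), (2, 8), (14, 7), (3, 9),
    (15, 8), (4, 10), (21, 27), (33, 3), (16, 9), (5, 11), (0, 6), (12, 17), (10, 5)]⟩, ⟨0,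
    111111, 001001, [(3, 0, 021111), (5, 0, 021102)], [(1, 7), (13, 6), (2, 8), (14, 7), (3, 9),
    (15, 8), (4, 10), (21, 27), (33, 3), (16, 9), (5, 11), (0, 6), (12, 17), (10, 5)]⟩]⟩]

theorem ents3_ok : (ents3.all fun e =>
    entOK (factsL bxs) (gOf 3) e && srcB (fun _ => false) e) = true := by decide +kernel

theorem ents3_link : (ents3.all fun e => Nat.beq e.g 3 && linkB (factsL srcs) e) = true := by
  decide +kernel

/-- the pairs of the entries `ents3` -/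
theorem ents3_pairs : ∀ k ∈ [000000, 100000, 001000, 000100, 000001, 101000, 001001, 000101], PairOK 3 k := by
  have h1 := pairOK_ents ents3_ok ents3_link
  have h2 : ents3.map Ent.C = [000000, 100000, 001000, 000100, 000001, 101000, 001001, 000101] := rfl
  intro k hk
  rw [← h2, List.mem_map] at hk
  obtain ⟨e, he, rfl⟩ := hk
  exact h1 e he

end GT33
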