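import Pool.Agent.GT33.GlueE

/-!
# GT33 module ENTD4: the entries for the clause 4
-/

namespace GT33

open Chk

set_option maxRecDepth 100000

/-- the entries for the clause 4 -/
def ents4 : List Ent := [
  ⟨4, 110001, 000000, ⟨000000, 420404, 000101, 1, 112020⟩, 4, 120120, 110110, [12, 13, 14, 15, 16,
    17], [0, 1, 2, 3, 4, 5, 6, 7, 8, 9, 10, 11, 12, 13, 14, 15, 16, 17], [⟨0, 111111, 001100, [],
    [(0, 6), (12, 11), (1, 7), (13, 6), (2, 8), (14, 7), (3, 9), (15, 8), (4, 10), (16, 9), (5,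
    11), (17, 10)]⟩]⟩,
  ⟨4, 110001, 000010, ⟨000000, 420404, 000101, 1, 112020⟩, 4, 120120, 110110, [12, 13, 14, 15, 16,
    22, 28, 34], [0, 1, 2, 3, 4, 5, 6, 7, 8, 9, 10, 11, 12, 13, 14, 15, 16, 17, 22, 28, 34], [⟨0,
    111111, 001100, [(4, 2, 021111)], [(0, 6), (12, 11), (1, 7), (13, 6), (2, 8), (14, 7), (3, 9),
    (15, 8), (4, 10), (16, 9), (5, 11), (22, 4), (28, 34), (17, 10)]⟩]⟩,
  ⟨4, 110000, 000001, ⟨000000, 420404, 000101, 1, 112020⟩, 4, 120120, 110110, [13, 14, 15, 16, 17,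
    23, 29, 35], [0, 1, 2, 3, 4, 5, 6, 7, 8, 9, 10, 11, 12, 13, 14, 15, 16, 17, 23, 29, 35], [⟨0,
    111111, 001100, [(5, 0, 020211)], [(12, 11), (1, 7), (13, 6), (2, 8), (14, 7), (3, 9), (15,
    8), (4, 10), (16, 9), (5, 11), (17, 10), (0, 6), (23, 29), (35, 5)]⟩, ⟨0, 111111, 001100, [(5,
    0, 021111)], [(12, 11), (1, 7), (13, 6), (2, 8), (14, 7), (3, 9), (15, 8), (4, 10), (16, 9),
    (5, 11), (17, 10), (0, 6), (23, 29), (35, 5)]⟩]⟩,
  ⟨4, 010001, 100010, ⟨000000, 020442, 010100, 1, 202011⟩, 4, 210111, 100111, [12, 13, 14, 15, 16,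
    22, 28, 34], [0, 1, 2, 3, 4, 5, 6, 7, 8, 9, 10, 11, 12, 13, 14, 15, 16, 17, 22, 28, 34], [⟨0,
    111111, 001100, [(0, 2, 021111), (4, 0, 020211)], [(0, 6), (1, 7), (13, 0), (12, 11), (2, 8),
    (14, 7), (3, 9), (15, 8), (4, 10), (16, 9), (5, 11), (22, 28), (34, 4), (17, 10)]⟩, ⟨0,
    111111, 001100, [(0, 2, 021111), (4, 0, 021111)], [(0, 6), (1, 7), (13, 0), (12, 11), (2, 8),
    (14, 7), (3, 9), (15, 8), (4, 10), (16, 9), (5, 11), (22, 28), (34, 4), (17, 10)]⟩]⟩]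

theorem ents4_ok : (ents4.all fun e =>
    entOK (factsL bxs) (gOf 4) e && srcB (fun _ => false) e) = true := by decide +kernel

theorem ents4_link : (ents4.all fun e => Nat.beq e.g 4 && linkB (factsL srcs) e) = true := by
  decide +kernel

/-- the pairs of the entries `ents4` -/
theorem ents4_pairs : ∀ k ∈ [000000, 000010, 000001, 100010], PairOK 4 k := by
  have h1 := pairOK_ents ents4_ok ents4_link
  have h2 : ents4.map Ent.C = [000000, 000010, 000001, 100010] := rfl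
  intro k hk
  rw [← h2, List.mem_map] at hk
  obtain ⟨e, he, rfl⟩ := hk
  exact h1 e he

end GT33
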