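import Pool.Agent.GT33.GlueE

/-!
# GT33 module ENTD5: the entries for the clause 5
-/

namespace GT33

open Chk

set_option maxRecDepth 100000

/-- the entries for the clause 5 -/
def ents5 : List Ent := [
  ⟨5, 110000, 000000, ⟨000000, 420440, 100100, 2, 012012⟩, 0, 020112, 010111, [12, 13, 14, 15, 16,
    17], [0, 1, 2, 3, 4, 5, 6, 7, 8, 9, 10, 11, 12, 13, 14, 15, 16, 17], [⟨0, 111111, 001110, [],
    [(0, 6), (12, 11), (1, 7), (13, 6), (2, 8), (14, 7), (3, 9), (15, 8), (4, 10), (16, 9), (5,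
    11), (17, 10)]⟩]⟩,
  ⟨5, 010000, 100000, ⟨000000, 420440, 100100, 2, 012012⟩, 0, 020112, 010111, [12, 14, 15, 16, 17,
    18, 24, 30], [0, 1, 2, 3, 4, 5, 6, 7, 8, 9, 10, 11, 12, 13, 14, 15, 16, 17, 18, 24, 30], [⟨0,
    111111, 001110, [(0, 0, 020211)], [(0, 6), (12, 11), (1, 7), (18, 24), (30, 0), (13, 6), (2,
    8), (14, 7), (3, 9), (15, 8), (4, 10), (16, 9), (5, 11), (17, 10)]⟩, ⟨0, 111111, 001110, [(0,
    0, 021111)], [(0, 6), (12, 11), (1, 7), (18, 24), (30, 0), (13, 6), (2, 8), (14, 7), (3, 9),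
    (15, 8), (4, 10), (16, 9), (5, 11), (17, 10)]⟩]⟩,
  ⟨5, 110000, 000001, ⟨000000, 420440, 100100, 2, 012012⟩, 0, 020112, 010111, [13, 14, 15, 16, 17,
    23, 29, 35], [0, 1, 2, 3, 4, 5, 6, 7, 8, 9, 10, 11, 12, 13, 14, 15, 16, 17, 23, 29, 35], [⟨0,
    111111, 001110, [(5, 2, 021111)], [(12, 11), (1, 7), (13, 6), (2, 8), (14, 7), (3, 9), (15,
    8), (4, 10), (16, 9), (5, 11), (17, 10), (0, 6), (23, 5), (29, 35)]⟩]⟩]

theorem ents5_ok : (ents5.all fun e =>
    entOK (factsL bxs) (gOf 5) e && srcB (fun _ => false) e) = true := by decide +kernel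

theorem ents5_link : (ents5.all fun e => Nat.beq e.g 5 && linkB (factsL srcs) e) = true := by
  decide +kernel

/-- the pairs of the entries `ents5` -/
theorem ents5_pairs : ∀ k ∈ [000000, 100000, 000001], PairOK 5 k := by
  have h1 := pairOK_ents ents5_ok ents5_link
  have h2 : ents5.map Ent.C = [000000, 100000, 000001] := rfl
  intro k hk
  rw [← h2, List.mem_map] at hk
  obtain ⟨e, he, rfl⟩ := hk
  exact h1 e he

end GT33
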