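import Pool.Agent.GT33.GlueE

/-!
# GT33 module ENTD6: the entries for the clause 6
-/

namespace GT33

open Chk

set_option maxRecDepth 100000

/-- the entries for the clause 6 -/
def ents6 : List Ent := [
  ⟨6, 010000, 000000, ⟨000000, 020444, 010100, 1, 202011⟩, 4, 210111, 100111, [12, 13, 14, 15, 16,
    17], [0, 1, 2, 3, 4, 5, 6, 7, 8, 9, 10, 11, 12, 13, 14, 15, 16, 17], [⟨0, 111111, 001111, [],
    [(0, 6), (12, 11), (1, 7), (13, 6), (2, 8), (14, 7), (3, 9), (15, 8), (4, 10), (16, 9), (5,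
    11), (17, 10)]⟩]⟩,
  ⟨6, 010000, 100000, ⟨000000, 020444, 010100, 1, 202011⟩, 4, 210111, 100111, [12, 14, 15, 16, 17,
    18, 24, 30], [0, 1, 2, 3, 4, 5, 6, 7, 8, 9, 10, 11, 12, 13, 14, 15, 16, 17, 18, 24, 30], [⟨0,
    111111, 001111, [(0, 0, 021111)], [(0, 6), (12, 11), (1, 7), (18, 24), (30, 0), (13, 6), (2,
    8), (14, 7), (3, 9), (15, 8), (4, 10), (16, 9), (5, 11), (17, 10)]⟩, ⟨0, 111111, 001111, [(0,
    2, 021111)], [(0, 6), (12, 11), (1, 7), (18, 0), (24, 30), (13, 6), (2, 8), (14, 7), (3, 9),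
    (15, 8), (4, 10), (16, 9), (5, 11), (17, 10)]⟩]⟩]

theorem ents6_ok : (ents6.all fun e =>
    entOK (factsL bxs) (gOf 6) e && srcB (fun _ => false) e) = true := by decide +kernel

theorem ents6_link : (ents6.all fun e => Nat.beq e.g 6 && linkB (factsL srcs) e) = true := by
  decide +kernel

/-- the pairs of the entries `ents6` -/
theorem ents6_pairs : ∀ k ∈ [000000, 100000], PairOK 6 k := by
  have h1 := pairOK_ents ents6_ok ents6_link
  have h2 : ents6.map Ent.C = [000000, 100000] := rfl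
  intro k hk
  rw [← h2, List.mem_map] at hk
  obtain ⟨e, he, rfl⟩ := hk
  exact h1 e he

end GT33
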