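import Pool.Agent.GT33.GlueE

/-!
# GT33 module ENTD7: the entries for the clause 7
-/

namespace GT33

open Chk

set_option maxRecDepth 100000

/-- the entries for the clause 7 -/
def ents7 : List Ent := [
  ⟨7, 101000, 000000, ⟨000000, 202044, 001010, 0, 120201⟩, 1, 202011, 101011, [12, 13, 14, 15, 16,
    17], [0, 1, 2, 3, 4, 5, 6, 7, 8, 9, 10, 11, 12, 13, 14, 15, 16, 17], [⟨0, 111111, 010111, [],
    [(0, 6), (12, 11), (1, 7), (13, 6), (2, 8), (14, 7), (3, 9), (15, 8), (4, 10), (16, 9), (5,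
    11), (17, 10)]⟩]⟩,
  ⟨7, 101000, 010000, ⟨000000, 202044, 001010, 0, 120201⟩, 2, 121011, 110011, [12, 13, 14, 15, 16,
    17], [0, 1, 2, 3, 4, 5, 6, 7, 8, 9, 10, 11, 12, 13, 14, 15, 16, 17], [⟨0, 111111, 010111, [(1,
    0, 021102)], [(0, 6), (12, 11), (1, 7), (2, 8), (14, 13), (6, 1), (3, 9), (15, 8), (4, 10),
    (16, 9), (5, 11), (17, 10)]⟩]⟩,
  ⟨7, 101000, 000001, ⟨000000, 202044, 001010, 0, 120201⟩, 1, 202011, 101011, [13, 14, 15, 16, 17,
    23, 29, 35], [0, 1, 2, 3, 4, 5, 6, 7, 8, 9, 10, 11, 12, 13, 14, 15, 16, 17, 23, 29, 35], [⟨1,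
    111111, 010110, [(5, 0, 020211)], [(12, 11), (1, 7), (13, 6), (2, 8), (14, 7), (3, 9), (15,
    8), (4, 10), (16, 9), (5, 11), (17, 10), (0, 6), (23, 29), (35, 5)]⟩, ⟨0, 111111, 010111, [(5,
    0, 021102)], [(12, 11), (1, 7), (13, 6), (2, 8), (14, 7), (3, 9), (15, 8), (4, 10), (16, 9),
    (5, 11), (17, 10), (0, 6), (23, 29), (35, 5)]⟩]⟩,
  ⟨7, 101000, 010001, ⟨000000, 202044, 001010, 0, 120201⟩, 2, 121011, 110011, [13, 14, 15, 16, 17,
    23, 29, 35], [0, 1, 2, 3, 4, 5, 6, 7, 8, 9, 10, 11, 12, 13, 14, 15, 16, 17, 23, 29, 35], [⟨1,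
    111111, 010110, [(1, 0, 021102), (5, 0, 020211)], [(12, 11), (1, 7), (2, 8), (14, 13), (6, 1),
    (3, 9), (15, 8), (4, 10), (16, 9), (5, 11), (17, 10), (0, 6), (23, 29), (35, 5)]⟩, ⟨0, 111111,
    010111, [(1, 0, 021102), (5, 0, 021102)], [(12, 11), (1, 7), (2, 8), (14, 13), (6, 1), (3, 9),
    (15, 8), (4, 10), (16, 9), (5, 11), (17, 10), (0, 6), (23, 29), (35, 5)]⟩]⟩]

theorem ents7_ok : (ents7.all fun e =>
    entOK (factsL bxs) (gOf 7) e && srcB (fun _ => false) e) = true := by decide +kernel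

theorem ents7_link : (ents7.all fun e => Nat.beq e.g 7 && linkB (factsL srcs) e) = true := by
  decide +kernel

/-- the pairs of the entries `ents7` -/
theorem ents7_pairs : ∀ k ∈ [000000, 010000, 000001, 010001], PairOK 7 k := by
  have h1 := pairOK_ents ents7_ok ents7_link
  have h2 : ents7.map Ent.C = [000000, 010000, 000001, 010001] := rfl
  intro k hk
  rw [← h2, List.mem_map] at hk
  obtain ⟨e, he, rfl⟩ := hk
  exact h1 e he

end GT33
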