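import Pool.Agent.GT33.GlueE

/-!
# GT33 module ENTD8: the entries for the clause 8
-/

namespace GT33

open Chk

set_option maxRecDepth 100000

/-- the entries for the clause 8 -/
def ents8 : List Ent := [
  ⟨8, 100000, 000000, ⟨000000, 204044, 001010, 0, 120201⟩, 3, 201201, 101101, [12, 13, 14, 15, 16,
    17], [0, 1, 2, 3, 4, 5, 6, 7, 8, 9, 10, 11, 12, 13, 14, 15, 16, 17], [⟨0, 111111, 011011, [],
    [(0, 6), (12, 11), (1, 7), (13, 6), (2, 8), (14, 7), (3, 9), (15, 8), (4, 10), (16, 9), (5,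
    11), (17, 10)]⟩]⟩,
  ⟨8, 100000, 000001, ⟨000000, 204044, 001010, 0, 120201⟩, 3, 201201, 101101, [13, 14, 15, 16, 17,
    23, 29, 35], [0, 1, 2, 3, 4, 5, 6, 7, 8, 9, 10, 11, 12, 13, 14, 15, 16, 17, 23, 29, 35], [⟨1,
    111111, 011010, [(5, 0, 020211)], [(12, 11), (1, 7), (13, 6), (2, 8), (14, 7), (3, 9), (15,
    8), (4, 10), (16, 9), (5, 11), (17, 10), (0, 6), (23, 29), (35, 5)]⟩, ⟨0, 111111, 011011, [(5,
    0, 021102)], [(12, 11), (1, 7), (13, 6), (2, 8), (14, 7), (3, 9), (15, 8), (4, 10), (16, 9),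
    (5, 11), (17, 10), (0, 6), (23, 29), (35, 5)]⟩]⟩]

theorem ents8_ok : (ents8.all fun e =>
    entOK (factsL bxs) (gOf 8) e && srcB (fun _ => false) e) = true := by decide +kernel

theorem ents8_link : (ents8.all fun e => Nat.beq e.g 8 && linkB (factsL srcs) e) = true := by
  decide +kernel

/-- the pairs of the entries `ents8` -/
theorem ents8_pairs : ∀ k ∈ [000000, 000001], PairOK 8 k := by
  have h1 := pairOK_ents ents8_ok ents8_link
  have h2 : ents8.map Ent.C = [000000, 000001] := rfl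
  intro k hk
  rw [← h2, List.mem_map] at hk
  obtain ⟨e, he, rfl⟩ := hk
  exact h1 e he

end GT33
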