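import Pool.Agent.GT33.GlueS

/-!
# GT33 module ENTT: the entries for stars

`entsT`: the entries for the clauses `0, 1, 2` and the corner hexagons `0, 2, 4` if the folded map is a star.
-/

open Classical

namespace GT33

open Chk

set_option maxRecDepth 100000

/-- the entries for stars -/
def entsT : List Ent := [
  ⟨0, 010101, 101010, ⟨000000, 010101, 000000, 1, 202020⟩, 1, 202020, 101010, [12, 13, 14, 15, 16, 17], [0, 1, 2, 3, 4, 5, 6, 7, 8, 9, 10, 11, 12, 13, 14, 15, 16, 17], [⟨0, 111111, 001000, [(0, 0, 021111), (2, 0, 021102), (4, 2, 021111)], [(0, 6), (1, 7), (13, 12), (11, 0), (2, 8), (3, 9), (15, 14), (7, 2), (4, 10), (5, 11), (17, 4), (16, 9)]⟩]⟩,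
  ⟨1, 010101, 101010, ⟨000000, 010101, 000000, 1, 202020⟩, 1, 202020, 101010, [12, 13, 14, 15, 16, 17], [0, 1, 2, 3, 4, 5, 6, 7, 8, 9, 10, 11, 12, 13, 14, 15, 16, 17], [⟨0, 111111, 001000, [(0, 2, 021111), (2, 0, 021102), (4, 2, 021111)], [(0, 6), (1, 7), (13, 0), (12, 11), (2, 8), (3, 9), (15, 14), (7, 2), (4, 10), (5, 11), (17, 4), (16, 9)]⟩]⟩,
  ⟨2, 010101, 101010, ⟨000000, 010101, 000000, 1, 202020⟩, 1, 202020, 101010, [12, 13, 14, 15, 16, 17], [0, 1, 2, 3, 4, 5, 6, 7, 8, 9, 10, 11, 12, 13, 14, 15, 16, 17], [⟨0, 111111, 001010, [(0, 2, 021111), (2, 0, 021102), (4, 0, 021102)], [(0, 6), (1, 7), (13, 0), (12, 11), (2, 8), (3, 9), (15, 14), (7, 2), (4, 10), (5, 11), (17, 16), (9, 4)]⟩]⟩]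

theorem entsT_star : (entsT.all fun e => starB e && entPair e.g e.N e.C []) = true := by
  decide +kernel

theorem entsT_ok : (entsT.all fun e => entOK (factsL bxs) (gOf e.g) e &&
    srcB (fun _ => false) e) = true := by decide +kernel

/-- **the clauses `0, 1, 2` for stars** -/
theorem star_pair {i : ℕ} (hi : i = 0 ∨ i = 1 ∨ i = 2) {n : ℕ} (hn : gen0W[i]? = some n)
    {D : Type} [Fintype D] {M : DMap D} {A : D → Prop} {δ : ZMod 6 → D} {B : Boxes D} {m : ℕ}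
    {o : D → Bool} (h : DMap.Pack (GoodS tbl) (wd n) (on 101010) M A δ B m o) (hS : h.star) :
    DMap.ClS (gOf i) (DMap.Rz M A δ B.β) := by
  have key : ∀ i : ℕ, (i = 0 ∨ i = 1 ∨ i = 2) → ∃ e ∈ entsT, e.g = i ∧ e.C = 101010 := by
    rintro i (rfl | rfl | rfl)
    · exact ⟨_, List.mem_of_getElem? (i := 0) rfl, rfl, rfl⟩
    · exact ⟨_, List.mem_of_getElem? (i := 1) rfl, rfl, rfl⟩
    · exact ⟨_, List.mem_of_getElem? (i := 2) rfl, rfl, rfl⟩
  obtain ⟨e, he, rfl, hC⟩ := key i hi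
  have h1 := entsT_star
  have h2 := entsT_ok
  rw [List.all_eq_true] at h1 h2
  have h3 := h1 e he
  have h4 := h2 e he
  rw [Bool.and_eq_true] at h3 h4
  rw [← hC] at h
  exact star_ent bx_fact hn h3.2 h3.1 h4.1 h4.2 h hS

end GT33
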