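import Pool.Agent.GT33.RwZ
import Pool.Agent.GT33.EntT

/-!
# GT33 module ENTDZ: the pairs with a through corner next to a right end

`entsZ`: the entries; `entsZ_pair`: the pairs.
-/

open Classical

namespace GT33

open Chk

set_option maxRecDepth 100000

/-- the entries with the through corner `0` -/
def entsZ : List Ent := [
  ⟨0, 010101, 100010, ⟨000000, 410204, 000101, 1, 112020⟩, 4, 120120, 110110, [12, 13, 14, 15, 16, 17], [0, 1, 2, 3, 4, 5, 6, 7, 8, 9, 10, 11, 12, 13, 14, 15, 16, 17], [⟨0, 111111, 001000, [(0, 2, 021111), (4, 0, 021111)], [(0, 6), (1, 7), (13, 0), (12, 11), (2, 8), (14, 7), (3, 9), (15, 8), (4, 10), (5, 11), (17, 16), (9, 4)]⟩]⟩,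
  ⟨0, 010101, 101010, ⟨000000, 410204, 000101, 1, 112020⟩, 1, 112020, 111010, [12, 13, 14, 15, 16, 17], [0, 1, 2, 3, 4, 5, 6, 7, 8, 9, 10, 11, 12, 13, 14, 15, 16, 17], [⟨0, 111111, 001000, [(0, 2, 021111), (2, 0, 021102), (4, 0, 021111)], [(0, 6), (1, 7), (13, 0), (12, 11), (2, 8), (3, 9), (15, 14), (7, 2), (4, 10), (5, 11), (17, 16), (9, 4)]⟩]⟩,
  ⟨1, 010101, 100010, ⟨000000, 410204, 000101, 1, 112020⟩, 4, 120120, 110110, [12, 13, 14, 15, 16, 17], [0, 1, 2, 3, 4, 5, 6, 7, 8, 9, 10, 11, 12, 13, 14, 15, 16, 17], [⟨0, 111111, 001000, [(0, 2, 021111), (4, 2, 021111)], [(0, 6), (1, 7), (13, 0), (12, 11), (2, 8), (14, 7), (3, 9), (15, 8), (4, 10), (5, 11), (17, 4), (16, 9)]⟩]⟩,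
  ⟨1, 010101, 101010, ⟨000000, 410204, 000101, 1, 112020⟩, 1, 112020, 111010, [12, 13, 14, 15, 16, 17], [0, 1, 2, 3, 4, 5, 6, 7, 8, 9, 10, 11, 12, 13, 14, 15, 16, 17], [⟨0, 111111, 001000, [(0, 2, 021111), (2, 0, 021102), (4, 2, 021111)], [(0, 6), (1, 7), (13, 0), (12, 11), (2, 8), (3, 9), (15, 14), (7, 2), (4, 10), (5, 11), (17, 4), (16, 9)]⟩]⟩,
  ⟨2, 010101, 100000, ⟨000000, 410204, 000101, 1, 112020⟩, 0, 120201, 110101, [12, 13, 14, 15, 16, 17], [0, 1, 2, 3, 4, 5, 6, 7, 8, 9, 10, 11, 12, 13, 14, 15, 16, 17], [⟨0, 111111, 001010, [(0, 2, 021111)], [(0, 6), (1, 7), (13, 0), (12, 11), (2, 8), (14, 7), (3, 9), (15, 8), (4, 10), (16, 9), (5, 11), (17, 10)]⟩]⟩,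
  ⟨2, 010101, 101000, ⟨000000, 410204, 000101, 1, 112020⟩, 3, 112101, 111001, [12, 13, 14, 15, 16, 17], [0, 1, 2, 3, 4, 5, 6, 7, 8, 9, 10, 11, 12, 13, 14, 15, 16, 17], [⟨0, 111111, 001010, [(0, 2, 021111), (2, 0, 021102)], [(0, 6), (1, 7), (13, 0), (12, 11), (2, 8), (3, 9), (15, 14), (7, 2), (4, 10), (16, 9), (5, 11), (17, 10)]⟩]⟩,
  ⟨2, 010101, 100010, ⟨000000, 410204, 000101, 1, 112020⟩, 4, 120120, 110110, [12, 13, 14, 15, 16, 17], [0, 1, 2, 3, 4, 5, 6, 7, 8, 9, 10, 11, 12, 13, 14, 15, 16, 17], [⟨0, 111111, 001010, [(0, 2, 021111), (4, 0, 021102)], [(0, 6), (1, 7), (13, 0), (12, 11), (2, 8), (14, 7), (3, 9), (15, 8), (4, 10), (5, 11), (17, 16), (9, 4)]⟩]⟩,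
  ⟨2, 010101, 101010, ⟨000000, 410204, 000101, 1, 112020⟩, 1, 112020, 111010, [12, 13, 14, 15, 16, 17], [0, 1, 2, 3, 4, 5, 6, 7, 8, 9, 10, 11, 12, 13, 14, 15, 16, 17], [⟨0, 111111, 001010, [(0, 2, 021111), (2, 0, 021102), (4, 0, 021102)], [(0, 6), (1, 7), (13, 0), (12, 11), (2, 8), (3, 9), (15, 14), (7, 2), (4, 10), (5, 11), (17, 16), (9, 4)]⟩]⟩,
  ⟨4, 010001, 100000, ⟨000000, 410404, 000101, 1, 112020⟩, 4, 120120, 110110, [12, 13, 14, 15, 16, 17], [0, 1, 2, 3, 4, 5, 6, 7, 8, 9, 10, 11, 12, 13, 14, 15, 16, 17], [⟨0, 111111, 001100, [(0, 2, 021111)], [(0, 6), (1, 7), (13, 0), (12, 11), (2, 8), (14, 7), (3, 9), (15, 8), (4, 10), (16, 9), (5, 11), (17, 10)]⟩]⟩]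

theorem entsZ_ok : (entsZ.all fun e => entGZ (factsL srcsZ) (factsL bxs) 0 e) = true := by
  decide +kernel

theorem entsZ_ns : (entsZ.all fun e => nsB (on e.N) (on e.C) ||
    (Nat.beq e.C 101010 && (Nat.beq e.g 0 || Nat.beq e.g 1 || Nat.beq e.g 2))) = true := by
  decide +kernel

/-- **the pairs with a through corner next to a right end** -/
theorem entsZ_pair : ∀ e ∈ entsZ, PairOK e.g e.C := by
  intro e he
  have h1 := entsZ_ok
  have h2 := entsZ_ns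
  rw [List.all_eq_true] at h1 h2
  have h3 := h1 e he
  have h4 := h2 e he
  simp only [Bool.or_eq_true, Bool.and_eq_true] at h4
  rcases h4 with h4 | ⟨h4, h5⟩
  · exact pairOK_entZ srcZ_fact bx_fact h3 h4
  · have hC : e.C = 101010 := Nat.eq_of_beq_eq_true h4
    have hg : e.g = 0 ∨ e.g = 1 ∨ e.g = 2 := by
      rcases h5 with (h5 | h5) | h5
      · exact Or.inl (Nat.eq_of_beq_eq_true h5)
      · exact Or.inr (Or.inl (Nat.eq_of_beq_eq_true h5))
      · exact Or.inr (Or.inr (Nat.eq_of_beq_eq_true h5))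
    refine pairOK_entZS srcZ_fact bx_fact h3 fun hn _ _ _ _ _ _ _ _ h hS => ?_
    rw [hC] at h
    exact star_pair hg hn h hS

/-- the pairs with a through corner next to a right end, as a list -/
theorem pairsZ_ok : ∀ p ∈ [(0, 100010), (0, 101010), (1, 100010), (1, 101010), (2, 100000),
    (2, 101000), (2, 100010), (2, 101010), (4, 100000)], PairOK p.1 p.2 := by
  intro p hp
  have h : [(0, 100010), (0, 101010), (1, 100010), (1, 101010), (2, 100000),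
    (2, 101000), (2, 100010), (2, 101010), (4, 100000)] = entsZ.map fun e => (e.g, e.C) := by
    decide +kernel
  rw [h, List.mem_map] at hp
  obtain ⟨e, he, rfl⟩ := hp
  exact entsZ_pair e he

end GT33
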