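import Pool.Agent.GT33.GlueE

/-!
# GT33 module ENTDA: the entry for the clause 3 with two end corners
-/

namespace GT33

open Chk

set_option maxRecDepth 100000

/-- the entry for the clause 3 with two end corners -/
def ents3a : List Ent := [
  ⟨3, 010010, 100100, ⟨000000, 420420, 100100, 2, 012012⟩, 4, 120120, 110110, [12, 14, 15, 17, 18,
    21, 24, 27, 30, 33], [0, 1, 2, 3, 4, 5, 6, 7, 8, 9, 10, 11, 12, 13, 14, 15, 16, 17, 18, 21,
    24, 27, 30, 33], [⟨0, 111111, 001001, [(0, 0, 020211), (3, 0, 020211)], [(0, 6), (12, 11), (1,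
    7), (18, 24), (30, 0), (13, 6), (2, 8), (14, 7), (3, 9), (15, 8), (4, 10), (21, 27), (33, 3),
    (16, 9), (5, 11), (17, 10)]⟩, ⟨0, 111111, 001001, [(0, 0, 020211), (3, 0, 021111)], [(0, 6),
    (12, 11), (1, 7), (18, 24), (30, 0), (13, 6), (2, 8), (14, 7), (3, 9), (15, 8), (4, 10), (21,
    27), (33, 3), (16, 9), (5, 11), (17, 10)]⟩, ⟨0, 111111, 001001, [(0, 0, 021111), (3, 0,
    020211)], [(0, 6), (12, 11), (1, 7), (18, 24), (30, 0), (13, 6), (2, 8), (14, 7), (3, 9), (15,
    8), (4, 10), (21, 27), (33, 3), (16, 9), (5, 11), (17, 10)]⟩, ⟨0, 111111, 001001, [(0, 0,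
    021111), (3, 0, 021111)], [(0, 6), (12, 11), (1, 7), (18, 24), (30, 0), (13, 6), (2, 8), (14,
    7), (3, 9), (15, 8), (4, 10), (21, 27), (33, 3), (16, 9), (5, 11), (17, 10)]⟩]⟩]

theorem ents3a_ok : (ents3a.all fun e =>
    entOK (factsL bxs) (gOf 3) e && srcB (fun _ => false) e) = true := by decide +kernel

theorem ents3a_link : (ents3a.all fun e => Nat.beq e.g 3 && linkB (factsL srcs) e) = true := by
  decide +kernel

/-- the pairs of the entries `ents3a` -/
theorem ents3a_pairs : ∀ k ∈ [100100], PairOK 3 k := by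
  have h1 := pairOK_ents ents3a_ok ents3a_link
  have h2 : ents3a.map Ent.C = [100100] := rfl
  intro k hk
  rw [← h2, List.mem_map] at hk
  obtain ⟨e, he, rfl⟩ := hk
  exact h1 e he

end GT33
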