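import Pool.Agent.GT33.ChkB
import Pool.Agent.GT33.TabA

/-!
# The sources of the entries

`srcs`, `srcsZ`: for every entry of the generic case (in the order of the entries) the fact about the
source: the exact corner set, the alternative, and the certificate from the table `tbl`.
-/

namespace GT33.Chk

set_option maxRecDepth 100000

/-- The sources of the entries without the corner `(1, 1)`. -/
def srcs : List (Fc × Alt × List Ins) := [
  ([(0, false), (1, false), (2, true), (3, false), (4, false), (5, false)], ⟨000000, 420444, 000100, 2, 112011⟩, [.node 0 56 1, .leaf 0 [0]]),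
  ([(0, true), (1, false), (2, true), (3, false), (4, false), (5, false)], ⟨000000, 020442, 010100, 1, 202011⟩, [.node 0 66 1, .leaf 0 [0]]),
  ([(0, false), (1, false), (2, true), (3, false), (4, false), (5, false)], ⟨000000, 420444, 000100, 2, 112011⟩, [.node 0 56 1, .leaf 0 [0]]),
  ([(0, false), (1, false), (2, true), (3, false), (4, false), (5, false)], ⟨000000, 420444, 000100, 2, 112011⟩, [.node 0 56 1, .leaf 0 [0]]),
  ([(0, false), (1, false), (2, true), (3, false), (4, true), (5, false)], ⟨000000, 420204, 000101, 1, 112020⟩, [.node 0 66 5, .leaf 0 [0]]),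
  ([(0, false), (1, false), (2, true), (3, false), (4, false), (5, true)], ⟨000000, 420420, 100100, 2, 012012⟩, [.node 0 71 1, .leaf 0 [0]]),
  ([(0, true), (1, false), (2, true), (3, false), (4, false), (5, false)], ⟨000000, 020442, 010100, 1, 202011⟩, [.node 0 66 1, .leaf 0 [0]]),
  ([(0, true), (1, false), (2, true), (3, false), (4, false), (5, false)], ⟨000000, 020442, 010100, 1, 202011⟩, [.node 0 66 1, .leaf 0 [0]]),
  ([(0, false), (1, false), (2, true), (3, false), (4, true), (5, false)], ⟨000000, 420204, 000101, 1, 112020⟩, [.node 0 66 5, .leaf 0 [0]]),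
  ([(0, false), (1, false), (2, true), (3, false), (4, false), (5, true)], ⟨000000, 420420, 100100, 2, 012012⟩, [.node 0 71 1, .leaf 0 [0]]),
  ([(0, false), (1, false), (2, true), (3, false), (4, false), (5, true)], ⟨000000, 420420, 100100, 2, 012012⟩, [.node 0 71 1, .leaf 0 [0]]),
  ([(0, false), (1, false), (2, true), (3, false), (4, false), (5, false)], ⟨000000, 420444, 000100, 1, 112011⟩, [.node 0 46 1, .leaf 0 [0]]),
  ([(0, true), (1, false), (2, true), (3, false), (4, false), (5, false)], ⟨000000, 020442, 010100, 1, 202011⟩, [.node 0 66 1, .leaf 0 [0]]),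
  ([(0, false), (1, false), (2, true), (3, false), (4, false), (5, false)], ⟨000000, 420444, 000100, 1, 112011⟩, [.node 0 46 1, .leaf 0 [0]]),
  ([(0, false), (1, false), (2, true), (3, false), (4, false), (5, false)], ⟨000000, 420444, 000100, 1, 112011⟩, [.node 0 46 1, .leaf 0 [0]]),
  ([(0, false), (1, false), (2, true), (3, false), (4, true), (5, false)], ⟨000000, 420204, 000101, 1, 112020⟩, [.node 0 66 5, .leaf 0 [0]]),
  ([(0, false), (1, false), (2, true), (3, false), (4, false), (5, true)], ⟨000000, 420420, 100100, 2, 012012⟩, [.node 0 71 1, .leaf 0 [0]]),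
  ([(0, true), (1, false), (2, true), (3, false), (4, false), (5, false)], ⟨000000, 020442, 010100, 1, 202011⟩, [.node 0 66 1, .leaf 0 [0]]),
  ([(0, true), (1, false), (2, true), (3, false), (4, false), (5, false)], ⟨000000, 020442, 010100, 1, 202011⟩, [.node 0 66 1, .leaf 0 [0]]),
  ([(0, false), (1, false), (2, true), (3, false), (4, true), (5, false)], ⟨000000, 420204, 000101, 1, 112020⟩, [.node 0 66 5, .leaf 0 [0]]),
  ([(0, false), (1, false), (2, true), (3, false), (4, false), (5, true)], ⟨000000, 420420, 100100, 2, 012012⟩, [.node 0 71 1, .leaf 0 [0]]),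
  ([(0, false), (1, false), (2, true), (3, false), (4, false), (5, true)], ⟨000000, 420420, 100100, 2, 012012⟩, [.node 0 71 1, .leaf 0 [0]]),
  ([(0, false), (1, false), (2, true), (3, false), (4, true), (5, false)], ⟨000000, 420204, 000101, 1, 112020⟩, [.node 0 66 5, .leaf 0 [0]]),
  ([(0, false), (1, false), (2, true), (3, false), (4, true), (5, false)], ⟨000000, 420204, 000101, 1, 112020⟩, [.node 0 66 5, .leaf 0 [0]]),
  ([(0, false), (1, false), (2, true), (3, false), (4, true), (5, false)], ⟨000000, 420204, 000101, 1, 112020⟩, [.node 0 66 5, .leaf 0 [0]]),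
  ([(0, false), (1, false), (2, true), (3, false), (4, true), (5, false)], ⟨000000, 420204, 000101, 1, 112020⟩, [.node 0 66 5, .leaf 0 [0]]),
  ([(0, false), (1, false), (2, true), (3, false), (4, true), (5, false)], ⟨000000, 420204, 000101, 1, 112020⟩, [.node 0 66 5, .leaf 0 [0]]),
  ([(0, false), (1, false), (2, true), (3, false), (4, true), (5, false)], ⟨000000, 420204, 000101, 1, 112020⟩, [.node 0 66 5, .leaf 0 [0]]),
  ([(0, false), (1, false), (2, true), (3, false), (4, false), (5, true)], ⟨000000, 420420, 100100, 2, 012012⟩, [.node 0 71 1, .leaf 0 [0]]),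
  ([(0, false), (1, false), (2, true), (3, false), (4, false), (5, true)], ⟨000000, 420420, 100100, 2, 012012⟩, [.node 0 71 1, .leaf 0 [0]]),
  ([(0, false), (1, false), (2, true), (3, false), (4, false), (5, true)], ⟨000000, 420420, 100100, 2, 012012⟩, [.node 0 71 1, .leaf 0 [0]]),
  ([(0, false), (1, false), (2, true), (3, false), (4, false), (5, true)], ⟨000000, 420420, 100100, 2, 012012⟩, [.node 0 71 1, .leaf 0 [0]]),
  ([(0, false), (1, false), (2, true), (3, false), (4, false), (5, true)], ⟨000000, 420420, 100100, 2, 012012⟩, [.node 0 71 1, .leaf 0 [0]]),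
  ([(0, false), (1, false), (2, true), (3, false), (4, false), (5, true)], ⟨000000, 420420, 100100, 2, 012012⟩, [.node 0 71 1, .leaf 0 [0]]),
  ([(0, false), (1, false), (2, true), (3, false), (4, false), (5, true)], ⟨000000, 420420, 100100, 2, 012012⟩, [.node 0 71 1, .leaf 0 [0]]),
  ([(0, false), (1, false), (2, true), (3, false), (4, false), (5, true)], ⟨000000, 420420, 100100, 2, 012012⟩, [.node 0 71 1, .leaf 0 [0]]),
  ([(0, false), (1, false), (2, true), (3, false), (4, false), (5, true)], ⟨000000, 420420, 100100, 2, 012012⟩, [.node 0 71 1, .leaf 0 [0]]),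
  ([(0, false), (1, false), (2, true), (3, false), (4, false), (5, false)], ⟨000000, 420404, 000101, 1, 112020⟩, [.node 0 62 5, .leaf 0 [0]]),
  ([(0, false), (1, false), (2, true), (3, false), (4, false), (5, false)], ⟨000000, 420404, 000101, 1, 112020⟩, [.node 0 62 5, .leaf 0 [0]]),
  ([(0, false), (1, false), (2, true), (3, false), (4, false), (5, false)], ⟨000000, 420404, 000101, 1, 112020⟩, [.node 0 62 5, .leaf 0 [0]]),
  ([(0, true), (1, false), (2, true), (3, false), (4, false), (5, false)], ⟨000000, 020442, 010100, 1, 202011⟩, [.node 0 66 1, .leaf 0 [0]]),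
  ([(0, false), (1, false), (2, true), (3, false), (4, false), (5, false)], ⟨000000, 420440, 100100, 2, 012012⟩, [.node 0 69 4, .leaf 0 [0]]),
  ([(0, false), (1, false), (2, true), (3, false), (4, false), (5, false)], ⟨000000, 420440, 100100, 2, 012012⟩, [.node 0 69 4, .leaf 0 [0]]),
  ([(0, false), (1, false), (2, true), (3, false), (4, false), (5, false)], ⟨000000, 420440, 100100, 2, 012012⟩, [.node 0 69 4, .leaf 0 [0]]),
  ([(0, false), (1, false), (2, true), (3, false), (4, false), (5, false)], ⟨000000, 020444, 010100, 1, 202011⟩, [.node 0 64 1, .leaf 0 [0]]),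
  ([(0, false), (1, false), (2, true), (3, false), (4, false), (5, false)], ⟨000000, 020444, 010100, 1, 202011⟩, [.node 0 64 1, .leaf 0 [0]]),
  ([(0, false), (1, true), (2, false), (3, true), (4, false), (5, false)], ⟨000000, 202044, 001010, 0, 120201⟩, [.node 0 66 0, .leaf 0 [0]]),
  ([(0, false), (1, true), (2, false), (3, true), (4, false), (5, false)], ⟨000000, 202044, 001010, 0, 120201⟩, [.node 0 66 0, .leaf 0 [0]]),
  ([(0, false), (1, true), (2, false), (3, true), (4, false), (5, false)], ⟨000000, 202044, 001010, 0, 120201⟩, [.node 0 66 0, .leaf 0 [0]]),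
  ([(0, false), (1, true), (2, false), (3, true), (4, false), (5, false)], ⟨000000, 202044, 001010, 0, 120201⟩, [.node 0 66 0, .leaf 0 [0]]),
  ([(0, false), (1, true), (2, false), (3, false), (4, false), (5, false)], ⟨000000, 204044, 001010, 0, 120201⟩, [.node 0 62 0, .leaf 0 [0]]),
  ([(0, false), (1, true), (2, false), (3, false), (4, false), (5, false)], ⟨000000, 204044, 001010, 0, 120201⟩, [.node 0 62 0, .leaf 0 [0]])]

/-- The sources of the entries with the corner `(1, 1)` (corner set without the node `0`). -/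
def srcsZ : List (Fc × Alt × List Ins) := [
  ([(0, false), (1, false), (2, true), (3, false), (4, true), (5, false)], ⟨000000, 410204, 000101, 1, 112020⟩, [.node 0 67 5, .leaf 0 [0]]),
  ([(0, false), (1, false), (2, true), (3, false), (4, true), (5, false)], ⟨000000, 410204, 000101, 1, 112020⟩, [.node 0 67 5, .leaf 0 [0]]),
  ([(0, false), (1, false), (2, true), (3, false), (4, true), (5, false)], ⟨000000, 410204, 000101, 1, 112020⟩, [.node 0 67 5, .leaf 0 [0]]),
  ([(0, false), (1, false), (2, true), (3, false), (4, true), (5, false)], ⟨000000, 410204, 000101, 1, 112020⟩, [.node 0 67 5, .leaf 0 [0]]),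
  ([(0, false), (1, false), (2, true), (3, false), (4, true), (5, false)], ⟨000000, 410204, 000101, 1, 112020⟩, [.node 0 67 5, .leaf 0 [0]]),
  ([(0, false), (1, false), (2, true), (3, false), (4, true), (5, false)], ⟨000000, 410204, 000101, 1, 112020⟩, [.node 0 67 5, .leaf 0 [0]]),
  ([(0, false), (1, false), (2, true), (3, false), (4, true), (5, false)], ⟨000000, 410204, 000101, 1, 112020⟩, [.node 0 67 5, .leaf 0 [0]]),
  ([(0, false), (1, false), (2, true), (3, false), (4, true), (5, false)], ⟨000000, 410204, 000101, 1, 112020⟩, [.node 0 67 5, .leaf 0 [0]]),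
  ([(0, false), (1, false), (2, true), (3, false), (4, false), (5, false)], ⟨000000, 410404, 000101, 1, 112020⟩, [.node 0 63 5, .leaf 0 [0]])]

-- comments: row Γ number of (t, rho)
-- T1 {}: 1
-- T1 {0}: 1
-- T1 {2}: 1
-- T1 {3}: 12
-- T1 {4}: 1
-- T1 {5}: 1
-- T1 {02}: 1
-- T1 {03}: 12
-- T1 {24}: 1
-- T1 {25}: 1
-- T1 {35}: 12
-- T3 {}: 1
-- T3 {0}: 1
-- T3 {2}: 1
-- T3 {3}: 12
-- T3 {4}: 1
-- T3 {5}: 1
-- T3 {02}: 1
-- T3 {03}: 12
-- T3 {24}: 1
-- T3 {25}: 1
-- T3 {35}: 12
-- T2 {}: 1
-- T2 {2}: 1
-- T2 {4}: 1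
-- T2 {5}: 12
-- T2 {24}: 1
-- T2 {25}: 12
-- T5 {}: 1
-- T5 {0}: 12
-- T5 {2}: 1
-- T5 {3}: 12
-- T5 {5}: 1
-- T5 {02}: 12
-- T5 {03}: 192
-- T5 {25}: 1
-- T5 {35}: 12
-- T4 {}: 1
-- T4 {4}: 6
-- T4 {5}: 12
-- T4 {04}: 12
-- T7 {}: 1
-- T7 {0}: 12
-- T7 {5}: 6
-- T8 {}: 1
-- T8 {0}: 6
-- c1 {}: 1
-- c1 {1}: 1
-- c1 {5}: 12
-- c1 {15}: 12
-- c2 {}: 1
-- c2 {5}: 12

theorem srcs_ok : factsB tbl srcs = true := by decide +kernel

theorem srcsZ_ok : factsB tbl srcsZ = true := by decide +kernel

theorem src_fact : ∀ p ∈ factsL srcs, Fact tbl p.1 p.2 := facts_of srcs_ok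

theorem srcZ_fact : ∀ p ∈ factsL srcsZ, Fact tbl p.1 p.2 := facts_of srcsZ_ok

end GT33.Chk
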