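import Pool.Agent.GT33.PartM
import Pool.Agent.GT33.ExactO

/-!
# GT33 module EXFO: exactness of the folded map

`Gen.exF`: the ring of the folded map is exact if all sites are quads and the realised state does not have one unit
at the corners.
-/

open Classical

namespace GT33

namespace DMap

variable {D : Type} {M : DMap D} {A : D → Prop} {δ : ZMod 6 → D} {F : D → Prop}

/-- exactness of a patch of quads -/
theorem Patch.exactQ [Fintype D] (hP : M.Patch A δ) (hq : ∀ d, A d → M.deg d = 4)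
    {β : (ZMod 6 → D) → Rel} {F : Flags} {s : PState 6} {μ : D → D} {ω : D → ℕ}
    (h : M.RealL (M.OL δ β F) A δ s μ ω) {r : ZMod 6 → ℕ} (hr : ∀ i, s.u i + r (i + 1) = r i + 1)
    (hr1 : ∀ i, r i ≤ 1) (hz : ∃ i, s.u i = 0)
    (hc : ∀ i, M.nx (δ i) = δ (i + 1) → s.u i ≠ 1 ∧ M.nx (δ (i + 1)) ≠ δ (i + 1 + 1))
    (hne : ¬ ∃ r, ∀ e, A e ↔ M.SameSite r e) :
    (∀ i, M.nx (δ i) = δ (i + 1) → ω (δ i) + r (i + 1) = r i + 1) ∧
      (∀ i e, M.SameNode (δ i) e → A e → e ≠ δ i → e ≠ M.nx.symm (δ (i + 1)) → ω e = 0) ∧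
      ∀ i, M.nx (δ i) ≠ δ (i + 1) → ω (δ i) = r i ∧ ω (M.nx.symm (δ (i + 1))) + r (i + 1) = 1 := by
  obtain ⟨r', -, -, h3, h4, h5⟩ := hP.ring_exactN windows_EN (localEN (fun γ G t hγ h0 _ => by
    have h1 := hq _ h0
    have h2 := hγ.deg 0
    omega) hP.bd.site h) h.bdry hr hr1 (fun i hi => Or.inr (hc i hi)) hne
  rw [h3 hz] at h5
  refine ⟨fun i hi => ?_, h4, h5⟩
  rw [← hP.cor_usum hi ω, h.bdry]
  exact hr i

namespace Gen

variable [Fintype D] (hG : M.Gen A δ) (hF : Pre M A δ F) {o : D → Bool}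
  (ho : ∀ d, o (M.nx d) = !o d) (ho' : ∀ d, o (M.al d) = !o d)

/-- **the ring of the folded map is exact** -/
theorem exF (hq : ∀ x : {d // ¬ FR M F d}, A x.1 → (mapF hF ho ho' hG).deg x = 4)
    {β : (ZMod 6 → {d // ¬ FR M F d}) → Rel} {Fl : Flags} {s : PState 6}
    {μ' : {d // ¬ FR M F d} → {d // ¬ FR M F d}} {ω' : {d // ¬ FR M F d} → ℕ}
    (h : (mapF hF ho ho' hG).RealL ((mapF hF ho ho' hG).OL (hdrF hF ho ho' hG) β Fl)
      (fun x => A x.1) (hdrF hF ho ho' hG) s μ' ω')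
    {r' : ZMod 6 → ℕ} (hr : ∀ i, s.u i + r' (i + 1) = r' i + 1) (hr1 : ∀ i, r' i ≤ 1)
    (hz : ∃ i, s.u i = 0)
    (hc : ∀ i, (mapF hF ho ho' hG).nx (hdrF hF ho ho' hG i) = hdrF hF ho ho' hG (i + 1) →
      s.u i ≠ 1 ∧ (mapF hF ho ho' hG).nx (hdrF hF ho ho' hG (i + 1)) ≠
        hdrF hF ho ho' hG (i + 1 + 1))
    (hne : ¬ ∃ r, ∀ e, A (Subtype.val e) ↔ (mapF hF ho ho' hG).SameSite r e) :
    ExF hG hF ho ho' ω' r' := by
  obtain ⟨h1, h2, h3⟩ := (hG.mapF_patch hF ho ho').exactQ hq h hr hr1 hz hc hne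
  exact ⟨hr1, h1, fun k hk => (h3 k hk).1, fun k hk => (h3 k hk).2, h2⟩

end Gen

end DMap

end GT33
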