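import Pool.Agent.GT33.DFold
import Pool.Agent.GT33.Exact

/-!
# GT33 module RULES: one-quad rules

`MinC M A δ`: a minimal counterexample (a smallest patch which does not realise all states of `EE`, not the
two-quad patch, at least twenty darts).  `MinC.coll_legal`: every quad of a minimal counterexample can be
contracted along both diagonals.  `MinC.ring_hex`: all sites at the ring of a minimal counterexample are
hexagons.
-/

open Classical

namespace GT33

namespace DMap

variable {D : Type} {M : DMap D}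

/-! ### cuts -/

/-- the colour of the sectors of a node is constant -/
theorem col_fs {o : D → Bool} (ho : ∀ d, o (M.nx d) = !o d) (ho' : ∀ d, o (M.al d) = !o d) (d : D) :
    o (M.fs d) = o d := by
  have h1 := ho (M.fs d)
  rw [nx_fs, ho'] at h1
  cases h2 : o (M.fs d) <;> cases h3 : o d <;> rw [h2, h3] at h1 <;> first | rfl | exact absurd h1 (by decide)

theorem col_node {o : D → Bool} (ho : ∀ d, o (M.nx d) = !o d) (ho' : ∀ d, o (M.al d) = !o d) {d e : D}
    (h : M.SameNode d e) : o e = o d := by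
  obtain ⟨k, rfl⟩ := h
  induction k with
  | zero => rfl
  | succ k ih =>
    rw [add_comm, zpow_one_add, Equiv.Perm.mul_apply, col_fs ho ho', ih]
  | pred k ih =>
    rw [← ih, ← col_fs ho ho' ((M.fs ^ (-(k : ℤ) - 1)) d), ← Equiv.Perm.mul_apply, ← zpow_one_add,
      add_sub_cancel]

/-- there are no cuts with five darts -/
theorem Legal.cut_ne_five [Fintype D] (h : M.Legal) {B : D → Prop} (hB : M.Sites B)
    (h1 : ∃ d, B d) (h2 : ∃ d, ¬ B d) : M.cut B ≠ 5 := by
  intro h5
  have h6 := h.exists_bd hB h1 h2 (by omega)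
  rw [h5] at h6
  obtain ⟨η, hη⟩ := h6
  obtain ⟨o, ho, ho'⟩ := h.exists_col
  have key : ∀ i : ZMod 5, o (η (i + 1)) = !o (η i) := by
    intro i
    have h3 : M.SameNode (η i) (M.al (η (i + 1))) := sameNode_iff.2 (hη.step i)
    have h4 := col_node ho ho' h3
    rw [ho'] at h4
    rw [← h4, Bool.not_not]
  have k0 := key 0
  have k1 := key 1
  have k2 := key 2
  have k3 := key 3
  have k4 := key 4
  have e1 : (0 : ZMod 5) + 1 = 1 := rfl
  have e2 : (1 : ZMod 5) + 1 = 2 := rfl
  have e3 : (2 : ZMod 5) + 1 = 3 := rfl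
  have e4 : (3 : ZMod 5) + 1 = 4 := rfl
  have e5 : (4 : ZMod 5) + 1 = 0 := rfl
  rw [e1] at k0
  rw [e2, k0] at k1
  rw [e3, k1] at k2
  rw [e4, k2] at k3
  rw [e5, k3] at k4
  cases h6 : o (η 0) <;> rw [h6] at k4 <;> exact absurd k4 (by decide)

/-- removing a quad from a set of sites -/
theorem cut_erase_q' [Fintype D] {q : ZMod 4 → D} (hq : M.SiteNum 4 q)
    (hnl : ∀ i, ¬ QR q (M.al (q i))) {B C : D → Prop} (hC : ∀ i, C (q i))
    (hB : ∀ d, B d ↔ C d ∧ ¬ QR q d) :
    M.cut B + 2 * ((if C (M.al (q 0)) then 0 else 1) +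
      (if C (M.al (q 1)) then 0 else 1) + (if C (M.al (q 2)) then 0 else 1) +
      (if C (M.al (q 3)) then 0 else 1)) = M.cut C + 4 := by
  have hQ : ∀ i, QR q (q i) := qr_q
  rw [cut_eq_sum, cut_eq_sum, sum_q hq, sum_al_q hq hnl, sum_q hq (fun d =>
    if C d ∧ ¬ C (M.al d) then 1 else 0), sum_al_q hq hnl (fun d : {d // ¬ QR q d} =>
    if C d.1 ∧ ¬ C (M.al d.1) then 1 else 0)]
  have h1 : ∑ d ∈ (Finset.univ.image fun i : ZMod 4 =>
        (⟨M.al (q i), hnl i⟩ : {d // ¬ QR q d}))ᶜ,
        (if B d.1 ∧ ¬ B (M.al d.1) then 1 else 0) =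
      ∑ d ∈ (Finset.univ.image fun i : ZMod 4 =>
        (⟨M.al (q i), hnl i⟩ : {d // ¬ QR q d}))ᶜ,
        (if C d.1 ∧ ¬ C (M.al d.1) then 1 else 0) := by
    refine Finset.sum_congr rfl fun d hd => ?_
    have h2 : ¬ QR q (M.al d.1) := by
      rintro ⟨i, hi⟩
      rw [Finset.mem_compl] at hd
      apply hd
      refine Finset.mem_image.2 ⟨i, Finset.mem_univ _, Subtype.ext ?_⟩
      show M.al (q i) = d.1
      rw [hi, M.inv]
    have h3 : B d.1 ↔ C d.1 := by rw [hB]; exact and_iff_left d.2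
    have h4 : B (M.al d.1) ↔ C (M.al d.1) := by rw [hB]; exact and_iff_left h2
    simp only [h3, h4]
  rw [h1]
  have h5 : ∀ i, ¬ B (q i) := fun i h => ((hB _).1 h).2 (hQ i)
  have h6 : ∀ i, B (M.al (q i)) ↔ C (M.al (q i)) := fun i => by
    rw [hB]; exact and_iff_left (hnl i)
  simp only [M.inv, hC, h5, h6, not_true_eq_false, and_false, not_false_eq_true, and_true,
    true_and, false_and, if_false]
  by_cases x0 : C (M.al (q 0)) <;> by_cases x1 : C (M.al (q 1)) <;>
    by_cases x2 : C (M.al (q 2)) <;> by_cases x3 : C (M.al (q 3)) <;>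
    simp [x0, x1, x2, x3]

theorem cut_erase_q [Fintype D] {q : ZMod 4 → D} (hq : M.SiteNum 4 q)
    (hnl : ∀ i, ¬ QR q (M.al (q i))) {C : D → Prop} (hC : ∀ i, C (q i)) :
    M.cut (fun d => C d ∧ ¬ QR q d) + 2 * ((if C (M.al (q 0)) then 0 else 1) +
      (if C (M.al (q 1)) then 0 else 1) + (if C (M.al (q 2)) then 0 else 1) +
      (if C (M.al (q 3)) then 0 else 1)) = M.cut C + 4 :=
  cut_erase_q' hq hnl hC fun _ => Iff.rfl

theorem cut_le_card [Finite D] (B : D → Prop) : M.cut B ≤ Nat.card {d // B d} := by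
  unfold cut
  refine Nat.card_le_card_of_injective (fun d => (⟨d.1, d.2.1⟩ : {d // B d})) ?_
  intro d e hde
  have h1 := congrArg Subtype.val hde
  exact Subtype.ext h1

theorem card_q [Fintype D] {q : ZMod 4 → D} (hq : M.SiteNum 4 q) : Nat.card {d // QR q d} = 4 := by
  have e : ZMod 4 ≃ {d // QR q d} := Equiv.ofBijective (fun i => ⟨q i, qr_q i⟩)
    ⟨fun i j hij => hq.inj (congrArg Subtype.val hij), fun ⟨d, i, hi⟩ => ⟨i, Subtype.ext hi⟩⟩
  rw [← Nat.card_congr e]
  simp

theorem card_site' [Finite D] (d : D) : Nat.card {e // M.SameSite d e} = M.deg d := by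
  have : Fintype D := Fintype.ofFinite D
  rw [← card_site d (Finset.univ.filter fun e => M.SameSite d e) (fun e => by simp),
    Nat.card_eq_fintype_card, Fintype.card_subtype]

/-- a site with four darts has a numbering -/
theorem exists_siteNum4 [Finite D] {d : D} (h : M.deg d = 4) :
    ∃ q : ZMod 4 → D, M.SiteNum 4 q ∧ q 0 = d := by
  have hp : M.nx^[4] d = d := by
    have := Function.isPeriodicPt_minimalPeriod M.nx d
    rw [← h]
    exact this
  have hinj : ∀ k : ℕ, k < 4 → ∀ l : ℕ, l < 4 → M.nx^[k] d = M.nx^[l] d → k = l := by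
    intro k hk l hl hkl
    have h1 : M.deg d = 4 := h
    unfold DMap.deg at h1
    exact (Function.iterate_eq_iterate_iff_of_lt_minimalPeriod (by rw [h1]; exact hk)
      (by rw [h1]; exact hl)).1 hkl
  refine ⟨fun i => M.nx^[i.val] d, ⟨fun i j hij => ?_, fun i => ?_⟩, rfl⟩
  · exact ZMod.val_injective 4 (hinj _ (ZMod.val_lt i) _ (ZMod.val_lt j) hij)
  · show M.nx (M.nx^[i.val] d) = M.nx^[(i + 1).val] d
    rw [← Function.iterate_succ_apply' M.nx]
    rcases z4 i with rfl | rfl | rfl | rfl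
    · rfl
    · rfl
    · rfl
    · exact hp

/-! ### contracted patches -/

/-- the contracted patch -/
theorem Patch.coll [Fintype D] {q : ZMod 4 → D} {o : D → Bool} (hq : M.SiteNum 4 q)
    (ho : ∀ d, o (M.nx d) = !o d) (ho' : ∀ d, o (M.al d) = !o d) {A : D → Prop} {δ : ZMod 6 → D}
    (hP : M.Patch A δ) (hAq : A (q 0)) (hL : (DMap.coll hq ho ho').Legal) :
    ∃ δ' : ZMod 6 → {d // ¬ QR q d}, (∀ i, ((DMap.coll hq ho ho').al (δ' i)).1 = M.al (δ i)) ∧
      (∀ i, A (δ' i).1) ∧ (DMap.coll hq ho ho').Patch (fun d => A d.1) δ' := by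
  have hsA := hP.sites
  have hqA : ∀ i, A (q i) := fun i => (hsA.same (hq.same (by decide) 0 i)).1 hAq
  have hr : ∀ i, ¬ QR q (M.al (δ i)) := by
    rintro i ⟨j, hj⟩
    exact hP.notA i (by rw [← hj]; exact hqA j)
  let r : ZMod 6 → {d // ¬ QR q d} := fun i => ⟨M.al (δ i), hr i⟩
  have hr1 : ∀ i, (DMap.coll hq ho ho').nx (r (i + 1)) = r i := by
    intro i
    rw [coll_nx]
    exact Subtype.ext (hP.root_nx i)
  have hrinj : Function.Injective r := fun i j hij => by
    have h1 := M.al_inj (congrArg Subtype.val hij)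
    exact hP.bd.inj h1
  have hA' : ∀ e : {d // ¬ QR q d}, ¬ A e.1 ↔ (DMap.coll hq ho ho').SameSite (r 0) e := by
    intro e
    rw [coll_sameSite]
    obtain ⟨x, hx⟩ := hP.root
    have h2 : M.SameSite x (M.al (δ 0)) := (hx _).1 (hP.notA 0)
    rw [hx]
    exact ⟨fun h3 => h2.symm.trans h3, fun h3 => h2.trans h3⟩
  refine ⟨fun i => (DMap.coll hq ho ho').al (r i), fun i => ?_, fun i => ?_,
    hL.patch hr1 hrinj hA'⟩
  · rw [(DMap.coll hq ho ho').inv]
  · by_contra h1
    rw [hA'] at h1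
    have h2 := hA' (r i)
    have h3 : (DMap.coll hq ho ho').SameSite (r 0) (r i) := h2.1 (hP.notA i)
    exact hL.noloop (r i) (h3.symm.trans h1)

theorem card_coll [Fintype D] {q : ZMod 4 → D} (hq : M.SiteNum 4 q) :
    Nat.card {d // ¬ QR q d} + 4 = Nat.card D := by
  rw [card_add' (QR q), card_q hq, add_comm]

/-! ### minimal counterexamples -/

/-- a minimal counterexample with at least twenty darts -/
structure MinC [Fintype D] (M : DMap D) (A : D → Prop) (δ : ZMod 6 → D) : Prop where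
  patch : M.Patch A δ
  notFull : ¬ M.Full EE A δ
  card : 20 ≤ Nat.card D
  IH : ∀ (D' : Type) [Fintype D'] (M' : DMap D') (A' : D' → Prop) (δ' : ZMod 6 → D'),
    M'.Patch A' δ' → Nat.card D' ≠ 14 → Nat.card D' < Nat.card D → M'.Full EE A' δ'

namespace MinC

variable [Fintype D] {A : D → Prop} {δ : ZMod 6 → D}

/-- there are at least fourteen darts inside the patch -/
theorem cardA (h : M.MinC A δ) : 14 ≤ Nat.card {d // A d} := by
  have h1 := card_add' A
  have h2 := h.patch.card_root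
  have h3 := h.card
  omega

/-- small cuts -/
theorem small (h : M.MinC A δ) {C : D → Prop} (hC : M.Sites C) (h0 : ∀ d, C d → A d)
    (h1 : ∃ d, A d ∧ ¬ C d) (hc : M.cut C = 6) :
    (∃ r, ∀ e, C e ↔ M.SameSite r e) ∨ Nat.card {d // C d} = 8 := by
  by_contra hno
  push Not at hno
  exact h.notFull (h.patch.split h.IH hC h0 h1 hc (fun ⟨r, hr⟩ => by
    obtain ⟨e, he⟩ := hno.1 r
    rcases he with he | he
    · exact he.2 ((hr e).1 he.1)
    · exact he.1 ((hr e).2 he.2)) hno.2)

theorem small_card (h : M.MinC A δ) {C : D → Prop} (hC : M.Sites C) (h0 : ∀ d, C d → A d)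
    (h1 : ∃ d, A d ∧ ¬ C d) (hc : M.cut C = 6) : Nat.card {d // C d} ≤ 8 := by
  rcases h.small hC h0 h1 hc with ⟨r, hr⟩ | h2
  · have h3 : Nat.card {d // C d} = M.deg r := by
      rw [← card_site']
      exact Nat.card_congr (Equiv.subtypeEquivRight hr)
    rcases h.patch.legal.deg r with h4 | h4 <;> omega
  · omega

/-- A quad inside a minimal counterexample has at most one ring edge. -/
theorem quad_ring (h : M.MinC A δ) {q : ZMod 4 → D} (hq : M.SiteNum 4 q) (hA : A (q 0))
    {i j : ZMod 4} (hij : i ≠ j) (hi : ¬ A (M.al (q i))) : A (M.al (q j)) := by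
  by_contra hj
  have hnl := q_nl hq h.patch.legal
  have hqA : ∀ i, A (q i) := fun i =>
    (Sites.same (M := M) h.patch.sites (hq.same (by decide) 0 i)).1 hA
  have h1 := cut_erase_q hq hnl hqA
  rw [h.patch.cut] at h1
  have hs : M.Sites fun d => A d ∧ ¬ QR q d :=
    Sites.and (M := M) h.patch.sites (q_sites hq).not
  have hcard : Nat.card {d // A d} = 4 + Nat.card {d // A d ∧ ¬ QR q d} := by
    rw [card_or (B := QR q) (C := A) (by rintro d ⟨k, rfl⟩; exact hqA k), card_q hq]
  have h14 := h.cardA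
  have hne : ∃ d, A d ∧ ¬ QR q d := by
    by_contra hno
    have : Nat.card {d // A d ∧ ¬ QR q d} = 0 := by
      rw [Nat.card_eq_zero]
      left
      exact ⟨fun x => hno ⟨x.1, x.2⟩⟩
    omega
  obtain ⟨r, hr⟩ := h.patch.exists_root
  have h4 := h.patch.legal.cut4 _ hs hne ⟨r, fun h2 => hr h2.1⟩
  -- at least two of the four terms are one
  have h2 : 2 ≤ ((if A (M.al (q 0)) then 0 else 1) + (if A (M.al (q 1)) then 0 else 1) +
      (if A (M.al (q 2)) then 0 else 1) + (if A (M.al (q 3)) then 0 else 1)) := by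
    rcases z4 i with rfl | rfl | rfl | rfl <;> rcases z4 j with rfl | rfl | rfl | rfl <;>
      first | exact absurd rfl hij | (simp only [hi, hj, if_false]; omega)
  have h6 : M.cut (fun d => A d ∧ ¬ QR q d) = 6 ∨ M.cut (fun d => A d ∧ ¬ QR q d) = 4 := by
    omega
  rcases h6 with h6 | h6
  · have := h.small_card hs (fun d hd => hd.1) ⟨q 0, hA, fun h7 => h7.2 (qr_q 0)⟩ h6
    omega
  · rcases h.patch.legal.quad _ hs h6 with ⟨d, hd⟩ | ⟨d, hd⟩
    · have h7 : Nat.card {d // A d ∧ ¬ QR q d} = M.deg d := by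
        rw [← card_site']
        exact Nat.card_congr (Equiv.subtypeEquivRight hd)
      rcases h.patch.legal.deg d with h8 | h8 <;> omega
    · -- the complement contains the quad and the root
      have h7 := (hd r).1 fun h2 => hr h2.1
      have h8 := (hd (q 0)).1 fun h2 => h2.2 (qr_q 0)
      exact hr ((Sites.same (M := M) h.patch.sites (h8.symm.trans h7)).1 hA)

theorem big (h : M.MinC A δ) {q : ZMod 4 → D} (hq : M.SiteNum 4 q) (e f : D) :
    ∃ d, ¬ QR q d ∧ ¬ M.SameSite e d ∧ ¬ M.SameSite f d := by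
  by_contra hno
  push Not at hno
  have h1 : (Finset.univ : Finset D) ⊆ (Finset.univ.filter fun d => QR q d) ∪
      ((Finset.univ.filter fun d => M.SameSite e d) ∪
        (Finset.univ.filter fun d => M.SameSite f d)) := by
    intro d _
    simp only [Finset.mem_union, Finset.mem_filter, Finset.mem_univ, true_and]
    by_cases h2 : QR q d
    · exact Or.inl h2
    · by_cases h3 : M.SameSite e d
      · exact Or.inr (Or.inl h3)
      · exact Or.inr (Or.inr (hno d h2 h3))
  have h2 := Finset.card_le_card h1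
  have h3 := Finset.card_union_le (Finset.univ.filter fun d => QR q d)
      ((Finset.univ.filter fun d => M.SameSite e d) ∪
        (Finset.univ.filter fun d => M.SameSite f d))
  have h4 := Finset.card_union_le (Finset.univ.filter fun d => M.SameSite e d)
        (Finset.univ.filter fun d => M.SameSite f d)
  have h5 := card_site (M := M) e (Finset.univ.filter fun d => M.SameSite e d) (by simp)
  have h6 := card_site (M := M) f (Finset.univ.filter fun d => M.SameSite f d) (by simp)
  have h7 : (Finset.univ.filter fun d => QR q d).card = 4 := by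
    rw [← card_q hq, Nat.card_eq_fintype_card, Fintype.card_subtype]
  have h8 := h.card
  rw [Nat.card_eq_fintype_card] at h8
  rw [Finset.card_univ] at h2
  rcases h.patch.legal.deg e with h9 | h9 <;> rcases h.patch.legal.deg f with h10 | h10 <;> omega

/-- **Every quad of a minimal counterexample can be contracted.** -/
theorem coll_legal (h : M.MinC A δ) {q : ZMod 4 → D} (hq : M.SiteNum 4 q) (hA : A (q 0))
    {o : D → Bool} (ho : ∀ d, o (M.nx d) = !o d) (ho' : ∀ d, o (M.al d) = !o d) :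
    (coll hq ho ho').Legal := by
  have hL := h.patch.legal
  have hnl := q_nl hq hL
  have hqA : ∀ i, A (q i) := fun i =>
    (Sites.same (M := M) h.patch.sites (hq.same (by decide) 0 i)).1 hA
  obtain ⟨r, hr⟩ := h.patch.root
  have hrr : ¬ A r := (hr r).2 (Equiv.Perm.SameCycle.refl _ _)
  have hdr : M.deg r = 6 := by
    rw [← hL.cut_site, cut_congr fun e => (hr e).symm, cut_not, h.patch.cut]
  -- the general statement: `C` contains the quad, the darts `q a, q b` leave `C`
  have key : ∀ C : D → Prop, M.Sites C → (∀ d, C d → A d) → C (q 0) → ∀ a b : ZMod 4, a ≠ b →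
      ¬ C (M.al (q a)) → ¬ C (M.al (q b)) → (∃ c, C (M.al (q c))) →
      (∀ c, c ≠ a → c ≠ b → C (M.al (q c))) → 6 < M.cut C := by
    intro C hC hCA hC0 a b hab ha hb ⟨c, hc⟩ hcd
    by_contra hle
    have hC4 := hL.cut4 C hC ⟨q 0, hC0⟩ ⟨r, fun h1 => hrr (hCA _ h1)⟩
    have hC5 := hL.cut_ne_five hC ⟨q 0, hC0⟩ ⟨r, fun h1 => hrr (hCA _ h1)⟩
    have hqC : ∀ i, C (q i) := fun i => (hC.same (hq.same (by decide) 0 i)).1 hC0
    have hne4 : M.cut C ≠ 4 := by
      intro h4
      rcases hL.quad C hC h4 with ⟨d, hd⟩ | ⟨d, hd⟩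
      · have h5 := (hd _).1 (hqC c)
        have h6 := (hd _).1 hc
        exact hL.noloop _ (h5.symm.trans h6)
      · have h5 : M.cut C = 6 := by
          rw [← cut_not, cut_congr hd, hL.cut_site]
          have h6 : M.SameSite d r := (hd r).1 fun h7 => hrr (hCA _ h7)
          have h7 := hL.cut_site d
          have h8 := hL.cut_site r
          have h9 : M.cut (M.SameSite d) = M.cut (M.SameSite r) := cut_congr fun e =>
            ⟨fun h => h6.symm.trans h, fun h => h6.trans h⟩
          omega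
        omega
    have h6 : M.cut C = 6 := by omega
    have hA1 : ∃ d, A d ∧ ¬ C d := by
      by_contra hno
      push Not at hno
      have h1 : A (M.al (q b)) := h.quad_ring hq hA hab fun h1 => ha (hno _ h1)
      exact hb (hno _ h1)
    -- the rest
    have hs : M.Sites fun d => C d ∧ ¬ QR q d := hC.and (q_sites hq).not
    have hc1 := cut_erase_q hq hnl hqC
    have hcut : M.cut (fun d => C d ∧ ¬ QR q d) = 6 := by
      have h2 : ((if C (M.al (q 0)) then 0 else 1) + (if C (M.al (q 1)) then 0 else 1) +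
          (if C (M.al (q 2)) then 0 else 1) + (if C (M.al (q 3)) then 0 else 1)) = 2 := by
        rcases z4 a with rfl | rfl | rfl | rfl <;> rcases z4 b with rfl | rfl | rfl | rfl <;>
          first
          | exact absurd rfl hab
          | (have e0 := hcd 0
             have e1 := hcd 1
             have e2 := hcd 2
             have e3 := hcd 3
             simp only [ha, hb, if_false, not_false_eq_true, not_true_eq_false, false_imp_iff,
               imp_false, ne_eq] at e0 e1 e2 e3 ⊢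
             simp (config := { decide := true }) only [true_imp_iff] at e0 e1 e2 e3
             simp only [e0, e1, e2, e3, if_true])
      omega
    have h7 := cut_le_card (M := M) fun d => C d ∧ ¬ QR q d
    have h8 := h.small_card hC hCA hA1 h6
    have h9 : Nat.card {d // C d} = 4 + Nat.card {d // C d ∧ ¬ QR q d} := by
      rw [card_or (B := QR q) (C := C) (by rintro d ⟨k, rfl⟩; exact hqC k), card_q hq]
    omega
  refine hL.coll hq ho ho' ?_ (h.big hq)
  intro B hB h0 h1 h2 h3 h4
  by_cases hBr : B r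
  · -- the complement of `B` is inside the patch
    rw [← cut_not]
    refine key (fun d => ¬ B d) hB.not (fun d hd => ?_) h0 0 1 (by decide) (not_not.2 h1)
      (not_not.2 h2) ⟨2, h3⟩ ?_
    · by_contra h5
      exact hd ((hB.same ((hr d).1 h5)).1 hBr)
    · intro c hc0 hc1
      rcases z4 c with rfl | rfl | rfl | rfl
      · exact absurd rfl hc0
      · exact absurd rfl hc1
      · exact h3
      · exact h4
  · have hBA : ∀ d, B d → A d := by
      intro d hd
      by_contra h5
      exact hBr ((hB.same ((hr d).1 h5)).2 hd)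
    have hBq : ∀ i, ¬ B (q i) := fun i h5 => h0 ((hB.same (hq.same (by decide) i 0)).1 h5)
    have h5 : M.cut B = M.cut fun d => B d ∨ QR q d := by
      have h6 := cut_erase_q' hq hnl (B := B) (C := fun d => B d ∨ QR q d)
        (fun i => Or.inr (qr_q i)) (fun d => by
          constructor
          · intro h7
            exact ⟨Or.inl h7, fun ⟨k, hk⟩ => hBq k (hk ▸ h7)⟩
          · rintro ⟨h7 | h7, h8⟩
            · exact h7
            · exact absurd h7 h8)
      have e0 : (B (M.al (q 0)) ∨ QR q (M.al (q 0))) ↔ True := iff_true_intro (Or.inl h1)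
      have e1 : (B (M.al (q 1)) ∨ QR q (M.al (q 1))) ↔ True := iff_true_intro (Or.inl h2)
      have e2 : (B (M.al (q 2)) ∨ QR q (M.al (q 2))) ↔ False :=
        iff_false_intro fun h7 => h7.elim h3 (hnl 2)
      have e3 : (B (M.al (q 3)) ∨ QR q (M.al (q 3))) ↔ False :=
        iff_false_intro fun h7 => h7.elim h4 (hnl 3)
      simp only [e0, e1, e2, e3, if_true, if_false] at h6
      omega
    rw [h5]
    refine key (fun d => B d ∨ QR q d) (hB.or (q_sites hq)) ?_ (Or.inr (qr_q 0)) 2 3 (by decide)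
      (fun h7 => h7.elim h3 (hnl 2)) (fun h7 => h7.elim h4 (hnl 3)) ⟨0, Or.inl h1⟩ ?_
    · rintro d (hd | ⟨k, rfl⟩)
      · exact hBA d hd
      · exact hqA k
    · intro c hc2 hc3
      rcases z4 c with rfl | rfl | rfl | rfl
      · exact Or.inl h1
      · exact Or.inl h2
      · exact absurd rfl hc2
      · exact absurd rfl hc3

/-- the ring of the contracted patch -/
theorem coll_δ {q : ZMod 4 → D} (hq : M.SiteNum 4 q) (hnl : ∀ i, ¬ QR q (M.al (q i)))
    {o : D → Bool} (ho : ∀ d, o (M.nx d) = !o d) (ho' : ∀ d, o (M.al d) = !o d)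
    {d' : {d // ¬ QR q d}} {d : D} (hd : ((coll hq ho ho').al d').1 = M.al d) :
    (¬ QR q d → d'.1 = d) ∧ ∀ k, q k = d → d'.1 = M.al (q (qs k)) := by
  have h1 : d' = (coll hq ho ho').al ((coll hq ho ho').al d') := ((coll hq ho ho').inv d').symm
  constructor
  · intro h2
    rw [h1, coll_al_of hq ho ho' (by rw [hd, M.inv]; exact h2)]
    show M.al ((coll hq ho ho').al d').1 = d
    rw [hd, M.inv]
  · rintro k rfl
    have h2 : (coll hq ho ho').al d' = ⟨M.al (q k), hnl k⟩ := Subtype.ext hd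
    rw [h1, h2, coll_al_q hq ho ho' hnl]

/-- the contracted patch realises all states -/
theorem coll_full (h : M.MinC A δ) {q : ZMod 4 → D} (hq : M.SiteNum 4 q)
    {o : D → Bool} (ho : ∀ d, o (M.nx d) = !o d) (ho' : ∀ d, o (M.al d) = !o d)
    {δ' : ZMod 6 → {d // ¬ QR q d}} (hP' : (coll hq ho ho').Patch (fun d => A d.1) δ') :
    (coll hq ho ho').Full EE (fun d => A d.1) δ' := by
  have h1 := card_coll hq
  have h2 := h.card
  exact h.IH _ _ _ _ hP' (by omega) (by omega)

theorem coll_not_single (h : M.MinC A δ) {q : ZMod 4 → D} (hq : M.SiteNum 4 q)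
    {o : D → Bool} (ho : ∀ d, o (M.nx d) = !o d) (ho' : ∀ d, o (M.al d) = !o d)
    {δ' : ZMod 6 → {d // ¬ QR q d}} (hP' : (coll hq ho ho').Patch (fun d => A d.1) δ') :
    ¬ ∃ r, ∀ e, (fun d : {d // ¬ QR q d} => A d.1) e ↔ (coll hq ho ho').SameSite r e := by
  rintro ⟨r, hr⟩
  have h1 := card_coll hq
  have h2 := h.card
  have h3 := hP'.card_root
  have h4 := card_add' (D := {d // ¬ QR q d}) fun d => A d.1
  have h5 : Nat.card {d : {d // ¬ QR q d} // A d.1} = (coll hq ho ho').deg r := by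
    rw [← card_site']
    exact Nat.card_congr (Equiv.subtypeEquivRight hr)
  rcases hP'.legal.deg r with h6 | h6 <;> omega

/-- the sites of corners are hexagons -/
theorem cor_deg (h : M.MinC A δ) {i : ZMod 6} (hc : Patch.Cor M δ i) : M.deg (δ i) = 6 := by
  rcases h.patch.legal.deg (δ i) with h4 | h4
  · exfalso
    obtain ⟨q, hq, hq0⟩ := exists_siteNum4 h4
    have h1 : q 1 = δ (i + 1) := by rw [← q_nx0 hq, hq0]; exact hc
    refine h.patch.notA (i + 1) ?_
    rw [← h1]
    refine h.quad_ring hq (by rw [hq0]; exact h.patch.inA i) (i := 0) (by decide) ?_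
    rw [hq0]
    exact h.patch.notA i
  · exact h4

theorem cout_single {q : ZMod 4 → D} {ω' : {d // ¬ QR q d} → ℕ} {d : D} {e₀ : {d // ¬ QR q d}}
    (h0 : M.SameNode d e₀.1) (hA0 : A e₀.1)
    (h : ∀ e : {d // ¬ QR q d}, M.SameNode d e.1 → A e.1 → e ≠ e₀ → ω' e = 0) :
    cout M q A ω' d = ω' e₀ := by
  unfold cout
  rw [Finset.sum_eq_single e₀]
  · rw [if_pos ⟨h0, hA0⟩]
  · intro e _ he
    by_cases h1 : M.SameNode d e.1 ∧ A e.1
    · rw [if_pos h1, h e h1.1 h1.2 he]
    · rw [if_neg h1]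
  · intro h1
    exact absurd (Finset.mem_univ _) h1

theorem le_cout {q : ZMod 4 → D} {ω' : {d // ¬ QR q d} → ℕ} {d : D} {e₀ : {d // ¬ QR q d}}
    (h0 : M.SameNode d e₀.1) (hA0 : A e₀.1) : ω' e₀ ≤ cout M q A ω' d := by
  unfold cout
  have h1 := Finset.single_le_sum (f := fun e : {d // ¬ QR q d} =>
    if M.SameNode d e.1 ∧ A e.1 then ω' e else 0) (fun e _ => Nat.zero_le _) (Finset.mem_univ e₀)
  have h2 : (if M.SameNode d e₀.1 ∧ A e₀.1 then ω' e₀ else 0) = ω' e₀ := if_pos ⟨h0, hA0⟩
  rw [← h2]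
  exact h1

/-! ### quads at ring edges -/

/-- the first diagonal -/
theorem special_zero (h : M.MinC A δ) {i : ZMod 6} {q : ZMod 4 → D} (hq : M.SiteNum 4 q)
    (hq0 : q 0 = δ i) {s : PState 6} (hs : EE 6 s) (hi : ofs s.u i = 0)
    (hF : ¬ (M.nx (M.al (q 1)) = δ (i + 1) ∧ M.deg (δ (i + 1)) = 4 ∧ ofs s.u (i + 1) = 0)) :
    ∃ μ ω, M.Real EE A δ s μ ω := by
  have hP := h.patch
  have hL := hP.legal
  have hnl := q_nl hq hL
  have hA0 : A (q 0) := by rw [hq0]; exact hP.inA i
  have hqA : ∀ i, A (q i) := fun i =>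
    (Sites.same (M := M) hP.sites (hq.same (by decide) 0 i)).1 hA0
  have hal0 : ¬ A (M.al (q 0)) := by rw [hq0]; exact hP.notA i
  have hal : ∀ k, k ≠ 0 → A (M.al (q k)) := fun k hk => h.quad_ring hq hA0 hk.symm hal0
  have hQδ : ∀ j, QR q (δ j) → j = i := by
    rintro j ⟨k, hk⟩
    by_cases hk0 : k = 0
    · subst hk0
      exact hP.bd.inj (hk.symm.trans hq0)
    · exact absurd (hal k hk0) (by rw [hk]; exact hP.notA j)
  obtain ⟨o, ho, ho'⟩ := hL.exists_col
  have hL' := h.coll_legal hq hA0 ho ho'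
  obtain ⟨δ', hδ1, hδA, hP'⟩ := hP.coll hq ho ho' hA0 hL'
  have hδi : (δ' i).1 = M.al (q 1) := (coll_δ hq hnl ho ho' (hδ1 i)).2 0 hq0
  have hδj : ∀ j, j ≠ i → (δ' j).1 = δ j := fun j hj =>
    (coll_δ hq hnl ho ho' (hδ1 j)).1 fun h1 => hj (hQδ j h1)
  have hi1 : i - 1 ≠ i := (by decide : ∀ i : ZMod 6, i - 1 ≠ i) i
  have hi2 : i + 1 ≠ i := (by decide : ∀ i : ZMod 6, i + 1 ≠ i) i
  have hi3 : i + 2 ≠ i := (by decide : ∀ i : ZMod 6, i + 2 ≠ i) i
  -- nodes
  have hne : ∀ a b : ZMod 4, a ≠ b → ¬ M.SameNode (q a) (q b) := fun a b hab h4 =>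
    hab (hq.inj (hL.node_inj (hq.same (by decide) a b) h4))
  have hq3 : M.nx.symm (δ i) = q 3 := by rw [Equiv.symm_apply_eq, q_nx3 hq, hq0]
  have hn3 : M.SameNode (δ (i - 1)) (q 3) := by
    have h1 := hP.prev_node (i - 1)
    rwa [sub_add_cancel, hq3] at h1
  have hfs : M.nx.symm (M.al (q 1)) = M.fs (q 1) := rfl
  have hrfs : ¬ QR q (M.fs (q 1)) := fun h1 => hnl 1 (by rwa [sites_fs (q_sites hq)] at h1)
  obtain ⟨μ', ω', hR⟩ := h.coll_full hq ho ho' hP' s hs
  have hcor : ∀ j, Patch.Cor (coll hq ho ho') δ' j → M.nx (δ' j).1 = (δ' (j + 1)).1 := by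
    intro j hj
    have h1 := congrArg Subtype.val hj
    rwa [coll_nx] at h1
  have hcm : ¬ Patch.Cor (coll hq ho ho') δ' (i - 1) := by
    intro hc
    have h1 := hcor _ hc
    rw [hδj _ hi1, sub_add_cancel, hδi] at h1
    have h2 : δ (i - 1) = M.fs (q 1) := by
      rw [← hfs, ← h1, Equiv.symm_apply_apply]
    refine hne 1 3 (by decide) ?_
    rw [h2] at hn3
    exact (Patch.fs_node _).trans hn3
  have hX := hP'.ring_exact' windows_EE hR.loc hR.bdry (fun j => (ofs_spec hs j).1)
    (fun j => (ofs_spec hs j).2) (EE6_exists_zero hs) (by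
      intro j hj
      rw [coll_deg]
      have h1 := hcor j hj
      by_cases hji : j = i
      · subst hji
        rw [hδi, hδj _ hi2] at h1
        have h2 : M.SameSite (δ' j).1 (δ (j + 1)) := by
          rw [hδi, ← h1]
          exact ⟨1, by rw [zpow_one]⟩
        have h3 : M.deg (δ' j).1 = M.deg (δ (j + 1)) := by
          rw [← hL.cut_site, ← hL.cut_site]
          exact cut_congr fun e => ⟨fun h => h2.symm.trans h, fun h => h2.trans h⟩
        rcases hL.deg (δ (j + 1)) with h4 | h4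
        · right
          have h5 := (ofs_spec hs j).1
          have h6 := (ofs_spec hs (j + 1)).2
          have h7 : ofs s.u (j + 1) ≠ 0 := fun h8 => hF ⟨h1, h4, h8⟩
          refine ⟨by omega, fun h8 => ?_, hcm⟩
          have h9 := hcor _ h8
          have e2 : j + 1 + 1 = j + 2 := by ring
          rw [e2, hδj _ hi2, hδj _ hi3] at h9
          have h10 : M.deg (δ (j + 1)) = 6 := h.cor_deg (i := j + 1) (by
            show M.nx (δ (j + 1)) = δ (j + 1 + 1)
            rw [e2]
            exact h9)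
          omega
        · left
          rw [h3, h4]
      · left
        by_cases hj1 : j + 1 = i
        · have h2 : j = i - 1 := by rw [← hj1]; ring
          exact absurd (h2 ▸ hj) hcm
        · rw [hδj _ hji, hδj _ hj1] at h1
          rw [hδj _ hji]
          exact h.cor_deg h1)
    (h.coll_not_single hq ho ho' hP')
  obtain ⟨X1, X2⟩ := hX
  have hx := X2 (i - 1) hcm
  have e1 : i - 1 + 1 = i := by ring
  rw [e1, hi] at hx
  -- the new edge face
  set x₀ : {d // ¬ QR q d} := ⟨M.fs (q 1), hrfs⟩ with hx₀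
  have hx₀' : (coll hq ho ho').nx.symm (δ' i) = x₀ := by
    rw [Equiv.symm_apply_eq, coll_nx]
    apply Subtype.ext
    show (δ' i).1 = M.nx (M.fs (q 1))
    rw [nx_fs, hδi]
  rw [hx₀'] at hx
  have hx₀A : A x₀.1 := by
    show A (M.fs (q 1))
    rw [sites_fs (M := M) hP.sites]
    exact hal 1 (by decide)
  have hsn := coll_sameNode hq ho ho' hL.plane hL'.plane.conn
  have hc1 : cout M q A ω' (q 1) = 1 := by
    rw [cout_single (e₀ := x₀) (Patch.fs_node _) hx₀A]
    · omega
    · intro e he1 he2 he3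
      refine X1 (i - 1) e ?_ he2 ?_ ?_
      · rw [hsn]
        exact Or.inr (Or.inr ⟨by rw [hδj _ hi1]; exact hn3, he1.symm⟩)
      · rintro rfl
        rw [hδj _ hi1] at he1
        exact hne 1 3 (by decide) (he1.trans hn3)
      · rw [e1, hx₀']
        exact he3
  have hc3 : cout M q A ω' (q 3) = ofs s.u (i - 1) := by
    rw [cout_single (e₀ := δ' (i - 1)) (by rw [hδj _ hi1]; exact hn3.symm) (hδA _)]
    · exact hx.1
    · intro e he1 he2 he3
      refine X1 (i - 1) e ?_ he2 he3 ?_
      · rw [hsn]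
        exact Or.inl (by rw [hδj _ hi1]; exact hn3.trans he1)
      · rw [e1, hx₀']
        rintro rfl
        exact hne 1 3 (by decide) ((Patch.fs_node _).trans he1.symm)
  refine hR.of_coll hq ho ho' hL hL'.plane.conn hA0 hP.bd hδ1 hδA (w := qst 0 1)
    ⟨0, 1, rfl⟩ (by decide) rfl rfl ?_ ?_ ?_ ?_
  · intro _
    rw [hc1]
    rfl
  · intro j hj
    exfalso
    by_cases hji : j = i
    · rw [hji, ← hq0] at hj
      exact hne 1 0 (by decide) hj
    · have h1 : j = i - 1 := by
        refine nodes_inj hP'.bd ?_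
        rw [hsn]
        refine Or.inr (Or.inl ⟨?_, ?_⟩)
        · rw [hδj _ hji]; exact hj.symm
        · rw [hδj _ hi1]; exact hn3
      rw [h1] at hj
      exact hne 1 3 (by decide) (hj.trans hn3)
  · intro hall
    exfalso
    refine hP.notA i (hall _ ?_)
    have h1 : M.SameNode (M.al (δ i)) (M.nx.symm (δ i)) := Patch.nx_symm_node _ |>.symm.symm
    rw [hq3] at h1
    exact h1.symm
  · intro j hj
    have h1 : j = i - 1 := nodes_inj hP.bd (hj.symm.trans hn3.symm)
    rw [h1, hc3]
    have h2 := (ofs_spec hs (i - 1)).1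
    rw [e1, hi] at h2
    show ofs s.u (i - 1) + 1 = s.u (i - 1)
    omega

/-- the second diagonal -/
theorem special_one (h : M.MinC A δ) {i : ZMod 6} {q : ZMod 4 → D} (hq : M.SiteNum 4 q)
    (hq1 : q 1 = δ i) {s : PState 6} (hs : EE 6 s) (hi : ofs s.u i = 1)
    (hF : ¬ (M.nx (δ (i - 1)) = M.al (q 0) ∧ M.deg (δ (i - 1)) = 4 ∧ ofs s.u (i - 1) = 1)) :
    ∃ μ ω, M.Real EE A δ s μ ω := by
  have hP := h.patch
  have hL := hP.legal
  have hnl := q_nl hq hL
  have hA1 : A (q 1) := by rw [hq1]; exact hP.inA i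
  have hqA : ∀ i, A (q i) := fun i =>
    (Sites.same (M := M) hP.sites (hq.same (by decide) 1 i)).1 hA1
  have hA0 := hqA 0
  have hal1 : ¬ A (M.al (q 1)) := by rw [hq1]; exact hP.notA i
  have hal : ∀ k, k ≠ 1 → A (M.al (q k)) := fun k hk => h.quad_ring hq hA0 hk.symm hal1
  have hQδ : ∀ j, QR q (δ j) → j = i := by
    rintro j ⟨k, hk⟩
    by_cases hk0 : k = 1
    · subst hk0
      exact hP.bd.inj (hk.symm.trans hq1)
    · exact absurd (hal k hk0) (by rw [hk]; exact hP.notA j)
  obtain ⟨o, ho, ho'⟩ := hL.exists_col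
  have hL' := h.coll_legal hq hA0 ho ho'
  obtain ⟨δ', hδ1, hδA, hP'⟩ := hP.coll hq ho ho' hA0 hL'
  have hδi : (δ' i).1 = M.al (q 0) := (coll_δ hq hnl ho ho' (hδ1 i)).2 1 hq1
  have hδj : ∀ j, j ≠ i → (δ' j).1 = δ j := fun j hj =>
    (coll_δ hq hnl ho ho' (hδ1 j)).1 fun h1 => hj (hQδ j h1)
  have hi1 : i - 1 ≠ i := (by decide : ∀ i : ZMod 6, i - 1 ≠ i) i
  have hi2 : i + 1 ≠ i := (by decide : ∀ i : ZMod 6, i + 1 ≠ i) i
  have hi3 : i - 2 ≠ i := (by decide : ∀ i : ZMod 6, i - 2 ≠ i) i
  -- nodes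
  have hne : ∀ a b : ZMod 4, a ≠ b → ¬ M.SameNode (q a) (q b) := fun a b hab h4 =>
    hab (hq.inj (hL.node_inj (hq.same (by decide) a b) h4))
  have hn3 : M.SameNode (M.al (q 0)) (q 3) := by
    have h1 := Patch.nx_symm_node (M := M) (q 0)
    have h2 : M.nx.symm (q 0) = q 3 := by rw [Equiv.symm_apply_eq, q_nx3 hq]
    rwa [h2] at h1
  obtain ⟨μ', ω', hR⟩ := h.coll_full hq ho ho' hP' s hs
  have hcor : ∀ j, Patch.Cor (coll hq ho ho') δ' j → M.nx (δ' j).1 = (δ' (j + 1)).1 := by
    intro j hj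
    have h1 := congrArg Subtype.val hj
    rwa [coll_nx] at h1
  have hcm : ¬ Patch.Cor (coll hq ho ho') δ' i := by
    intro hc
    have h1 := hcor _ hc
    rw [hδj _ hi2, hδi] at h1
    have h2 : M.nx.symm (δ (i + 1)) = M.al (q 0) := by
      rw [← h1, Equiv.symm_apply_apply]
    refine hne 1 3 (by decide) ?_
    have h3 := hP.prev_node i
    rw [h2, ← hq1] at h3
    exact h3.trans hn3
  have hX := hP'.ring_exact' windows_EE hR.loc hR.bdry (fun j => (ofs_spec hs j).1)
    (fun j => (ofs_spec hs j).2) (EE6_exists_zero hs) (by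
      intro j hj
      rw [coll_deg]
      have h1 := hcor j hj
      by_cases hji : j = i
      · exact absurd (hji ▸ hj) hcm
      · by_cases hj1 : j + 1 = i
        · have h2 : j = i - 1 := by rw [← hj1]; ring
          subst h2
          rw [sub_add_cancel, hδi, hδj _ hji] at h1
          rw [hδj _ hji]
          rcases hL.deg (δ (i - 1)) with h4 | h4
          · right
            have h5 := (ofs_spec hs (i - 1)).1
            have h6 := (ofs_spec hs (i - 1)).2
            have h7 : ofs s.u (i - 1) ≠ 1 := fun h8 => hF ⟨h1, h4, h8⟩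
            rw [sub_add_cancel, hi] at h5
            refine ⟨by omega, by rw [sub_add_cancel]; exact hcm, fun h8 => ?_⟩
            have h9 := hcor _ h8
            have e2 : i - 1 - 1 = i - 2 := by ring
            have e3 : i - 2 + 1 = i - 1 := by ring
            rw [e2, e3, hδj _ hi1, hδj _ hi3] at h9
            have h10 : M.deg (δ (i - 2)) = 6 := h.cor_deg (i := i - 2) (by
              show M.nx (δ (i - 2)) = δ (i - 2 + 1)
              rw [e3]
              exact h9)
            have h2 : M.SameSite (δ (i - 2)) (δ (i - 1)) := by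
              rw [← h9]
              exact ⟨1, by rw [zpow_one]⟩
            have h3 : M.deg (δ (i - 2)) = M.deg (δ (i - 1)) := by
              rw [← hL.cut_site, ← hL.cut_site]
              exact cut_congr fun e => ⟨fun h => h2.symm.trans h, fun h => h2.trans h⟩
            omega
          · left
            exact h4
        · left
          rw [hδj _ hji, hδj _ hj1] at h1
          rw [hδj _ hji]
          exact h.cor_deg h1)
    (h.coll_not_single hq ho ho' hP')
  obtain ⟨X1, X2⟩ := hX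
  have hx := X2 i hcm
  rw [hi] at hx
  have hsn := coll_sameNode hq ho ho' hL.plane hL'.plane.conn
  have hx1 : ((coll hq ho ho').nx.symm (δ' (i + 1))).1 = M.nx.symm (δ (i + 1)) := by
    rw [← hδj _ hi2, Equiv.eq_symm_apply]
    have h1 := coll_nx hq ho ho' ((coll hq ho ho').nx.symm (δ' (i + 1)))
    rw [Equiv.apply_symm_apply] at h1
    exact (congrArg Subtype.val h1).symm
  set x₁ : {d // ¬ QR q d} := (coll hq ho ho').nx.symm (δ' (i + 1)) with hx₁
  have hx₁n : M.SameNode (q 1) x₁.1 := by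
    rw [hx1, hq1]
    exact hP.prev_node i
  have hx₁A : A x₁.1 := by
    rw [hx1]
    exact hP.prev_in _
  have hδn : M.SameNode (δ' i).1 (q 3) := by rw [hδi]; exact hn3
  have hc3 : cout M q A ω' (q 3) = 1 := by
    rw [cout_single (e₀ := δ' i) hδn.symm (hδA _)]
    · exact hx.1
    · intro e he1 he2 he3
      refine X1 i e ?_ he2 he3 ?_
      · rw [hsn]
        exact Or.inl (hδn.trans he1)
      · rintro rfl
        exact hne 1 3 (by decide) (hx₁n.trans he1.symm)
  have hc1 : cout M q A ω' (q 1) = ω' x₁ := by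
    rw [cout_single (e₀ := x₁) hx₁n hx₁A]
    intro e he1 he2 he3
    refine X1 i e ?_ he2 ?_ he3
    · rw [hsn]
      exact Or.inr (Or.inr ⟨hδn, he1.symm⟩)
    · rintro rfl
      exact hne 1 3 (by decide) (he1.trans hδn)
  refine hR.of_coll hq ho ho' hL hL'.plane.conn hA0 hP.bd hδ1 hδA (w := qst 0 3)
    ⟨0, 3, rfl⟩ (by decide) rfl rfl ?_ ?_ ?_ ?_
  · intro hall
    exfalso
    refine hP.notA (i + 1) (hall _ ?_)
    rw [hq1]
    exact hP.root_node i
  · intro j hj
    have h1 : j = i := nodes_inj hP.bd (by rw [← hq1]; exact hj.symm)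
    rw [h1, hc1]
    have h2 := (ofs_spec hs i).1
    rw [hi] at h2
    show ω' x₁ + 1 = s.u i
    omega
  · intro _
    rw [hc3]
    rfl
  · intro j hj
    exfalso
    by_cases hji : j = i
    · rw [hji, ← hq1] at hj
      exact hne 3 1 (by decide) hj
    · refine hji (nodes_inj hP'.bd ?_)
      rw [hsn]
      refine Or.inl ?_
      rw [hδj _ hji]
      exact hj.symm.trans hδn.symm

/-- special quads: all states with `o i = 0` -/
theorem special_zero' (h : M.MinC A δ) {s : PState 6} (hs : EE 6 s) :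
    ∀ (n : ℕ) (i : ZMod 6), M.deg (δ i) = 4 → ofs s.u i = 0 → ofs s.u (i + n + 1) = 1 →
      ∃ μ ω, M.Real EE A δ s μ ω := by
  intro n
  induction n with
  | zero =>
    intro i hd hi hn
    obtain ⟨q, hq, hq0⟩ := exists_siteNum4 hd
    refine h.special_zero hq hq0 hs hi fun h1 => ?_
    rw [Nat.cast_zero, add_zero, h1.2.2] at hn
    omega
  | succ n ih =>
    intro i hd hi hn
    obtain ⟨q, hq, hq0⟩ := exists_siteNum4 hd
    by_cases hF : M.nx (M.al (q 1)) = δ (i + 1) ∧ M.deg (δ (i + 1)) = 4 ∧ ofs s.u (i + 1) = 0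
    · refine ih (i + 1) hF.2.1 hF.2.2 ?_
      have e : i + 1 + (n : ZMod 6) + 1 = i + ((n + 1 : ℕ) : ZMod 6) + 1 := by push_cast; ring
      rw [e]
      exact hn
    · exact h.special_zero hq hq0 hs hi hF

/-- special quads: all states with `o i = 1` -/
theorem special_one' (h : M.MinC A δ) {s : PState 6} (hs : EE 6 s) :
    ∀ (n : ℕ) (i : ZMod 6), M.deg (δ i) = 4 → ofs s.u i = 1 → ofs s.u (i - n - 1) = 0 →
      ∃ μ ω, M.Real EE A δ s μ ω := by
  have hnum : ∀ i, M.deg (δ i) = 4 → ∃ q : ZMod 4 → D, M.SiteNum 4 q ∧ q 1 = δ i := by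
    intro i hd
    obtain ⟨q, hq, hq0⟩ := exists_siteNum4 hd
    refine ⟨fun k => q (k - 1), ⟨fun a b hab => ?_, fun k => ?_⟩, ?_⟩
    · have := hq.inj hab
      exact sub_left_injective this
    · show M.nx (q (k - 1)) = q (k + 1 - 1)
      rw [hq.nx]
      congr 1
      ring
    · show q (1 - 1) = δ i
      rw [sub_self, hq0]
  intro n
  induction n with
  | zero =>
    intro i hd hi hn
    obtain ⟨q, hq, hq1⟩ := hnum i hd
    refine h.special_one hq hq1 hs hi fun h1 => ?_
    rw [Nat.cast_zero, sub_zero, h1.2.2] at hn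
    omega
  | succ n ih =>
    intro i hd hi hn
    obtain ⟨q, hq, hq1⟩ := hnum i hd
    by_cases hF : M.nx (δ (i - 1)) = M.al (q 0) ∧ M.deg (δ (i - 1)) = 4 ∧ ofs s.u (i - 1) = 1
    · refine ih (i - 1) hF.2.1 hF.2.2 ?_
      have e : i - 1 - (n : ZMod 6) - 1 = i - ((n + 1 : ℕ) : ZMod 6) - 1 := by push_cast; ring
      rw [e]
      exact hn
    · exact h.special_one hq hq1 hs hi hF

/-- **The edge faces of a minimal counterexample are hexagons.** -/
theorem edge_hex (h : M.MinC A δ) (i : ZMod 6) : M.deg (δ i) = 6 := by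
  rcases h.patch.legal.deg (δ i) with hd | hd
  · exfalso
    refine h.notFull fun s hs => ?_
    obtain ⟨⟨j, hj⟩, ⟨k, hk⟩⟩ := ofs_exists hs
    have h1 := (ofs_spec hs i).2
    by_cases h0 : ofs s.u i = 0
    · refine h.special_zero' hs (k - i - 1).val i hd h0 ?_
      rw [ZMod.natCast_zmod_val]
      have e : i + (k - i - 1) + 1 = k := by ring
      rw [e, hk]
    · refine h.special_one' hs (i - j - 1).val i hd (by omega) ?_
      rw [ZMod.natCast_zmod_val]
      have e : i - (i - j - 1) - 1 = j := by ring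
      rw [e, hj]
  · exact hd

/-! ### quads at ring nodes -/

/-- **All sites at the ring of a minimal counterexample are hexagons.** -/
theorem ring_hex (h : M.MinC A δ) {i : ZMod 6} {e : D} (hn : M.SameNode (δ i) e) (hAe : A e) :
    M.deg e = 6 := by
  have hP := h.patch
  have hL := hP.legal
  rcases hL.deg e with hd | hd
  swap
  · exact hd
  exfalso
  obtain ⟨q, hq, hq0⟩ := exists_siteNum4 hd
  have hnl := q_nl hq hL
  have hA0 : A (q 0) := by rw [hq0]; exact hAe
  have hqA : ∀ i, A (q i) := fun i =>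
    (Sites.same (M := M) hP.sites (hq.same (by decide) 0 i)).1 hA0
  have hdq : ∀ k, M.deg (q k) = 4 := hq.deg
  have hal : ∀ k, A (M.al (q k)) := by
    intro k
    by_contra h1
    obtain ⟨j, hj⟩ := (hP.bd.mem (q k)).1 ⟨hqA k, h1⟩
    have h2 := h.edge_hex j
    rw [hj, hdq] at h2
    omega
  have hQδ : ∀ j, ¬ QR q (δ j) := by
    rintro j ⟨k, hk⟩
    refine hP.notA j ?_
    rw [← hk]
    exact hal k
  obtain ⟨o, ho, ho'⟩ := hL.exists_col
  have hL' := h.coll_legal hq hA0 ho ho'
  obtain ⟨δ', hδ1, hδA, hP'⟩ := hP.coll hq ho ho' hA0 hL'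
  have hδj : ∀ j, (δ' j).1 = δ j := fun j => (coll_δ hq hnl ho ho' (hδ1 j)).1 (hQδ j)
  have hne : ∀ a b : ZMod 4, a ≠ b → ¬ M.SameNode (q a) (q b) := fun a b hab h4 =>
    hab (hq.inj (hL.node_inj (hq.same (by decide) a b) h4))
  have hn0 : M.SameNode (δ i) (q 0) := by rw [hq0]; exact hn
  have hsn := coll_sameNode hq ho ho' hL.plane hL'.plane.conn
  -- corners
  have hcor : ∀ j, Patch.Cor (coll hq ho ho') δ' j → Patch.Cor M δ j := by
    intro j hj
    have h1 := congrArg Subtype.val hj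
    rw [coll_nx] at h1
    have h2 : M.nx (δ' j).1 = (δ' (j + 1)).1 := h1
    rw [hδj, hδj] at h2
    exact h2
  have hdeg' : ∀ j, (coll hq ho ho').deg (δ' j) = 6 := by
    intro j
    rw [coll_deg, hδj]
    exact h.edge_hex j
  have hci : ¬ Patch.Cor (coll hq ho ho') δ' i := by
    intro hc
    rcases hP.cor_node (hcor i hc) hn0 with h1 | h1
    · have h2 := h.edge_hex i
      rw [← h1, hdq] at h2
      omega
    · exact hP.notA (i + 1) (h1 ▸ hA0)
  have hns := h.coll_not_single hq ho ho' hP'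
  -- the four sectors at the quad
  have hfs0 : ¬ QR q (M.fs (q 0)) := fun h1 => hnl 0 (by rwa [sites_fs (q_sites hq)] at h1)
  have hfs1 : ¬ QR q (M.fs (q 1)) := fun h1 => hnl 1 (by rwa [sites_fs (q_sites hq)] at h1)
  have hA00 : A (M.fs (q 0)) := by rw [sites_fs (M := M) hP.sites]; exact hal 0
  have hA11 : A (M.fs (q 1)) := by rw [sites_fs (M := M) hP.sites]; exact hal 1
  set l₀ : {d // ¬ QR q d} := ⟨M.fs (q 0), hfs0⟩ with hl₀
  set l₁ : {d // ¬ QR q d} := ⟨M.al (q 0), hnl 0⟩ with hl₁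
  set r₀ : {d // ¬ QR q d} := ⟨M.fs (q 1), hfs1⟩ with hr₀
  set r₁ : {d // ¬ QR q d} := ⟨M.al (q 1), hnl 1⟩ with hr₁
  have hl : (coll hq ho ho').nx l₀ = l₁ := by
    rw [coll_nx]
    exact Subtype.ext (nx_fs M (q 0))
  have hr : (coll hq ho ho').nx r₀ = r₁ := by
    rw [coll_nx]
    exact Subtype.ext (nx_fs M (q 1))
  have hnl₁ : M.SameNode l₁.1 (q 3) := by
    have h1 := Patch.nx_symm_node (M := M) (q 0)
    have h2 : M.nx.symm (q 0) = q 3 := by rw [Equiv.symm_apply_eq, q_nx3 hq]
    rwa [h2] at h1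
  have hnr₀ : M.SameNode (q 1) r₀.1 := Patch.fs_node _
  have hnl₀ : M.SameNode (δ i) l₀.1 := hn0.trans (Patch.fs_node _)
  have hnr₁ : M.SameNode (δ i) r₁.1 := by
    have h1 := Patch.nx_symm_node (M := M) (q 1)
    have h2 : M.nx.symm (q 1) = q 0 := by rw [Equiv.symm_apply_eq, q_nx0 hq]
    rw [h2] at h1
    exact hn0.trans h1.symm
  have hx1 : ∀ j, ((coll hq ho ho').nx.symm (δ' (j + 1))).1 = M.nx.symm (δ (j + 1)) := by
    intro j
    rw [← hδj, Equiv.eq_symm_apply]
    have h1 := coll_nx hq ho ho' ((coll hq ho ho').nx.symm (δ' (j + 1)))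
    rw [Equiv.apply_symm_apply] at h1
    exact (congrArg Subtype.val h1).symm
  refine h.notFull fun s hs => ?_
  obtain ⟨μ', ω', hR⟩ := h.coll_full hq ho ho' hP' s hs
  obtain ⟨X1, X2⟩ := hP'.ring_exact' windows_EE hR.loc hR.bdry (fun j => (ofs_spec hs j).1)
    (fun j => (ofs_spec hs j).2) (EE6_exists_zero hs) (fun j _ => Or.inl (hdeg' j)) hns
  have hadj : ∀ x : {d // ¬ QR q d}, A x.1 → 1 ≤ ω' x + ω' ((coll hq ho ho').nx x) := by
    intro x hx
    obtain ⟨m, γ, t, hm, hγ, ⟨a, ha⟩, ht, hst⟩ := hR.loc x hx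
    rw [← ha, hγ.nx, (hst _).2, (hst _).2]
    have h1 := windows_EE.adj ht (a + 1)
    rwa [add_sub_cancel_right] at h1
  -- the neighbours have units
  have hL1 : 1 ≤ ω' l₁ := by
    by_cases h1 : l₀ = δ' i
    · have h2 := hP'.next_pos windows_EE hR.loc hR.bdry (fun j => (ofs_spec hs j).1) X2 hns hci
        (hdeg' i)
      rwa [← h1, hl] at h2
    · have h2 : ω' l₀ = 0 := by
        refine X1 i l₀ ?_ hA00 h1 ?_
        · rw [hsn, hδj]
          exact Or.inl hnl₀
        · intro h3
          rw [Equiv.eq_symm_apply, hl] at h3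
          have h4 := congrArg Subtype.val h3
          rw [hδj] at h4
          refine hP.notA (i + 1) ?_
          rw [← h4]
          show A (M.al (M.al (q 0)))
          rw [M.inv]
          exact hA0
      have h3 := hadj l₀ hA00
      rw [hl, h2] at h3
      omega
  have hR1 : 1 ≤ ω' r₀ := by
    by_cases h1 : r₁ = (coll hq ho ho').nx.symm (δ' (i + 1))
    · have h2 := hP'.prev_pos windows_EE hR.loc hR.bdry (fun j => (ofs_spec hs j).1) X2 hns hci
        (hdeg' (i + 1))
      rwa [← h1, ← hr, Equiv.symm_apply_apply] at h2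
    · have h2 : ω' r₁ = 0 := by
        refine X1 i r₁ ?_ (hal 1) ?_ h1
        · rw [hsn, hδj]
          exact Or.inl hnr₁
        · intro h3
          have h4 := congrArg Subtype.val h3
          rw [hδj] at h4
          refine hP.notA i ?_
          rw [← h4]
          show A (M.al (M.al (q 1)))
          rw [M.inv]
          exact hqA 1
      have h3 := hadj r₀ hA11
      rw [hr, h2] at h3
      omega
  -- the two ends of the diagonal are inner nodes
  have hy1 : ∀ j, ¬ M.SameNode (q 1) (δ j) := by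
    intro j hj
    have h2 : ω' l₁ = 0 := by
      refine X1 j l₁ ?_ (hal 0) ?_ ?_
      · rw [hsn, hδj]
        exact Or.inr (Or.inl ⟨hj.symm, hnl₁⟩)
      · intro h3
        refine hne 1 3 (by decide) ?_
        rw [h3, hδj] at hnl₁
        exact hj.trans hnl₁
      · intro h3
        refine hne 1 3 (by decide) ?_
        rw [h3, hx1] at hnl₁
        exact hj.trans ((hP.prev_node j).trans hnl₁)
    omega
  have hy3 : ∀ j, ¬ M.SameNode (q 3) (δ j) := by
    intro j hj
    have h2 : ω' r₀ = 0 := by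
      refine X1 j r₀ ?_ hA11 ?_ ?_
      · rw [hsn, hδj]
        exact Or.inr (Or.inr ⟨hj.symm, hnr₀.symm⟩)
      · intro h3
        refine hne 1 3 (by decide) ?_
        rw [h3, hδj] at hnr₀
        exact hnr₀.trans hj.symm
      · intro h3
        refine hne 1 3 (by decide) ?_
        rw [h3, hx1] at hnr₀
        exact hnr₀.trans ((hP.prev_node j).symm.trans hj.symm)
    omega
  have hin : ∀ x y : D, A x → (∀ j, ¬ M.SameNode x (δ j)) → M.SameNode x y → A y := by
    intro x y hx hxδ hxy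
    by_contra hy
    obtain ⟨z, h1, h2, h3⟩ := exists_leaving (M := M) hP.sites hxy hx hy
    obtain ⟨j, hj⟩ := (hP.bd.mem z).1 ⟨h2, h3⟩
    exact hxδ j (by rw [hj]; exact h1)
  -- the sum
  have hsum : cout M q A ω' (q 1) + cout M q A ω' (q 3) = 3 := by
    rw [← coll_usum_merged hq ho ho' hL.plane hL'.plane.conn ω' (hne 1 3 (by decide))
      (e := l₁) (Or.inr hnl₁)]
    refine hR.inner l₁ fun e' he' => ?_
    rw [hsn] at he'
    rcases he' with h1 | ⟨h1, -⟩ | ⟨-, h1⟩
    · exact hin (q 3) _ (hqA 3) hy3 (hnl₁.symm.trans h1)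
    · exact absurd (h1.symm.trans hnl₁) (hne 1 3 (by decide))
    · exact hin (q 1) _ (hqA 1) hy1 h1.symm
  have hc1 : 1 ≤ cout M q A ω' (q 1) := hR1.trans (le_cout hnr₀ hA11)
  have hc3 : 1 ≤ cout M q A ω' (q 3) := hL1.trans (le_cout hnl₁.symm (hal 0))
  have key : ∀ w : PState 4, EE 4 w → (∀ i, w.m i = qs i) → w.u 0 = 0 → w.u 2 = 0 →
      cout M q A ω' (q 1) + w.u 1 = 3 → cout M q A ω' (q 3) + w.u 3 = 3 →
      ∃ μ ω, M.Real EE A δ s μ ω := fun w hw1 hw2 hw3 hw4 hw5 hw6 =>
    hR.of_coll hq ho ho' hL hL'.plane.conn hA0 hP.bd hδ1 hδA hw1 hw2 hw3 hw4 (fun _ => hw5)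
      (fun j hj => absurd hj (hy1 j)) (fun _ => hw6) fun j hj => absurd hj (hy3 j)
  have h12 : cout M q A ω' (q 1) = 1 ∨ cout M q A ω' (q 1) = 2 := by omega
  rcases h12 with h1 | h1
  · have h2 : cout M q A ω' (q 3) = 2 := by omega
    exact key (qst 0 1) ⟨0, 1, rfl⟩ (by decide) rfl rfl (by rw [h1]; rfl) (by rw [h2]; rfl)
  · have h2 : cout M q A ω' (q 3) = 1 := by omega
    exact key (qst 0 3) ⟨0, 3, rfl⟩ (by decide) rfl rfl (by rw [h1]; rfl) (by rw [h2]; rfl)

end MinC

end DMap

end GT33
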