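import Pool.Agent.GT33.Union
import Pool.Agent.GT33.Rules

/-!
# GT33 module KREM: a region with a corner quad

`CorQ M A δ i q`: the quad `q` of the region `A` is at the corner `i`, the rest has the six leaving darts
`kδ M δ i q` (`CorQ.bd'`); `CorQ.of_two`, `CorQ.of_card`: every corner quad of a region which is not the quad and
not two quads.  `CorQ.glue`: states of the rest and of the quad give the state `gk i p t` of the region.
-/

open Classical

namespace GT33

/-- the state of a region with a corner quad -/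
def gk (i : ZMod 6) (p : PState 4) (t : PState 6) : PState 6 where
  m j := if p.m 2 = 3 then
      (if j = i then i + 1 else if j = i + 1 then i else if t.m j = i then t.m (i + 1) else
        if t.m j = i + 1 then t.m i else t.m j)
    else if p.m 2 = 0 then Equiv.swap i (i + 1) (t.m (Equiv.swap i (i + 1) j)) else t.m j
  u j := (if j = i then p.u 0 else t.u j) + (if j = i + 1 then p.u 1 else 0) +
    (if j = i - 1 then p.u 3 else 0)

namespace DMap

variable {D : Type} {M : DMap D}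

/-- if a leaving dart comes directly after the outside, then it is the only sector inside of its node -/
theorem bd_lone [Finite D] {A : D → Prop} {n : ℕ} {δ : ZMod n → D} (hb : M.Bd A n δ) {i : ZMod n}
    (hs : ¬ A (M.fs.symm (δ i))) {e : D} (hn : M.SameNode (δ i) e) (he : A e) : e = δ i := by
  by_contra hne
  have key : ∀ m : ℕ, A ((M.fs ^ m) e) ∧ (M.fs ^ m) e ≠ δ i := by
    intro m
    induction m with
    | zero => exact ⟨by simpa using he, by simpa using hne⟩
    | succ m ih =>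
      rw [pow_succ', Equiv.Perm.mul_apply, sites_fs hb.site]
      refine ⟨?_, fun h1 => hs ?_⟩
      · by_contra h1
        obtain ⟨j, hj⟩ := (hb.mem _).1 ⟨ih.1, h1⟩
        have h2 : M.SameNode (δ j) (δ i) := by
          rw [hj]
          exact (hn.trans ⟨m, by simp⟩).symm
        exact ih.2 (by rw [← hj, nodes_inj hb h2])
      · rw [← h1, Equiv.symm_apply_apply]
        exact ih.1
  obtain ⟨m, hm⟩ := hn.symm.exists_nat_pow_eq
  exact (key m).2 hm

/-- if there is only one sector outside -/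
theorem bd_lone_out [Finite D] {A : D → Prop} {n : ℕ} {δ : ZMod n → D} (hb : M.Bd A n δ) {i : ZMod n}
    (hs : A (M.fs.symm (M.al (δ (i + 1))))) {e : D} (hn : M.SameNode (δ i) e) (he : ¬ A e) :
    e = M.al (δ (i + 1)) := by
  have h1 := bd_compl hb (i + 1)
  have h2 : M.SameNode (δ i) (M.al (δ (i + 1))) := sameNode_iff.2 (hb.step i)
  have h3 := bd_lone h1 (i := 0) (e := e) (by
    show ¬ ¬ A (M.fs.symm (M.al (δ (i + 1 - 0))))
    rw [sub_zero]
    exact not_not.2 hs) (by
    show M.SameNode (M.al (δ (i + 1 - 0))) e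
    rw [sub_zero]
    exact h2.symm.trans hn) he
  rw [h3]
  show M.al (δ (i + 1 - 0)) = _
  rw [sub_zero]

/-- the leaving darts of the region without the quad `q` at the corner `i` -/
def kδ (M : DMap D) (δ : ZMod 6 → D) (i : ZMod 6) (q : ZMod 4 → D) (j : ZMod 6) : D :=
  if j = i then M.al (q 3) else if j = i + 1 then M.al (q 2) else δ j

/-- the quad `q` is at the corner `i` of the region `A` -/
structure CorQ (M : DMap D) (A : D → Prop) (δ : ZMod 6 → D) (i : ZMod 6) (q : ZMod 4 → D) : Prop where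
  legal : M.Legal
  bd : M.Bd A 6 δ
  num : M.SiteNum 4 q
  h0 : q 0 = δ i
  h1 : q 1 = δ (i + 1)
  cut : M.cut (fun d => A d ∧ ¬ QR q d) = 6

theorem z6_succ (i : ZMod 6) : i + 1 ≠ i := by revert i; decide

theorem z6_pred (i : ZMod 6) : i - 1 ≠ i := by revert i; decide

theorem z6_pm (i : ZMod 6) : i - 1 ≠ i + 1 := by revert i; decide

theorem kδ_i {δ : ZMod 6 → D} {i : ZMod 6} {q : ZMod 4 → D} : kδ M δ i q i = M.al (q 3) := if_pos rfl

theorem kδ_i1 {δ : ZMod 6 → D} {i : ZMod 6} {q : ZMod 4 → D} : kδ M δ i q (i + 1) = M.al (q 2) := by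
  unfold kδ
  rw [if_neg (z6_succ i), if_pos rfl]

theorem kδ_ne {δ : ZMod 6 → D} {i j : ZMod 6} {q : ZMod 4 → D} (h : j ≠ i) (h' : j ≠ i + 1) :
    kδ M δ i q j = δ j := by
  unfold kδ
  rw [if_neg h, if_neg h']

namespace CorQ

variable {A : D → Prop} {δ : ZMod 6 → D} {i : ZMod 6} {q : ZMod 4 → D}

theorem nl (h : M.CorQ A δ i q) (k : ZMod 4) : ¬ QR q (M.al (q k)) := q_nl h.num h.legal k

theorem qA (h : M.CorQ A δ i q) (k : ZMod 4) : A (q k) :=
  (Sites.same (M := M) h.bd.site (h.num.same (by decide) 0 k)).1 (by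
    rw [h.h0]; exact bd_mem h.bd i)

theorem sites (h : M.CorQ A δ i q) : M.Sites fun d => A d ∧ ¬ QR q d :=
  Sites.and (M := M) h.bd.site (q_sites h.num).not

theorem cover (h : M.CorQ A δ i q) {x : D} (hx : A x ∧ ¬ QR q x)
    (hx' : ¬ (A (M.al x) ∧ ¬ QR q (M.al x))) : ∃ j, kδ M δ i q j = x := by
  by_cases h1 : A (M.al x)
  · have h2 : QR q (M.al x) := by
      by_contra h2
      exact hx' ⟨h1, h2⟩
    obtain ⟨k, hk⟩ := h2
    have hxk : x = M.al (q k) := by rw [hk, M.inv]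
    rcases z4 k with rfl | rfl | rfl | rfl
    · exfalso
      rw [hxk, h.h0] at hx
      exact bd_al h.bd i hx.1
    · exfalso
      rw [hxk, h.h1] at hx
      exact bd_al h.bd _ hx.1
    · exact ⟨i + 1, by rw [kδ_i1, hxk]⟩
    · exact ⟨i, by rw [kδ_i, hxk]⟩
  · obtain ⟨j, hj⟩ := (h.bd.mem x).1 ⟨hx.1, h1⟩
    refine ⟨j, ?_⟩
    rw [kδ_ne, hj]
    · rintro rfl
      exact hx.2 ⟨0, by rw [h.h0, hj]⟩
    · rintro rfl
      exact hx.2 ⟨1, by rw [h.h1, hj]⟩

variable [Fintype D]

theorem image (h : M.CorQ A δ i q) : (Finset.univ.filter fun x =>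
    (A x ∧ ¬ QR q x) ∧ ¬ (A (M.al x) ∧ ¬ QR q (M.al x))) = Finset.univ.image (kδ M δ i q) := by
  have h1 : (Finset.univ.filter fun x =>
    (A x ∧ ¬ QR q x) ∧ ¬ (A (M.al x) ∧ ¬ QR q (M.al x))).card = 6 := by
    have := h.cut
    unfold DMap.cut at this
    rwa [Nat.card_eq_fintype_card, Fintype.card_subtype] at this
  refine Finset.eq_of_subset_of_card_le ?_ ?_
  · intro x hx
    simp only [Finset.mem_filter, Finset.mem_univ, true_and] at hx
    obtain ⟨j, hj⟩ := h.cover hx.1 hx.2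
    exact Finset.mem_image.2 ⟨j, Finset.mem_univ _, hj⟩
  · rw [h1]
    exact Finset.card_image_le.trans (by simp)

theorem mem (h : M.CorQ A δ i q) (x : D) :
    ((A x ∧ ¬ QR q x) ∧ ¬ (A (M.al x) ∧ ¬ QR q (M.al x))) ↔ ∃ j, kδ M δ i q j = x := by
  have h1 := h.image
  rw [Finset.ext_iff] at h1
  have h2 := h1 x
  simp only [Finset.mem_filter, Finset.mem_univ, true_and, Finset.mem_image] at h2
  exact h2

theorem kinj (h : M.CorQ A δ i q) : Function.Injective (kδ M δ i q) := by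
  have h1 : (Finset.univ.image (kδ M δ i q)).card = 6 := by
    rw [← h.image]
    have := h.cut
    unfold DMap.cut at this
    rwa [Nat.card_eq_fintype_card, Fintype.card_subtype] at this
  have h2 := Finset.injOn_of_card_image_eq (s := Finset.univ) (f := kδ M δ i q) (by
    rw [h1]; rfl)
  exact fun x y hxy => h2 (Finset.mem_coe.2 (Finset.mem_univ _)) (Finset.mem_coe.2 (Finset.mem_univ _)) hxy

omit [Fintype D] in
theorem node_c (h : M.CorQ A δ i q) : M.SameNode (kδ M δ i q i) (q 2) := by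
  rw [kδ_i]
  refine ⟨1, ?_⟩
  have h1 : M.nx (q 2) = q 3 := h.num.nx 2
  rw [zpow_one, fs_al, ← h1, Equiv.symm_apply_apply]

omit [Fintype D] in
theorem node_b (h : M.CorQ A δ i q) : M.SameNode (kδ M δ i q (i + 1)) (δ (i + 1)) := by
  rw [kδ_i1]
  refine ⟨1, ?_⟩
  have h1 : M.nx (q 1) = q 2 := h.num.nx 1
  rw [zpow_one, fs_al, ← h1, Equiv.symm_apply_apply, h.h1]

theorem node_d (h : M.CorQ A δ i q) : M.SameNode (δ (i - 1)) (q 3) := by
  have h1 : M.SameNode (δ (i - 1)) (M.al (δ (i - 1 + 1))) := sameNode_iff.2 (h.bd.step (i - 1))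
  rw [sub_add_cancel] at h1
  refine h1.trans ⟨1, ?_⟩
  have h2 : M.nx (q 3) = q 0 := h.num.nx 3
  rw [zpow_one, fs_al, ← h.h0, ← h2, Equiv.symm_apply_apply]

/-- the ring nodes of the rest, except the new one -/
theorem node_ne (h : M.CorQ A δ i q) {j : ZMod 6} (hj : j ≠ i) : M.SameNode (kδ M δ i q j) (δ j) := by
  by_cases h1 : j = i + 1
  · rw [h1]
    exact h.node_b
  · rw [kδ_ne hj h1]

/-- the leaving darts of the rest -/
theorem bd' (h : M.CorQ A δ i q) : M.Bd (fun d => A d ∧ ¬ QR q d) 6 (kδ M δ i q) := by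
  have hout : ∃ d, ¬ (A d ∧ ¬ QR q d) := ⟨q 0, fun h1 => h1.2 ⟨0, rfl⟩⟩
  have hin : ∃ d, A d ∧ ¬ QR q d := ⟨_, ((h.mem _).2 ⟨i, rfl⟩).1⟩
  obtain ⟨δ₁, hδ₁⟩ := h.legal.exists_bd h.sites hin hout (by rw [h.cut]; decide)
  have hnodes : Function.Injective fun j => dnode M.nx M.al (kδ M δ i q j) := by
    intro j k hjk
    obtain ⟨x, hx⟩ := (hδ₁.mem _).1 ((h.mem _).2 ⟨j, rfl⟩)
    obtain ⟨y, hy⟩ := (hδ₁.mem _).1 ((h.mem _).2 ⟨k, rfl⟩)
    have h1 : dnode M.nx M.al (δ₁ x) = dnode M.nx M.al (δ₁ y) := by rw [hx, hy]; exact hjk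
    have h2 := hδ₁.nodes h1
    exact h.kinj (by rw [← hx, ← hy, h2])
  refine h.legal.plane.toD.bd_of_nodes (A := fun d => A d ∧ ¬ QR q d) h.sites h.mem hnodes
    fun j => sameNode_iff.1 ?_
  have hst : ∀ j, M.SameNode (δ j) (M.al (δ (j + 1))) := fun j => sameNode_iff.2 (h.bd.step j)
  by_cases h1 : j = i
  · rw [h1, kδ_i1, M.inv]
    exact h.node_c
  · refine (h.node_ne h1).trans ?_
    by_cases h2 : j + 1 = i
    · have h3 : j = i - 1 := by rw [← h2, add_sub_cancel_right]
      rw [h2, h3, kδ_i, M.inv]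
      exact h.node_d
    · rw [kδ_ne h2 fun h3 => h1 (add_right_cancel h3)]
      exact hst j

/-- the corner has only the sector of the quad -/
theorem lone (h : M.CorQ A δ i q) {e : D} (hn : M.SameNode (δ i) e) (he : A e) : e = δ i := by
  refine bd_lone h.bd ?_ hn he
  have h1 : M.nx (q 0) = q 1 := h.num.nx 0
  rw [fs_symm, ← h.h0, h1, h.h1]
  exact bd_al h.bd _

/-- the sectors of the new ring node of the rest -/
theorem lone' (h : M.CorQ A δ i q) {e : D} (hn : M.SameNode (kδ M δ i q i) e)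
    (he : ¬ (A e ∧ ¬ QR q e)) : e = q 2 := by
  have h1 := bd_lone_out h.bd' (i := i) (e := e) (by
    have h2 : M.nx (q 2) = q 3 := h.num.nx 2
    rw [kδ_i1, M.inv, fs_symm, h2, ← kδ_i (M := M) (δ := δ) (i := i)]
    exact bd_mem h.bd' i) hn he
  rw [h1, kδ_i1, M.inv]

/-- a node with only inner sectors which meets the quad -/
theorem inner_q (h : M.CorQ A δ i q) {d : D} (hd : ∀ e, M.SameNode d e → A e) {k : ZMod 4}
    (hk : M.SameNode d (q k)) : k = 2 := by
  have key : ∀ j, ¬ M.SameNode (δ j) (q k) := fun j hj => by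
    have h1 : M.SameNode (δ j) (M.al (δ (j + 1))) := sameNode_iff.2 (h.bd.step j)
    exact bd_al h.bd (j + 1) (hd _ (hk.trans (hj.symm.trans h1)))
  rcases z4 k with rfl | rfl | rfl | rfl
  · exact absurd (by rw [h.h0]) (key i)
  · exact absurd (by rw [h.h1]) (key (i + 1))
  · rfl
  · exact absurd h.node_d (key (i - 1))

theorem pm_cases {p : PState 4} (hp : ∀ k, p.m (p.m k) = k) (hp' : ∀ k, p.m k ≠ k) :
    (p.m 2 = 3 ∧ p.m 3 = 2 ∧ p.m 0 = 1 ∧ p.m 1 = 0) ∨
      (p.m 2 = 0 ∧ p.m 0 = 2 ∧ p.m 1 = 3 ∧ p.m 3 = 1) ∨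
      (p.m 2 = 1 ∧ p.m 1 = 2 ∧ p.m 0 = 3 ∧ p.m 3 = 0) := by
  have h0 := hp 0
  have h1 := hp 1
  have h2 := hp 2
  have h3 := hp 3
  have g0 := hp' 0
  have g1 := hp' 1
  have g2 := hp' 2
  have g3 := hp' 3
  generalize p.m = f at *
  rcases z4 (f 2) with e | e | e | e
  · rw [e] at h2
    rcases z4 (f 1) with e' | e' | e' | e'
    · rw [e', h2] at h1
      exact absurd h1 (by decide)
    · exact absurd e' g1
    · rw [e', e] at h1
      exact absurd h1 (by decide)
    · rw [e'] at h1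
      exact Or.inr (Or.inl ⟨e, h2, e', h1⟩)
  · rw [e] at h2
    rcases z4 (f 0) with e' | e' | e' | e'
    · exact absurd e' g0
    · rw [e', h2] at h0
      exact absurd h0 (by decide)
    · rw [e', e] at h0
      exact absurd h0 (by decide)
    · rw [e'] at h0
      exact Or.inr (Or.inr ⟨e, h2, e', h0⟩)
  · exact absurd e g2
  · rw [e] at h2
    rcases z4 (f 0) with e' | e' | e' | e'
    · exact absurd e' g0
    · rw [e'] at h0
      exact Or.inl ⟨e, h2, e', h0⟩
    · rw [e', e] at h0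
      exact absurd h0 (by decide)
    · rw [e', h2] at h0
      exact absurd h0 (by decide)

/-- **gluing a corner quad** -/
theorem glue (h : M.CorQ A δ i q) {L : LS D} {t : PState 6} {p : PState 4} {μ₀ : D → D} {ω₀ : D → ℕ}
    (hR : M.RealL L (fun d => A d ∧ ¬ QR q d) (kδ M δ i q) t μ₀ ω₀) (hL : L 4 q p)
    (hp : ∀ k, p.m (p.m k) = k) (hp' : ∀ k, p.m k ≠ k)
    (ht : ∀ k, t.m (t.m k) = k) (ht' : ∀ k, t.m k ≠ k)
    (hloop : ¬ (p.m 2 = 3 ∧ t.m i = i + 1)) (hu : t.u i + p.u 2 = 3) :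
    ∃ μ ω, M.RealL L A δ (gk i p t) μ ω := by
  have hK := RealL.site h.legal (L := L) (by decide) h.num hL
  have hK' := hK.congrA (B := QR q) fun d => (h.num.mem_iff (by decide) d).symm
  obtain ⟨μ, ω, hG⟩ : ∃ μ ω, M.Glued L A (fun d => A d ∧ ¬ QR q d) (QR q) (kδ M δ i q) q t p μ ω :=
    ⟨_, _, RealL.union (A := A) h.sites (q_sites h.num) (fun d => by
    by_cases h1 : QR q d
    · constructor
      · exact fun _ => Or.inr h1
      · obtain ⟨k, rfl⟩ := h1
        exact fun _ => h.qA k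
    · constructor
      · exact fun h2 => Or.inl ⟨h2, h1⟩
      · rintro (h2 | h2)
        · exact h2.1
        · exact absurd h2 h1) (fun d h1 => h1.2) hR hK'⟩
  -- strands
  have sE : ∀ x, M.Str A μ (kδ M δ i q x) (kδ M δ i q (t.m x)) := hG.strB
  have sq : ∀ k, M.Str A μ (q k) (q (p.m k)) := hG.strC
  have inQ : ∀ x, A (kδ M δ i q x) := fun x => ((h.mem _).2 ⟨x, rfl⟩).1.1
  have s3 : M.Str A μ (kδ M δ i q i) (q 3) := Relation.EqvGen.rel _ _
    ⟨inQ i, Or.inr ⟨by rw [kδ_i, M.inv], h.qA 3⟩⟩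
  have s2 : M.Str A μ (kδ M δ i q (i + 1)) (q 2) := Relation.EqvGen.rel _ _
    ⟨inQ _, Or.inr ⟨by rw [kδ_i1, M.inv], h.qA 2⟩⟩
  have tr : ∀ {x y z}, M.Str A μ x y → M.Str A μ y z → M.Str A μ x z :=
    fun h1 h2 => Relation.EqvGen.trans _ _ _ h1 h2
  have sy : ∀ {x y}, M.Str A μ x y → M.Str A μ y x := fun h1 => Relation.EqvGen.symm _ _ h1
  have rf : ∀ {x y}, x = y → M.Str A μ x y := fun h1 => by rw [h1]; exact Relation.EqvGen.refl _
  have hi1 : i + 1 ≠ i := z6_succ i
  have key : (∀ j, M.Str A μ (δ j) (δ ((gk i p t).m j))) ∧ ∀ x, ∃ j, M.Str A μ (kδ M δ i q x) (δ j) := by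
    rcases pm_cases hp hp' with ⟨p2, p3, p0, p1⟩ | ⟨p2, p0, p1, p3⟩ | ⟨p2, p1, p0, p3⟩
    · -- two parallel strands, one joins the ends of the rest
      have hti : t.m i ≠ i + 1 := fun h1 => hloop ⟨p2, h1⟩
      have hti' : t.m (i + 1) ≠ i := fun h1 => hti (by
        have h2 := ht (i + 1)
        rwa [h1] at h2)
      have c1 : M.Str A μ (kδ M δ i q i) (kδ M δ i q (i + 1)) := by
        have h1 := sq 3
        rw [p3] at h1
        exact tr s3 (tr h1 (sy s2))
      have c2 : M.Str A μ (δ i) (δ (i + 1)) := by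
        have h1 := sq 0
        rw [p0, h.h0, h.h1] at h1
        exact h1
      have e1 : M.Str A μ (kδ M δ i q i) (δ (t.m i)) := by
        have h1 := sE i
        rwa [kδ_ne (ht' i) hti] at h1
      have e2 : M.Str A μ (kδ M δ i q (i + 1)) (δ (t.m (i + 1))) := by
        have h1 := sE (i + 1)
        rwa [kδ_ne hti' (ht' (i + 1))] at h1
      constructor
      · intro j
        simp only [gk, if_pos p2]
        by_cases h1 : j = i
        · rw [if_pos h1, h1]
          exact c2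
        by_cases h2 : j = i + 1
        · rw [if_neg h1, if_pos h2, h2]
          exact sy c2
        rw [if_neg h1, if_neg h2]
        have h3 := sE j
        rw [kδ_ne h1 h2] at h3
        by_cases h4 : t.m j = i
        · rw [if_pos h4]
          rw [h4] at h3
          exact tr h3 (tr c1 e2)
        by_cases h5 : t.m j = i + 1
        · rw [if_neg h4, if_pos h5]
          rw [h5] at h3
          exact tr h3 (tr (sy c1) e1)
        rw [if_neg h4, if_neg h5]
        rwa [kδ_ne h4 h5] at h3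
      · intro x
        by_cases h1 : x = i
        · exact ⟨_, by rw [h1]; exact e1⟩
        by_cases h2 : x = i + 1
        · exact ⟨_, by rw [h2]; exact e2⟩
        exact ⟨x, rf (kδ_ne h1 h2)⟩
    · -- crossing
      have c : ∀ x, M.Str A μ (kδ M δ i q x) (δ (Equiv.swap i (i + 1) x)) := by
        intro x
        by_cases h1 : x = i
        · rw [h1, Equiv.swap_apply_left, ← h.h1]
          have h2 := sq 3
          rw [p3] at h2
          exact tr s3 h2
        by_cases h2 : x = i + 1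
        · rw [h2, Equiv.swap_apply_right, ← h.h0]
          have h2 := sq 2
          rw [p2] at h2
          exact tr s2 h2
        rw [Equiv.swap_apply_of_ne_of_ne h1 h2]
        exact rf (kδ_ne h1 h2)
      constructor
      · intro j
        have h2 : ¬ p.m 2 = 3 := by rw [p2]; decide
        simp only [gk, if_neg h2, if_pos p2]
        have h3 := c (Equiv.swap i (i + 1) j)
        rw [Equiv.swap_apply_self] at h3
        exact tr (sy h3) (tr (sE _) (c _))
      · exact fun x => ⟨_, c x⟩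
    · -- parallel to the boundary
      have c : ∀ x, M.Str A μ (kδ M δ i q x) (δ x) := by
        intro x
        by_cases h1 : x = i
        · rw [h1, ← h.h0]
          have h2 := sq 3
          rw [p3] at h2
          exact tr s3 h2
        by_cases h2 : x = i + 1
        · rw [h2, ← h.h1]
          have h2 := sq 2
          rw [p2] at h2
          exact tr s2 h2
        exact rf (kδ_ne h1 h2)
      constructor
      · intro j
        have h2 : ¬ p.m 2 = 3 := by rw [p2]; decide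
        have h3 : ¬ p.m 2 = 0 := by rw [p2]; decide
        simp only [gk, if_neg h2, if_neg h3]
        exact tr (sy (c j)) (tr (sE j) (c _))
      · exact fun x => ⟨x, c x⟩
  obtain ⟨hstr, hk⟩ := key
  have hq : ∀ k, ∃ j, M.Str A μ (q k) (δ j) := by
    intro k
    rcases z4 k with rfl | rfl | rfl | rfl
    · exact ⟨i, rf h.h0⟩
    · exact ⟨i + 1, rf h.h1⟩
    · obtain ⟨j, hj⟩ := hk (i + 1)
      exact ⟨j, tr (sy s2) hj⟩
    · obtain ⟨j, hj⟩ := hk i
      exact ⟨j, tr (sy s3) hj⟩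
  have hbd := h.bd'
  refine ⟨μ, ω, hG.loc, hstr, fun d hd => ?_, fun j => ?_, fun d hd => ?_⟩
  · rcases hG.all d hd with ⟨x, hx⟩ | ⟨k, hk'⟩
    · obtain ⟨j, hj⟩ := hk x
      exact ⟨j, tr hx hj⟩
    · obtain ⟨j, hj⟩ := hq k
      exact ⟨j, tr hk' hj⟩
  · rw [hG.sum]
    show _ = (if j = i then p.u 0 else t.u j) + (if j = i + 1 then p.u 1 else 0) +
      (if j = i - 1 then p.u 3 else 0)
    by_cases h1 : j = i
    · rw [if_pos h1, if_neg (by rw [h1]; exact hi1.symm), if_neg (by rw [h1]; exact (z6_pred i).symm),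
        h1, usum_none (B := fun d => A d ∧ ¬ QR q d) fun e he hAe =>
          hAe.2 ⟨0, by rw [h.h0]; exact (h.lone he hAe.1).symm⟩, ← h.h0, hG.bC]
      omega
    rw [if_neg h1, usum_same (h.node_ne h1).symm, hG.bB, add_assoc]
    congr 1
    by_cases h2 : j = i + 1
    · rw [if_pos h2, if_neg (by rw [h2]; exact (z6_pm i).symm), h2, ← h.h1, hG.bC, add_zero]
    rw [if_neg h2]
    by_cases h3 : j = i - 1
    · rw [if_pos h3, h3, usum_same h.node_d, hG.bC, zero_add]
    rw [if_neg h3, add_zero]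
    refine usum_none fun e he hqe => ?_
    obtain ⟨k, rfl⟩ := hqe
    rcases z4 k with rfl | rfl | rfl | rfl
    · rw [h.h0] at he
      exact h1 (nodes_inj h.bd he)
    · rw [h.h1] at he
      exact h2 (nodes_inj h.bd he)
    · have h4 := (h.node_ne h1).trans (he.trans h.node_c.symm)
      exact h1 (nodes_inj hbd h4)
    · exact h3 (nodes_inj h.bd (he.trans h.node_d.symm))
  · rw [hG.sum]
    by_cases h1 : ∃ k, M.SameNode d (q k)
    · obtain ⟨k, hk'⟩ := h1
      have h2 := h.inner_q hd hk'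
      rw [h2] at hk'
      rw [usum_same (hk'.trans h.node_c.symm), hG.bB, usum_same hk', hG.bC]
      exact hu
    · have h2 : ∀ e, M.SameNode d e → ¬ QR q e := by
        rintro e he ⟨k, rfl⟩
        exact h1 ⟨k, he⟩
      rw [usum_none (B := QR q) h2, add_zero]
      exact hG.iB d fun e he => ⟨hd e he, h2 e he⟩

/-- a corner quad of a region which is not the quad and not two quads -/
theorem of_two (hM : M.Legal) (hb : M.Bd A 6 δ) (hq : M.SiteNum 4 q) (h0 : q 0 = δ i)
    (h1 : q 1 = δ (i + 1)) (hne : ∃ d, A d ∧ ¬ QR q d)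
    (h8 : ¬ ∃ d, M.deg d = 4 ∧ ∀ e, (A e ∧ ¬ QR q e) ↔ M.SameSite d e) : M.CorQ A δ i q := by
  refine ⟨hM, hb, hq, h0, h1, ?_⟩
  have hqA : ∀ k, A (q k) := fun k =>
    (Sites.same (M := M) hb.site (hq.same (by decide) 0 k)).1 (by rw [h0]; exact bd_mem hb i)
  have hs : M.Sites fun d => A d ∧ ¬ QR q d := Sites.and (M := M) hb.site (q_sites hq).not
  have e1 := cut_erase_q hq (q_nl hq hM) hqA
  have e2 : M.cut A = 6 := bd_cut hb
  have n0 : ¬ A (M.al (q 0)) := by rw [h0]; exact bd_al hb i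
  have n1 : ¬ A (M.al (q 1)) := by rw [h1]; exact bd_al hb _
  rw [if_neg n0, if_neg n1, e2] at e1
  have e3 := hM.cut4 _ hs hne ⟨q 0, fun h => h.2 ⟨0, rfl⟩⟩
  have e4 : M.cut (fun d => A d ∧ ¬ QR q d) ≠ 4 := by
    intro h4
    rcases hM.quad _ hs h4 with ⟨d, hd⟩ | ⟨d, hd⟩
    · refine h8 ⟨d, ?_, hd⟩
      rw [← hM.cut_site d, ← h4]
      exact (cut_congr hd).symm
    · have h5 : M.SameSite d (q 0) := (hd _).1 fun h => h.2 ⟨0, rfl⟩
      have h6 : M.SameSite d (M.al (q 0)) := (hd _).1 fun h => n0 h.1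
      exact hM.noloop _ (h5.symm.trans h6)
  split_ifs at e1 <;> omega

theorem of_card (hM : M.Legal) (hb : M.Bd A 6 δ) (hq : M.SiteNum 4 q) (h0 : q 0 = δ i)
    (h1 : q 1 = δ (i + 1)) (hne : ∃ d, A d ∧ ¬ QR q d) (h8 : Nat.card {d // A d} ≠ 8) :
    M.CorQ A δ i q := by
  refine of_two hM hb hq h0 h1 hne ?_
  rintro ⟨d, hd, hB⟩
  apply h8
  have hqA : ∀ k, A (q k) := fun k =>
    (Sites.same (M := M) hb.site (hq.same (by decide) 0 k)).1 (by rw [h0]; exact bd_mem hb i)
  rw [card_or (B := QR q) (C := A) (by rintro d ⟨k, rfl⟩; exact hqA k), card_q hq,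
    Nat.card_congr (Equiv.subtypeEquivRight hB), card_site', hd]

/-- the corner quad at the corner `i` -/
theorem exists_corQ (hM : M.Legal) (hb : M.Bd A 6 δ) (hc : M.nx (δ i) = δ (i + 1))
    (h4 : M.deg (δ i) = 4) (h1 : ∃ d, A d ∧ ¬ M.SameSite (δ i) d) (h8 : Nat.card {d // A d} ≠ 8) :
    ∃ q, M.CorQ A δ i q := by
  obtain ⟨q, hq, h0⟩ := exists_siteNum4 h4
  refine ⟨q, of_card hM hb hq h0 ?_ ?_ h8⟩
  · have h2 : M.nx (q 0) = q 1 := hq.nx 0
    rw [← h2, h0, hc]
  · obtain ⟨d, hd, hd'⟩ := h1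
    exact ⟨d, hd, fun h2 => hd' (by rw [← h0]; exact (hq.mem_iff (by decide) d).2 h2)⟩

end CorQ

end DMap

end GT33
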