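import Pool.Agent.GT33.ExactO
import Pool.Agent.GT33.KRem

/-!
# GT33 module EXQ: ring exactness of regions

`Rgn M A δ`: a region of a legal map with six leaving darts `δ`.  `Rgn.ring_exactN`: ring exactness for regions, as
`Patch.ring_exactN` for patches.
-/

open Classical

namespace GT33

namespace DMap

variable {D : Type} {M : DMap D} {A : D → Prop} {δ : ZMod 6 → D}

open Patch

/-- a region with six leaving darts -/
structure Rgn (M : DMap D) (A : D → Prop) (δ : ZMod 6 → D) : Prop where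
  legal : M.Legal
  bd : M.Bd A 6 δ

namespace Rgn

theorem inA (hP : M.Rgn A δ) (i : ZMod 6) : A (δ i) := bd_mem hP.bd i

theorem notA (hP : M.Rgn A δ) (i : ZMod 6) : ¬ A (M.al (δ i)) := bd_al hP.bd i

theorem prev_node [Finite D] (hP : M.Rgn A δ) (i : ZMod 6) :
    M.SameNode (δ i) (M.nx.symm (δ (i + 1))) :=
  (sameNode_iff.2 (hP.bd.step i)).trans (nx_symm_node _)

theorem prev_in (hP : M.Rgn A δ) (i : ZMod 6) : A (M.nx.symm (δ i)) := by
  rw [Sites.symm (M := M) hP.bd.site]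
  exact hP.inA i

theorem corner_iff [Finite D] (hP : M.Rgn A δ) (i j : ZMod 6) :
    δ i = M.nx.symm (δ j) ↔ j = i + 1 ∧ M.nx (δ i) = δ (i + 1) := by
  constructor
  · intro h
    have h1 := hP.prev_node (j - 1)
    rw [sub_add_cancel, ← h] at h1
    have h2 := nodes_inj hP.bd h1
    have h3 : j = i + 1 := by rw [← h2]; ring
    subst h3
    exact ⟨rfl, by rw [h, Equiv.apply_symm_apply]⟩
  · rintro ⟨rfl, h⟩
    rw [← h, Equiv.symm_apply_apply]

/-- the sectors of a corner -/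
theorem cor_node [Finite D] (hP : M.Rgn A δ) {i : ZMod 6} (hc : Cor M δ i) {e : D}
    (he : M.SameNode (δ i) e) (hA : A e) : e = δ i := by
  refine bd_lone hP.bd ?_ he hA
  have h1 : M.nx (δ i) = δ (i + 1) := hc
  rw [fs_symm, h1]
  exact hP.notA _

theorem cor_usum [Fintype D] (hP : M.Rgn A δ) {i : ZMod 6} (hc : Cor M δ i) (ω : D → ℕ) :
    M.usum A ω (δ i) = ω (δ i) := by
  have h1 : M.nodeIn A (δ i) = {δ i} := by
    ext e
    rw [mem_nodeIn, Finset.mem_singleton]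
    constructor
    · rintro ⟨h2, h3⟩
      exact hP.cor_node hc h2 h3
    · rintro rfl
      exact ⟨Equiv.Perm.SameCycle.refl _ _, hP.inA i⟩
  unfold usum
  rw [h1, Finset.sum_singleton]

/-- five consecutive corners: the region is a single hexagon -/
theorem single_of_cor [Fintype D] (hP : M.Rgn A δ) (i : ZMod 6) (h0 : Cor M δ i)
    (h1 : Cor M δ (i + 1)) (h2 : Cor M δ (i + 2)) (h3 : Cor M δ (i + 3)) (h4 : Cor M δ (i + 4)) :
    ∀ e, A e ↔ M.SameSite (δ i) e := by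
  have s1 : ∀ j, Cor M δ j → M.SameSite (δ j) (δ (j + 1)) := fun j hj => ⟨1, by
    rw [zpow_one]; exact hj⟩
  have e2 : i + 1 + 1 = i + 2 := by ring
  have e3 : i + 2 + 1 = i + 3 := by ring
  have e4 : i + 3 + 1 = i + 4 := by ring
  have e5 : i + 4 + 1 = i + 5 := by ring
  have t1 := s1 _ h0
  have t2 := t1.trans (e2 ▸ s1 _ h1)
  have t3 := t2.trans (e3 ▸ s1 _ h2)
  have t4 := t3.trans (e4 ▸ s1 _ h3)
  have t5 := t4.trans (e5 ▸ s1 _ h4)
  have hS : ∀ j, M.SameSite (δ i) (δ j) := by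
    intro j
    have h6 : ∀ k : ZMod 6, k = 0 ∨ k = 1 ∨ k = 2 ∨ k = 3 ∨ k = 4 ∨ k = 5 := by decide
    have h7 : j = i + (j - i) := by ring
    rcases h6 (j - i) with h | h | h | h | h | h <;> rw [h7, h]
    · rw [add_zero]
    · exact t1
    · exact t2
    · exact t3
    · exact t4
    · exact t5
  have hSA : ∀ e, M.SameSite (δ i) e → A e := fun e he =>
    (Sites.same (M := M) hP.bd.site he).1 (hP.inA i)
  -- all darts of the site are ring darts
  have hdeg : M.deg (δ i) = 6 ∧ ∀ e, M.SameSite (δ i) e → ∃ j, δ j = e := by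
    have hc := card_site (M := M) (δ i) (Finset.univ.filter fun e => M.SameSite (δ i) e)
      (fun e => by simp)
    have hsub : (Finset.univ.image δ) ⊆ Finset.univ.filter fun e => M.SameSite (δ i) e := by
      intro e he
      obtain ⟨j, -, rfl⟩ := Finset.mem_image.1 he
      simp only [Finset.mem_filter, Finset.mem_univ, true_and]
      exact hS j
    have hcard : (Finset.univ.image δ).card = 6 := by
      rw [Finset.card_image_of_injective _ hP.bd.inj]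
      rfl
    have hle := Finset.card_le_card hsub
    have h6 : M.deg (δ i) = 6 := by
      rcases hP.legal.deg (δ i) with h | h
      · omega
      · exact h
    refine ⟨h6, fun e he => ?_⟩
    have heq := Finset.eq_of_subset_of_card_le hsub (by omega)
    have : e ∈ Finset.univ.image δ := by
      rw [heq]
      simpa using he
    obtain ⟨j, -, hj⟩ := Finset.mem_image.1 this
    exact ⟨j, hj⟩
  intro e
  refine ⟨fun he => ?_, hSA e⟩
  by_contra hne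
  have hB : M.Sites fun d => A d ∧ ¬ M.SameSite (δ i) d :=
    Sites.and (M := M) hP.bd.site (sites_site (δ i)).not
  refine hP.notA 0 (hP.legal.plane.conn _ hB ?_ ⟨e, he, hne⟩ (M.al (δ 0))).1
  rintro d ⟨hd1, hd2⟩
  have h5 : A (M.al d) := by
    by_contra h5
    obtain ⟨j, hj⟩ := (hP.bd.mem d).1 ⟨hd1, h5⟩
    exact hd2 (hj ▸ hS j)
  refine ⟨h5, fun h6 => ?_⟩
  obtain ⟨j, hj⟩ := hdeg.2 _ h6
  refine hP.notA j ?_
  rw [hj, M.inv]
  exact hd1

/-- the windows at the ring of a region; corner quads are allowed at nodes which do not have one unit -/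
theorem ringW [Fintype D] (hP : M.Rgn A δ) {E : (n : ℕ) → PState n → Prop}
    (hE : Windows E) {u : ZMod 6 → ℕ} {μ : D → D} {ω : D → ℕ}
    (hloc : ∀ d, A d → M.LocalAt E μ ω d) (hb : ∀ i, M.usum A ω (δ i) = u i)
    (h02 : ∀ i, u i ≤ 2)
    (hc : ∀ i, Cor M δ i → M.deg (δ i) = 6 ∨ (u i ≠ 1 ∧ ¬ Cor M δ (i + 1)))
    (hne : ¬ ∃ r, ∀ e, A e ↔ M.SameSite r e) :
    RingW (Cor M δ) u (fun i => ω (δ i)) (fun i => ω (M.nx.symm (δ i)))
      fun i => ∑ e ∈ ((M.nodeIn A (δ i)).erase (δ i)).erase (M.nx.symm (δ (i + 1))), ω e := by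
  have hsplit : ∀ i, ¬ Cor M δ i → u i = ω (δ i) + ω (M.nx.symm (δ (i + 1))) +
      ∑ e ∈ ((M.nodeIn A (δ i)).erase (δ i)).erase (M.nx.symm (δ (i + 1))), ω e := by
    intro i hi
    have hne' : δ i ≠ M.nx.symm (δ (i + 1)) := fun h => hi ((hP.corner_iff i (i + 1)).1 h).2
    have h1 : δ i ∈ M.nodeIn A (δ i) := mem_nodeIn.2 ⟨Equiv.Perm.SameCycle.refl _ _, hP.inA i⟩
    have h2 : M.nx.symm (δ (i + 1)) ∈ (M.nodeIn A (δ i)).erase (δ i) :=
      Finset.mem_erase.2 ⟨hne'.symm, mem_nodeIn.2 ⟨hP.prev_node i, hP.prev_in _⟩⟩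
    rw [← hb i]
    unfold usum
    rw [← Finset.add_sum_erase _ _ h1, ← Finset.add_sum_erase _ _ h2, add_assoc]
  -- the numbering of the site of an edge face
  have hnum : ∀ i, ∃ (m : ℕ) (γ : ZMod m → D) (t : PState m) (a : ZMod m), E m t ∧
      M.deg (δ i) = m ∧ γ a = δ i ∧ (∀ j, M.nx (γ j) = γ (j + 1)) ∧ ∀ j, ω (γ j) = t.u j := by
    intro i
    obtain ⟨m, γ, t, hm, hγ, ⟨a, ha⟩, ht, hst⟩ := hloc _ (hP.inA i)
    exact ⟨m, γ, t, a, ht, by rw [← ha]; exact hγ.deg a, ha, hγ.nx, fun j => (hst j).2⟩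
  have hprev : ∀ {m : ℕ} {γ : ZMod m → D}, (∀ j, M.nx (γ j) = γ (j + 1)) →
      ∀ {a : ZMod m} {d : D}, γ a = d → M.nx.symm d = γ (a - 1) := by
    intro m γ hγ a d ha
    rw [Equiv.symm_apply_eq, hγ, sub_add_cancel, ha]
  have hnext : ∀ {m : ℕ} {γ : ZMod m → D}, (∀ j, M.nx (γ j) = γ (j + 1)) →
      ∀ {a : ZMod m} {i : ZMod 6}, γ a = δ i → Cor M δ i → γ (a + 1) = δ (i + 1) := by
    intro m γ hγ a i ha hi
    rw [← hγ, ha]
    exact hi
  -- corners of quads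
  have hcu : ∀ i, Cor M δ i → ω (δ i) = u i := fun i hi => by rw [← hb i, hP.cor_usum hi]
  have hquad : ∀ i, Cor M δ i → M.deg (δ i) = 4 → u i ≠ 1 ∧ ¬ Cor M δ (i + 1) := by
    intro i hi h4
    rcases hc i hi with h | h
    · omega
    · exact h
  refine ⟨?_, hsplit, ?_, ?_, ?_, ?_, ?_, ?_⟩
  · intro i hi
    have h1 := (hP.corner_iff i (i + 1)).2 ⟨rfl, hi⟩
    refine ⟨hcu _ hi, ?_⟩
    show ω (M.nx.symm (δ (i + 1))) = u i
    rw [← h1]
    exact hcu _ hi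
  · intro i
    obtain ⟨m, γ, t, a, ht, -, ha, hγ, hω⟩ := hnum i
    show 1 ≤ ω (M.nx.symm (δ i)) + ω (δ i)
    rw [← ha, hprev hγ rfl, hω, hω]
    exact hE.adj ht a
  · intro i hi
    obtain ⟨m, γ, t, a, ht, hd, ha, hγ, hω⟩ := hnum i
    have h1 := hnext hγ ha hi
    show 2 ≤ ω (M.nx.symm (δ i)) + u i + ω (δ (i + 1))
    rw [← hcu _ hi, ← h1, ← ha, hprev hγ rfl, hω, hω, hω]
    rcases hE.n ht with rfl | rfl
    · have h2 := hcu _ hi
      have h5 := (hquad _ hi hd).1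
      have h6 := h02 i
      have h3 := hE.adj ht a
      have h4 := hE.adj ht (a + 1)
      rw [add_sub_cancel_right] at h4
      rw [← ha, hω] at h2
      omega
    · exact hE.w2 ht a
  · intro i hi hi1
    obtain ⟨m, γ, t, a, ht, hd, ha, hγ, hω⟩ := hnum i
    rcases hE.n ht with rfl | rfl
    · exact absurd hi1 (hquad _ hi hd).2
    have h1 := hnext hγ ha hi
    have h2 := hnext hγ h1 hi1
    have e2 : i + 1 + 1 = i + 2 := by ring
    have f2 : a + 1 + 1 = a + 2 := by ring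
    rw [e2, f2] at h2
    show 3 ≤ ω (M.nx.symm (δ i)) + u i + u (i + 1) + ω (δ (i + 2))
    rw [← hcu _ hi, ← hcu _ hi1, ← h2, ← h1, ← ha, hprev hγ rfl, hω, hω, hω, hω]
    exact hE.w3 ht a
  · intro i hi hi1 hi2
    obtain ⟨m, γ, t, a, ht, hd, ha, hγ, hω⟩ := hnum i
    rcases hE.n ht with rfl | rfl
    · exact absurd hi1 (hquad _ hi hd).2
    have h1 := hnext hγ ha hi
    have h2 := hnext hγ h1 hi1
    have e2 : i + 1 + 1 = i + 2 := by ring
    have f2 : a + 1 + 1 = a + 2 := by ring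
    rw [e2, f2] at h2
    have h3 := hnext hγ h2 hi2
    have e3 : i + 2 + 1 = i + 3 := by ring
    have f3 : a + 2 + 1 = a + 3 := by ring
    rw [e3, f3] at h3
    show 4 ≤ ω (M.nx.symm (δ i)) + u i + u (i + 1) + u (i + 2) + ω (δ (i + 3))
    rw [← hcu _ hi, ← hcu _ hi1, ← hcu _ hi2, ← h3, ← h2, ← h1, ← ha, hprev hγ rfl, hω, hω, hω,
      hω, hω]
    exact hE.w4 ht a
  · intro i hi hi1 hi2 hi3
    obtain ⟨m, γ, t, a, ht, hd, ha, hγ, hω⟩ := hnum i
    rcases hE.n ht with rfl | rfl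
    · exact absurd hi1 (hquad _ hi hd).2
    have h1 := hnext hγ ha hi
    have h2 := hnext hγ h1 hi1
    have e2 : i + 1 + 1 = i + 2 := by ring
    have f2 : a + 1 + 1 = a + 2 := by ring
    rw [e2, f2] at h2
    have h3 := hnext hγ h2 hi2
    have e3 : i + 2 + 1 = i + 3 := by ring
    have f3 : a + 2 + 1 = a + 3 := by ring
    rw [e3, f3] at h3
    have h4 := hnext hγ h3 hi3
    have e4 : i + 3 + 1 = i + 4 := by ring
    have f4 : a + 3 + 1 = a + 4 := by ring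
    rw [e4, f4] at h4
    show 5 ≤ ω (M.nx.symm (δ i)) + u i + u (i + 1) + u (i + 2) + u (i + 3) + ω (δ (i + 4))
    rw [← hcu _ hi, ← hcu _ hi1, ← hcu _ hi2, ← hcu _ hi3, ← h4, ← h3, ← h2, ← h1, ← ha,
      hprev hγ rfl, hω, hω, hω, hω, hω, hω]
    exact hE.w5 ht a
  · intro i hi hi1 hi2 hi3 hi4
    exact hne ⟨_, hP.single_of_cor _ hi hi1 hi2 hi3 hi4⟩

/-- **Ring exactness of regions.** -/
theorem ring_exactN [Fintype D] (hP : M.Rgn A δ) {E : (n : ℕ) → PState n → Prop}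
    (hE : Windows E) {u : ZMod 6 → ℕ} {μ : D → D} {ω : D → ℕ}
    (hloc : ∀ d, A d → M.LocalAt E μ ω d) (hb : ∀ i, M.usum A ω (δ i) = u i)
    {o : ZMod 6 → ℕ} (ho : ∀ i, u i + o (i + 1) = o i + 1) (ho1 : ∀ i, o i ≤ 1)
    (hc : ∀ i, Cor M δ i → M.deg (δ i) = 6 ∨ (u i ≠ 1 ∧ ¬ Cor M δ (i + 1)))
    (hne : ¬ ∃ r, ∀ e, A e ↔ M.SameSite r e) :
    ∃ o' : ZMod 6 → ℕ, (∀ i, o' i ≤ 1) ∧ (∀ i, u i + o' (i + 1) = o' i + 1) ∧
      ((∃ i, u i = 0) → o' = o) ∧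
      (∀ i e, M.SameNode (δ i) e → A e → e ≠ δ i → e ≠ M.nx.symm (δ (i + 1)) → ω e = 0) ∧
      ∀ i, ¬ Cor M δ i → ω (δ i) = o' i ∧ ω (M.nx.symm (δ (i + 1))) + o' (i + 1) = 1 := by
  have h02 : ∀ i, u i ≤ 2 := fun i => by
    have := ho i
    have := ho1 i
    omega
  have hW := hP.ringW hE hloc hb h02 hc hne
  have hex : ∃ i, ¬ Cor M δ i := by
    by_contra hno
    push Not at hno
    exact hne ⟨_, hP.single_of_cor 0 (hno _) (hno _) (hno _) (hno _) (hno _)⟩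
  obtain ⟨o', h1, h2, h3, h4⟩ := hW.exact ho ho1 hex
  refine ⟨o', h1, h2, h3, fun i e h6 h7 h8 h9 => ?_, fun i hi => (h4 i hi).2⟩
  by_cases hi : Cor M δ i
  · exact absurd (hP.cor_node hi h6 h7) h8
  · exact Finset.sum_eq_zero_iff.1 (h4 i hi).1 e
      (Finset.mem_erase.2 ⟨h9, Finset.mem_erase.2 ⟨h8, mem_nodeIn.2 ⟨h6, h7⟩⟩⟩)

end Rgn

/-- **Ring exactness of regions of objects.** -/
theorem Rgn.exact [Fintype D] {H : D → Prop} {δ₀ ε : ZMod 6 → D} {β : (ZMod 6 → D) → Rel} {F : Flags}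
    (hP : M.Rgn H ε) (hn : ∀ γ G t, M.SiteNum 6 γ → H (γ 0) → β γ G t → Nice t)
    {s : PState 6} {μ : D → D} {ω : D → ℕ} (h : M.RealL (M.OL δ₀ β F) H ε s μ ω)
    {o : ZMod 6 → ℕ} (ho : ∀ i, s.u i + o (i + 1) = o i + 1) (ho1 : ∀ i, o i ≤ 1)
    (hc : ∀ i, Cor M ε i → M.deg (ε i) = 6 ∨ (s.u i ≠ 1 ∧ ¬ Cor M ε (i + 1)))
    (hne : ¬ ∃ r, ∀ e, H e ↔ M.SameSite r e) :
    ∃ o' : ZMod 6 → ℕ, (∀ i, o' i ≤ 1) ∧ (∀ i, s.u i + o' (i + 1) = o' i + 1) ∧
      ((∃ i, s.u i = 0) → o' = o) ∧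
      (∀ i e, M.SameNode (ε i) e → H e → e ≠ ε i → e ≠ M.nx.symm (ε (i + 1)) → ω e = 0) ∧
      ∀ i, ¬ Cor M ε i → ω (ε i) = o' i ∧ ω (M.nx.symm (ε (i + 1))) + o' (i + 1) = 1 := by
  refine hP.ring_exactN (μ := μ) windows_EN (fun d hd => ?_) h.bdry ho ho1 hc hne
  obtain ⟨m, γ, t, hm, hγ, ⟨a, ha⟩, ht, hst⟩ := h.loc d hd
  refine ⟨m, γ, t, hm, hγ, ⟨a, ha⟩, ?_, hst⟩
  rcases OL_n ht with rfl | rfl
  · exact QS.ee ht
  · exact hn γ _ t hγ ((Sites.same (M := M) hP.bd.site (hγ.same (by decide) a 0)).1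
      (by rw [ha]; exact hd)) ht

end DMap

end GT33
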