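import Pool.Agent.GT33.PartA

/-!
# GT33 module GENF: critical sets of sites

`ofF M F B`: the boundary darts of `B` which leave a ring node directly after a folded sector.  Under the fold a set of
sites `B` loses two boundary darts for each of them.  `TrivF M A F`: the sets with six boundary darts which lose
boundary darts (the critical sets) are one site or two quads.  `Pre M A δ F`: `F` is an initial segment of the fold
sectors at each ring node, the critical sets are trivial and all hexagon sites are folded.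
`Gen.cutF_conn`: a connected set of sites with at most four boundary darts after the fold is one site or two quads.
`Gen.share_sat`: common edges of quads and other sites.
-/

open Classical

namespace GT33

namespace DMap

variable {D : Type} {M : DMap D} {A : D → Prop} {δ : ZMod 6 → D} {F : D → Prop}

open Patch

/-- the boundary darts which leave a ring node after a folded sector -/
noncomputable def ofF [Fintype D] (M : DMap D) (F : D → Prop) (B : D → Prop) : Finset D :=
  Finset.univ.filter fun d => BD M B d ∧ F (M.nx.symm d)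

theorem mem_ofF [Fintype D] {B : D → Prop} {d : D} :
    d ∈ ofF M F B ↔ BD M B d ∧ F (M.nx.symm d) := by
  simp [ofF]

/-- critical sets of sites are one site or two quads -/
def TrivF (M : DMap D) (A : D → Prop) (F : D → Prop) : Prop :=
  ∀ B : D → Prop, M.Sites B → (∀ d, B d → A d) → (∃ d, A d ∧ ¬ B d) → M.cut B = 6 →
    (∃ o, BD M B o ∧ F (M.nx.symm o)) → Small M B

/-- initial segments of the fold sectors at the ring nodes such that the critical sets are trivial and all
hexagons are folded -/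
structure Pre (M : DMap D) (A : D → Prop) (δ : ZMod 6 → D) (F : D → Prop) : Prop where
  fs : ∀ e, F e → FS M A δ e
  pre : ∀ e, F e → FS M A δ (M.fs e) → F (M.fs e)
  triv : TrivF M A F
  hex : ∀ d, A d → M.deg d = 6 → ∃ e, M.SameSite d e ∧ F e

/-- subsets of one site or two quads -/
theorem Small.mono {B Z : D → Prop} (h : Small M B) (hZ : M.Sites Z) (hne : ∃ d, Z d)
    (hs : ∀ d, Z d → B d) : Small M Z := by
  obtain ⟨z, hz⟩ := hne
  rcases h with ⟨q, hq⟩ | ⟨p, q, hp, hq, hpq⟩
  · left
    have h1 := (hq z).1 (hs z hz)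
    exact ⟨q, fun e => ⟨fun he => (hq e).1 (hs e he), fun he =>
      (hZ.same (h1.symm.trans he)).1 hz⟩⟩
  · by_cases h1 : Z p
    · by_cases h2 : Z q
      · right
        refine ⟨p, q, hp, hq, fun x => ⟨fun hx => (hpq x).1 (hs x hx), ?_⟩⟩
        rintro (hx | hx)
        · exact (hZ.same hx).1 h1
        · exact (hZ.same hx).1 h2
      · left
        refine ⟨p, fun x => ⟨fun hx => ?_, fun hx => (hZ.same hx).1 h1⟩⟩
        rcases (hpq x).1 (hs x hx) with h3 | h3
        · exact h3
        · exact absurd ((hZ.same h3).2 hx) h2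
    · left
      have h2 : Z q := by
        rcases (hpq z).1 (hs z hz) with h3 | h3
        · exact absurd ((hZ.same h3).2 hz) h1
        · exact (hZ.same h3).2 hz
      refine ⟨q, fun x => ⟨fun hx => ?_, fun hx => (hZ.same hx).1 h2⟩⟩
      rcases (hpq x).1 (hs x hx) with h3 | h3
      · exact absurd ((hZ.same h3).2 hx) h1
      · exact h3

/-- a path on the boundary of a set of sites -/
theorem arc_iter [Finite D] {B : D → Prop} (hB : M.Sites B) {o : D} (ho : BD M B o) {i j : ZMod 6}
    (hi : M.SameNode (δ i) (M.al o)) (n : ℕ) (hj : M.SameNode (δ j) ((bn M B)^[n] o)) :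
    Arc M δ ((List.range (n + 1)).map fun k => (bn M B)^[k] o) i j := by
  have hbd : ∀ k, BD M B ((bn M B)^[k] o) := by
    intro k
    induction k with
    | zero => exact ho
    | succ k ih =>
      rw [Function.iterate_succ', Function.comp_apply]
      exact bn_bd hB ih
  intro w hw
  have key : ∀ m : ℕ, (((List.range (m + 1)).map fun k => (bn M B)^[k] o).map
      fun x => w x + w (M.al x)).sum = w (M.al o) + w ((bn M B)^[m] o) := by
    intro m
    induction m with
    | zero => simp [add_comm]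
    | succ m ih =>
      rw [List.range_succ, List.map_append, List.map_append, List.sum_append, ih]
      simp only [List.map_cons, List.map_nil, List.sum_cons, List.sum_nil, add_zero]
      have h1 : M.SameNode ((bn M B)^[m] o) (M.al ((bn M B)^[m + 1] o)) := by
        rw [Function.iterate_succ', Function.comp_apply]
        exact (bn_node hB (hbd m)).trans (nx_symm_node _).symm
      have h2 := node_fun hw h1
      rw [← h2]
      linear_combination dcyc_char (w ((bn M B)^[m] o))
  rw [key, ← node_fun hw hi, ← node_fun hw hj]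

namespace Gen

variable [Fintype D] (hG : M.Gen A δ)

include hG

/-- the region which is cut off by the boundary path of a radial boundary dart -/
theorem exists_cutoff {Z : D → Prop} (hZ : M.Sites Z) (hZA : ∀ d, Z d → A d) {o : D}
    (ho : BD M Z o) (hr : Ring M δ (M.nx.symm o)) (hno : ¬ Ring M δ o) :
    ∃ T, Region M A δ Z T ∧ ¬ (T o ↔ T (M.al o)) ∧
      (∀ d, BD M Z d → Ring M δ (M.nx.symm d) → Inn M A d → ¬ (T d ↔ T (M.al d)) → d = o) ∧
      ∃ g, ∀ d, BD M Z d → Ring M δ d → Inn M A d → ¬ (T d ↔ T (M.al d)) → d = g := by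
  have hbd : ∀ k, BD M Z ((bn M Z)^[k] o) := by
    intro k
    induction k with
    | zero => exact ho
    | succ k ih =>
      rw [Function.iterate_succ', Function.comp_apply]
      exact bn_bd hZ ih
  -- the boundary path returns to the ring
  have hex : ∃ n, Ring M δ ((bn M Z)^[n] o) := by
    obtain ⟨a, b, hab, h⟩ := Finite.exists_ne_map_eq_of_infinite fun k : ℕ => (bn M Z)^[k] o
    wlog hlt : a < b generalizing a b
    · exact this b a hab.symm h.symm (by omega)
    have key : ∀ a b : ℕ, a < b → (bn M Z)^[a] o = (bn M Z)^[b] o →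
        ∃ p, (bn M Z)^[p + 1] o = o := by
      intro a
      induction a with
      | zero =>
        intro b hb h1
        exact ⟨b - 1, by rw [Nat.sub_add_cancel hb]; exact h1.symm⟩
      | succ a ih =>
        intro b hb h1
        obtain ⟨c, rfl⟩ : ∃ c, b = c + 1 := ⟨b - 1, by omega⟩
        rw [Function.iterate_succ', Function.comp_apply, Function.iterate_succ',
          Function.comp_apply] at h1
        exact ih c (by omega) (bn_inj hZ (hbd a) (hbd c) h1)
    obtain ⟨p, hp⟩ := key a b hlt h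
    refine ⟨p, ?_⟩
    rw [Function.iterate_succ', Function.comp_apply] at hp
    have h1 := bn_node hZ (hbd p)
    rw [hp] at h1
    exact ring_same h1.symm hr
  classical
  let n := Nat.find hex
  have hn : Ring M δ ((bn M Z)^[n] o) := Nat.find_spec hex
  have hmin : ∀ k, k < n → ¬ Ring M δ ((bn M Z)^[k] o) := fun k hk => Nat.find_min hex hk
  obtain ⟨j, hj⟩ := hn
  obtain ⟨i, hi⟩ := (ring_al o).2 hr
  have ha := arc_iter (δ := δ) hZ ho hi n hj
  set L := (List.range (n + 1)).map fun k => (bn M Z)^[k] o with hL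
  have hLb : ∀ x ∈ L, BD M Z x := by
    intro x hx
    obtain ⟨k, -, rfl⟩ := List.mem_map.1 hx
    exact hbd k
  have hrad : ∀ x ∈ L, Ring M δ (M.nx.symm x) → x = o := by
    intro x hx hxr
    obtain ⟨k, hk, rfl⟩ := List.mem_map.1 hx
    rcases Nat.eq_zero_or_pos k with rfl | hk0
    · rfl
    · obtain ⟨m, rfl⟩ : ∃ m, k = m + 1 := ⟨k - 1, by omega⟩
      exfalso
      rw [Function.iterate_succ', Function.comp_apply] at hxr
      refine hmin m ?_ (ring_same (bn_node hZ (hbd m)).symm hxr)
      have := List.mem_range.1 hk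
      omega
  obtain ⟨T, hT, hTA, hT1, -⟩ := hG.toPatch.exists_arc ha
  have hi0 : Inn M A o := hG.inn_of (hZA _ ho.1) (Or.inl hno)
  -- the number of times the path uses the dart `o`
  have hLc : L = o :: (List.range n).map fun k => (bn M Z)^[k + 1] o := by
    rw [hL, List.range_succ_eq_map, List.map_cons, List.map_map]
    rfl
  have hw : wcnt M L o = 1 := by
    rw [hLc, wcnt_cons, ind_true rfl, ind_false fun h => M.ne _ h.symm]
    have h1 : wcnt M ((List.range n).map fun k => (bn M Z)^[k + 1] o) o = 0 := by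
      by_contra h
      rcases wcnt_mem h with h2 | h2
      · obtain ⟨k, hk, h3⟩ := List.mem_map.1 h2
        refine hmin k (List.mem_range.1 hk) ?_
        have h4 := bn_node hZ (hbd k)
        rw [Function.iterate_succ', Function.comp_apply] at h3
        rw [h3] at h4
        exact ring_same h4.symm hr
      · obtain ⟨k, hk, h3⟩ := List.mem_map.1 h2
        have h4 := hbd (k + 1)
        rw [h3] at h4
        exact ho.2 h4.1
    rw [h1]
    decide
  have h2 : ¬ (T o ↔ T (M.al o)) := by
    rw [← ind_add', hT1 o hi0.1 hi0.2, hw]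
  have hmem : ∀ x, Inn M A x → ¬ (T x ↔ T (M.al x)) → x ∈ L ∨ M.al x ∈ L := by
    intro x hx hxT
    have h3 : wcnt M L x ≠ 0 := by
      rw [← hT1 x hx.1 hx.2]
      rw [← ind_add'] at hxT
      rw [hxT]
      decide
    exact wcnt_mem h3
  refine ⟨T, ⟨hT, hTA, fun ht => ?_, fun x hx hxT => ?_, M.al o, inn_al.2 hi0, ?_,
    (ring_al o).2 hr⟩, h2, fun d hd hdr hdi hdT => ?_, (bn M Z)^[n] o, fun d hd hdr hdi hdT => ?_⟩
  · have h3 := hG.wcnt_zero hTA ht hT1 hi0.1 hi0.2
    rw [hw] at h3
    revert h3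
    decide
  · rcases hmem x hx hxT with h4 | h4
    · exact fun h => (hLb x h4).2 (h.1 (hLb x h4).1)
    · have h5 := hLb _ h4
      unfold BD at h5
      rw [M.inv] at h5
      exact fun h => h5.2 (h.2 h5.1)
  · rw [M.inv]
    exact fun h => h2 h.symm
  · rcases hmem d hdi hdT with h4 | h4
    · exact hrad d h4 hdr
    · exact absurd (hLb _ h4).1 hd.2
  · rcases hmem d hdi hdT with h4 | h4
    · obtain ⟨k, hk, rfl⟩ := List.mem_map.1 h4
      have h5 := List.mem_range.1 hk
      have h6 : ¬ k < n := fun h => hmin k h hdr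
      have h7 : k = n := by omega
      rw [h7]
    · exact absurd (hLb _ h4).1 hd.2

/-- a connected set together with a region which is disjoint from it is connected -/
theorem conn_region {Z T : D → Prop} (hZ : M.Sites Z) (hZA : ∀ d, Z d → A d) (hne : ∃ d, Z d)
    (hconn : ConnS M Z) (hT : Region M A δ Z T) : ConnS M fun x => Z x ∨ T x := by
  have key : ∀ W : D → Prop, M.Sites W → (∀ d, W d → Z d ∨ T d) → (∃ d, W d) →
      (∀ d, W d → (Z (M.al d) ∨ T (M.al d)) → W (M.al d)) → ∃ d, W d ∧ Z d := by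
    intro W hW hWs ⟨w, hw⟩ hcl
    by_contra hno
    push Not at hno
    have hWT : ∀ d, W d → T d := fun d hd => (hWs d hd).resolve_left (hno d hd)
    have h0 : rcut M A W = 0 := by
      unfold rcut
      rw [Nat.card_eq_zero]
      left
      refine ⟨fun x => ?_⟩
      obtain ⟨d, ⟨h1, h2⟩, h3, h4⟩ := x
      by_cases h5 : T (M.al d)
      · exact h2 (hcl d h1 (Or.inr h5))
      · have h6 := hT.bd d ⟨h3, h4⟩ fun h => h5 (h.1 (hWT d h1))
        refine h2 (hcl d h1 (Or.inl ?_))
        by_contra h7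
        exact h6 (iff_of_false (hno d h1) h7)
    rcases hG.r1 hW (fun d hd => hT.sub d (hWT d hd)) (by omega) with h1 | h1
    · exact h1 w hw
    · obtain ⟨z, hz⟩ := hne
      exact hno z (h1 z (hZA z hz)) hz
  intro U hU hUs hUn hcl
  have hZU : ∀ d, Z d → U d := by
    intro d hd
    refine (hconn (fun d => U d ∧ Z d) (hU.and hZ) (fun d hd => hd.2) (key U hU hUs hUn hcl)
      (fun x hx hx' => ⟨hcl x hx.1 (Or.inl hx'), hx'⟩) d hd).1
  intro d hd
  by_contra hdU
  obtain ⟨z, ⟨-, hz1⟩, hz2⟩ := key (fun d => (Z d ∨ T d) ∧ ¬ U d)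
    (Sites.and (hZ.or hT.sites) (fun d => not_congr (hU d))) (fun d hd => hd.1) ⟨d, hd, hdU⟩
    (fun x hx hx' => ⟨hx', fun h => hx.2 (by
      have := hcl _ h
      rw [M.inv] at this
      exact this hx.1)⟩)
  exact hz1 (hZU z hz2)

/-- **Connected sets with few boundary darts after the fold** are one site or two quads. -/
theorem cutF_conn (hF : Pre M A δ F) (m : ℕ) :
    ∀ Z : D → Prop, (Finset.univ.filter fun d => ¬ Z d).card = m →
      M.Sites Z → (∀ d, Z d → A d) → (∃ d, Z d) → ConnS M Z →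
      M.cut Z ≤ 4 + 2 * (ofF M F Z).card → Small M Z := by
  induction m using Nat.strong_induction_on with
  | _ m ih =>
  intro Z hm hZ hZA hne hconn hc
  have hofr : ∀ {B : D → Prop} {d}, (∀ d, B d → A d) → d ∈ ofF M F B →
      BD M B d ∧ Ring M δ (M.nx.symm d) ∧ ¬ Ring M δ d ∧ Inn M A d := by
    intro B d hBA hd
    rw [mem_ofF] at hd
    have h1 := hF.fs _ hd.2
    have h2 := hG.fs1 h1
    rw [Equiv.apply_symm_apply] at h2
    exact ⟨hd.1, h1.2.1, h2, hG.inn_of (hBA _ hd.1.1) (Or.inl h2)⟩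
  by_cases hex : ∃ o, BD M Z o ∧ Ring M δ (M.nx.symm o) ∧ ¬ Ring M δ o
  · obtain ⟨o, ho, hor, hno⟩ := hex
    have hoi : Inn M A o := hG.inn_of (hZA _ ho.1) (Or.inl hno)
    obtain ⟨T₀, hT₀, hT₀o, hT₀u, -⟩ := hG.exists_cutoff hZ hZA ho hor hno
    -- a region outside of `Z`
    obtain ⟨T, hT', hTo, hTu, hTZ⟩ : ∃ T, Region M A δ Z T ∧ ¬ (T o ↔ T (M.al o)) ∧
        (∀ d, BD M Z d → Ring M δ (M.nx.symm d) → Inn M A d → ¬ (T d ↔ T (M.al d)) → d = o) ∧
        ∀ d, T d → ¬ Z d := by
      rcases hconn.region hZ hZA hT₀ with h | h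
      · have h1 : ∀ x, Inn M A x → (¬ ((A x ∧ ¬ T₀ x) ↔ (A (M.al x) ∧ ¬ T₀ (M.al x))) ↔
            ¬ (T₀ x ↔ T₀ (M.al x))) := fun x hx => by
          have h2 := hx.1
          have h3 := hx.2
          tauto
        exact ⟨fun d => A d ∧ ¬ T₀ d, hT₀.compl hG.toPatch, (h1 o hoi).2 hT₀o,
          fun d hd hdr hdi h2 => hT₀u d hd hdr hdi ((h1 d hdi).1 h2), fun d hd hdZ => hd.2 (h d hdZ)⟩
      · exact ⟨T₀, hT₀, hT₀o, hT₀u, h⟩
    have hTo' : T (M.al o) := by
      by_contra h1
      exact hTo (iff_of_false (fun h2 => hTZ o h2 ho.1) h1)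
    -- the complement of the region
    have hBs := hG.toPatch.sites_compl hT'.sites
    have hBA : ∀ d, (A d ∧ ¬ T d) → A d := fun d h => h.1
    have hZB : ∀ d, Z d → (A d ∧ ¬ T d) := fun d h => ⟨hZA d h, fun h1 => hTZ d h1 h⟩
    have hBp : ∃ d, A d ∧ ¬ (A d ∧ ¬ T d) := ⟨M.al o, hoi.2, fun h => h.2 hTo'⟩
    have c1 := hG.toPatch.cut_eq hBA
    rw [Patch.rcut_compl] at c1
    have c2 := hG.toPatch.scut_compl T
    have c3 := hG.ge4 hBs hBA (by obtain ⟨z, hz⟩ := hne; exact ⟨z, hZB z hz⟩)
    obtain ⟨k, hk⟩ := hG.legal.cut_even hBs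
    by_cases hB4 : M.cut (fun d => A d ∧ ¬ T d) = 4
    · obtain ⟨q, -, hq⟩ := hG.four hBs hBA hBp hB4
      exact Small.mono (Or.inl ⟨q, hq⟩) hZ hne hZB
    by_cases hB6 : M.cut (fun d => A d ∧ ¬ T d) = 6 ∧ F (M.nx.symm o)
    · exact (hF.triv _ hBs hBA hBp hB6.1 ⟨o, ⟨hZB o ho.1, fun h => h.2 hTo'⟩, hB6.2⟩).mono hZ hne hZB
    -- add the region
    have e0 := card_add hG.toPatch (Q := fun _ => True) hT'.sub hTZ hT'.bd fun _ => Iff.rfl
    have e1 : cnt (fun d => BD M (fun x => Z x ∨ T x) d ∧ True) = M.cut fun x => Z x ∨ T x := by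
      rw [cut_card, ← cnt_eq]
      exact cnt_congr fun d => ⟨fun h => h.1, fun h => ⟨h, trivial⟩⟩
    have e2 : cnt (fun d => BD M Z d ∧ True) = M.cut Z := by
      rw [cut_card, ← cnt_eq]
      exact cnt_congr fun d => ⟨fun h => h.1, fun h => ⟨h, trivial⟩⟩
    have e3 : cnt (fun y => (BD M T y ∧ Inn M A y) ∧ True) = rcut M A T := by
      rw [cnt_eq]
      unfold rcut
      rw [Nat.card_eq_fintype_card, Fintype.card_subtype]
      congr 1
      ext d
      simp only [Finset.mem_filter, Finset.mem_univ, true_and, and_true]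
      exact Iff.rfl
    rw [e1, e2, e3] at e0
    have hsub : (ofF M F Z).erase o ⊆ ofF M F fun x => Z x ∨ T x := by
      intro d hd
      obtain ⟨hd1, hd2⟩ := Finset.mem_erase.1 hd
      obtain ⟨h1, h2, h3, h4⟩ := hofr hZA hd2
      rw [mem_ofF]
      refine ⟨⟨Or.inl h1.1, fun h5 => ?_⟩, (mem_ofF.1 hd2).2⟩
      rcases h5 with h5 | h5
      · exact h1.2 h5
      · exact hd1 (hTu d h1 h2 h4 fun h6 => hTZ d (h6.2 h5) h1.1)
    have hcard := Finset.card_le_card hsub
    have hc1 : (ofF M F Z).card ≤ ((ofF M F Z).erase o).card + if F (M.nx.symm o) then 1 else 0 := by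
      by_cases h1 : F (M.nx.symm o)
      · rw [if_pos h1, Finset.card_erase_of_mem (mem_ofF.2 ⟨ho, h1⟩)]
        omega
      · rw [if_neg h1, Finset.erase_eq_of_notMem fun h2 => h1 (mem_ofF.1 h2).2]
        omega
    have hlt : (Finset.univ.filter fun d => ¬ (Z d ∨ T d)).card < m := by
      rw [← hm]
      refine Finset.card_lt_card ?_
      rw [Finset.ssubset_iff_of_subset]
      · exact ⟨M.al o, by simp [hTZ _ hTo'], by simp [hTo']⟩
      · intro y hy
        simp only [Finset.mem_filter, Finset.mem_univ, true_and] at hy ⊢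
        exact fun h1 => hy (Or.inl h1)
    have hUA : ∀ d, (Z d ∨ T d) → A d := fun d h => h.elim (hZA d) (hT'.sub d)
    have hUn : ∃ d, Z d ∨ T d := by obtain ⟨z, hz⟩ := hne; exact ⟨z, Or.inl hz⟩
    have hUs : M.Sites fun x => Z x ∨ T x := hZ.or hT'.sites
    obtain ⟨l, hl⟩ := hG.legal.cut_even hZ
    refine (ih _ hlt (fun x => Z x ∨ T x) (by congr!) hUs hUA hUn
      (hG.conn_region hZ hZA hne hconn hT') ?_).mono hZ hne fun d h => Or.inl h
    by_cases h1 : F (M.nx.symm o)
    · rw [if_pos h1] at hc1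
      have h2 : M.cut (fun d => A d ∧ ¬ T d) ≠ 6 := fun h => hB6 ⟨h, h1⟩
      omega
    · rw [if_neg h1] at hc1
      omega
  · -- no radial boundary darts
    have h0 : (ofF M F Z).card = 0 := by
      rw [Finset.card_eq_zero, Finset.eq_empty_iff_forall_notMem]
      intro d hd
      obtain ⟨h1, h2, h3, -⟩ := hofr hZA hd
      exact hex ⟨d, h1, h2, h3⟩
    have h4 := hG.ge4 hZ hZA hne
    by_cases hA : ∃ d, A d ∧ ¬ Z d
    · obtain ⟨q, -, hq⟩ := hG.four hZ hZA hA (by omega)
      exact Or.inl ⟨q, hq⟩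
    · exfalso
      push Not at hA
      have h5 : M.cut Z = 6 := by
        rw [← hG.toPatch.cut]
        exact cut_congr fun d => ⟨hZA d, hA d⟩
      omega

/-- a set of sites at the ring with few boundary darts has a boundary dart which leaves the ring -/
theorem exists_rad {Z : D → Prop} (hZ : M.Sites Z) (hZA : ∀ d, Z d → A d)
    (hr : ∃ d, Z d ∧ Ring M δ d) (hA : ∃ d, A d ∧ ¬ Z d) (hc : M.cut Z ≤ 8) :
    ∃ o, BD M Z o ∧ FS M A δ (M.nx.symm o) := by
  by_contra hno
  push Not at hno
  have step : ∀ (m : ℕ) (k : ZMod 6) (d : D), Z d → M.SameNode (δ k) d →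
      (M.fs ^ m) (M.nx.symm (δ (k + 1))) = d → Z (δ (k + 1)) := by
    intro m
    induction m with
    | zero =>
      intro k d hd _ hm
      have h1 : M.nx.symm (δ (k + 1)) = d := by simpa using hm
      rw [← h1] at hd
      exact (hZ.symm _).1 hd
    | succ m ih =>
      intro k d hd hn hm
      by_cases h1 : FS M A δ d
      · have h2 : Z (M.nx d) := (hZ d).2 hd
        have h3 : Z (M.al (M.nx d)) := by
          by_contra h3
          exact hno (M.nx d) ⟨h2, h3⟩ (by rwa [Equiv.symm_apply_apply])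
        refine ih k (M.al (M.nx d)) h3 (hn.trans (al_node d).symm) ?_
        apply M.fs.injective
        rw [fs_al, Equiv.symm_apply_apply, ← hm, add_comm m 1, pow_add, pow_one,
          Equiv.Perm.mul_apply]
      · have h2 : ∃ i, d = M.nx.symm (δ i) := by
          by_contra h3
          push Not at h3
          exact h1 ⟨hZA d hd, ⟨k, hn⟩, h3⟩
        obtain ⟨i, hi⟩ := h2
        have h3 := hG.toPatch.prev_node (i - 1)
        rw [sub_add_cancel, ← hi] at h3
        have h4 := hG.node_idx (h3.trans hn.symm)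
        rw [hi] at hd
        rw [← h4, sub_add_cancel]
        exact (hZ.symm _).1 hd
  have step' : ∀ k : ZMod 6, (∃ d, Z d ∧ M.SameNode (δ k) d) → Z (δ (k + 1)) := by
    rintro k ⟨d, hd, hn⟩
    obtain ⟨m, hm⟩ := ((hG.toPatch.prev_node k).symm.trans hn).exists_nat_pow_eq
    exact step m k d hd hn hm
  obtain ⟨d, hd, k, hk⟩ := hr
  have hall : ∀ n : ℕ, Z (δ (k + 1 + (n : ZMod 6))) := by
    intro n
    induction n with
    | zero =>
      rw [Nat.cast_zero, add_zero]
      exact step' k ⟨d, hd, hk⟩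
    | succ n ih =>
      have h1 := step' _ ⟨_, ih, Equiv.Perm.SameCycle.refl _ _⟩
      rw [Nat.cast_succ, ← add_assoc]
      exact h1
  have hall' : ∀ j, Z (δ j) := by
    intro j
    have h1 := hall (ZMod.val (j - (k + 1)))
    rw [ZMod.natCast_zmod_val] at h1
    have h2 : k + 1 + (j - (k + 1)) = j := by ring
    rwa [h2] at h1
  have c1 := hG.toPatch.cut_eq hZA
  have c2 : scut δ Z = 6 := by
    unfold scut
    rw [Finset.filter_true_of_mem fun j _ => hall' j, Finset.card_univ, ZMod.card]
  rcases hG.r2 hZ hZA (by omega) with h1 | h1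
  · exact h1 d hd
  · obtain ⟨a, ha, ha'⟩ := hA
    exact ha' (h1 a ha)

/-- a set of sites at the ring whose fold sectors are all folded is critical -/
theorem crit_of_sat {Z : D → Prop} (hZ : M.Sites Z) (hZA : ∀ d, Z d → A d)
    (hr : ∃ d, Z d ∧ Ring M δ d) (hA : ∃ d, A d ∧ ¬ Z d) (hc : M.cut Z ≤ 8)
    (hs : ∀ d, Z d → FS M A δ d → F d) : ∃ o, BD M Z o ∧ F (M.nx.symm o) := by
  obtain ⟨o, ho, h⟩ := hG.exists_rad hZ hZA hr hA hc
  exact ⟨o, ho, hs _ ((hZ.symm o).2 ho.1) h⟩

/-- **A quad whose fold sector is folded** has at most one common edge with another site. -/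
theorem share_sat (hF : Pre M A δ F) {p s x y : D} (h4 : M.deg p = 4) (hp : A p) (hs : A s)
    (hsat : ∀ e, FS M A δ e → M.SameSite p e → F e)
    (hx : M.SameSite p x) (hy : M.SameSite p y) (hx' : M.SameSite s (M.al x))
    (hy' : M.SameSite s (M.al y)) : x = y := by
  by_contra hxy
  have hne : ¬ M.SameSite p s := fun h => hG.nl x ((hx.symm.trans h).trans hx')
  have hk : 1 < (Finset.univ.filter fun x => M.SameSite p x ∧ M.SameSite s (M.al x)).card := by
    rw [Finset.one_lt_card]
    exact ⟨x, Finset.mem_filter.2 ⟨Finset.mem_univ _, hx, hx'⟩, y,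
      Finset.mem_filter.2 ⟨Finset.mem_univ _, hy, hy'⟩, hxy⟩
  have h5 := hG.share hp hs hne
  have h6 := cut_two hG.legal hne
  have hds : M.deg s = 6 := by
    rcases hG.deg46 s with h | h <;> omega
  have hC : M.Sites fun x => M.SameSite p x ∨ M.SameSite s x :=
    (M.sites_site p).or (M.sites_site s)
  have hCA : ∀ x, M.SameSite p x ∨ M.SameSite s x → A x := by
    rintro x (h | h)
    · exact (hG.toPatch.sites.same h).1 hp
    · exact (hG.toPatch.sites.same h).1 hs
  have hcut : M.cut (fun x => M.SameSite p x ∨ M.SameSite s x) = 6 := by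
    have h7 := hG.legal.cut_even hC
    have h8 := hG.ge4 hC hCA ⟨p, Or.inl (Equiv.Perm.SameCycle.refl _ _)⟩
    omega
  obtain ⟨f, hf, hf'⟩ := hF.hex s hs hds
  by_cases hex : ∃ d, A d ∧ ¬ (M.SameSite p d ∨ M.SameSite s d)
  · rcases hF.triv _ hC hCA hex hcut (hG.crit_of_sat hC hCA ⟨f, Or.inr hf, (hF.fs f hf').2.1⟩ hex
      (by omega) (by
        rintro d (h | h) hd
        · exact hsat d hd h
        · rw [hG.fs_uniq (hF.fs f hf') hd (hf.symm.trans h)]
          exact hf')) with ⟨z, hz⟩ | ⟨a, b, ha, hb, hz⟩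
    · have k1 := (hz p).1 (Or.inl (Equiv.Perm.SameCycle.refl _ _))
      have k2 := (hz s).1 (Or.inr (Equiv.Perm.SameCycle.refl _ _))
      exact hne (k1.symm.trans k2)
    · rcases (hz s).1 (Or.inr (Equiv.Perm.SameCycle.refl _ _)) with k | k
      · have := deg_same k
        omega
      · have := deg_same k
        omega
  · push Not at hex
    have hA' : ∀ x, (A x ∧ ¬ M.SameSite s x) ↔ M.SameSite p x := by
      intro x
      constructor
      · rintro ⟨h7, h8⟩
        exact (hex x h7).resolve_right h8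
      · intro h7
        exact ⟨hCA x (Or.inl h7), fun h8 => hne (h7.trans h8.symm)⟩
    have hsc : scut δ (M.SameSite p) ≤ 1 := hG.scut_quad1 h4 fun e => Iff.rfl
    have c1 := hG.toPatch.cut_eq (B := M.SameSite p) fun d hd => hCA d (Or.inl hd)
    have c2 := hG.toPatch.cut_eq (B := M.SameSite s) fun d hd => hCA d (Or.inr hd)
    rw [hG.legal.cut_site, h4] at c1
    rw [hG.legal.cut_site, hds] at c2
    have c3 := hG.toPatch.scut_compl (M.SameSite s)
    have c4 := rcut_compl (M := M) (A := A) (M.SameSite s)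
    have c5 : (fun d => A d ∧ ¬ M.SameSite s d) = M.SameSite p := funext fun x =>
      propext (hA' x)
    rw [c5] at c3 c4
    omega

/-- the fold sector of a folded site -/
theorem satF (hF : Pre M A δ F) {e : D} (he : F e) :
    ∀ f, FS M A δ f → M.SameSite e f → F f := by
  intro f hf hs
  rw [hG.fs_uniq (hF.fs e he) hf hs]
  exact he

/-- the two inner neighbours of a folded quad are different -/
theorem quad_neF (hF : Pre M A δ F) {e : D} (h1 : F e) (h4 : M.deg e = 4) :
    ¬ M.SameSite (M.al (M.nx (M.nx e))) (M.al (M.nx.symm e)) := by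
  intro hs'
  have h2 : M.nx (M.nx e) = M.nx.symm e := hG.share_sat hF (p := e)
    (s := M.al (M.nx (M.nx e))) h4 (hF.fs e h1).1 (hG.inn2 (hF.fs e h1)).2
    (hG.satF hF h1)
    ((site_nx e).trans (site_nx _)) (site_nx_symm e) (Equiv.Perm.SameCycle.refl _ _) hs'
  refine hG.ne1 (M.nx (M.nx e)) ?_
  rw [← nx_four' h4]
  exact h2.symm

end Gen

/-- all the fold sectors of a generic patch without nontrivial hexagons at the ring -/
theorem GenT.toPre [Fintype D] (hG : M.GenT A δ)
    (ht : ∀ d, A d → M.deg d = 6 → ∃ j e, M.SameSite d e ∧ M.SameNode (δ j) e) :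
    Pre M A δ (FS M A δ) where
  fs _ h := h
  pre _ _ h := h
  triv B hB hBA hBp hc ho := by
    obtain ⟨o, h1, h2⟩ := ho
    have h3 : B (M.nx.symm o) := (hB.symm o).2 h1.1
    exact hG.triv B hB hBA ⟨_, h3⟩ hBp hc ⟨_, h3, h2.2.1⟩
  hex d hd h6 := by
    obtain ⟨j, e, h1, h2⟩ := ht d hd h6
    obtain ⟨f, hf, hs⟩ := hG.exists_fs ((hG.toPatch.sites.same h1).1 hd) ⟨j, h2⟩
    exact ⟨f, h1.trans hs, hf⟩

end DMap

end GT33
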