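import Pool.Agent.GT33.PreD
import Pool.Agent.GT33.GenF

/-!
# GT33 module NOCOR: no corners at folded ring nodes

`Gen.exists_leave`: a set of sites with six boundary darts which touches the ring has a boundary dart after a fold
sector.  `Gen.share46F`: a folded quad and a folded hexagon have at most one common edge.
`Gen.mapF_no_cor`: the folded map has no corner at a folded ring node.
-/

open Classical

namespace GT33

namespace DMap

variable {D : Type} {M : DMap D} {A : D → Prop} {δ : ZMod 6 → D}

open Patch

namespace Gen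

variable [Fintype D] (hG : M.Gen A δ)

include hG

/-- a set of sites with six boundary darts which touches the ring has a boundary dart after a fold sector -/
theorem exists_leave {C : D → Prop} (hC : M.Sites C) (hCA : ∀ d, C d → A d)
    (hex : ∃ d, A d ∧ ¬ C d) (hc : M.cut C = 6) (hr : ∃ e, C e ∧ Ring M δ e) :
    ∃ o, BD M C o ∧ FS M A δ (M.nx.symm o) := by
  by_contra hno
  push Not at hno
  have step : ∀ k : ZMod 6, ∀ (m : ℕ) (x : D), C x → M.SameNode (δ k) x →
      (M.fs.symm)^[m] x = M.nx.symm (δ (k + 1)) → C (δ (k + 1)) := by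
    intro k m
    induction m with
    | zero =>
      intro x hx _ h
      have h1 : M.nx x = δ (k + 1) := by
        rw [← Equiv.eq_symm_apply]
        exact h
      rw [← h1]
      exact (hC x).2 hx
    | succ m ih =>
      intro x hx hn h
      by_cases h1 : x = M.nx.symm (δ (k + 1))
      · have h2 : M.nx x = δ (k + 1) := by rw [h1, Equiv.apply_symm_apply]
        rw [← h2]
        exact (hC x).2 hx
      · have hfs : FS M A δ x := by
          refine ⟨hCA x hx, ⟨k, hn⟩, fun i hi => h1 ?_⟩
          have h2 := hG.toPatch.prev_node (i - 1)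
          rw [sub_add_cancel, ← hi] at h2
          have h3 := hG.node_idx (h2.trans hn.symm)
          rw [hi, ← h3, sub_add_cancel]
        have h4 : C (M.al (M.nx x)) := by
          by_contra h5
          exact hno (M.nx x) ⟨(hC x).2 hx, h5⟩ (by rwa [Equiv.symm_apply_apply])
        have h5 : M.fs.symm x = M.al (M.nx x) := fs_symm M x
        refine ih (M.fs.symm x) (by rw [h5]; exact h4) ?_ (by
          rw [← h, Function.iterate_succ_apply])
        refine hn.trans ?_
        have h6 := fs_node (M := M) (M.fs.symm x)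
        rw [Equiv.apply_symm_apply] at h6
        exact h6.symm
  have toLast : ∀ k : ZMod 6, ∀ x : D, C x → M.SameNode (δ k) x → C (δ (k + 1)) := by
    intro k x hx hn
    have h1 : M.SameNode x (M.nx.symm (δ (k + 1))) := hn.symm.trans (hG.toPatch.prev_node k)
    have h2 : Equiv.Perm.SameCycle (M.fs⁻¹) x (M.nx.symm (δ (k + 1))) :=
      Equiv.Perm.sameCycle_inv.2 h1
    obtain ⟨m, hm⟩ := h2.exists_nat_pow_eq
    exact step k m x hx hn (by rw [← hm, Equiv.Perm.coe_pow]; rfl)
  obtain ⟨e, he, k, hk⟩ := hr
  have hall : ∀ n : ℕ, C (δ (k + 1 + n)) := by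
    intro n
    induction n with
    | zero =>
      rw [Nat.cast_zero, add_zero]
      exact toLast k e he hk
    | succ n ih =>
      have h1 := toLast _ _ ih (Equiv.Perm.SameCycle.refl _ _)
      have e1 : k + 1 + ((n + 1 : ℕ) : ZMod 6) = k + 1 + n + 1 := by push_cast; ring
      rw [e1]
      exact h1
  have hall' : ∀ i, C (δ i) := by
    intro i
    have h1 := hall (i - (k + 1)).val
    rw [ZMod.natCast_zmod_val] at h1
    rwa [add_sub_cancel] at h1
  have hs : scut δ C = 6 := by
    unfold scut
    rw [Finset.filter_true_of_mem fun i _ => hall' i]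
    rfl
  have c1 := hG.toPatch.cut_eq hCA
  have c2 := hG.toPatch.scut_compl C
  have c3 := hG.toPatch.cut_eq (B := fun d => A d ∧ ¬ C d) fun d h => h.1
  have c4 := rcut_compl (M := M) (A := A) C
  have c5 := hG.ge4 (hG.toPatch.sites_compl hC) (fun d h => h.1) hex
  omega

variable {F : D → Prop} (hF : Pre M A δ F) (hT : TrivF M A F)

include hF hT

/-- a folded quad and a folded hexagon have at most one common edge -/
theorem share46F {p s x y : D} (h4 : M.deg p = 4) {e f : D} (he : F e) (hpe : M.SameSite p e)
    (hf : F f) (hsf : M.SameSite s f)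
    (hx : M.SameSite p x) (hy : M.SameSite p y) (hx' : M.SameSite s (M.al x))
    (hy' : M.SameSite s (M.al y)) : x = y := by
  by_contra hxy
  have hp : A p := (hG.toPatch.sites.same hpe).2 (hF.fs e he).1
  have hs : A s := (hG.toPatch.sites.same hsf).2 (hF.fs f hf).1
  have hne : ¬ M.SameSite p s := fun h => hG.nl x ((hx.symm.trans h).trans hx')
  have hk : 1 < (Finset.univ.filter fun x => M.SameSite p x ∧ M.SameSite s (M.al x)).card := by
    rw [Finset.one_lt_card]
    exact ⟨x, Finset.mem_filter.2 ⟨Finset.mem_univ _, hx, hx'⟩, y,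
      Finset.mem_filter.2 ⟨Finset.mem_univ _, hy, hy'⟩, hxy⟩
  have h5 := hG.share hp hs hne
  have h6 := cut_two hG.legal hne
  have hds : M.deg s = 6 := by
    rcases hG.deg46 s with h | h <;> omega
  have hC : M.Sites fun x => M.SameSite p x ∨ M.SameSite s x :=
    (M.sites_site p).or (M.sites_site s)
  have hCA : ∀ x, M.SameSite p x ∨ M.SameSite s x → A x := by
    rintro x (h | h)
    · exact (hG.toPatch.sites.same h).1 hp
    · exact (hG.toPatch.sites.same h).1 hs
  have hcut : M.cut (fun x => M.SameSite p x ∨ M.SameSite s x) = 6 := by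
    have h7 := hG.legal.cut_even hC
    have h8 := hG.ge4 hC hCA ⟨p, Or.inl (Equiv.Perm.SameCycle.refl _ _)⟩
    omega
  by_cases hex : ∃ d, A d ∧ ¬ (M.SameSite p d ∨ M.SameSite s d)
  · obtain ⟨o, ho, hof⟩ := hG.exists_leave hC hCA hex hcut ⟨e, Or.inl hpe, (hF.fs e he).2.1⟩
    have hFo : F (M.nx.symm o) := by
      rcases ho.1 with h | h
      · rw [hG.fs_uniq (hF.fs e he) hof ((hpe.symm.trans h).trans (site_nx_symm o))]
        exact he
      · rw [hG.fs_uniq (hF.fs f hf) hof ((hsf.symm.trans h).trans (site_nx_symm o))]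
        exact hf
    rcases hT _ hC hCA hex hcut ⟨o, ho, hFo⟩ with ⟨z, hz⟩ | ⟨a, b, ha, hb, hz⟩
    · have k1 := (hz p).1 (Or.inl (Equiv.Perm.SameCycle.refl _ _))
      have k2 := (hz s).1 (Or.inr (Equiv.Perm.SameCycle.refl _ _))
      exact hne (k1.symm.trans k2)
    · rcases (hz s).1 (Or.inr (Equiv.Perm.SameCycle.refl _ _)) with k | k
      · have := deg_same k
        omega
      · have := deg_same k
        omega
  · push Not at hex
    have hA' : ∀ x, (A x ∧ ¬ M.SameSite s x) ↔ M.SameSite p x := by
      intro x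
      constructor
      · rintro ⟨h7, h8⟩
        exact (hex x h7).resolve_right h8
      · intro h7
        exact ⟨hCA x (Or.inl h7), fun h8 => hne (h7.trans h8.symm)⟩
    have hsc : scut δ (M.SameSite p) ≤ 1 := hG.scut_quad1 h4 fun e => Iff.rfl
    have c1 := hG.toPatch.cut_eq (B := M.SameSite p) fun d hd => hCA d (Or.inl hd)
    have c2 := hG.toPatch.cut_eq (B := M.SameSite s) fun d hd => hCA d (Or.inr hd)
    rw [hG.legal.cut_site, h4] at c1
    rw [hG.legal.cut_site, hds] at c2
    have c3 := hG.toPatch.scut_compl (M.SameSite s)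
    have c4 := rcut_compl (M := M) (A := A) (M.SameSite s)
    have c5 : (fun d => A d ∧ ¬ M.SameSite s d) = M.SameSite p := funext fun x =>
      propext (hA' x)
    rw [c5] at c3 c4
    omega

omit hF in
/-- three quads around a node, a boundary dart after a folded sector -/
theorem three_quadsF {p q r x y z : D} (hp4 : M.deg p = 4) (hq4 : M.deg q = 4)
    (hr4 : M.deg r = 4) (hpA : A p) (hqA : A q) (hrA : A r) {o : D} (hqo : M.SameSite q o)
    (hFo : F (M.nx.symm o)) (hoz : o ≠ z) (hox : o ≠ M.al x)
    (hpq : ¬ M.SameSite p q) (hpr : ¬ M.SameSite p r) (hqr : ¬ M.SameSite q r)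
    (hx : M.SameSite p x) (hx' : M.SameSite q (M.al x)) (hy : M.SameSite p y)
    (hy' : M.SameSite r (M.al y)) (hz : M.SameSite q z) (hz' : M.SameSite r (M.al z)) : False := by
  have e1 := cut_two hG.legal hpq
  have h1 : 0 < (Finset.univ.filter fun x => M.SameSite p x ∧ M.SameSite q (M.al x)).card :=
    Finset.card_pos.2 ⟨x, Finset.mem_filter.2 ⟨Finset.mem_univ _, hx, hx'⟩⟩
  obtain ⟨n, h2, e2⟩ : ∃ n, 1 < n ∧
      M.cut (fun x => (M.SameSite p x ∨ M.SameSite q x) ∨ M.SameSite r x) + 2 * n =
        M.cut (fun x => M.SameSite p x ∨ M.SameSite q x) + M.cut (M.SameSite r) := by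
    refine ⟨_, ?_, cut_union (M := M) (B := fun x => M.SameSite p x ∨ M.SameSite q x)
      (C := M.SameSite r) ?_⟩
    · rw [Finset.one_lt_card]
      refine ⟨y, ?_, z, ?_, ?_⟩
      · simp only [Finset.mem_filter, Finset.mem_univ, true_and]
        exact ⟨Or.inl hy, hy'⟩
      · simp only [Finset.mem_filter, Finset.mem_univ, true_and]
        exact ⟨Or.inr hz, hz'⟩
      · rintro rfl
        exact hpq (hy.trans hz.symm)
    · rintro x (h | h) h'
      · exact hpr (h.trans h'.symm)
      · exact hqr (h.trans h'.symm)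
  rw [hG.legal.cut_site r] at e2
  have hC : M.Sites fun x => (M.SameSite p x ∨ M.SameSite q x) ∨ M.SameSite r x :=
    ((M.sites_site p).or (M.sites_site q)).or (M.sites_site r)
  have hCA : ∀ x, (M.SameSite p x ∨ M.SameSite q x) ∨ M.SameSite r x → A x := by
    rintro x ((h | h) | h)
    · exact (hG.toPatch.sites.same h).1 hpA
    · exact (hG.toPatch.sites.same h).1 hqA
    · exact (hG.toPatch.sites.same h).1 hrA
  have hne : ∃ x, (M.SameSite p x ∨ M.SameSite q x) ∨ M.SameSite r x :=
    ⟨p, Or.inl (Or.inl (Equiv.Perm.SameCycle.refl _ _))⟩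
  have h4 := hG.ge4 hC hCA hne
  have h5 := hG.legal.cut_even hC
  have kp : (M.SameSite p p ∨ M.SameSite q p) ∨ M.SameSite r p :=
    Or.inl (Or.inl (Equiv.Perm.SameCycle.refl _ _))
  have kq : (M.SameSite p q ∨ M.SameSite q q) ∨ M.SameSite r q :=
    Or.inl (Or.inr (Equiv.Perm.SameCycle.refl _ _))
  have kr : (M.SameSite p r ∨ M.SameSite q r) ∨ M.SameSite r r :=
    Or.inr (Equiv.Perm.SameCycle.refl _ _)
  by_cases hex : ∃ d, A d ∧ ¬ ((M.SameSite p d ∨ M.SameSite q d) ∨ M.SameSite r d)
  · have hcases : M.cut (fun x => (M.SameSite p x ∨ M.SameSite q x) ∨ M.SameSite r x) = 4 ∨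
        M.cut (fun x => (M.SameSite p x ∨ M.SameSite q x) ∨ M.SameSite r x) = 6 := by omega
    rcases hcases with h6 | h6
    · obtain ⟨z, -, hz⟩ := hG.four hC hCA hex h6
      exact hpq (((hz p).1 kp).symm.trans ((hz q).1 kq))
    · have hbd : BD M (fun x => (M.SameSite p x ∨ M.SameSite q x) ∨ M.SameSite r x) o := by
        refine ⟨Or.inl (Or.inr hqo), ?_⟩
        rintro ((h | h) | h)
        · exact hox (hG.share4 hq4 hp4 hqA hqo hx' h (by rwa [M.inv]))
        · exact hG.nl o (hqo.symm.trans h)
        · exact hoz (hG.share4 hq4 hr4 hqA hqo hz h hz')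
      rcases hT _ hC hCA hex h6 ⟨o, hbd, hFo⟩ with ⟨z, hz⟩ | ⟨a, b, -, -, hz⟩
      · exact hpq (((hz p).1 kp).symm.trans ((hz q).1 kq))
      · rcases (hz p).1 kp with h7 | h7 <;> rcases (hz q).1 kq with h8 | h8 <;>
          rcases (hz r).1 kr with h9 | h9
        · exact hpq (h7.symm.trans h8)
        · exact hpq (h7.symm.trans h8)
        · exact hpr (h7.symm.trans h9)
        · exact hqr (h8.symm.trans h9)
        · exact hqr (h8.symm.trans h9)
        · exact hpr (h7.symm.trans h9)
        · exact hpq (h7.symm.trans h8)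
        · exact hpq (h7.symm.trans h8)
  · -- all ring edges are in three quads
    push Not at hex
    have key : ∀ k, ∃ c : Fin 3, (c = 0 → M.SameSite p (δ k)) ∧ (c = 1 → M.SameSite q (δ k)) ∧
        (c = 2 → M.SameSite r (δ k)) := by
      intro k
      rcases hex (δ k) (hG.toPatch.inA k) with (h | h) | h
      · exact ⟨0, fun _ => h, fun h => by simp at h, fun h => by simp at h⟩
      · exact ⟨1, fun h => by simp at h, fun _ => h, fun h => by simp at h⟩
      · exact ⟨2, fun h => by simp at h, fun h => by simp at h, fun _ => h⟩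
    choose c hc using key
    have hinj : Function.Injective c := by
      intro k l hkl
      have hk := hc k
      have hl := hc l
      rw [← hkl] at hl
      have h3 : c k = 0 ∨ c k = 1 ∨ c k = 2 := by
        generalize c k = t
        fin_cases t <;> simp
      rcases h3 with h3 | h3 | h3
      · have a := hk.1 h3
        exact hG.quad_one (by rw [← deg_same a, hp4]) (a.symm.trans (hl.1 h3))
      · have a := hk.2.1 h3
        exact hG.quad_one (by rw [← deg_same a, hq4]) (a.symm.trans (hl.2.1 h3))
      · have a := hk.2.2 h3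
        exact hG.quad_one (by rw [← deg_same a, hr4]) (a.symm.trans (hl.2.2 h3))
    have := Fintype.card_le_of_injective c hinj
    simp [ZMod.card] at this

omit hT in
/-- the first ring dart of the folded map at a ring node, if the next ring node is folded -/
theorem hdrF_hd {k : ZMod 6} (hk : F (δ k)) {o : D → Bool} (ho : ∀ d, o (M.nx d) = !o d)
    (ho' : ∀ d, o (M.al d) = !o d) :
    (∃ g, FS M A δ g ∧ ¬ F g ∧ M.SameNode (δ (k - 1)) g ∧ (hdrF hF ho ho' hG k).1 = g) ∨
      (M.deg (δ k) = 6 ∧ (hdrF hF ho ho' hG k).1 = M.nx.symm (δ k)) ∨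
      (M.deg (δ k) = 4 ∧ full M δ F (k - 1) ∧ (hdrF hF ho ho' hG k).1 = M.al (M.nx (M.nx (δ k)))) := by
  have ek : k - 1 + 1 = k := sub_add_cancel k 1
  have h1 := hG.hdrF_spec hF ho ho' (k - 1)
  rw [ek] at h1
  rcases h1 with ⟨a1, a2, a3, -⟩ | ⟨a0, -, a3, a4⟩
  · by_cases a5 : (hdrF hF ho ho' hG k).1 = M.nx.symm (δ k)
    · right
      left
      refine ⟨(hG.deg46 _).resolve_left fun a6 => (hdrF hF ho ho' hG k).2 ?_, a5⟩
      rw [a5]
      exact fr_quad' hk a6 (site_nx_symm _)
    · left
      exact ⟨_, hG.fs_at hF a1 a2 (by rw [ek]; exact a5), a3, a2, rfl⟩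
  · right
    right
    refine ⟨a3, a0, ?_⟩
    rw [a4]
    exact if_pos a3

/-- **No corner at a folded ring node.** -/
theorem mapF_no_cor (hX : ∀ d, A d → M.deg d = 6 → ∃ e, M.SameSite d e ∧ F e)
    {o : D → Bool} (ho : ∀ d, o (M.nx d) = !o d) (ho' : ∀ d, o (M.al d) = !o d) {k : ZMod 6}
    (hk : F (δ k)) :
    (mapF hF ho ho' hG).nx (hdrF hF ho ho' hG k) ≠ hdrF hF ho ho' hG (k + 1) := by
  intro h
  have ek : k - 1 + 1 = k := sub_add_cancel k 1
  have hfs : FS M A δ (δ k) := hF.fs _ hk
  have hnc : M.nx (δ k) ≠ δ (k + 1) := fun h1 =>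
    hfs.2.2 (k + 1) (by rw [← h1, Equiv.symm_apply_apply])
  have hAδ : ∀ k, A (δ k) := hG.toPatch.inA
  have s2 : M.SameSite (δ k) (M.nx (M.nx (δ k))) := (site_nx _).trans (site_nx _)
  have s2' : M.SameSite (δ (k + 1)) (M.nx (M.nx (δ (k + 1)))) := (site_nx _).trans (site_nx _)
  have six : ∀ {d}, A d → M.deg d = 6 → ∀ {g}, FS M A δ g → M.SameSite d g → F g := by
    intro d hd h6 g hg hs
    obtain ⟨e, he, heF⟩ := hX d hd h6
    rw [hG.fs_uniq (hF.fs e heF) hg (he.symm.trans hs)]
    exact heF
  have hfs' : M.nx (δ (k + 1)) ≠ δ (k + 1 + 1) → FS M A δ (δ (k + 1)) := fun h1 =>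
    (hG.fs_or (k + 1)).resolve_right h1
  set x := hdrF hF ho ho' hG k with hx
  set y := hdrF hF ho ho' hG (k + 1) with hy
  -- the second dart
  have hyc : (y.1 = M.nx.symm (δ (k + 1)) ∧ (M.deg (δ (k + 1)) = 4 → ¬ F (δ (k + 1)))) ∨
      (FS M A δ y.1 ∧ ¬ F y.1 ∧ M.SameNode (δ k) y.1 ∧ F (M.fs y.1)) ∨
      (M.deg (δ (k + 1)) = 4 ∧ F (δ (k + 1)) ∧ y.1 = M.al (M.nx (M.nx (δ (k + 1))))) := by
    have h1 := hG.hdrF_spec hF ho ho' k
    rw [← hy] at h1
    rcases h1 with ⟨a1, a2, a3, a4⟩ | ⟨a0, a2, a3, a4⟩
    · by_cases a5 : y.1 = M.nx.symm (δ (k + 1))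
      · left
        refine ⟨a5, fun a6 b => y.2 ?_⟩
        rw [a5]
        exact fr_quad' b a6 (site_nx_symm _)
      · right
        left
        refine ⟨hG.fs_at hF a1 a2 a5, a3, a2, ?_⟩
        rcases a4 with a4 | a4
        · rw [a4] at a3
          exact absurd hk a3
        · exact a4
    · right
      right
      refine ⟨a3, a2, ?_⟩
      rw [a4]
      exact if_pos a3
  rcases hG.hdrF_hd hF hk ho ho' with ⟨g, g1, g2, g3, g4⟩ | ⟨g1, g2⟩ | ⟨h4, hfl, g2⟩
  · -- an unfolded fold sector
    rw [← hx] at g4
    have a7 := hG.kept_of_fs hF g1 g2 (site_nx g)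
    have a8 := hG.mapF_nx_of hF ho ho' (x := x) (by rw [g4]; exact a7)
    rw [h, g4] at a8
    rcases hyc with ⟨b1, -⟩ | ⟨-, -, b3, -⟩ | ⟨b1, b2, b4⟩
    · refine hG.fs1 g1 ?_
      rw [← a8, b1]
      exact hG.toPatch.ring_prev _
    · rw [a8] at b3
      exact hG.fs1 g1 ⟨k, b3⟩
    · have c1 : Cls M A δ (k - 1) (M.nx g) := hG.cls_nx g1 g3
      have c2 : Cls M A δ (k + 1) (M.nx (δ (k + 1))) :=
        hG.cls_nx (hF.fs _ b2) (Equiv.Perm.SameCycle.refl _ _)
      have c3 : M.SameNode (M.nx (δ (k + 1))) (M.nx g) := by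
        rw [← a8, b4]
        exact (al_node _).symm
      have c4 := hG.cls_disj c1 (c2.same c3)
      have c5 : (-1 : ZMod 6) = 1 := by
        have c6 : k + -1 = k + 1 := by rw [← sub_eq_add_neg]; exact c4
        exact add_left_cancel c6
      exact absurd c5 (by decide)
  · -- a hexagon
    rw [← hx] at g2
    rcases hG.mapF_nx_cases hF ho ho' x with ⟨c1, -⟩ | ⟨-, -, c2⟩
    · rw [g2, Equiv.apply_symm_apply] at c1
      exact c1 (FoldSet.r0 hk)
    · rw [h, g2, Equiv.apply_symm_apply] at c2
      rcases hyc with ⟨b1, -⟩ | ⟨-, -, b3, -⟩ | ⟨b1, b2, b4⟩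
      · refine hG.fs2 hfs ?_
        rw [← c2, b1]
        exact hG.toPatch.ring_prev _
      · rw [c2] at b3
        exact hG.fs2 hfs ⟨k, b3⟩
      · rw [b4] at c2
        have h5 : M.nx (δ k) = M.al (M.nx.symm (δ (k + 1))) := by
          refine hG.last_eq hnc hfs ?_
          rw [nx_four' b1]
          have h6 := al_node (M := M) (M.nx (δ k))
          rw [← c2, M.inv] at h6
          exact h6.symm.trans (al_node _).symm
        refine hG.ne1 (M.nx (M.nx (δ (k + 1)))) ?_
        rw [← nx_four' b1]
        refine (hG.share46F hF hT (p := δ (k + 1)) (s := δ k) b1 b2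
          (Equiv.Perm.SameCycle.refl _ _) hk (Equiv.Perm.SameCycle.refl _ _) s2'
          (site_nx_symm _) ?_ ?_).symm
        · rw [c2]
          exact s2
        · rw [← h5]
          exact site_nx _
  rw [← hx] at g2
  set u := M.al (M.nx (M.nx (δ k))) with hu
  have hau : M.al u = M.nx (M.nx (δ k)) := by rw [hu, M.inv]
  have nA : M.SameNode u (M.nx (δ k)) := al_node _
  have huA : A u := by
    have h5 := hG.hd_A k
    unfold DMap.hd at h5
    rwa [if_pos h4] at h5
  rcases hG.mapF_nx_cases hF ho ho' x with ⟨h1, c2⟩ | ⟨h1, h2, h3⟩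
  · rw [h, g2] at c2
    rw [g2] at h1
    rcases hyc with ⟨b1, b2⟩ | ⟨b1, b2, b3, b4⟩ | ⟨h4', hk', b4⟩
    · -- the last dart of the next ring site
      rw [b1] at c2
      have h5 : M.nx (δ k) = M.al (M.nx.symm (δ (k + 1))) := by
        refine hG.last_eq hnc hfs ?_
        have h6 := al_node (M := M) u
        rw [← c2] at h6
        exact nA.symm.trans h6.symm
      have i1 : M.SameSite (δ (k + 1)) (M.al (M.nx (M.nx (δ k)))) := by
        rw [← hu]
        have h6 : M.SameSite u (M.nx.symm (δ (k + 1))) := by
          rw [c2]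
          exact site_nx _
        exact (site_nx_symm _).trans h6.symm
      have i2 : M.SameSite (δ (k + 1)) (M.al (M.nx (δ k))) := by
        rw [h5, M.inv]
        exact site_nx_symm _
      rcases hG.deg46 (δ (k + 1)) with h6 | h6
      · exact hG.ne1 (M.nx (δ k)) (hG.share4 h4 h6 (hAδ _) s2 (site_nx _) i1 i2)
      · obtain ⟨e, he, heF⟩ := hX _ (hAδ (k + 1)) h6
        exact hG.ne1 (M.nx (δ k)) (hG.share46F hF hT h4 hk (Equiv.Perm.SameCycle.refl _ _)
          heF he s2 (site_nx _) i1 i2)
    · -- an unfolded fold sector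
      have b5 : M.SameNode (M.al y.1) u := by
        rw [c2]
        have := nx_symm_node (M := M) (M.nx u)
        rwa [Equiv.symm_apply_apply] at this
      have b6 : M.nx (M.fs y.1) = M.al y.1 := nx_fs M _
      have b7 := hG.chain hfs (hF.fs _ b4) (by
        rw [b6]
        exact nA.symm.trans b5.symm)
      have b8 : M.nx (δ k) = M.al y.1 := by
        conv_lhs => rw [b7]
        exact b6
      have b9 : M.deg y.1 = 4 := (hG.deg46 _).resolve_right fun h6 =>
        b2 (six b1.1 h6 b1 (Equiv.Perm.SameCycle.refl _ _))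
      refine hG.ne1 (M.nx (δ k)) (hG.share4 (p := δ k) (q := y.1) h4 b9 (hAδ _) s2 (site_nx _)
        ?_ ?_)
      · rw [← hu, c2]
        exact (site_nx u).symm
      · rw [b8, M.inv]
    · -- two folded quads
      rw [b4] at c2
      have hnu : M.al (M.nx u) = M.nx (M.nx (δ (k + 1))) := by rw [← c2, M.inv]
      have n1 : M.SameNode u (M.nx (M.nx (δ (k + 1)))) := by
        have := al_node (M := M) u
        rw [hnu] at this
        exact this.symm
      -- the radial edge
      have hrad : M.nx (δ k) = M.al (M.nx.symm (δ (k + 1))) := by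
        refine hG.last_eq hnc hfs ?_
        rw [nx_four' h4']
        exact (nA.symm.trans n1).trans (al_node _).symm
      have hrad' : M.al (M.nx (δ k)) = M.nx.symm (δ (k + 1)) := by rw [hrad, M.inv]
      have hKK : ¬ M.SameSite (δ k) (δ (k + 1)) := fun hs => by
        have := hG.quad_one h4 hs
        exact absurd this (by
          intro h5
          have h6 : (1 : ZMod 6) = 0 := by
            have h7 : k + 0 = k + 1 := by rw [add_zero]; exact h5
            exact (add_left_cancel h7).symm
          exact absurd h6 (by decide))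
      have hKu : ¬ M.SameSite (δ k) u := fun hs => hG.nl (M.nx (M.nx (δ k))) (s2.symm.trans hs)
      have hKu' : ¬ M.SameSite (δ (k + 1)) u := fun hs =>
        hG.nl (M.nx (M.nx (δ (k + 1)))) (by
          rw [← hnu, M.inv]
          rw [← hnu] at s2'
          exact (s2'.symm.trans hs).trans (site_nx u))
      have hfs1 : FS M A δ (δ (k + 1)) := hF.fs _ hk'
      rcases hG.deg46 u with hu4 | hu6
      · -- three quads
        refine hG.three_quadsF hT (p := δ k) (q := δ (k + 1)) (r := u) (x := M.nx (δ k))
          (y := M.nx (M.nx (δ k))) (z := M.nx (M.nx (δ (k + 1)))) h4 h4' hu4 (hAδ _) (hAδ _) huA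
          (o := M.nx (δ (k + 1))) (site_nx _) (by rwa [Equiv.symm_apply_apply]) ?_ ?_
          hKK hKu hKu' (site_nx _) ?_ s2 ?_ s2' ?_
        · exact fun h5 => hG.ne1 _ h5.symm
        · rw [hrad']
          intro h5
          refine hG.fs1 hfs1 ?_
          rw [h5]
          exact hG.toPatch.ring_prev _
        · rw [hrad']
          exact site_nx_symm _
        · exact Equiv.Perm.SameCycle.refl _ _
        · rw [← hnu, M.inv]
          exact site_nx u
      · -- a folded hexagon
        obtain ⟨f, hs, hf⟩ := hX _ huA hu6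
        have hff : FS M A δ f := hF.fs _ hf
        obtain ⟨j, hj⟩ := hff.2.1
        have hf6 : M.deg f = 6 := by rw [← deg_same hs, hu6]
        have huR : ¬ FR M F u := by
          rw [← g2]
          exact x.2
        have c0 : u ≠ f := fun h5 => huR (by rw [h5]; exact FoldSet.r0 hf)
        have c1 : u ≠ M.nx f := fun h5 => huR (by rw [h5]; exact FoldSet.r1 hf)
        have c5 : M.nx u ≠ f := fun h5 => h1 (by rw [h5]; exact FoldSet.r0 hf)
        have hper : (⇑M.nx)^[6] f = f := by
          have h5 := Function.isPeriodicPt_minimalPeriod M.nx f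
          unfold DMap.deg at hf6
          rw [hf6] at h5
          exact h5
        have hK1 : M.SameSite f (M.al (M.nx (M.nx (δ k)))) := hs.symm
        have hK2 : M.SameSite f (M.al (M.nx (M.nx (δ (k + 1))))) := by
          rw [c2]
          exact hs.symm.trans (site_nx u)
        obtain ⟨n, hn, hnu'⟩ := mem_site hs.symm
        rw [hf6] at hn
        have hcase : u = M.nx (M.nx f) ∨ u = M.nx (M.nx (M.nx f)) ∨
            u = M.nx (M.nx (M.nx (M.nx f))) := by
          interval_cases n
          · exact absurd hnu'.symm c0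
          · exact absurd hnu'.symm c1
          · exact Or.inl hnu'.symm
          · exact Or.inr (Or.inl hnu'.symm)
          · exact Or.inr (Or.inr hnu'.symm)
          · exact absurd (by rw [← hnu']; exact hper) c5
        -- the radial edge of the first quad at the ring node `k - 1`
        have g1' : M.SameNode (δ (k - 1)) (M.nx.symm (δ k)) := by
          have := hG.toPatch.prev_node (k - 1)
          rwa [ek] at this
        have nB : M.SameNode (M.al (M.nx.symm (δ k))) (M.nx (M.nx (δ k))) := by
          rw [nx_four' h4]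
          exact al_node _
        have sf2 : M.SameSite f (M.nx (M.nx f)) := (site_nx _).trans (site_nx _)
        rcases hcase with hc | hc | hc
        · -- adjacent on the left
          have h5 : M.SameNode (M.nx f) (M.nx (M.nx (δ k))) := by
            have := al_node (M := M) (M.nx f)
            rw [← hc, hau] at this
            exact this.symm
          have h6 : Cls M A δ (k - 1) (M.nx (M.nx (δ k))) :=
            ⟨M.nx.symm (δ k), hG.toPatch.prev_in k, g1', nB⟩
          have h7 : j = k - 1 := hG.cls_disj ((hG.cls_nx hff hj).same h5) h6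
          have h8 : M.nx f = M.al (M.nx.symm (δ k)) := by
            have hnc' : M.nx (δ (k - 1)) ≠ δ (k - 1 + 1) := fun h9 => by
              have h10 := hG.nc _ h9
              rw [← deg_nx, h9, ek] at h10
              omega
            have := hG.last_eq (i := k - 1) hnc' hff (by
              rw [ek]
              exact h5.trans nB.symm)
            rwa [ek] at this
          refine hG.ne1 (M.nx (M.nx (δ k))) ?_
          rw [← nx_four' h4]
          refine (hG.share46F hF hT (p := δ k) (s := f) h4 hk (Equiv.Perm.SameCycle.refl _ _) hf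
            (Equiv.Perm.SameCycle.refl _ _) s2 (site_nx_symm _) hK1 ?_).symm
          rw [← h8]
          exact site_nx f
        · -- opposite
          have t1 : M.SameNode (M.nx (M.nx f)) (M.nx (M.nx (δ k))) := by
            have := al_node (M := M) (M.nx (M.nx f))
            rw [← hc, hau] at this
            exact this.symm
          have harc : Arc M δ [M.al (M.nx.symm (δ k)), M.al (M.nx (M.nx f)), M.al (M.nx f)]
              (k - 1) j := by
            refine arc_three ?_ ?_ ?_ (hj.trans (al_node f).symm)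
            · rw [M.inv]
              exact g1'
            · rw [M.inv]
              exact nB.trans t1.symm
            · rw [M.inv]
              exact al_node _
          obtain ⟨B, hB, hBA, hB1, -⟩ := hG.toPatch.exists_arc harc
          have q1 : M.al (M.nx.symm (δ k)) ≠ M.nx f := fun h5 => by
            refine hG.ne1 (M.nx (M.nx (δ k))) ?_
            rw [← nx_four' h4]
            refine (hG.share46F hF hT (p := δ k) (s := f) h4 hk (Equiv.Perm.SameCycle.refl _ _) hf
              (Equiv.Perm.SameCycle.refl _ _) s2 (site_nx_symm _) hK1 ?_).symm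
            rw [h5]
            exact site_nx f
          have q2 : M.al (M.nx.symm (δ k)) ≠ M.nx (M.nx f) := fun h5 => by
            refine hG.ne1 (M.nx (M.nx (δ k))) ?_
            rw [← nx_four' h4]
            refine (hG.share46F hF hT (p := δ k) (s := f) h4 hk (Equiv.Perm.SameCycle.refl _ _) hf
              (Equiv.Perm.SameCycle.refl _ _) s2 (site_nx_symm _) hK1 ?_).symm
            rw [h5]
            exact sf2
          have q3 : ∀ {y}, M.SameSite f y → M.nx.symm (δ k) ≠ y := fun {y} hy h5 => by
            rw [← h5] at hy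
            have := deg_same (hy.trans (site_nx_symm (δ k)).symm)
            omega
          have w1 : wcnt M [M.al (M.nx.symm (δ k)), M.al (M.nx (M.nx f)), M.al (M.nx f)]
              (M.nx f) = 1 := by
            rw [wcnt_three, ind_false q1, ind_false fun h5 => q3 (site_nx f) (M.al_inj h5),
              ind_false fun h5 => hG.nl (M.nx (M.nx f)) (by rw [h5]; exact (site_nx _).symm),
              ind_false fun h5 => hG.ne1 _ (M.al_inj h5), ind_false (M.ne _), ind_true rfl]
            decide
          have w2 : wcnt M [M.al (M.nx.symm (δ k)), M.al (M.nx (M.nx f)), M.al (M.nx f)]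
              (M.nx (M.nx f)) = 1 := by
            rw [wcnt_three, ind_false q2, ind_false fun h5 => q3 sf2 (M.al_inj h5),
              ind_false (M.ne _), ind_true rfl,
              ind_false fun h5 => hG.nl (M.nx f) (by rw [h5]; exact site_nx _),
              ind_false fun h5 => hG.ne1 _ (M.al_inj h5).symm]
            decide
          have i1 := hG.fs_inn hff
          have i2 : Inn M A (M.nx (M.nx f)) := hG.inn2 hff
          have hnt : ¬ TrivS A B := fun htr => by
            have h5 := hG.wcnt_zero hBA htr hB1 i1.1 i1.2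
            rw [w1] at h5
            revert h5
            decide
          have key : ∃ q, M.deg q = 4 ∧ A q ∧ (∃ l, M.SameSite q (δ l)) ∧
              ∀ x, Inn M A x → ind (B x) + ind (B (M.al x)) = 1 →
              (M.SameSite q x ∨ M.SameSite q (M.al x)) := by
            rcases hG.r3 hB hBA (rcut_le hB1) with htr | ⟨q, hq, hk, hqB⟩ | ⟨q, hq, hk, hqB⟩
            · exact absurd htr hnt
            · obtain ⟨l, hl⟩ := hk
              refine ⟨q, hq, (hG.toPatch.sites.same hl).2 (hAδ l), ⟨l, hl⟩, fun x hx h5 => ?_⟩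
              rw [ind_add', hqB, hqB] at h5
              tauto
            · obtain ⟨l, hl⟩ := hk
              refine ⟨q, hq, (hG.toPatch.sites.same hl).2 (hAδ l), ⟨l, hl⟩, fun x hx h5 => ?_⟩
              rw [ind_add'] at h5
              have h6 := hqB x
              have h7 := hqB (M.al x)
              have h8 := hx.1
              have h9 := hx.2
              tauto
          obtain ⟨q, hq, hqA, ⟨l, hl⟩, hqs⟩ := key
          have hqf : ¬ M.SameSite q f := fun h5 => by
            have := deg_same h5
            omega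
          have k1 := (hqs _ i1 (by rw [hB1 _ i1.1 i1.2, w1])).resolve_left fun h5 =>
            hqf (h5.trans (site_nx f).symm)
          have k2 := (hqs _ i2 (by rw [hB1 _ i2.1 i2.2, w2])).resolve_left fun h5 =>
            hqf (h5.trans sf2.symm)
          have hl4 : M.deg (δ l) = 4 := by rw [← deg_same hl, hq]
          have hfl4 : FS M A δ (δ l) := hG.fs_quad hl4
          have k3 : M.nx (M.nx (δ l)) = M.al (M.nx (M.nx f)) := by
            obtain ⟨b, hb, hbx⟩ := mem_site (hl.symm.trans k2)
            rw [hl4] at hb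
            interval_cases b
            · exfalso
              refine hG.toPatch.notA l ?_
              have h5 : δ l = M.al (M.nx (M.nx f)) := hbx
              rw [h5, M.inv]
              exact i2.1
            · exfalso
              have h5 : M.nx (δ l) = M.al (M.nx (M.nx f)) := hbx
              refine hG.fs2 hff ⟨l, ?_⟩
              have h6 := al_node (M := M) (δ l)
              rw [h5, M.inv] at h6
              exact h6.symm
            · exact hbx
            · exfalso
              have h5 : M.nx (M.nx (M.nx (δ l))) = M.al (M.nx (M.nx f)) := hbx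
              have h6 : M.nx.symm (δ l) = M.al (M.nx (M.nx f)) := by
                rw [← h5]
                exact nx_four' hl4
              refine hG.fs1 hff ?_
              have h7 := al_node (M := M) (M.nx f)
              rw [← h6] at h7
              exact ring_same h7 (hG.toPatch.ring_prev _)
          have k4 : M.SameNode (M.nx (M.nx f)) (M.nx (δ l)) := by
            have h6 := al_node (M := M) (M.nx (δ l))
            rwa [k3, M.inv] at h6
          have k5 : l = k - 1 := by
            have h6 : Cls M A δ (k - 1) (M.nx (M.nx (δ k))) :=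
              ⟨M.nx.symm (δ k), hG.toPatch.prev_in k, g1', nB⟩
            exact hG.cls_disj ((hG.cls_nx hfl4 (Equiv.Perm.SameCycle.refl _ _)).same k4.symm)
              (h6.same t1.symm)
          have k6 : F (δ l) := hG.full_all hF hfl hfl4 (by
            rw [k5])
          have h6 := hG.share46F hF hT (p := q) (s := f) hq k6 hl hf (Equiv.Perm.SameCycle.refl _ _)
            k1 k2 (by rw [M.inv]; exact site_nx f) (by rw [M.inv]; exact sf2)
          exact hG.ne1 _ (M.al_inj h6).symm
        · -- adjacent on the right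
          have h5 : M.nx u = M.nx.symm f := by
            rw [Equiv.eq_symm_apply, hc]
            exact hper
          have n3 : M.SameNode (M.nx u) (M.nx (δ (k + 1))) := by
            rw [← c2]
            exact al_node _
          have h6 : Cls M A δ (k + 1) (M.nx (δ (k + 1))) :=
            hG.cls_nx hfs1 (Equiv.Perm.SameCycle.refl _ _)
          have h7 : Cls M A δ j (M.nx.symm f) := hG.cls_nx_symm hff.1 hj
          rw [← h5] at h7
          have h8 : j = k + 1 := hG.cls_disj (h7.same n3) h6
          subst h8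
          rcases hG.asec hff.1 hj with h9 | h9
          · rw [h9, h4'] at hf6
            omega
          · have h10 : M.nx (M.fs f) = M.al f := nx_fs M f
            have h11 := hG.chain hfs1 h9 (by
              rw [h10]
              refine n3.symm.trans ?_
              rw [h5]
              exact (nx_symm_node f).symm)
            have h12 : M.nx (δ (k + 1)) = M.al f := by
              conv_lhs => rw [h11]
              exact h10
            refine hG.ne1 (M.nx (δ (k + 1))) (hG.share46F hF hT (p := δ (k + 1)) (s := f) h4'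
              hk' (Equiv.Perm.SameCycle.refl _ _) hf (Equiv.Perm.SameCycle.refl _ _) s2'
              (site_nx _) hK2 ?_)
            rw [h12, M.inv]
  · -- a folded sector between
    rw [g2] at h1 h2
    obtain ⟨j, hj⟩ := (hF.fs _ h1).2.1
    have h5 : Cls M A δ j u := by
      have := hG.cls_nx_symm (hF.fs _ h1).1 hj
      rwa [Equiv.symm_apply_apply] at this
    have h6 : Cls M A δ k (M.nx (δ k)) := hG.cls_nx hfs (Equiv.Perm.SameCycle.refl _ _)
    have h7 : j = k := hG.cls_disj (h5.same nA) h6
    subst h7
    rcases hG.asec (hF.fs _ h1).1 hj with h8 | h8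
    · rw [h8, h4] at h2
      omega
    · have h9 : M.nx (M.fs (M.nx u)) = M.al (M.nx u) := nx_fs M _
      have h10 := hG.chain hfs h8 (by
        rw [h9]
        exact nA.symm.trans (al_node u).symm)
      have h11 : M.nx (δ j) = M.al (M.nx u) := by
        conv_lhs => rw [h10]
        exact h9
      refine hG.ne1 (M.nx (δ j)) (hG.share46F hF hT (p := δ j) (s := M.nx u) h4 hk
        (Equiv.Perm.SameCycle.refl _ _) h1 (Equiv.Perm.SameCycle.refl _ _) s2 (site_nx _) ?_ ?_)
      · rw [← hu]
        exact (site_nx u).symm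
      · rw [h11, M.inv]

/-- **The corners of the folded map**. -/
theorem mapF_cor (hX : ∀ d, A d → M.deg d = 6 → ∃ e, M.SameSite d e ∧ F e)
    {o : D → Bool} (ho : ∀ d, o (M.nx d) = !o d) (ho' : ∀ d, o (M.al d) = !o d) {k : ZMod 6} :
    (mapF hF ho ho' hG).nx (hdrF hF ho ho' hG k) = hdrF hF ho ho' hG (k + 1) ↔
      ¬ F (δ k) ∧ (full M δ F (k - 1) ∨ M.nx (δ (k - 1)) = δ k) := by
  have ek : k - 1 + 1 = k := sub_add_cancel k 1
  by_cases hk : F (δ k)
  · exact iff_of_false (hG.mapF_no_cor hF hT hX ho ho' hk) fun h => h.1 hk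
  · have h1 : hdrF hF ho ho' hG (k + 1) = ⟨δ k, hG.δ_stayF hF hk⟩ := hG.hdrF_δ hF ho ho' hk
    have h2 : ¬ FR M F (M.nx.symm (δ k)) := by
      intro h3
      by_cases h4 : M.deg (δ k) = 4
      · exact hk (hG.frF_site hF h3 h4 (site_nx_symm _))
      · exact frF_not hF (hG.prev_stay h4) h3
    have hn : M.SameNode (δ (k - 1)) (M.nx.symm (δ k)) := by
      have := hG.toPatch.prev_node (k - 1)
      rwa [ek] at this
    have h3 : (mapF hF ho ho' hG).nx ⟨M.nx.symm (δ k), h2⟩ = hdrF hF ho ho' hG (k + 1) := by
      rw [h1]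
      apply Subtype.ext
      rw [hG.mapF_nx_of hF ho ho' (by
        show ¬ FR M F (M.nx (M.nx.symm (δ k)))
        rw [Equiv.apply_symm_apply]
        exact hG.δ_stayF hF hk)]
      exact Equiv.apply_symm_apply _ _
    have h4 : (mapF hF ho ho' hG).nx (hdrF hF ho ho' hG k) = hdrF hF ho ho' hG (k + 1) ↔
        hdrF hF ho ho' hG k = ⟨M.nx.symm (δ k), h2⟩ := by
      rw [← h3]
      exact (mapF hF ho ho' hG).nx.injective.eq_iff
    rw [h4]
    constructor
    · intro h5
      refine ⟨hk, ?_⟩
      have h6 := hG.hdrF_spec hF ho ho' (k - 1)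
      rw [ek, h5] at h6
      rcases h6 with ⟨-, -, -, h7 | h7⟩ | ⟨-, h7, -⟩
      · right
        have h8 : M.nx.symm (δ k) = δ (k - 1) := h7
        rw [← h8, Equiv.apply_symm_apply]
      · left
        unfold full
        rw [ek]
        exact h7
      · exact absurd h7 hk
    · rintro ⟨-, h5 | h5⟩
      · have h6 := hG.hdrF_stop hF ho ho' (k := k - 1) (g := M.nx.symm (δ k)) hn (by
          unfold full at h5
          rwa [ek] at h5) h2
        rwa [ek] at h6
      · have h6 : ¬ F (δ (k - 1)) := fun h7 => (hF.fs _ h7).2.2 k (by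
          rw [← h5, Equiv.symm_apply_apply])
        have h7 := hG.hdrF_δ hF ho ho' h6
        rw [ek] at h7
        rw [h7]
        apply Subtype.ext
        show δ (k - 1) = M.nx.symm (δ k)
        rw [← h5, Equiv.symm_apply_apply]

end Gen

namespace Gen

variable [Fintype D] (hG : M.Gen A δ) {F : D → Prop} (hF : Pre M A δ F) {o : D → Bool}
  (ho : ∀ d, o (M.nx d) = !o d) (ho' : ∀ d, o (M.al d) = !o d)

include hG hF

/-- **No corner at a folded ring node.** -/
theorem mapF_no_corner {k : ZMod 6} (hk : F (δ k)) :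
    (mapF hF ho ho' hG).nx (hdrF hF ho ho' hG k) ≠ hdrF hF ho ho' hG (k + 1) :=
  hG.mapF_no_cor hF hF.triv hF.hex ho ho' hk

/-- **The corners of the folded map**. -/
theorem mapF_corner {k : ZMod 6} :
    (mapF hF ho ho' hG).nx (hdrF hF ho ho' hG k) = hdrF hF ho ho' hG (k + 1) ↔
      ¬ F (δ k) ∧ (full M δ F (k - 1) ∨ M.nx (δ (k - 1)) = δ k) :=
  hG.mapF_cor hF hF.triv hF.hex ho ho'

end Gen

end DMap

end GT33
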