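import Pool.Agent.GT33.PartZ
import Pool.Agent.GT33.NoCor

/-!
# GT33 module PARTM: the units of the lifted state, partial folds

`ExF`: the ring of the folded map is exact.  `ParF`: the numbers of the lifted state.  `Gen.unitsF`: the units of the
lifted state.
-/

open Classical

namespace GT33

namespace DMap

variable {D : Type} {M : DMap D} {A : D → Prop} {δ : ZMod 6 → D} {F : D → Prop}

open Patch

/-- the numbers of the lifted state -/
structure ParF (M : DMap D) (δ : ZMod 6 → D) (F : D → Prop) (a : ZMod 6 → Bool) (r r' : ZMod 6 → ℕ)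
    (p q : ℕ) (w : ZMod 6 → PState 6) (t : ZMod 6 → PState 4) : Prop where
  pq : p + q = 3
  p1 : 1 ≤ p
  q1 : 1 ≤ q
  r1 : ∀ k, r k ≤ 1
  aI : ∀ k, a k = false → IntF M δ F k
  c1 : ∀ k, F (δ k) → ¬ IntF M δ F (k + 1) → ¬ thrC M δ F (k + 1) → r' (k + 1) = 0 ∧ q = 1
  c2 : ∀ k, F (δ k) → ¬ IntF M δ F k → ¬ cC M δ F (k - 1) → r k = 0 ∧ q = 1
  c3 : ∀ k, ¬ F (δ k) → ¬ cC M δ F k → r k = r' (k + 1)
  wu : ∀ c, cC M δ F c → (w c).u 0 = r (c + 1) ∧ (w c).u 1 = p ∧ (w c).u 2 = (t c).u 0 ∧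
    (w c).u 4 + r c = 1 ∧ (w c).u 5 + r (c + 1) = r c + 1
  wt : ∀ c, thrC M δ F c → (w c).u 3 = q
  wl : ∀ c, lecC M δ F c → (w c).u 3 = (t c).u 1

namespace Gen

variable [Fintype D] (hG : M.Gen A δ) (hF : Pre M A δ F) {o : D → Bool}
  (ho : ∀ d, o (M.nx d) = !o d) (ho' : ∀ d, o (M.al d) = !o d)

/-- the ring of the folded map is exact -/
structure ExF (hG : M.Gen A δ) (hF : Pre M A δ F) (ho : ∀ d, o (M.nx d) = !o d)
    (ho' : ∀ d, o (M.al d) = !o d) (ω' : {d // ¬ FR M F d} → ℕ) (r' : ZMod 6 → ℕ) : Prop where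
  le : ∀ k, r' k ≤ 1
  cor : ∀ k, (mapF hF ho ho' hG).nx (hdrF hF ho ho' hG k) = hdrF hF ho ho' hG (k + 1) →
    ω' (hdrF hF ho ho' hG k) + r' (k + 1) = r' k + 1
  x1 : ∀ k, (mapF hF ho ho' hG).nx (hdrF hF ho ho' hG k) ≠ hdrF hF ho ho' hG (k + 1) →
    ω' (hdrF hF ho ho' hG k) = r' k
  x2 : ∀ k, (mapF hF ho ho' hG).nx (hdrF hF ho ho' hG k) ≠ hdrF hF ho ho' hG (k + 1) →
    ω' ((mapF hF ho ho' hG).nx.symm (hdrF hF ho ho' hG (k + 1))) + r' (k + 1) = 1
  x3 : ∀ (k : ZMod 6) (y : {d // ¬ FR M F d}), (mapF hF ho ho' hG).SameNode (hdrF hF ho ho' hG k) y →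
    A y.1 → y ≠ hdrF hF ho ho' hG k →
    y ≠ (mapF hF ho ho' hG).nx.symm (hdrF hF ho ho' hG (k + 1)) → ω' y = 0

section facts

include hG hF

/-- two adjacent ring nodes are not both corners -/
theorem no_adj {k : ZMod 6} (h : M.nx (δ k) = δ (k + 1)) : M.nx (δ (k + 1)) ≠ δ (k + 1 + 1) := by
  intro h'
  have hc := hG.corHex hF h
  have h1 : M.SameSite (kc M δ k 0) (δ (k + 1 + 1)) := by
    rw [kc0, ← h']
    exact site_nx _
  have e1 : ∀ k : ZMod 6, k + 1 + 1 ≠ k := by decide
  have e2 : ∀ k : ZMod 6, k + 1 + 1 ≠ k + 1 := by decide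
  rcases hc.ring h1 with h2 | h2
  · exact e1 k h2
  · exact e2 k h2

/-- the site of a corner hexagon which is not folded -/
theorem unt_cor {c : ZMod 6} (h : M.nx (δ c) = δ (c + 1)) (hn : ¬ F (δ (c + 1))) :
    Unt M F (δ c) := by
  intro e he hs
  have hc := hG.corHex hF h
  have h1 : FS M A δ (δ (c + 1)) := hc.fs0
  have h2 : M.SameSite e (δ (c + 1)) := by
    rw [← h]
    exact hs.trans (site_nx _)
  rw [← hG.fs_uniq (hF.fs e he) h1 h2] at he
  exact hn he

/-- the site of a ring edge which is not folded -/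
theorem unt_δ {k : ZMod 6} (h : ¬ F (δ k)) (hc : ¬ cC M δ F k) : Unt M F (δ k) := by
  rcases hG.fs_or k with h1 | h1
  · intro e he hs
    rw [hG.fs_uniq (hF.fs e he) h1 hs] at h
    exact h he
  · exact hG.unt_cor hF h1 fun h2 => hc ⟨h1, h2⟩

theorem unt_fs {g : D} (hg : FS M A δ g) (h : ¬ F g) : Unt M F g := fun e he hs =>
  h (by rw [hG.fs_uniq (hF.fs e he) hg hs]; exact he)

/-- the class of a folded ring node -/
theorem hdr_cls {k : ZMod 6} (hk : F (δ k)) : ClsF M δ F k (hdrF hF ho ho' hG k).1 := by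
  obtain ⟨L, l1, l2, l3, l4, l5⟩ := hdrF_cases ho ho' hG hF (k - 1)
  rw [sub_add_cancel] at l5
  rcases l5 with ⟨l6, l7⟩ | ⟨l6, l7, l8, l9⟩
  · rw [l7]
    refine ⟨δ k, hk, Equiv.Perm.SameCycle.refl _ _, Or.inr ?_⟩
    have := hG.toPatch.prev_node (k - 1)
    rw [sub_add_cancel] at this
    exact this.symm.trans l2
  · rw [l9]
    exact ⟨δ k, hk, Equiv.Perm.SameCycle.refl _ _, Or.inl (al_node _).symm⟩

end facts

section units

variable {ω' : {d // ¬ FR M F d} → ℕ} {a : ZMod 6 → Bool} {r r' : ZMod 6 → ℕ} {p q : ℕ}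
  {w : ZMod 6 → PState 6} {t : ZMod 6 → PState 4}

include hG hF ho ho'

/-- **The units of the lifted state.** -/
theorem unitsF (htou : ∀ d, A d → M.deg d = 6 → ∃ j e, M.SameSite d e ∧ M.SameNode (δ j) e)
    (hX : ExF hG hF ho ho' ω' r') (hP : ParF M δ F a r r' p q w t)
    (hst : ∀ c, cC M δ F c → ∀ n : ZMod 4, ω' (kD hG hF c (l6 n)) = (t c).u n)
    (x4 : ∀ y, (∀ z, (mapF hF ho ho' hG).SameNode y z → A z.1) →
      (mapF hF ho ho' hG).usum (fun x => A x.1) ω' y = 3) :
    (∀ k, M.usum A (lomF M δ F ω' r r' p q w) (δ k) + r (k + 1) = r k + 1) ∧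
      ∀ d, (∀ e, M.SameNode d e → A e) → M.usum A (lomF M δ F ω' r r' p q w) d = 3 := by
  have hcor := fun k => hG.mapF_corner hF ho ho' (k := k)
  have hnoc := fun k (hk : F (δ k)) => hG.mapF_no_corner hF ho ho' hk
  have hkom : ∀ z : {d // ¬ FR M F d}, komF ω' z.1 = ω' z := fun z => dif_pos z.2
  have hunt : ∀ (z : {d // ¬ FR M F d}) (d : D), z.1 = d → Unt M F d →
      lomF M δ F ω' r r' p q w d = ω' z := by
    rintro z d rfl hz
    rw [lomF_of hz, hkom]
  have hwc : ∀ c, cC M δ F c → ∀ i, lomF M δ F ω' r r' p q w (kc M δ c i) = (w c).u i :=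
    fun c hc i => (hG.stF_c hF ho ho' (μ' := id) (ω' := ω') (a := a) (r := r) (r' := r') (p := p)
      (q := q) (w := w) hc i).2
  have hpq := hP.pq
  have hp1 := hP.p1
  have hq1 := hP.q1
  have hpn : ∀ k, M.SameNode (δ k) (M.nx.symm (δ (k + 1))) := hG.toPatch.prev_node
  -- the ring dart of a ring node which is not folded
  have hδ : ∀ k, ¬ F (δ k) → (hdrF hF ho ho' hG (k + 1)).1 = δ k := fun k hk => by
    rw [hG.hdrF_δ hF ho ho' hk]
  -- the first sector of a link
  have hlk : ∀ k e, F e → M.SameNode (δ k) e → e ≠ δ k → LkF M δ F e := by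
    intro k e he hn hne
    refine ⟨he, fun j _ h => hne ?_, fun c _ h => hne ?_⟩
    · rw [h] at hn
      rw [h, hG.node_idx hn]
    · rw [h] at hn
      rw [h, hG.node_idx hn]
  have hlkδ : ∀ k, F (δ k) → ¬ IntF M δ F k → ¬ cC M δ F (k - 1) → LkF M δ F (δ k) := by
    intro k hk h1 h2
    refine ⟨hk, fun j hj h => h1 ?_, fun c hc h => h2 ?_⟩
    · rwa [hG.bd.inj h]
    · have : c = k - 1 := by
        rw [hG.bd.inj h]
        ring
      rwa [← this]
  have hnfull : ∀ k, M.nx (δ k) = δ (k + 1) → ¬ full M δ F k := fun k h h1 =>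
    hG.cC_not hF h (hG.full_first hF h1)
  -- the last sector of a ring node, if the next site is not folded
  have hlast : ∀ k, ¬ F (δ (k + 1)) → ¬ cC M δ F (k + 1) → Unt M F (M.nx.symm (δ (k + 1))) ∧
      ((mapF hF ho ho' hG).nx.symm (hdrF hF ho ho' hG (k + 1 + 1))).1 = M.nx.symm (δ (k + 1)) := by
    intro k h1 h2
    refine ⟨(hG.unt_δ hF h1 h2).same (site_nx_symm _), ?_⟩
    exact last1F ho ho' hG hF (ring_δ (k + 1)) (hG.δ_stayF hF h1) (hδ (k + 1) h1)
  refine lift_unitsF ho ho' hG hF (r' := r') (p := p) (q := q) hpq (fun k hk => hX.x1 k (hnoc k hk))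
    (fun k hk => hX.x2 k (hnoc k hk)) (fun k hk y h1 h2 h3 h4 => ?_) x4 hnoc (fun k hc => ?_)
    (fun k hc => ?_) (fun k hc => ?_) (fun k e he hn hne => ?_) (fun k e he hn h => ?_)
    (fun k hk h4 hf => ?_) (fun k e he hn h => ?_) (fun k hk h4 hf => ?_) (fun f hf h4 h => ?_)
    (fun z hz hr hf => ?_)
  · -- x3
    refine hX.x3 k y ?_ h2 h3 h4
    rw [mapF_sameNode ho ho' hG hF]
    exact Or.inr ⟨k, hG.hdr_cls hF ho ho' hk, h1⟩
  · -- w0
    by_cases h1 : F (δ (k + 1))
    · have h2 := hwc k ⟨hc, h1⟩ 5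
      rw [hG.kc_5 hF hc] at h2
      rw [h2]
      exact (hP.wu k ⟨hc, h1⟩).2.2.2.2
    · have h2 := hG.cC_not hF hc
      rw [hunt _ _ (hδ k h2) (hG.unt_cor hF hc h1)]
      have h3 := hX.cor (k + 1) ((hcor _).2 ⟨h1, Or.inr (by rw [add_sub_cancel_right]; exact hc)⟩)
      have h4 := hP.c3 k h2 fun h => h1 h.2
      have h5 := hP.c3 (k + 1) h1 fun h => hG.no_adj hF hc h.1
      omega
  · -- w1
    by_cases h1 : F (δ k)
    · by_cases h2 : IntF M δ F k
      · rw [hG.lomF_sp hF h2 (Equiv.Perm.SameCycle.refl _ _), spoF, if_pos rfl]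
      · by_cases h3 : cC M δ F (k - 1)
        · have h4 := hwc (k - 1) h3 0
          rw [kc0, sub_add_cancel] at h4
          rw [h4, (hP.wu _ h3).1, sub_add_cancel]
        · rw [hG.lomF_lk hF (hlkδ k h1 h2 h3) (Equiv.Perm.SameCycle.refl _ _), lkoF, if_pos rfl]
          exact (hP.c2 k h1 h2 h3).1.symm
    · have h2 : ¬ cC M δ F k := fun h => hc h.1
      rw [hunt _ _ (hδ k h1) (hG.unt_δ hF h1 h2), hP.c3 k h1 h2]
      refine hX.x1 (k + 1) fun h => ?_
      rw [hcor, add_sub_cancel_right] at h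
      rcases h.2 with h3 | h3
      · exact h1 (hG.full_first hF h3)
      · exact hc h3
  · -- w2
    by_cases h1 : F (δ (k + 1))
    · by_cases h2 : IntF M δ F (k + 1)
      · rw [hG.lomF_sp hF h2 (site_nx_symm _), spoF, if_neg (hG.ns1 _), if_neg (hG.ns2 _),
          if_pos rfl]
        have := hP.r1 (k + 1)
        omega
      · have h3 : ¬ cC M δ F (k + 1 - 1) := fun h => by
          rw [add_sub_cancel_right] at h
          exact hc h.1
        have h4 := hP.c2 (k + 1) h1 h2 h3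
        rw [hG.lomF_lk hF (hlkδ _ h1 h2 h3) (site_nx_symm _), lkoF, if_neg (hG.ns1 _),
          if_neg (hG.ns2 _), if_pos rfl]
        omega
    · by_cases h2 : cC M δ F (k + 1)
      · have h3 := hwc (k + 1) h2 4
        rw [hG.kc_4 hF h2.1] at h3
        rw [h3]
        exact (hP.wu _ h2).2.2.2.1
      · obtain ⟨h3, h4⟩ := hlast k h1 h2
        rw [hunt _ _ h4 h3]
        have h5 := hP.c3 (k + 1) h1 h2
        by_cases h6 : (mapF hF ho ho' hG).nx (hdrF hF ho ho' hG (k + 1)) =
            hdrF hF ho ho' hG (k + 1 + 1)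
        · have h7 := hX.cor _ h6
          rw [← h6, Equiv.symm_apply_apply]
          have h8 := ((hcor _).1 h6).2
          rw [add_sub_cancel_right] at h8
          have h9 : full M δ F k := h8.resolve_right hc
          have h10 := hP.c1 k (hG.full_first hF h9) (fun h => h1 h.2) fun h => h2 h.1
          omega
        · have h7 := hX.x2 _ h6
          omega
  · -- w3
    by_cases h1 : F e
    · rw [hG.lomF_lk hF (hlk k e h1 hn hne) (Equiv.Perm.SameCycle.refl _ _), lkoF, if_pos rfl]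
    · have hu := hG.unt_fs hF he h1
      have hz : ¬ FR M F e := hu.stay
      rw [hunt ⟨e, hz⟩ e rfl hu]
      have hno : ¬ full M δ F k := fun h => h1 (hG.full_all hF h he hn)
      by_cases h2 : (⟨e, hz⟩ : {d // ¬ FR M F d}) = hdrF hF ho ho' hG (k + 1)
      · have h3 : F (δ k) := by
          by_contra h3
          exact hne ((congrArg Subtype.val h2).trans (hδ k h3))
        have h4 := hP.c1 k h3 (fun h => hno (by
          have := h.1
          rwa [add_sub_cancel_right] at this)) (fun h => hno (by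
          have := h.2
          rwa [add_sub_cancel_right] at this))
        rw [h2, hX.x1 (k + 1) fun h => ?_, h4.1]
        have h5 := ((hcor _).1 h).2
        rw [add_sub_cancel_right] at h5
        rcases h5 with h5 | h5
        · exact hno h5
        · exact hG.cC_not hF h5 h3
      · refine hX.x3 (k + 1) _ (hG.mapF_ring hF ho ho' _ hn) he.1 h2 fun h3 => ?_
        have h4 : (mapF hF ho ho' hG).nx ⟨e, hz⟩ = hdrF hF ho ho' hG (k + 2) := by
          rw [h3, Equiv.apply_symm_apply]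
          congr 1
          ring
        have h5 := (unt_ri ho ho' hG hF (x := ⟨e, hz⟩) he.1 hu hn).2 h4
        exact he.2.2 (k + 1) (by rw [← h5, Equiv.symm_apply_apply])
  · -- v1
    rcases hG.f_cases hF he with ⟨j, hj, rfl⟩ | ⟨c, hc, rfl⟩ | hlk'
    · have hjk := hG.node_idx hn
      subst hjk
      have h4 : M.deg (δ k) ≠ 4 := fun h4 => h rfl h4 hj.1
      rw [hG.lomF_sp hF hj (site_nx _), spoF, if_neg (hG.ne1 _), if_pos rfl, if_neg h4]
    · have h1 := hwc c hc 1
      rw [kc1] at h1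
      rw [h1, (hP.wu c hc).2.1]
    · rw [hG.lomF_lk hF hlk' (site_nx _), lkoF, if_neg (hG.ne1 _), if_pos rfl]
  · -- v2
    have hi : IntF M δ F k := ⟨hf, hk⟩
    rw [hG.lomF_sp hF hi (site_nx _), spoF, if_neg (hG.ne1 _), if_pos rfl, if_pos h4]
    have := hX.le k
    omega
  · -- v3
    have hee : M.fs (M.al (M.nx e)) = e := by rw [fs_al, Equiv.symm_apply_apply]
    have hgA : A (M.al (M.nx e)) := (hG.fs_inn (hF.fs e he)).2
    have hgn : M.SameNode (δ k) (M.al (M.nx e)) := hn.trans (al_node e).symm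
    have hk : F (δ k) := hG.pre_first hF he hn
    have hx2 := hX.x2 k (hnoc k hk)
    by_cases h1 : M.al (M.nx e) = M.nx.symm (δ (k + 1))
    · have hf : full M δ F k := by
        unfold full
        rw [← h1, hee]
        exact he
      rw [h1]
      by_cases h2 : F (δ (k + 1))
      · have hi : IntF M δ F (k + 1) := ⟨by rw [add_sub_cancel_right]; exact hf, h2⟩
        have h4 : M.deg (δ (k + 1)) ≠ 4 := fun h4 => h h1 h4 h2
        rw [hG.lomF_sp hF hi ((site_nx_symm _).trans (site_nx_symm _)), spoF, if_neg (hG.ns3 _),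
          if_neg (hG.ns4 _), if_neg (hG.ns1 _), if_pos rfl, if_neg h4]
      · by_cases h3 : cC M δ F (k + 1)
        · have h4 := hwc (k + 1) h3 3
          have h5 : kc M δ (k + 1) 3 = M.nx.symm (M.nx.symm (δ (k + 1))) := by
            rw [← hG.kc_4 hF h3.1, Equiv.eq_symm_apply, (hG.kc_num hF h3.1).nx]
            rfl
          rw [h5] at h4
          rw [h4]
          exact hP.wt (k + 1) ⟨h3, by rw [add_sub_cancel_right]; exact hf⟩
        · have h4 := hG.hdrF_full hF ho ho' hf fun h => h2 h.1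
          have h5 := (hlast k h2 h3).1
          have h6 := last1F ho ho' hG hF (k := k + 1) (hG.toPatch.ring_prev (k + 1)) h5.stay h4
          rw [hunt _ _ h6 (h5.same (site_nx_symm _))]
          have h7 := hP.c1 k hk (fun h => h2 h.2) fun h => h3 h.1
          omega
    · have hg := hG.fs_at hF hgA hgn h1
      by_cases h2 : F (M.al (M.nx e))
      · have h3 : LkF M δ F (M.al (M.nx e)) := hlk k _ h2 hgn fun h3 =>
          hG.toPatch.notA k (by rw [← h3, M.inv]; exact (hG.fs_inn (hF.fs e he)).1)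
        rw [hG.lomF_lk hF h3 (site_nx_symm _), lkoF, if_neg (hG.ns1 _), if_neg (hG.ns2 _),
          if_pos rfl]
      · have hu := hG.unt_fs hF hg h2
        have h3 := hG.hdrF_stop hF ho ho' hgn (by rw [hee]; exact he) hu.stay
        have h4 := last1F ho ho' hG hF (k := k + 1) (ring_same hgn (ring_δ k)) hu.stay (by rw [h3])
        rw [hunt _ _ h4 (hu.same (site_nx_symm _))]
        have hno : ¬ full M δ F k := fun h => h2 (hG.full_all hF h hg hgn)
        have h7 := hP.c1 k hk (fun h => hno (by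
          have := h.1
          rwa [add_sub_cancel_right] at this)) (fun h => hno (by
          have := h.2
          rwa [add_sub_cancel_right] at this))
        omega
  · -- v4
    have hi : IntF M δ F (k + 1) := ⟨by rw [add_sub_cancel_right]; exact hf, hk⟩
    rw [hG.lomF_sp hF hi ((site_nx_symm _).trans (site_nx_symm _)), spoF, if_neg (hG.ns3 _),
      if_neg (hG.ns4 _), if_neg (hG.ns1 _), if_pos rfl, if_pos h4]
    have := hX.le (k + 1)
    omega
  · -- u5
    rcases hG.f_cases hF hf with ⟨j, hj, rfl⟩ | ⟨c, hc, rfl⟩ | hlk'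
    · exact absurd hj.1 (h j rfl)
    · have := hG.cC_deg hF hc.1
      omega
    · rw [hG.lomF_lk hF hlk' ((site_nx _).trans (site_nx _)), lkoF, if_neg (hG.ne2 _),
        if_neg (hG.ne1 _), if_neg (fun h => hG.ne3 f (by
          have h1 := congrArg M.nx h
          rwa [Equiv.apply_symm_apply] at h1)), komF, dif_neg (not_not.2 (FoldSet.r2 hf h4))]
  · -- u6
    by_cases h1 : ∃ k, IntF M δ F k ∧ M.SameSite (δ k) z.1
    · obtain ⟨k, hk, hs⟩ := h1
      rw [hG.lomF_sp hF hk hs, spoF, if_neg fun h => z.2 (by rw [h]; exact FoldSet.r0 hk.2),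
        if_neg fun h => z.2 (by rw [h]; exact FoldSet.r1 hk.2),
        if_neg fun h => hr (by rw [h]; exact hG.toPatch.ring_prev k), if_neg fun h => hf ?_, hkom]
      rw [h, Equiv.apply_symm_apply]
      have := hk.1
      unfold full at this
      rwa [sub_add_cancel] at this
    · by_cases h2 : ∃ c, cC M δ F c ∧ M.SameSite (δ (c + 1)) z.1
      · obtain ⟨c, hc, hs⟩ := h2
        obtain ⟨i, hi⟩ := hG.kc_mem hF hc.1 hs
        have hkd : ∀ n : ZMod 4, i = l6 n → ω' z = (t c).u n := by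
          rintro n rfl
          rw [← hst c hc n]
          congr 1
          exact Subtype.ext (by rw [← hi, kD_l6 hc])
        have h3 := hwc c hc i
        rw [← hi, h3]
        rcases hG.kc_rem hF hc (i := i) (by rw [hi]; exact z.2) with rfl | rfl | rfl | rfl
        · rw [hkd 0 (by decide)]
          exact (hP.wu c hc).2.2.1
        · rw [hkd 1 (by decide)]
          refine hP.wl c ⟨hc, fun h4 => hf ?_⟩
          rw [← hi, (hG.kc_num hF hc.1).nx, show (3 : ZMod 6) + 1 = 4 from rfl, hG.kc_4 hF hc.1]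
          unfold full at h4
          rwa [sub_add_cancel] at h4
        · exfalso
          apply hr
          rw [← hi, hG.kc_4 hF hc.1]
          exact hG.toPatch.ring_prev c
        · exfalso
          apply hr
          rw [← hi, hG.kc_5 hF hc.1]
          exact ring_δ c
      · by_cases h3 : ∃ e, F e ∧ M.SameSite e z.1
        · obtain ⟨e, he, hs⟩ := h3
          have h4 : LkF M δ F e := ⟨he, fun k hk h => h1 ⟨k, hk, by rw [← h]; exact hs⟩,
            fun c hc h => h2 ⟨c, hc, by rw [← h]; exact hs⟩⟩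
          rw [hG.lomF_lk hF h4 hs, lkoF, if_neg fun h => z.2 (by rw [h]; exact FoldSet.r0 he),
            if_neg fun h => z.2 (by rw [h]; exact FoldSet.r1 he), if_neg fun h => ?_, hkom]
          obtain ⟨k, hk⟩ := (hF.fs e he).2.1
          rcases hG.asec (hF.fs e he).1 hk with h5 | h5
          · exact hr (by rw [h, h5]; exact hG.toPatch.ring_prev k)
          · refine hf ?_
            rw [h, Equiv.apply_symm_apply]
            exact hF.pre e he h5
        · push Not at h3
          exact hunt z z.1 rfl h3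

end units

end Gen

end DMap

end GT33
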