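import Pool.Agent.GT33.PreO
import Pool.Agent.GT33.NoCor
import Pool.Agent.GT33.PartM
import Pool.Agent.GT33.CtrG
import Pool.Agent.GT33.Final

/-!
# GT33 module RWB: the folded map of a contracted patch

All hexagons are folded: the folded map is a patch of quads (`Gen.mapF_real`), its corner set is `KF`
(`Gen.mapF_KS`), two adjacent ring nodes are not both corners (`Gen.KF_adj`), and the induction hypothesis gives the
sources (`Gen.src`, `Gen.srcF`).
-/

open Classical

namespace GT33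

namespace DMap

variable {D : Type} {M : DMap D} {A : D → Prop} {δ : ZMod 6 → D}

open Patch

/-- the corner set of the folded map -/
def KF (M : DMap D) (δ : ZMod 6 → D) (F : D → Prop) (k : ZMod 6) : Prop :=
  ¬ F (δ k) ∧ full M δ F (k - 1)

namespace Gen

variable [Fintype D] (hG : M.Gen A δ) {F : D → Prop} (hF : Pre M A δ F) {o : D → Bool}
  (ho : ∀ d, o (M.nx d) = !o d) (ho' : ∀ d, o (M.al d) = !o d)

include hG hF

/-- all sites of the folded map are quads -/
theorem mapF_real (x : {d // ¬ FR M F d}) (hx : A x.1) : (mapF hF ho ho' hG).deg x = 4 := by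
  by_cases h : ∃ e, F e ∧ M.SameSite e x.1
  · obtain ⟨e, he, hs⟩ := h
    exact (hG.mapF_deg_fold hF ho ho' he hs).2
  · push Not at h
    rw [hG.mapF_deg_of hF ho ho' h]
    rcases hG.deg46 x.1 with h4 | h6
    · exact h4
    · obtain ⟨e, hs, he⟩ := hF.hex _ hx h6
      exact absurd hs.symm (h e he)

/-- **the corner set of the folded map** -/
theorem mapF_KS (κ : (ZMod 6 → {d // ¬ FR M F d}) → ZMod 6 → Prop) (k : ZMod 6) :
    KS (mapF hF ho ho' hG) κ (hdrF hF ho ho' hG) k ↔ KF M δ F k := by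
  have hP := hG.mapF_patch hF ho ho'
  have h1 : (mapF hF ho ho' hG).deg (hdrF hF ho ho' hG k) = 4 :=
    hG.mapF_real hF ho ho' _ (hP.inA k)
  have h2 : KS (mapF hF ho ho' hG) κ (hdrF hF ho ho' hG) k ↔
      (mapF hF ho ho' hG).nx (hdrF hF ho ho' hG k) = hdrF hF ho ho' hG (k + 1) :=
    ⟨fun h => h.1, fun h => ⟨h, Or.inl h1⟩⟩
  rw [h2, hG.mapF_corner hF ho ho']
  refine ⟨fun h => ⟨h.1, h.2.resolve_right fun h3 => ?_⟩, fun h => ⟨h.1, Or.inl h.2⟩⟩
  have ek : k - 1 + 1 = k := sub_add_cancel k 1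
  have h4 : M.nx (δ (k - 1)) = δ (k - 1 + 1) := by rw [ek]; exact h3
  obtain ⟨e, he, heF⟩ := hF.hex _ (hG.toPatch.inA (k - 1)) (hG.nc _ h4)
  have hc := hG.corHex hF h4
  have h5 : FS M A δ (δ (k - 1 + 1)) := hc.fs0
  rw [ek] at h5
  have h6 : M.SameSite e (δ k) := by
    rw [← h3]
    exact he.symm.trans (site_nx _)
  exact h.1 (hG.fs_uniq (hF.fs e heF) h5 h6 ▸ heF)

/-- two adjacent ring nodes of the folded map are not both corners -/
theorem KF_adj {k : ZMod 6} (h : KF M δ F k) : ¬ KF M δ F (k + 1) := by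
  rintro ⟨-, h1⟩
  rw [add_sub_cancel_right] at h1
  rcases hG.fs_or k with h2 | h2
  · exact h.1 (hG.full_all hF h1 h2 (Equiv.Perm.SameCycle.refl _ _))
  · have h3 : F (M.fs (δ k)) := by
      have h4 : δ k = M.nx.symm (δ (k + 1)) := by rw [← h2, Equiv.symm_apply_apply]
      unfold full at h1
      rwa [← h4] at h1
    have h5 : M.SameNode (δ k) (M.fs (δ k)) := ⟨1, by rw [zpow_one]⟩
    rcases hG.toPatch.cor_node h2 h5 with h6 | h6
    · rw [h6] at h3
      exact h.1 h3
    · have h7 := (hF.fs _ h3).1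
      rw [h6] at h7
      exact hG.toPatch.notA _ h7

variable {Good : (ZMod 6 → Prop) → Prop → Rel → Prop}

/-- **The induction hypothesis for the folded map**. -/
theorem src {B : Boxes D} (hO : M.Obj Good A δ B) (hne : ∃ e, F e) {n : ℕ} (hn : Nat.card D ≤ n) (IH : IHR Good n) :
    Good (KF M δ F) (Star (mapF hF ho ho' hG) fun x => A x.1)
      (Rz (mapF hF ho ho' hG) (fun x => A x.1) (hdrF hF ho ho' hG)
        (B.pull fun x : {d // ¬ FR M F d} => x.1).β) := by
  have hP := hG.mapF_patch hF ho ho'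
  have hq := hG.mapF_real hF ho ho'
  have hK : KS (mapF hF ho ho' hG) (B.pull fun x : {d // ¬ FR M F d} => x.1).κ
      (hdrF hF ho ho' hG) = KF M δ F := funext fun k => propext (hG.mapF_KS hF ho ho' _ k)
  have h8 : Nat.card {x : {d // ¬ FR M F d} // A x.1} ≠ 8 := by
    intro h8
    obtain ⟨c, r, r', hp⟩ := exists_P1 hP.legal hP.bd h8
    have k0 : (mapF hF ho ho' hG).nx (hdrF hF ho ho' hG (0 + c)) =
        hdrF hF ho ho' hG (1 + c) := by
      have := hp.n.nx 3
      rw [hp.r3] at this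
      exact this.trans hp.r0
    have k1 : (mapF hF ho ho' hG).nx (hdrF hF ho ho' hG (1 + c)) =
        hdrF hF ho ho' hG (2 + c) := by
      have := hp.n.nx 0
      rw [hp.r0] at this
      exact this.trans hp.r1
    have a0 : KF M δ F (0 + c) := (hG.mapF_KS hF ho ho'
      (fun _ _ => False) _).1 ⟨by
        have e : 0 + c + 1 = 1 + c := by ring
        rw [e]
        exact k0, Or.inl (hq _ (hP.inA _))⟩
    have a1 : KF M δ F (0 + c + 1) := (hG.mapF_KS hF ho ho'
      (fun _ _ => False) _).1 ⟨by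
        have e : 0 + c + 1 = 1 + c := by ring
        have e' : 1 + c + 1 = 2 + c := by ring
        rw [e, e']
        exact k1, Or.inl (hq _ (hP.inA _))⟩
    exact hG.KF_adj hF a0 a1
  have h6 := IH _ _ _ _ _ (hO.mapF ho ho' hG hF) hq (by
    have c1 := card_add' fun x : {d // ¬ FR M F d} => A x.1
    have c2 := hP.card_root
    omega) (lt_of_lt_of_le (card_foldF hne) hn)
  have h7 : StarL (mapF hF ho ho' hG) (fun x => A x.1) (hdrF hF ho ho' hG)
      (B.pull fun x : {d // ¬ FR M F d} => x.1) = Star (mapF hF ho ho' hG) fun x => A x.1 := by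
    apply propext
    refine ⟨?_, Or.inl⟩
    rintro (h | h)
    · exact h
    · exact absurd h.1 (not_single hP fun x hx => hq x hx)
  rw [h7, hK] at h6
  exact h6

/-- **The induction hypothesis for the folded map**, two adjacent ring nodes which are no corners. -/
theorem srcF {B : Boxes D} (hO : M.Obj Good A δ B) (hne : ∃ e, F e) {n : ℕ} (hn : Nat.card D ≤ n) (IH : IHR Good n) {i : ZMod 6} (h1 : ¬ KF M δ F i)
    (h2 : ¬ KF M δ F (i + 1)) :
    Good (KF M δ F) False (Rz (mapF hF ho ho' hG) (fun x => A x.1) (hdrF hF ho ho' hG)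
        (B.pull fun x : {d // ¬ FR M F d} => x.1).β) := by
  have hP := hG.mapF_patch hF ho ho'
  have h3 : ∀ k, ¬ KF M δ F k →
      (mapF hF ho ho' hG).nx (hdrF hF ho ho' hG k) ≠ hdrF hF ho ho' hG (k + 1) := fun k hk h4 =>
    hk ((hG.mapF_KS hF ho ho' (fun _ _ => False) k).1
      ⟨h4, Or.inl (hG.mapF_real hF ho ho' _ (hP.inA k))⟩)
  have h4 := (Patch.two_noncorner hP (h3 i h1) (h3 _ h2)).2.1
  have h5 := hG.src hF ho ho' hO hne hn IH
  rwa [show (Star (mapF hF ho ho' hG) fun x => A x.1) = False from propext ⟨h4, False.elim⟩] at h5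

end Gen

end DMap

end GT33
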