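import Pool.Agent.GT33.ExQ
import Pool.Agent.GT33.RwB

/-!
# GT33 module EXR: the corner quad of a corner hexagon which is folded through

The corner hexagon at `c` is folded at its last sector `δ (c + 1)` and the ring node `c - 1` is full, so the folded map
has the corner quad `K` of the hexagon at the corner `c`; the ring node `c + 1` is full and the ring node `c + 2` is
a corner of the folded map: a quad or a corner hexagon which is folded.  If the folded map is not a star then the rest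
without `K` has no corner at `c - 1`, `c` and `c + 1`, and its ring is exact.
-/

open Classical

namespace GT33

namespace DMap

variable {D : Type} {M : DMap D} {A : D → Prop} {δ : ZMod 6 → D} {F : D → Prop}

open Patch

/-- the corners of two quads -/
theorem two_quads_cor [Fintype D] (hM : M.Legal) (hb : M.Bd A 6 δ) (h8 : Nat.card {d // A d} = 8) :
    ∃ c : ZMod 6, Cor M δ c ∧ Cor M δ (c + 1) ∧ Cor M δ (c + 3) ∧ Cor M δ (c + 4) := by
  obtain ⟨c, r, r', hp⟩ := exists_P1 hM hb h8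
  have h4 : ∀ j k : ZMod 6, k = j + 1 → M.nx (δ (j + c)) = δ (k + c) → Cor M δ (c + j) := by
    rintro j k rfl h5
    have e : j + 1 + c = c + j + 1 := by ring
    show M.nx (δ (c + j)) = δ (c + j + 1)
    rw [← e, add_comm c j]
    exact h5
  refine ⟨c, ?_, h4 1 2 (by decide) ?_, h4 3 4 (by decide) ?_, h4 4 5 (by decide) ?_⟩
  · have := h4 0 1 (by decide) (by
      have := hp.n.nx 3
      rw [hp.r3] at this
      exact this.trans hp.r0)
    rwa [add_zero] at this
  · have := hp.n.nx 0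
    rw [hp.r0] at this
    exact this.trans hp.r1
  · have := hp.n'.nx 0
    rw [hp.s0] at this
    exact this.trans hp.s1
  · have := hp.n'.nx 1
    rw [hp.s1] at this
    exact this.trans hp.s2

/-- two quads do not have two common edges -/
theorem Legal.quads_share [Fintype D] (hL : M.Legal) {p q x y : D} (h4 : M.deg p = 4) (h4' : M.deg q = 4)
    (hx : M.SameSite p x) (hy : M.SameSite p y) (hx' : M.SameSite q (M.al x))
    (hy' : M.SameSite q (M.al y)) (hxy : x ≠ y) (h6 : ∃ r, M.deg r = 6) : False := by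
  have hne : ¬ M.SameSite p q := fun h => hL.noloop x ((hx.symm.trans h).trans hx')
  have h1 := Gen.cut_two hL hne
  have h3 : 1 < (Finset.univ.filter fun x => M.SameSite p x ∧ M.SameSite q (M.al x)).card := by
    rw [Finset.one_lt_card]
    exact ⟨x, by simp [hx, hx'], y, by simp [hy, hy'], hxy⟩
  have hC : M.Sites fun x => M.SameSite p x ∨ M.SameSite q x := (M.sites_site p).or (M.sites_site q)
  obtain ⟨r, hr⟩ := h6
  have hrC : ¬ (M.SameSite p r ∨ M.SameSite q r) := by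
    rintro (h | h) <;> have := deg_same h <;> omega
  have h5 := hL.cut4 _ hC ⟨p, Or.inl (Equiv.Perm.SameCycle.refl _ _)⟩ ⟨r, hrC⟩
  rcases hL.quad _ hC (by omega) with ⟨z, hz⟩ | ⟨z, hz⟩
  · exact hne (((hz p).1 (Or.inl (Equiv.Perm.SameCycle.refl _ _))).symm.trans
      ((hz q).1 (Or.inr (Equiv.Perm.SameCycle.refl _ _))))
  · have h7 := (hz r).1 hrC
    have h8 : M.cut (fun x => M.SameSite p x ∨ M.SameSite q x) = 6 := by
      rw [← cut_not, cut_congr hz, hL.cut_site, deg_same h7, hr]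
    omega

theorem nx_six {d : D} (h : M.deg d = 6) :
    M.nx (M.nx (M.nx (M.nx (M.nx (M.nx d))))) = d := by
  have h1 : (M.nx)^[6] d = d := by
    have := Function.isPeriodicPt_minimalPeriod M.nx d
    rw [deg] at h
    rw [h] at this
    exact this
  exact h1

namespace Gen

variable [Fintype D] (hG : M.Gen A δ)

include hG

/-- a hexagon and a quad with two common edges and three ring edges -/
theorem no_two {p s x y : D} (h6 : M.deg p = 6) (h4 : M.deg s = 4) (hp : A p) (hs : A s)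
    (hx : M.SameSite p x) (hy : M.SameSite p y) (hx' : M.SameSite s (M.al x))
    (hy' : M.SameSite s (M.al y)) (hxy : x ≠ y) {i j k : ZMod 6} (hij : i ≠ j)
    (hi : M.SameSite p (δ i)) (hj : M.SameSite p (δ j)) (hk : M.SameSite s (δ k)) : False := by
  have hne : ¬ M.SameSite p s := fun h => by
    have := deg_same h
    omega
  have hC : M.Sites fun x => M.SameSite p x ∨ M.SameSite s x := (M.sites_site p).or (M.sites_site s)
  have hCA : ∀ x, M.SameSite p x ∨ M.SameSite s x → A x := by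
    rintro x (h | h)
    · exact (hG.toPatch.sites.same h).1 hp
    · exact (hG.toPatch.sites.same h).1 hs
  have h1 := cut_two hG.legal hne
  have h2 := hG.share hp hs hne
  have h3 : 1 < (Finset.univ.filter fun x => M.SameSite p x ∧ M.SameSite s (M.al x)).card := by
    rw [Finset.one_lt_card]
    exact ⟨x, by simp [hx, hx'], y, by simp [hy, hy'], hxy⟩
  have h5 : M.cut (fun x => M.SameSite p x ∨ M.SameSite s x) = 6 := by omega
  have h7 : 3 ≤ scut δ (fun x => M.SameSite p x ∨ M.SameSite s x) := by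
    have h8 : ({i, j, k} : Finset (ZMod 6)) ⊆ Finset.univ.filter fun i =>
        M.SameSite p (δ i) ∨ M.SameSite s (δ i) := by
      intro m hm
      simp only [Finset.mem_insert, Finset.mem_singleton] at hm
      simp only [Finset.mem_filter, Finset.mem_univ, true_and]
      rcases hm with rfl | rfl | rfl
      · exact Or.inl hi
      · exact Or.inl hj
      · exact Or.inr hk
    have h9 : ({i, j, k} : Finset (ZMod 6)).card = 3 := by
      have e1 : i ≠ k := by
        rintro rfl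
        exact hne (hi.trans hk.symm)
      have e2 : j ≠ k := by
        rintro rfl
        exact hne (hj.trans hk.symm)
      rw [Finset.card_insert_of_notMem (by simp [hij, e1]), Finset.card_insert_of_notMem (by
        simp [e2]), Finset.card_singleton]
    rw [← h9]
    unfold scut
    refine Finset.card_le_card fun m hm => ?_
    have h11 := h8 hm
    simp only [Finset.mem_filter, Finset.mem_univ, true_and] at h11 ⊢
    exact h11
  have h10 := hG.toPatch.cut_eq hCA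
  by_cases hn : TrivS A fun x => M.SameSite p x ∨ M.SameSite s x
  · rcases hn with hn | hn
    · exact hn p (Or.inl (Equiv.Perm.SameCycle.refl _ _))
    · -- the quad has three inner edges, all shared with the hexagon
      have a1 : ∀ e, M.SameSite s e ↔ M.SameSite s e := fun _ => Iff.rfl
      have a2 := hG.scut_quad1 h4 a1
      have a3 := hG.toPatch.cut_eq (B := M.SameSite s) fun d h => hCA d (Or.inr h)
      rw [hG.legal.cut_site, h4] at a3
      have a4 : rcut M A (M.SameSite s) ≤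
          (Finset.univ.filter fun x => M.SameSite p x ∧ M.SameSite s (M.al x)).card := by
        unfold rcut
        rw [Nat.card_eq_fintype_card, Fintype.card_subtype]
        refine Finset.card_le_card_of_injOn M.al (fun d hd => ?_) fun x _ y _ h => M.al_inj h
        rw [Finset.mem_coe, Finset.mem_filter] at hd ⊢
        rw [M.inv]
        obtain ⟨-, ⟨b1, b2⟩, b3⟩ := hd
        refine ⟨Finset.mem_univ _, ?_, b1⟩
        rcases hn _ b3.2 with h | h
        · exact h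
        · exact absurd h b2
      omega
  · obtain ⟨b1, b2, b3, b4, b5, b6⟩ := hG.nums hC hCA hn
    have b7 := fun h => (b5 h).1
    omega

/-- a folded quad which shares the two edges at its fold with a hexagon -/
theorem no_two_F (hF : Pre M A δ F) {p x y f : D} (h6 : M.deg p = 6) (hp : A p)
    (hx : M.SameSite p x) (hy : M.SameSite p y) (hf : F f) (h4 : M.deg f = 4)
    (hx' : M.al x = f) (hy' : M.al y = M.nx.symm f)
    (hw : ∃ d, A d ∧ ¬ (M.SameSite p d ∨ M.SameSite f d)) : False := by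
  have hs : A f := (hF.fs _ hf).1
  have hne : ¬ M.SameSite p f := fun h => by
    have := deg_same h
    omega
  have hC : M.Sites fun x => M.SameSite p x ∨ M.SameSite f x := (M.sites_site p).or (M.sites_site f)
  have hCA : ∀ x, M.SameSite p x ∨ M.SameSite f x → A x := by
    rintro x (h | h)
    · exact (hG.toPatch.sites.same h).1 hp
    · exact (hG.toPatch.sites.same h).1 hs
  have h1 := cut_two hG.legal hne
  have h2 := hG.share hp hs hne
  have hsx : M.SameSite f (M.al x) := by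
    rw [hx']
  have hsy : M.SameSite f (M.al y) := by
    rw [hy']
    exact site_nx_symm f
  have hxy : x ≠ y := by
    rintro rfl
    rw [hx'] at hy'
    have := hG.ne1 (M.nx.symm f)
    rw [Equiv.apply_symm_apply] at this
    exact this hy'
  have h3 : 1 < (Finset.univ.filter fun x => M.SameSite p x ∧ M.SameSite f (M.al x)).card := by
    rw [Finset.one_lt_card]
    exact ⟨x, by simp [hx, hsx], y, by simp [hy, hsy], hxy⟩
  have h5 : M.cut (fun x => M.SameSite p x ∨ M.SameSite f x) = 6 := by omega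
  have h7 := hF.triv _ hC hCA hw h5 ⟨M.nx f, ⟨Or.inr (site_nx f), ?_⟩, by
    rw [Equiv.symm_apply_apply]; exact hf⟩
  · rcases h7 with ⟨q, hq⟩ | ⟨q, r, hq, hr, hqr⟩
    · exact hne (((hq p).1 (Or.inl (Equiv.Perm.SameCycle.refl _ _))).symm.trans
        ((hq f).1 (Or.inr (Equiv.Perm.SameCycle.refl _ _))))
    · rcases (hqr p).1 (Or.inl (Equiv.Perm.SameCycle.refl _ _)) with h | h
      · have := deg_same h
        omega
      · have := deg_same h
        omega
  · rintro (h | h)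
    · -- a third common edge
      have h8 : 2 < (Finset.univ.filter fun x => M.SameSite p x ∧ M.SameSite f (M.al x)).card := by
        rw [Finset.two_lt_card]
        refine ⟨x, by simp [hx, hsx], y, by simp [hy, hsy], M.al (M.nx f), by
          simp only [Finset.mem_filter, Finset.mem_univ, true_and]
          refine ⟨h, ?_⟩
          rw [M.inv]
          exact site_nx f, hxy, ?_, ?_⟩
        · intro h9
          rw [h9, M.inv] at hx'
          exact hG.ne1 f hx'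
        · intro h9
          rw [h9, M.inv] at hy'
          apply hG.ne2 f
          rw [hy', Equiv.apply_symm_apply]
      omega
    · exact hG.nl (M.nx f) ((site_nx f).symm.trans h)

end Gen

/-- the corner hexagon at `c` is folded through; the ring node `c + 2` is a corner of the folded map -/
structure Thr (M : DMap D) (δ : ZMod 6 → D) (F : D → Prop) (c : ZMod 6) : Prop where
  cor : M.nx (δ c) = δ (c + 1)
  f1 : F (δ (c + 1))
  fl : full M δ F (c - 1)
  fr : full M δ F (c + 1)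
  n2 : ¬ F (δ (c + 2))

namespace Gen

variable [Fintype D] (hG : M.Gen A δ) (hF : Pre M A δ F) {c : ZMod 6} (h : Thr M δ F c)

include hG hF

omit hG in
theorem thr_not (hc : M.nx (δ c) = δ (c + 1)) : ¬ F (δ c) := fun h1 =>
  (hF.fs _ h1).2.2 (c + 1) (by rw [← hc, Equiv.symm_apply_apply])

include h

omit hF [Fintype D] in
theorem thr_six : M.deg (δ (c + 1)) = 6 := by
  have := hG.nc _ h.cor
  rwa [← deg_nx, h.cor] at this

/-- the site at the ring node `c + 2`: a quad or a corner hexagon which is folded -/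
theorem thr_two : (FS M A δ (δ (c + 2)) ∧ M.deg (δ (c + 2)) = 4) ∨
    (M.nx (δ (c + 2)) = δ (c + 3) ∧ M.deg (δ (c + 2)) = 6 ∧ F (δ (c + 3))) := by
  have ec : c + 2 + 1 = c + 3 := by ring
  by_cases h1 : M.nx (δ (c + 2)) = δ (c + 3)
  · right
    rw [← ec] at h1
    have h6 := hG.nc _ h1
    obtain ⟨e, he, heF⟩ := hF.hex _ (hG.toPatch.inA _) h6
    have h5 : FS M A δ (δ (c + 2 + 1)) := (hG.corHex hF h1).fs0
    have h7 : M.SameSite e (δ (c + 2 + 1)) := by
      rw [← h1]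
      exact he.symm.trans (site_nx _)
    rw [← ec]
    exact ⟨h1, h6, hG.fs_uniq (hF.fs e heF) h5 h7 ▸ heF⟩
  · left
    have h2 : FS M A δ (δ (c + 2)) := by
      rcases hG.fs_or (c + 2) with h2 | h2
      · exact h2
      · rw [ec] at h2
        exact absurd h2 h1
    refine ⟨h2, (hG.deg46 _).resolve_right fun h6 => ?_⟩
    obtain ⟨e, he, heF⟩ := hF.hex _ h2.1 h6
    exact h.n2 (hG.fs_uniq (hF.fs e heF) h2 he.symm ▸ heF)

/-- the site at the ring node `c + 2` is not the hexagon -/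
theorem thr_site : ¬ M.SameSite (δ (c + 1)) (δ (c + 2)) := fun h1 => by
  rcases hG.thr_two hF h with ⟨-, h2⟩ | ⟨h2, -, h3⟩
  · have h4 := deg_same h1
    rw [hG.thr_six h, h2] at h4
    omega
  · have h4 : M.SameSite (δ (c + 1)) (δ (c + 3)) := by
      rw [← h2]
      exact h1.trans (site_nx _)
    have h5 := hG.bd.inj (hG.fs_uniq (hF.fs _ h.f1) (hF.fs _ h3) h4)
    have key : ∀ c : ZMod 6, c + 1 ≠ c + 3 := by decide
    exact key c h5.symm

/-- the darts which stay -/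
theorem thr_kept1 : ¬ FR M F (M.nx.symm (δ (c + 2))) := by
  rcases hG.thr_two hF h with ⟨h2, -⟩ | ⟨-, h2, -⟩
  · exact hG.kept_of_fs hF h2 h.n2 (site_nx_symm _)
  · exact frF_not hF (hG.prev_stay (by rw [h2]; decide))

theorem thr_kept2 : ¬ FR M F (M.nx.symm (M.nx.symm (δ (c + 2)))) := by
  rcases hG.thr_two hF h with ⟨h2, -⟩ | ⟨h1, h2, h3⟩
  · exact hG.kept_of_fs hF h2 h.n2 ((site_nx_symm _).trans (site_nx_symm _))
  · have hs : M.SameSite (δ (c + 3)) (δ (c + 2)) := by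
      rw [← h1]
      exact (site_nx _).symm
    have key : ∀ x, M.SameSite (δ (c + 2)) x → F x → x = δ (c + 3) := fun x hx hxF =>
      hG.fs_uniq (hF.fs _ h3) (hF.fs _ hxF) (hs.trans hx)
    rintro (h4 | h4 | ⟨h4, -⟩)
    · have h5 := key _ ((site_nx_symm _).trans (site_nx_symm _)) h4
      rw [← h1, Equiv.symm_apply_eq, Equiv.symm_apply_eq] at h5
      exact hG.ne3 _ h5.symm
    · have h5 := key _ (((site_nx_symm _).trans (site_nx_symm _)).trans (site_nx_symm _)) h4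
      rw [← h1, Equiv.symm_apply_eq, Equiv.symm_apply_eq, Equiv.symm_apply_eq] at h5
      have h6 := nx_six h2
      rw [← h5] at h6
      exact hG.ne2 _ h6
    · rw [← deg_nx, Equiv.apply_symm_apply, ← deg_nx, Equiv.apply_symm_apply, h2] at h4
      omega

/-- the sector across the last edge of the hexagon stays -/
theorem thr_al3 (hin : ∀ j, ¬ ClsF M δ F j (M.nx (M.nx (δ (c + 1))))) :
    ¬ FR M F (M.al (M.nx (M.nx (δ (c + 1))))) := by
  intro hR
  have heF := h.f1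
  have he := hF.fs _ heF
  have h6 := hG.thr_six h
  have h2 := hG.thr_two hF h
  have hst := hG.thr_site hF h
  obtain ⟨e, hee⟩ : ∃ e, e = δ (c + 1) := ⟨_, rfl⟩
  rw [← hee] at heF he h6 hin hR hst
  have hn : M.SameNode (M.nx e) (M.al (M.nx (M.nx e))) := (al_node _).symm
  rcases remF hF (hG.fs1 he) hn hR with ⟨f, hf, h1⟩ | ⟨f, hf, h4, h1⟩ | ⟨f, hf, h4, h1⟩
  · have h2 := hG.chain (hF.fs _ hf) he (by rw [← h1]; exact hn.symm)
    rw [h2] at h1
    exact hG.nl (M.nx (M.nx e)) (by rw [h1]; exact (site_nx _).symm)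
  · have h3 : f = M.al (M.nx e) := hG.rad_uniq he (hF.fs _ hf).1 (hF.fs _ hf).2.1 (by
      rw [← h1]
      exact fun h3 => hG.fs1 he (ring_same hn.symm h3)) (by rw [← h1]; exact hn.symm)
    refine hG.no_two_F hF (p := e) (x := M.nx e) (y := M.nx (M.nx e)) h6 he.1 (site_nx _)
      ((site_nx _).trans (site_nx _)) hf h4 h3.symm h1 ⟨δ (c + 2), hG.toPatch.inA _, ?_⟩
    rintro (h5 | h5)
    · exact hst h5
    · rcases h2 with ⟨h2, -⟩ | ⟨-, h2, -⟩
      · exact h.n2 (hG.fs_uniq (hF.fs _ hf) h2 h5 ▸ hf)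
      · have h7 := deg_same h5
        omega
  · obtain ⟨j, hj⟩ := (hF.fs _ hf).2.1
    refine hin j ⟨f, hf, hj, Or.inl ?_⟩
    have h2 := nx_symm_node (M := M) (M.al (M.nx (M.nx e)))
    rw [M.inv, h1, Equiv.symm_apply_apply] at h2
    exact h2.symm

/-- the last folded sector at the ring node `c + 1` -/
theorem thr_last (hd : M.deg (δ (c + 2)) = 4) :
    M.al (M.nx (M.nx (δ (c + 1)))) ≠ M.nx.symm (M.nx.symm (δ (c + 2))) := by
  intro h0
  have he := hF.fs _ h.f1
  have hfr := h.fr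
  have ec : c + 1 + 1 = c + 2 := by ring
  unfold full at hfr
  rw [ec] at hfr
  have h2 : M.nx (M.fs (M.nx.symm (δ (c + 2)))) = M.al (M.nx.symm (δ (c + 2))) := nx_fs M _
  have h3 : M.fs (M.nx.symm (δ (c + 2))) = δ (c + 1) := by
    refine hG.chain (hF.fs _ hfr) he ?_
    rw [h2]
    refine (nx_symm_node _).trans ?_
    rw [← h0]
    exact al_node _
  rw [h3] at h2
  refine hG.no_two (p := δ (c + 1)) (s := δ (c + 2)) (x := M.nx (δ (c + 1)))
    (y := M.nx (M.nx (δ (c + 1)))) (hG.thr_six h) hd he.1 (hG.toPatch.inA _) (site_nx _)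
    ((site_nx _).trans (site_nx _)) ?_ ?_ (fun h4 => hG.ne1 _ h4.symm) (i := c) (j := c + 1)
    (k := c + 2) (z6_succ c).symm ?_ (Equiv.Perm.SameCycle.refl _ _) (Equiv.Perm.SameCycle.refl _ _)
  · rw [h2, M.inv]
    exact site_nx_symm _
  · rw [h0]
    exact (site_nx_symm _).trans (site_nx_symm _)
  · rw [← h.cor]
    exact (site_nx _).symm

/-- the next sector at the ring node `c + 1`: if it shares the last edge of the hexagon then it is a folded
hexagon -/
theorem thr_lobe (hR : ¬ FR M F (M.al (M.nx (M.nx (δ (c + 1))))))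
    (hl : M.al (M.nx (M.nx (δ (c + 1)))) ≠ M.nx.symm (M.nx.symm (δ (c + 2))))
    (h0 : M.al (M.nx (M.nx (δ (c + 1)))) = M.nx.symm (M.al (M.nx (δ (c + 1))))) :
    F (M.al (M.nx (δ (c + 1)))) ∧ M.deg (M.al (M.nx (δ (c + 1)))) = 6 := by
  have he := hF.fs _ h.f1
  have ec : c + 1 + 1 = c + 2 := by ring
  obtain ⟨f, hf⟩ : ∃ f, f = M.al (M.nx (δ (c + 1))) := ⟨_, rfl⟩
  rw [← hf] at h0 ⊢
  have hfA : A f := by rw [hf]; exact (hG.fs_inn he).2
  have hn : M.SameNode (δ (c + 1)) f := by rw [hf]; exact (al_node _).symm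
  have hfS : FS M A δ f := by
    refine ⟨hfA, ⟨_, hn⟩, fun i hi => ?_⟩
    have h1 := hG.toPatch.prev_node (i - 1)
    rw [sub_add_cancel, ← hi] at h1
    have h2 := hG.node_idx (h1.trans hn.symm)
    have h3 : i = c + 2 := by
      rw [← ec, ← h2]
      ring
    refine hl ?_
    rw [h0, hi, h3]
  have hfF := hG.full_all hF h.fr hfS hn
  refine ⟨hfF, (hG.deg46 f).resolve_left fun h4 => hR ?_⟩
  rw [h0, nx_four' h4]
  exact FoldSet.r3 hfF h4

/-- the last but one special at the ring node `c - 1`: it does not share the fifth edge of the hexagon -/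
theorem thr_prev (h4 : M.deg (δ (c - 1)) = 4) :
    M.al (M.nx (M.nx (δ (c - 1)))) ≠ M.nx (M.nx (M.nx (δ (c + 1)))) := by
  intro h0
  have he := hF.fs _ h.f1
  have h6 := hG.thr_six h
  have ec : c - 1 + 1 = c := sub_add_cancel c 1
  have hfl := h.fl
  unfold full at hfl
  rw [ec] at hfl
  -- the hexagon
  have k5 : M.nx (M.nx (M.nx (M.nx (δ (c + 1))))) = M.nx.symm (δ c) := by
    rw [Equiv.eq_symm_apply]
    refine M.nx.injective ?_
    rw [nx_six h6, h.cor]
  have k4 : M.nx (M.nx (M.nx (δ (c + 1)))) = M.nx.symm (M.nx.symm (δ c)) := by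
    rw [← k5, Equiv.symm_apply_apply]
  have hs := hG.fs_quad h4
  have h2 : M.nx (M.fs (M.nx.symm (δ c))) = M.al (M.nx.symm (δ c)) := nx_fs M _
  have h3 : M.fs (M.nx.symm (δ c)) = δ (c - 1) := by
    refine hG.chain (hF.fs _ hfl) hs ?_
    rw [h2]
    refine (nx_symm_node _).trans ?_
    rw [← k4, ← h0]
    exact al_node _
  rw [h3] at h2
  have hsc : M.SameSite (δ (c + 1)) (δ c) := by
    rw [← h.cor]
    exact (site_nx _).symm
  refine hG.no_two (p := δ (c + 1)) (s := δ (c - 1)) (x := M.nx.symm (δ c))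
    (y := M.nx.symm (M.nx.symm (δ c))) h6 h4 he.1 hs.1 (hsc.trans (site_nx_symm _))
    (hsc.trans ((site_nx_symm _).trans (site_nx_symm _))) ?_ ?_ (fun h5 => ?_) (i := c)
    (j := c + 1) (k := c - 1) (z6_succ c).symm hsc (Equiv.Perm.SameCycle.refl _ _)
    (Equiv.Perm.SameCycle.refl _ _)
  · rw [← h2]
    exact site_nx _
  · rw [← k4, ← h0, M.inv]
    exact (site_nx _).trans (site_nx _)
  · have := hG.ne1 (M.nx.symm (M.nx.symm (δ c)))
    rw [Equiv.apply_symm_apply] at this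
    exact this h5

section map

variable {o : D → Bool} (ho : ∀ d, o (M.nx d) = !o d) (ho' : ∀ d, o (M.al d) = !o d)

omit h in
/-- the classes are ring nodes of the folded map -/
theorem mapF_cls {j : ZMod 6} {x : {d // ¬ FR M F d}} (hx : ClsF M δ F j x.1) :
    (mapF hF ho ho' hG).SameNode (hdrF hF ho ho' hG j) x := by
  obtain ⟨e, he, hn, -⟩ := id hx
  have h1 : F (δ j) := hG.pre_first hF he hn
  have h2 : ClsF M δ F j (M.al (δ j)) :=
    ⟨δ j, h1, Equiv.Perm.SameCycle.refl _ _, Or.inr (nx_symm_node _).symm⟩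
  have h3 : (mapF hF ho ho' hG).SameNode (hrootF hF hG j) x :=
    (mapF_sameNode ho ho' hG hF _ _).2 (Or.inr ⟨j, h2, hx⟩)
  have hP := hG.mapF_patch hF ho ho'
  have h4 := hP.root_node j
  rw [← mapF_root ho ho' hG hF, (mapF hF ho ho' hG).inv] at h4
  exact h4.trans h3

/-- the ring darts of the corner quad -/
theorem thr_hdr1 : (hdrF hF ho ho' hG (c + 1)).1 = δ c := by
  rw [hG.hdrF_δ hF ho ho' (thr_not hF h.cor)]

theorem thr_hdr0 : (hdrF hF ho ho' hG c).1 = M.nx.symm (δ c) := by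
  have h6 : M.deg (δ c) ≠ 4 := by
    rw [hG.nc _ h.cor]
    decide
  have h1 : ¬ FR M F (M.nx.symm (δ c)) := frF_not hF (hG.prev_stay h6)
  have h2 := hG.hdrF_stop hF ho ho' (k := c - 1) (g := M.nx.symm (δ c)) (by
    have := hG.toPatch.prev_node (c - 1)
    rwa [sub_add_cancel] at this) (by
    have := h.fl
    unfold full at this
    rwa [sub_add_cancel] at this) h1
  rw [sub_add_cancel] at h2
  rw [h2]

theorem thr_hdr2 : (hdrF hF ho ho' hG (c + 2)).1 = M.nx.symm (δ (c + 2)) := by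
  have ec : c + 1 + 1 = c + 2 := by ring
  have h1 := hG.thr_kept1 hF h
  have h2 := hG.hdrF_stop hF ho ho' (k := c + 1) (g := M.nx.symm (δ (c + 2))) (by
    have := hG.toPatch.prev_node (c + 1)
    rwa [ec] at this) (by
    have := h.fr
    unfold full at this
    rwa [ec] at this) h1
  rw [ec] at h2
  rw [h2]

theorem thr_hdr3 : (hdrF hF ho ho' hG (c + 3)).1 = δ (c + 2) := by
  have ec : c + 2 + 1 = c + 3 := by ring
  have h2 := hG.hdrF_δ hF ho ho' h.n2
  rw [ec] at h2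
  rw [h2]

/-- the corner at `c` -/
theorem thr_nx0 : (mapF hF ho ho' hG).nx (hdrF hF ho ho' hG c) = hdrF hF ho ho' hG (c + 1) := by
  apply Subtype.ext
  rw [hG.mapF_nx_of hF ho ho', hG.thr_hdr0 hF h, hG.thr_hdr1 hF h, Equiv.apply_symm_apply]
  rw [hG.thr_hdr0 hF h, Equiv.apply_symm_apply]
  have := (hdrF hF ho ho' hG (c + 1)).2
  rwa [hG.thr_hdr1 hF h] at this

theorem thr_nx1 : ((mapF hF ho ho' hG).nx (hdrF hF ho ho' hG (c + 1))).1 =
    M.nx (M.nx (δ (c + 1))) := by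
  rcases hG.mapF_nx_cases hF ho ho' (hdrF hF ho ho' hG (c + 1)) with ⟨h1, -⟩ | ⟨-, -, h2⟩
  · exfalso
    rw [hG.thr_hdr1 hF h, h.cor] at h1
    exact h1 (FoldSet.r0 h.f1)
  · rw [h2, hG.thr_hdr1 hF h, h.cor]

/-- the corner at the ring node `c + 2` -/
theorem thr_nx2 : (mapF hF ho ho' hG).nx (hdrF hF ho ho' hG (c + 2)) =
    hdrF hF ho ho' hG (c + 3) := by
  apply Subtype.ext
  rw [hG.mapF_nx_of hF ho ho', hG.thr_hdr2 hF h, hG.thr_hdr3 hF h, Equiv.apply_symm_apply]
  rw [hG.thr_hdr2 hF h, Equiv.apply_symm_apply]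
  exact hG.δ_stayF hF h.n2

omit h in
/-- the corners of the folded map -/
theorem mapF_cor_iff (j : ZMod 6) :
    Cor (mapF hF ho ho' hG) (hdrF hF ho ho' hG) j ↔ KF M δ F j := by
  have hP := hG.mapF_patch hF ho ho'
  rw [← hG.mapF_KS hF ho ho' (fun _ _ => False) j]
  exact ⟨fun h1 => ⟨h1, Or.inl (hG.mapF_real hF ho ho' _ (hP.inA j))⟩, fun h1 => h1.1⟩

omit h in
/-- no adjacent corners -/
theorem mapF_adj {j : ZMod 6} (hj : Cor (mapF hF ho ho' hG) (hdrF hF ho ho' hG) j) :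
    ¬ Cor (mapF hF ho ho' hG) (hdrF hF ho ho' hG) (j + 1) := fun h1 =>
  hG.KF_adj hF ((hG.mapF_cor_iff hF ho ho' j).1 hj) ((hG.mapF_cor_iff hF ho ho' _).1 h1)

omit h in
/-- the folded map is not two quads -/
theorem mapF_card8 (ho : ∀ d, o (M.nx d) = !o d) (ho' : ∀ d, o (M.al d) = !o d) :
    Nat.card {x : {d // ¬ FR M F d} // A x.1} ≠ 8 := by
  have hP := hG.mapF_patch hF ho ho'
  intro h8
  obtain ⟨c', h1, h2, -, -⟩ := two_quads_cor hP.legal hP.bd h8
  exact hG.mapF_adj hF ho ho' h1 h2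

omit h in
/-- the corners of the folded map are corner quads -/
theorem mapF_exists {j : ZMod 6} (hj : Cor (mapF hF ho ho' hG) (hdrF hF ho ho' hG) j) :
    ∃ q, (mapF hF ho ho' hG).CorQ (fun x => A x.1) (hdrF hF ho ho' hG) j q := by
  have hP := hG.mapF_patch hF ho ho'
  have hq := hG.mapF_real hF ho ho'
  refine CorQ.exists_corQ hP.legal hP.bd hj (hq _ (hP.inA j)) ?_ (hG.mapF_card8 hF ho ho')
  by_contra hno
  push Not at hno
  have h3 : (mapF hF ho ho' hG).cut (fun x => A x.1) = 4 := by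
    rw [← hq _ (hP.inA j), ← hP.legal.cut_site]
    exact cut_congr fun x => ⟨fun hx => hno x hx, fun hx => (hP.sites.same hx).1 (hP.inA j)⟩
  have h4 := bd_cut hP.bd
  omega

/-- **the corner quad of the hexagon** -/
theorem thr_corQ : ∃ q, (mapF hF ho ho' hG).CorQ (fun x => A x.1) (hdrF hF ho ho' hG) c q :=
  hG.mapF_exists hF ho ho' (hG.thr_nx0 hF h ho ho')

section corQ

variable {q : ZMod 4 → {d // ¬ FR M F d}}
  (hQ : (mapF hF ho ho' hG).CorQ (fun x => A x.1) (hdrF hF ho ho' hG) c q)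

include hQ

/-- the darts of the corner quad -/
theorem thr_q2 : (q 2).1 = M.nx (M.nx (δ (c + 1))) := by
  have h1 : (mapF hF ho ho' hG).nx (q 1) = q 2 := hQ.num.nx 1
  rw [← h1, hQ.h1]
  exact hG.thr_nx1 hF h ho ho'

theorem thr_q0 : (q 0).1 = M.nx.symm (δ c) := by
  rw [hQ.h0]
  exact hG.thr_hdr0 hF h ho ho'

theorem thr_q1 : (q 1).1 = δ c := by
  rw [hQ.h1]
  exact hG.thr_hdr1 hF h ho ho'

/-- the fifth dart of the hexagon stays -/
theorem thr_q3 : (q 3).1 = M.nx (M.nx (M.nx (δ (c + 1)))) := by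
  have h1 : (mapF hF ho ho' hG).nx (q 2) = q 3 := hQ.num.nx 2
  have h2 := hG.thr_q2 hF h ho ho' hQ
  rcases hG.mapF_nx_cases hF ho ho' (q 2) with ⟨-, h3⟩ | ⟨h3, h4, -⟩
  · rw [← h1, h3, h2]
  · exfalso
    rw [h2] at h3
    have h5 := hG.fs_uniq (hF.fs _ h.f1) (hF.fs _ h3)
      ((site_nx _).trans ((site_nx _).trans (site_nx _)))
    exact hG.ne3 _ h5

/-- the fourth node of the hexagon is in no class -/
theorem thr_in (j : ZMod 6) : ¬ ClsF M δ F j (M.nx (M.nx (δ (c + 1)))) := by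
  intro h1
  rw [← hG.thr_q2 hF h ho ho' hQ] at h1
  have h2 := hG.mapF_cls hF ho ho' h1
  exact hQ.node_i j (h2.trans hQ.node_c.symm)

/-- the dart across the last edge -/
theorem thr_alq2 : ((mapF hF ho ho' hG).al (q 2)).1 = M.al (M.nx (M.nx (δ (c + 1)))) := by
  have h1 := hG.thr_al3 hF h (hG.thr_in hF h ho ho' hQ)
  rw [← hG.thr_q2 hF h ho ho' hQ] at h1 ⊢
  rw [fmap_al_of (hG.foldSetF hF) ho ho' h1]

omit hQ in
/-- the sector before the ring dart at the ring node `c + 2` -/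
theorem thr_nxk : (mapF hF ho ho' hG).nx ⟨M.nx.symm (M.nx.symm (δ (c + 2))), hG.thr_kept2 hF h⟩ =
    hdrF hF ho ho' hG (c + 2) := by
  apply Subtype.ext
  have h7 : ¬ FR M F (M.nx (M.nx.symm (M.nx.symm (δ (c + 2))))) := by
    rw [Equiv.apply_symm_apply]
    exact hG.thr_kept1 hF h
  rw [hG.thr_hdr2 hF h ho ho', hG.mapF_nx_of hF ho ho' h7]
  exact Equiv.apply_symm_apply _ _

/-- a corner at `c + 1` -/
theorem thr_cor1_iff : Cor (mapF hF ho ho' hG) (kδ (mapF hF ho ho' hG) (hdrF hF ho ho' hG) c q) (c + 1) ↔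
    M.al (M.nx (M.nx (δ (c + 1)))) = M.nx.symm (M.nx.symm (δ (c + 2))) := by
  have e1 : c + 1 + 1 = c + 2 := by ring
  have key : ∀ c : ZMod 6, c + 1 + 1 ≠ c := by decide
  have k1 : c + 1 + 1 ≠ c := key c
  have k2 : c + 1 + 1 ≠ c + 1 := z6_succ _
  have h2 : Cor (mapF hF ho ho' hG) (kδ (mapF hF ho ho' hG) (hdrF hF ho ho' hG) c q) (c + 1) ↔
      (mapF hF ho ho' hG).nx ((mapF hF ho ho' hG).al (q 2)) = hdrF hF ho ho' hG (c + 2) := by
    show (mapF hF ho ho' hG).nx (kδ (mapF hF ho ho' hG) (hdrF hF ho ho' hG) c q (c + 1)) =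
      kδ (mapF hF ho ho' hG) (hdrF hF ho ho' hG) c q (c + 1 + 1) ↔ _
    rw [kδ_i1, kδ_ne k1 k2, e1]
  have h3 := hG.thr_nxk hF h ho ho'
  have h4 := hG.thr_alq2 hF h ho ho' hQ
  rw [h2, ← h3, (mapF hF ho ho' hG).nx.injective.eq_iff, ← h4]
  exact ⟨fun h5 => congrArg Subtype.val h5, fun h5 => Subtype.ext h5⟩

/-- no corner at `c` -/
theorem thr_cor0 :
    ¬ Cor (mapF hF ho ho' hG) (kδ (mapF hF ho ho' hG) (hdrF hF ho ho' hG) c q) c := by
  intro h1
  have hP := hG.mapF_patch hF ho ho'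
  have hq := hG.mapF_real hF ho ho'
  have h2 : (mapF hF ho ho' hG).nx ((mapF hF ho ho' hG).al (q 3)) =
      (mapF hF ho ho' hG).al (q 2) := by
    have h3 : (mapF hF ho ho' hG).nx (kδ (mapF hF ho ho' hG) (hdrF hF ho ho' hG) c q c) =
      kδ (mapF hF ho ho' hG) (hdrF hF ho ho' hG) c q (c + 1) := h1
    rw [kδ_i1, kδ_i] at h3
    exact h3
  have hin : ∀ j, A (kδ (mapF hF ho ho' hG) (hdrF hF ho ho' hG) c q j).1 := fun j =>
    ((hQ.mem _).2 ⟨j, rfl⟩).1.1
  have a3 : A ((mapF hF ho ho' hG).al (q 3)).1 := by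
    have := hin c
    rwa [kδ_i] at this
  have s0 : (mapF hF ho ho' hG).SameSite ((mapF hF ho ho' hG).al (q 3))
      ((mapF hF ho ho' hG).al (q 2)) := by
    rw [← h2]
    exact site_nx _
  refine hP.legal.quads_share (p := q 0) (q := (mapF hF ho ho' hG).al (q 3)) (x := q 3) (y := q 2)
    (hq _ (hQ.qA 0)) (hq _ a3) (hQ.num.same (by decide) 0 3) (hQ.num.same (by decide) 0 2)
    (Equiv.Perm.SameCycle.refl _ _) s0 (fun h4 => ?_) ?_
  · exact absurd (hQ.num.inj h4) (by decide)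
  · obtain ⟨r, hr⟩ := hP.root
    refine ⟨r, ?_⟩
    have h5 : (mapF hF ho ho' hG).cut ((mapF hF ho ho' hG).SameSite r) = 6 := by
      rw [← bd_cut hP.bd, ← cut_not (M := mapF hF ho ho' hG) fun x => A x.1]
      exact cut_congr fun x => (hr x).symm
    rw [← hP.legal.cut_site, h5]

/-- no corner at `c - 1`, if the ring node `c - 2` is no corner and not folded -/
theorem thr_cor5 (h0 : ¬ F (δ (c - 2))) (hc : M.nx (δ (c - 2)) ≠ δ (c - 1)) :
    ¬ Cor (mapF hF ho ho' hG) (kδ (mapF hF ho ho' hG) (hdrF hF ho ho' hG) c q) (c - 1) := by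
  intro h1
  have ec : c - 2 + 1 = c - 1 := by ring
  have e0 : c - 1 + 1 = c := sub_add_cancel c 1
  have k1 : c - 1 ≠ c := z6_pred c
  have k2 : c - 1 ≠ c + 1 := z6_pm c
  have hd := hG.hdrF_δ hF ho ho' h0
  rw [ec] at hd
  have hL : FS M A δ (δ (c - 2)) := by
    rcases hG.fs_or (c - 2) with h2 | h2
    · exact h2
    · rw [ec] at h2
      exact absurd h2 hc
  have h2 : (mapF hF ho ho' hG).nx (hdrF hF ho ho' hG (c - 1)) =
      (mapF hF ho ho' hG).al (q 3) := by
    have h3 : (mapF hF ho ho' hG).nx (kδ (mapF hF ho ho' hG) (hdrF hF ho ho' hG) c q (c - 1)) =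
      kδ (mapF hF ho ho' hG) (hdrF hF ho ho' hG) c q (c - 1 + 1) := h1
    rw [kδ_ne k1 k2, e0, kδ_i] at h3
    exact h3
  rw [hd] at h2
  have h3 : ¬ FR M F (M.nx (δ (c - 2))) := by
    rcases hG.mapF_nx_cases hF ho ho' ⟨δ (c - 2), hG.δ_stayF hF h0⟩ with ⟨h3, -⟩ | ⟨h3, -⟩
    · exact h3
    · exact absurd (hF.fs _ h3).2.1 (hG.fs1 hL)
  have h4 : (mapF hF ho ho' hG).al ⟨M.nx (δ (c - 2)), h3⟩ = q 3 := by
    have h5 : (mapF hF ho ho' hG).nx ⟨δ (c - 2), hG.δ_stayF hF h0⟩ = ⟨M.nx (δ (c - 2)), h3⟩ := by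
      apply Subtype.ext
      exact hG.mapF_nx_of hF ho ho' h3
    rw [← h5, h2, (mapF hF ho ho' hG).inv]
  have hn : M.SameNode (δ (c - 2)) (M.al (M.nx (δ (c - 2)))) := (al_node _).symm
  by_cases h5 : FR M F (M.al (M.nx (δ (c - 2))))
  · have h6 : ¬ F (M.al (M.nx (δ (c - 2)))) := fun h6 => h0 (hG.pre_first hF h6 hn)
    obtain ⟨h7, h8, h9⟩ := hG.frF_ring hF h5 hn h6
    rw [ec] at h7 h8 h9
    have hok : OkF M δ F (δ (c - 1)) := by
      intro i hi hN
      have h10 := hG.bd.inj hi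
      rw [← h10] at hN
      have h12 := hG.toPatch.prev_node (c - 2)
      rw [ec] at h12
      exact h0 (hG.pre_first hF hN (h12.trans (fs_node _)))
    have h11 := hG.mapF_quad3 hF ho ho' h8 h9 hok
    have h12 : (⟨M.al (M.nx.symm (δ (c - 1))), hG.k3F hF h8 h9 hok⟩ : {d // ¬ FR M F d}) =
        ⟨M.nx (δ (c - 2)), h3⟩ := by
      apply Subtype.ext
      show M.al (M.nx.symm (δ (c - 1))) = _
      rw [← h7, M.inv]
    rw [h12, h4] at h11
    have h13 := hG.thr_q3 hF h ho ho' hQ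
    rw [h11] at h13
    exact hG.thr_prev hF h h9 h13
  · have h6 := fmap_al_of (hG.foldSetF hF) ho ho' (d := ⟨M.nx (δ (c - 2)), h3⟩) h5
    have h7 : (q 3).1 = M.al (M.nx (δ (c - 2))) := by
      rw [← h4]
      exact congrArg Subtype.val h6
    rw [hG.thr_q3 hF h ho ho' hQ] at h7
    refine hG.fs3 (hF.fs _ h.f1) (hG.thr_six h) ?_
    rw [h7]
    exact ⟨_, hn⟩

omit h in
/-- the rest is not two quads -/
theorem thr_card8 (hns : ¬ Star (mapF hF ho ho' hG) fun x => A x.1) :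
    Nat.card {d : {d // ¬ FR M F d} // A d.1 ∧ ¬ QR q d} ≠ 8 := by
  intro h8
  refine hns ⟨?_, fun x hx => hG.mapF_real hF ho ho' x hx⟩
  rw [card_or (B := QR q) (C := fun x : {d // ¬ FR M F d} => A x.1) (by
    rintro d ⟨k, rfl⟩
    exact hQ.qA k), card_q hQ.num, h8]

omit h in
/-- no adjacent corners in the rest -/
theorem thr_adjQ (hns : ¬ Star (mapF hF ho ho' hG) fun x => A x.1) {j : ZMod 6}
    (hj : Cor (mapF hF ho ho' hG) (kδ (mapF hF ho ho' hG) (hdrF hF ho ho' hG) c q) j) :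
    ¬ Cor (mapF hF ho ho' hG) (kδ (mapF hF ho ho' hG) (hdrF hF ho ho' hG) c q) (j + 1) := by
  intro h1
  have hP := hG.mapF_patch hF ho ho'
  have hq := hG.mapF_real hF ho ho'
  have hb := hQ.bd'
  have hin : ∀ j, A (kδ (mapF hF ho ho' hG) (hdrF hF ho ho' hG) c q j).1 := fun j =>
    ((hQ.mem _).2 ⟨j, rfl⟩).1.1
  obtain ⟨w, hw⟩ := CorQ.exists_corQ hP.legal hb hj (hq _ (hin _)) (by
    by_contra hno
    push Not at hno
    have h4 : (mapF hF ho ho' hG).cut (fun x => A x.1 ∧ ¬ QR q x) = 4 := by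
      rw [← hq _ (hin j), ← hP.legal.cut_site]
      exact cut_congr fun x => ⟨fun hx => hno x hx, fun hx =>
        (hQ.sites.same hx).1 ((hQ.mem _).2 ⟨j, rfl⟩).1⟩
    have h5 := bd_cut hb
    omega) (hG.thr_card8 hF ho ho' hQ hns)
  exact hw.ks_next (fun _ _ => False) ⟨h1, Or.inl (hq _ (hin _))⟩

/-- a right-end quad: the folded map is not a star -/
theorem thr_not_star (hd : M.deg (δ (c + 2)) = 4) :
    ¬ Star (mapF hF ho ho' hG) fun x => A x.1 := by
  rintro ⟨h12, -⟩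
  have hP := hG.mapF_patch hF ho ho'
  have h8 : Nat.card {d : {d // ¬ FR M F d} // A d.1 ∧ ¬ QR q d} = 8 := by
    have h4 := card_or (B := QR q) (C := fun x : {d // ¬ FR M F d} => A x.1) (by
      rintro d ⟨k, rfl⟩
      exact hQ.qA k)
    rw [h12, card_q hQ.num] at h4
    omega
  have n1 : ¬ Cor (mapF hF ho ho' hG) (kδ (mapF hF ho ho' hG) (hdrF hF ho ho' hG) c q) (c + 1) :=
    fun h1 => hG.thr_last hF h hd ((hG.thr_cor1_iff hF h ho ho' hQ).1 h1)
  have n0 := hG.thr_cor0 hF h ho ho' hQ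
  obtain ⟨c', g1, g2, g3, g4⟩ := two_quads_cor hP.legal hQ.bd' h8
  have key1 : ∀ c c' : ZMod 6, (c ≠ c' ∧ c ≠ c' + 1 ∧ c ≠ c' + 3 ∧ c ≠ c' + 4) →
      (c + 1 ≠ c' ∧ c + 1 ≠ c' + 1 ∧ c + 1 ≠ c' + 3 ∧ c + 1 ≠ c' + 4) → False := by decide
  have key2 : ∀ i : ZMod 6,
      ¬ Cor (mapF hF ho ho' hG) (kδ (mapF hF ho ho' hG) (hdrF hF ho ho' hG) c q) i →
        i ≠ c' ∧ i ≠ c' + 1 ∧ i ≠ c' + 3 ∧ i ≠ c' + 4 := by
    intro i hi
    refine ⟨?_, ?_, ?_, ?_⟩ <;> rintro rfl
    · exact hi g1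
    · exact hi g2
    · exact hi g3
    · exact hi g4
  exact key1 c c' (key2 _ n0) (key2 _ n1)

/-- no corner at `c + 1` -/
theorem thr_cor1 (hns : ¬ Star (mapF hF ho ho' hG) fun x => A x.1) :
    ¬ Cor (mapF hF ho ho' hG) (kδ (mapF hF ho ho' hG) (hdrF hF ho ho' hG) c q) (c + 1) := by
  intro h1
  have e1 : c + 1 + 1 = c + 2 := by ring
  have e2 : c + 2 + 1 = c + 3 := by ring
  have key : ∀ c : ZMod 6, c + 2 ≠ c ∧ c + 2 ≠ c + 1 ∧ c + 3 ≠ c ∧ c + 3 ≠ c + 1 := by decide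
  obtain ⟨k1, k2, k3, k4⟩ := key c
  refine hG.thr_adjQ hF ho ho' hQ hns h1 ?_
  rw [e1]
  show (mapF hF ho ho' hG).nx (kδ (mapF hF ho ho' hG) (hdrF hF ho ho' hG) c q (c + 2)) =
      kδ (mapF hF ho ho' hG) (hdrF hF ho ho' hG) c q (c + 2 + 1)
  rw [e2, kδ_ne k1 k2, kδ_ne k3 k4]
  exact hG.thr_nx2 hF h ho ho'

/-- the sector before the ring dart at the ring node `c + 2` -/
theorem thr_last' (hns : ¬ Star (mapF hF ho ho' hG) fun x => A x.1) :
    M.al (M.nx (M.nx (δ (c + 1)))) ≠ M.nx.symm (M.nx.symm (δ (c + 2))) := fun h1 =>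
  hG.thr_cor1 hF h ho ho' hQ hns ((hG.thr_cor1_iff hF h ho ho' hQ).2 h1)

omit h in
/-- no corner at `c - 1`, if there is a corner at `c - 2` -/
theorem thr_cor5' (hns : ¬ Star (mapF hF ho ho' hG) fun x => A x.1)
    (h0 : Cor (mapF hF ho ho' hG) (hdrF hF ho ho' hG) (c - 2)) :
    ¬ Cor (mapF hF ho ho' hG) (kδ (mapF hF ho ho' hG) (hdrF hF ho ho' hG) c q) (c - 1) := by
  have ec : c - 2 + 1 = c - 1 := by ring
  have key : ∀ c : ZMod 6, c - 2 ≠ c ∧ c - 2 ≠ c + 1 ∧ c - 1 ≠ c ∧ c - 1 ≠ c + 1 := by decide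
  obtain ⟨k1, k2, k3, k4⟩ := key c
  have h2 : Cor (mapF hF ho ho' hG) (kδ (mapF hF ho ho' hG) (hdrF hF ho ho' hG) c q) (c - 2) := by
    show (mapF hF ho ho' hG).nx (kδ (mapF hF ho ho' hG) (hdrF hF ho ho' hG) c q (c - 2)) =
      kδ (mapF hF ho ho' hG) (hdrF hF ho ho' hG) c q (c - 2 + 1)
    rw [ec, kδ_ne k1 k2, kδ_ne k3 k4, ← ec]
    exact h0
  have h3 := hG.thr_adjQ hF ho ho' hQ hns h2
  rwa [ec] at h3

/-- **the corners of the rest** -/
theorem thr_cor (hns : ¬ Star (mapF hF ho ho' hG) fun x => A x.1)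
    (hL : (¬ F (δ (c - 2)) ∧ M.nx (δ (c - 2)) ≠ δ (c - 1)) ∨ KF M δ F (c - 2)) (j : ZMod 6) :
    Cor (mapF hF ho ho' hG) (kδ (mapF hF ho ho' hG) (hdrF hF ho ho' hG) c q) j ↔
      j ≠ c ∧ Cor (mapF hF ho ho' hG) (hdrF hF ho ho' hG) j := by
  by_cases h0 : j = c
  · subst h0
    exact iff_of_false (hG.thr_cor0 hF h ho ho' hQ) fun h1 => h1.1 rfl
  by_cases h1 : j = c + 1
  · subst h1
    refine iff_of_false (hG.thr_cor1 hF h ho ho' hQ hns) fun h2 => ?_
    exact hG.mapF_adj hF ho ho' (hG.thr_nx0 hF h ho ho') h2.2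
  by_cases h5 : j = c - 1
  · subst h5
    refine iff_of_false ?_ fun h2 => ?_
    · rcases hL with ⟨h3, h4⟩ | h3
      · exact hG.thr_cor5 hF h ho ho' hQ h3 h4
      · exact hG.thr_cor5' hF ho ho' hQ hns ((hG.mapF_cor_iff hF ho ho' _).2 h3)
    · have h3 := hG.mapF_adj hF ho ho' h2.2
      rw [sub_add_cancel] at h3
      exact h3 (hG.thr_nx0 hF h ho ho')
  · have h6 : j + 1 ≠ c := fun h7 => h5 (by rw [← h7, add_sub_cancel_right])
    have h7 : j + 1 ≠ c + 1 := fun h7 => h0 (add_right_cancel h7)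
    unfold Cor
    rw [kδ_ne h0 h1, kδ_ne h6 h7]
    exact ⟨fun h8 => ⟨h0, h8⟩, fun h8 => h8.2⟩

/-- the corner set of the rest -/
theorem thr_ks (hns : ¬ Star (mapF hF ho ho' hG) fun x => A x.1)
    (hL : (¬ F (δ (c - 2)) ∧ M.nx (δ (c - 2)) ≠ δ (c - 1)) ∨ KF M δ F (c - 2))
    (κ : (ZMod 6 → {d // ¬ FR M F d}) → ZMod 6 → Prop) (j : ZMod 6) :
    KS (mapF hF ho ho' hG) κ (kδ (mapF hF ho ho' hG) (hdrF hF ho ho' hG) c q) j ↔
      j ≠ c ∧ KF M δ F j := by
  have hin : ∀ j, A (kδ (mapF hF ho ho' hG) (hdrF hF ho ho' hG) c q j).1 := fun j =>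
    ((hQ.mem _).2 ⟨j, rfl⟩).1.1
  have h1 := hG.thr_cor hF h ho ho' hQ hns hL j
  rw [hG.mapF_cor_iff hF ho ho' j] at h1
  constructor
  · rintro ⟨h2, -⟩
    exact h1.1 h2
  · intro h2
    exact ⟨h1.2 h2, Or.inl (hG.mapF_real hF ho ho' _ (hin _))⟩

/-- **Ring exactness of the rest**. -/
theorem thr_exact (hns : ¬ Star (mapF hF ho ho' hG) fun x => A x.1)
    (hL : (¬ F (δ (c - 2)) ∧ M.nx (δ (c - 2)) ≠ δ (c - 1)) ∨ KF M δ F (c - 2))
    {ε : ZMod 6 → {d // ¬ FR M F d}} {β : (ZMod 6 → {d // ¬ FR M F d}) → Rel} {Fl : Flags}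
    {t : PState 6} {μ : {d // ¬ FR M F d} → {d // ¬ FR M F d}} {ω : {d // ¬ FR M F d} → ℕ}
    (hR : (mapF hF ho ho' hG).RealL ((mapF hF ho ho' hG).OL ε β Fl) (fun x => A x.1 ∧ ¬ QR q x)
      (kδ (mapF hF ho ho' hG) (hdrF hF ho ho' hG) c q) t μ ω)
    {r : ZMod 6 → ℕ} (hr : ∀ i, t.u i + r (i + 1) = r i + 1) (hr1 : ∀ i, r i ≤ 1)
    (hz : ∃ i, t.u i = 0) (hu : ∀ j, j ≠ c → KF M δ F j → t.u j ≠ 1) :
    (∀ i e, (mapF hF ho ho' hG).SameNode
        (kδ (mapF hF ho ho' hG) (hdrF hF ho ho' hG) c q i) e → A e.1 ∧ ¬ QR q e →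
      e ≠ kδ (mapF hF ho ho' hG) (hdrF hF ho ho' hG) c q i →
      e ≠ (mapF hF ho ho' hG).nx.symm (kδ (mapF hF ho ho' hG) (hdrF hF ho ho' hG) c q (i + 1)) →
        ω e = 0) ∧
    ∀ i, ¬ (i ≠ c ∧ KF M δ F i) →
      ω (kδ (mapF hF ho ho' hG) (hdrF hF ho ho' hG) c q i) = r i ∧
      ω ((mapF hF ho ho' hG).nx.symm (kδ (mapF hF ho ho' hG) (hdrF hF ho ho' hG) c q (i + 1))) +
        r (i + 1) = 1 := by
  have hP := hG.mapF_patch hF ho ho'
  have hq := hG.mapF_real hF ho ho'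
  have hc : ∀ j, Cor (mapF hF ho ho' hG) (kδ (mapF hF ho ho' hG) (hdrF hF ho ho' hG) c q) j ↔
      j ≠ c ∧ KF M δ F j := fun j => by
    rw [hG.thr_cor hF h ho ho' hQ hns hL j, hG.mapF_cor_iff hF ho ho' j]
  have hc' : ∀ i, Cor (mapF hF ho ho' hG) (kδ (mapF hF ho ho' hG) (hdrF hF ho ho' hG) c q) i →
      (mapF hF ho ho' hG).deg (kδ (mapF hF ho ho' hG) (hdrF hF ho ho' hG) c q i) = 6 ∨
        (t.u i ≠ 1 ∧
          ¬ Cor (mapF hF ho ho' hG) (kδ (mapF hF ho ho' hG) (hdrF hF ho ho' hG) c q) (i + 1)) := by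
    intro i hi
    have h6 := (hc i).1 hi
    exact Or.inr ⟨hu i h6.1 h6.2, fun h7 => hG.KF_adj hF h6.2 ((hc _).1 h7).2⟩
  have hne : ¬ ∃ s, ∀ e : {d // ¬ FR M F d}, (A e.1 ∧ ¬ QR q e) ↔
      (mapF hF ho ho' hG).SameSite s e := by
    rintro ⟨s, hs⟩
    have h6 := ((hQ.mem _).2 ⟨c, rfl⟩).1
    have h7 := bd_cut hQ.bd'
    rw [cut_congr hs, hP.legal.cut_site, deg_same ((hs _).1 h6), hq _ h6.1] at h7
    exact absurd h7 (by decide)
  obtain ⟨o', -, -, h3, h4, h5⟩ := Rgn.exact (o := r) ⟨hP.legal, hQ.bd'⟩ (fun γ G t' hγ hA _ => by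
    have h6 := hq _ hA.1
    rw [hγ.deg 0] at h6
    exact absurd h6 (by decide)) hR hr hr1 hc' hne
  rw [h3 hz] at h5
  exact ⟨h4, fun i hi => h5 i fun h6 => hi ((hc i).1 h6)⟩

end corQ

end map

end Gen

end DMap

end GT33
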