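import Pool.Agent.GT33.KFlip
import Pool.Agent.GT33.PartM

/-!
# GT33 module KRING: exact rings and flips of corner quads

`ExG`: an exact ring.  `ExG.parP`: the state of a corner quad with two units at the corner.  `ExG.flip`: the ring
after a flip.  `CorQ.flips`: flips at several corner quads.
-/

open Classical

namespace GT33

namespace DMap

open Patch

variable {D : Type} {M : DMap D} {A : D → Prop} {δ : ZMod 6 → D}

/-- the ring is exact -/
structure ExG (M : DMap D) (A : D → Prop) (δ : ZMod 6 → D) (ω : D → ℕ) (r : ZMod 6 → ℕ) : Prop where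
  le : ∀ k, r k ≤ 1
  cor : ∀ k, M.nx (δ k) = δ (k + 1) → ω (δ k) + r (k + 1) = r k + 1
  x1 : ∀ k, M.nx (δ k) ≠ δ (k + 1) → ω (δ k) = r k
  x2 : ∀ k, M.nx (δ k) ≠ δ (k + 1) → ω (M.nx.symm (δ (k + 1))) + r (k + 1) = 1
  x3 : ∀ (k : ZMod 6) (y : D), M.SameNode (δ k) y → A y → y ≠ δ k →
    y ≠ M.nx.symm (δ (k + 1)) → ω y = 0

/-- the units of the ring darts after a flip at the corner `c` -/
def flipr (c : ZMod 6) (r : ZMod 6 → ℕ) (k : ZMod 6) : ℕ :=
  if k = c then 0 else if k = c + 1 then 1 else r k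

theorem flipr_c (c : ZMod 6) (r : ZMod 6 → ℕ) : flipr c r c = 0 := if_pos rfl

theorem flipr_c1 (c : ZMod 6) (r : ZMod 6 → ℕ) : flipr c r (c + 1) = 1 := by
  unfold flipr
  rw [if_neg (z6_succ c), if_pos rfl]

theorem flipr_ne {c k : ZMod 6} {r : ZMod 6 → ℕ} (h : k ≠ c) (h' : k ≠ c + 1) :
    flipr c r k = r k := by
  unfold flipr
  rw [if_neg h, if_neg h']

/-- the sum conditions after a flip -/
theorem flip_su {s : PState 6} {r : ZMod 6 → ℕ} (h : ∀ k, s.u k + r (k + 1) = r k + 1)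
    {c : ZMod 6} (h1 : r c = 1) (h0 : r (c + 1) = 0) (k : ZMod 6) :
    (flipS c s).u k + flipr c r (k + 1) = flipr c r k + 1 := by
  have hk := h k
  show (if k = c then 0 else if k = c + 1 then s.u k + 1 else if k = c - 1 then s.u k + 1 else
    s.u k) + _ = _
  by_cases e1 : k = c
  · subst e1
    rw [if_pos rfl, flipr_c, flipr_c1]
  · rw [if_neg e1]
    by_cases e2 : k = c + 1
    · subst e2
      rw [if_pos rfl, flipr_c1, flipr_ne (fun h => ?_) fun h => ?_]
      · omega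
      · have key : ∀ c : ZMod 6, c + 1 + 1 ≠ c := by decide
        exact key c h
      · exact absurd (add_right_cancel h) (z6_succ c)
    · rw [if_neg e2]
      by_cases e3 : k = c - 1
      · subst e3
        rw [sub_add_cancel] at hk ⊢
        rw [if_pos rfl, flipr_c, flipr_ne e1 e2]
        omega
      · rw [if_neg e3, flipr_ne e1 e2, flipr_ne (fun h => e3 (by rw [← h, add_sub_cancel_right]))
          fun h => e1 (add_right_cancel h)]
        exact hk

/-- the pairing after a flip -/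
theorem flip_m {s : PState 6} (h : ∀ k, s.m (s.m k) = k) (h' : ∀ k, s.m k ≠ k) {c : ZMod 6}
    (hc : s.m c ≠ c + 1) : (∀ k, (flipS c s).m ((flipS c s).m k) = k) ∧
      ∀ k, (flipS c s).m k ≠ k := by
  have h1 : c + 1 ≠ c := z6_succ c
  have hc' : s.m (c + 1) ≠ c := fun h2 => hc (by
    have h3 := h (c + 1)
    rwa [h2] at h3)
  have e : ∀ k, (flipS c s).m k = if k = c then c + 1 else if k = c + 1 then c else
      if s.m k = c then s.m (c + 1) else if s.m k = c + 1 then s.m c else s.m k := fun k => rfl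
  have ec : (flipS c s).m c = c + 1 := by rw [e, if_pos rfl]
  have ec1 : (flipS c s).m (c + 1) = c := by rw [e, if_neg h1, if_pos rfl]
  have e1 : (flipS c s).m (s.m c) = s.m (c + 1) := by
    rw [e, if_neg (h' c), if_neg hc, h, if_pos rfl]
  have e2 : (flipS c s).m (s.m (c + 1)) = s.m c := by
    rw [e, if_neg hc', if_neg (h' (c + 1)), h, if_neg h1, if_pos rfl]
  have e3 : ∀ k, k ≠ c → k ≠ c + 1 → s.m k ≠ c → s.m k ≠ c + 1 → (flipS c s).m k = s.m k :=
    fun k h2 h3 h4 h5 => by rw [e, if_neg h2, if_neg h3, if_neg h4, if_neg h5]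
  have inj : s.m c ≠ s.m (c + 1) := fun h2 => h1 (by rw [← h (c + 1), ← h2, h])
  refine ⟨fun k => ?_, fun k => ?_⟩
  · by_cases k1 : k = c
    · rw [k1, ec, ec1]
    by_cases k2 : k = c + 1
    · rw [k2, ec1, ec]
    by_cases k3 : s.m k = c
    · have k4 : k = s.m c := by rw [← k3, h]
      rw [k4, e1, e2]
    by_cases k5 : s.m k = c + 1
    · have k4 : k = s.m (c + 1) := by rw [← k5, h]
      rw [k4, e2, e1]
    · rw [e3 k k1 k2 k3 k5, e3 (s.m k) k3 k5 (by rw [h]; exact k1) (by rw [h]; exact k2), h]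
  · by_cases k1 : k = c
    · rw [k1, ec]
      exact h1
    by_cases k2 : k = c + 1
    · rw [k2, ec1]
      exact h1.symm
    by_cases k3 : s.m k = c
    · have k4 : k = s.m c := by rw [← k3, h]
      rw [k4, e1]
      exact inj.symm
    by_cases k5 : s.m k = c + 1
    · have k4 : k = s.m (c + 1) := by rw [← k5, h]
      rw [k4, e2]
      exact inj
    · rw [e3 k k1 k2 k3 k5]
      exact h' k

/-- a quad state with the units `2, 0, _, 0` -/
theorem parP_of {x : PState 4} (h : EE 4 x) (h0 : x.u 0 = 2) (h1 : x.u 1 = 0) (h3 : x.u 3 = 0) :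
    x = parP := by
  obtain ⟨c, k, rfl⟩ := h
  have key : ∀ (c k : ZMod 4), (qst c k).u 0 = 2 → (qst c k).u 1 = 0 → (qst c k).u 3 = 0 →
      (∀ i, (qst c k).m i = parP.m i) ∧ ∀ i, (qst c k).u i = parP.u i := by decide
  exact PState.ext' (key c k h0 h1 h3).1 (key c k h0 h1 h3).2

namespace ExG

variable {ω : D → ℕ} {r : ZMod 6 → ℕ} {c : ZMod 6} {q : ZMod 4 → D}

/-- a corner quad with two units at the corner -/
theorem parP (hX : M.ExG A δ ω r) (h : M.CorQ A δ c q) (hn1 : M.nx (δ (c - 1)) ≠ δ c)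
    (hn2 : M.nx (δ (c + 1)) ≠ δ (c + 1 + 1)) (h1 : r c = 1) (h0 : r (c + 1) = 0) {μ : D → D}
    {x : PState 4} (hx : EE 4 x) (hst : HasState μ ω q x) : x = GT33.DMap.parP := by
  refine parP_of hx ?_ ?_ ?_
  · rw [← (hst 0).2, h.h0]
    have h2 : M.nx (δ c) = δ (c + 1) := by
      rw [← h.h0, ← h.h1]
      exact h.num.nx 0
    have := hX.cor c h2
    omega
  · rw [← (hst 1).2, h.h1, hX.x1 _ hn2, h0]
  · rw [← (hst 3).2]
    have h2 := hX.x2 (c - 1) (by rw [sub_add_cancel]; exact hn1)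
    rw [sub_add_cancel] at h2
    have h3 : q 3 = M.nx.symm (δ c) := by
      rw [Equiv.eq_symm_apply, ← h.h0]
      exact h.num.nx 3
    rw [h3]
    omega

/-- the ring darts of a corner quad -/
theorem _root_.GT33.DMap.CorQ.ring_idx [Fintype D] (h : M.CorQ A δ c q) {k : ZMod 6}
    {j : ZMod 4} (hk : δ k = q j) : (j = 0 ∧ k = c) ∨ (j = 1 ∧ k = c + 1) := by
  have hn : ¬ A (M.al (q j)) := by rw [← hk]; exact bd_al h.bd k
  rcases z4 j with rfl | rfl | rfl | rfl
  · exact Or.inl ⟨rfl, h.bd.inj (by rw [hk, h.h0])⟩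
  · exact Or.inr ⟨rfl, h.bd.inj (by rw [hk, h.h1])⟩
  · exfalso
    have h1 := ((h.mem _).2 ⟨c + 1, rfl⟩).1.1
    rw [kδ_i1] at h1
    exact hn h1
  · exfalso
    have h1 := ((h.mem _).2 ⟨c, rfl⟩).1.1
    rw [kδ_i] at h1
    exact hn h1

/-- the ring after a flip -/
theorem flip [Fintype D] (hX : M.ExG A δ ω r) (h : M.CorQ A δ c q) (hn1 : M.nx (δ (c - 1)) ≠ δ c)
    (hn2 : M.nx (δ (c + 1)) ≠ δ (c + 1 + 1)) {ω₂ : D → ℕ} (he : ∀ d, A d → ¬ QR q d → ω₂ d = ω d)
    (hf : ∀ k, ω₂ (q k) = flipP.u k) : M.ExG A δ ω₂ (flipr c r) := by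
  have hcc : M.nx (δ c) = δ (c + 1) := by
    rw [← h.h0, ← h.h1]
    exact h.num.nx 0
  have h3 : q 3 = M.nx.symm (δ c) := by
    rw [Equiv.eq_symm_apply, ← h.h0]
    exact h.num.nx 3
  have hA : ∀ k, A (δ k) := bd_mem h.bd
  have hAp : ∀ k, A (M.nx.symm (δ k)) := fun k =>
    (Sites.same (M := M) h.bd.site (site_nx_symm _)).1 (hA k)
  refine ⟨fun k => ?_, fun k hk => ?_, fun k hk => ?_, fun k hk => ?_, fun k y h4 h5 h6 h7 => ?_⟩
  · unfold flipr
    split
    · exact Nat.zero_le _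
    · split
      · exact le_rfl
      · exact hX.le k
  · by_cases e1 : k = c
    · subst e1
      rw [flipr_c, flipr_c1, ← h.h0, hf]
      rfl
    · have e2 : k ≠ c + 1 := fun h2 => hn2 (by rw [← h2]; exact hk)
      have e3 : k + 1 ≠ c := fun h2 => hn1 (by rw [← h2, add_sub_cancel_right]; exact hk)
      rw [flipr_ne e1 e2, flipr_ne e3 fun h2 => e1 (add_right_cancel h2), he _ (hA k) ?_]
      · exact hX.cor k hk
      · rintro ⟨j, hj⟩
        rcases h.ring_idx hj.symm with h8 | h8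
        · exact e1 h8.2
        · exact e2 h8.2
  · have e1 : k ≠ c := fun h2 => hk (by rw [h2]; exact hcc)
    by_cases e2 : k = c + 1
    · subst e2
      rw [flipr_c1, ← h.h1, hf]
      rfl
    · rw [flipr_ne e1 e2, he _ (hA k) ?_]
      · exact hX.x1 k hk
      · rintro ⟨j, hj⟩
        rcases h.ring_idx hj.symm with h8 | h8
        · exact e1 h8.2
        · exact e2 h8.2
  · have e1 : k ≠ c := fun h2 => hk (by rw [h2]; exact hcc)
    by_cases e3 : k + 1 = c
    · rw [e3, flipr_c, ← h3, hf]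
      rfl
    · have e2 : k + 1 ≠ c + 1 := fun h2 => e1 (add_right_cancel h2)
      rw [flipr_ne e3 e2, he _ (hAp _) ?_]
      · exact hX.x2 k hk
      · rintro ⟨j, hj⟩
        have h8 : δ (k + 1) = q (j + 1) := by
          rw [← h.num.nx, hj, Equiv.apply_symm_apply]
        rcases h.ring_idx h8 with h9 | h9
        · exact e3 h9.2
        · exact e2 h9.2
  · by_cases hq : QR q y
    · exfalso
      obtain ⟨j, rfl⟩ := hq
      rcases z4 j with rfl | rfl | rfl | rfl
      · rw [h.h0] at h4 h6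
        exact h6 (by rw [nodes_inj h.bd h4])
      · rw [h.h1] at h4 h6
        exact h6 (by rw [nodes_inj h.bd h4])
      · by_cases e1 : k = c
        · subst e1
          have h8 := h.lone h4 h5
          rw [← h.h0] at h8
          exact absurd (h.num.inj h8) (by decide)
        · exact e1 (nodes_inj h.bd' ((h.node_ne e1).trans (h4.trans h.node_c.symm)))
      · have e1 : k = c - 1 := nodes_inj h.bd (h4.trans h.node_d.symm)
        subst e1
        rw [sub_add_cancel] at h7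
        exact h7 h3
    · rw [he y h5 hq]
      exact hX.x3 k y h4 h5 h6 h7

end ExG

/-- the ring state after several flips -/
def flipRs : List (ZMod 6) → PState 6 → PState 6
  | [], s => s
  | c :: l, s => flipRs l (flipS c s)

/-- the units of the ring darts after several flips -/
def fliprs : List (ZMod 6) → (ZMod 6 → ℕ) → ZMod 6 → ℕ
  | [], r => r
  | c :: l, r => fliprs l (flipr c r)

/-- the flips are possible -/
def FlipOK : List (ZMod 6) → PState 6 → (ZMod 6 → ℕ) → Prop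
  | [], _, _ => True
  | c :: l, s, r => r c = 1 ∧ r (c + 1) = 0 ∧ s.m c ≠ c + 1 ∧ FlipOK l (flipS c s) (flipr c r)

theorem fliprs_not {l : List (ZMod 6)} : ∀ {r : ZMod 6 → ℕ} {k : ZMod 6}, k ∉ l →
    (∀ c ∈ l, k ≠ c + 1) → fliprs l r k = r k := by
  induction l with
  | nil => exact fun _ _ => rfl
  | cons c l ih =>
    intro r k h1 h2
    show fliprs l (flipr c r) k = _
    rw [List.mem_cons, not_or] at h1
    rw [ih h1.2 fun c' hc' => h2 c' (List.mem_cons_of_mem _ hc'),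
      flipr_ne h1.1 (h2 c List.mem_cons_self)]

/-- **Flips at several corner quads.** -/
theorem CorQ.flips [Fintype D] {L : LS D}
    (hm : ∀ (n : ℕ) (γ : ZMod n → D) (t : PState n), L n γ t → ∀ i, t.m (t.m i) = i ∧ t.m i ≠ i)
    (hst : ∀ (μ : D → D) (ω : D → ℕ) (s : PState 6), M.RealL L A δ s μ ω →
      ∀ q : ZMod 4 → D, M.SiteNum 4 q → A (q 0) → ∃ x, L 4 q x ∧ HasState μ ω q x)
    (l : List (ZMod 6))
    (hee : ∀ c ∈ l, ∀ (q : ZMod 4 → D) (x : PState 4), M.CorQ A δ c q → L 4 q x → EE 4 x)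
    (hc : ∀ c ∈ l, ∃ q, M.CorQ A δ c q ∧ L 4 q flipP)
    (hn1 : ∀ c ∈ l, M.nx (δ (c - 1)) ≠ δ c) (hn2 : ∀ c ∈ l, M.nx (δ (c + 1)) ≠ δ (c + 1 + 1)) :
    ∀ {s : PState 6} {r : ZMod 6 → ℕ} {μ : D → D} {ω : D → ℕ}, M.RealL L A δ s μ ω →
      M.ExG A δ ω r → (∀ k, s.u k + r (k + 1) = r k + 1) → (∀ k, s.m (s.m k) = k) →
      (∀ k, s.m k ≠ k) → FlipOK l s r →
      ∃ μ₂ ω₂, M.RealL L A δ (flipRs l s) μ₂ ω₂ ∧ M.ExG A δ ω₂ (fliprs l r) ∧
        (∀ k, (flipRs l s).u k + fliprs l r (k + 1) = fliprs l r k + 1) ∧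
        ∀ d, A d → (∀ c ∈ l, ¬ M.SameSite (δ c) d) → μ₂ d = μ d ∧ ω₂ d = ω d := by
  induction l with
  | nil => exact fun {s r μ ω} h1 h2 h3 _ _ _ => ⟨μ, ω, h1, h2, h3, fun d _ _ => ⟨rfl, rfl⟩⟩
  | cons c l ih =>
    intro s r μ ω hR hX hsu hs hs' hok
    obtain ⟨o1, o2, o3, o4⟩ := hok
    obtain ⟨q, hq, hqL⟩ := hc c List.mem_cons_self
    have n1 := hn1 c List.mem_cons_self
    have n2 := hn2 c List.mem_cons_self
    obtain ⟨x, hx1, hx2⟩ := hst μ ω s hR q hq.num (hq.qA 0)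
    have hx3 := hX.parP hq n1 n2 o1 o2 (hee c List.mem_cons_self q x hq hx1) hx2
    subst hx3
    have hA := hq.bd.site
    have hpair : ∀ d, A d → μ (μ d) = d ∧ μ d ≠ d ∧ M.SameSite d (μ d) := by
      intro y hy
      obtain ⟨n, γ, t, hn, hγ, ⟨i, hi⟩, ht, hst'⟩ := hR.loc y hy
      have h1 : μ y = γ (t.m i) := by rw [← hi]; exact (hst' i).1
      have h2 := hm n γ t ht i
      refine ⟨?_, ?_, ?_⟩
      · rw [h1, (hst' _).1, h2.1, hi]
      · rw [h1, ← hi]
        exact fun h => h2.2 (hγ.inj h)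
      · rw [h1, ← hi]
        exact hγ.same hn _ _
    obtain ⟨μ₁, ω₁, g1, g2, g3, g4⟩ := hq.flip (L₂ := L) hR hx2 hpair hs hs' o3
      (fun n γ x _ _ _ hx => hx) hqL
    have hX₁ := hX.flip hq n1 n2 (fun d h1 h2 => (g2 d h1 h2).2) fun k => (g3 k).2
    obtain ⟨e1, e2⟩ := flip_m hs hs' o3
    obtain ⟨μ₂, ω₂, k1, k2, k3, k4⟩ := ih (fun c' h' => hee c' (List.mem_cons_of_mem _ h'))
      (fun c' h' => hc c' (List.mem_cons_of_mem _ h'))
      (fun c' h' => hn1 c' (List.mem_cons_of_mem _ h'))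
      (fun c' h' => hn2 c' (List.mem_cons_of_mem _ h')) g1 hX₁ (flip_su hsu o1 o2) e1 e2 o4
    refine ⟨μ₂, ω₂, k1, k2, k3, fun d h1 h2 => ?_⟩
    obtain ⟨j1, j2⟩ := k4 d h1 fun c' h' => h2 c' (List.mem_cons_of_mem _ h')
    have h3 : ¬ QR q d := fun h4 => h2 c List.mem_cons_self (by
      rw [← hq.h0]
      exact (hq.num.mem_iff (by decide) d).2 h4)
    rw [j1, j2]
    exact g2 d h1 h3

end DMap

end GT33
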