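import Pool.Agent.GT33.PeelG
import Pool.Agent.GT33.KRing
import Pool.Agent.GT33.RwB

/-!
# GT33 module PEELR: the peel for words, with flips at the right ends

`reC`: the right ends, these are corner quads of the folded map.  `Gen.flipG`: flips at the right ends, so that all
units of the right ends are at most one.  `FlR`: the demands of the sites without folded sectors which are no right
ends.  `PeelR`, `Gen.peelR`: the peel theorem for words.
-/

open Classical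

namespace GT33

namespace DMap

open Patch

variable {D : Type} {M : DMap D} {A : D → Prop} {δ : ZMod 6 → D} {F : D → Prop}

/-- local states of quads -/
def L4 {D : Type} (Q : (ZMod 4 → D) → PState 4 → Prop) : LS D
  | 4, γ, x => Q γ x
  | _, _, _ => False

theorem L4_n {Q : (ZMod 4 → D) → PState 4 → Prop} {n : ℕ} {γ : ZMod n → D} {x : PState n}
    (h : L4 Q n γ x) : n = 4 := by
  unfold L4 at h
  split at h
  · rfl
  · exact h.elim

/-- the right ends -/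
def reC (M : DMap D) (δ : ZMod 6 → D) (F : D → Prop) (c : ZMod 6) : Prop :=
  KF M δ F c ∧ ¬ cC M δ F c

/-- the demands at the sites without folded sectors which are no right ends -/
structure FlR (M : DMap D) (δ : ZMod 6 → D) (F : D → Prop) (Fl Fl' : Flags) : Prop where
  ok : Fl.Ok
  lk : ∀ j T, ¬ full M δ F j → ¬ cC M δ F j → Fl.lk j T → Fl'.lk (j + 1) T
  le : ∀ j T, ¬ F (δ j) → ¬ full M δ F (j - 1) → ¬ cC M δ F j → Fl.le j T → Fl'.le (j + 1) T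
  le' : ∀ j T, F (δ j) → ¬ full M δ F j → Fl.lk j T → Fl'.le (j + 1) T
  ri : ∀ j T, ¬ F (δ (j + 1)) → ¬ full M δ F j → ¬ cC M δ F j → ¬ cC M δ F (j + 1) →
    Fl.ri j T → Fl'.ri (j + 1) T
  st : ∀ j, ¬ F (δ j) → ¬ full M δ F (j - 1) → ¬ cC M δ F j → Fl.st j → Fl'.st (j + 1)

/-- a state with at most one unit at each dart -/
theorem QS.triv {δ : ZMod 6 → D} {Fl : Flags} {γ : ZMod 4 → D} {x : PState 4} (h : EE 4 x)
    (h1 : ∀ i, x.u i ≤ 1) : M.QS δ Fl γ x :=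
  ⟨h, fun _ _ _ _ _ => h1 _, fun _ _ _ _ => ⟨h1 _, h1 _⟩⟩

theorem fliprs_mem {l : List (ZMod 6)} : ∀ {r : ZMod 6 → ℕ} {c : ZMod 6}, l.Nodup →
    (∀ a ∈ l, ∀ b ∈ l, a ≠ b + 1) → c ∈ l → fliprs l r c = 0 ∧ fliprs l r (c + 1) = 1 := by
  induction l with
  | nil => exact fun {r c} _ _ h => absurd h (by simp)
  | cons a l ih =>
    intro r c hnd hadj hc
    rw [List.nodup_cons] at hnd
    have hadj' : ∀ x ∈ l, ∀ y ∈ l, x ≠ y + 1 := fun x hx y hy =>
      hadj x (List.mem_cons_of_mem _ hx) y (List.mem_cons_of_mem _ hy)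
    show fliprs l (flipr a r) c = 0 ∧ fliprs l (flipr a r) (c + 1) = 1
    rcases List.mem_cons.1 hc with rfl | h
    · rw [fliprs_not hnd.1 fun b hb => hadj c List.mem_cons_self b (List.mem_cons_of_mem _ hb),
        fliprs_not (fun h => hadj _ (List.mem_cons_of_mem _ h) c List.mem_cons_self rfl)
          fun b hb h => hnd.1 (by rwa [add_right_cancel h]), flipr_c, flipr_c1]
      exact ⟨rfl, rfl⟩
    · exact ih hnd.2 hadj' h

/-- the pairing of a quad -/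
theorem EE.inv {x : PState 4} (h : EE 4 x) (i : ZMod 4) : x.m (x.m i) = i ∧ x.m i ≠ i := by
  obtain ⟨c, k, rfl⟩ := h
  revert c k i
  decide

namespace Gen

variable [Fintype D] {hG : M.Gen A δ} {hF : Pre M A δ F} {o : D → Bool}
  {ho : ∀ d, o (M.nx d) = !o d} {ho' : ∀ d, o (M.al d) = !o d}

/-- the corners of the folded map -/
theorem corR_iff (k : ZMod 6) :
    (mapF hF ho ho' hG).nx (hdrF hF ho ho' hG k) = hdrF hF ho ho' hG (k + 1) ↔ KF M δ F k := by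
  rw [← hG.mapF_KS hF ho ho' (fun _ _ => False) k]
  have h1 : (mapF hF ho ho' hG).deg (hdrF hF ho ho' hG k) = 4 :=
    hG.mapF_real hF ho ho' _ ((hG.mapF_patch hF ho ho').inA k)
  exact ⟨fun h => ⟨h, Or.inl h1⟩, fun h => h.1⟩

/-- the corner quads of the folded map -/
theorem mapF_corQ {k : ZMod 6} (hk : KF M δ F k) :
    ∃ q, (mapF hF ho ho' hG).CorQ (fun x => A x.1) (hdrF hF ho ho' hG) k q := by
  have hP := hG.mapF_patch hF ho ho'
  have hq := hG.mapF_real hF ho ho'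
  refine CorQ.exists_corQ hP.legal hP.bd ((corR_iff (ho := ho) (ho' := ho') k).2 hk)
    (hq _ (hP.inA k)) ?_ ?_
  · by_contra hno
    push Not at hno
    have h3 : (mapF hF ho ho' hG).cut (fun x => A x.1) = 4 := by
      rw [← hq _ (hP.inA k), ← hP.legal.cut_site]
      exact cut_congr fun x => ⟨fun hx => hno x hx, fun hx => (hP.sites.same hx).1 (hP.inA k)⟩
    have h4 := bd_cut hP.bd
    omega
  · intro h8
    obtain ⟨c, r, r', hp⟩ := exists_P1 hP.legal hP.bd h8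
    have k0 : (mapF hF ho ho' hG).nx (hdrF hF ho ho' hG (0 + c)) =
        hdrF hF ho ho' hG (1 + c) := by
      have := hp.n.nx 3
      rw [hp.r3] at this
      exact this.trans hp.r0
    have k1 : (mapF hF ho ho' hG).nx (hdrF hF ho ho' hG (1 + c)) =
        hdrF hF ho ho' hG (2 + c) := by
      have := hp.n.nx 0
      rw [hp.r0] at this
      exact this.trans hp.r1
    have e : 0 + c + 1 = 1 + c := by ring
    have e' : 1 + c + 1 = 2 + c := by ring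
    have a0 : KF M δ F (0 + c) := (corR_iff (ho := ho) (ho' := ho') _).1 (by
      rw [e]
      exact k0)
    have a1 : KF M δ F (0 + c + 1) := (corR_iff (ho := ho) (ho' := ho') _).1 (by
      rw [e, e']
      exact k1)
    exact hG.KF_adj hF a0 a1

/-- the sites of the right ends in the folded map -/
def ZR (hG : M.Gen A δ) (hF : Pre M A δ F) (ho : ∀ d, o (M.nx d) = !o d)
    (ho' : ∀ d, o (M.al d) = !o d) (x : {d // ¬ FR M F d}) : Prop :=
  ∃ c, reC M δ F c ∧ (mapF hF ho ho' hG).SameSite (hdrF hF ho ho' hG c) x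

/-- **Flips at the right ends.** -/
theorem flipG {Q : (ZMod 4 → {d // ¬ FR M F d}) → PState 4 → Prop}
    (hQr : ∀ (γ : ZMod 4 → {d // ¬ FR M F d}) (x : PState 4) (c : ZMod 4),
      (mapF hF ho ho' hG).SiteNum 4 γ → A (γ 0).1 → Q γ x → Q (fun i => γ (i + c)) (x.rot c))
    (hQm : ∀ γ x, Q γ x → ∀ i, x.m (x.m i) = i ∧ x.m i ≠ i)
    (hQe : ∀ γ x, ZR hG hF ho ho' (γ 0) → Q γ x → EE 4 x) {s' : PState 6}
    (hQf : ∀ c q, reC M δ F c → s'.u c ≠ 0 →
      (mapF hF ho ho' hG).CorQ (fun x => A x.1) (hdrF hF ho ho' hG) c q → Q q flipP)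
    {μ' : {d // ¬ FR M F d} → {d // ¬ FR M F d}} {ω' : {d // ¬ FR M F d} → ℕ} {r' : ZMod 6 → ℕ}
    (hR : (mapF hF ho ho' hG).RealL (L4 Q) (fun y => A y.1) (hdrF hF ho ho' hG) s' μ' ω')
    (hX : ExF hG hF ho ho' ω' r') (hsu : ∀ k, s'.u k + r' (k + 1) = r' k + 1)
    (hs : ∀ k, s'.m (s'.m k) = k) (hs' : ∀ k, s'.m k ≠ k)
    (hnu : ∀ c, reC M δ F c → s'.u c ≠ 1) {l : List (ZMod 6)} (hnd : l.Nodup)
    (hl : ∀ c, c ∈ l ↔ reC M δ F c ∧ r' c = 1) (hok : FlipOK l s' r') :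
    ∃ μ₂ ω₂, (mapF hF ho ho' hG).RealL
        (L4 fun γ x => Q γ x ∧ (ZR hG hF ho ho' (γ 0) → ∀ i, x.u i ≤ 1)) (fun y => A y.1)
        (hdrF hF ho ho' hG) (flipRs l s') μ₂ ω₂ ∧ ExF hG hF ho ho' ω₂ (fliprs l r') ∧
      (∀ k, (flipRs l s').u k + fliprs l r' (k + 1) = fliprs l r' k + 1) ∧
      ∀ x : {d // ¬ FR M F d}, A x.1 → ¬ ZR hG hF ho ho' x → μ₂ x = μ' x ∧ ω₂ x = ω' x := by
  have hP := hG.mapF_patch hF ho ho'
  have hadj : ∀ a ∈ l, ∀ b ∈ l, a ≠ b + 1 := fun a ha b hb h => by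
    rw [h] at ha
    exact hG.KF_adj hF ((hl b).1 hb).1.1 ((hl _).1 ha).1.1
  have hm : ∀ (n : ℕ) (γ : ZMod n → {d // ¬ FR M F d}) (t : PState n), L4 Q n γ t →
      ∀ i, t.m (t.m i) = i ∧ t.m i ≠ i := by
    intro n γ t ht i
    have h4 := L4_n ht
    subst h4
    exact hQm γ t ht i
  have hprev : ∀ {c}, reC M δ F c → (mapF hF ho ho' hG).nx (hdrF hF ho ho' hG (c - 1)) ≠
      hdrF hF ho ho' hG c := fun {c} hc h => by
    have h1 : KF M δ F (c - 1) := (corR_iff (ho := ho) (ho' := ho') _).1 (by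
      rw [sub_add_cancel]
      exact h)
    refine hG.KF_adj hF h1 ?_
    rw [sub_add_cancel]
    exact hc.1
  have hnext : ∀ {c}, reC M δ F c → (mapF hF ho ho' hG).nx (hdrF hF ho ho' hG (c + 1)) ≠
      hdrF hF ho ho' hG (c + 1 + 1) := fun {c} hc h =>
    hG.KF_adj hF hc.1 ((corR_iff (ho := ho) (ho' := ho') _).1 h)
  have hrot : ∀ (n : ℕ) (γ : ZMod n → {d // ¬ FR M F d}) (t : PState n) (c : ZMod n),
      (mapF hF ho ho' hG).SiteNum n γ → A (γ 0).1 → L4 Q n γ t →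
        L4 Q n (fun i => γ (i + c)) (t.rot c) := by
    intro n γ t c hγ hA ht
    have h4 := L4_n ht
    subst h4
    exact hQr γ t c hγ hA ht
  obtain ⟨μ₂, ω₂, h1, h2, h3, h4⟩ := CorQ.flips (L := L4 Q) hm
    (fun μ ω s hR q hq hqA => mapF_state hR hrot hq hqA) l
    (fun c hc q x hq hx => hQe q x ⟨c, ((hl c).1 hc).1, by rw [← hq.h0]⟩ hx)
    (fun c hc => by
      obtain ⟨q, hq⟩ := mapF_corQ (hG := hG) (ho := ho) (ho' := ho') (hF := hF) ((hl c).1 hc).1.1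
      refine ⟨q, hq, hQf c q ((hl c).1 hc).1 (fun h0 => ?_) hq⟩
      have h5 := hsu c
      have h6 := hX.le (c + 1)
      have h7 := ((hl c).1 hc).2
      omega) (fun c hc => hprev ((hl c).1 hc).1) (fun c hc => hnext ((hl c).1 hc).1) hR
    ⟨hX.le, hX.cor, hX.x1, hX.x2, hX.x3⟩ hsu hs hs' hok
  have hX₂ : ExF hG hF ho ho' ω₂ (fliprs l r') := ⟨h2.le, h2.cor, h2.x1, h2.x2, h2.x3⟩
  have hr2 : ∀ c, reC M δ F c → fliprs l r' c = 0 ∧ fliprs l r' (c + 1) = 1 := by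
    intro c hc
    by_cases hcl : c ∈ l
    · exact fliprs_mem hnd hadj hcl
    · have e1 : ∀ b ∈ l, c ≠ b + 1 := fun b hb h => by
        rw [h] at hc
        exact hG.KF_adj hF ((hl b).1 hb).1.1 hc.1
      have e2 : c + 1 ∉ l := fun h => hG.KF_adj hF hc.1 ((hl _).1 h).1.1
      rw [fliprs_not hcl e1, fliprs_not e2 fun b hb h => hcl (by rwa [add_right_cancel h])]
      have e3 := hsu c
      have e4 := hX.le c
      have e5 := hX.le (c + 1)
      have e6 := hnu c hc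
      have e7 : r' c ≠ 1 := fun h => hcl ((hl c).2 ⟨hc, h⟩)
      omega
  refine ⟨μ₂, ω₂, h1.mono hP.sites fun n γ x hn hγ hγA hst hx => ?_, hX₂, h3, fun x hx hz =>
    h4 x hx fun c hc h5 => hz ⟨c, ((hl c).1 hc).1, h5⟩⟩
  have h5 := L4_n hx
  subst h5
  refine ⟨hx, fun ⟨c, hc, hcs⟩ i => ?_⟩
  obtain ⟨q, hq⟩ := mapF_corQ (hG := hG) (ho := ho) (ho' := ho') (hF := hF) hc.1
  obtain ⟨y, hy1, hy2⟩ := mapF_state h1 hrot hq.num (hq.qA 0)
  obtain ⟨j, hj⟩ : QR q (γ i) := (hq.num.mem_iff (by decide) _).1 (by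
    rw [hq.h0]
    exact hcs.trans (hγ.same hn 0 i))
  rw [← (hst i).2, ← hj, (hy2 j).2]
  obtain ⟨r1, r2⟩ := hr2 c hc
  have u0 : y.u 0 = 0 := by
    rw [← (hy2 0).2, hq.h0]
    have h6 := h2.cor c ((corR_iff (ho := ho) (ho' := ho') c).2 hc.1)
    omega
  have u1 : y.u 1 = 1 := by
    rw [← (hy2 1).2, hq.h1, h2.x1 _ (hnext hc), r2]
  have u3 : y.u 3 = 1 := by
    rw [← (hy2 3).2]
    have h6 := h2.x2 (c - 1) (by rw [sub_add_cancel]; exact hprev hc)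
    rw [sub_add_cancel] at h6
    have h7 : q 3 = (mapF hF ho ho' hG).nx.symm (hdrF hF ho ho' hG c) := by
      rw [Equiv.eq_symm_apply, ← hq.h0]
      exact hq.num.nx 3
    rw [h7]
    omega
  obtain ⟨a, k, rfl⟩ := hQe q y ⟨c, hc, by rw [← hq.h0]⟩ hy1
  have key : ∀ a k j : ZMod 4, (qst a k).u 0 = 0 → (qst a k).u 1 = 1 → (qst a k).u 3 = 1 →
      (qst a k).u j ≤ 1 := by decide
  exact key a k j u0 u1 u3

section unt

variable {Fl Fl' : Flags}

/-- a site without folded sectors which is no right end -/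
theorem untR_node {j : ZMod 6} {x : {d // ¬ FR M F d}} (hA : A x.1) (hu : Unt M F x.1)
    (hz : ¬ ZR hG hF ho ho' x) (hn : M.SameNode (δ j) x.1) : ¬ full M δ F j ∧ ¬ cC M δ F j := by
  refine ⟨fun h1 => ?_, fun h1 => ?_⟩
  · have h3 := hG.full_last hF h1 hA hn (unt_not hu)
    have h2 : ¬ F (δ (j + 1)) := fun h2 => hG.unt_full hF hA hu hn ⟨h1, h2⟩
    have h4 : KF M δ F (j + 1) := ⟨h2, by rw [add_sub_cancel_right]; exact h1⟩
    refine hz ⟨j + 1, ⟨h4, fun h5 => ?_⟩, ?_⟩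
    · refine hu _ h5.2 ?_
      rw [h3, ← h5.1]
      exact (site_nx _).symm.trans (site_nx_symm _)
    · have h6 := hG.hdrF_full hF ho ho' h1 fun h => h2 h.1
      rw [show x = hdrF hF ho ho' hG (j + 1) from Subtype.ext (by rw [h6, h3])]
  · rcases hG.toPatch.cor_node h1.1 hn with h2 | h2
    · refine hu _ h1.2 ?_
      rw [h2, ← h1.1]
      exact (site_nx _).symm
    · rw [h2] at hA
      exact hG.toPatch.notA _ hA

/-- a ring dart in a site without folded sectors which is no right end -/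
theorem untR_le {j : ZMod 6} {x : {d // ¬ FR M F d}} (hu : Unt M F x.1)
    (hz : ¬ ZR hG hF ho ho' x) (hn : x.1 = δ j) : ¬ full M δ F (j - 1) := by
  intro h1
  have h2 : ¬ F (δ j) := by
    rw [← hn]
    exact unt_not hu
  have h6 := hG.hdrF_full hF ho ho' h1 fun h => h2 (by
    have := h.1
    rwa [sub_add_cancel] at this)
  rw [sub_add_cancel] at h6
  refine hz ⟨j, ⟨⟨h2, h1⟩, fun h5 => ?_⟩, ?_⟩
  · refine hu _ h5.2 ?_
    rw [hn, ← h5.1]
    exact (site_nx _).symm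
  · have h7 : Unt M F (hdrF hF ho ho' hG j).1 := by
      rw [h6, ← hn]
      exact hu.same (site_nx_symm _)
    refine ⟨1, ?_⟩
    rw [zpow_one]
    apply Subtype.ext
    rw [mapF_nx_unt ho ho' hG hF h7, h6, Equiv.apply_symm_apply, hn]

omit [Fintype D] in
theorem untR_ri {j : ZMod 6} {x : D} (hu : Unt M F x) (hn : M.nx x = δ (j + 1)) :
    ¬ cC M δ F (j + 1) := fun h5 => by
  refine hu _ h5.2 ?_
  rw [← h5.1, ← hn]
  exact (site_nx _).symm.trans (site_nx _).symm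

/-- quads without folded sectors which are no right ends -/
theorem QS_untR (hfl : FlR M δ F Fl Fl') {γ : ZMod 4 → {d // ¬ FR M F d}}
    (hγ : (mapF hF ho ho' hG).SiteNum 4 γ) (hA : ∀ i, A (γ i).1) (hu : ∀ i, Unt M F (γ i).1)
    (hz : ¬ ZR hG hF ho ho' (γ 0)) {t : PState 4}
    (ht : (mapF hF ho ho' hG).QS (hdrF hF ho ho' hG) Fl' γ t) :
    M.QS δ Fl (fun i => (γ i).1) t := by
  have hz' : ∀ a, ¬ ZR hG hF ho ho' (γ a) := fun a ⟨c, h1, h2⟩ =>
    hz ⟨c, h1, h2.trans (hγ.same (by decide) a 0)⟩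
  refine ⟨ht.ee, fun a j T h1 h2 => ?_, fun a j h1 h2 => ?_⟩
  · refine ht.dem a (j + 1) T (mapF_ringn ho ho' hG hF h1) ?_
    have hlk := h2.lk hfl.ok
    obtain ⟨n1, n2⟩ := untR_node (hA a) (hu a) (hz' a) h1
    have e2 : j + 1 + 1 = j + 2 := by ring
    refine ⟨fun _ _ => hfl.lk j T n1 n2 hlk, fun h3 => ?_, fun h3 => ?_⟩
    · by_cases h4 : F (δ j)
      · exact hfl.le' j T h4 n1 hlk
      · have h5 := (unt_le ho ho' hG hF (hu a)).2 ⟨h4, h3⟩
        exact hfl.le j T h4 (untR_le (hu a) (hz' a) h5) n2 (h2.2.1 h5)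
    · rw [← hγ.nx, e2] at h3
      have h5 := (unt_ri ho ho' hG hF (hA a) (hu a) h1).2 h3
      have h4 : ¬ F (δ (j + 1)) := by
        rw [← h5]
        exact unt_not ((hu a).same (site_nx _))
      refine hfl.ri j T h4 n1 n2 (untR_ri (hu a) h5) (h2.2.2 ?_)
      show (γ (a + 1)).1 = δ (j + 1)
      rw [← h5, ← hγ.nx, mapF_nx_unt ho ho' hG hF (hu a)]
  · obtain ⟨h3, h4⟩ := (unt_le ho ho' hG hF (hu a)).1 h1
    have h5 := untR_node (hA a) (hu a) (hz' a) (j := j) (by rw [h1])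
    exact ht.st a (j + 1) h4 (hfl.st j h3 (untR_le (hu a) (hz' a) h1) h5.2 h2)

end unt

/-- **The peel with flips at the right ends.** -/
theorem peelRG {β : (ZMod 6 → D) → Rel}
    (anti : ∀ γ F G t, M.SiteNum 6 γ → A (γ 0) → F.Le G → β γ G t → β γ F t)
    (htou : ∀ d, A d → M.deg d = 6 → ∃ j e, M.SameSite d e ∧ M.SameNode (δ j) e)
    {L T : ZMod 6 → Bool} (hL : ∀ c, L c = true ↔ lecC M δ F c)
    (hT : ∀ c, T c = true ↔ thrC M δ F c)
    {Fl' : Flags} {s' : PState 6} {μ' : {d // ¬ FR M F d} → {d // ¬ FR M F d}}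
    {ω' : {d // ¬ FR M F d} → ℕ} {r' : ZMod 6 → ℕ}
    (hR : (mapF hF ho ho' hG).RealL ((mapF hF ho ho' hG).OL (hdrF hF ho ho' hG)
      (fun γ => β fun i => (γ i).1) Fl') (fun y => A y.1) (hdrF hF ho ho' hG) s' μ' ω')
    (hX : ExF hG hF ho ho' ω' r') (hsu : ∀ k, s'.u k + r' (k + 1) = r' k + 1)
    (hs : ∀ k, s'.m (s'.m k) = k) (hs' : ∀ k, s'.m k ≠ k)
    (hnu : ∀ c, reC M δ F c → s'.u c ≠ 1) {l : List (ZMod 6)} (hnd : l.Nodup)
    (hl : ∀ c, c ∈ l ↔ reC M δ F c ∧ r' c = 1) (hok : FlipOK l s' r')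
    (hthr : ∀ c, thrC M δ F c → (flipRs l s').u c ≠ 0) :
    ∃ (t : ZMod 6 → PState 4) (ρ : Pt → Pt),
      SrcG M δ F Fl' (flipRs l s') (fun _ => False) L (fliprs l r') t ρ ∧
      ∀ (Fl : Flags) (s : PState 6) (a : ZMod 6 → Bool) (r : ZMod 6 → ℕ) (p q : ℕ)
        (w : ZMod 6 → PState 6), FlR M δ F Fl Fl' →
        PeelG M δ F β Fl Fl' s L T a r (fliprs l r') p q w t ρ → Rz M A δ β Fl s := by
  have hP := hG.mapF_patch hF ho ho'
  let Q : (ZMod 4 → {d // ¬ FR M F d}) → PState 4 → Prop := fun γ x => EE 4 x ∧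
    (¬ ZR hG hF ho ho' (γ 0) → (mapF hF ho ho' hG).QS (hdrF hF ho ho' hG) Fl' γ x)
  have hQr : ∀ (γ : ZMod 4 → {d // ¬ FR M F d}) (x : PState 4) (c : ZMod 4),
      (mapF hF ho ho' hG).SiteNum 4 γ → A (γ 0).1 → Q γ x → Q (fun i => γ (i + c)) (x.rot c) :=
    fun γ x c hγ _ hx => ⟨hx.1.rot c, fun hz => (hx.2 fun ⟨c', h1, h2⟩ =>
      hz ⟨c', h1, h2.trans (hγ.same (by decide) _ _)⟩).rotγ c⟩
  have hR0 : (mapF hF ho ho' hG).RealL (L4 Q) (fun y => A y.1) (hdrF hF ho ho' hG) s' μ' ω' := by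
    refine hR.mono hP.sites fun n γ x hn hγ hγA _ hx => ?_
    have h1 : n = 4 := by rw [← hγ.deg 0, hG.mapF_real hF ho ho' _ (hγA 0)]
    subst h1
    have hx : (mapF hF ho ho' hG).QS (hdrF hF ho ho' hG) Fl' γ x := hx
    exact ⟨hx.ee, fun _ => hx⟩
  obtain ⟨μ₂, ω₂, h1, h2, h3, -⟩ := flipG (hG := hG) (ho := ho) (ho' := ho') (hF := hF) hQr
    (fun _ _ h => EE.inv h.1) (fun _ _ _ h => h.1) (fun c q hc _ hq => ⟨flipP_ee, fun hz => absurd ⟨c, hc, by
      rw [← hq.h0]⟩ hz⟩) hR0 hX hsu hs hs' hnu hnd hl hok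
  have hqs : QsT hG hF ho ho' Fl' (fun _ => False)
      (L4 fun γ x => Q γ x ∧ (ZR hG hF ho ho' (γ 0) → ∀ i, x.u i ≤ 1)) := by
    intro b x e _ _ _ hx
    by_cases hz : ZR hG hF ho ho' (b 0)
    · exact QS.triv hx.1.1 (hx.2 hz)
    · exact hx.1.2 hz
  obtain ⟨t, ρ, h4, h5⟩ := srcG (hG := hG) (ho := ho) (ho' := ho') (hF := hF) htou hL hT h1 h2 h3
    (fun n γ x c hγ hA hx => by
      have h6 := L4_n hx
      subst h6
      have hx : Q γ x ∧ (ZR hG hF ho ho' (γ 0) → ∀ i, x.u i ≤ 1) := hx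
      exact ⟨hQr γ x c hγ hA hx.1, fun ⟨c', k1, k2⟩ i => hx.2 ⟨c', k1,
        k2.trans (hγ.same (by decide) _ _)⟩ _⟩)
    (fun n γ x hx => by
      have h6 := L4_n hx
      subst h6
      have hx : Q γ x ∧ (ZR hG hF ho ho' (γ 0) → ∀ i, x.u i ≤ 1) := hx
      obtain ⟨c, k, h7⟩ := hx.1.1
      rw [h7]
      clear hx h7
      revert c k
      decide)
    (fun b x hx => hx.1.1) hqs hthr
  refine ⟨t, ρ, h4, fun Fl s a r p q w hfl h => ?_⟩
  refine h5 _ s a r p q w h.par (liftLocG anti htou (fun b x e he hs hc hx => hqs b x e he hs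
    (fun _ h => h.elim) hx) (fun n γ x hn hγ hγA hu hx => ?_) h) h.su h.port h.all
  have h6 := L4_n hx
  subst h6
  by_cases hz : ZR hG hF ho ho' (γ 0)
  · exact QS.triv hx.1.1 (hx.2 hz)
  · exact QS_untR hfl hγ hγA hu hz (hx.1.2 hz)

end Gen

/-- the right ends as Boolean functions -/
def reN (N C : ZMod 6 → Bool) (c : ZMod 6) : Bool :=
  N (c - 1) && !N c && !(C c && N (c + 1))

/-- the finite conditions of the peel, with flips at the right ends -/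
structure PeelR (N C : ZMod 6 → Bool) (Fl Fl' : Flags) (s : PState 6) (a : ZMod 6 → Bool)
    (r r' : ZMod 6 → ℕ) (p q : ℕ) (w : ZMod 6 → PState 6) (t : ZMod 6 → PState 4)
    (ρ : Pt → Pt) : Prop where
  ok : Fl.Ok
  flk : ∀ j T, N j = false → ¬ (C j = true ∧ N (j + 1) = true) → Fl.lk j T → Fl'.lk (j + 1) T
  fle : ∀ j T, N j = false → N (j - 1) = false → ¬ (C j = true ∧ N (j + 1) = true) →
    Fl.le j T → Fl'.le (j + 1) T
  fri : ∀ j T, N (j + 1) = false → N j = false → ¬ (C (j + 1) = true ∧ N (j + 1 + 1) = true) →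
    Fl.ri j T → Fl'.ri (j + 1) T
  fst : ∀ j, N j = false → N (j - 1) = false → ¬ (C j = true ∧ N (j + 1) = true) → Fl.st j →
    Fl'.st (j + 1)
  pq : p + q = 3
  p1 : 1 ≤ p
  q1 : 1 ≤ q
  r1 : ∀ k, r k ≤ 1
  aI : ∀ k, a k = false → N (k - 1) = true ∧ N k = true
  c1 : ∀ k, N k = true → N (k + 1) = false → ¬ (C (k + 1) = true ∧ N (k + 1 + 1) = true) →
    r' (k + 1) = 0 ∧ q = 1
  c2 : ∀ k, N k = true → N (k - 1) = false → C (k - 1) = false → r k = 0 ∧ q = 1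
  c3 : ∀ k, N k = false → ¬ (C k = true ∧ N (k + 1) = true) → r k = r' (k + 1)
  wu : ∀ c, C c = true → N (c + 1) = true → (w c).u 0 = r (c + 1) ∧ (w c).u 1 = p ∧
    (w c).u 2 = (t c).u 0 ∧ (w c).u 4 + r c = 1 ∧ (w c).u 5 + r (c + 1) = r c + 1
  wt : ∀ c, thrN N C c = true → (w c).u 3 = q
  wl : ∀ c, lecN N C c = true → (w c).u 3 = (t c).u 1
  su : ∀ k, s.u k + r (k + 1) = r k + 1
  port : ∀ k, Relation.EqvGen (PStepG (lecN N C) (thrN N C) a ρ fun c => (w c).m)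
    (0, k) (0, s.m k)
  all : ∀ x, up (lecN N C) x = true →
    ∃ k, Relation.EqvGen (PStepG (lecN N C) (thrN N C) a ρ fun c => (w c).m) x (0, k)
  lk : ∀ j, N j = true → (Fl.lk j true → q ≤ 1) ∧ (Fl.lk j false → p ≤ 1)
  sl : ∀ k, N k = true → N (k - 1) = false → C (k - 1) = false → Gen.SqOk Fl k (lq p q)
  si : ∀ k, N k = true → N (k - 1) = true → Gen.SqOk Fl k (sq (a k) (r k) (r' k) p q)

namespace NC

variable {N C : ZMod 6 → Bool} (h : NC M δ F N C)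

include h

theorem re (c : ZMod 6) : reC M δ F c ↔ reN N C c = true := by
  unfold reC reN KF
  rw [h.cC, h.n, h.f]
  cases N c <;> cases N (c - 1) <;> cases C c <;> cases N (c + 1) <;> simp

/-- the facts about the source -/
theorem srcG {Fl' : Flags} {s' : PState 6} {r' : ZMod 6 → ℕ} {t : ZMod 6 → PState 4} {ρ : Pt → Pt}
    (hs : SrcG M δ F Fl' s' (fun _ => False) (lecN N C) r' t ρ) : SrcN N C Fl' s' r' t ρ :=
  ⟨hs.le, hs.su, fun c h1 h2 => hs.ee c ((h.cC c).2 ⟨h1, h2⟩),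
    fun c h1 h2 => hs.u3 c ((h.cC c).2 ⟨h1, h2⟩), fun c hc => hs.u2 c ((h.thr c).2 hc),
    fun c hc => hs.u1 c ((h.thr c).2 hc), fun c hc => hs.u2' c ((h.lec c).2 hc),
    fun c h1 h2 => hs.d3 c (fun h => h) ((h.cC c).2 ⟨h1, h2⟩),
    fun c hc => hs.d2 c (fun h => h) ((h.thr c).2 hc),
    fun c hc => hs.d2' c (fun h => h) ((h.lec c).2 hc),
    fun c hc => hs.d1 c (fun h => h) ((h.thr c).2 hc),
    fun c h1 h2 => hs.st3 c (fun h => h) ((h.cC c).2 ⟨h1, h2⟩),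
    fun c hc => hs.st2 c (fun h => h) ((h.thr c).2 hc), hs.rv, hs.rs, hs.ra⟩

/-- the conditions of the peel -/
theorem okR [Fintype D] (hG : M.Gen A δ) (hF : Pre M A δ F) {β : (ZMod 6 → D) → Rel}
    {Fl Fl' : Flags} {s : PState 6} {a : ZMod 6 → Bool} {r r' : ZMod 6 → ℕ} {p q : ℕ}
    {w : ZMod 6 → PState 6} {t : ZMod 6 → PState 4} {ρ : Pt → Pt}
    (hp : PeelR N C Fl Fl' s a r r' p q w t ρ) (hb : BoxN M A δ β N C Fl Fl' a r r' p q w) :
    FlR M δ F Fl Fl' ∧ PeelG M δ F β Fl Fl' s (lecN N C) (thrN N C) a r r' p q w t ρ := by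
  have hff : ∀ {x : Bool}, x ≠ true ↔ x = false := fun {x} => by
    cases x <;> decide
  have hleft : ∀ k, Gen.LkF M δ F (δ k) → N k = true ∧ N (k - 1) = false ∧ C (k - 1) = false := by
    intro k hk
    have h1 := (h.n k).1 hk.1
    have h2 : N (k - 1) = false := hff.1 fun h3 =>
      hk.2.1 k ((h.int k).2 ⟨h3, h1⟩) rfl
    refine ⟨h1, h2, hff.1 fun h3 => ?_⟩
    exact Gen.left_nc hk (by
      have := (h.c (k - 1)).2 h3
      rwa [sub_add_cancel] at this)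
  have hn : ∀ {k}, ¬ F (δ k) → N k = false := fun {k} hk => hff.1 (by rwa [Ne, ← h.n])
  have hf : ∀ {k}, ¬ full M δ F k → N k = false := fun {k} hk => hff.1 (by rwa [Ne, ← h.f])
  have hc : ∀ {k}, ¬ DMap.cC M δ F k → ¬ (C k = true ∧ N (k + 1) = true) := fun {k} hk => by
    rwa [← h.cC]
  refine ⟨⟨hp.ok, fun j T h1 h2 h3 => hp.flk j T (hf h1) (hc h2) h3,
      fun j T h1 h2 h3 h4 => hp.fle j T (hn h1) (hf h2) (hc h3) h4,
      fun j T h1 h2 _ => absurd ((h.f j).2 ((h.n j).1 h1)) h2,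
      fun j T h1 h2 _ h4 h5 => hp.fri j T (hn h1) (hf h2) (hc h4) h5,
      fun j h1 h2 h3 h4 => hp.fst j (hn h1) (hf h2) (hc h3) h4⟩,
    ⟨hp.pq, hp.p1, hp.q1, hp.r1, fun k hk => (h.int k).2 (hp.aI k hk), fun k h1 h2 h3 => ?_,
      fun k h1 h2 h3 => ?_, fun k h1 h2 => hp.c3 k (hff.1 (by rwa [Ne, ← h.n]))
        (by rw [← h.cC]; exact h2), fun c hc => hp.wu c ((h.cC c).1 hc).1 ((h.cC c).1 hc).2,
      fun c hc => hp.wt c ((h.thr c).1 hc), fun c hc => hp.wl c ((h.lec c).1 hc)⟩, hp.su, hp.port,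
    hp.all, fun j e he hn _ => hp.lk j ((h.n j).1 (hG.pre_first hF he hn)),
    fun k hk _ => hp.sl k (hleft k hk).1 (hleft k hk).2.1 (hleft k hk).2.2,
    fun k hk _ => hp.si k ((h.int k).1 hk).2 ((h.int k).1 hk).1,
    fun j α x hα he hn h1 h2 h3 h4 => hb.lh j α x ((h.n j).1 (hG.pre_first hF he hn)) hα
      (hF.fs _ he).1 hn h1 h2 h3 h4, fun k α x hk hα h0 h1 h2 h3 => hb.ll k α x (hleft k hk).1
      (hleft k hk).2.1 (hleft k hk).2.2 hα h0 h1 h2 h3,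
    fun k α x hk hα h0 h1 h2 h3 h4 h5 h6 => hb.sh k α x ((h.int k).1 hk).2 ((h.int k).1 hk).1 hα h0
      h1 h2 h3 h4 h5 h6, fun c hc => hb.co c ((h.cC c).1 hc).1 ((h.cC c).1 hc).2 hc.1⟩
  · have h4 := (h.n k).1 h1
    have h5 : N (k + 1) = false := hff.1 fun h5 => h2 ((h.int _).2 ⟨by
      rw [add_sub_cancel_right]; exact h4, h5⟩)
    refine hp.c1 k h4 h5 fun h6 => h3 ((h.thr _).2 ?_)
    unfold thrN
    rw [add_sub_cancel_right, h6.1, h6.2, h4]
    rfl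
  · have h4 := (h.n k).1 h1
    have h5 : N (k - 1) = false := hff.1 fun h5 => h2 ((h.int _).2 ⟨h5, h4⟩)
    refine hp.c2 k h4 h5 (hff.1 fun h6 => h3 ((h.cC _).2 ⟨h6, ?_⟩))
    rw [sub_add_cancel]
    exact h4

end NC

/-- **The peel for words, with flips at the right ends.** -/
theorem Gen.peelR [Fintype D] {hG : M.Gen A δ} {hF : Pre M A δ F} {o : D → Bool}
    {ho : ∀ d, o (M.nx d) = !o d} {ho' : ∀ d, o (M.al d) = !o d} {β : (ZMod 6 → D) → Rel}
    (anti : ∀ γ F G t, M.SiteNum 6 γ → A (γ 0) → F.Le G → β γ G t → β γ F t)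
    (htou : ∀ d, A d → M.deg d = 6 → ∃ j e, M.SameSite d e ∧ M.SameNode (δ j) e)
    {N C : ZMod 6 → Bool} (hN : NC M δ F N C)
    {Fl' : Flags} {s' : PState 6} {μ' : {d // ¬ FR M F d} → {d // ¬ FR M F d}}
    {ω' : {d // ¬ FR M F d} → ℕ} {r' : ZMod 6 → ℕ}
    (hR : (mapF hF ho ho' hG).RealL ((mapF hF ho ho' hG).OL (hdrF hF ho ho' hG)
      (fun γ => β fun i => (γ i).1) Fl') (fun y => A y.1) (hdrF hF ho ho' hG) s' μ' ω')
    (hX : ExF hG hF ho ho' ω' r') (hsu : ∀ k, s'.u k + r' (k + 1) = r' k + 1)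
    (hs : ∀ k, s'.m (s'.m k) = k) (hs' : ∀ k, s'.m k ≠ k)
    (hnu : ∀ c, reN N C c = true → s'.u c ≠ 1) {l : List (ZMod 6)} (hnd : l.Nodup)
    (hl : ∀ c, c ∈ l ↔ reN N C c = true ∧ r' c = 1) (hok : FlipOK l s' r')
    (hthr : ∀ c, thrN N C c = true → (flipRs l s').u c ≠ 0) :
    ∃ (t : ZMod 6 → PState 4) (ρ : Pt → Pt),
      SrcN N C Fl' (flipRs l s') (fliprs l r') t ρ ∧
      ∀ (Fl : Flags) (s : PState 6) (a : ZMod 6 → Bool) (r : ZMod 6 → ℕ) (p q : ℕ)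
        (w : ZMod 6 → PState 6), PeelR N C Fl Fl' s a r (fliprs l r') p q w t ρ →
        BoxN M A δ β N C Fl Fl' a r (fliprs l r') p q w → Rz M A δ β Fl s := by
  obtain ⟨t, ρ, h1, h2⟩ := peelRG (hG := hG) (hF := hF) (ho := ho) (ho' := ho') anti htou
    (fun c => (hN.lec c).symm) (fun c => (hN.thr c).symm) hR hX hsu hs hs'
    (fun c hc => hnu c ((hN.re c).1 hc)) hnd (fun c => by rw [hl, hN.re]) hok
    fun c hc => hthr c ((hN.thr c).1 hc)
  exact ⟨t, ρ, hN.srcG h1, fun Fl s a r p q w h3 h4 => h2 Fl s a r p q w (hN.okR hG hF h3 h4).1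
    (hN.okR hG hF h3 h4).2⟩

end DMap

end GT33
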