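import Pool.Agent.GT33.RwB
import Pool.Agent.GT33.ExFo
import Pool.Agent.GT33.PeelR

/-!
# GT33 module RWC: the peel theorem for a source state

`Gen.rz_exF`: a realised state of the folded map with an exact ring.  `BoxG`: the conditions for the boxes, for all
good boxes.  `Gen.peelS`: states of the patch from a state of the folded map.
-/

open Classical

namespace GT33

namespace DMap

variable {D : Type} {M : DMap D} {A : D → Prop} {δ : ZMod 6 → D}

open Patch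

/-- the ring darts of a state: `r` is exact for `s`, and there is not one unit at the corners `K` -/
structure ExS (K : ZMod 6 → Prop) (s : PState 6) (r : ZMod 6 → ℕ) : Prop where
  su : ∀ i, s.u i + r (i + 1) = r i + 1
  le : ∀ i, r i ≤ 1
  zero : ∃ i, s.u i = 0
  cor : ∀ i, K i → s.u i ≠ 1

namespace Gen

variable [Fintype D] (hG : M.Gen A δ) {F : D → Prop} (hF : Pre M A δ F) {o : D → Bool}
  (ho : ∀ d, o (M.nx d) = !o d) (ho' : ∀ d, o (M.al d) = !o d)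

include hG hF

/-- a realised state of the folded map with an exact ring -/
theorem rz_exF {β' : (ZMod 6 → {d // ¬ FR M F d}) → Rel} {Fl' : Flags} {s' : PState 6}
    (h : Rz (mapF hF ho ho' hG) (fun x => A x.1) (hdrF hF ho ho' hG) β' Fl' s')
    {r' : ZMod 6 → ℕ} (hr : ExS (KF M δ F) s' r') :
    ∃ μ' ω', (mapF hF ho ho' hG).RealL ((mapF hF ho ho' hG).OL (hdrF hF ho ho' hG) β' Fl')
      (fun x => A x.1) (hdrF hF ho ho' hG) s' μ' ω' ∧ ExF hG hF ho ho' ω' r' := by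
  obtain ⟨μ', ω', hR⟩ := h
  have hP := hG.mapF_patch hF ho ho'
  have hq := hG.mapF_real hF ho ho'
  have hK : ∀ i, (mapF hF ho ho' hG).nx (hdrF hF ho ho' hG i) = hdrF hF ho ho' hG (i + 1) →
      KF M δ F i := fun i hi => (hG.mapF_KS hF ho ho' (fun _ _ => False) i).1
    ⟨hi, Or.inl (hq _ (hP.inA i))⟩
  refine ⟨μ', ω', hR, hG.exF hF ho ho' hq hR hr.su hr.le hr.zero (fun i hi =>
    ⟨hr.cor i (hK i hi), fun h1 => hG.KF_adj hF (hK i hi) (hK _ h1)⟩)
    (not_single hP fun x hx => hq x hx)⟩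

end Gen

/-- the corner set of the folded map for a word -/
def KN (N : ZMod 6 → Bool) (k : ZMod 6) : Prop := N (k - 1) = true ∧ N k = false

theorem NC.kf {N C : ZMod 6 → Bool} {F : D → Prop} (h : NC M δ F N C) : KF M δ F = KN N := by
  funext k
  apply propext
  unfold KF KN
  rw [h.n, h.f, Bool.not_eq_true, and_comm]

theorem reN_kn {N C : ZMod 6 → Bool} {c : ZMod 6} (h : reN N C c = true) : KN N c := by
  unfold reN at h
  simp only [Bool.and_eq_true, Bool.not_eq_true'] at h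
  exact h.1

/-- the conditions for a source state `s'` with the units `r'` of the ring darts and the flips `l` -/
structure SrcOK (N C : ZMod 6 → Bool) (s' : PState 6) (r' : ZMod 6 → ℕ) (l : List (ZMod 6)) :
    Prop where
  ex : ExS (KN N) s' r'
  inv : ∀ k, s'.m (s'.m k) = k ∧ s'.m k ≠ k
  nd : l.Nodup
  mem : ∀ c, c ∈ l ↔ reN N C c = true ∧ r' c = 1
  flip : FlipOK l s' r'
  thr : ∀ c, thrN N C c = true → (flipRs l s').u c ≠ 0

/-- the conditions of the peel for all good boxes -/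
structure BoxG (Good : (ZMod 6 → Prop) → Prop → Rel → Prop) (N C : ZMod 6 → Bool)
    (Fl Fl' : Flags) (a : ZMod 6 → Bool) (r r' : ZMod 6 → ℕ) (p q : ℕ) (w : ZMod 6 → PState 6) :
    Prop where
  lh : ∀ (j : ZMod 6) (x : PState 4), N j = true → EE 4 x → x.u 3 = 0 →
    (∀ T, Fl'.lk j T → x.u (sideC T 3) ≤ 1) →
    ∀ K σ b, (∀ F G t, F.Le G → b G t → b F t) → Good K σ b → b (lfl Fl j) (lh p q x)
  ll : ∀ (k : ZMod 6) (x : PState 4), N k = true → N (k - 1) = false → C (k - 1) = false →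
    EE 4 x → x.u 3 = 0 → (∀ T, Fl'.lk k T → x.u (sideC T 3) ≤ 1) →
    ∀ K σ b, (∀ F G t, F.Le G → b G t → b F t) → Good K σ b → b (sfl Fl k) (GT33.lh p q x)
  sh : ∀ (k : ZMod 6) (x : PState 4), N k = true → N (k - 1) = true → EE 4 x → x.u 3 = r' k →
    x.u 2 + r' k = 1 → (∀ T, Fl'.le k T → x.u (sideC T 3) ≤ 1) →
    (∀ T, Fl'.ri (k - 1) T → x.u (sideC T 2) ≤ 1) → (Fl'.st k → x.u 0 ≤ 1 ∧ x.u 1 ≤ 1) →
    ∀ K σ b, (∀ F G t, F.Le G → b G t → b F t) → Good K σ b →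
      b (sfl Fl k) (sh (a k) (r k) p q x)
  co : ∀ c, C c = true → N (c + 1) = true → ∀ K σ b, (∀ F G t, F.Le G → b G t → b F t) →
    Good K σ b → ¬ K 5 → b (cflags Fl c) (w c)

/-- the boxes of an object -/
theorem BoxG.box [Finite D] {Good : (ZMod 6 → Prop) → Prop → Rel → Prop} {B : Boxes D}
    {N C : ZMod 6 → Bool} {Fl Fl' : Flags} {a : ZMod 6 → Bool} {r r' : ZMod 6 → ℕ} {p q : ℕ}
    {w : ZMod 6 → PState 6} (h : BoxG Good N C Fl Fl' a r r' p q w) (hO : M.Obj Good A δ B)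
    (hc : ∀ c, C c = true → CorHex M A δ c (kc M δ c)) (hk : ∀ j, ¬ KS M B.κ δ j) :
    BoxN M A δ B.β N C Fl Fl' a r r' p q w := by
  have ha : ∀ α, M.SiteNum 6 α → A (α 0) → ∀ F G t, F.Le G → B.β α G t → B.β α F t :=
    fun α h1 h2 F G t => hO.anti α F G t h1 h2
  have hA : ∀ {α : ZMod 6 → D} {k}, α 0 = δ k → A (α 0) := fun {α k} h1 => by
    rw [h1]
    exact hO.patch.inA k
  exact ⟨fun j α x h1 h2 h3 _ _ h6 h7 h8 => h.lh j x h1 h6 h7 h8 _ _ _ (ha α h2 h3)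
      (hO.good α h2 h3), fun k α x h1 h2 h3 h4 h5 h6 h7 h8 => h.ll k x h1 h2 h3 h6 h7 h8 _ _ _
      (ha α h4 (hA h5)) (hO.good α h4 (hA h5)),
    fun k α x h1 h2 h3 h4 h5 h6 h7 h8 h9 h10 => h.sh k x h1 h2 h5 h6 h7 h8 h9 h10 _ _ _
      (ha α h3 (hA h4)) (hO.good α h3 (hA h4)), fun c h1 h2 h3 => h.co c h1 h2 _ _ _
      (ha _ (hc c h1).num ((hc c h1).kA 0)) (hO.good _ (hc c h1).num
      ((hc c h1).kA 0)) fun h4 => hk c ⟨h3, Or.inr ⟨_, 5, (hc c h1).num, (hc c h1).h5, h4⟩⟩⟩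

namespace Gen

variable [Fintype D] (hG : M.Gen A δ) {F : D → Prop} (hF : Pre M A δ F) {o : D → Bool}
  (ho : ∀ d, o (M.nx d) = !o d) (ho' : ∀ d, o (M.al d) = !o d)

include hG hF

/-- **The peel theorem for a source state**. -/
theorem peelS {Good : (ZMod 6 → Prop) → Prop → Rel → Prop} {B : Boxes D}
    (hO : M.Obj Good A δ B) (hk : ∀ j, ¬ KS M B.κ δ j)
    {N C : ZMod 6 → Bool} (hN : NC M δ F N C) {Fl' : Flags} {s' : PState 6}
    (h : Rz (mapF hF ho ho' hG) (fun x => A x.1) (hdrF hF ho ho' hG)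
        (B.pull fun x : {d // ¬ FR M F d} => x.1).β Fl' s')
    {r' : ZMod 6 → ℕ} {l : List (ZMod 6)} (hs : SrcOK N C s' r' l) :
    ∃ (t : ZMod 6 → PState 4) (ρ : Pt → Pt), SrcN N C Fl' (flipRs l s') (fliprs l r') t ρ ∧
      ∀ (Fl : Flags) (s : PState 6) (a : ZMod 6 → Bool) (r : ZMod 6 → ℕ) (p q : ℕ)
        (w : ZMod 6 → PState 6), PeelR N C Fl Fl' s a r (fliprs l r') p q w t ρ →
        BoxG Good N C Fl Fl' a r (fliprs l r') p q w → Rz M A δ B.β Fl s := by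
  obtain ⟨μ', ω', hR, hE⟩ := hG.rz_exF hF ho ho' h (by rw [hN.kf]; exact hs.ex)
  obtain ⟨t, ρ, h1, h2⟩ := peelR (hG := hG) (hF := hF) (ho := ho) (ho' := ho')
    (fun γ F G t h1 h2 h3 h4 => hO.anti γ F G t h1 h2 h3 h4) hO.touch hN hR hE hs.ex.su
    (fun k => (hs.inv k).1) (fun k => (hs.inv k).2) (fun c hc => hs.ex.cor c (reN_kn hc)) hs.nd
    hs.mem hs.flip hs.thr
  exact ⟨t, ρ, h1, fun Fl s a r p q w h3 h4 => h2 Fl s a r p q w h3
    (h4.box hO (fun c hc => hG.corHex hF ((hN.c c).2 hc)) hk)⟩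

end Gen

end DMap

end GT33
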