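import Pool.Agent.GT33.ExR
import Pool.Agent.GT33.RwC

/-!
# GT33 module EXS: a through corner hexagon in the state `(2, 0, 1, 0)`

`ExZ`: the facts about a realised state of the folded map such that the corner quad `K` of the corner hexagon `c` is
in the state `(2, 0, 1, 0)` and the ring of the rest without `K` is exact.  `Gen.rz_exZ`: such a state from a realised
state of the rest.  `Gen.srcQ`: the induction hypothesis for the rest.
-/

open Classical

namespace GT33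

/-- the state of the corner quad -/
def pZ : PState 4 where
  m k := 3 - k
  u k := if k = 0 then 1 else if k = 2 then 2 else 0

theorem pZ_ee : EE 4 pZ := by
  have h : ∃ c k, pZ.m = (qst c k).m ∧ pZ.u = (qst c k).u := by decide
  obtain ⟨c, k, h1, h2⟩ := h
  refine ⟨c, k, ?_⟩
  cases hq : qst c k
  rw [hq] at h1 h2
  unfold pZ at h1 h2 ⊢
  congr

namespace DMap

variable {D : Type} {M : DMap D} {A : D → Prop} {δ : ZMod 6 → D} {F : D → Prop}

open Patch

namespace Gen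

/-- the folded map in a state with the quad of the folded corner hexagon `c` in the state `(2, 0, 1, 0)`, and the
ring of the rest exact -/
structure ExZ [Fintype D] (hG : M.Gen A δ) (hF : Pre M A δ F) {o : D → Bool}
    (ho : ∀ d, o (M.nx d) = !o d) (ho' : ∀ d, o (M.al d) = !o d)
    (μ' : {d // ¬ FR M F d} → {d // ¬ FR M F d})
    (ω' : {d // ¬ FR M F d} → ℕ) (r' : ZMod 6 → ℕ) (c : ZMod 6) : Prop where
  thr : thrC M δ F c
  full : full M δ F (c + 1)
  not : ¬ F (δ (c + 2))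
  le : ∀ k, r' k ≤ 1
  rc : r' c = 1
  rd : r' (c + 1) = 1
  st : HasState μ' ω' (fun n => kD hG hF c (l6 n)) (pZ.rot 2)
  cor : ∀ k, (mapF hF ho ho' hG).nx (hdrF hF ho ho' hG k) = hdrF hF ho ho' hG (k + 1) →
    ω' (hdrF hF ho ho' hG k) + r' (k + 1) = r' k + 1
  x1 : ∀ k, k ≠ c + 1 →
    (mapF hF ho ho' hG).nx (hdrF hF ho ho' hG k) ≠ hdrF hF ho ho' hG (k + 1) →
    ω' (hdrF hF ho ho' hG k) = r' k
  x2 : ∀ k, (mapF hF ho ho' hG).nx (hdrF hF ho ho' hG k) ≠ hdrF hF ho ho' hG (k + 1) →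
    ω' ((mapF hF ho ho' hG).nx.symm (hdrF hF ho ho' hG (k + 1))) + r' (k + 1) = 1
  x3 : ∀ (k : ZMod 6) (y : {d // ¬ FR M F d}), (mapF hF ho ho' hG).SameNode (hdrF hF ho ho' hG k) y →
    A y.1 → y ≠ hdrF hF ho ho' hG k → y ≠ (mapF hF ho ho' hG).nx.symm (hdrF hF ho ho' hG (k + 1)) →
    y ≠ (mapF hF ho ho' hG).al (kD hG hF c 2) → ω' y = 0
  zv : ((mapF hF ho ho' hG).al (kD hG hF c 2)).1 = M.al (kc M δ c 2)
  zn : M.al (kc M δ c 2) ≠ M.nx.symm (M.nx.symm (δ (c + 2)))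
  zp : (mapF hF ho ho' hG).al (kD hG hF c 2) ≠
    (mapF hF ho ho' hG).nx.symm (hdrF hF ho ho' hG (c + 1 + 1))
  xc : ∀ j, ¬ ClsF M δ F j (kc M δ c 2)
  z : ω' ((mapF hF ho ho' hG).al (kD hG hF c 2)) = 1
  y : ω' ((mapF hF ho ho' hG).al (kD hG hF c 3)) = 1
  yz : ω' ((mapF hF ho ho' hG).nx.symm ((mapF hF ho ho' hG).al (kD hG hF c 2))) = 0
  yo : ∀ y : {d // ¬ FR M F d}, (mapF hF ho ho' hG).SameNode (kD hG hF c 2) y →
    y ≠ kD hG hF c 2 → y ≠ (mapF hF ho ho' hG).al (kD hG hF c 3) →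
    y ≠ (mapF hF ho ho' hG).nx.symm ((mapF hF ho ho' hG).al (kD hG hF c 2)) → ω' y = 0

end Gen

end DMap

end GT33
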