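import Pool.Agent.GT33.ExS

/-!
# GT33 module EXT: the source for a through corner hexagon in the state `(2, 0, 1, 0)`

`CorQ.glueS`: gluing a corner quad, with the state on both parts.  `Gen.rz_exZ`: a realised state of the folded map
with `ExZ` from a realised state of the rest.  `Gen.srcQ`: the induction hypothesis for the rest.
-/

open Classical

namespace GT33

namespace DMap

variable {D : Type} {M : DMap D} {A : D → Prop} {δ : ZMod 6 → D} {F : D → Prop}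

open Patch

/-- **gluing a corner quad**, with the state on the quad and on the rest -/
theorem CorQ.glueS [Fintype D] {i : ZMod 6} {q : ZMod 4 → D} (h : M.CorQ A δ i q) {L : LS D}
    {t : PState 6} {p : PState 4} {μ₀ : D → D} {ω₀ : D → ℕ}
    (hR : M.RealL L (fun d => A d ∧ ¬ QR q d) (kδ M δ i q) t μ₀ ω₀) (hL : L 4 q p)
    (hp : ∀ k, p.m (p.m k) = k) (hp' : ∀ k, p.m k ≠ k)
    (ht : ∀ k, t.m (t.m k) = k) (ht' : ∀ k, t.m k ≠ k)
    (hloop : ¬ (p.m 2 = 3 ∧ t.m i = i + 1)) (hu : t.u i + p.u 2 = 3) :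
    ∃ μ ω, M.RealL L A δ (gk i p t) μ ω ∧ (∀ k, μ (q k) = q (p.m k) ∧ ω (q k) = p.u k) ∧
      ∀ d, A d → ¬ QR q d → μ d = μ₀ d ∧ ω d = ω₀ d := by
  let L' : LS D := fun n γ s => L n γ s ∧
    (∀ k j, γ k = q j → γ (s.m k) = q (p.m j) ∧ s.u k = p.u j) ∧
    ∀ k, ¬ QR q (γ k) → γ (s.m k) = μ₀ (γ k) ∧ s.u k = ω₀ (γ k)
  have hR' : M.RealL L' (fun d => A d ∧ ¬ QR q d) (kδ M δ i q) t μ₀ ω₀ :=
    hR.mono h.sites fun n γ s hn hγ hγA hst hLs =>
      ⟨hLs, fun k j hk => absurd ⟨j, hk.symm⟩ (hγA k).2, fun k _ =>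
        ⟨(hst k).1.symm, (hst k).2.symm⟩⟩
  have hL' : L' 4 q p := by
    refine ⟨hL, fun k j hk => ?_, fun k hk => absurd ⟨k, rfl⟩ hk⟩
    have := h.num.inj hk
    subst this
    exact ⟨rfl, rfl⟩
  obtain ⟨μ, ω, hG⟩ := h.glue hR' hL' hp hp' ht ht' hloop hu
  refine ⟨μ, ω, ⟨fun d hd => ?_, hG.str, hG.all, hG.bdry, hG.inner⟩, fun k => ?_, fun d hd hq => ?_⟩
  · obtain ⟨n, γ, s, hn, hγ, hd', h1, hst⟩ := hG.loc d hd
    exact ⟨n, γ, s, hn, hγ, hd', h1.1, hst⟩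
  · obtain ⟨n, γ, s, hn, hγ, ⟨a, ha⟩, h1, hst⟩ := hG.loc _ (h.qA k)
    have h2 := h1.2.1 a k ha
    have h3 := hst a
    rw [ha] at h3
    exact ⟨h3.1.trans h2.1, h3.2.trans h2.2⟩
  · obtain ⟨n, γ, s, hn, hγ, ⟨a, ha⟩, h1, hst⟩ := hG.loc _ hd
    have h2 := h1.2.2 a (by rw [ha]; exact hq)
    have h3 := hst a
    rw [ha] at h3 h2
    exact ⟨h3.1.trans h2.1, h3.2.trans h2.2⟩

theorem gk_pZ {c : ZMod 6} {t : PState 6} (hu : t.u c = 1) : gk c pZ t = t := by
  have h2 : pZ.m 2 = 1 := rfl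
  have n1 : ¬ pZ.m 2 = 3 := by rw [h2]; decide
  have n2 : ¬ pZ.m 2 = 0 := by rw [h2]; decide
  obtain ⟨m, u⟩ := t
  unfold gk
  simp only [if_neg n1, if_neg n2]
  congr 1
  funext j
  have e0 : pZ.u 0 = 1 := rfl
  have e1 : pZ.u 1 = 0 := rfl
  have e3 : pZ.u 3 = 0 := rfl
  rw [e0, e1, e3]
  by_cases h : j = c
  · subst h
    have h3 : u j = 1 := hu
    simp [h3]
  · simp [h]

namespace Gen

section

variable [Fintype D] (hG : M.Gen A δ) (hF : Pre M A δ F) {c : ZMod 6} (h : Thr M δ F c)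
  {o : D → Bool} (ho : ∀ d, o (M.nx d) = !o d) (ho' : ∀ d, o (M.al d) = !o d)

include hG hF h

section

variable {q : ZMod 4 → {d // ¬ FR M F d}}
  (hQ : (mapF hF ho ho' hG).CorQ (fun x => A x.1) (hdrF hF ho ho' hG) c q)

include hQ

/-- the darts of the corner quad -/
theorem thr_kD (j : ZMod 4) : q (j + 2) = kD hG hF c (l6 j) := by
  have hc : cC M δ F c := ⟨h.cor, h.f1⟩
  apply Subtype.ext
  rw [kD_l6 hc]
  rcases z4 j with rfl | rfl | rfl | rfl
  · rw [show (0 : ZMod 4) + 2 = 2 by decide, hG.thr_q2 hF h ho ho' hQ]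
    rfl
  · rw [show (1 : ZMod 4) + 2 = 3 by decide, hG.thr_q3 hF h ho ho' hQ]
    rfl
  · rw [show (2 : ZMod 4) + 2 = 0 by decide, hG.thr_q0 hF h ho ho' hQ, ← hG.kc_4 hF h.cor]
    rfl
  · rw [show (3 : ZMod 4) + 2 = 1 by decide, hG.thr_q1 hF h ho ho' hQ, ← hG.kc_5 hF h.cor]
    rfl

/-- the local states of the rest are local states of the folded map -/
theorem thr_QS {Fl' : Flags} (hFl : Fl'.Ok) (hle : ∀ T, Fl'.lk (c - 1) T → Fl'.ri (c - 1) T)
    {γ : ZMod 4 → {d // ¬ FR M F d}} (hγA : ∀ a, A (γ a).1 ∧ ¬ QR q (γ a)) {x : PState 4}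
    (hz : ∀ a, γ a = (mapF hF ho ho' hG).al (q 2) → x.u a = 1)
    (hx : (mapF hF ho ho' hG).QS (kδ (mapF hF ho ho' hG) (hdrF hF ho ho' hG) c q) Fl' γ x) :
    (mapF hF ho ho' hG).QS (hdrF hF ho ho' hG) Fl' γ x := by
  have n0 : ∀ a, γ a ≠ hdrF hF ho ho' hG c := fun a h1 => (hγA a).2 ⟨0, by rw [h1, hQ.h0]⟩
  have n1 : ∀ a, γ a ≠ hdrF hF ho ho' hG (c + 1) := fun a h1 => (hγA a).2 ⟨1, by rw [h1, hQ.h1]⟩
  have := hG.thr_nx0 hF h ho ho'
  refine ⟨hx.ee, fun a j T hn hD => ?_, fun a j h1 h2 => ?_⟩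
  · have hj : j ≠ c := by
      rintro rfl
      exact n0 a (hQ.lone hn (hγA a).1)
    have hj' : j + 1 ≠ c + 1 := fun h1 => hj (add_right_cancel h1)
    have hn' := (hQ.node_ne hj).trans hn
    -- the last dart
    have hri : (γ a ≠ hdrF hF ho ho' hG j → ¬ γ (a + 1) ≠ hdrF hF ho ho' hG (j + 1) ∨
        Fl'.lk j T) → (γ a = hdrF hF ho ho' hG j → Fl'.le j T) →
        (γ (a + 1) = kδ (mapF hF ho ho' hG) (hdrF hF ho ho' hG) c q (j + 1) → Fl'.ri j T) := by
      intro g1 g2 g3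
      by_cases h2 : j + 1 = c
      · have ej : j = c - 1 := by rw [← h2, add_sub_cancel_right]
        rw [ej]
        apply hle
        rw [← ej]
        by_cases h3 : γ a = hdrF hF ho ho' hG j
        · exact hFl.le _ _ (g2 h3)
        · refine (g1 h3).resolve_left (not_not.2 ?_)
          rw [h2]
          exact n0 _
      · rw [kδ_ne h2 hj'] at g3
        exact hD.2.2 g3
    have hg1 : γ a ≠ hdrF hF ho ho' hG j → ¬ γ (a + 1) ≠ hdrF hF ho ho' hG (j + 1) ∨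
        Fl'.lk j T := by
      intro h2
      by_cases h3 : γ (a + 1) = hdrF hF ho ho' hG (j + 1)
      · exact Or.inl (not_not.2 h3)
      · exact Or.inr (hD.1 h2 h3)
    by_cases h1 : γ a = kδ (mapF hF ho ho' hG) (hdrF hF ho ho' hG) c q j
    · by_cases h2 : j = c + 1
      · rw [h2, kδ_i1] at h1
        have h3 := hz a h1
        have key : ∀ (c' k' a : ZMod 4) (T : Bool), (qst c' k').u a = 1 →
            (qst c' k').u (sideC T a) ≤ 1 := by decide
        obtain ⟨c', k', h4⟩ := hx.ee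
        rw [h4] at h3 ⊢
        exact key c' k' a T h3
      · refine hx.dem a j T hn' ⟨fun h3 => absurd h1 h3, fun _ => ?_, hri hg1 hD.2.1⟩
        rw [kδ_ne hj h2] at h1
        exact hD.2.1 h1
    · refine hx.dem a j T hn' ⟨fun _ h3 => ?_, fun h3 => absurd h3 h1, hri hg1 hD.2.1⟩
      refine hD.1 ?_ ?_
      · by_cases h2 : j = c + 1
        · rw [h2]
          exact n1 a
        · rw [kδ_ne hj h2] at h1
          exact h1
      · by_cases h2 : j + 1 = c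
        · rw [h2]
          exact n0 _
        · rw [kδ_ne h2 hj'] at h3
          exact h3
  · have h3 : j ≠ c := by
      rintro rfl
      exact n0 a h1
    have h4 : j ≠ c + 1 := by
      rintro rfl
      exact n1 a h1
    exact hx.st a j (by rw [kδ_ne h3 h4]; exact h1) h2

/-- **A realised state of the folded map with `ExZ`**. -/
theorem rz_exZ (hns : ¬ Star (mapF hF ho ho' hG) fun x => A x.1)
    (hL : (¬ F (δ (c - 2)) ∧ M.nx (δ (c - 2)) ≠ δ (c - 1)) ∨ KF M δ F (c - 2))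
    {Fl' : Flags} (hFl : Fl'.Ok) (hle : ∀ T, Fl'.lk (c - 1) T → Fl'.ri (c - 1) T)
    (hK : KDem Fl' c pZ) {β' : (ZMod 6 → {d // ¬ FR M F d}) → Rel}
    {t : PState 6} {r' : ZMod 6 → ℕ}
    (hR : Rz (mapF hF ho ho' hG) (fun x => A x.1 ∧ ¬ QR q x)
      (kδ (mapF hF ho ho' hG) (hdrF hF ho ho' hG) c q) β' Fl' t)
    (hr : ExS (fun j => j ≠ c ∧ KF M δ F j) t r') (hrc : r' c = 1) (hrd : r' (c + 1) = 1)
    (ht : ∀ k, t.m (t.m k) = k) (ht' : ∀ k, t.m k ≠ k) :
    ∃ μ' ω', (mapF hF ho ho' hG).RealL ((mapF hF ho ho' hG).OL (hdrF hF ho ho' hG) β' Fl')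
      (fun x => A x.1) (hdrF hF ho ho' hG) t μ' ω' ∧ ExZ hG hF ho ho' μ' ω' r' c := by
  have hP := hG.mapF_patch hF ho ho'
  have hq := hG.mapF_real hF ho ho'
  have hcC : cC M δ F c := ⟨h.cor, h.f1⟩
  have hkD := hG.thr_kD hF h ho ho' hQ
  have k2 : kD hG hF c 2 = q 2 := by
    have := hkD 0
    rw [show (0 : ZMod 4) + 2 = 2 by decide] at this
    exact this.symm
  have k3 : kD hG hF c 3 = q 3 := by
    have := hkD 1
    rw [show (1 : ZMod 4) + 2 = 3 by decide] at this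
    exact this.symm
  obtain ⟨μ₀, ω₀, hR₁⟩ := hR
  have htc : t.u c = 1 := by
    have := hr.su c
    omega
  have hcor0 : Cor (mapF hF ho ho' hG) (hdrF hF ho ho' hG) c := hG.thr_nx0 hF h ho ho'
  have hc1 : ¬ (c + 1 ≠ c ∧ KF M δ F (c + 1)) := fun h1 =>
    hG.mapF_adj hF ho ho' hcor0 ((hG.mapF_cor_iff hF ho ho' _).2 h1.2)
  have hEx := hG.thr_exact hF h ho ho' hQ hns hL hR₁ hr.su hr.le hr.zero fun j h1 h2 =>
    hr.cor j ⟨h1, h2⟩
  have hR₀ : (mapF hF ho ho' hG).RealL ((mapF hF ho ho' hG).OL (hdrF hF ho ho' hG) β' Fl')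
      (fun x => A x.1 ∧ ¬ QR q x) (kδ (mapF hF ho ho' hG) (hdrF hF ho ho' hG) c q) t μ₀ ω₀ := by
    refine hR₁.mono hQ.sites fun n γ x hn hγ hγA hst hx => ?_
    have h4 := hq _ (hγA 0).1
    rw [hγ.deg 0] at h4
    subst h4
    refine hG.thr_QS hF h ho ho' hQ hFl hle hγA (fun a ha => ?_) hx
    have h5 := (hEx.2 (c + 1) hc1).1
    rw [kδ_i1, hrd, ← ha, (hst a).2] at h5
    exact h5
  obtain ⟨μ, ω, hG', hq', hQ'⟩ := hQ.glueS hR₀ (hQ.qs hK) (fun k => by revert k; decide)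
    (fun k => by revert k; decide) ht ht' (by
      rintro ⟨h1, -⟩
      exact absurd h1 (by decide)) (by rw [htc]; rfl)
  rw [gk_pZ htc] at hG'
  have hin : ∀ j, A (kδ (mapF hF ho ho' hG) (hdrF hF ho ho' hG) c q j).1 ∧
      ¬ QR q (kδ (mapF hF ho ho' hG) (hdrF hF ho ho' hG) c q j) := fun j =>
    ((hQ.mem _).2 ⟨j, rfl⟩).1
  have hinp : ∀ j, A ((mapF hF ho ho' hG).nx.symm
        (kδ (mapF hF ho ho' hG) (hdrF hF ho ho' hG) c q j)).1 ∧
      ¬ QR q ((mapF hF ho ho' hG).nx.symm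
        (kδ (mapF hF ho ho' hG) (hdrF hF ho ho' hG) c q j)) := fun j =>
    (hQ.sites.same (site_nx_symm _)).1 (hin j)
  have hω : ∀ d : {d // ¬ FR M F d}, (A d.1 ∧ ¬ QR q d) → ω d = ω₀ d := fun d hd =>
    (hQ' d hd.1 hd.2).2
  -- the facts of the rest
  have e1 : ∀ k, ¬ (k ≠ c ∧ KF M δ F k) →
      ω (kδ (mapF hF ho ho' hG) (hdrF hF ho ho' hG) c q k) = r' k := fun k hk => by
    rw [hω _ (hin k)]
    exact (hEx.2 k hk).1
  have e2 : ∀ k, ¬ (k ≠ c ∧ KF M δ F k) →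
      ω ((mapF hF ho ho' hG).nx.symm (kδ (mapF hF ho ho' hG) (hdrF hF ho ho' hG) c q (k + 1))) +
        r' (k + 1) = 1 := fun k hk => by
    rw [hω _ (hinp (k + 1))]
    exact (hEx.2 k hk).2
  have hcK : ∀ k, (mapF hF ho ho' hG).nx (hdrF hF ho ho' hG k) ≠ hdrF hF ho ho' hG (k + 1) →
      ¬ (k ≠ c ∧ KF M δ F k) := fun k hk hk' => hk ((hG.mapF_cor_iff hF ho ho' k).2 hk'.2)
  have hck : ∀ k, (mapF hF ho ho' hG).nx (hdrF hF ho ho' hG k) ≠ hdrF hF ho ho' hG (k + 1) →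
      k ≠ c := by
    rintro k hk rfl
    exact hk hcor0
  have hc0 : ¬ (c ≠ c ∧ KF M δ F c) := fun h1 => h1.1 rfl
  have hcm : ¬ (c - 1 ≠ c ∧ KF M δ F (c - 1)) := fun h1 => by
    have h2 := hG.mapF_adj hF ho ho' ((hG.mapF_cor_iff hF ho ho' _).2 h1.2)
    rw [sub_add_cancel] at h2
    exact h2 hcor0
  refine ⟨μ, ω, hG', ⟨hcC, h.fl⟩, h.fr, h.n2, hr.le, hrc, hrd, ?_, ?_, ?_, ?_, ?_, ?_, ?_, ?_,
    hG.thr_in hF h ho ho' hQ, ?_, ?_, ?_, ?_⟩
  · -- the state of the quad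
    intro n
    have h1 := hq' (n + 2)
    rw [hkD] at h1
    refine ⟨?_, h1.2⟩
    show μ (kD hG hF c (l6 n)) = kD hG hF c (l6 (pZ.m (n + 2) - 2))
    rw [h1.1, ← hkD, sub_add_cancel]
  · -- corners
    intro k hk
    have h1 := hG'.bdry k
    rw [hP.cor_usum hk] at h1
    rw [h1]
    exact hr.su k
  · -- the first darts
    intro k hk hk'
    have h1 := e1 k (hcK k hk')
    rwa [kδ_ne (hck k hk') hk] at h1
  · -- the last darts
    intro k hk
    by_cases h1 : k + 1 = c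
    · rw [h1, hrc]
      have h2 : (mapF hF ho ho' hG).nx.symm (hdrF hF ho ho' hG c) = q 3 := by
        rw [Equiv.symm_apply_eq, ← hQ.h0]
        exact (hQ.num.nx 3).symm
      rw [h2, (hq' 3).2]
      rfl
    · have h2 := e2 k (hcK k hk)
      rwa [kδ_ne h1 fun h3 => hck k hk (add_right_cancel h3)] at h2
  · -- the other darts at the ring nodes
    intro k y hy hyA h1 h2 h3
    rw [k2] at h3
    by_cases h4 : QR q y
    · exfalso
      obtain ⟨j, rfl⟩ := h4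
      rcases z4 j with rfl | rfl | rfl | rfl
      · rw [hQ.h0] at hy h1
        exact h1 (by rw [nodes_inj hQ.bd hy])
      · rw [hQ.h1] at hy h1
        exact h1 (by rw [nodes_inj hQ.bd hy])
      · exact hQ.node_i k (hy.trans hQ.node_c.symm)
      · have h5 : k = c - 1 := nodes_inj hQ.bd (hy.trans hQ.node_d.symm)
        rw [h5, sub_add_cancel] at h2
        apply h2
        rw [Equiv.eq_symm_apply, ← hQ.h0]
        exact hQ.num.nx 3
    · have h5 : k ≠ c := by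
        rintro rfl
        exact h1 (hQ.lone hy hyA)
      rw [hω _ ⟨hyA, h4⟩]
      by_cases h6 : k + 1 = c
      · have h7 := hEx.2 k (by
          have : k = c - 1 := by rw [← h6, add_sub_cancel_right]
          rw [this]
          exact hcm)
        rw [h6, hrc] at h7
        by_cases h8 : y = (mapF hF ho ho' hG).nx.symm
            (kδ (mapF hF ho ho' hG) (hdrF hF ho ho' hG) c q c)
        · rw [h8]
          omega
        · refine hEx.1 k y ((hQ.node_ne h5).trans hy) ⟨hyA, h4⟩ ?_ (by rw [h6]; exact h8)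
          rw [kδ_ne h5 fun h9 => ?_]
          · exact h1
          · have key : ∀ c : ZMod 6, c + 1 + 1 ≠ c := by decide
            rw [h9] at h6
            exact key c h6
      · refine hEx.1 k y ((hQ.node_ne h5).trans hy) ⟨hyA, h4⟩ ?_ ?_
        · by_cases h9 : k = c + 1
          · rw [h9, kδ_i1]
            exact h3
          · rw [kδ_ne h5 h9]
            exact h1
        · rw [kδ_ne h6 fun h9 => h5 (add_right_cancel h9)]
          exact h2
  · rw [k2]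
    exact hG.thr_alq2 hF h ho ho' hQ
  · exact hG.thr_last' hF h ho ho' hQ hns
  · intro h1
    refine hG.thr_cor1 hF h ho ho' hQ hns ?_
    have key : ∀ c : ZMod 6, c + 1 + 1 ≠ c := by decide
    show (mapF hF ho ho' hG).nx (kδ (mapF hF ho ho' hG) (hdrF hF ho ho' hG) c q (c + 1)) =
      kδ (mapF hF ho ho' hG) (hdrF hF ho ho' hG) c q (c + 1 + 1)
    rw [kδ_i1, kδ_ne (key c) (z6_succ _), ← k2, h1, Equiv.apply_symm_apply]
  · have h1 := e1 (c + 1) hc1
    rw [kδ_i1, hrd] at h1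
    rw [k2]
    exact h1
  · have h1 := e1 c hc0
    rw [kδ_i, hrc] at h1
    rw [k3]
    exact h1
  · have h1 := e2 c hc0
    rw [kδ_i1, hrd] at h1
    rw [k2]
    omega
  · -- the other darts at the inner node
    intro y hy h1 h2 h3
    rw [k2] at hy h1 h3
    rw [k3] at h2
    have hA : ∀ e : {d // ¬ FR M F d}, (mapF hF ho ho' hG).SameNode (q 2) e → A e.1 := by
      intro e he
      by_contra hno
      obtain ⟨z, z1, z2, z3⟩ := exists_leaving hP.sites he (hQ.qA 2) hno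
      obtain ⟨j, rfl⟩ := (hP.bd.mem z).1 ⟨z2, z3⟩
      exact hQ.node_i j (z1.symm.trans hQ.node_c.symm)
    by_cases h4 : QR q y
    · exfalso
      obtain ⟨j, rfl⟩ := h4
      have h5 := hQ.inner_q hA hy
      rw [h5] at h1
      exact h1 rfl
    · rw [hω _ ⟨hA y hy, h4⟩]
      refine hEx.1 c y (hQ.node_c.trans hy) ⟨hA y hy, h4⟩ ?_ ?_
      · rw [kδ_i]
        exact h2
      · rw [kδ_i1]
        exact h3

end

end

end Gen

end DMap

end GT33
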