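import Pool.Agent.GT33.Tb

/-!
# GT33 module FINS: the final state from the table

`okF`: the state of an alternative is good enough at the end.  `GoodS.fin`: if the table has a row without conditions all
of whose alternatives are of this form, then good relations have a state of the form `Ok6`.
-/

namespace GT33

namespace Chk

/-- the state of the alternative is good enough at the end -/
def okF (a : Alt) : Bool :=
  decide (a.S.m 1 = 2) && decide (a.S.m 3 = 4) && decide (a.S.m 5 = 0) &&
    (decide (a.S.u 1 ≤ 1) || decide (a.S.u 3 ≤ 1) || decide (a.S.u 5 ≤ 1)) &&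
    all6 fun i => decide (a.S.u i ≤ 2)

theorem okF_ok {a : Alt} (h : okF a = true) : Ok6 a.S := by
  unfold okF at h
  simp only [Bool.and_eq_true, Bool.or_eq_true, decide_eq_true_eq, all6_iff] at h
  obtain ⟨⟨⟨⟨h1, h2⟩, h3⟩, h4⟩, h5⟩ := h
  exact ⟨h1, h2, h3, or_assoc.1 h4, h5⟩

/-- **the final state from the table** -/
theorem GoodS.fin {T : List SRow} {row : SRow} (hr : row ∈ T) (hk : row.k = 222222)
    (hc : ∀ a ∈ row.c, okF a = true) (K : ZMod 6 → Prop) (σ : Prop) (b : Rel)
    (h : GoodS T K σ b) : ∃ F s, b F s ∧ Ok6 s := by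
  have key : ∀ j : ZMod 6, dg 222222 j = 2 := by decide
  obtain ⟨a, ha, hb⟩ := h.rows row hr 0 fun j => by
    rw [hk, key]
    exact ⟨fun h1 => absurd h1 (by decide), fun h1 => absurd h1 (by decide)⟩
  rw [Flags.rot_zero, PState.rot_zero] at hb
  exact ⟨a.F, a.S, hb, okF_ok (hc a ha)⟩

end Chk

end GT33
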