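import Pool.Agent.GT33.ClGc
import Pool.Agent.GT33.RwE
import Pool.Agent.GT33.ChkB

/-!
# GT33 module GLUE: the 61 pairs of a clause and a set of corner hexagons

`PairOK i k`: the word of the clause `i` with the set of corner hexagons `k`.  `clG_gen0_of_pairs`: the list of the 61
pairs.  `wordOK_pack`, `wordOK_src`: words from packs, words from a fact about the source.
`PairOK.of_ent`: a pair from a fact about the source and an entry, everything else is a finite check.
-/

open Classical

namespace GT33

open Chk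

namespace DMap

/-- **the statement for a word** from the statement for all packs -/
theorem wordOK_pack {Good : (ZMod 6 → Prop) → Prop → Rel → Prop} {G : Rel → Prop}
    {f : ZMod 6 → Fin 3} (hf : ∀ k, f k ≠ 1) {Γ : ZMod 6 → Prop} {C : ZMod 6 → Bool}
    (hC : ∀ j, Γ j ↔ C j = true)
    (h : ∀ (D : Type) [Fintype D] (M : DMap D) (A : D → Prop) (δ : ZMod 6 → D) (B : Boxes D) (n : ℕ)
      (o : D → Bool), Pack Good f C M A δ B n o → G (Rz M A δ B.β)) : WordOK Good G f Γ := by
  intro D _ M A δ B n hM hΓ
  obtain ⟨o, h1⟩ := hM.pack hf fun j => (hΓ j).trans (hC j)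
  exact h D M A δ B n o h1

namespace Pack

variable {D : Type} [Fintype D] {Good : (ZMod 6 → Prop) → Prop → Rel → Prop}
  {f : ZMod 6 → Fin 3} {C : ZMod 6 → Bool} {M : DMap D} {A : D → Prop} {δ : ZMod 6 → D}
  {B : Boxes D} {n : ℕ} {o : D → Bool}

/-- fewer demands -/
theorem anti (h : Pack Good f C M A δ B n o) (F G : Flags) (t : PState 6) (hFG : F.Le G)
    (ht : h.rz G t) : h.rz F t :=
  Rz.le (h.obj.mapF h.ho h.ho' h.gen h.pre).anti
    (h.gen.mapF_patch h.pre h.ho h.ho').sites (fun _ h => h) hFG ht

end Pack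

/-- the corner set of the folded map has the properties `fc` -/
def fcB (N : ZMod 6 → Bool) (fc : Fc) : Bool := fc.all fun p => (N (p.1 - 1) && !N p.1) == p.2

theorem fcB_ok {N : ZMod 6 → Bool} {fc : Fc} (h : fcB N fc = true) : FcOk (KN N) fc := by
  intro p hp
  unfold fcB at h
  rw [List.all_eq_true] at h
  have h1 := h p hp
  rw [beq_iff_eq] at h1
  unfold KN
  rw [← h1, Bool.and_eq_true, Bool.not_eq_true']

/-- **the statement for a word** from a fact about the source and an entry for its state -/
theorem wordOK_src {T : List SRow} {G : Rel → Prop} {f : ZMod 6 → Fin 3} (hf : ∀ k, f k ≠ 1)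
    {Γ : ZMod 6 → Prop} {C : ZMod 6 → Bool} (hC : ∀ j, Γ j ↔ C j = true)
    (hne : ∃ k, nOf f C k = true) {fc : Fc} {a : Alt} (hfact : Fact T fc a)
    (hfc : fcB (nOf f C) fc = true) (hE : EntryOK (GoodS T) G (nOf f C) C a.F a.S) :
    WordOK (GoodS T) G f Γ :=
  wordOK_pack hf hC fun _ _ _ _ _ _ _ _ h =>
    h.entry (hfact _ _ _ h.anti (h.src hne) (fcB_ok hfc)) hE

end DMap

/-- the statement for the word of the clause `i` and the set of corner hexagons with the code `k` -/
def PairOK (i k : ℕ) : Prop := ∀ g, gen0[i]? = some g → ∀ n, gen0W[i]? = some n →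
  DMap.WordOK (GoodS tbl) (DMap.ClS g) (wd n) fun j => on k j = true

/-- the pairs of a clause and a code -/
def pairs : List (ℕ × ℕ) := (List.range 9).flatMap fun i =>
  match gen0W[i]? with
  | some n => (codesW n).map fun k => (i, k)
  | none => []

theorem pairs_length : pairs.length = 61 := by decide

theorem mem_pairs {i : ℕ} (hi : i < 9) {n k : ℕ} (hn : gen0W[i]? = some n) (hk : k ∈ codesW n) :
    (i, k) ∈ pairs := by
  unfold pairs
  rw [List.mem_flatMap]
  refine ⟨i, List.mem_range.2 hi, ?_⟩
  rw [hn]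
  exact List.mem_map.2 ⟨k, hk, rfl⟩

/-- **it suffices to treat the 61 pairs** -/
theorem clG_gen0_of_pairs (h : ∀ p ∈ pairs, PairOK p.1 p.2) : ∀ g ∈ gen0, DMap.ClG tbl g :=
  clG_gen0_of fun _ hi g hg n hn _ hk => h _ (mem_pairs hi hn hk) g hg n hn

theorem wd_ne_one (n : ℕ) (k : ZMod 6) : wd n k ≠ 1 := by
  rcases wd_val n k with h | h <;> rw [h] <;> decide

/-- the folded ring nodes which are no corners, as Boolean functions given by numbers -/
theorem nOf_wd (n k : ℕ) : DMap.nOf (wd n) (on k) = fun j => on n j && !on k j := by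
  funext j
  unfold DMap.nOf wd
  cases on n j <;> cases on k j <;> rfl

/-- the numbers `N`, `C` belong to the clause `g`, and the facts `fc` hold for the corner set of the folded map -/
def entPair (g N C : ℕ) (fc : Fc) : Bool :=
  match gen0W[g]? with
  | some n => all6 (fun j => on N j == (on n j && !on C j)) && DMap.fcB (on N) fc && !all6 fun j => !on N j
  | none => false

theorem entPair_spec {g N C : ℕ} {fc : Fc} (h : entPair g N C fc = true) {n : ℕ}
    (hn : gen0W[g]? = some n) : DMap.nOf (wd n) (on C) = on N ∧ DMap.fcB (on N) fc = true ∧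
      ∃ k, on N k = true := by
  unfold entPair at h
  rw [hn] at h
  simp only [Bool.and_eq_true, Bool.not_eq_true', all6_iff, beq_iff_eq] at h
  refine ⟨?_, h.1.2, ?_⟩
  · rw [nOf_wd]
    funext j
    exact (h.1.1 j).symm
  · by_contra h1
    push Not at h1
    have h2 : (all6 fun j => !on N j) = true := all6_iff.2 fun j => by
      rw [Bool.not_eq_true', ← Bool.not_eq_true]
      exact h1 j
    rw [h.2] at h2
    exact absurd h2 (by decide)

/-- **a pair from a fact about the source and an entry** -/
theorem PairOK.of_ent {g N C : ℕ} {fc : Fc} {a : Alt} (hfact : Fact tbl fc a)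
    (h : entPair g N C fc = true)
    (hE : ∀ c, gen0[g]? = some c → DMap.EntryOK (GoodS tbl) (DMap.ClS c) (on N) (on C) a.F a.S) :
    PairOK g C := by
  intro c hc n hn
  obtain ⟨h1, h2, h3⟩ := entPair_spec h hn
  exact DMap.wordOK_src (wd_ne_one n) (C := on C) (fun _ => Iff.rfl) (by rw [h1]; exact h3) hfact
    (by rw [h1]; exact h2) (by rw [h1]; exact hE c hc)

end GT33
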