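import Pool.Agent.GT33.Glue
import Pool.Agent.GT33.ChkF
import Pool.Agent.GT33.EntS
import Pool.Agent.GT33.EntB

/-!
# GT33 module GLUEE: pairs from lists of entries

`entG g e`: the finite check of an entry of the clause `g`, its source included.  `pairOK_ents`: the pairs of a list of
entries.
-/

open Classical

namespace GT33

open Chk

/-- the clause `g` -/
def gOf (g : ℕ) : List Alt := (gen0[g]?).getD []

theorem gOf_eq {g : ℕ} {c : List Alt} (h : gen0[g]? = some c) : gOf g = c := by
  unfold gOf
  rw [h]
  rfl

/-- the corner set of the folded map, as a list of facts -/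
def fcOf (N : ℕ) : Fc := zs.map fun k => (k, on N (k - 1) && !on N k)

/-- an entry belongs to its clause, and its source is one of the facts `SL` -/
def linkB (SL : List (Fc × Alt)) (e : Ent) : Bool :=
  entPair e.g e.N e.C (fcOf e.N) && lookB SL (fcOf e.N) e.s

/-- **a pair from a checked entry** -/
theorem pairOK_ent {SL BL : List (Fc × Alt)} (hSL : ∀ p ∈ SL, Fact tbl p.1 p.2)
    (hBL : ∀ p ∈ BL, Fact tbl p.1 p.2) {e : Ent} (h0 : linkB SL e = true)
    (h1 : entOK BL (gOf e.g) e = true) (h2 : srcB (fun _ => false) e = true) : PairOK e.g e.C := by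
  unfold linkB at h0
  rw [Bool.and_eq_true] at h0
  refine PairOK.of_ent (lookB_fact hSL h0.2) h0.1 fun c hc => ?_
  rw [← gOf_eq hc]
  exact entryOK_of hBL h2 h1

/-- **the pairs of a list of entries** -/
theorem pairOK_ents {g : ℕ} {L : List Ent}
    (h1 : (L.all fun e => entOK (factsL bxs) (gOf g) e && srcB (fun _ => false) e) = true)
    (h2 : (L.all fun e => Nat.beq e.g g && linkB (factsL srcs) e) = true) :
    ∀ e ∈ L, PairOK g e.C := by
  intro e he
  rw [List.all_eq_true] at h1 h2
  have h3 := h1 e he
  have h4 := h2 e he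
  rw [Bool.and_eq_true] at h3 h4
  have hg : e.g = g := Nat.eq_of_beq_eq_true h4.1
  have h5 := pairOK_ent src_fact bx_fact h4.2 (by rw [hg]; exact h3.1) h3.2
  rwa [hg] at h5

end GT33
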