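import Pool.Agent.GT33.GlueE

/-!
# GT33 module GLUES: entries for stars

`starB e`: the demands of the entry `e` fit the state of a star with two units at the corners `0, 2, 4`.
`star_ent`: the clause for the patches whose folded map is a star.
-/

open Classical

namespace GT33

open Chk

/-- the demands and the state of the entry `e` fit a star -/
def starB (e : Ent) : Bool :=
  all6 (fun j => !led e.s.r j && !rid e.s.l j) && eqS e.s.S (st2.rot 1) && (on e.N 5 && !on e.N 0)

theorem starB_fl {e : Ent} (h : starB e = true) : StarFl e.s.F := by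
  unfold starB at h
  simp only [Bool.and_eq_true, all6_iff, Bool.not_eq_true'] at h
  refine ⟨fun j h1 => ?_, fun j h1 => ?_⟩
  · have h2 : led e.s.r j = true := h1
    rw [(h.1.1 j).1] at h2
    exact absurd h2 (by decide)
  · have h2 : rid e.s.l j = true := h1
    rw [(h.1.1 j).2] at h2
    exact absurd h2 (by decide)

/-- **the clause for stars** -/
theorem star_ent {BL : List (Fc × Alt)} (hBL : ∀ p ∈ BL, Fact tbl p.1 p.2) {e : Ent} {n : ℕ}
    (hn : gen0W[e.g]? = some n) (h0 : entPair e.g e.N e.C [] = true) (hs : starB e = true)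
    (h1 : entOK BL (gOf e.g) e = true) (h2 : srcB (fun _ => false) e = true)
    {D : Type} [Fintype D] {M : DMap D} {A : D → Prop} {δ : ZMod 6 → D} {B : Boxes D} {m : ℕ}
    {o : D → Bool} (h : DMap.Pack (GoodS tbl) (wd n) (on e.C) M A δ B m o) (hS : h.star) :
    DMap.ClS (gOf e.g) (DMap.Rz M A δ B.β) := by
  obtain ⟨hN, -, -⟩ := entPair_spec h0 hn
  have hE := entryOK_of hBL h2 h1
  rw [← hN] at hE
  have hs' := hs
  unfold starB at hs'
  simp only [Bool.and_eq_true, Bool.not_eq_true'] at hs'
  rw [eqS_iff.1 hs'.1.2] at hE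
  refine h.entry_star hS ?_ (starB_fl hs) hE
  rw [hN]
  exact ⟨hs'.2.1, hs'.2.2⟩

end GT33
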