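import Pool.Agent.GT33.Upd

/-!
# GT33 module HIDIND: removing all corner quads inside of corner hexagons

`KK a K' K`: the corner set `K` contains `a`, and `K'` is the corner set after removing the corner quad at `a`.
`hidden_ind`: a property of the boxes of a fixed patch holds if it holds without corners, if it holds for stars with
a corner at the ring, and if it is preserved by adding a corner quad.
-/

open Classical

namespace GT33

/-- the corner sets before and after removing a corner quad at `a` -/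
def KK (a : ZMod 6) (K' K : ZMod 6 → Prop) : Prop :=
  K a ∧ ¬ K (a + 1) ∧ ¬ K (a - 1) ∧ ∀ j, j ≠ a → j ≠ a + 1 → j ≠ a - 1 → (K' j ↔ K j)

namespace DMap

variable {D : Type} {M : DMap D} {A : D → Prop} {δ : ZMod 6 → D}

/-- the corner set of a patch whose box at the corner `i` is changed -/
theorem KK_upd [Finite D] {B : Boxes D} {γ : ZMod 6 → D} {b : Rel} {k : ZMod 6 → Prop} {s : Prop}
    {i : ZMod 6} (hinj : Function.Injective δ) (hγ : M.SiteNum 6 γ)
    (hkr : ∀ γ a c, M.SiteNum 6 γ → A (γ 0) → (B.κ (fun i => γ (i + c)) a ↔ B.κ γ (a + c)))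
    (hA : A (γ 0)) (h0 : γ 0 = δ i) (hi : M.nx (δ i) = δ (i + 1)) (hK : KK 0 k (B.κ γ)) :
    KK i (KS M (B.upd M γ b k s).κ δ) (KS M B.κ δ) := by
  obtain ⟨k0, k1, k2, k3⟩ := hK
  have h1 : γ 1 = δ (i + 1) := by
    rw [← hi, ← h0, hγ.nx, zero_add]
  -- the corners at the site of `γ`
  have key : ∀ c j, γ c = δ j → (KS M B.κ δ j ↔ M.nx (δ j) = δ (j + 1) ∧ B.κ γ c) := by
    intro c j hc
    unfold KS
    refine and_congr_right fun _ => ?_
    constructor
    · rintro (h2 | ⟨η, e, h2, h3, h4⟩)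
      · rw [← hc, hγ.deg c] at h2
        omega
      · have h5 : M.SameSite (γ 0) (η 0) := by
          refine (hγ.same (by decide) 0 c).trans ?_
          rw [hc, ← h3]
          exact h2.same (by decide) e 0
        obtain ⟨d, hd⟩ := hγ.eq_rot h2 (by decide) h5
        have hd' : η = fun i => γ (i + d) := funext hd
        subst hd'
        have h7 : e + d = c := hγ.inj (by rw [hc]; exact h3)
        rw [hkr γ e d hγ hA, h7] at h4
        exact h4
    · intro h2
      exact Or.inr ⟨γ, c, hγ, hc, h2⟩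
  have hm : γ (-1) = M.nx.symm (γ 0) := by
    rw [Equiv.eq_symm_apply, hγ.nx]
    rfl
  refine ⟨(key 0 i h0).2 ⟨hi, k0⟩, fun h => ?_, fun h => ?_, fun j j1 j2 j3 => ?_⟩
  · exact k1 (by simpa using ((key 1 (i + 1) h1).1 h).2)
  · have h2 : M.nx (δ (i - 1)) = δ i := by
      have := h.1
      rwa [sub_add_cancel] at this
    have h3 : γ (-1) = δ (i - 1) := by
      rw [hm, Equiv.symm_apply_eq, h2, h0]
    exact k2 (by simpa using ((key (-1) (i - 1) h3).1 h).2)
  · rw [KS_upd hγ h0]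
    by_cases hs : M.SameSite (δ i) (δ j)
    · rw [if_pos hs]
      obtain ⟨c, hc⟩ := hγ.mem (i := 0) (d := δ j) (by rw [h0]; exact hs)
      rw [key c j hc]
      have c0 : c ≠ 0 := by
        rintro rfl
        exact j1 (hinj (by rw [← hc, h0]))
      have c1 : c ≠ 0 + 1 := by
        rintro rfl
        rw [zero_add] at hc
        exact j2 (hinj (by rw [← hc, h1]))
      constructor
      · rintro ⟨c', h2, h3, h4⟩
        have h5 : c' = c := hγ.inj (h2.trans hc.symm)
        subst h5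
        refine ⟨h3, (k3 c' c0 c1 ?_).1 h4⟩
        rintro rfl
        apply j3
        have h6 : M.nx (δ j) = γ 0 := by
          rw [← hc, hγ.nx]
          simp
        rw [h3, h0] at h6
        rw [← hinj h6, add_sub_cancel_right]
      · rintro ⟨h3, h4⟩
        refine ⟨c, hc, h3, (k3 c c0 c1 ?_).2 h4⟩
        rintro rfl
        apply j3
        have h6 : M.nx (δ j) = γ 0 := by
          rw [← hc, hγ.nx]
          simp
        rw [h3, h0] at h6
        rw [← hinj h6, add_sub_cancel_right]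
    · rw [if_neg hs]

section

variable [Fintype D] {Good : (ZMod 6 → Prop) → Prop → Rel → Prop}
  {C : ℕ → (ZMod 6 → Prop) → Prop → Rel → Prop}

/-- **removing corner quads inside of corner hexagons**, at each corner -/
theorem hidden_rec
    (hC : ∀ K σ b, Good K σ b ↔ ∃ n, C n K σ b)
    (hrot : ∀ n K σ b c, C n K σ b → C n (fun j => K (j + c)) σ (b.rotR c))
    (hanti : ∀ n K σ b, C n K σ b → ∀ F G t, F.Le G → b G t → b F t)
    (hnice : ∀ n K σ b, C n K σ b → ∀ F t, b F t → Nice t)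
    (hsplit : ∀ n K σ b a, C n K σ b → ¬ σ → K a → ∃ n' < n, ∃ K' σ' b', C n' K' σ' b' ∧
      KK a K' K ∧ KRel a b' b)
    (hq : ∀ i, M.nx (δ i) = δ (i + 1) → M.deg (δ i) = 6)
    (hone : ∀ i j, M.nx (δ i) = δ (i + 1) → M.nx (δ j) = δ (j + 1) →
      M.SameSite (δ i) (δ j) → j = i)
    {P : Boxes D → Prop}
    (step : ∀ B, M.Obj Good A δ B → (∀ i, KS M B.κ δ i →
      (∃ γ, M.SiteNum 6 γ ∧ γ 0 = δ i ∧ M.nx (δ i) = δ (i + 1) ∧ B.κ γ 0 ∧ B.σ γ) ∨
        ∃ B', M.Obj Good A δ B' ∧ KK i (KS M B'.κ δ) (KS M B.κ δ) ∧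
          KRel i (Rz M A δ B'.β) (Rz M A δ B.β) ∧ P B') → P B)
    (B : Boxes D) (hO : M.Obj Good A δ B) : P B := by
  suffices H : ∀ N : ℕ, ∀ B : Boxes D, M.Obj Good A δ B → (∃ n : ZMod 6 → ℕ,
      (∀ i γ, M.SiteNum 6 γ → γ 0 = δ i → M.nx (δ i) = δ (i + 1) →
        C (n i) (B.κ γ) (B.σ γ) (B.β γ)) ∧ ∑ i, n i = N) → P B by
    have h1 : ∀ i, ∃ n, ∀ γ, M.SiteNum 6 γ → γ 0 = δ i → M.nx (δ i) = δ (i + 1) →
        C n (B.κ γ) (B.σ γ) (B.β γ) := by
      intro i
      by_cases h : ∃ γ, M.SiteNum 6 γ ∧ γ 0 = δ i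
      · obtain ⟨γ, hγ, h0⟩ := h
        have hA : A (γ 0) := by rw [h0]; exact hO.patch.inA i
        obtain ⟨n, hn⟩ := (hC _ _ _).1 (hO.good γ hγ hA)
        refine ⟨n, fun η hη h0' _ => ?_⟩
        obtain ⟨c, hc⟩ := hγ.eq_rot hη (by decide) (by rw [h0, h0'])
        have h2 : c = 0 := by
          have h3 : γ c = γ 0 := by rw [h0, ← h0', hc, zero_add]
          exact hγ.inj h3
        have h3 : η = γ := funext fun i => by rw [hc, h2, add_zero]
        rw [h3]
        exact hn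
      · exact ⟨0, fun γ hγ h0 => absurd ⟨γ, hγ, h0⟩ h⟩
    choose n hn using h1
    exact H _ B hO ⟨n, hn, rfl⟩
  intro N
  induction N using Nat.strong_induction_on with
  | _ N ih =>
  rintro B hO ⟨n, hn, hN⟩
  refine step B hO fun i hKi => ?_
  obtain ⟨hi, h2⟩ := hKi
  have h6 := hq i hi
  have hγ' : ∃ γ, M.SiteNum 6 γ ∧ γ 0 = δ i ∧ B.κ γ 0 := by
    rcases h2 with h2 | ⟨η, e, hη, he, hk⟩
    · omega
    · have hA : A (η 0) := (hO.patch.sites.same (hη.same (by decide) e 0)).1 (by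
        rw [he]
        exact hO.patch.inA i)
      refine ⟨fun j => η (j + e), ⟨fun x y hxy => by
        simpa using hη.inj hxy, fun j => ?_⟩, by simpa using he, ?_⟩
      · rw [hη.nx]
        congr 1
        ring
      · rw [hO.krot η 0 e hη hA, zero_add]
        exact hk
  obtain ⟨γ, hγ, h0, hk0⟩ := hγ'
  by_cases hσ : B.σ γ
  · exact Or.inl ⟨γ, hγ, h0, hi, hk0, hσ⟩
  have hA : A (γ 0) := by rw [h0]; exact hO.patch.inA i
  obtain ⟨n', hn', K', σ', b', hC', hKK, hKR⟩ := hsplit _ _ _ _ 0 (hn i γ hγ h0 hi) hσ hk0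
  have hO' : M.Obj Good A δ (B.upd M γ b' K' σ') := by
    refine hO.upd hγ (fun F G t => hanti _ _ _ _ hC' F G t) (hnice _ _ _ _ hC') fun c => ?_
    exact (hC _ _ _).2 ⟨n', hrot _ _ _ _ c hC'⟩
  have h1 : γ 1 = δ (i + 1) := by
    rw [← hi, ← h0, hγ.nx, zero_add]
  refine Or.inr ⟨_, hO', KK_upd hO.patch.bd.inj hγ hO.krot hA h0 hi hKK,
    hO.krel_upd hγ (a := 0) h0 (by rw [zero_add]; exact h1) (hnice _ _ _ _ hC') hKR, ?_⟩
  refine ih (∑ j, Function.update n i n' j) ?_ _ hO' ⟨Function.update n i n', fun j η hη hj0 hj => ?_,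
    rfl⟩
  · rw [← hN]
    refine Finset.sum_lt_sum (fun j _ => ?_) ⟨i, Finset.mem_univ i, ?_⟩
    · by_cases hj : j = i
      · rw [hj, Function.update_self]
        omega
      · rw [Function.update_of_ne hj]
    · rw [Function.update_self]
      exact hn'
  · by_cases hj' : j = i
    · subst hj'
      rw [Function.update_self]
      obtain ⟨c, hc⟩ := hγ.eq_rot hη (by decide) (by rw [h0, hj0])
      have h3 : c = 0 := by
        have h4 : γ c = γ 0 := by rw [h0, ← hj0, hc, zero_add]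
        exact hγ.inj h4
      have h4 : η = γ := funext fun i => by rw [hc, h3, add_zero]
      have h5 := upd_κ (B := B) (b := b') (k := K') (s := σ') hγ (c := 0)
      have h6 := upd_σ (B := B) (b := b') (k := K') (s := σ') hγ (c := 0)
      simp only [add_zero] at h5 h6
      rw [h4, upd_β0 hγ, h5, h6]
      exact hC'
    · rw [Function.update_of_ne hj']
      have hs : ¬ M.SameSite (γ 0) (η 0) := by
        rw [h0, hj0]
        exact fun h => hj' (hone i j hi hj h)
      obtain ⟨h3, h4, h5⟩ := upd_off (B := B) (b := b') (k := K') (s := σ') hγ hs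
      rw [h3, h4, h5]
      exact hn j η hη hj0 hj

/-- **removing corner quads inside of corner hexagons**, at one corner -/
theorem hidden_ind
    (hC : ∀ K σ b, Good K σ b ↔ ∃ n, C n K σ b)
    (hrot : ∀ n K σ b c, C n K σ b → C n (fun j => K (j + c)) σ (b.rotR c))
    (hanti : ∀ n K σ b, C n K σ b → ∀ F G t, F.Le G → b G t → b F t)
    (hnice : ∀ n K σ b, C n K σ b → ∀ F t, b F t → Nice t)
    (hsplit : ∀ n K σ b a, C n K σ b → ¬ σ → K a → ∃ n' < n, ∃ K' σ' b', C n' K' σ' b' ∧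
      KK a K' K ∧ KRel a b' b)
    (hq : ∀ i, M.nx (δ i) = δ (i + 1) → M.deg (δ i) = 6)
    (hone : ∀ i j, M.nx (δ i) = δ (i + 1) → M.nx (δ j) = δ (j + 1) →
      M.SameSite (δ i) (δ j) → j = i)
    {P : Boxes D → Prop}
    (base : ∀ B, M.Obj Good A δ B → (∀ i, ¬ KS M B.κ δ i) → P B)
    (star : ∀ B i γ, M.Obj Good A δ B → M.SiteNum 6 γ → γ 0 = δ i → M.nx (δ i) = δ (i + 1) →
      B.κ γ 0 → B.σ γ → P B)
    (step : ∀ B B' i, M.Obj Good A δ B → M.Obj Good A δ B' → KK i (KS M B'.κ δ) (KS M B.κ δ) →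
      KRel i (Rz M A δ B'.β) (Rz M A δ B.β) → P B' → P B)
    (B : Boxes D) (hO : M.Obj Good A δ B) : P B := by
  refine hidden_rec hC hrot hanti hnice hsplit hq hone (P := P) (fun B hO h => ?_) B hO
  by_cases hK : ∀ i, ¬ KS M B.κ δ i
  · exact base B hO hK
  push Not at hK
  obtain ⟨i, hi⟩ := hK
  rcases h i hi with ⟨γ, h1, h2, h3, h4, h5⟩ | ⟨B', h1, h2, h3, h4⟩
  · exact star B i γ hO h1 h2 h3 h4 h5
  · exact step B B' i hO h1 h2 h3 h4

end

end DMap

end GT33
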