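import Pool.Agent.GT33.KObj

/-!
# GT33 module HIDK: corner quads inside of a corner hexagon

`KRel a b' b`: the relation `b` contains the states which arise from the states of `b'` by adding a corner quad at
the corner `a`.  `CorQ.krel`: this holds for an object with a corner quad and its rest.  `krel_hidden`: if it holds
for the box at a corner hexagon, then it holds for the object.
-/

open Classical

namespace GT33

/-- `b` contains the states of `b'` with a corner quad at `a` -/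
def KRel (a : ZMod 6) (b' b : Rel) : Prop :=
  ∀ (F G : Flags) (t : PState 6) (p : PState 4), F.Ok → (DMap.kflags F a).Le G → b' G t →
    DMap.KDem F a p → (∀ k, t.m (t.m k) = k) → (∀ k, t.m k ≠ k) →
    ¬ (p.m 2 = 3 ∧ t.m a = a + 1) → t.u a + p.u 2 = 3 → b F (gk a p t)

/-- the matchings of a quad -/
theorem EE4_m {p : PState 4} (h : EE 4 p) :
    (p.m 2 = 1 ∧ p.m 3 = 0) ∨ (p.m 2 = 3 ∧ p.m 0 = 1) := by
  obtain ⟨c, k, rfl⟩ := h
  revert c k
  decide

namespace DMap

variable {D : Type} {M : DMap D}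

theorem CorQ.krel [Fintype D] {Good : (ZMod 6 → Prop) → Prop → Rel → Prop} {A : D → Prop}
    {δ : ZMod 6 → D} {i : ZMod 6} {q : ZMod 4 → D} {B : Boxes D} (hO : M.Obj Good A δ B)
    (h : M.CorQ A δ i q) :
    KRel i (Rz M (fun d => A d ∧ ¬ QR q d) (kδ M δ i q) B.β) (Rz M A δ B.β) :=
  fun _ _ _ _ hF hG hR hp ht ht' hl hu => h.rz hO hF hG hR hp ht ht' hl hu

/-- the matching after adding the quad -/
theorem gk_m3 {a : ZMod 6} {p : PState 4} {t : PState 6} (h : p.m 2 = 3) (j : ZMod 6) :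
    (gk a p t).m j = if j = a then a + 1 else if j = a + 1 then a else
      if t.m j = a then t.m (a + 1) else if t.m j = a + 1 then t.m a else t.m j := if_pos h

theorem gk_m1 {a : ZMod 6} {p : PState 4} {t : PState 6} (h : p.m 2 = 1) (j : ZMod 6) :
    (gk a p t).m j = t.m j := by
  show (if p.m 2 = 3 then _ else if p.m 2 = 0 then _ else t.m j) = t.m j
  rw [if_neg (by rw [h]; decide), if_neg (by rw [h]; decide)]

section strands

variable {A : D → Prop} {γ : ZMod 6 → D} {a : ZMod 6} {t : PState 6} {μ' μ : D → D}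

/-- the strands after the quad joined the two ring edges -/
theorem str_leaf (hγ : Function.Injective γ) (htt : ∀ k, t.m (t.m k) = k)
    (hloop : t.m a ≠ a + 1)
    (hA : ∀ x, A x → A (M.al x) → ∀ y, y = γ a ∨ y = γ (a + 1) → x ≠ y ∧ M.al x ≠ y)
    (hμ' : ∀ k, μ' (γ k) = γ (t.m k)) (hμ : ∀ x, (∀ k, x ≠ γ k) → μ x = μ' x)
    (hμγ : ∀ k, μ (γ k) = γ (if k = a then a + 1 else if k = a + 1 then a else
      if t.m k = a then t.m (a + 1) else if t.m k = a + 1 then t.m a else t.m k))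
    (hμc : ∀ x, A x → (∀ k, x ≠ γ k) → ∀ k, μ' x ≠ γ k)
    {x y : D} (h : M.Str A μ' x y) :
    M.Str A μ (if x = γ a then γ (t.m a) else if x = γ (a + 1) then γ (t.m (a + 1)) else x)
      (if y = γ a then γ (t.m a) else if y = γ (a + 1) then γ (t.m (a + 1)) else y) := by
  have hz : (a : ZMod 6) ≠ a + 1 := by
    intro h
    have h1 : a + 0 = a + 1 := by rw [add_zero]; exact h
    exact absurd (add_left_cancel h1) (by decide)
  have hz' := hz.symm
  induction h with
  | rel x y h =>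
    obtain ⟨hxA, h⟩ := h
    rcases h with rfl | ⟨rfl, hyA⟩
    · by_cases hx : ∃ k, x = γ k
      · obtain ⟨k, rfl⟩ := hx
        rw [hμ']
        by_cases h1 : k = a
        · subst h1
          rw [if_pos rfl]
          by_cases h2 : t.m k = k
          · rw [h2, if_pos rfl]
            exact Relation.EqvGen.refl _
          · rw [if_neg fun h => h2 (hγ h), if_neg fun h => hloop (hγ h)]
            exact Relation.EqvGen.refl _
        by_cases h2 : k = a + 1
        · subst h2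
          rw [if_neg fun h => hz' (hγ h), if_pos rfl]
          have h3 : t.m (a + 1) ≠ a := fun h3 => hloop (by
            have h4 := htt (a + 1)
            rwa [h3] at h4)
          rw [if_neg fun h => h3 (hγ h)]
          by_cases h4 : t.m (a + 1) = a + 1
          · rw [h4, if_pos rfl]
            exact Relation.EqvGen.refl _
          · rw [if_neg fun h => h4 (hγ h)]
            exact Relation.EqvGen.refl _
        rw [if_neg fun h => h1 (hγ h), if_neg fun h => h2 (hγ h)]
        by_cases h3 : t.m k = a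
        · have h4 : t.m a = k := by rw [← h3, htt]
          rw [h3, if_pos rfl, h4]
          exact Relation.EqvGen.refl _
        by_cases h4 : t.m k = a + 1
        · have h5 : t.m (a + 1) = k := by rw [← h4, htt]
          rw [h4, if_neg fun h => hz' (hγ h), if_pos rfl, h5]
          exact Relation.EqvGen.refl _
        rw [if_neg fun h => h3 (hγ h), if_neg fun h => h4 (hγ h)]
        refine Relation.EqvGen.rel _ _ ⟨hxA, Or.inl ?_⟩
        rw [hμγ, if_neg h1, if_neg h2, if_neg h3, if_neg h4]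
      · push Not at hx
        rw [if_neg (hx _), if_neg (hx _), if_neg (hμc x hxA hx _), if_neg (hμc x hxA hx _)]
        exact Relation.EqvGen.rel _ _ ⟨hxA, Or.inl (hμ x hx).symm⟩
    · obtain ⟨h1, h2⟩ := hA x hxA hyA (γ a) (Or.inl rfl)
      obtain ⟨h3, h4⟩ := hA x hxA hyA (γ (a + 1)) (Or.inr rfl)
      rw [if_neg h1, if_neg h3, if_neg h2, if_neg h4]
      exact Relation.EqvGen.rel _ _ ⟨hxA, Or.inr ⟨rfl, hyA⟩⟩
  | refl x => exact Relation.EqvGen.refl _
  | symm x y _ ih => exact ih.symm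
  | trans x y z _ _ ih1 ih2 => exact ih1.trans _ _ _ ih2

end strands

section hidden

variable [Fintype D] {A : D → Prop} {δ : ZMod 6 → D} {β β' : (ZMod 6 → D) → Rel} {γ : ZMod 6 → D}
  {a i : ZMod 6}

/-- the state of a hexagon in a given numbering -/
theorem exists_state (hγ : M.SiteNum 6 γ) {G : Flags} {n : ℕ} {η : ZMod n → D} {t₀ : PState n}
    {μ : D → D} {ω : D → ℕ} {k₀ : ZMod n} {k : ZMod 6} (hn : n ≠ 0) (hη : M.SiteNum n η)
    (hk : η k₀ = γ k) (hL : M.OL δ β' G n η t₀) (hst : HasState μ ω η t₀)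
    (rot' : ∀ c F t, β' (fun i => γ (i + c)) F t → β' γ (F.rot (-c)) (t.rot (-c))) :
    ∃ t, β' γ (M.res δ G γ) t ∧ HasState μ ω γ t := by
  have hn6 : n = 6 := by
    have h1 := hη.deg k₀
    rw [hk, hγ.deg k] at h1
    exact h1.symm
  subst hn6
  obtain ⟨c, hc⟩ := hγ.eq_rot hη (by decide) ((hγ.same (by decide) 0 k).trans (by
    rw [← hk]
    exact hη.same (by decide) k₀ 0))
  have hc' : η = fun i => γ (i + c) := funext hc
  subst hc'
  have hL' : β' (fun i => γ (i + c)) (M.res δ G fun i => γ (i + c)) t₀ := hL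
  rw [res_rot] at hL'
  refine ⟨t₀.rot (-c), ?_, fun j => ?_⟩
  · have h2 := rot' c _ _ hL'
    have h3 : ((M.res δ G γ).rot c).rot (-c) = M.res δ G γ := by
      unfold Flags.rot
      simp only [neg_add_cancel_right]
    rwa [h3] at h2
  · obtain ⟨h1, h2⟩ := hst (j + -c)
    simp only [neg_add_cancel_right] at h1 h2
    refine ⟨?_, h2⟩
    rw [h1]
    show γ (t₀.m (j + -c) + c) = γ (t₀.m (j + -c) - -c)
    rw [sub_neg_eq_add]

omit [Fintype D] in
theorem z6_ne (a : ZMod 6) : a + 1 ≠ a ∧ a - 1 ≠ a ∧ a - 1 ≠ a + 1 := by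
  revert a
  decide

variable (hP : M.Patch A δ) (hγ : M.SiteNum 6 γ) (h0 : γ a = δ i)
  (h1 : γ (a + 1) = δ (i + 1))

include hP h0 h1

theorem hid_lone {e : D} (he : A e) (hn : M.SameNode (δ i) e)
    (hγ : M.SiteNum 6 γ) : e = γ a := by
  have hc : Patch.Cor M δ i := by
    show M.nx (δ i) = δ (i + 1)
    rw [← h0, hγ.nx, h1]
  rcases hP.cor_node hc hn with h | h
  · rw [h, h0]
  · exact absurd (h ▸ he) (hP.notA (i + 1))

include hγ

theorem hid_res {F G : Flags} (hA : ∀ k, A (γ k)) (hG : (kflags F i).Le G) :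
    (kflags (M.res δ F γ) a).Le (M.res δ G γ) := by
  have hne : ∀ {j k}, M.SameNode (δ k) (γ j) → j ≠ a → k ≠ i := by
    rintro j k h2 h3 rfl
    exact h3 (hγ.inj (hid_lone hP h0 h1 (hA j) h2 hγ))
  refine ⟨?_, ?_, ?_, ?_⟩
  · rintro j T ⟨h2, k, h3, h4⟩
    exact ⟨k, h3, hG.lk k T ⟨hne h3 h2, h4⟩⟩
  · rintro j T ⟨h2, h3, h4⟩
    by_cases h5 : j = a + 1
    · subst h5
      obtain ⟨k, h6, h7⟩ := h3 rfl
      have h8 : k = i + 1 := by
        rw [h1] at h6
        exact nodes_inj hP.bd h6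
      subst h8
      refine ⟨i + 1, h6, fun _ => hG.le _ T ⟨hne h6 h2, fun _ => h7, fun h => absurd rfl h⟩,
        fun h => absurd h1 h⟩
    · obtain ⟨k, h6, h7, h8⟩ := h4 h5
      have h9 := hne h6 h2
      refine ⟨k, h6, fun h => hG.le k T ⟨h9, fun h10 => absurd ?_ h5, fun _ => h7 h⟩,
        fun h => hG.lk k T ⟨h9, h8 h⟩⟩
      rw [h10, ← h1] at h
      exact hγ.inj h
  · rintro j T ⟨h2, h3, h4⟩
    by_cases h5 : j = a - 1
    · subst h5
      obtain ⟨k, h6, h7⟩ := h3 rfl
      refine ⟨k, h6, fun h => hG.ri k T ⟨hne h6 h2, fun _ => h7, fun h8 => absurd ?_ h8⟩,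
        fun _ => hG.lk k T ⟨hne h6 h2, h7⟩⟩
      rw [sub_add_cancel, h0] at h
      rw [hP.bd.inj h, add_sub_cancel_right]
    · obtain ⟨k, h6, h7, h8⟩ := h4 h5
      have h9 := hne h6 h2
      refine ⟨k, h6, fun h => hG.ri k T ⟨h9, fun h10 => absurd ?_ h5, fun _ => h7 h⟩,
        fun h => hG.lk k T ⟨h9, h8 h⟩⟩
      rw [h10, sub_add_cancel, ← h0] at h
      rw [← hγ.inj h, add_sub_cancel_right]
  · rintro j ⟨h2, h3, k, h4, h5⟩
    refine ⟨k, h4, hG.st k ⟨?_, ?_, h5⟩⟩
    · rintro rfl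
      rw [← h0] at h4
      exact h2 (hγ.inj h4)
    · rintro rfl
      rw [← h1] at h4
      exact h3 (hγ.inj h4)

theorem hid_dem {F : Flags} {p : PState 4} (hp : KDem F i p) : KDem (M.res δ F γ) a p where
  ee := hp.ee
  d0 := by
    rintro T ⟨k, h2, h3, -⟩ ⟨l, h4, h5, -⟩
    rw [h0] at h2 h4
    have h6 := nodes_inj hP.bd h2
    have h7 := nodes_inj hP.bd h4
    subst h6
    subst h7
    exact hp.d0 T (h3 h0) (h5 h1)
  d1 := by
    rintro T ⟨k, h2, h3, -⟩
    rw [h1] at h2
    have h6 := nodes_inj hP.bd h2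
    subst h6
    exact hp.d1 T (h3 h1)
  d3 := by
    rintro T ⟨k, h2, h3, -⟩
    have h4 : M.SameNode (δ (i - 1)) (γ (a - 1)) := by
      have h5 := hP.prev_node (i - 1)
      rw [sub_add_cancel, ← h0] at h5
      have h6 : M.nx.symm (γ a) = γ (a - 1) := by
        rw [Equiv.symm_apply_eq, hγ.nx, sub_add_cancel]
      rwa [h6] at h5
    have h5 := nodes_inj hP.bd (h2.trans h4.symm)
    subst h5
    refine hp.d3 T (h3 ?_)
    rw [sub_add_cancel, sub_add_cancel, h0]
  s0 := by
    rintro ⟨k, h2, h3⟩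
    rw [h0] at h2
    have h4 := hP.bd.inj h2
    subst h4
    exact hp.s0 h3
  s1 := by
    rintro ⟨k, h2, h3⟩
    rw [h1] at h2
    have h4 := hP.bd.inj h2
    subst h4
    exact hp.s1 h3

/-- the demands at the other sites -/
theorem hid_off {F G : Flags} (hG : (kflags F i).Le G)
    (anti : ∀ γ F G t, M.SiteNum 6 γ → A (γ 0) → F.Le G → β γ G t → β γ F t)
    (hoff : ∀ η, M.SiteNum 6 η → ¬ M.SameSite (γ 0) (η 0) → ∀ F t, β' η F t → β η F t)
    {n : ℕ} {η : ZMod n → D} {t : PState n} (hη : M.SiteNum n η) (hn : n ≠ 0)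
    (hA : ∀ k, A (η k)) (hs : ∀ k, ¬ M.SameSite (γ 0) (η k)) (h : M.OL δ β' G n η t) :
    M.OL δ β F n η t := by
  have hne : ∀ {j k}, M.SameNode (δ k) (η j) → k ≠ i := by
    rintro j k h2 rfl
    have h3 := hid_lone hP h0 h1 (hA j) h2 hγ
    exact hs j (by rw [h3]; exact hγ.same (by decide) 0 a)
  have hd0 : ∀ j, η j ≠ δ i := fun j h2 => hs j (by
    rw [h2, ← h0]
    exact hγ.same (by decide) 0 a)
  have hd1 : ∀ j, η j ≠ δ (i + 1) := fun j h2 => hs j (by
    rw [h2, ← h1]
    exact hγ.same (by decide) 0 (a + 1))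
  rcases OL_n h with rfl | rfl
  · refine ⟨h.ee, fun j k T h2 h3 => h.dem j k T h2 ⟨fun h4 h5 => ?_, fun h4 => ?_, fun h4 => ?_⟩,
      fun j k h2 h3 => h.st j k h2 (hG.st k ⟨?_, ?_, h3⟩)⟩
    · exact hG.lk k T ⟨hne h2, h3.1 h4 h5⟩
    · refine hG.le k T ⟨hne h2, fun h5 => absurd ?_ (hd1 j), fun _ => h3.2.1 h4⟩
      rw [h4, h5]
    · refine hG.ri k T ⟨hne h2, fun h5 => absurd ?_ (hd0 (j + 1)), fun _ => h3.2.2 h4⟩
      rw [h4, h5, sub_add_cancel]
    · rintro rfl
      exact hd0 _ h2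
    · rintro rfl
      exact hd1 _ h2
  · refine anti η _ _ t hη (hA 0) ⟨?_, ?_, ?_, ?_⟩ (hoff η hη (hs 0) _ _ h)
    · rintro j T ⟨k, h2, h3⟩
      exact ⟨k, h2, hG.lk k T ⟨hne h2, h3⟩⟩
    · rintro j T ⟨k, h2, h3, h4⟩
      refine ⟨k, h2, fun h5 => hG.le k T ⟨hne h2, fun h6 => absurd ?_ (hd1 j), fun _ => h3 h5⟩,
        fun h5 => hG.lk k T ⟨hne h2, h4 h5⟩⟩
      rw [h5, h6]
    · rintro j T ⟨k, h2, h3, h4⟩
      refine ⟨k, h2, fun h5 => hG.ri k T ⟨hne h2, fun h6 => absurd ?_ (hd0 (j + 1)),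
        fun _ => h3 h5⟩, fun h5 => hG.lk k T ⟨hne h2, h4 h5⟩⟩
      rw [h5, h6, sub_add_cancel]
    · rintro j ⟨k, h2, h3⟩
      refine ⟨k, h2, hG.st k ⟨?_, ?_, h3⟩⟩
      · rintro rfl
        exact hd0 _ h2
      · rintro rfl
        exact hd1 _ h2

/-- **a corner quad inside of a corner hexagon** -/
theorem krel_hidden (hγA : A (γ 0))
    (anti : ∀ γ F G t, M.SiteNum 6 γ → A (γ 0) → F.Le G → β γ G t → β γ F t)
    (hoff : ∀ η, M.SiteNum 6 η → ¬ M.SameSite (γ 0) (η 0) → ∀ F t, β' η F t → β η F t)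
    (rot' : ∀ c F t, β' (fun i => γ (i + c)) F t → β' γ (F.rot (-c)) (t.rot (-c)))
    (nice' : ∀ F t, β' γ F t → (∀ k, t.m (t.m k) = k) ∧ ∀ k, t.m k ≠ k)
    (hK : KRel a (β' γ) (β γ)) : KRel i (Rz M A δ β') (Rz M A δ β) := by
  intro F G s p hF hG hR hp hs hs' hloop hu
  obtain ⟨μ', ω', hR⟩ := hR
  obtain ⟨hz1, hz2, hz3⟩ := z6_ne a
  obtain ⟨iz1, iz2, iz3⟩ := z6_ne i
  have hA : ∀ k, A (γ k) := fun k => (hP.sites.same (hγ.same (by decide) 0 k)).1 hγA
  have hsite : ∀ x, M.SameSite (γ 0) x ↔ ∃ k, x = γ k := fun x => ⟨fun h => by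
    obtain ⟨k, hk⟩ := hγ.mem h
    exact ⟨k, hk.symm⟩, by
    rintro ⟨k, rfl⟩
    exact hγ.same (by decide) 0 k⟩
  -- the state of the hexagon
  obtain ⟨t, ht, hst⟩ : ∃ t, β' γ (M.res δ G γ) t ∧ HasState μ' ω' γ t := by
    obtain ⟨n, η, t₀, hn, hη, ⟨k₀, hk₀⟩, hL, hst⟩ := hR.loc (γ 0) hγA
    exact exists_state hγ hn hη hk₀ hL hst rot'
  obtain ⟨htt, htne⟩ := nice' _ _ ht
  have hμ' : ∀ k, μ' (γ k) = γ (t.m k) := fun k => (hst k).1
  have hω' : ∀ k, ω' (γ k) = t.u k := fun k => (hst k).2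
  -- the other sites
  have hoffμ : ∀ x, A x → (∀ k, x ≠ γ k) → ∀ k, μ' x ≠ γ k := by
    intro x hx hxγ k hk
    obtain ⟨n, η, t₀, hn, hη, ⟨k₀, rfl⟩, -, hst₀⟩ := hR.loc x hx
    rw [(hst₀ k₀).1] at hk
    have h2 : M.SameSite (γ 0) (η k₀) := by
      refine (hγ.same (by decide) 0 k).trans ?_
      rw [← hk]
      exact hη.same hn _ _
    obtain ⟨l, hl⟩ := (hsite _).1 h2
    exact hxγ l hl
  -- the nodes
  have hnode : ∀ {e}, A e → M.SameNode (δ i) e → e = γ a := fun he hn =>
    hid_lone hP h0 h1 he hn hγ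
  have hprev : M.SameNode (δ (i - 1)) (γ (a - 1)) := by
    have h5 := hP.prev_node (i - 1)
    rw [sub_add_cancel, ← h0] at h5
    have h6 : M.nx.symm (γ a) = γ (a - 1) := by
      rw [Equiv.symm_apply_eq, hγ.nx, sub_add_cancel]
    rwa [h6] at h5
  have htu : t.u a = s.u i := by
    rw [← hR.bdry i, ← hω' a]
    unfold usum
    have h2 : M.nodeIn A (δ i) = {γ a} := by
      ext e
      rw [mem_nodeIn, Finset.mem_singleton]
      constructor
      · rintro ⟨h2, h3⟩
        exact hnode h3 h2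
      · rintro rfl
        exact ⟨by rw [h0], hA a⟩
    rw [h2, Finset.sum_singleton]
  have hal : ∀ x, A x → A (M.al x) → ∀ y, y = γ a ∨ y = γ (a + 1) → x ≠ y ∧ M.al x ≠ y := by
    intro x h2 h3 y hy
    have h4 : ∃ j, y = δ j := by
      rcases hy with rfl | rfl
      · exact ⟨i, h0⟩
      · exact ⟨i + 1, h1⟩
    obtain ⟨j, rfl⟩ := h4
    refine ⟨?_, ?_⟩
    · rintro rfl
      exact hP.notA j h3
    · intro h5
      have h6 := hP.notA j
      rw [← h5, M.inv] at h6
      exact h6 h2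
  -- no loops
  have hlt : p.m 2 = 3 → t.m a ≠ a + 1 := by
    intro h3 h4
    have h5 : t.m (a + 1) = a := by
      have := htt a
      rwa [h4] at this
    have key : ∀ x y, M.Str A μ' x y → ((x = γ a ∨ x = γ (a + 1)) ↔ (y = γ a ∨ y = γ (a + 1))) := by
      intro x y h
      induction h with
      | rel x y h =>
        obtain ⟨hxA, h⟩ := h
        rcases h with rfl | ⟨rfl, hyA⟩
        · constructor
          · rintro (rfl | rfl)
            · exact Or.inr (by rw [hμ', h4])
            · exact Or.inl (by rw [hμ', h5])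
          · intro h6
            by_cases h7 : ∃ k, x = γ k
            · obtain ⟨k, rfl⟩ := h7
              rw [hμ'] at h6
              rcases h6 with h6 | h6
              · right
                have h8 := hγ.inj h6
                rw [← h4, ← h8, htt]
              · left
                have h8 := hγ.inj h6
                rw [← h5, ← h8, htt]
            · push Not at h7
              rcases h6 with h6 | h6
              · exact absurd h6 (hoffμ x hxA h7 _)
              · exact absurd h6 (hoffμ x hxA h7 _)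
        · have h6 := hal x hxA hyA
          refine iff_of_false ?_ ?_
          · rintro (h7 | h7)
            · exact (h6 _ (Or.inl h7)).1 rfl
            · exact (h6 _ (Or.inr h7)).1 rfl
          · rintro (h7 | h7)
            · exact (h6 _ (Or.inl h7)).2 rfl
            · exact (h6 _ (Or.inr h7)).2 rfl
      | refl x => exact Iff.rfl
      | symm x y _ ih => exact ih.symm
      | trans x y z _ _ ih1 ih2 => exact ih1.trans ih2
    have h6 := (key _ _ (hR.str i)).1 (Or.inl h0.symm)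
    refine hloop ⟨h3, ?_⟩
    rcases h6 with h6 | h6
    · rw [h0] at h6
      exact absurd (hP.bd.inj h6) (hs' i)
    · rw [h1] at h6
      exact hP.bd.inj h6
  -- the new state
  set g := gk a p t with hg
  have hidx : ∀ x, (∃ k, x = γ k) → ∃ k, x = γ k := fun _ h => h
  set μ : D → D := fun x => if h : ∃ k, x = γ k then γ (g.m h.choose) else μ' x with hμdef
  set ω : D → ℕ := fun x => if h : ∃ k, x = γ k then g.u h.choose else ω' x with hωdef
  have hch : ∀ k (h : ∃ l, γ k = γ l), h.choose = k := fun k h => (hγ.inj h.choose_spec).symm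
  have hμγ : ∀ k, μ (γ k) = γ (g.m k) := fun k => by
    show (if h : ∃ l, γ k = γ l then γ (g.m h.choose) else μ' (γ k)) = _
    rw [dif_pos ⟨k, rfl⟩, hch]
  have hωγ : ∀ k, ω (γ k) = g.u k := fun k => by
    show (if h : ∃ l, γ k = γ l then g.u h.choose else ω' (γ k)) = _
    rw [dif_pos ⟨k, rfl⟩, hch]
  have hμo : ∀ x, (∀ k, x ≠ γ k) → μ x = μ' x := fun x hx => dif_neg fun ⟨k, hk⟩ => hx k hk
  have hωo : ∀ x, (∀ k, x ≠ γ k) → ω x = ω' x := fun x hx => dif_neg fun ⟨k, hk⟩ => hx k hk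
  have hωx : ∀ x, ω x = (if x = γ a then p.u 0 else ω' x) + (if x = γ (a + 1) then p.u 1 else 0) +
      (if x = γ (a - 1) then p.u 3 else 0) := by
    intro x
    by_cases hx : ∃ k, x = γ k
    · obtain ⟨k, rfl⟩ := hx
      rw [hωγ, hω']
      simp only [hγ.inj.eq_iff]
      rfl
    · push Not at hx
      rw [hωo x hx, if_neg (hx _), if_neg (hx _), if_neg (hx _), add_zero, add_zero]
  have hsum : ∀ d, M.usum A ω d = (∑ x ∈ M.nodeIn A d, if x = γ a then p.u 0 else ω' x) +
      (if M.SameNode d (γ (a + 1)) then p.u 1 else 0) +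
      (if M.SameNode d (γ (a - 1)) then p.u 3 else 0) := by
    intro d
    unfold usum
    rw [Finset.sum_congr rfl fun x _ => hωx x, Finset.sum_add_distrib, Finset.sum_add_distrib,
      Finset.sum_ite_eq', Finset.sum_ite_eq']
    simp only [mem_nodeIn, hA, and_true]
  have hsum0 : ∀ d, ¬ M.SameNode d (γ a) →
      (∑ x ∈ M.nodeIn A d, if x = γ a then p.u 0 else ω' x) = M.usum A ω' d := by
    intro d hd
    unfold usum
    refine Finset.sum_congr rfl fun x hx => if_neg ?_
    rintro rfl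
    exact hd (mem_nodeIn.1 hx).1
  have hs1 : M.SameNode (δ (i + 1)) (γ (a + 1)) := by rw [h1]
  have hs0 : M.SameNode (δ i) (γ a) := by rw [h0]
  refine ⟨μ, ω, ?_, ?_, ?_, ?_, ?_⟩
  · -- local states
    intro d hd
    by_cases hdγ : M.SameSite (γ 0) d
    · obtain ⟨k, rfl⟩ := (hsite d).1 hdγ
      refine ⟨6, γ, g, by decide, hγ, ⟨k, rfl⟩, ?_, fun k => ⟨hμγ k, hωγ k⟩⟩
      exact hK (M.res δ F γ) (M.res δ G γ) t p (res_ok hF γ) (hid_res hP hγ h0 h1 hA hG) ht
        (hid_dem hP hγ h0 h1 hp) htt htne (fun h => hlt h.1 h.2) (by rw [htu, hu])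
    · obtain ⟨n, η, t₀, hn, hη, ⟨k₀, rfl⟩, hL, hst₀⟩ := hR.loc d hd
      have h2 : ∀ k, ¬ M.SameSite (γ 0) (η k) := fun k h => hdγ (h.trans (hη.same hn k k₀))
      have h3 : ∀ k, A (η k) := fun k => (hP.sites.same (hη.same hn k₀ k)).1 hd
      have h4 : ∀ k l, η k ≠ γ l := fun k l h => h2 k (by rw [h]; exact hγ.same (by decide) 0 l)
      refine ⟨n, η, t₀, hn, hη, ⟨k₀, rfl⟩, hid_off hP hγ h0 h1 hG anti hoff hη hn h3 h2 hL,
        fun k => ⟨?_, ?_⟩⟩
      · rw [hμo _ (h4 k)]
        exact (hst₀ k).1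
      · rw [hωo _ (h4 k)]
        exact (hst₀ k).2
  · -- strands
    intro j
    rcases EE4_m hp.ee with ⟨h3, -⟩ | ⟨h3, -⟩
    · rw [gk_m1 h3]
      refine (hR.str j).mono (fun _ h => h) fun x hx => ?_
      by_cases hxγ : ∃ k, x = γ k
      · obtain ⟨k, rfl⟩ := hxγ
        rw [hμγ, hμ', hg, gk_m1 h3]
      · push Not at hxγ
        rw [hμo x hxγ]
    · have hlm := hlt h3
      have hstr := fun {x y} (h : M.Str A μ' x y) => str_leaf (μ := μ) hγ.inj htt hlm hal hμ' hμo
        (fun k => by rw [hμγ, hg, gk_m3 h3]) hoffμ h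
      have hbc : M.Str A μ (γ (t.m a)) (γ (t.m (a + 1))) := by
        refine Relation.EqvGen.rel _ _ ⟨hA _, Or.inl ?_⟩
        rw [hμγ, hg, gk_m3 h3, if_neg (htne a), if_neg hlm, htt, if_pos rfl]
      have hsm : s.m i ≠ i + 1 := fun h => hloop ⟨h3, h⟩
      have hsm' : s.m (i + 1) ≠ i := fun h => hsm (by
        have := hs (i + 1)
        rwa [h] at this)
      have hred : ∀ l, l ≠ i → l ≠ i + 1 → (if δ l = γ a then γ (t.m a) else
          if δ l = γ (a + 1) then γ (t.m (a + 1)) else δ l) = δ l := by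
        intro l hl hl'
        rw [if_neg fun h => hl (hP.bd.inj (h.trans h0)), if_neg fun h => hl' (hP.bd.inj (h.trans h1))]
      have hredi : (if δ i = γ a then γ (t.m a) else
          if δ i = γ (a + 1) then γ (t.m (a + 1)) else δ i) = γ (t.m a) := if_pos h0.symm
      have hredi1 : (if δ (i + 1) = γ a then γ (t.m a) else
          if δ (i + 1) = γ (a + 1) then γ (t.m (a + 1)) else δ (i + 1)) = γ (t.m (a + 1)) := by
        rw [if_neg fun h => iz1 (hP.bd.inj (h.trans h0)), if_pos h1.symm]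
      -- the two strands which are joined
      have e1 := hstr (hR.str i)
      rw [hredi, hred _ (hs' i) hsm] at e1
      have e2 := hstr (hR.str (i + 1))
      rw [hredi1, hred _ hsm' (hs' (i + 1))] at e2
      rw [gk_m3 h3]
      by_cases j1 : j = i
      · subst j1
        rw [if_pos rfl]
        refine Relation.EqvGen.rel _ _ ⟨hP.inA _, Or.inl ?_⟩
        rw [← h0, ← h1, hμγ, hg, gk_m3 h3, if_pos rfl]
      rw [if_neg j1]
      by_cases j2 : j = i + 1
      · subst j2
        rw [if_pos rfl]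
        refine Relation.EqvGen.rel _ _ ⟨hP.inA _, Or.inl ?_⟩
        rw [← h0, ← h1, hμγ, hg, gk_m3 h3, if_neg hz1, if_pos rfl]
      rw [if_neg j2]
      by_cases j3 : s.m j = i
      · rw [if_pos j3]
        have h4 : s.m i = j := by rw [← j3, hs]
        rw [h4] at e1
        exact (e1.symm.trans _ _ _ hbc).trans _ _ _ e2
      rw [if_neg j3]
      by_cases j4 : s.m j = i + 1
      · rw [if_pos j4]
        have h4 : s.m (i + 1) = j := by rw [← j4, hs]
        rw [h4] at e2
        exact (e2.symm.trans _ _ _ hbc.symm).trans _ _ _ e1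
      rw [if_neg j4]
      have e3 := hstr (hR.str j)
      rwa [hred _ j1 j2, hred _ j3 j4] at e3
  · -- all darts
    intro d hd
    obtain ⟨j, hj⟩ := hR.all d hd
    rcases EE4_m hp.ee with ⟨h3, -⟩ | ⟨h3, -⟩
    · refine ⟨j, hj.mono (fun _ h => h) fun x hx => ?_⟩
      by_cases hxγ : ∃ k, x = γ k
      · obtain ⟨k, rfl⟩ := hxγ
        rw [hμγ, hμ', hg, gk_m1 h3]
      · push Not at hxγ
        rw [hμo x hxγ]
    · have hlm := hlt h3
      have hstr := fun {x y} (h : M.Str A μ' x y) => str_leaf (μ := μ) hγ.inj htt hlm hal hμ' hμo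
        (fun k => by rw [hμγ, hg, gk_m3 h3]) hoffμ h
      have hsm : s.m i ≠ i + 1 := fun h => hloop ⟨h3, h⟩
      have hsm' : s.m (i + 1) ≠ i := fun h => hsm (by
        have := hs (i + 1)
        rwa [h] at this)
      have hred : ∀ l, l ≠ i → l ≠ i + 1 → (if δ l = γ a then γ (t.m a) else
          if δ l = γ (a + 1) then γ (t.m (a + 1)) else δ l) = δ l := by
        intro l hl hl'
        rw [if_neg fun h => hl (hP.bd.inj (h.trans h0)), if_neg fun h => hl' (hP.bd.inj (h.trans h1))]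
      by_cases d1 : d = γ a
      · exact ⟨i, by rw [d1, h0]; exact Relation.EqvGen.refl _⟩
      by_cases d2 : d = γ (a + 1)
      · exact ⟨i + 1, by rw [d2, h1]; exact Relation.EqvGen.refl _⟩
      have e := hstr hj
      rw [if_neg d1, if_neg d2] at e
      by_cases j1 : j = i
      · subst j1
        rw [if_pos h0.symm] at e
        have e1 := hstr (hR.str j)
        rw [if_pos h0.symm, hred _ (hs' j) hsm] at e1
        exact ⟨_, e.trans _ _ _ e1⟩
      by_cases j2 : j = i + 1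
      · subst j2
        rw [if_neg fun h => iz1 (hP.bd.inj (h.trans h0)), if_pos h1.symm] at e
        have e1 := hstr (hR.str (i + 1))
        rw [if_neg fun h => iz1 (hP.bd.inj (h.trans h0)), if_pos h1.symm,
          hred _ hsm' (hs' (i + 1))] at e1
        exact ⟨_, e.trans _ _ _ e1⟩
      · rw [hred j j1 j2] at e
        exact ⟨j, e⟩
  · -- units of the ring nodes
    intro j
    rw [hsum]
    have hn1 : M.SameNode (δ j) (γ (a + 1)) ↔ j = i + 1 := ⟨fun h => nodes_inj hP.bd (h.trans hs1.symm),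
      by rintro rfl; exact hs1⟩
    have hn2 : M.SameNode (δ j) (γ (a - 1)) ↔ j = i - 1 := ⟨fun h => nodes_inj hP.bd (h.trans hprev.symm),
      by rintro rfl; exact hprev⟩
    show _ = (if j = i then p.u 0 else s.u j) + (if j = i + 1 then p.u 1 else 0) +
      (if j = i - 1 then p.u 3 else 0)
    rw [if_congr hn1 rfl rfl, if_congr hn2 rfl rfl]
    congr 2
    by_cases hj : j = i
    · subst hj
      rw [if_pos rfl]
      have h2 : M.nodeIn A (δ j) = {γ a} := by
        ext e
        rw [mem_nodeIn, Finset.mem_singleton]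
        constructor
        · rintro ⟨h2, h3⟩
          exact hnode h3 h2
        · rintro rfl
          exact ⟨hs0, hA a⟩
      rw [h2, Finset.sum_singleton, if_pos rfl]
    · rw [if_neg hj, hsum0 _ fun h => hj (nodes_inj hP.bd (h.trans hs0.symm)), hR.bdry]
  · -- units of the inner nodes
    intro d hd
    have hout : ∀ j k, M.SameNode (δ j) (γ k) → ¬ M.SameNode d (γ k) := by
      intro j k h2 h3
      exact hP.notA _ (hd _ ((h3.trans h2.symm).trans (hP.root_node j)))
    rw [hsum, hsum0 _ (hout i a hs0), if_neg (hout (i + 1) _ hs1), if_neg (hout (i - 1) _ hprev),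
      hR.inner d hd]

end hidden

end DMap

end GT33
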