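import Pool.Agent.GT33.DLiftS

/-!
# GT33 module RESTT: strands of a subregion

`B ⊆ A`: sites of a region.  The strands of `μ` in `B` pair the darts outside `B` (`DStrand M.al μ B`).
`DStrand.ne'`: a strand does not return to its first dart.  `rest_unique`, `rest_port`: strands in `B` have two ends.
`rest_conn`: the strands in `A` are composed of strands in `B` and steps of `μ` outside `B`.
-/

open Classical

namespace GT33

section

variable {D : Type} {phi : Equiv.Perm D} {al mu : D → D} {R : D → Prop}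

theorem dstrand_step {d e : D} (h : R (al d)) :
    DStrand al mu R d e ↔ DStrand al mu R (mu (al d)) e := by
  refine ⟨fun h1 => ?_, fun h1 => .step h h1⟩
  cases h1 with
  | last h2 => exact absurd h h2
  | step _ h3 => exact h3

theorem dstrand_last {d e : D} (h : ¬ R (al d)) : DStrand al mu R d e ↔ e = al d := by
  refine ⟨fun h1 => ?_, fun h1 => h1 ▸ .last h⟩
  cases h1 with
  | last h2 => rfl
  | step h2 _ => exact absurd h2 h

/-- **A strand does not return to its first dart.** -/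
theorem DStrand.ne' (hi : ∀ d, al (al d) = d) (hne : ∀ d, al d ≠ d) (hp : Pairing phi mu R)
    {d e : D} (h : DStrand al mu R d e) (hd : ¬ R d) : e ≠ d := by
  classical
  set on : D → D := fun d => if R d then mu d else d with hon
  have hon' : ∀ d, on (on d) = d := by
    intro d
    by_cases h : R d
    · simp only [hon, if_pos h, if_pos (hp.mem _ h), hp.inv _ h]
    · simp only [hon, if_neg h]
  let alp : Equiv.Perm D := ⟨al, al, hi, hi⟩
  let onp : Equiv.Perm D := ⟨on, on, hon', hon'⟩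
  have e1 : alp * alp = 1 := Equiv.ext hi
  have e2 : onp * onp = 1 := Equiv.ext hon'
  set f : Equiv.Perm D := alp * onp with hf
  have hfv : ∀ x, f x = al (on x) := fun x => rfl
  have e3 : onp * f = f⁻¹ * onp := by
    have h1 : f * (onp * f) = onp := by
      rw [hf]
      calc alp * onp * (onp * (alp * onp)) = alp * (onp * onp) * alp * onp := by group
        _ = onp := by rw [e2, mul_one, e1, one_mul]
    rw [eq_inv_mul_iff_mul_eq]
    exact h1
  have e4 : ∀ k : ℕ, onp * f ^ k = f⁻¹ ^ k * onp := by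
    intro k
    induction k with
    | zero => simp
    | succ k ih => rw [pow_succ, ← mul_assoc, ih, mul_assoc, e3, ← mul_assoc, pow_succ]
  have key : ∀ x e, DStrand al mu R x e → ∃ n : ℕ, (f ^ (n + 1)) (on x) = e ∧
      ∀ k, 0 < k → k ≤ n → R ((f ^ k) (on x)) := by
    intro x e h
    induction h with
    | @last x h =>
      refine ⟨0, ?_, fun k h1 h2 => by omega⟩
      rw [zero_add, pow_one, hfv, hon']
    | @step x e h1 _ ih =>
      obtain ⟨n, h2, h3⟩ := ih
      have h4 : on (mu (al x)) = f (on x) := by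
        rw [hfv, hon']
        show (if R (mu (al x)) then mu (mu (al x)) else mu (al x)) = al x
        rw [if_pos (hp.mem _ h1), hp.inv _ h1]
      rw [h4] at h2 h3
      refine ⟨n + 1, by rw [pow_succ]; exact h2, fun k h5 h6 => ?_⟩
      by_cases h7 : k = 1
      · subst h7
        rw [pow_one, hfv, hon']
        exact h1
      · obtain ⟨j, rfl⟩ : ∃ j, k = j + 1 := ⟨k - 1, by omega⟩
        rw [pow_succ]
        exact h3 j (by omega) (by omega)
  intro hed
  subst hed
  obtain ⟨n, h1, h2⟩ := key e e h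
  have h0 : on e = e := if_neg hd
  rw [h0] at h1 h2
  have h3 : ∀ k : ℕ, on ((f ^ k) e) = (f⁻¹ ^ k) e := by
    intro k
    have := Equiv.Perm.congr_fun (e4 k) e
    simp only [Equiv.Perm.mul_apply] at this
    rw [show onp ((f ^ k) e) = on ((f ^ k) e) from rfl, show onp e = on e from rfl, h0] at this
    exact this
  rcases Nat.even_or_odd (n + 1) with ⟨k, hk⟩ | ⟨k, hk⟩
  · have h4 : (f⁻¹ ^ k) e = (f ^ k) e := by
      conv_lhs => rw [← h1, hk, pow_add, Equiv.Perm.mul_apply, ← Equiv.Perm.mul_apply, inv_pow,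
        inv_mul_cancel, Equiv.Perm.one_apply]
    have h5 := h2 k (by omega) (by omega)
    have h6 := h3 k
    rw [h4] at h6
    exact hp.ne _ h5 (by
      have : on ((f ^ k) e) = mu ((f ^ k) e) := if_pos h5
      rw [← this, h6])
  · have h4 : (f⁻¹ ^ k) e = (f ^ (k + 1)) e := by
      conv_lhs => rw [← h1, hk, show 2 * k + 1 = k + (k + 1) by ring, pow_add,
        Equiv.Perm.mul_apply, ← Equiv.Perm.mul_apply, inv_pow, inv_mul_cancel,
        Equiv.Perm.one_apply]
    have h5 : al ((f ^ (k + 1)) e) = f (on ((f ^ (k + 1)) e)) := by rw [hfv, hon']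
    have h6 : f ((f⁻¹ ^ (k + 1)) e) = (f⁻¹ ^ k) e := by
      rw [pow_succ' f⁻¹ k, ← Equiv.Perm.mul_apply, ← mul_assoc, mul_inv_cancel, one_mul]
    rw [h3, h6, h4] at h5
    exact hne _ h5

end

namespace DMap

variable {D : Type} {M : DMap D} {A B : D → Prop} {μ : D → D}

/-- strands in `B`, in terms of the darts outside `B` -/
theorem dstrand_str (hp : Pairing M.nx μ B) {x y : D} (h : DStrand M.al μ B x y)
    (hx : B (M.al x)) : B (M.al y) ∧ M.Str B μ (M.al x) (M.al y) := by
  induction h with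
  | last h => exact absurd hx h
  | @step x y h1 h2 ih =>
    have h3 := Str.mu (M := M) (μ := μ) h1
    have h4 := hp.mem _ h1
    by_cases h5 : B (M.al (μ (M.al x)))
    · obtain ⟨h6, h7⟩ := ih h5
      exact ⟨h6, (h3.trans (Str.al h4 h5)).trans h7⟩
    · have h6 := (dstrand_last h5).1 h2
      rw [h6, M.inv]
      exact ⟨h4, h3⟩

theorem ends_str (hp : Pairing M.nx μ B) {u v : D} (h : M.Str B μ u v) (x : D) :
    (DStrand M.al μ B u x ∨ DStrand M.al μ B (μ u) x) ↔
      (DStrand M.al μ B v x ∨ DStrand M.al μ B (μ v) x) := by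
  induction h with
  | rel u v h =>
    obtain ⟨hu, rfl | ⟨rfl, hv⟩⟩ := h
    · rw [hp.inv _ hu]
      exact or_comm
    · have h1 : DStrand M.al μ B (M.al u) x ↔ DStrand M.al μ B (μ u) x := by
        rw [dstrand_step (d := M.al u) (by rw [M.inv]; exact hu), M.inv]
      rw [dstrand_step (d := u) hv, h1]
      exact or_comm
  | refl u => exact Iff.rfl
  | symm u v _ ih => exact ih.symm
  | trans u v w _ _ ih1 ih2 => exact ih1.trans ih2

/-- a strand in `B` has at most two ends -/
theorem rest_unique (hp : Pairing M.nx μ B) {p q : D} (hp' : ¬ B p) (hq' : ¬ B q)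
    (hap : B (M.al p)) (h : M.Str B μ (M.al p) (M.al q)) : q = p ∨ DStrand M.al μ B p q := by
  have h1 : DStrand M.al μ B (M.al q) q := by
    have : DStrand M.al μ B (M.al q) (M.al (M.al q)) := .last (by rw [M.inv]; exact hq')
    rwa [M.inv] at this
  rcases (ends_str hp h q).2 (Or.inl h1) with h2 | h2
  · left
    rw [dstrand_last (by rw [M.inv]; exact hp'), M.inv] at h2
    exact h2
  · exact Or.inr ((dstrand_step hap).2 h2)

/-- the pairing stays in `A` -/
structure RestH (M : DMap D) (A B : D → Prop) (μ : D → D) : Prop where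
  sA : M.Sites A
  sB : M.Sites B
  BA : ∀ d, B d → A d
  site : ∀ d, A d → M.SameSite d (μ d)
  pair : Pairing M.nx μ B

/-- `x` is an end of the strand of `u`, or `x = u` outside `B` -/
def GP (M : DMap D) (B : D → Prop) (μ : D → D) (u x : D) : Prop :=
  (¬ B u ∧ x = u) ∨ (B u ∧ ¬ B x ∧ B (M.al x) ∧ M.Str B μ u (M.al x))

/-- the steps between the darts outside `B` -/
def ER (M : DMap D) (A B : D → Prop) (μ : D → D) (x y : D) : Prop :=
  ¬ B x ∧ (DStrand M.al μ B x y ∨ (A x ∧ y = μ x))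

variable (hR : RestH M A B μ)

include hR

theorem gp_unique {u x y : D} (hx : GP M B μ u x) (hy : GP M B μ u y) :
    Relation.EqvGen (ER M A B μ) x y := by
  rcases hx with ⟨h1, rfl⟩ | ⟨h1, h2, h3, h4⟩
  · rcases hy with ⟨-, rfl⟩ | ⟨h5, -⟩
    · exact Relation.EqvGen.refl _
    · exact absurd h5 h1
  · rcases hy with ⟨h5, -⟩ | ⟨-, h6, h7, h8⟩
    · exact absurd h1 h5
    · rcases rest_unique hR.pair h2 h6 h3 (h4.symm.trans h8) with rfl | h9
      · exact Relation.EqvGen.refl _
      · exact Relation.EqvGen.rel _ _ ⟨h2, Or.inl h9⟩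

omit hR in
theorem gp_str {u v x : D} (h : M.Str B μ u v) (hu : B u) (hv : B v) (hx : GP M B μ u x) :
    GP M B μ v x := by
  rcases hx with ⟨h1, -⟩ | ⟨-, h2, h3, h4⟩
  · exact absurd hu h1
  · exact Or.inr ⟨hv, h2, h3, h.symm.trans h4⟩

theorem gp_rel {u v x y : D} (hu : A u) (h : v = μ u ∨ (v = M.al u ∧ A v))
    (hx : GP M B μ u x) (hy : GP M B μ v y) : Relation.EqvGen (ER M A B μ) x y := by
  rcases h with rfl | ⟨rfl, hv⟩
  · have h1 : B u ↔ B (μ u) := hR.sB.same (hR.site u hu)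
    by_cases h2 : B u
    · exact gp_unique hR (gp_str (Str.mu h2) h2 (h1.1 h2) hx) hy
    · rcases hx with ⟨-, rfl⟩ | ⟨h3, -⟩
      · rcases hy with ⟨-, rfl⟩ | ⟨h4, -⟩
        · exact Relation.EqvGen.rel _ _ ⟨h2, Or.inr ⟨hu, rfl⟩⟩
        · exact absurd (h1.2 h4) h2
      · exact absurd h3 h2
  · by_cases h1 : B u
    · by_cases h2 : B (M.al u)
      · exact gp_unique hR (gp_str (Str.al h1 h2) h1 h2 hx) hy
      · have h3 : GP M B μ u (M.al u) := Or.inr ⟨h1, h2, by rw [M.inv]; exact h1, by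
          rw [M.inv]; exact Str.refl _⟩
        rcases hy with ⟨-, rfl⟩ | ⟨h4, -⟩
        · exact gp_unique hR hx h3
        · exact absurd h4 h2
    · have hx' : x = u := by
        rcases hx with ⟨-, h3⟩ | ⟨h3, -⟩
        · exact h3
        · exact absurd h3 h1
      subst hx'
      by_cases h2 : B (M.al x)
      · have h3 : GP M B μ (M.al x) x := Or.inr ⟨h2, h1, h2, Str.refl _⟩
        exact gp_unique hR h3 hy
      · rcases hy with ⟨-, rfl⟩ | ⟨h4, -⟩
        · exact Relation.EqvGen.rel _ _ ⟨h1, Or.inl (.last h2)⟩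
        · exact absurd h4 h2

/-- **The strands in `A` are composed of strands in `B` and steps outside `B`.** -/
theorem rest_conn (hall : ∀ d, A d → ∃ z, GP M B μ d z) {u v : D} (h : M.Str A μ u v) :
    ∀ x y, GP M B μ u x → GP M B μ v y → Relation.EqvGen (ER M A B μ) x y := by
  induction h with
  | rel u v h => exact fun x y hx hy => gp_rel hR h.1 h.2 hx hy
  | refl u => exact fun x y hx hy => gp_unique hR hx hy
  | symm u v _ ih => exact fun x y hx hy => (ih y x hy hx).symm
  | trans u w v _ _ ih1 ih2 =>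
    intro x y hx hy
    obtain ⟨z, hz⟩ : ∃ z, GP M B μ w z := by
      by_cases h1 : A w
      · exact hall w h1
      · exact ⟨w, Or.inl ⟨fun h2 => h1 (hR.BA _ h2), rfl⟩⟩
    exact (ih1 x z hx hz).trans _ _ _ (ih2 z y hz hy)

theorem gp_iff {u v : D} (h : M.Str A μ u v) :
    (∃ z, GP M B μ u z) ↔ ∃ z, GP M B μ v z := by
  induction h with
  | rel u v h =>
    obtain ⟨hu, h⟩ := h
    rcases h with rfl | ⟨rfl, hv⟩
    · have h1 : B u ↔ B (μ u) := hR.sB.same (hR.site u hu)
      by_cases h2 : B u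
      · have h3 := Str.mu (M := M) (μ := μ) h2
        exact ⟨fun ⟨z, hz⟩ => ⟨z, gp_str h3 h2 (h1.1 h2) hz⟩,
          fun ⟨z, hz⟩ => ⟨z, gp_str h3.symm (h1.1 h2) h2 hz⟩⟩
      · exact ⟨fun _ => ⟨_, Or.inl ⟨fun h3 => h2 (h1.2 h3), rfl⟩⟩, fun _ => ⟨_, Or.inl ⟨h2, rfl⟩⟩⟩
    · by_cases h1 : B u
      · by_cases h2 : B (M.al u)
        · have h3 := Str.al (M := M) (μ := μ) h1 h2
          exact ⟨fun ⟨z, hz⟩ => ⟨z, gp_str h3 h1 h2 hz⟩,
            fun ⟨z, hz⟩ => ⟨z, gp_str h3.symm h2 h1 hz⟩⟩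
        · exact ⟨fun _ => ⟨_, Or.inl ⟨h2, rfl⟩⟩, fun _ => ⟨M.al u, Or.inr ⟨h1, h2, by
            rw [M.inv]; exact h1, by rw [M.inv]; exact Str.refl _⟩⟩⟩
      · by_cases h2 : B (M.al u)
        · exact ⟨fun _ => ⟨u, Or.inr ⟨h2, h1, h2, Str.refl _⟩⟩, fun _ => ⟨_, Or.inl ⟨h1, rfl⟩⟩⟩
        · exact ⟨fun _ => ⟨_, Or.inl ⟨h2, rfl⟩⟩, fun _ => ⟨_, Or.inl ⟨h1, rfl⟩⟩⟩
  | refl u => exact Iff.rfl
  | symm u v _ ih => exact ih.symm
  | trans u v w _ _ ih1 ih2 => exact ih1.trans ih2

/-- every strand which reaches the boundary has ends -/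
theorem gp_exists {u r : D} (h : M.Str A μ u r) (hr : ¬ A (M.al r)) : ∃ z, GP M B μ u z := by
  rw [gp_iff hR h]
  by_cases h1 : B r
  · exact ⟨M.al r, Or.inr ⟨h1, fun h2 => hr (hR.BA _ h2), by rw [M.inv]; exact h1, by
      rw [M.inv]; exact Str.refl _⟩⟩
  · exact ⟨r, Or.inl ⟨h1, rfl⟩⟩

end DMap

end GT33
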