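import Pool.Agent.GT33.KRem
import Pool.Agent.GT33.RestT

/-!
# GT33 module KFLIP: the other diagonal in a corner quad

`CorQ.glueG`: the state of a region with a corner quad, for given pairings and units.  `CorQ.restr`: the state of the
rest without a corner quad.  `CorQ.flip`: a corner quad in the state `(2, 0, 1, 0)` is replaced by the state
`(0, 1, 1, 1)` with the other diagonal.
-/

open Classical

namespace GT33

namespace DMap

open Patch

variable {D : Type} {M : DMap D}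

namespace CorQ

variable [Fintype D] {A : D → Prop} {δ : ZMod 6 → D} {i : ZMod 6} {q : ZMod 4 → D}

/-- gluing a corner quad, with given pairing and units -/
theorem glueG (h : M.CorQ A δ i q) {L : LS D} {t : PState 6} {p : PState 4} {μ : D → D} {ω : D → ℕ}
    (hG : M.Glued L A (fun d => A d ∧ ¬ QR q d) (QR q) (kδ M δ i q) q t p μ ω)
    (hp : ∀ k, p.m (p.m k) = k) (hp' : ∀ k, p.m k ≠ k)
    (ht : ∀ k, t.m (t.m k) = k) (ht' : ∀ k, t.m k ≠ k)
    (hloop : ¬ (p.m 2 = 3 ∧ t.m i = i + 1)) (hu : t.u i + p.u 2 = 3) :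
    M.RealL L A δ (gk i p t) μ ω := by
  -- strands
  have sE : ∀ x, M.Str A μ (kδ M δ i q x) (kδ M δ i q (t.m x)) := hG.strB
  have sq : ∀ k, M.Str A μ (q k) (q (p.m k)) := hG.strC
  have inQ : ∀ x, A (kδ M δ i q x) := fun x => ((h.mem _).2 ⟨x, rfl⟩).1.1
  have s3 : M.Str A μ (kδ M δ i q i) (q 3) := Relation.EqvGen.rel _ _
    ⟨inQ i, Or.inr ⟨by rw [kδ_i, M.inv], h.qA 3⟩⟩
  have s2 : M.Str A μ (kδ M δ i q (i + 1)) (q 2) := Relation.EqvGen.rel _ _
    ⟨inQ _, Or.inr ⟨by rw [kδ_i1, M.inv], h.qA 2⟩⟩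
  have tr : ∀ {x y z}, M.Str A μ x y → M.Str A μ y z → M.Str A μ x z :=
    fun h1 h2 => Relation.EqvGen.trans _ _ _ h1 h2
  have sy : ∀ {x y}, M.Str A μ x y → M.Str A μ y x := fun h1 => Relation.EqvGen.symm _ _ h1
  have rf : ∀ {x y}, x = y → M.Str A μ x y := fun h1 => by rw [h1]; exact Relation.EqvGen.refl _
  have hi1 : i + 1 ≠ i := z6_succ i
  have key : (∀ j, M.Str A μ (δ j) (δ ((gk i p t).m j))) ∧ ∀ x, ∃ j, M.Str A μ (kδ M δ i q x) (δ j) := by
    rcases pm_cases hp hp' with ⟨p2, p3, p0, p1⟩ | ⟨p2, p0, p1, p3⟩ | ⟨p2, p1, p0, p3⟩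
    · -- two parallel strands, one joins the ends of the rest
      have hti : t.m i ≠ i + 1 := fun h1 => hloop ⟨p2, h1⟩
      have hti' : t.m (i + 1) ≠ i := fun h1 => hti (by
        have h2 := ht (i + 1)
        rwa [h1] at h2)
      have c1 : M.Str A μ (kδ M δ i q i) (kδ M δ i q (i + 1)) := by
        have h1 := sq 3
        rw [p3] at h1
        exact tr s3 (tr h1 (sy s2))
      have c2 : M.Str A μ (δ i) (δ (i + 1)) := by
        have h1 := sq 0
        rw [p0, h.h0, h.h1] at h1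
        exact h1
      have e1 : M.Str A μ (kδ M δ i q i) (δ (t.m i)) := by
        have h1 := sE i
        rwa [kδ_ne (ht' i) hti] at h1
      have e2 : M.Str A μ (kδ M δ i q (i + 1)) (δ (t.m (i + 1))) := by
        have h1 := sE (i + 1)
        rwa [kδ_ne hti' (ht' (i + 1))] at h1
      constructor
      · intro j
        simp only [gk, if_pos p2]
        by_cases h1 : j = i
        · rw [if_pos h1, h1]
          exact c2
        by_cases h2 : j = i + 1
        · rw [if_neg h1, if_pos h2, h2]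
          exact sy c2
        rw [if_neg h1, if_neg h2]
        have h3 := sE j
        rw [kδ_ne h1 h2] at h3
        by_cases h4 : t.m j = i
        · rw [if_pos h4]
          rw [h4] at h3
          exact tr h3 (tr c1 e2)
        by_cases h5 : t.m j = i + 1
        · rw [if_neg h4, if_pos h5]
          rw [h5] at h3
          exact tr h3 (tr (sy c1) e1)
        rw [if_neg h4, if_neg h5]
        rwa [kδ_ne h4 h5] at h3
      · intro x
        by_cases h1 : x = i
        · exact ⟨_, by rw [h1]; exact e1⟩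
        by_cases h2 : x = i + 1
        · exact ⟨_, by rw [h2]; exact e2⟩
        exact ⟨x, rf (kδ_ne h1 h2)⟩
    · -- crossing
      have c : ∀ x, M.Str A μ (kδ M δ i q x) (δ (Equiv.swap i (i + 1) x)) := by
        intro x
        by_cases h1 : x = i
        · rw [h1, Equiv.swap_apply_left, ← h.h1]
          have h2 := sq 3
          rw [p3] at h2
          exact tr s3 h2
        by_cases h2 : x = i + 1
        · rw [h2, Equiv.swap_apply_right, ← h.h0]
          have h2 := sq 2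
          rw [p2] at h2
          exact tr s2 h2
        rw [Equiv.swap_apply_of_ne_of_ne h1 h2]
        exact rf (kδ_ne h1 h2)
      constructor
      · intro j
        have h2 : ¬ p.m 2 = 3 := by rw [p2]; decide
        simp only [gk, if_neg h2, if_pos p2]
        have h3 := c (Equiv.swap i (i + 1) j)
        rw [Equiv.swap_apply_self] at h3
        exact tr (sy h3) (tr (sE _) (c _))
      · exact fun x => ⟨_, c x⟩
    · -- parallel to the boundary
      have c : ∀ x, M.Str A μ (kδ M δ i q x) (δ x) := by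
        intro x
        by_cases h1 : x = i
        · rw [h1, ← h.h0]
          have h2 := sq 3
          rw [p3] at h2
          exact tr s3 h2
        by_cases h2 : x = i + 1
        · rw [h2, ← h.h1]
          have h2 := sq 2
          rw [p2] at h2
          exact tr s2 h2
        exact rf (kδ_ne h1 h2)
      constructor
      · intro j
        have h2 : ¬ p.m 2 = 3 := by rw [p2]; decide
        have h3 : ¬ p.m 2 = 0 := by rw [p2]; decide
        simp only [gk, if_neg h2, if_neg h3]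
        exact tr (sy (c j)) (tr (sE j) (c _))
      · exact fun x => ⟨x, c x⟩
  obtain ⟨hstr, hk⟩ := key
  have hq : ∀ k, ∃ j, M.Str A μ (q k) (δ j) := by
    intro k
    rcases z4 k with rfl | rfl | rfl | rfl
    · exact ⟨i, rf h.h0⟩
    · exact ⟨i + 1, rf h.h1⟩
    · obtain ⟨j, hj⟩ := hk (i + 1)
      exact ⟨j, tr (sy s2) hj⟩
    · obtain ⟨j, hj⟩ := hk i
      exact ⟨j, tr (sy s3) hj⟩
  have hbd := h.bd'
  refine ⟨hG.loc, hstr, fun d hd => ?_, fun j => ?_, fun d hd => ?_⟩
  · rcases hG.all d hd with ⟨x, hx⟩ | ⟨k, hk'⟩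
    · obtain ⟨j, hj⟩ := hk x
      exact ⟨j, tr hx hj⟩
    · obtain ⟨j, hj⟩ := hq k
      exact ⟨j, tr hk' hj⟩
  · rw [hG.sum]
    show _ = (if j = i then p.u 0 else t.u j) + (if j = i + 1 then p.u 1 else 0) +
      (if j = i - 1 then p.u 3 else 0)
    by_cases h1 : j = i
    · rw [if_pos h1, if_neg (by rw [h1]; exact hi1.symm), if_neg (by rw [h1]; exact (z6_pred i).symm),
        h1, usum_none (B := fun d => A d ∧ ¬ QR q d) fun e he hAe =>
          hAe.2 ⟨0, by rw [h.h0]; exact (h.lone he hAe.1).symm⟩, ← h.h0, hG.bC]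
      omega
    rw [if_neg h1, usum_same (h.node_ne h1).symm, hG.bB, add_assoc]
    congr 1
    by_cases h2 : j = i + 1
    · rw [if_pos h2, if_neg (by rw [h2]; exact (z6_pm i).symm), h2, ← h.h1, hG.bC, add_zero]
    rw [if_neg h2]
    by_cases h3 : j = i - 1
    · rw [if_pos h3, h3, usum_same h.node_d, hG.bC, zero_add]
    rw [if_neg h3, add_zero]
    refine usum_none fun e he hqe => ?_
    obtain ⟨k, rfl⟩ := hqe
    rcases z4 k with rfl | rfl | rfl | rfl
    · rw [h.h0] at he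
      exact h1 (nodes_inj h.bd he)
    · rw [h.h1] at he
      exact h2 (nodes_inj h.bd he)
    · have h4 := (h.node_ne h1).trans (he.trans h.node_c.symm)
      exact h1 (nodes_inj hbd h4)
    · exact h3 (nodes_inj h.bd (he.trans h.node_d.symm))
  · rw [hG.sum]
    by_cases h1 : ∃ k, M.SameNode d (q k)
    · obtain ⟨k, hk'⟩ := h1
      have h2 := h.inner_q hd hk'
      rw [h2] at hk'
      rw [usum_same (hk'.trans h.node_c.symm), hG.bB, usum_same hk', hG.bC]
      exact hu
    · have h2 : ∀ e, M.SameNode d e → ¬ QR q e := by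
        rintro e he ⟨k, rfl⟩
        exact h1 ⟨k, he⟩
      rw [usum_none (B := QR q) h2, add_zero]
      exact hG.iB d fun e he => ⟨hd e he, h2 e he⟩

/-- the state of the rest -/
def restS (i : ZMod 6) (s : PState 6) (p : PState 4) : PState 6 where
  m := s.m
  u j := if j = i then 3 - p.u 2 else if j = i + 1 then s.u j - p.u 1 else
    if j = i - 1 then s.u j - p.u 3 else s.u j

/-- the units of a site -/
theorem usum_q (h : M.CorQ A δ i q) {ω : D → ℕ} (k : ZMod 4) : M.usum (QR q) ω (q k) = ω (q k) := by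
  have h1 : M.nodeIn (QR q) (q k) = {q k} := by
    ext e
    rw [mem_nodeIn, Finset.mem_singleton]
    constructor
    · rintro ⟨h2, j, rfl⟩
      exact (h.legal.node_inj (h.num.same (by decide) k j) h2).symm
    · rintro rfl
      exact ⟨Equiv.Perm.SameCycle.refl _ _, ⟨k, rfl⟩⟩
  unfold usum
  rw [h1, Finset.sum_singleton]

theorem usum_sum (h : M.CorQ A δ i q) (ω : D → ℕ) (d : D) :
    M.usum A ω d = M.usum (QR q) ω d + M.usum (fun e => A e ∧ ¬ QR q e) ω d := by
  rw [usum_split (M := M) (A := A) (B := QR q) ω d]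
  congr 1
  unfold usum
  refine Finset.sum_congr ?_ fun _ _ => rfl
  ext x
  simp only [mem_nodeIn]
  refine and_congr_right fun _ => ⟨fun h1 => h1.2, fun h1 => ⟨?_, h1⟩⟩
  obtain ⟨k, rfl⟩ := h1
  exact h.qA k

/-- **The state of the rest without a corner quad**, if the quad is parallel to the boundary. -/
theorem restr (h : M.CorQ A δ i q) {L : LS D} {s : PState 6} {p : PState 4} {μ : D → D} {ω : D → ℕ}
    (hR : M.RealL L A δ s μ ω) (hst : HasState μ ω q p)
    (hp : p.m 0 = 3 ∧ p.m 3 = 0 ∧ p.m 1 = 2 ∧ p.m 2 = 1)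
    (hμ : ∀ d, A d → μ (μ d) = d ∧ μ d ≠ d ∧ M.SameSite d (μ d))
    (hs' : ∀ k, s.m k ≠ k) :
    M.RealL L (fun d => A d ∧ ¬ QR q d) (kδ M δ i q) (restS i s p) μ ω := by
  obtain ⟨p0, p3, p1, p2⟩ := hp
  have hA := h.bd.site
  have hQs := h.sites
  have hinv : ∀ d, M.al (M.al d) = d := M.inv
  have hQs' : ∀ {d e : D}, M.SameSite d e → ((A d ∧ ¬ QR q d) ↔ (A e ∧ ¬ QR q e)) :=
    fun hde => Sites.same (M := M) hQs hde
  have hp : Pairing M.nx μ fun d => A d ∧ ¬ QR q d := ⟨fun d hd => (hμ d hd.1).1,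
    fun d hd => (hQs' (hμ d hd.1).2.2).1 hd, fun d hd => (hμ d hd.1).2.1,
    fun d hd => (hμ d hd.1).2.2⟩
  have hRH : RestH M A (fun d => A d ∧ ¬ QR q d) μ := ⟨hA, hQs, fun d hd => hd.1,
    fun d hd => (hμ d hd).2.2, hp⟩
  have hbd := h.bd'
  -- the ends of the strands of the rest
  have hout : ∀ j, ¬ (A (M.al (kδ M δ i q j)) ∧ ¬ QR q (M.al (kδ M δ i q j))) := fun j =>
    ((h.mem _).2 ⟨j, rfl⟩).2
  have hin : ∀ j, A (kδ M δ i q j) ∧ ¬ QR q (kδ M δ i q j) := fun j => ((h.mem _).2 ⟨j, rfl⟩).1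
  have hin' : ∀ j, A (M.al (M.al (kδ M δ i q j))) ∧ ¬ QR q (M.al (M.al (kδ M δ i q j))) :=
    fun j => by
      rw [M.inv]
      exact hin j
  have hex : ∀ j, ∃ j', DStrand M.al μ (fun d => A d ∧ ¬ QR q d) (M.al (kδ M δ i q j))
      (M.al (kδ M δ i q j')) := by
    intro j
    obtain ⟨e, he⟩ := exists_dstrand hinv hp (hout j)
    obtain ⟨h1, -⟩ := dstrand_str hp he (hin' j)
    obtain ⟨j', hj'⟩ := (h.mem (M.al e)).1 ⟨h1, by rw [M.inv]; exact he.out⟩
    refine ⟨j', ?_⟩
    rw [hj', M.inv]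
    exact he
  choose ρ hρ using hex
  have hρs : ∀ j, M.Str (fun d => A d ∧ ¬ QR q d) μ (kδ M δ i q j) (kδ M δ i q (ρ j)) := by
    intro j
    have h1 := (dstrand_str hp (hρ j) (hin' j)).2
    rwa [M.inv, M.inv] at h1
  have hal : ∀ {j k}, M.al (kδ M δ i q j) = M.al (kδ M δ i q k) → j = k := fun hjk =>
    h.kinj (M.al_inj hjk)
  have hρρ : ∀ j, ρ (ρ j) = j := fun j =>
    hal ((hρ (ρ j)).unique ((hρ j).rev hinv hp (hout j)))
  -- labels
  let Lb : D → ZMod 6 → Prop := fun x k => x = M.al (kδ M δ i q k) ∨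
    (k = i ∧ (x = q 0 ∨ x = M.al (q 0))) ∨ (k = i + 1 ∧ (x = q 1 ∨ x = M.al (q 1)))
  have e3 : M.al (kδ M δ i q i) = q 3 := by rw [kδ_i, M.inv]
  have e2 : M.al (kδ M δ i q (i + 1)) = q 2 := by rw [kδ_i1, M.inv]
  have hne : ∀ {a b : ZMod 4}, a ≠ b → q a ≠ q b := fun hab hq => hab (h.num.inj hq)
  have hnA0 : ¬ A (M.al (q 0)) := by rw [h.h0]; exact bd_al h.bd i
  have hnA1 : ¬ A (M.al (q 1)) := by rw [h.h1]; exact bd_al h.bd (i + 1)
  have h01 : q 0 ≠ M.al (q 1) := fun h1 => hnA1 (by rw [← h1]; exact h.qA 0)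
  have h10 : q 1 ≠ M.al (q 0) := fun h1 => hnA0 (by rw [← h1]; exact h.qA 1)
  have ha01 : M.al (q 0) ≠ M.al (q 1) := fun h1 => hne (by decide) (M.al_inj h1)
  have hqnot : ∀ (k : ZMod 4) (j : ZMod 6), (k = 0 ∨ k = 1) → q k ≠ M.al (kδ M δ i q j) := by
    intro k j hk hkj
    by_cases h1 : j = i
    · rw [h1, e3] at hkj
      rcases hk with rfl | rfl
      · exact hne (by decide) hkj
      · exact hne (by decide) hkj
    · by_cases h2 : j = i + 1
      · rw [h2, e2] at hkj
        rcases hk with rfl | rfl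
        · exact hne (by decide) hkj
        · exact hne (by decide) hkj
      · rw [kδ_ne h1 h2] at hkj
        exact bd_al h.bd j (by rw [← hkj]; exact h.qA k)
  have hanot : ∀ (k : ZMod 4) (j : ZMod 6), M.al (q k) = M.al (kδ M δ i q j) → False := by
    intro k j hkj
    exact (hin j).2 ⟨k, M.al_inj hkj⟩
  have hLu : ∀ {x j k}, Lb x j → Lb x k → j = k := by
    intro x j k hj hk
    rcases hj with rfl | ⟨rfl, rfl | rfl⟩ | ⟨rfl, rfl | rfl⟩
    · rcases hk with h1 | ⟨-, h1 | h1⟩ | ⟨-, h1 | h1⟩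
      · exact hal h1
      · exact absurd h1.symm (hqnot 0 j (Or.inl rfl))
      · exact (hanot 0 j h1.symm).elim
      · exact absurd h1.symm (hqnot 1 j (Or.inr rfl))
      · exact (hanot 1 j h1.symm).elim
    · rcases hk with h1 | ⟨h2, -⟩ | ⟨-, h1 | h1⟩
      · exact absurd h1 (hqnot 0 k (Or.inl rfl))
      · exact h2.symm
      · exact absurd h1 (hne (by decide))
      · exact absurd h1 h01
    · rcases hk with h1 | ⟨h2, -⟩ | ⟨-, h1 | h1⟩
      · exact (hanot 0 k h1).elim
      · exact h2.symm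
      · exact absurd h1.symm h10
      · exact absurd h1 ha01
    · rcases hk with h1 | ⟨-, h1 | h1⟩ | ⟨h2, -⟩
      · exact absurd h1 (hqnot 1 k (Or.inr rfl))
      · exact absurd h1 (hne (by decide))
      · exact absurd h1 h10
      · exact h2.symm
    · rcases hk with h1 | ⟨-, h1 | h1⟩ | ⟨h2, -⟩
      · exact (hanot 1 k h1).elim
      · exact absurd h1.symm h01
      · exact absurd h1.symm ha01
      · exact h2.symm
  have hstep : ∀ {x y k}, ER M A (fun d => A d ∧ ¬ QR q d) μ x y → Lb x k → Lb y k ∨ Lb y (ρ k) := by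
    rintro x y k ⟨hx, hxy⟩ hk
    rcases hk with rfl | ⟨rfl, rfl | rfl⟩ | ⟨rfl, rfl | rfl⟩
    · rcases hxy with h1 | ⟨h1, rfl⟩
      · exact Or.inr (Or.inl (h1.unique (hρ k)))
      · left
        by_cases h2 : k = i
        · subst h2
          rw [e3, (hst 3).1, p3]
          exact Or.inr (Or.inl ⟨rfl, Or.inl rfl⟩)
        · by_cases h3 : k = i + 1
          · subst h3
            rw [e2, (hst 2).1, p2]
            exact Or.inr (Or.inr ⟨rfl, Or.inl rfl⟩)
          · rw [kδ_ne h2 h3] at h1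
            exact absurd h1 (bd_al h.bd k)
    · left
      rcases hxy with h1 | ⟨h1, rfl⟩
      · have h2 := (dstrand_last (fun h3 => hnA0 h3.1)).1 h1
        exact Or.inr (Or.inl ⟨rfl, Or.inr h2⟩)
      · rw [(hst 0).1, p0, ← e3]
        exact Or.inl rfl
    · left
      rcases hxy with h1 | ⟨h1, rfl⟩
      · have h2 := (dstrand_last (by
          rw [M.inv]
          exact fun h3 => h3.2 ⟨0, rfl⟩)).1 h1
        rw [M.inv] at h2
        exact Or.inr (Or.inl ⟨rfl, Or.inl h2⟩)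
      · exact absurd h1 hnA0
    · left
      rcases hxy with h1 | ⟨h1, rfl⟩
      · have h2 := (dstrand_last (fun h3 => hnA1 h3.1)).1 h1
        exact Or.inr (Or.inr ⟨rfl, Or.inr h2⟩)
      · rw [(hst 1).1, p1, ← e2]
        exact Or.inl rfl
    · left
      rcases hxy with h1 | ⟨h1, rfl⟩
      · have h2 := (dstrand_last (by
          rw [M.inv]
          exact fun h3 => h3.2 ⟨1, rfl⟩)).1 h1
        rw [M.inv] at h2
        exact Or.inr (Or.inr ⟨rfl, Or.inl h2⟩)
      · exact absurd h1 hnA1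
  have hsym : ∀ {x y}, ER M A (fun d => A d ∧ ¬ QR q d) μ x y →
      ER M A (fun d => A d ∧ ¬ QR q d) μ y x := by
    rintro x y ⟨hx, h1 | ⟨h1, rfl⟩⟩
    · exact ⟨h1.out, Or.inl (h1.rev hinv hp hx)⟩
    · have h2 := hμ x h1
      exact ⟨fun h3 => hx ((hQs' h2.2.2).2 h3), Or.inr ⟨(Sites.same (M := M) hA h2.2.2).1 h1,
        h2.1.symm⟩⟩
  have hW : ∀ {x y} (k), Relation.EqvGen (ER M A (fun d => A d ∧ ¬ QR q d) μ) x y →
      ((Lb x k ∨ Lb x (ρ k)) ↔ (Lb y k ∨ Lb y (ρ k))) := by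
    intro x y k hxy
    have one : ∀ {x y}, ER M A (fun d => A d ∧ ¬ QR q d) μ x y → (Lb x k ∨ Lb x (ρ k)) →
        (Lb y k ∨ Lb y (ρ k)) := by
      rintro x y h1 (h2 | h2)
      · exact hstep h1 h2
      · have h3 := hstep h1 h2
        rw [hρρ] at h3
        exact h3.symm
    induction hxy with
    | rel x y h1 => exact ⟨one h1, one (hsym h1)⟩
    | refl x => exact Iff.rfl
    | symm x y _ ih => exact ih.symm
    | trans x y z _ _ ih1 ih2 => exact ih1.trans ih2
  have hGP : ∀ j, ∃ x, GP M (fun d => A d ∧ ¬ QR q d) μ (δ j) x ∧ Lb x j := by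
    intro j
    by_cases h1 : j = i
    · subst h1
      exact ⟨q 0, Or.inl ⟨fun h2 => h2.2 ⟨0, h.h0⟩, h.h0⟩, Or.inr (Or.inl ⟨rfl, Or.inl rfl⟩)⟩
    · by_cases h2 : j = i + 1
      · subst h2
        exact ⟨q 1, Or.inl ⟨fun h2 => h2.2 ⟨1, h.h1⟩, h.h1⟩, Or.inr (Or.inr ⟨rfl, Or.inl rfl⟩)⟩
      · have h3 := kδ_ne (M := M) (δ := δ) (q := q) h1 h2
        refine ⟨M.al (δ j), Or.inr ⟨by rw [← h3]; exact hin j, by rw [← h3]; exact hout j, by
          rw [← h3]; exact hin' j, by rw [M.inv]; exact Str.refl _⟩, Or.inl (by rw [h3])⟩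
  have hall : ∀ d, A d → ∃ z, GP M (fun d => A d ∧ ¬ QR q d) μ d z := by
    intro d hd
    obtain ⟨j, hj⟩ := hR.all d hd
    exact gp_exists hRH hj (bd_al h.bd j)
  have hsρ : ∀ j, s.m j = ρ j := by
    intro j
    obtain ⟨x, hx, hxj⟩ := hGP j
    obtain ⟨y, hy, hyj⟩ := hGP (s.m j)
    have h1 := rest_conn hRH hall (hR.str j) x y hx hy
    rcases (hW j h1).1 (Or.inl hxj) with h2 | h2
    · exact absurd (hLu hyj h2) (hs' j)
    · exact hLu hyj h2
  -- the units
  have hnode2 : ∀ e, M.SameNode (q 2) e → A e := by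
    intro e he
    by_cases h1 : A e ∧ ¬ QR q e
    · exact h1.1
    · rw [h.lone' (h.node_c.trans he) h1]
      exact h.qA 2
  refine ⟨fun d hd => hR.loc d hd.1, fun j => ?_, fun d hd => ?_, fun j => ?_, fun d hd => ?_⟩
  · show M.Str _ μ (kδ M δ i q j) (kδ M δ i q (s.m j))
    rw [hsρ]
    exact hρs j
  · obtain ⟨z, hz⟩ := hall d hd.1
    rcases hz with ⟨h1, -⟩ | ⟨-, h1, h2, h3⟩
    · exact absurd hd h1
    · obtain ⟨j, hj⟩ := (h.mem (M.al z)).1 ⟨h2, by rw [M.inv]; exact h1⟩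
      exact ⟨j, by rw [hj]; exact h3⟩
  · show _ = if j = i then 3 - p.u 2 else if j = i + 1 then s.u j - p.u 1 else
      if j = i - 1 then s.u j - p.u 3 else s.u j
    by_cases h1 : j = i
    · subst h1
      have h2 := h.usum_sum ω (q 2)
      rw [hR.inner (q 2) hnode2, h.usum_q, (hst 2).2] at h2
      rw [if_pos rfl, usum_same h.node_c]
      omega
    · rw [if_neg h1, usum_same (h.node_ne h1)]
      have h2 := h.usum_sum ω (δ j)
      rw [hR.bdry j] at h2
      by_cases h3 : j = i + 1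
      · subst h3
        rw [if_pos rfl]
        have h4 := h.usum_q (ω := ω) 1
        rw [h.h1] at h4
        have h5 := (hst 1).2
        rw [h.h1] at h5
        rw [h4, h5] at h2
        omega
      · rw [if_neg h3]
        by_cases h4 : j = i - 1
        · subst h4
          rw [if_pos rfl]
          have h5 := h.usum_q (ω := ω) 3
          rw [usum_same h.node_d.symm] at h5
          rw [h5, (hst 3).2] at h2
          omega
        · rw [if_neg h4]
          have h5 : M.usum (QR q) ω (δ j) = 0 := by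
            refine usum_none fun e he hqe => ?_
            obtain ⟨k, rfl⟩ := hqe
            rcases z4 k with rfl | rfl | rfl | rfl
            · rw [h.h0] at he
              exact h1 (nodes_inj h.bd he)
            · rw [h.h1] at he
              exact h3 (nodes_inj h.bd he)
            · exact h1 (nodes_inj hbd ((h.node_ne h1).trans (he.trans h.node_c.symm)))
            · exact h4 (nodes_inj h.bd (he.trans h.node_d.symm))
          omega
  · have h1 := h.usum_sum ω d
    rw [hR.inner d fun e he => (hd e he).1, usum_none (B := QR q) fun e he h2 => (hd e he).2 h2] at h1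
    omega

end CorQ

/-- the state of a corner quad with two units at the corner -/
def parP : PState 4 where
  m i := (![3, 2, 1, 0] : Fin 4 → ZMod 4) i
  u i := (![2, 0, 1, 0] : Fin 4 → ℕ) i

/-- the state after the flip -/
def flipP : PState 4 where
  m i := (![1, 0, 3, 2] : Fin 4 → ZMod 4) i
  u i := (![0, 1, 1, 1] : Fin 4 → ℕ) i

/-- the state of the region after the flip at the corner `i` -/
def flipS (i : ZMod 6) (s : PState 6) : PState 6 where
  m j := if j = i then i + 1 else if j = i + 1 then i else if s.m j = i then s.m (i + 1) else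
    if s.m j = i + 1 then s.m i else s.m j
  u j := if j = i then 0 else if j = i + 1 then s.u j + 1 else if j = i - 1 then s.u j + 1 else
    s.u j

theorem flipP_ee : EE 4 flipP := ⟨0, 2, PState.ext' (by decide) (by decide)⟩

theorem flipP_u (k : ZMod 4) : flipP.u k ≤ 1 := by
  revert k
  decide

theorem gk_flip (i : ZMod 6) (s : PState 6) : gk i flipP (CorQ.restS i s parP) = flipS i s := by
  have h2 : flipP.m 2 = 3 := rfl
  refine PState.ext' (fun j => ?_) fun j => ?_
  · simp only [gk, CorQ.restS, flipS, if_pos h2]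
  · have e0 : flipP.u 0 = 0 := rfl
    have e1 : flipP.u 1 = 1 := rfl
    have e3 : flipP.u 3 = 1 := rfl
    have f1 : parP.u 1 = 0 := rfl
    have f3 : parP.u 3 = 0 := rfl
    simp only [gk, CorQ.restS, flipS, e0, e1, e3, f1, f3]
    by_cases h1 : j = i
    · subst h1
      rw [if_pos rfl, if_pos rfl, if_neg (z6_succ j).symm, if_neg (z6_pred j).symm]
    · by_cases h3 : j = i + 1
      · subst h3
        rw [if_neg (z6_succ i), if_neg (z6_succ i), if_neg (z6_succ i), if_pos rfl, if_pos rfl,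
          if_pos rfl, if_neg (z6_pm i).symm]
        rfl
      · by_cases h4 : j = i - 1
        · subst h4
          rw [if_neg (z6_pred i), if_neg (z6_pred i), if_neg (z6_pred i), if_neg (z6_pm i),
            if_neg (z6_pm i), if_neg (z6_pm i), if_pos rfl, if_pos rfl, if_pos rfl]
          rfl
        · rw [if_neg h1, if_neg h1, if_neg h1, if_neg h3, if_neg h3, if_neg h3, if_neg h4,
            if_neg h4, if_neg h4]
          rfl

theorem RealL.union' [Fintype D] {L : LS D} {A B C : D → Prop} {n m : ℕ} {β : ZMod n → D}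
    {γ : ZMod m → D} {sB : PState n} {sC : PState m} {μ₁ μ₂ : D → D} {ω₁ ω₂ : D → ℕ}
    (hB : M.Sites B) (hC : M.Sites C) (hA : ∀ d, A d ↔ B d ∨ C d) (hd : ∀ d, B d → ¬ C d)
    (h1 : M.RealL L B β sB μ₁ ω₁) (h2 : M.RealL L C γ sC μ₂ ω₂) :
    ∃ μ ω, M.Glued L A B C β γ sB sC μ ω ∧ (∀ d, B d → μ d = μ₁ d ∧ ω d = ω₁ d) ∧
      ∀ d, C d → μ d = μ₂ d ∧ ω d = ω₂ d :=
  ⟨_, _, RealL.union hB hC hA hd h1 h2, fun _ h => ⟨if_pos h, if_pos h⟩,
    fun d h => ⟨if_neg fun h' => hd d h' h, if_neg fun h' => hd d h' h⟩⟩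

theorem RealL.site' [Fintype D] (h : M.Legal) {L : LS D} {n : ℕ} (hn : n ≠ 0) {γ : ZMod n → D}
    (hγ : M.SiteNum n γ) {t : PState n} (ht : L n γ t) :
    ∃ μ ω, M.RealL L (M.SameSite (γ 0)) γ t μ ω ∧ HasState μ ω γ t := by
  refine ⟨_, _, RealL.site h hn hγ ht, fun i => ?_⟩
  have h1 : ∃ j, γ j = γ i := ⟨i, rfl⟩
  have h2 : h1.choose = i := hγ.inj h1.choose_spec
  rw [dif_pos h1, dif_pos h1, h2]
  exact ⟨rfl, rfl⟩

/-- **The flip of a corner quad.** -/
theorem CorQ.flip [Fintype D] {A : D → Prop} {δ : ZMod 6 → D} {i : ZMod 6} {q : ZMod 4 → D}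
    (h : M.CorQ A δ i q) {L L₂ : LS D} {s : PState 6} {μ : D → D} {ω : D → ℕ}
    (hR : M.RealL L A δ s μ ω) (hst : HasState μ ω q parP)
    (hμ : ∀ d, A d → μ (μ d) = d ∧ μ d ≠ d ∧ M.SameSite d (μ d))
    (hs : ∀ k, s.m (s.m k) = k) (hs' : ∀ k, s.m k ≠ k) (hloop : s.m i ≠ i + 1)
    (hL : ∀ (n : ℕ) (γ : ZMod n → D) (x : PState n), n ≠ 0 → M.SiteNum n γ →
      (∀ k, A (γ k) ∧ ¬ QR q (γ k)) → L n γ x → L₂ n γ x) (hq : L₂ 4 q flipP) :
    ∃ μ₂ ω₂, M.RealL L₂ A δ (flipS i s) μ₂ ω₂ ∧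
      (∀ d, A d → ¬ QR q d → μ₂ d = μ d ∧ ω₂ d = ω d) ∧ HasState μ₂ ω₂ q flipP ∧
      ∀ d, A d → μ₂ (μ₂ d) = d ∧ μ₂ d ≠ d ∧ M.SameSite d (μ₂ d) := by
  have h1 := (h.restr hR hst (by decide) hμ hs').mono (L' := L₂) h.sites
    fun n γ x hn hγ hγA _ hx => hL n γ x hn hγ hγA hx
  obtain ⟨μ₁, ω₁, h2, h2'⟩ := RealL.site' h.legal (L := L₂) (by decide) h.num hq
  have h2 := h2.congrA (B := QR q) fun d => (h.num.mem_iff (by decide) d).symm
  obtain ⟨μ₂, ω₂, h3, hq2, hq3⟩ := RealL.union' (A := A) h.sites (q_sites h.num) (fun d => by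
    by_cases h1 : QR q d
    · constructor
      · exact fun _ => Or.inr h1
      · obtain ⟨k, rfl⟩ := h1
        exact fun _ => h.qA k
    · constructor
      · exact fun h2 => Or.inl ⟨h2, h1⟩
      · rintro (h2 | h2)
        · exact h2.1
        · exact absurd h2 h1) (fun d h1 => h1.2) h1 h2
  have h4 := h.glueG h3 (by decide) (by decide) hs hs' (fun h5 => hloop h5.2) (by
    show (if i = i then 3 - parP.u 2 else _) + flipP.u 2 = 3
    rw [if_pos rfl]
    rfl)
  rw [gk_flip] at h4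
  have hq1 : HasState μ₂ ω₂ q flipP := fun k => by
    rw [(hq3 (q k) ⟨k, rfl⟩).1, (hq3 (q k) ⟨k, rfl⟩).2]
    exact h2' k
  refine ⟨μ₂, ω₂, h4, fun d h5 h6 => hq2 d ⟨h5, h6⟩, hq1, fun d hd => ?_⟩
  by_cases h5 : QR q d
  · obtain ⟨k, rfl⟩ := h5
    rw [(hq1 k).1, (hq1 _).1]
    have h6 : ∀ k, flipP.m (flipP.m k) = k ∧ flipP.m k ≠ k := by decide
    exact ⟨by rw [(h6 k).1], fun h7 => (h6 k).2 (h.num.inj h7), h.num.same (by decide) _ _⟩
  · obtain ⟨h6, h7, h8⟩ := hμ d hd
    have h9 : A (μ d) := (Sites.same (M := M) h.bd.site h8).1 hd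
    have h10 : ¬ QR q (μ d) := fun h11 => h5 ((Sites.same (M := M) (q_sites h.num) h8).2 h11)
    rw [(hq2 d ⟨hd, h5⟩).1, (hq2 _ ⟨h9, h10⟩).1]
    exact ⟨h6, h7, h8⟩

end DMap

end GT33
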