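import Pool.Agent.GT33.ObjInd
import Pool.Agent.GT33.KRem
import Pool.Agent.GT33.Tab

/-!
# GT33 module KOBJ: regions of objects; objects with a corner quad

`Obj.region_good`: the induction hypothesis for a region `H` of an object.  `real_of_region`: the region realises a
state with the restricted flags.  `kflags F i`: the flags of the rest of an object with a corner quad at `i`;
`CorQ.rz`: states of the rest and of the quad give states of the object.
-/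

open Classical

namespace GT33

namespace DMap

variable {D : Type} {M : DMap D} {Good : (ZMod 6 → Prop) → Prop → Rel → Prop}

/-- the star label of a region -/
def StarR (M : DMap D) (H : D → Prop) (δ₀ : ZMod 6 → D) (B : Boxes D) : Prop :=
  Star M H ∨ ((∃ r, ∀ e, H e ↔ M.SameSite r e) ∧ B.σ δ₀)

/-- a realised state of a region, with the flags of the object -/
theorem real_of_region [Fintype D] {A H : D → Prop} {δ δ₀ : ZMod 6 → D} {B : Boxes D}
    (hO : M.Obj Good A δ B) (hb : M.Bd H 6 δ₀) (hHA : ∀ d, H d → A d) {F G : Flags} (hF : F.Ok)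
    (hG : (M.res δ F δ₀).Le G) {t : PState 6} (h : Rz M H δ₀ B.β G t) :
    ∃ μ ω, M.RealL (M.OL δ B.β F) H δ₀ t μ ω := by
  obtain ⟨μ, ω, hR⟩ := Rz.le hO.anti hb.site hHA hG h
  exact ⟨μ, ω, hR.mono hb.site fun n γ t _ hγ hγH _ hL =>
    OL_of_region hO.patch hb hHA hF hO.anti hγ hγH hL⟩

/-- the induction hypothesis for a region which consists of quads -/
theorem Obj.region_good [Fintype D] {A H : D → Prop} {δ δ₀ : ZMod 6 → D} {B : Boxes D}
    (hO : M.Obj Good A δ B)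
    (hmono : ∀ K σ b b', (∀ F t, F.Ok → b F t → b' F t) → Good K σ b → Good K σ b')
    (IH : IHR Good (Nat.card D))
    (hb : M.Bd H 6 δ₀) (hHA : ∀ d, H d → A d) (hq : ∀ d, H d → M.deg d = 4)
    (h1 : ∃ d, A d ∧ ¬ H d) (h8 : Nat.card {d // H d} ≠ 8) :
    Good (KS M B.κ δ₀) (M.StarR H δ₀ B) (Rz M H δ₀ B.β) := by
  obtain ⟨η, hη, δ₁, hδ₁, hO₁⟩ := hO.inside hb hHA
  have h := contr_isCtr hη
  obtain ⟨x, hx1, hx2⟩ := h1
  have c2 : 10 ≤ Nat.card {d // ¬ H d} := by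
    have h3 := hO.patch.card_root
    have h4 := hO.patch.legal.four_le_card (hO.patch.sites.and (Sites.not (M := M) hb.site))
      ⟨x, hx1, hx2⟩
    have h5 := card_or (B := fun d => ¬ A d) (C := fun d => ¬ H d) fun d hd h => hd (hHA d h)
    have h6 : Nat.card {d // ¬ H d ∧ ¬ ¬ A d} = Nat.card {d // A d ∧ ¬ H d} :=
      Nat.card_congr (Equiv.subtypeEquivRight fun d => by tauto)
    rw [h6] at h5
    omega
  have c3 := card_add' H
  have h2 : Nat.card {d // ¬ ¬ H d} = Nat.card {d // H d} :=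
    Nat.card_congr (Equiv.subtypeEquivRight fun d => not_not)
  have h1 := IH _ _ _ _ _ hO₁ (fun x hx => by rw [h.deg hx]; exact hq _ hx)
    (by rw [card_out]; omega) (by rw [card_out]; omega)
  have e1 : KS (M.contr hη) (B.pull (cemb η)).κ δ₁ = KS M B.κ δ₀ :=
    funext fun j => propext (KS_inside h hb hδ₁ B.κ j)
  have e2 : StarL (M.contr hη) (fun x => H (cemb η x)) δ₁ (B.pull (cemb η)) = M.StarR H δ₀ B := by
    apply propext
    unfold StarL StarR
    refine or_congr (Star_inside h) (and_congr ?_ ?_)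
    · constructor
      · exact single_inside h hb.site
      · rintro ⟨r, hr⟩
        have hr' : H r := (hr r).2 (Equiv.Perm.SameCycle.refl _ _)
        obtain ⟨y, hy⟩ := (h.range r).2 (Or.inl (not_not.2 hr'))
        have hyH : H (cemb η y) := by rw [hy]; exact hr'
        have hs : (M.contr hη).Sites fun e => H (cemb η e) := fun e => not_iff_not.1 (h.site e)
        refine ⟨y, fun e => ⟨fun he => ?_, fun he => (hs.same he).1 hyH⟩⟩
        obtain ⟨γ, hγ, h0, hn⟩ := (M.contr hη).exists_siteNum y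
        have hγH : ∀ i, H (cemb η (γ i)) := fun i => (hs.same (hγ.same hn 0 i)).1 (by rw [h0]; exact hyH)
        obtain ⟨j, hj⟩ := (h.siteNum hγ hγH).mem (i := 0) (d := cemb η e) (by
          rw [h0, hy]; exact (hr _).1 he)
        have h3 := hγ.same hn 0 j
        rw [h0, h.inj hj] at h3
        exact h3
    · have e3 : (fun i => cemb η (δ₁ i)) = δ₀ := funext hδ₁
      show B.σ (fun i => cemb η (δ₁ i)) ↔ B.σ δ₀
      rw [e3]
  rw [e1, e2] at h1
  exact hmono _ _ _ _ (fun F t _ hb => Rz_inside h hδ₁ hb) h1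

/-! ### objects with a corner quad -/

/-- the flags of the rest of an object with a corner quad at the corner `i` -/
def kflags (F : Flags) (i : ZMod 6) : Flags where
  lk j T := j ≠ i ∧ F.lk j T
  le j T := j ≠ i ∧ (j = i + 1 → F.lk j T) ∧ (j ≠ i + 1 → F.le j T)
  ri j T := j ≠ i ∧ (j = i - 1 → F.lk j T) ∧ (j ≠ i - 1 → F.ri j T)
  st j := j ≠ i ∧ j ≠ i + 1 ∧ F.st j

theorem kflags_ok {F : Flags} (hF : F.Ok) (i : ZMod 6) : (kflags F i).Ok where
  le := by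
    rintro j T ⟨h1, h2, h3⟩
    refine ⟨h1, ?_⟩
    by_cases h4 : j = i + 1
    · exact h2 h4
    · exact hF.le _ _ (h3 h4)
  ri := by
    rintro j T ⟨h1, h2, h3⟩
    refine ⟨h1, ?_⟩
    by_cases h4 : j = i - 1
    · exact h2 h4
    · exact hF.ri _ _ (h3 h4)

/-- the demands of a corner quad at the corner `i` -/
structure KDem (F : Flags) (i : ZMod 6) (p : PState 4) : Prop where
  ee : EE 4 p
  d0 : ∀ T, F.le i T → F.ri i T → p.u (sideC T 0) ≤ 1
  d1 : ∀ T, F.le (i + 1) T → p.u (sideC T 1) ≤ 1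
  d3 : ∀ T, F.ri (i - 1) T → p.u (sideC T 3) ≤ 1
  s0 : F.st i → p.u 1 ≤ 1 ∧ p.u 2 ≤ 1
  s1 : F.st (i + 1) → p.u 2 ≤ 1 ∧ p.u 3 ≤ 1

namespace CorQ

variable [Fintype D] {A : D → Prop} {δ : ZMod 6 → D} {i : ZMod 6} {q : ZMod 4 → D}

/-- the inner nodes of the rest -/
theorem node_i (h : M.CorQ A δ i q) (j : ZMod 6) : ¬ M.SameNode (δ j) (kδ M δ i q i) := by
  intro h1
  by_cases h2 : j = i
  · have h3 : A (kδ M δ i q i) ∧ ¬ QR q (kδ M δ i q i) := ((h.mem _).2 ⟨i, rfl⟩).1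
    rw [h2] at h1
    have h4 := h.lone h1 h3.1
    exact h3.2 ⟨0, by rw [h.h0, h4]⟩
  · exact h2 (nodes_inj h.bd' ((h.node_ne h2).trans h1))

theorem res_k (h : M.CorQ A δ i q) (F : Flags) : (M.res δ F (kδ M δ i q)).Le (kflags F i) := by
  have hj : ∀ {j a}, M.SameNode (δ j) (kδ M δ i q a) → a ≠ i ∧ j = a := by
    intro j a h1
    have h2 : a ≠ i := by
      rintro rfl
      exact h.node_i j h1
    exact ⟨h2, nodes_inj h.bd (h1.trans (h.node_ne h2))⟩
  have hin : ∀ a, A (kδ M δ i q a) ∧ ¬ QR q (kδ M δ i q a) := fun a => ((h.mem _).2 ⟨a, rfl⟩).1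
  refine ⟨?_, ?_, ?_, ?_⟩
  · rintro a T ⟨j, h1, h2⟩
    obtain ⟨h3, rfl⟩ := hj h1
    exact ⟨h3, h2⟩
  · rintro a T ⟨j, h1, h2, h2'⟩
    obtain ⟨h3, rfl⟩ := hj h1
    refine ⟨h3, fun h4 => h2' fun h5 => ?_, fun h4 => h2 (kδ_ne h3 h4)⟩
    exact (hin j).2 ⟨1, by rw [h5, h.h1, h4]⟩
  · rintro a T ⟨j, h1, h2, h2'⟩
    obtain ⟨h3, rfl⟩ := hj h1
    refine ⟨h3, fun h4 => h2' fun h5 => ?_, fun h4 => h2 (kδ_ne ?_ ?_)⟩
    · exact (hin (j + 1)).2 ⟨0, by rw [h5, h.h0, h4, sub_add_cancel]⟩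
    · exact fun h5 => h4 (by rw [← h5, add_sub_cancel_right])
    · exact fun h5 => h3 (add_right_cancel h5)
  · rintro a ⟨j, h1, h2⟩
    have h3 : a ≠ i := by
      rintro rfl
      exact h.node_i j (by rw [h1])
    have h4 : a ≠ i + 1 := by
      intro h4
      have h5 := bd_al h.bd j
      rw [← h1, h4, kδ_i1, M.inv] at h5
      exact h5 (h.qA 2)
    rw [kδ_ne h3 h4] at h1
    rw [h.bd.inj h1]
    exact ⟨by rw [← h.bd.inj h1]; exact h3, by rw [← h.bd.inj h1]; exact h4, h2⟩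

theorem qs (h : M.CorQ A δ i q) {F : Flags} {p : PState 4} (hp : KDem F i p) : M.QS δ F q p := by
  have hn : ∀ j k, M.SameNode (δ j) (q k) → (k = 0 ∧ j = i) ∨ (k = 1 ∧ j = i + 1) ∨
      (k = 3 ∧ j = i - 1) := by
    intro j k h1
    rcases z4 k with rfl | rfl | rfl | rfl
    · rw [h.h0] at h1
      exact Or.inl ⟨rfl, nodes_inj h.bd h1⟩
    · rw [h.h1] at h1
      exact Or.inr (Or.inl ⟨rfl, nodes_inj h.bd h1⟩)
    · exact absurd (h1.trans h.node_c.symm) (h.node_i j)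
    · exact Or.inr (Or.inr ⟨rfl, nodes_inj h.bd (h1.trans h.node_d.symm)⟩)
  refine ⟨hp.ee, fun a j T h1 h2 => ?_, fun a j h1 h2 => ?_⟩
  · rcases hn j a h1 with ⟨rfl, rfl⟩ | ⟨rfl, rfl⟩ | ⟨rfl, rfl⟩
    · exact hp.d0 T (h2.2.1 h.h0) (h2.2.2 h.h1)
    · exact hp.d1 T (h2.2.1 h.h1)
    · refine hp.d3 T (h2.2.2 ?_)
      rw [sub_add_cancel]
      exact h.h0
  · rcases hn j a (by rw [h1]) with ⟨rfl, rfl⟩ | ⟨rfl, rfl⟩ | ⟨rfl, rfl⟩
    · exact hp.s0 h2
    · exact hp.s1 h2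
    · exfalso
      have h3 := bd_al h.bd (i - 1)
      have h4 := ((h.mem _).2 ⟨i, rfl⟩).1.1
      rw [kδ_i] at h4
      rw [← h1] at h3
      exact h3 h4

/-- **objects with a corner quad** -/
theorem rz {B : Boxes D} (hO : M.Obj Good A δ B) (h : M.CorQ A δ i q) {F G : Flags} (hF : F.Ok)
    (hG : (kflags F i).Le G) {t : PState 6} {p : PState 4}
    (hR : Rz M (fun d => A d ∧ ¬ QR q d) (kδ M δ i q) B.β G t) (hp : KDem F i p)
    (ht : ∀ k, t.m (t.m k) = k) (ht' : ∀ k, t.m k ≠ k)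
    (hloop : ¬ (p.m 2 = 3 ∧ t.m i = i + 1)) (hu : t.u i + p.u 2 = 3) :
    Rz M A δ B.β F (gk i p t) := by
  obtain ⟨μ, ω, hR⟩ := real_of_region hO h.bd' (fun d hd => hd.1) hF ((h.res_k F).trans hG) hR
  exact h.glue hR (h.qs hp) (fun k => (EE_inv hp.ee k).1) (fun k => (EE_inv hp.ee k).2) ht ht' hloop hu

/-- the induction hypothesis for the rest -/
theorem good {B : Boxes D} (hO : M.Obj Good A δ B) (h : M.CorQ A δ i q)
    (hmono : ∀ K σ b b', (∀ F t, F.Ok → b F t → b' F t) → Good K σ b → Good K σ b')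
    (IH : IHR Good (Nat.card D)) (hq : ∀ d, A d → M.deg d = 4)
    (h12 : Nat.card {d // A d} ≠ 12) :
    Good (KS M B.κ (kδ M δ i q)) (M.StarR (fun d => A d ∧ ¬ QR q d) (kδ M δ i q) B)
      (Rz M (fun d => A d ∧ ¬ QR q d) (kδ M δ i q) B.β) := by
  refine hO.region_good hmono IH h.bd' (fun d hd => hd.1) (fun d hd => hq d hd.1)
    ⟨q 0, h.qA 0, fun h1 => h1.2 ⟨0, rfl⟩⟩ ?_
  intro h8
  apply h12
  rw [card_or (B := QR q) (C := A) (by rintro d ⟨k, rfl⟩; exact h.qA k), card_q h.num, h8]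

omit [Fintype D] in
theorem ks_i (h : M.CorQ A δ i q) (κ : (ZMod 6 → D) → ZMod 6 → Prop) : KS M κ δ i := by
  have h1 : M.nx (q 0) = q 1 := h.num.nx 0
  exact ⟨by rw [← h.h0, h1, h.h1], Or.inl (by rw [← h.h0]; exact h.num.deg 0)⟩

theorem ks_prev (h : M.CorQ A δ i q) (κ : (ZMod 6 → D) → ZMod 6 → Prop) : ¬ KS M κ δ (i - 1) := by
  rintro ⟨h1, -⟩
  have h2 : M.nx (q 3) = q 0 := h.num.nx 3
  rw [sub_add_cancel, ← h.h0, ← h2] at h1
  have h3 := bd_al h.bd (i - 1)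
  have h4 := ((h.mem _).2 ⟨i, rfl⟩).1.1
  rw [kδ_i, ← M.nx.injective h1] at h4
  exact h3 h4

theorem ks_next (h : M.CorQ A δ i q) (κ : (ZMod 6 → D) → ZMod 6 → Prop) : ¬ KS M κ δ (i + 1) := by
  rintro ⟨h1, -⟩
  have h2 : M.nx (q 1) = q 2 := h.num.nx 1
  rw [← h.h1, h2] at h1
  have h3 := bd_al h.bd (i + 1 + 1)
  have h4 := ((h.mem _).2 ⟨i + 1, rfl⟩).1.1
  rw [kδ_i1, h1] at h4
  exact h3 h4

omit [Fintype D] in
theorem ks_ne {κ : (ZMod 6 → D) → ZMod 6 → Prop} {j : ZMod 6} (h1 : j ≠ i) (h2 : j ≠ i + 1)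
    (h3 : j ≠ i - 1) : KS M κ (kδ M δ i q) j ↔ KS M κ δ j := by
  unfold KS
  rw [kδ_ne h1 h2, kδ_ne (M := M) (δ := δ) (q := q) (j := j + 1) (fun h4 => h3 (by
    rw [← h4, add_sub_cancel_right])) fun h4 => h1 (add_right_cancel h4)]

end CorQ

end DMap

end GT33
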