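import Pool.Agent.GT33.PeelG

/-!
# GT33 module SRCH: the state lift for general local states

`Gen.srcH`: the facts about the source and the state lift, for local states with demands at the quads of the folded
corner hexagons.
-/

open Classical

namespace GT33

namespace DMap

variable {D : Type} {M : DMap D} {A : D → Prop} {δ : ZMod 6 → D} {F : D → Prop}

open Patch

namespace Gen

variable [Fintype D] {hG : M.Gen A δ} {hF : Pre M A δ F} {o : D → Bool}
  {ho : ∀ d, o (M.nx d) = !o d} {ho' : ∀ d, o (M.al d) = !o d}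

/-- **The state lift with the facts about the source**, for local states with demands at the quads of the folded
corner hexagons. -/
theorem srcH (htou : ∀ d, A d → M.deg d = 6 → ∃ j e, M.SameSite d e ∧ M.SameNode (δ j) e)
    {L T : ZMod 6 → Bool} (hL : ∀ c, L c = true ↔ lecC M δ F c)
    (hT : ∀ c, T c = true ↔ thrC M δ F c) {L' : LS {d // ¬ FR M F d}}
    {Fl' : Flags} {s' : PState 6} {μ' : {d // ¬ FR M F d} → {d // ¬ FR M F d}}
    {ω' : {d // ¬ FR M F d} → ℕ} {r' : ZMod 6 → ℕ}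
    (hR : (mapF hF ho ho' hG).RealL L' (fun y => A y.1) (hdrF hF ho ho' hG) s' μ' ω')
    (hX : ExF hG hF ho ho' ω' r') (hsu : ∀ k, s'.u k + r' (k + 1) = r' k + 1)
    (hrot : ∀ (n : ℕ) (γ : ZMod n → {d // ¬ FR M F d}) (t : PState n) (c : ZMod n),
      (mapF hF ho ho' hG).SiteNum n γ → A (γ 0).1 → L' n γ t → L' n (fun i => γ (i + c)) (t.rot c))
    (hm : ∀ (n : ℕ) (γ : ZMod n → {d // ¬ FR M F d}) (t : PState n),
      L' n γ t → ∀ i, t.m (t.m i) = i ∧ t.m i ≠ i)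
    (hqs' : ∀ (c : ZMod 6) (x : PState 4), cC M δ F c → L' 4 (fun n => kD hG hF c (l6 n)) x →
      (mapF hF ho ho' hG).QS (hdrF hF ho ho' hG) Fl' (fun n => kD hG hF c (l6 n)) x)
    (hthr : ∀ c, thrC M δ F c → s'.u c ≠ 0) :
    ∃ (t : ZMod 6 → PState 4) (ρ : Pt → Pt), SrcF M δ F Fl' s' L r' t ρ ∧
      ∀ (Lo : LS D) (s : PState 6) (a : ZMod 6 → Bool) (r : ZMod 6 → ℕ) (p q : ℕ)
        (w : ZMod 6 → PState 6), ParF M δ F a r r' p q w t →
        LiftLocF hG hF ho ho' L' Lo a r r' p q w → (∀ k, s.u k + r (k + 1) = r k + 1) →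
        (∀ k, Relation.EqvGen (PStepG L T a ρ fun c => (w c).m) (0, k) (0, s.m k)) →
        (∀ x, up L x = true →
          ∃ k, Relation.EqvGen (PStepG L T a ρ fun c => (w c).m) x (0, k)) →
        ∃ μ ω, M.RealL Lo A δ s μ ω := by
  have hP := hG.mapF_patch hF ho ho'
  have hnoc := fun k (hk : F (δ k)) => hG.mapF_no_corner hF ho ho' hk
  have hcor := fun k => hG.mapF_corner hF ho ho' (k := k)
  -- the states of the folded corner hexagons
  have hkq : ∀ c, ∃ x : PState 4, cC M δ F c → L' 4 (fun n => kD hG hF c (l6 n)) x ∧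
      HasState μ' ω' (fun n => kD hG hF c (l6 n)) x := by
    intro c
    by_cases hc : cC M δ F c
    · obtain ⟨x, h1, h2⟩ := mapF_state hR hrot (kD_num (ho := ho) (ho' := ho') hc) (by
        rw [kD_l6 hc]
        exact (hG.corHex hF hc.1).kA _)
      exact ⟨x, fun _ => ⟨h1, h2⟩⟩
    · exact ⟨lq 1 2, fun h => absurd h hc⟩
  choose t ht using hkq
  have htu : ∀ c, cC M δ F c → ∀ n : ZMod 4, ω' (kD hG hF c (l6 n)) = (t c).u n :=
    fun c hc n => ((ht c hc).2 n).2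
  have htμ : ∀ c, cC M δ F c → ∀ n : ZMod 4, μ' (kD hG hF c (l6 n)) = kD hG hF c (l6 ((t c).m n)) :=
    fun c hc n => ((ht c hc).2 n).1
  have hqs : ∀ c, cC M δ F c →
      (mapF hF ho ho' hG).QS (hdrF hF ho ho' hG) Fl' (fun n => kD hG hF c (l6 n)) (t c) :=
    fun c hc => hqs' c _ hc (ht c hc).1
  have hqE : ∀ c, cC M δ F c → EE 4 (t c) := fun c hc => (hqs c hc).ee
  have hbn : ∀ c, cC M δ F c → (mapF hF ho ho' hG).SiteNum 4 fun n => kD hG hF c (l6 n) :=
    fun c hc => kD_num hc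
  have hb3 : ∀ c, cC M δ F c → kD hG hF c (l6 3) = hdrF hF ho ho' hG (c + 1) := by
    intro c hc
    apply Subtype.ext
    rw [kD_l6 hc, hG.hdr_c hF ho ho' hc]
    rfl
  have hb2 : ∀ c, thrC M δ F c → kD hG hF c (l6 2) = hdrF hF ho ho' hG c := by
    intro c hc
    apply Subtype.ext
    rw [kD_l6 hc.1, hG.hdr_t hF ho ho' hc]
    rfl
  have hb2' : ∀ c, cC M δ F c →
      kD hG hF c (l6 2) = (mapF hF ho ho' hG).nx.symm (hdrF hF ho ho' hG (c + 1)) := by
    intro c hc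
    rw [← hb3 c hc, Equiv.eq_symm_apply]
    exact (hbn c hc).nx 2
  have hb1 : ∀ c, thrC M δ F c →
      kD hG hF c (l6 1) = (mapF hF ho ho' hG).nx.symm (hdrF hF ho ho' hG c) := by
    intro c hc
    rw [← hb2 c hc, Equiv.eq_symm_apply]
    exact (hbn c hc.1).nx 1
  have hu3 : ∀ c, cC M δ F c → (t c).u 3 = r' (c + 1) := fun c hc => by
    rw [← htu c hc 3, hb3 c hc, hX.x1 (c + 1) (hnoc _ hc.2)]
  have hcc : ∀ c, thrC M δ F c →
      (mapF hF ho ho' hG).nx (hdrF hF ho ho' hG c) = hdrF hF ho ho' hG (c + 1) := by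
    intro c hc
    rw [← hb2 c hc, ← hb3 c hc.1]
    exact (hbn c hc.1).nx 2
  have hu2 : ∀ c, thrC M δ F c → (t c).u 2 + r' (c + 1) = r' c + 1 := fun c hc => by
    rw [← htu c hc.1 2, hb2 c hc]
    exact hX.cor c (hcc c hc)
  have hn1 : ∀ c, thrC M δ F c →
      (mapF hF ho ho' hG).nx (hdrF hF ho ho' hG (c - 1)) ≠ hdrF hF ho ho' hG (c - 1 + 1) :=
    fun c hc => hnoc _ (hG.full_first hF hc.2)
  have hu1 : ∀ c, thrC M δ F c → (t c).u 1 + r' c = 1 := fun c hc => by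
    have h1 := hX.x2 (c - 1) (hn1 c hc)
    rw [sub_add_cancel] at h1
    rw [← htu c hc.1 1, hb1 c hc]
    exact h1
  have hlc : ∀ c, lecC M δ F c →
      (mapF hF ho ho' hG).nx (hdrF hF ho ho' hG c) ≠ hdrF hF ho ho' hG (c + 1) := by
    intro c hc h
    rcases ((hcor c).1 h).2 with h1 | h1
    · exact hc.2 h1
    · refine hG.no_adj hF (k := c - 1) (by rw [sub_add_cancel]; exact h1) ?_
      rw [sub_add_cancel]
      exact hc.1.1
  have hu2' : ∀ c, lecC M δ F c → (t c).u 2 + r' (c + 1) = 1 := fun c hc => by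
    rw [← htu c hc.1 2, hb2' c hc.1]
    exact hX.x2 c (hlc c hc)
  have htm : ∀ c, thrC M δ F c → (t c).m 2 = 1 ∧ (t c).m 3 = 0 := by
    intro c hc
    refine thr_m (hqE c hc.1) (hu1 c hc) (hu2 c hc) (hu3 c hc.1) ?_ (hX.le _)
    rintro ⟨h1, h2⟩
    have h3 := hsu c
    exact hthr c hc (by omega)
  have hMu : MuF hG hF ho ho' μ' := by
    refine ⟨fun y hy => (mapF_pair hR hm y hy).1, fun y hy => (mapF_pair hR hm y hy).2.1,
      fun y hy => (mapF_pair hR hm y hy).2.2, fun c hc => ?_, fun c hc => ?_⟩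
    · rw [← hb2 c hc, htμ c hc.1, (htm c hc).1, kD_l6 hc.1]
      rfl
    · rw [← hb3 c hc.1, htμ c hc.1, (htm c hc).2, kD_l6 hc.1]
      rfl
  obtain ⟨ρ, hρ1, hρ2, hρ3, hρ4⟩ := hMu.rho hL (m' := s'.m) (tm := fun c => (t c).m) hR.str hR.all
    fun c hc => htμ c hc.1
  have hpr : ∀ c, (mapF hF ho ho' hG).SameNode (hdrF hF ho ho' hG c)
      ((mapF hF ho ho' hG).nx.symm (hdrF hF ho ho' hG (c + 1))) := fun c => hP.prev_node c
  refine ⟨t, ρ, ⟨hX.le, hsu, hqE, hu3, hu2, hu1, hu2', fun c hc T hT => ?_,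
    fun c hc T hT hT' => ?_, fun c hc T hT => ?_, fun c hc T hT => ?_,
    fun c hc hc' => ?_, fun c hc hc' => ?_, hρ1, hρ2, hρ3⟩,
    fun Lo s a r p q w hPar hLo hsu' hport hall => ?_⟩
  · -- the edge at the node `c + 1`
    refine (hqs c hc).dem 3 (c + 1) T (by rw [hb3 c hc]) ⟨fun h4 => absurd (hb3 c hc) h4,
      fun _ => hT, fun h4 => ?_⟩
    exact absurd (by rw [← h4, ← hb3 c hc]; exact (hbn c hc).nx 3) (hnoc (c + 1) hc.2)
  · refine (hqs c hc.1).dem 2 c T (by rw [hb2 c hc]) ⟨fun h4 => absurd (hb2 c hc) h4,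
      fun _ => hT, fun _ => hT'⟩
  · refine (hqs c hc.1).dem 2 c T (by rw [hb2' c hc.1]; exact hpr c) ⟨fun _ h4 =>
      absurd (hb3 c hc.1) h4, fun h4 => ?_, fun _ => hT⟩
    refine absurd ?_ (hlc c hc)
    rw [← h4, ← hb3 c hc.1]
    exact (hbn c hc.1).nx 2
  · have h1 := hpr (c - 1)
    rw [sub_add_cancel] at h1
    refine (hqs c hc.1).dem 1 (c - 1) T (by rw [hb1 c hc]; exact h1) ⟨fun _ h4 => absurd ?_ h4,
      fun h4 => ?_, fun _ => hT⟩
    · rw [sub_add_cancel]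
      exact hb2 c hc
    · refine absurd ?_ (hn1 c hc)
      rw [← h4, sub_add_cancel, ← hb2 c hc]
      exact (hbn c hc.1).nx 1
  · exact (hqs c hc).st 3 (c + 1) (hb3 c hc) hc'
  · exact (hqs c hc.1).st 2 c (hb2 c hc) hc'
  · exact liftF htou hR hX hrot hm hMu hPar htu hLo hL hT hsu' hρ4 hport hall

end Gen

end DMap

end GT33
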