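import Pool.Agent.GT33.PeelZ
import Pool.Agent.GT33.SrcH

/-!
# GT33 module LOCZ: the local states of the lift with moved units

`Gen.locZ`: the local states of the lift, if the sector across the quad of the through corner hexagon is not in a
folded link of the ring node `c + 1`.  `Gen.locL`: the local states, if it is.
-/

open Classical

namespace GT33

/-- the state of the through corner hexagon after moving the units back -/
def wZ (w : PState 6) : PState 6 where
  m := w.m
  u i := if i = 1 then w.u 1 - 1 else if i = 2 then w.u 2 + 1 else w.u i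

/-- the state of the first link after moving the units -/
def tZ (t : PState 4) : PState 4 where
  m := t.m
  u i := (![t.u 0, t.u 1, 1, 0] : Fin 4 → ℕ) i

namespace DMap

variable {D : Type} {M : DMap D} {A : D → Prop} {δ : ZMod 6 → D} {F : D → Prop}

open Patch

theorem one_val {p : D → Prop} (x y : {d // p d}) : one x.1 y.1 = one x y := by
  unfold one
  by_cases h : y = x
  · rw [if_pos h, if_pos (congrArg Subtype.val h)]
  · rw [if_neg h, if_neg fun h' => h (Subtype.ext h')]

namespace Gen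

variable [Fintype D] {hG : M.Gen A δ} {hF : Pre M A δ F} {o : D → Bool}
  {ho : ∀ d, o (M.nx d) = !o d} {ho' : ∀ d, o (M.al d) = !o d}

section

variable {c : ZMod 6} {L1 : LS {d // ¬ FR M F d}} {Lo : LS D} {a : ZMod 6 → Bool}
  {r r' : ZMod 6 → ℕ} {p q : ℕ} {w : ZMod 6 → PState 6}

/-- the sector across the quad -/
noncomputable abbrev zD (hG : M.Gen A δ) (hF : Pre M A δ F) {o : D → Bool}
    (ho : ∀ d, o (M.nx d) = !o d) (ho' : ∀ d, o (M.al d) = !o d) (c : ZMod 6) :
    {d // ¬ FR M F d} := (mapF hF ho ho' hG).al (kD hG hF c 2)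

/-- the sector before it -/
noncomputable abbrev yD (hG : M.Gen A δ) (hF : Pre M A δ F) {o : D → Bool}
    (ho : ∀ d, o (M.nx d) = !o d) (ho' : ∀ d, o (M.al d) = !o d) (c : ZMod 6) :
    {d // ¬ FR M F d} := (mapF hF ho ho' hG).nx.symm (zD hG hF ho ho' c)

omit [Fintype D] in
theorem fr_one {x : {d // ¬ FR M F d}} {d : D} (hd : FR M F d) : one x.1 d = 0 :=
  one_ne fun h => x.2 (by rw [← h]; exact hd)

/-- darts which are not in the corner hexagon -/
theorem k_one (hG : M.Gen A δ) (hF : Pre M A δ F) (h : cC M δ F c) {d : D}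
    (hd : ¬ M.SameSite (δ (c + 1)) d) (i : ZMod 6) : one (kc M δ c i) d = 0 :=
  one_ne fun h1 => hd (by rw [h1]; exact hG.kc_same hF h.1 i)

theorem kD_one (h : cC M δ F c) {d : {d // ¬ FR M F d}} (hd : ¬ M.SameSite (δ (c + 1)) d.1)
    {i : ZMod 6} (h0 : i ≠ 0) (h1 : i ≠ 1) : one (kD hG hF c i) d = 0 :=
  one_ne fun h2 => hd (by rw [h2, kD_val h h0 h1]; exact hG.kc_same hF h.1 i)

theorem yz_site : M.SameSite (zD hG hF ho ho' c).1 (yD hG hF ho ho' c).1 :=
  (fmap_sameSite (hG.foldSetF hF) ho ho' _ _).1 (site_nx_symm _)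

/-- the sector across the quad is not in the corner hexagon -/
theorem ZPos.zs (hZ : ZPos hG hF ho ho' c) {c' : ZMod 6} (hc : cC M δ F c') :
    ¬ M.SameSite (δ (c' + 1)) (zD hG hF ho ho' c).1 := by
  intro h
  obtain ⟨i, hi⟩ := hG.kc_mem hF hc.1 h
  have h1 := (zD hG hF ho ho' c).2
  rw [← hi] at h1
  have h2 : ∃ n : ZMod 4, i = l6 n := by
    rcases hG.kc_rem hF hc h1 with rfl | rfl | rfl | rfl
    · exact ⟨0, by decide⟩
    · exact ⟨1, by decide⟩
    · exact ⟨2, by decide⟩
    · exact ⟨3, by decide⟩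
  obtain ⟨n, rfl⟩ := h2
  exact hZ.zc hc (n := n) (Subtype.ext (by rw [kD_l6 hc, hi]))

theorem ZPos.ys (hZ : ZPos hG hF ho ho' c) {c' : ZMod 6} (hc : cC M δ F c') :
    ¬ M.SameSite (δ (c' + 1)) (yD hG hF ho ho' c).1 := fun h =>
  hZ.zs hc (h.trans yz_site.symm)

omit [Fintype D] in
/-- a shifted state without special darts -/
theorem lshift_self {L : LS D} {p1 p2 m1 m2 : D} {n : ℕ} {γ : ZMod n → D} {t : PState n}
    (h : L n γ t) (h1 : ∀ i, one m1 (γ i) = 0) (h2 : ∀ i, one m2 (γ i) = 0)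
    (h3 : ∀ i, one p1 (γ i) = 0) (h4 : ∀ i, one p2 (γ i) = 0) : LShift L p1 p2 m1 m2 n γ t :=
  ⟨t, h, rfl, fun i => by rw [h1, h2, h3, h4]⟩

/-- **the local states of the lift**, if the sector across the quad is not in a folded link of the ring node -/
theorem locZ (hZ : ZPos hG hF ho ho' c)
    (hnl : ∀ e, F e → M.SameNode (δ (c + 1)) e → (zD hG hF ho ho' c).1 ≠ M.nx.symm e)
    (B : LiftLocF hG hF ho ho' L1 Lo a r r' p q w) (hwz : Lo 6 (kc M δ c) (wZ (w c)))
    (hw1 : 1 ≤ (w c).u 1) :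
    LiftLocF hG hF ho ho' (LShift L1 (kD hG hF c 5) (yD hG hF ho ho' c) (zD hG hF ho ho' c)
      (kD hG hF c 2)) (LShift Lo (kc M δ c 1) (yD hG hF ho ho' c).1 (zD hG hF ho ho' c).1
      (kc M δ c 2)) a r r' p q w := by
  have hC := hZ.thr.1
  have hP := hG.mapF_patch hF ho ho'
  have hcs : ∀ {d x : D}, M.SameSite (δ (c + 1)) d → M.SameSite d x → M.SameSite (δ (c + 1)) x :=
    fun h1 h2 => h1.trans h2
  refine ⟨fun n γ t hn hγ hA hu ht => ?_, fun e α he hα h0 => ?_,
    fun e α b x he hα h0 hb hbn hx h3 => ?_, fun k α hk hα h0 => ?_,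
    fun k α b x hk hα h0 hb hbn hx h3 h2 => ?_, fun c' hc' => ?_⟩
  · obtain ⟨t0, h1, h2, h3⟩ := ht
    refine ⟨t0, B.inner n γ t0 hn hγ hA hu h1, h2, fun i => ?_⟩
    have h4 : ¬ M.SameSite (δ (c + 1)) (γ i).1 := hu i _ hC.2
    have h5 := h3 i
    rw [kD_one hC h4 (by decide) (by decide), kD_one hC h4 (by decide) (by decide)] at h5
    rw [k_one hG hF hC h4, k_one hG hF hC h4, one_val, one_val]
    omega
  · have hs : ∀ i, M.SameSite e (α i) := fun i => by rw [← h0]; exact hα.same (by decide) 0 i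
    have h4 : ∀ i, FR M F (α i) := fun i => quadF_fr he.1 (by rw [← h0]; exact hα.deg 0) (hs i)
    have h5 : ∀ i, ¬ M.SameSite (δ (c + 1)) (α i) := fun i h =>
      hG.lk_cor hF he (hs i) ⟨c, hC, h⟩
    exact lshift_self (B.lq e α he hα h0) (fun i => fr_one (h4 i))
      (fun i => k_one hG hF hC (h5 i) _)
      (fun i => k_one hG hF hC (h5 i) _) fun i => fr_one (h4 i)
  · obtain ⟨t0, h1, h2, h4⟩ := hx
    have hs : ∀ i, M.SameSite e (α i) := fun i => by rw [← h0]; exact hα.same (by decide) 0 i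
    have h5 : ∀ i, ¬ M.SameSite (δ (c + 1)) (α i) := fun i h =>
      hG.lk_cor hF he (hs i) ⟨c, hC, h⟩
    have h5' : ∀ j, ¬ M.SameSite (δ (c + 1)) (b j).1 := fun j => by rw [hb]; exact h5 _
    have h6 : ∀ j, x.u j + one (zD hG hF ho ho' c) (b j) = t0.u j +
        one (yD hG hF ho ho' c) (b j) := by
      intro j
      have h7 := h4 j
      rw [kD_one hC (h5' j) (by decide) (by decide), kD_one hC (h5' j) (by decide) (by decide)] at h7
      omega
    obtain ⟨j, hj⟩ := (hF.fs e he.1).2.1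
    have hb3 : (b 3).1 = M.nx.symm e := by
      rw [hb, ← (num6 hα h0).2.1]
      rfl
    have hn3 : (mapF hF ho ho' hG).SameNode (hdrF hF ho ho' hG j) (b 3) :=
      hG.mapF_cls hF ho ho' ⟨e, he.1, hj, Or.inr (by rw [hb3])⟩
    have hy3 : one (yD hG hF ho ho' c) (b 3) = 0 := one_ne fun h => hZ.yNot j (by
      rw [h] at hn3; exact hn3)
    have hz3 : one (zD hG hF ho ho' c) (b 3) = 0 := by
      refine one_ne fun h => ?_
      have h7 := hZ.zNode
      rw [show (mapF hF ho ho' hG).al (kD hG hF c 2) = b 3 from h.symm] at h7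
      have h8 := nodes_inj hP.bd (h7.trans hn3.symm)
      rw [← h8] at hj
      exact hnl e he.1 hj (by rw [← hb3, h])
    have h7 := h6 3
    rw [hy3, hz3, h3] at h7
    have h8 := B.lh e α b t0 he hα h0 hb hbn h1 (by omega)
    refine ⟨_, h8, ?_, fun i => ?_⟩
    · funext i
      show (if i = 0 then 1 else if i = 1 then 0 else l6 (x.m (c4 i))) = _
      rw [h2]
      rfl
    · rw [k_one hG hF hC (h5 i), k_one hG hF hC (h5 i)]
      have hαb : ∀ j : ZMod 4, α (l6 j) = (b j).1 := fun j => (hb j).symm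
      by_cases hi0 : i = 0
      · have h9 : FR M F (α i) := by
          rw [hi0, h0]
          exact FoldSet.r0 he.1
        rw [fr_one h9, fr_one h9, hi0]
        rfl
      by_cases hi1 : i = 1
      · have h9 : FR M F (α i) := by
          rw [hi1, (num6 hα h0).1]
          exact FoldSet.r1 he.1
        rw [fr_one h9, fr_one h9, hi1]
        rfl
      have h9 : i = l6 0 ∨ i = l6 1 ∨ i = l6 2 ∨ i = l6 3 := by
        clear h8
        revert i
        decide
      rcases h9 with rfl | rfl | rfl | rfl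
      · rw [hαb, one_val, one_val]
        have := h6 0
        show x.u 0 + _ + 0 = t0.u 0 + 0 + _
        omega
      · rw [hαb, one_val, one_val]
        have := h6 1
        show x.u 1 + _ + 0 = t0.u 1 + 0 + _
        omega
      · rw [hαb, one_val, one_val]
        have := h6 2
        show x.u 2 + _ + 0 = t0.u 2 + 0 + _
        omega
      · rw [hαb, one_val, one_val, hy3, hz3]
        rfl
  · have hs : ∀ i, M.SameSite (δ k) (α i) := fun i => by rw [← h0]; exact hα.same (by decide) 0 i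
    have h4 : ∀ i, FR M F (α i) := fun i => quadF_fr hk.2 (by rw [← h0]; exact hα.deg 0) (hs i)
    have h5 : ∀ i, ¬ M.SameSite (δ (c + 1)) (α i) := fun i h => hG.int_cor hF hk hC (hs i) h
    exact lshift_self (B.sq k α hk hα h0) (fun i => fr_one (h4 i))
      (fun i => k_one hG hF hC (h5 i) _)
      (fun i => k_one hG hF hC (h5 i) _) fun i => fr_one (h4 i)
  · obtain ⟨t0, h1, h2', h4⟩ := hx
    have hs : ∀ i, M.SameSite (δ k) (α i) := fun i => by rw [← h0]; exact hα.same (by decide) 0 i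
    have h5 : ∀ i, ¬ M.SameSite (δ (c + 1)) (α i) := fun i h => hG.int_cor hF hk hC (hs i) h
    have h5' : ∀ j, ¬ M.SameSite (δ (c + 1)) (b j).1 := fun j => by rw [hb]; exact h5 _
    have h6 : ∀ j, x.u j + one (zD hG hF ho ho' c) (b j) = t0.u j +
        one (yD hG hF ho ho' c) (b j) := by
      intro j
      have h7 := h4 j
      rw [kD_one hC (h5' j) (by decide) (by decide), kD_one hC (h5' j) (by decide) (by decide)] at h7
      omega
    have hb3 : b 3 = hdrF hF ho ho' hG k := by
      apply Subtype.ext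
      rw [hb, hG.hdr_int hF ho ho' hk (by rw [← h0, hα.deg 0]; decide), ← (num6 hα h0).2.1]
      rfl
    have hb2 : b 2 = (mapF hF ho ho' hG).nx.symm (hdrF hF ho ho' hG k) := by
      rw [← hb3, Equiv.eq_symm_apply, hbn.nx]
      rfl
    have hn2 : (mapF hF ho ho' hG).SameNode (hdrF hF ho ho' hG (k - 1)) (b 2) := by
      have := hP.prev_node (k - 1)
      rw [sub_add_cancel] at this
      rw [hb2]
      exact this
    have hy3 : one (yD hG hF ho ho' c) (b 3) = 0 := one_ne fun h => by
      refine hZ.yNot k ?_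
      have h9 : (mapF hF ho ho' hG).SameNode (hdrF hF ho ho' hG k) (b 3) := by rw [hb3]
      rw [h] at h9
      exact h9
    have hz3 : one (zD hG hF ho ho' c) (b 3) = 0 := one_ne fun h => hZ.zr k (by
      rw [← hb3, h])
    have hy2 : one (yD hG hF ho ho' c) (b 2) = 0 := one_ne fun h => hZ.yNot (k - 1) (by
      rw [h] at hn2; exact hn2)
    have hz2 : one (zD hG hF ho ho' c) (b 2) = 0 := by
      refine one_ne fun h => ?_
      have h7 := hZ.zNode
      rw [show (mapF hF ho ho' hG).al (kD hG hF c 2) = b 2 from h.symm] at h7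
      have h8 := nodes_inj hP.bd (h7.trans hn2.symm)
      have h9 : k = c + 2 := by
        rw [← sub_add_cancel k 1, ← h8]
        ring
      exact hZ.not (by rw [← h9]; exact hk.2)
    have h7 := h6 3
    have h7' := h6 2
    rw [hy3, hz3] at h7
    rw [hy2, hz2] at h7'
    have h8 := B.sh k α b t0 hk hα h0 hb hbn h1 (by omega) (by omega)
    refine ⟨_, h8, ?_, fun i => ?_⟩
    · show (GT33.sh (a k) (r k) p q x).m = _
      unfold GT33.sh
      rw [h2']
    · rw [k_one hG hF hC (h5 i), k_one hG hF hC (h5 i)]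
      have hαb : ∀ j : ZMod 4, α (l6 j) = (b j).1 := fun j => (hb j).symm
      by_cases hi0 : i = 0
      · have h9 : FR M F (α i) := by
          rw [hi0, h0]
          exact FoldSet.r0 hk.2
        rw [fr_one h9, fr_one h9, hi0]
        rfl
      by_cases hi1 : i = 1
      · have h9 : FR M F (α i) := by
          rw [hi1, (num6 hα h0).1]
          exact FoldSet.r1 hk.2
        rw [fr_one h9, fr_one h9, hi1]
        rfl
      have h9 : i = l6 0 ∨ i = l6 1 ∨ i = l6 2 ∨ i = l6 3 := by
        clear h8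
        revert i
        decide
      rcases h9 with rfl | rfl | rfl | rfl
      · rw [hαb, one_val, one_val]
        have := h6 0
        show x.u 0 + _ + 0 = t0.u 0 + 0 + _
        omega
      · rw [hαb, one_val, one_val]
        have := h6 1
        show x.u 1 + _ + 0 = t0.u 1 + 0 + _
        omega
      · rw [hαb, one_val, one_val, hy2, hz2]
        rfl
      · rw [hαb, one_val, one_val, hy3, hz3]
        rfl
  · have hs := fun i => hG.kc_same hF hc'.1 i
    have h5 : ∀ i, one (zD hG hF ho ho' c).1 (kc M δ c' i) = 0 := fun i =>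
      one_ne fun h => hZ.zs hc' (by rw [← h]; exact hs i)
    have h6 : ∀ i, one (yD hG hF ho ho' c).1 (kc M δ c' i) = 0 := fun i =>
      one_ne fun h => hZ.ys hc' (by rw [← h]; exact hs i)
    by_cases hcc : c' = c
    · subst hcc
      refine ⟨_, hwz, rfl, fun i => ?_⟩
      rw [h5, h6]
      have hinj := (hG.kc_num hF hC.1).inj
      by_cases hi1 : i = 1
      · rw [hi1, one_self, one_ne (fun h => absurd (hinj h) (by decide))]
        show (w c').u 1 + 0 + 0 = (w c').u 1 - 1 + 1 + 0
        omega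
      by_cases hi2 : i = 2
      · rw [hi2, one_self, one_ne (fun h => absurd (hinj h) (by decide))]
        show (w c').u 2 + 0 + 1 = (w c').u 2 + 1 + 0 + 0
        omega
      rw [one_ne (fun h => hi2 (hinj h)), one_ne (fun h => hi1 (hinj h))]
      show _ = (if i = 1 then (w c').u 1 - 1 else if i = 2 then (w c').u 2 + 1 else (w c').u i) + 0 + 0
      rw [if_neg hi1, if_neg hi2]
    · have h7 : ∀ i, ¬ M.SameSite (δ (c + 1)) (kc M δ c' i) := fun i h =>
        hcc (hG.cor_uniq hF hc' hC (hs i) h)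
      exact lshift_self (B.cor c' hc') h5 (fun i => k_one hG hF hC (h7 i) _)
        (fun i => k_one hG hF hC (h7 i) _) h6

omit [Fintype D] in
/-- no special darts -/
theorem lshift_triv {L : LS D} {p1 p2 m1 m2 : D} {n : ℕ} {γ : ZMod n → D} {t : PState n}
    (h : LShift L p1 p2 m1 m2 n γ t) (h1 : ∀ i, one m1 (γ i) = 0) (h2 : ∀ i, one m2 (γ i) = 0)
    (h3 : ∀ i, one p1 (γ i) = 0) (h4 : ∀ i, one p2 (γ i) = 0) : L n γ t := by
  obtain ⟨t0, h5, h6, h7⟩ := h
  have h8 : t = t0 := PState.ext' (fun i => by rw [h6]) fun i => by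
    have := h7 i
    rw [h1, h2, h3, h4] at this
    omega
  rw [h8]
  exact h5

/-- **the local states of the lift**, if the sector across the quad is in a folded link of the ring node -/
theorem locL (hZ : ZPos hG hF ho ho' c) {e₁ : D} (he₁ : F e₁) (hn₁ : M.SameNode (δ (c + 1)) e₁)
    (hz₁ : (zD hG hF ho ho' c).1 = M.nx.symm e₁)
    {μ : {d // ¬ FR M F d} → {d // ¬ FR M F d}} {ω : {d // ¬ FR M F d} → ℕ}
    (hy : ω (yD hG hF ho ho' c) = 1) (B : LiftLocF hG hF ho ho' L1 Lo a r r' p q w)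
    (hlh : ∀ (α : ZMod 6 → D) (b : ZMod 4 → {d // ¬ FR M F d}) (t0 : PState 4),
      LkF M δ F e₁ → M.SiteNum 6 α → α 0 = e₁ → (∀ j, (b j).1 = α (l6 j)) →
      (mapF hF ho ho' hG).SiteNum 4 b → L1 4 b t0 → t0.u 3 = 1 → t0.u 2 = 0 →
      Lo 6 α (lh p q (tZ t0))) :
    LiftLocF hG hF ho ho' (fun n γ x => LShift L1 (kD hG hF c 5) (yD hG hF ho ho' c)
      (zD hG hF ho ho' c) (kD hG hF c 2) n γ x ∧ HasState μ ω γ x) Lo a r r' p q w := by
  have hC := hZ.thr.1
  have hP := hG.mapF_patch hF ho ho'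
  have he₁z : M.SameSite e₁ (zD hG hF ho ho' c).1 := by
    rw [hz₁]
    exact site_nx_symm _
  have hzn : ∀ {d : {d // ¬ FR M F d}}, ¬ M.SameSite e₁ d.1 → one (zD hG hF ho ho' c) d = 0 :=
    fun h => one_ne fun h1 => h (by rw [h1]; exact he₁z)
  have hyn : ∀ {d : {d // ¬ FR M F d}}, ¬ M.SameSite e₁ d.1 → one (yD hG hF ho ho' c) d = 0 :=
    fun h => one_ne fun h1 => h (by rw [h1]; exact he₁z.trans yz_site)
  have hkn : ∀ {d : {d // ¬ FR M F d}}, ¬ M.SameSite (δ (c + 1)) d.1 →
      one (kD hG hF c 2) d = 0 ∧ one (kD hG hF c 5) d = 0 := fun h =>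
    ⟨kD_one hC h (by decide) (by decide), kD_one hC h (by decide) (by decide)⟩
  refine ⟨fun n γ t hn hγ hA hu ht => ?_, B.lq,
    fun e α b x he hα h0 hb hbn hx h3 => ?_, B.sq,
    fun k α b x hk hα h0 hb hbn hx h3 h2 => ?_, B.cor⟩
  · exact B.inner n γ t hn hγ hA hu (lshift_triv ht.1 (fun i => hzn (hu i _ he₁))
      (fun i => (hkn (hu i _ hC.2)).1) (fun i => (hkn (hu i _ hC.2)).2)
      fun i => hyn (hu i _ he₁))
  · have hs : ∀ i, M.SameSite e (α i) := fun i => by rw [← h0]; exact hα.same (by decide) 0 i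
    have h5 : ∀ i, ¬ M.SameSite (δ (c + 1)) (α i) := fun i h =>
      hG.lk_cor hF he (hs i) ⟨c, hC, h⟩
    have h5' : ∀ j, ¬ M.SameSite (δ (c + 1)) (b j).1 := fun j => by rw [hb]; exact h5 _
    by_cases h6 : M.SameSite e e₁
    · have h7 := hG.fs_uniq (hF.fs _ he.1) (hF.fs _ he₁) h6
      subst h7
      obtain ⟨⟨t0, h1, h2, h4⟩, hst⟩ := hx
      have hb3 : b 3 = zD hG hF ho ho' c := by
        apply Subtype.ext
        rw [hz₁, hb, ← (num6 hα h0).2.1]
        rfl
      have hb2 : b 2 = yD hG hF ho ho' c := by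
        rw [yD, ← hb3, Equiv.eq_symm_apply, hbn.nx]
        rfl
      have hinj := hbn.inj
      have e0 := h4 0
      have e1 := h4 1
      have e2 := h4 2
      have e3 := h4 3
      rw [(hkn (h5' _)).1, (hkn (h5' _)).2, ← hb2, ← hb3] at e0 e1 e2 e3
      rw [one_ne fun h => absurd (hinj h) (by decide), one_ne fun h => absurd (hinj h) (by decide)]
        at e0 e1
      rw [one_self, one_ne fun h => absurd (hinj h) (by decide)] at e2 e3
      have h9 : x.u 2 = 1 := by
        rw [← (hst 2).2, hb2, hy]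
      have h10 : x = tZ t0 := PState.ext' (fun i => by rw [h2]; rfl) fun i => by
        have hi : i = 0 ∨ i = 1 ∨ i = 2 ∨ i = 3 := by
          clear hb hst
          revert i
          decide
        rcases hi with rfl | rfl | rfl | rfl
        · show x.u 0 = t0.u 0
          omega
        · show x.u 1 = t0.u 1
          omega
        · exact h9
        · exact h3
      rw [h10]
      exact hlh α b t0 he hα h0 hb hbn h1 (by omega) (by omega)
    · have h7 : ∀ j, ¬ M.SameSite e₁ (b j).1 := fun j h => h6 (by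
        rw [hb] at h
        exact (hs _).trans h.symm)
      exact B.lh e α b x he hα h0 hb hbn (lshift_triv hx.1 (fun i => hzn (h7 i))
        (fun i => (hkn (h5' i)).1) (fun i => (hkn (h5' i)).2) fun i => hyn (h7 i)) h3
  · have hs : ∀ i, M.SameSite (δ k) (α i) := fun i => by rw [← h0]; exact hα.same (by decide) 0 i
    have h5 : ∀ i, ¬ M.SameSite (δ (c + 1)) (α i) := fun i h => hG.int_cor hF hk hC (hs i) h
    have h5' : ∀ j, ¬ M.SameSite (δ (c + 1)) (b j).1 := fun j => by rw [hb]; exact h5 _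
    have h7 : ∀ j, ¬ M.SameSite e₁ (b j).1 := by
      intro j h
      rw [hb] at h
      have h8 := hG.fs_uniq (hF.fs _ hk.2) (hF.fs _ he₁) ((hs _).trans h.symm)
      rw [h8] at hn₁
      have h9 := hG.node_idx hn₁
      refine hZ.zs hC ?_
      rw [hz₁, h8, ← h9]
      exact site_nx_symm _
    exact B.sh k α b x hk hα h0 hb hbn (lshift_triv hx.1 (fun i => hzn (h7 i))
        (fun i => (hkn (h5' i)).1) (fun i => (hkn (h5' i)).2) fun i => hyn (h7 i)) h3 h2

end

end Gen

end DMap

end GT33
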