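import Pool.Agent.GT33.EntD0
import Pool.Agent.GT33.EntD1
import Pool.Agent.GT33.EntD2
import Pool.Agent.GT33.EntD3
import Pool.Agent.GT33.EntD4
import Pool.Agent.GT33.EntD5
import Pool.Agent.GT33.EntD6
import Pool.Agent.GT33.EntD7
import Pool.Agent.GT33.EntD8
import Pool.Agent.GT33.EntDa
import Pool.Agent.GT33.EntDZ

/-!
# GT33 module MAIN: the theorem

`pairs_all`: the 61 pairs of a clause and a set of corner hexagons.  `tree33`: every simple connected plane graph which
stays connected if at most two vertices are removed has a spanning tree of maximum degree at most three whose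
co-tree has maximum degree at most three.
-/

open Classical

namespace GT33

open Chk

/-- the codes of the entries for the clauses -/
def codeL : List (ℕ × List ℕ) := [
  (0, [000000, 100000, 001000, 000100, 000010, 000001, 101000, 100100, 001010, 001001, 000101]),
  (1, [000000, 100000, 001000, 000100, 000010, 000001, 101000, 100100, 001010, 001001, 000101]),
  (2, [000000, 001000, 000010, 000001, 001010, 001001]),
  (3, [000000, 100000, 001000, 000100, 000001, 101000, 001001, 000101]),
  (3, [100100]),
  (4, [000000, 000010, 000001, 100010]),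
  (5, [000000, 100000, 000001]),
  (6, [000000, 100000]),
  (7, [000000, 010000, 000001, 010001]),
  (8, [000000, 000001])]

/-- the remaining pairs -/
def codeZ : List (ℕ × ℕ) := [(0, 100010), (0, 101010), (1, 100010), (1, 101010), (2, 100000),
    (2, 101000), (2, 100010), (2, 101010), (4, 100000)]

theorem codeL_ok : ∀ q ∈ codeL, ∀ k ∈ q.2, PairOK q.1 k := by
  intro q hq
  unfold codeL at hq
  simp only [List.mem_cons, List.not_mem_nil, or_false] at hq
  rcases hq with rfl | rfl | rfl | rfl | rfl | rfl | rfl | rfl | rfl | rfl
  · exact ents0_pairs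
  · exact ents1_pairs
  · exact ents2_pairs
  · exact ents3_pairs
  · exact ents3a_pairs
  · exact ents4_pairs
  · exact ents5_pairs
  · exact ents6_pairs
  · exact ents7_pairs
  · exact ents8_pairs

theorem cover_pairs : (pairs.all fun p =>
    (codeL.any fun q => Nat.beq q.1 p.1 && q.2.any fun k => Nat.beq k p.2) ||
    codeZ.any fun q => Nat.beq q.1 p.1 && Nat.beq q.2 p.2) = true := by decide +kernel

/-- **the 61 pairs** -/
theorem pairs_all : ∀ p ∈ pairs, PairOK p.1 p.2 := by
  rintro ⟨i, k⟩ hp
  have h := cover_pairs
  rw [List.all_eq_true] at h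
  have h3 := h _ hp
  rw [Bool.or_eq_true, List.any_eq_true, List.any_eq_true] at h3
  rcases h3 with ⟨q, hq, h4⟩ | ⟨q, hq, h4⟩
  · rw [Bool.and_eq_true, List.any_eq_true] at h4
    obtain ⟨h5, k', hk', h6⟩ := h4
    have h7 := codeL_ok q hq k' hk'
    rw [Nat.eq_of_beq_eq_true h5, Nat.eq_of_beq_eq_true h6] at h7
    exact h7
  · rw [Bool.and_eq_true] at h4
    have h7 := pairsZ_ok q hq
    rw [Nat.eq_of_beq_eq_true h4.1, Nat.eq_of_beq_eq_true h4.2] at h7
    exact h7

/-- the generic cases of the clauses -/
theorem clG_all : ∀ g ∈ gen0, DMap.ClG tbl g := clG_gen0_of_pairs pairs_all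

/-- the induction step -/
theorem step_all : DMap.StepR (GoodS tbl) := DMap.stepR_tbl clG_all

universe u

/-- **every 3-connected plane graph has a spanning tree of maximum degree at most three whose co-tree has maximum degree
at most three** -/
theorem tree33 {V : Type u} [Finite V] {G : SimpleGraph V} (hG : ThreeConnected G) (R : Rotation G)
    (hR : R.Plane) : HasTree R 3 3 := tree33_of_gen clG_all hG R hR

end GT33
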