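import Pool.Agent.GT33.KObj

/-!
# GT33 module NICEG: nice states are closed under adding a corner quad

`Nice.gk`: if `t` is nice and `p` is a state of a quad then `gk a p t` is nice.
-/

namespace GT33

theorem Nice.gk {t : PState 6} (ht : Nice t) {p : PState 4} (hp : EE 4 p) {a : ZMod 6}
    (h : t.u a + p.u 2 = 3) (hc : ¬ (p.m 2 = 3 ∧ t.m a = a + 1)) : Nice (GT33.gk a p t) := by
  obtain ⟨h1, h2, o, h3, h4⟩ := ht
  have hm : p.m 2 ≠ 0 := by
    obtain ⟨c, k, hck⟩ := hp
    rw [hck]
    clear hck h hc
    revert c k
    decide
  have z6 : ∀ j : ZMod 6, j + 1 ≠ j := by decide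
  have e1 : ∀ x y : ZMod 6, t.m x = y → t.m y = x := fun x y hxy => by rw [← hxy, h1]
  refine ⟨fun j => ?_, fun j => ?_, ?_⟩
  · unfold GT33.gk
    by_cases hp3 : p.m 2 = 3
    · have hne : t.m a ≠ a + 1 := fun h5 => hc ⟨hp3, h5⟩
      have hne' : t.m (a + 1) ≠ a := fun h5 => hne (e1 _ _ h5)
      simp only [hp3, if_true]
      by_cases j1 : j = a
      · subst j1
        simp only [if_true, z6, if_false]
      · by_cases j2 : j = a + 1
        · subst j2
          simp only [if_true, z6, if_false]
        · by_cases j3 : t.m j = a
          · have j3' := e1 _ _ j3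
            have q1 : t.m (a + 1) ≠ a + 1 := h2 _
            simp only [j1, j2, j3, if_false, if_true, hne', q1, h1, z6]
            exact j3'
          · by_cases j4 : t.m j = a + 1
            · have j4' := e1 _ _ j4
              have q1 : t.m a ≠ a := h2 _
              simp only [j1, j2, j4, if_false, if_true, hne, q1, h1, z6]
              exact j4'
            · simp only [j1, j2, j3, j4, if_false, h1]
    · simp only [hp3, hm, if_false]
      exact h1 j
  · unfold GT33.gk
    by_cases hp3 : p.m 2 = 3
    · simp only [hp3, if_true]
      by_cases j1 : j = a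
      · subst j1
        simp only [if_true]
        exact z6 j
      · by_cases j2 : j = a + 1
        · subst j2
          simp only [if_true, z6, if_false]
          exact fun h5 => z6 a h5.symm
        · by_cases j3 : t.m j = a
          · simp only [j1, j2, j3, if_false, if_true]
            intro h5
            have h6 := e1 _ _ h5
            rw [j3] at h6
            exact z6 a h6.symm
          · by_cases j4 : t.m j = a + 1
            · simp only [j1, j2, j4, if_false, if_true, z6]
              intro h5
              have h6 := e1 _ _ h5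
              rw [j4] at h6
              exact z6 a h6
            · simp only [j1, j2, j3, j4, if_false]
              exact h2 j
    · simp only [hp3, hm, if_false]
      exact h2 j
  · -- units
    have hu : ∀ (x y z w : ℕ) , (x = p.u 0 ∧ y = p.u 1 ∧ z = p.u 2 ∧ w = p.u 3) →
        z = 2 ∧ x = 1 ∧ y = 0 ∧ w = 0 ∨ z = 1 ∧ x = 2 ∧ y = 0 ∧ w = 0 ∨
        z = 1 ∧ x = 1 ∧ y = 1 ∧ w = 0 ∨ z = 1 ∧ x = 1 ∧ y = 0 ∧ w = 1 ∨
        z = 1 ∧ x = 0 ∧ y = 1 ∧ w = 1 ∨ z = 0 := by
      rintro x y z w ⟨rfl, rfl, rfl, rfl⟩
      obtain ⟨c, k, hck⟩ := hp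
      rw [hck]
      clear hck h hc hm
      revert c k
      decide
    have hu' := hu _ _ _ _ ⟨rfl, rfl, rfl, rfl⟩
    have ha := h4 a
    have ha1 := h3 a
    have ha2 := h3 (a + 1)
    have hap : ∀ j, (GT33.gk a p t).u j = (if j = a then p.u 0 else t.u j) +
      (if j = a + 1 then p.u 1 else 0) + (if j = a - 1 then p.u 3 else 0) := fun _ => rfl
    -- the new orientation: `x` at `a`, `y` at `a + 1`
    have main : ∀ x y : ℕ, x ≤ 1 → y ≤ 1 → p.u 0 + y = x + 1 →
        p.u 3 + x = o a → p.u 1 + o (a + 1) = y → 
        ∃ o : ZMod 6 → ℕ, (∀ i, o i ≤ 1) ∧ ∀ i, (GT33.gk a p t).u i + o (i + 1) = o i + 1 := by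
      intro x y hx hy e0 e3 e1
      refine ⟨fun j => if j = a then x else if j = a + 1 then y else o j, fun j => ?_, fun j => ?_⟩
      · show (if j = a then x else if j = a + 1 then y else o j) ≤ 1
        split_ifs
        · exact hx
        · exact hy
        · exact h3 j
      · show (GT33.gk a p t).u j + (if j + 1 = a then x else if j + 1 = a + 1 then y else o (j + 1)) =
          (if j = a then x else if j = a + 1 then y else o j) + 1
        rw [hap]
        have g := h4 j
        by_cases j1 : j = a
        · subst j1
          have q1 : ¬ j = j - 1 := fun h5 => z6 (j - 1) (by rw [sub_add_cancel]; exact h5)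
          have q2 : ¬ j = j + 1 := fun h5 => z6 j h5.symm
          have q3 : ¬ j + 1 = j := z6 j
          simp only [if_true, q1, q2, q3, if_false]
          omega
        · by_cases j2 : j = a + 1
          · subst j2
            have q1 : ¬ a + 1 = a - 1 := by
              have : ∀ a : ZMod 6, ¬ a + 1 = a - 1 := by decide
              exact this a
            have q2 : ¬ a + 1 + 1 = a := by
              have : ∀ a : ZMod 6, ¬ a + 1 + 1 = a := by decide
              exact this a
            have q3 : ¬ a + 1 + 1 = a + 1 := z6 _
            have q4 : ¬ a + 1 = a := z6 a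
            simp only [if_true, q1, q2, q3, q4, if_false]
            omega
          · by_cases j3 : j = a - 1
            · subst j3
              have q1 : ¬ a - 1 = a := j1
              have q2 : ¬ a - 1 = a + 1 := j2
              simp only [sub_add_cancel, if_true, q1, q2, if_false]
              rw [sub_add_cancel] at g
              omega
            · have q1 : ¬ j + 1 = a := fun h5 => j3 (by rw [← h5, add_sub_cancel_right])
              have q2 : ¬ j + 1 = a + 1 := fun h5 => j1 (add_right_cancel h5)
              simp only [j1, j2, j3, q1, q2, if_false]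
              omega
    rcases hu' with ⟨z, x, y, w⟩ | ⟨z, x, y, w⟩ | ⟨z, x, y, w⟩ | ⟨z, x, y, w⟩ | ⟨z, x, y, w⟩ | z
    · exact main (o a) (o a) ha1 ha1 (by omega) (by omega) (by omega)
    · exact main (o a) (o (a + 1)) ha1 ha2 (by omega) (by omega) (by omega)
    · exact main 1 1 le_rfl le_rfl (by omega) (by omega) (by omega)
    · exact main 0 0 (by omega) (by omega) (by omega) (by omega) (by omega)
    · exact main 0 1 (by omega) (by omega) (by omega) (by omega) (by omega)
    · omega

end GT33
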