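import Pool.Agent.GT33.Typed
import Pool.Agent.GT33.Exact

/-!
# GT33 module OBJ: mixed patches with abstract boxes

`Flags`: demands at the ring of a hexagon patch.  The type `true` (R) at a corner of a quad: the corner before has
at most one unit, the type `false` (L): the corner after has at most one unit.  `lk j T`: the quads at the ring
node `j` without ring edges; `le j T`: the quad at the ring edge `j` (the dart `δ j`), at the node `j`; `ri j T`:
the quad at the ring edge `j + 1`, at the node `j`; `st j`: the two inner corners of the quad at the ring edge `j`.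

`Boxes D`: every hexagon site carries an abstract box: `β γ F t` means that the box realises the state `t` with
the flags `F`; `κ γ` is its corner set, `σ γ` says that it is a star.

`Obj`: a patch with boxes whose hexagon sites touch the ring.
-/

open Classical

namespace GT33

/-- demands at the ring of a hexagon patch; `true` is the type R, `false` the type L -/
@[ext]
structure Flags where
  /-- the quads at the ring node without ring edges -/
  lk : ZMod 6 → Bool → Prop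
  /-- the quad at the ring edge `j`, at the node `j` -/
  le : ZMod 6 → Bool → Prop
  /-- the quad at the ring edge `j + 1`, at the node `j` -/
  ri : ZMod 6 → Bool → Prop
  /-- the inner corners of the quad at the ring edge `j` -/
  st : ZMod 6 → Prop

namespace Flags

/-- fewer demands -/
structure Le (F G : Flags) : Prop where
  lk : ∀ j T, F.lk j T → G.lk j T
  le : ∀ j T, F.le j T → G.le j T
  ri : ∀ j T, F.ri j T → G.ri j T
  st : ∀ j, F.st j → G.st j

/-- the demands at the ring edges are demands at the node -/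
structure Ok (F : Flags) : Prop where
  le : ∀ j T, F.le j T → F.lk j T
  ri : ∀ j T, F.ri j T → F.lk j T

/-- rotated flags -/
def rot (F : Flags) (c : ZMod 6) : Flags where
  lk j := F.lk (j + c)
  le j := F.le (j + c)
  ri j := F.ri (j + c)
  st j := F.st (j + c)

theorem Le.refl (F : Flags) : F.Le F := ⟨fun _ _ h => h, fun _ _ h => h, fun _ _ h => h, fun _ h => h⟩

theorem Le.trans {F G H : Flags} (h : F.Le G) (h' : G.Le H) : F.Le H :=
  ⟨fun j T x => h'.lk j T (h.lk j T x), fun j T x => h'.le j T (h.le j T x),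
    fun j T x => h'.ri j T (h.ri j T x), fun j x => h'.st j (h.st j x)⟩

theorem Ok.rot {F : Flags} (h : F.Ok) (c : ZMod 6) : (F.rot c).Ok :=
  ⟨fun _ _ x => h.le _ _ x, fun _ _ x => h.ri _ _ x⟩

end Flags

/-- what a hexagon patch realises -/
abbrev Rel := Flags → PState 6 → Prop

/-- states of a hexagon whose units are one at each corner, moved along the edges -/
structure Nice (t : PState 6) : Prop where
  mm : ∀ k, t.m (t.m k) = k
  mne : ∀ k, t.m k ≠ k
  u : ∃ o : ZMod 6 → ℕ, (∀ i, o i ≤ 1) ∧ ∀ i, t.u i + o (i + 1) = o i + 1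

theorem Nice.rot {t : PState 6} (h : Nice t) (c : ZMod 6) : Nice (t.rot c) := by
  obtain ⟨h1, h2, o, h3, h4⟩ := h
  refine ⟨fun k => ?_, fun k h => ?_, fun i => o (i + c), fun i => h3 _, fun i => ?_⟩
  · show t.m (t.m (k + c) - c + c) - c = k
    rw [sub_add_cancel, h1, add_sub_cancel_right]
  · have h5 : t.m (k + c) - c = k := h
    exact h2 (k + c) (sub_eq_iff_eq_add.1 h5)
  · have e : i + 1 + c = i + c + 1 := by ring
    show t.u (i + c) + o (i + 1 + c) = o (i + c) + 1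
    rw [e]
    exact h4 _

/-- boxes at the hexagon sites -/
structure Boxes (D : Type) where
  /-- the states which the box realises -/
  β : (ZMod 6 → D) → Rel
  /-- the corner set of the box -/
  κ : (ZMod 6 → D) → ZMod 6 → Prop
  /-- the box is a star -/
  σ : (ZMod 6 → D) → Prop

namespace DMap

variable {D : Type} {M : DMap D}

/-- the demand of type `T` for the corner `a` of a quad at the ring node `j` -/
def Dem (F : Flags) (δ : ZMod 6 → D) {n : ℕ} (γ : ZMod n → D) (a : ZMod n) (j : ZMod 6)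
    (T : Bool) : Prop :=
  (γ a ≠ δ j → γ (a + 1) ≠ δ (j + 1) → F.lk j T) ∧ (γ a = δ j → F.le j T) ∧
    (γ (a + 1) = δ (j + 1) → F.ri j T)

/-- the corner which has at most one unit -/
def sideC {n : ℕ} (T : Bool) (a : ZMod n) : ZMod n := if T then a - 1 else a + 1

/-- the flags of a box -/
def res (M : DMap D) (δ : ZMod 6 → D) (F : Flags) (γ : ZMod 6 → D) : Flags where
  lk a T := ∃ j, M.SameNode (δ j) (γ a) ∧ F.lk j T
  le a T := ∃ j, M.SameNode (δ j) (γ a) ∧ (γ a = δ j → F.le j T) ∧ (γ a ≠ δ j → F.lk j T)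
  ri a T := ∃ j, M.SameNode (δ j) (γ a) ∧ (γ (a + 1) = δ (j + 1) → F.ri j T) ∧
    (γ (a + 1) ≠ δ (j + 1) → F.lk j T)
  st a := ∃ j, γ a = δ j ∧ F.st j

/-- the local states of quads -/
structure QS (M : DMap D) (δ : ZMod 6 → D) (F : Flags) (γ : ZMod 4 → D) (t : PState 4) : Prop where
  ee : EE 4 t
  dem : ∀ a j T, M.SameNode (δ j) (γ a) → Dem F δ γ a j T → t.u (sideC T a) ≤ 1
  st : ∀ a j, γ a = δ j → F.st j → t.u (a + 1) ≤ 1 ∧ t.u (a + 2) ≤ 1

/-- the local states of a patch with boxes and flags -/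
def OL (M : DMap D) (δ : ZMod 6 → D) (β : (ZMod 6 → D) → Rel) (F : Flags) : LS D
  | 4, γ, t => M.QS δ F γ t
  | 6, γ, t => β γ (M.res δ F γ) t
  | _, _, _ => False

theorem OL_n {δ : ZMod 6 → D} {β : (ZMod 6 → D) → Rel} {F : Flags} {n : ℕ} {γ : ZMod n → D}
    {t : PState n} (h : M.OL δ β F n γ t) : n = 4 ∨ n = 6 := by
  unfold OL at h
  split at h
  · exact Or.inl rfl
  · exact Or.inr rfl
  · exact h.elim

theorem res_ok {δ : ZMod 6 → D} {F : Flags} (h : F.Ok) (γ : ZMod 6 → D) : (M.res δ F γ).Ok where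
  le := by
    rintro a T ⟨j, h1, h2, h3⟩
    refine ⟨j, h1, ?_⟩
    by_cases h4 : γ a = δ j
    · exact h.le j T (h2 h4)
    · exact h3 h4
  ri := by
    rintro a T ⟨j, h1, h2, h3⟩
    refine ⟨j, h1, ?_⟩
    by_cases h4 : γ (a + 1) = δ (j + 1)
    · exact h.ri j T (h2 h4)
    · exact h3 h4

theorem res_rot (δ : ZMod 6 → D) (F : Flags) (γ : ZMod 6 → D) (c : ZMod 6) :
    M.res δ F (fun i => γ (i + c)) = (M.res δ F γ).rot c := by
  have e : ∀ a : ZMod 6, a + 1 + c = a + c + 1 := fun a => by ring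
  unfold res Flags.rot
  simp only [e]

theorem res_le {δ : ZMod 6 → D} {F G : Flags} (h : F.Le G) (γ : ZMod 6 → D) :
    (M.res δ F γ).Le (M.res δ G γ) where
  lk := fun _ _ ⟨j, h1, h2⟩ => ⟨j, h1, h.lk _ _ h2⟩
  le := fun _ _ ⟨j, h1, h2, h3⟩ => ⟨j, h1, fun h4 => h.le _ _ (h2 h4), fun h4 => h.lk _ _ (h3 h4)⟩
  ri := fun _ _ ⟨j, h1, h2, h3⟩ => ⟨j, h1, fun h4 => h.ri _ _ (h2 h4), fun h4 => h.lk _ _ (h3 h4)⟩
  st := fun _ ⟨j, h1, h2⟩ => ⟨j, h1, h.st _ h2⟩

theorem Dem.le {F G : Flags} (h : F.Le G) {δ : ZMod 6 → D} {n : ℕ} {γ : ZMod n → D} {a : ZMod n}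
    {j : ZMod 6} {T : Bool} (hd : Dem F δ γ a j T) : Dem G δ γ a j T :=
  ⟨fun h1 h2 => h.lk _ _ (hd.1 h1 h2), fun h1 => h.le _ _ (hd.2.1 h1), fun h1 => h.ri _ _ (hd.2.2 h1)⟩

theorem QS.le {δ : ZMod 6 → D} {F G : Flags} (h : F.Le G) {γ : ZMod 4 → D} {t : PState 4}
    (hq : M.QS δ G γ t) : M.QS δ F γ t :=
  ⟨hq.ee, fun a j T h1 h2 => hq.dem a j T h1 (h2.le h), fun a j h1 h2 => hq.st a j h1 (h.st _ h2)⟩

/-! ### transport to contracted maps -/

section

variable {D' : Type} {M' : DMap D'} {ι : D' → D}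

theorem res_map (hinj : Function.Injective ι) (hn : ∀ x y, M'.SameNode x y ↔ M.SameNode (ι x) (ι y))
    {δ : ZMod 6 → D} {δ' : ZMod 6 → D'} (hδ : ∀ i, ι (δ' i) = δ i) (F : Flags) (γ : ZMod 6 → D') :
    M.res δ F (fun i => ι (γ i)) = M'.res δ' F γ := by
  have h1 : ∀ x j, ι x = δ j ↔ x = δ' j := fun x j => by rw [← hδ]; exact hinj.eq_iff
  unfold res
  simp only [hn, hδ, h1, ne_eq]

theorem QS_map (hinj : Function.Injective ι) (hn : ∀ x y, M'.SameNode x y ↔ M.SameNode (ι x) (ι y))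
    {δ : ZMod 6 → D} {δ' : ZMod 6 → D'} (hδ : ∀ i, ι (δ' i) = δ i) {F : Flags} {γ : ZMod 4 → D'}
    {t : PState 4} (h : M'.QS δ' F γ t) : M.QS δ F (fun i => ι (γ i)) t := by
  have h1 : ∀ x j, ι x = δ j ↔ x = δ' j := fun x j => by rw [← hδ]; exact hinj.eq_iff
  refine ⟨h.ee, fun a j T h2 h3 => h.dem a j T ?_ ?_, fun a j h2 h3 => h.st a j ((h1 _ _).1 h2) h3⟩
  · rw [hn, hδ]
    exact h2
  · unfold Dem at h3 ⊢
    simp only [h1, ne_eq] at h3 ⊢
    exact h3

theorem OL_map (hinj : Function.Injective ι) (hn : ∀ x y, M'.SameNode x y ↔ M.SameNode (ι x) (ι y))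
    {δ : ZMod 6 → D} {δ' : ZMod 6 → D'} (hδ : ∀ i, ι (δ' i) = δ i) {F : Flags}
    {β : (ZMod 6 → D) → Rel} {β' : (ZMod 6 → D') → Rel} {n : ℕ} {γ : ZMod n → D'} {t : PState n}
    (hβ : ∀ η : ZMod 6 → D', (∀ i, ∃ k, η i = γ k) → ∀ G r, β' η G r → β (fun i => ι (η i)) G r)
    (h : M'.OL δ' β' F n γ t) : M.OL δ β F n (fun i => ι (γ i)) t := by
  rcases OL_n h with rfl | rfl
  · exact QS_map hinj hn hδ h
  · show β (fun i => ι (γ i)) (M.res δ F fun i => ι (γ i)) t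
    rw [res_map hinj hn hδ]
    exact hβ γ (fun i => ⟨i, rfl⟩) _ _ h

end

/-! ### regions -/

/-- the corner set of a region with the boundary numbering `δ` -/
def KS (M : DMap D) (κ : (ZMod 6 → D) → ZMod 6 → Prop) (δ : ZMod 6 → D) (j : ZMod 6) : Prop :=
  M.nx (δ j) = δ (j + 1) ∧
    (M.deg (δ j) = 4 ∨ ∃ γ a, M.SiteNum 6 γ ∧ γ a = δ j ∧ κ γ a)

/-- the region is a star: three quads -/
def Star (M : DMap D) (A : D → Prop) : Prop :=
  Nat.card {d // A d} = 12 ∧ ∀ d, A d → M.deg d = 4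

/-- the flags `F` are realised with the state `s` -/
def Rz [Fintype D] (M : DMap D) (A : D → Prop) (δ : ZMod 6 → D) (β : (ZMod 6 → D) → Rel) : Rel :=
  fun F s => ∃ μ ω, M.RealL (M.OL δ β F) A δ s μ ω

/-- mixed patches with boxes -/
structure Obj (Good : (ZMod 6 → Prop) → Prop → Rel → Prop) (M : DMap D) (A : D → Prop)
    (δ : ZMod 6 → D) (B : Boxes D) : Prop where
  patch : M.Patch A δ
  touch : ∀ d, A d → M.deg d = 6 → ∃ j e, M.SameSite d e ∧ M.SameNode (δ j) e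
  anti : ∀ γ F G t, M.SiteNum 6 γ → A (γ 0) → F.Le G → B.β γ G t → B.β γ F t
  rot : ∀ γ F t c, M.SiteNum 6 γ → A (γ 0) → B.β γ F t →
    B.β (fun i => γ (i + c)) (F.rot c) (t.rot c)
  krot : ∀ γ a c, M.SiteNum 6 γ → A (γ 0) → (B.κ (fun i => γ (i + c)) a ↔ B.κ γ (a + c))
  good : ∀ γ, M.SiteNum 6 γ → A (γ 0) → Good (B.κ γ) (B.σ γ) (B.β γ)
  nice : ∀ γ F t, M.SiteNum 6 γ → A (γ 0) → B.β γ F t → Nice t

section region

variable [Fintype D] {A H : D → Prop} {δ δ₀ : ZMod 6 → D}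

/-- ring nodes of the patch which meet a region are ring nodes of the region -/
theorem ring_of_region (hP : M.Patch A δ) (hb : M.Bd H 6 δ₀) (hHA : ∀ d, H d → A d) {j : ZMod 6}
    {d : D} (hn : M.SameNode (δ j) d) (hd : H d) : ∃ k, M.SameNode (δ₀ k) d := by
  have h1 : ¬ H (M.al (δ (j + 1))) := fun h => hP.notA _ (hHA _ h)
  obtain ⟨z, h2, h3, h4⟩ := exists_leaving (M := M) hb.site (hn.symm.trans (hP.root_node j)) hd h1
  obtain ⟨k, rfl⟩ := (hb.mem z).1 ⟨h3, h4⟩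
  exact ⟨k, h2.symm⟩

omit [Fintype D] in
/-- ring darts of the patch inside a region are ring darts of the region -/
theorem dart_of_region (hP : M.Patch A δ) (hb : M.Bd H 6 δ₀) (hHA : ∀ d, H d → A d) {j : ZMod 6}
    (hd : H (δ j)) : ∃ k, δ₀ k = δ j :=
  (hb.mem _).1 ⟨hd, fun h => hP.notA _ (hHA _ h)⟩

theorem bd_prev (hb : M.Bd H 6 δ₀) (k : ZMod 6) : M.SameNode (δ₀ k) (M.nx.symm (δ₀ (k + 1))) :=
  (sameNode_iff.2 (hb.step k)).trans (Patch.nx_symm_node _)

/-- the demands of a region imply the demands of the patch, for quads -/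
theorem QS_of_region (hP : M.Patch A δ) (hb : M.Bd H 6 δ₀) (hHA : ∀ d, H d → A d) {F : Flags}
    (hF : F.Ok) {γ : ZMod 4 → D} (hγ : M.SiteNum 4 γ) (hγH : ∀ i, H (γ i)) {t : PState 4}
    (h : M.QS δ₀ (M.res δ F δ₀) γ t) : M.QS δ F γ t := by
  refine ⟨h.ee, fun a j T h1 h2 => ?_, fun a j h1 h2 => ?_⟩
  · obtain ⟨k, hk⟩ := ring_of_region hP hb hHA h1 (hγH a)
    have hjk : M.SameNode (δ j) (δ₀ k) := h1.trans hk.symm
    refine h.dem a k T hk ⟨fun h3 h4 => ?_, fun h3 => ?_, fun h3 => ?_⟩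
    · refine ⟨j, hjk, h2.1 (fun h5 => h3 ?_) fun h5 => h4 ?_⟩
      · obtain ⟨l, hl⟩ := dart_of_region hP hb hHA (j := j) (by rw [← h5]; exact hγH a)
        have : k = l := nodes_inj hb (by rw [hl, ← h5]; exact hk)
        rw [h5, ← hl, this]
      · obtain ⟨l, hl⟩ := dart_of_region hP hb hHA (j := j + 1) (by rw [← h5]; exact hγH _)
        have h6 : M.SameNode (δ₀ (l - 1)) (γ a) := by
          have h7 := bd_prev hb (l - 1)
          have h8 : M.nx.symm (γ (a + 1)) = γ a := by rw [← hγ.nx, Equiv.symm_apply_apply]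
          rw [sub_add_cancel, hl, ← h5, h8] at h7
          exact h7
        have : k = l - 1 := nodes_inj hb (hk.trans h6.symm)
        rw [h5, ← hl, this, sub_add_cancel]
    · refine ⟨j, hjk, fun h4 => h2.2.1 (h3.trans h4), fun h4 => ?_⟩
      by_cases h5 : γ (a + 1) = δ (j + 1)
      · exact hF.ri _ _ (h2.2.2 h5)
      · exact h2.1 (fun h6 => h4 (h3.symm.trans h6)) h5
    · refine ⟨j, hjk, fun h4 => h2.2.2 (h3.trans h4), fun h4 => ?_⟩
      by_cases h5 : γ a = δ j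
      · exact hF.le _ _ (h2.2.1 h5)
      · exact h2.1 h5 fun h6 => h4 (h3.symm.trans h6)
  · obtain ⟨l, hl⟩ := dart_of_region hP hb hHA (j := j) (by rw [← h1]; exact hγH a)
    exact h.st a l (h1.trans hl.symm) ⟨j, hl, h2⟩

/-- the demands of a region imply the demands of the patch, for boxes -/
theorem res_of_region (hP : M.Patch A δ) (hb : M.Bd H 6 δ₀) (hHA : ∀ d, H d → A d) {F : Flags}
    {γ : ZMod 6 → D} (hγ : M.SiteNum 6 γ) (hγH : ∀ i, H (γ i)) :
    (M.res δ F γ).Le (M.res δ₀ (M.res δ F δ₀) γ) where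
  lk := by
    rintro a T ⟨j, h1, h2⟩
    obtain ⟨k, hk⟩ := ring_of_region hP hb hHA h1 (hγH a)
    exact ⟨k, hk, j, h1.trans hk.symm, h2⟩
  le := by
    rintro a T ⟨j, h1, h2, h3⟩
    obtain ⟨k, hk⟩ := ring_of_region hP hb hHA h1 (hγH a)
    have hjk : M.SameNode (δ j) (δ₀ k) := h1.trans hk.symm
    refine ⟨k, hk, fun h4 => ⟨j, hjk, fun h5 => h2 (h4.trans h5), fun h5 =>
      h3 fun h6 => h5 (h4.symm.trans h6)⟩, fun h4 => ⟨j, hjk, h3 fun h5 => h4 ?_⟩⟩
    obtain ⟨l, hl⟩ := dart_of_region hP hb hHA (j := j) (by rw [← h5]; exact hγH a)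
    have : k = l := nodes_inj hb (by rw [hl, ← h5]; exact hk)
    rw [h5, ← hl, this]
  ri := by
    rintro a T ⟨j, h1, h2, h3⟩
    obtain ⟨k, hk⟩ := ring_of_region hP hb hHA h1 (hγH a)
    have hjk : M.SameNode (δ j) (δ₀ k) := h1.trans hk.symm
    refine ⟨k, hk, fun h4 => ⟨j, hjk, fun h5 => h2 (h4.trans h5), fun h5 =>
      h3 fun h6 => h5 (h4.symm.trans h6)⟩, fun h4 => ⟨j, hjk, h3 fun h5 => h4 ?_⟩⟩
    obtain ⟨l, hl⟩ := dart_of_region hP hb hHA (j := j + 1) (by rw [← h5]; exact hγH _)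
    have h6 : M.SameNode (δ₀ (l - 1)) (γ a) := by
      have h7 := bd_prev hb (l - 1)
      have h8 : M.nx.symm (γ (a + 1)) = γ a := by rw [← hγ.nx, Equiv.symm_apply_apply]
      rw [sub_add_cancel, hl, ← h5, h8] at h7
      exact h7
    have : k = l - 1 := nodes_inj hb (hk.trans h6.symm)
    rw [h5, ← hl, this, sub_add_cancel]
  st := by
    rintro a ⟨j, h1, h2⟩
    obtain ⟨l, hl⟩ := dart_of_region hP hb hHA (j := j) (by rw [← h1]; exact hγH a)
    exact ⟨l, h1.trans hl.symm, j, hl, h2⟩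

theorem OL_of_region (hP : M.Patch A δ) (hb : M.Bd H 6 δ₀) (hHA : ∀ d, H d → A d) {F : Flags}
    (hF : F.Ok) {β : (ZMod 6 → D) → Rel}
    (anti : ∀ γ F G t, M.SiteNum 6 γ → A (γ 0) → F.Le G → β γ G t → β γ F t)
    {n : ℕ} {γ : ZMod n → D} (hγ : M.SiteNum n γ) (hγH : ∀ i, H (γ i)) {t : PState n}
    (h : M.OL δ₀ β (M.res δ F δ₀) n γ t) : M.OL δ β F n γ t := by
  rcases OL_n h with rfl | rfl
  · exact QS_of_region hP hb hHA hF hγ hγH h
  · exact anti γ _ _ t hγ (hHA _ (hγH 0)) (res_of_region hP hb hHA hγ hγH) h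

end region

/-! ### monotonicity and rotations -/

theorem OL_le {δ : ZMod 6 → D} {A : D → Prop} {β : (ZMod 6 → D) → Rel}
    (anti : ∀ γ F G t, M.SiteNum 6 γ → A (γ 0) → F.Le G → β γ G t → β γ F t) {F G : Flags}
    (hFG : F.Le G) {n : ℕ} {γ : ZMod n → D} (hγ : M.SiteNum n γ) (hγA : ∀ i, A (γ i)) {t : PState n}
    (h : M.OL δ β G n γ t) : M.OL δ β F n γ t := by
  rcases OL_n h with rfl | rfl
  · exact QS.le hFG h
  · exact anti γ _ _ t hγ (hγA 0) (res_le hFG γ) h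

theorem res_rotδ (δ : ZMod 6 → D) (F : Flags) (γ : ZMod 6 → D) (c : ZMod 6) :
    M.res (fun i => δ (i + c)) (F.rot c) γ = M.res δ F γ := by
  have e : ∀ a : ZMod 6, a + 1 + c = a + c + 1 := fun a => by ring
  have key : ∀ P : ZMod 6 → Prop, (∃ j, P (j + c)) ↔ ∃ j, P j := fun P =>
    ⟨fun ⟨j, hj⟩ => ⟨_, hj⟩, fun ⟨j, hj⟩ => ⟨j - c, by rwa [sub_add_cancel]⟩⟩
  ext a T
  · exact key fun j => M.SameNode (δ j) (γ a) ∧ F.lk j T
  · exact key fun j => M.SameNode (δ j) (γ a) ∧ (γ a = δ j → F.le j T) ∧ (γ a ≠ δ j → F.lk j T)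
  · have := key fun j => M.SameNode (δ j) (γ a) ∧ (γ (a + 1) = δ (j + 1) → F.ri j T) ∧
      (γ (a + 1) ≠ δ (j + 1) → F.lk j T)
    simp only [← e] at this
    exact this
  · exact key fun j => γ a = δ j ∧ F.st j

theorem OL_rotδ {δ : ZMod 6 → D} {β : (ZMod 6 → D) → Rel} {F : Flags} (c : ZMod 6)
    {n : ℕ} {γ : ZMod n → D} {t : PState n} (h : M.OL δ β F n γ t) :
    M.OL (fun i => δ (i + c)) β (F.rot c) n γ t := by
  have e : ∀ a : ZMod 6, a + 1 + c = a + c + 1 := fun a => by ring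
  rcases OL_n h with rfl | rfl
  · obtain ⟨h1, h2, h3⟩ := h
    refine ⟨h1, fun a j T h4 h5 => h2 a (j + c) T h4 ⟨fun h6 h7 => h5.1 h6 ?_, h5.2.1,
      fun h6 => h5.2.2 ?_⟩, fun a j h4 h5 => h3 a (j + c) h4 h5⟩
    · show γ (a + 1) ≠ δ (j + 1 + c)
      rw [e]
      exact h7
    · show γ (a + 1) = δ (j + 1 + c)
      rw [e]
      exact h6
  · show β γ (M.res (fun i => δ (i + c)) (F.rot c) γ) t
    rw [res_rotδ]
    exact h

theorem Rz.le [Fintype D] {A H : D → Prop} {δ : ZMod 6 → D} {β : (ZMod 6 → D) → Rel}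
    (anti : ∀ γ F G t, M.SiteNum 6 γ → A (γ 0) → F.Le G → β γ G t → β γ F t) (hH : M.Sites H)
    (hHA : ∀ d, H d → A d) {F G : Flags} (hFG : F.Le G) {t : PState 6} (h : Rz M H δ β G t) :
    Rz M H δ β F t := by
  obtain ⟨μ, ω, hR⟩ := h
  exact ⟨μ, ω, hR.mono hH fun n γ t _ hγ hγH _ hL =>
    OL_le anti hFG hγ (fun i => hHA _ (hγH i)) hL⟩

theorem Rz.rot [Fintype D] {H : D → Prop} {δ : ZMod 6 → D} {β : (ZMod 6 → D) → Rel}
    (hH : M.Sites H) {F : Flags} {t : PState 6} (c : ZMod 6) (h : Rz M H δ β F t) :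
    Rz M H (fun i => δ (i + c)) β (F.rot c) (t.rot c) := by
  obtain ⟨μ, ω, hR⟩ := h
  exact ⟨μ, ω, (hR.rot c).mono hH fun n γ t _ _ _ _ hL => OL_rotδ c hL⟩

theorem KS_rot (κ : (ZMod 6 → D) → ZMod 6 → Prop) (δ : ZMod 6 → D) (c a : ZMod 6) :
    KS M κ (fun i => δ (i + c)) a ↔ KS M κ δ (a + c) := by
  have e : a + 1 + c = a + c + 1 := by ring
  show M.nx (δ (a + c)) = δ (a + 1 + c) ∧ _ ↔ _
  rw [e]
  exact Iff.rfl

end DMap

end GT33
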