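import Pool.Agent.GT33.TopoB

/-!
# GT33 module PARTA: connected sets of sites

`ConnS M Z`: the set of sites `Z` is connected.
-/

open Classical

namespace GT33

namespace DMap

variable {D : Type} {M : DMap D} {A : D → Prop} {δ : ZMod 6 → D}

open Patch

/-- connected sets of sites -/
def ConnS (M : DMap D) (Z : D → Prop) : Prop :=
  ∀ T : D → Prop, M.Sites T → (∀ d, T d → Z d) → (∃ d, T d) →
    (∀ d, T d → Z (M.al d) → T (M.al d)) → ∀ d, Z d → T d

theorem ConnS.add {Z T : D → Prop} (hZ : ConnS M Z) (hZs : M.Sites Z) (hT : M.Sites T)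
    (h : ∀ x, T x → ∃ y, M.SameSite x y ∧ Z (M.al y)) : ConnS M fun x => Z x ∨ T x := by
  intro U hU hUs ⟨u, hu⟩ hcl
  have h1 : ∃ d, U d ∧ Z d := by
    rcases hUs u hu with h1 | h1
    · exact ⟨u, hu, h1⟩
    · obtain ⟨y, hy, hy'⟩ := h u h1
      exact ⟨M.al y, hcl y ((hU.same hy).1 hu) (Or.inl hy'), hy'⟩
  have h2 := hZ (fun d => U d ∧ Z d) (hU.and hZs) (fun d hd => hd.2) h1
    (fun d hd hd' => ⟨hcl d hd.1 (Or.inl hd'), hd'⟩)
  rintro d (hd | hd)
  · exact (h2 d hd).1
  · obtain ⟨y, hy, hy'⟩ := h d hd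
    have h3 := hcl (M.al y) (h2 _ hy').1 (by
      rw [M.inv]
      exact Or.inr ((hT.same hy).1 hd))
    rw [M.inv] at h3
    exact (hU.same hy).2 h3

/-- a set of sites with the same boundary contains the set or is disjoint from it -/
theorem ConnS.region {Z T : D → Prop} (hZ : ConnS M Z) (hZs : M.Sites Z) (hZA : ∀ d, Z d → A d)
    (hT : Region M A δ Z T) : (∀ d, Z d → T d) ∨ ∀ d, T d → ¬ Z d := by
  by_cases h : ∃ d, T d ∧ Z d
  · left
    intro d hd
    refine (hZ (fun d => T d ∧ Z d) (hT.sites.and hZs) (fun d hd => hd.2) h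
      (fun x hx hx' => ⟨?_, hx'⟩) d hd).1
    by_contra h1
    have h2 := hT.bd x ⟨hZA _ hx.2, hZA _ hx'⟩ fun h3 => h1 (h3.1 hx.1)
    exact h2 (iff_of_true hx.2 hx')
  · right
    push Not at h
    exact h

namespace Gen

variable [Fintype D] (hG : M.Gen A δ)

include hG

/-- the whole patch has six ring edges -/
theorem nrad_all {Z : D → Prop} (hZ : M.Sites Z) (hZA : ∀ d, Z d → A d) (h : ∀ d, A d → Z d) :
    nrad M δ Z = 6 := by
  have e1 : M.cut Z = 6 := by
    rw [← hG.toPatch.cut]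
    exact cut_congr fun d => ⟨hZA d, h d⟩
  have e2 : (ofin M δ Z).card = 0 := by
    rw [Finset.card_eq_zero, Finset.eq_empty_iff_forall_notMem]
    intro o ho
    simp only [ofin, Finset.mem_filter, Finset.mem_univ, true_and] at ho
    have h3 := hG.inn_of (hZA _ ho.1.1) (Or.inl ho.2.2)
    exact ho.1.2 (h _ h3.2)
  have hc := cut_rad (M := M) (δ := δ) hZ
  omega

end Gen

end DMap

end GT33
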