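import Pool.Agent.GT33.PartA

/-!
# GT33 module PARTB: partial folds of the ring

`FN M A δ N`: the fold sectors at the ring nodes in `N`, the strands of the ring darts and of the removed darts.
-/

open Classical

namespace GT33

namespace DMap

variable {D : Type} {M : DMap D} {A : D → Prop} {δ : ZMod 6 → D}

open Patch

/-- the fold sectors at the ring nodes in `N` -/
def FN (M : DMap D) (A : D → Prop) (δ : ZMod 6 → D) (N : ZMod 6 → Prop) (d : D) : Prop :=
  FS M A δ d ∧ ∃ i, N i ∧ M.SameNode (δ i) d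

/-- the ring darts of the partial peel -/
noncomputable def hdN (M : DMap D) (δ : ZMod 6 → D) (N : ZMod 6 → Prop) (i : ZMod 6) : D :=
  if N (i - 1) then (if N i then hd M δ i else M.nx.symm (δ i)) else δ (i - 1)

/-- the class of nodes which is the ring node `i` of the partial peel -/
def ClsN (M : DMap D) (A : D → Prop) (δ : ZMod 6 → D) (N : ZMod 6 → Prop) (i : ZMod 6) (d : D) :
    Prop :=
  M.SameNode (M.al (δ i)) d ∨ (N i ∧ Cls M A δ i d)

/-- the condition on a removed quad: both its inner neighbours stay -/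
def OkN (δ : ZMod 6 → D) (N : ZMod 6 → Prop) (e : D) : Prop := ∀ i, e = δ i → ¬ N (i - 1)

theorem FoldSet.mono {F G : D → Prop} (hF : M.FoldSet F) (h : ∀ d, G d → F d) : M.FoldSet G where
  deg d hd := hF.deg d (h d hd)
  uniq d e hd he hs := hF.uniq d e (h d hd) (h e he) hs

theorem FR.mono {F G : D → Prop} (h : ∀ d, G d → F d) {d : D} (hd : FR M G d) : FR M F d := by
  rcases hd with h1 | h1 | ⟨h1, h2 | h2⟩
  · exact Or.inl (h _ h1)
  · exact Or.inr (Or.inl (h _ h1))
  · exact Or.inr (Or.inr ⟨h1, Or.inl (h _ h2)⟩)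
  · exact Or.inr (Or.inr ⟨h1, Or.inr (h _ h2)⟩)

/-- a removed dart is in the site of a fold sector -/
theorem fr_site' {F : D → Prop} {x : D} (h : FR M F x) : ∃ e, F e ∧ M.SameSite e x := by
  rcases FoldSet.cases h with h1 | ⟨e, h1, rfl⟩ | ⟨e, h1, -, rfl⟩ | ⟨e, h1, -, rfl⟩
  · exact ⟨x, h1, Equiv.Perm.SameCycle.refl _ _⟩
  · exact ⟨e, h1, site_nx e⟩
  · exact ⟨e, h1, (site_nx e).trans (site_nx _)⟩
  · exact ⟨e, h1, ((site_nx e).trans (site_nx _)).trans (site_nx _)⟩

/-- all darts of a quad with a fold sector are removed -/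
theorem fr_quad' [Finite D] {F : D → Prop} {e x : D} (he : F e) (h4 : M.deg e = 4)
    (hs : M.SameSite e x) : FR M F x := by
  rcases mem_quad h4 hs with rfl | rfl | rfl | rfl
  · exact FoldSet.r0 he
  · exact FoldSet.r1 he
  · exact FoldSet.r2 he h4
  · exact FoldSet.r3 he h4

theorem FN.fs {N : ZMod 6 → Prop} {d : D} (h : FN M A δ N d) : FS M A δ d := h.1

/-- subsets of the fold sectors form a forest -/
theorem Forest.mono {F G : D → Prop} (hf : Forest M F) (h : ∀ d, G d → F d) : Forest M G := by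
  intro e₀ he₀
  obtain ⟨w, hw, hw'⟩ := hf e₀ (h _ he₀)
  exact ⟨w, hw, fun e he => hw' e (h e he)⟩

namespace Gen

variable [Fintype D] (hG : M.Gen A δ) (N : ZMod 6 → Prop)

include hG

theorem foldSetN : M.FoldSet (FN M A δ N) := hG.foldSet.mono fun _ h => h.1

variable {N}

theorem fn_same {e x : D} (he : FN M A δ N e) (hx : FS M A δ x) (hs : M.SameSite e x) :
    FN M A δ N x := by
  rw [hG.fs_uniq he.1 hx hs]
  exact he

theorem fn_δ {i : ZMod 6} (h : FN M A δ N (δ i)) : N i := by
  obtain ⟨j, hj, hn⟩ := h.2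
  rw [← hG.node_idx hn]
  exact hj

theorem fn_node {i : ZMod 6} {d : D} (h : FN M A δ N d) (hn : M.SameNode (δ i) d) : N i := by
  obtain ⟨j, hj, hn'⟩ := h.2
  rw [← hG.node_idx (hn'.trans hn.symm)]
  exact hj

omit [Fintype D] hG in
theorem fn_of {i : ZMod 6} {d : D} (h : FS M A δ d) (hi : N i) (hn : M.SameNode (δ i) d) :
    FN M A δ N d := ⟨h, i, hi, hn⟩

omit [Fintype D] hG in
theorem frN_fr {d : D} (h : FR M (FN M A δ N) d) : FR M (FS M A δ) d := h.mono fun _ h => h.1

omit [Fintype D] hG in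
theorem frN_not {d : D} (h : ¬ FR M (FS M A δ) d) : ¬ FR M (FN M A δ N) d := fun h1 => h (frN_fr h1)

theorem root_stayN (i : ZMod 6) : ¬ FR M (FN M A δ N) (M.al (δ i)) := frN_not (hG.root_stay i)

omit [Fintype D] in
theorem frN_in {d : D} (h : FR M (FN M A δ N) d) : A d := hG.fr_in (frN_fr h)

/-- the darts of a quad at a ring node which is not folded -/
theorem frN_site {x : D} (h : FR M (FN M A δ N) x) {i : ZMod 6} (h4 : M.deg (δ i) = 4)
    (hs : M.SameSite (δ i) x) : N i := by
  obtain ⟨e, he, hes⟩ := fr_site' h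
  have h1 := hG.fs_uniq he.1 (hG.fs_quad h4) (hes.trans hs.symm)
  rw [← h1] at he
  exact hG.fn_δ he

/-- the first sector of a ring edge stays if the next ring node is not folded -/
theorem prev_stayN {i : ZMod 6} (h : M.deg (δ i) = 4 → ¬ N i) :
    ¬ FR M (FN M A δ N) (M.nx.symm (δ i)) := by
  by_cases h4 : M.deg (δ i) = 4
  · exact fun h1 => h h4 (hG.frN_site h1 h4 (site_nx_symm _))
  · exact frN_not (hG.prev_stay h4)

theorem δ_stayN {i : ZMod 6} (h : ¬ N i) : ¬ FR M (FN M A δ N) (δ i) := by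
  intro h1
  by_cases h4 : M.deg (δ i) = 4
  · exact h (hG.frN_site h1 h4 (Equiv.Perm.SameCycle.refl _ _))
  · rcases FoldSet.cases h1 with h2 | ⟨e, h2, h3⟩ | ⟨e, -, h5, h3⟩ | ⟨e, -, h5, h3⟩
    · exact h (hG.fn_δ h2)
    · exact h2.1.2.2 i (by rw [h3, Equiv.symm_apply_apply])
    · exact h4 (by rw [h3, deg_nx, deg_nx, h5])
    · exact h4 (by rw [h3, deg_nx, deg_nx, deg_nx, h5])

theorem hdN_stay (i : ZMod 6) : ¬ FR M (FN M A δ N) (hdN M δ N i) := by
  unfold hdN
  split_ifs with h1 h2
  · exact frN_not (hG.hd_stay i)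
  · exact hG.prev_stayN fun _ => h2
  · exact hG.δ_stayN h1

theorem hdN_A (i : ZMod 6) : A (hdN M δ N i) := by
  unfold hdN
  split_ifs with h1 h2
  · exact hG.hd_A i
  · exact (hG.toPatch.sites.same (site_nx_symm _)).1 (hG.toPatch.inA i)
  · exact hG.toPatch.inA _

/-- the strand around a ring node in `N` -/
theorem chain_strandN {i : ZMod 6} (hi : N i) {g : D} (hg : FS M A δ g)
    (hn : M.SameNode (δ i) g) :
    DStrand M.al (fmu M (FN M A δ N)) (FR M (FN M A δ N)) (M.nx g) (hdN M δ N (i + 1)) := by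
  have h0 : M.SameNode g (M.nx.symm (δ (i + 1))) := hn.symm.trans (hG.toPatch.prev_node i)
  obtain ⟨k, hk⟩ := h0.symm.exists_nat_pow_eq
  induction k generalizing g with
  | zero =>
    exfalso
    exact hg.2.2 (i + 1) (by simpa using hk.symm)
  | succ k ih =>
    set g' := M.al (M.nx g) with hg'
    have hfs : M.fs g' = g := by rw [hg', fs_al, Equiv.symm_apply_apply]
    have hk' : (M.fs ^ k) (M.nx.symm (δ (i + 1))) = g' := by
      apply M.fs.injective
      rw [hfs, ← hk, add_comm k 1, pow_add, pow_one, Equiv.Perm.mul_apply]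
    have hA' : A g' := (hG.fs_inn hg).2
    have hn' : M.SameNode (δ i) g' := hn.trans (al_node g).symm
    by_cases h1 : FS M A δ g'
    · have h1' : FN M A δ N g' := fn_of h1 hi hn'
      refine DStrand.step (FoldSet.r0 h1') ?_
      rw [FoldSet.mu0 h1']
      exact ih h1 hn' (hn'.symm.trans (hG.toPatch.prev_node i)) hk'
    · have h2 : ∃ j, g' = M.nx.symm (δ j) := by
        by_contra h3
        push Not at h3
        exact h1 ⟨hA', ring_same hn' (ring_δ i), h3⟩
      obtain ⟨j, hj⟩ := h2
      have hji : j = i + 1 := by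
        have h3 := hG.toPatch.prev_node (j - 1)
        rw [sub_add_cancel, ← hj] at h3
        rw [hG.node_idx (hn'.trans h3.symm)]
        ring
      subst hji
      unfold hdN
      rw [if_pos (by rw [add_sub_cancel_right]; exact hi)]
      by_cases h5 : N (i + 1)
      · rw [if_pos h5]
        unfold hd
        by_cases h4 : M.deg (δ (i + 1)) = 4
        · rw [if_pos h4]
          have h5' : FN M A δ N (δ (i + 1)) :=
            fn_of (hG.fs_quad h4) h5 (Equiv.Perm.SameCycle.refl _ _)
          have h6 : g' = M.nx (M.nx (M.nx (δ (i + 1)))) := by rw [hj, nx_four' h4]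
          refine DStrand.step (by rw [← hg', h6]; exact FoldSet.r3 h5' h4) ?_
          rw [← hg', h6, (hG.foldSetN N).mu3 h5' h4]
          exact DStrand.last (frN_not (hG.k2 h5'.1 h4))
        · rw [if_neg h4, ← hj]
          exact DStrand.last (by rw [← hg', hj]; exact frN_not (hG.prev_stay h4))
      · rw [if_neg h5, ← hj]
        exact DStrand.last (by rw [← hg', hj]; exact hG.prev_stayN fun _ => h5)

/-- the strand of a root dart -/
theorem root_strandN (i : ZMod 6) :
    DStrand M.al (fmu M (FN M A δ N)) (FR M (FN M A δ N)) (M.al (δ i)) (hdN M δ N (i + 1)) := by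
  by_cases hi : N i
  · rcases hG.fs_or i with h | h
    · have h' : FN M A δ N (δ i) := fn_of h hi (Equiv.Perm.SameCycle.refl _ _)
      refine DStrand.step (by rw [M.inv]; exact FoldSet.r0 h') ?_
      rw [M.inv, FoldSet.mu0 h']
      exact hG.chain_strandN hi h (Equiv.Perm.SameCycle.refl _ _)
    · have h6 := hG.nc i h
      have h4 : M.deg (δ (i + 1)) ≠ 4 := by
        rw [← h, deg_nx]
        omega
      have h5 : δ i = M.nx.symm (δ (i + 1)) := by rw [← h, Equiv.symm_apply_apply]
      have h7 := hG.prev_stay h4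
      have h8 : hdN M δ N (i + 1) = δ i := by
        unfold hdN hd
        rw [if_pos (by rw [add_sub_cancel_right]; exact hi), if_neg h4, ← h5, ite_self]
      rw [h8]
      rw [← h5] at h7
      have := DStrand.last (al := M.al) (mu := fmu M (FN M A δ N)) (R := FR M (FN M A δ N))
        (d := M.al (δ i)) (by rw [M.inv]; exact frN_not h7)
      rwa [M.inv] at this
  · have h8 : hdN M δ N (i + 1) = δ i := by
      unfold hdN
      rw [if_neg (by rw [add_sub_cancel_right]; exact hi), add_sub_cancel_right]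
    rw [h8]
    have := DStrand.last (al := M.al) (mu := fmu M (FN M A δ N)) (R := FR M (FN M A δ N))
      (d := M.al (δ i)) (by rw [M.inv]; exact hG.δ_stayN hi)
    rwa [M.inv] at this

/-- the sector before the last sector of a ring node which is not folded -/
theorem before_stay {i : ZMod 6} (h4 : M.deg (δ i) = 4) (h : ¬ N (i - 1)) :
    ¬ FR M (FN M A δ N) (M.al (M.nx.symm (δ i))) := by
  have hn : M.SameNode (δ (i - 1)) (M.nx.symm (δ i)) := by
    have := hG.toPatch.prev_node (i - 1)
    rwa [sub_add_cancel] at this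
  -- the previous sector
  rcases hG.asec (hG.toPatch.prev_in i) hn with h5 | h5
  · exfalso
    have h7 : M.nx (δ (i - 1)) = δ (i - 1 + 1) := by
      rw [← h5, Equiv.apply_symm_apply, sub_add_cancel]
    have h8 := hG.nc _ h7
    rw [← deg_nx, h7, sub_add_cancel] at h8
    omega
  · set g := M.fs (M.nx.symm (δ i)) with hg
    have hg' : M.al (M.nx.symm (δ i)) = M.nx g := by rw [hg, nx_fs]
    have hgn : M.SameNode (δ (i - 1)) g := hn.trans (fs_node _)
    rw [hg']
    intro hR
    rcases FoldSet.cases hR with h1 | ⟨e, h1, h2⟩ | ⟨e, h1, h3, h2⟩ | ⟨e, h1, h3, h2⟩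
    · exact hG.fs1 h5 h1.1.2.1
    · rw [← M.nx.injective h2] at h1
      exact h (hG.fn_node h1 hgn)
    · rw [M.nx.injective h2] at h5
      exact hG.fs1 h1.1 h5.2.1
    · rw [M.nx.injective h2] at h5
      exact hG.fs2 h1.1 h5.2.1

theorem k3N {e : D} (h : FN M A δ N e) (h4 : M.deg e = 4) (hl : OkN δ N e) :
    ¬ FR M (FN M A δ N) (M.al (M.nx.symm e)) := by
  by_cases hs : ∃ i, e = δ i
  · obtain ⟨i, rfl⟩ := hs
    exact hG.before_stay h4 (hl i rfl)
  · push Not at hs
    exact frN_not (hG.k3 h.1 h4 hs)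

theorem k2N {e : D} (h : FN M A δ N e) (h4 : M.deg e = 4) :
    ¬ FR M (FN M A δ N) (M.al (M.nx (M.nx e))) := frN_not (hG.k2 h.1 h4)

end Gen

end DMap

end GT33
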