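import Pool.Agent.GT33.PartB

/-!
# GT33 module PARTC: boundary darts

The cut of a site in a map without loops, the previous dart of the boundary of a set of sites.
-/

open Classical

namespace GT33

namespace DMap

variable {D : Type} {M : DMap D} {A : D → Prop} {δ : ZMod 6 → D}

open Patch

/-- the cut of a site -/
theorem cut_site_of [Fintype D] (h : ∀ d, ¬ M.SameSite d (M.al d)) (d : D) :
    M.cut (M.SameSite d) = M.deg d := by
  rw [← card_site d (Finset.univ.filter fun e => M.SameSite d e) (fun e => by simp)]
  unfold cut
  rw [Nat.card_eq_fintype_card, Fintype.card_subtype]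
  congr 1
  ext e
  simp only [Finset.mem_filter, Finset.mem_univ, true_and]
  constructor
  · exact fun h => h.1
  · intro h1
    exact ⟨h1, fun h2 => h e (h1.symm.trans h2)⟩

/-- the previous dart of the boundary -/
theorem exists_bn [Fintype D] {B : D → Prop} (hB : M.Sites B) {d : D} (hd : BD M B d) :
    ∃ g, BD M B g ∧ M.SameNode g (M.nx.symm d) := by
  let S := Finset.univ.filter fun d => BD M B d
  have hmap : ∀ d ∈ S, bn M B d ∈ S := fun d hd => by
    simp only [S, Finset.mem_filter, Finset.mem_univ, true_and] at hd ⊢
    exact bn_bd hB hd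
  have hinj : Set.InjOn (bn M B) S := fun d hd e he h => by
    simp only [S, Finset.coe_filter, Finset.mem_univ, true_and, Set.mem_ofPred_eq] at hd he
    exact bn_inj hB hd he h
  have himg : S.image (bn M B) = S := by
    refine Finset.eq_of_subset_of_card_le (Finset.image_subset_iff.2 hmap) ?_
    rw [Finset.card_image_of_injOn hinj]
  have h1 : d ∈ S.image (bn M B) := by
    rw [himg]
    simp [S, hd]
  obtain ⟨g, hg, rfl⟩ := Finset.mem_image.1 h1
  simp only [S, Finset.mem_filter, Finset.mem_univ, true_and] at hg
  exact ⟨g, hg, bn_node hB hg⟩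

end DMap

end GT33
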