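import Pool.Agent.GT33.PartV
import Pool.Agent.GT33.CObj

/-!
# GT33 module PARTL: partial folds of objects, the sites without folded sectors

`FlF M δ F Fl Fl'`: the demands `Fl'` at the ring of the folded map contain the demands `Fl` of the patch for all
sites without folded sectors.  `Gen.OL_unt`: such sites keep their local states.  `Obj.mapF`: the folded map of
an object is an object.
-/

open Classical

namespace GT33

/-- the demands `Fl` of the patch are demands `Fl'` of the folded map, at the sites without folded sectors -/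
structure FlF {D : Type} (M : DMap D) (δ : ZMod 6 → D) (F : D → Prop) (Fl Fl' : Flags) : Prop where
  ok : Fl.Ok
  lk : ∀ j T, ¬ (DMap.full M δ F j ∧ F (δ (j + 1))) → Fl.lk j T → Fl'.lk (j + 1) T
  le : ∀ j T, ¬ F (δ j) → Fl.le j T → Fl'.le (j + 1) T
  le' : ∀ j T, F (δ j) → ¬ (DMap.full M δ F j ∧ F (δ (j + 1))) → Fl.lk j T → Fl'.le (j + 1) T
  ri : ∀ j T, ¬ F (δ (j + 1)) → Fl.ri j T → Fl'.ri (j + 1) T
  st : ∀ j, ¬ F (δ j) → Fl.st j → Fl'.st (j + 1)

namespace DMap

variable {D : Type} {M : DMap D} {A : D → Prop} {δ : ZMod 6 → D} {F : D → Prop}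

open Patch

/-- the sites without folded sectors -/
def Unt (M : DMap D) (F : D → Prop) (x : D) : Prop := ∀ e, F e → ¬ M.SameSite e x

theorem Unt.same {x y : D} (h : Unt M F x) (hs : M.SameSite x y) : Unt M F y :=
  fun e he h1 => h e he (h1.trans hs.symm)

/-- the darts of a site without folded sectors stay -/
theorem Unt.stay {x : D} (h : Unt M F x) : ¬ FR M F x := fun h1 => by
  obtain ⟨e, he, hes⟩ := fr_site' h1
  exact h e he hes

namespace Gen

variable [Fintype D] {o : D → Bool} (ho : ∀ d, o (M.nx d) = !o d) (ho' : ∀ d, o (M.al d) = !o d)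
  (hG : M.Gen A δ) (hF : Pre M A δ F)

include hG hF

omit [Fintype D] hG hF ho ho' in
theorem unt_not {x : D} (h : Unt M F x) : ¬ F x := fun h1 => h x h1 (Equiv.Perm.SameCycle.refl _ _)

theorem mapF_nx_unt {x : {d // ¬ FR M F d}} (h : Unt M F x.1) :
    ((mapF hF ho ho' hG).nx x).1 = M.nx x.1 := by
  have h1 : ¬ FR M F (M.nx x.1) := (h.same (site_nx x.1)).stay
  rw [show (mapF hF ho ho' hG).nx x = ⟨M.nx x.1, h1⟩ from
    fmap_nx_of (hG.foldSetF hF) ho ho' (d := x) h1]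

/-- the ring node `j` is a part of the ring node `j + 1` of the folded map -/
theorem mapF_ringn {j : ZMod 6} {x : {d // ¬ FR M F d}} (hn : M.SameNode (δ j) x.1) :
    (mapF hF ho ho' hG).SameNode (hdrF hF ho ho' hG (j + 1)) x := by
  have h1 := (hG.mapF_patch hF ho ho').root_node (j + 1)
  have h2 : (mapF hF ho ho' hG).SameNode
      ((mapF hF ho ho' hG).al (hdrF hF ho ho' hG (j + 1 + 1))) x := by
    rw [mapF_sameNode]
    left
    have h3 : ((mapF hF ho ho' hG).al (hdrF hF ho ho' hG (j + 1 + 1))).1 = M.al (δ (j + 1)) := by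
      rw [hG.hdrF_al hF ho ho', add_sub_cancel_right]
      rfl
    rw [h3]
    exact (hG.toPatch.root_node j).symm.trans hn
  exact h1.trans h2

/-- the last sector of a ring node whose sectors are folded is in the next site -/
theorem unt_full {j : ZMod 6} {x : D} (hA : A x) (hu : Unt M F x) (hn : M.SameNode (δ j) x) :
    ¬ (full M δ F j ∧ F (δ (j + 1))) := by
  rintro ⟨h1, h2⟩
  have h3 := hG.full_last hF h1 hA hn (unt_not hu)
  refine hu _ h2 ?_
  rw [h3]
  exact site_nx_symm _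

/-- a kept ring dart -/
theorem unt_le {j : ZMod 6} {x : {d // ¬ FR M F d}} (hu : Unt M F x.1) :
    x.1 = δ j ↔ ¬ F (δ j) ∧ x = hdrF hF ho ho' hG (j + 1) := by
  constructor
  · intro h
    have h1 : ¬ F (δ j) := by
      rw [← h]
      exact unt_not hu
    refine ⟨h1, ?_⟩
    rw [hG.hdrF_δ hF ho ho' h1]
    exact Subtype.ext h
  · rintro ⟨h1, h2⟩
    rw [h2, hG.hdrF_δ hF ho ho' h1]

/-- a kept dart before a ring dart -/
theorem unt_ri {j : ZMod 6} {x : {d // ¬ FR M F d}} (hA : A x.1) (hu : Unt M F x.1)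
    (hn : M.SameNode (δ j) x.1) :
    M.nx x.1 = δ (j + 1) ↔ (mapF hF ho ho' hG).nx x = hdrF hF ho ho' hG (j + 2) := by
  have hj : j + 2 = j + 1 + 1 := by ring
  have hnx := mapF_nx_unt ho ho' hG hF hu
  have hu' : Unt M F (M.nx x.1) := hu.same (site_nx x.1)
  constructor
  · intro h
    have h1 : ¬ F (δ (j + 1)) := by
      rw [← h]
      exact unt_not hu'
    rw [hj, hG.hdrF_δ hF ho ho' h1]
    apply Subtype.ext
    rw [hnx, h]
  · intro h
    by_cases h0 : FS M A δ x.1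
    · exfalso
      have h1 := hG.hdrF_spec hF ho ho' (j + 1)
      rw [← hj, ← h, hnx] at h1
      rcases h1 with ⟨-, h1, -⟩ | ⟨-, -, -, h1⟩
      · exact hG.fs1 h0 (ring_same h1 (ring_δ _))
      · have h2 := hG.cls_nx h0 hn
        rw [h1] at h2
        have h3 := hG.cls_disj h2 (hG.cls_hd _)
        have h4 : (2 : ZMod 6) = 0 := by
          have h5 : j + 0 = j + 2 := by rw [add_zero, ← hj] at *; exact h3
          exact (add_left_cancel h5).symm
        exact absurd h4 (by decide)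
    · have h1 : ∃ i, x.1 = M.nx.symm (δ i) := by
        by_contra h2
        push Not at h2
        exact h0 ⟨hA, ring_same hn (ring_δ j), h2⟩
      obtain ⟨i, hi⟩ := h1
      have h2 := hG.toPatch.prev_node (i - 1)
      rw [sub_add_cancel, ← hi] at h2
      have h3 : i = j + 1 := by
        rw [← hG.node_idx (h2.trans hn.symm)]
        ring
      rw [hi, h3, Equiv.apply_symm_apply]

variable {Fl Fl' : Flags}

/-- demands at the sites without folded sectors -/
theorem unt_dem (hfl : FlF M δ F Fl Fl') {n : ℕ} {γ : ZMod n → {d // ¬ FR M F d}}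
    (hγ : (mapF hF ho ho' hG).SiteNum n γ) {a : ZMod n} (hA : A (γ a).1) (hu : Unt M F (γ a).1)
    {j : ZMod 6} {T : Bool} (hn : M.SameNode (δ j) (γ a).1)
    (hd : Dem Fl δ (fun i => (γ i).1) a j T) :
    Dem Fl' (hdrF hF ho ho' hG) γ a (j + 1) T := by
  have hnf := hG.unt_full hF hA hu hn
  have hlk := hd.lk hfl.ok
  have e2 : j + 1 + 1 = j + 2 := by ring
  refine ⟨fun _ _ => hfl.lk j T hnf hlk, fun h1 => ?_, fun h1 => ?_⟩
  · by_cases h2 : F (δ j)
    · exact hfl.le' j T h2 hnf hlk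
    · exact hfl.le j T h2 (hd.2.1 ((unt_le ho ho' hG hF hu).2 ⟨h2, h1⟩))
  · rw [← hγ.nx, e2] at h1
    have h3 := (unt_ri ho ho' hG hF hA hu hn).2 h1
    have h4 : ¬ F (δ (j + 1)) := by
      rw [← h3]
      exact unt_not (hu.same (site_nx _))
    refine hfl.ri j T h4 (hd.2.2 ?_)
    show (γ (a + 1)).1 = δ (j + 1)
    rw [← h3, ← hγ.nx, mapF_nx_unt ho ho' hG hF hu]

/-- quads without folded sectors -/
theorem QS_unt (hfl : FlF M δ F Fl Fl') {γ : ZMod 4 → {d // ¬ FR M F d}}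
    (hγ : (mapF hF ho ho' hG).SiteNum 4 γ) (hA : ∀ i, A (γ i).1) (hu : ∀ i, Unt M F (γ i).1)
    {t : PState 4} (ht : (mapF hF ho ho' hG).QS (hdrF hF ho ho' hG) Fl' γ t) :
    M.QS δ Fl (fun i => (γ i).1) t := by
  refine ⟨ht.ee, fun a j T h1 h2 => ?_, fun a j h1 h2 => ?_⟩
  · exact ht.dem a (j + 1) T (mapF_ringn ho ho' hG hF h1)
      (unt_dem ho ho' hG hF hfl hγ (hA a) (hu a) h1 h2)
  · obtain ⟨h3, h4⟩ := (unt_le ho ho' hG hF (hu a)).1 h1
    exact ht.st a (j + 1) h4 (hfl.st j h3 h2)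

/-- the demands of hexagons without folded sectors -/
theorem res_unt (hfl : FlF M δ F Fl Fl') {γ : ZMod 6 → {d // ¬ FR M F d}}
    (hγ : (mapF hF ho ho' hG).SiteNum 6 γ) (hA : ∀ i, A (γ i).1) (hu : ∀ i, Unt M F (γ i).1) :
    (M.res δ Fl fun i => (γ i).1).Le ((mapF hF ho ho' hG).res (hdrF hF ho ho' hG) Fl' γ) where
  lk := by
    rintro a T ⟨j, h1, h2⟩
    exact ⟨j + 1, mapF_ringn ho ho' hG hF h1, hfl.lk j T (hG.unt_full hF (hA a) (hu a) h1) h2⟩
  le := by
    rintro a T ⟨j, h1, h2, h3⟩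
    have hnf := hG.unt_full hF (hA a) (hu a) h1
    have hlk : Fl.lk j T := by
      by_cases h4 : (γ a).1 = δ j
      · exact hfl.ok.le _ _ (h2 h4)
      · exact h3 h4
    refine ⟨j + 1, mapF_ringn ho ho' hG hF h1, fun h4 => ?_, fun _ => hfl.lk j T hnf hlk⟩
    by_cases h5 : F (δ j)
    · exact hfl.le' j T h5 hnf hlk
    · exact hfl.le j T h5 (h2 ((unt_le ho ho' hG hF (hu a)).2 ⟨h5, h4⟩))
  ri := by
    rintro a T ⟨j, h1, h2, h3⟩
    have hnf := hG.unt_full hF (hA a) (hu a) h1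
    have hlk : Fl.lk j T := by
      by_cases h4 : (γ (a + 1)).1 = δ (j + 1)
      · exact hfl.ok.ri _ _ (h2 h4)
      · exact h3 h4
    refine ⟨j + 1, mapF_ringn ho ho' hG hF h1, fun h4 => ?_, fun _ => hfl.lk j T hnf hlk⟩
    have e2 : j + 1 + 1 = j + 2 := by ring
    rw [← hγ.nx, e2] at h4
    have h5 := (unt_ri ho ho' hG hF (hA a) (hu a) h1).2 h4
    have h6 : ¬ F (δ (j + 1)) := by
      rw [← h5]
      exact unt_not ((hu a).same (site_nx _))
    refine hfl.ri j T h6 (h2 ?_)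
    show (γ (a + 1)).1 = δ (j + 1)
    rw [← h5, ← hγ.nx, mapF_nx_unt ho ho' hG hF (hu a)]
  st := by
    rintro a ⟨j, h1, h2⟩
    obtain ⟨h3, h4⟩ := (unt_le ho ho' hG hF (hu a)).1 h1
    exact ⟨j + 1, h4, hfl.st j h3 h2⟩

theorem siteNum_unt {n : ℕ} {γ : ZMod n → {d // ¬ FR M F d}}
    (hγ : (mapF hF ho ho' hG).SiteNum n γ) (hu : ∀ i, Unt M F (γ i).1) :
    M.SiteNum n fun i => (γ i).1 :=
  ⟨fun x y hxy => hγ.inj (Subtype.ext hxy), fun j => by
    rw [← hγ.nx, mapF_nx_unt ho ho' hG hF (hu j)]⟩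

/-- **The sites without folded sectors keep their local states**. -/
theorem OL_unt (hfl : FlF M δ F Fl Fl') {β : (ZMod 6 → D) → Rel}
    (anti : ∀ γ F G t, M.SiteNum 6 γ → A (γ 0) → F.Le G → β γ G t → β γ F t)
    {n : ℕ} {γ : ZMod n → {d // ¬ FR M F d}} (hγ : (mapF hF ho ho' hG).SiteNum n γ)
    (hA : ∀ i, A (γ i).1) (hu : ∀ i, Unt M F (γ i).1) {t : PState n}
    (ht : (mapF hF ho ho' hG).OL (hdrF hF ho ho' hG) (fun γ => β fun i => (γ i).1) Fl' n γ t) :
    M.OL δ β Fl n (fun i => (γ i).1) t := by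
  rcases OL_n ht with rfl | rfl
  · exact QS_unt ho ho' hG hF hfl hγ hA hu ht
  · exact anti _ _ _ t (siteNum_unt ho ho' hG hF hγ hu) (hA 0) (res_unt ho ho' hG hF hfl hγ hA hu)
      ht

/-- hexagons of the folded map have no folded sectors -/
theorem mapF_sixu {x : {d // ¬ FR M F d}} (h : (mapF hF ho ho' hG).deg x = 6) : Unt M F x.1 :=
  fun e he hes => by
    have := (hG.mapF_deg_fold hF ho ho' he hes).2
    omega

end Gen

variable {Good : (ZMod 6 → Prop) → Prop → Rel → Prop}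

/-- **The folded map of an object is an object**. -/
theorem Obj.mapF [Fintype D] {B : Boxes D} (hO : M.Obj Good A δ B) {o : D → Bool}
    (ho : ∀ d, o (M.nx d) = !o d) (ho' : ∀ d, o (M.al d) = !o d) (hG : M.Gen A δ)
    (hF : Pre M A δ F) :
    (Gen.mapF hF ho ho' hG).Obj Good (fun d => A d.1) (Gen.hdrF hF ho ho' hG)
      (B.pull fun d : {d // ¬ FR M F d} => d.1) := by
  have hu : ∀ γ : ZMod 6 → {d // ¬ FR M F d}, (Gen.mapF hF ho ho' hG).SiteNum 6 γ →
      ∀ i, Unt M F (γ i).1 := fun γ hγ i => Gen.mapF_sixu ho ho' hG hF (hγ.deg i)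
  have hnum := fun (γ : ZMod 6 → {d // ¬ FR M F d}) (hγ : (Gen.mapF hF ho ho' hG).SiteNum 6 γ) =>
    Gen.siteNum_unt ho ho' hG hF hγ (hu γ hγ)
  refine ⟨hG.mapF_patch hF ho ho', fun d hd h6 => ?_, fun γ F G t hγ h0 => ?_,
    fun γ F t c hγ h0 => ?_, fun γ a c hγ h0 => ?_, fun γ hγ h0 => ?_, fun γ F t hγ h0 => ?_⟩
  · have h1 := Gen.mapF_sixu ho ho' hG hF h6
    rw [hG.mapF_deg_of hF ho ho' h1] at h6
    obtain ⟨j, e, h2, h3⟩ := hO.touch _ hd h6
    refine ⟨j + 1, ⟨e, (h1.same h2).stay⟩, ?_, Gen.mapF_ringn ho ho' hG hF h3⟩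
    rw [fmap_sameSite]
    exact h2
  · exact hO.anti _ F G t (hnum γ hγ) h0
  · exact hO.rot _ F t c (hnum γ hγ) h0
  · exact hO.krot _ a c (hnum γ hγ) h0
  · exact hO.good _ (hnum γ hγ) h0
  · exact hO.nice _ F t (hnum γ hγ) h0

end DMap

end GT33
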