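import Pool.Agent.GT33.PartM

/-!
# GT33 module PARTN: the state lift, partial folds

`Gen.liftF`: a state of the folded map of a generic patch gives a state of the patch.
-/

open Classical

namespace GT33

namespace DMap

variable {D : Type} {M : DMap D} {A : D → Prop} {δ : ZMod 6 → D} {F : D → Prop}

open Patch

namespace Gen

variable [Fintype D] (hG : M.Gen A δ)

section excl

include hG

theorem excl1F (hF : Pre M A δ F) {e : D} (he : FS M A δ e) (hl : ∀ k, e ≠ δ k) {k : ZMod 6}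
    (hk : F (δ k)) : M.nx.symm e ≠ hd M δ k := by
  intro h
  by_cases h4 : M.deg (δ k) = 4
  · have hh : hd M δ k = M.al (M.nx (M.nx (δ k))) := if_pos h4
    obtain ⟨i, hi⟩ := he.2.1
    have h1 : Cls M A δ i (hd M δ k) := by
      rw [← h]
      exact hG.cls_nx_symm he.1 hi
    have hik := hG.cls_disj h1 (hG.cls_hd k)
    subst hik
    rcases hG.asec he.1 hi with h2 | h2
    · exact hl i h2
    · have h3 : M.SameNode (M.nx (M.fs e)) (M.nx (δ i)) := by
        rw [nx_fs]
        refine (nx_symm_node e).trans ?_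
        rw [h, hh]
        exact al_node _
      have h5 := hG.chain h2 (hF.fs _ hk) h3
      have h6 : M.al e = M.nx (δ i) := by rw [← nx_fs, h5]
      have h7 := hG.share_sat hF (p := δ i) (s := e) (x := M.nx (δ i)) (y := M.nx (M.nx (δ i))) h4
        (hG.toPatch.inA i) he.1 (hG.satF hF hk) (site_nx _) ((site_nx _).trans (site_nx _))
        (by rw [← h6, M.inv])
        (by rw [← hh, ← h]; exact site_nx_symm e)
      exact hG.ne1 _ h7.symm
  · have hh : hd M δ k = M.nx.symm (δ k) := if_neg h4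
    rw [hh] at h
    exact hl k (M.nx.symm.injective h)

theorem excl3 (hF : Pre M A δ F) {e : D} (he : FS M A δ e) {k : ZMod 6} (hFk : F (δ k)) :
    M.nx (M.nx e) ≠ hd M δ k := by
  intro h
  by_cases h4 : M.deg (δ k) = 4
  · have hh : hd M δ k = M.al (M.nx (M.nx (δ k))) := if_pos h4
    obtain ⟨i, hi⟩ := he.2.1
    obtain ⟨j, rfl⟩ : ∃ j, k = j + 1 := ⟨k - 1, (sub_add_cancel _ _).symm⟩
    set g := M.nx.symm (δ (j + 1)) with hg
    have hgA : A g := hG.toPatch.prev_in _
    have hgn : M.SameNode (δ j) g := hG.toPatch.prev_node j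
    have e1 : M.nx.symm g = M.nx (M.nx (δ (j + 1))) := by
      rw [hg, Equiv.symm_apply_eq, nx_four' h4]
    have n1 : M.SameNode (M.nx e) (M.nx.symm g) := by
      have := al_node (M := M) (M.nx e)
      rw [h, hh, M.inv, ← e1] at this
      exact this.symm
    have hij := hG.cls_disj ((hG.cls_nx he hi).same n1) (hG.cls_nx_symm hgA hgn)
    subst hij
    rcases hG.asec hgA hgn with h2 | h2
    · have h3 : M.nx (δ i) = δ (i + 1) := by rw [← h2, hg, Equiv.apply_symm_apply]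
      have h5 := hG.nc i h3
      rw [← deg_nx, h3] at h5
      omega
    · have h3 : M.SameNode (M.nx (M.fs g)) (M.nx e) := by
        rw [nx_fs]
        exact (nx_symm_node g).trans n1.symm
      have h5 := hG.chain h2 he h3
      have h6 : M.al g = M.nx e := by rw [← nx_fs, h5]
      have h7 := hG.share_sat hF (p := δ (i + 1)) (s := e) (x := M.nx (M.nx (δ (i + 1))))
        (y := g) h4 (hG.toPatch.inA _) he.1 (hG.satF hF hFk)
        ((site_nx _).trans (site_nx _)) (site_nx_symm _)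
        (by rw [← hh, ← h]; exact (site_nx _).trans (site_nx _))
        (by rw [h6]; exact site_nx _)
      exact hG.ns1 g (e1.trans h7)
  · have hh : hd M δ k = M.nx.symm (δ k) := if_neg h4
    exact hG.fs2 he (by rw [h, hh]; exact hG.toPatch.ring_prev k)

end excl

variable (hF : Pre M A δ F) {o : D → Bool} (ho : ∀ d, o (M.nx d) = !o d)
  (ho' : ∀ d, o (M.al d) = !o d)

section excl

include hG hF

/-- the dart before a folded sector is not a ring dart of the folded map -/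
theorem lk_hdr {e : D} (he : LkF M δ F e) {k : ZMod 6} (hn : M.SameNode (δ k) e) :
    M.nx.symm e ≠ (hdrF hF ho ho' hG k).1 := by
  intro h
  have heS := hF.fs e he.1
  obtain ⟨L, l1, l2, l3, l4, l5⟩ := hdrF_cases ho ho' hG hF (k - 1)
  rw [sub_add_cancel] at l5
  rcases l5 with ⟨l6, l7⟩ | ⟨l6, l7, l8, l9⟩
  · rw [l7] at h
    rcases hG.asec heS.1 hn with h1 | h1
    · rw [h1] at h he
      rcases l4 with l4 | l4
      · have h2 : M.nx (δ (k - 1)) = δ k := by rw [← l4, ← h, Equiv.apply_symm_apply]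
        exact he.2.2 (k - 1) ⟨by rw [h2, sub_add_cancel], by rw [sub_add_cancel]; exact he.1⟩
          (by rw [sub_add_cancel])
      · refine he.2.1 k ⟨?_, he.1⟩ rfl
        unfold full
        rw [sub_add_cancel, h]
        exact l4
    · refine hG.fs1 h1 ?_
      rw [nx_fs]
      exact ring_same (nx_symm_node e).symm (by rw [h]; exact ring_same l2 (ring_δ _))
  · by_cases h1 : e = δ k
    · rw [h1, l9] at h
      refine hG.nl (M.nx (M.nx (δ k))) ?_
      rw [← h]
      exact ((site_nx _).trans (site_nx _)).symm.trans (site_nx_symm _)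
    · refine hG.excl1F hF heS (fun j hj => h1 ?_) l7 ?_
      · rw [hj] at hn
        rw [hj, hG.node_idx hn]
      · rw [h, l9]
        unfold hd
        rw [if_pos l8]

theorem lk_hdr2 {e : D} (he : F e) (k : ZMod 6) :
    M.nx (M.nx e) ≠ (hdrF hF ho ho' hG (k + 1)).1 := by
  intro h
  obtain ⟨L, l1, l2, l3, l4, l5⟩ := hdrF_cases ho ho' hG hF k
  rcases l5 with ⟨l6, l7⟩ | ⟨l6, l7, l8, l9⟩
  · refine hG.fs2 (hF.fs e he) ?_
    rw [h, l7]
    exact ring_same l2 (ring_δ _)
  · refine hG.excl3 hF (hF.fs e he) (k := k + 1) l7 ?_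
    rw [h, l9]
    unfold hd
    rw [if_pos l8]

end excl

/-- the local states of the lift -/
structure LiftLocF (hG : M.Gen A δ) (hF : Pre M A δ F) (ho : ∀ d, o (M.nx d) = !o d)
    (ho' : ∀ d, o (M.al d) = !o d) (L' : LS {d // ¬ FR M F d}) (Lo : LS D) (a : ZMod 6 → Bool)
    (r r' : ZMod 6 → ℕ) (p q : ℕ) (w : ZMod 6 → PState 6) : Prop where
  inner : ∀ (n : ℕ) (γ : ZMod n → {d // ¬ FR M F d}) (t : PState n), n ≠ 0 →
    (mapF hF ho ho' hG).SiteNum n γ → (∀ i, A (γ i).1) → (∀ i, Unt M F (γ i).1) →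
    L' n γ t → Lo n (fun i => (γ i).1) t
  lq : ∀ (e : D) (α : ZMod 4 → D), LkF M δ F e → M.SiteNum 4 α → α 0 = e → Lo 4 α (lq p q)
  lh : ∀ (e : D) (α : ZMod 6 → D) (b : ZMod 4 → {d // ¬ FR M F d}) (t : PState 4),
    LkF M δ F e → M.SiteNum 6 α → α 0 = e → (∀ j, (b j).1 = α (l6 j)) →
    (mapF hF ho ho' hG).SiteNum 4 b → L' 4 b t → t.u 3 = 0 → Lo 6 α (lh p q t)
  sq : ∀ (k : ZMod 6) (α : ZMod 4 → D), IntF M δ F k → M.SiteNum 4 α → α 0 = δ k →
    Lo 4 α (sq (a k) (r k) (r' k) p q)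
  sh : ∀ (k : ZMod 6) (α : ZMod 6 → D) (b : ZMod 4 → {d // ¬ FR M F d}) (t : PState 4),
    IntF M δ F k → M.SiteNum 6 α → α 0 = δ k → (∀ j, (b j).1 = α (l6 j)) →
    (mapF hF ho ho' hG).SiteNum 4 b → L' 4 b t → t.u 3 = r' k → t.u 2 + r' k = 1 →
    Lo 6 α (sh (a k) (r k) p q t)
  cor : ∀ c, cC M δ F c → Lo 6 (kc M δ c) (w c)

section main

variable {hG hF ho ho'} {L' : LS {d // ¬ FR M F d}} {Lo : LS D} {s s' : PState 6}
  {μ' : {d // ¬ FR M F d} → {d // ¬ FR M F d}}
  {ω' : {d // ¬ FR M F d} → ℕ} {a : ZMod 6 → Bool} {r r' : ZMod 6 → ℕ} {p q : ℕ}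
  {w : ZMod 6 → PState 6} {t : ZMod 6 → PState 4} {L T : ZMod 6 → Bool} {ρ : Pt → Pt}

/-- the state of the folded map at a numbering -/
theorem mapF_state (hR : (mapF hF ho ho' hG).RealL L' (fun y => A y.1) (hdrF hF ho ho' hG) s' μ' ω')
    (hrot : ∀ (n : ℕ) (γ : ZMod n → {d // ¬ FR M F d}) (t : PState n) (c : ZMod n),
      (mapF hF ho ho' hG).SiteNum n γ → A (γ 0).1 → L' n γ t → L' n (fun i => γ (i + c)) (t.rot c))
    {b : ZMod 4 → {d // ¬ FR M F d}} (hb : (mapF hF ho ho' hG).SiteNum 4 b)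
    (hbA : A (b 0).1) : ∃ t, L' 4 b t ∧ HasState μ' ω' b t := by
  obtain ⟨n, γ, t, hn, hγ, ⟨i, hi⟩, ht, hst⟩ := hR.loc (b 0) hbA
  have h1 : n = 4 := by
    have e1 := hγ.deg i
    have e2 := hb.deg 0
    rw [hi] at e1
    omega
  subst h1
  have hs : (mapF hF ho ho' hG).SameSite (γ 0) (b 0) := by
    rw [← hi]
    exact hγ.same hn 0 i
  have hA0 : A (γ 0).1 :=
    (hG.toPatch.sites.same ((fmap_sameSite (hG.foldSetF hF) ho ho' _ _).1 hs)).2 hbA
  obtain ⟨c, hc⟩ := hγ.eq_rot hb hn hs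
  have hbc : b = fun i => γ (i + c) := funext hc
  refine ⟨t.rot c, ?_, fun i => ?_⟩
  · rw [hbc]
    exact hrot 4 γ t c hγ hA0 ht
  · rw [hbc]
    show μ' (γ (i + c)) = γ (t.m (i + c) - c + c) ∧ ω' (γ (i + c)) = t.u (i + c)
    rw [sub_add_cancel]
    exact hst (i + c)

/-- the numbering of the quad of a folded corner hexagon -/
theorem kD_num {c : ZMod 6} (hc : cC M δ F c) :
    (mapF hF ho ho' hG).SiteNum 4 fun n => kD hG hF c (l6 n) := by
  obtain ⟨b, hb, hbn⟩ := hG.mapF_num hF ho ho' hc.2 (hG.cC_deg hF hc.1) (hG.kc_num hF hc.1) rfl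
  have : (fun n => kD hG hF c (l6 n)) = b :=
    funext fun n => Subtype.ext (by rw [kD_l6 hc, hb])
  rw [this]
  exact hbn

/-- the pairing of the folded map -/
theorem mapF_pair (hR : (mapF hF ho ho' hG).RealL L' (fun y => A y.1) (hdrF hF ho ho' hG) s' μ' ω')
    (hm : ∀ (n : ℕ) (γ : ZMod n → {d // ¬ FR M F d}) (t : PState n),
      L' n γ t → ∀ i, t.m (t.m i) = i ∧ t.m i ≠ i)
    (y : {d // ¬ FR M F d}) (hy : A y.1) : μ' (μ' y) = y ∧ μ' y ≠ y ∧
      M.SameSite y.1 (μ' y).1 := by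
  obtain ⟨n, γ, t, hn, hγ, ⟨i, hi⟩, ht, hst⟩ := hR.loc y hy
  have h1 : μ' y = γ (t.m i) := by rw [← hi]; exact (hst i).1
  have h2 := hm n γ t ht i
  refine ⟨?_, ?_, ?_⟩
  · rw [h1, (hst _).1, h2.1, hi]
  · rw [h1, ← hi]
    exact fun h => h2.2 (hγ.inj h)
  · rw [h1, ← hi]
    exact (fmap_sameSite (hG.foldSetF hF) ho ho' _ _).1 (hγ.same hn _ _)

/-- **The state lift of partial folds.** -/
theorem liftF (htou : ∀ d, A d → M.deg d = 6 → ∃ j e, M.SameSite d e ∧ M.SameNode (δ j) e)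
    (hR : (mapF hF ho ho' hG).RealL L' (fun y => A y.1) (hdrF hF ho ho' hG) s' μ' ω')
    (hX : ExF hG hF ho ho' ω' r')
    (hrot : ∀ (n : ℕ) (γ : ZMod n → {d // ¬ FR M F d}) (t : PState n) (c : ZMod n),
      (mapF hF ho ho' hG).SiteNum n γ → A (γ 0).1 → L' n γ t → L' n (fun i => γ (i + c)) (t.rot c))
    (hm : ∀ (n : ℕ) (γ : ZMod n → {d // ¬ FR M F d}) (t : PState n),
      L' n γ t → ∀ i, t.m (t.m i) = i ∧ t.m i ≠ i)
    (hMu : MuF hG hF ho ho' μ') (hP : ParF M δ F a r r' p q w t)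
    (hst : ∀ c, cC M δ F c → ∀ n : ZMod 4, ω' (kD hG hF c (l6 n)) = (t c).u n)
    (hLo : LiftLocF hG hF ho ho' L' Lo a r r' p q w)
    (hL : ∀ c, L c = true ↔ lecC M δ F c) (hT : ∀ c, T c = true ↔ thrC M δ F c)
    (hs : ∀ k, s.u k + r (k + 1) = r k + 1)
    (hρ : ∀ x, vp L x = true → ∃ z e, IP hG hF z x ∧ IP hG hF e (ρ x) ∧
      DStrand (mapF hF ho ho' hG).al μ' (fun z => BL M A δ F z.1) z e)
    (hport : ∀ k, Relation.EqvGen (PStepG L T a ρ fun c => (w c).m) (0, k) (0, s.m k))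
    (hall : ∀ x, up L x = true →
      ∃ k, Relation.EqvGen (PStepG L T a ρ fun c => (w c).m) x (0, k)) :
    ∃ μ ω, M.RealL Lo A δ s μ ω := by
  have hnoc := fun k (hk : F (δ k)) => hG.mapF_no_corner hF ho ho' hk
  have hports := fun {x y : Pt} (h : Relation.EqvGen (PStepG L T a ρ fun c => (w c).m) x y) =>
    hMu.portsG hL hT hP.aI (fun x hx => by
      obtain ⟨z, e, h1, h2, h3⟩ := hρ x hx
      exact hMu.rep (a := a) (w := w) h1 h2 h3) h
  have hhex : ∀ {e : D}, F e → M.deg e = 6 →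
      ∃ (α : ZMod 6 → D) (b : ZMod 4 → {d // ¬ FR M F d}) (t : PState 4),
      M.SiteNum 6 α ∧ α 0 = e ∧ (∀ j, (b j).1 = α (l6 j)) ∧ (mapF hF ho ho' hG).SiteNum 4 b ∧
      L' 4 b t ∧ HasState μ' ω' b t := by
    intro e he h6
    obtain ⟨α, hα, h0, -⟩ := exists_num' h6
    obtain ⟨b, hb, hbn⟩ := hG.mapF_num hF ho ho' he h6 hα h0
    have h5 : A (b 0).1 := by
      rw [hb]
      exact (hG.toPatch.sites.same (hα.same (by decide) 0 _)).1 (by rw [h0]; exact (hF.fs e he).1)
    obtain ⟨t, h6, h7⟩ := mapF_state hR hrot hbn h5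
    exact ⟨α, b, t, hα, h0, hb, hbn, h6, h7⟩
  have hU := hG.unitsF hF ho ho' htou hX hP hst hR.inner
  refine ⟨lmuF hG hF ho ho' μ' a w, lomF M δ F ω' r r' p q w, fun d hd => ?_, fun k => ?_,
    fun d hd => ?_, fun k => ?_, fun d hd => ?_⟩
  · by_cases hsp : ∃ k, IntF M δ F k ∧ M.SameSite (δ k) d
    · obtain ⟨k, hki, hk⟩ := hsp
      rcases hG.deg46 (δ k) with h4 | h6
      · obtain ⟨α, hα, h0, -⟩ := exists_num' h4
        obtain ⟨i, hi⟩ := hα.mem (i := 0) (d := d) (by rw [h0]; exact hk)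
        exact ⟨4, α, _, by decide, hα, ⟨i, hi⟩, hLo.sq k α hki hα h0,
          hG.stF_sq hF ho ho' hki hα h0⟩
      · obtain ⟨α, b, t, hα, h0, hb, hbn, ht, hbst⟩ := hhex hki.2 h6
        obtain ⟨i, hi⟩ := hα.mem (i := 0) (d := d) (by rw [h0]; exact hk)
        have hb3 : b 3 = hdrF hF ho ho' hG k := by
          apply Subtype.ext
          rw [hb, hG.hdr_int hF ho ho' hki (by omega), ← (num6 hα h0).2.1]
          rfl
        have h3 : t.u 3 = r' k := by rw [← (hbst 3).2, hb3, hX.x1 k (hnoc k hki.2)]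
        have h2 : t.u 2 + r' k = 1 := by
          have e1 : b 2 = (mapF hF ho ho' hG).nx.symm (hdrF hF ho ho' hG k) := by
            rw [← hb3, Equiv.eq_symm_apply, hbn.nx]
            rfl
          have e2 := hX.x2 (k - 1) (hnoc _ (hG.int_first hF hki))
          rw [sub_add_cancel] at e2
          rw [← (hbst 2).2, e1, e2]
        exact ⟨6, α, _, by decide, hα, ⟨i, hi⟩, hLo.sh k α b t hki hα h0 hb hbn ht h3 h2,
          hG.stF_sh hF ho ho' hki hα h0 hb hbst (fun j => (hm 4 b t ht j).1) (hm 4 b t ht 3).2⟩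
    · by_cases hcc : ∃ c, cC M δ F c ∧ M.SameSite (δ (c + 1)) d
      · obtain ⟨c, hc, hcs⟩ := hcc
        obtain ⟨i, hi⟩ := hG.kc_mem hF hc.1 hcs
        exact ⟨6, kc M δ c, _, by decide, hG.kc_num hF hc.1, ⟨i, hi⟩, hLo.cor c hc,
          hG.stF_c hF ho ho' hc⟩
      · by_cases hln : ∃ e, F e ∧ M.SameSite e d
        · obtain ⟨e, he, hed⟩ := hln
          have hlk : LkF M δ F e := ⟨he, fun k hk h => hsp ⟨k, hk, by rw [← h]; exact hed⟩,
            fun c hc h => hcc ⟨c, hc, by rw [← h]; exact hed⟩⟩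
          rcases hG.deg46 e with h4 | h6
          · obtain ⟨α, hα, h0, -⟩ := exists_num' h4
            obtain ⟨i, hi⟩ := hα.mem (i := 0) (d := d) (by rw [h0]; exact hed)
            exact ⟨4, α, _, by decide, hα, ⟨i, hi⟩, hLo.lq e α hlk hα h0,
              hG.stF_lq hF ho ho' hlk hα h0⟩
          · obtain ⟨α, b, t, hα, h0, hb, hbn, ht, hbst⟩ := hhex he h6
            obtain ⟨i, hi⟩ := hα.mem (i := 0) (d := d) (by rw [h0]; exact hed)
            have hb3 : (b 3).1 = M.nx.symm e := by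
              rw [hb, ← (num6 hα h0).2.1]
              rfl
            have h3 : t.u 3 = 0 := by
              obtain ⟨j, hj⟩ := (hF.fs e he).2.1
              have hjF := hG.pre_first hF he hj
              rw [← (hbst 3).2]
              refine hX.x3 j (b 3) ?_ ?_ ?_ ?_
              · rw [mapF_sameNode ho ho' hG hF]
                refine Or.inr ⟨j, hG.hdr_cls hF ho ho' hjF, e, he, hj, Or.inr ?_⟩
                rw [hb3]
              · rw [hb3]
                exact (hG.toPatch.sites.same (site_nx_symm e)).1 (hF.fs e he).1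
              · intro h
                exact hG.lk_hdr hF ho ho' hlk hj (by rw [← hb3, h])
              · intro h
                rw [Equiv.eq_symm_apply, hbn.nx] at h
                have h7 : (b (3 + 1)).1 = M.nx (M.nx e) := by
                  rw [hb, ← (num6 hα h0).1, hα.nx]
                  rfl
                exact hG.lk_hdr2 hF ho ho' he j (by rw [← h7, h])
            exact ⟨6, α, _, by decide, hα, ⟨i, hi⟩, hLo.lh e α b t hlk hα h0 hb hbn ht h3,
              hG.stF_lh hF ho ho' hlk hα h0 hb hbst⟩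
        · -- a site which is not folded
          have hu : Unt M F d := fun e he hed => hln ⟨e, he, hed⟩
          obtain ⟨n, γ, t, hn, hγ, ⟨i, hi⟩, ht, hγst⟩ := hR.loc ⟨d, hu.stay⟩ hd
          have hγs : ∀ j, M.SameSite d (γ j).1 := by
            intro j
            have h1 := (fmap_sameSite (hG.foldSetF hF) ho ho' _ _).1 (hγ.same hn i j)
            rw [hi] at h1
            exact h1
          have hγA : ∀ j, A (γ j).1 := fun j => (hG.toPatch.sites.same (hγs j)).1 hd
          have hγu : ∀ j, Unt M F (γ j).1 := fun j => hu.same (hγs j)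
          refine ⟨n, fun j => (γ j).1, t, hn, siteNum_unt ho ho' hG hF hγ hγu,
            ⟨i, congrArg Subtype.val hi⟩, hLo.inner n γ t hn hγ hγA hγu ht, fun j => ?_⟩
          have h1 : ¬ ∃ k, IntF M δ F k ∧ M.SameSite (δ k) (γ j).1 := fun ⟨k, h2, h3⟩ =>
            hγu j _ h2.2 h3
          have h2 : ¬ ∃ c, cC M δ F c ∧ M.SameSite (δ (c + 1)) (γ j).1 := fun ⟨k, h2, h3⟩ =>
            hγu j _ h2.2 h3
          rw [hG.lmuF_of hF ho ho' h1 h2, lomF_of (hγu j), kmuF, komF, dif_pos (γ j).2,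
            dif_pos (γ j).2]
          have h3 := hγst j
          exact ⟨congrArg Subtype.val h3.1, h3.2⟩
  · have h1 := hports (hport k)
    rw [portG0, portG0] at h1
    exact h1
  · obtain ⟨x, hx1, hx⟩ := hMu.allG (a := a) (w := w) hL hT hR.all d hd
    obtain ⟨k, hk⟩ := hall x hx1
    have h1 := hports hk
    refine ⟨k, hx.trans ?_⟩
    rw [portG0] at h1
    exact h1
  · have h1 := hU.1 k
    have h2 := hs k
    omega
  · exact hU.2 d hd

end main

end Gen

end DMap

end GT33
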