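import Pool.Agent.GT33.PartN
import Pool.Agent.GT33.DLiftO
import Pool.Agent.GT33.ExactO

/-!
# GT33 module PARTO: partial folds of objects, the state lift with demands

`PeelFOk`: the conditions for the lifted state.  `Gen.liftLocF`: the local states of the lifted state.
-/

open Classical

namespace GT33

namespace DMap

variable {D : Type} {M : DMap D} {A : D → Prop} {δ : ZMod 6 → D} {F : D → Prop}

open Patch

/-- the conditions for the lifted state -/
structure PeelFOk (M : DMap D) (A : D → Prop) (δ : ZMod 6 → D) (F : D → Prop)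
    (β : (ZMod 6 → D) → Rel) (Fl Fl' : Flags) (s : PState 6) (L T a : ZMod 6 → Bool)
    (r r' : ZMod 6 → ℕ) (p q : ℕ) (w : ZMod 6 → PState 6) (t : ZMod 6 → PState 4)
    (ρ : Pt → Pt) : Prop where
  fl : FlF M δ F Fl Fl'
  par : ParF M δ F a r r' p q w t
  su : ∀ k, s.u k + r (k + 1) = r k + 1
  port : ∀ k, Relation.EqvGen (PStepG L T a ρ fun c => (w c).m) (0, k) (0, s.m k)
  all : ∀ x, up L x = true →
    ∃ k, Relation.EqvGen (PStepG L T a ρ fun c => (w c).m) x (0, k)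
  lk : ∀ (j : ZMod 6) (e : D), F e → M.SameNode (δ j) e → (∀ i, e ≠ δ i) →
    (Fl.lk j true → q ≤ 1) ∧ (Fl.lk j false → p ≤ 1)
  lq : ∀ k, Gen.LkF M δ F (δ k) → M.deg (δ k) = 4 → Gen.SqOk Fl k (lq p q)
  sq : ∀ k, IntF M δ F k → M.deg (δ k) = 4 → Gen.SqOk Fl k (sq (a k) (r k) (r' k) p q)
  lh : ∀ (j : ZMod 6) (α : ZMod 6 → D) (x : PState 4), M.SiteNum 6 α → F (α 0) →
    M.SameNode (δ j) (α 0) → (∀ i k, α i ≠ δ k) → EE 4 x → x.u 3 = 0 →
    (∀ T, Fl'.lk j T → x.u (sideC T 3) ≤ 1) → β α (lfl Fl j) (lh p q x)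
  ll : ∀ (k : ZMod 6) (α : ZMod 6 → D) (x : PState 4), Gen.LkF M δ F (δ k) → M.SiteNum 6 α →
    α 0 = δ k → EE 4 x → x.u 3 = 0 → (∀ T, Fl'.lk k T → x.u (sideC T 3) ≤ 1) →
    β α (sfl Fl k) (GT33.lh p q x)
  sh : ∀ (k : ZMod 6) (α : ZMod 6 → D) (x : PState 4), IntF M δ F k → M.SiteNum 6 α →
    α 0 = δ k → EE 4 x → x.u 3 = r' k → x.u 2 + r' k = 1 →
    (∀ T, Fl'.le k T → x.u (sideC T 3) ≤ 1) → (∀ T, Fl'.ri (k - 1) T → x.u (sideC T 2) ≤ 1) →
    (Fl'.st k → x.u 0 ≤ 1 ∧ x.u 1 ≤ 1) → β α (sfl Fl k) (sh (a k) (r k) p q x)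
  co : ∀ c, cC M δ F c → β (kc M δ c) (cflags Fl c) (w c)

namespace Gen

variable [Fintype D] (hG : M.Gen A δ)

section sites

variable (hF : Pre M A δ F)

include hG hF

/-- the ring sectors of a link -/
theorem lkF_ring {e x : D} (he : FS M A δ e) (hl : ∀ k, e ≠ δ k) (hs : M.SameSite e x)
    (hr : Ring M δ x) : x = e := by
  rcases hG.ring_site he hr hs with h | ⟨i, -, h2⟩
  · exact h
  · exfalso
    rcases hG.fs_or i with h3 | h3
    · exact hl i (hG.fs_uniq he h3 h2).symm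
    · exact hl (i + 1) (hG.fs_uniq he (hG.corHex hF h3).fs0
        (h2.trans (by rw [kc0, ← h3]; exact site_nx _))).symm

/-- the ring sectors of a site at a ring edge -/
theorem spF_ring {k : ZMod 6} {x : D} (hk : FS M A δ (δ k)) (hc : M.nx (δ (k - 1)) ≠ δ k)
    (hs : M.SameSite (δ k) x) (hr : Ring M δ x) : x = δ k ∨ x = M.nx.symm (δ k) := by
  rcases hG.ring_site hk hr hs with h | ⟨i, h1, h2⟩
  · exact Or.inl h
  · right
    rcases hG.fs_or i with h3 | h3
    · rw [h1, hG.fs_uniq hk h3 h2]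
    · exfalso
      have h4 := hG.bd.inj (hG.fs_uniq hk (hG.corHex hF h3).fs0
        (h2.trans (by rw [← h3]; exact site_nx _)))
      have h5 : i = k - 1 := by
        rw [← show i + 1 = k from h4]
        ring
      refine hc ?_
      rw [← h5, h3]
      exact congrArg δ h4

/-- no ring darts in a link -/
theorem lkF_δ {e x : D} (he : FS M A δ e) (hl : ∀ k, e ≠ δ k) (hs : M.SameSite e x)
    (j : ZMod 6) : x ≠ δ j := by
  intro h
  subst h
  rcases hG.fs_or j with h3 | h3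
  · exact hl j (hG.fs_uniq he h3 hs).symm
  · exact hl (j + 1) (hG.fs_uniq he (hG.corHex hF h3).fs0
      (hs.trans (by rw [kc0, ← h3]; exact site_nx _))).symm

/-- one ring dart in a site at a ring edge -/
theorem spF_δ {k j : ZMod 6} {x : D} (hk : FS M A δ (δ k)) (hc : M.nx (δ (k - 1)) ≠ δ k)
    (hs : M.SameSite (δ k) x) (h : x = δ j) : j = k := by
  subst h
  rcases hG.fs_or j with h3 | h3
  · exact hG.bd.inj (hG.fs_uniq hk h3 hs)
  · exfalso
    have h4 := hG.bd.inj (hG.fs_uniq hk (hG.corHex hF h3).fs0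
      (hs.trans (by rw [← h3]; exact site_nx _)))
    have h5 : j = k - 1 := by
      rw [← show j + 1 = k from h4]
      ring
    refine hc ?_
    rw [← h5, h3]
    exact congrArg δ h4

/-- the demands of a link hexagon -/
theorem resF_lfl {Fl : Flags} {e : D} (he : FS M A δ e) (hl : ∀ k, e ≠ δ k) {j : ZMod 6}
    (hj : M.SameNode (δ j) e) {α : ZMod 6 → D} (hα : M.SiteNum 6 α) (h0 : α 0 = e) :
    (M.res δ Fl α).Le (lfl Fl j) := by
  have hs : ∀ i, M.SameSite e (α i) := fun i => by rw [← h0]; exact hα.same (by decide) 0 i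
  have key : ∀ a i, M.SameNode (δ i) (α a) → a = 0 ∧ i = j := by
    intro a i h
    have h1 := hG.lkF_ring hF he hl (hs a) ⟨i, h⟩
    refine ⟨hα.inj (h1.trans h0.symm), ?_⟩
    rw [h1] at h
    exact hG.node_idx (h.trans hj.symm)
  refine ⟨?_, ?_, ?_, ?_⟩
  · rintro a T ⟨i, h1, h2⟩
    obtain ⟨rfl, rfl⟩ := key a i h1
    exact ⟨rfl, h2⟩
  · rintro a T ⟨i, h1, -, h3⟩
    obtain ⟨rfl, rfl⟩ := key a i h1
    exact ⟨rfl, h3 (hG.lkF_δ hF he hl (hs _) _)⟩
  · rintro a T ⟨i, h1, -, h3⟩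
    obtain ⟨rfl, rfl⟩ := key a i h1
    exact ⟨rfl, h3 (hG.lkF_δ hF he hl (hs _) _)⟩
  · rintro a ⟨i, h1, -⟩
    exact hG.lkF_δ hF he hl (hs _) _ h1

/-- the demands of a hexagon at a ring edge -/
theorem resF_sfl {Fl : Flags} {k : ZMod 6} (hk : FS M A δ (δ k)) (hc : M.nx (δ (k - 1)) ≠ δ k)
    {α : ZMod 6 → D} (hα : M.SiteNum 6 α) (h0 : α 0 = δ k) : (M.res δ Fl α).Le (sfl Fl k) := by
  obtain ⟨h1', h5, -⟩ := num6 hα h0
  have hs : ∀ i, M.SameSite (δ k) (α i) := fun i => by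
    rw [← h0]; exact hα.same (by decide) 0 i
  have hpn : M.SameNode (δ (k - 1)) (M.nx.symm (δ k)) := by
    have := hG.toPatch.prev_node (k - 1)
    rwa [sub_add_cancel] at this
  have key : ∀ a i, M.SameNode (δ i) (α a) → (a = 0 ∧ i = k) ∨ (a = 5 ∧ i = k - 1) := by
    intro a i h
    rcases hG.spF_ring hF hk hc (hs a) ⟨i, h⟩ with h1 | h1
    · left
      refine ⟨hα.inj (h1.trans h0.symm), ?_⟩
      rw [h1] at h
      exact hG.node_idx h
    · right
      refine ⟨hα.inj (h1.trans h5.symm), ?_⟩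
      rw [h1] at h
      exact hG.node_idx (h.trans hpn.symm)
  have h5n : ∀ i, α 5 ≠ δ i := fun i h => by
    have h1 := hG.spF_δ hF hk hc (hs 5) h
    subst h1
    rw [← h0] at h
    exact absurd (hα.inj h) (by decide)
  have h1n : ∀ i, α 1 ≠ δ i := fun i h => by
    have h1 := hG.spF_δ hF hk hc (hs 1) h
    subst h1
    rw [← h0] at h
    exact absurd (hα.inj h) (by decide)
  refine ⟨?_, ?_, ?_, ?_⟩
  · rintro a T ⟨i, h1, h2⟩
    rcases key a i h1 with ⟨rfl, rfl⟩ | ⟨rfl, rfl⟩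
    · exact Or.inl ⟨rfl, h2⟩
    · exact Or.inr ⟨rfl, h2⟩
  · rintro a T ⟨i, h1, h2, h3⟩
    rcases key a i h1 with ⟨rfl, rfl⟩ | ⟨rfl, rfl⟩
    · exact Or.inl ⟨rfl, h2 h0⟩
    · exact Or.inr ⟨rfl, h3 (h5n _)⟩
  · rintro a T ⟨i, h1, h2, h3⟩
    rcases key a i h1 with ⟨rfl, rfl⟩ | ⟨rfl, rfl⟩
    · exact Or.inl ⟨rfl, h3 (h1n _)⟩
    · refine Or.inr ⟨rfl, h2 ?_⟩
      rw [sub_add_cancel, ← h0]
      rfl
  · rintro a ⟨i, h1, h2⟩
    have h3 := hG.spF_δ hF hk hc (hs a) h1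
    subst h3
    exact ⟨hα.inj (h1.trans h0.symm), h2⟩

/-- the local state of a link quad -/
theorem qs_lkF {Fl : Flags} {p q : ℕ} (hpq : p + q = 3) (hp : 1 ≤ p) (hq : 1 ≤ q) {e : D}
    (he : FS M A δ e) (hl : ∀ k, e ≠ δ k) (hd : ∀ j, M.SameNode (δ j) e →
      (Fl.lk j true → q ≤ 1) ∧ (Fl.lk j false → p ≤ 1)) {α : ZMod 4 → D} (hα : M.SiteNum 4 α)
    (h0 : α 0 = e) : M.QS δ Fl α (lq p q) := by
  have hs : ∀ i, M.SameSite e (α i) := fun i => by rw [← h0]; exact hα.same (by decide) 0 i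
  have hee : EE 4 (lq p q) := by
    have : (p = 1 ∧ q = 2) ∨ (p = 2 ∧ q = 1) := by omega
    rcases this with ⟨rfl, rfl⟩ | ⟨rfl, rfl⟩
    · exact ⟨0, 3, PState.ext' (by decide) (by decide)⟩
    · exact ⟨0, 1, PState.ext' (by decide) (by decide)⟩
  refine ⟨hee, fun b j T h1 h2 => ?_, fun b j h1 _ => absurd h1 (hG.lkF_δ hF he hl (hs b) j)⟩
  have h3 : b = 0 := hα.inj ((hG.lkF_ring hF he hl (hs b) ⟨j, h1⟩).trans h0.symm)
  subst h3
  have h4 := h2.1 (hG.lkF_δ hF he hl (hs _) _) (hG.lkF_δ hF he hl (hs _) _)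
  rw [h0] at h1
  cases T
  · exact (hd j h1).2 h4
  · exact (hd j h1).1 h4

/-- the local state of a quad at a ring edge -/
theorem qs_spF {Fl : Flags} {k : ZMod 6} (hk : FS M A δ (δ k)) (hc : M.nx (δ (k - 1)) ≠ δ k)
    {x : PState 4} (hx : SqOk Fl k x) {α : ZMod 4 → D} (hα : M.SiteNum 4 α) (h0 : α 0 = δ k) :
    M.QS δ Fl α x := by
  have hs : ∀ i, M.SameSite (δ k) (α i) := fun i => by
    rw [← h0]; exact hα.same (by decide) 0 i
  obtain ⟨-, -, h3'⟩ := num4 hα h0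
  have hpn : M.SameNode (δ (k - 1)) (M.nx.symm (δ k)) := by
    have := hG.toPatch.prev_node (k - 1)
    rwa [sub_add_cancel] at this
  have hn : ∀ i j, i ≠ 0 → α i ≠ δ j := fun i j hi h => by
    have h1 := hG.spF_δ hF hk hc (hs i) h
    subst h1
    rw [← h0] at h
    exact hi (hα.inj h)
  refine ⟨hx.ee, fun b j T h1 h2 => ?_, fun b j h1 h2 => ?_⟩
  · rcases hG.spF_ring hF hk hc (hs b) ⟨j, h1⟩ with h5 | h5
    · have hb : b = 0 := hα.inj (h5.trans h0.symm)
      subst hb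
      have hj : j = k := by
        rw [h5] at h1
        exact hG.node_idx h1
      subst hj
      exact hx.le T (h2.2.1 h0)
    · have hb : b = 3 := hα.inj (h5.trans h3'.symm)
      subst hb
      have hj : j = k - 1 := by
        rw [h5] at h1
        exact hG.node_idx (h1.trans hpn.symm)
      subst hj
      refine hx.ri T (h2.2.2 ?_)
      rw [sub_add_cancel, ← h0]
      rfl
  · by_cases hb : b = 0
    · subst hb
      have hj : j = k := hG.spF_δ hF hk hc (hs 0) h1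
      subst hj
      exact hx.st h2
    · exact absurd h1 (hn b j hb)

/-- the node before an interior ring edge is not a corner -/
theorem int_nc {k : ZMod 6} (hk : IntF M δ F k) : M.nx (δ (k - 1)) ≠ δ k := fun h =>
  hG.int_cor hF hk (c := k - 1) (d := δ k) ⟨by rw [h, sub_add_cancel], by
    rw [sub_add_cancel]; exact hk.2⟩ (Equiv.Perm.SameCycle.refl _ _)
    (by rw [sub_add_cancel])

omit [Fintype D] hG hF in
/-- the node before a left end is not a corner -/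
theorem left_nc {k : ZMod 6} (hk : LkF M δ F (δ k)) : M.nx (δ (k - 1)) ≠ δ k := fun h =>
  hk.2.2 (k - 1) ⟨by rw [h, sub_add_cancel], by rw [sub_add_cancel]; exact hk.1⟩
    (by rw [sub_add_cancel])

end sites

variable {hF : Pre M A δ F} {o : D → Bool} {ho : ∀ d, o (M.nx d) = !o d}
  {ho' : ∀ d, o (M.al d) = !o d}

/-- the demands of the quad of a folded link hexagon -/
theorem dem_lh {Fl' : Flags} {e : D} (he : LkF M δ F e) {j : ZMod 6} (hj : M.SameNode (δ j) e)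
    {α : ZMod 6 → D} (hα : M.SiteNum 6 α) (h0 : α 0 = e) {b : ZMod 4 → {d // ¬ FR M F d}}
    (hb : ∀ j, (b j).1 = α (l6 j)) {x : PState 4}
    (hx : (mapF hF ho ho' hG).QS (hdrF hF ho ho' hG) Fl' b x) {T : Bool} (hT : Fl'.lk j T) :
    x.u (sideC T 3) ≤ 1 := by
  have hb3 : (b 3).1 = M.nx.symm e := by
    rw [hb, ← (num6 hα h0).2.1]
    rfl
  have hb0 : (b 0).1 = M.nx (M.nx e) := by
    rw [hb, ← (num6 hα h0).1, hα.nx]
    rfl
  have hnode : (mapF hF ho ho' hG).SameNode (hdrF hF ho ho' hG j) (b 3) := by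
    rw [mapF_sameNode ho ho' hG hF]
    refine Or.inr ⟨j, hG.hdr_cls hF ho ho' (hG.pre_first hF he.1 hj), e, he.1, hj, Or.inr ?_⟩
    rw [hb3]
  refine hx.dem 3 j T hnode ⟨fun _ _ => hT, fun h4 => ?_, fun h4 => ?_⟩
  · exact absurd (by rw [← hb3, h4]) (hG.lk_hdr hF ho ho' he hj)
  · exact absurd (by
      rw [← hb0, show b 0 = b (3 + 1) from rfl, h4]) (hG.lk_hdr2 hF ho ho' he.1 j)

/-- the local states of the lift for flags -/
theorem liftLocF {β : (ZMod 6 → D) → Rel} (anti : ∀ γ F G t, M.SiteNum 6 γ → A (γ 0) → F.Le G →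
      β γ G t → β γ F t)
    (htou : ∀ d, A d → M.deg d = 6 → ∃ j e, M.SameSite d e ∧ M.SameNode (δ j) e)
    {Fl Fl' : Flags} {s : PState 6} {L T a : ZMod 6 → Bool} {r r' : ZMod 6 → ℕ} {p q : ℕ}
    {w : ZMod 6 → PState 6} {t : ZMod 6 → PState 4} {ρ : Pt → Pt}
    (h : PeelFOk M A δ F β Fl Fl' s L T a r r' p q w t ρ) :
    LiftLocF hG hF ho ho' ((mapF hF ho ho' hG).OL (hdrF hF ho ho' hG)
      (fun γ => β fun i => (γ i).1) Fl') (M.OL δ β Fl) a r r' p q w := by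
  have hP := hG.mapF_patch hF ho ho'
  have hnoc := fun k (hk : F (δ k)) => hG.mapF_no_corner hF ho ho' hk
  refine ⟨fun n γ t _ hγ hγA hu ht => OL_unt ho ho' hG hF h.fl anti hγ hγA hu ht,
    fun e α he hα h0 => ?_, fun e α b x he hα h0 hb hbn hx h3 => ?_, fun k α hk hα h0 => ?_,
    fun k α b x hk hα h0 hb hbn hx h3 h2 => ?_, fun c hc => ?_⟩
  · -- link quads
    by_cases hl : ∀ i, e ≠ δ i
    · exact hG.qs_lkF hF h.par.pq h.par.p1 h.par.q1 (hF.fs e he.1) hl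
        (fun j hj => h.lk j e he.1 hj hl) hα h0
    · push Not at hl
      obtain ⟨k, rfl⟩ := hl
      exact hG.qs_spF hF (hF.fs _ he.1) (left_nc he) (h.lq k he (by rw [← h0]; exact hα.deg 0))
        hα h0
  · -- link hexagons
    have hx : (mapF hF ho ho' hG).QS (hdrF hF ho ho' hG) Fl' b x := hx
    obtain ⟨j, hj⟩ := (hF.fs e he.1).2.1
    have hA : A (α 0) := by rw [h0]; exact (hF.fs e he.1).1
    have hs : ∀ i, M.SameSite e (α i) := fun i => by rw [← h0]; exact hα.same (by decide) 0 i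
    by_cases hl : ∀ i, e ≠ δ i
    · refine anti α _ _ _ hα hA (hG.resF_lfl hF (Fl := Fl) (hF.fs e he.1) hl hj hα h0) ?_
      exact h.lh j α x hα (by rw [h0]; exact he.1) (by rw [h0]; exact hj)
        (fun i k => hG.lkF_δ hF (hF.fs e he.1) hl (hs i) k) hx.ee h3
        fun T hT => hG.dem_lh he hj hα h0 hb hx hT
    · push Not at hl
      obtain ⟨k, rfl⟩ := hl
      have hjk := hG.node_idx hj
      subst hjk
      refine anti α _ _ _ hα hA (hG.resF_sfl hF (Fl := Fl) (hF.fs _ he.1) (left_nc he) hα h0) ?_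
      exact h.ll j α x he hα h0 hx.ee h3 fun T hT => hG.dem_lh he hj hα h0 hb hx hT
  · -- interior quads
    exact hG.qs_spF hF (hF.fs _ hk.2) (hG.int_nc hF hk) (h.sq k hk (by rw [← h0]; exact hα.deg 0))
      hα h0
  · -- interior hexagons
    have hx : (mapF hF ho ho' hG).QS (hdrF hF ho ho' hG) Fl' b x := hx
    have hb3 : b 3 = hdrF hF ho ho' hG k := by
      apply Subtype.ext
      rw [hb, hG.hdr_int hF ho ho' hk (by rw [← h0, hα.deg 0]; decide), ← (num6 hα h0).2.1]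
      rfl
    have hb2 : b 2 = (mapF hF ho ho' hG).nx.symm (hdrF hF ho ho' hG k) := by
      rw [← hb3, Equiv.eq_symm_apply, hbn.nx]
      rfl
    have hk1 := hG.int_first hF hk
    refine anti α _ _ _ hα (by rw [h0]; exact hG.toPatch.inA k)
      (hG.resF_sfl hF (Fl := Fl) (hF.fs _ hk.2) (hG.int_nc hF hk) hα h0) ?_
    refine h.sh k α x hk hα h0 hx.ee h3 h2 (fun T hT => ?_) (fun T hT => ?_) fun hT => ?_
    · refine hx.dem 3 k T (by rw [hb3]) ⟨fun h4 => absurd hb3 h4, fun _ => hT, fun h4 => ?_⟩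
      exact absurd (by rw [← h4, ← hb3, hbn.nx]) (hnoc k hk.2)
    · have hn : (mapF hF ho ho' hG).SameNode (hdrF hF ho ho' hG (k - 1)) (b 2) := by
        have := hP.prev_node (k - 1)
        rw [sub_add_cancel] at this
        rw [hb2]
        exact this
      refine hx.dem 2 (k - 1) T hn ⟨fun _ h4 => absurd ?_ h4, fun h4 => absurd ?_ (hnoc (k - 1) hk1),
        fun _ => hT⟩
      · rw [sub_add_cancel, ← hb3]
        rfl
      · rw [sub_add_cancel, ← h4, hbn.nx, ← hb3]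
        rfl
    · exact hx.st 3 k hb3 hT
  · -- corner hexagons
    have hC := hG.corHex hF hc.1
    exact anti _ _ _ _ hC.num (hC.kA 0) (hC.res_c Fl) (h.co c hc)

end Gen

end DMap

end GT33
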