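import Pool.Agent.GT33.PreD
import Pool.Agent.GT33.DLiftO

/-!
# GT33 module PARTS: strands of the lifted state, partial folds

`F`: initial segments of the fold sectors (`Pre M A δ F`).  `Gen.LiftMuF`: the pairing `μ` of the patch is a lift of the
pairing `μ'` of the folded map.  `LiftMuF.str`: the strands of `μ'` in the region `B` give strands of `μ`.
`LiftMuF.port1`: the strand around a ring node.
-/

open Classical

namespace GT33

namespace DMap

variable {D : Type} {M : DMap D} {A : D → Prop} {δ : ZMod 6 → D} {F : D → Prop}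

open Patch

/-- the ring edge `k` is an edge of a folded site, and all fold sectors of the ring node `k - 1` are folded -/
def IntF (M : DMap D) (δ : ZMod 6 → D) (F : D → Prop) (k : ZMod 6) : Prop :=
  full M δ F (k - 1) ∧ F (δ k)

/-- the darts of the ports -/
noncomputable def portF (M : DMap D) (δ : ZMod 6 → D) (F : D → Prop) (X : ZMod 6 → D)
    (x : Fin 3 × ZMod 6) : D :=
  if x.1 = 0 then δ x.2 else if x.1 = 1 then (if F (δ x.2) then M.nx (δ x.2) else δ x.2) else X x.2

section

variable {X : ZMod 6 → D}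

theorem portF0 (k : ZMod 6) : portF M δ F X (0, k) = δ k := by simp [portF]

theorem portF1 {k : ZMod 6} (h : F (δ k)) : portF M δ F X (1, k) = M.nx (δ k) := by
  simp [portF, h]

theorem portF1' {k : ZMod 6} (h : ¬ F (δ k)) : portF M δ F X (1, k) = δ k := by
  simp [portF, h]

theorem portF2 (k : ZMod 6) : portF M δ F X (2, k) = X k := by
  have h1 : (2 : Fin 3) ≠ 0 := by decide
  have h2 : (2 : Fin 3) ≠ 1 := by decide
  simp [portF, h1, h2]

end

namespace Gen

variable [Fintype D] (hG : M.Gen A δ) (hF : Pre M A δ F)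

include hG in
/-- the last sector of a ring node -/
theorem last_idx {i j : ZMod 6} (h : M.SameNode (δ i) (M.nx.symm (δ j))) : j = i + 1 := by
  have h3 := hG.toPatch.prev_node (j - 1)
  rw [sub_add_cancel] at h3
  rw [hG.node_idx (h.trans h3.symm)]
  ring

variable {o : D → Bool} (ho : ∀ d, o (M.nx d) = !o d) (ho' : ∀ d, o (M.al d) = !o d)

/-- the ring dart after a full ring node, if the next site at the ring is not a folded quad -/
theorem hdrF_full {i : ZMod 6} (h : full M δ F i) (hq : ¬ (F (δ (i + 1)) ∧ M.deg (δ (i + 1)) = 4)) :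
    (hdrF hF ho ho' hG (i + 1)).1 = M.nx.symm (δ (i + 1)) := by
  have h1 : ¬ FR M F (M.nx.symm (δ (i + 1))) := fun h2 =>
    hq (hG.frF_ring hF h2 (hG.toPatch.prev_node i) fun h3 => (hF.fs _ h3).2.2 (i + 1) rfl).2
  rw [hG.hdrF_stop hF ho ho' (hG.toPatch.prev_node i) h h1]

/-- the ring dart of an interior hexagon -/
theorem hdr_int {k : ZMod 6} (hk : IntF M δ F k) (h : M.deg (δ k) ≠ 4) :
    (hdrF hF ho ho' hG k).1 = M.nx.symm (δ k) := by
  have := hG.hdrF_full hF ho ho' hk.1 (by rw [sub_add_cancel]; exact fun h4 => h h4.2)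
  rwa [sub_add_cancel] at this

/-- the ring dart of an interior quad -/
theorem hdr_int4 {k : ZMod 6} (hk : IntF M δ F k) (h : M.deg (δ k) = 4) :
    (hdrF hF ho ho' hG k).1 = M.al (M.nx (M.nx (δ k))) := by
  have h1 := hG.hdrF_quad hF ho ho' (k := k - 1) (by rw [sub_add_cancel]; exact hk.2)
    (by rw [sub_add_cancel]; exact h) hk.1
  rw [sub_add_cancel] at h1
  rw [h1]
  exact if_pos h

theorem hdrF_al_notA (k : ZMod 6) : ¬ A ((mapF hF ho ho' hG).al (hdrF hF ho ho' hG k)).1 := by
  rw [hG.hdrF_al hF ho ho' k]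
  exact hG.toPatch.notA _

theorem hdrF_inj {j k : ZMod 6} (h : hdrF hF ho ho' hG j = hdrF hF ho ho' hG k) : j = k := by
  have h1 : M.al (δ (j - 1)) = M.al (δ (k - 1)) := by
    have := hG.hdrF_al hF ho ho' j
    rw [h, hG.hdrF_al hF ho ho' k] at this
    exact (congrArg Subtype.val this).symm
  exact sub_left_injective (hG.bd.inj (M.al_inj h1))

/-- the end of the strand around the ring node `i` -/
noncomputable def endF (hG : M.Gen A δ) (hF : Pre M A δ F) (ho : ∀ d, o (M.nx d) = !o d)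
    (ho' : ∀ d, o (M.al d) = !o d) (i : ZMod 6) : D :=
  if full M δ F i then M.nx.symm (δ (i + 1)) else (hdrF hF ho ho' hG (i + 1)).1

theorem endF_full {i : ZMod 6} (h : full M δ F i) : endF hG hF ho ho' i = M.nx.symm (δ (i + 1)) :=
  if_pos h

/-- the end of the strand around a ring node, and the next port -/
theorem endF_ext {i : ZMod 6} (h : ¬ (IntF M δ F (i + 1) ∧ M.deg (δ (i + 1)) = 4)) :
    endF hG hF ho ho' i = (hdrF hF ho ho' hG (i + 1)).1 := by
  unfold endF
  by_cases h1 : full M δ F i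
  · rw [if_pos h1]
    refine (hG.hdrF_full hF ho ho' h1 fun h2 => h ⟨⟨?_, h2.1⟩, h2.2⟩).symm
    rwa [add_sub_cancel_right]
  · rw [if_neg h1]

theorem endF_int {i : ZMod 6} (h : IntF M δ F (i + 1)) :
    endF hG hF ho ho' i = M.nx.symm (δ (i + 1)) := by
  have := h.1
  rw [add_sub_cancel_right] at this
  exact if_pos this

theorem endF_none {i : ZMod 6} (h : ¬ F (δ i)) : endF hG hF ho ho' i = δ i := by
  have h2 : ¬ full M δ F i := fun h1 =>
    h (hG.pre_first hF h1 ((hG.toPatch.prev_node i).trans (fs_node _)))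
  rw [endF, if_neg h2, hG.hdrF_δ hF ho ho' h]

theorem endF_A (i : ZMod 6) : A (endF hG hF ho ho' i) := by
  unfold endF
  split_ifs
  · exact hG.toPatch.prev_in _
  · exact hG.hdrF_A hF ho ho' _

/-- the pairing `μ` is a lift of `μ'`; the strand of `μ'` at the ring dart `k` starts at `X k` -/
structure LiftMuF (B : D → Prop) (μ' : {d // ¬ FR M F d} → {d // ¬ FR M F d}) (μ : D → D)
    (X : ZMod 6 → D) (S : ZMod 6 → Prop) : Prop where
  sites : M.Sites B
  sub : ∀ d, B d → A d
  quadB : ∀ e, F e → M.deg e = 4 → B e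
  inv' : ∀ y, B y.1 → μ' (μ' y) = y
  link : ∀ e, F e → (∀ k, e ≠ δ k) → μ e = M.nx e
  quad : ∀ e, F e → (∀ k, IntF M δ F k → e ≠ δ k) → M.deg e = 4 → μ (M.nx (M.nx e)) = M.nx.symm e
  sB : ∀ k, S k → B (hdrF hF ho ho' hG k).1
  sn : ∀ j k, S j → S k → μ' (hdrF hF ho ho' hG k) = hdrF hF ho ho' hG j → j = k
  s4 : ∀ k, S k → ¬ (IntF M δ F k ∧ M.deg (δ k) = 4)
  XS : ∀ k, S k → X k = (μ' (hdrF hF ho ho' hG k)).1
  X4 : ∀ k, IntF M δ F k → M.deg (δ k) = 4 → X k = M.nx (M.nx (δ k))
  Xo : ∀ k, ¬ S k → ¬ (IntF M δ F k ∧ M.deg (δ k) = 4) → X k = (hdrF hF ho ho' hG k).1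
  keep : ∀ y, B y.1 → (∀ k, S k → y ≠ hdrF hF ho ho' hG k ∧ y ≠ μ' (hdrF hF ho ho' hG k)) →
    μ y.1 = (μ' y).1

/-- the dart of `M` which belongs to a dart of the folded map -/
noncomputable def phiF (μ' : {d // ¬ FR M F d} → {d // ¬ FR M F d}) (S : ZMod 6 → Prop)
    (y : {d // ¬ FR M F d}) : D :=
  if ∃ k, S k ∧ y = hdrF hF ho ho' hG k then (μ' y).1 else y.1

variable {hG hF}
variable {B : D → Prop} {μ' : {d // ¬ FR M F d} → {d // ¬ FR M F d}} {μ : D → D} {X : ZMod 6 → D}
  {S : ZMod 6 → Prop} (hμ : LiftMuF hG hF ho ho' B μ' μ X S)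

theorem phiF_of {y : {d // ¬ FR M F d}} (h : ∀ k, S k → y ≠ hdrF hF ho ho' hG k) :
    phiF hG hF ho ho' μ' S y = y.1 := if_neg fun ⟨k, h1, h2⟩ => h k h1 h2

theorem phiF_in {y : {d // ¬ FR M F d}} (h : A ((mapF hF ho ho' hG).al y).1) :
    phiF hG hF ho ho' μ' S y = y.1 :=
  phiF_of ho ho' fun k _ h1 => hG.hdrF_al_notA hF ho ho' k (by rw [← h1]; exact h)

namespace LiftMuF

include hμ

theorem phi_S {k : ZMod 6} (hk : S k) : phiF hG hF ho ho' μ' S (hdrF hF ho ho' hG k) = X k := by
  rw [phiF, if_pos ⟨k, hk, rfl⟩, hμ.XS k hk]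

/-- an inner edge of the folded map gives a strand -/
theorem alStep {C : D → Prop} (hBC : ∀ d, B d → C d) (hC : M.Sites C) {x : {d // ¬ FR M F d}}
    (hx : C x.1) (hx' : C ((mapF hF ho ho' hG).al x).1) (hxA : A x.1)
    (hxA' : A ((mapF hF ho ho' hG).al x).1) :
    M.Str C μ x.1 ((mapF hF ho ho' hG).al x).1 := by
  rcases hG.mapF_cases hF ho ho' x with h | ⟨i, -, h⟩ | ⟨i, h⟩ | ⟨e, h3, h4, hl, h⟩
  · rw [fmap_al_of (hG.foldSetF hF) ho ho' h] at hx' ⊢
    exact Str.al hx hx'
  · exact absurd (by rw [← h]; exact hxA) (hG.toPatch.notA i)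
  · exact absurd (by rw [← h]; exact hxA') (hG.hdrF_al_notA hF ho ho' i)
  · have hCe : C e := hBC _ (hμ.quadB e h3 h4)
    have hA2 : C (M.nx (M.nx e)) := (hC.same ((site_nx _).trans (site_nx _))).1 hCe
    have hA3 : C (M.nx.symm e) := (hC.same (site_nx_symm _)).1 hCe
    have hm := Str.mu (M := M) (A := C) (μ := μ) hA2
    rw [hμ.quad e h3 (fun k hk hek => hl k hek (by
      have := hk.1
      unfold full at this
      rwa [sub_add_cancel] at this)) h4] at hm
    rcases h with ⟨h5, h6⟩ | ⟨h5, h6⟩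
    · rw [h6]
      rw [h6] at hx'
      rw [h5] at hx
      rw [h5]
      have s1 := Str.al (M := M) (μ := μ) hA2 hx
      have s2 := Str.al (M := M) (μ := μ) hA3 hx'
      exact (s1.symm.trans hm).trans s2
    · rw [h6]
      rw [h6] at hx'
      rw [h5] at hx
      rw [h5]
      have s1 := Str.al (M := M) (μ := μ) hA3 hx
      have s2 := Str.al (M := M) (μ := μ) hA2 hx'
      exact (s1.symm.trans hm.symm).trans s2

/-- the strands of the folded map give strands -/
theorem str {x y : {d // ¬ FR M F d}} (h : (mapF hF ho ho' hG).Str (fun z => B z.1) μ' x y) :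
    M.Str B μ (phiF hG hF ho ho' μ' S x) (phiF hG hF ho ho' μ' S y) := by
  induction h with
  | rel x y hxy =>
    obtain ⟨hx, h | ⟨h, hy⟩⟩ := hxy
    · subst h
      by_cases h1 : ∃ k, S k ∧ x = hdrF hF ho ho' hG k
      · obtain ⟨k, hk, rfl⟩ := h1
        have h2 : phiF hG hF ho ho' μ' S (μ' (hdrF hF ho ho' hG k)) =
            (μ' (hdrF hF ho ho' hG k)).1 := by
          by_cases h3 : ∃ j, S j ∧ μ' (hdrF hF ho ho' hG k) = hdrF hF ho ho' hG j
          · obtain ⟨j, hj, h4⟩ := h3
            have h5 := hμ.sn j k hj hk h4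
            subst h5
            rw [h4, phiF, if_pos ⟨j, hj, rfl⟩, h4]
          · push Not at h3
            exact phiF_of ho ho' h3
        rw [h2, hμ.phi_S ho ho' hk, hμ.XS k hk]
        exact Str.refl _
      · push Not at h1
        rw [phiF_of ho ho' h1]
        by_cases h2 : ∃ k, S k ∧ x = μ' (hdrF hF ho ho' hG k)
        · obtain ⟨k, hk, rfl⟩ := h2
          rw [hμ.inv' _ (hμ.sB k hk), hμ.phi_S ho ho' hk, hμ.XS k hk]
          exact Str.refl _
        · push Not at h2
          have h3 := hμ.keep x hx fun k hk => ⟨h1 k hk, h2 k hk⟩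
          have h4 : ∀ k, S k → μ' x ≠ hdrF hF ho ho' hG k :=
            fun k hk h5 => h2 k hk (by rw [← h5, hμ.inv' x hx])
          rw [phiF_of ho ho' h4, ← h3]
          exact Str.mu hx
    · subst h
      rw [phiF_in ho ho' (hμ.sub _ hy), phiF_in ho ho' (y := (mapF hF ho ho' hG).al x) (by
        rw [(mapF hF ho ho' hG).inv]; exact hμ.sub _ hx)]
      exact hμ.alStep ho ho' (fun _ h => h) hμ.sites hx hy (hμ.sub _ hx) (hμ.sub _ hy)
  | refl x => exact Str.refl _
  | symm x y _ ih => exact ih.symm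
  | trans x y z _ _ ih1 ih2 => exact ih1.trans ih2

/-- the strand which ends at the ring edge `k` of the folded map -/
theorem hdr_X (k : ZMod 6) : M.Str A μ (phiF hG hF ho ho' μ' S (hdrF hF ho ho' hG k)) (X k) := by
  by_cases hk : S k
  · rw [hμ.phi_S ho ho' hk]
    exact Str.refl _
  · rw [phiF_of ho ho' fun j hj h2 => hk (by rw [hG.hdrF_inj hF ho ho' h2]; exact hj)]
    by_cases h4 : IntF M δ F k ∧ M.deg (δ k) = 4
    · have h3 : A (M.nx (M.nx (δ k))) :=
        (hG.toPatch.sites.same ((site_nx _).trans (site_nx _))).1 (hG.toPatch.inA k)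
      have h5 := hG.hdrF_A hF ho ho' k
      rw [hG.hdr_int4 hF ho ho' h4.1 h4.2] at h5 ⊢
      rw [hμ.X4 k h4.1 h4.2]
      exact (Str.al h3 h5).symm
    · rw [hμ.Xo k hk h4]
      exact Str.refl _

/-- the strand around a ring node -/
theorem chain {i : ZMod 6} {g : D} (hg : F g) (hn : M.SameNode (δ i) g) :
    M.Str A μ (M.nx g) (endF hG hF ho ho' i) := by
  have h0 : M.SameNode g (M.nx.symm (δ (i + 1))) := hn.symm.trans (hG.toPatch.prev_node i)
  obtain ⟨k, hk⟩ := h0.symm.exists_nat_pow_eq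
  induction k generalizing g with
  | zero =>
    exfalso
    exact (hF.fs g hg).2.2 (i + 1) (by simpa using hk.symm)
  | succ k ih =>
    have hin := hG.fs_inn (hF.fs g hg)
    have hfs : M.fs (M.al (M.nx g)) = g := by rw [fs_al, Equiv.symm_apply_apply]
    have hk' : (M.fs ^ k) (M.nx.symm (δ (i + 1))) = M.al (M.nx g) := by
      apply M.fs.injective
      rw [hfs, ← hk, add_comm k 1, pow_add, pow_one, Equiv.Perm.mul_apply]
    have hn' : M.SameNode (δ i) (M.al (M.nx g)) := hn.trans (al_node g).symm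
    refine (Str.al hin.1 hin.2).trans ?_
    by_cases h1 : F (M.al (M.nx g))
    · have h2 : ∀ j, M.al (M.nx g) ≠ δ j := fun j hj => hG.toPatch.notA j (by
        rw [← hj, M.inv]; exact hin.1)
      have h5 := Str.mu (M := M) (A := A) (μ := μ) hin.2
      rw [hμ.link _ h1 h2] at h5
      exact h5.trans (ih h1 hn' (hn'.symm.trans (hG.toPatch.prev_node i)) hk')
    · have h2 : M.al (M.nx g) = endF hG hF ho ho' i := by
        unfold endF
        by_cases h3 : full M δ F i
        · rw [if_pos h3]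
          by_contra h4
          refine h1 (hG.full_all hF h3 ⟨hin.2, ring_same hn' (ring_δ i), fun j hj => h4 ?_⟩ hn')
          have h5 : j = i + 1 := hG.last_idx (by rw [← hj]; exact hn')
          rw [hj, h5]
        · rw [if_neg h3]
          have h4 : ¬ FR M F (M.al (M.nx g)) := fun h4 => h3 (by
            unfold full
            rw [← (hG.frF_ring hF h4 hn' h1).1, hfs]
            exact hg)
          rw [hG.hdrF_stop hF ho ho' hn' (by rw [hfs]; exact hg) h4]
      rw [h2]
      exact Str.refl _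

/-- the port of the strand around a ring node -/
theorem port1 (k : ZMod 6) :
    M.Str A μ (portF M δ F X (1, k)) (endF hG hF ho ho' k) := by
  by_cases h : F (δ k)
  · rw [portF1 h]
    exact hμ.chain ho ho' h (Equiv.Perm.SameCycle.refl _ _)
  · rw [portF1' h, hG.endF_none hF ho ho' h]
    exact Str.refl _

/-- the first dart of a strand is in the patch -/
theorem X_A (hs : ∀ k, S k → M.SameSite (hdrF hF ho ho' hG k).1 (μ' (hdrF hF ho ho' hG k)).1)
    (k : ZMod 6) : A (X k) := by
  by_cases hk : S k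
  · rw [hμ.XS k hk]
    exact (hG.toPatch.sites.same (hs k hk)).1 (hG.hdrF_A hF ho ho' k)
  · by_cases h4 : IntF M δ F k ∧ M.deg (δ k) = 4
    · rw [hμ.X4 k h4.1 h4.2]
      exact (hG.toPatch.sites.same ((site_nx _).trans (site_nx _))).1 (hG.toPatch.inA k)
    · rw [hμ.Xo k hk h4]
      exact hG.hdrF_A hF ho ho' k

end LiftMuF

end Gen

end DMap

end GT33
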