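import Pool.Agent.GT33.PartS
import Pool.Agent.GT33.PartL
import Pool.Agent.GT33.CFold

/-!
# GT33 module PARTT: the lifted state, partial folds

`lmuF`, `lomF`: the pairing and the units of the lifted state.  `cC M δ F c`: the corner hexagon `c` is folded.  The
local states are `lq`, `lh` (links and left ends), `sq`, `sh` (interior sites at ring edges), `w c` (folded corner
hexagons, in the numbering `kc M δ c`).
-/

open Classical

namespace GT33

namespace DMap

variable {D : Type} {M : DMap D} {A : D → Prop} {δ : ZMod 6 → D} {F : D → Prop}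

open Patch

/-- the corner hexagon `c` is folded -/
def cC (M : DMap D) (δ : ZMod 6 → D) (F : D → Prop) (c : ZMod 6) : Prop :=
  M.nx (δ c) = δ (c + 1) ∧ F (δ (c + 1))

/-- the numbering of a corner hexagon -/
def kc (M : DMap D) (δ : ZMod 6 → D) (c i : ZMod 6) : D := M.nx^[i.val] (δ (c + 1))

theorem kc0 (c : ZMod 6) : kc M δ c 0 = δ (c + 1) := rfl

theorem kc1 (c : ZMod 6) : kc M δ c 1 = M.nx (δ (c + 1)) := rfl

theorem kc2 (c : ZMod 6) : kc M δ c 2 = M.nx (M.nx (δ (c + 1))) := rfl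

theorem kc3 (c : ZMod 6) : kc M δ c 3 = M.nx (M.nx (M.nx (δ (c + 1)))) := rfl

theorem kc4 (c : ZMod 6) : kc M δ c 4 = M.nx (M.nx (M.nx (M.nx (δ (c + 1))))) := rfl

theorem kc5 (c : ZMod 6) : kc M δ c 5 = M.nx (M.nx (M.nx (M.nx (M.nx (δ (c + 1)))))) := rfl

section defs

variable [Fintype D] (hG : M.Gen A δ) (hF : Pre M A δ F) {o : D → Bool}
  (ho : ∀ d, o (M.nx d) = !o d) (ho' : ∀ d, o (M.al d) = !o d)
  (μ' : {d // ¬ FR M F d} → {d // ¬ FR M F d}) (ω' : {d // ¬ FR M F d} → ℕ)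
  (a : ZMod 6 → Bool) (r r' : ZMod 6 → ℕ) (p q : ℕ) (w : ZMod 6 → PState 6)

/-- the pairing of kept darts and links -/
noncomputable def kmuF (d : D) : D := if h : ¬ FR M F d then (μ' ⟨d, h⟩).1 else fmu M F d

/-- the units of kept darts -/
noncomputable def komF (d : D) : ℕ := if h : ¬ FR M F d then ω' ⟨d, h⟩ else 0

/-- the ring edges of the folded map at hexagons whose pairing is changed -/
def SF (M : DMap D) (δ : ZMod 6 → D) (F : D → Prop) (k : ZMod 6) : Prop :=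
  (IntF M δ F k ∧ M.deg (δ k) ≠ 4) ∨ (cC M δ F k ∧ full M δ F (k - 1)) ∨
    (cC M δ F (k - 1) ∧ full M δ F (k - 2))

/-- the first darts of the strands of the folded map -/
noncomputable def pXF (k : ZMod 6) : D :=
  if IntF M δ F k ∧ M.deg (δ k) = 4 then M.nx (M.nx (δ k)) else
  if SF M δ F k then (μ' (Gen.hdrF hF ho ho' hG k)).1 else (Gen.hdrF hF ho ho' hG k).1

/-- the pairing at an interior ring edge -/
noncomputable def spmF (k : ZMod 6) (d : D) : D :=
  if d = δ k then (if a k = true then M.nx (δ k) else M.nx.symm (δ k)) else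
  if d = M.nx (δ k) then (if a k = true then δ k else pXF hG hF ho ho' μ' k) else
  if d = M.nx.symm (δ k) then (if a k = true then pXF hG hF ho ho' μ' k else δ k) else
  if d = pXF hG hF ho ho' μ' k then (if a k = true then M.nx.symm (δ k) else M.nx (δ k)) else
  kmuF μ' d

/-- the pairing in a corner hexagon -/
noncomputable def cmu (c : ZMod 6) (d : D) : D :=
  if h : ∃ i, kc M δ c i = d then kc M δ c ((w c).m h.choose) else d

/-- the units in a corner hexagon -/
noncomputable def com (M : DMap D) (δ : ZMod 6 → D) (w : ZMod 6 → PState 6) (c : ZMod 6) (d : D) : ℕ :=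
  if h : ∃ i, kc M δ c i = d then (w c).u h.choose else 0

/-- the lifted pairing -/
noncomputable def lmuF (d : D) : D :=
  if h : ∃ k, IntF M δ F k ∧ M.SameSite (δ k) d then spmF hG hF ho ho' μ' a h.choose d else
  if h : ∃ c, cC M δ F c ∧ M.SameSite (δ (c + 1)) d then cmu (M := M) (δ := δ) w h.choose d else
  kmuF μ' d

/-- the units at an interior ring edge -/
noncomputable def spoF (M : DMap D) (δ : ZMod 6 → D) (F : D → Prop) (ω' : {d // ¬ FR M F d} → ℕ)
    (r r' : ZMod 6 → ℕ) (p q : ℕ) (k : ZMod 6) (d : D) : ℕ :=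
  if d = δ k then r k else
  if d = M.nx (δ k) then (if M.deg (δ k) = 4 then p - r' k else p) else
  if d = M.nx.symm (δ k) then 1 - r k else
  if d = M.nx.symm (M.nx.symm (δ k)) then (if M.deg (δ k) = 4 then q - (1 - r' k) else q) else
  komF ω' d

/-- the units of a link -/
noncomputable def lkoF (ω' : {d // ¬ FR M F d} → ℕ) (p q : ℕ) (e d : D) : ℕ :=
  if d = e then 0 else if d = M.nx e then p else if d = M.nx.symm e then q else komF ω' d

/-- the lifted units -/
noncomputable def lomF (M : DMap D) (δ : ZMod 6 → D) (F : D → Prop) (ω' : {d // ¬ FR M F d} → ℕ)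
    (r r' : ZMod 6 → ℕ) (p q : ℕ) (w : ZMod 6 → PState 6) (d : D) : ℕ :=
  if h : ∃ k, IntF M δ F k ∧ M.SameSite (δ k) d then spoF M δ F ω' r r' p q h.choose d else
  if h : ∃ c, cC M δ F c ∧ M.SameSite (δ (c + 1)) d then com M δ w h.choose d else
  if h : ∃ e, F e ∧ M.SameSite e d then lkoF ω' p q h.choose d else komF ω' d

end defs

namespace Gen

variable [Fintype D] (hG : M.Gen A δ) (hF : Pre M A δ F)

section sites

include hG hF

theorem cC_deg {c : ZMod 6} (h : M.nx (δ c) = δ (c + 1)) : M.deg (δ (c + 1)) = 6 := by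
  have := hF
  rw [← h, deg_nx]
  exact hG.nc c h

theorem kc_num {c : ZMod 6} (h : M.nx (δ c) = δ (c + 1)) : M.SiteNum 6 (kc M δ c) := by
  obtain ⟨α, hα, h0, -⟩ := exists_num' (hG.cC_deg hF h)
  have e : kc M δ c = α := by
    funext i
    have key : ∀ n : ℕ, M.nx^[n] (δ (c + 1)) = α n := by
      intro n
      induction n with
      | zero => rw [Function.iterate_zero, id, Nat.cast_zero, h0]
      | succ n ih =>
        rw [Function.iterate_succ_apply', ih, hα.nx]
        push_cast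
        rfl
    show M.nx^[i.val] (δ (c + 1)) = α i
    rw [key, ZMod.natCast_zmod_val]
  rw [e]
  exact hα

theorem kc_5 {c : ZMod 6} (h : M.nx (δ c) = δ (c + 1)) : kc M δ c 5 = δ c := by
  have h1 := (hG.kc_num hF h).nx 5
  apply M.nx.injective
  rw [h1, h]
  rfl

theorem kc_4 {c : ZMod 6} (h : M.nx (δ c) = δ (c + 1)) : kc M δ c 4 = M.nx.symm (δ c) := by
  rw [Equiv.eq_symm_apply, (hG.kc_num hF h).nx, ← hG.kc_5 hF h]
  rfl

theorem corHex {c : ZMod 6} (h : M.nx (δ c) = δ (c + 1)) : M.CorHex A δ c (kc M δ c) :=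
  ⟨hG, hG.kc_num hF h, hG.kc_5 hF h, rfl⟩

/-- interior ring edges are not at folded corner hexagons -/
theorem int_cor {k c : ZMod 6} (hk : IntF M δ F k) (h : cC M δ F c) {d : D}
    (h1 : M.SameSite (δ k) d) (h2 : M.SameSite (δ (c + 1)) d) : False := by
  have h1 := hG.bd.inj (hG.fs_uniq (hF.fs _ h.2) (hF.fs _ hk.2) (h2.trans h1.symm))
  subst h1
  have h2 := hk.1
  rw [add_sub_cancel_right] at h2
  have h3 := hG.pre_first hF h2 ((hG.toPatch.prev_node c).trans (fs_node _))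
  exact (hF.fs _ h3).2.2 (c + 1) (by rw [← h.1, Equiv.symm_apply_apply])

theorem int_uniq {j k : ZMod 6} (hj : IntF M δ F j) (hk : IntF M δ F k) {d : D}
    (h1 : M.SameSite (δ j) d) (h2 : M.SameSite (δ k) d) : j = k :=
  hG.bd.inj (hG.fs_uniq (hF.fs _ hk.2) (hF.fs _ hj.2) (h2.trans h1.symm))

theorem cor_uniq {b c : ZMod 6} (hb : cC M δ F b) (hc : cC M δ F c) {d : D}
    (h1 : M.SameSite (δ (b + 1)) d) (h2 : M.SameSite (δ (c + 1)) d) : b = c :=
  add_right_cancel (hG.bd.inj (hG.fs_uniq (hF.fs _ hc.2) (hF.fs _ hb.2) (h2.trans h1.symm)))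

/-- a folded sector which is neither interior nor in a corner hexagon -/
def LkF (M : DMap D) (δ : ZMod 6 → D) (F : D → Prop) (e : D) : Prop :=
  F e ∧ (∀ k, IntF M δ F k → e ≠ δ k) ∧ ∀ c, cC M δ F c → e ≠ δ (c + 1)

theorem lk_int {e : D} (he : LkF M δ F e) {d : D} (hs : M.SameSite e d) :
    ¬ ∃ k, IntF M δ F k ∧ M.SameSite (δ k) d :=
  fun ⟨k, h1, h2⟩ => he.2.1 k h1 (hG.fs_uniq (hF.fs _ h1.2) (hF.fs _ he.1) (h2.trans hs.symm))

theorem lk_cor {e : D} (he : LkF M δ F e) {d : D} (hs : M.SameSite e d) :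
    ¬ ∃ c, cC M δ F c ∧ M.SameSite (δ (c + 1)) d :=
  fun ⟨c, h1, h2⟩ => he.2.2 c h1 (hG.fs_uniq (hF.fs _ h1.2) (hF.fs _ he.1) (h2.trans hs.symm))

/-- the kinds of folded sectors -/
theorem f_cases {e : D} (he : F e) : (∃ k, IntF M δ F k ∧ e = δ k) ∨
    (∃ c, cC M δ F c ∧ e = δ (c + 1)) ∨ LkF M δ F e := by
  by_cases h1 : ∃ k, IntF M δ F k ∧ e = δ k
  · exact Or.inl h1
  · by_cases h2 : ∃ c, cC M δ F c ∧ e = δ (c + 1)
    · exact Or.inr (Or.inl h2)
    · push Not at h1 h2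
      exact Or.inr (Or.inr ⟨he, h1, h2⟩)

end sites

section states

variable {o : D → Bool} (ho : ∀ d, o (M.nx d) = !o d) (ho' : ∀ d, o (M.al d) = !o d)
  {μ' : {d // ¬ FR M F d} → {d // ¬ FR M F d}} {ω' : {d // ¬ FR M F d} → ℕ}
  {a : ZMod 6 → Bool} {r r' : ZMod 6 → ℕ} {p q : ℕ} {w : ZMod 6 → PState 6}

theorem lmuF_sp {k : ZMod 6} (hk : IntF M δ F k) {d : D} (hs : M.SameSite (δ k) d) :
    lmuF hG hF ho ho' μ' a w d = spmF hG hF ho ho' μ' a k d := by
  have h : ∃ k, IntF M δ F k ∧ M.SameSite (δ k) d := ⟨k, hk, hs⟩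
  rw [lmuF, dif_pos h, hG.int_uniq hF h.choose_spec.1 hk h.choose_spec.2 hs]

theorem lmuF_c {c : ZMod 6} (hc : cC M δ F c) {d : D} (hs : M.SameSite (δ (c + 1)) d) :
    lmuF hG hF ho ho' μ' a w d = cmu (M := M) (δ := δ) w c d := by
  have h1 : ¬ ∃ k, IntF M δ F k ∧ M.SameSite (δ k) d := fun ⟨k, h1, h2⟩ =>
    hG.int_cor hF h1 hc h2 hs
  have h : ∃ c, cC M δ F c ∧ M.SameSite (δ (c + 1)) d := ⟨c, hc, hs⟩
  rw [lmuF, dif_neg h1, dif_pos h, hG.cor_uniq hF h.choose_spec.1 hc h.choose_spec.2 hs]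

theorem lmuF_of {d : D} (h : ¬ ∃ k, IntF M δ F k ∧ M.SameSite (δ k) d)
    (h' : ¬ ∃ c, cC M δ F c ∧ M.SameSite (δ (c + 1)) d) :
    lmuF hG hF ho ho' μ' a w d = kmuF μ' d := by
  rw [lmuF, dif_neg h, dif_neg h']

include hG hF in
theorem lomF_sp {k : ZMod 6} (hk : IntF M δ F k) {d : D} (hs : M.SameSite (δ k) d) :
    lomF M δ F ω' r r' p q w d = spoF M δ F ω' r r' p q k d := by
  have h : ∃ k, IntF M δ F k ∧ M.SameSite (δ k) d := ⟨k, hk, hs⟩
  rw [lomF, dif_pos h, hG.int_uniq hF h.choose_spec.1 hk h.choose_spec.2 hs]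

include hG hF in
theorem lomF_c {c : ZMod 6} (hc : cC M δ F c) {d : D} (hs : M.SameSite (δ (c + 1)) d) :
    lomF M δ F ω' r r' p q w d = com M δ w c d := by
  have h1 : ¬ ∃ k, IntF M δ F k ∧ M.SameSite (δ k) d := fun ⟨k, h1, h2⟩ =>
    hG.int_cor hF h1 hc h2 hs
  have h : ∃ c, cC M δ F c ∧ M.SameSite (δ (c + 1)) d := ⟨c, hc, hs⟩
  rw [lomF, dif_neg h1, dif_pos h, hG.cor_uniq hF h.choose_spec.1 hc h.choose_spec.2 hs]

include hG hF in
theorem lomF_lk {e d : D} (he : LkF M δ F e) (hs : M.SameSite e d) :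
    lomF M δ F ω' r r' p q w d = lkoF ω' p q e d := by
  have h : ∃ e, F e ∧ M.SameSite e d := ⟨e, he.1, hs⟩
  rw [lomF, dif_neg (hG.lk_int hF he hs), dif_neg (hG.lk_cor hF he hs), dif_pos h,
    hG.fs_uniq (hF.fs _ he.1) (hF.fs _ h.choose_spec.1) (hs.trans h.choose_spec.2.symm)]

theorem lomF_of {d : D} (h : Unt M F d) :
    lomF M δ F ω' r r' p q w d = komF ω' d := by
  rw [lomF, dif_neg fun ⟨k, hk, hs⟩ => h _ hk.2 hs, dif_neg fun ⟨c, hc, hs⟩ => h _ hc.2 hs,
    dif_neg fun ⟨e, h1, h2⟩ => h e h1 h2]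

/-- a folded quad disappears -/
theorem quadF_fr {e : D} (he : F e) (h4 : M.deg e = 4) {d : D} (hs : M.SameSite e d) :
    FR M F d := fr_quad' he h4 hs

/-- the state of a link quad -/
theorem stF_lq {e : D} (he : LkF M δ F e) {α : ZMod 4 → D} (hα : M.SiteNum 4 α) (h0 : α 0 = e) :
    HasState (lmuF hG hF ho ho' μ' a w) (lomF M δ F ω' r r' p q w) α (lq p q) := by
  obtain ⟨h1, h2, h3⟩ := num4 hα h0
  have h4 : M.deg e = 4 := by rw [← h0]; exact hα.deg 0
  have hs : ∀ i, M.SameSite e (α i) := fun i => by rw [← h0]; exact hα.same (by decide) 0 i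
  have hfs := hG.foldSetF hF
  have hm : ∀ i, lmuF hG hF ho ho' μ' a w (α i) = fmu M F (α i) := by
    intro i
    rw [hG.lmuF_of hF ho ho' (hG.lk_int hF he (hs i)) (hG.lk_cor hF he (hs i)), kmuF,
      dif_neg (not_not.2 (fr_quad' he.1 h4 (hs i)))]
  have hom : ∀ i, lomF M δ F ω' r r' p q w (α i) = lkoF ω' p q e (α i) := fun i =>
    hG.lomF_lk hF he (hs i)
  intro i
  rw [hm, hom, lkoF]
  rcases z4 i with rfl | rfl | rfl | rfl
  · rw [h0, if_pos rfl, FoldSet.mu0 he.1, ← h1]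
    exact ⟨rfl, rfl⟩
  · rw [h1, if_neg (hG.ne1 _), if_pos rfl, hfs.mu1 he.1, ← h0]
    exact ⟨rfl, rfl⟩
  · rw [h2, if_neg (hG.ne2 _), if_neg (hG.ne1 _), hfs.mu2 he.1 h4, ← nx_four' h4, ← h3,
      if_neg (by rw [← h2]; exact fun h => absurd (hα.inj h) (by decide)), komF,
      dif_neg (not_not.2 (FoldSet.r2 he.1 h4))]
    exact ⟨rfl, rfl⟩
  · rw [h3, if_neg (hG.ns1 _), if_neg (hG.ns2 _), if_pos rfl, nx_four' h4, hfs.mu3 he.1 h4,
      ← h2]
    exact ⟨rfl, rfl⟩

include hG hF in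
/-- the kept darts of a hexagon -/
theorem stF_kept {e : D} (he : F e) {α : ZMod 6 → D} (hα : M.SiteNum 6 α)
    (h0 : α 0 = e) {i : ZMod 6} (hi0 : i ≠ 0) (hi1 : i ≠ 1) : ¬ FR M F (α i) := by
  obtain ⟨h1, -, -⟩ := num6 hα h0
  have h4 : M.deg e = 6 := by rw [← h0]; exact hα.deg 0
  refine (hG.foldSetF hF).stay he (by omega) (by rw [← h0]; exact hα.same (by decide) 0 i) ?_ ?_
  · rw [← h0]
    exact fun h => hi0 (hα.inj h)
  · rw [← h1]
    exact fun h => hi1 (hα.inj h)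

/-- the state of a link hexagon -/
theorem stF_lh {e : D} (he : LkF M δ F e) {α : ZMod 6 → D}
    (hα : M.SiteNum 6 α) (h0 : α 0 = e) {b : ZMod 4 → {d // ¬ FR M F d}}
    (hb : ∀ j, (b j).1 = α (l6 j)) {t : PState 4} (ht : HasState μ' ω' b t) :
    HasState (lmuF hG hF ho ho' μ' a w) (lomF M δ F ω' r r' p q w) α (lh p q t) := by
  obtain ⟨h1, h5, -⟩ := num6 hα h0
  have hfs := hG.foldSetF hF
  have hs : ∀ i, M.SameSite e (α i) := fun i => by rw [← h0]; exact hα.same (by decide) 0 i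
  have hm : ∀ i, lmuF hG hF ho ho' μ' a w (α i) = kmuF μ' (α i) := fun i =>
    hG.lmuF_of hF ho ho' (hG.lk_int hF he (hs i)) (hG.lk_cor hF he (hs i))
  have hom : ∀ i, lomF M δ F ω' r r' p q w (α i) = lkoF ω' p q e (α i) := fun i =>
    hG.lomF_lk hF he (hs i)
  have hk : ∀ j, kmuF μ' (α (l6 j)) = α (l6 (t.m j)) ∧ komF ω' (α (l6 j)) = t.u j := by
    intro j
    have h2 := hG.stF_kept hF he.1 hα h0 (l6_ne j).1 (l6_ne j).2
    have h3 : (⟨α (l6 j), h2⟩ : {d // ¬ FR M F d}) = b j := Subtype.ext (hb j).symm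
    rw [kmuF, komF, dif_pos h2, dif_pos h2, h3, (ht j).1, (ht j).2, hb]
    exact ⟨rfl, rfl⟩
  have hne : ∀ {i j : ZMod 6}, i ≠ j → α i ≠ α j := fun hij h => hij (hα.inj h)
  intro i
  rw [hm, hom]
  by_cases hi0 : i = 0
  · subst hi0
    rw [kmuF, lkoF, if_pos h0, dif_neg (not_not.2 (by rw [h0]; exact FoldSet.r0 he.1)), h0,
      FoldSet.mu0 he.1, ← h1]
    exact ⟨rfl, rfl⟩
  · by_cases hi1 : i = 1
    · subst hi1
      rw [kmuF, lkoF, if_neg (by rw [← h0]; exact hne (by decide)), if_pos h1,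
        dif_neg (not_not.2 (by rw [h1]; exact FoldSet.r1 he.1)), h1, hfs.mu1 he.1, ← h0]
      exact ⟨rfl, rfl⟩
    · have h2 : l6 (c4 i) = i := l6_c4 hi0 hi1
      have h3 := hk (c4 i)
      rw [h2] at h3
      have h6 : (lh p q t).m i = l6 (t.m (c4 i)) := by
        show (if i = 0 then 1 else if i = 1 then 0 else l6 (t.m (c4 i))) = _
        rw [if_neg hi0, if_neg hi1]
      rw [h3.1, h6, lkoF, if_neg (by rw [← h0]; exact hne hi0),
        if_neg (by rw [← h1]; exact hne hi1)]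
      refine ⟨rfl, ?_⟩
      by_cases hi5 : i = 5
      · subst hi5
        rw [if_pos h5]
        rfl
      · rw [if_neg (by rw [← h5]; exact hne hi5), h3.2]
        have h7 : i = 2 ∨ i = 3 ∨ i = 4 := by
          clear h2 h3 h6
          revert i
          decide
        rcases h7 with rfl | rfl | rfl <;> rfl

/-- the state of a quad at a ring edge -/
theorem stF_sq {k : ZMod 6} (hk : IntF M δ F k) {α : ZMod 4 → D} (hα : M.SiteNum 4 α)
    (h0 : α 0 = δ k) : HasState (lmuF hG hF ho ho' μ' a w) (lomF M δ F ω' r r' p q w) α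
      (sq (a k) (r k) (r' k) p q) := by
  obtain ⟨h1, h2, h3⟩ := num4 hα h0
  have h4 : M.deg (δ k) = 4 := by rw [← h0]; exact hα.deg 0
  have hs : ∀ i, M.SameSite (δ k) (α i) := fun i => by rw [← h0]; exact hα.same (by decide) 0 i
  have hX : pXF hG hF ho ho' μ' k = α 2 := by rw [h2]; exact if_pos ⟨hk, h4⟩
  have hn : M.nx.symm (M.nx.symm (δ k)) = α 2 := by
    rw [← h3, Equiv.symm_apply_eq, hα.nx]
    rfl
  have hne : ∀ {i j : ZMod 4}, i ≠ j → α i ≠ α j := fun hij h => hij (hα.inj h)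
  intro i
  rw [hG.lmuF_sp hF ho ho' hk (hs i), hG.lomF_sp hF hk (hs i), spmF, spoF, hX, hn, ← h1, ← h3,
    ← h0]
  have h4' : M.deg (α 0) = 4 := by rw [h0]; exact h4
  have fin : ∀ {x y : D} {i u v : ZMod 4}, x = α u → y = α v →
      (sq (a k) (r k) (r' k) p q).m i = (if a k = true then u else v) →
      (if a k = true then x else y) = α ((sq (a k) (r k) (r' k) p q).m i) := by
    intro x y i u v hx hy hm
    rw [hm, hx, hy]
    by_cases ha : a k = true
    · rw [if_pos ha, if_pos ha]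
    · rw [if_neg ha, if_neg ha]
  rcases z4 i with rfl | rfl | rfl | rfl
  · refine ⟨?_, ?_⟩
    · rw [if_pos rfl]
      exact fin rfl rfl rfl
    · rw [if_pos rfl]
      rfl
  · refine ⟨?_, ?_⟩
    · rw [if_neg (hne (by decide)), if_pos rfl]
      exact fin rfl rfl rfl
    · rw [if_neg (hne (by decide)), if_pos rfl, if_pos h4']
      rfl
  · refine ⟨?_, ?_⟩
    · rw [if_neg (hne (by decide)), if_neg (hne (by decide)), if_neg (hne (by decide)), if_pos rfl]
      exact fin rfl rfl rfl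
    · rw [if_neg (hne (by decide)), if_neg (hne (by decide)), if_neg (hne (by decide)), if_pos rfl,
        if_pos h4']
      rfl
  · refine ⟨?_, ?_⟩
    · rw [if_neg (hne (by decide)), if_neg (hne (by decide)), if_pos rfl]
      exact fin rfl rfl rfl
    · rw [if_neg (hne (by decide)), if_neg (hne (by decide)), if_pos rfl]
      rfl

/-- the state of a hexagon at a ring edge -/
theorem stF_sh {k : ZMod 6} (hki : IntF M δ F k) {α : ZMod 6 → D} (hα : M.SiteNum 6 α)
    (h0 : α 0 = δ k) {b : ZMod 4 → {d // ¬ FR M F d}} (hb : ∀ j, (b j).1 = α (l6 j))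
    {t : PState 4} (ht : HasState μ' ω' b t) (hinv : ∀ j, t.m (t.m j) = j) (hfix : t.m 3 ≠ 3) :
    HasState (lmuF hG hF ho ho' μ' a w) (lomF M δ F ω' r r' p q w) α (sh (a k) (r k) p q t) := by
  obtain ⟨h1, h5, h4⟩ := num6 hα h0
  have hdg : M.deg (δ k) ≠ 4 := by
    rw [← h0, hα.deg 0]
    decide
  have hs : ∀ i, M.SameSite (δ k) (α i) := fun i => by rw [← h0]; exact hα.same (by decide) 0 i
  have hne : ∀ {i j : ZMod 6}, i ≠ j → α i ≠ α j := fun hij h => hij (hα.inj h)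
  have hk : ∀ j, kmuF μ' (α (l6 j)) = α (l6 (t.m j)) ∧ komF ω' (α (l6 j)) = t.u j := by
    intro j
    have h2 := hG.stF_kept hF hki.2 hα h0 (l6_ne j).1 (l6_ne j).2
    have h3 : (⟨α (l6 j), h2⟩ : {d // ¬ FR M F d}) = b j := Subtype.ext (hb j).symm
    rw [kmuF, komF, dif_pos h2, dif_pos h2, h3, (ht j).1, (ht j).2, hb]
    exact ⟨rfl, rfl⟩
  have hX : pXF hG hF ho ho' μ' k = α (l6 (t.m 3)) := by
    have h2 : hdrF hF ho ho' hG k = b 3 := by
      apply Subtype.ext
      rw [hb, hG.hdr_int hF ho ho' hki hdg, ← h5]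
      rfl
    have hS : SF M δ F k := Or.inl ⟨hki, hdg⟩
    rw [pXF, if_neg fun h => hdg h.2, if_pos hS, h2, (ht 3).1, hb]
  intro i
  rw [hG.lmuF_sp hF ho ho' hki (hs i), hG.lomF_sp hF hki (hs i), spmF, spoF, hX, ← h4, ← h5,
    ← h1, ← h0]
  have hd' : M.deg (α 0) ≠ 4 := by rw [h0]; exact hdg
  have hxl := l6_ne (t.m 3)
  have hx5 : l6 (t.m 3) ≠ 5 := fun h => hfix (l6_five.1 h)
  by_cases hi0 : i = 0
  · subst hi0
    rw [if_pos rfl, if_pos rfl]
    refine ⟨?_, rfl⟩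
    by_cases ha : a k = true
    · rw [if_pos ha]
      show _ = α (if a k = true then _ else _)
      rw [if_pos ha]
      rfl
    · rw [if_neg ha]
      show _ = α (if a k = true then _ else _)
      rw [if_neg ha]
      rfl
  rw [if_neg (hne hi0), if_neg (hne hi0)]
  by_cases hi1 : i = 1
  · subst hi1
    rw [if_pos rfl, if_pos rfl, if_neg hd']
    refine ⟨?_, rfl⟩
    by_cases ha : a k = true
    · rw [if_pos ha]
      show _ = α (if a k = true then _ else _)
      rw [if_pos ha]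
      rfl
    · rw [if_neg ha]
      show _ = α (if a k = true then _ else _)
      rw [if_neg ha]
      rfl
  rw [if_neg (hne hi1), if_neg (hne hi1)]
  by_cases hi5 : i = 5
  · subst hi5
    rw [if_pos rfl, if_pos rfl]
    refine ⟨?_, rfl⟩
    by_cases ha : a k = true
    · rw [if_pos ha]
      show _ = α (if a k = true then _ else _)
      rw [if_pos ha]
      rfl
    · rw [if_neg ha]
      show _ = α (if a k = true then _ else _)
      rw [if_neg ha]
      rfl
  rw [if_neg (hne hi5), if_neg (hne hi5)]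
  have h2 : l6 (c4 i) = i := l6_c4 hi0 hi1
  have h3 := hk (c4 i)
  rw [h2] at h3
  have hu : (if α i = α 4 then if M.deg (α 0) = 4 then q - (1 - r' k) else q else komF ω' (α i)) =
      (sh (a k) (r k) p q t).u i := by
    by_cases hi4 : i = 4
    · subst hi4
      rw [if_pos rfl, if_neg hd']
      rfl
    · rw [if_neg (hne hi4), h3.2]
      have h7 : i = 2 ∨ i = 3 := by
        clear h2 h3
        revert i
        decide
      rcases h7 with rfl | rfl <;> rfl
  refine ⟨?_, hu⟩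
  have hx : α i = α (l6 (t.m 3)) ↔ t.m (c4 i) = 3 := by
    constructor
    · intro h
      have h6 := hα.inj h
      rw [h6, c4_l6, hinv]
    · intro h
      rw [← h, hinv, h2]
  by_cases ha : a k = true
  · have hm : (sh (a k) (r k) p q t).m i = l6 (t.m (c4 i)) := by
      show (if a k = true then (if i = 0 then 1 else if i = 1 then 0 else l6 (t.m (c4 i))) else _) = _
      rw [if_pos ha, if_neg hi0, if_neg hi1]
    rw [hm]
    by_cases h6 : t.m (c4 i) = 3
    · rw [if_pos (hx.2 h6), if_pos ha, h6]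
      rfl
    · rw [if_neg fun h => h6 (hx.1 h), h3.1]
  · have hm : (sh (a k) (r k) p q t).m i = if t.m (c4 i) = 3 then 1 else l6 (t.m (c4 i)) := by
      show (if a k = true then _ else (if i = 0 then 5 else if i = 5 then 0 else
        if i = 1 then l6 (t.m 3) else if t.m (c4 i) = 3 then 1 else l6 (t.m (c4 i)))) = _
      rw [if_neg ha, if_neg hi0, if_neg hi5, if_neg hi1]
    rw [hm]
    by_cases h6 : t.m (c4 i) = 3
    · rw [if_pos (hx.2 h6), if_neg ha, if_pos h6]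
    · rw [if_neg fun h => h6 (hx.1 h), if_neg h6, h3.1]

/-- the state of a folded corner hexagon -/
theorem stF_c {c : ZMod 6} (hc : cC M δ F c) :
    HasState (lmuF hG hF ho ho' μ' a w) (lomF M δ F ω' r r' p q w) (kc M δ c) (w c) := by
  have hn := hG.kc_num hF hc.1
  intro i
  have hs : M.SameSite (δ (c + 1)) (kc M δ c i) := hn.same (by decide) 0 i
  have h : ∃ j, kc M δ c j = kc M δ c i := ⟨i, rfl⟩
  have h1 : h.choose = i := hn.inj h.choose_spec
  rw [hG.lmuF_c hF ho ho' hc hs, hG.lomF_c hF hc hs, cmu, com, dif_pos h, dif_pos h, h1]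
  exact ⟨rfl, rfl⟩

/-- the numbering of a folded hexagon -/
theorem mapF_num {e : D} (he : F e) (h6 : M.deg e = 6) {α : ZMod 6 → D} (hα : M.SiteNum 6 α)
    (h0 : α 0 = e) :
    ∃ b : ZMod 4 → {d // ¬ FR M F d}, (∀ j, (b j).1 = α (l6 j)) ∧
      (mapF hF ho ho' hG).SiteNum 4 b := by
  refine ⟨fun j => ⟨α (l6 j), hG.stF_kept hF he hα h0 (l6_ne j).1 (l6_ne j).2⟩,
    fun j => rfl, fun i j hij => l6_inj (hα.inj (congrArg Subtype.val hij)), fun j => ?_⟩
  by_cases h3 : j = 3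
  · subst h3
    have e1 : M.nx (α (l6 3)) = e := by
      rw [hα.nx, ← h0]
      rfl
    have e2 : M.nx (M.nx (M.nx (α (l6 3)))) = α (l6 (3 + 1)) := by
      rw [hα.nx, hα.nx, hα.nx]
      rfl
    rw [fmap_nx_fold (hG.foldSetF hF) ho ho' (d := ⟨α (l6 3), _⟩) (by rw [e1]; exact he)
      (by rw [e2]; exact hG.stF_kept hF he hα h0 (l6_ne _).1 (l6_ne _).2)]
    exact Subtype.ext e2
  · have e1 : M.nx (α (l6 j)) = α (l6 (j + 1)) := by
      rw [hα.nx]
      congr 1
      revert j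
      decide
    rw [fmap_nx_of (hG.foldSetF hF) ho ho' (d := ⟨α (l6 j), _⟩)
      (by rw [e1]; exact hG.stF_kept hF he hα h0 (l6_ne _).1 (l6_ne _).2)]
    exact Subtype.ext e1

end states

end Gen

end DMap

end GT33
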