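import Pool.Agent.GT33.PartB
import Pool.Agent.GT33.HatK
import Pool.Agent.GT33.GenF

/-!
# GT33 module PARTU: partial folds of the ring, nodes and units

`ClsF M δ F k`: the nodes which are
identified with the ring node `k - 1` by the fold.  `Gen.mapF_sameNode`: the nodes of the folded map.
`Gen.root_strandF`: the ring darts of the folded map.
-/

open Classical

namespace GT33

namespace DMap

variable {D : Type} {M : DMap D} {A : D → Prop} {δ : ZMod 6 → D} {F : D → Prop}

open Patch

/-- the nodes which are identified at the ring node `k` -/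
def ClsF (M : DMap D) (δ : ZMod 6 → D) (F : D → Prop) (k : ZMod 6) (d : D) : Prop :=
  ∃ e, F e ∧ M.SameNode (δ k) e ∧ (M.SameNode (M.nx e) d ∨ M.SameNode (M.nx.symm e) d)

/-- all fold sectors at the ring node `k` are folded, and there is one -/
def full (M : DMap D) (δ : ZMod 6 → D) (F : D → Prop) (k : ZMod 6) : Prop :=
  F (M.fs (M.nx.symm (δ (k + 1))))

theorem ClsF.same {k : ZMod 6} {d e : D} (h : ClsF M δ F k d) (hn : M.SameNode d e) :
    ClsF M δ F k e := by
  obtain ⟨f, h1, h2, h3⟩ := h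
  exact ⟨f, h1, h2, h3.imp (fun h => h.trans hn) fun h => h.trans hn⟩

namespace Gen

variable [Fintype D] (hG : M.Gen A δ) (hF : Pre M A δ F)

include hG hF

omit [Fintype D] in
theorem clsF_cls {k : ZMod 6} {d : D} (h : ClsF M δ F k d) : Cls M A δ k d := by
  obtain ⟨e, h1, h2, h3⟩ := h
  rcases h3 with h3 | h3
  · exact (hG.cls_nx (hF.fs e h1) h2).same h3
  · exact (hG.cls_nx_symm (hF.fs e h1).1 h2).same h3

theorem clsF_disj {i j : ZMod 6} {d : D} (h : ClsF M δ F i d) (h' : ClsF M δ F j d) : i = j :=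
  hG.cls_disj (hG.clsF_cls hF h) (hG.clsF_cls hF h')

omit hF in
/-- the first fold sector of a ring node -/
theorem pre_first' (h1 : ∀ e, F e → FS M A δ e) (h2 : ∀ e, F e → FS M A δ (M.fs e) → F (M.fs e))
    {k : ZMod 6} {e : D} (he : F e) (hn : M.SameNode (δ k) e) : F (δ k) := by
  obtain ⟨n, hn'⟩ := hn.symm.exists_nat_pow_eq
  induction n generalizing e with
  | zero =>
    have : e = δ k := by simpa using hn'
    rw [← this]
    exact he
  | succ n ih =>
    rcases hG.asec (h1 e he).1 hn with h | h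
    · rw [← h]
      exact he
    · exact ih (h2 e he h) (hn.trans (fs_node e)) (by
        rw [← hn', pow_succ, Equiv.Perm.mul_apply])

/-- the first fold sector of a ring node -/
theorem pre_first {k : ZMod 6} {e : D} (he : F e) (hn : M.SameNode (δ k) e) : F (δ k) :=
  hG.pre_first' hF.fs hF.pre he hn

/-- all sectors of a class are joined -/
theorem joined_first {k : ZMod 6} {e : D} (he : F e) (hn : M.SameNode (δ k) e) :
    JoinedR M.nx M.al (fmu M F) (FR M F) (M.nx.symm e) (M.al (δ k)) := by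
  obtain ⟨n, hn'⟩ := hn.symm.exists_nat_pow_eq
  induction n generalizing e with
  | zero =>
    have : e = δ k := by simpa using hn'
    rw [this]
    exact joined_same (nx_symm_node _).symm
  | succ n ih =>
    rcases hG.asec (hF.fs e he).1 hn with h | h
    · rw [h]
      exact joined_same (nx_symm_node _).symm
    · have h1 := hF.pre e he h
      have h2 := ih h1 (hn.trans (fs_node e)) (by rw [← hn', pow_succ, Equiv.Perm.mul_apply])
      have h3 := joined_fold (M := M) h1
      rw [nx_fs] at h3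
      exact (joined_same (nx_symm_node _).symm).trans (JoinedR.trans h3.symm h2)

theorem joined_clsF {k : ZMod 6} {d : D} (h : ClsF M δ F k d) :
    JoinedR M.nx M.al (fmu M F) (FR M F) d (M.al (δ k)) := by
  obtain ⟨e, h1, h2, h3⟩ := h
  have h4 := hG.joined_first hF h1 h2
  rcases h3 with h3 | h3
  · exact (joined_same h3.symm).trans ((joined_fold h1).symm.trans h4)
  · exact (joined_same h3.symm).trans h4

theorem foldSetF : M.FoldSet F := hG.foldSet.mono hF.fs

/-- the nodes of the folded map -/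
theorem joinedF_iff (d e : D) : JoinedR M.nx M.al (fmu M F) (FR M F) d e ↔
    M.SameNode d e ∨ ∃ k, ClsF M δ F k d ∧ ClsF M δ F k e := by
  have hfs := hG.foldSetF hF
  constructor
  · intro h
    induction h with
    | rel a b hab =>
      rcases hab with rfl | ⟨ha, rfl⟩
      · left
        exact ⟨1, by rw [zpow_one]; rfl⟩
      · rcases FoldSet.cases ha with h | ⟨e', h, h1⟩ | ⟨e', h, h4, h1⟩ | ⟨e', h, h4, h1⟩
        · right
          obtain ⟨i, hi⟩ := (hF.fs _ h).2.1
          refine ⟨i, ⟨_, h, hi, Or.inr ?_⟩, ⟨_, h, hi, Or.inl ?_⟩⟩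
          · rw [Equiv.symm_apply_apply]
          · rw [FoldSet.mu0 h]
        · left
          rw [h1, hfs.mu1 h, M.nx.injective h1]
        · right
          obtain ⟨i, hi⟩ := (hF.fs _ h).2.1
          refine ⟨i, ⟨_, h, hi, Or.inl ?_⟩, ⟨_, h, hi, Or.inr ?_⟩⟩
          · rw [M.nx.injective h1]
          · rw [h1, hfs.mu2 h h4, ← nx_four' h4]
        · left
          rw [h1, hfs.mu3 h h4, M.nx.injective h1]
    | refl a => exact Or.inl (Equiv.Perm.SameCycle.refl _ _)
    | symm a b _ ih =>
      rcases ih with h | ⟨i, h1, h2⟩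
      · exact Or.inl h.symm
      · exact Or.inr ⟨i, h2, h1⟩
    | trans a b c _ _ ih1 ih2 =>
      rcases ih1 with h | ⟨i, h1, h2⟩
      · rcases ih2 with h' | ⟨j, h3, h4⟩
        · exact Or.inl (h.trans h')
        · exact Or.inr ⟨j, h3.same h.symm, h4⟩
      · rcases ih2 with h' | ⟨j, h3, h4⟩
        · exact Or.inr ⟨i, h1, h2.same h'⟩
        · have := hG.clsF_disj hF h2 h3
          subst this
          exact Or.inr ⟨i, h1, h4⟩
  · rintro (h | ⟨i, h1, h2⟩)
    · exact joined_same h
    · exact (hG.joined_clsF hF h1).trans (hG.joined_clsF hF h2).symm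

/-- all fold sectors of a full node are folded -/
theorem full_all {j : ZMod 6} (h : full M δ F j) {e : D} (he : FS M A δ e)
    (hn : M.SameNode (δ j) e) : F e := by
  have h0 : M.SameNode (M.nx.symm (δ (j + 1))) e := (hG.toPatch.prev_node j).symm.trans hn
  obtain ⟨n, hn'⟩ := h0.exists_nat_pow_eq
  induction n generalizing e with
  | zero => exact absurd hn'.symm (by simpa using he.2.2 (j + 1))
  | succ n ih =>
    have hf : M.fs (M.al (M.nx e)) = e := by rw [fs_al, Equiv.symm_apply_apply]
    have h1 : A (M.al (M.nx e)) := (hG.fs_inn he).2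
    have h2 : M.SameNode (δ j) (M.al (M.nx e)) := hn.trans (al_node e).symm
    have h3 : (M.fs ^ n) (M.nx.symm (δ (j + 1))) = M.al (M.nx e) := by
      apply M.fs.injective
      rw [hf, ← hn', add_comm n 1, pow_add, pow_one, Equiv.Perm.mul_apply]
    by_cases h4 : FS M A δ (M.al (M.nx e))
    · have h5 := ih h4 h2 ((hG.toPatch.prev_node j).symm.trans h2) h3
      have h6 := hF.pre _ h5 (by rw [hf]; exact he)
      rwa [hf] at h6
    · have h5 : ∃ i, M.al (M.nx e) = M.nx.symm (δ i) := by
        by_contra h6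
        push Not at h6
        exact h4 ⟨h1, ring_same h2 (ring_δ j), h6⟩
      obtain ⟨i, hi⟩ := h5
      have h6 : i = j + 1 := by
        have h7 := hG.toPatch.prev_node (i - 1)
        rw [sub_add_cancel, ← hi] at h7
        rw [hG.node_idx (h2.trans h7.symm)]
        ring
      rw [← hf, hi, h6]
      exact h

/-- the ring darts of the folded map -/
theorem root_strandF (j : ZMod 6) : ∃ L, A L ∧ M.SameNode (δ j) L ∧ ¬ F L ∧ (L = δ j ∨ F (M.fs L)) ∧
    ((¬ FR M F L ∧ DStrand M.al (fmu M F) (FR M F) (M.al (δ j)) L) ∨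
      (L = M.nx.symm (δ (j + 1)) ∧ F (δ (j + 1)) ∧ M.deg (δ (j + 1)) = 4 ∧
        DStrand M.al (fmu M F) (FR M F) (M.al (δ j)) (M.al (M.nx (M.nx (δ (j + 1))))))) := by
  have hfs := hG.foldSetF hF
  -- the end of the strand
  have hend : ∀ g, A g → M.SameNode (δ j) g → ¬ F g →
      (¬ FR M F g ∧ DStrand M.al (fmu M F) (FR M F) (M.al g) g) ∨
      (g = M.nx.symm (δ (j + 1)) ∧ F (δ (j + 1)) ∧ M.deg (δ (j + 1)) = 4 ∧
        DStrand M.al (fmu M F) (FR M F) (M.al g) (M.al (M.nx (M.nx (δ (j + 1)))))) := by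
    intro g hgA hgn hgF
    by_cases hgR : FR M F g
    · right
      have hring : Ring M δ g := ring_same hgn (ring_δ j)
      rcases FoldSet.cases hgR with h | ⟨f, h, h1⟩ | ⟨f, h, h4, h1⟩ | ⟨f, h, h4, h1⟩
      · exact absurd h hgF
      · exact absurd hring (by rw [h1]; exact hG.fs1 (hF.fs f h))
      · exact absurd hring (by rw [h1]; exact hG.fs2 (hF.fs f h))
      · rcases hG.ring_quad (hF.fs f h) h4 hring (by
          rw [h1]; exact ((site_nx f).trans (site_nx _)).trans (site_nx _)) with h2 | ⟨i, h2, h3⟩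
        · exact absurd h (by rw [← h2]; exact hgF)
        · have h5 : i = j + 1 := by
            have h7 := hG.toPatch.prev_node (i - 1)
            rw [sub_add_cancel, ← h3] at h7
            rw [hG.node_idx (hgn.trans h7.symm)]
            ring
          subst h5
          rw [h2] at h h4
          refine ⟨h3, h, h4, DStrand.step (by rw [M.inv]; exact hgR) ?_⟩
          rw [M.inv, h1, h2, hfs.mu3 h h4]
          exact DStrand.last fun h => hG.k2 (hF.fs _ ‹F (δ (j + 1))›) h4 (h.mono hF.fs)
    · left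
      refine ⟨hgR, ?_⟩
      have := DStrand.last (al := M.al) (mu := fmu M F) (R := FR M F) (d := M.al g)
        (by rw [M.inv]; exact hgR)
      rwa [M.inv] at this
  -- going around the node
  have key : ∀ (n : ℕ) (e : D), FS M A δ e → F e → M.SameNode (δ j) e →
      (M.fs ^ n) (M.nx.symm (δ (j + 1))) = e →
      ∃ L, A L ∧ M.SameNode (δ j) L ∧ ¬ F L ∧ F (M.fs L) ∧
        ((¬ FR M F L ∧ DStrand M.al (fmu M F) (FR M F) (M.nx e) L) ∨
          (L = M.nx.symm (δ (j + 1)) ∧ F (δ (j + 1)) ∧ M.deg (δ (j + 1)) = 4 ∧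
            DStrand M.al (fmu M F) (FR M F) (M.nx e) (M.al (M.nx (M.nx (δ (j + 1))))))) := by
    intro n
    induction n with
    | zero =>
      intro e he _ _ h0
      exact absurd h0.symm (by simpa using he.2.2 (j + 1))
    | succ n ih =>
      intro e he heF hen h0
      have hf : M.fs (M.al (M.nx e)) = e := by rw [fs_al, Equiv.symm_apply_apply]
      have h1 : A (M.al (M.nx e)) := (hG.fs_inn he).2
      have h2 : M.SameNode (δ j) (M.al (M.nx e)) := hen.trans (al_node e).symm
      have h3 : (M.fs ^ n) (M.nx.symm (δ (j + 1))) = M.al (M.nx e) := by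
        apply M.fs.injective
        rw [hf, ← h0, add_comm n 1, pow_add, pow_one, Equiv.Perm.mul_apply]
      by_cases h4 : F (M.al (M.nx e))
      · obtain ⟨L, l1, l2, l3, l4, l5⟩ := ih _ (hF.fs _ h4) h4 h2 h3
        have h5 : ∀ x, DStrand M.al (fmu M F) (FR M F) (M.nx (M.al (M.nx e))) x →
            DStrand M.al (fmu M F) (FR M F) (M.nx e) x := by
          intro x hx
          refine DStrand.step (FoldSet.r0 h4) ?_
          rw [FoldSet.mu0 h4]
          exact hx
        refine ⟨L, l1, l2, l3, l4, ?_⟩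
        rcases l5 with ⟨l6, l7⟩ | ⟨l6, l7, l8, l9⟩
        · exact Or.inl ⟨l6, h5 _ l7⟩
        · exact Or.inr ⟨l6, l7, l8, h5 _ l9⟩
      · refine ⟨M.al (M.nx e), h1, h2, h4, by rw [hf]; exact heF, ?_⟩
        have h5 := hend _ h1 h2 h4
        rwa [M.inv] at h5
  by_cases hj : F (δ j)
  · have h0 : M.SameNode (M.nx.symm (δ (j + 1))) (δ j) := (hG.toPatch.prev_node j).symm
    obtain ⟨n, hn⟩ := h0.exists_nat_pow_eq
    obtain ⟨L, l1, l2, l3, l4, l5⟩ := key n (δ j) (hF.fs _ hj) hj
      (Equiv.Perm.SameCycle.refl _ _) hn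
    have h5 : ∀ x, DStrand M.al (fmu M F) (FR M F) (M.nx (δ j)) x →
        DStrand M.al (fmu M F) (FR M F) (M.al (δ j)) x := by
      intro x hx
      refine DStrand.step (by rw [M.inv]; exact FoldSet.r0 hj) ?_
      rw [M.inv, FoldSet.mu0 hj]
      exact hx
    refine ⟨L, l1, l2, l3, Or.inr l4, ?_⟩
    rcases l5 with ⟨l6, l7⟩ | ⟨l6, l7, l8, l9⟩
    · exact Or.inl ⟨l6, h5 _ l7⟩
    · exact Or.inr ⟨l6, l7, l8, h5 _ l9⟩
  · exact ⟨δ j, hG.toPatch.inA j, Equiv.Perm.SameCycle.refl _ _, hj, Or.inl rfl,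
      hend _ (hG.toPatch.inA j) (Equiv.Perm.SameCycle.refl _ _) hj⟩

end Gen

end DMap

end GT33
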