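import Pool.Agent.GT33.PreC
import Pool.Agent.GT33.DLiftU

/-!
# GT33 module PARTV: partial folds of the ring, units

The folded map `mapF hF ho ho' hG` of an initial segment `F` of the fold sectors, its ring darts `hdrF`, and the unit sums
of the patch in terms of the unit sums of the folded map.
-/

open Classical

namespace GT33

namespace DMap

variable {D : Type} {M : DMap D} {A : D → Prop} {δ : ZMod 6 → D} {F : D → Prop}

open Patch

namespace Gen

variable [Fintype D]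

section

variable {o : D → Bool} (ho : ∀ d, o (M.nx d) = !o d) (ho' : ∀ d, o (M.al d) = !o d)
  (hG : M.Gen A δ) (hF : Pre M A δ F)

theorem mapF_sameNode (d e : {d // ¬ FR M F d}) : (mapF hF ho ho' hG).SameNode d e ↔
    M.SameNode d.1 e.1 ∨ ∃ k, ClsF M δ F k d.1 ∧ ClsF M δ F k e.1 := by
  rw [← hG.joinedF_iff hF]
  exact smooth_sameNode _ _ _ (hG.foldSetF hF).planar hG.legal.plane (mapF_conn hG hF ho ho') d e

theorem mapF_root (i : ZMod 6) :
    (mapF hF ho ho' hG).al (hrootF hF hG i) = hdrF hF ho ho' hG (i + 1) := by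
  unfold hdrF
  rw [add_sub_cancel_right]

/-- the position of the ring darts -/
theorem hdrF_cases (j : ZMod 6) : ∃ L, A L ∧ M.SameNode (δ j) L ∧ ¬ F L ∧ (L = δ j ∨ F (M.fs L)) ∧
    ((¬ FR M F L ∧ (hdrF hF ho ho' hG (j + 1)).1 = L) ∨
      (L = M.nx.symm (δ (j + 1)) ∧ F (δ (j + 1)) ∧ M.deg (δ (j + 1)) = 4 ∧
        (hdrF hF ho ho' hG (j + 1)).1 = M.al (M.nx (M.nx (δ (j + 1)))))) := by
  obtain ⟨L, h1, h2, h3, h4, h5⟩ := hG.root_strandF hF j
  refine ⟨L, h1, h2, h3, h4, ?_⟩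
  rw [← mapF_root]
  rcases h5 with ⟨h6, h7⟩ | ⟨h6, h7, h8, h9⟩
  · left
    refine ⟨h6, ?_⟩
    have : (mapF hF ho ho' hG).al (hrootF hF hG j) = ⟨L, h6⟩ := smooth_al _ _ _ h7
    rw [this]
  · right
    refine ⟨h6, h7, h8, ?_⟩
    have h10 : ¬ FR M F (M.al (M.nx (M.nx (δ (j + 1))))) := fun h =>
      hG.k2 (hF.fs _ h7) h8 (h.mono hF.fs)
    have : (mapF hF ho ho' hG).al (hrootF hF hG j) = ⟨_, h10⟩ := smooth_al _ _ _ h9
    rw [this]

end

section

variable (hG : M.Gen A δ) (hF : Pre M A δ F)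

include hG hF

omit [Fintype D] hG in
/-- a removed sector at an inner node -/
theorem remF {d z : D} (hd : ¬ Ring M δ d) (hn : M.SameNode d z) (hz : FR M F z) :
    (∃ f, F f ∧ z = M.nx f) ∨ (∃ f, F f ∧ M.deg f = 4 ∧ z = M.nx.symm f) ∨
      ∃ f, F f ∧ M.deg f = 4 ∧ z = M.nx (M.nx f) := by
  rcases FoldSet.cases hz with h | ⟨f, h, h1⟩ | ⟨f, h, h4, h1⟩ | ⟨f, h, h4, h1⟩
  · exact absurd (ring_same hn.symm (hF.fs z h).2.1) hd
  · exact Or.inl ⟨f, h, h1⟩
  · exact Or.inr (Or.inr ⟨f, h, h4, h1⟩)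
  · exact Or.inr (Or.inl ⟨f, h, h4, by rw [nx_four' h4, h1]⟩)

/-- the last but one sector of a ring node which is not full -/
theorem before_stayF {j : ZMod 6} (h4 : M.deg (δ j) = 4) (h : ¬ full M δ F (j - 1)) :
    ¬ FR M F (M.al (M.nx.symm (δ j))) := by
  have hn : M.SameNode (δ (j - 1)) (M.nx.symm (δ j)) := by
    have := hG.toPatch.prev_node (j - 1)
    rwa [sub_add_cancel] at this
  have hfull : full M δ F (j - 1) ↔ F (M.fs (M.nx.symm (δ j))) := by
    unfold full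
    rw [sub_add_cancel]
  rw [hfull] at h
  rcases hG.asec (hG.toPatch.prev_in j) hn with h5 | h5
  · exfalso
    have h7 : M.nx (δ (j - 1)) = δ (j - 1 + 1) := by
      rw [← h5, Equiv.apply_symm_apply, sub_add_cancel]
    have h8 := hG.nc _ h7
    rw [← deg_nx, h7, sub_add_cancel] at h8
    omega
  · set g := M.fs (M.nx.symm (δ j)) with hg
    have hg' : M.al (M.nx.symm (δ j)) = M.nx g := by rw [hg, nx_fs]
    rw [hg']
    intro hR
    rcases FoldSet.cases hR with h1 | ⟨e, h1, h2⟩ | ⟨e, h1, h3, h2⟩ | ⟨e, h1, h3, h2⟩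
    · exact hG.fs1 h5 (hF.fs _ h1).2.1
    · rw [← M.nx.injective h2] at h1
      exact h h1
    · rw [M.nx.injective h2] at h5
      exact hG.fs1 (hF.fs _ h1) h5.2.1
    · rw [M.nx.injective h2] at h5
      exact hG.fs2 (hF.fs _ h1) h5.2.1

/-- the units of an inner node of a class -/
theorem usumF_class {ω : D → ℕ} {ω' : {d // ¬ FR M F d} → ℕ}
    (u5 : ∀ f, F f → M.deg f = 4 → (∀ j, f = δ j → ¬ full M δ F (j - 1)) → ω (M.nx (M.nx f)) = 0)
    (u6 : ∀ z : {d // ¬ FR M F d}, A z.1 → ¬ Ring M δ z.1 → ¬ F (M.fs (M.nx z.1)) → ω z.1 = ω' z)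
    {d e : D} (hd : ∀ z, M.SameNode d z → A z) (he : F e) (hed : M.SameNode (M.nx e) d) :
    M.usum A ω d = ω (M.nx e) + ω (M.nx.symm (M.al (M.nx e))) +
      ∑ z ∈ Finset.univ.filter (fun z : {d // ¬ FR M F d} => M.SameNode (M.nx e) z.1 ∧
        z.1 ≠ M.nx e ∧ z.1 ≠ M.nx.symm (M.al (M.nx e))), ω' z := by
  have heS := hF.fs e he
  have hnr := hG.inner_not_ring hd
  have hnr' : ∀ {z}, M.SameNode d z → ¬ Ring M δ z := fun h h' => hnr (ring_same h.symm h')
  obtain ⟨g, hg⟩ : ∃ g, g = M.al (M.nx e) := ⟨_, rfl⟩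
  have hgA : A g := by rw [hg]; exact (hG.fs_inn heS).2
  have hfs : M.fs (M.nx e) = M.nx.symm g := by rw [fs_def, hg]
  have hfg : M.fs g = e := by rw [hg, fs_al, Equiv.symm_apply_apply]
  have n1 : M.SameNode d (M.nx e) := hed.symm
  have n2 : M.SameNode d (M.nx.symm g) := by rw [← hfs]; exact n1.trans (fs_node _)
  have hrad : ∀ {g'}, A g' → Ring M δ g' → M.SameNode d (M.nx.symm g') → g' = g := by
    intro g' h1 h2 h3
    rw [hg]
    exact hG.rad_uniq heS h1 h2 (hnr' h3) (h3.symm.trans n1)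
  have hne12 : M.nx.symm g ≠ M.nx e := fun h => hG.nl (M.nx e) (by
    rw [← hg, ← h]
    exact (site_nx_symm g).symm)
  have m1 : M.nx e ∈ M.nodeIn A d := mem_nodeIn.2 ⟨n1, hd _ n1⟩
  have m2 : M.nx.symm g ∈ (M.nodeIn A d).erase (M.nx e) :=
    Finset.mem_erase.2 ⟨hne12, mem_nodeIn.2 ⟨n2, hd _ n2⟩⟩
  set R := ((M.nodeIn A d).erase (M.nx e)).erase (M.nx.symm g) with hR
  have hmem : ∀ z, z ∈ R ↔ z ≠ M.nx.symm g ∧ z ≠ M.nx e ∧ M.SameNode d z := by
    intro z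
    rw [hR, Finset.mem_erase, Finset.mem_erase, mem_nodeIn]
    exact ⟨fun h => ⟨h.1, h.2.1, h.2.2.1⟩, fun h => ⟨h.1, h.2.1, h.2.2, hd _ h.2.2⟩⟩
  have hkept : ∀ z : {d // ¬ FR M F d}, z.1 ∈ R → ω z.1 = ω' z := by
    intro z hz
    obtain ⟨h1, h2, h3⟩ := (hmem _).1 hz
    refine u6 z (hd _ h3) (hnr' h3) fun h4 => h1 ?_
    have h6 : Ring M δ (M.nx z.1) := ring_same (fs_node _).symm (hF.fs _ h4).2.1
    have h5 := hrad (g' := M.nx z.1) ((hG.toPatch.sites _).2 (hd _ h3)) h6 (by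
      rw [Equiv.symm_apply_apply]; exact h3)
    rw [← h5, Equiv.symm_apply_apply]
  have hrem : ∀ z ∈ R, FR M F z → ω z = 0 := by
    intro z hz hzR
    obtain ⟨h1, h2, h3⟩ := (hmem _).1 hz
    rcases remF hF hnr h3 hzR with ⟨f, h, rfl⟩ | ⟨f, h, h4, rfl⟩ | ⟨f, h, h4, rfl⟩
    · exact absurd (by rw [hG.chain (hF.fs f h) heS (h3.symm.trans n1)]) h2
    · exact absurd (by rw [hrad (hF.fs f h).1 (hF.fs f h).2.1 h3]) h1
    · refine u5 f h h4 ?_
      rintro j rfl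
      exfalso
      apply h1
      have h5 : M.nx.symm (M.nx.symm (δ j)) = M.nx (M.nx (δ j)) := by
        rw [nx_four' h4, Equiv.symm_apply_apply]
      have h6 := hrad (hG.toPatch.prev_in j) (hG.toPatch.ring_prev j) (by rw [h5]; exact h3)
      rw [← h6, h5]
  have hsum : M.usum A ω d = ω (M.nx e) + (ω (M.nx.symm g) + ∑ z ∈ R, ω z) := by
    unfold usum
    rw [← Finset.add_sum_erase _ _ m1, ← Finset.add_sum_erase _ _ m2]
  rw [hsum, ← hg, add_assoc]
  congr 2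
  rw [← Finset.sum_filter_add_sum_filter_not R (fun z => FR M F z)]
  have h4 : ∑ z ∈ R.filter (fun z => FR M F z), ω z = 0 :=
    Finset.sum_eq_zero fun z hz => by
      rw [Finset.mem_filter] at hz
      exact hrem z hz.1 hz.2
  rw [h4, zero_add]
  have e2 : R.filter (fun z => ¬ FR M F z) =
      (Finset.univ.filter (fun z : {d // ¬ FR M F d} => M.SameNode (M.nx e) z.1 ∧
        z.1 ≠ M.nx e ∧ z.1 ≠ M.nx.symm g)).map (Function.Embedding.subtype _) := by
    ext z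
    rw [Finset.mem_filter, hmem, Finset.mem_map]
    constructor
    · rintro ⟨⟨h5, h6, h7⟩, h8⟩
      exact ⟨⟨z, h8⟩, Finset.mem_filter.2 ⟨Finset.mem_univ _, n1.symm.trans h7, h6, h5⟩, rfl⟩
    · rintro ⟨x, hx, rfl⟩
      rw [Finset.mem_filter] at hx
      exact ⟨⟨hx.2.2.2, hx.2.2.1, n1.trans hx.2.1⟩, x.2⟩
  rw [e2, Finset.sum_map]
  refine Finset.sum_congr rfl fun z hz => ?_
  rw [Finset.mem_filter] at hz
  exact hkept z ((hmem _).2 ⟨hz.2.2.2, hz.2.2.1, n1.trans hz.2.1⟩)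

end

section

variable {o : D → Bool} (ho : ∀ d, o (M.nx d) = !o d) (ho' : ∀ d, o (M.al d) = !o d)
  (hG : M.Gen A δ) (hF : Pre M A δ F)

include ho ho' hG hF

/-- the units of an inner node which is in no class -/
theorem usumF_inner {ω : D → ℕ} {ω' : {d // ¬ FR M F d} → ℕ}
    (x4 : ∀ y, (∀ z, (mapF hF ho ho' hG).SameNode y z → A z.1) →
      (mapF hF ho ho' hG).usum (fun x => A x.1) ω' y = 3)
    (u5 : ∀ f, F f → M.deg f = 4 → (∀ j, f = δ j → ¬ full M δ F (j - 1)) → ω (M.nx (M.nx f)) = 0)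
    (u6 : ∀ z : {d // ¬ FR M F d}, A z.1 → ¬ Ring M δ z.1 → ¬ F (M.fs (M.nx z.1)) → ω z.1 = ω' z)
    {d : D} (hd : ∀ z, M.SameNode d z → A z) (hcl : ∀ k, ¬ ClsF M δ F k d) :
    M.usum A ω d = 3 := by
  have hnr := hG.inner_not_ring hd
  have hnr' : ∀ {z}, M.SameNode d z → ¬ Ring M δ z := fun h h' => hnr (ring_same h.symm h')
  have hcl' : ∀ {z k}, M.SameNode d z → ¬ ClsF M δ F k z := fun h h' => hcl _ (h'.same h.symm)
  have hrem : ∀ z, M.SameNode d z → FR M F z →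
      ∃ f, F f ∧ M.deg f = 4 ∧ (∀ j, f = δ j → ¬ full M δ F (j - 1)) ∧ z = M.nx (M.nx f) := by
    intro z hn hR
    rcases remF hF hnr hn hR with ⟨f, h, rfl⟩ | ⟨f, h, h4, rfl⟩ | ⟨f, h, h4, rfl⟩
    · exfalso
      obtain ⟨i, hi⟩ := (hF.fs f h).2.1
      exact hcl' hn ⟨f, h, hi, Or.inl (Equiv.Perm.SameCycle.refl _ _)⟩
    · exfalso
      obtain ⟨i, hi⟩ := (hF.fs f h).2.1
      exact hcl' hn ⟨f, h, hi, Or.inr (Equiv.Perm.SameCycle.refl _ _)⟩
    · refine ⟨f, h, h4, ?_, rfl⟩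
      rintro j rfl hfull
      have hfull' : F (M.fs (M.nx.symm (δ j))) := by
        unfold full at hfull
        rwa [sub_add_cancel] at hfull
      have h5 : M.nx.symm (M.nx.symm (δ j)) = M.nx (M.nx (δ j)) := by
        rw [nx_four' h4, Equiv.symm_apply_apply]
      have h6 : M.SameNode (δ (j - 1)) (M.nx.symm (δ j)) := by
        have := hG.toPatch.prev_node (j - 1)
        rwa [sub_add_cancel] at this
      refine hcl' hn ⟨_, hfull', h6.trans (fs_node _), Or.inl ?_⟩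
      rw [nx_fs, ← h5]
      exact nx_symm_node _
  obtain ⟨y, hy⟩ : ∃ y : {d // ¬ FR M F d}, M.SameNode d y.1 := by
    by_cases h : FR M F d
    · obtain ⟨f, hf, h4, hl, h1⟩ := hrem d (Equiv.Perm.SameCycle.refl _ _) h
      have h5 : ¬ FR M F (M.al (M.nx.symm f)) := by
        by_cases hs : ∃ j, f = δ j
        · obtain ⟨j, rfl⟩ := hs
          exact hG.before_stayF hF h4 (hl j rfl)
        · push Not at hs
          exact fun h => hG.k3 (hF.fs _ hf) h4 hs (h.mono hF.fs)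
      refine ⟨⟨M.al (M.nx.symm f), h5⟩, ?_⟩
      show M.SameNode d (M.al (M.nx.symm f))
      have h2 := (al_node (M := M) (M.nx (M.nx f))).symm
      rw [nx_four' h4, h1]
      exact h2
    · exact ⟨⟨d, h⟩, Equiv.Perm.SameCycle.refl _ _⟩
  have hnode : ∀ z : {d // ¬ FR M F d},
      (mapF hF ho ho' hG).SameNode y z ↔ M.SameNode d z.1 := by
    intro z
    rw [mapF_sameNode]
    constructor
    · rintro (h | ⟨i, h, -⟩)
      · exact hy.trans h
      · exact absurd h (hcl' hy)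
    · exact fun h => Or.inl (hy.symm.trans h)
  have h3 := x4 y fun z hz => hd _ ((hnode z).1 hz)
  rw [← h3]
  have e1 : M.usum A ω d = ∑ e ∈ (M.nodeIn A d).filter (fun e => ¬ FR M F e), ω e := by
    unfold usum
    rw [← Finset.sum_filter_add_sum_filter_not (M.nodeIn A d) (fun e => FR M F e)]
    have h4 : ∑ e ∈ (M.nodeIn A d).filter (fun e => FR M F e), ω e = 0 := by
      refine Finset.sum_eq_zero fun e he => ?_
      rw [Finset.mem_filter, mem_nodeIn] at he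
      obtain ⟨f, hf, hf4, hl, rfl⟩ := hrem e he.1.1 he.2
      exact u5 f hf hf4 hl
    rw [h4, zero_add]
  have e2 : (M.nodeIn A d).filter (fun e => ¬ FR M F e) =
      ((mapF hF ho ho' hG).nodeIn (fun x => A x.1) y).map (Function.Embedding.subtype _) := by
    ext e
    rw [Finset.mem_filter, mem_nodeIn, Finset.mem_map]
    constructor
    · rintro ⟨⟨h4, h5⟩, h6⟩
      exact ⟨⟨e, h6⟩, mem_nodeIn.2 ⟨(hnode ⟨e, h6⟩).2 h4, h5⟩, rfl⟩
    · rintro ⟨z, hz, rfl⟩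
      rw [mem_nodeIn, hnode] at hz
      exact ⟨hz, z.2⟩
  rw [e1, e2, Finset.sum_map]
  unfold usum
  refine Finset.sum_congr rfl fun z hz => ?_
  rw [mem_nodeIn, hnode] at hz
  refine u6 z hz.2 (hnr' hz.1) fun h4 => ?_
  obtain ⟨i, hi⟩ := (hF.fs _ h4).2.1
  refine hcl' hz.1 ⟨_, h4, hi, Or.inl ?_⟩
  rw [nx_fs]
  exact al_node _

omit ho ho' in
/-- the edge of a ring sector which stays -/
theorem prev_stayF {L : D} (hr : Ring M δ L) (h : ¬ FR M F L) :
    ¬ FR M F (M.nx.symm L) := by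
  intro h1
  have e1 : M.nx (M.nx.symm L) = L := Equiv.apply_symm_apply _ _
  rcases FoldSet.cases h1 with h2 | ⟨f, h2, h3⟩ | ⟨f, h2, h4, h3⟩ | ⟨f, h2, h4, h3⟩
  · exact h (by rw [← e1]; exact FoldSet.r1 h2)
  · rw [h3] at e1
    exact hG.fs2 (hF.fs f h2) (by rw [e1]; exact hr)
  · rw [h3] at e1
    exact h (by rw [← e1]; exact FoldSet.r3 h2 h4)
  · rw [h3, nx_four h4] at e1
    exact h (by rw [← e1]; exact FoldSet.r0 h2)

/-- the dart before a ring dart of the folded map, first case -/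
theorem last1F {k : ZMod 6} {L : D} (hr : Ring M δ L) (h : ¬ FR M F L)
    (h1 : (hdrF hF ho ho' hG k).1 = L) :
    ((mapF hF ho ho' hG).nx.symm (hdrF hF ho ho' hG k)).1 = M.nx.symm L := by
  have h2 := prev_stayF hG hF hr h
  have h3 : (mapF hF ho ho' hG).nx ⟨M.nx.symm L, h2⟩ = hdrF hF ho ho' hG k := by
    rw [fmap_nx_of (hG.foldSetF hF) ho ho' (d := ⟨M.nx.symm L, h2⟩)
      (by rw [Equiv.apply_symm_apply]; exact h)]
    exact Subtype.ext ((Equiv.apply_symm_apply M.nx _).trans h1.symm)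
  rw [← h3, Equiv.symm_apply_apply]

/-- the dart before a ring dart of the folded map, second case -/
theorem last2F {k : ZMod 6} (hk : F (δ k)) (h4 : M.deg (δ k) = 4)
    (h1 : (hdrF hF ho ho' hG k).1 = M.al (M.nx (M.nx (δ k)))) :
    ((mapF hF ho ho' hG).nx.symm (hdrF hF ho ho' hG k)).1 = M.nx.symm (hdrF hF ho ho' hG k).1 := by
  have h6 : ¬ FR M F (M.nx.symm (hdrF hF ho ho' hG k).1) := by
    intro h
    have hno := (hdrF hF ho ho' hG k).2
    obtain ⟨f, hf, hf1⟩ : ∃ f, F f ∧ (hdrF hF ho ho' hG k).1 = M.nx (M.nx f) := by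
      rcases FoldSet.cases h with h1 | ⟨f, h1, h2⟩ | ⟨f, h1, h4', h2⟩ | ⟨f, h1, h4', h2⟩
      · exact absurd (FoldSet.r1 h1) (by rw [Equiv.apply_symm_apply]; exact hno)
      · exact ⟨f, h1, by rw [← h2, Equiv.apply_symm_apply]⟩
      · exact absurd (FoldSet.r3 h1 h4') (by rw [← h2, Equiv.apply_symm_apply]; exact hno)
      · have h7 := nx_four h4'
        rw [← h2, Equiv.apply_symm_apply] at h7
        exact absurd (FoldSet.r0 h1) (by rw [← h7]; exact hno)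
    have h7 : M.nx.symm (M.nx.symm (δ k)) = M.nx (M.nx (δ k)) := by
      rw [nx_four' h4, Equiv.symm_apply_apply]
    have h8 : M.SameNode (M.nx (M.nx (δ k))) (M.nx f) := by
      have h9 := nx_symm_node (M := M) (hdrF hF ho ho' hG k).1
      rw [h1, M.inv, ← h1, hf1, Equiv.symm_apply_apply] at h9
      exact h9
    have h9 := hG.rad_uniq (hF.fs f hf) (hG.toPatch.prev_in k) (hG.toPatch.ring_prev k)
      (by rw [h7]; exact hG.fs2 (hF.fs _ hk)) (by rw [h7]; exact h8)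
    have h10 := hG.share_sat hF (p := δ k) (s := f) (x := M.nx.symm (δ k))
      (y := M.nx (M.nx (δ k))) h4 (hG.toPatch.inA k) (hF.fs f hf).1 (hG.satF hF hk)
      (site_nx_symm _) ((site_nx _).trans (site_nx _)) (by rw [h9, M.inv]; exact site_nx f)
      (by rw [← h1, hf1]; exact (site_nx _).trans (site_nx _))
    rw [nx_four' h4] at h10
    exact hG.ne1 _ h10
  have h7 : (mapF hF ho ho' hG).nx ⟨M.nx.symm (hdrF hF ho ho' hG k).1, h6⟩ = hdrF hF ho ho' hG k := by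
    rw [fmap_nx_of (hG.foldSetF hF) ho ho' (d := ⟨M.nx.symm (hdrF hF ho ho' hG k).1, h6⟩)
      (by rw [Equiv.apply_symm_apply]; exact (hdrF hF ho ho' hG k).2)]
    exact Subtype.ext (Equiv.apply_symm_apply _ _)
  conv_lhs => rw [← h7, Equiv.symm_apply_apply]

omit ho ho' in
/-- a sector at a full ring node which is not folded -/
theorem full_last {j : ZMod 6} (h : full M δ F j) {L : D} (h1 : A L) (h2 : M.SameNode (δ j) L)
    (h3 : ¬ F L) : L = M.nx.symm (δ (j + 1)) := by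
  by_contra h4
  refine h3 (hG.full_all hF h ⟨h1, ring_same h2 (ring_δ j), fun i hi => h4 ?_⟩ h2)
  have h7 := hG.toPatch.prev_node (i - 1)
  rw [sub_add_cancel, ← hi] at h7
  rw [hi, ← hG.node_idx (h7.trans h2.symm), sub_add_cancel]

/-- the position of the first ring dart -/
theorem hdrF_mem {k : ZMod 6} {e : D} (he : F e) :
    (M.SameNode (M.nx e) (hdrF hF ho ho' hG k).1 ∧ (hdrF hF ho ho' hG k).1 ≠ M.nx e ∧
      (hdrF hF ho ho' hG k).1 ≠ M.nx.symm (M.al (M.nx e))) ↔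
      e = δ k ∧ M.deg (δ k) = 4 ∧ full M δ F (k - 1) := by
  have heS := hF.fs e he
  have hc := hdrF_cases ho ho' hG hF (k - 1)
  rw [sub_add_cancel] at hc
  obtain ⟨L, l1, l2, l3, l4, l5⟩ := hc
  rcases l5 with ⟨l6, l7⟩ | ⟨l6, l7, l8, l9⟩
  · constructor
    · rintro ⟨h1, -, -⟩
      rw [l7] at h1
      exact absurd (ring_same (l2.trans h1.symm) (ring_δ _)) (hG.fs1 heS)
    · rintro ⟨rfl, h4, hf⟩
      exfalso
      have h5 := full_last hG hF hf l1 l2 l3
      rw [sub_add_cancel] at h5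
      apply l6
      rw [h5, nx_four' h4]
      exact FoldSet.r3 he h4
  · have hn : M.SameNode (M.nx (δ k)) (hdrF hF ho ho' hG k).1 := by
      rw [l9]
      exact (al_node _).symm
    constructor
    · rintro ⟨h1, -, -⟩
      refine ⟨hG.chain heS (hF.fs _ l7) (h1.trans hn.symm), l8, ?_⟩
      rcases l4 with l4 | l4
      · exfalso
        rw [l6] at l4
        have h3 := ((hG.toPatch.corner_iff (k - 1) k).1 l4.symm).2
        have h5 := hG.nc _ h3
        rw [← deg_nx, h3, sub_add_cancel] at h5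
        omega
      · unfold full
        rw [sub_add_cancel, ← l6]
        exact l4
    · rintro ⟨rfl, -, -⟩
      refine ⟨hn, fun h => (hdrF hF ho ho' hG k).2 (by rw [h]; exact FoldSet.r1 he), fun h => ?_⟩
      have h10 := hG.share_sat hF (p := δ k) (s := M.al (M.nx (δ k))) (x := M.nx (δ k))
        (y := M.nx (M.nx (δ k))) l8 (hG.toPatch.inA k) (hG.fs_inn heS).2 (hG.satF hF l7)
        (site_nx _) ((site_nx _).trans (site_nx _))
        (Equiv.Perm.SameCycle.refl _ _) (by rw [← l9, h]; exact site_nx_symm _)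
      exact hG.ne1 _ h10.symm

/-- the position of the last ring sector -/
theorem last_mem {k : ZMod 6} {e : D} (he : F e) :
    (M.SameNode (M.nx e) ((mapF hF ho ho' hG).nx.symm (hdrF hF ho ho' hG (k + 1))).1 ∧
      ((mapF hF ho ho' hG).nx.symm (hdrF hF ho ho' hG (k + 1))).1 ≠ M.nx e ∧
      ((mapF hF ho ho' hG).nx.symm (hdrF hF ho ho' hG (k + 1))).1 ≠ M.nx.symm (M.al (M.nx e))) ↔
      M.al (M.nx e) = M.nx.symm (δ (k + 1)) ∧ M.deg (δ (k + 1)) = 4 ∧ F (δ (k + 1)) := by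
  have heS := hF.fs e he
  have hee : M.fs (M.al (M.nx e)) = e := by rw [fs_al, Equiv.symm_apply_apply]
  obtain ⟨L, l1, l2, l3, l4, l5⟩ := hdrF_cases ho ho' hG hF k
  have hrL : Ring M δ L := ring_same l2 (ring_δ k)
  have hrad : M.SameNode (M.nx e) (M.nx.symm L) → L = M.al (M.nx e) := fun h =>
    hG.rad_uniq heS l1 hrL (fun h' => hG.fs1 heS (ring_same h.symm h')) h.symm
  rcases l5 with ⟨l6, l7⟩ | ⟨l6, l7, l8, l9⟩
  · rw [last1F ho ho' hG hF hrL l6 l7]
    constructor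
    · rintro ⟨h1, -, h3⟩
      exact absurd (by rw [hrad h1]) h3
    · rintro ⟨h1, h4, h5⟩
      exfalso
      have h6 : full M δ F k := by
        unfold full
        rw [← h1, hee]
        exact he
      have h7 := full_last hG hF h6 l1 l2 l3
      apply l6
      rw [h7, nx_four' h4]
      exact FoldSet.r3 h5 h4
  · have h1 := last2F ho ho' hG hF l7 l8 l9
    have h2 : M.SameNode (M.nx.symm L)
        ((mapF hF ho ho' hG).nx.symm (hdrF hF ho ho' hG (k + 1))).1 := by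
      have h9 := nx_symm_node (M := M) (hdrF hF ho ho' hG (k + 1)).1
      rw [l9, M.inv, ← l9, ← h1] at h9
      rw [l6, nx_four' l8, Equiv.symm_apply_apply]
      exact h9
    constructor
    · rintro ⟨h3, -, -⟩
      exact ⟨(hrad (h3.trans h2.symm)).symm.trans l6, l8, l7⟩
    · rintro ⟨h3, -, -⟩
      have h4 : M.SameNode (M.nx e) (M.nx.symm L) := by
        rw [l6, ← h3, ← fs_def]
        exact fs_node _
      refine ⟨h4.trans h2, fun h => ?_, fun h => ?_⟩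
      · apply ((mapF hF ho ho' hG).nx.symm (hdrF hF ho ho' hG (k + 1))).2
        rw [h]
        exact FoldSet.r1 he
      · apply ((mapF hF ho ho' hG).nx.symm (hdrF hF ho ho' hG (k + 1))).2
        rw [h, h3, nx_four' l8, Equiv.symm_apply_apply]
        exact FoldSet.r2 l7 l8

/-- the units of the folded map at a node of a class -/
theorem sumF {ω' : {d // ¬ FR M F d} → ℕ} {k : ZMod 6}
    (x3 : ∀ y : {d // ¬ FR M F d}, ClsF M δ F k y.1 → A y.1 → y ≠ hdrF hF ho ho' hG k →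
      y ≠ (mapF hF ho ho' hG).nx.symm (hdrF hF ho ho' hG (k + 1)) → ω' y = 0)
    (hne : (mapF hF ho ho' hG).nx (hdrF hF ho ho' hG k) ≠ hdrF hF ho ho' hG (k + 1))
    {d e : D} (hd : ∀ z, M.SameNode d z → A z) (he : F e) (hn : M.SameNode (δ k) e)
    (hed : M.SameNode (M.nx e) d) :
    ∑ z ∈ Finset.univ.filter (fun z : {d // ¬ FR M F d} => M.SameNode (M.nx e) z.1 ∧
        z.1 ≠ M.nx e ∧ z.1 ≠ M.nx.symm (M.al (M.nx e))), ω' z =
      (if e = δ k ∧ M.deg (δ k) = 4 ∧ full M δ F (k - 1) then ω' (hdrF hF ho ho' hG k) else 0) +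
      if M.al (M.nx e) = M.nx.symm (δ (k + 1)) ∧ M.deg (δ (k + 1)) = 4 ∧ F (δ (k + 1)) then
        ω' ((mapF hF ho ho' hG).nx.symm (hdrF hF ho ho' hG (k + 1))) else 0 := by
  have hne' : hdrF hF ho ho' hG k ≠ (mapF hF ho ho' hG).nx.symm (hdrF hF ho ho' hG (k + 1)) :=
    fun h => hne (by rw [h, Equiv.apply_symm_apply])
  set S := Finset.univ.filter (fun z : {d // ¬ FR M F d} => M.SameNode (M.nx e) z.1 ∧
      z.1 ≠ M.nx e ∧ z.1 ≠ M.nx.symm (M.al (M.nx e))) with hS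
  have hmem : ∀ z, z ∈ S ↔ (M.SameNode (M.nx e) z.1 ∧ z.1 ≠ M.nx e ∧
      z.1 ≠ M.nx.symm (M.al (M.nx e))) := fun z => by
    rw [hS, Finset.mem_filter]
    exact ⟨fun h => h.2, fun h => ⟨Finset.mem_univ _, h⟩⟩
  have hval : ∀ z ∈ S, ω' z =
      (if z = hdrF hF ho ho' hG k then ω' (hdrF hF ho ho' hG k) else 0) +
      if z = (mapF hF ho ho' hG).nx.symm (hdrF hF ho ho' hG (k + 1)) then
        ω' ((mapF hF ho ho' hG).nx.symm (hdrF hF ho ho' hG (k + 1))) else 0 := by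
    intro z hz
    rw [hmem] at hz
    by_cases h1 : z = hdrF hF ho ho' hG k
    · rw [if_pos h1, if_neg fun h => hne' (h1.symm.trans h), h1, add_zero]
    · by_cases h2 : z = (mapF hF ho ho' hG).nx.symm (hdrF hF ho ho' hG (k + 1))
      · rw [if_neg h1, if_pos h2, zero_add]
        exact congrArg ω' h2
      · rw [if_neg h1, if_neg h2]
        exact x3 z ⟨e, he, hn, Or.inl hz.1⟩ (hd _ (hed.symm.trans hz.1)) h1 h2
  rw [Finset.sum_congr rfl hval, Finset.sum_add_distrib, Finset.sum_ite_eq', Finset.sum_ite_eq']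
  have a1 := (hmem (hdrF hF ho ho' hG k)).trans (hdrF_mem ho ho' hG hF (k := k) he)
  have a2 := (hmem _).trans (last_mem ho ho' hG hF (k := k) he)
  congr 1
  · by_cases h : e = δ k ∧ M.deg (δ k) = 4 ∧ full M δ F (k - 1)
    · rw [if_pos h, if_pos (a1.2 h)]
    · rw [if_neg h, if_neg fun h' => h (a1.1 h')]
  · by_cases h : M.al (M.nx e) = M.nx.symm (δ (k + 1)) ∧ M.deg (δ (k + 1)) = 4 ∧ F (δ (k + 1))
    · rw [if_pos h, if_pos (a2.2 h)]
    · rw [if_neg h, if_neg fun h' => h (a2.1 h')]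

/-- **the units of an inner node of a class** -/
theorem liftF_class {ω : D → ℕ} {ω' : {d // ¬ FR M F d} → ℕ} {r' : ZMod 6 → ℕ} {p q : ℕ}
    (hpq : p + q = 3)
    (u5 : ∀ f, F f → M.deg f = 4 → (∀ j, f = δ j → ¬ full M δ F (j - 1)) → ω (M.nx (M.nx f)) = 0)
    (u6 : ∀ z : {d // ¬ FR M F d}, A z.1 → ¬ Ring M δ z.1 → ¬ F (M.fs (M.nx z.1)) → ω z.1 = ω' z)
    {k : ZMod 6} (x1 : ω' (hdrF hF ho ho' hG k) = r' k)
    (x2 : ω' ((mapF hF ho ho' hG).nx.symm (hdrF hF ho ho' hG (k + 1))) + r' (k + 1) = 1)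
    (x3 : ∀ y : {d // ¬ FR M F d}, ClsF M δ F k y.1 → A y.1 → y ≠ hdrF hF ho ho' hG k →
      y ≠ (mapF hF ho ho' hG).nx.symm (hdrF hF ho ho' hG (k + 1)) → ω' y = 0)
    (hne : (mapF hF ho ho' hG).nx (hdrF hF ho ho' hG k) ≠ hdrF hF ho ho' hG (k + 1))
    (v1 : ∀ e, F e → M.SameNode (δ k) e → (e = δ k → M.deg (δ k) = 4 → ¬ full M δ F (k - 1)) →
      ω (M.nx e) = p)
    (v2 : F (δ k) → M.deg (δ k) = 4 → full M δ F (k - 1) → ω (M.nx (δ k)) + r' k = p)
    (v3 : ∀ e, F e → M.SameNode (δ k) e → (M.al (M.nx e) = M.nx.symm (δ (k + 1)) →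
      M.deg (δ (k + 1)) = 4 → ¬ F (δ (k + 1))) → ω (M.nx.symm (M.al (M.nx e))) = q)
    (v4 : F (δ (k + 1)) → M.deg (δ (k + 1)) = 4 → full M δ F k →
      ω (M.nx.symm (M.nx.symm (δ (k + 1)))) + 1 = q + r' (k + 1))
    {d e : D} (hd : ∀ z, M.SameNode d z → A z) (he : F e) (hn : M.SameNode (δ k) e)
    (hed : M.SameNode (M.nx e) d) : M.usum A ω d = 3 := by
  rw [hG.usumF_class hF u5 u6 hd he hed, sumF ho ho' hG hF x3 hne hd he hn hed]
  have b1 : ω (M.nx e) +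
      (if e = δ k ∧ M.deg (δ k) = 4 ∧ full M δ F (k - 1) then ω' (hdrF hF ho ho' hG k) else 0) = p := by
    by_cases h : e = δ k ∧ M.deg (δ k) = 4 ∧ full M δ F (k - 1)
    · rw [if_pos h, x1, h.1]
      exact v2 (by rw [← h.1]; exact he) h.2.1 h.2.2
    · rw [if_neg h, add_zero]
      exact v1 e he hn fun h1 h2 h3 => h ⟨h1, h2, h3⟩
  have b2 : ω (M.nx.symm (M.al (M.nx e))) +
      (if M.al (M.nx e) = M.nx.symm (δ (k + 1)) ∧ M.deg (δ (k + 1)) = 4 ∧ F (δ (k + 1)) then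
        ω' ((mapF hF ho ho' hG).nx.symm (hdrF hF ho ho' hG (k + 1))) else 0) = q := by
    by_cases h : M.al (M.nx e) = M.nx.symm (δ (k + 1)) ∧ M.deg (δ (k + 1)) = 4 ∧ F (δ (k + 1))
    · rw [if_pos h, h.1]
      have h1 : full M δ F k := by
        unfold full
        rw [← h.1, fs_al, Equiv.symm_apply_apply]
        exact he
      have h2 := v4 h.2.2 h.2.1 h1
      omega
    · rw [if_neg h, add_zero]
      exact v3 e he hn fun h1 h2 h3 => h ⟨h1, h2, h3⟩
  omega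

omit ho ho' hF in
/-- a corner has no fold sectors -/
theorem corner_fs {k : ZMod 6} (hc : M.nx (δ k) = δ (k + 1)) {e : D} (he : FS M A δ e)
    (hn : M.SameNode (δ k) e) : False := by
  have h1 : FS M A δ (δ k) := hG.pre_first' (F := FS M A δ) (fun _ h => h) (fun _ _ h => h) he hn
  exact h1.2.2 (k + 1) (by rw [← hc, Equiv.symm_apply_apply])

omit ho ho' hF in
/-- the units of a ring node -/
theorem liftF_ring {ω : D → ℕ} {r : ZMod 6 → ℕ} {k : ZMod 6}
    (w0 : M.nx (δ k) = δ (k + 1) → ω (δ k) + r (k + 1) = r k + 1)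
    (w1 : M.nx (δ k) ≠ δ (k + 1) → ω (δ k) = r k)
    (w2 : M.nx (δ k) ≠ δ (k + 1) → ω (M.nx.symm (δ (k + 1))) + r (k + 1) = 1)
    (w3 : ∀ e, FS M A δ e → M.SameNode (δ k) e → e ≠ δ k → ω e = 0) :
    M.usum A ω (δ k) + r (k + 1) = r k + 1 := by
  by_cases hc : M.nx (δ k) = δ (k + 1)
  · have h1 : M.nodeIn A (δ k) = {δ k} := by
      ext e
      rw [mem_nodeIn, Finset.mem_singleton]
      constructor
      · rintro ⟨h1, h2⟩
        rcases hG.asec h2 h1 with h3 | h3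
        · exact h3
        · exact (corner_fs hG hc h3 (h1.trans (fs_node e))).elim
      · rintro rfl
        exact ⟨Equiv.Perm.SameCycle.refl _ _, hG.toPatch.inA k⟩
    unfold usum
    rw [h1, Finset.sum_singleton]
    exact w0 hc
  · have hne : δ k ≠ M.nx.symm (δ (k + 1)) := fun h =>
      hc ((hG.toPatch.corner_iff k (k + 1)).1 h).2
    have h1 : δ k ∈ M.nodeIn A (δ k) :=
      mem_nodeIn.2 ⟨Equiv.Perm.SameCycle.refl _ _, hG.toPatch.inA k⟩
    have h2 : M.nx.symm (δ (k + 1)) ∈ (M.nodeIn A (δ k)).erase (δ k) :=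
      Finset.mem_erase.2 ⟨hne.symm, mem_nodeIn.2 ⟨hG.toPatch.prev_node k, hG.toPatch.prev_in _⟩⟩
    have h3 : ∑ e ∈ ((M.nodeIn A (δ k)).erase (δ k)).erase (M.nx.symm (δ (k + 1))), ω e = 0 := by
      refine Finset.sum_eq_zero fun e he => ?_
      rw [Finset.mem_erase, Finset.mem_erase, mem_nodeIn] at he
      obtain ⟨e1, e2, e3, e4⟩ := he
      refine w3 e ⟨e4, ⟨k, e3⟩, fun j hj => e1 ?_⟩ e3 e2
      have h5 := hG.toPatch.prev_node (j - 1)
      rw [sub_add_cancel, ← hj] at h5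
      rw [hj, ← hG.node_idx (h5.trans e3.symm), sub_add_cancel]
    have h4 := w2 hc
    unfold usum
    rw [← Finset.add_sum_erase _ _ h1, ← Finset.add_sum_erase _ _ h2, h3, w1 hc]
    omega

/-- **The units of a partial fold.** -/
theorem lift_unitsF {ω : D → ℕ} {ω' : {d // ¬ FR M F d} → ℕ} {r r' : ZMod 6 → ℕ} {p q : ℕ}
    (hpq : p + q = 3)
    (x1 : ∀ k, F (δ k) → ω' (hdrF hF ho ho' hG k) = r' k)
    (x2 : ∀ k, F (δ k) → ω' ((mapF hF ho ho' hG).nx.symm (hdrF hF ho ho' hG (k + 1))) + r' (k + 1) = 1)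
    (x3 : ∀ k, F (δ k) → ∀ y : {d // ¬ FR M F d}, ClsF M δ F k y.1 → A y.1 →
      y ≠ hdrF hF ho ho' hG k → y ≠ (mapF hF ho ho' hG).nx.symm (hdrF hF ho ho' hG (k + 1)) → ω' y = 0)
    (x4 : ∀ y, (∀ z, (mapF hF ho ho' hG).SameNode y z → A z.1) →
      (mapF hF ho ho' hG).usum (fun x => A x.1) ω' y = 3)
    (hne : ∀ k, F (δ k) → (mapF hF ho ho' hG).nx (hdrF hF ho ho' hG k) ≠ hdrF hF ho ho' hG (k + 1))
    (w0 : ∀ k, M.nx (δ k) = δ (k + 1) → ω (δ k) + r (k + 1) = r k + 1)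
    (w1 : ∀ k, M.nx (δ k) ≠ δ (k + 1) → ω (δ k) = r k)
    (w2 : ∀ k, M.nx (δ k) ≠ δ (k + 1) → ω (M.nx.symm (δ (k + 1))) + r (k + 1) = 1)
    (w3 : ∀ k e, FS M A δ e → M.SameNode (δ k) e → e ≠ δ k → ω e = 0)
    (v1 : ∀ k e, F e → M.SameNode (δ k) e → (e = δ k → M.deg (δ k) = 4 → ¬ full M δ F (k - 1)) →
      ω (M.nx e) = p)
    (v2 : ∀ k, F (δ k) → M.deg (δ k) = 4 → full M δ F (k - 1) → ω (M.nx (δ k)) + r' k = p)
    (v3 : ∀ k e, F e → M.SameNode (δ k) e → (M.al (M.nx e) = M.nx.symm (δ (k + 1)) →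
      M.deg (δ (k + 1)) = 4 → ¬ F (δ (k + 1))) → ω (M.nx.symm (M.al (M.nx e))) = q)
    (v4 : ∀ k, F (δ (k + 1)) → M.deg (δ (k + 1)) = 4 → full M δ F k →
      ω (M.nx.symm (M.nx.symm (δ (k + 1)))) + 1 = q + r' (k + 1))
    (u5 : ∀ f, F f → M.deg f = 4 → (∀ j, f = δ j → ¬ full M δ F (j - 1)) → ω (M.nx (M.nx f)) = 0)
    (u6 : ∀ z : {d // ¬ FR M F d}, A z.1 → ¬ Ring M δ z.1 → ¬ F (M.fs (M.nx z.1)) → ω z.1 = ω' z) :
    (∀ k, M.usum A ω (δ k) + r (k + 1) = r k + 1) ∧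
      ∀ d, (∀ e, M.SameNode d e → A e) → M.usum A ω d = 3 := by
  refine ⟨fun k => liftF_ring hG (w0 k) (w1 k) (w2 k) (w3 k), fun d hd => ?_⟩
  by_cases hcl : ∃ k, ClsF M δ F k d
  · obtain ⟨k, e, he, hn, h3⟩ := hcl
    have hnr := hG.inner_not_ring hd
    have key : ∀ e', F e' → M.SameNode (δ k) e' → M.SameNode (M.nx e') d → M.usum A ω d = 3 := by
      intro e' he' hn' hed'
      have hk := hG.pre_first hF he' hn'
      exact liftF_class ho ho' hG hF hpq u5 u6 (x1 k hk) (x2 k hk) (x3 k hk) (hne k hk) (v1 k)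
        (v2 k) (v3 k) (v4 k) hd he' hn' hed'
    rcases h3 with h3 | h3
    · exact key e he hn h3
    · -- the node before a fold sector
      rcases hG.asec (hF.fs e he).1 hn with h4 | h4
      · exfalso
        refine hnr (ring_same h3 ?_)
        rw [h4]
        exact hG.toPatch.ring_prev k
      · refine key (M.fs e) (hF.pre e he h4) (hn.trans (fs_node e)) ?_
        rw [nx_fs]
        exact (nx_symm_node e).trans h3
  · push Not at hcl
    exact usumF_inner ho ho' hG hF x4 u5 u6 hd hcl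

end

end Gen

end DMap

end GT33
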