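import Pool.Agent.GT33.PreD
import Pool.Agent.GT33.PartL

/-!
# GT33 module PARTW: the folds of the ring given by words

`Fw M A δ f`: the word `f : ZMod 6 → Fin 3` gives the folded sectors: nothing (`0`), the site at the ring edge `k`
(`1`) or all fold sectors (`2`) at the ring node `k`.
-/

open Classical

namespace GT33

namespace DMap

variable {D : Type} {M : DMap D} {A : D → Prop} {δ : ZMod 6 → D}

open Patch

/-- the folded sectors of a word -/
def Fw (M : DMap D) (A : D → Prop) (δ : ZMod 6 → D) (f : ZMod 6 → Fin 3) (d : D) : Prop :=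
  FS M A δ d ∧ ∃ k, M.SameNode (δ k) d ∧ (f k = 2 ∨ (f k = 1 ∧ d = δ k))

/-- there are no links at the ring node `k` -/
def NoLink (M : DMap D) (δ : ZMod 6 → D) (k : ZMod 6) : Prop := M.fs (M.nx.symm (δ (k + 1))) = δ k

namespace Gen

variable [Fintype D] (hG : M.Gen A δ) (f : ZMod 6 → Fin 3)

include hG

omit [Fintype D] in
theorem fw_pre (hT : TrivF M A (Fw M A δ f))
    (hX : ∀ d, A d → M.deg d = 6 → ∃ e, M.SameSite d e ∧ Fw M A δ f e) :
    Pre M A δ (Fw M A δ f) where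
  triv := hT
  hex := hX
  fs _ h := h.1
  pre e h h' := by
    obtain ⟨h1, k, h2, h3⟩ := h
    rcases h3 with h3 | ⟨h3, rfl⟩
    · exact ⟨h', k, h2.trans (fs_node e), Or.inl h3⟩
    · -- the sector after the first sector is not a fold sector
      exfalso
      have h4 : M.nx (M.fs (δ k)) = M.al (δ k) := by rw [nx_fs]
      have h5 := (hG.toPatch.sites.same (site_nx (M.fs (δ k)))).1 h'.1
      rw [h4] at h5
      exact hG.toPatch.notA k h5

/-- a corner has no fold sectors -/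
theorem corner_no {k : ZMod 6} (hc : M.nx (δ k) = δ (k + 1)) {d : D} (hd : FS M A δ d)
    (hn : M.SameNode (δ k) d) : False := hG.corner_fs hc hd hn

/-- the first sector of a ring node without corner -/
theorem fs_first {k : ZMod 6} (hc : M.nx (δ k) ≠ δ (k + 1)) : FS M A δ (δ k) := by
  refine ⟨hG.toPatch.inA k, ring_δ k, fun i hi => hc ?_⟩
  have h1 := hG.toPatch.prev_node (i - 1)
  rw [sub_add_cancel, ← hi] at h1
  have h2 : i = k + 1 := by
    rw [← hG.node_idx h1]
    ring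
  rw [← h2, hi, Equiv.apply_symm_apply]

theorem fw_δ (k : ZMod 6) : Fw M A δ f (δ k) ↔ f k ≠ 0 ∧ M.nx (δ k) ≠ δ (k + 1) := by
  constructor
  · rintro ⟨h1, i, h2, h3⟩
    have h4 := hG.node_idx h2
    subst h4
    refine ⟨fun h5 => ?_, fun h5 => hG.corner_fs h5 h1 (Equiv.Perm.SameCycle.refl _ _)⟩
    rw [h5] at h3
    rcases h3 with h3 | ⟨h3, -⟩ <;> exact absurd h3 (by decide)
  · rintro ⟨h1, h2⟩
    refine ⟨hG.fs_first h2, k, Equiv.Perm.SameCycle.refl _ _, ?_⟩
    have h3 : ∀ x : Fin 3, x ≠ 0 → x = 2 ∨ x = 1 := by decide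
    rcases h3 _ h1 with h4 | h4
    · exact Or.inl h4
    · exact Or.inr ⟨h4, rfl⟩

/-- the last fold sector of a ring node -/
theorem last_fs {k : ZMod 6} (hc : M.nx (δ k) ≠ δ (k + 1)) :
    FS M A δ (M.fs (M.nx.symm (δ (k + 1)))) ∧
      M.SameNode (δ k) (M.fs (M.nx.symm (δ (k + 1)))) := by
  have h1 : M.SameNode (δ k) (M.nx.symm (δ (k + 1))) := hG.toPatch.prev_node k
  have h2 : A (M.nx.symm (δ (k + 1))) := hG.toPatch.prev_in (k + 1)
  refine ⟨?_, h1.trans (fs_node _)⟩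
  rcases hG.asec h2 h1 with h3 | h3
  · exact absurd (by rw [← h3, Equiv.apply_symm_apply]) hc
  · exact h3

theorem fw_full (k : ZMod 6) : full M δ (Fw M A δ f) k ↔
    M.nx (δ k) ≠ δ (k + 1) ∧ (f k = 2 ∨ (f k = 1 ∧ NoLink M δ k)) := by
  unfold full NoLink
  constructor
  · rintro ⟨h1, i, h2, h3⟩
    have hn : M.SameNode (δ k) (M.fs (M.nx.symm (δ (k + 1)))) :=
      (hG.toPatch.prev_node k).trans (fs_node _)
    have h4 := hG.node_idx (h2.trans hn.symm)
    subst h4
    exact ⟨fun h5 => hG.corner_fs h5 h1 hn, h3⟩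
  · rintro ⟨hc, h⟩
    obtain ⟨h1, h2⟩ := hG.last_fs hc
    exact ⟨h1, k, h2, h⟩

/-- there are links if not all fold sectors are at the ring edge -/
theorem exists_link {k : ZMod 6} (hc : M.nx (δ k) ≠ δ (k + 1)) (h : ¬ NoLink M δ k) :
    ∃ e, FS M A δ e ∧ M.SameNode (δ k) e ∧ ∀ i, e ≠ δ i := by
  obtain ⟨h1, h2⟩ := hG.last_fs hc
  refine ⟨_, h1, h2, fun i hi => h ?_⟩
  have h3 : M.SameNode (δ k) (δ i) := by rw [← hi]; exact h2
  have h4 := hG.node_idx h3
  subst h4
  exact hi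

end Gen

end DMap

end GT33
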