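import Pool.Agent.GT33.PartT
import Pool.Agent.GT33.RestT

/-!
# GT33 module PARTX: ports of the lifted state, partial folds

`thrC`, `lecC`: folded corner hexagons, with all fold sectors of the ring node before folded or not.  `BL`: the patch
without the hexagons `lecC`.  `Gen.liftMuF`: the lifted pairing is a lift.  `PStepG`: the connections of the ports of
the lifted state, `SStep`: the connections of the folded map, in terms of a matching `ρ` of the ports of `BL`.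
-/

open Classical

namespace GT33

namespace DMap

variable {D : Type} {M : DMap D} {A : D → Prop} {δ : ZMod 6 → D} {F : D → Prop}

open Patch

/-- the corner hexagon `c` is folded, and all fold sectors of the ring node `c - 1` are folded -/
def thrC (M : DMap D) (δ : ZMod 6 → D) (F : D → Prop) (c : ZMod 6) : Prop :=
  cC M δ F c ∧ full M δ F (c - 1)

/-- the corner hexagon `c` is folded, and not all fold sectors of the ring node `c - 1` are folded -/
def lecC (M : DMap D) (δ : ZMod 6 → D) (F : D → Prop) (c : ZMod 6) : Prop :=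
  cC M δ F c ∧ ¬ full M δ F (c - 1)

/-- the patch without the hexagons `lecC` -/
def BL (M : DMap D) (A : D → Prop) (δ : ZMod 6 → D) (F : D → Prop) (d : D) : Prop :=
  A d ∧ ∀ c, lecC M δ F c → ¬ M.SameSite (δ (c + 1)) d

theorem BL_sites (hA : M.Sites A) : M.Sites (BL M A δ F) := by
  intro d
  refine and_congr (hA d) (forall_congr' fun c => imp_congr_right fun _ => not_congr ?_)
  exact ⟨fun h => h.trans (site_nx d).symm, fun h => h.trans (site_nx d)⟩

namespace Gen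

variable [Fintype D] (hG : M.Gen A δ) (hF : Pre M A δ F) {o : D → Bool}
  (ho : ∀ d, o (M.nx d) = !o d) (ho' : ∀ d, o (M.al d) = !o d)

section basic

include hG hF

/-- the dart of a folded corner hexagon in its numbering -/
theorem kc_mem {c : ZMod 6} (h : M.nx (δ c) = δ (c + 1)) {d : D} (hs : M.SameSite (δ (c + 1)) d) :
    ∃ i, kc M δ c i = d := (hG.kc_num hF h).mem (i := 0) hs

theorem kc_same {c : ZMod 6} (h : M.nx (δ c) = δ (c + 1)) (i : ZMod 6) :
    M.SameSite (δ (c + 1)) (kc M δ c i) := (hG.kc_num hF h).same (by decide) 0 i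

/-- the first sector of a corner is not folded -/
theorem cC_not {c : ZMod 6} (h : M.nx (δ c) = δ (c + 1)) : ¬ F (δ c) := fun h1 =>
  (hF.fs _ h1).2.2 (c + 1) (by rw [← h, Equiv.symm_apply_apply])

theorem full_first {k : ZMod 6} (h : full M δ F k) : F (δ k) :=
  hG.pre_first hF h ((hG.toPatch.prev_node k).trans (fs_node _))

theorem int_first {k : ZMod 6} (h : IntF M δ F k) : F (δ (k - 1)) := hG.full_first hF h.1

/-- the kept darts of a folded corner hexagon -/
theorem kc_kept {c : ZMod 6} (h : cC M δ F c) {i : ZMod 6} (h0 : i ≠ 0) (h1 : i ≠ 1) :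
    ¬ FR M F (kc M δ c i) :=
  hG.stF_kept hF h.2 (hG.kc_num hF h.1) rfl h0 h1

theorem kc_rem {c : ZMod 6} (h : cC M δ F c) {i : ZMod 6} (hi : ¬ FR M F (kc M δ c i)) :
    i = 2 ∨ i = 3 ∨ i = 4 ∨ i = 5 := by
  have h0 : i ≠ 0 := fun h1 => hi (by rw [h1]; exact FoldSet.r0 h.2)
  have h1 : i ≠ 1 := fun h1 => hi (by rw [h1, kc1]; exact FoldSet.r1 h.2)
  clear hi
  revert i
  decide

/-- the ring dart at a folded corner hexagon -/
theorem hdr_c {c : ZMod 6} (h : cC M δ F c) : (hdrF hF ho ho' hG (c + 1)).1 = kc M δ c 5 := by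
  rw [hG.hdrF_δ hF ho ho' (hG.cC_not hF h.1), hG.kc_5 hF h.1]

/-- the other ring dart at a folded corner hexagon -/
theorem hdr_t {c : ZMod 6} (h : thrC M δ F c) : (hdrF hF ho ho' hG c).1 = kc M δ c 4 := by
  have h1 := hG.hdrF_full hF ho ho' h.2 (by
    rw [sub_add_cancel]
    exact fun h2 => hG.cC_not hF h.1.1 h2.1)
  rw [sub_add_cancel] at h1
  rw [h1, hG.kc_4 hF h.1.1]

/-- sites of folded corner hexagons and folded interior ring edges -/
theorem BL_int {k : ZMod 6} (hk : IntF M δ F k) {d : D} (hs : M.SameSite (δ k) d) (hd : A d) :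
    BL M A δ F d := ⟨hd, fun _ hc h => hG.int_cor hF hk hc.1 hs h⟩

theorem BL_thr {c : ZMod 6} (hk : thrC M δ F c) {d : D} (hs : M.SameSite (δ (c + 1)) d) :
    BL M A δ F d := by
  refine ⟨(hG.toPatch.sites.same hs).1 (hG.toPatch.inA _), fun b hb h => ?_⟩
  have := hG.cor_uniq hF hb.1 hk.1 h hs
  subst this
  exact hb.2 hk.2

theorem SF_iff (k : ZMod 6) : SF M δ F k ↔ (IntF M δ F k ∧ M.deg (δ k) ≠ 4) ∨ thrC M δ F k ∨
    thrC M δ F (k - 1) := by
  unfold SF thrC
  rw [show k - 1 - 1 = k - 2 by ring]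

end basic

section lift

variable {μ' : {d // ¬ FR M F d} → {d // ¬ FR M F d}} {a : ZMod 6 → Bool}
  {w : ZMod 6 → PState 6}

/-- the conditions for the pairing of the folded map -/
structure MuF (hG : M.Gen A δ) (hF : Pre M A δ F) (ho : ∀ d, o (M.nx d) = !o d)
    (ho' : ∀ d, o (M.al d) = !o d) (μ' : {d // ¬ FR M F d} → {d // ¬ FR M F d}) : Prop where
  inv : ∀ y, A y.1 → μ' (μ' y) = y
  fix : ∀ y, A y.1 → μ' y ≠ y
  site : ∀ y, A y.1 → M.SameSite y.1 (μ' y).1
  t4 : ∀ c, thrC M δ F c → (μ' (hdrF hF ho ho' hG c)).1 = kc M δ c 3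
  t5 : ∀ c, thrC M δ F c → (μ' (hdrF hF ho ho' hG (c + 1))).1 = kc M δ c 2

variable {hG hF ho ho'} (hm : MuF hG hF ho ho' μ')

include hm

theorem MuF.X_int {k : ZMod 6} (hk : IntF M δ F k) :
    M.SameSite (δ k) (pXF hG hF ho ho' μ' k) ∧ pXF hG hF ho ho' μ' k ≠ δ k ∧
      pXF hG hF ho ho' μ' k ≠ M.nx (δ k) ∧ pXF hG hF ho ho' μ' k ≠ M.nx.symm (δ k) := by
  by_cases h4 : M.deg (δ k) = 4
  · have h1 : pXF hG hF ho ho' μ' k = M.nx (M.nx (δ k)) := if_pos ⟨hk, h4⟩
    rw [h1]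
    refine ⟨(site_nx _).trans (site_nx _), hG.ne2 _, hG.ne1 _, fun h => ?_⟩
    exact hG.ne3 (δ k) (by rw [h, Equiv.apply_symm_apply])
  · have hS : SF M δ F k := Or.inl ⟨hk, h4⟩
    have h1 : pXF hG hF ho ho' μ' k = (μ' (hdrF hF ho ho' hG k)).1 := by
      rw [pXF, if_neg fun h => h4 h.2, if_pos hS]
    have h2 := hG.hdr_int hF ho ho' hk h4
    have h3 := hm.site (hdrF hF ho ho' hG k) (hG.hdrF_A hF ho ho' k)
    rw [h1]
    refine ⟨Equiv.Perm.SameCycle.trans (by rw [h2]; exact site_nx_symm _) h3, fun h => ?_,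
      fun h => ?_, fun h => ?_⟩
    · exact (μ' (hdrF hF ho ho' hG k)).2 (by rw [h]; exact FoldSet.r0 hk.2)
    · exact (μ' (hdrF hF ho ho' hG k)).2 (by rw [h]; exact FoldSet.r1 hk.2)
    · exact hm.fix _ (hG.hdrF_A hF ho ho' k) (Subtype.ext (by rw [h, h2]))

/-- the types of the interior ring edges -/
theorem MuF.typ {k : ZMod 6} (hk : IntF M δ F k) (ha : a k = true) :
    lmuF hG hF ho ho' μ' a w (δ k) = M.nx (δ k) ∧
      lmuF hG hF ho ho' μ' a w (pXF hG hF ho ho' μ' k) = M.nx.symm (δ k) := by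
  obtain ⟨h1, h2, h3, h4⟩ := hm.X_int hk
  refine ⟨?_, ?_⟩
  · rw [hG.lmuF_sp hF ho ho' hk (Equiv.Perm.SameCycle.refl _ _), spmF, if_pos rfl, if_pos ha]
  · rw [hG.lmuF_sp hF ho ho' hk h1, spmF, if_neg h2, if_neg h3, if_neg h4, if_pos rfl, if_pos ha]

theorem MuF.typ' {k : ZMod 6} (hk : IntF M δ F k) (ha : a k = false) :
    lmuF hG hF ho ho' μ' a w (δ k) = M.nx.symm (δ k) ∧
      lmuF hG hF ho ho' μ' a w (pXF hG hF ho ho' μ' k) = M.nx (δ k) := by
  obtain ⟨h1, h2, h3, h4⟩ := hm.X_int hk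
  refine ⟨?_, ?_⟩
  · rw [hG.lmuF_sp hF ho ho' hk (Equiv.Perm.SameCycle.refl _ _), spmF, if_pos rfl,
      if_neg (by rw [ha]; decide)]
  · rw [hG.lmuF_sp hF ho ho' hk h1, spmF, if_neg h2, if_neg h3, if_neg h4, if_pos rfl,
      if_neg (by rw [ha]; decide)]

omit hm in
/-- the pairing of a link or a left end -/
theorem lmuF_lk {e : D} (he : LkF M δ F e) :
    lmuF hG hF ho ho' μ' a w e = M.nx e := by
  rw [hG.lmuF_of hF ho ho' (hG.lk_int hF he (Equiv.Perm.SameCycle.refl _ _))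
    (hG.lk_cor hF he (Equiv.Perm.SameCycle.refl _ _)), kmuF,
    dif_neg (not_not.2 (FoldSet.r0 he.1)), FoldSet.mu0 he.1]

omit hm in
theorem lmuF_lk2 {e : D} (he : LkF M δ F e) (h4 : M.deg e = 4) :
    lmuF hG hF ho ho' μ' a w (M.nx (M.nx e)) = M.nx.symm e := by
  have hs : M.SameSite e (M.nx (M.nx e)) := (site_nx _).trans (site_nx _)
  rw [hG.lmuF_of hF ho ho' (hG.lk_int hF he hs) (hG.lk_cor hF he hs), kmuF,
    dif_neg (not_not.2 (FoldSet.r2 he.1 h4)), (hG.foldSetF hF).mu2 he.1 h4, nx_four' h4]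

/-- **The lifted pairing is a lift.** -/
theorem MuF.lift : LiftMuF hG hF ho ho' (BL M A δ F) μ' (lmuF hG hF ho ho' μ' a w)
    (pXF hG hF ho ho' μ') (SF M δ F) := by
  have hs4 : ∀ k, SF M δ F k → ¬ (IntF M δ F k ∧ M.deg (δ k) = 4) := by
    rintro k hk ⟨h1, h2⟩
    rcases (hG.SF_iff hF k).1 hk with h | h | h
    · exact h.2 h2
    · exact hG.cC_not hF h.1.1 h1.2
    · refine hG.int_cor hF (c := k - 1) h1 h.1 (d := δ k) (Equiv.Perm.SameCycle.refl _ _) ?_
      rw [sub_add_cancel]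
  have hXS : ∀ k, SF M δ F k → pXF hG hF ho ho' μ' k = (μ' (hdrF hF ho ho' hG k)).1 := by
    intro k hk
    rw [pXF, if_neg (hs4 k hk), if_pos hk]
  have hsite : ∀ k, SF M δ F k → ∃ j, M.SameSite (δ j) (hdrF hF ho ho' hG k).1 ∧
      ((IntF M δ F k ∧ j = k) ∨ (thrC M δ F k ∧ j = k + 1) ∨ (thrC M δ F (k - 1) ∧ j = k)) := by
    intro k hk
    rcases (hG.SF_iff hF k).1 hk with h | h | h
    · refine ⟨k, ?_, Or.inl ⟨h.1, rfl⟩⟩
      rw [hG.hdr_int hF ho ho' h.1 h.2]
      exact site_nx_symm _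
    · refine ⟨k + 1, ?_, Or.inr (Or.inl ⟨h, rfl⟩)⟩
      rw [hG.hdr_t hF ho ho' h]
      exact hG.kc_same hF h.1.1 4
    · refine ⟨k, ?_, Or.inr (Or.inr ⟨h, rfl⟩)⟩
      have h1 := hG.hdr_c hF ho ho' h.1
      have h2 := hG.kc_same hF h.1.1 5
      rw [← h1, sub_add_cancel] at h2
      exact h2
  have hFj : ∀ {k j : ZMod 6}, ((IntF M δ F k ∧ j = k) ∨ (thrC M δ F k ∧ j = k + 1) ∨
      (thrC M δ F (k - 1) ∧ j = k)) → F (δ j) := by
    rintro k j (⟨h, rfl⟩ | ⟨h, rfl⟩ | ⟨h, rfl⟩)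
    · exact h.2
    · exact h.1.2
    · have := h.1.2
      rwa [sub_add_cancel] at this
  refine ⟨BL_sites hG.toPatch.sites, fun d h => h.1, fun e he h4 => ⟨(hF.fs e he).1, fun c hc h => ?_⟩,
    fun y hy => hm.inv y hy.1, fun e he hl => lmuF_lk ⟨he, fun k _ => hl k, fun c _ => hl _⟩,
    fun e he hl h4 => lmuF_lk2 ⟨he, hl, fun c hc h => ?_⟩ h4, fun k hk => ?_, fun j k hj hk h => ?_,
    hs4, hXS, fun k hk h4 => if_pos ⟨hk, h4⟩, fun k hk h4 => ?_, fun y hy hne => ?_⟩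
  · have h1 := deg_same h
    rw [hG.cC_deg hF hc.1.1] at h1
    omega
  · have h1 := hG.cC_deg hF hc.1
    rw [← h] at h1
    omega
  · rcases (hG.SF_iff hF k).1 hk with h | h | h
    · refine hG.BL_int hF h.1 ?_ (hG.hdrF_A hF ho ho' k)
      rw [hG.hdr_int hF ho ho' h.1 h.2]
      exact site_nx_symm _
    · refine hG.BL_thr hF h ?_
      rw [hG.hdr_t hF ho ho' h]
      exact hG.kc_same hF h.1.1 4
    · refine hG.BL_thr hF h ?_
      have h1 := hG.hdr_c hF ho ho' h.1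
      have h2 := hG.kc_same hF h.1.1 5
      rw [← h1] at h2
      rw [sub_add_cancel] at h2 ⊢
      exact h2
  · obtain ⟨i, h1, h2⟩ := hsite k hk
    obtain ⟨i', h3, h4⟩ := hsite j hj
    have h5 := hm.site (hdrF hF ho ho' hG k) (hG.hdrF_A hF ho ho' k)
    rw [h] at h5
    have h6 : i' = i := hG.bd.inj (hG.fs_uniq (hF.fs _ (hFj h2)) (hF.fs _ (hFj h4))
      ((h1.trans h5).trans h3.symm))
    subst h6
    rcases h2 with ⟨h2, rfl⟩ | ⟨h2, rfl⟩ | ⟨h2, rfl⟩
    · rcases h4 with ⟨h4, h7⟩ | ⟨h4, h7⟩ | ⟨h4, h7⟩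
      · exact h7.symm
      · exfalso
        subst h7
        exact hG.int_cor hF h2 h4.1 (d := δ (j + 1)) (Equiv.Perm.SameCycle.refl _ _)
          (Equiv.Perm.SameCycle.refl _ _)
      · exact h7.symm
    · rcases h4 with ⟨h4, h7⟩ | ⟨h4, h7⟩ | ⟨h4, h7⟩
      · exfalso
        subst h7
        exact hG.int_cor hF h4 h2.1 (d := δ (k + 1)) (Equiv.Perm.SameCycle.refl _ _)
          (Equiv.Perm.SameCycle.refl _ _)
      · exact (add_right_cancel h7).symm
      · exfalso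
        subst h7
        have h8 := hm.t4 k h2
        rw [h, hG.hdr_c hF ho ho' h2.1] at h8
        exact absurd ((hG.kc_num hF h2.1.1).inj h8) (by decide)
    · rcases h4 with ⟨h4, h7⟩ | ⟨h4, h7⟩ | ⟨h4, h7⟩
      · exact h7.symm
      · exfalso
        subst h7
        have h8 := hm.t5 j h4
        rw [h, hG.hdr_t hF ho ho' h4] at h8
        exact absurd ((hG.kc_num hF h4.1.1).inj h8) (by decide)
      · exact h7.symm
  · rw [pXF, if_neg h4, if_neg hk]
  · have hkm : kmuF μ' y.1 = (μ' y).1 := dif_pos y.2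
    by_cases h : ∃ k, IntF M δ F k ∧ M.SameSite (δ k) y.1
    · obtain ⟨k, hk, hs⟩ := h
      have h4 : M.deg (δ k) ≠ 4 := fun h4 => y.2 (fr_quad' hk.2 h4 hs)
      have hS : SF M δ F k := Or.inl ⟨hk, h4⟩
      have h5 := hne k hS
      rw [hG.lmuF_sp hF ho ho' hk hs, spmF, if_neg fun h => y.2 (by rw [h]; exact FoldSet.r0 hk.2),
        if_neg fun h => y.2 (by rw [h]; exact FoldSet.r1 hk.2),
        if_neg fun h => h5.1 (Subtype.ext (by rw [h, hG.hdr_int hF ho ho' hk h4])),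
        if_neg fun h => h5.2 (Subtype.ext (by rw [h, hXS k hS])), hkm]
    · by_cases h' : ∃ c, cC M δ F c ∧ M.SameSite (δ (c + 1)) y.1
      · exfalso
        obtain ⟨c, hc, hs⟩ := h'
        have ht : thrC M δ F c := ⟨hc, by
          by_contra hno
          exact hy.2 c ⟨hc, hno⟩ hs⟩
        have hS : SF M δ F c := (hG.SF_iff hF c).2 (Or.inr (Or.inl ht))
        have hS' : SF M δ F (c + 1) := (hG.SF_iff hF _).2 (Or.inr (Or.inr (by
          rwa [add_sub_cancel_right])))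
        obtain ⟨i, hi⟩ := hG.kc_mem hF hc.1 hs
        have h1 := hne c hS
        have h2 := hne (c + 1) hS'
        rcases hG.kc_rem hF hc (i := i) (by rw [hi]; exact y.2) with rfl | rfl | rfl | rfl
        · exact h2.2 (Subtype.ext (by rw [← hi, hm.t5 c ht]))
        · exact h1.2 (Subtype.ext (by rw [← hi, hm.t4 c ht]))
        · exact h1.1 (Subtype.ext (by rw [← hi, hG.hdr_t hF ho ho' ht]))
        · exact h2.1 (Subtype.ext (by rw [← hi, hG.hdr_c hF ho ho' hc]))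
      · rw [hG.lmuF_of hF ho ho' h h', hkm]

end lift

end Gen

end DMap

end GT33
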