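import Pool.Agent.GT33.PartX

/-!
# GT33 module PARTY: the strands of the lifted state, partial folds

`PStepG`: the connections of the ports of the lifted state, `SStep`: the connections of the folded map, in terms of a
matching `ρ` of the ports of `BL`.  `MuF.portsG`, `MuF.allG`: the strands of the lifted state.  `MuF.rho`: the matching
`ρ` of a state of the folded map.
-/

open Classical

namespace GT33

/-- the ports: `(0, k)` the ring edge `k`, `(1, k)` the strand around the ring node `k`, `(2, k)` the ring edge `k` of the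
folded map, `(3, c)`, `(4, c)`, `(5, c)` the edges `2`, `3`, `4` of the corner hexagon `c` -/
abbrev Pt := Fin 6 × ZMod 6

/-- ports of the rest -/
def vp (L : ZMod 6 → Bool) (x : Pt) : Bool :=
  (x.1 == 2 && !L (x.2 - 1)) || ((x.1 == 3 || x.1 == 4 || x.1 == 5) && L x.2)

/-- ports of the lifted state -/
def up (L : ZMod 6 → Bool) (x : Pt) : Bool :=
  (x.1 == 0 || x.1 == 1 || x.1 == 2) || ((x.1 == 3 || x.1 == 4 || x.1 == 5) && L x.2)

/-- the ports of a folded corner hexagon -/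
def cp (t : Bool) (c i : ZMod 6) : Pt :=
  if t = true then (![(0, c + 1), (1, c + 1), (2, c + 1), (2, c), (1, c - 1), (0, c)] : Fin 6 → Pt) i
  else (![(0, c + 1), (1, c + 1), (3, c), (4, c), (5, c), (0, c)] : Fin 6 → Pt) i

/-- the ports of the quad of a folded corner hexagon -/
def kp (c : ZMod 6) (n : ZMod 4) : Pt := (![(3, c), (4, c), (5, c), (2, c + 1)] : Fin 4 → Pt) n

/-- the connections of the ports of the lifted state -/
def PStepG (L T : ZMod 6 → Bool) (a : ZMod 6 → Bool) (ρ : Pt → Pt) (w : ZMod 6 → ZMod 6 → ZMod 6)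
    (x y : Pt) : Prop :=
  (∃ k, a k = true ∧ L (k - 1) = false ∧ T (k - 1) = false ∧ x = (0, k) ∧ y = (1, k)) ∨
  (∃ k, a k = true ∧ T k = false ∧ T (k - 1) = false ∧ x = (2, k) ∧ y = (1, k - 1)) ∨
  (∃ k, a k = false ∧ x = (0, k) ∧ y = (1, k - 1)) ∨
  (∃ k, a k = false ∧ x = (2, k) ∧ y = (1, k)) ∨
  (vp L x = true ∧ y = ρ x) ∨
  ∃ c i, (L c = true ∨ T c = true) ∧ x = cp (T c) c i ∧ y = cp (T c) c (w c i)

/-- the connections of the ports of the folded map -/
def SStep (L : ZMod 6 → Bool) (ρ : Pt → Pt) (tm : ZMod 6 → ZMod 4 → ZMod 4) (x y : Pt) : Prop :=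
  (vp L x = true ∧ y = ρ x) ∨ ∃ c n, L c = true ∧ x = kp c n ∧ y = kp c (tm c n)

theorem vp_cases {L : ZMod 6 → Bool} {x : Pt} (h : vp L x = true) :
    (∃ k, x = (2, k) ∧ L (k - 1) = false) ∨ ∃ c n, L c = true ∧ x = kp c n ∧ n ≠ 3 := by
  obtain ⟨i, k⟩ := x
  simp only [vp, Bool.or_eq_true, Bool.and_eq_true, beq_iff_eq, Bool.not_eq_true'] at h
  rcases h with ⟨rfl, h⟩ | ⟨(rfl | rfl) | rfl, h⟩
  · exact Or.inl ⟨k, rfl, h⟩
  · exact Or.inr ⟨k, 0, h, rfl, by decide⟩
  · exact Or.inr ⟨k, 1, h, rfl, by decide⟩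
  · exact Or.inr ⟨k, 2, h, rfl, by decide⟩

theorem vp_two {L : ZMod 6 → Bool} {k : ZMod 6} : vp L (2, k) = !L (k - 1) := by
  simp [vp]

theorem vp_kp {L : ZMod 6 → Bool} {c : ZMod 6} {n : ZMod 4} (h : L c = true) :
    vp L (kp c n) = true ↔ n ≠ 3 := by
  have h4 : ∀ n : ZMod 4, n = 0 ∨ n = 1 ∨ n = 2 ∨ n = 3 := by decide
  rcases h4 n with rfl | rfl | rfl | rfl
  · have h5 : (0 : ZMod 4) ≠ 3 := by decide
    simp [vp, kp, h, h5]
  · have h5 : (1 : ZMod 4) ≠ 3 := by decide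
    simp [vp, kp, h, h5]
  · have h5 : (2 : ZMod 4) ≠ 3 := by decide
    simp [vp, kp, h, h5]
  · have : kp c 3 = (2, c + 1) := rfl
    rw [this, vp_two, add_sub_cancel_right, h]
    simp

namespace DMap

variable {D : Type} {M : DMap D} {A : D → Prop} {δ : ZMod 6 → D} {F : D → Prop}

open Patch

/-- the darts of the ports -/
noncomputable def portG (M : DMap D) (δ : ZMod 6 → D) (F : D → Prop) (X : ZMod 6 → D) (x : Pt) : D :=
  if x.1 = 0 then δ x.2 else if x.1 = 1 then (if F (δ x.2) then M.nx (δ x.2) else δ x.2) else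
  if x.1 = 2 then X x.2 else if x.1 = 3 then kc M δ x.2 2 else if x.1 = 4 then kc M δ x.2 3 else
  kc M δ x.2 4

section

variable {X : ZMod 6 → D}

theorem portG0 (k : ZMod 6) : portG M δ F X (0, k) = δ k := by simp [portG]

theorem portG1 (k : ZMod 6) : portG M δ F X (1, k) = portF M δ F X (1, k) := by
  simp [portG, portF]

theorem portG2 (k : ZMod 6) : portG M δ F X (2, k) = X k := by
  have h1 : (2 : Fin 6) ≠ 0 := by decide
  have h2 : (2 : Fin 6) ≠ 1 := by decide
  simp [portG, h1, h2]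

theorem portG3 (k : ZMod 6) : portG M δ F X (3, k) = kc M δ k 2 := by
  have h1 : (3 : Fin 6) ≠ 0 := by decide
  have h2 : (3 : Fin 6) ≠ 1 := by decide
  have h3 : (3 : Fin 6) ≠ 2 := by decide
  simp [portG, h1, h2, h3]

theorem portG4 (k : ZMod 6) : portG M δ F X (4, k) = kc M δ k 3 := by
  have h1 : (4 : Fin 6) ≠ 0 := by decide
  have h2 : (4 : Fin 6) ≠ 1 := by decide
  have h3 : (4 : Fin 6) ≠ 2 := by decide
  have h4 : (4 : Fin 6) ≠ 3 := by decide
  simp [portG, h1, h2, h3, h4]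

theorem portG5 (k : ZMod 6) : portG M δ F X (5, k) = kc M δ k 4 := by
  have h1 : (5 : Fin 6) ≠ 0 := by decide
  have h2 : (5 : Fin 6) ≠ 1 := by decide
  have h3 : (5 : Fin 6) ≠ 2 := by decide
  have h4 : (5 : Fin 6) ≠ 3 := by decide
  have h5 : (5 : Fin 6) ≠ 4 := by decide
  simp [portG, h1, h2, h3, h4, h5]

end

namespace Gen

variable [Fintype D] {hG : M.Gen A δ} {hF : Pre M A δ F} {o : D → Bool}
  {ho : ∀ d, o (M.nx d) = !o d} {ho' : ∀ d, o (M.al d) = !o d}
  {μ' : {d // ¬ FR M F d} → {d // ¬ FR M F d}} {a : ZMod 6 → Bool}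
  {w : ZMod 6 → PState 6} (hm : MuF hG hF ho ho' μ') {L T : ZMod 6 → Bool}

/-- the dart of the folded map in a folded corner hexagon -/
noncomputable def kD (hG : M.Gen A δ) (hF : Pre M A δ F) (c i : ZMod 6) : {d // ¬ FR M F d} :=
  if h : ¬ FR M F (kc M δ c i) then ⟨kc M δ c i, h⟩ else hrootF hF hG 0

theorem kD_val {c i : ZMod 6} (hc : cC M δ F c) (h0 : i ≠ 0) (h1 : i ≠ 1) :
    (kD hG hF c i).1 = kc M δ c i := by
  have h := hG.kc_kept hF hc h0 h1
  rw [kD, dif_pos h]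

theorem kD_l6 {c : ZMod 6} (hc : cC M δ F c) (n : ZMod 4) :
    (kD hG hF c (l6 n)).1 = kc M δ c (l6 n) := kD_val hc (l6_ne n).1 (l6_ne n).2

section ports

include hm

/-- the sector `X k` of a ring edge which is not changed -/
theorem MuF.X_of {k : ZMod 6} (h1 : ¬ IntF M δ F k) (h2 : ¬ thrC M δ F k)
    (h3 : ¬ thrC M δ F (k - 1)) : pXF hG hF ho ho' μ' k = (hdrF hF ho ho' hG k).1 := by
  have := hm
  rw [pXF, if_neg fun h => h1 h.1, if_neg fun h => by
    rcases (hG.SF_iff hF k).1 h with h | h | h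
    · exact h1 h.1
    · exact h2 h
    · exact h3 h]

theorem MuF.X_t {c : ZMod 6} (h : thrC M δ F c) : pXF hG hF ho ho' μ' c = kc M δ c 3 ∧
    pXF hG hF ho ho' μ' (c + 1) = kc M δ c 2 := by
  have hS : SF M δ F c := (hG.SF_iff hF c).2 (Or.inr (Or.inl h))
  have hS' : SF M δ F (c + 1) := (hG.SF_iff hF _).2 (Or.inr (Or.inr (by
    rwa [add_sub_cancel_right])))
  have hl := hm.lift (a := fun _ => true) (w := fun _ => ⟨fun _ => 0, fun _ => 0⟩)
  rw [hl.XS c hS, hl.XS _ hS', hm.t4 c h, hm.t5 c h]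
  exact ⟨rfl, rfl⟩

/-- the ports of a folded corner hexagon -/
theorem MuF.cp_str (hL : ∀ c, L c = true ↔ lecC M δ F c) (hT : ∀ c, T c = true ↔ thrC M δ F c)
    {c : ZMod 6} (hc : L c = true ∨ T c = true) (i : ZMod 6) :
    M.Str A (lmuF hG hF ho ho' μ' a w) (kc M δ c i)
      (portG M δ F (pXF hG hF ho ho' μ') (cp (T c) c i)) := by
  have hcC : cC M δ F c := by
    rcases hc with h | h
    · exact ((hL c).1 h).1
    · exact ((hT c).1 h).1
  have hl := hm.lift (a := a) (w := w)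
  have z6 : ∀ i : ZMod 6, i = 0 ∨ i = 1 ∨ i = 2 ∨ i = 3 ∨ i = 4 ∨ i = 5 := by decide
  have e1 : portG M δ F (pXF hG hF ho ho' μ') (1, c + 1) = kc M δ c 1 := by
    rw [portG1, portF1 hcC.2, kc1]
  by_cases ht : T c = true
  · have htt := (hT c).1 ht
    have hX := hm.X_t htt
    rw [ht]
    rcases z6 i with rfl | rfl | rfl | rfl | rfl | rfl
    · rw [show cp true c 0 = (0, c + 1) from rfl, portG0, kc0]
      exact Str.refl _
    · rw [show cp true c 1 = (1, c + 1) from rfl, e1]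
      exact Str.refl _
    · rw [show cp true c 2 = (2, c + 1) from rfl, portG2, hX.2]
      exact Str.refl _
    · rw [show cp true c 3 = (2, c) from rfl, portG2, hX.1]
      exact Str.refl _
    · rw [show cp true c 4 = (1, c - 1) from rfl, portG1]
      have h1 := hl.port1 ho ho' (c - 1)
      rw [hG.endF_full hF ho ho' htt.2, sub_add_cancel, ← hG.kc_4 hF hcC.1] at h1
      exact h1.symm
    · rw [show cp true c 5 = (0, c) from rfl, portG0, hG.kc_5 hF hcC.1]
      exact Str.refl _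
  · have ht' : T c = false := by simpa using ht
    rw [ht']
    rcases z6 i with rfl | rfl | rfl | rfl | rfl | rfl
    · rw [show cp false c 0 = (0, c + 1) from rfl, portG0, kc0]
      exact Str.refl _
    · rw [show cp false c 1 = (1, c + 1) from rfl, e1]
      exact Str.refl _
    · rw [show cp false c 2 = (3, c) from rfl, portG3]
      exact Str.refl _
    · rw [show cp false c 3 = (4, c) from rfl, portG4]
      exact Str.refl _
    · rw [show cp false c 4 = (5, c) from rfl, portG5]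
      exact Str.refl _
    · rw [show cp false c 5 = (0, c) from rfl, portG0, hG.kc_5 hF hcC.1]
      exact Str.refl _

/-- **The strands between the ports.** -/
theorem MuF.portsG (hL : ∀ c, L c = true ↔ lecC M δ F c) (hT : ∀ c, T c = true ↔ thrC M δ F c)
    (ha : ∀ k, a k = false → IntF M δ F k) {ρ : Pt → Pt}
    (hρ : ∀ x, vp L x = true → M.Str A (lmuF hG hF ho ho' μ' a w)
      (portG M δ F (pXF hG hF ho ho' μ') x) (portG M δ F (pXF hG hF ho ho' μ') (ρ x)))
    {x y : Pt} (h : Relation.EqvGen (PStepG L T a ρ fun c => (w c).m) x y) :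
    M.Str A (lmuF hG hF ho ho' μ' a w) (portG M δ F (pXF hG hF ho ho' μ') x)
      (portG M δ F (pXF hG hF ho ho' μ') y) := by
  have hl := hm.lift (a := a) (w := w)
  have p1 : ∀ k, M.Str A (lmuF hG hF ho ho' μ' a w)
      (portG M δ F (pXF hG hF ho ho' μ') (1, k - 1)) (endF hG hF ho ho' (k - 1)) := fun k => by
    rw [portG1]
    exact hl.port1 ho ho' (k - 1)
  have pI : ∀ k, IntF M δ F k → endF hG hF ho ho' (k - 1) = M.nx.symm (δ k) := fun k hk => by
    have := endF_int hG hF ho ho' (i := k - 1) (by rwa [sub_add_cancel])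
    rwa [sub_add_cancel] at this
  have hXA : ∀ k, IntF M δ F k → A (pXF hG hF ho ho' μ' k) := fun k hk =>
    (hG.toPatch.sites.same (hm.X_int hk).1).1 (hG.toPatch.inA k)
  induction h with
  | rel x y h =>
    rcases h with ⟨k, ha1, hL1, hT1, rfl, rfl⟩ | ⟨k, ha1, hT0, hT1, rfl, rfl⟩ | ⟨k, ha1, rfl, rfl⟩ |
      ⟨k, ha1, rfl, rfl⟩ | ⟨hx, rfl⟩ | ⟨c, i, hc, rfl, rfl⟩
    · rw [portG0, portG1]
      by_cases hk : F (δ k)
      · rw [portF1 hk]
        by_cases hi : IntF M δ F k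
        · rw [← (hm.typ (a := a) (w := w) hi ha1).1]
          exact Str.mu (hG.toPatch.inA k)
        · have hlk : LkF M δ F (δ k) := ⟨hk, fun j hj h1 => hi (by rwa [hG.bd.inj h1]),
            fun c hc h1 => by
              have h2 : c = k - 1 := by
                rw [hG.bd.inj h1]
                ring
              subst h2
              by_cases h3 : full M δ F (k - 1 - 1)
              · rw [(hT _).2 ⟨hc, h3⟩] at hT1
                exact absurd hT1 (by decide)
              · rw [(hL _).2 ⟨hc, h3⟩] at hL1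
                exact absurd hL1 (by decide)⟩
          have h1 := Str.mu (M := M) (A := A) (μ := lmuF hG hF ho ho' μ' a w) (hG.toPatch.inA k)
          rwa [lmuF_lk hlk] at h1
      · rw [portF1' hk]
        exact Str.refl _
    · rw [portG2]
      refine Str.trans ?_ (p1 k).symm
      by_cases hi : IntF M δ F k
      · have h1 := Str.mu (M := M) (A := A) (μ := lmuF hG hF ho ho' μ' a w) (hXA k hi)
        rw [(hm.typ hi ha1).2] at h1
        rw [pI k hi]
        exact h1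
      · have h1 := endF_ext hG hF ho ho' (i := k - 1) (by
          rw [sub_add_cancel]
          exact fun h => hi h.1)
        rw [sub_add_cancel] at h1
        rw [h1, hm.X_of hi (fun h2 => by rw [(hT k).2 h2] at hT0; exact absurd hT0 (by decide))
          (fun h2 => by rw [(hT (k - 1)).2 h2] at hT1; exact absurd hT1 (by decide))]
        exact Str.refl _
    · have hi := ha k ha1
      rw [portG0]
      refine Str.trans ?_ (p1 k).symm
      rw [pI k hi, ← (hm.typ' (a := a) (w := w) hi ha1).1]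
      exact Str.mu (hG.toPatch.inA k)
    · have hi := ha k ha1
      rw [portG2, portG1, portF1 hi.2, ← (hm.typ' (a := a) (w := w) hi ha1).2]
      exact Str.mu (hXA k hi)
    · exact hρ x hx
    · have hcC : cC M δ F c := by
        rcases hc with h | h
        · exact ((hL c).1 h).1
        · exact ((hT c).1 h).1
      have h1 := (hG.stF_c hF ho ho' (μ' := μ') (ω' := fun _ => 0) (a := a) (r := fun _ => 0)
        (r' := fun _ => 0) (p := 0) (q := 0) (w := w) hcC i).1
      have h2 := Str.mu (M := M) (A := A) (μ := lmuF hG hF ho ho' μ' a w)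
        ((hG.toPatch.sites.same (hG.kc_same hF hcC.1 i)).1 (hG.toPatch.inA _))
      rw [h1] at h2
      exact ((hm.cp_str hL hT hc i).symm.trans h2).trans (hm.cp_str hL hT hc _)
  | refl x => exact Str.refl _
  | symm x y _ ih => exact ih.symm
  | trans x y z _ _ ih1 ih2 => exact ih1.trans ih2

end ports

section rest

/-- the port of a dart of the folded map outside `BL` -/
def IP (hG : M.Gen A δ) (hF : Pre M A δ F) (z : {d // ¬ FR M F d}) (x : Pt) : Prop :=
  (∃ j, z = hrootF hF hG (j - 1) ∧ x = (2, j)) ∨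
    ∃ c n, lecC M δ F c ∧ z = kD hG hF c (l6 n) ∧ x = kp c n

omit hm in
theorem kp_inj {c c' : ZMod 6} {n n' : ZMod 4} (h : kp c n = kp c' n') : c = c' ∧ n = n' := by
  revert c c' n n'
  decide

omit hm in
theorem kp_two {c j : ZMod 6} {n : ZMod 4} (h : kp c n = (2, j)) : n = 3 ∧ j = c + 1 := by
  revert c j n
  decide

variable (hG hF) in
theorem ip_ex {z : {d // ¬ FR M F d}} (hz : ¬ BL M A δ F z.1) : ∃ x, IP hG hF z x := by
  by_cases hA : A z.1
  · unfold BL at hz
    push Not at hz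
    obtain ⟨c, hc, hs⟩ := hz hA
    obtain ⟨i, hi⟩ := hG.kc_mem hF hc.1.1 hs
    have h1 := hG.kc_rem hF hc.1 (i := i) (by rw [hi]; exact z.2)
    have h2 : ∃ n : ZMod 4, i = l6 n := by
      rcases h1 with rfl | rfl | rfl | rfl
      · exact ⟨0, by decide⟩
      · exact ⟨1, by decide⟩
      · exact ⟨2, by decide⟩
      · exact ⟨3, by decide⟩
    obtain ⟨n, rfl⟩ := h2
    exact ⟨kp c n, Or.inr ⟨c, n, hc, Subtype.ext (by rw [kD_l6 hc.1, hi]), rfl⟩⟩
  · obtain ⟨k, hk⟩ := hG.root_dart hA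
    refine ⟨(2, k + 1), Or.inl ⟨k + 1, Subtype.ext ?_, rfl⟩⟩
    rw [add_sub_cancel_right]
    exact hk

variable (hG hF) in
theorem ip_not {z : {d // ¬ FR M F d}} {x : Pt} (h : IP hG hF z x) : ¬ BL M A δ F z.1 := by
  rintro ⟨h1, h2⟩
  rcases h with ⟨j, rfl, -⟩ | ⟨c, n, hc, rfl, -⟩
  · exact hG.toPatch.notA _ h1
  · refine h2 c hc ?_
    rw [kD_l6 hc.1]
    exact hG.kc_same hF hc.1.1 _

theorem ip_uniq {z : {d // ¬ FR M F d}} {x y : Pt} (hx : IP hG hF z x) (hy : IP hG hF z y) :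
    x = y := by
  rcases hx with ⟨j, h1, rfl⟩ | ⟨c, n, hc, h1, rfl⟩
  · rcases hy with ⟨j', h2, rfl⟩ | ⟨c', n', hc', h2, rfl⟩
    · rw [h1] at h2
      have h3 : M.al (δ (j - 1)) = M.al (δ (j' - 1)) := congrArg Subtype.val h2
      rw [sub_left_injective (hG.bd.inj (M.al_inj h3))]
    · exfalso
      rw [h1] at h2
      have h3 : M.al (δ (j - 1)) = kc M δ c' (l6 n') := by
        rw [← kD_l6 (hG := hG) (hF := hF) hc'.1, ← h2]
        rfl
      refine hG.toPatch.notA (j - 1) ?_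
      rw [h3]
      exact (hG.toPatch.sites.same (hG.kc_same hF hc'.1.1 _)).1 (hG.toPatch.inA _)
  · rcases hy with ⟨j', h2, rfl⟩ | ⟨c', n', hc', h2, rfl⟩
    · exfalso
      rw [h1] at h2
      have h3 : M.al (δ (j' - 1)) = kc M δ c (l6 n) := by
        rw [← kD_l6 (hG := hG) (hF := hF) hc.1, h2]
        rfl
      refine hG.toPatch.notA (j' - 1) ?_
      rw [h3]
      exact (hG.toPatch.sites.same (hG.kc_same hF hc.1.1 _)).1 (hG.toPatch.inA _)
    · rw [h1] at h2
      have h3 : kc M δ c (l6 n) = kc M δ c' (l6 n') := by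
        rw [← kD_l6 (hG := hG) (hF := hF) hc.1, ← kD_l6 (hG := hG) (hF := hF) hc'.1, h2]
      have h4 : c = c' := hG.cor_uniq hF hc.1 hc'.1 (d := kc M δ c (l6 n))
        (hG.kc_same hF hc.1.1 _) (by rw [h3]; exact hG.kc_same hF hc'.1.1 _)
      subst h4
      rw [l6_inj ((hG.kc_num hF hc.1.1).inj h3)]

/-- the dart of a port of the rest -/
theorem ip_vp (hL : ∀ c, L c = true ↔ lecC M δ F c) {x : Pt} (hx : vp L x = true) :
    ∃ z, IP hG hF z x ∧ ∀ z', IP hG hF z' x → z' = z := by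
  rcases vp_cases hx with ⟨k, rfl, hk⟩ | ⟨c, n, hc, rfl, hn⟩
  · refine ⟨hrootF hF hG (k - 1), Or.inl ⟨k, rfl, rfl⟩, fun z' hz' => ?_⟩
    rcases hz' with ⟨j, h1, h2⟩ | ⟨c, n, hc, h1, h2⟩
    · have h3 : k = j := congrArg Prod.snd h2
      rw [h1, h3]
    · exfalso
      obtain ⟨rfl, rfl⟩ := kp_two h2.symm
      rw [add_sub_cancel_right, (hL c).2 hc] at hk
      exact absurd hk (by decide)
  · refine ⟨kD hG hF c (l6 n), Or.inr ⟨c, n, (hL c).1 hc, rfl, rfl⟩, fun z' hz' => ?_⟩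
    rcases hz' with ⟨j, h1, h2⟩ | ⟨c', n', hc', h1, h2⟩
    · exact absurd (kp_two h2).1 hn
    · obtain ⟨rfl, rfl⟩ := kp_inj h2
      exact h1

/-- ports which are not ports of the rest -/
theorem ip_not_vp (hL : ∀ c, L c = true ↔ lecC M δ F c) {z : {d // ¬ FR M F d}} {x : Pt}
    (h : IP hG hF z x) (hx : ¬ vp L x = true) : ∃ c, lecC M δ F c ∧ x = (2, c + 1) ∧
      (z = hrootF hF hG c ∨ z = kD hG hF c 5) := by
  rcases h with ⟨j, rfl, rfl⟩ | ⟨c, n, hc, rfl, rfl⟩
  · rw [vp_two] at hx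
    have h1 : L (j - 1) = true := by
      simpa using hx
    refine ⟨j - 1, (hL _).1 h1, by rw [sub_add_cancel], Or.inl rfl⟩
  · rw [vp_kp ((hL c).2 hc)] at hx
    push Not at hx
    subst hx
    exact ⟨c, hc, rfl, Or.inr rfl⟩

end rest

section rho

include hm

/-- the pairing in the rest -/
theorem MuF.restH : RestH (mapF hF ho ho' hG) (fun z => A z.1) (fun z => BL M A δ F z.1) μ' := by
  have hsS : ∀ {B : D → Prop}, M.Sites B → (mapF hF ho ho' hG).Sites fun z => B z.1 := by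
    intro B hB z
    exact (hB.same ((fmap_sameSite (hG.foldSetF hF) ho ho' _ _).1 (site_nx z))).symm
  have hsB := hsS (BL_sites (F := F) (δ := δ) hG.toPatch.sites)
  have hst : ∀ z : {d // ¬ FR M F d}, A z.1 → (mapF hF ho ho' hG).SameSite z (μ' z) :=
    fun z hz => (fmap_sameSite (hG.foldSetF hF) ho ho' _ _).2 (hm.site z hz)
  exact ⟨hsS hG.toPatch.sites, hsB, fun z hz => hz.1, hst,
    ⟨fun z hz => hm.inv z hz.1, fun z hz => (hsB.same (hst z hz.1)).1 hz, fun z hz => hm.fix z hz.1,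
      fun z hz => hst z hz.1⟩⟩

omit hm in
/-- the strand of a ring edge at a folded corner hexagon -/
theorem rho_c {c : ZMod 6} (hc : lecC M δ F c) :
    (mapF hF ho ho' hG).al (hrootF hF hG c) = kD hG hF c 5 ∧
      (mapF hF ho ho' hG).al (kD hG hF c 5) = hrootF hF hG c := by
  have h1 : hdrF hF ho ho' hG (c + 1) = kD hG hF c 5 := by
    apply Subtype.ext
    rw [hG.hdr_c hF ho ho' hc.1, kD_val hc.1 (by decide) (by decide)]
  have h2 := hG.hdrF_al hF ho ho' (c + 1)
  rw [add_sub_cancel_right, h1] at h2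
  refine ⟨?_, h2⟩
  rw [← h2]
  exact (mapF hF ho ho' hG).inv _

omit hm in
theorem bl_c {c : ZMod 6} (hc : lecC M δ F c) :
    ¬ BL M A δ F (hrootF hF hG c).1 ∧ ¬ BL M A δ F (kD hG hF c 5).1 := by
  refine ⟨ip_not hG hF (x := (2, c + 1)) (Or.inl ⟨c + 1, by rw [add_sub_cancel_right], rfl⟩),
    ip_not hG hF (x := kp c 3) (Or.inr ⟨c, 3, hc, rfl, rfl⟩)⟩

/-- **The matching of the ports of the rest.** -/
theorem MuF.rho (hL : ∀ c, L c = true ↔ lecC M δ F c)
    {m' : ZMod 6 → ZMod 6} {tm : ZMod 6 → ZMod 4 → ZMod 4}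
    (hS : ∀ k, (mapF hF ho ho' hG).Str (fun z => A z.1) μ' (hdrF hF ho ho' hG k)
      (hdrF hF ho ho' hG (m' k)))
    (hall : ∀ z : {d // ¬ FR M F d}, A z.1 → ∃ k, (mapF hF ho ho' hG).Str (fun z => A z.1) μ' z
      (hdrF hF ho ho' hG k))
    (ht : ∀ c, lecC M δ F c → ∀ n, μ' (kD hG hF c (l6 n)) = kD hG hF c (l6 (tm c n))) :
    ∃ ρ : Pt → Pt, (∀ x, vp L x = true → vp L (ρ x) = true ∧ ρ (ρ x) = x ∧ ρ x ≠ x) ∧
      (∀ k, Relation.EqvGen (SStep L ρ tm) (2, k) (2, m' k)) ∧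
      (∀ x, vp L x = true → ∃ k, Relation.EqvGen (SStep L ρ tm) x (2, k)) ∧
      ∀ x, vp L x = true → ∃ z e, IP hG hF z x ∧ IP hG hF e (ρ x) ∧
        DStrand (mapF hF ho ho' hG).al μ' (fun z => BL M A δ F z.1) z e := by
  have hR := hm.restH
  have hinv : ∀ z, (mapF hF ho ho' hG).al ((mapF hF ho ho' hG).al z) = z :=
    (mapF hF ho ho' hG).inv
  -- the strands of the ring edges at the folded corner hexagons
  have hc1 : ∀ {c : ZMod 6} {e : {d // ¬ FR M F d}}, lecC M δ F c →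
      DStrand (mapF hF ho ho' hG).al μ' (fun z => BL M A δ F z.1) (hrootF hF hG c) e →
      e = kD hG hF c 5 := by
    intro c e hc h
    rw [dstrand_last (by rw [(rho_c hc).1]; exact (bl_c hc).2)] at h
    rw [h, (rho_c hc).1]
  have hc2 : ∀ {c : ZMod 6} {e : {d // ¬ FR M F d}}, lecC M δ F c →
      DStrand (mapF hF ho ho' hG).al μ' (fun z => BL M A δ F z.1) (kD hG hF c 5) e →
      e = hrootF hF hG c := by
    intro c e hc h
    rw [dstrand_last (by rw [(rho_c hc).2]; exact (bl_c hc).1)] at h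
    rw [h, (rho_c hc).2]
  -- the matching
  have hex : ∀ x, vp L x = true → ∃ y, vp L y = true ∧ ∃ z e, IP hG hF z x ∧ IP hG hF e y ∧
      DStrand (mapF hF ho ho' hG).al μ' (fun z => BL M A δ F z.1) z e := by
    intro x hx
    obtain ⟨z, hz, -⟩ := ip_vp (hG := hG) (hF := hF) hL hx
    have hzB := ip_not hG hF hz
    obtain ⟨e, he⟩ := exists_dstrand hinv hR.pair (d := z) hzB
    obtain ⟨y, hy⟩ := ip_ex hG hF (z := e) he.out
    refine ⟨y, ?_, z, e, hz, hy, he⟩
    by_contra hno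
    have hrev := he.rev hinv hR.pair hzB
    obtain ⟨c, hc, rfl, h1⟩ := ip_not_vp hL hy hno
    have h2 : IP hG hF z (2, c + 1) := by
      rcases h1 with rfl | rfl
      · rw [hc1 hc hrev]
        exact Or.inr ⟨c, 3, hc, rfl, rfl⟩
      · rw [hc2 hc hrev]
        exact Or.inl ⟨c + 1, by rw [add_sub_cancel_right], rfl⟩
    rw [ip_uniq hz h2] at hx
    exact hno hx
  have hex' : ∀ x, ∃ y, vp L x = true → vp L y = true ∧ ∃ z e, IP hG hF z x ∧ IP hG hF e y ∧
      DStrand (mapF hF ho ho' hG).al μ' (fun z => BL M A δ F z.1) z e := by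
    intro x
    by_cases hx : vp L x = true
    · obtain ⟨y, hy⟩ := hex x hx
      exact ⟨y, fun _ => hy⟩
    · exact ⟨x, fun h => absurd h hx⟩
  choose ρ hρ using hex'
  have key : ∀ {z e : {d // ¬ FR M F d}} {x y : Pt}, IP hG hF z x → IP hG hF e y →
      DStrand (mapF hF ho ho' hG).al μ' (fun z => BL M A δ F z.1) z e → vp L x = true →
      y = ρ x := by
    intro z e x y hz he hs hx
    obtain ⟨-, z', e', hz', he', hs'⟩ := hρ x hx
    obtain ⟨z0, -, hu⟩ := ip_vp (hG := hG) (hF := hF) hL hx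
    have h1 : z' = z := by rw [hu _ hz', hu _ hz]
    subst h1
    have h2 := hs.unique hs'
    subst h2
    exact ip_uniq he he'
  have hER : ∀ {z e : {d // ¬ FR M F d}}, ER (mapF hF ho ho' hG) (fun z => A z.1)
      (fun z => BL M A δ F z.1) μ' z e → ¬ BL M A δ F e.1 ∧
      ∀ x y, IP hG hF z x → IP hG hF e y → Relation.EqvGen (SStep L ρ tm) x y := by
    rintro z e ⟨h1, h2 | ⟨h2, rfl⟩⟩
    · refine ⟨h2.out, fun x y hx hy => ?_⟩
      by_cases hv : vp L x = true
      · rw [key hx hy h2 hv]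
        exact Relation.EqvGen.rel _ _ (Or.inl ⟨hv, rfl⟩)
      · obtain ⟨c, hc, rfl, h3⟩ := ip_not_vp hL hx hv
        have h4 : IP hG hF e (2, c + 1) := by
          rcases h3 with rfl | rfl
          · rw [hc1 hc h2]
            exact Or.inr ⟨c, 3, hc, rfl, rfl⟩
          · rw [hc2 hc h2]
            exact Or.inl ⟨c + 1, by rw [add_sub_cancel_right], rfl⟩
        rw [ip_uniq h4 hy]
        exact Relation.EqvGen.refl _
    · refine ⟨fun h3 => h1 ((hR.sB.same (hR.site z h2)).2 h3), fun x y hx hy => ?_⟩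
      rcases hx with ⟨j, rfl, -⟩ | ⟨c, n, hc, rfl, rfl⟩
      · exact absurd h2 (hG.toPatch.notA _)
      · have h3 : IP hG hF (μ' (kD hG hF c (l6 n))) (kp c (tm c n)) := by
          rw [ht c hc n]
          exact Or.inr ⟨c, _, hc, rfl, rfl⟩
        rw [ip_uniq hy h3]
        exact Relation.EqvGen.rel _ _ (Or.inr ⟨c, n, (hL c).2 hc, rfl, rfl⟩)
  have hEE : ∀ {z e : {d // ¬ FR M F d}}, Relation.EqvGen (ER (mapF hF ho ho' hG) (fun z => A z.1)
      (fun z => BL M A δ F z.1) μ') z e → (¬ BL M A δ F z.1 ↔ ¬ BL M A δ F e.1) ∧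
      ∀ x y, IP hG hF z x → IP hG hF e y → Relation.EqvGen (SStep L ρ tm) x y := by
    intro z e h
    induction h with
    | rel z e h => exact ⟨⟨fun _ => (hER h).1, fun _ => h.1⟩, (hER h).2⟩
    | refl z => exact ⟨Iff.rfl, fun x y hx hy => by
        rw [ip_uniq hx hy]
        exact Relation.EqvGen.refl _⟩
    | symm z e _ ih => exact ⟨ih.1.symm, fun x y hx hy => (ih.2 y x hy hx).symm⟩
    | trans z u e _ _ ih1 ih2 =>
      refine ⟨ih1.1.trans ih2.1, fun x y hx hy => ?_⟩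
      obtain ⟨t, ht⟩ := ip_ex hG hF (z := u) (ih1.1.1 (ip_not hG hF hx))
      exact (ih1.2 x t hx ht).trans _ _ _ (ih2.2 t y ht hy)
  have hGP : ∀ z : {d // ¬ FR M F d}, A z.1 →
      ∃ x, GP (mapF hF ho ho' hG) (fun z => BL M A δ F z.1) μ' z x := by
    intro z hz
    obtain ⟨k, hk⟩ := hall z hz
    exact gp_exists hR hk (hG.hdrF_al_notA hF ho ho' k)
  have hroot : ∀ k, ∃ z, GP (mapF hF ho ho' hG) (fun z => BL M A δ F z.1) μ'
      (hdrF hF ho ho' hG k) z ∧ ∀ x, IP hG hF z x → Relation.EqvGen (SStep L ρ tm) (2, k) x := by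
    intro k
    have hO : IP hG hF (hrootF hF hG (k - 1)) (2, k) := Or.inl ⟨k, rfl, rfl⟩
    have hOB := ip_not hG hF hO
    have hal : (mapF hF ho ho' hG).al (hrootF hF hG (k - 1)) = hdrF hF ho ho' hG k := rfl
    by_cases h1 : BL M A δ F (hdrF hF ho ho' hG k).1
    · refine ⟨hrootF hF hG (k - 1), Or.inr ⟨h1, hOB, by rw [hal]; exact h1, by
        rw [hal]; exact Str.refl _⟩, fun x hx => ?_⟩
      rw [ip_uniq hO hx]
      exact Relation.EqvGen.refl _
    · refine ⟨hdrF hF ho ho' hG k, Or.inl ⟨h1, rfl⟩, fun x hx => ?_⟩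
      refine (hER (z := hrootF hF hG (k - 1)) ⟨hOB, Or.inl ?_⟩).2 _ _ hO hx
      rw [← hal]
      exact .last (by rw [hal]; exact h1)
  refine ⟨ρ, fun x hx => ?_, fun k => ?_, fun x hx => ?_, fun x hx => (hρ x hx).2⟩
  · obtain ⟨h1, z, e, hz, he, hs⟩ := hρ x hx
    have hzB := ip_not hG hF hz
    refine ⟨h1, ?_, fun h2 => ?_⟩
    · exact (key he hz (hs.rev hinv hR.pair hzB) h1).symm
    · rw [h2] at he
      obtain ⟨z0, -, hu⟩ := ip_vp (hG := hG) (hF := hF) hL hx
      exact hs.ne' hinv (mapF hF ho ho' hG).ne hR.pair hzB (by rw [hu _ hz, hu _ he])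
  · obtain ⟨z, h1, h2⟩ := hroot k
    obtain ⟨e, h3, h4⟩ := hroot (m' k)
    have h5 := hEE (rest_conn hR hGP (hS k) z e h1 h3)
    obtain ⟨x, hx⟩ : ∃ x, IP hG hF z x := by
      apply ip_ex
      rcases h1 with ⟨h6, rfl⟩ | ⟨-, h6, -⟩
      · exact h6
      · exact h6
    obtain ⟨y, hy⟩ := ip_ex hG hF (z := e) (h5.1.1 (ip_not hG hF hx))
    exact ((h2 x hx).trans _ _ _ (h5.2 x y hx hy)).trans _ _ _ (h4 y hy).symm
  · obtain ⟨z, hz, -⟩ := ip_vp (hG := hG) (hF := hF) hL hx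
    by_cases hA : A z.1
    · obtain ⟨k, hk⟩ := hall z hA
      obtain ⟨e, h3, h4⟩ := hroot k
      have h5 := hEE (rest_conn hR hGP hk z e (Or.inl ⟨ip_not hG hF hz, rfl⟩) h3)
      obtain ⟨y, hy⟩ := ip_ex hG hF (z := e) (h5.1.1 (ip_not hG hF hz))
      exact ⟨k, (h5.2 x y hz hy).trans _ _ _ (h4 y hy).symm⟩
    · rcases hz with ⟨j, rfl, rfl⟩ | ⟨c, n, hc, rfl, rfl⟩
      · exact ⟨j, Relation.EqvGen.refl _⟩
      · exfalso
        apply hA
        rw [kD_l6 hc.1]
        exact (hG.toPatch.sites.same (hG.kc_same hF hc.1.1 _)).1 (hG.toPatch.inA _)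

end rho

end Gen

end DMap

end GT33
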