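import Pool.Agent.GT33.PartY

/-!
# GT33 module PARTZ: the strands of the lifted state, partial folds (2)

`MuF.rep`: the strands of the folded map in the rest.  `MuF.allG`: every dart is connected with a port.
`MuF.strands`: the strands of the lifted state.
-/

open Classical

namespace GT33

theorem up_kp {L : ZMod 6 → Bool} {c : ZMod 6} {n : ZMod 4} (h : L c = true) :
    up L (kp c n) = true := by
  have h4 : ∀ n : ZMod 4, n = 0 ∨ n = 1 ∨ n = 2 ∨ n = 3 := by decide
  rcases h4 n with rfl | rfl | rfl | rfl <;> simp [up, kp, h]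

namespace DMap

variable {D : Type} {M : DMap D} {A : D → Prop} {δ : ZMod 6 → D} {F : D → Prop}

open Patch

namespace Gen

variable [Fintype D] {hG : M.Gen A δ} {hF : Pre M A δ F} {o : D → Bool}
  {ho : ∀ d, o (M.nx d) = !o d} {ho' : ∀ d, o (M.al d) = !o d}
  {μ' : {d // ¬ FR M F d} → {d // ¬ FR M F d}} {a : ZMod 6 → Bool}
  {w : ZMod 6 → PState 6} (hm : MuF hG hF ho ho' μ') {L T : ZMod 6 → Bool}

include hm

/-- the port of a dart of the patch -/
theorem MuF.port_A {z : {d // ¬ FR M F d}} {x : Pt} (hx : IP hG hF z x) (hz : A z.1) :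
    portG M δ F (pXF hG hF ho ho' μ') x = z.1 := by
  rcases hx with ⟨j, rfl, rfl⟩ | ⟨c, n, hc, rfl, rfl⟩
  · exact absurd hz (hG.toPatch.notA _)
  · rw [kD_l6 hc.1]
    have h4 : ∀ n : ZMod 4, n = 0 ∨ n = 1 ∨ n = 2 ∨ n = 3 := by decide
    rcases h4 n with rfl | rfl | rfl | rfl
    · exact portG3 c
    · exact portG4 c
    · exact portG5 c
    · rw [show kp c 3 = (2, c + 1) from rfl, portG2, hm.X_of, hG.hdr_c hF ho ho' hc.1]
      · rfl
      · exact fun h => hG.int_cor hF h hc.1 (d := δ (c + 1)) (Equiv.Perm.SameCycle.refl _ _)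
          (Equiv.Perm.SameCycle.refl _ _)
      · exact fun h => hG.cC_not hF h.1.1 hc.1.2
      · rw [add_sub_cancel_right]
        exact fun h => hc.2 h.2

/-- the port of a dart before the rest -/
theorem MuF.port_B {z : {d // ¬ FR M F d}} {x : Pt} (hx : IP hG hF z x)
    (hz : BL M A δ F ((mapF hF ho ho' hG).al z).1) :
    M.Str A (lmuF hG hF ho ho' μ' a w) (portG M δ F (pXF hG hF ho ho' μ') x)
      (phiF hG hF ho ho' μ' (SF M δ F) ((mapF hF ho ho' hG).al z)) := by
  have hl := hm.lift (a := a) (w := w)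
  by_cases hA : A z.1
  · rw [hm.port_A hx hA, phiF_in ho ho' (by rw [(mapF hF ho ho' hG).inv]; exact hA)]
    exact hl.alStep ho ho' (fun _ h => h.1) hG.toPatch.sites hA hz.1 hA hz.1
  · rcases hx with ⟨j, rfl, rfl⟩ | ⟨c, n, hc, rfl, rfl⟩
    · rw [portG2]
      exact (hl.hdr_X ho ho' j).symm
    · exfalso
      apply hA
      rw [kD_l6 hc.1]
      exact (hG.toPatch.sites.same (hG.kc_same hF hc.1.1 _)).1 (hG.toPatch.inA _)

/-- the port of a ring edge outside the rest -/
theorem MuF.port_hdr {j : ZMod 6} (h : ¬ BL M A δ F (hdrF hF ho ho' hG j).1) :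
    M.Str A (lmuF hG hF ho ho' μ' a w) (hdrF hF ho ho' hG j).1
      (portG M δ F (pXF hG hF ho ho' μ') (2, j)) := by
  have hl := hm.lift (a := a) (w := w)
  have h1 := hl.hdr_X ho ho' j
  rw [phiF_of ho ho' fun k hk h2 => h (by rw [h2]; exact hl.sB k hk)] at h1
  rw [portG2]
  exact h1

/-- **The strands of the folded map in the rest.** -/
theorem MuF.rep {z e : {d // ¬ FR M F d}} {x y : Pt} (hx : IP hG hF z x) (hy : IP hG hF e y)
    (h : DStrand (mapF hF ho ho' hG).al μ' (fun z => BL M A δ F z.1) z e) :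
    M.Str A (lmuF hG hF ho ho' μ' a w) (portG M δ F (pXF hG hF ho ho' μ') x)
      (portG M δ F (pXF hG hF ho ho' μ') y) := by
  have hl := hm.lift (a := a) (w := w)
  by_cases h1 : BL M A δ F ((mapF hF ho ho' hG).al z).1
  · obtain ⟨h2, h3⟩ := dstrand_str hm.restH.pair h h1
    have h4 := hl.str ho ho' h3
    have h5 := Str.mono (M := M) (A := BL M A δ F) (B := A) (fun _ h => h.1) (fun _ _ => rfl) h4
    exact ((hm.port_B hx h1).trans h5).trans (hm.port_B hy h2).symm
  · rw [dstrand_last h1] at h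
    subst h
    by_cases hA : A z.1
    · rw [hm.port_A hx hA]
      by_cases hA' : A ((mapF hF ho ho' hG).al z).1
      · rw [hm.port_A hy hA']
        exact hl.alStep ho ho' (fun _ h => h.1) hG.toPatch.sites hA hA' hA hA'
      · rcases hy with ⟨j, h2, rfl⟩ | ⟨c, n, hc, h2, rfl⟩
        · have h3 : z = hdrF hF ho ho' hG j := by
            rw [← (mapF hF ho ho' hG).inv z, h2]
            rfl
          subst h3
          exact hm.port_hdr (ip_not hG hF hx)
        · exfalso
          apply hA'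
          rw [h2, kD_l6 hc.1]
          exact (hG.toPatch.sites.same (hG.kc_same hF hc.1.1 _)).1 (hG.toPatch.inA _)
    · rcases hx with ⟨j, rfl, rfl⟩ | ⟨c, n, hc, rfl, rfl⟩
      · have h3 : (mapF hF ho ho' hG).al (hrootF hF hG (j - 1)) = hdrF hF ho ho' hG j := rfl
        rw [h3] at hy h1
        rw [hm.port_A hy (hG.hdrF_A hF ho ho' j)]
        exact (hm.port_hdr h1).symm
      · exfalso
        apply hA
        rw [kD_l6 hc.1]
        exact (hG.toPatch.sites.same (hG.kc_same hF hc.1.1 _)).1 (hG.toPatch.inA _)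

/-- **Every dart is connected with a port.** -/
theorem MuF.allG (hL : ∀ c, L c = true ↔ lecC M δ F c) (hT : ∀ c, T c = true ↔ thrC M δ F c)
    (hall : ∀ z : {d // ¬ FR M F d}, A z.1 → ∃ k, (mapF hF ho ho' hG).Str (fun z => A z.1) μ' z
      (hdrF hF ho ho' hG k)) (d : D) (hd : A d) :
    ∃ x, up L x = true ∧ M.Str A (lmuF hG hF ho ho' μ' a w) d
      (portG M δ F (pXF hG hF ho ho' μ') x) := by
  have hl := hm.lift (a := a) (w := w)
  have hR := hm.restH
  have hu : ∀ {z : {d // ¬ FR M F d}} {x : Pt}, IP hG hF z x → up L x = true := by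
    intro z x hx
    rcases hx with ⟨j, -, rfl⟩ | ⟨c, n, hc, -, rfl⟩
    · simp [up]
    · exact up_kp ((hL c).2 hc)
  have p1 : ∀ i, M.Str A (lmuF hG hF ho ho' μ' a w) (endF hG hF ho ho' i)
      (portG M δ F (pXF hG hF ho ho' μ') (1, i)) := fun i => by
    rw [portG1]
    exact (hl.port1 ho ho' i).symm
  have p1' : ∀ k, IntF M δ F k → M.Str A (lmuF hG hF ho ho' μ' a w) (M.nx.symm (δ k))
      (portG M δ F (pXF hG hF ho ho' μ') (1, k - 1)) := fun k hk => by
    have := p1 (k - 1)
    rwa [endF_int hG hF ho ho' (i := k - 1) (by rwa [sub_add_cancel]), sub_add_cancel] at this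
  -- kept darts
  have hkept : ∀ y : {d // ¬ FR M F d}, A y.1 → ∃ x, up L x = true ∧
      M.Str A (lmuF hG hF ho ho' μ' a w) y.1 (portG M δ F (pXF hG hF ho ho' μ') x) := by
    intro y hy
    by_cases hB : BL M A δ F y.1
    · by_cases hS : ∃ k, SF M δ F k ∧ y = hdrF hF ho ho' hG k
      · obtain ⟨k, hk, rfl⟩ := hS
        rcases (hG.SF_iff hF k).1 hk with h | h | h
        · rw [hG.hdr_int hF ho ho' h.1 h.2]
          exact ⟨_, by simp [up], p1' k h.1⟩
        · rw [hG.hdr_t hF ho ho' h]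
          have h1 := hm.cp_str (a := a) (w := w) hL hT (c := k) (Or.inr ((hT k).2 h)) 4
          rw [(hT k).2 h] at h1
          exact ⟨(1, k - 1), by simp [up], h1⟩
        · have h1 := hG.hdr_c hF ho ho' h.1
          rw [sub_add_cancel] at h1
          rw [h1]
          have h2 := hm.cp_str (a := a) (w := w) hL hT (c := k - 1) (Or.inr ((hT _).2 h)) 5
          rw [(hT (k - 1)).2 h] at h2
          exact ⟨(0, k - 1), by simp [up], h2⟩
      · push Not at hS
        obtain ⟨k, hk⟩ := hall y hy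
        obtain ⟨z, ⟨hz, -⟩ | ⟨-, h1, h2, h3⟩⟩ := gp_exists hR hk (hG.hdrF_al_notA hF ho ho' k)
        · exact absurd hB hz
        · obtain ⟨x, hx⟩ := ip_ex hG hF (z := z) h1
          refine ⟨x, hu hx, ?_⟩
          have h4 := Str.mono (M := M) (A := BL M A δ F) (B := A) (fun _ h => h.1)
            (fun _ _ => rfl) (hl.str ho ho' h3)
          rw [phiF_of ho ho' (y := y) hS] at h4
          exact h4.trans (hm.port_B hx h2).symm
    · obtain ⟨x, hx⟩ := ip_ex hG hF (z := y) hB
      refine ⟨x, hu hx, ?_⟩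
      rw [hm.port_A hx hy]
      exact Str.refl _
  by_cases hFR : FR M F d
  · have hnx : ∀ e, F e → ∃ x, up L x = true ∧
        M.Str A (lmuF hG hF ho ho' μ' a w) (M.nx e) (portG M δ F (pXF hG hF ho ho' μ') x) := by
      intro e he
      obtain ⟨i, hi⟩ := (hF.fs e he).2.1
      exact ⟨(1, i), by simp [up], (hl.chain ho ho' he hi).trans (p1 i)⟩
    have hopp : ∀ e, F e → (∀ k, IntF M δ F k → e ≠ δ k) → M.deg e = 4 → ∃ x, up L x = true ∧
        M.Str A (lmuF hG hF ho ho' μ' a w) (M.nx (M.nx e))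
          (portG M δ F (pXF hG hF ho ho' μ') x) := by
      intro e he _ h4
      have hs : M.SameSite e (M.nx (M.nx e)) := (site_nx _).trans (site_nx _)
      have hA2 : A (M.nx (M.nx e)) := (hG.toPatch.sites.same hs).1 (hF.fs e he).1
      have hA3 : A (M.al (M.nx (M.nx e))) := by
        by_contra h1
        obtain ⟨k, hk⟩ := (hG.bd.mem _).1 ⟨hA2, h1⟩
        have h2 : M.SameSite e (δ k) := by
          rw [hk]
          exact hs
        rcases hG.fs_or k with h3 | h3
        · have h5 := hG.fs_uniq (hF.fs e he) h3 h2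
          exact hG.ne2 e (by rw [← hk, h5])
        · have h5 := hG.nc k h3
          have h6 := deg_same h2
          omega
      obtain ⟨x, hx1, hx⟩ := hkept ⟨_, hG.k2F hF he h4⟩ hA3
      exact ⟨x, hx1, (Str.al hA2 hA3).trans hx⟩
    rcases FoldSet.cases hFR with h1 | ⟨e, h1, rfl⟩ | ⟨e, h1, h4, rfl⟩ | ⟨e, h1, h4, rfl⟩
    · by_cases hs : ∃ k, d = δ k
      · obtain ⟨k, rfl⟩ := hs
        refine ⟨(0, k), by simp [up], ?_⟩
        rw [portG0]
        exact Str.refl _
      · push Not at hs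
        obtain ⟨x, hx1, hx⟩ := hnx d h1
        refine ⟨x, hx1, Str.trans ?_ hx⟩
        rw [← hl.link d h1 hs]
        exact Str.mu hd
    · exact hnx e h1
    · by_cases hs : ∃ k, IntF M δ F k ∧ e = δ k
      · obtain ⟨k, hk, rfl⟩ := hs
        refine ⟨(2, k), by simp [up], ?_⟩
        rw [portG2, hl.X4 k hk h4]
        exact Str.refl _
      · push Not at hs
        exact hopp e h1 hs h4
    · rw [← nx_four' h4] at hd ⊢
      by_cases hs : ∃ k, IntF M δ F k ∧ e = δ k
      · obtain ⟨k, hk, rfl⟩ := hs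
        exact ⟨_, by simp [up], p1' k hk⟩
      · push Not at hs
        obtain ⟨x, hx1, hx⟩ := hopp e h1 hs h4
        refine ⟨x, hx1, Str.trans (Str.symm ?_) hx⟩
        rw [← hl.quad e h1 hs h4]
        exact Str.mu ((hG.toPatch.sites.same ((site_nx _).trans (site_nx _))).1 (hF.fs e h1).1)
  · exact hkept ⟨d, hFR⟩ hd

end Gen

end DMap

end GT33
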