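import Pool.Agent.GT33.PartO

/-!
# GT33 module PEELF: partial folds of objects, the peel theorem

`SrcF`: the facts about a realised state of the folded map.  `Gen.peelC`: a realised state of the folded map whose ring
is exact gives states of the patch.  `Gen.peelF`: the same with the exactness of objects.
-/

open Classical

namespace GT33

namespace DMap

variable {D : Type} {M : DMap D} {A : D → Prop} {δ : ZMod 6 → D} {F : D → Prop}

open Patch

/-- the facts about a realised state of the folded map: `r'` the units of the ring darts, `t c` the state of the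
quad of the folded corner hexagon `c`, `ρ` the matching of the rest -/
structure SrcF (M : DMap D) (δ : ZMod 6 → D) (F : D → Prop) (Fl' : Flags) (s' : PState 6)
    (L : ZMod 6 → Bool) (r' : ZMod 6 → ℕ) (t : ZMod 6 → PState 4) (ρ : Pt → Pt) : Prop where
  le : ∀ k, r' k ≤ 1
  su : ∀ k, s'.u k + r' (k + 1) = r' k + 1
  ee : ∀ c, cC M δ F c → EE 4 (t c)
  u3 : ∀ c, cC M δ F c → (t c).u 3 = r' (c + 1)
  u2 : ∀ c, thrC M δ F c → (t c).u 2 + r' (c + 1) = r' c + 1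
  u1 : ∀ c, thrC M δ F c → (t c).u 1 + r' c = 1
  u2' : ∀ c, lecC M δ F c → (t c).u 2 + r' (c + 1) = 1
  d3 : ∀ c, cC M δ F c → ∀ T, Fl'.le (c + 1) T → (t c).u (sideC T 3) ≤ 1
  d2 : ∀ c, thrC M δ F c → ∀ T, Fl'.le c T → Fl'.ri c T → (t c).u (sideC T 2) ≤ 1
  d2' : ∀ c, lecC M δ F c → ∀ T, Fl'.ri c T → (t c).u (sideC T 2) ≤ 1
  d1 : ∀ c, thrC M δ F c → ∀ T, Fl'.ri (c - 1) T → (t c).u (sideC T 1) ≤ 1
  st3 : ∀ c, cC M δ F c → Fl'.st (c + 1) → (t c).u 0 ≤ 1 ∧ (t c).u 1 ≤ 1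
  st2 : ∀ c, thrC M δ F c → Fl'.st c → (t c).u 3 ≤ 1 ∧ (t c).u 0 ≤ 1
  rv : ∀ x, vp L x = true → vp L (ρ x) = true ∧ ρ (ρ x) = x ∧ ρ x ≠ x
  rs : ∀ k, Relation.EqvGen (SStep L ρ fun c => (t c).m) (2, k) (2, s'.m k)
  ra : ∀ x, vp L x = true → ∃ k, Relation.EqvGen (SStep L ρ fun c => (t c).m) x (2, k)

/-- the pairing of the quad of a folded corner hexagon at a through corner -/
theorem thr_m {t : PState 4} (h : EE 4 t) {x y : ℕ} (h1 : t.u 1 + x = 1)
    (h2 : t.u 2 + y = x + 1) (h3 : t.u 3 = y) (hxy : ¬ (x = 0 ∧ y = 1)) (hy : y ≤ 1) :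
    t.m 2 = 1 ∧ t.m 3 = 0 := by
  have hx : x ≤ 1 := by omega
  obtain ⟨c, k, rfl⟩ := h
  have hx' : x = 0 ∨ x = 1 := by omega
  have hy' : y = 0 ∨ y = 1 := by omega
  clear hx hy
  rcases hx' with rfl | rfl <;> rcases hy' with rfl | rfl
  · revert c k
    decide
  · exact absurd ⟨rfl, rfl⟩ hxy
  · revert c k
    decide
  · revert c k
    decide

namespace Gen

variable [Fintype D] {hG : M.Gen A δ} {hF : Pre M A δ F} {o : D → Bool}
  {ho : ∀ d, o (M.nx d) = !o d} {ho' : ∀ d, o (M.al d) = !o d}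

/-- **Partial peel, for an exact realised state.** -/
theorem peelC {β : (ZMod 6 → D) → Rel}
    (anti : ∀ γ F G t, M.SiteNum 6 γ → A (γ 0) → F.Le G → β γ G t → β γ F t)
    (rotβ : ∀ γ F t c, M.SiteNum 6 γ → A (γ 0) → β γ F t →
      β (fun i => γ (i + c)) (F.rot c) (t.rot c))
    (niceβ : ∀ γ F t, M.SiteNum 6 γ → A (γ 0) → β γ F t → Nice t)
    (htou : ∀ d, A d → M.deg d = 6 → ∃ j e, M.SameSite d e ∧ M.SameNode (δ j) e)
    {L T : ZMod 6 → Bool} (hL : ∀ c, L c = true ↔ lecC M δ F c)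
    (hT : ∀ c, T c = true ↔ thrC M δ F c)
    {Fl' : Flags} {s' : PState 6} {μ' : {d // ¬ FR M F d} → {d // ¬ FR M F d}}
    {ω' : {d // ¬ FR M F d} → ℕ} {r' : ZMod 6 → ℕ}
    (hR : (mapF hF ho ho' hG).RealL ((mapF hF ho ho' hG).OL (hdrF hF ho ho' hG)
      (fun γ => β fun i => (γ i).1) Fl') (fun y => A y.1) (hdrF hF ho ho' hG) s' μ' ω')
    (hX : ExF hG hF ho ho' ω' r') (hsu : ∀ k, s'.u k + r' (k + 1) = r' k + 1)
    (hthr : ∀ c, thrC M δ F c → s'.u c ≠ 0) :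
    ∃ (t : ZMod 6 → PState 4) (ρ : Pt → Pt), SrcF M δ F Fl' s' L r' t ρ ∧
      ∀ (Fl : Flags) (s : PState 6) (a : ZMod 6 → Bool) (r : ZMod 6 → ℕ) (p q : ℕ)
        (w : ZMod 6 → PState 6), PeelFOk M A δ F β Fl Fl' s L T a r r' p q w t ρ →
        Rz M A δ β Fl s := by
  have hP := hG.mapF_patch hF ho ho'
  have hnoc := fun k (hk : F (δ k)) => hG.mapF_no_corner hF ho ho' hk
  have hcor := fun k => hG.mapF_corner hF ho ho' (k := k)
  have hu : ∀ γ : ZMod 6 → {d // ¬ FR M F d}, (mapF hF ho ho' hG).SiteNum 6 γ →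
      ∀ i, Unt M F (γ i).1 := fun γ hγ i => mapF_sixu ho ho' hG hF (hγ.deg i)
  have hnum := fun (γ : ZMod 6 → {d // ¬ FR M F d}) (hγ : (mapF hF ho ho' hG).SiteNum 6 γ) =>
    siteNum_unt ho ho' hG hF hγ (hu γ hγ)
  -- the local states
  let L' : LS {d // ¬ FR M F d} := fun n γ x => (mapF hF ho ho' hG).OL (hdrF hF ho ho' hG)
    (fun γ => β fun i => (γ i).1) Fl' n γ x ∧ (mapF hF ho ho' hG).SiteNum n γ ∧ ∀ i, A (γ i).1
  have hR' : (mapF hF ho ho' hG).RealL L' (fun y => A y.1) (hdrF hF ho ho' hG) s' μ' ω' :=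
    hR.mono hP.sites fun n γ x _ hγ hγA _ hx => ⟨hx, hγ, hγA⟩
  have hrot : ∀ (n : ℕ) (γ : ZMod n → {d // ¬ FR M F d}) (x : PState n) (c : ZMod n),
      (mapF hF ho ho' hG).SiteNum n γ → A (γ 0).1 → L' n γ x → L' n (fun i => γ (i + c))
        (x.rot c) := by
    rintro n γ x c - - ⟨hx, hγ, hA⟩
    refine ⟨?_, ⟨fun i j hij => add_right_cancel (hγ.inj hij), fun i => ?_⟩, fun i => hA _⟩
    · rcases OL_n hx with rfl | rfl
      · exact QS.rotγ (show (mapF hF ho ho' hG).QS (hdrF hF ho ho' hG) Fl' γ x from hx) c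
      · show β (fun i => (γ (i + c)).1) _ (x.rot c)
        rw [res_rot]
        exact rotβ (fun i => (γ i).1) _ x c (hnum γ hγ) (hA 0) hx
    · show (mapF hF ho ho' hG).nx (γ (i + c)) = γ (i + 1 + c)
      rw [hγ.nx]
      congr 1
      ring
  have hm : ∀ (n : ℕ) (γ : ZMod n → {d // ¬ FR M F d}) (x : PState n),
      L' n γ x → ∀ i, x.m (x.m i) = i ∧ x.m i ≠ i := by
    rintro n γ x ⟨hx, hγ, hA⟩
    rcases OL_n hx with rfl | rfl
    · obtain ⟨c, k, rfl⟩ := QS.ee (show (mapF hF ho ho' hG).QS (hdrF hF ho ho' hG) Fl' γ x from hx)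
      clear hx
      revert c k
      decide
    · have := niceβ _ _ _ (hnum γ hγ) (hA 0) hx
      exact fun i => ⟨this.mm i, this.mne i⟩
  -- the states of the folded corner hexagons
  have hkq : ∀ c, ∃ x : PState 4, cC M δ F c → L' 4 (fun n => kD hG hF c (l6 n)) x ∧
      HasState μ' ω' (fun n => kD hG hF c (l6 n)) x := by
    intro c
    by_cases hc : cC M δ F c
    · obtain ⟨x, h1, h2⟩ := mapF_state hR' hrot (kD_num (ho := ho) (ho' := ho') hc) (by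
        rw [kD_l6 hc]
        exact (hG.corHex hF hc.1).kA _)
      exact ⟨x, fun _ => ⟨h1, h2⟩⟩
    · exact ⟨lq 1 2, fun h => absurd h hc⟩
  choose t ht using hkq
  have htu : ∀ c, cC M δ F c → ∀ n : ZMod 4, ω' (kD hG hF c (l6 n)) = (t c).u n :=
    fun c hc n => ((ht c hc).2 n).2
  have htμ : ∀ c, cC M δ F c → ∀ n : ZMod 4, μ' (kD hG hF c (l6 n)) = kD hG hF c (l6 ((t c).m n)) :=
    fun c hc n => ((ht c hc).2 n).1
  have hqs : ∀ c, cC M δ F c →
      (mapF hF ho ho' hG).QS (hdrF hF ho ho' hG) Fl' (fun n => kD hG hF c (l6 n)) (t c) :=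
    fun c hc => (ht c hc).1.1
  have hbn : ∀ c, cC M δ F c → (mapF hF ho ho' hG).SiteNum 4 fun n => kD hG hF c (l6 n) :=
    fun c hc => kD_num hc
  have hb3 : ∀ c, cC M δ F c → kD hG hF c (l6 3) = hdrF hF ho ho' hG (c + 1) := by
    intro c hc
    apply Subtype.ext
    rw [kD_l6 hc, hG.hdr_c hF ho ho' hc]
    rfl
  have hb2 : ∀ c, thrC M δ F c → kD hG hF c (l6 2) = hdrF hF ho ho' hG c := by
    intro c hc
    apply Subtype.ext
    rw [kD_l6 hc.1, hG.hdr_t hF ho ho' hc]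
    rfl
  have hb2' : ∀ c, cC M δ F c →
      kD hG hF c (l6 2) = (mapF hF ho ho' hG).nx.symm (hdrF hF ho ho' hG (c + 1)) := by
    intro c hc
    rw [← hb3 c hc, Equiv.eq_symm_apply]
    exact (hbn c hc).nx 2
  have hb1 : ∀ c, thrC M δ F c →
      kD hG hF c (l6 1) = (mapF hF ho ho' hG).nx.symm (hdrF hF ho ho' hG c) := by
    intro c hc
    rw [← hb2 c hc, Equiv.eq_symm_apply]
    exact (hbn c hc.1).nx 1
  have hu3 : ∀ c, cC M δ F c → (t c).u 3 = r' (c + 1) := fun c hc => by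
    rw [← htu c hc 3, hb3 c hc, hX.x1 (c + 1) (hnoc _ hc.2)]
  have hcc : ∀ c, thrC M δ F c →
      (mapF hF ho ho' hG).nx (hdrF hF ho ho' hG c) = hdrF hF ho ho' hG (c + 1) := by
    intro c hc
    rw [← hb2 c hc, ← hb3 c hc.1]
    exact (hbn c hc.1).nx 2
  have hu2 : ∀ c, thrC M δ F c → (t c).u 2 + r' (c + 1) = r' c + 1 := fun c hc => by
    rw [← htu c hc.1 2, hb2 c hc]
    exact hX.cor c (hcc c hc)
  have hn1 : ∀ c, thrC M δ F c →
      (mapF hF ho ho' hG).nx (hdrF hF ho ho' hG (c - 1)) ≠ hdrF hF ho ho' hG (c - 1 + 1) :=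
    fun c hc => hnoc _ (hG.full_first hF hc.2)
  have hu1 : ∀ c, thrC M δ F c → (t c).u 1 + r' c = 1 := fun c hc => by
    have h1 := hX.x2 (c - 1) (hn1 c hc)
    rw [sub_add_cancel] at h1
    rw [← htu c hc.1 1, hb1 c hc]
    exact h1
  have hlc : ∀ c, lecC M δ F c →
      (mapF hF ho ho' hG).nx (hdrF hF ho ho' hG c) ≠ hdrF hF ho ho' hG (c + 1) := by
    intro c hc h
    rcases ((hcor c).1 h).2 with h1 | h1
    · exact hc.2 h1
    · refine hG.no_adj hF (k := c - 1) (by rw [sub_add_cancel]; exact h1) ?_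
      rw [sub_add_cancel]
      exact hc.1.1
  have hu2' : ∀ c, lecC M δ F c → (t c).u 2 + r' (c + 1) = 1 := fun c hc => by
    rw [← htu c hc.1 2, hb2' c hc.1]
    exact hX.x2 c (hlc c hc)
  have htm : ∀ c, thrC M δ F c → (t c).m 2 = 1 ∧ (t c).m 3 = 0 := by
    intro c hc
    refine thr_m (hqs c hc.1).ee (hu1 c hc) (hu2 c hc) (hu3 c hc.1) ?_ (hX.le _)
    rintro ⟨h1, h2⟩
    have h3 := hsu c
    exact hthr c hc (by omega)
  have hMu : MuF hG hF ho ho' μ' := by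
    refine ⟨fun y hy => (mapF_pair hR' hm y hy).1, fun y hy => (mapF_pair hR' hm y hy).2.1,
      fun y hy => (mapF_pair hR' hm y hy).2.2, fun c hc => ?_, fun c hc => ?_⟩
    · rw [← hb2 c hc, htμ c hc.1, (htm c hc).1, kD_l6 hc.1]
      rfl
    · rw [← hb3 c hc.1, htμ c hc.1, (htm c hc).2, kD_l6 hc.1]
      rfl
  obtain ⟨ρ, hρ1, hρ2, hρ3, hρ4⟩ := hMu.rho hL (m' := s'.m) (tm := fun c => (t c).m) hR.str hR.all
    fun c hc => htμ c hc.1
  have hpr : ∀ c, (mapF hF ho ho' hG).SameNode (hdrF hF ho ho' hG c)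
      ((mapF hF ho ho' hG).nx.symm (hdrF hF ho ho' hG (c + 1))) := fun c => hP.prev_node c
  refine ⟨t, ρ, ⟨hX.le, hsu, fun c hc => (hqs c hc).ee, hu3, hu2, hu1, hu2', fun c hc T hT => ?_,
    fun c hc T hT hT' => ?_, fun c hc T hT => ?_, fun c hc T hT => ?_, fun c hc hc' => ?_,
    fun c hc hc' => ?_, hρ1, hρ2, hρ3⟩, fun Fl s a r p q w h => ?_⟩
  · -- the edge at the node `c + 1`
    refine (hqs c hc).dem 3 (c + 1) T (by rw [hb3 c hc]) ⟨fun h4 => absurd (hb3 c hc) h4,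
      fun _ => hT, fun h4 => ?_⟩
    exact absurd (by rw [← h4, ← hb3 c hc]; exact (hbn c hc).nx 3) (hnoc (c + 1) hc.2)
  · refine (hqs c hc.1).dem 2 c T (by rw [hb2 c hc]) ⟨fun h4 => absurd (hb2 c hc) h4,
      fun _ => hT, fun _ => hT'⟩
  · refine (hqs c hc.1).dem 2 c T (by rw [hb2' c hc.1]; exact hpr c) ⟨fun _ h4 =>
      absurd (hb3 c hc.1) h4, fun h4 => ?_, fun _ => hT⟩
    refine absurd ?_ (hlc c hc)
    rw [← h4, ← hb3 c hc.1]
    exact (hbn c hc.1).nx 2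
  · have h1 := hpr (c - 1)
    rw [sub_add_cancel] at h1
    refine (hqs c hc.1).dem 1 (c - 1) T (by rw [hb1 c hc]; exact h1) ⟨fun _ h4 => absurd ?_ h4,
      fun h4 => ?_, fun _ => hT⟩
    · rw [sub_add_cancel]
      exact hb2 c hc
    · refine absurd ?_ (hn1 c hc)
      rw [← h4, sub_add_cancel, ← hb2 c hc]
      exact (hbn c hc.1).nx 1
  · exact (hqs c hc).st 3 (c + 1) (hb3 c hc) hc'
  · exact (hqs c hc.1).st 2 c (hb2 c hc) hc'
  · have hLo := hG.liftLocF (ho := ho) (ho' := ho') (hF := hF) anti htou h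
    exact liftF htou hR' hX hrot hm hMu h.par htu
      ⟨fun n γ x h1 h2 h3 h4 h5 => hLo.inner n γ x h1 h2 h3 h4 h5.1, hLo.lq,
        fun e α b x h1 h2 h3 h4 h5 h6 h7 => hLo.lh e α b x h1 h2 h3 h4 h5 h6.1 h7, hLo.sq,
        fun k α b x h1 h2 h3 h4 h5 h6 h7 h8 => hLo.sh k α b x h1 h2 h3 h4 h5 h6.1 h7 h8, hLo.cor⟩
      hL hT h.su hρ4 h.port h.all

end Gen

end DMap

end GT33
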