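import Pool.Agent.GT33.PeelN
import Pool.Agent.GT33.KFlip

/-!
# GT33 module PEELG: the peel theorem for general local states

`SrcG`: the facts about a realised state of the folded map (`Z c`: nothing is known about the demands at the
folded corner hexagon `c`).  `Gen.srcG`: the state lift with the facts about the source.  `PeelG`: the conditions
for the lifted state without the demands of the unfolded sites.
-/

open Classical

namespace GT33

namespace DMap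

variable {D : Type} {M : DMap D} {A : D → Prop} {δ : ZMod 6 → D} {F : D → Prop}

open Patch

/-- the facts about a realised state of the folded map -/
structure SrcG (M : DMap D) (δ : ZMod 6 → D) (F : D → Prop) (Fl' : Flags) (s' : PState 6)
    (Z : ZMod 6 → Prop) (L : ZMod 6 → Bool) (r' : ZMod 6 → ℕ) (t : ZMod 6 → PState 4)
    (ρ : Pt → Pt) : Prop where
  le : ∀ k, r' k ≤ 1
  su : ∀ k, s'.u k + r' (k + 1) = r' k + 1
  ee : ∀ c, cC M δ F c → EE 4 (t c)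
  u3 : ∀ c, cC M δ F c → (t c).u 3 = r' (c + 1)
  u2 : ∀ c, thrC M δ F c → (t c).u 2 + r' (c + 1) = r' c + 1
  u1 : ∀ c, thrC M δ F c → (t c).u 1 + r' c = 1
  u2' : ∀ c, lecC M δ F c → (t c).u 2 + r' (c + 1) = 1
  d3 : ∀ c, ¬ Z c → cC M δ F c → ∀ T, Fl'.le (c + 1) T → (t c).u (sideC T 3) ≤ 1
  d2 : ∀ c, ¬ Z c → thrC M δ F c → ∀ T, Fl'.le c T → Fl'.ri c T → (t c).u (sideC T 2) ≤ 1
  d2' : ∀ c, ¬ Z c → lecC M δ F c → ∀ T, Fl'.ri c T → (t c).u (sideC T 2) ≤ 1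
  d1 : ∀ c, ¬ Z c → thrC M δ F c → ∀ T, Fl'.ri (c - 1) T → (t c).u (sideC T 1) ≤ 1
  st3 : ∀ c, ¬ Z c → cC M δ F c → Fl'.st (c + 1) → (t c).u 0 ≤ 1 ∧ (t c).u 1 ≤ 1
  st2 : ∀ c, ¬ Z c → thrC M δ F c → Fl'.st c → (t c).u 3 ≤ 1 ∧ (t c).u 0 ≤ 1
  rv : ∀ x, vp L x = true → vp L (ρ x) = true ∧ ρ (ρ x) = x ∧ ρ x ≠ x
  rs : ∀ k, Relation.EqvGen (SStep L ρ fun c => (t c).m) (2, k) (2, s'.m k)
  ra : ∀ x, vp L x = true → ∃ k, Relation.EqvGen (SStep L ρ fun c => (t c).m) x (2, k)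

/-- the conditions for the lifted state, without the unfolded sites -/
structure PeelG (M : DMap D) (δ : ZMod 6 → D) (F : D → Prop)
    (β : (ZMod 6 → D) → Rel) (Fl Fl' : Flags) (s : PState 6) (L T a : ZMod 6 → Bool)
    (r r' : ZMod 6 → ℕ) (p q : ℕ) (w : ZMod 6 → PState 6) (t : ZMod 6 → PState 4)
    (ρ : Pt → Pt) : Prop where
  par : ParF M δ F a r r' p q w t
  su : ∀ k, s.u k + r (k + 1) = r k + 1
  port : ∀ k, Relation.EqvGen (PStepG L T a ρ fun c => (w c).m) (0, k) (0, s.m k)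
  all : ∀ x, up L x = true →
    ∃ k, Relation.EqvGen (PStepG L T a ρ fun c => (w c).m) x (0, k)
  lk : ∀ (j : ZMod 6) (e : D), F e → M.SameNode (δ j) e → (∀ i, e ≠ δ i) →
    (Fl.lk j true → q ≤ 1) ∧ (Fl.lk j false → p ≤ 1)
  lq : ∀ k, Gen.LkF M δ F (δ k) → M.deg (δ k) = 4 → Gen.SqOk Fl k (lq p q)
  sq : ∀ k, IntF M δ F k → M.deg (δ k) = 4 → Gen.SqOk Fl k (sq (a k) (r k) (r' k) p q)
  lh : ∀ (j : ZMod 6) (α : ZMod 6 → D) (x : PState 4), M.SiteNum 6 α → F (α 0) →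
    M.SameNode (δ j) (α 0) → (∀ i k, α i ≠ δ k) → EE 4 x → x.u 3 = 0 →
    (∀ T, Fl'.lk j T → x.u (sideC T 3) ≤ 1) → β α (lfl Fl j) (lh p q x)
  ll : ∀ (k : ZMod 6) (α : ZMod 6 → D) (x : PState 4), Gen.LkF M δ F (δ k) → M.SiteNum 6 α →
    α 0 = δ k → EE 4 x → x.u 3 = 0 → (∀ T, Fl'.lk k T → x.u (sideC T 3) ≤ 1) →
    β α (sfl Fl k) (GT33.lh p q x)
  sh : ∀ (k : ZMod 6) (α : ZMod 6 → D) (x : PState 4), IntF M δ F k → M.SiteNum 6 α →
    α 0 = δ k → EE 4 x → x.u 3 = r' k → x.u 2 + r' k = 1 →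
    (∀ T, Fl'.le k T → x.u (sideC T 3) ≤ 1) → (∀ T, Fl'.ri (k - 1) T → x.u (sideC T 2) ≤ 1) →
    (Fl'.st k → x.u 0 ≤ 1 ∧ x.u 1 ≤ 1) → β α (sfl Fl k) (sh (a k) (r k) p q x)
  co : ∀ c, cC M δ F c → β (kc M δ c) (cflags Fl c) (w c)

namespace Gen

variable [Fintype D] {hG : M.Gen A δ} {hF : Pre M A δ F} {o : D → Bool}
  {ho : ∀ d, o (M.nx d) = !o d} {ho' : ∀ d, o (M.al d) = !o d}

/-- the quads of the folded map at folded sectors have states with demands -/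
def QsT (hG : M.Gen A δ) (hF : Pre M A δ F) (ho : ∀ d, o (M.nx d) = !o d)
    (ho' : ∀ d, o (M.al d) = !o d) (Fl' : Flags) (Z : ZMod 6 → Prop)
    (L' : LS {d // ¬ FR M F d}) : Prop :=
  ∀ (b : ZMod 4 → {d // ¬ FR M F d}) (x : PState 4) (e : D), F e → M.SameSite e (b 0).1 →
    (∀ c, Z c → e ≠ δ (c + 1)) → L' 4 b x → (mapF hF ho ho' hG).QS (hdrF hF ho ho' hG) Fl' b x

/-- **The state lift with the facts about the source.** -/
theorem srcG (htou : ∀ d, A d → M.deg d = 6 → ∃ j e, M.SameSite d e ∧ M.SameNode (δ j) e)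
    {L T : ZMod 6 → Bool} (hL : ∀ c, L c = true ↔ lecC M δ F c)
    (hT : ∀ c, T c = true ↔ thrC M δ F c) {Z : ZMod 6 → Prop} {L' : LS {d // ¬ FR M F d}}
    {Fl' : Flags} {s' : PState 6} {μ' : {d // ¬ FR M F d} → {d // ¬ FR M F d}}
    {ω' : {d // ¬ FR M F d} → ℕ} {r' : ZMod 6 → ℕ}
    (hR : (mapF hF ho ho' hG).RealL L' (fun y => A y.1) (hdrF hF ho ho' hG) s' μ' ω')
    (hX : ExF hG hF ho ho' ω' r') (hsu : ∀ k, s'.u k + r' (k + 1) = r' k + 1)
    (hrot : ∀ (n : ℕ) (γ : ZMod n → {d // ¬ FR M F d}) (t : PState n) (c : ZMod n),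
      (mapF hF ho ho' hG).SiteNum n γ → A (γ 0).1 → L' n γ t → L' n (fun i => γ (i + c)) (t.rot c))
    (hm : ∀ (n : ℕ) (γ : ZMod n → {d // ¬ FR M F d}) (t : PState n),
      L' n γ t → ∀ i, t.m (t.m i) = i ∧ t.m i ≠ i)
    (hee : ∀ (b : ZMod 4 → {d // ¬ FR M F d}) (x : PState 4), L' 4 b x → EE 4 x)
    (hqs : QsT hG hF ho ho' Fl' Z L')
    (hthr : ∀ c, thrC M δ F c → s'.u c ≠ 0) :
    ∃ (t : ZMod 6 → PState 4) (ρ : Pt → Pt), SrcG M δ F Fl' s' Z L r' t ρ ∧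
      ∀ (Lo : LS D) (s : PState 6) (a : ZMod 6 → Bool) (r : ZMod 6 → ℕ) (p q : ℕ)
        (w : ZMod 6 → PState 6), ParF M δ F a r r' p q w t →
        LiftLocF hG hF ho ho' L' Lo a r r' p q w → (∀ k, s.u k + r (k + 1) = r k + 1) →
        (∀ k, Relation.EqvGen (PStepG L T a ρ fun c => (w c).m) (0, k) (0, s.m k)) →
        (∀ x, up L x = true →
          ∃ k, Relation.EqvGen (PStepG L T a ρ fun c => (w c).m) x (0, k)) →
        ∃ μ ω, M.RealL Lo A δ s μ ω := by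
  have hP := hG.mapF_patch hF ho ho'
  have hnoc := fun k (hk : F (δ k)) => hG.mapF_no_corner hF ho ho' hk
  have hcor := fun k => hG.mapF_corner hF ho ho' (k := k)
  -- the states of the folded corner hexagons
  have hkq : ∀ c, ∃ x : PState 4, cC M δ F c → L' 4 (fun n => kD hG hF c (l6 n)) x ∧
      HasState μ' ω' (fun n => kD hG hF c (l6 n)) x := by
    intro c
    by_cases hc : cC M δ F c
    · obtain ⟨x, h1, h2⟩ := mapF_state hR hrot (kD_num (ho := ho) (ho' := ho') hc) (by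
        rw [kD_l6 hc]
        exact (hG.corHex hF hc.1).kA _)
      exact ⟨x, fun _ => ⟨h1, h2⟩⟩
    · exact ⟨lq 1 2, fun h => absurd h hc⟩
  choose t ht using hkq
  have htu : ∀ c, cC M δ F c → ∀ n : ZMod 4, ω' (kD hG hF c (l6 n)) = (t c).u n :=
    fun c hc n => ((ht c hc).2 n).2
  have htμ : ∀ c, cC M δ F c → ∀ n : ZMod 4, μ' (kD hG hF c (l6 n)) = kD hG hF c (l6 ((t c).m n)) :=
    fun c hc n => ((ht c hc).2 n).1
  have hqE : ∀ c, cC M δ F c → EE 4 (t c) := fun c hc => hee _ _ (ht c hc).1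
  have hqs : ∀ c, ¬ Z c → cC M δ F c →
      (mapF hF ho ho' hG).QS (hdrF hF ho ho' hG) Fl' (fun n => kD hG hF c (l6 n)) (t c) :=
    fun c hZ hc => hqs _ _ (δ (c + 1)) hc.2 (by
      rw [kD_l6 hc]
      exact hG.kc_same hF hc.1 _) (fun c' hc' h => hZ (by
        rw [add_right_cancel (hG.bd.inj h)]
        exact hc')) (ht c hc).1
  have hbn : ∀ c, cC M δ F c → (mapF hF ho ho' hG).SiteNum 4 fun n => kD hG hF c (l6 n) :=
    fun c hc => kD_num hc
  have hb3 : ∀ c, cC M δ F c → kD hG hF c (l6 3) = hdrF hF ho ho' hG (c + 1) := by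
    intro c hc
    apply Subtype.ext
    rw [kD_l6 hc, hG.hdr_c hF ho ho' hc]
    rfl
  have hb2 : ∀ c, thrC M δ F c → kD hG hF c (l6 2) = hdrF hF ho ho' hG c := by
    intro c hc
    apply Subtype.ext
    rw [kD_l6 hc.1, hG.hdr_t hF ho ho' hc]
    rfl
  have hb2' : ∀ c, cC M δ F c →
      kD hG hF c (l6 2) = (mapF hF ho ho' hG).nx.symm (hdrF hF ho ho' hG (c + 1)) := by
    intro c hc
    rw [← hb3 c hc, Equiv.eq_symm_apply]
    exact (hbn c hc).nx 2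
  have hb1 : ∀ c, thrC M δ F c →
      kD hG hF c (l6 1) = (mapF hF ho ho' hG).nx.symm (hdrF hF ho ho' hG c) := by
    intro c hc
    rw [← hb2 c hc, Equiv.eq_symm_apply]
    exact (hbn c hc.1).nx 1
  have hu3 : ∀ c, cC M δ F c → (t c).u 3 = r' (c + 1) := fun c hc => by
    rw [← htu c hc 3, hb3 c hc, hX.x1 (c + 1) (hnoc _ hc.2)]
  have hcc : ∀ c, thrC M δ F c →
      (mapF hF ho ho' hG).nx (hdrF hF ho ho' hG c) = hdrF hF ho ho' hG (c + 1) := by
    intro c hc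
    rw [← hb2 c hc, ← hb3 c hc.1]
    exact (hbn c hc.1).nx 2
  have hu2 : ∀ c, thrC M δ F c → (t c).u 2 + r' (c + 1) = r' c + 1 := fun c hc => by
    rw [← htu c hc.1 2, hb2 c hc]
    exact hX.cor c (hcc c hc)
  have hn1 : ∀ c, thrC M δ F c →
      (mapF hF ho ho' hG).nx (hdrF hF ho ho' hG (c - 1)) ≠ hdrF hF ho ho' hG (c - 1 + 1) :=
    fun c hc => hnoc _ (hG.full_first hF hc.2)
  have hu1 : ∀ c, thrC M δ F c → (t c).u 1 + r' c = 1 := fun c hc => by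
    have h1 := hX.x2 (c - 1) (hn1 c hc)
    rw [sub_add_cancel] at h1
    rw [← htu c hc.1 1, hb1 c hc]
    exact h1
  have hlc : ∀ c, lecC M δ F c →
      (mapF hF ho ho' hG).nx (hdrF hF ho ho' hG c) ≠ hdrF hF ho ho' hG (c + 1) := by
    intro c hc h
    rcases ((hcor c).1 h).2 with h1 | h1
    · exact hc.2 h1
    · refine hG.no_adj hF (k := c - 1) (by rw [sub_add_cancel]; exact h1) ?_
      rw [sub_add_cancel]
      exact hc.1.1
  have hu2' : ∀ c, lecC M δ F c → (t c).u 2 + r' (c + 1) = 1 := fun c hc => by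
    rw [← htu c hc.1 2, hb2' c hc.1]
    exact hX.x2 c (hlc c hc)
  have htm : ∀ c, thrC M δ F c → (t c).m 2 = 1 ∧ (t c).m 3 = 0 := by
    intro c hc
    refine thr_m (hqE c hc.1) (hu1 c hc) (hu2 c hc) (hu3 c hc.1) ?_ (hX.le _)
    rintro ⟨h1, h2⟩
    have h3 := hsu c
    exact hthr c hc (by omega)
  have hMu : MuF hG hF ho ho' μ' := by
    refine ⟨fun y hy => (mapF_pair hR hm y hy).1, fun y hy => (mapF_pair hR hm y hy).2.1,
      fun y hy => (mapF_pair hR hm y hy).2.2, fun c hc => ?_, fun c hc => ?_⟩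
    · rw [← hb2 c hc, htμ c hc.1, (htm c hc).1, kD_l6 hc.1]
      rfl
    · rw [← hb3 c hc.1, htμ c hc.1, (htm c hc).2, kD_l6 hc.1]
      rfl
  obtain ⟨ρ, hρ1, hρ2, hρ3, hρ4⟩ := hMu.rho hL (m' := s'.m) (tm := fun c => (t c).m) hR.str hR.all
    fun c hc => htμ c hc.1
  have hpr : ∀ c, (mapF hF ho ho' hG).SameNode (hdrF hF ho ho' hG c)
      ((mapF hF ho ho' hG).nx.symm (hdrF hF ho ho' hG (c + 1))) := fun c => hP.prev_node c
  refine ⟨t, ρ, ⟨hX.le, hsu, hqE, hu3, hu2, hu1, hu2', fun c hZ hc T hT => ?_,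
    fun c hZ hc T hT hT' => ?_, fun c hZ hc T hT => ?_, fun c hZ hc T hT => ?_,
    fun c hZ hc hc' => ?_, fun c hZ hc hc' => ?_, hρ1, hρ2, hρ3⟩,
    fun Lo s a r p q w hPar hLo hsu' hport hall => ?_⟩
  · -- the edge at the node `c + 1`
    refine (hqs c hZ hc).dem 3 (c + 1) T (by rw [hb3 c hc]) ⟨fun h4 => absurd (hb3 c hc) h4,
      fun _ => hT, fun h4 => ?_⟩
    exact absurd (by rw [← h4, ← hb3 c hc]; exact (hbn c hc).nx 3) (hnoc (c + 1) hc.2)
  · refine (hqs c hZ hc.1).dem 2 c T (by rw [hb2 c hc]) ⟨fun h4 => absurd (hb2 c hc) h4,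
      fun _ => hT, fun _ => hT'⟩
  · refine (hqs c hZ hc.1).dem 2 c T (by rw [hb2' c hc.1]; exact hpr c) ⟨fun _ h4 =>
      absurd (hb3 c hc.1) h4, fun h4 => ?_, fun _ => hT⟩
    refine absurd ?_ (hlc c hc)
    rw [← h4, ← hb3 c hc.1]
    exact (hbn c hc.1).nx 2
  · have h1 := hpr (c - 1)
    rw [sub_add_cancel] at h1
    refine (hqs c hZ hc.1).dem 1 (c - 1) T (by rw [hb1 c hc]; exact h1) ⟨fun _ h4 => absurd ?_ h4,
      fun h4 => ?_, fun _ => hT⟩
    · rw [sub_add_cancel]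
      exact hb2 c hc
    · refine absurd ?_ (hn1 c hc)
      rw [← h4, sub_add_cancel, ← hb2 c hc]
      exact (hbn c hc.1).nx 1
  · exact (hqs c hZ hc).st 3 (c + 1) (hb3 c hc) hc'
  · exact (hqs c hZ hc.1).st 2 c (hb2 c hc) hc'
  · exact liftF htou hR hX hrot hm hMu hPar htu hLo hL hT hsu' hρ4 hport hall

/-- the local states of the lift for flags -/
theorem liftLocG {β : (ZMod 6 → D) → Rel} (anti : ∀ γ F G t, M.SiteNum 6 γ → A (γ 0) → F.Le G →
      β γ G t → β γ F t)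
    (htou : ∀ d, A d → M.deg d = 6 → ∃ j e, M.SameSite d e ∧ M.SameNode (δ j) e)
    {L' : LS {d // ¬ FR M F d}}
    {Fl Fl' : Flags} {s : PState 6} {L T a : ZMod 6 → Bool} {r r' : ZMod 6 → ℕ} {p q : ℕ}
    {w : ZMod 6 → PState 6} {t : ZMod 6 → PState 4} {ρ : Pt → Pt}
    (hqs : QsT hG hF ho ho' Fl' (fun c => cC M δ F c) L')
    (hin : ∀ (n : ℕ) (γ : ZMod n → {d // ¬ FR M F d}) (x : PState n), n ≠ 0 →
      (mapF hF ho ho' hG).SiteNum n γ → (∀ i, A (γ i).1) → (∀ i, Unt M F (γ i).1) →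
      L' n γ x → M.OL δ β Fl n (fun i => (γ i).1) x)
    (h : PeelG M δ F β Fl Fl' s L T a r r' p q w t ρ) :
    LiftLocF hG hF ho ho' L' (M.OL δ β Fl) a r r' p q w := by
  have hP := hG.mapF_patch hF ho ho'
  have hnoc := fun k (hk : F (δ k)) => hG.mapF_no_corner hF ho ho' hk
  refine ⟨hin, fun e α he hα h0 => ?_, fun e α b x he hα h0 hb hbn hx h3 => ?_,
    fun k α hk hα h0 => ?_, fun k α b x hk hα h0 hb hbn hx h3 h2 => ?_, fun c hc => ?_⟩
  · -- link quads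
    by_cases hl : ∀ i, e ≠ δ i
    · exact hG.qs_lkF hF h.par.pq h.par.p1 h.par.q1 (hF.fs e he.1) hl
        (fun j hj => h.lk j e he.1 hj hl) hα h0
    · push Not at hl
      obtain ⟨k, rfl⟩ := hl
      exact hG.qs_spF hF (hF.fs _ he.1) (left_nc he) (h.lq k he (by rw [← h0]; exact hα.deg 0))
        hα h0
  · -- link hexagons
    have hs : ∀ i, M.SameSite e (α i) := fun i => by rw [← h0]; exact hα.same (by decide) 0 i
    have hx : (mapF hF ho ho' hG).QS (hdrF hF ho ho' hG) Fl' b x :=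
      hqs b x e he.1 (by rw [hb]; exact hs _) (fun c hc => he.2.2 c hc) hx
    obtain ⟨j, hj⟩ := (hF.fs e he.1).2.1
    have hA : A (α 0) := by rw [h0]; exact (hF.fs e he.1).1
    by_cases hl : ∀ i, e ≠ δ i
    · refine anti α _ _ _ hα hA (hG.resF_lfl hF (Fl := Fl) (hF.fs e he.1) hl hj hα h0) ?_
      exact h.lh j α x hα (by rw [h0]; exact he.1) (by rw [h0]; exact hj)
        (fun i k => hG.lkF_δ hF (hF.fs e he.1) hl (hs i) k) hx.ee h3
        fun T hT => hG.dem_lh he hj hα h0 hb hx hT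
    · push Not at hl
      obtain ⟨k, rfl⟩ := hl
      have hjk := hG.node_idx hj
      subst hjk
      refine anti α _ _ _ hα hA (hG.resF_sfl hF (Fl := Fl) (hF.fs _ he.1) (left_nc he) hα h0) ?_
      exact h.ll j α x he hα h0 hx.ee h3 fun T hT => hG.dem_lh he hj hα h0 hb hx hT
  · -- interior quads
    exact hG.qs_spF hF (hF.fs _ hk.2) (hG.int_nc hF hk) (h.sq k hk (by rw [← h0]; exact hα.deg 0))
      hα h0
  · -- interior hexagons
    have hx : (mapF hF ho ho' hG).QS (hdrF hF ho ho' hG) Fl' b x :=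
      hqs b x (δ k) hk.2 (by rw [hb, ← h0]; exact hα.same (by decide) 0 _)
        (fun c hc h1 => hG.int_cor hF hk hc (d := δ k) (Equiv.Perm.SameCycle.refl _ _)
          (by rw [h1])) hx
    have hb3 : b 3 = hdrF hF ho ho' hG k := by
      apply Subtype.ext
      rw [hb, hG.hdr_int hF ho ho' hk (by rw [← h0, hα.deg 0]; decide), ← (num6 hα h0).2.1]
      rfl
    have hb2 : b 2 = (mapF hF ho ho' hG).nx.symm (hdrF hF ho ho' hG k) := by
      rw [← hb3, Equiv.eq_symm_apply, hbn.nx]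
      rfl
    have hk1 := hG.int_first hF hk
    refine anti α _ _ _ hα (by rw [h0]; exact hG.toPatch.inA k)
      (hG.resF_sfl hF (Fl := Fl) (hF.fs _ hk.2) (hG.int_nc hF hk) hα h0) ?_
    refine h.sh k α x hk hα h0 hx.ee h3 h2 (fun T hT => ?_) (fun T hT => ?_) fun hT => ?_
    · refine hx.dem 3 k T (by rw [hb3]) ⟨fun h4 => absurd hb3 h4, fun _ => hT, fun h4 => ?_⟩
      exact absurd (by rw [← h4, ← hb3, hbn.nx]) (hnoc k hk.2)
    · have hn : (mapF hF ho ho' hG).SameNode (hdrF hF ho ho' hG (k - 1)) (b 2) := by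
        have := hP.prev_node (k - 1)
        rw [sub_add_cancel] at this
        rw [hb2]
        exact this
      refine hx.dem 2 (k - 1) T hn ⟨fun _ h4 => absurd ?_ h4, fun h4 => absurd ?_ (hnoc (k - 1) hk1),
        fun _ => hT⟩
      · rw [sub_add_cancel, ← hb3]
        rfl
      · rw [sub_add_cancel, ← h4, hbn.nx, ← hb3]
        rfl
    · exact hx.st 3 k hb3 hT
  · -- corner hexagons
    have hC := hG.corHex hF hc.1
    exact anti _ _ _ _ hC.num (hC.kA 0) (hC.res_c Fl) (h.co c hc)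

end Gen

end DMap

end GT33
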