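import Pool.Agent.GT33.PeelF
import Pool.Agent.GT33.PartW

/-!
# GT33 module PEELN: partial folds of objects, exactness and words

`Gen.exF_of`: the ring of the folded map is exact.  `NC`: the folded ring nodes and the corners as Boolean functions.
`SrcN`, `PeelN`, `BoxN`: the conditions of the peel.  `Gen.peelN`: the peel theorem for words.
-/

open Classical

namespace GT33

/-- the folded corner hexagons without full ring node before them -/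
def lecN (N C : ZMod 6 → Bool) (c : ZMod 6) : Bool := C c && N (c + 1) && !N (c - 1)

/-- the folded corner hexagons between full ring nodes -/
def thrN (N C : ZMod 6 → Bool) (c : ZMod 6) : Bool := C c && N (c + 1) && N (c - 1)

namespace DMap

open Patch

/-- the finite facts about a source -/
structure SrcN (N C : ZMod 6 → Bool) (Fl' : Flags) (s' : PState 6) (r' : ZMod 6 → ℕ)
    (t : ZMod 6 → PState 4) (ρ : Pt → Pt) : Prop where
  le : ∀ k, r' k ≤ 1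
  su : ∀ k, s'.u k + r' (k + 1) = r' k + 1
  ee : ∀ c, C c = true → N (c + 1) = true → EE 4 (t c)
  u3 : ∀ c, C c = true → N (c + 1) = true → (t c).u 3 = r' (c + 1)
  u2 : ∀ c, thrN N C c = true → (t c).u 2 + r' (c + 1) = r' c + 1
  u1 : ∀ c, thrN N C c = true → (t c).u 1 + r' c = 1
  u2' : ∀ c, lecN N C c = true → (t c).u 2 + r' (c + 1) = 1
  d3 : ∀ c, C c = true → N (c + 1) = true → ∀ T, Fl'.le (c + 1) T → (t c).u (sideC T 3) ≤ 1
  d2 : ∀ c, thrN N C c = true → ∀ T, Fl'.le c T → Fl'.ri c T → (t c).u (sideC T 2) ≤ 1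
  d2' : ∀ c, lecN N C c = true → ∀ T, Fl'.ri c T → (t c).u (sideC T 2) ≤ 1
  d1 : ∀ c, thrN N C c = true → ∀ T, Fl'.ri (c - 1) T → (t c).u (sideC T 1) ≤ 1
  st3 : ∀ c, C c = true → N (c + 1) = true → Fl'.st (c + 1) → (t c).u 0 ≤ 1 ∧ (t c).u 1 ≤ 1
  st2 : ∀ c, thrN N C c = true → Fl'.st c → (t c).u 3 ≤ 1 ∧ (t c).u 0 ≤ 1
  rv : ∀ x, vp (lecN N C) x = true → vp (lecN N C) (ρ x) = true ∧ ρ (ρ x) = x ∧ ρ x ≠ x
  rs : ∀ k, Relation.EqvGen (SStep (lecN N C) ρ fun c => (t c).m) (2, k) (2, s'.m k)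
  ra : ∀ x, vp (lecN N C) x = true →
    ∃ k, Relation.EqvGen (SStep (lecN N C) ρ fun c => (t c).m) x (2, k)

/-- the finite conditions of the peel -/
structure PeelN (N C : ZMod 6 → Bool) (Fl Fl' : Flags) (s : PState 6) (a : ZMod 6 → Bool)
    (r r' : ZMod 6 → ℕ) (p q : ℕ) (w : ZMod 6 → PState 6) (t : ZMod 6 → PState 4)
    (ρ : Pt → Pt) : Prop where
  ok : Fl.Ok
  flk : ∀ j T, ¬ (N j = true ∧ N (j + 1) = true) → Fl.lk j T → Fl'.lk (j + 1) T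
  fle : ∀ j T, N j = false → Fl.le j T → Fl'.le (j + 1) T
  fle' : ∀ j T, N j = true → N (j + 1) = false → Fl.lk j T → Fl'.le (j + 1) T
  fri : ∀ j T, N (j + 1) = false → Fl.ri j T → Fl'.ri (j + 1) T
  fst : ∀ j, N j = false → Fl.st j → Fl'.st (j + 1)
  pq : p + q = 3
  p1 : 1 ≤ p
  q1 : 1 ≤ q
  r1 : ∀ k, r k ≤ 1
  aI : ∀ k, a k = false → N (k - 1) = true ∧ N k = true
  c1 : ∀ k, N k = true → N (k + 1) = false → ¬ (C (k + 1) = true ∧ N (k + 1 + 1) = true) →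
    r' (k + 1) = 0 ∧ q = 1
  c2 : ∀ k, N k = true → N (k - 1) = false → C (k - 1) = false → r k = 0 ∧ q = 1
  c3 : ∀ k, N k = false → ¬ (C k = true ∧ N (k + 1) = true) → r k = r' (k + 1)
  wu : ∀ c, C c = true → N (c + 1) = true → (w c).u 0 = r (c + 1) ∧ (w c).u 1 = p ∧
    (w c).u 2 = (t c).u 0 ∧ (w c).u 4 + r c = 1 ∧ (w c).u 5 + r (c + 1) = r c + 1
  wt : ∀ c, thrN N C c = true → (w c).u 3 = q
  wl : ∀ c, lecN N C c = true → (w c).u 3 = (t c).u 1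
  su : ∀ k, s.u k + r (k + 1) = r k + 1
  port : ∀ k, Relation.EqvGen (PStepG (lecN N C) (thrN N C) a ρ fun c => (w c).m)
    (0, k) (0, s.m k)
  all : ∀ x, up (lecN N C) x = true →
    ∃ k, Relation.EqvGen (PStepG (lecN N C) (thrN N C) a ρ fun c => (w c).m) x (0, k)
  lk : ∀ j, N j = true → (Fl.lk j true → q ≤ 1) ∧ (Fl.lk j false → p ≤ 1)
  sl : ∀ k, N k = true → N (k - 1) = false → C (k - 1) = false → Gen.SqOk Fl k (lq p q)
  si : ∀ k, N k = true → N (k - 1) = true → Gen.SqOk Fl k (sq (a k) (r k) (r' k) p q)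

variable {D : Type} {M : DMap D} {A : D → Prop} {δ : ZMod 6 → D} {F : D → Prop}

/-- the conditions of the peel for the boxes -/
structure BoxN (M : DMap D) (A : D → Prop) (δ : ZMod 6 → D) (β : (ZMod 6 → D) → Rel)
    (N C : ZMod 6 → Bool) (Fl Fl' : Flags) (a : ZMod 6 → Bool) (r r' : ZMod 6 → ℕ) (p q : ℕ)
    (w : ZMod 6 → PState 6) : Prop where
  lh : ∀ (j : ZMod 6) (α : ZMod 6 → D) (x : PState 4), N j = true → M.SiteNum 6 α → A (α 0) →
    M.SameNode (δ j) (α 0) → (∀ i k, α i ≠ δ k) → EE 4 x → x.u 3 = 0 →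
    (∀ T, Fl'.lk j T → x.u (sideC T 3) ≤ 1) → β α (lfl Fl j) (lh p q x)
  ll : ∀ (k : ZMod 6) (α : ZMod 6 → D) (x : PState 4), N k = true → N (k - 1) = false →
    C (k - 1) = false → M.SiteNum 6 α → α 0 = δ k → EE 4 x → x.u 3 = 0 →
    (∀ T, Fl'.lk k T → x.u (sideC T 3) ≤ 1) → β α (sfl Fl k) (GT33.lh p q x)
  sh : ∀ (k : ZMod 6) (α : ZMod 6 → D) (x : PState 4), N k = true → N (k - 1) = true →
    M.SiteNum 6 α → α 0 = δ k → EE 4 x → x.u 3 = r' k → x.u 2 + r' k = 1 →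
    (∀ T, Fl'.le k T → x.u (sideC T 3) ≤ 1) → (∀ T, Fl'.ri (k - 1) T → x.u (sideC T 2) ≤ 1) →
    (Fl'.st k → x.u 0 ≤ 1 ∧ x.u 1 ≤ 1) → β α (sfl Fl k) (sh (a k) (r k) p q x)
  co : ∀ c, C c = true → N (c + 1) = true → M.nx (δ c) = δ (c + 1) →
    β (kc M δ c) (cflags Fl c) (w c)

/-- the folded ring nodes and the corners -/
structure NC (M : DMap D) (δ : ZMod 6 → D) (F : D → Prop) (N C : ZMod 6 → Bool) : Prop where
  n : ∀ k, F (δ k) ↔ N k = true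
  f : ∀ k, full M δ F k ↔ N k = true
  c : ∀ k, M.nx (δ k) = δ (k + 1) ↔ C k = true

namespace NC

variable {N C : ZMod 6 → Bool} (h : NC M δ F N C)

include h

theorem cC (c : ZMod 6) : cC M δ F c ↔ C c = true ∧ N (c + 1) = true := by
  unfold DMap.cC
  rw [h.c, h.n]

theorem int (k : ZMod 6) : IntF M δ F k ↔ N (k - 1) = true ∧ N k = true := by
  unfold IntF
  rw [h.f, h.n]

theorem lec (c : ZMod 6) : lecC M δ F c ↔ lecN N C c = true := by
  unfold lecC lecN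
  rw [h.cC, h.f]
  simp

theorem thr (c : ZMod 6) : thrC M δ F c ↔ thrN N C c = true := by
  unfold thrC thrN
  rw [h.cC, h.f]
  simp

theorem thr' {c : ZMod 6} (hc : thrN N C c = true) : C c = true ∧ N (c + 1) = true ∧ N (c - 1) = true := by
  have := h
  unfold thrN at hc
  simpa [and_assoc] using hc

theorem lec' {c : ZMod 6} (hc : lecN N C c = true) :
    C c = true ∧ N (c + 1) = true ∧ N (c - 1) = false := by
  have := h
  unfold lecN at hc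
  simpa [and_assoc] using hc

/-- the facts about the source -/
theorem src {Fl' : Flags} {s' : PState 6} {r' : ZMod 6 → ℕ} {t : ZMod 6 → PState 4} {ρ : Pt → Pt}
    (hs : SrcF M δ F Fl' s' (lecN N C) r' t ρ) : SrcN N C Fl' s' r' t ρ :=
  ⟨hs.le, hs.su, fun c h1 h2 => hs.ee c ((h.cC c).2 ⟨h1, h2⟩),
    fun c h1 h2 => hs.u3 c ((h.cC c).2 ⟨h1, h2⟩), fun c hc => hs.u2 c ((h.thr c).2 hc),
    fun c hc => hs.u1 c ((h.thr c).2 hc), fun c hc => hs.u2' c ((h.lec c).2 hc),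
    fun c h1 h2 => hs.d3 c ((h.cC c).2 ⟨h1, h2⟩), fun c hc => hs.d2 c ((h.thr c).2 hc),
    fun c hc => hs.d2' c ((h.lec c).2 hc), fun c hc => hs.d1 c ((h.thr c).2 hc),
    fun c h1 h2 => hs.st3 c ((h.cC c).2 ⟨h1, h2⟩), fun c hc => hs.st2 c ((h.thr c).2 hc), hs.rv,
    hs.rs, hs.ra⟩

/-- the conditions of the peel -/
theorem ok [Fintype D] (hG : M.Gen A δ) (hF : Pre M A δ F) {β : (ZMod 6 → D) → Rel}
    {Fl Fl' : Flags} {s : PState 6} {a : ZMod 6 → Bool} {r r' : ZMod 6 → ℕ} {p q : ℕ}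
    {w : ZMod 6 → PState 6} {t : ZMod 6 → PState 4} {ρ : Pt → Pt}
    (hp : PeelN N C Fl Fl' s a r r' p q w t ρ) (hb : BoxN M A δ β N C Fl Fl' a r r' p q w) :
    PeelFOk M A δ F β Fl Fl' s (lecN N C) (thrN N C) a r r' p q w t ρ := by
  have hff : ∀ {x : Bool}, x ≠ true ↔ x = false := fun {x} => by
    cases x <;> decide
  have hleft : ∀ k, Gen.LkF M δ F (δ k) → N k = true ∧ N (k - 1) = false ∧ C (k - 1) = false := by
    intro k hk
    have h1 := (h.n k).1 hk.1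
    have h2 : N (k - 1) = false := hff.1 fun h3 =>
      hk.2.1 k ((h.int k).2 ⟨h3, h1⟩) rfl
    refine ⟨h1, h2, hff.1 fun h3 => ?_⟩
    exact Gen.left_nc hk (by
      have := (h.c (k - 1)).2 h3
      rwa [sub_add_cancel] at this)
  refine ⟨⟨hp.ok, fun j T h1 h2 => hp.flk j T (by rw [← h.f, ← h.n]; exact h1) h2,
      fun j T h1 h2 => hp.fle j T (hff.1 (by rwa [Ne, ← h.n])) h2,
      fun j T h1 h2 h3 => hp.fle' j T ((h.n j).1 h1) (hff.1 fun h4 => h2 ?_) h3,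
      fun j T h1 h2 => hp.fri j T (hff.1 (by rwa [Ne, ← h.n])) h2,
      fun j h1 h2 => hp.fst j (hff.1 (by rwa [Ne, ← h.n])) h2⟩,
    ⟨hp.pq, hp.p1, hp.q1, hp.r1, fun k hk => (h.int k).2 (hp.aI k hk), fun k h1 h2 h3 => ?_,
      fun k h1 h2 h3 => ?_, fun k h1 h2 => hp.c3 k (hff.1 (by rwa [Ne, ← h.n]))
        (by rw [← h.cC]; exact h2), fun c hc => hp.wu c ((h.cC c).1 hc).1 ((h.cC c).1 hc).2,
      fun c hc => hp.wt c ((h.thr c).1 hc), fun c hc => hp.wl c ((h.lec c).1 hc)⟩, hp.su, hp.port,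
    hp.all, fun j e he hn _ => hp.lk j ((h.n j).1 (hG.pre_first hF he hn)),
    fun k hk _ => hp.sl k (hleft k hk).1 (hleft k hk).2.1 (hleft k hk).2.2,
    fun k hk _ => hp.si k ((h.int k).1 hk).2 ((h.int k).1 hk).1,
    fun j α x hα he hn h1 h2 h3 h4 => hb.lh j α x ((h.n j).1 (hG.pre_first hF he hn)) hα
      (hF.fs _ he).1 hn h1 h2 h3 h4, fun k α x hk hα h0 h1 h2 h3 => hb.ll k α x (hleft k hk).1
      (hleft k hk).2.1 (hleft k hk).2.2 hα h0 h1 h2 h3,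
    fun k α x hk hα h0 h1 h2 h3 h4 h5 h6 => hb.sh k α x ((h.int k).1 hk).2 ((h.int k).1 hk).1 hα h0
      h1 h2 h3 h4 h5 h6, fun c hc => hb.co c ((h.cC c).1 hc).1 ((h.cC c).1 hc).2 hc.1⟩
  · exact ⟨(h.f j).2 ((h.n j).1 h1), (h.n _).2 h4⟩
  · have h4 := (h.n k).1 h1
    have h5 : N (k + 1) = false := hff.1 fun h5 => h2 ((h.int _).2 ⟨by
      rw [add_sub_cancel_right]; exact h4, h5⟩)
    refine hp.c1 k h4 h5 fun h6 => h3 ((h.thr _).2 ?_)
    unfold thrN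
    rw [add_sub_cancel_right, h6.1, h6.2, h4]
    rfl
  · have h4 := (h.n k).1 h1
    have h5 : N (k - 1) = false := hff.1 fun h5 => h2 ((h.int _).2 ⟨h5, h4⟩)
    refine hp.c2 k h4 h5 (hff.1 fun h6 => h3 ((h.cC _).2 ⟨h6, ?_⟩))
    rw [sub_add_cancel]
    exact h4

end NC

/-- the folded sectors of a word with the digits `0` and `2` -/
theorem Gen.nc_fw [Fintype D] (hG : M.Gen A δ) {f : ZMod 6 → Fin 3} (hf : ∀ k, f k ≠ 1)
    {N C : ZMod 6 → Bool} (hC : ∀ k, M.nx (δ k) = δ (k + 1) ↔ C k = true)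
    (hN : ∀ k, N k = true ↔ f k = 2 ∧ C k = false) : NC M δ (Fw M A δ f) N C := by
  have hff : ∀ {x : Bool}, x ≠ true ↔ x = false := fun {x} => by
    cases x <;> decide
  have h3 : ∀ k, f k ≠ 0 ↔ f k = 2 := fun k => by
    have : ∀ x : Fin 3, x ≠ 1 → (x ≠ 0 ↔ x = 2) := by decide
    exact this _ (hf k)
  refine ⟨fun k => ?_, fun k => ?_, hC⟩
  · rw [hG.fw_δ, h3, hN, Ne, hC, ← Ne, hff]
  · rw [hG.fw_full, hN, Ne, hC, ← Ne, hff, and_comm]
    refine and_congr_left fun _ => ⟨fun h => ?_, Or.inl⟩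
    rcases h with h | h
    · exact h
    · exact absurd h.1 (hf k)

namespace Gen

variable [Fintype D] {hG : M.Gen A δ} {hF : Pre M A δ F} {o : D → Bool}
  {ho : ∀ d, o (M.nx d) = !o d} {ho' : ∀ d, o (M.al d) = !o d}

/-- **The ring of the folded map is exact.** -/
theorem exF_of {β' : (ZMod 6 → {d // ¬ FR M F d}) → Rel}
    (niceβ : ∀ γ G t, (mapF hF ho ho' hG).SiteNum 6 γ → A (γ 0).1 → β' γ G t → Nice t)
    {Fl' : Flags} {s' : PState 6} {μ' : {d // ¬ FR M F d} → {d // ¬ FR M F d}}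
    {ω' : {d // ¬ FR M F d} → ℕ}
    (hR : (mapF hF ho ho' hG).RealL ((mapF hF ho ho' hG).OL (hdrF hF ho ho' hG) β' Fl')
      (fun y => A y.1) (hdrF hF ho ho' hG) s' μ' ω')
    {o' : ZMod 6 → ℕ} (hs : ∀ i, s'.u i + o' (i + 1) = o' i + 1) (ho1 : ∀ i, o' i ≤ 1)
    (hc : ∀ i, (mapF hF ho ho' hG).nx (hdrF hF ho ho' hG i) = hdrF hF ho ho' hG (i + 1) →
      (mapF hF ho ho' hG).deg (hdrF hF ho ho' hG i) = 6 ∨ (s'.u i ≠ 1 ∧
        (mapF hF ho ho' hG).nx (hdrF hF ho ho' hG (i + 1)) ≠ hdrF hF ho ho' hG (i + 1 + 1)))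
    (hne : ¬ ∃ r, ∀ e : {d // ¬ FR M F d}, A e.1 ↔ (mapF hF ho ho' hG).SameSite r e) :
    ∃ r' : ZMod 6 → ℕ, (∀ i, s'.u i + r' (i + 1) = r' i + 1) ∧ ((∃ i, s'.u i = 0) → r' = o') ∧
      ExF hG hF ho ho' ω' r' := by
  have hP := hG.mapF_patch hF ho ho'
  obtain ⟨r', h1, h2, h3, h4, h5⟩ := Obj.exact (B := ⟨β', fun _ _ => False, fun _ => False⟩) hP
    niceβ hR hs ho1 hc hne
  refine ⟨r', h2, h3, ⟨h1, fun k hk => ?_, fun k hk => (h5 k hk).1, fun k hk => (h5 k hk).2,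
    fun k y h6 h7 h8 h9 => h4 k y h6 h7 h8 h9⟩⟩
  have h6 := hR.bdry k
  rw [hP.cor_usum hk] at h6
  rw [h6]
  exact h2 k

/-- **The peel for words.** -/
theorem peelN {β : (ZMod 6 → D) → Rel}
    (anti : ∀ γ F G t, M.SiteNum 6 γ → A (γ 0) → F.Le G → β γ G t → β γ F t)
    (rotβ : ∀ γ F t c, M.SiteNum 6 γ → A (γ 0) → β γ F t →
      β (fun i => γ (i + c)) (F.rot c) (t.rot c))
    (niceβ : ∀ γ F t, M.SiteNum 6 γ → A (γ 0) → β γ F t → Nice t)
    (htou : ∀ d, A d → M.deg d = 6 → ∃ j e, M.SameSite d e ∧ M.SameNode (δ j) e)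
    {N C : ZMod 6 → Bool} (hN : NC M δ F N C)
    {Fl' : Flags} {s' : PState 6} {μ' : {d // ¬ FR M F d} → {d // ¬ FR M F d}}
    {ω' : {d // ¬ FR M F d} → ℕ} {r' : ZMod 6 → ℕ}
    (hR : (mapF hF ho ho' hG).RealL ((mapF hF ho ho' hG).OL (hdrF hF ho ho' hG)
      (fun γ => β fun i => (γ i).1) Fl') (fun y => A y.1) (hdrF hF ho ho' hG) s' μ' ω')
    (hX : ExF hG hF ho ho' ω' r') (hsu : ∀ k, s'.u k + r' (k + 1) = r' k + 1)
    (hthr : ∀ c, thrN N C c = true → s'.u c ≠ 0) :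
    ∃ (t : ZMod 6 → PState 4) (ρ : Pt → Pt), SrcN N C Fl' s' r' t ρ ∧
      ∀ (Fl : Flags) (s : PState 6) (a : ZMod 6 → Bool) (r : ZMod 6 → ℕ) (p q : ℕ)
        (w : ZMod 6 → PState 6), PeelN N C Fl Fl' s a r r' p q w t ρ →
        BoxN M A δ β N C Fl Fl' a r r' p q w → Rz M A δ β Fl s := by
  obtain ⟨t, ρ, h1, h2⟩ := peelC anti rotβ niceβ htou (fun c => (hN.lec c).symm)
    (fun c => (hN.thr c).symm) hR hX hsu fun c hc => hthr c ((hN.thr c).1 hc)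
  exact ⟨t, ρ, hN.src h1, fun Fl s a r p q w h3 h4 => h2 Fl s a r p q w (hN.ok hG hF h3 h4)⟩

end Gen

end DMap

end GT33
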