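import Pool.Agent.GT33.LocZ
import Pool.Agent.GT33.PeelR

/-!
# GT33 module PEELY: the peel theorem with a through corner hexagon in the state `(2, 0, 1, 0)`

`Gen.peelZG`: a realised state of the folded map with `ExZ` gives states of the patch.  `Gen.peelZ`: the same for
words.
-/

open Classical

namespace GT33

namespace DMap

open Patch

variable {D : Type} {M : DMap D} {A : D → Prop} {δ : ZMod 6 → D} {F : D → Prop}

/-- the state of the corner quad after moving the units -/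
def pY : PState 4 where
  m := (pZ.rot 2).m
  u i := (![1, 0, 1, 1] : Fin 4 → ℕ) i

theorem pY_ee : EE 4 pY := by
  have h : ∃ c k, (∀ i, pY.m i = (qst c k).m i) ∧ ∀ i, pY.u i = (qst c k).u i := by decide
  obtain ⟨c, k, h1, h2⟩ := h
  exact ⟨c, k, PState.ext' h1 h2⟩

theorem pY_u (i : ZMod 4) : pY.u i ≤ 1 := by
  revert i
  decide

/-- rotation of a shifted state -/
theorem LShift.rot {L : LS D} {p1 p2 m1 m2 : D} {n : ℕ} {γ : ZMod n → D} {t : PState n}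
    (h : LShift L p1 p2 m1 m2 n γ t) {c : ZMod n}
    (hL : ∀ t0 : PState n, L n γ t0 → L n (fun i => γ (i + c)) (t0.rot c)) :
    LShift L p1 p2 m1 m2 n (fun i => γ (i + c)) (t.rot c) := by
  obtain ⟨t0, h1, h2, h3⟩ := h
  refine ⟨t0.rot c, hL t0 h1, ?_, fun i => h3 (i + c)⟩
  unfold PState.rot
  rw [h2]

/-- rotation of a state -/
theorem HasState.rot' {μ : D → D} {ω : D → ℕ} {n : ℕ} {γ : ZMod n → D} {t : PState n}
    (h : HasState μ ω γ t) (c : ZMod n) : HasState μ ω (fun i => γ (i + c)) (t.rot c) := by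
  intro i
  show μ (γ (i + c)) = γ (t.m (i + c) - c + c) ∧ ω (γ (i + c)) = t.u (i + c)
  rw [sub_add_cancel]
  exact h (i + c)

namespace Gen

variable [Fintype D] {hG : M.Gen A δ} {hF : Pre M A δ F} {o : D → Bool}
  {ho : ∀ d, o (M.nx d) = !o d} {ho' : ∀ d, o (M.al d) = !o d}

theorem LiftLocF.mono {L' L'' : LS {d // ¬ FR M F d}} {Lo : LS D} {a : ZMod 6 → Bool}
    {r r' : ZMod 6 → ℕ} {p q : ℕ} {w : ZMod 6 → PState 6}
    (h : LiftLocF hG hF ho ho' L'' Lo a r r' p q w)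
    (hL : ∀ (n : ℕ) (γ : ZMod n → {d // ¬ FR M F d}) (x : PState n), L' n γ x → L'' n γ x) :
    LiftLocF hG hF ho ho' L' Lo a r r' p q w :=
  ⟨fun n γ t h1 h2 h3 h4 h5 => h.inner n γ t h1 h2 h3 h4 (hL _ _ _ h5), h.lq,
    fun e α b t h1 h2 h3 h4 h5 h6 h7 => h.lh e α b t h1 h2 h3 h4 h5 (hL _ _ _ h6) h7, h.sq,
    fun k α b t h1 h2 h3 h4 h5 h6 h7 h8 => h.sh k α b t h1 h2 h3 h4 h5 (hL _ _ _ h6) h7 h8, h.cor⟩

namespace ZPos

variable {c : ZMod 6} (h : ZPos hG hF ho ho' c)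

include h

/-- the quad of the corner hexagon is no right end -/
theorem kR {x : {d // ¬ FR M F d}} (hx : (mapF hF ho ho' hG).SameSite (kD hG hF c 2) x) :
    ¬ ZR hG hF ho ho' x := by
  rintro ⟨c', hc', hs⟩
  have h1 : KF M δ F c := (corR_iff (ho := ho) (ho' := ho') c).1 h.cor
  obtain ⟨q, hq⟩ := mapF_corQ (hG := hG) (ho := ho) (ho' := ho') (hF := hF) h1
  have h2 : (mapF hF ho ho' hG).SameSite (q 0) (hdrF hF ho ho' hG c') := by
    have h3 : (mapF hF ho ho' hG).SameSite (hdrF hF ho ho' hG (c + 1)) (kD hG hF c 2) := by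
      rw [← h.nx2]
      exact site_nx _
    rw [← hq.h1] at h3
    exact ((hq.num.same (by decide) 0 1).trans h3).trans (hx.trans hs.symm)
  obtain ⟨j, hj⟩ : QR q (hdrF hF ho ho' hG c') := (hq.num.mem_iff (by decide) _).1 h2
  rcases hq.ring_idx hj.symm with h4 | h4
  · rw [h4.2] at hc'
    exact hc'.2 h.thr.1
  · rw [h4.2] at hc'
    exact hc'.1.1 h.thr.1.2

/-- the sector across the quad is in no right end -/
theorem zR {x : {d // ¬ FR M F d}} (hx : (mapF hF ho ho' hG).SameSite (zD hG hF ho ho' c) x) :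
    ¬ ZR hG hF ho ho' x := by
  rintro ⟨c', hc', hs⟩
  have hP := hG.mapF_patch hF ho ho'
  obtain ⟨q, hq⟩ := mapF_corQ (hG := hG) (ho := ho) (ho' := ho') (hF := hF) hc'.1
  obtain ⟨j, hj⟩ : QR q (zD hG hF ho ho' c) := (hq.num.mem_iff (by decide) _).1 (by
    rw [hq.h0]
    exact hs.trans hx.symm)
  rcases z4 j with rfl | rfl | rfl | rfl
  · exact h.zr _ (hj.symm.trans hq.h0)
  · exact h.zr _ (hj.symm.trans hq.h1)
  · refine hq.node_i (c + 1) (Equiv.Perm.SameCycle.trans ?_ hq.node_c.symm)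
    rw [hj]
    exact h.zNode
  · have h3 : q 3 = (mapF hF ho ho' hG).nx.symm (hdrF hF ho ho' hG c') := by
      rw [Equiv.eq_symm_apply, ← hq.h0]
      exact hq.num.nx 3
    have h4 := hP.prev_node (c' - 1)
    rw [sub_add_cancel, ← h3, hj] at h4
    have h5 := nodes_inj hP.bd (h4.trans h.zNode.symm)
    have h6 : c' = c + 2 := by
      rw [sub_eq_iff_eq_add.1 h5]
      ring
    rw [h6, hj] at h3
    exact h.zl h3

/-- special darts are in no right end -/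
theorem ones {x : {d // ¬ FR M F d}} (hx : ZR hG hF ho ho' x) :
    one (zD hG hF ho ho' c) x = 0 ∧ one (kD hG hF c 2) x = 0 ∧ one (kD hG hF c 5) x = 0 ∧
      one (yD hG hF ho ho' c) x = 0 := by
  refine ⟨one_ne fun h1 => h.zR (by rw [h1]) hx, one_ne fun h1 => h.kR (by rw [h1]) hx,
    one_ne fun h1 => h.kR ?_ hx, one_ne fun h1 => h.zR ?_ hx⟩
  · rw [h1, h.nx5, ← h.nx2]
    exact (site_nx _).symm
  · rw [h1]
    exact site_nx_symm _

end ZPos

/-- **The peel with a through corner hexagon in the state `(2, 0, 1, 0)`.** -/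
theorem peelZG {β : (ZMod 6 → D) → Rel}
    (anti : ∀ γ F G t, M.SiteNum 6 γ → A (γ 0) → F.Le G → β γ G t → β γ F t)
    (htou : ∀ d, A d → M.deg d = 6 → ∃ j e, M.SameSite d e ∧ M.SameNode (δ j) e)
    {L T : ZMod 6 → Bool} (hL : ∀ c, L c = true ↔ lecC M δ F c)
    (hT : ∀ c, T c = true ↔ thrC M δ F c)
    {Fl' : Flags} {s' : PState 6} {μ' : {d // ¬ FR M F d} → {d // ¬ FR M F d}}
    {ω' : {d // ¬ FR M F d} → ℕ} {r' : ZMod 6 → ℕ} {c : ZMod 6}
    (hR : (mapF hF ho ho' hG).RealL ((mapF hF ho ho' hG).OL (hdrF hF ho ho' hG)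
      (fun γ => β fun i => (γ i).1) Fl') (fun y => A y.1) (hdrF hF ho ho' hG) s' μ' ω')
    (hX : ExZ hG hF ho ho' μ' ω' r' c) (hlec : ∀ c', ¬ lecC M δ F c')
    (hsu : ∀ k, s'.u k + r' (k + 1) = r' k + 1)
    (hs : ∀ k, s'.m (s'.m k) = k) (hs' : ∀ k, s'.m k ≠ k)
    (hnu : ∀ c, reC M δ F c → s'.u c ≠ 1) {l : List (ZMod 6)} (hnd : l.Nodup)
    (hl : ∀ c, c ∈ l ↔ reC M δ F c ∧ r' c = 1) (hok : FlipOK l s' r')
    (hthr : ∀ c, thrC M δ F c → (flipRs l s').u c ≠ 0) :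
    ∃ (t : ZMod 6 → PState 4) (ρ : Pt → Pt),
      SrcF M δ F Fl' (flipRs l s') L (fliprs l r') t ρ ∧
      ∀ (Fl : Flags) (s : PState 6) (a : ZMod 6 → Bool) (r : ZMod 6 → ℕ) (p q : ℕ)
        (w : ZMod 6 → PState 6), FlR M δ F Fl Fl' →
        PeelG M δ F β Fl Fl' s L T a r (fliprs l r') p q w t ρ →
        β (kc M δ c) (cflags Fl c) (wZ (w c)) →
        (∀ (α : ZMod 6 → D) (x : PState 4), M.SiteNum 6 α → A (α 0) →
          M.SameNode (δ (c + 1)) (α 0) → EE 4 x → x.u 3 = 1 → x.u 2 = 0 →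
          β α (lfl Fl (c + 1)) (lh p q (tZ x))) → Rz M A δ β Fl s := by
  have hP := hG.mapF_patch hF ho ho'
  have hZ := hX.pos hlec
  have hC := hZ.thr.1
  -- the local states before moving the units
  let Q0 : (ZMod 4 → {d // ¬ FR M F d}) → PState 4 → Prop := fun γ x => EE 4 x ∧
    (¬ ZR hG hF ho ho' (γ 0) → (mapF hF ho ho' hG).QS (hdrF hF ho ho' hG) Fl' γ x)
  have hQr : ∀ (γ : ZMod 4 → {d // ¬ FR M F d}) (x : PState 4) (c : ZMod 4),
      (mapF hF ho ho' hG).SiteNum 4 γ → Q0 γ x → Q0 (fun i => γ (i + c)) (x.rot c) :=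
    fun γ x c hγ hx => ⟨hx.1.rot c, fun hz => (hx.2 fun ⟨c', h1, h2⟩ =>
      hz ⟨c', h1, h2.trans (hγ.same (by decide) _ _)⟩).rotγ c⟩
  have hR0 : (mapF hF ho ho' hG).RealL (L4 Q0) (fun y => A y.1) (hdrF hF ho ho' hG) s' μ' ω' := by
    refine hR.mono hP.sites fun n γ x hn hγ hγA _ hx => ?_
    have h1 : n = 4 := by rw [← hγ.deg 0, hG.mapF_real hF ho ho' _ (hγA 0)]
    subst h1
    have hx : (mapF hF ho ho' hG).QS (hdrF hF ho ho' hG) Fl' γ x := hx
    exact ⟨hx.ee, fun _ => hx⟩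
  -- moving the units
  have hA2 : A (kD hG hF c 2).1 := by
    rw [kD_val hC (by decide) (by decide)]
    exact (hG.corHex hF hC.1).kA _
  have hA5 : A (kD hG hF c 5).1 := by
    rw [kD_val hC (by decide) (by decide)]
    exact (hG.corHex hF hC.1).kA _
  have hAz : A (zD hG hF ho ho' c).1 := by
    by_contra h1
    obtain ⟨i, hi⟩ := (hP.bd.mem (kD hG hF c 2)).1 ⟨hA2, h1⟩
    exact ZPos.inner (hG := hG) (hF := hF) (ho := ho) (ho' := ho') hZ.thr i (by rw [hi])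
  have hAy : A (yD hG hF ho ho' c).1 := (hP.sites.same (site_nx_symm _)).1 hAz
  have hR1 := hR0.shift hP.sites (p1 := kD hG hF c 5) (p2 := yD hG hF ho ho' c)
    (m1 := zD hG hF ho ho' c) (m2 := kD hG hF c 2) hA5 hAy hAz hA2
    (by rw [hZ.nx5]; exact hZ.zNode) ZPos.yNode.symm hX.sh
  -- flips
  let Q1 : (ZMod 4 → {d // ¬ FR M F d}) → PState 4 → Prop := fun γ x =>
    (mapF hF ho ho' hG).SiteNum 4 γ ∧ LShift (L4 Q0) (kD hG hF c 5) (yD hG hF ho ho' c)
      (zD hG hF ho ho' c) (kD hG hF c 2) 4 γ x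
  have hrotN : ∀ (n : ℕ) (γ : ZMod n → {d // ¬ FR M F d}) (c : ZMod n),
      (mapF hF ho ho' hG).SiteNum n γ → (mapF hF ho ho' hG).SiteNum n fun i => γ (i + c) := by
    intro n γ c hγ
    refine ⟨fun i j hij => add_right_cancel (hγ.inj hij), fun i => ?_⟩
    show (mapF hF ho ho' hG).nx (γ (i + c)) = γ (i + 1 + c)
    rw [hγ.nx]
    congr 1
    ring
  have hR2 : (mapF hF ho ho' hG).RealL (L4 Q1) (fun y => A y.1) (hdrF hF ho ho' hG) s' μ'
      (omZ hG hF ho ho' c ω') := by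
    refine hR1.mono hP.sites fun n γ x hn hγ hγA _ hx => ?_
    have h1 : n = 4 := by rw [← hγ.deg 0, hG.mapF_real hF ho ho' _ (hγA 0)]
    subst h1
    exact ⟨hγ, hx⟩
  have hZR : ∀ {γ : ZMod 4 → {d // ¬ FR M F d}}, (mapF hF ho ho' hG).SiteNum 4 γ →
      ZR hG hF ho ho' (γ 0) → ∀ i, ZR hG hF ho ho' (γ i) := fun hγ ⟨c', h1, h2⟩ i =>
    ⟨c', h1, h2.trans (hγ.same (by decide) _ _)⟩
  obtain ⟨μ₂, ω₂, h1, h2, h3, h4⟩ := flipG (hG := hG) (ho := ho) (ho' := ho') (hF := hF) (Q := Q1)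
    (fun γ x c' hγ _ hx => ⟨hrotN 4 γ c' hγ, hx.2.rot fun t0 h => hQr γ t0 c' hγ h⟩)
    (fun γ x hx i => by
      obtain ⟨-, t0, h1, h2, -⟩ := hx
      rw [h2]
      exact EE.inv h1.1 i)
    (fun γ x hz hx => (lshift_triv hx.2 (fun i => (hZ.ones (hZR hx.1 hz i)).1)
      (fun i => (hZ.ones (hZR hx.1 hz i)).2.1) (fun i => (hZ.ones (hZR hx.1 hz i)).2.2.1)
      fun i => (hZ.ones (hZR hx.1 hz i)).2.2.2).1)
    (fun c' q hc' _ hq => by
      have hz : ZR hG hF ho ho' (q 0) := ⟨c', hc', by rw [← hq.h0]⟩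
      exact ⟨hq.num, lshift_self (L := L4 Q0) ⟨flipP_ee, fun h => absurd hz h⟩
        (fun i => (hZ.ones (hZR hq.num hz i)).1) (fun i => (hZ.ones (hZR hq.num hz i)).2.1)
        (fun i => (hZ.ones (hZR hq.num hz i)).2.2.1)
        fun i => (hZ.ones (hZR hq.num hz i)).2.2.2⟩)
    hR2 (hX.exF hlec) hsu hs hs' hnu hnd hl hok
  -- the local states with the flips
  let Q2 : (ZMod 4 → {d // ¬ FR M F d}) → PState 4 → Prop := fun γ x =>
    Q0 γ x ∧ (ZR hG hF ho ho' (γ 0) → ∀ i, x.u i ≤ 1)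
  have hQ2r : ∀ (γ : ZMod 4 → {d // ¬ FR M F d}) (x : PState 4) (c : ZMod 4),
      (mapF hF ho ho' hG).SiteNum 4 γ → Q2 γ x → Q2 (fun i => γ (i + c)) (x.rot c) :=
    fun γ x c hγ hx => ⟨hQr γ x c hγ hx.1, fun ⟨c', k1, k2⟩ i => hx.2 ⟨c', k1,
        k2.trans (hγ.same (by decide) _ _)⟩ _⟩
  have hR3 : (mapF hF ho ho' hG).RealL (fun n γ x => LShift (L4 Q2) (kD hG hF c 5)
      (yD hG hF ho ho' c) (zD hG hF ho ho' c) (kD hG hF c 2) n γ x ∧ HasState μ₂ ω₂ γ x)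
      (fun y => A y.1) (hdrF hF ho ho' hG) (flipRs l s') μ₂ ω₂ := by
    refine h1.mono hP.sites fun n γ x hn hγ hγA hst hx => ⟨?_, hst⟩
    have h5 := L4_n hx
    subst h5
    have hx : Q1 γ x ∧ (ZR hG hF ho ho' (γ 0) → ∀ i, x.u i ≤ 1) := hx
    by_cases hz : ZR hG hF ho ho' (γ 0)
    · have h6 : L4 Q0 4 γ x := lshift_triv hx.1.2 (fun i => (hZ.ones (hZR hγ hz i)).1)
        (fun i => (hZ.ones (hZR hγ hz i)).2.1) (fun i => (hZ.ones (hZR hγ hz i)).2.2.1)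
        fun i => (hZ.ones (hZR hγ hz i)).2.2.2
      exact lshift_self (L := L4 Q2) ⟨h6, hx.2⟩ (fun i => (hZ.ones (hZR hγ hz i)).1)
        (fun i => (hZ.ones (hZR hγ hz i)).2.1) (fun i => (hZ.ones (hZR hγ hz i)).2.2.1)
        fun i => (hZ.ones (hZR hγ hz i)).2.2.2
    · obtain ⟨⟨-, t0, h6, h7, h8⟩, -⟩ := hx
      exact ⟨t0, ⟨h6, fun h => absurd h hz⟩, h7, h8⟩
  -- values at the corner hexagon
  have hkz : ∀ n : ZMod 4, ¬ ZR hG hF ho ho' (kD hG hF c (l6 n)) := fun n => hZ.kR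
    ((kD_num hC).same (by decide) 0 n)
  have hkA : ∀ n : ZMod 4, A (kD hG hF c (l6 n)).1 := fun n => by
    rw [kD_l6 hC]
    exact (hG.corHex hF hC.1).kA _
  have hval : ∀ n : ZMod 4, ω₂ (kD hG hF c (l6 n)) = pY.u n := by
    intro n
    rw [(h4 _ (hkA n) (hkz n)).2]
    have hinj := (kD_num (hG := hG) (hF := hF) (ho := ho) (ho' := ho') hC).inj
    have hzne : ∀ n : ZMod 4, kD hG hF c (l6 n) ≠ zD hG hF ho ho' c := fun n => hZ.zc hC
    have hyne : ∀ n : ZMod 4, kD hG hF c (l6 n) ≠ yD hG hF ho ho' c := fun n h5 => by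
      refine ZPos.zq (hG := hG) (hF := hF) (ho := ho) (ho' := ho') (c := c) ?_
      have h6 : (mapF hF ho ho' hG).SameSite (kD hG hF c 2) (kD hG hF c (l6 n)) :=
        (kD_num hC).same (by decide) 0 n
      rw [h5] at h6
      exact h6.trans (site_nx_symm _).symm
    rcases z4 n with rfl | rfl | rfl | rfl
    · exact hX.v2
    · rw [ExZ.vo (fun h5 => absurd (@hinj 1 3 h5) (by decide)) (hyne _) (hzne _)
        (fun h5 => absurd (@hinj 1 0 h5) (by decide))]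
      exact (hX.st 1).2
    · rw [ExZ.vo (fun h5 => absurd (@hinj 2 3 h5) (by decide)) (hyne _) (hzne _)
        (fun h5 => absurd (@hinj 2 0 h5) (by decide))]
      exact (hX.st 2).2
    · exact hX.v5 hlec
  have hval' : ∀ n : ZMod 4, μ₂ (kD hG hF c (l6 n)) = kD hG hF c (l6 (pY.m n)) := fun n => by
    rw [(h4 _ (hkA n) (hkz n)).1]
    exact (hX.st n).1
  have hQ2s : ∀ (γ : ZMod 4 → {d // ¬ FR M F d}) (x : PState 4), Q2 γ x →
      (mapF hF ho ho' hG).QS (hdrF hF ho ho' hG) Fl' γ x := fun γ x hx => by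
    by_cases hz : ZR hG hF ho ho' (γ 0)
    · exact QS.triv hx.1.1 (hx.2 hz)
    · exact hx.1.2 hz
  have hqs : QsT hG hF ho ho' Fl' (fun c => cC M δ F c) (L4 Q2) :=
    fun b x _ _ _ _ hx => hQ2s b x hx
  obtain ⟨t, ρ, h5, h6⟩ := srcH (hG := hG) (ho := ho) (ho' := ho') (hF := hF) (Fl' := Fl') htou
    hL hT hR3 h2 h3 (fun n γ x c' hγ hA hx => by
      refine ⟨hx.1.rot fun t0 h => ?_, hx.2.rot' c'⟩
      have h6 := L4_n h
      subst h6
      exact hQ2r γ t0 c' hγ h)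
    (fun n γ x hx i => by
      obtain ⟨⟨t0, h5, h6, -⟩, -⟩ := hx
      have h7 := L4_n h5
      subst h7
      rw [h6]
      exact EE.inv h5.1.1 i)
    (fun c' x hc' hx => by
      by_cases hcc : c' = c
      · subst hcc
        have h5 : x = pY := PState.ext' (fun i => by
          have h6 := (hx.2 i).1
          rw [hval'] at h6
          exact ((kD_num (ho := ho) (ho' := ho') hC).inj h6).symm) fun i => by
          rw [← (hx.2 i).2, hval]
        rw [h5]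
        exact QS.triv pY_ee pY_u
      · have hs : ∀ n : ZMod 4, ¬ M.SameSite (δ (c + 1)) (kD hG hF c' (l6 n)).1 := fun n h5 => by
          rw [kD_l6 hc'] at h5
          exact hcc (hG.cor_uniq hF hc' hC (hG.kc_same hF hc'.1 _) h5)
        refine hQ2s _ x (lshift_triv hx.1 (fun i => one_ne (hZ.zc hc')) (fun i => kD_one hC (hs i)
          (by decide) (by decide)) (fun i => kD_one hC (hs i) (by decide) (by decide))
          fun i => one_ne fun h5 => ?_)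
        refine hZ.ys hc' ?_
        rw [← h5, kD_l6 hc']
        exact hG.kc_same hF hc'.1 _) hthr
  refine ⟨t, ρ, h5, fun Fl s a r p q w hfl h hwz hlh => ?_⟩
  have B : LiftLocF hG hF ho ho' (L4 Q2) (M.OL δ β Fl) a r (fliprs l r') p q w :=
    liftLocG anti htou hqs (fun n γ x hn hγ hγA hu hx => by
      have h6 := L4_n hx
      subst h6
      by_cases hz : ZR hG hF ho ho' (γ 0)
      · exact QS.triv hx.1.1 (hx.2 hz)
      · exact QS_untR hfl hγ hγA hu hz (hx.1.2 hz)) h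
  by_cases hlob : ∃ e, F e ∧ M.SameNode (δ (c + 1)) e ∧ (zD hG hF ho ho' c).1 = M.nx.symm e
  · obtain ⟨e, he, hn, hz⟩ := hlob
    have hne : ∀ k, e ≠ δ k := by
      intro k hk
      rw [hk] at hn
      have h7 := hG.node_idx hn
      refine hZ.zs hC ?_
      rw [hz, hk, ← h7]
      exact site_nx_symm _
    have hyv : ω₂ (yD hG hF ho ho' c) = 1 := by
      rw [(h4 _ hAy (hZ.zR (site_nx_symm _))).2]
      exact hX.vy hlec
    exact h6 _ s a r p q w h.par (locL hZ he hn hz hyv B fun α b t0 he' hα h0 hb hbn ht0 h7 h8 => by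
      refine anti α _ _ _ hα (by rw [h0]; exact (hF.fs e he).1)
        (hG.resF_lfl hF (Fl := Fl) (hF.fs e he) hne hn hα h0) ?_
      exact hlh α t0 hα (by rw [h0]; exact (hF.fs e he).1) (by rw [h0]; exact hn) ht0.1.1 h7 h8)
      h.su h.port h.all
  · push Not at hlob
    have h7 := locZ hZ (fun e he hn => hlob e he hn) B
      (anti _ _ _ _ (hG.corHex hF hC.1).num ((hG.corHex hF hC.1).kA 0)
        ((hG.corHex hF hC.1).res_c Fl) hwz) (by
        rw [(h.par.wu c hC).2.1]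
        exact h.par.p1)
    obtain ⟨μ, ω, h8⟩ := h6 _ s a r p q w h.par (h7.mono fun n γ x hx => hx.1) h.su h.port h.all
    have hk : ∀ i, A (kc M δ c i) := (hG.corHex hF hC.1).kA
    obtain ⟨ω₀, -, h9⟩ := h8.unshift (hk 1) hAy hAz (hk 2) hZ.zM hZ.yM
    exact ⟨μ, ω₀, h9⟩

/-- **The peel for words with a through corner hexagon in the state `(2, 0, 1, 0)`.** -/
theorem peelZ {β : (ZMod 6 → D) → Rel}
    (anti : ∀ γ F G t, M.SiteNum 6 γ → A (γ 0) → F.Le G → β γ G t → β γ F t)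
    (htou : ∀ d, A d → M.deg d = 6 → ∃ j e, M.SameSite d e ∧ M.SameNode (δ j) e)
    {N C : ZMod 6 → Bool} (hN : NC M δ F N C)
    {Fl' : Flags} {s' : PState 6} {μ' : {d // ¬ FR M F d} → {d // ¬ FR M F d}}
    {ω' : {d // ¬ FR M F d} → ℕ} {r' : ZMod 6 → ℕ} {c : ZMod 6}
    (hR : (mapF hF ho ho' hG).RealL ((mapF hF ho ho' hG).OL (hdrF hF ho ho' hG)
      (fun γ => β fun i => (γ i).1) Fl') (fun y => A y.1) (hdrF hF ho ho' hG) s' μ' ω')
    (hX : ExZ hG hF ho ho' μ' ω' r' c) (hlec : ∀ c', lecN N C c' = false)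
    (hsu : ∀ k, s'.u k + r' (k + 1) = r' k + 1)
    (hs : ∀ k, s'.m (s'.m k) = k) (hs' : ∀ k, s'.m k ≠ k)
    (hnu : ∀ c, reN N C c = true → s'.u c ≠ 1) {l : List (ZMod 6)} (hnd : l.Nodup)
    (hl : ∀ c, c ∈ l ↔ reN N C c = true ∧ r' c = 1) (hok : FlipOK l s' r')
    (hthr : ∀ c, thrN N C c = true → (flipRs l s').u c ≠ 0) :
    ∃ (t : ZMod 6 → PState 4) (ρ : Pt → Pt),
      SrcN N C Fl' (flipRs l s') (fliprs l r') t ρ ∧
      ∀ (Fl : Flags) (s : PState 6) (a : ZMod 6 → Bool) (r : ZMod 6 → ℕ) (p q : ℕ)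
        (w : ZMod 6 → PState 6), PeelR N C Fl Fl' s a r (fliprs l r') p q w t ρ →
        BoxN M A δ β N C Fl Fl' a r (fliprs l r') p q w →
        β (kc M δ c) (cflags Fl c) (wZ (w c)) →
        (∀ (α : ZMod 6 → D) (x : PState 4), M.SiteNum 6 α → A (α 0) →
          M.SameNode (δ (c + 1)) (α 0) → EE 4 x → x.u 3 = 1 → x.u 2 = 0 →
          β α (lfl Fl (c + 1)) (lh p q (tZ x))) → Rz M A δ β Fl s := by
  obtain ⟨t, ρ, h1, h2⟩ := peelZG (hG := hG) (hF := hF) (ho := ho) (ho' := ho') anti htou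
    (fun c => (hN.lec c).symm) (fun c => (hN.thr c).symm) hR hX (fun c' h => by
      have h3 := (hN.lec c').1 h
      rw [hlec] at h3
      exact absurd h3 (by decide)) hsu hs hs'
    (fun c hc => hnu c ((hN.re c).1 hc)) hnd (fun c => by rw [hl, hN.re]) hok
    fun c hc => hthr c ((hN.thr c).1 hc)
  exact ⟨t, ρ, hN.src h1, fun Fl s a r p q w h3 h4 h5 h6 => h2 Fl s a r p q w
    (hN.okR hG hF h3 h4).1 (hN.okR hG hF h3 h4).2 h5 h6⟩

end Gen

end DMap

end GT33
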