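import Pool.Agent.GT33.ShiftZ
import Pool.Agent.GT33.PeelG
import Pool.Agent.GT33.ExS

/-!
# GT33 module PEELZ: the peel with a through corner hexagon in the state `(2, 0, 1, 0)`

`ZPos`: the positions at a folded through corner hexagon `c`.  `ExZ.exF`: after moving two units the ring of the folded
map is exact.  `Gen.locZ`, `Gen.locL`: the local states of the lift, if the sector across the quad is not in a folded
link of the ring node `c + 1`, and if it is.
-/

open Classical

namespace GT33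

namespace DMap

variable {D : Type} {M : DMap D} {A : D → Prop} {δ : ZMod 6 → D} {F : D → Prop}

open Patch

namespace Gen

variable [Fintype D] {hG : M.Gen A δ} {hF : Pre M A δ F} {o : D → Bool}
  {ho : ∀ d, o (M.nx d) = !o d} {ho' : ∀ d, o (M.al d) = !o d}

/-- the positions at the through corner hexagon `c` -/
structure ZPos (hG : M.Gen A δ) (hF : Pre M A δ F) {o : D → Bool}
    (ho : ∀ d, o (M.nx d) = !o d) (ho' : ∀ d, o (M.al d) = !o d) (c : ZMod 6) : Prop where
  thr : thrC M δ F c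
  full : full M δ F (c + 1)
  not : ¬ F (δ (c + 2))
  zv : ((mapF hF ho ho' hG).al (kD hG hF c 2)).1 = M.al (kc M δ c 2)
  zn : M.al (kc M δ c 2) ≠ M.nx.symm (M.nx.symm (δ (c + 2)))
  lec : ∀ c', ¬ lecC M δ F c'

namespace ZPos

variable {c : ZMod 6} (h : ZPos hG hF ho ho' c)

include h

theorem nx2 : (mapF hF ho ho' hG).nx (hdrF hF ho ho' hG (c + 1)) = kD hG hF c 2 := by
  have h1 : kD hG hF c (l6 3) = hdrF hF ho ho' hG (c + 1) := by
    apply Subtype.ext
    rw [kD_l6 h.thr.1, hG.hdr_c hF ho ho' h.thr.1]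
    rfl
  rw [← h1]
  exact (kD_num h.thr.1).nx 3

theorem nx5 : kD hG hF c 5 = hdrF hF ho ho' hG (c + 1) := by
  apply Subtype.ext
  rw [kD_val h.thr.1 (by decide) (by decide), hG.hdr_c hF ho ho' h.thr.1]

theorem cor : (mapF hF ho ho' hG).nx (hdrF hF ho ho' hG c) = hdrF hF ho ho' hG (c + 1) := by
  have h1 : kD hG hF c (l6 3) = hdrF hF ho ho' hG (c + 1) := by
    apply Subtype.ext
    rw [kD_l6 h.thr.1, hG.hdr_c hF ho ho' h.thr.1]
    rfl
  have h2 : kD hG hF c (l6 2) = hdrF hF ho ho' hG c := by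
    apply Subtype.ext
    rw [kD_l6 h.thr.1, hG.hdr_t hF ho ho' h.thr]
    rfl
  rw [← h1, ← h2]
  exact (kD_num h.thr.1).nx 2

omit h in
/-- the inner node of the quad of a through corner hexagon -/
theorem inner {c' : ZMod 6} (hc : thrC M δ F c') (j : ZMod 6) :
    ¬ (mapF hF ho ho' hG).SameNode (hdrF hF ho ho' hG j) (kD hG hF c' 2) := by
  have h1 : kD hG hF c' (l6 3) = hdrF hF ho ho' hG (c' + 1) := by
    apply Subtype.ext
    rw [kD_l6 hc.1, hG.hdr_c hF ho ho' hc.1]
    rfl
  have h2 : kD hG hF c' (l6 2) = hdrF hF ho ho' hG c' := by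
    apply Subtype.ext
    rw [kD_l6 hc.1, hG.hdr_t hF ho ho' hc]
    rfl
  have h3 : Cor (mapF hF ho ho' hG) (hdrF hF ho ho' hG) c' := by
    show (mapF hF ho ho' hG).nx (hdrF hF ho ho' hG c') = hdrF hF ho ho' hG (c' + 1)
    rw [← h1, ← h2]
    exact (kD_num hc.1).nx 2
  obtain ⟨q, hq⟩ := hG.mapF_exists hF ho ho' h3
  have h4 : q 2 = kD hG hF c' 2 := by
    have e1 : (mapF hF ho ho' hG).nx (q 1) = q 2 := hq.num.nx 1
    rw [← e1, hq.h1, ← h1]
    exact (kD_num hc.1).nx 3
  intro h5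
  refine hq.node_i j (h5.trans ?_)
  rw [← h4]
  exact hq.node_c.symm

/-- the node of the sector across the quad -/
theorem zNode : (mapF hF ho ho' hG).SameNode (hdrF hF ho ho' hG (c + 1))
    ((mapF hF ho ho' hG).al (kD hG hF c 2)) := by
  rw [← h.nx2]
  exact (al_node _).symm

omit h in
theorem yNode : (mapF hF ho ho' hG).SameNode (kD hG hF c 2)
    ((mapF hF ho ho' hG).nx.symm ((mapF hF ho ho' hG).al (kD hG hF c 2))) := by
  have := nx_symm_node (M := mapF hF ho ho' hG) ((mapF hF ho ho' hG).al (kD hG hF c 2))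
  rw [(mapF hF ho ho' hG).inv] at this
  exact this

/-- the node before the sector across the quad -/
theorem yNot (j : ZMod 6) : ¬ (mapF hF ho ho' hG).SameNode (hdrF hF ho ho' hG j)
    ((mapF hF ho ho' hG).nx.symm ((mapF hF ho ho' hG).al (kD hG hF c 2))) := fun h1 =>
  inner h.thr j (h1.trans yNode.symm)

theorem yM : M.SameNode ((mapF hF ho ho' hG).nx.symm ((mapF hF ho ho' hG).al (kD hG hF c 2))).1
    (kc M δ c 2) := by
  have h1 := yNode (hG := hG) (hF := hF) (ho := ho) (ho' := ho') (c := c)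
  rw [mapF_sameNode ho ho' hG hF, kD_val h.thr.1 (by decide) (by decide)] at h1
  rcases h1 with h1 | ⟨k, h1, -⟩
  · exact h1.symm
  · exfalso
    refine inner (hG := hG) (hF := hF) (ho := ho) (ho' := ho') h.thr k (hG.mapF_cls hF ho ho' ?_)
    rw [kD_val h.thr.1 (by decide) (by decide)]
    exact h1

theorem zM : M.SameNode (kc M δ c 1) ((mapF hF ho ho' hG).al (kD hG hF c 2)).1 := by
  rw [h.zv, ← show M.nx (kc M δ c 1) = kc M δ c 2 from (hG.kc_num hF h.thr.1.1).nx 1]
  exact (al_node _).symm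

omit h in
/-- the sector across the quad is not in the quad -/
theorem zq : ¬ (mapF hF ho ho' hG).SameSite (kD hG hF c 2)
    ((mapF hF ho ho' hG).al (kD hG hF c 2)) :=
  (hG.mapF_patch hF ho ho').legal.noloop _

theorem prev : ((mapF hF ho ho' hG).nx.symm (hdrF hF ho ho' hG (c + 2))).1 =
    M.nx.symm (M.nx.symm (δ (c + 2))) := by
  have e : c + 1 + 1 = c + 2 := by ring
  have h1 := hG.hdrF_full hF ho ho' h.full (by rw [e]; exact fun h1 => h.not h1.1)
  rw [e] at h1
  have h2 : ¬ FR M F (M.nx.symm (δ (c + 2))) := by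
    rw [← h1]
    exact (hdrF hF ho ho' hG (c + 2)).2
  exact last1F ho ho' hG hF (hG.toPatch.ring_prev _) h2 h1

/-- the sector across the quad is not the last one of its ring node -/
theorem zl : (mapF hF ho ho' hG).al (kD hG hF c 2) ≠
    (mapF hF ho ho' hG).nx.symm (hdrF hF ho ho' hG (c + 2)) := by
  intro h1
  have h2 := congrArg Subtype.val h1
  rw [h.zv, h.prev] at h2
  exact h.zn h2

/-- the sector across the quad is no ring dart -/
theorem zr (j : ZMod 6) : (mapF hF ho ho' hG).al (kD hG hF c 2) ≠ hdrF hF ho ho' hG j := by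
  intro h1
  have h2 := h.zNode
  rw [h1] at h2
  have hP := hG.mapF_patch hF ho ho'
  have h3 := nodes_inj hP.bd h2
  rw [← h3] at h1
  refine zq (hG := hG) (hF := hF) (ho := ho) (ho' := ho') (c := c) ?_
  rw [h1, ← h.nx2]
  exact (site_nx _).symm

/-- the sector across the quad is in no quad of a corner hexagon -/
theorem zc {c' : ZMod 6} (hc : cC M δ F c') {n : ZMod 4} :
    kD hG hF c' (l6 n) ≠ (mapF hF ho ho' hG).al (kD hG hF c 2) := by
  have ht : thrC M δ F c' := by
    by_contra h1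
    exact h.lec c' ⟨hc, fun h2 => h1 ⟨hc, h2⟩⟩
  have e3 : kD hG hF c' (l6 3) = hdrF hF ho ho' hG (c' + 1) := by
    apply Subtype.ext
    rw [kD_l6 hc, hG.hdr_c hF ho ho' hc]
    rfl
  have e2 : kD hG hF c' (l6 2) = hdrF hF ho ho' hG c' := by
    apply Subtype.ext
    rw [kD_l6 hc, hG.hdr_t hF ho ho' ht]
    rfl
  have hz4 : n = 0 ∨ n = 1 ∨ n = 2 ∨ n = 3 := by
    revert n
    decide
  intro h1
  have hP := hG.mapF_patch hF ho ho'
  rcases hz4 with rfl | rfl | rfl | rfl
  · have h2 := h.zNode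
    rw [← h1] at h2
    exact inner ht _ h2
  · have e1 : kD hG hF c' (l6 1) = (mapF hF ho ho' hG).nx.symm (hdrF hF ho ho' hG c') := by
      rw [← e2, Equiv.eq_symm_apply]
      exact (kD_num hc).nx 1
    have h2 := h.zNode
    rw [← h1, e1] at h2
    have h3 := hP.prev_node (c' - 1)
    rw [sub_add_cancel] at h3
    have h4 := nodes_inj hP.bd (h2.trans h3.symm)
    have h5 : c' = c + 2 := by
      rw [sub_eq_iff_eq_add.1 h4.symm]
      ring
    rw [e1, h5] at h1
    exact h.zl h1.symm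
  · exact h.zr _ (h1.symm.trans e2)
  · exact h.zr _ (h1.symm.trans e3)

end ZPos

/-- the units after moving -/
noncomputable def omZ (hG : M.Gen A δ) (hF : Pre M A δ F) {o : D → Bool}
    (ho : ∀ d, o (M.nx d) = !o d) (ho' : ∀ d, o (M.al d) = !o d) (c : ZMod 6)
    (ω' : {d // ¬ FR M F d} → ℕ) (d : {d // ¬ FR M F d}) : ℕ :=
  ω' d + one (kD hG hF c 5) d +
    one ((mapF hF ho ho' hG).nx.symm ((mapF hF ho ho' hG).al (kD hG hF c 2))) d -
    one ((mapF hF ho ho' hG).al (kD hG hF c 2)) d - one (kD hG hF c 2) d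

namespace ExZ

variable {c : ZMod 6} {μ' : {d // ¬ FR M F d} → {d // ¬ FR M F d}} {ω' : {d // ¬ FR M F d} → ℕ}
  {r' : ZMod 6 → ℕ} (h : ExZ hG hF ho ho' μ' ω' r' c)

include h

theorem u2 : ω' (kD hG hF c 2) = 2 := (h.st 0).2

theorem u5 : ω' (kD hG hF c 5) = 0 := (h.st 3).2

/-- the positions -/
theorem pos (hl : ∀ c', ¬ lecC M δ F c') : ZPos hG hF ho ho' c :=
  ⟨h.thr, h.full, h.not, h.zv, h.zn, hl⟩

/-- the units are moved -/
theorem sh : Sh (fun y => A y.1) (kD hG hF c 5)
    ((mapF hF ho ho' hG).nx.symm ((mapF hF ho ho' hG).al (kD hG hF c 2)))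
    ((mapF hF ho ho' hG).al (kD hG hF c 2)) (kD hG hF c 2) ω' (omZ hG hF ho ho' c ω') := by
  intro d _
  have h1 : one ((mapF hF ho ho' hG).al (kD hG hF c 2)) d + one (kD hG hF c 2) d ≤ ω' d := by
    by_cases h1 : d = (mapF hF ho ho' hG).al (kD hG hF c 2)
    · by_cases h2 : d = kD hG hF c 2
      · have h3 := h.u2
        have h4 := h.z
        rw [← h1] at h4
        rw [← h2] at h3
        omega
      · rw [one_ne h2, h1, one_self, h.z]
    · rw [one_ne h1]
      by_cases h2 : d = kD hG hF c 2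
      · rw [h2, one_self, h.u2]
        decide
      · rw [one_ne h2]
        exact Nat.zero_le _
  unfold omZ
  omega

theorem v5 (hl : ∀ c', ¬ lecC M δ F c') : omZ hG hF ho ho' c ω' (kD hG hF c 5) = 1 := by
  have hp := h.pos hl
  have h1 : kD hG hF c 5 ≠ (mapF hF ho ho' hG).nx.symm ((mapF hF ho ho' hG).al (kD hG hF c 2)) := by
    intro h1
    refine hp.yNot (c + 1) ?_
    rw [← h1, hp.nx5]
  have h2 : kD hG hF c 5 ≠ (mapF hF ho ho' hG).al (kD hG hF c 2) := by
    rw [hp.nx5]
    exact fun h2 => hp.zr _ h2.symm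
  have h3 : kD hG hF c 5 ≠ kD hG hF c 2 := by
    intro h3
    refine ZPos.inner (hG := hG) (hF := hF) (ho := ho) (ho' := ho') hp.thr (c + 1) ?_
    rw [← h3, hp.nx5]
  unfold omZ
  rw [one_self, one_ne h1, one_ne h2, one_ne h3, h.u5]

theorem v2 : omZ hG hF ho ho' c ω' (kD hG hF c 2) = 1 := by
  have h1 := h.sh (kD hG hF c 2) (by
    show A (kD hG hF c 2).1
    rw [kD_val h.thr.1 (by decide) (by decide)]
    exact (hG.corHex hF h.thr.1.1).kA _)
  have h3 : kD hG hF c 2 ≠ kD hG hF c 5 := by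
    intro h3
    have := h.u2
    rw [h3, h.u5] at this
    omega
  have h4 : kD hG hF c 2 ≠ (mapF hF ho ho' hG).al (kD hG hF c 2) := by
    intro h4
    have := h.u2
    rw [h4, h.z] at this
    omega
  have h5 : kD hG hF c 2 ≠ (mapF hF ho ho' hG).nx.symm ((mapF hF ho ho' hG).al (kD hG hF c 2)) := by
    intro h5
    have := h.u2
    rw [h5, h.yz] at this
    omega
  rw [one_self, one_ne h3, one_ne h4, one_ne h5, h.u2] at h1
  omega

theorem vz (hl : ∀ c', ¬ lecC M δ F c') :
    omZ hG hF ho ho' c ω' ((mapF hF ho ho' hG).al (kD hG hF c 2)) = 0 := by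
  have hp := h.pos hl
  unfold omZ
  rw [one_self, h.z, one_ne (x := kD hG hF c 5) (by
    rw [hp.nx5]
    exact hp.zr _), one_ne (x := (mapF hF ho ho' hG).nx.symm _) (fun h1 => by
      have := h.z
      rw [h1, h.yz] at this
      omega)]
  omega

theorem vy (hl : ∀ c', ¬ lecC M δ F c') :
    omZ hG hF ho ho' c ω' ((mapF hF ho ho' hG).nx.symm
      ((mapF hF ho ho' hG).al (kD hG hF c 2))) = 1 := by
  have hp := h.pos hl
  unfold omZ
  rw [one_self, h.yz, one_ne (x := kD hG hF c 5) (fun h1 => by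
    refine hp.yNot (c + 1) ?_
    rw [h1, hp.nx5]), one_ne (x := (mapF hF ho ho' hG).al _) (fun h1 => by
      have := h.z
      rw [← h1, h.yz] at this
      omega), one_ne (x := kD hG hF c 2) (fun h1 => by
      have := h.u2
      rw [← h1, h.yz] at this
      omega)]

omit h in
theorem vo {d : {d // ¬ FR M F d}} (h5 : d ≠ kD hG hF c 5)
    (hy : d ≠ (mapF hF ho ho' hG).nx.symm ((mapF hF ho ho' hG).al (kD hG hF c 2)))
    (hz : d ≠ (mapF hF ho ho' hG).al (kD hG hF c 2)) (h2 : d ≠ kD hG hF c 2) :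
    omZ hG hF ho ho' c ω' d = ω' d := by
  unfold omZ
  rw [one_ne h5, one_ne hy, one_ne hz, one_ne h2]
  omega

/-- **after moving the units the ring is exact** -/
theorem exF (hl : ∀ c', ¬ lecC M δ F c') : ExF hG hF ho ho' (omZ hG hF ho ho' c ω') r' := by
  have hp := h.pos hl
  have hP := hG.mapF_patch hF ho ho'
  have hnoc := fun k (hk : F (δ k)) => hG.mapF_no_corner hF ho ho' hk
  have hn1 := hnoc _ h.thr.1.2
  have hy : ∀ j, (mapF hF ho ho' hG).SameNode (hdrF hF ho ho' hG j) (hdrF hF ho ho' hG j) :=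
    fun j => Equiv.Perm.SameCycle.refl _ _
  -- darts of ring nodes
  have key : ∀ (j : ZMod 6) (d : {d // ¬ FR M F d}),
      (mapF hF ho ho' hG).SameNode (hdrF hF ho ho' hG j) d → d ≠ kD hG hF c 5 →
      d ≠ (mapF hF ho ho' hG).al (kD hG hF c 2) → omZ hG hF ho ho' c ω' d = ω' d := by
    intro j d hd h5 hz
    refine vo h5 (fun h1 => ?_) hz fun h1 => ?_
    · exact hp.yNot j (by rw [← h1]; exact hd)
    · exact ZPos.inner (hG := hG) (hF := hF) (ho := ho) (ho' := ho') hp.thr j (by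
        rw [← h1]; exact hd)
  refine ⟨h.le, fun k hk => ?_, fun k hk => ?_, fun k hk => ?_, fun k y hn hA h1 h2 => ?_⟩
  · rw [key k _ (hy k) (fun h1 => ?_) fun h1 => hp.zr k h1.symm]
    · exact h.cor k hk
    · rw [hp.nx5] at h1
      rw [hP.bd.inj h1] at hk
      exact hn1 hk
  · by_cases h1 : k = c + 1
    · rw [h1, ← hp.nx5, h.v5 hl, h.rd]
    · rw [key k _ (hy k) (fun h2 => ?_) fun h1 => hp.zr k h1.symm]
      · exact h.x1 k h1 hk
      · rw [hp.nx5] at h2
        exact h1 (hP.bd.inj h2)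
  · rw [key k _ (hP.prev_node k) (fun h1 => ?_) fun h1 => ?_]
    · exact h.x2 k hk
    · rw [hp.nx5] at h1
      have h2 := hP.prev_node k
      rw [h1] at h2
      have h3 := nodes_inj hP.bd h2
      rw [← h3] at h1
      exact hk (by rw [← h1, Equiv.apply_symm_apply])
    · have h2 := hp.zNode
      rw [← h1] at h2
      have h3 := nodes_inj hP.bd ((hP.prev_node k).trans h2.symm)
      rw [h3] at h1
      refine hp.zl ?_
      rw [← h1]
      congr 2
      ring
  · by_cases hz : y = (mapF hF ho ho' hG).al (kD hG hF c 2)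
    · rw [hz, h.vz hl]
    · rw [key k y hn (fun h5 => ?_) hz]
      · exact h.x3 k y hn hA h1 h2 hz
      · rw [h5, hp.nx5] at hn
        have h3 := nodes_inj hP.bd hn
        refine h1 ?_
        rw [h5, hp.nx5, h3]

end ExZ

end Gen

end DMap

end GT33
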