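import Pool.Agent.GT33.PartC
import Pool.Agent.GT33.PartU

/-!
# GT33 module PREB: folding an initial segment of the sectors at each ring node

`Pre M A δ F` (see GENF): at each ring node `F` is an initial segment of the fold sectors.  `mapF hF ho ho' hG`: the map in which they are folded.  It is plane, without loops and with degrees 4 and 6.
-/

open Classical

namespace GT33

namespace DMap

variable {D : Type} {M : DMap D} {A : D → Prop} {δ : ZMod 6 → D}

open Patch

/-- the condition on a removed quad: both its inner neighbours stay -/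
def OkF (M : DMap D) (δ : ZMod 6 → D) (F : D → Prop) (e : D) : Prop :=
  ∀ i, e = δ i → ¬ F (M.fs (M.nx.symm (δ i)))

namespace Gen

variable [Fintype D] (hG : M.Gen A δ) {F : D → Prop} (hF : Pre M A δ F)

include hG hF

omit [Fintype D] hG in
theorem frF_fr {d : D} (h : FR M F d) : FR M (FS M A δ) d := h.mono hF.fs

omit [Fintype D] hG in
theorem frF_not {d : D} (h : ¬ FR M (FS M A δ) d) : ¬ FR M F d := fun h1 => h (h1.mono hF.fs)

theorem root_stayF (i : ZMod 6) : ¬ FR M F (M.al (δ i)) := frF_not hF (hG.root_stay i)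

omit [Fintype D] in
theorem frF_in {d : D} (h : FR M F d) : A d := hG.fr_in (h.mono hF.fs)

/-- the removed darts of a quad at the ring -/
theorem frF_site {x : D} (h : FR M F x) {i : ZMod 6} (h4 : M.deg (δ i) = 4)
    (hs : M.SameSite (δ i) x) : F (δ i) := by
  obtain ⟨e, he, hes⟩ := fr_site' h
  have h1 := hG.fs_uniq (hF.fs _ he) (hG.fs_quad h4) (hes.trans hs.symm)
  rw [h1]
  exact he

theorem δ_stayF {i : ZMod 6} (h : ¬ F (δ i)) : ¬ FR M F (δ i) := by
  intro h1
  by_cases h4 : M.deg (δ i) = 4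
  · exact h (hG.frF_site hF h1 h4 (Equiv.Perm.SameCycle.refl _ _))
  · rcases FoldSet.cases h1 with h2 | ⟨e, h2, h3⟩ | ⟨e, -, h5, h3⟩ | ⟨e, -, h5, h3⟩
    · exact h h2
    · exact (hF.fs _ h2).2.2 i (by rw [h3, Equiv.symm_apply_apply])
    · exact h4 (by rw [h3, deg_nx, deg_nx, h5])
    · exact h4 (by rw [h3, deg_nx, deg_nx, deg_nx, h5])

/-- a removed dart at a ring node which is not in `F` -/
theorem frF_ring {g : D} {k : ZMod 6} (h : FR M F g) (hn : M.SameNode (δ k) g) (hg : ¬ F g) :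
    g = M.nx.symm (δ (k + 1)) ∧ F (δ (k + 1)) ∧ M.deg (δ (k + 1)) = 4 := by
  have hgr : Ring M δ g := ⟨k, hn⟩
  rcases FoldSet.cases h with h1 | ⟨e, h1, h2⟩ | ⟨e, h1, h4, h2⟩ | ⟨e, h1, h4, h2⟩
  · exact absurd h1 hg
  · rw [h2] at hgr
    exact absurd hgr (hG.fs1 (hF.fs _ h1))
  · rw [h2] at hgr
    exact absurd hgr (hG.fs2 (hF.fs _ h1))
  · rw [← nx_four' h4] at h2
    have h5 : M.SameSite e g := by
      rw [h2]
      exact site_nx_symm e
    rcases hG.ring_quad (hF.fs _ h1) h4 hgr h5 with h6 | ⟨i, h6, h7⟩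
    · exfalso
      rw [h6] at h2
      have := hG.ne1 (M.nx.symm e)
      rw [Equiv.apply_symm_apply] at this
      exact this h2
    · have h8 : i = k + 1 := by
        have h9 := hG.toPatch.prev_node (i - 1)
        rw [sub_add_cancel, ← h7] at h9
        rw [← hG.node_idx (h9.trans hn.symm)]
        ring
      rw [← h8]
      exact ⟨h7, h6 ▸ h1, h6 ▸ h4⟩

/-- the sector before the last sector at a ring node -/
theorem fs_prev {i : ZMod 6} (h4 : M.deg (δ i) = 4) :
    FS M A δ (M.fs (M.nx.symm (δ i))) ∧ M.SameNode (δ (i - 1)) (M.fs (M.nx.symm (δ i))) := by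
  have := hF
  have hn : M.SameNode (δ (i - 1)) (M.nx.symm (δ i)) := by
    have := hG.toPatch.prev_node (i - 1)
    rwa [sub_add_cancel] at this
  rcases hG.asec (hG.toPatch.prev_in i) hn with h5 | h5
  · exfalso
    have h7 : M.nx (δ (i - 1)) = δ (i - 1 + 1) := by
      rw [← h5, Equiv.apply_symm_apply, sub_add_cancel]
    have h8 := hG.nc _ h7
    rw [← deg_nx, h7, sub_add_cancel] at h8
    omega
  · exact ⟨h5, hn.trans (fs_node _)⟩

theorem k2F {e : D} (h : F e) (h4 : M.deg e = 4) : ¬ FR M F (M.al (M.nx (M.nx e))) :=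
  frF_not hF (hG.k2 (hF.fs _ h) h4)

theorem k3F {e : D} (h : F e) (h4 : M.deg e = 4) (hl : OkF M δ F e) :
    ¬ FR M F (M.al (M.nx.symm e)) := by
  by_cases hs : ∃ i, e = δ i
  · obtain ⟨i, rfl⟩ := hs
    obtain ⟨h5, -⟩ := hG.fs_prev hF h4
    set g := M.fs (M.nx.symm (δ i)) with hg
    have hg' : M.al (M.nx.symm (δ i)) = M.nx g := by rw [hg, nx_fs]
    rw [hg']
    intro hR
    rcases FoldSet.cases hR with h1 | ⟨e, h1, h2⟩ | ⟨e, h1, h3, h2⟩ | ⟨e, h1, h3, h2⟩
    · exact hG.fs1 h5 (hF.fs _ h1).2.1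
    · rw [← M.nx.injective h2] at h1
      exact hl i rfl h1
    · rw [M.nx.injective h2] at h5
      exact hG.fs1 (hF.fs _ h1) h5.2.1
    · rw [M.nx.injective h2] at h5
      exact hG.fs2 (hF.fs _ h1) h5.2.1
  · push Not at hs
    exact frF_not hF (hG.k3 (hF.fs _ h) h4 hs)

/-- the strand to the root -/
theorem back_strand {k : ZMod 6} {g : D} (hg : F g) (hn : M.SameNode (δ k) g) :
    DStrand M.al (fmu M F) (FR M F) g (M.al (δ k)) := by
  obtain ⟨m, hm⟩ := hn.symm.exists_nat_pow_eq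
  induction m generalizing g with
  | zero =>
    have h1 : g = δ k := by simpa using hm
    rw [h1]
    exact DStrand.last (hG.root_stayF hF k)
  | succ m ih =>
    rcases hG.asec (hF.fs _ hg).1 hn with h1 | h1
    · rw [h1]
      exact DStrand.last (hG.root_stayF hF k)
    · have h2 := hF.pre g hg h1
      have h3 := ih h2 (hn.trans (fs_node g)) (by
        rw [← hm, pow_succ, Equiv.Perm.mul_apply])
      have h4 := FoldSet.r1 (M := M) h2
      rw [nx_fs] at h4
      refine DStrand.step h4 ?_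
      have h5 := (hG.foldSetF hF).mu1 h2
      rw [nx_fs] at h5
      rw [h5]
      exact h3

/-- the strand of a dart before a folded sector -/
theorem back_strand1 {k : ZMod 6} {g : D} (hg : F g) (hn : M.SameNode (δ k) g) :
    DStrand M.al (fmu M F) (FR M F) (M.al (M.nx g)) (M.al (δ k)) := by
  refine DStrand.step (by rw [M.inv]; exact FoldSet.r1 hg) ?_
  rw [M.inv, (hG.foldSetF hF).mu1 hg]
  exact hG.back_strand hF hg hn

/-- the strand across a special quad at the end of a folded ring node -/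
theorem back_strand2 {k : ZMod 6} (h : F (δ (k + 1))) (h4 : M.deg (δ (k + 1)) = 4)
    (hf : full M δ F k) :
    DStrand M.al (fmu M F) (FR M F) (hd M δ (k + 1)) (M.al (δ k)) := by
  have h0 : hd M δ (k + 1) = M.al (M.nx (M.nx (δ (k + 1)))) := if_pos h4
  have h1 : M.SameNode (δ k) (M.nx.symm (δ (k + 1))) := hG.toPatch.prev_node k
  rw [h0]
  refine DStrand.step (by rw [M.inv]; exact FoldSet.r2 h h4) ?_
  rw [M.inv, (hG.foldSetF hF).mu2 h h4, ← nx_four' h4]
  have h2 := hG.back_strand1 hF hf (h1.trans (fs_node _))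
  rw [nx_fs, M.inv] at h2
  exact h2

section

variable {o : D → Bool} (ho : ∀ d, o (M.nx d) = !o d) (ho' : ∀ d, o (M.al d) = !o d)

omit hG hF in
/-- the folded map -/
noncomputable abbrev mapF (hF : Pre M A δ F) (ho : ∀ d, o (M.nx d) = !o d)
    (ho' : ∀ d, o (M.al d) = !o d) (hG : M.Gen A δ) : DMap {d // ¬ FR M F d} :=
  fmap (hG.foldSetF hF) ho ho'

theorem mapF_conn : (mapF hF ho ho' hG).Conn :=
  fmap_conn (hG.foldSetF hF) ho ho' hG.legal.plane.conn (hG.forest.mono hF.fs)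

theorem mapF_plane : (mapF hF ho ho' hG).Plane :=
  ⟨smooth_hom _ _ _ (hG.foldSetF hF).planar hG.legal.plane, hG.mapF_conn hF ho ho'⟩

omit hG hF in
/-- the root darts of the folded map -/
def hrootF (hF : Pre M A δ F) (hG : M.Gen A δ) (i : ZMod 6) : {d // ¬ FR M F d} :=
  ⟨M.al (δ i), hG.root_stayF hF i⟩

omit hG hF in
/-- the ring darts of the folded map -/
noncomputable def hdrF (hF : Pre M A δ F) (ho : ∀ d, o (M.nx d) = !o d)
    (ho' : ∀ d, o (M.al d) = !o d) (hG : M.Gen A δ) (k : ZMod 6) : {d // ¬ FR M F d} :=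
  (mapF hF ho ho' hG).al (hrootF hF hG (k - 1))

theorem hdrF_al (k : ZMod 6) :
    (mapF hF ho ho' hG).al (hdrF hF ho ho' hG k) = hrootF hF hG (k - 1) :=
  (mapF hF ho ho' hG).inv _

theorem hdrF_of {k : ZMod 6} {x : {d // ¬ FR M F d}}
    (h : (mapF hF ho ho' hG).al x = hrootF hF hG k) : hdrF hF ho ho' hG (k + 1) = x := by
  unfold hdrF
  rw [add_sub_cancel_right, ← h]
  exact (mapF hF ho ho' hG).inv _

/-- the ring dart after a folded sector -/
theorem hdrF_stop {k : ZMod 6} {g : D} (hn : M.SameNode (δ k) g) (hg : F (M.fs g))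
    (hk : ¬ FR M F g) : hdrF hF ho ho' hG (k + 1) = ⟨g, hk⟩ := by
  apply hG.hdrF_of hF ho ho'
  refine smooth_al _ _ _ ?_
  have h1 := hG.back_strand1 hF hg (hn.trans (fs_node _))
  rw [nx_fs, M.inv] at h1
  exact h1

/-- the ring dart of a ring node which is not folded -/
theorem hdrF_δ {k : ZMod 6} (hk : ¬ F (δ k)) :
    hdrF hF ho ho' hG (k + 1) = ⟨δ k, hG.δ_stayF hF hk⟩ := by
  apply hG.hdrF_of hF ho ho'
  exact fmap_al_of (hG.foldSetF hF) ho ho' (d := ⟨δ k, hG.δ_stayF hF hk⟩) (hG.root_stayF hF k)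

/-- the ring dart across a special quad -/
theorem hdrF_quad {k : ZMod 6} (h : F (δ (k + 1))) (h4 : M.deg (δ (k + 1)) = 4)
    (hf : full M δ F k) :
    hdrF hF ho ho' hG (k + 1) = ⟨hd M δ (k + 1), frF_not hF (hG.hd_stay _)⟩ := by
  apply hG.hdrF_of hF ho ho'
  exact smooth_al _ _ _ (hG.back_strand2 hF h h4 hf)

/-- **The ring darts of the folded map**. -/
theorem hdrF_spec (k : ZMod 6) :
    (A (hdrF hF ho ho' hG (k + 1)).1 ∧ M.SameNode (δ k) (hdrF hF ho ho' hG (k + 1)).1 ∧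
      ¬ F (hdrF hF ho ho' hG (k + 1)).1 ∧ ((hdrF hF ho ho' hG (k + 1)).1 = δ k ∨
        F (M.fs (hdrF hF ho ho' hG (k + 1)).1))) ∨
    (full M δ F k ∧ F (δ (k + 1)) ∧ M.deg (δ (k + 1)) = 4 ∧
      (hdrF hF ho ho' hG (k + 1)).1 = hd M δ (k + 1)) := by
  by_cases h0 : F (δ k)
  · have key : ∀ (m : ℕ) (g : D), F g → M.SameNode (δ k) g →
        (M.fs ^ m) (M.nx.symm (δ (k + 1))) = g →
        (∃ g', A g' ∧ M.SameNode (δ k) g' ∧ ¬ F g' ∧ F (M.fs g') ∧ ¬ FR M F g') ∨
        (full M δ F k ∧ F (δ (k + 1)) ∧ M.deg (δ (k + 1)) = 4) := by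
      intro m
      induction m with
      | zero =>
        intro g hg hn hm
        exfalso
        refine (hF.fs _ hg).2.2 (k + 1) ?_
        simpa using hm.symm
      | succ m ih =>
        intro g hg hn hm
        set g' := M.al (M.nx g) with hg'
        have hfs : M.fs g' = g := by rw [hg', fs_al, Equiv.symm_apply_apply]
        have hm' : (M.fs ^ m) (M.nx.symm (δ (k + 1))) = g' := by
          apply M.fs.injective
          rw [hfs, ← hm, add_comm m 1, pow_add, pow_one, Equiv.Perm.mul_apply]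
        have hA' : A g' := (hG.fs_inn (hF.fs _ hg)).2
        have hn' : M.SameNode (δ k) g' := hn.trans (al_node g).symm
        by_cases h1 : F g'
        · exact ih g' h1 hn' hm'
        · by_cases h2 : FR M F g'
          · right
            obtain ⟨h3, h4, h5⟩ := hG.frF_ring hF h2 hn' h1
            refine ⟨?_, h4, h5⟩
            unfold full
            rw [← h3, hfs]
            exact hg
          · left
            exact ⟨g', hA', hn', h1, by rw [hfs]; exact hg, h2⟩
    have hp : M.SameNode (M.nx.symm (δ (k + 1))) (δ k) := (hG.toPatch.prev_node k).symm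
    obtain ⟨m, hm⟩ := hp.exists_nat_pow_eq
    rcases key m (δ k) h0 (Equiv.Perm.SameCycle.refl _ _) hm with
      ⟨g', h1, h2, h3, h4, h5⟩ | ⟨h1, h2, h3⟩
    · left
      rw [hG.hdrF_stop hF ho ho' h2 h4 h5]
      exact ⟨h1, h2, h3, Or.inr h4⟩
    · right
      rw [hG.hdrF_quad hF ho ho' h2 h3 h1]
      exact ⟨h1, h2, h3, rfl⟩
  · left
    rw [hG.hdrF_δ hF ho ho' h0]
    exact ⟨hG.toPatch.inA k, Equiv.Perm.SameCycle.refl _ _, h0, Or.inl rfl⟩

theorem hdrF_A (k : ZMod 6) : A (hdrF hF ho ho' hG k).1 := by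
  have h1 := hG.hdrF_spec hF ho ho' (k - 1)
  rw [sub_add_cancel] at h1
  rcases h1 with h | h
  · exact h.1
  · rw [h.2.2.2]
    exact hG.hd_A k

theorem mapF_quad2 {e : D} (h : F e) (h4 : M.deg e = 4) (hl : OkF M δ F e) :
    (mapF hF ho ho' hG).al ⟨M.al (M.nx (M.nx e)), hG.k2F hF h h4⟩ =
      ⟨M.al (M.nx.symm e), hG.k3F hF h h4 hl⟩ := by
  refine smooth_al _ _ _ (DStrand.step (by rw [M.inv]; exact FoldSet.r2 h h4) ?_)
  rw [M.inv, (hG.foldSetF hF).mu2 h h4, ← nx_four' h4]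
  exact DStrand.last (hG.k3F hF h h4 hl)

theorem mapF_quad3 {e : D} (h : F e) (h4 : M.deg e = 4) (hl : OkF M δ F e) :
    (mapF hF ho ho' hG).al ⟨M.al (M.nx.symm e), hG.k3F hF h h4 hl⟩ =
      ⟨M.al (M.nx (M.nx e)), hG.k2F hF h h4⟩ := by
  rw [← hG.mapF_quad2 hF ho ho' h h4 hl]
  exact (mapF hF ho ho' hG).inv _

/-- the edges of the folded map -/
theorem mapF_cases (x : {d // ¬ FR M F d}) :
    (¬ FR M F (M.al x.1)) ∨ (∃ i, F (δ i) ∧ x.1 = M.al (δ i)) ∨
    (∃ i, x = hdrF hF ho ho' hG i) ∨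
    ∃ e, F e ∧ M.deg e = 4 ∧ OkF M δ F e ∧
      ((x.1 = M.al (M.nx (M.nx e)) ∧ ((mapF hF ho ho' hG).al x).1 = M.al (M.nx.symm e)) ∨
        (x.1 = M.al (M.nx.symm e) ∧ ((mapF hF ho ho' hG).al x).1 = M.al (M.nx (M.nx e)))) := by
  by_cases hR : FR M F (M.al x.1)
  · right
    rcases FoldSet.cases hR with h | ⟨e, h, h1⟩ | ⟨e, h, h4, h1⟩ | ⟨e, h, h4, h1⟩
    · left
      obtain ⟨i, hi⟩ := (hF.fs _ h).2.1
      rcases hG.asec (hF.fs _ h).1 hi with h2 | h2
      · exact ⟨i, by rw [← h2]; exact h, by rw [← h2, M.inv]⟩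
      · exfalso
        have h3 := FoldSet.r1 (M := M) (hF.pre _ h h2)
        rw [nx_fs, M.inv] at h3
        exact x.2 h3
    · right; left
      have hx : x.1 = M.al (M.nx e) := by rw [← h1, M.inv]
      obtain ⟨k, hk⟩ := (hF.fs _ h).2.1
      have hxn : M.SameNode (δ k) x.1 := by rw [hx]; exact hk.trans (al_node e).symm
      have h2 : F (M.fs x.1) := by
        rw [hx, fs_al, Equiv.symm_apply_apply]
        exact h
      exact ⟨k + 1, (hG.hdrF_stop hF ho ho' hxn h2 x.2).symm⟩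
    · right
      have hx : x.1 = M.al (M.nx (M.nx e)) := by rw [← h1, M.inv]
      by_cases hs : OkF M δ F e
      · right
        refine ⟨e, h, h4, hs, Or.inl ⟨hx, ?_⟩⟩
        have hxe : x = ⟨M.al (M.nx (M.nx e)), hG.k2F hF h h4⟩ := Subtype.ext hx
        rw [hxe, hG.mapF_quad2 hF ho ho' h h4 hs]
      · left
        unfold OkF at hs
        push Not at hs
        obtain ⟨i, rfl, hN⟩ := hs
        have ei : i - 1 + 1 = i := sub_add_cancel i 1
        refine ⟨i - 1 + 1, ?_⟩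
        rw [hG.hdrF_quad hF ho ho' (k := i - 1) (by rw [ei]; exact h) (by rw [ei]; exact h4)
          (by unfold full; rw [ei]; exact hN)]
        apply Subtype.ext
        show x.1 = hd M δ (i - 1 + 1)
        rw [ei, hx]
        exact (if_pos h4).symm
    · right; right
      have hx : x.1 = M.al (M.nx.symm e) := by rw [nx_four' h4, ← h1, M.inv]
      have hs : OkF M δ F e := by
        rintro i rfl hN
        have h7 := FoldSet.r1 (M := M) hN
        rw [nx_fs, ← hx] at h7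
        exact x.2 h7
      refine ⟨e, h, h4, hs, Or.inr ⟨hx, ?_⟩⟩
      have hxe : x = ⟨M.al (M.nx.symm e), hG.k3F hF h h4 hs⟩ := Subtype.ext hx
      rw [hxe, hG.mapF_quad3 hF ho ho' h h4 hs]
  · exact Or.inl hR

/-- no loops -/
theorem mapF_noloop (x : {d // ¬ FR M F d}) :
    ¬ (mapF hF ho ho' hG).SameSite x ((mapF hF ho ho' hG).al x) := by
  rw [fmap_sameSite]
  intro hs
  have hroot : ∀ k, ¬ M.SameSite (hrootF hF hG k).1 (hdrF hF ho ho' hG (k + 1)).1 := fun k h =>
    hG.toPatch.notA k ((hG.toPatch.sites.same h).2 (hG.hdrF_A hF ho ho' _))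
  rcases hG.mapF_cases hF ho ho' x with h | ⟨i, -, h⟩ | ⟨i, h⟩ | ⟨e, h1, h4, hl, h⟩
  · rw [fmap_al_of (hG.foldSetF hF) ho ho' h] at hs
    exact hG.nl _ hs
  · have hx : x = hrootF hF hG i := Subtype.ext h
    rw [hx] at hs
    have := hroot i
    unfold hdrF at this
    rw [add_sub_cancel_right] at this
    exact this hs
  · rw [h, hG.hdrF_al hF ho ho'] at hs
    have := hroot (i - 1)
    rw [sub_add_cancel] at this
    exact this hs.symm
  · refine hG.quad_neF hF h1 h4 ?_
    rcases h with ⟨h2, h3⟩ | ⟨h2, h3⟩ <;> rw [h2, h3] at hs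
    · exact hs
    · exact hs.symm

/-! ### degrees -/

theorem mapF_deg_eq (x : {d // ¬ FR M F d}) : (mapF hF ho ho' hG).deg x =
    (Finset.univ.filter fun d => M.SameSite x.1 d ∧ ¬ FR M F d).card := by
  have h1 := card_site (M := mapF hF ho ho' hG) x
    (Finset.univ.filter fun y => (mapF hF ho ho' hG).SameSite x y) (fun y => by simp)
  rw [← h1, ← Finset.card_map (Function.Embedding.subtype _)]
  congr 1
  ext d
  simp only [Finset.mem_map, Finset.mem_filter, Finset.mem_univ, true_and,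
    Function.Embedding.coe_subtype]
  constructor
  · rintro ⟨y, hy, rfl⟩
    exact ⟨(fmap_sameSite (hG.foldSetF hF) ho ho' x y).1 hy, y.2⟩
  · rintro ⟨h2, h3⟩
    exact ⟨⟨d, h3⟩, (fmap_sameSite (hG.foldSetF hF) ho ho' x ⟨d, h3⟩).2 h2, rfl⟩

theorem mapF_deg_fold {x : {d // ¬ FR M F d}} {e : D} (he : F e)
    (hs : M.SameSite e x.1) : M.deg e = 6 ∧ (mapF hF ho ho' hG).deg x = 4 := by
  have h6 : M.deg e = 6 := by
    rcases hG.deg46 e with h | h
    · exact absurd (fr_quad' he h hs) x.2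
    · exact h
  refine ⟨h6, ?_⟩
  rw [hG.mapF_deg_eq]
  have h1 := card_site (M := M) e (Finset.univ.filter fun d => M.SameSite e d) fun d => by simp
  have h2 : (Finset.univ.filter fun d => M.SameSite x.1 d ∧ ¬ FR M F d) =
      ((Finset.univ.filter fun d => M.SameSite e d).erase e).erase (M.nx e) := by
    ext d
    simp only [Finset.mem_erase, Finset.mem_filter, Finset.mem_univ, true_and]
    constructor
    · rintro ⟨h3, h4⟩
      exact ⟨fun h => h4 (h ▸ FoldSet.r1 he), fun h => h4 (h ▸ FoldSet.r0 he), hs.trans h3⟩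
    · rintro ⟨h3, h4, h5⟩
      exact ⟨hs.symm.trans h5, (hG.foldSetF hF).stay he (by omega) h5 h4 h3⟩
  rw [h2, Finset.card_erase_of_mem, Finset.card_erase_of_mem, h1, h6]
  · exact Finset.mem_filter.2 ⟨Finset.mem_univ _, Equiv.Perm.SameCycle.refl _ _⟩
  · simp only [Finset.mem_erase, Finset.mem_filter, Finset.mem_univ, true_and]
    exact ⟨hG.ne1 e, site_nx e⟩

theorem mapF_deg_of {x : {d // ¬ FR M F d}}
    (h : ∀ e, F e → ¬ M.SameSite e x.1) : (mapF hF ho ho' hG).deg x = M.deg x.1 := by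
  rw [hG.mapF_deg_eq, ← card_site (M := M) x.1 (Finset.univ.filter fun d => M.SameSite x.1 d)
    fun d => by simp]
  congr 1
  ext d
  simp only [Finset.mem_filter, Finset.mem_univ, true_and]
  refine ⟨fun h1 => h1.1, fun h1 => ⟨h1, fun h2 => ?_⟩⟩
  obtain ⟨e, he, hs⟩ := fr_site' h2
  exact h e he (hs.trans h1.symm)

theorem mapF_deg (x : {d // ¬ FR M F d}) :
    (mapF hF ho ho' hG).deg x = 4 ∨ (mapF hF ho ho' hG).deg x = 6 := by
  by_cases h : ∃ e, F e ∧ M.SameSite e x.1
  · obtain ⟨e, he, hs⟩ := h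
    exact Or.inl (hG.mapF_deg_fold hF ho ho' he hs).2
  · push Not at h
    rw [hG.mapF_deg_of hF ho ho' h]
    exact hG.deg46 _

end

end Gen

end DMap

end GT33
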