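import Pool.Agent.GT33.PreB

/-!
# GT33 module PREC: the folded map is legal

`Gen.mapF_legal`: for an initial segment `F` of the fold sectors at each ring node of a generic patch the folded map
`mapF hF ho ho' hG` is legal, `Gen.mapF_patch`: it is a patch with the ring darts `hdrF hF ho ho' hG i`.
-/

open Classical

namespace GT33

namespace DMap

variable {D : Type} {M : DMap D} {A : D → Prop} {δ : ZMod 6 → D}

open Patch

/-- the extension by the removed quads both of whose inner neighbours are in the set -/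
def ExtF (M : DMap D) (δ : ZMod 6 → D) (F : D → Prop) (B' : {d // ¬ FR M F d} → Prop)
    (d : D) : Prop :=
  KSt M F B' d ∨ ∃ e, F e ∧ M.deg e = 4 ∧ OkF M δ F e ∧ M.SameSite e d ∧
    KSt M F B' (M.al (M.nx (M.nx e))) ∧ KSt M F B' (M.al (M.nx.symm e))

theorem kst_notF [Finite D] {F : D → Prop} {B' : {d // ¬ FR M F d} → Prop} {e x : D} (he : F e)
    (h4 : M.deg e = 4) (hs : M.SameSite e x) : ¬ KSt M F B' x := by
  rintro ⟨y, h1, -⟩
  exact y.2 (fr_quad' he h4 (hs.trans h1))

theorem extF_sites {F : D → Prop} (B' : {d // ¬ FR M F d} → Prop) :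
    M.Sites (ExtF M δ F B') := by
  intro d
  unfold ExtF
  rw [kst_sites B' d]
  have h1 : ∀ e, M.SameSite e (M.nx d) ↔ M.SameSite e d := fun e => M.sites_site e d
  simp only [h1]

namespace Gen

variable [Fintype D] (hG : M.Gen A δ) {F : D → Prop} (hF : Pre M A δ F) {o : D → Bool}
  (ho : ∀ d, o (M.nx d) = !o d) (ho' : ∀ d, o (M.al d) = !o d)

include hG hF

theorem kst_iffF {B' : {d // ¬ FR M F d} → Prop}
    (hB' : (mapF hF ho ho' hG).Sites B') (x : {d // ¬ FR M F d}) :
    KSt M F B' x.1 ↔ B' x := by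
  constructor
  · rintro ⟨y, h1, h2⟩
    exact (hB'.same ((fmap_sameSite (hG.foldSetF hF) ho ho' x y).2 h1)).2 h2
  · intro h
    exact ⟨x, Equiv.Perm.SameCycle.refl _ _, h⟩

/-- a kept dart in the extension -/
theorem extF_kept {B' : {d // ¬ FR M F d} → Prop}
    (hB' : (mapF hF ho ho' hG).Sites B') (x : {d // ¬ FR M F d}) :
    ExtF M δ F B' x.1 ↔ B' x := by
  rw [← hG.kst_iffF hF ho ho' hB' x]
  constructor
  · rintro (h | ⟨e, h1, h2, -, h3, -⟩)
    · exact h
    · exact absurd (fr_quad' h1 h2 h3) x.2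
  · exact Or.inl

/-- a removed quad in the extension -/
theorem extF_quad {B' : {d // ¬ FR M F d} → Prop} {e x : D} (he : F e)
    (h4 : M.deg e = 4) (hs : M.SameSite e x) : ExtF M δ F B' x ↔ OkF M δ F e ∧
      KSt M F B' (M.al (M.nx (M.nx e))) ∧ KSt M F B' (M.al (M.nx.symm e)) := by
  constructor
  · rintro (h | ⟨f, h1, h2, h3, h4', h5, h6⟩)
    · exact absurd h (kst_notF he h4 hs)
    · have h7 : f = e := hG.fs_uniq (hF.fs _ he) (hF.fs _ h1) (hs.trans h4'.symm)
      subst h7
      exact ⟨h3, h5, h6⟩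
  · rintro ⟨h1, h2, h3⟩
    exact Or.inr ⟨e, he, h4, h1, hs, h2, h3⟩

omit [Fintype D] in
theorem extF_A {B' : {d // ¬ FR M F d} → Prop} (hr : ∀ x, B' x → A x.1) {d : D}
    (h : ExtF M δ F B' d) : A d := by
  rcases h with ⟨x, h1, h2⟩ | ⟨e, h1, -, -, h3, -⟩
  · exact (hG.toPatch.sites.same h1).2 (hr x h2)
  · exact (hG.toPatch.sites.same h3).1 (hF.fs _ h1).1

theorem rootF_out {B' : {d // ¬ FR M F d} → Prop} (hr : ∀ x, B' x → A x.1) (i : ZMod 6) :
    ¬ B' ((mapF hF ho ho' hG).al (hdrF hF ho ho' hG i)) := by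
  rw [hG.hdrF_al hF ho ho']
  exact fun h => hG.toPatch.notA _ (hr _ h)

/-- the opposite dart of a boundary dart of the extension -/
theorem extF_out {B' : {d // ¬ FR M F d} → Prop}
    (hB' : (mapF hF ho ho' hG).Sites B') (hr : ∀ x, B' x → A x.1)
    (x : {d // ¬ FR M F d}) (hx : BD M (ExtF M δ F B') x.1) :
    ¬ B' ((mapF hF ho ho' hG).al x) := by
  have hK : KSt M F B' x.1 := by
    rw [hG.kst_iffF hF ho ho' hB' x, ← hG.extF_kept hF ho ho' hB' x]
    exact hx.1
  rcases hG.mapF_cases hF ho ho' x with h | ⟨i, -, h⟩ | ⟨i, h⟩ | ⟨e, h1, h4, hl, h⟩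
  · rw [fmap_al_of (hG.foldSetF hF) ho ho' h, ← hG.extF_kept hF ho ho' hB']
    exact hx.2
  · exfalso
    have h1 := hG.extF_A hF hr hx.1
    rw [h] at h1
    exact hG.toPatch.notA i h1
  · rw [h]
    exact hG.rootF_out hF ho ho' hr i
  · intro h5
    have h6 := (hG.kst_iffF hF ho ho' hB' _).2 h5
    rcases h with ⟨h2, h3⟩ | ⟨h2, h3⟩
    · rw [h3] at h6
      rw [h2] at hK
      apply hx.2
      rw [h2, M.inv, hG.extF_quad hF h1 h4 ((site_nx e).trans (site_nx _))]
      exact ⟨hl, hK, h6⟩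
    · rw [h3] at h6
      rw [h2] at hK
      apply hx.2
      rw [h2, M.inv, hG.extF_quad hF h1 h4 (site_nx_symm e)]
      exact ⟨hl, h6, hK⟩

omit [Fintype D] hG hF in
/-- the first sector of a run which is not folded -/
theorem exists_stop {M : DMap D} {F : D → Prop} {s : D} {K : ℕ} (hs : ¬ F s)
    (hK : F ((M.fs)^[K] s)) : ∃ j < K, ¬ F ((M.fs)^[j] s) ∧ F ((M.fs)^[j + 1] s) := by
  induction K with
  | zero => exact absurd hK hs
  | succ K ih =>
    by_cases h : F ((M.fs)^[K] s)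
    · obtain ⟨j, h1, h2, h3⟩ := ih h
      exact ⟨j, by omega, h2, h3⟩
    · exact ⟨K, by omega, h, hK⟩

/-- the boundary darts of a set of sites of the folded map and of its extension -/
theorem cut_leF {B' : {d // ¬ FR M F d} → Prop}
    (hB' : (mapF hF ho ho' hG).Sites B') (hr : ∀ x, B' x → A x.1) :
    M.cut (ExtF M δ F B') ≤
      (mapF hF ho ho' hG).cut B' + 2 * (ofF M F (ExtF M δ F B')).card := by
  have hEA : ∀ d, ExtF M δ F B' d → A d := fun d => hG.extF_A hF hr
  have hes := extF_sites (M := M) (δ := δ) B'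
  set Z := ExtF M δ F B' with hZ
  -- the images
  have key : ∀ d, BD M Z d → ¬ F (M.nx.symm d) → ¬ F (M.nx.symm (bn M Z d)) →
      ∃ x : {d // ¬ FR M F d}, B' x ∧ ¬ B' ((mapF hF ho ho' hG).al x) ∧ (¬ F d → x.1 = d) ∧
        (F d → ∃ k, M.SameNode (δ k) d ∧ x = hdrF hF ho ho' hG (k + 1) ∧
          ∃ a : ℕ, 0 < a ∧ (M.fs)^[a] x.1 = d ∧ ∀ j ≤ a, Z ((M.fs)^[j] x.1)) := by
    intro d hd h1 h2
    by_cases hFd : F d
    · obtain ⟨-, K, hK, hall⟩ := bn_spec hes hd
      obtain ⟨j, hj, h3, h4⟩ := exists_stop h2 (by rw [hK]; exact hFd)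
      set s := M.nx.symm (bn M Z d) with hs
      set g := (M.fs)^[j] s with hg
      obtain ⟨k, hk⟩ := (hF.fs _ hFd).2.1
      have hgd : (M.fs)^[K - j] g = d := by
        rw [hg, ← Function.iterate_add_apply, Nat.sub_add_cancel hj.le, hK]
      have hgn : M.SameNode (δ k) g := by
        refine hk.trans (Equiv.Perm.SameCycle.symm ⟨((K - j : ℕ) : ℤ), ?_⟩)
        rw [zpow_natCast, Equiv.Perm.coe_pow, hgd]
      have hfg : F (M.fs g) := by
        rw [hg, ← Function.iterate_succ_apply' (M.fs : D → D) j s]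
        exact h4
      have hZg : ∀ i ≤ K - j, Z ((M.fs)^[i] g) := fun i hi => by
        rw [hg, ← Function.iterate_add_apply]
        exact hall _ (by omega)
      have hgk : ¬ FR M F g := by
        intro h5
        obtain ⟨h6, h7, h8⟩ := hG.frF_ring hF h5 hgn h3
        have h9 : Z (δ (k + 1)) := by
          have := hZg 0 (Nat.zero_le _)
          rw [Function.iterate_zero, id_eq, h6] at this
          exact (hes.same (site_nx_symm _)).2 this
        rw [hZ, hG.extF_quad hF h7 h8 (Equiv.Perm.SameCycle.refl _ _)] at h9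
        refine h9.1 (k + 1) rfl ?_
        rw [← h6]
        exact hfg
      have hst := hG.hdrF_stop hF ho ho' hgn hfg hgk
      refine ⟨⟨g, hgk⟩, ?_, ?_, fun h => absurd hFd h, fun _ => ⟨k, hk, hst.symm, K - j, by omega,
        hgd, hZg⟩⟩
      · exact (hG.extF_kept hF ho ho' hB' ⟨g, hgk⟩).1 (hZg 0 (Nat.zero_le _))
      · rw [← hst]
        exact hG.rootF_out hF ho ho' hr (k + 1)
    · have hdk : ¬ FR M F d := by
        intro h
        rcases FoldSet.cases h with h3 | ⟨e, h3, rfl⟩ | ⟨e, h3, h4, rfl⟩ | ⟨e, h3, h4, rfl⟩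
        · exact hFd h3
        · rw [Equiv.symm_apply_apply] at h1
          exact h1 h3
        · have h5 := hd.1
          rw [hZ, hG.extF_quad hF h3 h4 ((site_nx e).trans (site_nx _))] at h5
          exact hd.2 (Or.inl h5.2.1)
        · have h5 := hd.1
          rw [hZ, hG.extF_quad hF h3 h4 (((site_nx e).trans (site_nx _)).trans (site_nx _)),
            nx_four' h4] at h5
          exact hd.2 (Or.inl h5.2.2)
      exact ⟨⟨d, hdk⟩, (hG.extF_kept hF ho ho' hB' ⟨d, hdk⟩).1 hd.1,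
        hG.extF_out hF ho ho' hB' hr ⟨d, hdk⟩ hd, fun _ => rfl, fun h => absurd h hFd⟩
  choose φ hφ using key
  let S := Finset.univ.filter fun d => BD M Z d
  let X := S.filter fun d => ¬ F (M.nx.symm d) ∧ ¬ F (M.nx.symm (bn M Z d))
  let Y := S.filter fun d => F (M.nx.symm (bn M Z d))
  have c0 : M.cut Z = S.card := by rw [cut_card]
  have c1 : S ⊆ X ∪ (ofF M F Z ∪ Y) := by
    intro d hd
    have hd' := hd
    simp only [S, Finset.mem_filter, Finset.mem_univ, true_and] at hd'
    simp only [X, Y, Finset.mem_union, Finset.mem_filter, mem_ofF]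
    by_cases h1 : F (M.nx.symm d)
    · exact Or.inr (Or.inl ⟨hd', h1⟩)
    · by_cases h2 : F (M.nx.symm (bn M Z d))
      · exact Or.inr (Or.inr ⟨hd, h2⟩)
      · exact Or.inl ⟨hd, h1, h2⟩
  have c2 : Y.card ≤ (ofF M F Z).card := by
    refine Finset.card_le_card_of_injOn (bn M Z) (fun d hd => ?_) fun d hd e he h => ?_
    · simp only [Y, S, Finset.coe_filter, Finset.mem_filter, Finset.mem_univ, true_and,
        Set.mem_ofPred_eq] at hd
      exact mem_ofF.2 ⟨bn_bd hes hd.1, hd.2⟩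
    · simp only [Y, S, Finset.coe_filter, Finset.mem_filter, Finset.mem_univ, true_and,
        Set.mem_ofPred_eq] at hd he
      exact bn_inj hes hd.1 he.1 h
  have c3 : X.card ≤ (mapF hF ho ho' hG).cut B' := by
    have hX : ∀ d : {d // d ∈ X}, BD M Z d.1 ∧ ¬ F (M.nx.symm d.1) ∧
        ¬ F (M.nx.symm (bn M Z d.1)) := by
      rintro ⟨d, hd⟩
      simpa [X, S] using hd
    have e1 : X.card = Nat.card {d // d ∈ X} := by
      rw [Nat.card_eq_fintype_card, Fintype.card_coe]
    rw [e1]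
    unfold DMap.cut
    refine Nat.card_le_card_of_injective
      (fun d => (⟨φ d.1 (hX d).1 (hX d).2.1 (hX d).2.2, (hφ d.1 (hX d).1 (hX d).2.1
        (hX d).2.2).1, (hφ d.1 (hX d).1 (hX d).2.1 (hX d).2.2).2.1⟩ :
        {x // B' x ∧ ¬ B' ((mapF hF ho ho' hG).al x)})) ?_
    intro d e hde
    have h1 := congrArg Subtype.val hde
    simp only at h1
    obtain ⟨-, -, d1, d2⟩ := hφ d.1 (hX d).1 (hX d).2.1 (hX d).2.2
    obtain ⟨-, -, e1, e2⟩ := hφ e.1 (hX e).1 (hX e).2.1 (hX e).2.2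
    rw [← h1] at e1 e2
    set x := φ d.1 (hX d).1 (hX d).2.1 (hX d).2.2
    have stop : ∀ {d e : D} {a b : ℕ}, (M.fs)^[a] x.1 = d → BD M Z d →
        (∀ j ≤ b, Z ((M.fs)^[j] x.1)) → a < b → False := by
      intro d e a b h2 h3 h4 h5
      have h6 := h4 (a + 1) h5
      rw [Function.iterate_succ_apply', h2] at h6
      exact h3.2 ((sites_fs hes d).1 h6)
    apply Subtype.ext
    by_cases f1 : F d.1 <;> by_cases f2 : F e.1
    · obtain ⟨-, -, -, a, ha, ha1, ha2⟩ := d2 f1
      obtain ⟨-, -, -, b, hb, hb1, hb2⟩ := e2 f2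
      rcases Nat.lt_trichotomy a b with h3 | h3 | h3
      · exact (stop (e := d.1) ha1 (hX d).1 hb2 h3).elim
      · subst h3
        exact ha1.symm.trans hb1
      · exact (stop (e := d.1) hb1 (hX e).1 ha2 h3).elim
    · obtain ⟨-, -, -, a, ha, ha1, ha2⟩ := d2 f1
      exact (stop (e := d.1) (a := 0) (e1 f2) (hX e).1 ha2 ha).elim
    · obtain ⟨-, -, -, b, hb, hb1, hb2⟩ := e2 f2
      exact (stop (e := d.1) (a := 0) (d1 f1) (hX d).1 hb2 hb).elim
    · rw [← d1 f1, ← e1 f2]
  have := Finset.card_le_card c1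
  have := Finset.card_union_le X (ofF M F Z ∪ Y)
  have := Finset.card_union_le (ofF M F Z) Y
  omega

/-- the extension of a connected set is connected -/
theorem extF_conn {B' : {d // ¬ FR M F d} → Prop}
    (hB' : (mapF hF ho ho' hG).Sites B') (hr : ∀ x, B' x → A x.1)
    (hc : ConnS (mapF hF ho ho' hG) B') : ConnS M (ExtF M δ F B') := by
  intro U hU hUs ⟨u, hu⟩ hcl
  have hes := extF_sites (M := M) (δ := δ) B'
  have h1 := hc (fun x => U x.1) (sites_fmap (hG.foldSetF hF) ho ho' hU)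
    (fun x hx => (hG.extF_kept hF ho ho' hB' x).1 (hUs _ hx)) ?_ ?_
  · rintro d (⟨x, h2, h3⟩ | ⟨e, he, h4, hl, hs, h5, h6⟩)
    · exact (hU.same h2).2 (h1 x h3)
    · have h7 : U (M.al (M.nx (M.nx e))) :=
        h1 ⟨_, hG.k2F hF he h4⟩ ((hG.kst_iffF hF ho ho' hB' ⟨_, hG.k2F hF he h4⟩).1 h5)
      have h8 := hcl _ h7 (by
        rw [M.inv, hG.extF_quad hF he h4 ((site_nx e).trans (site_nx _))]
        exact ⟨hl, h5, h6⟩)
      rw [M.inv] at h8
      exact (hU.same (((site_nx e).trans (site_nx _)).symm.trans hs)).1 h8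
  · rcases hUs u hu with ⟨x, h2, h3⟩ | ⟨e, he, h4, hl, hs, h5, h6⟩
    · exact ⟨x, (hU.same h2).1 hu⟩
    · refine ⟨⟨_, hG.k2F hF he h4⟩, hcl _ ((hU.same (hs.symm.trans
        ((site_nx e).trans (site_nx _)))).1 hu) ?_⟩
      exact Or.inl h5
  · intro x hx hx'
    have hxZ : ExtF M δ F B' x.1 := hUs _ hx
    have hxB := (hG.extF_kept hF ho ho' hB' x).1 hxZ
    have hyZ := (hG.extF_kept hF ho ho' hB' _).2 hx'
    rcases hG.mapF_cases hF ho ho' x with h | ⟨i, -, h⟩ | ⟨i, h⟩ | ⟨e, he, h4, hl, h⟩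
    · rw [fmap_al_of (hG.foldSetF hF) ho ho' h] at hyZ ⊢
      exact hcl _ hx hyZ
    · exfalso
      have h1 := hr _ hxB
      rw [h] at h1
      exact hG.toPatch.notA i h1
    · rw [h] at hx'
      exact absurd hx' (hG.rootF_out hF ho ho' hr i)
    · have hK1 := (hG.kst_iffF hF ho ho' hB' _).2 hxB
      have hK2 := (hG.kst_iffF hF ho ho' hB' _).2 hx'
      rcases h with ⟨h2, h3⟩ | ⟨h2, h3⟩
      · rw [h2] at hK1
        rw [h3] at hK2
        have hZ : ∀ y, M.SameSite e y → ExtF M δ F B' y := fun y hy => by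
          rw [hG.extF_quad hF he h4 hy]
          exact ⟨hl, hK1, hK2⟩
        have hx2 : U (M.al (M.nx (M.nx e))) := by rw [← h2]; exact hx
        have h5 := hcl _ hx2 (by rw [M.inv]; exact hZ _ ((site_nx e).trans (site_nx _)))
        rw [M.inv] at h5
        have h6 : U (M.nx.symm e) :=
          (hU.same (((site_nx e).trans (site_nx _)).symm.trans (site_nx_symm e))).1 h5
        rw [h3]
        exact hcl _ h6 (Or.inl hK2)
      · rw [h2] at hK1
        rw [h3] at hK2
        have hZ : ∀ y, M.SameSite e y → ExtF M δ F B' y := fun y hy => by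
          rw [hG.extF_quad hF he h4 hy]
          exact ⟨hl, hK2, hK1⟩
        have hx2 : U (M.al (M.nx.symm e)) := by rw [← h2]; exact hx
        have h5 := hcl _ hx2 (by rw [M.inv]; exact hZ _ (site_nx_symm e))
        rw [M.inv] at h5
        have h6 : U (M.nx (M.nx e)) :=
          (hU.same ((site_nx_symm e).symm.trans ((site_nx e).trans (site_nx _)))).1 h5
        rw [h3]
        exact hcl _ h6 (Or.inl hK2)

/-- two quads -/
theorem extF_two {B' : {d // ¬ FR M F d} → Prop}
    (hB' : (mapF hF ho ho' hG).Sites B') (hr : ∀ x, B' x → A x.1) {p q : D}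
    (hp : M.deg p = 4) (hq : M.deg q = 4)
    (hpq : ∀ x, ExtF M δ F B' x ↔ M.SameSite p x ∨ M.SameSite q x) :
    M.cut (ExtF M δ F B') ≤ (mapF hF ho ho' hG).cut B' := by
  have hdeg : ∀ x, ExtF M δ F B' x → M.deg x = 4 := by
    intro x hx
    rcases (hpq x).1 hx with h | h
    · rw [← deg_same h, hp]
    · rw [← deg_same h, hq]
  have hkept : ∀ x, ExtF M δ F B' x → ¬ FR M F x := by
    intro x hx hR
    obtain ⟨e, he, hs⟩ := fr_site' hR
    have h4 : M.deg e = 4 := by rw [deg_same hs]; exact hdeg x hx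
    have h1 := hx
    rw [hG.extF_quad hF he h4 hs] at h1
    obtain ⟨hl, h2, h3⟩ := h1
    have e1 : M.SameSite e (M.nx (M.nx e)) := (site_nx e).trans (site_nx _)
    have e2 := site_nx_symm (M := M) e
    have n1 : ¬ M.SameSite e (M.al (M.nx (M.nx e))) := fun h => hG.nl _ (e1.symm.trans h)
    have n2 : ¬ M.SameSite e (M.al (M.nx.symm e)) := fun h => hG.nl _ (e2.symm.trans h)
    have h5 := (hpq _).1 (Or.inl h2)
    have h6 := (hpq _).1 (Or.inl h3)
    have h7 := (hpq x).1 hx
    refine hG.quad_neF hF he h4 ?_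
    rcases h7 with h7 | h7 <;> rcases h5 with h5 | h5 <;> rcases h6 with h6 | h6
    · exact absurd ((hs.trans h7.symm).trans h5) n1
    · exact absurd ((hs.trans h7.symm).trans h5) n1
    · exact absurd ((hs.trans h7.symm).trans h6) n2
    · exact h5.symm.trans h6
    · exact h5.symm.trans h6
    · exact absurd ((hs.trans h7.symm).trans h6) n2
    · exact absurd ((hs.trans h7.symm).trans h5) n1
    · exact absurd ((hs.trans h7.symm).trans h5) n1
  unfold DMap.cut
  refine Nat.card_le_card_of_injective (fun d : {d // ExtF M δ F B' d ∧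
    ¬ ExtF M δ F B' (M.al d)} => (⟨⟨d.1, hkept _ d.2.1⟩,
      (hG.extF_kept hF ho ho' hB' ⟨d.1, hkept _ d.2.1⟩).1 d.2.1,
      hG.extF_out hF ho ho' hB' hr ⟨d.1, hkept _ d.2.1⟩ d.2⟩ :
      {x // B' x ∧ ¬ B' ((mapF hF ho ho' hG).al x)})) ?_
  intro d d' hdd
  exact Subtype.ext (congrArg (fun z => z.1.1) hdd)

/-- **Cuts of the folded map**. -/
theorem mapF_cut (m : ℕ) : ∀ B' : {d // ¬ FR M F d} → Prop,
    (Finset.univ.filter fun x => B' x).card = m → (mapF hF ho ho' hG).Sites B' →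
    (∀ x, B' x → A x.1) → (∃ x, B' x) → 4 ≤ (mapF hF ho ho' hG).cut B' ∧
      ((mapF hF ho ho' hG).cut B' = 4 → ∃ x, ∀ y, B' y ↔ (mapF hF ho ho' hG).SameSite x y) := by
  induction m using Nat.strong_induction_on with
  | _ m ih =>
  intro B' hm hB' hr hne
  by_cases hc : ConnS (mapF hF ho ho' hG) B'
  · have h1 := hG.cut_leF hF ho ho' hB' hr
    have h2 := hG.extF_conn hF ho ho' hB' hr hc
    have hes := extF_sites (M := M) (δ := δ) B'
    have hEA : ∀ d, ExtF M δ F B' d → A d := fun d => hG.extF_A hF hr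
    obtain ⟨x, hx⟩ := hne
    have hxZ := (hG.extF_kept hF ho ho' hB' x).2 hx
    have single : (∃ q, ∀ e, ExtF M δ F B' e ↔ M.SameSite q e) →
        4 ≤ (mapF hF ho ho' hG).cut B' ∧ ((mapF hF ho ho' hG).cut B' = 4 →
          ∃ x, ∀ y, B' y ↔ (mapF hF ho ho' hG).SameSite x y) := by
      rintro ⟨q, hq⟩
      have h3 : ∀ y, B' y ↔ (mapF hF ho ho' hG).SameSite x y := by
        intro y
        constructor
        · intro hy
          rw [fmap_sameSite]
          exact ((hq _).1 hxZ).symm.trans ((hq _).1 ((hG.extF_kept hF ho ho' hB' y).2 hy))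
        · intro hy
          exact (hB'.same hy).1 hx
      refine ⟨?_, fun _ => ⟨x, h3⟩⟩
      rw [cut_congr h3, cut_site_of (hG.mapF_noloop hF ho ho')]
      rcases hG.mapF_deg hF ho ho' x with h4 | h4 <;> omega
    by_cases h5 : (mapF hF ho ho' hG).cut B' ≤ 5
    · have h0 : M.cut (ExtF M δ F B') ≤ 4 + 2 * (ofF M F (ExtF M δ F B')).card := by
        obtain ⟨k, hk⟩ := hG.legal.cut_even hes
        omega
      rcases hG.cutF_conn hF _ (ExtF M δ F B') rfl hes hEA ⟨x.1, hxZ⟩ h2 h0 with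
        h | ⟨p, q, hp, hq, hpq⟩
      · exact single h
      · have h6 := hG.extF_two hF ho ho' hB' hr hp hq hpq
        have h7 := hG.ge4 hes hEA ⟨x.1, hxZ⟩
        obtain ⟨k, hk⟩ := hG.legal.cut_even hes
        by_cases h8 : M.cut (ExtF M δ F B') = 4
        · by_cases hA : ∃ d, A d ∧ ¬ ExtF M δ F B' d
          · obtain ⟨z, -, hz⟩ := hG.four hes hEA hA h8
            exact single ⟨z, hz⟩
          · exfalso
            push Not at hA
            have h9 := hG.toPatch.cut
            rw [cut_congr (A := A) fun d => ⟨fun h => hA d h, fun h => hEA d h⟩] at h9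
            omega
        · exact ⟨by omega, fun h => by omega⟩
    · exact ⟨by omega, fun h => by omega⟩
  · unfold ConnS at hc
    push Not at hc
    obtain ⟨T, hT, hTB, hTne, hTc, z, hz, hzT⟩ := hc
    have h1 : (mapF hF ho ho' hG).cut B' =
        (mapF hF ho ho' hG).cut T + (mapF hF ho ho' hG).cut fun x => B' x ∧ ¬ T x := by
      rw [← cut_or (M := mapF hF ho ho' hG) (A := T) (B := fun x => B' x ∧ ¬ T x)
        (fun d h1 h2 => h2.2 h1) (fun d h1 h2 => h2.2 (hTc d h1 h2.1))]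
      refine cut_congr fun d => ?_
      have := hTB d
      tauto
    obtain ⟨t, ht⟩ := hTne
    have c1 : (Finset.univ.filter fun x => T x).card < m := by
      rw [← hm]
      refine Finset.card_lt_card ?_
      rw [Finset.ssubset_iff_of_subset]
      · exact ⟨z, by simp [hz], by simp [hzT]⟩
      · intro y hy
        simp only [Finset.mem_filter, Finset.mem_univ, true_and] at hy ⊢
        exact hTB y hy
    have c2 : (Finset.univ.filter fun x => B' x ∧ ¬ T x).card < m := by
      rw [← hm]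
      refine Finset.card_lt_card ?_
      rw [Finset.ssubset_iff_of_subset]
      · exact ⟨t, by simp [hTB t ht], by simp [ht]⟩
      · intro y hy
        simp only [Finset.mem_filter, Finset.mem_univ, true_and] at hy ⊢
        exact hy.1
    have h2 := (ih _ c1 T (by congr) hT (fun x hx => hr x (hTB x hx)) ⟨t, ht⟩).1
    have h3 := (ih _ c2 (fun x => B' x ∧ ¬ T x) (by congr) (hB'.and hT.not)
      (fun x hx => hr x hx.1) ⟨z, hz, hzT⟩).1
    exact ⟨by omega, fun h => by omega⟩

theorem mapF_nx_root (i : ZMod 6) :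
    (mapF hF ho ho' hG).nx (hrootF hF hG (i + 1)) = hrootF hF hG i := by
  have h1 := hG.toPatch.root_nx i
  have h2 : ¬ FR M F (M.nx (hrootF hF hG (i + 1)).1) := by
    show ¬ FR M F (M.nx (M.al (δ (i + 1))))
    rw [h1]
    exact hG.root_stayF hF i
  rw [fmap_nx_of (hG.foldSetF hF) ho ho' h2]
  exact Subtype.ext h1

theorem mapF_root_iff (e : {d // ¬ FR M F d}) :
    ¬ A e.1 ↔ (mapF hF ho ho' hG).SameSite (hrootF hF hG 0) e := by
  rw [fmap_sameSite]
  obtain ⟨r, hr⟩ := hG.root
  have h0 := (hr _).1 (hG.toPatch.notA 0)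
  rw [hr]
  exact ⟨fun h => h0.symm.trans h, fun h => h0.trans h⟩

/-- **The folded map is legal**. -/
theorem mapF_legal : (mapF hF ho ho' hG).Legal := by
  have key : ∀ B' : {d // ¬ FR M F d} → Prop, (mapF hF ho ho' hG).Sites B' →
      (∃ x, B' x) → (∃ x, ¬ B' x) → 4 ≤ (mapF hF ho ho' hG).cut B' ∧
        ((mapF hF ho ho' hG).cut B' = 4 → (∃ x, ∀ y, B' y ↔ (mapF hF ho ho' hG).SameSite x y) ∨
          ∃ x, ∀ y, ¬ B' y ↔ (mapF hF ho ho' hG).SameSite x y) := by
    intro B' hB h1 h2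
    by_cases h3 : B' (hrootF hF hG 0)
    · have h4 : ∀ x, ¬ B' x → A x.1 := by
        intro x hx
        by_contra h5
        exact hx ((hB.same ((hG.mapF_root_iff hF ho ho' x).1 h5)).1 h3)
      have h5 := hG.mapF_cut hF ho ho' _ (fun x => ¬ B' x) rfl (fun x => not_congr (hB x)) h4 h2
      rw [cut_not] at h5
      exact ⟨h5.1, fun h6 => Or.inr (h5.2 h6)⟩
    · have h4 : ∀ x, B' x → A x.1 := by
        intro x hx
        by_contra h5
        exact h3 ((hB.same ((hG.mapF_root_iff hF ho ho' x).1 h5)).2 hx)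
      have h5 := hG.mapF_cut hF ho ho' _ B' rfl hB h4 h1
      exact ⟨h5.1, fun h6 => Or.inl (h5.2 h6)⟩
  refine ⟨hG.mapF_plane hF ho ho', hG.mapF_noloop hF ho ho', fun B' hB h1 h2 => (key B' hB h1 h2).1,
    fun B' hB h => ?_, hG.mapF_deg hF ho ho'⟩
  by_cases h1 : ∃ x, B' x
  · by_cases h2 : ∃ x, ¬ B' x
    · exact (key B' hB h1 h2).2 h
    · exfalso
      push Not at h2
      have h3 : (mapF hF ho ho' hG).cut B' = 0 := by
        unfold DMap.cut
        rw [Nat.card_eq_zero]
        exact Or.inl ⟨fun x => x.2.2 (h2 _)⟩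
      omega
  · exfalso
    push Not at h1
    have h3 : (mapF hF ho ho' hG).cut B' = 0 := by
      unfold DMap.cut
      rw [Nat.card_eq_zero]
      exact Or.inl ⟨fun x => h1 _ x.2.1⟩
    omega

/-- **The folded map is a patch**. -/
theorem mapF_patch : (mapF hF ho ho' hG).Patch (fun x => A x.1) (hdrF hF ho ho' hG) :=
  (hG.mapF_legal hF ho ho').patch (A := fun x => A x.1)
    (r := fun i => hrootF hF hG (i - 1))
    (fun i => by
      have := hG.mapF_nx_root hF ho ho' (i - 1)
      rw [sub_add_cancel] at this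
      rw [add_sub_cancel_right]
      exact this)
    (fun i j hij => by
      have h2 : M.al (δ (i - 1)) = M.al (δ (j - 1)) := congrArg Subtype.val hij
      have h3 := hG.bd.inj (M.al_inj h2)
      exact sub_left_injective h3)
    (fun e => by
      rw [hG.mapF_root_iff hF ho ho']
      have h2 : (mapF hF ho ho' hG).SameSite (hrootF hF hG 0) (hrootF hF hG (0 - 1)) := by
        rw [← hG.mapF_root_iff hF ho ho']
        exact hG.toPatch.notA _
      exact ⟨fun h => h2.symm.trans h, fun h => h2.trans h⟩)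

end Gen

end DMap

end GT33
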