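import Pool.Agent.GT33.PartV

/-!
# GT33 module PRED: ring nodes of the folded map

`Gen.mapF_ring`: the ring node `j` is in the ring node `j + 1` of the folded map.
-/

open Classical

namespace GT33

namespace DMap

variable {D : Type} {M : DMap D} {A : D → Prop} {δ : ZMod 6 → D}

open Patch

namespace Gen

variable [Fintype D] (hG : M.Gen A δ) {F : D → Prop} (hF : Pre M A δ F) {o : D → Bool}
  (ho : ∀ d, o (M.nx d) = !o d) (ho' : ∀ d, o (M.al d) = !o d)

include hG hF

/-- a fold sector at each ring node which is not a corner -/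
theorem fs_at {k : ZMod 6} {g : D} (hg : A g) (hn : M.SameNode (δ k) g)
    (hne : g ≠ M.nx.symm (δ (k + 1))) : FS M A δ g := by
  have := hF
  refine ⟨hg, ⟨k, hn⟩, fun i hi => hne ?_⟩
  have h1 := hG.toPatch.prev_node (i - 1)
  rw [sub_add_cancel, ← hi] at h1
  have h2 := hG.node_idx (h1.trans hn.symm)
  rw [hi, ← h2, sub_add_cancel]

/-- the ring nodes of the patch are in ring nodes of the folded map -/
theorem mapF_ring {j : ZMod 6} (x : {d // ¬ FR M F d}) (hx : M.SameNode (δ j) x.1) :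
    (mapF hF ho ho' hG).SameNode (hdrF hF ho ho' hG (j + 1)) x := by
  rw [mapF_sameNode ho ho' hG hF]
  rcases hG.hdrF_spec hF ho ho' j with ⟨-, h, -⟩ | ⟨-, h2, h3, h4⟩
  · exact Or.inl (h.symm.trans hx)
  · right
    refine ⟨j + 1, ⟨δ (j + 1), h2, Equiv.Perm.SameCycle.refl _ _, Or.inl ?_⟩,
      ⟨δ (j + 1), h2, Equiv.Perm.SameCycle.refl _ _, Or.inr ?_⟩⟩
    · rw [h4]
      unfold DMap.hd
      rw [if_pos h3]
      exact (al_node _).symm
    · exact (hG.toPatch.prev_node j).symm.trans hx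

omit [Fintype D] in
/-- the darts of a site which is not folded -/
theorem kept_site {d : D} (h : ∀ e, F e → ¬ M.SameSite e d) {x : D} (hs : M.SameSite d x) :
    ¬ FR M F x := by
  have := hG
  have := hF
  intro hR
  obtain ⟨e, he, hes⟩ := fr_site' hR
  exact h e he (hes.trans hs.symm)

/-- the site of a fold sector which is not in `F` is not folded -/
theorem kept_of_fs {g : D} (hg : FS M A δ g) (hF' : ¬ F g) {x : D} (hs : M.SameSite g x) :
    ¬ FR M F x := by
  refine hG.kept_site hF (d := g) (fun e he hes => hF' ?_) hs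
  rw [hG.fs_uniq (hF.fs e he) hg hes]
  exact he

theorem mapF_nx_of {x : {d // ¬ FR M F d}} (h : ¬ FR M F (M.nx x.1)) :
    ((mapF hF ho ho' hG).nx x).1 = M.nx x.1 := by
  rw [fmap_nx_of (hG.foldSetF hF) ho ho' h]

/-- the next dart of a site of the folded map -/
theorem mapF_nx_cases (x : {d // ¬ FR M F d}) :
    (¬ FR M F (M.nx x.1) ∧ ((mapF hF ho ho' hG).nx x).1 = M.nx x.1) ∨
      (F (M.nx x.1) ∧ M.deg (M.nx x.1) = 6 ∧
        ((mapF hF ho ho' hG).nx x).1 = M.nx (M.nx (M.nx x.1))) := by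
  by_cases h : FR M F (M.nx x.1)
  · right
    obtain ⟨h1, h2⟩ := FoldSet.next x.2 h
    have h3 : ¬ FR M F (M.nx (M.nx (M.nx x.1))) := by
      refine (hG.foldSetF hF).stay h1 h2 ((site_nx _).trans (site_nx _)) (hG.ne2 _) ?_
      intro h4
      exact hG.ne1 _ h4
    refine ⟨h1, (hG.deg46 _).resolve_left h2, ?_⟩
    rw [fmap_nx_fold (hG.foldSetF hF) ho ho' h1 h3]
  · left
    exact ⟨h, hG.mapF_nx_of hF ho ho' h⟩

/-- the same two darts follow each other in the completely folded map -/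
theorem mapF_nx_hat {x : {d // ¬ FR M F d}} (hx : ¬ FR M (FS M A δ) x.1)
    (hy : ¬ FR M (FS M A δ) ((mapF hF ho ho' hG).nx x).1) :
    ((hG.hat ho ho').nx ⟨x.1, hx⟩).1 = ((mapF hF ho ho' hG).nx x).1 := by
  rcases hG.mapF_nx_cases hF ho ho' x with ⟨-, h2⟩ | ⟨h1, h3, h2⟩
  · rw [h2] at hy ⊢
    rw [fmap_nx_of hG.foldSet ho ho' (d := ⟨x.1, hx⟩) hy]
  · rw [h2] at hy ⊢
    rw [fmap_nx_fold hG.foldSet ho ho' (d := ⟨x.1, hx⟩) (hF.fs _ h1) hy]

end Gen

end DMap

end GT33
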