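import Pool.Agent.GT33.Path3
import Pool.Agent.GT33.DLiftO

/-!
# GT33 module STARB: regions with two quads, stars

`P1 M A δ r r'`: the region `A` consists of the quads `r` and `r'` with one common edge; `p1 p p'` is the state of `A`
if the quads have the states `p` and `p'` (`P1.glue`).  `exists_P1`: every region with six leaving darts and eight
darts is of this form.  `StarC M A δ q₀ q₂ q₄`: three quads at the corners `0, 2, 4`; `Star.exists_StarC`: a star is of
this form after a rotation.  `StarC.rz`: states of stars.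
-/

open Classical

namespace GT33

/-- the position of a dart of the two quads at the ring -/
def p1x (x : Bool × ZMod 4) : ZMod 6 :=
  bif x.1 then (bif x.2 == 0 then 3 else bif x.2 == 1 then 4 else 5) else
    (bif x.2 == 3 then 0 else bif x.2 == 0 then 1 else 2)

/-- the dart at the ring edge `i` -/
def p1y (i : ZMod 6) : Bool × ZMod 4 :=
  bif i == 0 then (false, 3) else bif i == 1 then (false, 0) else bif i == 2 then (false, 1) else
    bif i == 3 then (true, 0) else bif i == 4 then (true, 1) else (true, 2)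

/-- one step across the common edge -/
def p1s (p p' : PState 4) (x : Bool × ZMod 4) : Bool × ZMod 4 :=
  bif x.1 then (bif x.2 == 3 then (false, p.m 2) else x) else
    (bif x.2 == 2 then (true, p'.m 3) else x)

/-- the partner in the same quad -/
def p1m (p p' : PState 4) (x : Bool × ZMod 4) : Bool × ZMod 4 :=
  bif x.1 then (true, p'.m x.2) else (false, p.m x.2)

/-- the state of two quads with a common edge -/
def p1 (p p' : PState 4) : PState 6 where
  m i := p1x (p1s p p' (p1m p p' (p1y i)))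
  u i := bif i == 0 then p.u 3 else bif i == 1 then p.u 0 else bif i == 2 then p.u 1 + p'.u 3 else
    bif i == 3 then p'.u 0 else bif i == 4 then p'.u 1 else p.u 2 + p'.u 2

namespace DMap

variable {D : Type} {M : DMap D}

/-- two quads with a common edge -/
structure P1 (M : DMap D) (A : D → Prop) (δ : ZMod 6 → D) (r r' : ZMod 4 → D) : Prop where
  legal : M.Legal
  bd : M.Bd A 6 δ
  n : M.SiteNum 4 r
  n' : M.SiteNum 4 r'
  cov : ∀ d, A d ↔ QR r d ∨ QR r' d
  dis : ∀ d, QR r d → ¬ QR r' d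
  r3 : r 3 = δ 0
  r0 : r 0 = δ 1
  r1 : r 1 = δ 2
  e : M.al (r 2) = r' 3
  s0 : r' 0 = δ 3
  s1 : r' 1 = δ 4
  s2 : r' 2 = δ 5

namespace P1

variable {A : D → Prop} {δ : ZMod 6 → D} {r r' : ZMod 4 → D}

/-- the node of a corner of a quad contains the next edge -/
theorem corner {q : ZMod 4 → D} (h : M.SiteNum 4 q) (k : ZMod 4) :
    M.SameNode (q k) (M.al (q (k + 1))) := by
  have h1 := Patch.nx_symm_node (M := M) (q (k + 1))
  rw [← h.nx, Equiv.symm_apply_apply] at h1
  rw [← h.nx]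
  exact h1.symm

theorem nr2 [Finite D] (h : M.P1 A δ r r') : M.SameNode (δ 5) (r 2) := by
  have h1 := corner h.n 2
  rw [show (2 : ZMod 4) + 1 = 3 from rfl, h.r3] at h1
  have h2 : M.SameNode (δ 5) (M.al (δ (5 + 1))) := sameNode_iff.2 (h.bd.step 5)
  rw [show (5 : ZMod 6) + 1 = 0 from rfl] at h2
  exact h2.trans h1.symm

theorem nr3 (h : M.P1 A δ r r') : M.SameNode (δ 2) (r' 3) := by
  have h1 := corner h.n 1
  rw [show (1 : ZMod 4) + 1 = 2 from rfl, h.e, h.r1] at h1
  exact h1

theorem glue [Fintype D] (h : M.P1 A δ r r') {L : LS D} {p p' : PState 4} (hL : L 4 r p)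
    (hL' : L 4 r' p') (hp : p.m 2 ≠ 2) (hp' : p'.m 3 ≠ 3) :
    ∃ μ ω, M.RealL L A δ (p1 p p') μ ω := by
  have hK := (RealL.site h.legal (L := L) (by decide) h.n hL).congrA (B := QR r) fun d =>
    (h.n.mem_iff (by decide) d).symm
  have hK' := (RealL.site h.legal (L := L) (by decide) h.n' hL').congrA (B := QR r') fun d =>
    (h.n'.mem_iff (by decide) d).symm
  obtain ⟨μ, ω, hG⟩ : ∃ μ ω, M.Glued L A (QR r) (QR r') r r' p p' μ ω :=
    ⟨_, _, RealL.union (q_sites h.n) (q_sites h.n') h.cov h.dis hK hK'⟩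
  have tr : ∀ {x y z}, M.Str A μ x y → M.Str A μ y z → M.Str A μ x z :=
    fun h1 h2 => Relation.EqvGen.trans _ _ _ h1 h2
  have sy : ∀ {x y}, M.Str A μ x y → M.Str A μ y x := fun h1 => Relation.EqvGen.symm _ _ h1
  have rf : ∀ {x y}, x = y → M.Str A μ x y := fun h1 => by rw [h1]; exact Relation.EqvGen.refl _
  have hA : ∀ k, A (r k) := fun k => (h.cov _).2 (Or.inl ⟨k, rfl⟩)
  have hA' : ∀ k, A (r' k) := fun k => (h.cov _).2 (Or.inr ⟨k, rfl⟩)
  have hed : M.Str A μ (r 2) (r' 3) := Relation.EqvGen.rel _ _ ⟨hA 2, Or.inr ⟨h.e.symm, hA' 3⟩⟩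
  let P : Bool × ZMod 4 → D := fun x => bif x.1 then r' x.2 else r x.2
  have hPm : ∀ x, M.Str A μ (P x) (P (p1m p p' x)) := by
    rintro ⟨c, k⟩
    cases c
    · exact hG.strB k
    · exact hG.strC k
  have hPs : ∀ x, M.Str A μ (P x) (P (p1s p p' x)) := by
    rintro ⟨c, k⟩
    cases c
    · rcases z4 k with rfl | rfl | rfl | rfl
      · exact rf rfl
      · exact rf rfl
      · exact tr hed (hG.strC 3)
      · exact rf rfl
    · rcases z4 k with rfl | rfl | rfl | rfl
      · exact rf rfl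
      · exact rf rfl
      · exact rf rfl
      · exact tr (sy hed) (hG.strB 2)
  have hPx : ∀ c k, ¬ (c = false ∧ k = 2) → ¬ (c = true ∧ k = 3) → P (c, k) = δ (p1x (c, k)) := by
    intro c k h1 h2
    cases c
    · rcases z4 k with rfl | rfl | rfl | rfl
      · exact h.r0
      · exact h.r1
      · exact absurd ⟨rfl, rfl⟩ h1
      · exact h.r3
    · rcases z4 k with rfl | rfl | rfl | rfl
      · exact h.s0
      · exact h.s1
      · exact h.s2
      · exact absurd ⟨rfl, rfl⟩ h2
  have hPy : ∀ i, P (p1y i) = δ i := by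
    intro i
    rcases z6_all i with rfl | rfl | rfl | rfl | rfl | rfl
    · exact h.r3
    · exact h.r0
    · exact h.r1
    · exact h.s0
    · exact h.s1
    · exact h.s2
  -- after one step we are at the ring
  have hend : ∀ x, P (p1s p p' (p1m p p' x)) = δ (p1x (p1s p p' (p1m p p' x))) ∨
      (x.1 = false ∧ p.m x.2 = 2 ∧ p'.m 3 = 3) ∨ (x.1 = true ∧ p'.m x.2 = 3 ∧ p.m 2 = 2) := by
    rintro ⟨c, k⟩
    cases c
    · by_cases h1 : p.m k = 2
      · left
        have h2 : p1s p p' (p1m p p' (false, k)) = (true, p'.m 3) := by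
          show p1s p p' (false, p.m k) = _
          rw [h1]
          rfl
        rw [h2]
        exact hPx _ _ (fun h3 => Bool.noConfusion h3.1) fun h3 => hp' h3.2
      · left
        have h2 : p1s p p' (p1m p p' (false, k)) = (false, p.m k) := by
          show p1s p p' (false, p.m k) = _
          generalize p.m k = l at h1
          rcases z4 l with rfl | rfl | rfl | rfl
          · rfl
          · rfl
          · exact absurd rfl h1
          · rfl
        rw [h2]
        exact hPx _ _ (fun h3 => h1 h3.2) fun h3 => Bool.noConfusion h3.1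
    · by_cases h1 : p'.m k = 3
      · left
        have h2 : p1s p p' (p1m p p' (true, k)) = (false, p.m 2) := by
          show p1s p p' (true, p'.m k) = _
          rw [h1]
          rfl
        rw [h2]
        exact hPx _ _ (fun h3 => hp h3.2) fun h3 => Bool.noConfusion h3.1
      · left
        have h2 : p1s p p' (p1m p p' (true, k)) = (true, p'.m k) := by
          show p1s p p' (true, p'.m k) = _
          generalize p'.m k = l at h1
          rcases z4 l with rfl | rfl | rfl | rfl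
          · rfl
          · rfl
          · rfl
          · exact absurd rfl h1
        rw [h2]
        exact hPx _ _ (fun h3 => Bool.noConfusion h3.1) fun h3 => h1 h3.2
  have hgo : ∀ x, M.Str A μ (P x) (δ (p1x (p1s p p' (p1m p p' x)))) := by
    intro x
    rcases hend x with h1 | ⟨-, -, h1⟩ | ⟨-, -, h1⟩
    · rw [← h1]
      exact tr (hPm x) (hPs _)
    · exact absurd h1 hp'
    · exact absurd h1 hp
  have hno : ∀ {e} {i : ZMod 6}, QR r e → M.SameNode (δ i) e → i = 0 ∨ i = 1 ∨ i = 2 ∨ i = 5 := by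
    rintro e i ⟨k, rfl⟩ h1
    rcases z4 k with rfl | rfl | rfl | rfl
    · rw [h.r0] at h1
      exact Or.inr (Or.inl (nodes_inj h.bd h1))
    · rw [h.r1] at h1
      exact Or.inr (Or.inr (Or.inl (nodes_inj h.bd h1)))
    · exact Or.inr (Or.inr (Or.inr (nodes_inj h.bd (h1.trans h.nr2.symm))))
    · rw [h.r3] at h1
      exact Or.inl (nodes_inj h.bd h1)
  have hno' : ∀ {e} {i : ZMod 6}, QR r' e → M.SameNode (δ i) e → i = 2 ∨ i = 3 ∨ i = 4 ∨ i = 5 := by
    rintro e i ⟨k, rfl⟩ h1
    rcases z4 k with rfl | rfl | rfl | rfl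
    · rw [h.s0] at h1
      exact Or.inr (Or.inl (nodes_inj h.bd h1))
    · rw [h.s1] at h1
      exact Or.inr (Or.inr (Or.inl (nodes_inj h.bd h1)))
    · rw [h.s2] at h1
      exact Or.inr (Or.inr (Or.inr (nodes_inj h.bd h1)))
    · exact Or.inl (nodes_inj h.bd (h1.trans h.nr3.symm))
  refine ⟨μ, ω, hG.loc, fun i => ?_, fun d hd => ?_, fun i => ?_, fun d hd => ?_⟩
  · have h1 := hgo (p1y i)
    rw [hPy] at h1
    exact h1
  · rcases hG.all d hd with ⟨k, hk⟩ | ⟨k, hk⟩
    · exact ⟨_, tr hk (hgo (false, k))⟩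
    · exact ⟨_, tr hk (hgo (true, k))⟩
  · rw [hG.sum]
    rcases z6_all i with rfl | rfl | rfl | rfl | rfl | rfl
    · show _ = p.u 3
      rw [usum_none (B := QR r') fun e he h1 => absurd (hno' h1 he) (by decide), ← h.r3, hG.bB,
        add_zero]
    · show _ = p.u 0
      rw [usum_none (B := QR r') fun e he h1 => absurd (hno' h1 he) (by decide), ← h.r0, hG.bB,
        add_zero]
    · show _ = p.u 1 + p'.u 3
      have a1 : M.usum (QR r) ω (δ 2) = p.u 1 := by rw [← h.r1]; exact hG.bB 1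
      have a2 : M.usum (QR r') ω (δ 2) = p'.u 3 := by rw [usum_same h.nr3]; exact hG.bC 3
      rw [a1, a2]
    · show _ = p'.u 0
      rw [usum_none (B := QR r) fun e he h1 => absurd (hno h1 he) (by decide), ← h.s0, hG.bC,
        zero_add]
    · show _ = p'.u 1
      rw [usum_none (B := QR r) fun e he h1 => absurd (hno h1 he) (by decide), ← h.s1, hG.bC,
        zero_add]
    · show _ = p.u 2 + p'.u 2
      have a1 : M.usum (QR r) ω (δ 5) = p.u 2 := by rw [usum_same h.nr2]; exact hG.bB 2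
      have a2 : M.usum (QR r') ω (δ 5) = p'.u 2 := by rw [← h.s2]; exact hG.bC 2
      rw [a1, a2]
  · exfalso
    have key : ∀ j, ¬ M.SameNode (δ j) d := fun j hj => by
      have h1 : M.SameNode (δ j) (M.al (δ (j + 1))) := sameNode_iff.2 (h.bd.step j)
      exact bd_al h.bd (j + 1) (hd _ (hj.symm.trans h1))
    have h1 := hd d (Equiv.Perm.SameCycle.refl _ _)
    rcases (h.cov d).1 h1 with ⟨k, rfl⟩ | ⟨k, rfl⟩
    · rcases z4 k with rfl | rfl | rfl | rfl
      · exact key 1 (by rw [h.r0])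
      · exact key 2 (by rw [h.r1])
      · exact key 5 h.nr2
      · exact key 0 (by rw [h.r3])
    · rcases z4 k with rfl | rfl | rfl | rfl
      · exact key 3 (by rw [h.s0])
      · exact key 4 (by rw [h.s1])
      · exact key 5 (by rw [h.s2])
      · exact key 2 h.nr3

end P1

/-- a rotated numbering of a quad -/
theorem SiteNum.rotn {n : ℕ} {q : ZMod n → D} (h : M.SiteNum n q) (c : ZMod n) :
    M.SiteNum n fun i => q (i + c) := by
  refine ⟨fun x y hxy => add_right_cancel (h.inj hxy), fun j => ?_⟩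
  have e : j + 1 + c = j + c + 1 := by ring
  show M.nx (q (j + c)) = q (j + 1 + c)
  rw [e]
  exact h.nx _

/-- a region with eight darts has only one inner edge -/
theorem two_inner [Fintype D] {B : D → Prop} {b : ZMod 6 → D} (hb : M.Bd B 6 b)
    (h8 : Nat.card {d // B d} = 8) {x : D} (hx : B x) (hx' : B (M.al x)) {z : D} (hz : B z)
    (hz' : B (M.al z)) : z = x ∨ z = M.al x := by
  by_contra hne
  push Not at hne
  have hc : (Finset.univ.filter fun d => B d).card = 8 := by
    rw [← h8, Nat.card_eq_fintype_card, Fintype.card_subtype]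
  have hsub : (Finset.univ.image b) ∪ {x, M.al x, z} ⊆ Finset.univ.filter fun d => B d := by
    intro d hd
    simp only [Finset.mem_union, Finset.mem_image, Finset.mem_univ, true_and,
      Finset.mem_insert, Finset.mem_singleton] at hd
    simp only [Finset.mem_filter, Finset.mem_univ, true_and]
    rcases hd with ⟨j, rfl⟩ | rfl | rfl | rfl
    · exact bd_mem hb j
    · exact hx
    · exact hx'
    · exact hz
  have hdis : Disjoint (Finset.univ.image b) {x, M.al x, z} := by
    rw [Finset.disjoint_left]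
    intro d hd hd'
    obtain ⟨j, -, rfl⟩ := Finset.mem_image.1 hd
    have h3 := bd_al hb j
    simp only [Finset.mem_insert, Finset.mem_singleton] at hd'
    rcases hd' with h4 | h4 | h4
    · rw [h4] at h3
      exact h3 hx'
    · rw [h4, M.inv] at h3
      exact h3 hx
    · rw [h4] at h3
      exact h3 hz'
  have h3 : ({x, M.al x, z} : Finset D).card = 3 := by
    rw [Finset.card_insert_of_notMem, Finset.card_insert_of_notMem, Finset.card_singleton]
    · simpa using fun h => hne.2 h.symm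
    · simp only [Finset.mem_insert, Finset.mem_singleton, not_or]
      exact ⟨(M.ne x).symm, fun h => hne.1 h.symm⟩
  have h4 := Finset.card_le_card hsub
  rw [Finset.card_union_of_disjoint hdis, Finset.card_image_of_injective _ hb.inj, h3, hc] at h4
  simp at h4

/-- **regions with two quads** -/
theorem exists_P1 [Fintype D] (hM : M.Legal) {B : D → Prop} {b : ZMod 6 → D} (hb : M.Bd B 6 b)
    (h8 : Nat.card {d // B d} = 8) :
    ∃ (c : ZMod 6) (r r' : ZMod 4 → D), M.P1 B (fun i => b (i + c)) r r' := by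
  -- the inner edge
  obtain ⟨x, hx, hx'⟩ : ∃ x, B x ∧ B (M.al x) := by
    by_contra hne
    push Not at hne
    have h1 : M.cut B = 8 := by
      unfold DMap.cut
      rw [← h8]
      exact Nat.card_congr (Equiv.subtypeEquivRight fun d => ⟨fun h => h.1, fun h => ⟨h, hne d h⟩⟩)
    have h2 := bd_cut hb
    omega
  obtain ⟨q, hq, hq0⟩ := exists_siteNum4 (two_quads_deg hM hb.site h8 hx)
  obtain ⟨q', hq', hq0'⟩ := exists_siteNum4 (two_quads_deg hM hb.site h8 hx')
  have hB : ∀ k, B (q k) := fun k =>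
    (Sites.same (M := M) hb.site (hq.same (by decide) 0 k)).1 (by rw [hq0]; exact hx)
  have hB' : ∀ k, B (q' k) := fun k =>
    (Sites.same (M := M) hb.site (hq'.same (by decide) 0 k)).1 (by rw [hq0']; exact hx')
  have hdis : ∀ d, QR q d → ¬ QR q' d := by
    rintro d ⟨k, rfl⟩ ⟨l, hl⟩
    have h1 := hq.same (by decide) 0 k
    have h2 := hq'.same (by decide) 0 l
    rw [hq0] at h1
    rw [hq0', hl] at h2
    exact hM.noloop x (h1.trans h2.symm)
  have hleave : ∀ k, k ≠ 0 → ¬ B (M.al (q k)) := fun k hk h1 => by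
    rcases two_inner hb h8 hx hx' (hB k) h1 with h2 | h2
    · rw [← hq0] at h2
      exact hk (hq.inj h2)
    · exact hdis (q k) ⟨k, rfl⟩ ⟨0, by rw [hq0', h2]⟩
  have hleave' : ∀ k, k ≠ 0 → ¬ B (M.al (q' k)) := fun k hk h1 => by
    rcases two_inner hb h8 hx hx' (hB' k) h1 with h2 | h2
    · exact hdis (q' k) ⟨0, by rw [hq0, h2]⟩ ⟨k, rfl⟩
    · rw [← hq0'] at h2
      exact hk (hq'.inj h2)
  have hcor : ∀ k, M.SameNode (q k) (M.al (q (k + 1))) := fun k => P1.corner hq k
  have hcor' : ∀ k, M.SameNode (q' k) (M.al (q' (k + 1))) := fun k => P1.corner hq' k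
  obtain ⟨c, hc⟩ := (hb.mem (q 1)).1 ⟨hB 1, hleave 1 (by decide)⟩
  have h2 : q 2 = b (c + 1) := bd_next hb (hB 2) (hleave 2 (by decide)) (by rw [hc]; exact hcor 1)
  have h3 : q 3 = b (c + 1 + 1) := bd_next hb (hB 3) (hleave 3 (by decide)) (by
    rw [← h2]; exact hcor 2)
  have h4 : q' 1 = b (c + 1 + 1 + 1) := bd_next hb (hB' 1) (hleave' 1 (by decide)) (by
    rw [← h3]
    have h5 := hcor 3
    rw [show (3 : ZMod 4) + 1 = 0 from rfl, hq0, ← hq0'] at h5
    exact h5.trans (hcor' 0))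
  have h5 : q' 2 = b (c + 1 + 1 + 1 + 1) := bd_next hb (hB' 2) (hleave' 2 (by decide)) (by
    rw [← h4]; exact hcor' 1)
  have h6 : q' 3 = b (c + 1 + 1 + 1 + 1 + 1) := bd_next hb (hB' 3) (hleave' 3 (by decide)) (by
    rw [← h5]; exact hcor' 2)
  refine ⟨c, fun i => q (i + 2), fun i => q' (i + 1), hM, BdD.shift hb c, hq.rotn 2, hq'.rotn 1,
    fun d => ?_, ?_, ?_, ?_, ?_, ?_, ?_, ?_, ?_⟩
  · constructor
    · intro hd
      by_contra hno
      push Not at hno
      have n1 : ¬ QR q d := fun ⟨k, hk⟩ => hno.1 ⟨k - 2, by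
        show q (k - 2 + 2) = d
        rw [sub_add_cancel, hk]⟩
      have n2 : ¬ QR q' d := fun ⟨k, hk⟩ => hno.2 ⟨k - 1, by
        show q' (k - 1 + 1) = d
        rw [sub_add_cancel, hk]⟩
      have c1 := card_or (B := QR q) (C := B) (by rintro d ⟨k, rfl⟩; exact hB k)
      have c2 := card_or (B := QR q') (C := fun d => B d ∧ ¬ QR q d) (by
        rintro d ⟨k, rfl⟩
        exact ⟨hB' k, fun h => hdis _ h ⟨k, rfl⟩⟩)
      rw [h8, card_q hq, c2, card_q hq'] at c1
      have c3 : 0 < Nat.card {d // (B d ∧ ¬ QR q d) ∧ ¬ QR q' d} := by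
        rw [Nat.card_pos_iff]
        exact ⟨⟨⟨d, ⟨hd, n1⟩, n2⟩⟩, inferInstance⟩
      omega
    · rintro (⟨k, rfl⟩ | ⟨k, rfl⟩)
      · exact hB _
      · exact hB' _
  · rintro d ⟨k, rfl⟩ ⟨l, hl⟩
    exact hdis _ ⟨_, rfl⟩ ⟨_, hl⟩
  · show q (3 + 2) = b (0 + c)
    rw [zero_add, hc]
    rfl
  · show q (0 + 2) = b (1 + c)
    rw [zero_add, h2, add_comm]
  · show q (1 + 2) = b (2 + c)
    rw [show (1 : ZMod 4) + 2 = 3 from rfl, h3]
    congr 1
    ring
  · show M.al (q (2 + 2)) = q' (3 + 1)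
    rw [show (2 : ZMod 4) + 2 = 0 from rfl, show (3 : ZMod 4) + 1 = 0 from rfl, hq0, hq0']
  · show q' (0 + 1) = b (3 + c)
    rw [zero_add, h4]
    congr 1
    ring
  · show q' (1 + 1) = b (4 + c)
    rw [show (1 : ZMod 4) + 1 = 2 from rfl, h5]
    congr 1
    ring
  · show q' (2 + 1) = b (5 + c)
    rw [show (2 : ZMod 4) + 1 = 3 from rfl, h6]
    congr 1
    ring

/-- the other order of the quads -/
theorem P1.swap {A : D → Prop} {δ : ZMod 6 → D} {r r' : ZMod 4 → D} (h : M.P1 A δ r r') :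
    M.P1 A (fun i => δ (i + 3)) (fun i => r' (i + 1)) fun i => r (i + 3) where
  legal := h.legal
  bd := BdD.shift h.bd 3
  n := h.n'.rotn 1
  n' := h.n.rotn 3
  cov d := by
    rw [h.cov, or_comm]
    refine or_congr ⟨?_, ?_⟩ ⟨?_, ?_⟩
    · rintro ⟨k, hk⟩
      exact ⟨k - 1, by show r' (k - 1 + 1) = d; rw [sub_add_cancel, hk]⟩
    · rintro ⟨k, hk⟩
      exact ⟨_, hk⟩
    · rintro ⟨k, hk⟩
      exact ⟨k - 3, by show r (k - 3 + 3) = d; rw [sub_add_cancel, hk]⟩
    · rintro ⟨k, hk⟩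
      exact ⟨_, hk⟩
  dis := by
    rintro d ⟨k, hk⟩ ⟨l, hl⟩
    exact h.dis d ⟨_, hl⟩ ⟨_, hk⟩
  r3 := h.s0
  r0 := h.s1
  r1 := h.s2
  e := by
    show M.al (r' 3) = r 2
    rw [← h.e, M.inv]
  s0 := h.r3
  s1 := h.r0
  s2 := h.r1

/-! ### stars -/

section star

variable {A : D → Prop} {δ : ZMod 6 → D}

/-- two quads of a patch with more than two sites have at most one common edge -/
theorem Patch.share' [Fintype D] (hP : M.Patch A δ) {p q : D} (hp : A p) (hq : A q)
    (hne : ¬ M.SameSite p q) (h3 : ∃ d, A d ∧ ¬ (M.SameSite p d ∨ M.SameSite q d)) :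
    6 + 2 * (Finset.univ.filter fun x => M.SameSite p x ∧ M.SameSite q (M.al x)).card ≤
      M.deg p + M.deg q := by
  have hC : M.Sites fun x => M.SameSite p x ∨ M.SameSite q x :=
    Sites.or (M := M) (sites_site p) (sites_site q)
  have hCA : ∀ x, M.SameSite p x ∨ M.SameSite q x → A x := by
    rintro x (h | h)
    · exact (hP.sites.same h).1 hp
    · exact (hP.sites.same h).1 hq
  have h1 := Gen.cut_two hP.legal hne
  obtain ⟨r, hr⟩ := hP.exists_root
  obtain ⟨d, hd, hd'⟩ := h3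
  have h4 := hP.legal.cut4 _ hC ⟨p, Or.inl (Equiv.Perm.SameCycle.refl _ _)⟩ ⟨d, hd'⟩
  have h5 := hP.legal.cut_even hC
  have h6 : M.cut (fun x => M.SameSite p x ∨ M.SameSite q x) ≠ 4 := by
    intro h6
    rcases hP.legal.quad _ hC h6 with ⟨z, hz⟩ | ⟨z, hz⟩
    · have h7 := (hz p).1 (Or.inl (Equiv.Perm.SameCycle.refl _ _))
      have h8 := (hz q).1 (Or.inr (Equiv.Perm.SameCycle.refl _ _))
      exact hne (h7.symm.trans h8)
    · have h7 := (hz r).1 fun h => hr (hCA r h)
      have h8 := (hz d).1 hd'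
      exact hr ((hP.sites.same (h7.symm.trans h8)).2 hd)
  omega

/-- without corner quads, a quad has at most one ring edge -/
theorem Patch.quad_one' [Fintype D] (hP : M.Patch A δ)
    (hnc : ∀ i, M.nx (δ i) = δ (i + 1) → M.deg (δ i) = 6) {i j : ZMod 6}
    (h4 : M.deg (δ i) = 4) (hs : M.SameSite (δ i) (δ j)) : i = j := by
  rcases mem_quad h4 hs with h | h | h | h
  · exact (hP.bd.inj h).symm
  · exact absurd h.symm (Patch.nadj' hP hnc h4)
  · exfalso
    have h1 : A (M.nx (δ i)) := (hP.sites _).2 (hP.inA i)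
    have h2 : A (M.al (M.nx (δ i))) := by
      by_contra hn
      obtain ⟨k, hk⟩ := (hP.bd.mem _).1 ⟨h1, hn⟩
      exact Patch.nadj' hP hnc h4 hk.symm
    refine Patch.no_chord' hP hnc h1 h2 ?_ ?_
    · have h3 : M.nx (δ i) = M.nx.symm (δ j) := by rw [h, Equiv.symm_apply_apply]
      rw [h3]
      exact hP.ring_prev j
    · refine ⟨i, ?_⟩
      have h3 := Patch.nx_symm_node (M := M) (M.nx (δ i))
      rw [Equiv.symm_apply_apply] at h3
      exact h3.symm
  · exfalso
    have h1 : M.nx (δ j) = δ i := by rw [h, nx_four h4]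
    exact Patch.nadj' hP hnc (by rw [← deg_same hs, h4]) h1

/-- a star has a corner quad -/
theorem Star.exists_corner [Fintype D] (hP : M.Patch A δ) (hS : Star M A) :
    ∃ i, M.nx (δ i) = δ (i + 1) := by
  by_contra hno
  push Not at hno
  have hnc : ∀ i, M.nx (δ i) = δ (i + 1) → M.deg (δ i) = 6 := fun i hi => absurd hi (hno i)
  have h1 : (Finset.univ.filter fun d => A d).card = 12 := by
    rw [← hS.1, Nat.card_eq_fintype_card, Fintype.card_subtype]
  have h2 : (Finset.univ.biUnion fun i : ZMod 6 => Finset.univ.filter fun d =>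
      M.SameSite (δ i) d) ⊆ Finset.univ.filter fun d => A d := by
    intro d hd
    simp only [Finset.mem_biUnion, Finset.mem_filter, Finset.mem_univ, true_and] at hd ⊢
    obtain ⟨i, hi⟩ := hd
    exact (hP.sites.same hi).1 (hP.inA i)
  have h3 := Finset.card_le_card h2
  rw [h1, Finset.card_biUnion] at h3
  · have h4 : ∀ i ∈ (Finset.univ : Finset (ZMod 6)),
        (Finset.univ.filter fun d => M.SameSite (δ i) d).card = 4 := by
      intro i _
      rw [card_site (M := M) (δ i) _ fun e => by simp]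
      exact hS.2 _ (hP.inA i)
    rw [Finset.sum_congr rfl h4] at h3
    simp at h3
  · intro i _ j _ hij
    rw [Function.onFun, Finset.disjoint_left]
    intro d hd hd'
    simp only [Finset.mem_filter, Finset.mem_univ, true_and] at hd hd'
    exact hij (Patch.quad_one' hP hnc (hS.2 _ (hP.inA i)) (hd.trans hd'.symm))

/-- three quads at the corners `0, 2, 4` -/
structure StarC (M : DMap D) (A : D → Prop) (δ : ZMod 6 → D) (q₀ q₂ q₄ : ZMod 4 → D) : Prop where
  c0 : M.CorQ A δ 0 q₀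
  p : M.P1 (fun d => A d ∧ ¬ QR q₀ d) (fun i => kδ M δ 0 q₀ (i + 1)) q₂ q₄
  card : Nat.card {d // A d} = 12

theorem kδ_rot (δ : ZMod 6 → D) (i : ZMod 6) (q : ZMod 4 → D) (j : ZMod 6) :
    kδ M (fun j => δ (j + i)) 0 q j = kδ M δ i q (j + i) := by
  unfold kδ
  have e1 : j = 0 ↔ j + i = i := by rw [add_eq_right]
  have e2 : j = 0 + 1 ↔ j + i = i + 1 := by rw [zero_add, add_comm i 1, add_left_inj]
  simp only [e1, e2]

/-- **the structure of stars** -/
theorem Star.exists_StarC [Fintype D] (hP : M.Patch A δ) (hS : Star M A) :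
    ∃ (c : ZMod 6) (q₀ q₂ q₄ : ZMod 4 → D), M.StarC A (fun i => δ (i + c)) q₀ q₂ q₄ := by
  obtain ⟨i, hi⟩ := Star.exists_corner hP hS
  have hd : M.deg (δ i) = 4 := hS.2 _ (hP.inA i)
  have h8 : Nat.card {d // A d} ≠ 8 := by rw [hS.1]; decide
  have h1 : ∃ d, A d ∧ ¬ M.SameSite (δ i) d := by
    by_contra hno
    push Not at hno
    have h2 : Nat.card {d // A d} = Nat.card {d // M.SameSite (δ i) d} :=
      Nat.card_congr (Equiv.subtypeEquivRight fun d => ⟨hno d, fun h =>
        (hP.sites.same h).1 (hP.inA i)⟩)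
    rw [card_site', hS.1, hd] at h2
    omega
  obtain ⟨q, hq⟩ := CorQ.exists_corQ hP.legal hP.bd hi hd h1 h8
  have h3 : Nat.card {d // A d ∧ ¬ QR q d} = 8 := by
    have h4 := card_or (B := QR q) (C := A) (by rintro d ⟨k, rfl⟩; exact hq.qA k)
    rw [hS.1, card_q hq.num] at h4
    omega
  obtain ⟨c, r, r', hr⟩ := exists_P1 hP.legal hq.bd' h3
  -- the darts `i`, `i + 1` of the rest are not in the same quad
  have hadj : M.nx (kδ M δ i q i) ≠ kδ M δ i q (i + 1) := by
    intro h4
    rw [kδ_i, kδ_i1] at h4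
    have h5 : A (M.al (q 3)) := by
      have := ((hq.mem _).2 ⟨i, rfl⟩).1.1
      rwa [kδ_i] at this
    have hne : ¬ M.SameSite (q 3) (M.al (q 3)) := hP.legal.noloop _
    have h6 := hP.share' (hq.qA 3) h5 hne (by
      by_contra hno
      push Not at hno
      have h7 := card_or (B := M.SameSite (q 3)) (C := A) fun d hd =>
        (hP.sites.same hd).1 (hq.qA 3)
      have h8 : Nat.card {d // A d ∧ ¬ M.SameSite (q 3) d} =
          Nat.card {d // M.SameSite (M.al (q 3)) d} :=
        Nat.card_congr (Equiv.subtypeEquivRight fun d => ⟨fun h9 =>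
          (hno d h9.1).resolve_left h9.2, fun h9 => ⟨(hP.sites.same h9).1 h5, fun h10 =>
            hne (h10.trans h9.symm)⟩⟩)
      rw [h8, card_site', card_site', hS.1, hS.2 _ (hq.qA 3), hS.2 _ h5] at h7
      omega)
    rw [hS.2 _ (hq.qA 3), hS.2 _ h5] at h6
    have h7 : 1 < (Finset.univ.filter fun x => M.SameSite (q 3) x ∧
        M.SameSite (M.al (q 3)) (M.al x)).card := by
      rw [Finset.one_lt_card]
      refine ⟨q 3, ?_, q 2, ?_, fun h8 => absurd (hq.num.inj h8) (by decide)⟩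
      · simp only [Finset.mem_filter, Finset.mem_univ, true_and]
        exact ⟨Equiv.Perm.SameCycle.refl _ _, Equiv.Perm.SameCycle.refl _ _⟩
      · simp only [Finset.mem_filter, Finset.mem_univ, true_and]
        exact ⟨hq.num.same (by decide) 3 2, by rw [← h4]; exact site_nx _⟩
    omega
  have hc : c = i + 1 ∨ c = i + 4 := by
    have key : ∀ k : ZMod 6, (k = 0 ∨ k = 1 ∨ k = 3 ∨ k = 4) →
        M.nx (kδ M δ i q (k + c)) = kδ M δ i q (k + 1 + c) := by
      rintro k (rfl | rfl | rfl | rfl)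
      · have h4 := hr.n.nx 3
        rw [show (3 : ZMod 4) + 1 = 0 from rfl, hr.r3, hr.r0] at h4
        exact h4
      · have h4 := hr.n.nx 0
        rw [show (0 : ZMod 4) + 1 = 1 from rfl, hr.r0, hr.r1] at h4
        exact h4
      · have h4 := hr.n'.nx 0
        rw [show (0 : ZMod 4) + 1 = 1 from rfl, hr.s0, hr.s1] at h4
        exact h4
      · have h4 := hr.n'.nx 1
        rw [show (1 : ZMod 4) + 1 = 2 from rfl, hr.s1, hr.s2] at h4
        exact h4
    by_contra hno
    push Not at hno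
    refine hadj ?_
    have h4 := key (i - c) (by
      obtain ⟨h5, h6⟩ := hno
      have : ∀ c i : ZMod 6, c ≠ i + 1 → c ≠ i + 4 →
        (i - c = 0 ∨ i - c = 1 ∨ i - c = 3 ∨ i - c = 4) := by decide
      exact this c i h5 h6)
    have e1 : i - c + c = i := sub_add_cancel _ _
    have e2 : i - c + 1 + c = i + 1 := by ring
    rwa [e1, e2] at h4
  have hcor : M.CorQ A (fun j => δ (j + i)) 0 q := by
    refine ⟨hP.legal, BdD.shift hP.bd i, hq.num, ?_, ?_, hq.cut⟩
    · show q 0 = δ (0 + i)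
      rw [zero_add, hq.h0]
    · show q 1 = δ (0 + 1 + i)
      rw [zero_add, add_comm, hq.h1]
  rcases hc with rfl | rfl
  · refine ⟨i, q, r, r', hcor, ?_, hS.1⟩
    have e : (fun j => kδ M (fun j => δ (j + i)) 0 q (j + 1)) = fun j => kδ M δ i q (j + (i + 1)) :=
      funext fun j => by
        rw [kδ_rot]
        congr 1
        ring
    rw [e]
    exact hr
  · refine ⟨i, q, fun k => r' (k + 1), fun k => r (k + 3), hcor, ?_, hS.1⟩
    have h4 := hr.swap
    have e : (fun j => kδ M (fun j => δ (j + i)) 0 q (j + 1)) =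
        fun j => kδ M δ i q (j + 3 + (i + 4)) :=
      funext fun j => by
        rw [kδ_rot]
        congr 1
        have : ∀ i j : ZMod 6, j + 1 + i = j + 3 + (i + 4) := by decide
        exact this i j
    rw [e]
    exact h4

namespace StarC

variable [Fintype D] {q₀ q₂ q₄ : ZMod 4 → D}

omit [Fintype D] in
theorem q20 (h : M.StarC A δ q₀ q₂ q₄) : q₂ 0 = δ 2 := by
  rw [h.p.r0]
  exact kδ_ne (i := 0) (j := 2) (by decide) (by decide)

omit [Fintype D] in
theorem q21 (h : M.StarC A δ q₀ q₂ q₄) : q₂ 1 = δ 3 := by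
  rw [h.p.r1]
  exact kδ_ne (i := 0) (j := 3) (by decide) (by decide)

omit [Fintype D] in
theorem q40 (h : M.StarC A δ q₀ q₂ q₄) : q₄ 0 = δ 4 := by
  rw [h.p.s0]
  exact kδ_ne (i := 0) (j := 4) (by decide) (by decide)

omit [Fintype D] in
theorem q41 (h : M.StarC A δ q₀ q₂ q₄) : q₄ 1 = δ 5 := by
  rw [h.p.s1]
  exact kδ_ne (i := 0) (j := 5) (by decide) (by decide)

theorem c2 (h : M.StarC A δ q₀ q₂ q₄) : M.CorQ A δ 2 q₂ := by
  refine CorQ.of_card h.c0.legal h.c0.bd h.p.n h.q20 h.q21 ⟨q₀ 0, h.c0.qA 0, fun h1 => ?_⟩ (by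
    rw [h.card]; decide)
  exact ((h.p.cov (q₀ 0)).2 (Or.inl h1)).2 ⟨0, rfl⟩

theorem c4 (h : M.StarC A δ q₀ q₂ q₄) : M.CorQ A δ 4 q₄ := by
  refine CorQ.of_card h.c0.legal h.c0.bd h.p.n' h.q40 h.q41 ⟨q₀ 0, h.c0.qA 0, fun h1 => ?_⟩ (by
    rw [h.card]; decide)
  exact ((h.p.cov (q₀ 0)).2 (Or.inr h1)).2 ⟨0, rfl⟩

/-- the corners of a star -/
theorem ks (h : M.StarC A δ q₀ q₂ q₄) (κ : (ZMod 6 → D) → ZMod 6 → Prop) (j : ZMod 6) :
    KS M κ δ j ↔ (j = 0 ∨ j = 2 ∨ j = 4) := by
  rcases z6_all j with rfl | rfl | rfl | rfl | rfl | rfl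
  · exact iff_of_true (h.c0.ks_i κ) (by decide)
  · exact iff_of_false (h.c0.ks_next κ) (by decide)
  · exact iff_of_true (h.c2.ks_i κ) (by decide)
  · exact iff_of_false (h.c2.ks_next κ) (by decide)
  · exact iff_of_true (h.c4.ks_i κ) (by decide)
  · exact iff_of_false (h.c4.ks_next κ) (by decide)

/-- **states of stars** -/
theorem rz {β : (ZMod 6 → D) → Rel} {F : Flags} (h : M.StarC A δ q₀ q₂ q₄) {p₀ p₂ p₄ : PState 4}
    (h0 : KDem F 0 p₀) (h2 : KDem F 2 p₂) (h4 : KDem F 4 p₄)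
    (ht : ∀ k, ((p1 p₂ p₄).rot (-1)).m (((p1 p₂ p₄).rot (-1)).m k) = k)
    (ht' : ∀ k, ((p1 p₂ p₄).rot (-1)).m k ≠ k)
    (hloop : ¬ (p₀.m 2 = 3 ∧ ((p1 p₂ p₄).rot (-1)).m 0 = 0 + 1))
    (hu : ((p1 p₂ p₄).rot (-1)).u 0 + p₀.u 2 = 3) :
    Rz M A δ β F (gk 0 p₀ ((p1 p₂ p₄).rot (-1))) := by
  obtain ⟨μ, ω, hR⟩ := h.p.glue (L := M.OL δ β F) (p := p₂) (p' := p₄) (h.c2.qs h2) (h.c4.qs h4)
    (EE_inv h2.ee 2).2 (EE_inv h4.ee 3).2
  have h5 := hR.rot (-1)
  have e : (fun i : ZMod 6 => kδ M δ 0 q₀ (i + -1 + 1)) = kδ M δ 0 q₀ := funext fun i => by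
    rw [neg_add_cancel_right]
  have h6 : M.RealL (M.OL δ β F) (fun d => A d ∧ ¬ QR q₀ d) (kδ M δ 0 q₀)
      ((p1 p₂ p₄).rot (-1)) μ ω := e ▸ h5
  exact h.c0.glue h6 (h.c0.qs h0) (fun k => (EE_inv h0.ee k).1) (fun k => (EE_inv h0.ee k).2) ht ht'
    hloop hu

end StarC

end star

end DMap

end GT33
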