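import Pool.Agent.GT33.NoCor
import Pool.Agent.GT33.PartL
import Pool.Agent.GT33.StarB

/-!
# GT33 module PREO: the induction hypothesis for the folded map

`Gen.ihF`: the induction hypothesis for the folded map (`Obj.mapF`), if there are two adjacent ring nodes which are no
corners.
-/

open Classical

namespace GT33

namespace DMap

variable {D : Type} {M : DMap D} {A : D → Prop} {δ : ZMod 6 → D}

open Patch Gen

/-- two adjacent ring nodes which are no corners: not a single site, not a star, not two quads -/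
theorem Patch.two_noncorner [Fintype D] (hP : M.Patch A δ) {i : ZMod 6}
    (h1 : M.nx (δ i) ≠ δ (i + 1)) (h2 : M.nx (δ (i + 1)) ≠ δ (i + 1 + 1)) :
    (¬ ∃ r, ∀ e, A e ↔ M.SameSite r e) ∧ ¬ Star M A ∧ Nat.card {d // A d} ≠ 8 := by
  have key : ∀ j : ZMod 6, M.nx (δ j) = δ (j + 1) → j ≠ i ∧ j ≠ i + 1 := by
    intro j hj
    constructor
    · rintro rfl
      exact h1 hj
    · rintro rfl
      exact h2 hj
  have dec1 : ∀ i c : ZMod 6, (c ≠ i ∧ c ≠ i + 1) → (2 + c ≠ i ∧ 2 + c ≠ i + 1) →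
      (4 + c ≠ i ∧ 4 + c ≠ i + 1) → False := by decide
  have dec2 : ∀ i c : ZMod 6, (0 + c ≠ i ∧ 0 + c ≠ i + 1) → (1 + c ≠ i ∧ 1 + c ≠ i + 1) →
      (3 + c ≠ i ∧ 3 + c ≠ i + 1) → (4 + c ≠ i ∧ 4 + c ≠ i + 1) → False := by decide
  refine ⟨?_, fun hS => ?_, fun h8 => ?_⟩
  · rintro ⟨r, hr⟩
    have hAδ : ∀ d, A d → ∃ i, δ i = d := by
      intro d hd
      refine (hP.bd.mem d).1 ⟨hd, fun h1 => ?_⟩
      exact hP.legal.noloop d (((hr _).1 hd).symm.trans ((hr _).1 h1))
    obtain ⟨j, hj⟩ := hAδ (M.nx (δ i)) ((hP.sites _).2 (hP.inA i))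
    have h3 : δ i = M.nx.symm (δ j) := by rw [hj, Equiv.symm_apply_apply]
    exact h1 ((hP.corner_iff i j).1 h3).2
  · obtain ⟨c, q₀, q₂, q₄, hc⟩ := Star.exists_StarC hP hS
    have h3 := hc.ks (fun _ _ => False)
    have h4 : ∀ j : ZMod 6, (j = 0 ∨ j = 2 ∨ j = 4) → M.nx (δ (j + c)) = δ (j + c + 1) := by
      intro j hj
      have h5 := ((h3 j).2 hj).1
      have e : j + 1 + c = j + c + 1 := by ring
      rw [← e]
      exact h5
    refine dec1 i c ?_ (key _ (h4 2 (Or.inr (Or.inl rfl)))) (key _ (h4 4 (Or.inr (Or.inr rfl))))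
    have h5 := key _ (h4 0 (Or.inl rfl))
    rwa [zero_add] at h5
  · obtain ⟨c, r, r', hp⟩ := exists_P1 hP.legal hP.bd h8
    have h4 : ∀ j k : ZMod 6, k = j + 1 → M.nx (δ (j + c)) = δ (k + c) →
        M.nx (δ (j + c)) = δ (j + c + 1) := by
      rintro j k rfl h5
      have e : j + 1 + c = j + c + 1 := by ring
      rw [← e]
      exact h5
    have k0 : M.nx (δ (0 + c)) = δ (1 + c) := by
      have := hp.n.nx 3
      rw [hp.r3] at this
      exact this.trans hp.r0
    have k1 : M.nx (δ (1 + c)) = δ (2 + c) := by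
      have := hp.n.nx 0
      rw [hp.r0] at this
      exact this.trans hp.r1
    have k3 : M.nx (δ (3 + c)) = δ (4 + c) := by
      have := hp.n'.nx 0
      rw [hp.s0] at this
      exact this.trans hp.s1
    have k4 : M.nx (δ (4 + c)) = δ (5 + c) := by
      have := hp.n'.nx 1
      rw [hp.s1] at this
      exact this.trans hp.s2
    exact dec2 i c (key _ (h4 0 1 (by decide) k0)) (key _ (h4 1 2 (by decide) k1))
      (key _ (h4 3 4 (by decide) k3)) (key _ (h4 4 5 (by decide) k4))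

section

variable {Good : (ZMod 6 → Prop) → Prop → Rel → Prop} [Fintype D] (hG : M.Gen A δ) {F : D → Prop}
  (hF : Pre M A δ F) {o : D → Bool} (ho : ∀ d, o (M.nx d) = !o d) (ho' : ∀ d, o (M.al d) = !o d)

include hG hF

omit hG hF in
/-- the folded map is smaller -/
theorem card_foldF (hne : ∃ e, F e) : Nat.card {d // ¬ FR M F d} < Nat.card D := by
  obtain ⟨e, he⟩ := hne
  have h1 := Fintype.card_subtype_lt (p := fun d => ¬ FR M F d) (x := e)
    (not_not.2 (FoldSet.r0 he))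
  rw [Nat.card_eq_fintype_card, Nat.card_eq_fintype_card]
  convert h1

/-- **The induction hypothesis for the folded map**. -/
theorem Gen.ihF {B : Boxes D} (hO : M.Obj Good A δ B)
    (hne : ∃ e, F e) {n : ℕ} (hn : Nat.card D ≤ n) (IH : IHR Good n)
    (hq : ∀ x : {d // ¬ FR M F d}, A x.1 → (mapF hF ho ho' hG).deg x = 4) {i : ZMod 6}
    (h1 : (mapF hF ho ho' hG).nx (hdrF hF ho ho' hG i) ≠ hdrF hF ho ho' hG (i + 1))
    (h2 : (mapF hF ho ho' hG).nx (hdrF hF ho ho' hG (i + 1)) ≠ hdrF hF ho ho' hG (i + 1 + 1)) :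
    Good (KS (mapF hF ho ho' hG) (B.pull fun x : {d // ¬ FR M F d} => x.1).κ
        (hdrF hF ho ho' hG)) False
      (Rz (mapF hF ho ho' hG) (fun x => A x.1) (hdrF hF ho ho' hG)
        (B.pull fun x : {d // ¬ FR M F d} => x.1).β) := by
  have hP := hG.mapF_patch hF ho ho'
  obtain ⟨h3, h4, h5⟩ := Patch.two_noncorner hP h1 h2
  have h6 := IH _ _ _ _ _ (hO.mapF ho ho' hG hF) hq (by
    have c1 := card_add' fun x : {d // ¬ FR M F d} => A x.1
    have c2 := hP.card_root
    have c3 : Nat.card {x : {d // ¬ FR M F d} // A x.1} ≠ 8 := h5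
    omega) (lt_of_lt_of_le (card_foldF hne) hn)
  have h7 : StarL (mapF hF ho ho' hG) (fun x => A x.1) (hdrF hF ho ho' hG)
      (B.pull fun x : {d // ¬ FR M F d} => x.1) = False := by
    apply propext
    refine iff_of_false ?_ id
    rintro (h | h)
    · exact h4 h
    · exact h3 h.1
  rw [h7] at h6
  exact h6

/-- two adjacent ring nodes with folded specials -/
theorem Gen.noncorner_two {i : ZMod 6} (h1 : F (δ i)) (h2 : F (δ (i + 1))) :
    (mapF hF ho ho' hG).nx (hdrF hF ho ho' hG i) ≠ hdrF hF ho ho' hG (i + 1) ∧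
    (mapF hF ho ho' hG).nx (hdrF hF ho ho' hG (i + 1)) ≠ hdrF hF ho ho' hG (i + 1 + 1) :=
  ⟨hG.mapF_no_corner hF ho ho' h1, hG.mapF_no_corner hF ho ho' h2⟩

end

end DMap

end GT33
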