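import Pool.Agent.GT33.Graph

/-!
# GT33 module RES: the tree and its co-tree, with the degrees of the co-tree as a graph

`HasTree R a b` counts the sides of the edges outside of the tree at a face.  The neighbours of the face in the
co-tree are at most as many.
-/

namespace GT33

variable {V : Type*} {G : SimpleGraph V}

/-- the degree of a face in the co-tree is at most the number of sides of edges outside of the tree at it -/
theorem coTree_degree_le [Finite V] (R : Rotation G) (T : SimpleGraph V) (f : R.Face) :
    ((R.coTree T).neighborSet f).ncard ≤ {d : G.Dart | R.face d = f ∧ d.edge ∉ T.edgeSet}.ncard := by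
  have : Finite G.Dart := Finite.of_injective (fun d : G.Dart => d.toProd) fun a b h =>
    SimpleGraph.Dart.ext _ _ h
  have h1 : (R.coTree T).neighborSet f ⊆
      (fun d : G.Dart => R.face d.symm) '' {d : G.Dart | R.face d = f ∧ d.edge ∉ T.edgeSet} := by
    rintro g ⟨-, d, h2, h3, h4⟩
    exact ⟨d, ⟨h3, h2⟩, h4⟩
  exact (Set.ncard_le_ncard h1 (Set.toFinite _)).trans (Set.ncard_image_le (Set.toFinite _))

/-- the tree and its co-tree, all degree bounds spelled out -/
theorem HasTree.explicit [Finite V] {R : Rotation G} {a b : ℕ} (h : HasTree R a b) :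
    ∃ T : SimpleGraph V, T ≤ G ∧ T.IsTree ∧ (R.coTree T).IsTree ∧
      (∀ v, (T.neighborSet v).ncard ≤ a) ∧ (∀ f, ((R.coTree T).neighborSet f).ncard ≤ b) ∧
      ∀ f : R.Face, {d : G.Dart | R.face d = f ∧ d.edge ∉ T.edgeSet}.ncard ≤ b := by
  obtain ⟨T, h1, h2, h3, h4, h5⟩ := h
  exact ⟨T, h1, h2, h3, h4, fun f => (coTree_degree_le R T f).trans (h5 f), h5⟩

end GT33
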