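import Pool.Agent.GT33.DSmooth
import Pool.Agent.GT33.DState
import Pool.Agent.GT33.DContr

/-!
# GT33 module RESTS: the strands of a region and of its rest

`PairOn M A μ`: `μ` pairs the darts of `A` within their sites.  A port of `A` is a dart which leaves `A`.

* `exists_end`: the strand of a port `p` of `A` ends at a port `q ≠ p`, and contains no other port;
* `Str.port_unique`: uniqueness of the strand ends of `A` if the ends are given by an involution `m`;
* `exists_rest`: the matching `ρ` of the ports of `B`;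
* `rest_all`: if every dart of `A` is connected with a port of `A`, then every dart of `B ⊆ A` is connected in
  `B` with a port of `B`.
-/

namespace GT33

namespace DMap

variable {D : Type} {M : DMap D}

/-- `μ` pairs the darts of `A` within their sites -/
structure PairOn (M : DMap D) (A : D → Prop) (μ : D → D) : Prop where
  inv : ∀ d, A d → μ (μ d) = d
  ne : ∀ d, A d → μ d ≠ d
  site : ∀ d, A d → M.SameSite d (μ d)

variable {A B : D → Prop} {μ : D → D}

theorem PairOn.mono (h : M.PairOn A μ) (hBA : ∀ d, B d → A d) : M.PairOn B μ :=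
  ⟨fun d hd => h.inv d (hBA d hd), fun d hd => h.ne d (hBA d hd), fun d hd => h.site d (hBA d hd)⟩

theorem PairOn.mem (h : M.PairOn A μ) (hA : M.Sites A) {d : D} (hd : A d) : A (μ d) :=
  (hA.same (h.site d hd)).1 hd

theorem PairOn.pairing (h : M.PairOn A μ) (hA : M.Sites A) : Pairing M.nx μ A :=
  ⟨h.inv, fun _ hr => h.mem hA hr, h.ne, h.site⟩

/-- sets which are closed under the steps of the strands -/
theorem Str.closed (h : M.PairOn A μ) (hA : M.Sites A) {S : D → Prop}
    (h1 : ∀ d, A d → S d → S (μ d)) (h2 : ∀ d, A d → A (M.al d) → S d → S (M.al d)) {x y : D}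
    (hs : M.Str A μ x y) : S x ↔ S y := by
  induction hs with
  | rel x y hxy =>
    obtain ⟨hx, hy | ⟨hy, hy'⟩⟩ := hxy
    · subst hy
      refine ⟨h1 x hx, fun hh => ?_⟩
      have := h1 _ (h.mem hA hx) hh
      rwa [h.inv x hx] at this
    · subst hy
      refine ⟨h2 x hx hy', fun hh => ?_⟩
      have := h2 _ hy' (by rw [M.inv]; exact hx) hh
      rwa [M.inv] at this
  | refl x => exact Iff.rfl
  | symm x y _ ih => exact ih.symm
  | trans x y z _ _ ih1 ih2 => exact ih1.trans ih2

/-- strands stay in `A` -/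
theorem Str.mem_iff (h : M.PairOn A μ) (hA : M.Sites A) {x y : D} (hs : M.Str A μ x y) :
    A x ↔ A y :=
  Str.closed h hA (fun _ hd _ => h.mem hA hd) (fun _ _ hd _ => hd) hs

theorem Str.of_mu {x : D} (hx : A x) : M.Str A μ x (μ x) :=
  Relation.EqvGen.rel _ _ ⟨hx, Or.inl rfl⟩

theorem Str.of_al {x : D} (hx : A x) (hy : A (M.al x)) : M.Str A μ x (M.al x) :=
  Relation.EqvGen.rel _ _ ⟨hx, Or.inr ⟨rfl, hy⟩⟩

theorem DStrand_str (h : M.PairOn A μ) (hA : M.Sites A) {d e : D}
    (hs : DStrand M.al μ A d e) (hd : A d) : M.Str A μ d (M.al e) := by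
  induction hs with
  | @last d hl =>
    rw [M.inv]
    exact Relation.EqvGen.refl _
  | @step d e h1 h2 ih =>
    exact Relation.EqvGen.trans _ _ _ (Str.of_al hd h1)
      (Relation.EqvGen.trans _ _ _ (Str.of_mu h1) (ih (h.mem hA h1)))

theorem DStrand_mem (h : M.PairOn A μ) (hA : M.Sites A) {d e : D}
    (hs : DStrand M.al μ A d e) (hd : A d) : A (M.al e) :=
  (Str.mem_iff h hA (DStrand_str h hA hs hd)).1 hd

/-- the other end of the strand of a port -/
theorem exists_end [Finite D] (h : M.PairOn A μ) (hA : M.Sites A) {p : D} (hp : A p)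
    (hp' : ¬ A (M.al p)) :
    ∃ q, A q ∧ ¬ A (M.al q) ∧ q ≠ p ∧ M.Str A μ p q ∧
      ∀ y, A y → ¬ A (M.al y) → M.Str A μ p y → y = p ∨ y = q := by
  classical
  obtain ⟨e, he⟩ := exists_dstrand M.inv (h.pairing hA) hp'
  have he' : DStrand M.al μ A (μ p) e := by
    cases he with
    | last h1 =>
      rw [M.inv] at h1
      exact absurd hp h1
    | step h1 h2 =>
      rw [M.inv] at h2
      exact h2
  have hμp := h.mem hA hp
  have hq := DStrand_mem h hA he' hμp
  have hq' : ¬ A (M.al (M.al e)) := by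
    rw [M.inv]
    exact he.out
  have hstr : M.Str A μ p (M.al e) :=
    Relation.EqvGen.trans _ _ _ (Str.of_mu hp) (DStrand_str h hA he' hμp)
  have huniq : ∀ y, A y → ¬ A (M.al y) → M.Str A μ p y → y = p ∨ y = M.al e := by
    intro y hy hy' hs
    have key : (DStrand M.al μ A p e ∨ DStrand M.al μ A (μ p) e) ↔
        (DStrand M.al μ A y e ∨ DStrand M.al μ A (μ y) e) := by
      refine Str.closed h hA (S := fun x => DStrand M.al μ A x e ∨ DStrand M.al μ A (μ x) e)
        ?_ ?_ hs
      · rintro d hd (h1 | h1)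
        · right
          rw [h.inv d hd]
          exact h1
        · exact Or.inl h1
      · rintro d hd hd' (h1 | h1)
        · cases h1 with
          | last h2 => exact absurd hd' h2
          | step h2 h3 => exact Or.inr h3
        · left
          refine .step (by rw [M.inv]; exact hd) ?_
          rw [M.inv]
          exact h1
    rcases key.1 (Or.inr he') with h1 | h1
    · right
      cases h1 with
      | last h2 => exact (M.inv y).symm
      | step h2 h3 => exact absurd h2 hy'
    · left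
      have h2 : DStrand M.al μ A (M.al y) e := by
        refine .step (by rw [M.inv]; exact hy) ?_
        rw [M.inv]
        exact h1
      have h3 := he.rev M.inv (h.pairing hA) hp'
      have h4 := h2.rev M.inv (h.pairing hA) hy'
      exact M.al_inj (h4.unique h3)
  refine ⟨M.al e, hq, hq', ?_, hstr, huniq⟩
  intro heq
  -- parity
  have : Fintype D := Fintype.ofFinite D
  have huniq' : ∀ y, M.Str A μ p y → y ≠ p → A (M.al y) := by
    intro y hs hne
    by_contra hn
    rcases huniq y ((Str.mem_iff h hA hs).1 hp) hn hs with h1 | h1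
    · exact hne h1
    · exact hne (h1.trans heq)
  have s1 : ∑ y ∈ Finset.univ.filter (M.Str A μ p), (1 : ZMod 2) = 0 := by
    refine Finset.sum_involution (fun y _ => μ y) ?_ ?_ ?_ ?_
    · intro y _
      decide
    · intro y hy _
      exact h.ne y ((Str.mem_iff h hA (Finset.mem_filter.1 hy).2).1 hp)
    · intro y hy
      have hs := (Finset.mem_filter.1 hy).2
      refine Finset.mem_filter.2 ⟨Finset.mem_univ _, ?_⟩
      exact Relation.EqvGen.trans _ _ _ hs (Str.of_mu ((Str.mem_iff h hA hs).1 hp))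
    · intro y hy
      exact h.inv y ((Str.mem_iff h hA (Finset.mem_filter.1 hy).2).1 hp)
  have s2 : ∑ y ∈ Finset.univ.filter (fun y => M.Str A μ p y ∧ y ≠ p), (1 : ZMod 2) = 0 := by
    refine Finset.sum_involution (fun y _ => M.al y) ?_ ?_ ?_ ?_
    · intro y _
      decide
    · intro y _ _
      exact M.ne y
    · intro y hy
      obtain ⟨hs, hne⟩ := (Finset.mem_filter.1 hy).2
      have h1 := huniq' y hs hne
      refine Finset.mem_filter.2 ⟨Finset.mem_univ _, ?_, ?_⟩
      · exact Relation.EqvGen.trans _ _ _ hs (Str.of_al ((Str.mem_iff h hA hs).1 hp) h1)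
      · intro h2
        apply hp'
        rw [← h2, M.inv]
        exact (Str.mem_iff h hA hs).1 hp
    · intro y _
      exact M.inv y
  have s3 : Finset.univ.filter (M.Str A μ p) =
      insert p (Finset.univ.filter (fun y => M.Str A μ p y ∧ y ≠ p)) := by
    ext y
    simp only [Finset.mem_filter, Finset.mem_univ, true_and, Finset.mem_insert]
    constructor
    · intro hs
      by_cases hy : y = p
      · exact Or.inl hy
      · exact Or.inr ⟨hs, hy⟩
    · rintro (rfl | h1)
      · exact Relation.EqvGen.refl _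
      · exact h1.1
  rw [s3, Finset.sum_insert (by simp), s2, add_zero] at s1
  exact absurd s1 (by decide)

/-- uniqueness of the strand ends -/
theorem Str.port_unique [Finite D] (h : M.PairOn A μ) (hA : M.Sites A) {I : Type} {δ : I → D}
    (hinj : Function.Injective δ) (hport : ∀ i, A (δ i) ∧ ¬ A (M.al (δ i))) {m : I → I}
    (hm : ∀ i, m i ≠ i) (hstr : ∀ i, M.Str A μ (δ i) (δ (m i))) {i j : I}
    (hij : M.Str A μ (δ i) (δ j)) : j = i ∨ j = m i := by
  obtain ⟨q, _, _, _, _, hu⟩ := exists_end h hA (hport i).1 (hport i).2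
  rcases hu _ (hport j).1 (hport j).2 hij with h1 | h1
  · exact Or.inl (hinj h1)
  · rcases hu _ (hport (m i)).1 (hport (m i)).2 (hstr i) with h2 | h2
    · exact absurd (hinj h2) (hm i)
    · exact Or.inr (hinj (h1.trans h2.symm))

theorem Str.bd_unique [Finite D] {n : ℕ} {δ : ZMod n → D} (hb : M.Bd A n δ) (h : M.PairOn A μ)
    {m : ZMod n → ZMod n} (hm : ∀ i, m i ≠ i) (hstr : ∀ i, M.Str A μ (δ i) (δ (m i)))
    {i j : ZMod n} (hij : M.Str A μ (δ i) (δ j)) : j = i ∨ j = m i :=
  Str.port_unique h hb.site hb.inj (fun i => (hb.mem _).2 ⟨i, rfl⟩) hm hstr hij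

/-- the matching of the ports of a region -/
theorem exists_rest [Finite D] (h : M.PairOn B μ) (hB : M.Sites B) {P : Type} {γ : P → D}
    (hinj : Function.Injective γ) (hmem : ∀ d, (B d ∧ ¬ B (M.al d)) ↔ ∃ i, γ i = d) :
    ∃ ρ : P → P, (∀ i, ρ (ρ i) = i) ∧ (∀ i, ρ i ≠ i) ∧ (∀ i, M.Str B μ (γ i) (γ (ρ i))) ∧
      ∀ i j, M.Str B μ (γ i) (γ j) → j = i ∨ j = ρ i := by
  have hport : ∀ i, B (γ i) ∧ ¬ B (M.al (γ i)) := fun i => (hmem _).2 ⟨i, rfl⟩
  have hex : ∀ i, ∃ k, k ≠ i ∧ M.Str B μ (γ i) (γ k) ∧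
      ∀ j, M.Str B μ (γ i) (γ j) → j = i ∨ j = k := by
    intro i
    obtain ⟨q, hq, hq', hne, hs, hu⟩ := exists_end h hB (hport i).1 (hport i).2
    obtain ⟨k, rfl⟩ := (hmem q).1 ⟨hq, hq'⟩
    refine ⟨k, fun hk => hne (by rw [hk]), hs, fun j hj => ?_⟩
    rcases hu _ (hport j).1 (hport j).2 hj with h1 | h1
    · exact Or.inl (hinj h1)
    · exact Or.inr (hinj h1)
  choose ρ h1 h2 h3 using hex
  refine ⟨ρ, fun i => ?_, h1, h2, h3⟩
  rcases h3 (ρ i) i (Relation.EqvGen.symm _ _ (h2 i)) with h4 | h4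
  · exact absurd h4.symm (h1 i)
  · exact h4.symm

/-- every dart of the rest is connected with a port of the rest -/
theorem rest_all (h : M.PairOn A μ) (hA : M.Sites A) (hB : M.Sites B) (hBA : ∀ d, B d → A d)
    {I P : Type} {δ : I → D} {γ : P → D} (hport : ∀ i, ¬ A (M.al (δ i)))
    (hall : ∀ d, A d → ∃ i, M.Str A μ d (δ i))
    (hmem : ∀ d, (B d ∧ ¬ B (M.al d)) → ∃ i, γ i = d) {d : D} (hd : B d) :
    ∃ i, M.Str B μ d (γ i) := by
  by_contra hn
  have hBμ := h.mono hBA
  obtain ⟨i, hi⟩ := hall d (hBA d hd)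
  have hin : ∀ y, M.Str B μ d y → B y ∧ B (M.al y) := by
    intro y hy
    have h1 : B y := (Str.mem_iff hBμ hB hy).1 hd
    refine ⟨h1, ?_⟩
    by_contra h2
    obtain ⟨j, hj⟩ := hmem y ⟨h1, h2⟩
    exact hn ⟨j, by rw [hj]; exact hy⟩
  have key : M.Str B μ d d ↔ M.Str B μ d (δ i) := by
    refine Str.closed h hA (S := M.Str B μ d) ?_ ?_ hi
    · intro y _ hy
      exact Relation.EqvGen.trans _ _ _ hy (Str.of_mu (hin y hy).1)
    · intro y _ _ hy
      exact Relation.EqvGen.trans _ _ _ hy (Str.of_al (hin y hy).1 (hin y hy).2)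
  exact hport i (hBA _ (hin _ (key.1 (Relation.EqvGen.refl _))).2)

end DMap

end GT33
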