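import Pool.Agent.GT33.PeelY
import Pool.Agent.GT33.ChkZ
import Pool.Agent.GT33.GlueS

/-!
# GT33 module RWZ: entries for a through corner hexagon in the state `(2, 0, 1, 0)`

`Pack.entryZ`: such an entry gives the target.  `entZ_pack`: the clause for all packs which are no stars, from an entry.
`pairOK_entZ`: a pair from an entry; `pairOK_entZS`: the same if the folded map may be a star.
-/

open Classical

namespace GT33

open Chk

namespace DMap

variable {D : Type} {M : DMap D} {A : D → Prop} {δ : ZMod 6 → D}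

/-- the finite part of an entry for a through corner: the flips `l` and the choices -/
def EntZ (Good : (ZMod 6 → Prop) → Prop → Rel → Prop) (G : Rel → Prop) (N C : ZMod 6 → Bool)
    (c : ZMod 6) (Fl' : Flags) (s' : PState 6) (r' : ZMod 6 → ℕ) : Prop :=
  ∃ l : List (ZMod 6), l.Nodup ∧ (∀ k, k ∈ l ↔ reN N C k = true ∧ r' k = 1) ∧ FlipOK l s' r' ∧
    (∀ k, thrN N C k = true → (flipRs l s').u k ≠ 0) ∧
      EntryZF Good G N C c Fl' (flipRs l s') (fliprs l r')

/-- **an entry for a through corner gives the target** -/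
theorem Pack.entryZ [Fintype D] {Good : (ZMod 6 → Prop) → Prop → Rel → Prop} {f : ZMod 6 → Fin 3}
    {C : ZMod 6 → Bool} {B : Boxes D} {n : ℕ} {o : D → Bool} (h : Pack Good f C M A δ B n o)
    (hmono : MonoH Good) (hns : ¬ h.star) {c : ZMod 6} (hc : ZCor (nOf f C) C c)
    (hlec : ∀ c', lecN (nOf f C) C c' = false) {G : Rel → Prop}
    (hsrc : ∀ σ b, (∀ F G t, F.Le G → b G t → b F t) →
      Good (fun j => j ≠ c ∧ KN (nOf f C) j) σ b →
      ∃ Fl' s' r', b Fl' s' ∧ ZAlt (nOf f C) c Fl' s' r' ∧ EntZ Good G (nOf f C) C c Fl' s' r') :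
    G (Rz M A δ B.β) := by
  obtain ⟨Fl', s', r', μ', ω', ⟨l, e1, e2, e3, e4, e5⟩, h2, h3, h4⟩ :=
    h.srcZ hmono hns hc (P := EntZ Good G (nOf f C) C c) hsrc
  obtain ⟨t, ρ, h5, h6⟩ := Gen.peelZ (hG := h.gen) (hF := h.pre) (ho := h.ho) (ho' := h.ho')
    (fun γ F G t h1 h2 h3 h4 => h.obj.anti γ F G t h1 h2 h3 h4) h.obj.touch h.nc h3 h4 hlec
    h2.ex.su h2.mm h2.mne (fun k hk => h2.ex.cor k ⟨fun hkc => by
      rw [hkc] at hk
      unfold reN at hk
      rw [hc.cc, hc.n1] at hk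
      simp at hk, reN_kn hk⟩) e1 e2 e3 e4
  obtain ⟨Fl, s, h7, a, r, p, q, w, h8, h9, h10⟩ := e5 t ρ h5
  have hch := h.gen.corHex h.pre ((h.nc.c c).2 hc.cc)
  have ha : ∀ α, M.SiteNum 6 α → A (α 0) → ∀ F G t, F.Le G → B.β α G t → B.β α F t :=
    fun α h1 h2 F G t => h.obj.anti α F G t h1 h2
  exact h7 _ (h6 Fl s a r p q w h8 (h9.box h.obj
    (fun c hc => h.gen.corHex h.pre ((h.nc.c c).2 hc)) h.nks)
    (h10.co _ _ _ (ha _ hch.num (hch.kA 0)) (h.obj.good _ hch.num (hch.kA 0)) fun h4 =>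
      h.nks c ⟨(h.nc.c c).2 hc.cc, Or.inr ⟨_, 5, hch.num, hch.h5, h4⟩⟩)
    fun α x g1 g2 _ g4 g5 g6 => h10.lh x g4 g5 g6 _ _ _ (ha α g1 g2) (h.obj.good α g1 g2))

end DMap

/-- the corner set of the folded map without `c`, as a list of facts -/
def fcZ (N : ℕ) (c : ZMod 6) : Fc := zs.map fun k => (k, !decide (k = c) && (on N (k - 1) && !on N k))

theorem fcZ_ok (N : ℕ) (c : ZMod 6) : FcOk (fun j => j ≠ c ∧ DMap.KN (on N) j) (fcZ N c) := by
  intro p hp
  unfold fcZ at hp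
  rw [List.mem_map] at hp
  obtain ⟨k, -, rfl⟩ := hp
  unfold DMap.KN
  simp only [Bool.and_eq_true, Bool.not_eq_true', decide_eq_false_iff_not, ne_eq]

/-- the check of an entry for the through corner `c`, its source included -/
def entGZ (SL BL : List (Fc × Alt)) (c : ZMod 6) (e : Ent) : Bool :=
  entPair e.g e.N e.C [] && lookB SL (fcZ e.N c) e.s && zcorB c (on e.N) (on e.C) &&
    (all6 fun j => !lecN (on e.N) (on e.C) j) && srcB (fun i => decide (i = c)) e &&
      zaltB c e && entZB BL (gOf e.g) c e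

/-- **the clause for the packs which are no stars** -/
theorem entZ_pack {SL BL : List (Fc × Alt)} (hSL : ∀ p ∈ SL, Fact tbl p.1 p.2)
    (hBL : ∀ p ∈ BL, Fact tbl p.1 p.2) {c : ZMod 6} {e : Ent} (h0 : entGZ SL BL c e = true) {n : ℕ}
    (hn : gen0W[e.g]? = some n) {D : Type} [Fintype D] {M : DMap D} {A : D → Prop} {δ : ZMod 6 → D}
    {B : Boxes D} {m : ℕ} {o : D → Bool} (h : DMap.Pack (GoodS tbl) (wd n) (on e.C) M A δ B m o)
    (hns : ¬ h.star) : DMap.ClS (gOf e.g) (DMap.Rz M A δ B.β) := by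
  unfold entGZ at h0
  simp only [Bool.and_eq_true, all6_iff, Bool.not_eq_true'] at h0
  obtain ⟨⟨⟨⟨⟨⟨h1, h2⟩, h3⟩, h4⟩, h5⟩, h6⟩, h7⟩ := h0
  obtain ⟨hN, -, -⟩ := entPair_spec h1 hn
  have hs := srcB_sound h5
  refine h.entryZ (GoodS.mono tbl) hns (c := c) (by rw [hN]; exact zcor_of h3)
    (by rw [hN]; exact h4) fun σ b hb hg => ?_
  rw [hN] at hg ⊢
  refine ⟨e.s.F, e.s.S, rOf e.s.u 6, lookB_fact hSL h2 _ _ _ hb hg (fcZ_ok e.N c),
    zalt_of h5 h6, flL e, hs.nd, hs.mem, hs.flip, hs.thr, ?_⟩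
  rw [hs.fs, hs.fr]
  exact entZ_sound hBL h7

/-- a through corner next to a right end -/
def nsB (N C : ZMod 6 → Bool) : Bool :=
  zs.any fun c => C c && N (c + 1) && N (c - 1) && !N (c + 2) && !C (c + 2)

theorem nsB_star {T : List SRow} {n N C : ℕ} (hN : DMap.nOf (wd n) (on C) = on N)
    (h0 : nsB (on N) (on C) = true) {D : Type} [Fintype D] {M : DMap D} {A : D → Prop}
    {δ : ZMod 6 → D} {B : Boxes D} {m : ℕ} {o : D → Bool}
    (h : DMap.Pack (GoodS T) (wd n) (on C) M A δ B m o) : ¬ h.star := by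
  unfold nsB at h0
  rw [List.any_eq_true] at h0
  obtain ⟨c, -, h1⟩ := h0
  simp only [Bool.and_eq_true, Bool.not_eq_true'] at h1
  exact h.not_star (c := c) h1.1.1.1.1 (by rw [hN]; exact h1.1.1.1.2) (by rw [hN]; exact h1.1.1.2)
    (by rw [hN]; exact h1.1.2) h1.2

/-- **a pair from an entry for a through corner** -/
theorem pairOK_entZ {SL BL : List (Fc × Alt)} (hSL : ∀ p ∈ SL, Fact tbl p.1 p.2)
    (hBL : ∀ p ∈ BL, Fact tbl p.1 p.2) {c : ZMod 6} {e : Ent} (h0 : entGZ SL BL c e = true)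
    (hns : nsB (on e.N) (on e.C) = true) : PairOK e.g e.C := by
  intro g hg n hn
  rw [← gOf_eq hg]
  have h1 : entPair e.g e.N e.C [] = true := by
    unfold entGZ at h0
    simp only [Bool.and_eq_true] at h0
    exact h0.1.1.1.1.1.1
  refine DMap.wordOK_pack (wd_ne_one n) (C := on e.C) (fun _ => Iff.rfl)
    fun D _ M A δ B m o h => ?_
  exact entZ_pack hSL hBL h0 hn h (nsB_star (entPair_spec h1 hn).1 hns h)

/-- **a pair from an entry for a through corner**, if the folded map may be a star -/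
theorem pairOK_entZS {SL BL : List (Fc × Alt)} (hSL : ∀ p ∈ SL, Fact tbl p.1 p.2)
    (hBL : ∀ p ∈ BL, Fact tbl p.1 p.2) {c : ZMod 6} {e : Ent} (h0 : entGZ SL BL c e = true)
    (hst : ∀ {n : ℕ}, gen0W[e.g]? = some n → ∀ {D : Type} [Fintype D] {M : DMap D} {A : D → Prop}
      {δ : ZMod 6 → D} {B : Boxes D} {m : ℕ} {o : D → Bool}
      (h : DMap.Pack (GoodS tbl) (wd n) (on e.C) M A δ B m o), h.star →
        DMap.ClS (gOf e.g) (DMap.Rz M A δ B.β)) : PairOK e.g e.C := by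
  intro g hg n hn
  rw [← gOf_eq hg]
  refine DMap.wordOK_pack (wd_ne_one n) (C := on e.C) (fun _ => Iff.rfl)
    fun D _ M A δ B m o h => ?_
  by_cases hS : h.star
  · exact hst hn h hS
  · exact entZ_pack hSL hBL h0 hn h hS

end GT33
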