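import Pool.Agent.GT33.PeelF

/-!
# GT33 module SHIFTZ: moving units inside of nodes

`LShift`: local states up to moving two units.  `RealL.shift`, `RealL.unshift`: moving two units inside of two nodes.
-/

open Classical

namespace GT33

namespace DMap

variable {D : Type} {M : DMap D}

/-- one at `x` -/
noncomputable def one (x d : D) : ℕ := if d = x then 1 else 0

theorem one_self (x : D) : one x x = 1 := if_pos rfl

theorem one_ne {x y : D} (h : y ≠ x) : one x y = 0 := if_neg h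

/-- the local states after adding units at `p1`, `p2` and removing units at `m1`, `m2` -/
def LShift (L : LS D) (p1 p2 m1 m2 : D) : LS D := fun n γ t =>
  ∃ t0 : PState n, L n γ t0 ∧ t.m = t0.m ∧
    ∀ i, t.u i + one m1 (γ i) + one m2 (γ i) = t0.u i + one p1 (γ i) + one p2 (γ i)

variable [Fintype D] {A : D → Prop}

theorem usum_one {x : D} (hx : A x) (d : D) :
    M.usum A (one x) d = if M.SameNode d x then 1 else 0 := by
  unfold usum one
  rw [Finset.sum_ite_eq']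
  by_cases h : M.SameNode d x
  · rw [if_pos h, if_pos (mem_nodeIn.2 ⟨h, hx⟩)]
  · rw [if_neg h, if_neg fun h' => h (mem_nodeIn.1 h').1]

/-- the relation of the units -/
def Sh (A : D → Prop) (p1 p2 m1 m2 : D) (ω ω' : D → ℕ) : Prop :=
  ∀ d, A d → ω' d + one m1 d + one m2 d = ω d + one p1 d + one p2 d

theorem Sh.usum {p1 p2 m1 m2 : D} {ω ω' : D → ℕ} (h : Sh A p1 p2 m1 m2 ω ω') (hp1 : A p1)
    (hp2 : A p2) (hm1 : A m1) (hm2 : A m2) (h1 : M.SameNode p1 m1) (h2 : M.SameNode p2 m2) (d : D) :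
    M.usum A ω' d = M.usum A ω d := by
  have h3 : M.usum A ω' d + M.usum A (one m1) d + M.usum A (one m2) d =
      M.usum A ω d + M.usum A (one p1) d + M.usum A (one p2) d := by
    unfold DMap.usum
    rw [← Finset.sum_add_distrib, ← Finset.sum_add_distrib, ← Finset.sum_add_distrib,
      ← Finset.sum_add_distrib]
    exact Finset.sum_congr rfl fun e he => h e (mem_nodeIn.1 he).2
  rw [usum_one hm1, usum_one hm2, usum_one hp1, usum_one hp2] at h3
  have e1 : M.SameNode d m1 ↔ M.SameNode d p1 := ⟨fun h => h.trans h1.symm, fun h => h.trans h1⟩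
  have e2 : M.SameNode d m2 ↔ M.SameNode d p2 := ⟨fun h => h.trans h2.symm, fun h => h.trans h2⟩
  simp only [e1, e2] at h3
  omega

variable {n : ℕ} {δ : ZMod n → D} {s : PState n} {μ : D → D} {ω ω' : D → ℕ} {L : LS D}

/-- moving units -/
theorem RealL.shift (h : M.RealL L A δ s μ ω) (hA : M.Sites A) {p1 p2 m1 m2 : D} (hp1 : A p1)
    (hp2 : A p2) (hm1 : A m1) (hm2 : A m2) (h1 : M.SameNode p1 m1) (h2 : M.SameNode p2 m2)
    (hs : Sh A p1 p2 m1 m2 ω ω') : M.RealL (LShift L p1 p2 m1 m2) A δ s μ ω' := by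
  refine ⟨fun d hd => ?_, h.str, h.all, fun i => ?_, fun d hd => ?_⟩
  · obtain ⟨k, γ, t, hk, hγ, ⟨i, hi⟩, ht, hst⟩ := h.loc d hd
    refine ⟨k, γ, ⟨t.m, fun i => ω' (γ i)⟩, hk, hγ, ⟨i, hi⟩, ⟨t, ht, rfl, fun j => ?_⟩,
      fun j => ⟨(hst j).1, rfl⟩⟩
    have h3 := hs (γ j) ((hA.same (hγ.same hk i j)).1 (by rw [hi]; exact hd))
    rw [(hst j).2] at h3
    exact h3
  · rw [hs.usum hp1 hp2 hm1 hm2 h1 h2]
    exact h.bdry i
  · rw [hs.usum hp1 hp2 hm1 hm2 h1 h2]
    exact h.inner d hd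

/-- moving units back -/
theorem RealL.unshift {p1 p2 m1 m2 : D} (h : M.RealL (LShift L p1 p2 m1 m2) A δ s μ ω') (hp1 : A p1)
    (hp2 : A p2) (hm1 : A m1) (hm2 : A m2) (h1 : M.SameNode p1 m1) (h2 : M.SameNode p2 m2) :
    ∃ ω, Sh A p1 p2 m1 m2 ω ω' ∧ M.RealL L A δ s μ ω := by
  have hs : Sh A p1 p2 m1 m2 (fun d => ω' d + one m1 d + one m2 d - one p1 d - one p2 d) ω' := by
    intro d hd
    obtain ⟨k, γ, t, hk, hγ, ⟨i, hi⟩, ⟨t0, -, -, h3⟩, hst⟩ := h.loc d hd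
    have h4 := h3 i
    rw [← (hst i).2, hi] at h4
    show _ = ω' d + one m1 d + one m2 d - one p1 d - one p2 d + one p1 d + one p2 d
    omega
  refine ⟨_, hs, fun d hd => ?_, h.str, h.all, fun i => ?_, fun d hd => ?_⟩
  · obtain ⟨k, γ, t, hk, hγ, ⟨i, hi⟩, ⟨t0, h3, h4, h5⟩, hst⟩ := h.loc d hd
    refine ⟨k, γ, t0, hk, hγ, ⟨i, hi⟩, h3, fun j => ⟨by rw [(hst j).1, h4], ?_⟩⟩
    have h6 := h5 j
    rw [← (hst j).2] at h6
    show ω' (γ j) + one m1 (γ j) + one m2 (γ j) - one p1 (γ j) - one p2 (γ j) = t0.u j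
    omega
  · rw [← hs.usum hp1 hp2 hm1 hm2 h1 h2]
    exact h.bdry i
  · rw [← hs.usum hp1 hp2 hm1 hm2 h1 h2]
    exact h.inner d hd

end DMap

end GT33
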