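import Pool.Agent.GT33.Defs

/-!
# GT33 module SMOOTH: plane minors

Removing a set `S` of crossings by a state `T` (the edges of `G` in `S` are contracted or deleted): the
strand which leaves along a dart runs until it arrives at a crossing outside `S`.
-/

namespace GT33

open SN78

variable {X : Type}

/-- The strand which leaves along the dart `d` and turns at all crossings of `S` ends with the dart
`e` of a crossing outside `S`. -/
inductive Strand (α : X × ZMod 4 → X × ZMod 4) (T : X × ZMod 4 → Bool) (S : X → Prop) :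
    X × ZMod 4 → X × ZMod 4 → Prop
  | last {d : X × ZMod 4} (h : ¬ S (α d).1) : Strand α T S d (α d)
  | step {d e : X × ZMod 4} (h : S (α d).1) (h' : Strand α T S (turn T (α d)) e) : Strand α T S d e

/-- the dart of the crossing outside `S` as a dart of the old map -/
def lift {S : X → Prop} (d : {x // ¬ S x} × ZMod 4) : X × ZMod 4 := (d.1.1, d.2)

open Classical in
/-- the map without the crossings of `S` -/
noncomputable def smooth (α : X × ZMod 4 → X × ZMod 4) (T : X × ZMod 4 → Bool) (S : X → Prop)
    (d : {x // ¬ S x} × ZMod 4) : {x // ¬ S x} × ZMod 4 :=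
  if h : ∃ e : {x // ¬ S x} × ZMod 4, Strand α T S (lift d) (lift e) then h.choose else d

/-- sectors which are in the same face after smoothing `S` -/
def JoinedOn (α : X × ZMod 4 → X × ZMod 4) (T : X × ZMod 4 → Bool) (S : X → Prop) :
    X × ZMod 4 → X × ZMod 4 → Prop :=
  Relation.EqvGen fun a b => b = fs α a ∨ (S a.1 ∧ T a = true ∧ b = op a)

section

variable {α : X × ZMod 4 → X × ZMod 4} {T : X × ZMod 4 → Bool} {S : X → Prop}

theorem turn_fst (T : X × ZMod 4 → Bool) (d : X × ZMod 4) : (turn T d).1 = d.1 := by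
  unfold turn
  split_ifs <;> rfl

theorem lift_inj : Function.Injective (lift : {x // ¬ S x} × ZMod 4 → X × ZMod 4) := by
  rintro ⟨⟨x, hx⟩, i⟩ ⟨⟨y, hy⟩, j⟩ h
  simp only [lift, Prod.mk.injEq] at h
  obtain ⟨rfl, rfl⟩ := h
  rfl

theorem lift_fst (d : {x // ¬ S x} × ZMod 4) : ¬ S (lift d).1 := d.1.2

theorem exists_lift {d : X × ZMod 4} (h : ¬ S d.1) : ∃ e : {x // ¬ S x} × ZMod 4, lift e = d :=
  ⟨(⟨d.1, h⟩, d.2), rfl⟩

theorem lift_nx (d : {x // ¬ S x} × ZMod 4) : lift (nx d) = nx (lift d) := rfl

theorem lift_pv (d : {x // ¬ S x} × ZMod 4) : lift (pv d) = pv (lift d) := rfl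

theorem lift_op (d : {x // ¬ S x} × ZMod 4) : lift (op d) = op (lift d) := rfl

theorem Strand.out {d e : X × ZMod 4} (h : Strand α T S d e) : ¬ S e.1 := by
  induction h with
  | last h => exact h
  | step _ _ ih => exact ih

theorem Strand.unique {d e e' : X × ZMod 4} (h : Strand α T S d e) (h' : Strand α T S d e') :
    e = e' := by
  induction h with
  | last h =>
    cases h' with
    | last h1 => rfl
    | step h1 h2 => exact absurd h1 h
  | step h1 h2 ih =>
    cases h' with
    | last h3 => exact absurd h1 h3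
    | step h3 h4 => exact ih h4

theorem Strand.congr {T' : X × ZMod 4 → Bool} (hT : ∀ d : X × ZMod 4, S d.1 → T d = T' d)
    {d e : X × ZMod 4} (h : Strand α T S d e) : Strand α T' S d e := by
  induction h with
  | last h => exact .last h
  | @step d e h1 h2 ih =>
    refine .step h1 ?_
    have : turn T' (α d) = turn T (α d) := by
      unfold turn
      rw [hT _ h1]
    rw [this]
    exact ih

/-- the reversed strand -/
theorem Strand.rev_aux (hi : ∀ d, α (α d) = d) (hT : IsState T) {d e : X × ZMod 4}
    (h : Strand α T S d e) :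
    (¬ S d.1 → Strand α T S e d) ∧ (S d.1 → ∀ g, Strand α T S (turn T d) g → Strand α T S e g) := by
  induction h with
  | @last d h =>
    refine ⟨fun h1 => ?_, fun h1 g hg => ?_⟩
    · have : Strand α T S (α d) (α (α d)) := .last (by rw [hi]; exact h1)
      rwa [hi] at this
    · refine .step (by rw [hi]; exact h1) ?_
      rw [hi]
      exact hg
  | @step d e h1 h2 ih =>
    have h3 : S (turn T (α d)).1 := by rw [turn_fst]; exact h1
    have h4 := ih.2 h3
    rw [turn_turn hT] at h4
    refine ⟨fun h5 => ?_, fun h5 g hg => ?_⟩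
    · apply h4
      have : Strand α T S (α d) (α (α d)) := .last (by rw [hi]; exact h5)
      rwa [hi] at this
    · apply h4
      refine .step (by rw [hi]; exact h5) ?_
      rw [hi]
      exact hg

theorem Strand.rev (hi : ∀ d, α (α d) = d) (hT : IsState T) {d e : X × ZMod 4}
    (h : Strand α T S d e) (hd : ¬ S d.1) : Strand α T S e d :=
  (h.rev_aux hi hT).1 hd

theorem Strand.rev' (hi : ∀ d, α (α d) = d) (hT : IsState T) {d e g : X × ZMod 4}
    (h : Strand α T S d e) (hd : S d.1) (hg : Strand α T S (turn T d) g) : Strand α T S e g :=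
  (h.rev_aux hi hT).2 hd g hg

theorem exists_strand [Finite X] (hi : ∀ d, α (α d) = d) (hT : IsState T) {d : X × ZMod 4}
    (hd : ¬ S d.1) : ∃ e, Strand α T S d e := by
  by_contra hcon
  have hs : ∀ a : X × ZMod 4, (¬ ∃ e, Strand α T S a e) →
      S (α a).1 ∧ ¬ ∃ e, Strand α T S (turn T (α a)) e := by
    intro a ha
    have h1 : S (α a).1 := by
      by_contra h1
      exact ha ⟨_, .last h1⟩
    exact ⟨h1, fun ⟨e, he⟩ => ha ⟨e, .step h1 he⟩⟩
  have hα : Function.Involutive α := hi
  have ht : Function.Involutive (turn T) := turn_turn hT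
  set p : Equiv.Perm (X × ZMod 4) := hα.toPerm.trans ht.toPerm with hp
  obtain ⟨n, hn, hpn⟩ := (isOfFinOrder_iff_pow_eq_one (x := p)).1 (isOfFinOrder_of_finite p)
  have key : ∀ k : ℕ, (¬ ∃ e, Strand α T S ((p ^ k) d) e) ∧ (0 < k → S ((p ^ k) d).1) := by
    intro k
    induction k with
    | zero => exact ⟨hcon, fun h => absurd h (lt_irrefl _)⟩
    | succ k ih =>
      have h1 := hs _ ih.1
      have h2 : (p ^ (k + 1)) d = turn T (α ((p ^ k) d)) := by
        rw [pow_succ', Equiv.Perm.mul_apply]
        rfl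
      rw [h2]
      exact ⟨h1.2, fun _ => by rw [turn_fst]; exact h1.1⟩
  have := (key n).2 hn
  rw [hpn] at this
  exact hd this

theorem smooth_spec [Finite X] (hi : ∀ d, α (α d) = d) (hT : IsState T)
    (d : {x // ¬ S x} × ZMod 4) : Strand α T S (lift d) (lift (smooth α T S d)) := by
  classical
  obtain ⟨e, he⟩ := exists_strand (S := S) hi hT (lift_fst d)
  obtain ⟨e', rfl⟩ := exists_lift he.out
  have hex : ∃ e : {x // ¬ S x} × ZMod 4, Strand α T S (lift d) (lift e) := ⟨e', he⟩
  have : smooth α T S d = hex.choose := by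
    unfold smooth
    rw [dif_pos hex]
  rw [this]
  exact hex.choose_spec

theorem smooth_eq [Finite X] (hi : ∀ d, α (α d) = d) (hT : IsState T)
    {d e : {x // ¬ S x} × ZMod 4} (h : Strand α T S (lift d) (lift e)) : smooth α T S d = e :=
  lift_inj ((smooth_spec hi hT d).unique h)

theorem smooth_smooth [Finite X] (hi : ∀ d, α (α d) = d) (hT : IsState T)
    (d : {x // ¬ S x} × ZMod 4) : smooth α T S (smooth α T S d) = d :=
  smooth_eq hi hT ((smooth_spec hi hT d).rev hi hT (lift_fst d))

theorem turn_ne (T : X × ZMod 4 → Bool) (d : X × ZMod 4) : turn T d ≠ d := by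
  rcases d with ⟨x, i⟩
  unfold turn
  split_ifs <;> simp only [pv, nx, ne_eq, Prod.mk.injEq, true_and]
  · clear * -; revert i; decide
  · clear * -; revert i; decide

theorem o_turn {o : X × ZMod 4 → Bool} (ho : Check α o) (T : X × ZMod 4 → Bool) (d : X × ZMod 4) :
    o (turn T d) = !o d := by
  unfold turn
  split_ifs
  · exact ho.pv d
  · exact ho.nx d

theorem Strand.o {o : X × ZMod 4 → Bool} (ho : Check α o) {d e : X × ZMod 4}
    (h : Strand α T S d e) : o e = !o d := by
  induction h with
  | last h => exact ho.al _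
  | step h1 h2 ih => rw [ih, o_turn ho, ho.al, Bool.not_not]

theorem smooth_check [Finite X] {o : X × ZMod 4 → Bool} (hi : ∀ d, α (α d) = d) (ho : Check α o)
    (hT : IsState T) :
    Check (smooth α T S) (fun d : {x // ¬ S x} × ZMod 4 => o (lift d)) :=
  ⟨fun d => ho.nx (lift d), fun d => (smooth_spec hi hT d).o ho⟩

theorem Check.ne {o : X × ZMod 4 → Bool} (ho : Check α o) (d : X × ZMod 4) : α d ≠ d := by
  intro h
  have := ho.al d
  rw [h] at this
  cases hd : o d <;> rw [hd] at this <;> exact absurd this (by decide)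

/-! ### faces -/

theorem JoinedOn.fs (d : X × ZMod 4) : JoinedOn α T S d (fs α d) :=
  Relation.EqvGen.rel _ _ (Or.inl rfl)

theorem JoinedOn.op {d : X × ZMod 4} (h : S d.1) (hd : T d = true) : JoinedOn α T S d (op d) :=
  Relation.EqvGen.rel _ _ (Or.inr ⟨h, hd, rfl⟩)

theorem Strand.joinedOn (hT : IsState T) {d e : X × ZMod 4}
    (h : Strand α T S d e) : JoinedOn α T S d (pv e) := by
  induction h with
  | last h => exact JoinedOn.fs _
  | @step d e h1 h2 ih =>
    refine Relation.EqvGen.trans _ _ _ (JoinedOn.fs d) (Relation.EqvGen.trans _ _ _ ?_ ih)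
    show JoinedOn α T S (pv (α d)) (turn T (α d))
    cases ha : T (α d)
    · have e : turn T (α d) = nx (α d) := by simp [turn, ha]
      rw [e]
      have h3 : T (pv (α d)) = true := by rw [hT.pv, ha]; rfl
      have h4 : op (pv (α d)) = nx (α d) := by rw [← nx_nx, nx_pv]
      rw [← h4]
      exact JoinedOn.op h1 h3
    · have e : turn T (α d) = pv (α d) := by simp [turn, ha]
      rw [e]
      exact Relation.EqvGen.refl _

theorem smooth_joinedOn [Finite X] (hi : ∀ d, α (α d) = d) (hT : IsState T)
    (d : {x // ¬ S x} × ZMod 4) : JoinedOn α T S (lift d) (lift (fs (smooth α T S) d)) :=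
  (smooth_spec hi hT d).joinedOn hT

theorem face_eq_iff {Y : Type} {β : Y × ZMod 4 → Y × ZMod 4} {d e : Y × ZMod 4} :
    face β d = face β e ↔ Relation.EqvGen (fun a b => fs β a = b) d e := Quot.eq

theorem face_fs {Y : Type} (β : Y × ZMod 4 → Y × ZMod 4) (d : Y × ZMod 4) :
    face β (fs β d) = face β d :=
  (face_eq_iff.2 (Relation.EqvGen.rel _ _ rfl)).symm

/-- the same face after smoothing -/
theorem joinedOn_of_face [Finite X] (hi : ∀ d, α (α d) = d) (hT : IsState T)
    {d e : {x // ¬ S x} × ZMod 4} (h : face (smooth α T S) d = face (smooth α T S) e) :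
    JoinedOn α T S (lift d) (lift e) := by
  rw [face_eq_iff] at h
  induction h with
  | rel a b hab => subst hab; exact smooth_joinedOn hi hT a
  | refl a => exact Relation.EqvGen.refl _
  | symm a b _ ih => exact Relation.EqvGen.symm _ _ ih
  | trans a b c _ _ ih1 ih2 => exact Relation.EqvGen.trans _ _ _ ih1 ih2

/-- the same face before smoothing -/
theorem joinedOn_of_face' {d e : X × ZMod 4} (h : face α d = face α e) : JoinedOn α T S d e := by
  rw [face_eq_iff] at h
  induction h with
  | rel a b hab => subst hab; exact JoinedOn.fs a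
  | refl a => exact Relation.EqvGen.refl _
  | symm a b _ ih => exact Relation.EqvGen.symm _ _ ih
  | trans a b c _ _ ih1 ih2 => exact Relation.EqvGen.trans _ _ _ ih1 ih2

/-! ### functions on the darts -/

open Classical in
/-- a function on the darts of the new map, extended along the strands (and by `0`) -/
noncomputable def ext (α : X × ZMod 4 → X × ZMod 4) (T : X × ZMod 4 → Bool) (S : X → Prop)
    (c : {x // ¬ S x} × ZMod 4 → ZMod 2) (d : X × ZMod 4) : ZMod 2 :=
  if h : ∃ e : {x // ¬ S x} × ZMod 4, Strand α T S d (lift e) then c h.choose else 0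

theorem ext_eq (c : {x // ¬ S x} × ZMod 4 → ZMod 2) {d : X × ZMod 4} {e : {x // ¬ S x} × ZMod 4}
    (h : Strand α T S d (lift e)) : ext α T S c d = c e := by
  classical
  have hex : ∃ e : {x // ¬ S x} × ZMod 4, Strand α T S d (lift e) := ⟨e, h⟩
  unfold ext
  rw [dif_pos hex]
  congr 1
  exact lift_inj (hex.choose_spec.unique h)

theorem ext_zero (c : {x // ¬ S x} × ZMod 4 → ZMod 2) {d : X × ZMod 4}
    (h : ¬ ∃ e, Strand α T S d e) : ext α T S c d = 0 := by
  classical
  unfold ext
  rw [dif_neg]
  rintro ⟨e, he⟩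
  exact h ⟨_, he⟩

theorem ext_lift [Finite X] (hi : ∀ d, α (α d) = d) (hT : IsState T)
    {c : {x // ¬ S x} × ZMod 4 → ZMod 2} (hc : ∀ d, c (smooth α T S d) = c d)
    (d : {x // ¬ S x} × ZMod 4) : ext α T S c (lift d) = c d := by
  rw [ext_eq c (smooth_spec hi hT d), hc]

/-- the two ends of the strand through the dart `d` of a crossing in `S` -/
theorem ends [Finite X] (hi : ∀ d, α (α d) = d) (hT : IsState T) {d e : X × ZMod 4} (hd : S d.1)
    (h : Strand α T S d e) : ∃ g, Strand α T S (turn T d) g ∧ Strand α T S e g := by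
  obtain ⟨g, hg⟩ := exists_strand (S := S) hi hT h.out
  -- the strand from `e` goes back to `d` and continues
  have key : ∀ a b : X × ZMod 4, Strand α T S a b → S a.1 → Strand α T S b g →
      Strand α T S (turn T a) g := by
    intro a b hab
    induction hab with
    | @last a h1 =>
      intro h2 h3
      cases h3 with
      | last h4 => rw [hi] at h4; exact absurd h2 h4
      | step h4 h5 => rw [hi] at h5; exact h5
    | @step a b h1 h2 ih =>
      intro h3 h4
      have h5 : S (turn T (α a)).1 := by rw [turn_fst]; exact h1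
      have h6 := ih h5 h4
      rw [turn_turn hT] at h6
      cases h6 with
      | last h7 => rw [hi] at h7; exact absurd h3 h7
      | step h7 h8 => rw [hi] at h8; exact h8
  exact ⟨g, key d e h hd hg, hg⟩

theorem ext_turn [Finite X] (hi : ∀ d, α (α d) = d) (hT : IsState T)
    {c : {x // ¬ S x} × ZMod 4 → ZMod 2} (hc : ∀ d, c (smooth α T S d) = c d)
    {d : X × ZMod 4} (hd : S d.1) : ext α T S c (turn T d) = ext α T S c d := by
  by_cases h : ∃ e, Strand α T S d e
  · obtain ⟨e, he⟩ := h
    obtain ⟨g, hg, hg'⟩ := ends hi hT hd he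
    obtain ⟨e', rfl⟩ := exists_lift he.out
    obtain ⟨g', rfl⟩ := exists_lift hg.out
    rw [ext_eq c he, ext_eq c hg, ← hc e', smooth_eq hi hT hg']
  · have h' : ¬ ∃ e, Strand α T S (turn T d) e := by
      rintro ⟨e, he⟩
      have hd' : S (turn T d).1 := by rw [turn_fst]; exact hd
      obtain ⟨g, hg, _⟩ := ends hi hT hd' he
      rw [turn_turn hT] at hg
      exact h ⟨g, hg⟩
    rw [ext_zero c h, ext_zero c h']

theorem ext_al [Finite X] (hi : ∀ d, α (α d) = d) (hT : IsState T)
    {c : {x // ¬ S x} × ZMod 4 → ZMod 2} (hc : ∀ d, c (smooth α T S d) = c d)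
    (d : X × ZMod 4) : ext α T S c (α d) = ext α T S c d := by
  -- if `α d` is at a crossing of `S`, then the strand of `d` is the strand of `turn T (α d)`
  have key : ∀ a, S (α a).1 → ext α T S c (α a) = ext α T S c a := by
    intro a ha
    rw [← ext_turn hi hT hc ha]
    by_cases h : ∃ e, Strand α T S (turn T (α a)) e
    · obtain ⟨e, he⟩ := h
      obtain ⟨e', rfl⟩ := exists_lift he.out
      rw [ext_eq c he, ext_eq c (.step ha he)]
    · have h' : ¬ ∃ e, Strand α T S a e := by
        rintro ⟨e, he⟩
        cases he with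
        | last h1 => exact h1 ha
        | step h1 h2 => exact h ⟨_, h2⟩
      rw [ext_zero c h, ext_zero c h']
  by_cases h1 : S (α d).1
  · exact key d h1
  · by_cases h2 : S d.1
    · have := key (α d) (by rw [hi]; exact h2)
      rw [hi] at this
      exact this.symm
    · obtain ⟨a, rfl⟩ := exists_lift h2
      obtain ⟨b, hb⟩ := exists_lift h1
      rw [← hb, ext_lift hi hT hc, ext_lift hi hT hc]
      have : Strand α T S (lift a) (lift b) := by
        rw [hb]
        exact .last h1
      rw [← smooth_eq hi hT this, hc]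

theorem sum_four (f : ZMod 4 → ZMod 2) : ∑ i, f i = f 0 + f 1 + f 2 + f 3 := by
  have : (Finset.univ : Finset (ZMod 4)) = {0, 1, 2, 3} := by decide
  rw [this, Finset.sum_insert (by decide), Finset.sum_insert (by decide),
    Finset.sum_insert (by decide), Finset.sum_singleton]
  ring

theorem sum_turn (hT : IsState T) (x : X) (c : X × ZMod 4 → ZMod 2)
    (hc : ∀ i, c (turn T (x, i)) = c (x, i)) : ∑ i : ZMod 4, c (x, i) = 0 := by
  rw [sum_four]
  have h0 := hT (x, 0)
  have h1 := hT (x, 1)
  have h2 := hT (x, 2)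
  have hh : ∀ a b : ZMod 2, a + a + b + b = 0 := by decide
  have hh' : ∀ a b : ZMod 2, a + b + b + a = 0 := by decide
  have e1 : nx ((x, 0) : X × ZMod 4) = (x, 1) := rfl
  have e2 : nx ((x, 1) : X × ZMod 4) = (x, 2) := rfl
  have e3 : nx ((x, 2) : X × ZMod 4) = (x, 3) := rfl
  have e4 : nx ((x, 3) : X × ZMod 4) = (x, 0) := rfl
  rw [e1] at h0
  rw [e2] at h1
  rw [e3] at h2
  cases h : T (x, 0)
  · rw [h] at h0
    rw [h0] at h1
    rw [h1] at h2
    have c0 := hc 0
    have c2 := hc 2
    simp only [turn, h, h1, Bool.not_false, Bool.not_true, Bool.false_eq_true, if_false, e1, e3]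
      at c0 c2
    rw [c0, c2]
    exact hh _ _
  · rw [h] at h0
    rw [h0] at h1
    rw [h1] at h2
    have c1 := hc 1
    have c3 := hc 3
    simp only [turn, h0, h2, Bool.not_false, Bool.not_true, Bool.false_eq_true, if_false, e2, e4]
      at c1 c3
    rw [c1, ← c3]
    exact hh' _ _

/-! ### planarity is preserved -/

theorem joinedOn_const {c W : X × ZMod 4 → ZMod 2}
    (hc : ∀ d : X × ZMod 4, S d.1 → c (turn T d) = c d) (hW : ∀ d, W (fs α d) = W d)
    (hW' : ∀ d, W d + W (pv d) = c d) {d e : X × ZMod 4} (h : JoinedOn α T S d e) : W d = W e := by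
  induction h with
  | rel a b hab =>
    rcases hab with rfl | ⟨h1, h2, rfl⟩
    · exact (hW a).symm
    · -- `T a`, so `turn T a = pv a` and `c a = c (pv a)`
      have h3 := hc a h1
      have e : turn T a = pv a := by simp [turn, h2]
      rw [e] at h3
      have h4 := hW' a
      have h5 := hW' (pv a)
      rw [pv_pv] at h5
      rw [← h4] at h3
      rw [h3] at h5
      have : ∀ x y z : ZMod 2, x + y = z + x → z = y := by decide
      exact this _ _ _ h5
  | refl a => rfl
  | symm a b _ ih => exact ih.symm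
  | trans a b c _ _ ih1 ih2 => exact ih1.trans ih2

theorem smooth_hom [Finite X] (hi : ∀ d, α (α d) = d) (hT : IsState T) (h : Hom α) :
    Hom (smooth α T S) := by
  intro c hc hv
  obtain ⟨W, h1, h2⟩ := h (ext α T S c) (ext_al hi hT hc) (by
    intro v
    by_cases hvS : S v
    · exact sum_turn hT v _ fun i => ext_turn hi hT hc hvS
    · rw [← hv ⟨v, hvS⟩]
      exact Finset.sum_congr rfl fun i _ => ext_lift hi hT hc (⟨v, hvS⟩, i))
  refine ⟨fun d => W (lift d), fun d => ?_, fun d => ?_⟩
  · exact (joinedOn_const (fun d hd => ext_turn hi hT hc hd) h1 h2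
      (smooth_joinedOn hi hT d)).symm
  · show W (lift d) + W (pv (lift d)) = c d
    rw [h2, ext_lift hi hT hc]

/-! ### closed curves -/

theorem Strand.sameLoop {d e : X × ZMod 4} (h : Strand α T S d e) : SameLoop α T d e := by
  induction h with
  | last h => exact Relation.EqvGen.rel _ _ (Or.inl rfl)
  | @step d e h1 h2 ih =>
    exact Relation.EqvGen.trans _ _ _ (Relation.EqvGen.rel _ _ (Or.inl rfl))
      (Relation.EqvGen.trans _ _ _ (Relation.EqvGen.rel _ _ (Or.inr rfl)) ih)

/-- every strand at `S` has ends: smoothing `S` produces no closed curves -/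
def NoFree (α : X × ZMod 4 → X × ZMod 4) (T : X × ZMod 4 → Bool) (S : X → Prop) : Prop :=
  ∀ d : X × ZMod 4, S d.1 → ∃ e, Strand α T S d e

theorem NoFree.all [Finite X] (h : NoFree α T S) (hi : ∀ d, α (α d) = d) (hT : IsState T)
    (d : X × ZMod 4) : ∃ e : {x // ¬ S x} × ZMod 4, Strand α T S d (lift e) := by
  have : ∃ e, Strand α T S d e := by
    by_cases hd : S d.1
    · exact h d hd
    · exact exists_strand hi hT hd
  obtain ⟨e, he⟩ := this
  obtain ⟨e', rfl⟩ := exists_lift he.out
  exact ⟨e', he⟩

theorem turn_lift (d : {x // ¬ S x} × ZMod 4) :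
    lift (turn (fun d : {x // ¬ S x} × ZMod 4 => T (lift d)) d) = turn T (lift d) := by
  unfold turn
  split_ifs <;> rfl

theorem sameLoop_lift [Finite X] (hi : ∀ d, α (α d) = d) (hT : IsState T)
    {d e : {x // ¬ S x} × ZMod 4}
    (h : SameLoop (smooth α T S) (fun d : {x // ¬ S x} × ZMod 4 => T (lift d)) d e) :
    SameLoop α T (lift d) (lift e) := by
  induction h with
  | rel a b hab =>
    rcases hab with rfl | rfl
    · exact (smooth_spec hi hT a).sameLoop
    · rw [turn_lift]
      exact Relation.EqvGen.rel _ _ (Or.inr rfl)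
  | refl a => exact Relation.EqvGen.refl _
  | symm a b _ ih => exact Relation.EqvGen.symm _ _ ih
  | trans a b c _ _ ih1 ih2 => exact Relation.EqvGen.trans _ _ _ ih1 ih2

/-- a state of the new map with one closed curve together with the state on `S` has one closed curve -/
theorem OneLoop.lift [Finite X] (hi : ∀ d, α (α d) = d) (hT : IsState T) (hf : NoFree α T S)
    (h : OneLoop (smooth α T S) (fun d : {x // ¬ S x} × ZMod 4 => T (GT33.lift d))) :
    OneLoop α T := by
  intro d d'
  obtain ⟨e, he⟩ := hf.all hi hT d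
  obtain ⟨e', he'⟩ := hf.all hi hT d'
  exact Relation.EqvGen.trans _ _ _ he.sameLoop
    (Relation.EqvGen.trans _ _ _ (sameLoop_lift hi hT (h e e')) (Relation.EqvGen.symm _ _ he'.sameLoop))

/-! ### the faces of the new map -/

/-- the new map is connected -/
def Conn {Y : Type} (β : Y × ZMod 4 → Y × ZMod 4) : Prop :=
  ∀ M : Y → Prop, (∀ d, M d.1 → M (β d).1) → (∃ x, M x) → ∀ y, M y

/-- Sectors outside `S` which are joined by `S` are in the same face of the new map: here planarity
is used. -/
theorem face_of_joinedOn [Finite X] (hi : ∀ d, α (α d) = d) (hT : IsState T) (h : Hom α)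
    (hc : Conn (smooth α T S)) {d e : {x // ¬ S x} × ZMod 4}
    (hde : JoinedOn α T S (GT33.lift d) (GT33.lift e)) :
    face (smooth α T S) d = face (smooth α T S) e := by
  classical
  -- `w`: indicator of the face of `d`
  set β := smooth α T S with hβ
  set w : {x // ¬ S x} × ZMod 4 → ZMod 2 := fun a => if face β a = face β d then 1 else 0 with hw
  have hwf : ∀ a, w (fs β a) = w a := by
    intro a
    simp only [hw, face_fs]
  have hss : ∀ a, β (β a) = a := smooth_smooth hi hT
  have hpv : ∀ a, w (pv a) = w (β a) := by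
    intro a
    have := hwf (β a)
    rw [SN78.fs, hss] at this
    exact this
  have hpv' : ∀ a, w (pv (β a)) = w a := hwf
  have hcc : ∀ a, (fun a => w a + w (pv a)) (β a) = (fun a => w a + w (pv a)) a := by
    intro a
    show w (β a) + w (pv (β a)) = w a + w (pv a)
    rw [hpv', hpv, add_comm]
  have hsum : ∀ v, ∑ i : ZMod 4, (fun a => w a + w (pv a)) (v, i) = 0 := by
    intro v
    rw [sum_four]
    show w (v, 0) + w (v, 0 - 1) + (w (v, 1) + w (v, 1 - 1)) + (w (v, 2) + w (v, 2 - 1)) +
      (w (v, 3) + w (v, 3 - 1)) = 0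
    rw [show (0 - 1 : ZMod 4) = 3 by decide, show (1 - 1 : ZMod 4) = 0 by decide,
      show (2 - 1 : ZMod 4) = 1 by decide, show (3 - 1 : ZMod 4) = 2 by decide]
    have : ∀ p q r s : ZMod 2, p + s + (q + p) + (r + q) + (s + r) = 0 := by decide
    exact this _ _ _ _
  obtain ⟨W, h1, h2⟩ := h (ext α T S fun a => w a + w (pv a)) (ext_al hi hT hcc) (by
    intro v
    by_cases hvS : S v
    · exact sum_turn hT v _ fun i => ext_turn hi hT hcc hvS
    · rw [← hsum ⟨v, hvS⟩]
      exact Finset.sum_congr rfl fun i _ => ext_lift hi hT hcc (⟨v, hvS⟩, i))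
  have hWc : ∀ {a b : X × ZMod 4}, JoinedOn α T S a b → W a = W b := fun hab =>
    joinedOn_const (fun d hd => ext_turn hi hT hcc hd) h1 h2 hab
  -- `w + W` is constant
  have hW2 : ∀ a : {x // ¬ S x} × ZMod 4, W (lift a) + W (pv (lift a)) = w a + w (pv a) := by
    intro a
    rw [h2, ext_lift hi hT hcc]
  have hstep : ∀ a : {x // ¬ S x} × ZMod 4, w (pv a) + W (lift (pv a)) = w a + W (lift a) := by
    intro a
    have := hW2 a
    rw [lift_pv]
    have key : ∀ p q r s : ZMod 2, p + q = r + s → s + q = r + p := by decide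
    exact key _ _ _ _ this
  have hsite : ∀ (v : {x // ¬ S x}) (i : ZMod 4), w (v, i) + W (lift (v, i)) =
      w (v, 0) + W (lift (v, 0)) := by
    intro v i
    have e1 := hstep (v, 1)
    have e2 := hstep (v, 2)
    have e3 := hstep (v, 3)
    change w (v, 1 - 1) + W (lift (v, 1 - 1)) = _ at e1
    change w (v, 2 - 1) + W (lift (v, 2 - 1)) = _ at e2
    change w (v, 3 - 1) + W (lift (v, 3 - 1)) = _ at e3
    rw [show (1 - 1 : ZMod 4) = 0 by decide] at e1
    rw [show (2 - 1 : ZMod 4) = 1 by decide] at e2
    rw [show (3 - 1 : ZMod 4) = 2 by decide] at e3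
    have : i = 0 ∨ i = 1 ∨ i = 2 ∨ i = 3 := by revert i; decide
    rcases this with rfl | rfl | rfl | rfl
    · rfl
    · exact e1.symm
    · exact (e1.trans e2).symm
    · exact (e1.trans (e2.trans e3)).symm
  have hface : ∀ a : {x // ¬ S x} × ZMod 4, w (fs β a) + W (lift (fs β a)) = w a + W (lift a) := by
    intro a
    rw [hwf, ← hWc (smooth_joinedOn hi hT a)]
  have hall : ∀ a : {x // ¬ S x} × ZMod 4, w a + W (lift a) = w d + W (lift d) := by
    have hM := hc (fun v => w (v, 0) + W (lift (v, 0)) = w d + W (lift d)) (by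
      intro a ha
      show w ((β a).1, 0) + W (lift ((β a).1, 0)) = _
      rw [← hsite (β a).1 ((β a).2 - 1)]
      show w (pv (β a)) + W (lift (pv (β a))) = _
      have := hface a
      rw [SN78.fs] at this
      rw [this, ← ha]
      exact hsite a.1 a.2) ⟨d.1, (hsite d.1 d.2).symm⟩
    intro a
    rw [← hM a.1]
    exact hsite a.1 a.2
  have h3 := hall e
  rw [← hWc hde] at h3
  have h4 : w e = w d := by
    have key : ∀ p q r : ZMod 2, p + q = r + q → p = r := by decide
    exact key _ _ _ h3
  have h5 : w d = 1 := by simp [hw]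
  rw [h5] at h4
  by_contra hne
  have : w e = 0 := by
    simp only [hw]
    rw [if_neg (fun h => hne h.symm)]
  rw [this] at h4
  exact absurd h4 (by decide)

/-- the same face after smoothing iff joined -/
theorem face_smooth_iff [Finite X] (hi : ∀ d, α (α d) = d) (hT : IsState T) (h : Hom α)
    (hc : Conn (smooth α T S)) {d e : {x // ¬ S x} × ZMod 4} :
    face (smooth α T S) d = face (smooth α T S) e ↔ JoinedOn α T S (GT33.lift d) (GT33.lift e) :=
  ⟨joinedOn_of_face hi hT, face_of_joinedOn hi hT h hc⟩

/-! ### loads -/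

/-- the part of the load of a face which comes from the crossings in `S` -/
noncomputable def loadOn (α : X × ZMod 4 → X × ZMod 4) (T : X × ZMod 4 → Bool) (S : X → Prop)
    (f : Face α) : ℕ :=
  Nat.card {d : X × ZMod 4 // S d.1 ∧ face α d = f ∧ T d = true}

/-- the part of the load of a face which comes from the crossings outside `S` -/
noncomputable def loadOff (α : X × ZMod 4 → X × ZMod 4) (T : X × ZMod 4 → Bool) (S : X → Prop)
    (f : Face α) : ℕ :=
  Nat.card {d : X × ZMod 4 // ¬ S d.1 ∧ face α d = f ∧ T d = true}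

theorem load_split [Finite X] (f : Face α) : load α T f = loadOn α T S f + loadOff α T S f := by
  classical
  have : Fintype X := Fintype.ofFinite X
  have : DecidablePred S := Classical.decPred S
  unfold load loadOn loadOff
  simp only [Nat.card_eq_fintype_card, Fintype.card_subtype]
  rw [← Finset.card_filter_add_card_filter_not (s := Finset.univ.filter fun d =>
    face α d = f ∧ T d = true) (fun d => S d.1)]
  congr 1
  · congr 1
    ext d
    simp only [Finset.mem_filter, Finset.mem_univ, true_and]
    tauto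
  · congr 1
    ext d
    simp only [Finset.mem_filter, Finset.mem_univ, true_and]
    tauto

/-- The new faces take over the load outside `S`: if `g` is a face of the new map and all sectors
outside `S` of the faces in `Φ` are in `g`, then the sum of the loads of the faces in `Φ` outside `S` is at most
the load of `g`. -/
theorem sum_loadOff_le [Finite X] (Φ : Finset (Face α)) (g : Face (smooth α T S))
    (h : ∀ d : {x // ¬ S x} × ZMod 4, face α (GT33.lift d) ∈ Φ → face (smooth α T S) d = g) :
    ∑ f ∈ Φ, loadOff α T S f ≤ load (smooth α T S) (fun d => T (GT33.lift d)) g := by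
  classical
  have : Fintype X := Fintype.ofFinite X
  have : DecidablePred S := Classical.decPred S
  unfold load loadOff
  simp only [Nat.card_eq_fintype_card, Fintype.card_subtype]
  have e1 : ∑ f ∈ Φ, (Finset.univ.filter fun d : X × ZMod 4 =>
      ¬ S d.1 ∧ face α d = f ∧ T d = true).card =
      (Finset.univ.filter fun d : X × ZMod 4 => ¬ S d.1 ∧ face α d ∈ Φ ∧ T d = true).card := by
    rw [← Finset.card_biUnion]
    · congr 1
      ext d
      simp only [Finset.mem_biUnion, Finset.mem_filter, Finset.mem_univ, true_and]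
      constructor
      · rintro ⟨f, hf, h1, rfl, h2⟩
        exact ⟨h1, hf, h2⟩
      · rintro ⟨h1, h2, h3⟩
        exact ⟨_, h2, h1, rfl, h3⟩
    · intro f hf f' hf' hne
      rw [Function.onFun, Finset.disjoint_left]
      intro d hd hd'
      simp only [Finset.mem_filter, Finset.mem_univ, true_and] at hd hd'
      exact hne (hd.2.1.symm.trans hd'.2.1)
  rw [e1]
  refine le_trans (Finset.card_le_card (t := (Finset.univ.filter fun d : {x // ¬ S x} × ZMod 4 =>
    face (smooth α T S) d = g ∧ T (GT33.lift d) = true).image GT33.lift) ?_) Finset.card_image_le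
  intro d hd
  simp only [Finset.mem_filter, Finset.mem_univ, true_and] at hd
  obtain ⟨e, rfl⟩ := exists_lift hd.1
  rw [Finset.mem_image]
  exact ⟨e, by simp only [Finset.mem_filter, Finset.mem_univ, true_and]; exact ⟨h e hd.2.1, hd.2.2⟩,
    rfl⟩

/-! ### cuts -/

/-- the first edge of a strand which leaves `A` -/
theorem Strand.exit {A : X → Prop} {d e : X × ZMod 4} (h : Strand α T S d e) (hd : A d.1)
    (he : ¬ A e.1) : ∃ a, A a.1 ∧ ¬ A (α a).1 ∧ Strand α T S a e := by
  induction h with
  | @last d h => exact ⟨d, hd, he, .last h⟩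
  | @step d e h1 h2 ih =>
    by_cases h3 : A (α d).1
    · exact ih (by rw [turn_fst]; exact h3) he
    · exact ⟨d, hd, h3, .step h1 h2⟩

open Classical in
/-- smoothing does not increase cuts -/
theorem cut_smooth_le [Finite X] (hi : ∀ d, α (α d) = d) (hT : IsState T)
    (A' : Finset {x // ¬ S x}) (A : Finset X) (hA : ∀ x : {x // ¬ S x}, x ∈ A' ↔ x.1 ∈ A) :
    cut (smooth α T S) A' ≤ cut α A := by
  have hex : ∀ d : {d : {x // ¬ S x} × ZMod 4 // d.1 ∈ A' ∧ (smooth α T S d).1 ∉ A'},
      ∃ a : X × ZMod 4, (a.1 ∈ A ∧ (α a).1 ∉ A) ∧ Strand α T S a (GT33.lift (smooth α T S d.1)) := by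
    rintro ⟨d, hd1, hd2⟩
    obtain ⟨a, h1, h2, h3⟩ := (smooth_spec (S := S) hi hT d).exit (A := fun x => x ∈ A)
      ((hA _).1 hd1) (fun h => hd2 ((hA _).2 h))
    exact ⟨a, ⟨h1, h2⟩, h3⟩
  choose φ h1 h2 using hex
  refine Nat.card_le_card_of_injective (fun d => (⟨φ d, h1 d⟩ : {a : X × ZMod 4 //
    a.1 ∈ A ∧ (α a).1 ∉ A})) ?_
  intro d d' hdd
  have e : φ d = φ d' := congrArg Subtype.val hdd
  have h3 := h2 d
  rw [e] at h3
  have h4 := lift_inj (h3.unique (h2 d'))
  apply Subtype.ext
  rw [← smooth_smooth hi hT d.1, h4, smooth_smooth hi hT]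

end

end GT33
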