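import Pool.Agent.GT33.KObj

/-!
# GT33 module SPLIT3: a patch which is split by a path with three edges

`P3 M A B C δ a b`: the region `A` is the union of the disjoint regions `B` and `C` with the leaving darts `a`, `b`;
`B` has the ring edges `0, 1, 2`, `C` has the ring edges `3, 4, 5`, and the other three leaving darts are joined.
`p3 t₁ t₂`: the state of `A` if `B` has the state `t₁` and `C` has the state `t₂`; `p3ok`: no closed strand, and the
inner nodes of the path have three units (both are computable).  `P3.glue`, `P3.rz`, `P3.box`: the gluing.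
-/

open Classical

namespace GT33

/-- the position (half, port) is at the ring -/
def p3e (x : Bool × ZMod 6) : Bool :=
  bif x.1 then decide (x.2 = 3 ∨ x.2 = 4 ∨ x.2 = 5) else decide (x.2 = 0 ∨ x.2 = 1 ∨ x.2 = 2)

/-- one step across the path -/
def p3s (t₁ t₂ : PState 6) (x : Bool × ZMod 6) : Bool × ZMod 6 :=
  bif p3e x then x else bif x.1 then (false, t₁.m (5 - x.2)) else (true, t₂.m (5 - x.2))

/-- the first half of the strand of a ring edge -/
def p3i (t₁ t₂ : PState 6) (i : ZMod 6) : Bool × ZMod 6 :=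
  bif p3e (false, i) then (false, t₁.m i) else (true, t₂.m i)

/-- the state of the union -/
def p3 (t₁ t₂ : PState 6) : PState 6 where
  m i := (p3s t₁ t₂ (p3s t₁ t₂ (p3s t₁ t₂ (p3i t₁ t₂ i)))).2
  u i := (if i = 3 ∨ i = 4 then 0 else t₁.u i) + (if i = 0 ∨ i = 1 then 0 else t₂.u i)

/-- the two states fit together -/
def p3ok (t₁ t₂ : PState 6) : Bool :=
  (decide (t₁.u 3 + t₂.u 1 = 3) && decide (t₁.u 4 + t₂.u 0 = 3)) &&
    (decide (∀ i, p3e (p3s t₁ t₂ (p3s t₁ t₂ (p3s t₁ t₂ (p3i t₁ t₂ i)))) = true) &&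
      decide (∀ i, p3e (p3s t₁ t₂ (p3s t₁ t₂ (p3s t₁ t₂ (false, i)))) = true))

/-- the flags of the first half -/
def p3B (F : Flags) : Flags where
  lk j T := (j ≠ 3 ∧ j ≠ 4) ∧ F.lk j T
  le j T := (j ≠ 3 ∧ j ≠ 4) ∧ (j = 5 → F.lk j T) ∧ (j ≠ 5 → F.le j T)
  ri j T := (j ≠ 3 ∧ j ≠ 4) ∧ (j = 2 → F.lk j T) ∧ (j ≠ 2 → F.ri j T)
  st j := (j = 0 ∨ j = 1 ∨ j = 2) ∧ F.st j

/-- the flags of the second half -/
def p3C (F : Flags) : Flags where
  lk j T := (j ≠ 0 ∧ j ≠ 1) ∧ F.lk j T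
  le j T := (j ≠ 0 ∧ j ≠ 1) ∧ (j = 2 → F.lk j T) ∧ (j ≠ 2 → F.le j T)
  ri j T := (j ≠ 0 ∧ j ≠ 1) ∧ (j = 5 → F.lk j T) ∧ (j ≠ 5 → F.ri j T)
  st j := (j = 3 ∨ j = 4 ∨ j = 5) ∧ F.st j

theorem p3B_ok {F : Flags} (hF : F.Ok) : (p3B F).Ok where
  le := by
    rintro j T ⟨h1, h2, h3⟩
    refine ⟨h1, ?_⟩
    by_cases h4 : j = 5
    · exact h2 h4
    · exact hF.le _ _ (h3 h4)
  ri := by
    rintro j T ⟨h1, h2, h3⟩
    refine ⟨h1, ?_⟩
    by_cases h4 : j = 2
    · exact h2 h4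
    · exact hF.ri _ _ (h3 h4)

theorem p3C_ok {F : Flags} (hF : F.Ok) : (p3C F).Ok where
  le := by
    rintro j T ⟨h1, h2, h3⟩
    refine ⟨h1, ?_⟩
    by_cases h4 : j = 2
    · exact h2 h4
    · exact hF.le _ _ (h3 h4)
  ri := by
    rintro j T ⟨h1, h2, h3⟩
    refine ⟨h1, ?_⟩
    by_cases h4 : j = 5
    · exact h2 h4
    · exact hF.ri _ _ (h3 h4)

theorem z6_all (i : ZMod 6) : i = 0 ∨ i = 1 ∨ i = 2 ∨ i = 3 ∨ i = 4 ∨ i = 5 := by revert i; decide

namespace DMap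

variable {D : Type} {M : DMap D}

/-- the region `A` is split by a path with three edges -/
structure P3 (M : DMap D) (A B C : D → Prop) (δ a b : ZMod 6 → D) : Prop where
  bdA : M.Bd A 6 δ
  bdB : M.Bd B 6 a
  bdC : M.Bd C 6 b
  cov : ∀ d, A d ↔ B d ∨ C d
  dis : ∀ d, B d → ¬ C d
  a0 : a 0 = δ 0
  a1 : a 1 = δ 1
  a2 : a 2 = δ 2
  b3 : b 3 = δ 3
  b4 : b 4 = δ 4
  b5 : b 5 = δ 5
  e3 : M.al (a 3) = b 2
  e4 : M.al (a 4) = b 1
  e5 : M.al (a 5) = b 0

namespace P3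

variable {A B C : D → Prop} {δ a b : ZMod 6 → D}

section

variable [Finite D]

omit [Finite D] in
theorem inB (h : M.P3 A B C δ a b) {d : D} (hd : B d) : A d := (h.cov d).2 (Or.inl hd)

omit [Finite D] in
theorem inC (h : M.P3 A B C δ a b) {d : D} (hd : C d) : A d := (h.cov d).2 (Or.inr hd)

theorem step (h : M.P3 A B C δ a b) (i : ZMod 6) : M.SameNode (δ i) (M.al (δ (i + 1))) :=
  sameNode_iff.2 (h.bdA.step i)

theorem stepB (h : M.P3 A B C δ a b) (i : ZMod 6) : M.SameNode (a i) (M.al (a (i + 1))) :=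
  sameNode_iff.2 (h.bdB.step i)

theorem stepC (h : M.P3 A B C δ a b) (i : ZMod 6) : M.SameNode (b i) (M.al (b (i + 1))) :=
  sameNode_iff.2 (h.bdC.step i)

/-- the ring nodes of the first half -/
theorem na (h : M.P3 A B C δ a b) {i : ZMod 6} (hi : i ≠ 3 ∧ i ≠ 4) : M.SameNode (δ i) (a i) := by
  rcases z6_all i with rfl | rfl | rfl | rfl | rfl | rfl
  · rw [h.a0]
  · rw [h.a1]
  · rw [h.a2]
  · exact absurd rfl hi.1
  · exact absurd rfl hi.2
  · have h1 := h.stepB 5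
    have e : (5 : ZMod 6) + 1 = 0 := by decide
    rw [e, h.a0] at h1
    have h2 := h.step 5
    rw [e] at h2
    exact h2.trans h1.symm

/-- the ring nodes of the second half -/
theorem nb (h : M.P3 A B C δ a b) {i : ZMod 6} (hi : i ≠ 0 ∧ i ≠ 1) : M.SameNode (δ i) (b i) := by
  rcases z6_all i with rfl | rfl | rfl | rfl | rfl | rfl
  · exact absurd rfl hi.1
  · exact absurd rfl hi.2
  · have h1 := h.stepC 2
    have e : (2 : ZMod 6) + 1 = 3 := by decide
    rw [e, h.b3] at h1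
    have h2 := h.step 2
    rw [e] at h2
    exact h2.trans h1.symm
  · rw [h.b3]
  · rw [h.b4]
  · rw [h.b5]

theorem n31 (h : M.P3 A B C δ a b) : M.SameNode (a 3) (b 1) := by
  have h1 := h.stepB 3
  have e : (3 : ZMod 6) + 1 = 4 := by decide
  rwa [e, h.e4] at h1

theorem n40 (h : M.P3 A B C δ a b) : M.SameNode (a 4) (b 0) := by
  have h1 := h.stepB 4
  have e : (4 : ZMod 6) + 1 = 5 := by decide
  rwa [e, h.e5] at h1

/-- the inner nodes of the path are not ring nodes -/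
theorem nr3 (h : M.P3 A B C δ a b) (i : ZMod 6) : ¬ M.SameNode (δ i) (a 3) := by
  intro h1
  by_cases hi : i ≠ 3 ∧ i ≠ 4
  · exact hi.1 (nodes_inj h.bdB ((h.na hi).symm.trans h1))
  · have hi' : i ≠ 0 ∧ i ≠ 1 := by
      clear h1
      revert i
      decide
    have h2 := nodes_inj h.bdC ((h.nb hi').symm.trans (h1.trans h.n31))
    exact hi'.2 h2

theorem nr4 (h : M.P3 A B C δ a b) (i : ZMod 6) : ¬ M.SameNode (δ i) (a 4) := by
  intro h1
  by_cases hi : i ≠ 3 ∧ i ≠ 4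
  · exact hi.2 (nodes_inj h.bdB ((h.na hi).symm.trans h1))
  · have hi' : i ≠ 0 ∧ i ≠ 1 := by
      clear h1
      revert i
      decide
    have h2 := nodes_inj h.bdC ((h.nb hi').symm.trans (h1.trans h.n40))
    exact hi'.1 h2

/-- the ring nodes of the patch at the leaving darts of the first half -/
theorem ra (h : M.P3 A B C δ a b) {i k : ZMod 6} (hn : M.SameNode (δ i) (a k)) :
    k = i ∧ i ≠ 3 ∧ i ≠ 4 := by
  have hk : k ≠ 3 ∧ k ≠ 4 := by
    constructor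
    · rintro rfl
      exact h.nr3 i hn
    · rintro rfl
      exact h.nr4 i hn
  have h1 := nodes_inj h.bdA (hn.trans (h.na hk).symm)
  rw [h1]
  exact ⟨rfl, hk⟩

theorem rb (h : M.P3 A B C δ a b) {i k : ZMod 6} (hn : M.SameNode (δ i) (b k)) :
    k = i ∧ i ≠ 0 ∧ i ≠ 1 := by
  have hk : k ≠ 0 ∧ k ≠ 1 := by
    constructor
    · rintro rfl
      exact h.nr4 i (hn.trans h.n40.symm)
    · rintro rfl
      exact h.nr3 i (hn.trans h.n31.symm)
  have h1 := nodes_inj h.bdA (hn.trans (h.nb hk).symm)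
  rw [h1]
  exact ⟨rfl, hk⟩

end

section

variable [Fintype D]

/-- the ring nodes without the first half -/
theorem outB (h : M.P3 A B C δ a b) {i : ZMod 6} (hi : ¬ (i ≠ 3 ∧ i ≠ 4)) {e : D}
    (hn : M.SameNode (δ i) e) : ¬ B e := by
  intro he
  have h1 : ¬ B (M.al (δ (i + 1))) := fun h2 => bd_al h.bdA _ (h.inB h2)
  obtain ⟨z, h2, h3, h4⟩ := exists_leaving (M := M) h.bdB.site (hn.symm.trans (h.step i)) he h1
  obtain ⟨k, rfl⟩ := (h.bdB.mem z).1 ⟨h3, h4⟩
  exact hi (h.ra (hn.trans h2)).2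

theorem outC (h : M.P3 A B C δ a b) {i : ZMod 6} (hi : ¬ (i ≠ 0 ∧ i ≠ 1)) {e : D}
    (hn : M.SameNode (δ i) e) : ¬ C e := by
  intro he
  have h1 : ¬ C (M.al (δ (i + 1))) := fun h2 => bd_al h.bdA _ (h.inC h2)
  obtain ⟨z, h2, h3, h4⟩ := exists_leaving (M := M) h.bdC.site (hn.symm.trans (h.step i)) he h1
  obtain ⟨k, rfl⟩ := (h.bdC.mem z).1 ⟨h3, h4⟩
  exact hi (h.rb (hn.trans h2)).2

/-- **gluing along a path with three edges** -/
theorem glue (h : M.P3 A B C δ a b) {L : LS D} {t₁ t₂ : PState 6} {μ₁ μ₂ : D → D} {ω₁ ω₂ : D → ℕ}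
    (h1 : M.RealL L B a t₁ μ₁ ω₁) (h2 : M.RealL L C b t₂ μ₂ ω₂) (ho : p3ok t₁ t₂ = true) :
    ∃ μ ω, M.RealL L A δ (p3 t₁ t₂) μ ω := by
  obtain ⟨μ, ω, hG⟩ : ∃ μ ω, M.Glued L A B C a b t₁ t₂ μ ω :=
    ⟨_, _, RealL.union h.bdB.site h.bdC.site h.cov h.dis h1 h2⟩
  simp only [p3ok, Bool.and_eq_true, decide_eq_true_eq] at ho
  obtain ⟨⟨u3, u4⟩, hri, hrp⟩ := ho
  have tr : ∀ {x y z}, M.Str A μ x y → M.Str A μ y z → M.Str A μ x z :=
    fun h1 h2 => Relation.EqvGen.trans _ _ _ h1 h2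
  have sy : ∀ {x y}, M.Str A μ x y → M.Str A μ y x := fun h1 => Relation.EqvGen.symm _ _ h1
  have rf : ∀ {x y}, x = y → M.Str A μ x y := fun h1 => by rw [h1]; exact Relation.EqvGen.refl _
  -- the edges of the path
  have hed : ∀ j : ZMod 6, (j = 3 ∨ j = 4 ∨ j = 5) → M.al (a j) = b (5 - j) := by
    rintro j (rfl | rfl | rfl)
    · exact h.e3
    · exact h.e4
    · exact h.e5
  have hst : ∀ j : ZMod 6, (j = 3 ∨ j = 4 ∨ j = 5) → M.Str A μ (a j) (b (5 - j)) := fun j hj =>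
    Relation.EqvGen.rel _ _ ⟨h.inB (bd_mem h.bdB j), Or.inr ⟨(hed j hj).symm,
      h.inC (bd_mem h.bdC _)⟩⟩
  let P : Bool × ZMod 6 → D := fun x => bif x.1 then b x.2 else a x.2
  have hPs : ∀ x, M.Str A μ (P x) (P (p3s t₁ t₂ x)) := by
    rintro ⟨c, j⟩
    by_cases hx : p3e (c, j) = true
    · simp only [p3s, hx, cond_true]
      exact rf rfl
    · have hx' : p3e (c, j) = false := by simpa using hx
      cases c
      · have hj : j = 3 ∨ j = 4 ∨ j = 5 := by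
          revert hx; revert j; decide
        simp only [p3s, hx', cond_false, P, cond_true]
        exact tr (hst j hj) (hG.strC _)
      · have hj : (5 - j = 3 ∨ 5 - j = 4 ∨ 5 - j = 5) := by
          revert hx; revert j; decide
        simp only [p3s, hx', cond_false, P, cond_true]
        have h3 := hst (5 - j) hj
        rw [sub_sub_cancel] at h3
        exact tr (sy h3) (hG.strB _)
  have hPi : ∀ i, M.Str A μ (δ i) (P (p3i t₁ t₂ i)) := by
    intro i
    rcases z6_all i with rfl | rfl | rfl | rfl | rfl | rfl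
    · show M.Str A μ (δ 0) (a (t₁.m 0))
      rw [← h.a0]
      exact hG.strB 0
    · show M.Str A μ (δ 1) (a (t₁.m 1))
      rw [← h.a1]
      exact hG.strB 1
    · show M.Str A μ (δ 2) (a (t₁.m 2))
      rw [← h.a2]
      exact hG.strB 2
    · show M.Str A μ (δ 3) (b (t₂.m 3))
      rw [← h.b3]
      exact hG.strC 3
    · show M.Str A μ (δ 4) (b (t₂.m 4))
      rw [← h.b4]
      exact hG.strC 4
    · show M.Str A μ (δ 5) (b (t₂.m 5))
      rw [← h.b5]
      exact hG.strC 5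
  have hPe : ∀ x, p3e x = true → P x = δ x.2 := by
    rintro ⟨c, j⟩ hx
    cases c
    · have hj : j = 0 ∨ j = 1 ∨ j = 2 := by
        revert hx; revert j; decide
      rcases hj with rfl | rfl | rfl
      · exact h.a0
      · exact h.a1
      · exact h.a2
    · have hj : j = 3 ∨ j = 4 ∨ j = 5 := by
        revert hx; revert j; decide
      rcases hj with rfl | rfl | rfl
      · exact h.b3
      · exact h.b4
      · exact h.b5
  have hPa : ∀ i, ∃ j, M.Str A μ (a i) (δ j) := by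
    intro i
    refine ⟨(p3s t₁ t₂ (p3s t₁ t₂ (p3s t₁ t₂ (false, i)))).2, ?_⟩
    rw [← hPe _ (hrp i)]
    exact tr (hPs (false, i)) (tr (hPs _) (hPs _))
  have hPb : ∀ i, ∃ j, M.Str A μ (b i) (δ j) := by
    intro i
    by_cases hi : i = 3 ∨ i = 4 ∨ i = 5
    · rcases hi with rfl | rfl | rfl
      · exact ⟨3, rf h.b3⟩
      · exact ⟨4, rf h.b4⟩
      · exact ⟨5, rf h.b5⟩
    · have hj : (5 - i = 3 ∨ 5 - i = 4 ∨ 5 - i = 5) := by
        revert hi; revert i; decide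
      have h3 := hst (5 - i) hj
      rw [sub_sub_cancel] at h3
      obtain ⟨j, hj⟩ := hPa (5 - i)
      exact ⟨j, tr (sy h3) hj⟩
  refine ⟨μ, ω, hG.loc, fun i => ?_, fun d hd => ?_, fun i => ?_, fun d hd => ?_⟩
  · show M.Str A μ (δ i) (δ (p3s t₁ t₂ (p3s t₁ t₂ (p3s t₁ t₂ (p3i t₁ t₂ i)))).2)
    rw [← hPe _ (hri i)]
    exact tr (hPi i) (tr (hPs _) (tr (hPs _) (hPs _)))
  · rcases hG.all d hd with ⟨i, hi⟩ | ⟨i, hi⟩
    · obtain ⟨j, hj⟩ := hPa i
      exact ⟨j, tr hi hj⟩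
    · obtain ⟨j, hj⟩ := hPb i
      exact ⟨j, tr hi hj⟩
  · rw [hG.sum]
    show _ = (if i = 3 ∨ i = 4 then 0 else t₁.u i) + (if i = 0 ∨ i = 1 then 0 else t₂.u i)
    congr 1
    · by_cases hi : i ≠ 3 ∧ i ≠ 4
      · rw [if_neg (by tauto), usum_same (h.na hi), hG.bB]
      · rw [if_pos (by tauto)]
        exact usum_none fun e he => h.outB hi he
    · by_cases hi : i ≠ 0 ∧ i ≠ 1
      · rw [if_neg (by tauto), usum_same (h.nb hi), hG.bC]
      · rw [if_pos (by tauto)]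
        exact usum_none fun e he => h.outC hi he
  · rw [hG.sum]
    have hno : ∀ j, ¬ M.SameNode (δ j) d := fun j hj =>
      bd_al h.bdA (j + 1) (hd _ (hj.symm.trans (h.step j)))
    by_cases hk : ∃ k, M.SameNode d (a k)
    · obtain ⟨k, hk⟩ := hk
      by_cases hk3 : k = 3
      · subst hk3
        rw [usum_same hk, hG.bB, usum_same (hk.trans h.n31), hG.bC]
        exact u3
      by_cases hk4 : k = 4
      · subst hk4
        rw [usum_same hk, hG.bB, usum_same (hk.trans h.n40), hG.bC]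
        exact u4
      exact absurd ((h.na ⟨hk3, hk4⟩).trans hk.symm) (hno k)
    · by_cases hB : ∃ e, M.SameNode d e ∧ B e
      · obtain ⟨e, he1, he2⟩ := hB
        have hall : ∀ f, M.SameNode d f → B f := by
          intro f hf
          by_contra hf'
          obtain ⟨z, h3, h4, h5⟩ := exists_leaving (M := M) h.bdB.site (he1.symm.trans hf) he2 hf'
          obtain ⟨k, rfl⟩ := (h.bdB.mem z).1 ⟨h4, h5⟩
          exact hk ⟨k, he1.trans h3⟩
        rw [hG.iB d hall, usum_none fun f hf => h.dis f (hall f hf)]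
      · push Not at hB
        have hall : ∀ f, M.SameNode d f → C f := fun f hf =>
          ((h.cov f).1 (hd f hf)).resolve_left (hB f hf)
        rw [hG.iC d hall, usum_none hB]

/-! ### objects -/

omit [Fintype D] in
theorem n5 (h : M.P3 A B C δ a b) : a 5 ≠ δ 5 := fun h1 => by
  have h2 := bd_al h.bdA 5
  rw [← h1, h.e5] at h2
  exact h2 (h.inC (bd_mem h.bdC 0))

omit [Fintype D] in
theorem n3 (h : M.P3 A B C δ a b) : a 3 ≠ δ 3 := fun h1 => by
  have h2 := bd_al h.bdA 3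
  rw [← h1, h.e3] at h2
  exact h2 (h.inC (bd_mem h.bdC 2))

omit [Fintype D] in
theorem n2 (h : M.P3 A B C δ a b) : b 2 ≠ δ 2 := fun h1 => by
  have h2 := bd_al h.bdA 2
  rw [← h1, ← h.e3, M.inv] at h2
  exact h2 (h.inB (bd_mem h.bdB 3))

omit [Fintype D] in
theorem n0 (h : M.P3 A B C δ a b) : b 0 ≠ δ 0 := fun h1 => by
  have h2 := bd_al h.bdA 0
  rw [← h1, ← h.e5, M.inv] at h2
  exact h2 (h.inB (bd_mem h.bdB 5))

/-- the flags of the first half -/
theorem resB (h : M.P3 A B C δ a b) (F : Flags) : (M.res δ F a).Le (p3B F) := by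
  refine ⟨?_, ?_, ?_, ?_⟩
  · rintro k T ⟨j, h1, h2⟩
    obtain ⟨rfl, h3⟩ := h.ra h1
    exact ⟨h3, h2⟩
  · rintro k T ⟨j, h1, h2, h2'⟩
    obtain ⟨rfl, h3⟩ := h.ra h1
    refine ⟨h3, ?_, fun h4 => h2 ?_⟩
    · rintro rfl
      exact h2' h.n5
    · rcases z6_all k with rfl | rfl | rfl | rfl | rfl | rfl
      · exact h.a0
      · exact h.a1
      · exact h.a2
      · exact absurd rfl h3.1
      · exact absurd rfl h3.2
      · exact absurd rfl h4
  · rintro k T ⟨j, h1, h2, h2'⟩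
    obtain ⟨rfl, h3⟩ := h.ra h1
    refine ⟨h3, ?_, fun h4 => h2 ?_⟩
    · rintro rfl
      exact h2' h.n3
    · rcases z6_all k with rfl | rfl | rfl | rfl | rfl | rfl
      · exact h.a1
      · exact h.a2
      · exact absurd rfl h4
      · exact absurd rfl h3.1
      · exact absurd rfl h3.2
      · exact h.a0
  · rintro k ⟨j, h1, h2⟩
    obtain ⟨rfl, h3⟩ := h.ra (i := j) (k := k) (by rw [h1])
    refine ⟨?_, h2⟩
    rcases z6_all k with rfl | rfl | rfl | rfl | rfl | rfl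
    · exact Or.inl rfl
    · exact Or.inr (Or.inl rfl)
    · exact Or.inr (Or.inr rfl)
    · exact absurd rfl h3.1
    · exact absurd rfl h3.2
    · exact absurd h1 h.n5

/-- the flags of the second half -/
theorem resC (h : M.P3 A B C δ a b) (F : Flags) : (M.res δ F b).Le (p3C F) := by
  refine ⟨?_, ?_, ?_, ?_⟩
  · rintro k T ⟨j, h1, h2⟩
    obtain ⟨rfl, h3⟩ := h.rb h1
    exact ⟨h3, h2⟩
  · rintro k T ⟨j, h1, h2, h2'⟩
    obtain ⟨rfl, h3⟩ := h.rb h1
    refine ⟨h3, ?_, fun h4 => h2 ?_⟩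
    · rintro rfl
      exact h2' h.n2
    · rcases z6_all k with rfl | rfl | rfl | rfl | rfl | rfl
      · exact absurd rfl h3.1
      · exact absurd rfl h3.2
      · exact absurd rfl h4
      · exact h.b3
      · exact h.b4
      · exact h.b5
  · rintro k T ⟨j, h1, h2, h2'⟩
    obtain ⟨rfl, h3⟩ := h.rb h1
    refine ⟨h3, ?_, fun h4 => h2 ?_⟩
    · rintro rfl
      exact h2' h.n0
    · rcases z6_all k with rfl | rfl | rfl | rfl | rfl | rfl
      · exact absurd rfl h3.1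
      · exact absurd rfl h3.2
      · exact h.b3
      · exact h.b4
      · exact h.b5
      · exact absurd rfl h4
  · rintro k ⟨j, h1, h2⟩
    obtain ⟨rfl, h3⟩ := h.rb (i := j) (k := k) (by rw [h1])
    refine ⟨?_, h2⟩
    rcases z6_all k with rfl | rfl | rfl | rfl | rfl | rfl
    · exact absurd rfl h3.1
    · exact absurd rfl h3.2
    · exact absurd h1 h.n2
    · exact Or.inl rfl
    · exact Or.inr (Or.inl rfl)
    · exact Or.inr (Or.inr rfl)

variable {Good : (ZMod 6 → Prop) → Prop → Rel → Prop}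

/-- **objects which are split by a path with three edges** -/
theorem rz {X : Boxes D} (hO : M.Obj Good A δ X) (h : M.P3 A B C δ a b) {F G₁ G₂ : Flags}
    (hF : F.Ok) (hG₁ : (p3B F).Le G₁) (hG₂ : (p3C F).Le G₂) {t₁ t₂ : PState 6}
    (h1 : Rz M B a X.β G₁ t₁) (h2 : Rz M C b X.β G₂ t₂) (ho : p3ok t₁ t₂ = true) :
    Rz M A δ X.β F (p3 t₁ t₂) := by
  obtain ⟨μ₁, ω₁, hR₁⟩ := real_of_region hO h.bdB (fun d hd => h.inB hd) hF ((h.resB F).trans hG₁) h1
  obtain ⟨μ₂, ω₂, hR₂⟩ := real_of_region hO h.bdC (fun d hd => h.inC hd) hF ((h.resC F).trans hG₂) h2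
  exact h.glue hR₁ hR₂ ho

/-! ### the corner sets -/

omit [Fintype D] in
theorem ks0 (h : M.P3 A B C δ a b) (κ : (ZMod 6 → D) → ZMod 6 → Prop) : KS M κ δ 0 ↔ KS M κ a 0 := by
  have e : (0 : ZMod 6) + 1 = 1 := rfl
  unfold KS
  rw [e, h.a0, h.a1]

omit [Fintype D] in
theorem ks1 (h : M.P3 A B C δ a b) (κ : (ZMod 6 → D) → ZMod 6 → Prop) : KS M κ δ 1 ↔ KS M κ a 1 := by
  have e : (1 : ZMod 6) + 1 = 2 := rfl
  unfold KS
  rw [e, h.a1, h.a2]

omit [Fintype D] in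
theorem ks2 (h : M.P3 A B C δ a b) (κ : (ZMod 6 → D) → ZMod 6 → Prop) : ¬ KS M κ δ 2 := by
  rintro ⟨h1, -⟩
  have e : (2 : ZMod 6) + 1 = 3 := rfl
  rw [e, ← h.a2, ← h.b3] at h1
  have h2 := (h.bdB.site (a 2)).2 (bd_mem h.bdB 2)
  have h3 : B (M.nx (a 2)) := h2
  rw [h1] at h3
  exact h.dis _ h3 (bd_mem h.bdC 3)

omit [Fintype D] in
theorem ks3 (h : M.P3 A B C δ a b) (κ : (ZMod 6 → D) → ZMod 6 → Prop) : KS M κ δ 3 ↔ KS M κ b 3 := by
  have e : (3 : ZMod 6) + 1 = 4 := rfl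
  unfold KS
  rw [e, h.b3, h.b4]

omit [Fintype D] in
theorem ks4 (h : M.P3 A B C δ a b) (κ : (ZMod 6 → D) → ZMod 6 → Prop) : KS M κ δ 4 ↔ KS M κ b 4 := by
  have e : (4 : ZMod 6) + 1 = 5 := rfl
  unfold KS
  rw [e, h.b4, h.b5]

omit [Fintype D] in
theorem ks5 (h : M.P3 A B C δ a b) (κ : (ZMod 6 → D) → ZMod 6 → Prop) : ¬ KS M κ δ 5 := by
  rintro ⟨h1, -⟩
  have e : (5 : ZMod 6) + 1 = 0 := rfl
  rw [e, ← h.b5, ← h.a0] at h1
  have h2 : C (M.nx (b 5)) := (h.bdC.site (b 5)).2 (bd_mem h.bdC 5)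
  rw [h1] at h2
  exact h.dis _ (bd_mem h.bdB 0) h2

end

end P3

end DMap

end GT33
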