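import Pool.Agent.GT33.CaseK

/-!
# GT33 module STARROW: one more state of stars

`rowStar`: a row which is realised by stars with the corners `1, 3, 5` (but not by all objects with this corner set).
-/

namespace GT33

namespace Chk

/-- the state `0-1, 2-3, 4-5` (ring edges) with the units `0, 2, 0, 2, 0, 2` -/
def altStar : Alt := ⟨000000, 101010, 000000, 0, 020202⟩

/-- a row for stars -/
def rowStar : SRow := ⟨010101, [altStar]⟩

theorem rowStar_ok : ∀ c : ZMod 6, compat rowStar.k (kst c) = true → ∃ x, goST rowStar.c c x = true := by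
  have h : ∀ c : ZMod 6, (!compat rowStar.k (kst c) || goST rowStar.c c (0, 4, 4, 4)) = true := by
    decide +kernel
  intro c hc
  have h1 := h c
  rw [hc, Bool.not_true, Bool.false_or] at h1
  exact ⟨_, h1⟩

end Chk

open Chk

namespace DMap

variable {D : Type} {M : DMap D} {A : D → Prop} {δ : ZMod 6 → D}

/-- **a state of stars with the corners `1, 3, 5`** -/
theorem Star.src [Fintype D] (hP : M.Patch A δ) (hS : Star M A) {κ : (ZMod 6 → D) → ZMod 6 → Prop}
    (hK : ∀ j, KS M κ δ j ↔ (j = 1 ∨ j = 3 ∨ j = 5)) (β : (ZMod 6 → D) → Rel) :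
    Rz M A δ β altStar.F altStar.S := by
  obtain ⟨a, ha, h⟩ := Star.rowS (κ := κ) (β := β) (row := rowStar) hP hS (fun j => by
    rw [hK]
    have key : ∀ j : ZMod 6, (dg rowStar.k j = 1 → j = 1 ∨ j = 3 ∨ j = 5) ∧
        (dg rowStar.k j = 0 → ¬ (j = 1 ∨ j = 3 ∨ j = 5)) := by decide
    exact key j) rowStar_ok
  rwa [List.mem_singleton.1 ha] at h

end DMap

end GT33
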