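import Pool.Agent.GT33.DHatL

/-!
# GT33 module TOPOB: the folded ring of a generic patch is legal

`BD M B d`: the dart `d` leaves `B`.  `bn M B`: the next dart of the boundary, a permutation.  The arcs of the
boundary of `B` between ring nodes cut off small sets of sites; so a set of sites `B` which contains the
removed quads in a suitable way (`Adm`) and has at most four boundary darts which are not at the ring
(`nrad`) contains exactly one site which is not removed (`Gen.core`).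
-/

open Classical

namespace GT33

namespace DMap

variable {D : Type} {M : DMap D} {A : D → Prop} {δ : ZMod 6 → D}

open Patch

/-- the number of elements with the property `P` -/
noncomputable def cnt {X : Type} [Fintype X] (P : X → Prop) : ℕ := (Finset.univ.filter P).card

theorem cnt_eq {X : Type} [Fintype X] (P : X → Prop) [DecidablePred P] :
    cnt P = (Finset.univ.filter P).card := by
  unfold cnt
  congr

theorem cnt_congr {X : Type} [Fintype X] {P Q : X → Prop} (h : ∀ x, P x ↔ Q x) :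
    cnt P = cnt Q := by
  have : P = Q := funext fun x => propext (h x)
  rw [this]

theorem cnt_split {X : Type} [Fintype X] (P Q : X → Prop) :
    cnt P = cnt (fun x => P x ∧ Q x) + cnt fun x => P x ∧ ¬ Q x := by
  unfold cnt
  rw [← Finset.card_filter_add_card_filter_not (s := Finset.univ.filter P) Q,
    Finset.filter_filter, Finset.filter_filter]
  congr 2
  · ext x
    simp
  · ext x
    simp

theorem cnt_pos {X : Type} [Fintype X] {P : X → Prop} {a : X} (h : P a) : 1 ≤ cnt P :=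
  Finset.card_pos.2 ⟨a, by simp [h]⟩

theorem cnt_two {X : Type} [Fintype X] {P : X → Prop} {a b : X} (hne : a ≠ b) (ha : P a)
    (hb : P b) : 2 ≤ cnt P :=
  Finset.one_lt_card.2 ⟨a, by simp [ha], b, by simp [hb], hne⟩

/-! ### the next dart of the boundary -/

/-- the dart `d` leaves `B` -/
def BD (M : DMap D) (B : D → Prop) (d : D) : Prop := B d ∧ ¬ B (M.al d)

theorem exists_next [Finite D] {B : D → Prop} (hB : M.Sites B) {d : D} (hd : BD M B d) :
    ∃ d', BD M B d' ∧ ∃ k : ℕ, (M.fs)^[k] (M.nx.symm d') = d ∧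
      ∀ j ≤ k, B ((M.fs)^[j] (M.nx.symm d')) := by
  have h0 : ¬ B (M.fs d) := fun h => hd.2 ((sites_fs hB d).1 h)
  have hex : ∃ n : ℕ, ¬ B ((M.fs.symm)^[n] d) := by
    have h1 : Equiv.Perm.SameCycle (M.fs⁻¹) d (M.fs d) := Equiv.Perm.sameCycle_inv.2 (fs_node d)
    obtain ⟨n, hn⟩ := h1.exists_nat_pow_eq
    refine ⟨n, ?_⟩
    rw [Equiv.Perm.coe_pow] at hn
    have h2 : (M.fs.symm)^[n] d = M.fs d := hn
    rw [h2]
    exact h0
  classical
  obtain ⟨n, hn, hmin⟩ : ∃ n, ¬ B ((M.fs.symm)^[n] d) ∧ ∀ m < n, B ((M.fs.symm)^[m] d) :=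
    ⟨Nat.find hex, Nat.find_spec hex, fun m hm => not_not.1 (Nat.find_min hex hm)⟩
  have hn0 : n ≠ 0 := by
    rintro rfl
    exact hn hd.1
  obtain ⟨k, rfl⟩ : ∃ k, n = k + 1 := ⟨n - 1, by omega⟩
  set x := (M.fs.symm)^[k] d with hx
  have hxB : B x := hmin k (by omega)
  have hal : M.al (M.nx x) = (M.fs.symm)^[k + 1] d := by
    rw [Function.iterate_succ_apply', ← hx, fs_symm]
  have hback : ∀ j ≤ k, (M.fs)^[j] x = (M.fs.symm)^[k - j] d := by
    intro j
    induction j with
    | zero => intro _; rfl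
    | succ j ih =>
      intro hj
      rw [Function.iterate_succ_apply', ih (by omega)]
      have h1 : k - j = (k - (j + 1)) + 1 := by omega
      rw [h1, Function.iterate_succ_apply', Equiv.apply_symm_apply]
  refine ⟨M.nx x, ⟨(hB x).2 hxB, by rw [hal]; exact hn⟩, k, ?_, fun j hj => ?_⟩
  · rw [Equiv.symm_apply_apply, hback k le_rfl, Nat.sub_self]
    rfl
  · rw [Equiv.symm_apply_apply, hback j hj]
    exact hmin _ (by omega)

/-- the next dart of the boundary -/
noncomputable def bn [Finite D] (M : DMap D) (B : D → Prop) (d : D) : D :=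
  if h : ∃ d', BD M B d' ∧ ∃ k : ℕ, (M.fs)^[k] (M.nx.symm d') = d ∧
      ∀ j ≤ k, B ((M.fs)^[j] (M.nx.symm d')) then h.choose else d

section

variable [Finite D] {B : D → Prop} (hB : M.Sites B)

include hB

theorem bn_spec {d : D} (hd : BD M B d) : BD M B (bn M B d) ∧
    ∃ k : ℕ, (M.fs)^[k] (M.nx.symm (bn M B d)) = d ∧
      ∀ j ≤ k, B ((M.fs)^[j] (M.nx.symm (bn M B d))) := by
  have h := exists_next hB hd
  have h1 : bn M B d = h.choose := dif_pos h
  rw [h1]
  exact h.choose_spec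

theorem bn_bd {d : D} (hd : BD M B d) : BD M B (bn M B d) := (bn_spec hB hd).1

theorem bn_node {d : D} (hd : BD M B d) : M.SameNode d (M.nx.symm (bn M B d)) := by
  obtain ⟨-, k, hk, -⟩ := bn_spec hB hd
  exact Equiv.Perm.SameCycle.symm ⟨k, by rw [zpow_natCast, Equiv.Perm.coe_pow, hk]⟩

theorem bn_inj {d e : D} (hd : BD M B d) (he : BD M B e) (h : bn M B d = bn M B e) : d = e := by
  obtain ⟨-, k, hk, hk'⟩ := bn_spec hB hd
  obtain ⟨-, l, hl, hl'⟩ := bn_spec hB he
  rw [h] at hk hk'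
  have key : ∀ {a b : ℕ} {x y z : D}, (M.fs)^[a] x = y → BD M B y → (∀ j ≤ b, B ((M.fs)^[j] x)) →
      a < b → False := by
    intro a b x y z h1 h2 h3 h4
    have h5 := h3 (a + 1) h4
    rw [Function.iterate_succ_apply', h1] at h5
    exact h2.2 ((sites_fs hB y).1 h5)
  rcases Nat.lt_trichotomy k l with h1 | h1 | h1
  · exact (key (z := d) hk hd hl' h1).elim
  · subst h1
    exact hk.symm.trans hl
  · exact (key (z := d) hl he hk' h1).elim

end

/-! ### boundary darts at the ring -/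

/-- both ends of the dart are at the ring, or none -/
def NR (M : DMap D) (δ : ZMod 6 → D) (d : D) : Prop := Ring M δ d ↔ Ring M δ (M.nx.symm d)

theorem ring_iff_same {d e : D} (h : M.SameNode d e) : Ring M δ d ↔ Ring M δ e :=
  ⟨ring_same h, ring_same h.symm⟩

theorem ring_al (d : D) : Ring M δ (M.al d) ↔ Ring M δ (M.nx.symm d) :=
  ring_iff_same (nx_symm_node d)

theorem ring_symm_al (d : D) : Ring M δ (M.nx.symm (M.al d)) ↔ Ring M δ d :=
  ring_iff_same (fs_node d).symm

theorem nr_al (d : D) : NR M δ (M.al d) ↔ NR M δ d := by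
  unfold NR
  rw [ring_al, ring_symm_al]
  exact Iff.comm

/-- the number of boundary darts with both ends or no end at the ring -/
noncomputable def nrad [Fintype D] (M : DMap D) (δ : ZMod 6 → D) (B : D → Prop) : ℕ :=
  (Finset.univ.filter fun d => BD M B d ∧ NR M δ d).card

/-- the boundary darts which leave a ring node -/
noncomputable def ofin [Fintype D] (M : DMap D) (δ : ZMod 6 → D) (B : D → Prop) : Finset D :=
  Finset.univ.filter fun d => BD M B d ∧ Ring M δ (M.nx.symm d) ∧ ¬ Ring M δ d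

theorem cut_card [Fintype D] (B : D → Prop) :
    M.cut B = (Finset.univ.filter fun d => BD M B d).card := by
  unfold DMap.cut
  rw [Nat.card_eq_fintype_card, Fintype.card_subtype]
  congr 1
  ext d
  simp only [Finset.mem_filter, Finset.mem_univ, true_and]
  exact Iff.rfl

theorem cut_rad [Fintype D] {B : D → Prop} (hB : M.Sites B) :
    M.cut B = nrad M δ B + 2 * (ofin M δ B).card := by
  let S := Finset.univ.filter fun d => BD M B d
  let I := Finset.univ.filter fun d => BD M B d ∧ Ring M δ d ∧ ¬ Ring M δ (M.nx.symm d)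
  let R := Finset.univ.filter fun d => BD M B d ∧ Ring M δ d ∧ Ring M δ (M.nx.symm d)
  have hmap : ∀ d ∈ S, bn M B d ∈ S := fun d hd => by
    simp only [S, Finset.mem_filter, Finset.mem_univ, true_and] at hd ⊢
    exact bn_bd hB hd
  have hinj : Set.InjOn (bn M B) S := fun d hd e he h => by
    simp only [S, Finset.coe_filter, Finset.mem_univ, true_and, Set.mem_ofPred_eq] at hd he
    exact bn_inj hB hd he h
  have himg : S.image (bn M B) = S := by
    refine Finset.eq_of_subset_of_card_le (Finset.image_subset_iff.2 hmap) ?_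
    rw [Finset.card_image_of_injOn hinj]
  have h1 : (I ∪ R).image (bn M B) = ofin M δ B ∪ R := by
    ext e
    simp only [I, R, ofin, Finset.mem_image, Finset.mem_union, Finset.mem_filter,
      Finset.mem_univ, true_and]
    constructor
    · rintro ⟨d, hd, rfl⟩
      have h2 : BD M B d ∧ Ring M δ d := by tauto
      have h3 := bn_bd hB h2.1
      have h4 : Ring M δ (M.nx.symm (bn M B d)) := ring_same (bn_node hB h2.1) h2.2
      by_cases h5 : Ring M δ (bn M B d)
      · exact Or.inr ⟨h3, h5, h4⟩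
      · exact Or.inl ⟨h3, h4, h5⟩
    · intro he
      have h2 : BD M B e ∧ Ring M δ (M.nx.symm e) := by tauto
      have h3 : e ∈ S.image (bn M B) := by
        rw [himg]
        simp [S, h2.1]
      obtain ⟨d, hd, rfl⟩ := Finset.mem_image.1 h3
      simp only [S, Finset.mem_filter, Finset.mem_univ, true_and] at hd
      have h4 : Ring M δ d := ring_same (bn_node hB hd).symm h2.2
      refine ⟨d, ?_, rfl⟩
      by_cases h5 : Ring M δ (M.nx.symm d)
      · exact Or.inr ⟨hd, h4, h5⟩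
      · exact Or.inl ⟨hd, h4, h5⟩
  have h2 : (I ∪ R).card = (ofin M δ B ∪ R).card := by
    rw [← h1, Finset.card_image_of_injOn]
    refine hinj.mono ?_
    intro d hd
    simp only [I, R, S, Finset.coe_union, Finset.coe_filter, Finset.mem_univ, true_and,
      Set.mem_union, Set.mem_ofPred_eq] at hd ⊢
    tauto
  have d1 : Disjoint I R := by
    rw [Finset.disjoint_left]
    intro d hd hd'
    simp only [I, R, Finset.mem_filter, Finset.mem_univ, true_and] at hd hd'
    exact hd.2.2 hd'.2.2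
  have d2 : Disjoint (ofin M δ B) R := by
    rw [Finset.disjoint_left]
    intro d hd hd'
    simp only [ofin, R, Finset.mem_filter, Finset.mem_univ, true_and] at hd hd'
    exact hd.2.2 hd'.2.1
  rw [Finset.card_union_of_disjoint d1, Finset.card_union_of_disjoint d2] at h2
  set N := Finset.univ.filter fun d => BD M B d ∧ NR M δ d with hN
  have h3 : S = N ∪ (I ∪ ofin M δ B) := by
    ext d
    simp only [S, I, ofin, hN, Finset.mem_union, Finset.mem_filter, Finset.mem_univ, true_and]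
    unfold NR
    tauto
  have d3 : Disjoint I (ofin M δ B) := by
    rw [Finset.disjoint_left]
    intro d hd hd'
    simp only [ofin, I, Finset.mem_filter, Finset.mem_univ, true_and] at hd hd'
    exact hd'.2.2 hd.2.1
  have d4 : Disjoint N (I ∪ ofin M δ B) := by
    rw [Finset.disjoint_left]
    intro d hd hd'
    simp only [ofin, I, hN, Finset.mem_filter, Finset.mem_univ, true_and, Finset.mem_union]
      at hd hd'
    unfold NR at hd
    tauto
  rw [cut_card]
  show S.card = _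
  rw [h3, Finset.card_union_of_disjoint d4, Finset.card_union_of_disjoint d3]
  have h5 : nrad M δ B = N.card := rfl
  omega

/-! ### regions cut off by the boundary -/

/-- four edges -/
theorem arc_four {x y z u : D} {i j : ZMod 6} (hi : M.SameNode (δ i) (M.al x))
    (h1 : M.SameNode x (M.al y)) (h2 : M.SameNode y (M.al z)) (h3 : M.SameNode z (M.al u))
    (hj : M.SameNode (δ j) u) : Arc M δ [x, y, z, u] i j := by
  intro w hw
  simp only [List.map_cons, List.map_nil, List.sum_cons, List.sum_nil, add_zero]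
  rw [← node_fun hw hi, ← node_fun hw hj, ← node_fun hw h1, ← node_fun hw h2, ← node_fun hw h3]
  linear_combination dcyc_char (w x) + dcyc_char (w y) + dcyc_char (w z)

/-- the set `T` is cut off by inner edges of the boundary of `B` -/
structure Region (M : DMap D) (A : D → Prop) (δ : ZMod 6 → D) (B T : D → Prop) : Prop where
  sites : M.Sites T
  sub : ∀ d, T d → A d
  nt : ¬ TrivS A T
  bd : ∀ x, Inn M A x → ¬ (T x ↔ T (M.al x)) → ¬ (B x ↔ B (M.al x))
  ring : ∃ x, Inn M A x ∧ ¬ (T x ↔ T (M.al x)) ∧ Ring M δ x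

namespace Gen

variable [Fintype D] (hG : M.Gen A δ)

include hG

theorem region_of_arc {B : D → Prop} {o : D} {W : List D} {i j : ZMod 6}
    (ha : Arc M δ (o :: W) i j) (hbd : ∀ x ∈ o :: W, BD M B x) (hi : Inn M A o) (ho : o ∉ W)
    (hr : Ring M δ (M.al o)) : ∃ T, Region M A δ B T ∧ rcut M A T ≤ (o :: W).length := by
  obtain ⟨T, hT, hTA, hT1, -⟩ := hG.toPatch.exists_arc ha
  have hw : wcnt M (o :: W) o = 1 := by
    have h1 : wcnt M W o = 0 := by
      by_contra h
      rcases wcnt_mem h with h2 | h2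
      · exact ho h2
      · exact (hbd o (by simp)).2 (hbd _ (List.mem_cons_of_mem _ h2)).1
    rw [wcnt_cons, h1, ind_true rfl, ind_false fun h => M.ne _ h.symm]
    decide
  have h2 : ¬ (T o ↔ T (M.al o)) := by
    rw [← ind_add', hT1 o hi.1 hi.2, hw]
  refine ⟨T, ⟨hT, hTA, fun ht => ?_, fun x hx hxT => ?_, M.al o, inn_al.2 hi, ?_, hr⟩,
    rcut_le hT1⟩
  · have h3 := hG.wcnt_zero hTA ht hT1 hi.1 hi.2
    rw [hw] at h3
    revert h3
    decide
  · have h3 : wcnt M (o :: W) x ≠ 0 := by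
      rw [← hT1 x hx.1 hx.2]
      rw [← ind_add'] at hxT
      rw [hxT]
      decide
    rcases wcnt_mem h3 with h4 | h4
    · exact fun h => (hbd x h4).2 (h.1 (hbd x h4).1)
    · have h5 := hbd _ h4
      unfold BD at h5
      rw [M.inv] at h5
      exact fun h => h5.2 (h.2 h5.1)
  · rw [M.inv]
    exact fun h => h2 h.symm

/-- an inner dart -/
theorem inn_of {d : D} (hd : A d) (h : ¬ Ring M δ d ∨ ¬ Ring M δ (M.nx.symm d)) : Inn M A d := by
  refine ⟨hd, ?_⟩
  by_contra hn
  obtain ⟨i, rfl⟩ := (hG.bd.mem d).1 ⟨hd, hn⟩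
  rcases h with h | h
  · exact h (ring_δ i)
  · exact h (hG.toPatch.ring_prev i)

/-- **the arcs of the boundary**: if there are at least two arcs and at most five boundary darts which are not
radial then a small set is cut off -/
theorem exists_region {B : D → Prop} (hB : M.Sites B) (hBA : ∀ d, B d → A d)
    (hn : nrad M δ B ≤ 5) (ho : 2 ≤ (ofin M δ B).card) :
    ∃ T, Region M A δ B T ∧ rcut M A T ≤ 4 := by
  by_contra hno
  let N := Finset.univ.filter fun d => BD M B d ∧ NR M δ d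
  have hN : N.card = nrad M δ B := rfl
  -- the darts after a radial dart
  have step : ∀ x, BD M B x → ¬ Ring M δ x → ¬ Ring M δ (M.nx.symm (bn M B x)) ∧
      Inn M A (bn M B x) := by
    intro x hx hr
    have h1 : ¬ Ring M δ (M.nx.symm (bn M B x)) := fun h => hr (ring_same (bn_node hB hx).symm h)
    exact ⟨h1, hG.inn_of (hBA _ (bn_bd hB hx).1) (Or.inr h1)⟩
  have node : ∀ x, BD M B x → M.SameNode x (M.al (bn M B x)) := fun x hx =>
    (bn_node hB hx).trans (nx_symm_node _).symm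
  have h1 : ∀ o ∈ ofin M δ B, bn M B o ∈ N ∧ bn M B (bn M B o) ∈ N ∧
      bn M B (bn M B (bn M B o)) ∈ N := by
    intro o ho
    simp only [ofin, Finset.mem_filter, Finset.mem_univ, true_and] at ho
    obtain ⟨b0, r0, e0⟩ := ho
    have i0 : Inn M A o := hG.inn_of (hBA _ b0.1) (Or.inl e0)
    have ra : Ring M δ (M.al o) := (ring_al o).2 r0
    obtain ⟨i, hi⟩ := ra
    have b1 := bn_bd hB b0
    obtain ⟨r1, i1⟩ := step o b0 e0
    have hne : ∀ {x}, ¬ Ring M δ (M.nx.symm x) → o ≠ x := fun h h' => h (h' ▸ r0)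
    -- the second dart does not return to the ring
    have e1 : ¬ Ring M δ (bn M B o) := by
      rintro ⟨j, hj⟩
      obtain ⟨T, hT, hT2⟩ := hG.region_of_arc (o := o) (W := [bn M B o]) (B := B)
        (arc_two hi (node _ b0) hj) (by simp [b0, b1]) i0
        (by simp only [List.mem_cons, List.not_mem_nil, or_false]; exact hne r1) ⟨i, hi⟩
      exact hT.nt (hG.r2 hT.sites hT.sub hT2)
    have n1 : bn M B o ∈ N := by
      simp only [N, Finset.mem_filter, Finset.mem_univ, true_and]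
      exact ⟨b1, iff_of_false e1 r1⟩
    have b2 := bn_bd hB b1
    obtain ⟨r2, i2⟩ := step _ b1 e1
    have e2 : ¬ Ring M δ (bn M B (bn M B o)) := by
      rintro ⟨j, hj⟩
      obtain ⟨T, hT, hT2⟩ := hG.region_of_arc (o := o) (W := [bn M B o, bn M B (bn M B o)])
        (B := B) (arc_three hi (node _ b0) (node _ b1) hj) (by simp [b0, b1, b2]) i0
        (by
          simp only [List.mem_cons, List.not_mem_nil, or_false, not_or]
          exact ⟨hne r1, hne r2⟩) ⟨i, hi⟩
      exact hno ⟨T, hT, hT2.trans (by simp)⟩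
    have n2 : bn M B (bn M B o) ∈ N := by
      simp only [N, Finset.mem_filter, Finset.mem_univ, true_and]
      exact ⟨b2, iff_of_false e2 r2⟩
    have b3 := bn_bd hB b2
    obtain ⟨r3, i3⟩ := step _ b2 e2
    have e3 : ¬ Ring M δ (bn M B (bn M B (bn M B o))) := by
      rintro ⟨j, hj⟩
      obtain ⟨T, hT, hT2⟩ := hG.region_of_arc (o := o)
        (W := [bn M B o, bn M B (bn M B o), bn M B (bn M B (bn M B o))])
        (B := B) (arc_four hi (node _ b0) (node _ b1) (node _ b2) hj) (by simp [b0, b1, b2, b3])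
        i0 (by
          simp only [List.mem_cons, List.not_mem_nil, or_false, not_or]
          exact ⟨hne r1, hne r2, hne r3⟩) ⟨i, hi⟩
      exact hno ⟨T, hT, hT2.trans (by simp)⟩
    have n3 : bn M B (bn M B (bn M B o)) ∈ N := by
      simp only [N, Finset.mem_filter, Finset.mem_univ, true_and]
      exact ⟨b3, iff_of_false e3 r3⟩
    exact ⟨n1, n2, n3⟩
  have hNb : ∀ {x}, x ∈ N → BD M B x := fun h => (Finset.mem_filter.1 h).2.1
  have hOb : ∀ {x}, x ∈ ofin M δ B → BD M B x := fun h => (Finset.mem_filter.1 h).2.1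
  have hON : ∀ {x}, x ∈ ofin M δ B → x ∉ N := fun h h' => by
    simp only [ofin, N, Finset.mem_filter, Finset.mem_univ, true_and] at h h'
    unfold NR at h'
    tauto
  let X1 := (ofin M δ B).image (bn M B)
  let X2 := X1.image (bn M B)
  let X3 := X2.image (bn M B)
  have m1 : ∀ x ∈ X1, ∃ o ∈ ofin M δ B, bn M B o = x := fun x hx => Finset.mem_image.1 hx
  have m2 : ∀ x ∈ X2, ∃ o ∈ X1, bn M B o = x := fun x hx => Finset.mem_image.1 hx
  have m3 : ∀ x ∈ X3, ∃ o ∈ X2, bn M B o = x := fun x hx => Finset.mem_image.1 hx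
  have s1 : ∀ x ∈ X1, x ∈ N := fun x hx => by
    obtain ⟨o, ho, rfl⟩ := m1 x hx
    exact (h1 o ho).1
  have s2 : ∀ x ∈ X2, x ∈ N := fun x hx => by
    obtain ⟨y, hy, rfl⟩ := m2 x hx
    obtain ⟨o, ho, rfl⟩ := m1 y hy
    exact (h1 o ho).2.1
  have s3 : ∀ x ∈ X3, x ∈ N := fun x hx => by
    obtain ⟨z, hz, rfl⟩ := m3 x hx
    obtain ⟨y, hy, rfl⟩ := m2 z hz
    obtain ⟨o, ho, rfl⟩ := m1 y hy
    exact (h1 o ho).2.2
  have c1 : X1.card = (ofin M δ B).card :=
    Finset.card_image_of_injOn fun x hx y hy h => bn_inj hB (hOb hx) (hOb hy) h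
  have c2 : X2.card = X1.card :=
    Finset.card_image_of_injOn fun x hx y hy h =>
      bn_inj hB (hNb (s1 x hx)) (hNb (s1 y hy)) h
  have c3 : X3.card = X2.card :=
    Finset.card_image_of_injOn fun x hx y hy h =>
      bn_inj hB (hNb (s2 x hx)) (hNb (s2 y hy)) h
  have d12 : Disjoint X1 X2 := by
    rw [Finset.disjoint_left]
    intro x hx hx'
    obtain ⟨o, ho, rfl⟩ := m1 x hx
    obtain ⟨y, hy, h⟩ := m2 _ hx'
    have := bn_inj hB (hNb (s1 y hy)) (hOb ho) h
    exact hON ho (this ▸ s1 y hy)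
  have d13 : Disjoint X1 X3 := by
    rw [Finset.disjoint_left]
    intro x hx hx'
    obtain ⟨o, ho, rfl⟩ := m1 x hx
    obtain ⟨y, hy, h⟩ := m3 _ hx'
    have := bn_inj hB (hNb (s2 y hy)) (hOb ho) h
    exact hON ho (this ▸ s2 y hy)
  have d23 : Disjoint X2 X3 := by
    rw [Finset.disjoint_left]
    intro x hx hx'
    obtain ⟨y, hy, rfl⟩ := m2 x hx
    obtain ⟨z, hz, h⟩ := m3 _ hx'
    have := bn_inj hB (hNb (s2 z hz)) (hNb (s1 y hy)) h
    exact Finset.disjoint_left.1 d12 hy (this ▸ hz)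
  have hsub : X1 ∪ (X2 ∪ X3) ⊆ N := by
    intro x hx
    rcases Finset.mem_union.1 hx with h | h
    · exact s1 x h
    · rcases Finset.mem_union.1 h with h | h
      · exact s2 x h
      · exact s3 x h
  have hc := Finset.card_le_card hsub
  rw [Finset.card_union_of_disjoint (Finset.disjoint_union_right.2 ⟨d12, d13⟩),
    Finset.card_union_of_disjoint d23] at hc
  omega

end Gen

/-! ### sets of sites which are extended to the removed quads -/

/-- the removed quads are in `B` in a suitable way: a quad in `B` has one of its inner neighbours in `B`, a link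
which is not in `B` has one of them not in `B` -/
structure Adm (M : DMap D) (A : D → Prop) (δ : ZMod 6 → D) (B : D → Prop) : Prop where
  pos : ∀ e, FS M A δ e → M.deg e = 4 → B e →
    B (M.al (M.nx (M.nx e))) ∨ ((∀ i, e ≠ δ i) ∧ B (M.al (M.nx.symm e)))
  neg : ∀ e, FS M A δ e → M.deg e = 4 → ¬ B e → (∀ i, e ≠ δ i) →
    ¬ B (M.al (M.nx (M.nx e))) ∨ ¬ B (M.al (M.nx.symm e))

theorem Sites.nx2 {B : D → Prop} (hB : M.Sites B) (d : D) : B (M.nx (M.nx d)) ↔ B d := by
  rw [hB, hB]

namespace Gen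

variable [Fintype D] (hG : M.Gen A δ)

include hG

/-- the site of a ring edge has a fold sector -/
theorem exists_fs_ring (j : ZMod 6) : ∃ e, FS M A δ e ∧ M.SameSite (δ j) e := by
  by_contra hno
  push Not at hno
  have h1 : ∀ k : ℕ, M.SameSite (δ j) (δ (j + k)) := by
    intro k
    induction k with
    | zero => rw [Nat.cast_zero, add_zero]
    | succ k ih =>
      rcases hG.fs_or (j + k) with h | h
      · exact absurd ih (hno _ h)
      · have h2 : j + ((k + 1 : ℕ) : ZMod 6) = j + k + 1 := by push_cast; ring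
        rw [h2, ← h]
        exact ih.trans (site_nx _)
  have h2 : ∀ i, M.SameSite (δ j) (δ i) := by
    intro i
    have h3 := h1 (i - j).val
    rwa [ZMod.natCast_val, ZMod.cast_id', id, add_sub_cancel] at h3
  have h3 : scut δ (M.SameSite (δ j)) = 6 := by
    have h4 : scut δ (M.SameSite (δ j)) = (Finset.univ : Finset (ZMod 6)).card := by
      unfold scut
      congr 1
      ext i
      simp [h2 i]
    rw [h4]
    rfl
  have hA : ∀ d, M.SameSite (δ j) d → A d := fun d hd =>
    (hG.toPatch.sites.same hd).1 (hG.toPatch.inA j)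
  have h4 := hG.toPatch.cut_eq hA
  rw [hG.legal.cut_site, h3] at h4
  rcases hG.r1 (M.sites_site (δ j)) hA (by rcases hG.deg46 (δ j) with h | h <;> omega) with h | h
  · exact h _ (Equiv.Perm.SameCycle.refl _ _)
  · obtain ⟨e, he, he'⟩ := hG.two (δ j)
    exact he' (h e he)

/-- the site of a ring sector has a fold sector -/
theorem exists_fs {x : D} (hx : A x) (hr : Ring M δ x) : ∃ e, FS M A δ e ∧ M.SameSite x e := by
  by_cases h : ∃ j, x = M.nx.symm (δ j)
  · obtain ⟨j, hj⟩ := h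
    obtain ⟨e, he, hs⟩ := hG.exists_fs_ring j
    refine ⟨e, he, ?_⟩
    rw [hj]
    exact (site_nx_symm _).symm.trans hs
  · push Not at h
    exact ⟨x, ⟨hx, hr, h⟩, Equiv.Perm.SameCycle.refl _ _⟩

omit [Fintype D] in
theorem quad_fr [Finite D] {e x : D} (he : FS M A δ e) (h4 : M.deg e = 4) (hs : M.SameSite e x) :
    FR M (FS M A δ) x := by
  have := hG
  rcases mem_quad h4 hs with rfl | rfl | rfl | rfl
  · exact FoldSet.r0 he
  · exact FoldSet.r1 he
  · exact FoldSet.r2 he h4
  · exact FoldSet.r3 he h4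

omit [Fintype D] hG in
theorem fr_site {x : D} (h : FR M (FS M A δ) x) : ∃ e, FS M A δ e ∧ M.SameSite e x := by
  rcases FoldSet.cases h with h1 | ⟨e, h1, rfl⟩ | ⟨e, h1, -, rfl⟩ | ⟨e, h1, -, rfl⟩
  · exact ⟨x, h1, Equiv.Perm.SameCycle.refl _ _⟩
  · exact ⟨e, h1, site_nx e⟩
  · exact ⟨e, h1, (site_nx e).trans (site_nx _)⟩
  · exact ⟨e, h1, ((site_nx e).trans (site_nx _)).trans (site_nx _)⟩

/-- the inner darts of a folded site -/
theorem inn2 {e : D} (he : FS M A δ e) : Inn M A (M.nx (M.nx e)) :=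
  hG.inn_of ((hG.toPatch.sites.nx2 e).2 he.1) (Or.inl (hG.fs2 he))

theorem inn3 {e : D} (he : FS M A δ e) : Inn M A (M.nx (M.nx (M.nx e))) := by
  refine hG.inn_of ((hG.toPatch.sites _).2 ((hG.toPatch.sites.nx2 e).2 he.1)) (Or.inr ?_)
  rw [Equiv.symm_apply_apply]
  exact hG.fs2 he

theorem innp {e : D} (he : FS M A δ e) (h4 : M.deg e = 4) : Inn M A (M.nx.symm e) := by
  rw [nx_four' h4]
  exact hG.inn3 he

/-- the opposite darts of a folded site are not radial -/
theorem nr2 {e : D} (he : FS M A δ e) : NR M δ (M.nx (M.nx e)) := by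
  refine iff_of_false (hG.fs2 he) ?_
  rw [Equiv.symm_apply_apply]
  exact hG.fs1 he

theorem nr3 {e : D} (he : FS M A δ e) (h6 : M.deg e = 6) : NR M δ (M.nx (M.nx (M.nx e))) := by
  refine iff_of_false (hG.fs3 he h6) ?_
  rw [Equiv.symm_apply_apply]
  exact hG.fs2 he

/-- adding a region -/
theorem adm_add {B T : D → Prop} (hB : M.Sites B) (hT : M.Sites T) (ha : Adm M A δ B)
    (hd : ∀ x, T x → ¬ B x)
    (hbd : ∀ x, Inn M A x → ¬ (T x ↔ T (M.al x)) → ¬ (B x ↔ B (M.al x))) :
    Adm M A δ fun x => B x ∨ T x := by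
  constructor
  · rintro e he h4 (h | h)
    · rcases ha.pos e he h4 h with h1 | h1
      · exact Or.inl (Or.inl h1)
      · exact Or.inr ⟨h1.1, Or.inl h1.2⟩
    · left
      have hx : T (M.nx (M.nx e)) := (hT.nx2 e).2 h
      by_cases h1 : T (M.al (M.nx (M.nx e)))
      · exact Or.inr h1
      · left
        have h2 := hbd _ (hG.inn2 he) fun h3 => h1 (h3.1 hx)
        have h3 := hd _ hx
        tauto
  · intro e he h4 h hl
    have key : ∀ x, M.SameSite e x → Inn M A x → ¬ B (M.al x) → ¬ (B (M.al x) ∨ T (M.al x)) := by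
      intro x hs hi h1 h2
      rcases h2 with h2 | h2
      · exact h1 h2
      · have h3 : ¬ T x := fun h4 => h (Or.inr ((hT.same hs).2 h4))
        have h4 : ¬ B x := fun h4 => h (Or.inl ((hB.same hs).2 h4))
        have h5 := hbd x hi fun h6 => h3 (h6.2 h2)
        exact h5 (iff_of_false h4 h1)
    rcases ha.neg e he h4 (fun h1 => h (Or.inl h1)) hl with h1 | h1
    · exact Or.inl (key _ ((site_nx e).trans (site_nx _)) (hG.inn2 he) h1)
    · exact Or.inr (key _ (site_nx_symm e) (hG.innp he h4) h1)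

omit hG in
/-- the boundary darts after adding a region -/
theorem card_add (hP : M.Patch A δ) {B T : D → Prop} {Q : D → Prop}
    (hTA : ∀ d, T d → A d) (hd : ∀ x, T x → ¬ B x)
    (hbd : ∀ x, Inn M A x → ¬ (T x ↔ T (M.al x)) → ¬ (B x ↔ B (M.al x)))
    (hQ : ∀ d, Q (M.al d) ↔ Q d) :
    cnt (fun d => BD M (fun x => B x ∨ T x) d ∧ Q d) +
      cnt (fun y => (BD M T y ∧ Inn M A y) ∧ Q y) ≤ cnt (fun d => BD M B d ∧ Q d) + scut δ T := by
  rw [cnt_eq, cnt_eq, cnt_eq]
  set X' := Finset.univ.filter fun d => BD M (fun x => B x ∨ T x) d ∧ Q d with hX'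
  set X := Finset.univ.filter fun d => BD M B d ∧ Q d with hX
  set Y := (Finset.univ.filter fun y => (BD M T y ∧ Inn M A y) ∧ Q y) with hY
  set Z := (Finset.univ.filter fun k => T (δ k)).image δ with hZ
  have hZc : Z.card ≤ scut δ T := Finset.card_image_le
  have hYc : (Y.image M.al).card = Y.card := Finset.card_image_of_injective _ M.al_inj
  have h1 : Y.image M.al ⊆ X := by
    intro d hd'
    obtain ⟨y, hy, rfl⟩ := Finset.mem_image.1 hd'
    simp only [hY, hX, Finset.mem_filter, Finset.mem_univ, true_and] at hy ⊢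
    obtain ⟨⟨⟨y1, y2⟩, y3⟩, y4⟩ := hy
    have h2 := hbd y y3 fun h => y2 (h.1 y1)
    have h3 := hd y y1
    refine ⟨⟨by tauto, ?_⟩, (hQ y).2 y4⟩
    rw [M.inv]
    exact h3
  have h2 : X' ⊆ (X \ Y.image M.al) ∪ Z := by
    intro d hd'
    simp only [hX', Finset.mem_filter, Finset.mem_univ, true_and] at hd'
    obtain ⟨⟨h3, h4⟩, h5⟩ := hd'
    rw [not_or] at h4
    rw [Finset.mem_union, Finset.mem_sdiff]
    rcases h3 with h3 | h3
    · left
      refine ⟨Finset.mem_filter.2 ⟨Finset.mem_univ _, ⟨h3, h4.1⟩, h5⟩, fun h6 => ?_⟩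
      obtain ⟨y, hy, rfl⟩ := Finset.mem_image.1 h6
      simp only [hY, Finset.mem_filter, Finset.mem_univ, true_and] at hy
      rw [M.inv] at h4
      exact h4.2 hy.1.1.1
    · right
      by_cases h6 : A (M.al d)
      · exfalso
        have h7 := hbd d ⟨hTA d h3, h6⟩ fun h => h4.2 (h.1 h3)
        exact h7 (iff_of_false (hd d h3) h4.1)
      · obtain ⟨k, hk⟩ := (hP.bd.mem d).1 ⟨hTA d h3, h6⟩
        rw [hZ, Finset.mem_image]
        exact ⟨k, by simp [hk, h3], hk⟩
  have h3 := (Finset.card_le_card h2).trans (Finset.card_union_le _ _)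
  rw [Finset.card_sdiff_of_subset h1] at h3
  have h4 := Finset.card_le_card h1
  omega

end Gen

namespace Region

variable [Fintype D] {B T : D → Prop}

omit [Fintype D] in
/-- the complement of a region -/
theorem compl (hP : M.Patch A δ) (h : Region M A δ B T) :
    Region M A δ B fun d => A d ∧ ¬ T d := by
  have h1 : ∀ x, Inn M A x → (¬ ((A x ∧ ¬ T x) ↔ (A (M.al x) ∧ ¬ T (M.al x))) ↔
      ¬ (T x ↔ T (M.al x))) := fun x hx => by
    have h2 := hx.1
    have h3 := hx.2
    tauto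
  refine ⟨hP.sites_compl h.sites, fun d hd => hd.1, fun ht => h.nt ?_, fun x hx h2 =>
    h.bd x hx ((h1 x hx).1 h2), ?_⟩
  · rcases ht with ht | ht
    · exact Or.inr fun d hd => by_contra fun h2 => ht d ⟨hd, h2⟩
    · exact Or.inl fun d hd => (ht d (h.sub d hd)).2 hd
  · obtain ⟨x, hx, h2, h3⟩ := h.ring
    exact ⟨x, hx, (h1 x hx).2 h2, h3⟩

/-- a region with at most four inner edges -/
theorem classify (hG : M.Gen A δ) (h : Region M A δ B T) (hr : rcut M A T ≤ 4) :
    ∃ T', Region M A δ B T' ∧ ((∃ q, M.deg q = 4 ∧ ∀ e, T' e ↔ M.SameSite q e) ∨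
      (M.cut T' = 6 ∧ scut δ T' = 2)) := by
  obtain ⟨h1, h2, ⟨k, hk⟩, h4, h5, h6⟩ := hG.nums h.sites h.sub h.nt
  have hc := hG.toPatch.cut_eq h.sub
  by_cases c1 : rcut M A T + scut δ T = 4
  · obtain ⟨-, q, hq⟩ := h4 c1
    exact ⟨T, h, Or.inl ⟨q, hq⟩⟩
  by_cases c2 : rcut M A T + 6 = 4 + scut δ T
  · obtain ⟨-, q, hq⟩ := h5 c2
    exact ⟨_, h.compl hG.toPatch, Or.inl ⟨q, hq⟩⟩
  have c3 : rcut M A T = 4 ∧ (scut δ T = 2 ∨ scut δ T = 4) := by omega
  rcases c3.2 with c4 | c4
  · exact ⟨T, h, Or.inr ⟨by omega, c4⟩⟩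
  · have e1 := hG.toPatch.cut_eq (B := fun d => A d ∧ ¬ T d) fun d h => h.1
    rw [Patch.rcut_compl] at e1
    have e2 := hG.toPatch.scut_compl T
    exact ⟨_, h.compl hG.toPatch, Or.inr ⟨by omega, by omega⟩⟩

end Region

namespace Gen

variable [Fintype D] (hG : M.Gen A δ)

include hG

/-- the conclusion about `B` -/
def Single (M : DMap D) (A : D → Prop) (δ : ZMod 6 → D) (B : D → Prop) : Prop :=
  ∃ d, B d ∧ ¬ FR M (FS M A δ) d ∧ (M.deg d = 4 ∨ ∃ e, FS M A δ e ∧ M.SameSite d e) ∧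
    ∀ e, B e → ¬ FR M (FS M A δ) e → M.SameSite d e

omit [Fintype D] hG in
theorem Single.mono {B B' : D → Prop} (h : Single M A δ B') (hs : ∀ d, B d → B' d)
    (hne : ∃ d, B d ∧ ¬ FR M (FS M A δ) d) : Single M A δ B := by
  obtain ⟨d, h1, h2, h3, h4⟩ := h
  obtain ⟨x, hx, hx'⟩ := hne
  have h5 := h4 x (hs x hx) hx'
  refine ⟨x, hx, hx', ?_, fun e he he' => h5.symm.trans (h4 e (hs e he) he')⟩
  rcases h3 with h3 | ⟨e, he, h3⟩
  · exact Or.inl (by rw [← deg_same h5, h3])
  · exact Or.inr ⟨e, he, h5.symm.trans h3⟩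

/-- the induction step: a region outside of `B` is added -/
theorem step_add {B T : D → Prop} (hB : M.Sites B) (hBA : ∀ d, B d → A d) (ha : Adm M A δ B)
    (hn : nrad M δ B ≤ 4) (hne : ∃ d, B d ∧ ¬ FR M (FS M A δ) d)
    (hT : Region M A δ B T) (hd : ∀ x, T x → ¬ B x) (h3 : scut δ T < rcut M A T)
    (h4 : scut δ T ≤ cnt fun y => (BD M T y ∧ Inn M A y) ∧ NR M δ y)
    (ih : ∀ B' : D → Prop, M.cut B' < M.cut B → M.Sites B' → (∀ d, B' d → A d) →
      Adm M A δ B' → nrad M δ B' ≤ 4 → (∃ d, B' d ∧ ¬ FR M (FS M A δ) d) →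
        nrad M δ B' = 4 ∧ Single M A δ B') :
    nrad M δ B = 4 ∧ Single M A δ B := by
  have e1 := card_add hG.toPatch (Q := fun _ => True) hT.sub hd hT.bd fun _ => Iff.rfl
  have e2 := card_add hG.toPatch (Q := NR M δ) hT.sub hd hT.bd nr_al
  have e3 : cnt (fun d => BD M (fun x => B x ∨ T x) d ∧ True) = M.cut fun x => B x ∨ T x := by
    rw [cut_card, ← cnt_eq]
    exact cnt_congr fun x => ⟨fun h => h.1, fun h => ⟨h, trivial⟩⟩
  have e4 : cnt (fun d => BD M B d ∧ True) = M.cut B := by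
    rw [cut_card, ← cnt_eq]
    exact cnt_congr fun x => ⟨fun h => h.1, fun h => ⟨h, trivial⟩⟩
  have e5 : cnt (fun y => (BD M T y ∧ Inn M A y) ∧ True) = rcut M A T := by
    unfold rcut
    rw [Nat.card_eq_fintype_card, Fintype.card_subtype, ← cnt_eq]
    exact cnt_congr fun x => ⟨fun h => h.1, fun h => ⟨h, trivial⟩⟩
  have e6 : cnt (fun d => BD M (fun x => B x ∨ T x) d ∧ NR M δ d) =
      nrad M δ fun x => B x ∨ T x := cnt_eq _
  have e7 : cnt (fun d => BD M B d ∧ NR M δ d) = nrad M δ B := cnt_eq _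
  obtain ⟨x, hx, hx'⟩ := hne
  obtain ⟨f1, f2⟩ := ih (fun x => B x ∨ T x) (by omega) (hB.or hT.sites)
    (fun d h => h.elim (hBA d) (hT.sub d)) (hG.adm_add hB hT.sites ha hd hT.bd) (by omega)
    ⟨x, Or.inl hx, hx'⟩
  exact ⟨by omega, f2.mono (fun d h => Or.inl h) ⟨x, hx, hx'⟩⟩

end Gen

namespace Gen

variable [Fintype D] (hG : M.Gen A δ)

include hG

/-- a site or two quads at the ring with six leaving darts -/
theorem region_fs {B T : D → Prop} (hT : Region M A δ B T) : ∃ e, FS M A δ e ∧ T e := by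
  obtain ⟨x, hx, hxT, hxr⟩ := hT.ring
  by_cases h : T x
  · obtain ⟨e, he, hs⟩ := hG.exists_fs hx.1 hxr
    exact ⟨e, he, (hT.sites.same hs).1 h⟩
  · have h1 : T (M.al x) := by tauto
    have h2 : T (M.fs x) := (sites_fs hT.sites x).2 h1
    obtain ⟨e, he, hs⟩ := hG.exists_fs (hT.sub _ h2) (ring_same (fs_node x) hxr)
    exact ⟨e, he, (hT.sites.same hs).1 h2⟩

/-- removing a hexagon whose neighbours are not in `B` -/
theorem step_del {B T : D → Prop} (hB : M.Sites B) (hBA : ∀ d, B d → A d) (ha : Adm M A δ B)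
    (hn : nrad M δ B ≤ 4) {e : D} (he : FS M A δ e) (h6 : M.deg e = 6)
    (hT : ∀ x, T x ↔ M.SameSite e x) (hTB : ∀ x, T x → B x)
    (hnb : ∀ x, T x → Inn M A x → ¬ B (M.al x)) (hs2 : scut δ T = 2)
    (ih : ∀ B' : D → Prop, M.cut B' < M.cut B → M.Sites B' → (∀ d, B' d → A d) →
      Adm M A δ B' → nrad M δ B' ≤ 4 → (∃ d, B' d ∧ ¬ FR M (FS M A δ) d) →
        nrad M δ B' = 4 ∧ Single M A δ B') :
    nrad M δ B = 4 ∧ Single M A δ B := by
  have hTs : M.Sites T := fun d => by
    rw [hT, hT]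
    exact M.sites_site e d
  -- neighbours of `T`
  have nb : ∀ x, B x → T (M.al x) → B (M.al (M.al x)) → False := by
    intro x hx hxT h
    refine hnb (M.al x) hxT ⟨hBA _ (hTB _ hxT), hBA _ h⟩ h
  have nb' : ∀ x, B x → T (M.al x) → False := fun x hx hxT =>
    nb x hx hxT (by rw [M.inv]; exact hx)
  have key : ∀ d, BD M (fun d => B d ∧ ¬ T d) d ↔ BD M B d ∧ ¬ T d := by
    intro d
    constructor
    · rintro ⟨⟨h1, h2⟩, h3⟩
      exact ⟨⟨h1, fun h4 => h3 ⟨h4, fun h5 => nb' d h1 h5⟩⟩, h2⟩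
    · rintro ⟨⟨h1, h2⟩, h3⟩
      exact ⟨⟨h1, h3⟩, fun h4 => h2 h4.1⟩
  -- the ring edges
  obtain ⟨i, hi, j, hj, hij⟩ := Finset.one_lt_card.1 (show 1 < scut δ T by omega)
  simp only [Finset.mem_filter, Finset.mem_univ, true_and] at hi hj
  have hbd : ∀ k, T (δ k) → BD M B (δ k) := fun k hk =>
    ⟨hTB _ hk, fun h => hG.toPatch.notA k (hBA _ h)⟩
  have hnr : ∀ k, NR M δ (δ k) := fun k => iff_of_true (ring_δ k) (hG.toPatch.ring_prev k)
  have hs : ∀ x, M.SameSite e x → T x := fun x => (hT x).2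
  have i2 := hG.inn2 he
  have i3 := hG.inn3 he
  have t2 : T (M.nx (M.nx e)) := hs _ ((site_nx e).trans (site_nx _))
  have t3 : T (M.nx (M.nx (M.nx e))) := (hTs _).2 t2
  have b2 : BD M B (M.nx (M.nx e)) := ⟨hTB _ t2, hnb _ t2 i2⟩
  have b3 : BD M B (M.nx (M.nx (M.nx e))) := ⟨hTB _ t3, hnb _ t3 i3⟩
  have hin : ∀ k, ¬ Inn M A (δ k) := fun k h => hG.toPatch.notA k h.2
  have c1 : nrad M δ B = cnt (fun d => (BD M B d ∧ NR M δ d) ∧ T d) +
      cnt fun d => (BD M B d ∧ NR M δ d) ∧ ¬ T d := by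
    rw [← cnt_split]
    exact (cnt_eq _).symm
  have c2 : cnt (fun d => (BD M B d ∧ NR M δ d) ∧ ¬ T d) = nrad M δ fun d => B d ∧ ¬ T d := by
    have h1 : nrad M δ (fun d => B d ∧ ¬ T d) =
        cnt fun d => BD M (fun d => B d ∧ ¬ T d) d ∧ NR M δ d := (cnt_eq _).symm
    rw [h1]
    refine cnt_congr fun x => ?_
    rw [key]
    tauto
  have c3 : 4 ≤ cnt fun d => (BD M B d ∧ NR M δ d) ∧ T d := by
    rw [cnt_split _ fun d => Inn M A d]
    have h1 : 2 ≤ cnt fun x => ((BD M B x ∧ NR M δ x) ∧ T x) ∧ Inn M A x :=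
      cnt_two (a := M.nx (M.nx e)) (b := M.nx (M.nx (M.nx e))) (fun h => hG.ne1 _ h.symm)
        ⟨⟨⟨b2, hG.nr2 he⟩, t2⟩, i2⟩ ⟨⟨⟨b3, hG.nr3 he h6⟩, t3⟩, i3⟩
    have h2 : 2 ≤ cnt fun x => ((BD M B x ∧ NR M δ x) ∧ T x) ∧ ¬ Inn M A x :=
      cnt_two (a := δ i) (b := δ j) (fun h => hij (hG.bd.inj h))
        ⟨⟨⟨hbd i hi, hnr i⟩, hi⟩, hin i⟩ ⟨⟨⟨hbd j hj, hnr j⟩, hj⟩, hin j⟩
    omega
  have c4 : M.cut (fun d => B d ∧ ¬ T d) < M.cut B := by
    have h1 : M.cut B = cnt (fun d => BD M B d ∧ T d) + cnt fun d => BD M B d ∧ ¬ T d := by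
      rw [← cnt_split, cut_card]
      exact (cnt_eq _).symm
    have h2 : M.cut (fun d => B d ∧ ¬ T d) = cnt fun d => BD M B d ∧ ¬ T d := by
      rw [cut_card, ← cnt_eq]
      exact cnt_congr key
    have h3 : 1 ≤ cnt fun d => BD M B d ∧ T d := cnt_pos (a := δ i) ⟨hbd i hi, hi⟩
    omega
  have ha' : Adm M A δ fun d => B d ∧ ¬ T d := by
    constructor
    · rintro x hx hx4 ⟨h1, h2⟩
      have hB2 : B (M.nx (M.nx x)) := (hB.nx2 x).2 h1
      have hB3 : B (M.nx.symm x) := (hB.symm x).2 h1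
      rcases ha.pos x hx hx4 h1 with h | h
      · exact Or.inl ⟨h, fun h3 => nb' _ hB2 h3⟩
      · exact Or.inr ⟨h.1, h.2, fun h3 => nb' _ hB3 h3⟩
    · intro x hx hx4 h1 hl
      have h2 : ¬ B x := fun h => h1 ⟨h, fun h3 => by
        have := deg_same ((hT x).1 h3)
        omega⟩
      rcases ha.neg x hx hx4 h2 hl with h | h
      · exact Or.inl fun h3 => h h3.1
      · exact Or.inr fun h3 => h h3.1
  have hBs : M.Sites fun d => B d ∧ ¬ T d := hB.and hTs.not
  by_cases hne' : ∃ d, (B d ∧ ¬ T d) ∧ ¬ FR M (FS M A δ) d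
  · obtain ⟨h1, -⟩ := ih (fun d => B d ∧ ¬ T d) c4 hBs (fun d h => hBA d h.1) ha' (by omega) hne'
    omega
  · push Not at hne'
    -- nothing else is in `B`
    have hall : ∀ x, B x → T x := by
      intro x hx
      by_contra hxT
      obtain ⟨f, hf, hfs⟩ := fr_site (hne' x ⟨hx, hxT⟩)
      have hfB : B f ∧ ¬ T f := (hBs.same hfs).2 ⟨hx, hxT⟩
      rcases hG.deg46 f with h4 | h5
      · rcases ha'.pos f hf h4 hfB with h | h
        · exact hG.k2 hf h4 (hne' _ h)
        · exact hG.k3 hf h4 h.1 (hne' _ h.2)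
      · have h7 : ¬ FR M (FS M A δ) (M.nx (M.nx f)) :=
          hG.foldSet.stay hf (by omega) ((site_nx f).trans (site_nx _)) (hG.ne2 f)
            fun h => hG.ne1 _ h
        exact h7 (hne' _ ((hBs.nx2 f).2 hfB))
    refine ⟨by omega, M.nx (M.nx e), hTB _ t2, ?_, Or.inr ⟨e, he, ?_⟩, fun x hx _ => ?_⟩
    · exact hG.foldSet.stay he (by omega) ((site_nx e).trans (site_nx _)) (hG.ne2 e)
        fun h => hG.ne1 _ h
    · exact ((site_nx e).trans (site_nx _)).symm
    · exact ((site_nx e).trans (site_nx _)).symm.trans ((hT x).1 (hall x hx))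

end Gen

namespace GenT

open Gen

variable [Fintype D] (hG : M.GenT A δ)

include hG

/-- **The core**: an admissible set with at most four boundary darts which are not radial contains exactly one
kept site. -/
theorem core (m : ℕ) : ∀ B : D → Prop, M.cut B = m → M.Sites B → (∀ d, B d → A d) →
    Adm M A δ B → nrad M δ B ≤ 4 → (∃ d, B d ∧ ¬ FR M (FS M A δ) d) →
      nrad M δ B = 4 ∧ Single M A δ B := by
  induction m using Nat.strong_induction_on with
  | _ m ih0 =>
  intro B hm hB hBA ha hn hne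
  have ih : ∀ B' : D → Prop, M.cut B' < M.cut B → M.Sites B' → (∀ d, B' d → A d) →
      Adm M A δ B' → nrad M δ B' ≤ 4 → (∃ d, B' d ∧ ¬ FR M (FS M A δ) d) →
        nrad M δ B' = 4 ∧ Single M A δ B' := fun B' h => ih0 _ (hm ▸ h) B' rfl
  have hc := cut_rad (δ := δ) hB
  obtain ⟨d, hd, hd'⟩ := hne
  have h4 := hG.ge4 hB hBA ⟨d, hd⟩
  have hof : ∀ o ∈ ofin M δ B, BD M B o ∧ Ring M δ (M.nx.symm o) ∧ Inn M A o := by
    intro o ho
    simp only [ofin, Finset.mem_filter, Finset.mem_univ, true_and] at ho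
    exact ⟨ho.1, ho.2.1, hG.inn_of (hBA _ ho.1.1) (Or.inl ho.2.2)⟩
  have hA : ∃ d, A d ∧ ¬ B d := by
    by_contra hno
    push Not at hno
    have e1 : M.cut B = 6 := by
      rw [← hG.toPatch.cut]
      exact cut_congr fun d => ⟨hBA d, hno d⟩
    have e2 : (ofin M δ B).card = 0 := by
      rw [Finset.card_eq_zero, Finset.eq_empty_iff_forall_notMem]
      intro o ho
      obtain ⟨h1, -, h3⟩ := hof o ho
      exact h1.2 (hno _ h3.2)
    omega
  by_cases o0 : (ofin M δ B).card = 0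
  · obtain ⟨q, hq, hqB⟩ := hG.four hB hBA hA (by omega)
    refine ⟨by omega, d, hd, hd', Or.inl ?_, fun e he _ => ?_⟩
    · rw [← deg_same ((hqB d).1 hd), hq]
    · exact ((hqB d).1 hd).symm.trans ((hqB e).1 he)
  by_cases o1 : (ofin M δ B).card = 1
  · obtain ⟨o, ho⟩ := Finset.card_pos.1 (show 0 < (ofin M δ B).card by omega)
    obtain ⟨bo, ro, io⟩ := hof o ho
    obtain ⟨k, hk⟩ := hG.legal.cut_even hB
    have hx : B (M.nx.symm o) := (hB.symm o).2 bo.1
    obtain ⟨e, he, hs⟩ := hG.exists_fs (hBA _ hx) ro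
    have heB : B e := (hB.same hs).1 hx
    by_cases h5 : M.cut B = 4
    · exfalso
      obtain ⟨q, hq, hqB⟩ := hG.four hB hBA hA h5
      exact hd' (hG.quad_fr he (by rw [← deg_same ((hqB e).1 heB), hq])
        (((hqB e).1 heB).symm.trans ((hqB d).1 hd)))
    · have h6 : M.cut B = 6 := by omega
      refine ⟨by omega, ?_⟩
      have two : ∀ {p q}, M.deg p = 4 → M.deg q = 4 →
          (∀ x, B x → M.SameSite p x ∨ M.SameSite q x) → M.SameSite p e → Single M A δ B := by
        intro p q hp4 hq4 hpq hpe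
        have h7 : ∀ x, B x → ¬ FR M (FS M A δ) x → M.SameSite q x := by
          intro x hxB hxR
          rcases hpq x hxB with h | h
          · exact absurd (hG.quad_fr he (by rw [← deg_same hpe, hp4]) (hpe.symm.trans h)) hxR
          · exact h
        have h8 := h7 d hd hd'
        exact ⟨d, hd, hd', Or.inl (by rw [← deg_same h8, hq4]), fun x hxB hxR =>
          h8.symm.trans (h7 x hxB hxR)⟩
      rcases hG.triv B hB hBA ⟨d, hd⟩ hA h6 ⟨_, hx, ro⟩ with ⟨q, hq⟩ | ⟨p, q, hp4, hq4, hpq⟩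
      · exact ⟨d, hd, hd', Or.inr ⟨e, he, ((hq d).1 hd).symm.trans ((hq e).1 heB)⟩,
          fun x hx _ => ((hq d).1 hd).symm.trans ((hq x).1 hx)⟩
      · rcases (hpq e).1 heB with h | h
        · exact two hp4 hq4 (fun x hx => (hpq x).1 hx) h
        · exact two hq4 hp4 (fun x hx => ((hpq x).1 hx).symm) h
  -- at least two arcs
  obtain ⟨T₀, hT₀, hT₀4⟩ := hG.exists_region hB hBA (by omega) (by omega)
  obtain ⟨T, hT, hcl⟩ := hT₀.classify hG.toGen hT₀4
  have lv : ∀ x, T x → ¬ T (M.al x) → Inn M A x → (B x ↔ ¬ B (M.al x)) := by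
    intro x h1 h2 h3
    have h4 := hT.bd x h3 fun h => h2 (h.1 h1)
    tauto
  obtain ⟨e, he, heT⟩ := hG.region_fs hT
  have s2 : M.SameSite e (M.nx (M.nx e)) := (site_nx e).trans (site_nx _)
  have s3 : M.SameSite e (M.nx.symm e) := site_nx_symm e
  have hcut := hG.toPatch.cut_eq hT.sub
  rcases hcl with ⟨q, hq, hqT⟩ | ⟨hc6, hsc2⟩
  · have hqe := (hqT e).1 heT
    have he4 : M.deg e = 4 := by rw [← deg_same hqe, hq]
    have hTe : ∀ x, T x ↔ M.SameSite e x := fun x => by
      rw [hqT]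
      exact ⟨fun h => hqe.symm.trans h, fun h => hqe.trans h⟩
    have hnl : ∀ x, M.SameSite e x → ¬ T (M.al x) := fun x hs h =>
      hG.nl x (hs.symm.trans ((hTe _).1 h))
    have l2 := lv _ ((hTe _).2 s2) (hnl _ s2) (hG.inn2 he)
    have l3 := lv _ ((hTe _).2 s3) (hnl _ s3) (hG.innp he he4)
    have b2 : B (M.nx (M.nx e)) ↔ B e := hB.nx2 e
    have b3 : B (M.nx.symm e) ↔ B e := hB.symm e
    by_cases hBe : B e
    · exfalso
      rcases ha.pos e he he4 hBe with h | h
      · exact l2.1 (b2.2 hBe) h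
      · exact l3.1 (b3.2 hBe) h.2
    · by_cases hl : ∀ i, e ≠ δ i
      · exfalso
        rcases ha.neg e he he4 hBe hl with h | h
        · exact hBe (b2.1 (l2.2 h))
        · exact hBe (b3.1 (l3.2 h))
      · have hsc := hG.scut_quad1 he4 hTe
        have hc4 : M.cut T = 4 := by
          rw [← he4, ← hG.legal.cut_site e]
          exact cut_congr hTe
        refine hG.step_add hB hBA ha hn ⟨d, hd, hd'⟩ hT
          (fun x hx hxB => hBe ((hB.same ((hTe x).1 hx)).2 hxB)) (by omega) ?_ ih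
        refine hsc.trans (cnt_pos (a := M.nx (M.nx e)) ⟨⟨⟨(hTe _).2 s2, hnl _ s2⟩,
          hG.inn2 he⟩, hG.nr2 he⟩)
  · have hne : (∃ d, T d) ∧ ∃ d, A d ∧ ¬ T d := TrivS.not hT.nt
    have hrg : ∃ d, T d ∧ Ring M δ d := ⟨e, heT, he.2.1⟩
    rcases hG.triv T hT.sites hT.sub hne.1 hne.2 hc6 hrg with ⟨q, hqT⟩ | ⟨p, q, hp4, hq4, hpq⟩
    · -- a hexagon with two ring edges
      have hqe := (hqT e).1 heT
      have hTe : ∀ x, T x ↔ M.SameSite e x := fun x => by
        rw [hqT]
        exact ⟨fun h => hqe.symm.trans h, fun h => hqe.trans h⟩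
      have he6 : M.deg e = 6 := by
        rw [← hc6, ← hG.legal.cut_site e]
        exact cut_congr fun x => (hTe x).symm
      have hnl : ∀ x, M.SameSite e x → ¬ T (M.al x) := fun x hs h =>
        hG.nl x (hs.symm.trans ((hTe _).1 h))
      by_cases hBe : B e
      · refine hG.step_del hB hBA ha hn he he6 hTe (fun x hx => (hB.same ((hTe x).1 hx)).1 hBe)
          (fun x hx hi => ?_) hsc2 ih
        exact (lv x hx (hnl _ ((hTe x).1 hx)) hi).1 ((hB.same ((hTe x).1 hx)).1 hBe)
      · refine hG.step_add hB hBA ha hn ⟨d, hd, hd'⟩ hT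
          (fun x hx hxB => hBe ((hB.same ((hTe x).1 hx)).2 hxB)) (by omega) ?_ ih
        rw [hsc2]
        refine cnt_two (a := M.nx (M.nx e)) (b := M.nx (M.nx (M.nx e)))
          (fun h => hG.ne1 _ h.symm) ⟨⟨⟨(hTe _).2 s2, hnl _ s2⟩, hG.inn2 he⟩, hG.nr2 he⟩
          ⟨⟨⟨(hTe _).2 (s2.trans (site_nx _)), hnl _ (s2.trans (site_nx _))⟩, hG.inn3 he⟩,
            hG.nr3 he he6⟩
    · -- two quads
      obtain ⟨i, hi, j, hj, hij⟩ := Finset.one_lt_card.1 (show 1 < scut δ T by omega)
      simp only [Finset.mem_filter, Finset.mem_univ, true_and] at hi hj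
      have hdeg : ∀ x, T x → M.deg x = 4 := by
        intro x hx
        rcases (hpq x).1 hx with h | h
        · rw [← deg_same h, hp4]
        · rw [← deg_same h, hq4]
      have hnij : ¬ M.SameSite (δ i) (δ j) := fun h => hij (hG.quad_one (hdeg _ hi) h)
      have hTij : ∀ x, T x → M.SameSite (δ i) x ∨ M.SameSite (δ j) x := by
        intro x hx
        rcases (hpq x).1 hx with h | h <;> rcases (hpq _).1 hi with h1 | h1 <;>
          rcases (hpq _).1 hj with h2 | h2
        · exact absurd (h1.symm.trans h2) hnij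
        · exact Or.inl (h1.symm.trans h)
        · exact Or.inr (h2.symm.trans h)
        · exact absurd (h1.symm.trans h2) hnij
        · exact absurd (h1.symm.trans h2) hnij
        · exact Or.inr (h2.symm.trans h)
        · exact Or.inl (h1.symm.trans h)
        · exact absurd (h1.symm.trans h2) hnij
      have hfs : ∀ k, T (δ k) → FS M A δ (δ k) := fun k hk => hG.fs_quad (hdeg _ hk)
      have hfr : ∀ x, T x → FR M (FS M A δ) x := by
        intro x hx
        rcases hTij x hx with h | h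
        · exact hG.quad_fr (hfs i hi) (hdeg _ hi) h
        · exact hG.quad_fr (hfs j hj) (hdeg _ hj) h
      have hk : ∀ k, T (δ k) → T (M.nx (M.nx (δ k))) ∧ ¬ T (M.al (M.nx (M.nx (δ k)))) ∧
          Inn M A (M.nx (M.nx (δ k))) ∧ ¬ B (δ k) := by
        intro k hk
        have h1 : T (M.nx (M.nx (δ k))) := (hT.sites.nx2 _).2 hk
        have h2 : ¬ T (M.al (M.nx (M.nx (δ k)))) := fun h =>
          hG.k2 (hfs k hk) (hdeg _ hk) (hfr _ h)
        have h3 := hG.inn2 (hfs k hk)
        refine ⟨h1, h2, h3, fun h => ?_⟩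
        rcases ha.pos _ (hfs k hk) (hdeg _ hk) h with h4 | h4
        · exact (lv _ h1 h2 h3).1 ((hB.nx2 _).2 h) h4
        · exact h4.1 k rfl
      obtain ⟨i1, i2, i3, i4⟩ := hk i hi
      obtain ⟨j1, j2, j3, j4⟩ := hk j hj
      refine hG.step_add hB hBA ha hn ⟨d, hd, hd'⟩ hT (fun x hx hxB => ?_) (by omega) ?_ ih
      · rcases hTij x hx with h | h
        · exact i4 ((hB.same h).2 hxB)
        · exact j4 ((hB.same h).2 hxB)
      · rw [hsc2]
        exact cnt_two (a := M.nx (M.nx (δ i))) (b := M.nx (M.nx (δ j)))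
          (fun h => hij (hG.bd.inj (M.nx.injective (M.nx.injective h))))
          ⟨⟨⟨i1, i2⟩, i3⟩, hG.nr2 (hfs i hi)⟩ ⟨⟨⟨j1, j2⟩, j3⟩, hG.nr2 (hfs j hj)⟩

end GenT

/-! ### cuts of the folded map -/

section

variable [Fintype D] {o : D → Bool} (hG : M.Gen A δ)
  (ho : ∀ d, o (M.nx d) = !o d) (ho' : ∀ d, o (M.al d) = !o d)

/-- the kept sites of a set of sites of the folded map -/
def KSt (M : DMap D) (F : D → Prop) (B' : {d // ¬ FR M F d} → Prop) (d : D) : Prop :=
  ∃ x : {d // ¬ FR M F d}, M.SameSite d x.1 ∧ B' x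

/-- the extension by the links both of whose inner neighbours are in the set -/
def Ext (M : DMap D) (A : D → Prop) (δ : ZMod 6 → D) (B' : {d // ¬ FR M (FS M A δ) d} → Prop)
    (d : D) : Prop :=
  KSt M (FS M A δ) B' d ∨ ∃ e, FS M A δ e ∧ M.deg e = 4 ∧ (∀ i, e ≠ δ i) ∧ M.SameSite e d ∧
    KSt M (FS M A δ) B' (M.al (M.nx (M.nx e))) ∧ KSt M (FS M A δ) B' (M.al (M.nx.symm e))

omit [Fintype D] in
theorem kst_sites {F : D → Prop} (B' : {d // ¬ FR M F d} → Prop) : M.Sites (KSt M F B') := by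
  intro d
  constructor
  · rintro ⟨x, h1, h2⟩
    exact ⟨x, (site_nx d).trans h1, h2⟩
  · rintro ⟨x, h1, h2⟩
    exact ⟨x, (site_nx d).symm.trans h1, h2⟩

namespace Gen

include hG

theorem kst_iff {B' : {d // ¬ FR M (FS M A δ) d} → Prop}
    (hB' : (hG.hat ho ho').Sites B') (x : {d // ¬ FR M (FS M A δ) d}) :
    KSt M (FS M A δ) B' x.1 ↔ B' x := by
  constructor
  · rintro ⟨y, h1, h2⟩
    exact (hB'.same ((fmap_sameSite hG.foldSet ho ho' x y).2 h1)).2 h2
  · intro h
    exact ⟨x, Equiv.Perm.SameCycle.refl _ _, h⟩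

theorem kst_not {B' : {d // ¬ FR M (FS M A δ) d} → Prop} {e x : D} (he : FS M A δ e)
    (h4 : M.deg e = 4) (hs : M.SameSite e x) : ¬ KSt M (FS M A δ) B' x := by
  rintro ⟨y, h1, -⟩
  exact y.2 (hG.quad_fr he h4 (hs.trans h1))

omit [Fintype D] in
theorem ext_sites (B' : {d // ¬ FR M (FS M A δ) d} → Prop) : M.Sites (Ext M A δ B') := by
  have := hG
  intro d
  unfold Ext
  rw [kst_sites B' d]
  have h1 : ∀ e, M.SameSite e (M.nx d) ↔ M.SameSite e d := fun e => M.sites_site e d
  simp only [h1]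

/-- a kept dart in the extension -/
theorem ext_kept {B' : {d // ¬ FR M (FS M A δ) d} → Prop}
    (hB' : (hG.hat ho ho').Sites B') (x : {d // ¬ FR M (FS M A δ) d}) :
    Ext M A δ B' x.1 ↔ B' x := by
  rw [← hG.kst_iff ho ho' hB' x]
  constructor
  · rintro (h | ⟨e, h1, h2, -, h3, -⟩)
    · exact h
    · exact absurd (hG.quad_fr h1 h2 h3) x.2
  · exact Or.inl

/-- a link in the extension -/
theorem ext_link {B' : {d // ¬ FR M (FS M A δ) d} → Prop} {e x : D} (he : FS M A δ e)
    (h4 : M.deg e = 4) (hs : M.SameSite e x) : Ext M A δ B' x ↔ (∀ i, e ≠ δ i) ∧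
      KSt M (FS M A δ) B' (M.al (M.nx (M.nx e))) ∧ KSt M (FS M A δ) B' (M.al (M.nx.symm e)) := by
  constructor
  · rintro (h | ⟨f, h1, h2, h3, h4', h5, h6⟩)
    · exact absurd h (hG.kst_not he h4 hs)
    · have h7 : f = e := hG.fs_uniq he h1 (hs.trans h4'.symm)
      subst h7
      exact ⟨h3, h5, h6⟩
  · rintro ⟨h1, h2, h3⟩
    exact Or.inr ⟨e, he, h4, h1, hs, h2, h3⟩

theorem ext_adm {B' : {d // ¬ FR M (FS M A δ) d} → Prop}
    (hB' : (hG.hat ho ho').Sites B') : Adm M A δ (Ext M A δ B') := by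
  constructor
  · intro e he h4 h
    rw [hG.ext_link he h4 (Equiv.Perm.SameCycle.refl _ _)] at h
    exact Or.inl (Or.inl h.2.1)
  · intro e he h4 h hl
    by_contra hn
    push Not at hn
    apply h
    rw [hG.ext_link he h4 (Equiv.Perm.SameCycle.refl _ _)]
    refine ⟨hl, ?_, ?_⟩
    · have h1 := (hG.ext_kept ho ho' hB' ⟨_, hG.k2 he h4⟩).1 hn.1
      exact (hG.kst_iff ho ho' hB' ⟨_, hG.k2 he h4⟩).2 h1
    · have h1 := (hG.ext_kept ho ho' hB' ⟨_, hG.k3 he h4 hl⟩).1 hn.2
      exact (hG.kst_iff ho ho' hB' ⟨_, hG.k3 he h4 hl⟩).2 h1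

/-- boundary darts which are not radial give boundary darts of the folded map -/
theorem nrad_le {B' : {d // ¬ FR M (FS M A δ) d} → Prop}
    (hB' : (hG.hat ho ho').Sites B') (hr : ∀ x, B' x → A x.1) :
    nrad M δ (Ext M A δ B') ≤ (hG.hat ho ho').cut B' := by
  set N := hG.hat ho ho' with hN
  have hEA : ∀ d, Ext M A δ B' d → A d := by
    rintro d (⟨x, h1, h2⟩ | ⟨e, h1, -, -, h3, -⟩)
    · exact (hG.toPatch.sites.same h1).2 (hr x h2)
    · exact (hG.toPatch.sites.same h3).1 h1.1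
  have hes := hG.ext_sites B'
  -- the opposite dart of `hd i` is not in the set
  have hroot : ∀ i, ¬ B' (N.al ⟨hd M δ i, hG.hd_stay i⟩) := by
    intro i h
    have h1 := hG.hat_hd ho ho' (i - 1)
    simp only [sub_add_cancel] at h1
    rw [hN, h1] at h
    exact hG.toPatch.notA _ (hr _ h)
  have key : ∀ d, BD M (Ext M A δ B') d → NR M δ d →
      ∃ x : {d // ¬ FR M (FS M A δ) d}, x.1 = (if Ring M δ d then M.nx.symm d else d) ∧
        B' x ∧ ¬ B' (N.al x) := by
    intro d hd hnr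
    by_cases hrg : Ring M δ d
    · -- ring edges
      rw [if_pos hrg]
      have h1 : ¬ A (M.al d) := fun h => hG.no_chord (hEA d hd.1) h hrg ((ring_al d).2 (hnr.1 hrg))
      obtain ⟨k, rfl⟩ := (hG.bd.mem d).1 ⟨hEA d hd.1, h1⟩
      have h4 : M.deg (δ k) ≠ 4 := fun h4 => by
        have h5 := hd.1
        rw [hG.ext_link (hG.fs_quad h4) h4 (Equiv.Perm.SameCycle.refl _ _)] at h5
        exact h5.1 k rfl
      have h5 : DMap.hd M δ k = M.nx.symm (δ k) := if_neg h4
      refine ⟨⟨DMap.hd M δ k, hG.hd_stay k⟩, h5, ?_, hroot k⟩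
      rw [← hG.ext_kept ho ho' hB']
      show Ext M A δ B' (DMap.hd M δ k)
      rw [h5]
      exact (hes.symm _).2 hd.1
    · rw [if_neg hrg]
      have hrg' : ¬ Ring M δ (M.nx.symm d) := fun h => hrg (hnr.2 h)
      have hdk : ¬ FR M (FS M A δ) d := by
        intro h
        rcases FoldSet.cases h with h1 | ⟨e, h1, rfl⟩ | ⟨e, h1, h4, rfl⟩ | ⟨e, h1, h4, rfl⟩
        · exact hrg h1.2.1
        · rw [Equiv.symm_apply_apply] at hrg'
          exact hrg' h1.2.1
        · have h5 := hd.1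
          rw [hG.ext_link h1 h4 ((site_nx e).trans (site_nx _))] at h5
          exact hd.2 (Or.inl h5.2.1)
        · have h5 := hd.1
          rw [hG.ext_link h1 h4 (((site_nx e).trans (site_nx _)).trans (site_nx _)),
            nx_four' h4] at h5
          exact hd.2 (Or.inl h5.2.2)
      have hdB : B' ⟨d, hdk⟩ := (hG.ext_kept ho ho' hB' ⟨d, hdk⟩).1 hd.1
      refine ⟨⟨d, hdk⟩, rfl, hdB, ?_⟩
      have hdK : KSt M (FS M A δ) B' d := (hG.kst_iff ho ho' hB' ⟨d, hdk⟩).2 hdB
      by_cases hR : FR M (FS M A δ) (M.al d)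
      · rcases FoldSet.cases hR with h1 | ⟨e, h1, h2⟩ | ⟨e, h1, h4, h2⟩ | ⟨e, h1, h4, h2⟩
        · exact absurd ((ring_al d).1 h1.2.1) hrg'
        · exfalso
          apply hrg
          rw [← ring_symm_al, h2, Equiv.symm_apply_apply]
          exact h1.2.1
        · -- the dart `al (nx (nx e))`
          have hde : d = M.al (M.nx (M.nx e)) := by rw [← h2, M.inv]
          by_cases hl : ∀ i, e ≠ δ i
          · have hk := hG.k3 h1 h4 hl
            have h5 : N.al ⟨d, hdk⟩ = ⟨M.al (M.nx.symm e), hk⟩ := by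
              refine smooth_al hG.foldSet.pairing ho' (fun r hr => hG.foldSet.col ho r hr) ?_
              refine DStrand.step hR ?_
              show DStrand _ _ _ (fmu M (FS M A δ) (M.al d)) (M.al (M.nx.symm e))
              rw [h2, hG.foldSet.mu2 h1 h4, nx_four' h4]
              rw [nx_four' h4] at hk
              exact DStrand.last hk
            rw [h5]
            intro h6
            apply hd.2
            rw [h2, hG.ext_link h1 h4 ((site_nx e).trans (site_nx _))]
            exact ⟨hl, by rw [← hde]; exact hdK, (hG.kst_iff ho ho' hB' ⟨_, hk⟩).2 h6⟩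
          · push Not at hl
            obtain ⟨i, rfl⟩ := hl
            have h5 : DMap.hd M δ i = d := by
              rw [hde]
              exact if_pos h4
            have h6 : (⟨d, hdk⟩ : {d // ¬ FR M (FS M A δ) d}) = ⟨DMap.hd M δ i, hG.hd_stay i⟩ :=
              Subtype.ext h5.symm
            rw [h6]
            exact hroot i
        · -- the dart `al (nx.symm e)`
          rw [← nx_four' h4] at h2
          have hde : d = M.al (M.nx.symm e) := by rw [← h2, M.inv]
          have hl : ∀ i, e ≠ δ i := by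
            rintro i rfl
            apply hrg'
            rw [← ring_al, h2]
            exact hG.toPatch.ring_prev i
          have hk := hG.k2 h1 h4
          have h5 : N.al ⟨d, hdk⟩ = ⟨M.al (M.nx (M.nx e)), hk⟩ := by
            refine smooth_al hG.foldSet.pairing ho' (fun r hr => hG.foldSet.col ho r hr) ?_
            refine DStrand.step hR ?_
            show DStrand _ _ _ (fmu M (FS M A δ) (M.al d)) (M.al (M.nx (M.nx e)))
            rw [h2, nx_four' h4, hG.foldSet.mu3 h1 h4]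
            exact DStrand.last hk
          rw [h5]
          intro h6
          apply hd.2
          rw [h2, hG.ext_link h1 h4 (site_nx_symm e)]
          exact ⟨hl, (hG.kst_iff ho ho' hB' ⟨_, hk⟩).2 h6, by rw [← hde]; exact hdK⟩
      · have h5 : N.al ⟨d, hdk⟩ = ⟨M.al d, hR⟩ :=
          fmap_al_of hG.foldSet ho ho' (d := ⟨d, hdk⟩) hR
        rw [h5, ← hG.ext_kept ho ho' hB']
        exact hd.2
  have e1 : nrad M δ (Ext M A δ B') =
      Nat.card {d : D // BD M (Ext M A δ B') d ∧ NR M δ d} := by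
    rw [Nat.card_eq_fintype_card, Fintype.card_subtype]
    unfold nrad
    congr 1
  have key' : ∀ d : {d : D // BD M (Ext M A δ B') d ∧ NR M δ d},
      ∃ x : {d // ¬ FR M (FS M A δ) d},
        x.1 = (if Ring M δ d.1 then M.nx.symm d.1 else d.1) ∧ B' x ∧ ¬ B' (N.al x) :=
    fun d => key d.1 d.2.1 d.2.2
  choose φ hφ using key'
  rw [e1]
  unfold DMap.cut
  refine Nat.card_le_card_of_injective
    (fun d => (⟨φ d, (hφ d).2⟩ : {x // B' x ∧ ¬ B' (N.al x)})) ?_
  intro d d' hdd
  have h1 : φ d = φ d' := congrArg Subtype.val hdd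
  have h2 := (hφ d).1
  have h3 := (hφ d').1
  have hd1 := d.2.2
  have hd2 := d'.2.2
  rw [← h1, h2] at h3
  apply Subtype.ext
  by_cases r1 : Ring M δ d.1 <;> by_cases r2 : Ring M δ d'.1
  · rw [if_pos r1, if_pos r2] at h3
    exact M.nx.symm.injective h3
  · rw [if_pos r1, if_neg r2] at h3
    exact absurd (h3 ▸ hd1.1 r1) r2
  · rw [if_neg r1, if_pos r2] at h3
    exact absurd (h3 ▸ hd2.1 r2) r1
  · rwa [if_neg r1, if_neg r2] at h3

end Gen

end

namespace GenT

open Gen

variable [Fintype D] {o : D → Bool} (hG : M.GenT A δ)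
  (ho : ∀ d, o (M.nx d) = !o d) (ho' : ∀ d, o (M.al d) = !o d)

include hG

/-- **Cuts of the folded map**. -/
theorem hat_cut {B' : {d // ¬ FR M (FS M A δ) d} → Prop}
    (hB' : (hG.hat ho ho').Sites B') (hr : ∀ x, B' x → A x.1) (hne : ∃ x, B' x) :
    4 ≤ (hG.hat ho ho').cut B' ∧ ((hG.hat ho ho').cut B' = 4 →
      ∃ x : {d // ¬ FR M (FS M A δ) d},
        (M.deg x.1 = 4 ∨ ∃ e, FS M A δ e ∧ M.SameSite x.1 e) ∧
          ∀ y, B' y ↔ (hG.hat ho ho').SameSite x y) := by
  have h1 := hG.nrad_le ho ho' hB' hr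
  obtain ⟨x, hx⟩ := hne
  have hEA : ∀ d, Ext M A δ B' d → A d := by
    rintro d (⟨x, h1, h2⟩ | ⟨e, h1, -, -, h3, -⟩)
    · exact (hG.toPatch.sites.same h1).2 (hr x h2)
    · exact (hG.toPatch.sites.same h3).1 h1.1
  have hcore : nrad M δ (Ext M A δ B') ≤ 4 →
      nrad M δ (Ext M A δ B') = 4 ∧ Single M A δ (Ext M A δ B') := fun h =>
    hG.core _ (Ext M A δ B') rfl (hG.ext_sites B') hEA (hG.ext_adm ho ho' hB') h
      ⟨x.1, (hG.ext_kept ho ho' hB' x).2 hx, x.2⟩
  refine ⟨?_, fun h4 => ?_⟩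
  · by_contra hlt
    have := (hcore (by omega)).1
    omega
  · obtain ⟨-, d, h2, h3, h5, h6⟩ := hcore (by omega)
    refine ⟨⟨d, h3⟩, h5, fun y => ⟨fun hy => ?_, fun hy => ?_⟩⟩
    · rw [fmap_sameSite]
      exact h6 y.1 ((hG.ext_kept ho ho' hB' y).2 hy) y.2
    · exact (hB'.same hy).1 ((hG.ext_kept ho ho' hB' ⟨d, h3⟩).1 h2)

/-- **The folded map is legal**. -/
theorem hat_legal_all : (hG.hat ho ho').Legal := by
  obtain ⟨r, hr⟩ := hG.root
  have key : ∀ {B' : {d // ¬ FR M (FS M A δ) d} → Prop}, (hG.hat ho ho').Sites B' →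
      (∀ x, B' x → A x.1) ∨ ∀ x, ¬ B' x → A x.1 := by
    intro B' hB'
    by_cases h : ∀ x, B' x → A x.1
    · exact Or.inl h
    · right
      push Not at h
      obtain ⟨x, hx, hxA⟩ := h
      intro y hy
      by_contra hyA
      have h1 : (hG.hat ho ho').SameSite x y := by
        rw [fmap_sameSite]
        exact ((hr _).1 hxA).symm.trans ((hr _).1 hyA)
      exact hy ((hB'.same h1).1 hx)
  refine ⟨hG.hat_plane ho ho', hG.hat_noloop ho ho', fun B' hB' h1 h2 => ?_,
    fun B' hB' h4 => ?_, hG.hat_deg ho ho'⟩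
  · rcases key hB' with h | h
    · exact (hG.hat_cut ho ho' hB' h h1).1
    · rw [← cut_not]
      exact (hG.hat_cut ho ho' hB'.not h h2).1
  · rcases key hB' with h | h
    · by_cases h1 : ∃ x, B' x
      · obtain ⟨x, -, hx⟩ := (hG.hat_cut ho ho' hB' h h1).2 h4
        exact Or.inl ⟨x, hx⟩
      · exfalso
        push Not at h1
        have h2 : (hG.hat ho ho').cut B' = 0 := by
          unfold DMap.cut
          rw [Nat.card_eq_zero]
          exact Or.inl ⟨fun x => h1 _ x.2.1⟩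
        omega
    · by_cases h1 : ∃ x, ¬ B' x
      · have h5 : (hG.hat ho ho').cut (fun x => ¬ B' x) = 4 := by rw [cut_not, h4]
        obtain ⟨x, -, hx⟩ := (hG.hat_cut ho ho' hB'.not h h1).2 h5
        exact Or.inr ⟨x, hx⟩
      · exfalso
        push Not at h1
        have h2 : (hG.hat ho ho').cut B' = 0 := by
          unfold DMap.cut
          rw [Nat.card_eq_zero]
          exact Or.inl ⟨fun x => x.2.2 (h1 _)⟩
        omega

end GenT



end DMap

end GT33
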