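import Pool.Agent.GT33.DHatP
import Pool.Agent.GT33.TopoB

/-!
# GT33 module TOPOC: the folded ring of a generic patch is a legal patch
-/

open Classical

namespace GT33

namespace DMap

variable {D : Type} {M : DMap D} {A : D → Prop} {δ : ZMod 6 → D}

namespace GenT

variable [Fintype D] {o : D → Bool} (hG : M.GenT A δ)
  (ho : ∀ d, o (M.nx d) = !o d) (ho' : ∀ d, o (M.al d) = !o d)

theorem hatCut : hG.HatCut ho ho' := fun B' hB' hr hne =>
  ⟨(hG.hat_cut ho ho' hB' hr hne).1, fun h => by
    obtain ⟨x, -, hx⟩ := (hG.hat_cut ho ho' hB' hr hne).2 h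
    exact ⟨x, hx⟩⟩

/-- **The folded ring of a generic patch is a patch.** -/
theorem hat_isPatch : (hG.hat ho ho').Patch (fun x => A x.1) hG.hdr :=
  hG.hat_patch (hG.hatCut ho ho')

end GenT

end DMap

end GT33
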