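import Pool.Agent.GT33.Obj

/-!
# GT33 module UNION: gluing of two regions

`Glued`: the states of two disjoint regions `B`, `C` give local states, strands and sums of the union `A`.
`kδ`: the leaving darts of a region without a corner quad; `Bd.krem`; `RealL.krem`: gluing the quad and the rest.
-/

open Classical

namespace GT33

namespace DMap

variable {D : Type} {M : DMap D}

/-- the strands, sums and local states of the union of two regions -/
structure Glued [Fintype D] (M : DMap D) (L : LS D) (A B C : D → Prop) {n m : ℕ} (β : ZMod n → D)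
    (γ : ZMod m → D) (sB : PState n) (sC : PState m) (μ : D → D) (ω : D → ℕ) : Prop where
  loc : ∀ d, A d → M.LocalL L μ ω d
  strB : ∀ x, M.Str A μ (β x) (β (sB.m x))
  strC : ∀ y, M.Str A μ (γ y) (γ (sC.m y))
  all : ∀ d, A d → (∃ x, M.Str A μ d (β x)) ∨ ∃ y, M.Str A μ d (γ y)
  sum : ∀ d, M.usum A ω d = M.usum B ω d + M.usum C ω d
  bB : ∀ x, M.usum B ω (β x) = sB.u x
  bC : ∀ y, M.usum C ω (γ y) = sC.u y
  iB : ∀ d, (∀ e, M.SameNode d e → B e) → M.usum B ω d = 3
  iC : ∀ d, (∀ e, M.SameNode d e → C e) → M.usum C ω d = 3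

theorem usum_none [Fintype D] {B : D → Prop} {ω : D → ℕ} {d : D} (h : ∀ e, M.SameNode d e → ¬ B e) :
    M.usum B ω d = 0 := by
  unfold usum
  apply Finset.sum_eq_zero
  intro x hx
  rw [mem_nodeIn] at hx
  exact absurd hx.2 (h x hx.1)

/-- states of two disjoint regions -/
theorem RealL.union [Fintype D] {L : LS D} {A B C : D → Prop} {n m : ℕ} {β : ZMod n → D}
    {γ : ZMod m → D} {sB : PState n} {sC : PState m} {μ₁ μ₂ : D → D} {ω₁ ω₂ : D → ℕ}
    (hB : M.Sites B) (hC : M.Sites C) (hA : ∀ d, A d ↔ B d ∨ C d) (hd : ∀ d, B d → ¬ C d)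
    (h1 : M.RealL L B β sB μ₁ ω₁) (h2 : M.RealL L C γ sC μ₂ ω₂) :
    M.Glued L A B C β γ sB sC (fun d => if B d then μ₁ d else μ₂ d)
      (fun d => if B d then ω₁ d else ω₂ d) := by
  set μ : D → D := fun d => if B d then μ₁ d else μ₂ d with hμ
  set ω : D → ℕ := fun d => if B d then ω₁ d else ω₂ d with hω
  have m1 : ∀ d, B d → μ₁ d = μ d := fun d h => by simp only [hμ, if_pos h]
  have m2 : ∀ d, C d → μ₂ d = μ d := fun d h => by
    simp only [hμ, if_neg fun h' => hd d h' h]
  have w1 : ∀ d, B d → ω₁ d = ω d := fun d h => by simp only [hω, if_pos h]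
  have w2 : ∀ d, C d → ω₂ d = ω d := fun d h => by
    simp only [hω, if_neg fun h' => hd d h' h]
  have hBA : ∀ d, B d → A d := fun d h => (hA d).2 (Or.inl h)
  have hCA : ∀ d, C d → A d := fun d h => (hA d).2 (Or.inr h)
  refine ⟨fun d h => ?_, fun x => (h1.str x).mono hBA m1, fun y => (h2.str y).mono hCA m2,
    fun d h => ?_, fun d => ?_, fun x => ?_, fun y => ?_, fun d h => ?_, fun d h => ?_⟩
  · rcases (hA d).1 h with h | h
    · exact (h1.loc d h).congr hB m1 w1 h
    · exact (h2.loc d h).congr hC m2 w2 h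
  · rcases (hA d).1 h with h | h
    · obtain ⟨x, hx⟩ := h1.all d h
      exact Or.inl ⟨x, hx.mono hBA m1⟩
    · obtain ⟨y, hy⟩ := h2.all d h
      exact Or.inr ⟨y, hy.mono hCA m2⟩
  · rw [usum_split (M := M) (A := A) (B := B) ω d]
    congr 1 <;>
    · unfold usum
      refine Finset.sum_congr ?_ fun _ _ => rfl
      ext x
      simp only [mem_nodeIn, hA]
      have := hd x
      tauto
  · rw [← h1.bdry x]
    exact (usum_congr fun e _ he => w1 e he).symm
  · rw [← h2.bdry y]
    exact (usum_congr fun e _ he => w2 e he).symm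
  · rw [← h1.inner d h]
    exact (usum_congr fun e _ he => w1 e he).symm
  · rw [← h2.inner d h]
    exact (usum_congr fun e _ he => w2 e he).symm

/-! ### single sites -/

/-- the leaving darts of a site -/
theorem SiteNum.mem_iff [Finite D] {n : ℕ} (hn : n ≠ 0) {γ : ZMod n → D} (hγ : M.SiteNum n γ) (d : D) :
    M.SameSite (γ 0) d ↔ ∃ i, γ i = d := by
  constructor
  · exact fun hd => hγ.mem hd
  · rintro ⟨i, rfl⟩
    exact hγ.same hn 0 i

/-- a site in a local state -/
theorem RealL.site [Fintype D] (h : M.Legal) {L : LS D} {n : ℕ} (hn : n ≠ 0) {γ : ZMod n → D}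
    (hγ : M.SiteNum n γ) {t : PState n} (ht : L n γ t) :
    M.RealL L (M.SameSite (γ 0)) γ t (fun d => if h : ∃ i, γ i = d then γ (t.m h.choose) else d)
      (fun d => if h : ∃ i, γ i = d then t.u h.choose else 0) := by
  set μ : D → D := fun d => if h : ∃ i, γ i = d then γ (t.m h.choose) else d with hμ
  set ω : D → ℕ := fun d => if h : ∃ i, γ i = d then t.u h.choose else 0 with hω
  have e1 : ∀ i, μ (γ i) = γ (t.m i) := by
    intro i
    have h : ∃ j, γ j = γ i := ⟨i, rfl⟩
    simp only [hμ, dif_pos h]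
    rw [hγ.inj h.choose_spec]
  have e2 : ∀ i, ω (γ i) = t.u i := by
    intro i
    have h : ∃ j, γ j = γ i := ⟨i, rfl⟩
    simp only [hω, dif_pos h]
    rw [hγ.inj h.choose_spec]
  have hmem := fun d => hγ.mem_iff hn d
  refine ⟨fun d hd => ?_, fun i => ?_, fun d hd => ?_, fun i => ?_, fun d hd => ?_⟩
  · exact ⟨n, γ, t, hn, hγ, (hmem d).1 hd, ht, fun i => ⟨e1 i, e2 i⟩⟩
  · exact Relation.EqvGen.rel _ _ ⟨(hmem _).2 ⟨i, rfl⟩, Or.inl (e1 i).symm⟩
  · obtain ⟨i, rfl⟩ := (hmem d).1 hd
    exact ⟨i, Relation.EqvGen.refl _⟩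
  · have h1 : M.nodeIn (M.SameSite (γ 0)) (γ i) = {γ i} := by
      ext e
      rw [mem_nodeIn, Finset.mem_singleton]
      constructor
      · rintro ⟨h2, h3⟩
        exact (h.node_inj ((hγ.same hn i 0).trans h3) h2).symm
      · rintro rfl
        exact ⟨Equiv.Perm.SameCycle.refl _ _, hγ.same hn 0 i⟩
    unfold usum
    rw [h1, Finset.sum_singleton, e2]
  · exfalso
    have h1 : M.SameSite (γ 0) (M.fs d) := hd _ ⟨1, by simp⟩
    have h2 : M.SameSite (γ 0) d := hd _ (Equiv.Perm.SameCycle.refl _ _)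
    have h3 : M.SameSite (M.fs d) (M.al d) := ⟨1, by rw [zpow_one]; exact nx_fs M d⟩
    exact h.noloop d (h2.symm.trans (h1.trans h3))

end DMap

end GT33
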