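import Pool.Agent.GT33.HidK

/-!
# GT33 module UPD: other data for one box

`Boxes.upd M B γ b k s`: the box at the site of `γ` has the relation `b`, the corner set `k` and the star label `s` in
the numbering `γ`.  `Obj.upd`: the object with the new data.  `Obj.krel_upd`: if the old relation of a corner
hexagon arises from the new one by adding a corner quad, then the same holds for the object.
-/

open Classical

namespace GT33

theorem rotf_rotf (F : Flags) (c d : ZMod 6) : (F.rot c).rot d = F.rot (d + c) := by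
  unfold Flags.rot
  simp only [add_assoc]

theorem rotf_zero (F : Flags) : F.rot 0 = F := by
  unfold Flags.rot
  simp only [add_zero]

theorem rots_rots {n : ℕ} (t : PState n) (c d : ZMod n) : (t.rot c).rot d = t.rot (d + c) := by
  unfold PState.rot
  simp only [add_assoc, sub_sub, add_comm c d]

theorem rots_zero {n : ℕ} (t : PState n) : t.rot 0 = t := by
  unfold PState.rot
  simp only [add_zero, sub_zero]

/-- the rotated relation -/
def Rel.rotR (b : Rel) (c : ZMod 6) : Rel := fun F t => b (F.rot (-c)) (t.rot (-c))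

theorem Rel.rotR_rotR (b : Rel) (c d : ZMod 6) : (b.rotR c).rotR d = b.rotR (c + d) := by
  funext F t
  show b ((F.rot (-d)).rot (-c)) ((t.rot (-d)).rot (-c)) = b (F.rot (-(c + d))) (t.rot (-(c + d)))
  rw [rotf_rotf, rots_rots, neg_add]

theorem Rel.rotR_zero (b : Rel) : b.rotR 0 = b := by
  funext F t
  show b (F.rot (-0)) (t.rot (-0)) = b F t
  rw [neg_zero, rotf_zero, rots_zero]

namespace DMap

variable {D : Type} {M : DMap D} {A : D → Prop} {δ : ZMod 6 → D} {B : Boxes D} {γ : ZMod 6 → D}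
  {b : Rel} {k : ZMod 6 → Prop} {s : Prop}

/-- the boxes with new data at the site of `γ` -/
def _root_.GT33.Boxes.upd (M : DMap D) (B : Boxes D) (γ : ZMod 6 → D) (b : Rel) (k : ZMod 6 → Prop)
    (s : Prop) : Boxes D where
  β η F t := (∃ c, (∀ i, η i = γ (i + c)) ∧ b.rotR c F t) ∨
    (¬ M.SameSite (γ 0) (η 0) ∧ B.β η F t)
  κ η j := (∃ c, (∀ i, η i = γ (i + c)) ∧ k (j + c)) ∨ (¬ M.SameSite (γ 0) (η 0) ∧ B.κ η j)
  σ η := (∃ c, (∀ i, η i = γ (i + c)) ∧ s) ∨ (¬ M.SameSite (γ 0) (η 0) ∧ B.σ η)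

section

variable (hγ : M.SiteNum 6 γ)

include hγ

theorem upd_shift {c c' : ZMod 6} (h : ∀ i, γ (i + c) = γ (i + c')) : c = c' := by
  have := hγ.inj (h 0)
  simpa using this

theorem upd_β {c : ZMod 6} : (B.upd M γ b k s).β (fun i => γ (i + c)) = b.rotR c := by
  funext F t
  apply propext
  constructor
  · rintro (⟨c', h1, h2⟩ | ⟨h1, -⟩)
    · rwa [upd_shift hγ h1]
    · exact absurd (hγ.same (by decide) 0 _) h1
  · intro h
    exact Or.inl ⟨c, fun _ => rfl, h⟩

theorem upd_β0 : (B.upd M γ b k s).β γ = b := by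
  have h := upd_β (B := B) (b := b) (k := k) (s := s) hγ (c := 0)
  rw [Rel.rotR_zero] at h
  simpa using h

theorem upd_κ {c : ZMod 6} : (B.upd M γ b k s).κ (fun i => γ (i + c)) = fun j => k (j + c) := by
  funext j
  apply propext
  constructor
  · rintro (⟨c', h1, h2⟩ | ⟨h1, -⟩)
    · rwa [upd_shift hγ h1]
    · exact absurd (hγ.same (by decide) 0 _) h1
  · intro h
    exact Or.inl ⟨c, fun _ => rfl, h⟩

theorem upd_σ {c : ZMod 6} : (B.upd M γ b k s).σ (fun i => γ (i + c)) = s := by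
  apply propext
  constructor
  · rintro (⟨c', h1, h2⟩ | ⟨h1, -⟩)
    · exact h2
    · exact absurd (hγ.same (by decide) 0 _) h1
  · intro h
    exact Or.inl ⟨c, fun _ => rfl, h⟩

theorem upd_off {η : ZMod 6 → D} (h : ¬ M.SameSite (γ 0) (η 0)) :
    (B.upd M γ b k s).β η = B.β η ∧ (B.upd M γ b k s).κ η = B.κ η ∧
      (B.upd M γ b k s).σ η = B.σ η := by
  have key : ∀ c, ¬ ∀ i, η i = γ (i + c) := fun c h1 => h (by
    rw [h1]
    exact hγ.same (by decide) 0 _)
  refine ⟨?_, ?_, ?_⟩
  · funext F t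
    apply propext
    exact ⟨fun h1 => h1.elim (fun ⟨c, h2, _⟩ => absurd h2 (key c)) fun h2 => h2.2,
      fun h1 => Or.inr ⟨h, h1⟩⟩
  · funext j
    apply propext
    exact ⟨fun h1 => h1.elim (fun ⟨c, h2, _⟩ => absurd h2 (key c)) fun h2 => h2.2,
      fun h1 => Or.inr ⟨h, h1⟩⟩
  · apply propext
    exact ⟨fun h1 => h1.elim (fun ⟨c, h2, _⟩ => absurd h2 (key c)) fun h2 => h2.2,
      fun h1 => Or.inr ⟨h, h1⟩⟩

end

variable {Good : (ZMod 6 → Prop) → Prop → Rel → Prop}

/-- **the object with new data for one box** -/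
theorem Obj.upd [Finite D] (hO : M.Obj Good A δ B) (hγ : M.SiteNum 6 γ)
    (hanti : ∀ F G t, F.Le G → b G t → b F t) (hnice : ∀ F t, b F t → Nice t)
    (hgood : ∀ c, Good (fun j => k (j + c)) s (b.rotR c)) :
    M.Obj Good A δ (B.upd M γ b k s) := by
  have hle : ∀ {F G : Flags} (c : ZMod 6), F.Le G → (F.rot c).Le (G.rot c) := fun c h =>
    ⟨fun j T x => h.lk _ T x, fun j T x => h.le _ T x, fun j T x => h.ri _ T x,
      fun j x => h.st _ x⟩
  have hcase : ∀ η : ZMod 6 → D, M.SiteNum 6 η → (∃ c, η = fun i => γ (i + c)) ∨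
      ¬ M.SameSite (γ 0) (η 0) := by
    intro η hη
    by_cases h : M.SameSite (γ 0) (η 0)
    · obtain ⟨c, hc⟩ := hγ.eq_rot hη (by decide) h
      exact Or.inl ⟨c, funext hc⟩
    · exact Or.inr h
  have hsh : ∀ c c' : ZMod 6, (fun i => γ (i + c + c')) = fun i => γ (i + (c + c')) := fun c c' => by
    simp only [add_assoc]
  refine ⟨hO.patch, hO.touch, fun η F G t hη h0 hFG hβ => ?_, fun η F t c hη h0 hβ => ?_,
    fun η a c hη h0 => ?_, fun η hη h0 => ?_, fun η F t hη h0 hβ => ?_⟩
  · rcases hcase η hη with ⟨c, rfl⟩ | h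
    · rw [upd_β hγ] at hβ ⊢
      exact hanti _ _ _ (hle _ hFG) hβ
    · rw [(upd_off hγ h).1] at hβ ⊢
      exact hO.anti η F G t hη h0 hFG hβ
  · rcases hcase η hη with ⟨d, rfl⟩ | h
    · rw [upd_β hγ] at hβ
      have e : (fun i => (fun i => γ (i + d)) (i + c)) = fun i => γ (i + (c + d)) := by
        simp only [add_assoc]
      show (B.upd M γ b k s).β (fun i => (fun i => γ (i + d)) (i + c)) _ _
      rw [e, upd_β hγ]
      show b ((F.rot c).rot (-(c + d))) ((t.rot c).rot (-(c + d)))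
      rw [rotf_rotf, rots_rots, show -(c + d) + c = -d by ring]
      exact hβ
    · have h' : ¬ M.SameSite (γ 0) (η (0 + c)) := fun h2 => h (h2.trans (hη.same (by decide) _ _))
      rw [(upd_off hγ h).1] at hβ
      rw [(upd_off hγ (η := fun i => η (i + c)) h').1]
      exact hO.rot η F t c hη h0 hβ
  · rcases hcase η hη with ⟨d, rfl⟩ | h
    · have e : (fun i => (fun i => γ (i + d)) (i + c)) = fun i => γ (i + (c + d)) := by
        simp only [add_assoc]
      show (B.upd M γ b k s).κ (fun i => (fun i => γ (i + d)) (i + c)) a ↔ _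
      rw [e, upd_κ hγ, upd_κ hγ]
      show k (a + (c + d)) ↔ k (a + c + d)
      rw [add_assoc]
    · have h' : ¬ M.SameSite (γ 0) (η (0 + c)) := fun h2 => h (h2.trans (hη.same (by decide) _ _))
      rw [(upd_off hγ h).2.1, (upd_off hγ (η := fun i => η (i + c)) h').2.1]
      exact hO.krot η a c hη h0
  · rcases hcase η hη with ⟨c, rfl⟩ | h
    · rw [upd_β hγ, upd_κ hγ, upd_σ hγ]
      exact hgood c
    · obtain ⟨h1, h2, h3⟩ := upd_off (B := B) (b := b) (k := k) (s := s) hγ h
      rw [h1, h2, h3]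
      exact hO.good η hη h0
  · rcases hcase η hη with ⟨c, rfl⟩ | h
    · rw [upd_β hγ] at hβ
      have h1 := (hnice _ _ hβ).rot c
      rwa [rots_rots, add_neg_cancel, rots_zero] at h1
    · rw [(upd_off hγ h).1] at hβ
      exact hO.nice η F t hη h0 hβ

/-- **removing a corner quad inside of a corner hexagon** -/
theorem Obj.krel_upd [Fintype D] (hO : M.Obj Good A δ B) (hγ : M.SiteNum 6 γ) {a i : ZMod 6}
    (h0 : γ a = δ i) (h1 : γ (a + 1) = δ (i + 1)) (hnice : ∀ F t, b F t → Nice t)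
    (hK : KRel a b (B.β γ)) :
    KRel i (Rz M A δ (B.upd M γ b k s).β) (Rz M A δ B.β) := by
  have hγA : A (γ 0) := by
    have h2 := hO.patch.inA i
    rw [← h0] at h2
    exact (hO.patch.sites.same (hγ.same (by decide) a 0)).1 h2
  refine krel_hidden hO.patch hγ h0 h1 hγA hO.anti (fun η hη h F t hβ => ?_) (fun c F t hβ => ?_)
    (fun F t hβ => ?_) ?_
  · rwa [(upd_off hγ h).1] at hβ
  · rw [upd_β hγ] at hβ
    rw [upd_β0 hγ]
    exact hβ
  · rw [upd_β0 hγ] at hβ
    exact ⟨(hnice F t hβ).mm, (hnice F t hβ).mne⟩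
  · rw [upd_β0 hγ]
    exact hK

/-- the corner set of the object with new data for one box -/
theorem KS_upd (hγ : M.SiteNum 6 γ) [Finite D] {a i : ZMod 6} (h0 : γ a = δ i) (j : ZMod 6) :
    KS M (B.upd M γ b k s).κ δ j ↔
      if M.SameSite (δ i) (δ j) then (∃ c, γ c = δ j ∧ M.nx (δ j) = δ (j + 1) ∧ k c)
        else KS M B.κ δ j := by
  have h6 : ∀ c, M.deg (γ c) = 6 := fun c => hγ.deg c
  have hs0 : M.SameSite (γ 0) (δ i) := by
    rw [← h0]
    exact hγ.same (by decide) 0 a
  by_cases hj : M.SameSite (δ i) (δ j)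
  · rw [if_pos hj]
    obtain ⟨c, hc⟩ := hγ.mem (hs0.trans hj)
    constructor
    · rintro ⟨h1, h2 | ⟨η, e, h2, h3, h4⟩⟩
      · rw [← hc, h6] at h2
        omega
      · refine ⟨c, hc, h1, ?_⟩
        have h5 : M.SameSite (γ 0) (η 0) := by
          refine (hs0.trans hj).trans ?_
          rw [← h3]
          exact h2.same (by decide) e 0
        obtain ⟨d, hd⟩ := hγ.eq_rot h2 (by decide) h5
        have hd' : η = fun i => γ (i + d) := funext hd
        subst hd'
        rw [upd_κ hγ] at h4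
        have h7 : e + d = c := hγ.inj (by rw [hc]; exact h3)
        rwa [← h7]
    · rintro ⟨c', h1, h2, h3⟩
      refine ⟨h2, Or.inr ⟨γ, c', hγ, h1, ?_⟩⟩
      have h8 := upd_κ (B := B) (b := b) (k := k) (s := s) hγ (c := 0)
      simp only [add_zero] at h8
      rw [h8]
      exact h3
  · rw [if_neg hj]
    unfold KS
    refine and_congr_right fun _ => or_congr_right ?_
    constructor
    · rintro ⟨η, e, h2, h3, h4⟩
      have h5 : ¬ M.SameSite (γ 0) (η 0) := fun h5 => hj (by
        refine hs0.symm.trans (h5.trans ?_)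
        rw [← h3]
        exact h2.same (by decide) 0 e)
      rw [(upd_off hγ h5).2.1] at h4
      exact ⟨η, e, h2, h3, h4⟩
    · rintro ⟨η, e, h2, h3, h4⟩
      have h5 : ¬ M.SameSite (γ 0) (η 0) := fun h5 => hj (by
        refine hs0.symm.trans (h5.trans ?_)
        rw [← h3]
        exact h2.same (by decide) 0 e)
      refine ⟨η, e, h2, h3, ?_⟩
      rw [(upd_off hγ h5).2.1]
      exact h4

end DMap

end GT33
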